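import Pool.Agent.H11.CL3

namespace Pool.Agent.H21.Sim

open Pool.Agent.H11.PT Polynomial Turing Turing.TM2

def unraw : Pg := .loop 0 (some false) (.seq (.pop 0) (.ite 0 (some true)
  (.seq (.pop 0) (.seq (.pop 0) (.seq (.pop 0) (.push 1 true)))) (.seq (.pop 0) (.push 1 false))))

lemma unraw_run (w b : List Bool) :
    Run unraw (s3 (bits w) b []) (s3 [false] (w.reverse ++ b) []) (7 * w.length + 1) := by
  induction w generalizing b with
  | nil => exact Run.loopD rfl
  | cons a w ih =>
    cases a
    · exact (Run.loopC (s := s3 (true :: false :: bits w) b []) (by simp [s3, cs]) ((pop0 _ _ _).seq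
        (Run.iteF (by simp [s3, cs]) ((pop0 _ _ _).seq (push1 _ _ _ _)))) (ih (false :: b))).cast rfl
        (by simp) (by simp; omega)
    · exact (Run.loopC (s := s3 (true :: true :: false :: false :: bits w) b []) (by simp [s3, cs])
        ((pop0 _ _ _).seq (Run.iteT (by simp [s3, cs]) ((pop0 _ _ _).seq ((pop0 _ _ _).seq
          ((pop0 _ _ _).seq (push1 _ _ _ _)))))) (ih (true :: b))).cast rfl (by simp) (by simp; omega)

lemma rt_unraw : RT bits (fun w : List Bool => w) (fun w => w) := by
  refine ⟨.seq unraw (.seq (.pop 0) (mv 1 0)), C 11 * X + C 3, fun w => ?_⟩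
  rw [cs_E, cs_E]
  refine ((unraw_run w []).seq ((pop0 _ _ _).seq (mv10 _ _ _))).cast rfl (by simp) ?_
  have := len_le_bits w
  simp; omega

lemma sz_le (N : ℕ) (c : List ℕ) (h : ∀ a ∈ c, a ≤ N) : sz c ≤ sz (List.replicate c.length N) := by
  induction c with
  | nil => simp
  | cons a c ih =>
    have := ih fun a ha => h a (List.mem_cons_of_mem _ ha)
    have := h a List.mem_cons_self
    simp [List.replicate_succ] at *; omega

def stp (D N b : ℕ) (tab : List Ent) (s : List ℕ) : List ℕ :=
  (List.range s.length).map fun j => min N ((tab.filter fun e => (e.1, e.2.1, e.2.2.1) ==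
    (min j D, (List.range D).map fun i => s.getD i b,
      (List.range (2 * D + 1)).map fun i => s.getD (j + i - D) b)).headD (0, [], [], 0)).2.2.2

theorem sim {α β : Type} [Enc α] {ea : α → List Bool} {eb : β → List Bool} {f : α → β}
    (hea : PT ea) (h : PolyTime ea eb f) : PT fun x => eb (f x) := by
  classical
  obtain ⟨h⟩ := h
  obtain ⟨R, en, hn, hr, hv, hi⟩ := exists_rows h.tm
  obtain ⟨tab, htab⟩ := R.exists_tab
  let cd : Bool → Option Bool → ℕ := fun b o => en (ly h.tm h.inputAlphabet.invFun b o)
  let ini : α → h.tm.Cfg := fun x => initList h.tm ((ea x).map h.inputAlphabet.invFun)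
  let TT : α → ℕ := fun x => h.time.eval (ea x).length
  let W : α → ℕ := fun x => (ea x).length + R.D + TT x * R.D
  have hrun : ∀ x, R.nxt^[TT x] (ini x) = haltList h.tm ((eb (f x)).map h.outputAlphabet.invFun) := by
    intro x
    obtain ⟨⟨n, h1⟩, h2⟩ := h.outputsFun x
    have h3 := nxtC_of_evals h.tm.m n _ _ h1
    obtain ⟨d, hd⟩ := Nat.exists_eq_add_of_le' h2
    have hd' : TT x = d + n := hd
    rw [hn, hd', Function.iterate_add_apply]
    exact (congrArg _ h3).trans (nxtC_halt _ _ rfl _)
  have hrow : ∀ x j, R.row (ini x) j = cd (j == 0) (ea x)[j]? := fun x j => by rw [hr, lay_init]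
  have hval : ∀ t x, R.Valid (R.nxt^[t] (ini x)) := fun t x => by
    induction t with
    | zero => exact hv _
    | succ t ih => rw [Function.iterate_succ_apply']; exact R.val_nxt _ ih
  have hD := R.hD
  have far : ∀ c : h.tm.Cfg, ∃ m, ∀ j, m ≤ j → R.row c j = cd false none := fun c => by
    have := h.tm.kFin
    obtain ⟨m, hm⟩ := (Set.finite_range fun k => (c.stk k).length).bddAbove
    refine ⟨m + 1, fun j hj => ?_⟩
    rw [hr]
    refine congrArg en (Prod.ext (by simp [lay, ly]; omega) (funext fun k => ?_))
    have : (c.stk k).length ≤ m := hm ⟨k, rfl⟩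
    simp only [lay, ly, initList]
    rw [List.getElem?_eq_none (by omega)]
    split_ifs with hk
    · subst hk; rfl
    · rfl
  have blank : ∀ x t j, (ea x).length + R.D + t * R.D ≤ j → R.row (R.nxt^[t] (ini x)) j = cd false none := by
    intro x t
    induction t with
    | zero =>
      intro j hj
      rw [Function.iterate_zero, id, hrow, List.getElem?_eq_none (by omega), beq_false_of_ne (by omega)]
    | succ t ih =>
      intro j hj
      rw [Function.iterate_succ_apply']
      obtain ⟨m, hm⟩ := far (R.nxt (R.nxt^[t] (ini x)))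
      rw [add_mul] at hj
      rw [← hm (m + j) (by omega)]
      exact R.loc _ _ _ _ (hval t x) (hval t x) (by omega) (fun _ _ => rfl) fun i _ => by
        rw [ih _ (by omega), ih _ (by omega)]
  let i0 : α → List ℕ := fun x => (List.range (W x)).map fun j => min R.N (cd (j == 0) (ea x)[j]?)
  have key : ∀ x, ∀ t ≤ TT x, (stp R.D R.N (cd false none) tab)^[t] (i0 x) =
      (List.range (W x)).map (R.row (R.nxt^[t] (ini x))) := fun x t => by
    induction t with
    | zero =>
      exact fun _ => List.map_congr_left fun j _ => by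
        rw [← hrow]; exact min_eq_right (R.lt _ (hv _) _).le
    | succ t ih =>
      intro ht
      rw [Function.iterate_succ_apply', ih (by omega), Function.iterate_succ_apply', stp]
      have g : ∀ j, ((List.range (W x)).map (R.row (R.nxt^[t] (ini x)))).getD j (cd false none) =
          R.row (R.nxt^[t] (ini x)) j := fun j => by
        by_cases hj : j < W x
        · simp [hj]
        · have : t * R.D ≤ TT x * R.D := Nat.mul_le_mul_right _ (by omega)
          rw [blank x t j (by simp only [W] at hj; omega)]; simp [hj]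
      simp only [g, List.length_map, List.length_range]
      refine List.map_congr_left fun j _ => ?_
      generalize hp : (fun e : Ent => _) = p
      have m1 : R.entry (R.nxt^[t] (ini x)) j ∈ tab.filter p :=
        List.mem_filter.2 ⟨(htab _).2 ⟨_, _, hval t x, rfl⟩, by rw [← hp]; exact beq_self_eq_true _⟩
      cases hl : tab.filter p with
      | nil => simp [hl] at m1
      | cons e l =>
        obtain ⟨m2, m3⟩ := List.mem_filter.1 (hl ▸ List.mem_cons_self : e ∈ tab.filter p)
        obtain ⟨c', j', hc', rfl⟩ := (htab e).1 m2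
        rw [← hp] at m3
        simp only [Rows.entry, Rows.view, Rows.win, beq_iff_eq, Prod.mk.injEq, List.map_inj_left,
          List.mem_range] at m3
        rw [List.headD_cons, ← R.loc _ _ j' j hc' (hval t x) m3.1 m3.2.1 fun i hi => m3.2.2 i (by omega)]
        exact min_eq_right (R.lt _ (R.val_nxt _ hc') _).le
  let A : Bool → List ℕ := fun b => (List.range R.N).filter fun a => ∃ c j, R.Valid c ∧ R.row c j = a ∧
    (lay c j).2 h.tm.k₁ = some (h.outputAlphabet.invFun b)
  have hT : PT TT := by fun_prop
  have hW : PT W := by fun_prop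
  have h1 : PT fun x => (stp R.D R.N (cd false none) tab)^[TT x] (i0 x) :=
    PT.iterate (g := fun _ => stp R.D R.N (cd false none) tab) hT
      (PT.map (by fun_prop) (PT.min' (by fun_prop) (PT.fin2 cd (by fun_prop) (by fun_prop))))
      (by unfold stp; fun_prop) (fun x c => c.length = W x ∧ ∀ a ∈ c, a ≤ R.N)
      (fun x => List.replicate (W x) R.N) (by fun_prop) (fun x => by simp +contextual [i0])
      (fun x c hc => by simpa +contextual [stp] using hc.1) fun x c hc => hc.1 ▸ sz_le _ c hc.2
  refine (PT.flatMap (f := fun _ a => if a ∈ A true then [true] else if a ∈ A false then [false] else [])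
    h1 (by fun_prop)).of_eq fun x => ?_
  have v := hval (TT x) x
  have bl := blank x (TT x)
  rw [key x _ le_rfl, List.flatMap_map]
  rw [hrun] at v bl ⊢
  generalize eb (f x) = u at v bl ⊢
  have e0 : ∀ j, (lay (haltList h.tm (u.map h.outputAlphabet.invFun)) j).2 h.tm.k₁ =
      u[j]?.map h.outputAlphabet.invFun := fun j => by simp [lay, haltList]
  have e1 : ∀ j b, R.row (haltList h.tm (u.map h.outputAlphabet.invFun)) j ∈ A b ↔ u[j]? = some b :=
    fun j b => by
      simp only [A, List.mem_filter, List.mem_range, decide_eq_true_eq]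
      refine ⟨fun ⟨_, c, i, h1, h2, h3⟩ => ?_, fun e => ⟨R.lt _ v _, _, _, v, rfl, by rw [e0, e]; rfl⟩⟩
      rw [hi _ _ _ _ h1 h2, e0] at h3
      cases hu : u[j]? <;> simp_all
  have e2 : ∀ n, (List.range n).flatMap (fun j => u[j]?.toList) = u.take n := fun n => by
    induction n with
    | zero => simp
    | succ n ih => rw [List.range_succ, List.flatMap_append, ih, List.take_add_one]; simp
  have e3 : u.length ≤ W x := le_of_not_gt fun c => by
    obtain ⟨m, hm⟩ := far (haltList h.tm (u.map h.outputAlphabet.invFun))
    have := congrFun (congrArg Prod.snd (hi _ _ (W x) (m + u.length) v (by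
      rw [bl _ le_rfl, hm _ (by omega)]))) h.tm.k₁
    rw [e0, e0] at this
    simp [c] at this
  refine Eq.trans (List.flatMap_congr fun j _ => ?_) ((e2 _).trans (List.take_of_length_le e3))
  simp only [e1]
  rcases u[j]? with _ | _ | _ <;> simp

theorem pt_of_raw {β : Type} [Enc β] {f : List Bool → β} (h : PolyTime id bits f) : PT f :=
  (RT.comp rt_unraw (sim PT.id h)).of_eq id (fun _ => rfl) fun _ => rfl

theorem hard {β : Type} [Enc β] {X : β → Prop} (h : NPHard X) : Hard X := fun L hL => by
  obtain ⟨f, hf, e⟩ := h L hL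
  exact ⟨f, pt_of_raw hf, e⟩

end Pool.Agent.H21.Sim
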