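import Pool.Agent.H21.TripleDefs

namespace Pool.Agent.H21.Triple

variable {K R : Type*} [Field K] [Ring R] [Algebra K R]

/-- left side of an Askey-Wilson relation -/
def lhs (B C : R) (β γ ϱ : K) : R := B ^ 2 * C - β • (B * C * B) + C * B ^ 2 - γ • (B * C + C * B) - ϱ • C

/-- right side of an Askey-Wilson relation -/
def rhs (B : R) (γ ω η : K) : R := γ • B ^ 2 + ω • B + η • 1

variable (K)

/-- the ordered pair `B, C` satisfies the Askey-Wilson relations -/
def AW (B C : R) : Prop :=
  ∃ β γ γ' ϱ ϱ' ω η η' : K, lhs B C β γ ϱ = rhs B γ' ω η ∧ lhs C B β γ' ϱ' = rhs C γ ω η'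

/-- `D` lies in the span of `1, B, C, BC, CB` -/
def InSp (D B C : R) : Prop := D ∈ Submodule.span K {1, B, C, B * C, C * B}

end Pool.Agent.H21.Triple
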