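import Pool.Agent.H21.AxialDefs

namespace Pool.Agent.H21.Axial

abbrev T := Fin 3 → ℚ
abbrev B := ℚ × T × T × T × T × ℚ

def cr (a b : T) : T := ![a 1 * b 2 - a 2 * b 1, a 2 * b 0 - a 0 * b 2, a 0 * b 1 - a 1 * b 0]
def dt (a b : T) : ℚ := a 0 * b 0 + a 1 * b 1 + a 2 * b 2
def om (x : B) : ℚ := x.1 + x.2.1 0 + x.2.1 1 + x.2.1 2
def ph (x : B) : ℚ := x.2.2.2.2.2

def mb (x y : B) : B :=
  ((om x * y.1 + om y * x.1) / 2,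
   fun i => (om x * y.2.1 i + om y * x.2.1 i) / 2,
   fun i => (om x * y.2.2.1 i + om y * x.2.2.1 i) / 4 + x.1 * y.2.1 i + y.1 * x.2.1 i,
   fun i => x.1 * y.2.1 i + y.1 * x.2.1 i,
   fun i => (om x * y.2.2.2.2.1 i + om y * x.2.2.2.2.1 i) / 2 + cr x.2.1 y.2.2.1 i
     + cr y.2.1 x.2.2.1 i - 4 * cr x.2.1 y.2.2.2.1 i - 4 * cr y.2.1 x.2.2.2.1 i,
   (om x * ph y + om y * ph x) / 2 + dt x.2.2.1 y.2.2.2.2.1 + dt y.2.2.1 x.2.2.2.2.1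
     - 2 * dt x.2.2.2.1 y.2.2.2.2.1 - 2 * dt y.2.2.2.1 x.2.2.2.2.1)

lemma B_ext {x y : B} : x = y ↔ x.1 = y.1 ∧ (x.2.1 0 = y.2.1 0 ∧ x.2.1 1 = y.2.1 1 ∧ x.2.1 2 = y.2.1 2) ∧
    (x.2.2.1 0 = y.2.2.1 0 ∧ x.2.2.1 1 = y.2.2.1 1 ∧ x.2.2.1 2 = y.2.2.1 2) ∧
    (x.2.2.2.1 0 = y.2.2.2.1 0 ∧ x.2.2.2.1 1 = y.2.2.2.1 1 ∧ x.2.2.2.1 2 = y.2.2.2.1 2) ∧
    (x.2.2.2.2.1 0 = y.2.2.2.2.1 0 ∧ x.2.2.2.2.1 1 = y.2.2.2.2.1 1 ∧ x.2.2.2.2.1 2 = y.2.2.2.2.1 2) ∧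
    x.2.2.2.2.2 = y.2.2.2.2.2 := by
  simp only [Prod.ext_iff, funext_iff, Fin.forall_fin_succ]
  simp

lemma mb_comm (x y : B) : mb x y = mb y x := by
  rw [B_ext]; simp [mb, cr, dt, om, ph]; refine ⟨?_, ⟨?_, ?_, ?_⟩, ⟨?_, ?_, ?_⟩, ⟨?_, ?_, ?_⟩, ⟨?_, ?_, ?_⟩, ?_⟩ <;> ring

lemma mb_add (x y z : B) : mb (x + y) z = mb x z + mb y z := by
  rw [B_ext]; simp [mb, cr, dt, om, ph]; refine ⟨?_, ⟨?_, ?_, ?_⟩, ⟨?_, ?_, ?_⟩, ⟨?_, ?_, ?_⟩, ⟨?_, ?_, ?_⟩, ?_⟩ <;> ring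

lemma mb_smul (c : ℚ) (x z : B) : mb (c • x) z = c • mb x z := by
  rw [B_ext]; simp [mb, cr, dt, om, ph]; refine ⟨?_, ⟨?_, ?_, ?_⟩, ⟨?_, ?_, ?_⟩, ⟨?_, ?_, ?_⟩, ⟨?_, ?_, ?_⟩, ?_⟩ <;> ring

def mB : B →ₗ[ℚ] B →ₗ[ℚ] B := LinearMap.mk₂ ℚ mb mb_add mb_smul
  (fun x y z => by rw [mb_comm, mb_add, mb_comm y, mb_comm z])
  (fun c x z => by rw [mb_comm, mb_smul, mb_comm])

structure Good (a : B) : Prop where
  idem : mb a a = a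
  om1 : om a = 1
  ph0 : ph a = 0
  dec : ∀ x, ∃ c : ℚ, ∃ u v w : B, mb a u = 0 ∧ mb a v = (1/4 : ℚ) • v ∧ mb a w = (1/2 : ℚ) • w ∧
    x = c • a + u + v + w
  prim : ∀ x, mb a x = x → ∃ c : ℚ, x = c • a
  f00 : ∀ u v, mb a u = 0 → mb a v = 0 → mb u v = 0
  f0a : ∀ u v, mb a u = 0 → mb a v = (1/4 : ℚ) • v → mb u v = 0
  faa : ∀ u v, mb a u = (1/4 : ℚ) • u → mb a v = (1/4 : ℚ) • v → mb u v = 0
  f0b : ∀ u v, mb a u = 0 → mb a v = (1/2 : ℚ) • v → mb a (mb u v) = (1/2 : ℚ) • mb u v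
  fab : ∀ u v, mb a u = (1/4 : ℚ) • u → mb a v = (1/2 : ℚ) • v → mb a (mb u v) = (1/2 : ℚ) • mb u v
  fbb : ∀ u v, mb a u = (1/2 : ℚ) • u → mb a v = (1/2 : ℚ) • v →
    mb a (mb a (mb u v)) = (1/4 : ℚ) • mb a (mb u v)
  omL : ∀ u, om (mb a u) = om u
  phL : ∀ u, ph (mb a u) = ph u / 2

def a0 : B := (1, 0, 0, 0, 0, 0)
def ae (e : T) : B := (0, e, 0, 0, 0, 0)

lemma e0_0 {u : B} (h : mb a0 u = 0) : ∃ q, u = (0, 0, 0, q, 0, 0) := by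
  obtain ⟨s, a, p, q, r, z⟩ := u
  rw [B_ext] at h; simp [mb, cr, dt, om, ph, a0] at h
  refine ⟨q, ?_⟩
  rw [B_ext]; simp
  obtain ⟨h1, ⟨h2, h3, h4⟩, ⟨h5, h6, h7⟩, -, ⟨h11, h12, h13⟩, h14⟩ := h
  refine ⟨?_, ⟨?_, ?_, ?_⟩, ⟨?_, ?_, ?_⟩, ⟨?_, ?_, ?_⟩, ?_⟩ <;> linarith

lemma e0_a {u : B} (h : mb a0 u = (1/4 : ℚ) • u) : ∃ p, u = (0, 0, p, 0, 0, 0) := by
  obtain ⟨s, a, p, q, r, z⟩ := u
  rw [B_ext] at h; simp [mb, cr, dt, om, ph, a0] at h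
  refine ⟨p, ?_⟩
  rw [B_ext]; simp
  obtain ⟨h1, ⟨h2, h3, h4⟩, ⟨h5, h6, h7⟩, ⟨h8, h9, h10⟩, ⟨h11, h12, h13⟩, h14⟩ := h
  refine ⟨?_, ⟨?_, ?_, ?_⟩, ⟨?_, ?_, ?_⟩, ⟨?_, ?_, ?_⟩, ?_⟩ <;> linarith

lemma e0_b {u : B} (h : mb a0 u = (1/2 : ℚ) • u) :
    ∃ a r z, u = (-(a 0 + a 1 + a 2), a, fun i => 4 * a i, fun i => 2 * a i, r, z) := by
  obtain ⟨s, a, p, q, r, z⟩ := u
  rw [B_ext] at h; simp [mb, cr, dt, om, ph, a0] at h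
  refine ⟨a, r, z, ?_⟩
  rw [B_ext]; simp
  obtain ⟨h1, ⟨h2, h3, h4⟩, ⟨h5, h6, h7⟩, ⟨h8, h9, h10⟩, -⟩ := h
  refine ⟨?_, ⟨?_, ?_, ?_⟩, ⟨?_, ?_, ?_⟩⟩ <;> linarith

lemma good0 : Good a0 where
  idem := by rw [B_ext]; simp [mb, cr, dt, om, ph, a0]
  om1 := by simp [om, a0]
  ph0 := by simp [ph, a0]
  dec := by
    rintro ⟨s, a, p, q, r, z⟩
    refine ⟨s + a 0 + a 1 + a 2, (0, 0, 0, fun i => q i - 2 * a i, 0, 0),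
      (0, 0, fun i => p i - 4 * a i, 0, 0, 0),
      (-(a 0 + a 1 + a 2), a, fun i => 4 * a i, fun i => 2 * a i, r, z), ?_, ?_, ?_, ?_⟩ <;>
    rw [B_ext] <;> simp [mb, cr, dt, om, ph, a0] <;> (repeat' constructor) <;> ring
  prim := by
    rintro ⟨s, a, p, q, r, z⟩ h
    rw [B_ext] at h; simp [mb, cr, dt, om, ph, a0] at h
    refine ⟨s, ?_⟩
    rw [B_ext]; simp [a0]
    obtain ⟨h1, ⟨h2, h3, h4⟩, ⟨h5, h6, h7⟩, ⟨h8, h9, h10⟩, ⟨h11, h12, h13⟩, h14⟩ := h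
    refine ⟨⟨?_, ?_, ?_⟩, ⟨?_, ?_, ?_⟩, ⟨?_, ?_, ?_⟩, ⟨?_, ?_, ?_⟩, ?_⟩ <;> linarith
  f00 := by
    intro u v hu hv
    obtain ⟨q, rfl⟩ := e0_0 hu; obtain ⟨q', rfl⟩ := e0_0 hv
    rw [B_ext]; simp [mb, cr, dt, om, ph]
  f0a := by
    intro u v hu hv
    obtain ⟨q, rfl⟩ := e0_0 hu; obtain ⟨q', rfl⟩ := e0_a hv
    rw [B_ext]; simp [mb, cr, dt, om, ph]
  faa := by
    intro u v hu hv
    obtain ⟨q, rfl⟩ := e0_a hu; obtain ⟨q', rfl⟩ := e0_a hv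
    rw [B_ext]; simp [mb, cr, dt, om, ph]
  f0b := by
    intro u v hu hv
    obtain ⟨q, rfl⟩ := e0_0 hu; obtain ⟨a, r, z, rfl⟩ := e0_b hv
    rw [B_ext]; simp [mb, cr, dt, om, ph, a0]; (repeat' constructor) <;> ring
  fab := by
    intro u v hu hv
    obtain ⟨q, rfl⟩ := e0_a hu; obtain ⟨a, r, z, rfl⟩ := e0_b hv
    rw [B_ext]; simp [mb, cr, dt, om, ph, a0]; (repeat' constructor) <;> ring
  fbb := by
    intro u v hu hv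
    obtain ⟨a', r', z', rfl⟩ := e0_b hu; obtain ⟨a, r, z, rfl⟩ := e0_b hv
    rw [B_ext]; simp [mb, cr, dt, om, ph, a0]; (repeat' constructor) <;> ring
  omL := by
    rintro ⟨s, a, p, q, r, z⟩; simp [mb, om, a0]; ring
  phL := by
    rintro ⟨s, a, p, q, r, z⟩; simp [mb, om, ph, dt, a0]


section
variable {e : T} (he : e 2 = 1 - e 0 - e 1)
include he

lemma omL_e (u : B) : om (mb (ae e) u) = om u := by
  obtain ⟨s, a, p, q, r, z⟩ := u; simp [mb, om, ae, he]; ring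

lemma e1_0 {u : B} (h : mb (ae e) u = 0) : ∃ q, u = (0, 0, 0, q, fun i => 8 * cr e q i, 0) := by
  have ho := omL_e he u
  rw [h] at ho
  obtain ⟨s, a, p, q, r, z⟩ := u
  have h0 : om (ae e) = 1 := by simp [om, ae, he]
  have ho' : om (s, a, p, q, r, z) = 0 := by rw [← ho]; simp [om]
  rw [B_ext] at h; simp only [mb, h0, ho'] at h; simp [cr, dt, ph, ae] at h
  refine ⟨q, ?_⟩
  obtain ⟨rfl, ⟨h2, h3, h4⟩, ⟨h5, h6, h7⟩, -, ⟨h11, h12, h13⟩, h14⟩ := h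
  simp at h5 h6 h7
  rw [B_ext]; simp [cr, h2, h3, h4, h5, h6, h7, h14]
  simp [h5, h6, h7] at h11 h12 h13
  refine ⟨?_, ?_, ?_⟩ <;> linarith

lemma e1_a {u : B} (h : mb (ae e) u = (1/4 : ℚ) • u) :
    ∃ p, u = (0, 0, p, 0, fun i => -4 * cr e p i, 0) := by
  have ho := omL_e he u
  rw [h] at ho
  obtain ⟨s, a, p, q, r, z⟩ := u
  have h0 : om (ae e) = 1 := by simp [om, ae, he]
  have ho' : om (s, a, p, q, r, z) = 0 := by simp [om] at ho ⊢; linarith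
  rw [B_ext] at h; simp only [mb, h0, ho'] at h; simp [cr, dt, ph, ae] at h
  refine ⟨p, ?_⟩
  obtain ⟨h1, ⟨h2, h3, h4⟩, -, ⟨h8, h9, h10⟩, ⟨h11, h12, h13⟩, h14⟩ := h
  have hs : s = 0 := by linarith
  subst hs
  simp at h8 h9 h10
  rw [B_ext]; simp [cr, h8, h9, h10]
  simp [h8, h9, h10] at h11 h12 h13
  refine ⟨⟨?_, ?_, ?_⟩, ⟨?_, ?_, ?_⟩, ?_⟩ <;> linarith

lemma e1_b {u : B} (h : mb (ae e) u = (1/2 : ℚ) • u) :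
    ∃ a r z, u = (-(a 0 + a 1 + a 2), a, fun i => -4 * (a 0 + a 1 + a 2) * e i,
      fun i => -2 * (a 0 + a 1 + a 2) * e i, r, z) := by
  have ho := omL_e he u
  rw [h] at ho
  obtain ⟨s, a, p, q, r, z⟩ := u
  have h0 : om (ae e) = 1 := by simp [om, ae, he]
  have ho' : om (s, a, p, q, r, z) = 0 := by simp [om] at ho ⊢; linarith
  rw [B_ext] at h; simp only [mb, h0, ho'] at h; simp [cr, dt, ph, ae] at h
  refine ⟨a, r, z, ?_⟩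
  have hs : s = -(a 0 + a 1 + a 2) := by simp [om] at ho'; linarith
  subst hs
  obtain ⟨-, -, ⟨h5, h6, h7⟩, ⟨h8, h9, h10⟩, -⟩ := h
  rw [B_ext]; simp
  refine ⟨⟨?_, ?_, ?_⟩, ⟨?_, ?_, ?_⟩⟩ <;> linarith

lemma good1 : Good (ae e) where
  idem := by rw [B_ext]; simp [mb, cr, dt, om, ph, ae, he]
  om1 := by simp [om, ae, he]
  ph0 := by simp [ph, ae]
  dec := by
    rintro ⟨s, a, p, q, r, z⟩
    refine ⟨s + a 0 + a 1 + a 2,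
      (0, 0, 0, fun i => q i - 2 * s * e i, fun i => 8 * cr e q i, 0),
      (0, 0, fun i => p i - 4 * s * e i, 0, fun i => -4 * cr e p i, 0),
      (s, fun i => a i - (s + a 0 + a 1 + a 2) * e i, fun i => 4 * s * e i, fun i => 2 * s * e i,
        fun i => r i - 8 * cr e q i + 4 * cr e p i, z), ?_, ?_, ?_, ?_⟩ <;>
    rw [B_ext] <;> simp [mb, cr, dt, om, ph, ae, he] <;> (repeat' constructor) <;> ring
  prim := by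
    rintro ⟨s, a, p, q, r, z⟩ h
    have h0 : om (ae e) = 1 := by simp [om, ae, he]
    rw [B_ext] at h; simp only [mb, h0] at h; simp [cr, dt, ph, ae] at h
    refine ⟨om (s, a, p, q, r, z), ?_⟩
    obtain ⟨h1, ⟨h2, h3, h4⟩, ⟨h5, h6, h7⟩, ⟨h8, h9, h10⟩, ⟨h11, h12, h13⟩, h14⟩ := h
    have hs : s = 0 := by linarith
    subst hs
    simp at h5 h6 h7 h8 h9 h10
    have p0 : p 0 = 0 := by linarith
    have p1 : p 1 = 0 := by linarith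
    have p2 : p 2 = 0 := by linarith
    rw [B_ext]; simp [ae, p0, p1, p2, ← h8, ← h9, ← h10] at h11 h12 h13 ⊢
    refine ⟨⟨?_, ?_, ?_⟩, ⟨?_, ?_, ?_⟩, ?_⟩ <;> linarith
  f00 := by
    intro u v hu hv
    obtain ⟨q, rfl⟩ := e1_0 he hu; obtain ⟨q', rfl⟩ := e1_0 he hv
    rw [B_ext]; simp [mb, cr, dt, om, ph]; ring
  f0a := by
    intro u v hu hv
    obtain ⟨q, rfl⟩ := e1_0 he hu; obtain ⟨q', rfl⟩ := e1_a he hv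
    rw [B_ext]; simp [mb, cr, dt, om, ph]; ring
  faa := by
    intro u v hu hv
    obtain ⟨q, rfl⟩ := e1_a he hu; obtain ⟨q', rfl⟩ := e1_a he hv
    rw [B_ext]; simp [mb, cr, dt, om, ph]; ring
  f0b := by
    intro u v hu hv
    obtain ⟨q, rfl⟩ := e1_0 he hu; obtain ⟨a, r, z, rfl⟩ := e1_b he hv
    rw [B_ext]; simp [mb, cr, dt, om, ph, ae, he]; (repeat' constructor) <;> ring
  fab := by
    intro u v hu hv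
    obtain ⟨q, rfl⟩ := e1_a he hu; obtain ⟨a, r, z, rfl⟩ := e1_b he hv
    rw [B_ext]; simp [mb, cr, dt, om, ph, ae, he]; (repeat' constructor) <;> ring
  fbb := by
    intro u v hu hv
    obtain ⟨a', r', z', rfl⟩ := e1_b he hu; obtain ⟨a, r, z, rfl⟩ := e1_b he hv
    rw [B_ext]; simp [mb, cr, dt, om, ph, ae, he]; (repeat' constructor) <;> ring
  omL := omL_e he
  phL := by
    rintro ⟨s, a, p, q, r, z⟩; simp [mb, om, ph, dt, ae, he]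
end

end Pool.Agent.H21.Axial
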