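import Pool.Agent.H21.Axial

namespace Pool.Agent.H21.Axial

open Module.End

lemma axis_of {W : Type*} [AddCommGroup W] [Module ℚ W] (m : W →ₗ[ℚ] W →ₗ[ℚ] W)
    (hc : ∀ x y, m x y = m y x) (a : W) (h0 : a ≠ 0) (idem : m a a = a)
    (dec : ∀ x, ∃ c : ℚ, ∃ u v w : W, m a u = 0 ∧ m a v = (1/4 : ℚ) • v ∧ m a w = (1/2 : ℚ) • w ∧
      x = c • a + u + v + w)
    (prim : ∀ x, m a x = x → ∃ c : ℚ, x = c • a)
    (f00 : ∀ u v, m a u = 0 → m a v = 0 → m a (m u v) = 0)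
    (f0a : ∀ u v, m a u = 0 → m a v = (1/4 : ℚ) • v → m a (m u v) = (1/4 : ℚ) • m u v)
    (faa : ∀ u v, m a u = (1/4 : ℚ) • u → m a v = (1/4 : ℚ) • v → m a (m u v) = 0)
    (f0b : ∀ u v, m a u = 0 → m a v = (1/2 : ℚ) • v → m a (m u v) = (1/2 : ℚ) • m u v)
    (fab : ∀ u v, m a u = (1/4 : ℚ) • u → m a v = (1/2 : ℚ) • v → m a (m u v) = (1/2 : ℚ) • m u v)
    (fbb : ∀ u v, m a u = (1/2 : ℚ) • u → m a v = (1/2 : ℚ) • v →
      m a (m a (m u v)) = (1/4 : ℚ) • m a (m u v)) :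
    IsPrimitiveAxis m {1, 0, 1/4, 1/2} (monster (1/4) (1/2)) a := by
  have key : ∀ (l k n : ℚ) (x : W), n ∈ monster (1/4 : ℚ) (1/2) l k → m a x = n • x →
      x ∈ ⨆ n ∈ monster (1/4 : ℚ) (1/2) l k, eigenspace (m a) n := by
    intro l k n x hn hx
    exact (le_iSup₂_of_le (f := fun n (_ : n ∈ monster (1/4 : ℚ) (1/2) l k) => eigenspace (m a) n)
      n hn le_rfl) (mem_eigenspace_iff.2 hx)
  have key2 : ∀ (n : ℚ) (x : W), n ∈ ({1, 0, 1/4, 1/2} : Set ℚ) → m a x = n • x →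
      x ∈ ⨆ n ∈ ({1, 0, 1/4, 1/2} : Set ℚ), eigenspace (m a) n := by
    intro n x hn hx
    exact (le_iSup₂_of_le (f := fun n (_ : n ∈ ({1, 0, 1/4, 1/2} : Set ℚ)) => eigenspace (m a) n)
      n hn le_rfl) (mem_eigenspace_iff.2 hx)
  have one : ∀ (k : ℚ) (u v : W), m a u = (1 : ℚ) • u → m a v = k • v →
      m u v = 0 ∨ (k ≠ 0 ∧ m a (m u v) = k • m u v) := by
    intro k u v hu hv
    obtain ⟨c, rfl⟩ := prim u (by simpa using hu)
    by_cases hk : k = 0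
    · left; simp [hv, hk]
    · right; refine ⟨hk, ?_⟩; simp [hv, smul_comm c k]
  refine ⟨h0, idem, ?_, ?_, ?_⟩
  · rw [eq_top_iff]; intro x _
    obtain ⟨c, u, v, w, hu, hv, hw, rfl⟩ := dec x
    refine Submodule.add_mem _ (Submodule.add_mem _ (Submodule.add_mem _ ?_ ?_) ?_) ?_
    · exact key2 1 _ (by simp) (by simp [idem])
    · exact key2 0 _ (by simp) (by simp [hu])
    · exact key2 (1/4) _ (by simp) hv
    · exact key2 (1/2) _ (by simp) hw
  · intro l hl k hk u hu v hv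
    rw [mem_eigenspace_iff] at hu hv
    simp only [Set.mem_insert_iff, Set.mem_singleton_iff] at hl hk
    rcases hl with rfl | rfl | rfl | rfl
    · rcases one k u v hu hv with h | ⟨h, h'⟩
      · rw [h]; exact Submodule.zero_mem _
      · refine key _ _ k _ ?_ h'
        rcases hk with rfl | rfl | rfl | rfl <;> simp [monster] at h ⊢
    · rcases hk with rfl | rfl | rfl | rfl
      · rcases one _ v u hv hu with h | ⟨h, h'⟩
        · rw [hc, h]; exact Submodule.zero_mem _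
        · exact absurd rfl h
      · exact key _ _ 0 _ (by simp [monster]) (by simpa using f00 u v (by simpa using hu) (by simpa using hv))
      · exact key _ _ (1/4) _ (by simp [monster]) (f0a u v (by simpa using hu) hv)
      · exact key _ _ (1/2) _ (by simp [monster]) (f0b u v (by simpa using hu) hv)
    · rcases hk with rfl | rfl | rfl | rfl
      · rcases one _ v u hv hu with h | ⟨h, h'⟩
        · rw [hc, h]; exact Submodule.zero_mem _
        · rw [hc u]; exact key _ _ (1/4) _ (by simp [monster]) h'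
      · rw [hc u]; exact key _ _ (1/4) _ (by simp [monster]) (f0a v u (by simpa using hv) hu)
      · exact key _ _ 0 _ (by simp [monster]) (by simpa using faa u v hu hv)
      · exact key _ _ (1/2) _ (by simp [monster]) (fab u v hu hv)
    · rcases hk with rfl | rfl | rfl | rfl
      · rcases one _ v u hv hu with h | ⟨h, h'⟩
        · rw [hc, h]; exact Submodule.zero_mem _
        · rw [hc u]; exact key _ _ (1/2) _ (by simp [monster]) h'
      · rw [hc u]; exact key _ _ (1/2) _ (by simp [monster]) (f0b v u (by simpa using hv) hu)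
      · rw [hc u]; exact key _ _ (1/2) _ (by simp [monster]) (fab v u hv hu)
      · have h := fbb u v hu hv
        have e : m u v = (m u v - (4 : ℚ) • m a (m u v)) + (4 : ℚ) • m a (m u v) := by simp
        rw [e]
        refine Submodule.add_mem _ (key _ _ 0 _ (by simp [monster]) ?_) (key _ _ (1/4) _ (by simp [monster]) ?_)
        · rw [map_sub, map_smul, h, smul_smul]; norm_num
        · rw [map_smul, h, smul_comm]
  · ext x
    rw [mem_eigenspace_iff, Submodule.mem_span_singleton]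
    constructor
    · intro hx
      obtain ⟨c, rfl⟩ := prim x (by simpa using hx)
      exact ⟨c, rfl⟩
    · rintro ⟨c, rfl⟩; simp [idem]

abbrev V := B × B × ℚ

def mv (x y : V) : V := (mb x.1 y.1, mb x.2.1 y.2.1,
  ph x.1 * ph y.2.1 + ph y.1 * ph x.2.1 + ((om x.1 + om x.2.1) * y.2.2 + (om y.1 + om y.2.1) * x.2.2) / 2)

@[simp] lemma om_add (x y : B) : om (x + y) = om x + om y := by simp [om]; ring
@[simp] lemma ph_add (x y : B) : ph (x + y) = ph x + ph y := by simp [ph]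
@[simp] lemma om_smul (c : ℚ) (x : B) : om (c • x) = c * om x := by simp [om]; ring
@[simp] lemma ph_smul (c : ℚ) (x : B) : ph (c • x) = c * ph x := by simp [ph]
@[simp] lemma om_zero : om 0 = 0 := by simp [om]
@[simp] lemma ph_zero : ph 0 = 0 := by simp [ph]
@[simp] lemma mb_zero_l (x : B) : mb 0 x = 0 := by simpa using mb_smul 0 0 x
@[simp] lemma mb_zero_r (x : B) : mb x 0 = 0 := by rw [mb_comm]; simp

lemma mv_comm (x y : V) : mv x y = mv y x := by
  simp only [mv, mb_comm x.1, mb_comm x.2.1]; congr 2; ring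

lemma mv_add (x y z : V) : mv (x + y) z = mv x z + mv y z := by
  simp [mv, mb_add]; ring

lemma mv_smul (c : ℚ) (x z : V) : mv (c • x) z = c • mv x z := by
  simp [mv, mb_smul]; ring

def mV : V →ₗ[ℚ] V →ₗ[ℚ] V := LinearMap.mk₂ ℚ mv mv_add mv_smul
  (fun x y z => by rw [mv_comm, mv_add, mv_comm y, mv_comm z])
  (fun c x z => by rw [mv_comm, mv_smul, mv_comm])

lemma mV_apply (x y : V) : mV x y = mv x y := rfl

lemma Good.om_eq {a : B} (g : Good a) {u : B} {l : ℚ} (h : mb a u = l • u) (hl : l ≠ 1) : om u = 0 := by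
  have := g.omL u
  rw [h, om_smul] at this
  have h2 : (l - 1) * om u = 0 := by linarith
  rcases mul_eq_zero.1 h2 with h3 | h3
  · exact absurd (by linarith) hl
  · exact h3

lemma Good.ph_eq {a : B} (g : Good a) {u : B} {l : ℚ} (h : mb a u = l • u) (hl : l ≠ 1/2) :
    ph u = 0 := by
  have := g.phL u
  rw [h, ph_smul] at this
  have h2 : (l - 1/2) * ph u = 0 := by linarith
  rcases mul_eq_zero.1 h2 with h3 | h3
  · exact absurd (by linarith) hl
  · exact h3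

lemma V_ext {x y : V} : x = y ↔ x.1 = y.1 ∧ x.2.1 = y.2.1 ∧ x.2.2 = y.2.2 := by
  constructor
  · rintro rfl; simp
  · rintro ⟨h1, h2, h3⟩; exact Prod.ext h1 (Prod.ext h2 h3)

lemma axis_left {a : B} (g : Good a) :
    IsPrimitiveAxis mV {1, 0, 1/4, 1/2} (monster (1/4) (1/2)) ((a, 0, 0) : V) := by
  have L : ∀ x : V, mV (a, 0, 0) x = (mb a x.1, 0, x.2.2 / 2) := by
    intro x; simp [mV_apply, mv, g.om1, g.ph0]
  have E0 : ∀ x : V, mV (a, 0, 0) x = 0 → mb a x.1 = 0 ∧ x.2.2 = 0 ∧ om x.1 = 0 ∧ ph x.1 = 0 := by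
    intro x h; rw [L] at h; simp at h
    exact ⟨h.1, h.2, g.om_eq (l := 0) (by simp [h.1]) (by norm_num),
      g.ph_eq (l := 0) (by simp [h.1]) (by norm_num)⟩
  have Ea : ∀ x : V, mV (a, 0, 0) x = (1/4 : ℚ) • x →
      mb a x.1 = (1/4 : ℚ) • x.1 ∧ x.2.1 = 0 ∧ x.2.2 = 0 ∧ om x.1 = 0 ∧ ph x.1 = 0 := by
    intro x h; rw [L] at h
    rw [V_ext] at h
    simp only [Prod.smul_fst, Prod.smul_snd, smul_eq_mul] at h
    obtain ⟨h1, h2, h3⟩ := h
    exact ⟨h1, (smul_eq_zero.1 h2.symm).resolve_left (by norm_num), by linarith,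
      g.om_eq h1 (by norm_num), g.ph_eq h1 (by norm_num)⟩
  have Eb : ∀ x : V, mV (a, 0, 0) x = (1/2 : ℚ) • x →
      mb a x.1 = (1/2 : ℚ) • x.1 ∧ x.2.1 = 0 ∧ om x.1 = 0 := by
    intro x h; rw [L] at h
    rw [V_ext] at h
    simp only [Prod.smul_fst, Prod.smul_snd, smul_eq_mul] at h
    obtain ⟨h1, h2, h3⟩ := h
    exact ⟨h1, (smul_eq_zero.1 h2.symm).resolve_left (by norm_num), g.om_eq h1 (by norm_num)⟩
  refine axis_of mV mv_comm _ ?_ ?_ ?_ ?_ ?_ ?_ ?_ ?_ ?_ ?_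
  · intro h
    have := g.om1
    simp at h; simp [h] at this
  · rw [L]; simp [g.idem]
  · rintro ⟨x, y, n⟩
    obtain ⟨c, u, v, w, hu, hv, hw, rfl⟩ := g.dec x
    refine ⟨c, (u, y, 0), (v, 0, 0), (w, 0, n), ?_, ?_, ?_, ?_⟩
    · rw [L]; simp [hu]
    · rw [L]; simp [hv]
    · rw [L]; simp [hw]; ring
    · simp
  · rintro ⟨x, y, n⟩ h
    rw [L] at h; simp at h
    obtain ⟨c, rfl⟩ := g.prim x h.1
    exact ⟨c, by simp [← h.2.1]; linarith [h.2.2]⟩
  · intro u v hu hv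
    obtain ⟨h1, h2, h3, h4⟩ := E0 u hu; obtain ⟨k1, k2, k3, k4⟩ := E0 v hv
    rw [L]; simp [mV_apply, mv, g.f00 _ _ h1 k1, h2, h4, k2, k4]
  · intro u v hu hv
    obtain ⟨h1, h2, h3, h4⟩ := E0 u hu; obtain ⟨k1, k2, k3, k4, k5⟩ := Ea v hv
    rw [L]; simp [mV_apply, mv, g.f0a _ _ h1 k1, h2, h4, k2, k3, k5]
  · intro u v hu hv
    obtain ⟨h1, h2, h3, h4, h5⟩ := Ea u hu; obtain ⟨k1, k2, k3, k4, k5⟩ := Ea v hv
    rw [L]; simp [mV_apply, mv, g.faa _ _ h1 k1, h2, h3, k2, k3]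
  · intro u v hu hv
    obtain ⟨h1, h2, h3, h4⟩ := E0 u hu; obtain ⟨k1, k2, k3⟩ := Eb v hv
    rw [L]; simp [mV_apply, mv, g.f0b _ _ h1 k1, k2]; ring
  · intro u v hu hv
    obtain ⟨h1, h2, h3, h4, h5⟩ := Ea u hu; obtain ⟨k1, k2, k3⟩ := Eb v hv
    rw [L]; simp [mV_apply, mv, g.fab _ _ h1 k1, k2]; ring
  · intro u v hu hv
    obtain ⟨h1, h2, h3⟩ := Eb u hu; obtain ⟨k1, k2, k3⟩ := Eb v hv
    rw [L, L]; simp [mV_apply, mv, g.fbb _ _ h1 k1, h2, h3, k2, k3]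

lemma axis_right {a : B} (g : Good a) :
    IsPrimitiveAxis mV {1, 0, 1/4, 1/2} (monster (1/4) (1/2)) ((0, a, 0) : V) := by
  have L : ∀ x : V, mV (0, a, 0) x = (0, mb a x.2.1, x.2.2 / 2) := by
    intro x; simp [mV_apply, mv, g.om1, g.ph0]
  have E0 : ∀ x : V, mV (0, a, 0) x = 0 →
      mb a x.2.1 = 0 ∧ x.2.2 = 0 ∧ om x.2.1 = 0 ∧ ph x.2.1 = 0 := by
    intro x h; rw [L] at h; simp at h
    exact ⟨h.1, h.2, g.om_eq (l := 0) (by simp [h.1]) (by norm_num),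
      g.ph_eq (l := 0) (by simp [h.1]) (by norm_num)⟩
  have Ea : ∀ x : V, mV (0, a, 0) x = (1/4 : ℚ) • x →
      mb a x.2.1 = (1/4 : ℚ) • x.2.1 ∧ x.1 = 0 ∧ x.2.2 = 0 ∧ om x.2.1 = 0 ∧ ph x.2.1 = 0 := by
    intro x h; rw [L] at h
    rw [V_ext] at h
    simp only [Prod.smul_fst, Prod.smul_snd, smul_eq_mul] at h
    obtain ⟨h2, h1, h3⟩ := h
    exact ⟨h1, (smul_eq_zero.1 h2.symm).resolve_left (by norm_num), by linarith,
      g.om_eq h1 (by norm_num), g.ph_eq h1 (by norm_num)⟩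
  have Eb : ∀ x : V, mV (0, a, 0) x = (1/2 : ℚ) • x →
      mb a x.2.1 = (1/2 : ℚ) • x.2.1 ∧ x.1 = 0 ∧ om x.2.1 = 0 := by
    intro x h; rw [L] at h
    rw [V_ext] at h
    simp only [Prod.smul_fst, Prod.smul_snd, smul_eq_mul] at h
    obtain ⟨h2, h1, h3⟩ := h
    exact ⟨h1, (smul_eq_zero.1 h2.symm).resolve_left (by norm_num), g.om_eq h1 (by norm_num)⟩
  refine axis_of mV mv_comm _ ?_ ?_ ?_ ?_ ?_ ?_ ?_ ?_ ?_ ?_
  · intro h
    have := g.om1
    simp at h; simp [h] at this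
  · rw [L]; simp [g.idem]
  · rintro ⟨y, x, n⟩
    obtain ⟨c, u, v, w, hu, hv, hw, rfl⟩ := g.dec x
    refine ⟨c, (y, u, 0), (0, v, 0), (0, w, n), ?_, ?_, ?_, ?_⟩
    · rw [L]; simp [hu]
    · rw [L]; simp [hv]
    · rw [L]; simp [hw]; ring
    · simp
  · rintro ⟨y, x, n⟩ h
    rw [L] at h; simp at h
    obtain ⟨c, rfl⟩ := g.prim x h.2.1
    exact ⟨c, by simp [← h.1]; linarith [h.2.2]⟩
  · intro u v hu hv
    obtain ⟨h1, h2, h3, h4⟩ := E0 u hu; obtain ⟨k1, k2, k3, k4⟩ := E0 v hv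
    rw [L]; simp [mV_apply, mv, g.f00 _ _ h1 k1, h2, h4, k2, k4]
  · intro u v hu hv
    obtain ⟨h1, h2, h3, h4⟩ := E0 u hu; obtain ⟨k1, k2, k3, k4, k5⟩ := Ea v hv
    rw [L]; simp [mV_apply, mv, g.f0a _ _ h1 k1, h2, h4, k2, k3, k5]
  · intro u v hu hv
    obtain ⟨h1, h2, h3, h4, h5⟩ := Ea u hu; obtain ⟨k1, k2, k3, k4, k5⟩ := Ea v hv
    rw [L]; simp [mV_apply, mv, g.faa _ _ h1 k1, h2, h3, k2, k3]
  · intro u v hu hv
    obtain ⟨h1, h2, h3, h4⟩ := E0 u hu; obtain ⟨k1, k2, k3⟩ := Eb v hv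
    rw [L]; simp [mV_apply, mv, g.f0b _ _ h1 k1, k2]; ring
  · intro u v hu hv
    obtain ⟨h1, h2, h3, h4, h5⟩ := Ea u hu; obtain ⟨k1, k2, k3⟩ := Eb v hv
    rw [L]; simp [mV_apply, mv, g.fab _ _ h1 k1, k2]; ring
  · intro u v hu hv
    obtain ⟨h1, h2, h3⟩ := Eb u hu; obtain ⟨k1, k2, k3⟩ := Eb v hv
    rw [L, L]; simp [mV_apply, mv, g.fbb _ _ h1 k1, h2, h3, k2, k3]


def ax : Fin 4 → B := ![a0, ae ![1, 0, 0], ae ![0, 1, 0], ae ![0, 0, 1]]

lemma good_ax (i : Fin 4) : Good (ax i) := by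
  fin_cases i
  · exact good0
  all_goals exact good1 (by simp)

lemma genB (U : Submodule ℚ B) (hm : ∀ u ∈ U, ∀ v ∈ U, mb u v ∈ U) (hx : ∀ i, ax i ∈ U) (x : B) :
    x ∈ U := by
  have h0 : a0 ∈ U := hx 0
  have h1 : ∀ a : T, ae a ∈ U := by
    intro a
    have : ae a = a 0 • ax 1 + a 1 • ax 2 + a 2 • ax 3 := by rw [B_ext]; simp [ax, ae]
    rw [this]
    exact U.add_mem (U.add_mem (U.smul_mem _ (hx _)) (U.smul_mem _ (hx _))) (U.smul_mem _ (hx _))
  have h2 : ∀ a : T, ((0, 0, a, a, 0, 0) : B) ∈ U := by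
    intro a
    have : ((0, 0, a, a, 0, 0) : B) = mb a0 (ae a) - ((a 0 + a 1 + a 2) / 2) • a0 - (1/2 : ℚ) • ae a := by
      rw [B_ext]; simp [mb, a0, ae, om, ph, cr, dt]; (repeat' constructor) <;> ring
    rw [this]
    exact U.sub_mem (U.sub_mem (hm _ h0 _ (h1 a)) (U.smul_mem _ h0)) (U.smul_mem _ (h1 a))
  have h3 : ∀ a : T, ((0, 0, a, 0, 0, 0) : B) ∈ U := by
    intro a
    have : ((0, 0, a, 0, 0, 0) : B) = (4 : ℚ) • mb a0 (0, 0, a, a, 0, 0) := by
      rw [B_ext]; simp [mb, a0, ae, om, ph, cr, dt]; (repeat' constructor) <;> ring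
    rw [this]
    exact U.smul_mem _ (hm _ h0 _ (h2 a))
  have h4 : ∀ a : T, ((0, 0, 0, a, 0, 0) : B) ∈ U := by
    intro a
    have : ((0, 0, 0, a, 0, 0) : B) = (0, 0, a, a, 0, 0) - (0, 0, a, 0, 0, 0) := by simp
    rw [this]
    exact U.sub_mem (h2 a) (h3 a)
  have h5 : ∀ a b : T, ((0, 0, 0, 0, cr a b, 0) : B) ∈ U := by
    intro a b
    have : ((0, 0, 0, 0, cr a b, 0) : B) = mb (ae a) (0, 0, b, 0, 0, 0)
        - ((a 0 + a 1 + a 2) / 4) • ((0, 0, b, 0, 0, 0) : B) := by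
      rw [B_ext]; simp [mb, a0, ae, om, ph, cr, dt]; (repeat' constructor) <;> ring
    rw [this]
    exact U.sub_mem (hm _ (h1 a) _ (h3 b)) (U.smul_mem _ (h3 b))
  have h6 : ∀ c : T, ((0, 0, 0, 0, c, 0) : B) ∈ U := by
    intro c
    have : ((0, 0, 0, 0, c, 0) : B) = (0, 0, 0, 0, cr ![0, 1, 0] ![- c 2, 0, c 0], 0)
        + (0, 0, 0, 0, cr ![0, 0, 1] ![c 1, 0, 0], 0) := by
      rw [B_ext]; simp [cr]
    rw [this]
    exact U.add_mem (h5 _ _) (h5 _ _)
  have h7 : ∀ z : ℚ, ((0, 0, 0, 0, 0, z) : B) ∈ U := by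
    intro z
    have : ((0, 0, 0, 0, 0, z) : B) = mb (0, 0, ![1, 0, 0], 0, 0, 0) (0, 0, 0, 0, ![z, 0, 0], 0) := by
      rw [B_ext]; simp [mb, om, ph, cr, dt]
    rw [this]
    exact hm _ (h3 _) _ (h6 _)
  obtain ⟨s, a, p, q, r, z⟩ := x
  have : ((s, a, p, q, r, z) : B) = s • a0 + ae a + (0, 0, p, 0, 0, 0) + (0, 0, 0, q, 0, 0)
      + (0, 0, 0, 0, r, 0) + (0, 0, 0, 0, 0, z) := by simp [a0, ae]
  rw [this]
  exact U.add_mem (U.add_mem (U.add_mem (U.add_mem (U.add_mem (U.smul_mem _ h0) (h1 a)) (h3 p))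
    (h4 q)) (h6 r)) (h7 z)

lemma genL (U : Submodule ℚ V) (hm : IsSubalg mV U) (hx : ∀ i, ((ax i, 0, 0) : V) ∈ U) (x : B) :
    ((x, 0, 0) : V) ∈ U := by
  refine genB (U.comap (LinearMap.inl ℚ B (B × ℚ))) ?_ hx x
  intro u hu v hv
  have := hm _ hu _ hv
  have e : mV (LinearMap.inl ℚ B (B × ℚ) u) (LinearMap.inl ℚ B (B × ℚ) v)
      = LinearMap.inl ℚ B (B × ℚ) (mb u v) := by rw [V_ext]; simp [mV_apply, mv]
  rw [e] at this
  exact this

lemma genR (U : Submodule ℚ V) (hm : IsSubalg mV U) (hx : ∀ i, ((0, ax i, 0) : V) ∈ U) (x : B) :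
    ((0, x, 0) : V) ∈ U := by
  refine genB (U.comap ((LinearMap.inr ℚ B (B × ℚ)).comp (LinearMap.inl ℚ B ℚ))) ?_ hx x
  intro u hu v hv
  have := hm _ hu _ hv
  simpa [mV_apply, mv] using this

def zz : B := (0, 0, 0, 0, 0, 1)

lemma zz_mul : mV ((zz, 0, 0) : V) (0, zz, 0) = (0, 0, 1) := by
  simp [mV_apply, mv, zz, ph]

def XX : Set V := Set.range (fun i => ((ax i, 0, 0) : V)) ∪ Set.range (fun i => ((0, ax i, 0) : V))

lemma gen : Generates mV XX := by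
  intro U hU hX
  have hL := genL U hU (fun i => hX (Or.inl ⟨i, rfl⟩))
  have hR := genR U hU (fun i => hX (Or.inr ⟨i, rfl⟩))
  rw [eq_top_iff]
  rintro ⟨x, y, n⟩ -
  have : ((x, y, n) : V) = (x, 0, 0) + (0, y, 0) + n • mV ((zz, 0, 0) : V) (0, zz, 0) := by
    rw [zz_mul]; simp
  rw [this]
  exact U.add_mem (U.add_mem (hL x) (hR y)) (U.smul_mem _ (hU _ (hL _) _ (hR _)))

lemma axes (a : V) (ha : a ∈ XX) :
    IsPrimitiveAxis mV {1, 0, 1/4, 1/2} (monster (1/4) (1/2)) a := by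
  rcases ha with ⟨i, rfl⟩ | ⟨i, rfl⟩
  · exact axis_left (good_ax i)
  · exact axis_right (good_ax i)

lemma mem_some {W : Type*} [AddCommGroup W] [Module ℚ W] (m : W →ₗ[ℚ] W →ₗ[ℚ] W)
    {ι : Type} (U : ι → Submodule ℚ W) (hU : ∀ i, IsSubalg m (U i)) (ht : (⨆ i, U i) = ⊤)
    (hz : ∀ i j, i ≠ j → ∀ u ∈ U i, ∀ v ∈ U j, m u v = 0) (a : W) (h0 : a ≠ 0) (idem : m a a = a)
    (prim : eigenspace (m a) 1 = Submodule.span ℚ {a}) (hc : ∀ x y, m x y = m y x) :
    ∃ i, a ∈ U i := by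
  classical
  have hid : ∀ i, ∀ u ∈ U i, ∀ x, m x u ∈ U i := by
    intro i u hu x
    have hx : x ∈ ⨆ i, U i := by rw [ht]; trivial
    induction hx using Submodule.iSup_induction' with
    | mem j x hx =>
      by_cases h : j = i
      · subst h; exact hU _ _ hx _ hu
      · rw [hz j i h x hx u hu]; exact (U i).zero_mem
    | zero => simp
    | add x y _ _ hx hy => rw [map_add, LinearMap.add_apply]; exact (U i).add_mem hx hy
  have ha : a ∈ ⨆ i, U i := by rw [ht]; trivial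
  obtain ⟨f, hf, hs⟩ := (Submodule.mem_iSup_iff_exists_finsupp U a).1 ha
  rw [Finsupp.sum] at hs
  have hy : ∑ j ∈ f.support, m a (f j) = a := by rw [← map_sum, hs, idem]
  have hcm : ∀ j, m a (f j) - f j ∈ U j := fun j => (U j).sub_mem (hid j _ (hf j) a) (hf j)
  have e1 : ∀ i ∈ f.support, ∀ x, m x (m a (f i) - f i) = 0 := by
    intro i hi x
    have hx : x ∈ ⨆ i, U i := by rw [ht]; trivial
    induction hx using Submodule.iSup_induction' with
    | mem j x hx =>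
      by_cases h : j = i
      · subst h
        have h1 : ∑ k ∈ f.support, m x (m a (f k) - f k) = 0 := by
          rw [← map_sum, Finset.sum_sub_distrib, hy, hs]; simp
        rw [Finset.sum_eq_single j (fun k _ hk => hz j k (Ne.symm hk) x hx _ (hcm k))
          (fun h => absurd hi h)] at h1
        exact h1
      · exact hz j i h x hx _ (hcm i)
    | zero => simp
    | add x y _ _ hx hy => rw [map_add, LinearMap.add_apply, hx, hy, add_zero]
  by_contra hne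
  push Not at hne
  apply h0
  rw [← hy]
  refine Finset.sum_eq_zero fun i hi => ?_
  have h1 : m a (f i) ∈ eigenspace (m a) 1 := by
    rw [mem_eigenspace_iff, one_smul]
    have := e1 i hi a
    rwa [map_sub, sub_eq_zero] at this
  rw [prim, Submodule.mem_span_singleton] at h1
  obtain ⟨c, hc'⟩ := h1
  by_cases hc0 : c = 0
  · rw [← hc', hc0, zero_smul]
  · exfalso
    apply hne i
    have : a = c⁻¹ • m a (f i) := by rw [← hc', smul_smul, inv_mul_cancel₀ hc0, one_smul]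
    have h5 := (U i).smul_mem c⁻¹ (hid i _ (hf i) a)
    rwa [← this] at h5

lemma ax_mul (i j : Fin 4) : mb (ax i) (ax j) ≠ 0 := by
  intro h
  have := (good_ax i).omL (ax j)
  rw [h, (good_ax j).om1] at this
  simp at this

lemma sumInd : SumIndecomposable mV := by
  intro ι U hU ht hz
  have hm : ∀ a ∈ XX, ∃ i, a ∈ U i := fun a ha =>
    mem_some mV U hU ht hz a (axes a ha).1 (axes a ha).2.1 (axes a ha).2.2.2.2 mv_comm
  obtain ⟨i, hi⟩ := hm _ (Or.inl ⟨0, rfl⟩)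
  obtain ⟨j, hj⟩ := hm _ (Or.inr ⟨0, rfl⟩)
  have hL : ∀ k, ((ax k, 0, 0) : V) ∈ U i := by
    intro k
    obtain ⟨l, hl⟩ := hm _ (Or.inl ⟨k, rfl⟩)
    by_cases h : l = i
    · exact h ▸ hl
    · have := hz l i h _ hl _ hi
      exact absurd (congrArg Prod.fst this) (ax_mul k 0)
  have hR : ∀ k, ((0, ax k, 0) : V) ∈ U j := by
    intro k
    obtain ⟨l, hl⟩ := hm _ (Or.inr ⟨k, rfl⟩)
    by_cases h : l = j
    · exact h ▸ hl
    · have := hz l j h _ hl _ hj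
      exact absurd (congrArg (fun x : V => x.2.1) this) (ax_mul k 0)
  by_cases h : i = j
  · subst h
    refine ⟨i, gen _ (hU i) ?_⟩
    rintro a (⟨k, rfl⟩ | ⟨k, rfl⟩)
    · exact hL k
    · exact hR k
  · have := hz i j h _ (genL _ (hU i) hL zz) _ (genR _ (hU j) hR zz)
    rw [zz_mul] at this
    simp at this

lemma indec : Indecomposable mV := by
  refine ⟨inferInstance, ?_⟩
  rintro ⟨k, I, hk, hI, hd, hz⟩
  obtain ⟨i, hi⟩ := sumInd (Fin k) I (fun i u hu v _ => ((hI i).2 u hu v).1)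
    hd.submodule_iSup_eq_top hz
  haveI : Nontrivial (Fin k) := Fin.nontrivial_iff_two_le.2 hk
  obtain ⟨j, hj⟩ := exists_ne i
  have := hd.submodule_iSupIndep.pairwiseDisjoint hj
  simp only [Function.onFun, hi, disjoint_top] at this
  exact (hI j).1 this

lemma notConn : ¬ (nonAnn mV XX).Preconnected := by
  intro h
  have key : ∀ a b : XX, (nonAnn mV XX).Reachable a b → (a : V).2.1 = 0 → (b : V).2.1 = 0 := by
    intro a b hab
    rw [SimpleGraph.reachable_iff_reflTransGen] at hab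
    induction hab with
    | refl => exact id
    | tail _ hbc ih =>
      rename_i b c _
      intro ha
      have hb := ih ha
      obtain ⟨b, ⟨i, rfl⟩ | ⟨i, rfl⟩⟩ := b
      · obtain ⟨c, ⟨j, rfl⟩ | ⟨j, rfl⟩⟩ := c
        · rfl
        · exfalso
          simp [nonAnn, mV_apply, mv, (good_ax i).ph0, (good_ax j).ph0] at hbc
      · exfalso
        have := (good_ax i).om1
        simp only at hb
        rw [hb] at this; simp at this
  have := key ⟨_, Or.inl ⟨0, rfl⟩⟩ ⟨_, Or.inr ⟨0, rfl⟩⟩ (h _ _) rfl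
  have h1 := (good_ax 0).om1
  simp only at this
  rw [this] at h1; simp at h1

end Pool.Agent.H21.Axial
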