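import Mathlib

namespace Pool.Agent.H21.Axial

variable {F V : Type*} [Field F] [AddCommGroup V] [Module F V]

def IsPrimitiveAxis (m : V →ₗ[F] V →ₗ[F] V) (S : Set F) (star : F → F → Set F) (a : V) : Prop :=
  a ≠ 0 ∧ m a a = a ∧
  (⨆ l ∈ S, Module.End.eigenspace (m a) l) = ⊤ ∧
  (∀ l ∈ S, ∀ k ∈ S, ∀ u ∈ Module.End.eigenspace (m a) l, ∀ v ∈ Module.End.eigenspace (m a) k,
    m u v ∈ ⨆ n ∈ star l k, Module.End.eigenspace (m a) n) ∧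
  Module.End.eigenspace (m a) 1 = Submodule.span F {a}

def IsSubalg (m : V →ₗ[F] V →ₗ[F] V) (U : Submodule F V) : Prop :=
  ∀ u ∈ U, ∀ v ∈ U, m u v ∈ U

def IsIdeal (m : V →ₗ[F] V →ₗ[F] V) (U : Submodule F V) : Prop :=
  ∀ u ∈ U, ∀ v, m u v ∈ U ∧ m v u ∈ U

def Generates (m : V →ₗ[F] V →ₗ[F] V) (X : Set V) : Prop :=
  ∀ U : Submodule F V, IsSubalg m U → X ⊆ U → U = ⊤

def monster (α β : F) (l k : F) : Set F :=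
  {n | (l, k, n) ∈ ({(1, 1, 1), (1, α, α), (α, 1, α), (1, β, β), (β, 1, β),
    (0, 0, 0), (0, α, α), (α, 0, α), (0, β, β), (β, 0, β),
    (α, α, 1), (α, α, 0), (α, β, β), (β, α, β),
    (β, β, 1), (β, β, 0), (β, β, α)} : Set (F × F × F))}

def nonAnn (m : V →ₗ[F] V →ₗ[F] V) (X : Set V) : SimpleGraph X :=
  SimpleGraph.fromRel (fun a b : X => m a b ≠ 0)

def Indecomposable (m : V →ₗ[F] V →ₗ[F] V) : Prop :=
  Nontrivial V ∧ ¬ ∃ (k : ℕ) (I : Fin k → Submodule F V), 2 ≤ k ∧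
    (∀ i, I i ≠ ⊥ ∧ IsIdeal m (I i)) ∧ DirectSum.IsInternal I ∧
    ∀ i j, i ≠ j → ∀ u ∈ I i, ∀ v ∈ I j, m u v = 0

def SumIndecomposable (m : V →ₗ[F] V →ₗ[F] V) : Prop :=
  ∀ (ι : Type) (U : ι → Submodule F V), (∀ i, IsSubalg m (U i)) → (⨆ i, U i) = ⊤ →
    (∀ i j, i ≠ j → ∀ u ∈ U i, ∀ v ∈ U j, m u v = 0) → ∃ i, U i = ⊤

end Pool.Agent.H21.Axial
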