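import Mathlib

namespace Pool.Agent.H21.BL

variable (F E : Type) [Field F] [CommRing E] [Algebra F E] [CharP E 2]

def M : Submodule F (E × E) where
  carrier := {x | x.1 * x.1 = 0 ∧ x.2 * x.2 = 0}
  add_mem' := by
    rintro a b ⟨h1, h2⟩ ⟨h3, h4⟩
    have h : (2 : E) = 0 := CharTwo.two_eq_zero
    exact ⟨by simp only [Prod.fst_add]; linear_combination h1 + h3 + a.1 * b.1 * h,
      by simp only [Prod.snd_add]; linear_combination h2 + h4 + a.2 * b.2 * h⟩
  zero_mem' := by simp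
  smul_mem' := by
    rintro c a ⟨h1, h2⟩
    exact ⟨by simp [h1], by simp [h2]⟩

def A : Type := M F E

instance : AddCommGroup (A F E) := inferInstanceAs (AddCommGroup (M F E))
instance : Module F (A F E) := inferInstanceAs (Module F (M F E))

variable {F E}

def val (x : A F E) : E × E := Subtype.val x

lemma ext {x y : A F E} (h1 : (val x).1 = (val y).1) (h2 : (val x).2 = (val y).2) : x = y :=
  Subtype.ext (Prod.ext h1 h2)

lemma sq (x : A F E) : (val x).1 * (val x).1 = 0 ∧ (val x).2 * (val x).2 = 0 := Subtype.prop x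

instance : Mul (A F E) := ⟨fun x y => (⟨((val x).2 * (val y).2, (val x).1 * (val y).1),
  ⟨by linear_combination (val y).2 * (val y).2 * (sq x).2,
    by linear_combination (val y).1 * (val y).1 * (sq x).1⟩⟩ : M F E)⟩

@[simp] lemma val_mul (x y : A F E) :
    val (x * y) = ((val x).2 * (val y).2, (val x).1 * (val y).1) := rfl
@[simp] lemma val_add (x y : A F E) : val (x + y) = val x + val y := rfl
@[simp] lemma val_zero : val (0 : A F E) = 0 := rfl
@[simp] lemma val_smul (c : F) (x : A F E) : val (c • x) = c • val x := rfl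

instance : NonUnitalNonAssocRing (A F E) where
  left_distrib x y z := ext (by simp [mul_add]) (by simp [mul_add])
  right_distrib x y z := ext (by simp [add_mul]) (by simp [add_mul])
  zero_mul x := ext (by simp) (by simp)
  mul_zero x := ext (by simp) (by simp)

instance : IsScalarTower F (A F E) (A F E) := ⟨fun c x y => ext (by simp) (by simp)⟩
instance : SMulCommClass F (A F E) (A F E) := ⟨fun c x y => ext (by simp) (by simp)⟩

def El (a b x : A F E) (α β γ δ ε : E) : Prop :=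
  (val x).1 = α * (val a).1 + β * (val b).1 + γ * ((val a).2 * (val b).2) +
    δ * ((val a).2 * (val a).1 * (val b).1) + ε * ((val b).2 * (val a).1 * (val b).1) ∧
  (val x).2 = α * (val a).2 + β * (val b).2 + γ * ((val a).1 * (val b).1) +
    δ * ((val a).1 * (val a).2 * (val b).2) + ε * ((val b).1 * (val a).2 * (val b).2)

lemma El.mul {a b x y : A F E} {α β γ δ ε α' β' γ' δ' ε' : E} (h : El a b x α β γ δ ε)
    (h' : El a b y α' β' γ' δ' ε') :
    El a b (x * y) 0 0 (α * β' + β * α') (α * γ' + γ * α') (β * γ' + γ * β') := by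
  obtain ⟨h1, h2⟩ := h
  obtain ⟨h3, h4⟩ := h'
  have e1 : (val a).1 ^ 2 = 0 := by rw [pow_two, (sq a).1]
  have e2 : (val a).2 ^ 2 = 0 := by rw [pow_two, (sq a).2]
  have e3 : (val b).1 ^ 2 = 0 := by rw [pow_two, (sq b).1]
  have e4 : (val b).2 ^ 2 = 0 := by rw [pow_two, (sq b).2]
  constructor
  · simp only [val_mul, h2, h4]
    ring_nf
    simp only [e1, e2, e3, e4, mul_zero, zero_mul, add_zero, zero_add]
  · simp only [val_mul, h1, h3]
    ring_nf
    simp only [e1, e2, e3, e4, mul_zero, zero_mul, add_zero, zero_add]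

lemma el_of_mem (a b x : A F E) (hx : x ∈ NonUnitalAlgebra.adjoin F ({a, b} : Set (A F E))) :
    ∃ α β γ δ ε, El a b x α β γ δ ε := by
  induction hx using NonUnitalAlgebra.adjoin_induction with
  | mem x hx =>
    rcases hx with rfl | rfl
    · exact ⟨1, 0, 0, 0, 0, by simp, by simp⟩
    · exact ⟨0, 1, 0, 0, 0, by simp, by simp⟩
  | add x y _ _ h1 h2 =>
    obtain ⟨α, β, γ, δ, ε, h3, h4⟩ := h1
    obtain ⟨α', β', γ', δ', ε', h5, h6⟩ := h2
    exact ⟨α + α', β + β', γ + γ', δ + δ', ε + ε', by simp [h3, h5]; ring, by simp [h4, h6]; ring⟩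
  | zero => exact ⟨0, 0, 0, 0, 0, by simp, by simp⟩
  | mul x y _ _ h1 h2 =>
    obtain ⟨α, β, γ, δ, ε, h3⟩ := h1
    obtain ⟨α', β', γ', δ', ε', h5⟩ := h2
    exact ⟨_, _, _, _, _, h3.mul h5⟩
  | smul r x _ h1 =>
    obtain ⟨α, β, γ, δ, ε, h3, h4⟩ := h1
    exact ⟨r • α, r • β, r • γ, r • δ, r • ε, by simp [h3], by simp [h4]⟩

lemma jacobi (a b u v w : A F E) (hu : u ∈ NonUnitalAlgebra.adjoin F ({a, b} : Set (A F E)))
    (hv : v ∈ NonUnitalAlgebra.adjoin F ({a, b} : Set (A F E)))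
    (hw : w ∈ NonUnitalAlgebra.adjoin F ({a, b} : Set (A F E))) :
    u * (v * w) + v * (w * u) + w * (u * v) = 0 := by
  obtain ⟨α, β, γ, δ, ε, h1⟩ := el_of_mem a b u hu
  obtain ⟨α', β', γ', δ', ε', h2⟩ := el_of_mem a b v hv
  obtain ⟨α'', β'', γ'', δ'', ε'', h3⟩ := el_of_mem a b w hw
  obtain ⟨e1, e2⟩ := h1.mul (h2.mul h3)
  obtain ⟨e3, e4⟩ := h2.mul (h3.mul h1)
  obtain ⟨e5, e6⟩ := h3.mul (h1.mul h2)
  have h : (2 : E) = 0 := CharTwo.two_eq_zero
  refine ext ?_ ?_
  · simp only [val_add, Prod.fst_add, e1, e3, e5, val_zero, Prod.fst_zero]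
    ring_nf
    simp only [h, mul_zero, add_zero]
  · simp only [val_add, Prod.snd_add, e2, e4, e6, val_zero, Prod.snd_zero]
    ring_nf
    simp only [h, mul_zero, add_zero]

def phi (ω : F) (hω : ω ^ 3 = 1) : A F E →ₙₐ[F] A F E where
  toFun x := (⟨(ω • (val x).1, ω ^ 2 • (val x).2), by simp [(sq x).1], by simp [(sq x).2]⟩ : M F E)
  map_smul' c x := ext (smul_comm ω c _) (smul_comm (ω ^ 2) c _)
  map_zero' := ext (smul_zero ω) (smul_zero (ω ^ 2))
  map_add' x y := ext (smul_add ω _ _) (smul_add (ω ^ 2) _ _)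
  map_mul' x y := ext
    (show ω • ((val x).2 * (val y).2) = (ω ^ 2 • (val x).2) * (ω ^ 2 • (val y).2) by
      rw [smul_mul_smul_comm, show ω ^ 2 * ω ^ 2 = ω by linear_combination ω * hω])
    (show ω ^ 2 • ((val x).1 * (val y).1) = (ω • (val x).1) * (ω • (val y).1) by
      rw [smul_mul_smul_comm, pow_two])

lemma val_phi (ω : F) (hω : ω ^ 3 = 1) (x : A F E) :
    val (phi ω hω x) = (ω • (val x).1, ω ^ 2 • (val x).2) := rfl

lemma derived (t : ℕ → E) (ht : ∀ i, t i * t i = 0) (D : ℕ → Submodule F (A F E)) (h0 : D 0 = ⊤)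
    (hD : ∀ i, D (i + 1) = Submodule.span F {z | ∃ x ∈ D i, ∃ y ∈ D i, x * y = z}) (k : ℕ) :
    ∀ s : Finset ℕ, s.card = 2 ^ k → (∃ x ∈ D k, val x = (∏ i ∈ s, t i, 0)) ∧
      ∃ x ∈ D k, val x = (0, ∏ i ∈ s, t i) := by
  induction k with
  | zero =>
    intro s hs
    obtain ⟨i, rfl⟩ := Finset.card_eq_one.1 hs
    exact ⟨⟨(⟨(t i, 0), ht i, by simp⟩ : M F E), by simp [h0], by simp [val]⟩,
      ⟨(⟨(0, t i), by simp, ht i⟩ : M F E), by simp [h0], by simp [val]⟩⟩
  | succ k ih =>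
    intro s hs
    obtain ⟨r, hr, hr2⟩ := Finset.exists_subset_card_eq (show 2 ^ k ≤ s.card by omega)
    obtain ⟨⟨x, hx, ex⟩, x', hx', ex'⟩ := ih r hr2
    obtain ⟨⟨y, hy, ey⟩, y', hy', ey'⟩ := ih (s \ r)
      (by rw [Finset.card_sdiff_of_subset hr]; omega)
    rw [hD, ← Finset.prod_sdiff hr]
    exact ⟨⟨y' * x', Submodule.subset_span ⟨_, hy', _, hx', rfl⟩, by simp [ex', ey']⟩,
      ⟨y * x, Submodule.subset_span ⟨_, hy, _, hx, rfl⟩, by simp [ex, ey]⟩⟩

open MvPolynomial in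
lemma exists_ring (F : Type) [Field F] [CharP F 2] :
    ∃ (E : Type) (_ : CommRing E) (_ : Algebra F E) (_ : CharP E 2) (t : ℕ → E),
      (∀ i, t i * t i = 0) ∧ ∀ s : Finset ℕ, ∏ i ∈ s, t i ≠ 0 := by
  classical
  let I : Ideal (MvPolynomial ℕ F) :=
    Ideal.span ((fun s => monomial s (1 : F)) '' Set.range fun i => Finsupp.single i 2)
  have h : ∀ s : Finset ℕ, ∏ i ∈ s, Ideal.Quotient.mk I (X i) ≠ 0 := by
    intro s h
    rw [← map_prod, Ideal.Quotient.eq_zero_iff_mem, mem_ideal_span_monomial_image] at h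
    have e : (∏ i ∈ s, X i : MvPolynomial ℕ F) = monomial (∑ i ∈ s, Finsupp.single i 1) 1 := by
      rw [monomial_sum_one]; rfl
    obtain ⟨_, ⟨j, rfl⟩, hj⟩ := h (∑ i ∈ s, Finsupp.single i 1) (by simp [e])
    have := hj j
    simp [Finsupp.finset_sum_apply, Finsupp.single_apply] at this
    split_ifs at this <;> omega
  haveI : Nontrivial (MvPolynomial ℕ F ⧸ I) := ⟨_, _, h ∅⟩
  refine ⟨MvPolynomial ℕ F ⧸ I, inferInstance, inferInstance,
    charP_of_injective_algebraMap (algebraMap F _).injective 2,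
    fun i => Ideal.Quotient.mk I (X i), fun i => ?_, h⟩
  rw [← map_mul, Ideal.Quotient.eq_zero_iff_mem]
  exact Ideal.subset_span ⟨_, ⟨i, rfl⟩, by rw [← pow_two, X_pow_eq_monomial]⟩

end Pool.Agent.H21.BL
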