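import Mathlib

namespace Pool.Agent.H21.Ball

open Finset

variable {n : ℕ}

def sg (b : Bool) : ℤ := bif b then -1 else 1
def mono (x : Fin n → ℝ) (m : Bool × (Fin n → ℕ)) : ℝ := sg m.1 * ∏ i, x i ^ m.2 i
/-- sums of at most `N` signed monomials of degree at most `d` -/
def P (d N : ℕ) (F : (Fin n → ℝ) → ℝ) : Prop := ∃ l : List (Bool × (Fin n → ℕ)), l.length ≤ N ∧
  (∀ m ∈ l, ∑ i, m.2 i ≤ d) ∧ ∀ x, F x = (l.map (mono x)).sum

lemma sg_xor (a b : Bool) : sg (a ^^ b) = sg a * sg b := by cases a <;> cases b <;> simp [sg]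
lemma mono_mul (x : Fin n → ℝ) (m m' : Bool × (Fin n → ℕ)) :
    mono x (m.1 ^^ m'.1, m.2 + m'.2) = mono x m * mono x m' := by
  simp [mono, sg_xor, pow_add, prod_mul_distrib]; ring

variable {d d' N N' : ℕ} {F G : (Fin n → ℝ) → ℝ}

lemma P.le (h : P d N F) (h1 : d ≤ d') (h2 : N ≤ N') : P d' N' F := by
  obtain ⟨l, a, b, c⟩ := h; exact ⟨l, a.trans h2, fun m hm => (b m hm).trans h1, c⟩
lemma P.zero : P d N fun _ : Fin n → ℝ => 0 := ⟨[], by simp⟩
lemma P.one : P 0 1 fun _ : Fin n → ℝ => 1 := ⟨[(false, 0)], by simp [mono, sg]⟩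
lemma P.var (i : Fin n) : P 1 1 fun x : Fin n → ℝ => x i :=
  ⟨[(false, Pi.single i 1)], by simp [mono, sg, Pi.single_apply, pow_ite]⟩
lemma P.add (h : P d N F) (h' : P d N' G) : P d (N + N') fun x => F x + G x := by
  obtain ⟨l, a, b, c⟩ := h; obtain ⟨l', a', b', c'⟩ := h'
  exact ⟨l ++ l', by simp; omega, List.forall_mem_append.2 ⟨b, b'⟩, by simp [c, c']⟩
lemma P.mul (h : P d N F) (h' : P d' N' G) : P (d + d') (N * N') fun x => F x * G x := by
  obtain ⟨l, a, b, c⟩ := h; obtain ⟨l', a', b', c'⟩ := h'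
  refine ⟨l.flatMap fun m => l'.map fun m' => (m.1 ^^ m'.1, m.2 + m'.2), ?_, ?_, fun x => ?_⟩
  · simpa using Nat.mul_le_mul a a'
  · simp only [List.forall_mem_flatMap, List.forall_mem_map, Pi.add_apply, sum_add_distrib]
    exact fun m hm m' hm' => add_le_add (b m hm) (b' m' hm')
  · simp only [c, c']; clear a b c
    induction l with
    | nil => simp
    | cons m l ih => simp [add_mul, ih, Function.comp_def, mono_mul, List.sum_map_mul_left]
lemma P.neg (h : P d N F) : P d N fun x => -F x := by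
  simpa using (show P 0 1 fun _ : Fin n → ℝ => -1 from ⟨[(true, 0)], by simp [mono, sg]⟩).mul h
lemma P.pow (h : P d N F) (a : ℕ) : P (d * a) (N ^ a) fun x => F x ^ a := by
  induction a with
  | zero => simpa using P.one
  | succ a ih => simpa [pow_succ, mul_add] using ih.mul h
lemma P.sum {ι : Type} (l : List ι) {F : ι → (Fin n → ℝ) → ℝ} (h : ∀ i ∈ l, P d N (F i)) :
    P d (l.length * N) fun x => (l.map fun i => F i x).sum := by
  induction l with
  | nil => simpa using P.zero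
  | cons i l ih =>
    simpa [add_mul, add_comm] using (h i (by simp)).add (ih fun j hj => h j (by simp [hj]))
lemma P.cont (h : P d N F) : Continuous F := by
  obtain ⟨l, -, -, c⟩ := h
  rw [funext c]
  exact continuous_list_sum _ fun m _ => by unfold mono; fun_prop

lemma mono_upd (x : Fin n → ℝ) (i : Fin n) (t : ℝ) (m : Bool × (Fin n → ℕ)) :
    mono (Function.update x i t) m = t ^ m.2 i * (sg m.1 * ∏ j ∈ univ.erase i, x j ^ m.2 j) := by
  rw [mono, ← mul_prod_erase _ _ (mem_univ i), prod_congr rfl fun j hj => by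
    rw [Function.update_of_ne (ne_of_mem_erase hj)]]
  simp; ring

lemma mono_exp (x : Fin n → ℝ) (i : Fin n) (r : ℕ) (m : Bool × (Fin n → ℕ)) :
    mono x (m.1, Function.update m.2 i r) = x i ^ r * (sg m.1 * ∏ j ∈ univ.erase i, x j ^ m.2 j) := by
  simp only [mono]
  rw [← mul_prod_erase _ _ (mem_univ i), prod_congr rfl fun j hj => by
    rw [Function.update_of_ne (ne_of_mem_erase hj)]]
  simp; ring

lemma P.deriv (h : P (d + 1) N F) (i : Fin n) : ∃ G, P d (N * (d + 1)) G ∧
    ∀ x, HasDerivAt (fun t => F (Function.update x i t)) (G x) (x i) := by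
  obtain ⟨l, a, b, c⟩ := h
  refine ⟨fun x => (l.map fun m => m.2 i * mono x (m.1, Function.update m.2 i (m.2 i - 1))).sum,
    (P.sum (N := d + 1) l fun m hm => ?_).le le_rfl (Nat.mul_le_mul_right _ a), fun x => ?_⟩
  · have := b m hm
    rw [← add_sum_erase _ _ (mem_univ i)] at this
    refine ⟨List.replicate (m.2 i) (m.1, Function.update m.2 i (m.2 i - 1)), by simp; omega,
      fun m' hm' => ?_, by simp⟩
    obtain ⟨h, rfl⟩ := List.mem_replicate.1 hm'
    rw [sum_update_of_mem (mem_univ i), sdiff_singleton_eq_erase]; omega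
  · simp only [c]; clear a b c
    induction l with
    | nil => simpa using hasDerivAt_const _ _
    | cons m l ih =>
      simp only [List.map_cons, List.sum_cons]
      refine HasDerivAt.fun_add ?_ ih
      simp only [mono_upd]
      rw [mono_exp, ← mul_assoc]
      exact (hasDerivAt_pow (m.2 i) (x i)).mul_const _

def bas {K : ℕ} (p : ℝ × (Fin n → ℝ)) (j : Fin K × (Fin n → Fin 5)) : ℝ :=
  p.1 ^ j.1.1 * ∏ i, p.2 i ^ (j.2 i).1
def Red (S : Set (ℝ × (Fin n → ℝ))) (K N : ℕ) (F : ℝ × (Fin n → ℝ) → ℝ) : Prop :=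
  ∃ c : Fin K × (Fin n → Fin 5) → ℤ, (∀ j, |c j| ≤ N) ∧ ∀ p ∈ S, F p = ∑ j, c j * bas p j

variable {S : Set (ℝ × (Fin n → ℝ))} {K L : ℕ}

lemma Red.sum {ι : Type} (l : List ι) {F : ι → ℝ × (Fin n → ℝ) → ℝ} (h : ∀ i ∈ l, Red S K N (F i))
    (hl : l.length ≤ N') {G : ℝ × (Fin n → ℝ) → ℝ} (hG : ∀ p ∈ S, G p = (l.map fun i => F i p).sum) :
    Red S K (N' * N) G := by
  induction l generalizing G N' with
  | nil => exact ⟨0, fun _ => by simp; positivity, by simpa using hG⟩
  | cons i l ih =>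
    obtain ⟨c, a, b⟩ := h i (by simp)
    obtain ⟨c', a', b'⟩ := ih (fun j hj => h j (by simp [hj])) le_rfl fun _ _ => rfl
    refine ⟨c + c', fun j => (abs_add_le _ _).trans ((add_le_add (a j) (a' j)).trans ?_), fun p hp => ?_⟩
    · simp only [List.length_cons] at hl; norm_cast; nlinarith
    · simp [hG p hp, b p hp, b' p hp, add_mul, sum_add_distrib]

lemma red_mono {g : Fin n → (Fin n → ℝ) → ℝ} (hg : ∀ i, P 3 L (g i)) (hL : 1 ≤ L)
    (hS : ∀ p ∈ S, ∀ i, p.2 i ^ 5 = p.1 * g i p.2) (e : ℕ) : ∀ k (m : Bool × (Fin n → ℕ)),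
    ∑ i, m.2 i ≤ e → k + e < K → Red S K (L ^ e) fun p => p.1 ^ k * mono p.2 m := by
  have base (e k) (m : Bool × (Fin n → ℕ)) (h : ∀ i, m.2 i < 5) (hk : k < K) :
      Red S K (L ^ e) fun p => p.1 ^ k * mono p.2 m := by
    refine ⟨Pi.single (⟨k, hk⟩, fun i => ⟨_, h i⟩) (sg m.1), fun j => ?_, fun p _ => ?_⟩
    · have := Nat.one_le_pow e L hL
      rw [Pi.single_apply]; split_ifs
      · cases m.1 <;> simp [sg] <;> exact_mod_cast this
      · simp
    · simp [Pi.single_apply, bas, mono]; ring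
  induction e with
  | zero => exact fun k m h hk => base _ _ _ (fun i => by
      have := single_le_sum (f := m.2) (fun _ _ => Nat.zero_le _) (mem_univ i); omega) hk
  | succ e ih =>
    intro k m h hk
    by_cases a : ∀ i, m.2 i < 5
    · exact base _ _ _ a (by omega)
    push Not at a
    obtain ⟨i, a⟩ := a
    obtain ⟨l, l1, l2, l3⟩ := hg i
    rw [pow_succ']
    refine Red.sum l (fun m' hm' => ih (k + 1) (m.1 ^^ m'.1, Function.update m.2 i (m.2 i - 5) + m'.2)
      ?_ (by omega)) l1 fun p hp => ?_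
    · have := l2 m' hm'
      rw [← add_sum_erase _ _ (mem_univ i)] at h
      simp only [Pi.add_apply, sum_add_distrib, sum_update_of_mem (mem_univ i), sdiff_singleton_eq_erase]
      omega
    · have := fun m' => mono_mul p.2 (m.1, Function.update m.2 i (m.2 i - 5)) m'
      simp only at this
      simp only [this, ← mul_assoc, List.sum_map_mul_left, ← l3]
      have : mono p.2 m = mono p.2 (m.1, Function.update m.2 i (m.2 i - 5)) * p.2 i ^ 5 := by
        have := mono_exp p.2 i (m.2 i) m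
        rw [Function.update_eq_self] at this
        rw [this, mono_exp, mul_right_comm, ← pow_add, Nat.sub_add_cancel a]
      rw [this, hS p hp]; ring

attribute [local instance] Matrix.seminormedAddCommGroup in
lemma relation {g : Fin n → (Fin n → ℝ) → ℝ} (hg : ∀ i, P 3 L (g i)) (hL : 1 ≤ L) (hN : 1 ≤ N)
    (hS : ∀ p ∈ S, ∀ i, p.2 i ^ 5 = p.1 * g i p.2) (hF : P 4 N F) {A : ℕ} (hA : A = 4 * 5 ^ n) :
    ∃ t : Fin A × Fin (4 * A + 1) → ℤ, t ≠ 0 ∧ (∀ j, |t j| ≤ A * (4 * A + 1) * (N * L ^ 4) ^ A) ∧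
      ∀ p ∈ S, ∑ j, t j * (p.1 ^ j.2.1 * F p.2 ^ j.1.1) = 0 := by
  have (j : Fin A × Fin (4 * A + 1)) : Red S (8 * A + 1) ((N * L ^ 4) ^ A)
      fun p => p.1 ^ j.2.1 * F p.2 ^ j.1.1 := by
    obtain ⟨l, l1, l2, l3⟩ := (hF.pow j.1).le (d' := 4 * A) (N' := N ^ A) (by omega)
      (Nat.pow_le_pow_right hN j.1.2.le)
    rw [mul_pow, ← pow_mul]
    exact Red.sum l (fun m hm => red_mono hg hL hS _ j.2 m (l2 m hm) (by omega)) l1
      fun p _ => by simp [l3, List.sum_map_mul_left]
  choose c c1 c2 using this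
  have D : 0 < 5 ^ n := by positivity
  obtain ⟨t, t1, t2, t3⟩ := Int.Matrix.exists_ne_zero_int_vec_norm_le (Matrix.of fun i j => c j i)
    (by simp [hA]; nlinarith) (by simp)
  refine ⟨t, t1, fun j => ?_, fun p hp => ?_⟩
  · have h1 : (1 : ℝ) ≤ (N * L ^ 4 : ℕ) ^ A := one_le_pow₀ (by norm_cast; exact Nat.mul_pos hN (by positivity))
    have h2 : ‖Matrix.of fun i j => c j i‖ ≤ ((N * L ^ 4 : ℕ) : ℝ) ^ A :=
      (Matrix.norm_le_iff (by positivity)).2 fun i j => by
        rw [Int.norm_eq_abs]; exact_mod_cast c1 j i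
    have h3 := (norm_le_pi_norm t j).trans t3
    have h4 : (1 : ℝ) ≤ A * (4 * A + 1) := by norm_cast; nlinarith
    rw [Int.norm_eq_abs] at h3
    have h5 := h3.trans (Real.rpow_le_self_of_one_le (by
      simpa using one_le_mul_of_one_le_of_one_le h4 (le_max_left _ _)) (by
        rw [div_le_one] <;> simp [hA] <;> nlinarith [show (1 : ℝ) ≤ 5 ^ n from one_le_pow₀ (by norm_num)]))
    have h6 := h5.trans (mul_le_mul_of_nonneg_left (max_le h1 h2) (by positivity))
    simp only [Fintype.card_prod, Fintype.card_fin] at h6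
    exact_mod_cast h6
  · simp only [c2 _ p hp, mul_sum]
    rw [sum_comm]
    refine sum_eq_zero fun i _ => ?_
    have := congr((($t2 i : ℤ) : ℝ) * bas p i)
    simp only [Matrix.mulVec, dotProduct, Int.cast_sum, sum_mul] at this
    simpa [mul_comm, mul_left_comm, mul_assoc] using this

end Pool.Agent.H21.Ball
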