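import Pool.Agent.H21.Ball1

namespace Pool.Agent.H21.Ball

open Finset Filter Topology

lemma root_le {A : ℕ} {H : ℝ} {t : Fin A → ℤ} (h0 : t ≠ 0) (hH : ∀ a, |(t a : ℝ)| ≤ H) {r : ℝ}
    (h : ∑ a, t a * r ^ a.1 = 0) : |r| ≤ A * H + 1 := by
  obtain ⟨a, ha, hm⟩ := exists_max_image (univ.filter fun a => t a ≠ 0) id
    (by simpa [Finset.Nonempty, funext_iff] using h0)
  simp only [mem_filter, mem_univ, true_and, id] at ha hm
  have H0 : 0 ≤ H := (abs_nonneg _).trans (hH a)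
  by_contra! c
  have r1 : 1 ≤ |r| := by nlinarith [mul_nonneg A.cast_nonneg H0]
  rw [← add_sum_erase _ _ (mem_univ a), add_eq_zero_iff_eq_neg] at h
  have h1 : |r| ^ a.1 ≤ |t a * r ^ a.1| := by
    rw [abs_mul, abs_pow]
    exact le_mul_of_one_le_left (by positivity) (by exact_mod_cast Int.one_le_abs ha)
  have h2 : ∀ b ∈ univ.erase a, |t b * r ^ b.1| * |r| ≤ H * |r| ^ a.1 := fun b hb => by
    by_cases e : t b = 0
    · simp [e]; positivity
    · have : b.1 + 1 ≤ a.1 := (lt_of_le_of_ne (hm b e) (ne_of_mem_erase hb) : b < a)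
      rw [abs_mul, abs_pow, mul_assoc, ← pow_succ]
      exact mul_le_mul (hH b) (pow_le_pow_right₀ r1 this) (by positivity) H0
  have h3 := sum_le_card_nsmul _ _ _ h2
  have h4 : (#(univ.erase a) : ℝ) ≤ A := by norm_cast; simp
  rw [h, abs_neg] at h1
  have h5 := mul_le_mul_of_nonneg_right (h1.trans (abs_sum_le_sum_abs _ _)) (abs_nonneg r)
  rw [sum_mul] at h5
  have : 0 < |r| ^ a.1 := by positivity
  rw [nsmul_eq_mul] at h3
  nlinarith [mul_le_mul_of_nonneg_right h4 (mul_nonneg H0 this.le)]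

lemma root_ge {A : ℕ} {H : ℝ} {t : Fin A → ℤ} (h0 : t ≠ 0) (hH : ∀ a, |(t a : ℝ)| ≤ H) {r : ℝ}
    (h : ∑ a, t a * r ^ a.1 = 0) (hr : r ≠ 0) : |r⁻¹| ≤ A * H + 1 := by
  refine root_le (t := fun a => t a.rev) (fun e => h0 (funext fun a => by simpa using congrFun e a.rev))
    (fun a => hH _) (mul_left_cancel₀ (pow_ne_zero (A - 1) hr) ?_)
  rw [mul_zero, ← h, mul_sum, ← Equiv.sum_comp Fin.revPerm]
  refine sum_congr rfl fun a _ => ?_
  have : A - 1 = a.1 + (A - (a.1 + 1)) := by omega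
  simp only [Fin.revPerm_apply, Fin.rev_rev, Fin.val_rev]
  rw [this, pow_add, inv_pow]; field_simp

lemma lead {A B : ℕ} {t : Fin A × Fin B → ℤ} (h0 : t ≠ 0) {ν y : ℕ → ℝ} {r : ℝ} (hν : ∀ j, ν j ≠ 0)
    (h1 : Tendsto ν atTop (𝓝 0)) (h2 : Tendsto y atTop (𝓝 r))
    (h : ∀ k, ∑ j, t j * ((ν k)⁻¹ ^ j.2.1 * y k ^ j.1.1) = 0) :
    ∃ b, (fun a => t (a, b)) ≠ 0 ∧ ∑ a, t (a, b) * r ^ a.1 = 0 := by
  obtain ⟨a, ha, hm⟩ := exists_max_image (univ.filter fun a => t a ≠ 0) Prod.snd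
    (by simpa [Finset.Nonempty, funext_iff] using h0)
  simp only [mem_filter, mem_univ, true_and] at ha hm
  refine ⟨a.2, fun e => ha (congrFun e a.1), ?_⟩
  have h3 : Tendsto (fun k => ∑ j, t j * (ν k ^ (a.2.1 - j.2.1) * y k ^ j.1.1)) atTop
      (𝓝 (∑ j, t j * (0 ^ (a.2.1 - j.2.1) * r ^ j.1.1))) :=
    tendsto_finsetSum _ fun j _ => ((h1.pow _).mul (h2.pow _)).const_mul _
  have h4 (k) : ∑ j, t j * (ν k ^ (a.2.1 - j.2.1) * y k ^ j.1.1) = 0 := by
    rw [← mul_zero (ν k ^ a.2.1), ← h k, mul_sum]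
    refine sum_congr rfl fun j _ => ?_
    by_cases e : t j = 0
    · simp [e]
    · rw [pow_sub₀ _ (hν k) (hm j e)]; ring
  simp only [h4] at h3
  rw [tendsto_nhds_unique tendsto_const_nhds h3, Fintype.sum_prod_type]
  refine sum_congr rfl fun i _ => (sum_eq_single a.2 (fun b _ hb => ?_) (by simp)).trans (by simp) |>.symm
  by_cases e : t (i, b) = 0
  · simp [e]
  · have : b.1 < a.2.1 := lt_of_le_of_ne (hm _ e) (Fin.val_ne_of_ne hb)
    simp [zero_pow (show a.2.1 - b.1 ≠ 0 by omega)]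

lemma num_le {n N A : ℕ} (hA : A = 4 * 5 ^ n) :
    A * (A * (4 * A + 1) * ((N + 1) * ((N + 1) * 4) ^ 4) ^ A) + 1 ≤ 2 ^ 2 ^ (3 * n + N + 7) := by
  have h1 : N + 1 ≤ 2 ^ N := Nat.lt_two_pow_self
  have h2 : A ≤ 2 ^ (3 * n + 2) := by
    rw [hA, pow_add, pow_mul, mul_comm]; exact Nat.mul_le_mul (Nat.pow_le_pow_left (by norm_num) n) le_rfl
  have h3 : A + 1 ≤ 2 ^ A := Nat.lt_two_pow_self
  have h4 : (N + 1) * ((N + 1) * 4) ^ 4 ≤ 2 ^ (5 * N + 8) := by
    calc _ ≤ 2 ^ N * (2 ^ N * 4) ^ 4 := by gcongr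
      _ = _ := by ring
  have A1 : 1 ≤ A := by rw [hA]; exact Nat.mul_pos (by omega) (by positivity)
  calc _ ≤ 2 ^ A * (2 ^ A * (4 * 2 ^ A) * (2 ^ (5 * N + 8)) ^ A) * 2 := by
        have : A * (A * (4 * A + 1) * ((N + 1) * ((N + 1) * 4) ^ 4) ^ A) ≤
          2 ^ A * (2 ^ A * (4 * 2 ^ A) * (2 ^ (5 * N + 8)) ^ A) := by gcongr <;> omega
        have : 0 < 2 ^ A * (2 ^ A * (4 * 2 ^ A) * (2 ^ (5 * N + 8)) ^ A) := by positivity
        omega
    _ = 2 ^ ((5 * N + 11) * A + 3) := by rw [← pow_mul]; ring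
    _ ≤ _ := Nat.pow_le_pow_right (by omega) (by
        calc _ ≤ (32 * (N + 1)) * A := by nlinarith
          _ ≤ (32 * 2 ^ N) * 2 ^ (3 * n + 2) := by gcongr
          _ = _ := by ring)

/-- a global minimiser of a quartic can be chosen with controlled values -/
theorem min_small {n N : ℕ} {f : (Fin n → ℝ) → ℝ} (hf : P 4 N f) {z : Fin n → ℝ} (hz : ∀ x, f z ≤ f x) :
    ∃ x, f x = f z ∧ ∀ F, P 4 (N + 1) F →
      |F x| ≤ 2 ^ 2 ^ (3 * n + N + 7) ∧ (F x ≠ 0 → |(F x)⁻¹| ≤ 2 ^ 2 ^ (3 * n + N + 7)) := by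
  choose g g1 g2 using (hf.le le_rfl N.le_succ).deriv
  let h : (Fin n → ℝ) → ℝ := fun x => ∑ i, x i ^ 6
  have hc := hf.cont
  have h0 (x) : 0 ≤ h x := sum_nonneg fun _ _ => by positivity
  have hb (x) (hx : h x ≤ h z) : x ∈ Metric.closedBall 0 (h z + 1) := by
    rw [mem_closedBall_zero_iff, pi_norm_le_iff_of_nonneg (by linarith [h0 z])]
    intro i
    have : x i ^ 6 ≤ h x := single_le_sum (f := fun i => x i ^ 6) (fun _ _ => by positivity) (mem_univ i)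
    by_contra! c
    have := le_self_pow₀ (n := 6) (show 1 ≤ ‖x i‖ by linarith [h0 z]) (by omega)
    rw [Real.norm_eq_abs, Even.pow_abs (by decide)] at *
    linarith
  have K := isCompact_closedBall (0 : Fin n → ℝ) (h z + 1)
  have (l : ℝ) (hl : 0 < l) : ∃ x, h x ≤ h z ∧ f x ≤ f z + l * h z ∧
      ∀ i, x i ^ 5 = (6 * l)⁻¹ * -g i x := by
    obtain ⟨x, -, hx⟩ := K.exists_isMinOn ⟨z, hb z le_rfl⟩ (f := fun x => f x + l * h x) (by fun_prop)
    have a : f x + l * h x ≤ f z + l * h z := hx (hb z le_rfl)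
    have b (y) : f x + l * h x ≤ f y + l * h y := by
      by_cases c : h y ≤ h z
      · exact hx (hb y c)
      · nlinarith [hz y]
    refine ⟨x, by nlinarith [hz x], by nlinarith [h0 x], fun i => ?_⟩
    have e (t) : h (Function.update x i t) = t ^ 6 + ∑ j ∈ univ \ {i}, x j ^ 6 := by
      rw [← sum_update_of_mem (mem_univ i)]
      exact sum_congr rfl fun j _ => Function.apply_update (fun _ (a : ℝ) => a ^ 6) ..
    have := IsLocalMin.hasDerivAt_eq_zero (Filter.Eventually.of_forall fun t => by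
      simpa only [← e, Function.update_eq_self] using b (Function.update x i t)) ((g2 i x).fun_add
        (((hasDerivAt_pow 6 (x i)).add_const (∑ j ∈ univ \ {i}, x j ^ 6)).const_mul l))
    field_simp
    simp at this
    linarith
  choose! X X1 X2 X3 using this
  have lp (k : ℕ) : (0 : ℝ) < 1 / (k + 1) := by positivity
  obtain ⟨x, -, s, hs, hx⟩ := K.tendsto_subseq fun k : ℕ => hb _ (X1 _ (lp k))
  have l0 := (tendsto_one_div_add_atTop_nhds_zero_nat (𝕜 := ℝ)).comp hs.tendsto_atTop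
  refine ⟨x, le_antisymm ?_ (hz x), fun F hF => ?_⟩
  · simpa using le_of_tendsto_of_tendsto' ((hc.tendsto x).comp hx) ((l0.mul_const (h z)).const_add (f z))
      fun k => X2 _ (lp _)
  obtain ⟨t, t1, t2, t3⟩ := relation (S := {p | ∀ i, p.2 i ^ 5 = p.1 * -g i p.2}) (fun i => (g1 i).neg)
    (by omega) (by omega) (fun _ h => h) hF rfl
  obtain ⟨b, b1, b2⟩ := lead t1 (ν := fun k => 6 * (1 / (s k + 1))) (fun k => by positivity)
    (by simpa using l0.const_mul 6) ((hF.cont.tendsto x).comp hx) fun k => t3 (_, _) (X3 _ (lp _))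
  have h1 := (Nat.cast_le (α := ℝ)).2 (num_le (N := N) (n := n) rfl)
  rw [Nat.cast_add, Nat.cast_mul, Nat.cast_one, Nat.cast_pow, Nat.cast_ofNat] at h1
  exact ⟨(root_le b1 (fun a => by exact_mod_cast t2 _) b2).trans h1,
    fun e => (root_ge b1 (fun a => by exact_mod_cast t2 _) b2 e).trans h1⟩

end Pool.Agent.H21.Ball
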