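import Mathlib

namespace Pool.Agent.H21.BiOrd

open Subgroup
open scoped commutatorElement

section
variable {E : Type} [Group E] [LinearOrder E] [MulLeftMono E] [MulRightMono E]

lemma sw {a b : E} (h : b * a ≤ a * b) (n : ℕ) : b ^ n * a ^ n ≤ (b * a) ^ n ∧ (a * b) ^ n ≤ a ^ n * b ^ n := by
  have h1 : ∀ n, b ^ n * a ≤ a * b ^ n ∧ b * a ^ n ≤ a ^ n * b := fun n => by
    induction n with
    | zero => simp
    | succ n ih =>
      constructor
      · calc b ^ (n + 1) * a = b * (b ^ n * a) := by group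
          _ ≤ b * a * b ^ n := by rw [mul_assoc]; exact mul_le_mul' le_rfl ih.1
          _ ≤ a * b * b ^ n := by gcongr
          _ = _ := by group
      · calc b * a ^ (n + 1) = b * a ^ n * a := by group
          _ ≤ a ^ n * (b * a) := by rw [← mul_assoc]; exact mul_le_mul' ih.2 le_rfl
          _ ≤ a ^ n * (a * b) := by gcongr
          _ = _ := by group
  induction n with
  | zero => simp
  | succ n ih =>
    constructor
    · calc b ^ (n + 1) * a ^ (n + 1) = b ^ n * (b * a ^ n) * a := by group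
        _ ≤ b ^ n * (a ^ n * b) * a := mul_le_mul' (mul_le_mul' le_rfl (h1 n).2) le_rfl
        _ = b ^ n * a ^ n * (b * a) := by group
        _ ≤ _ := by rw [pow_succ]; gcongr; exact ih.1
    · calc (a * b) ^ (n + 1) ≤ a ^ n * b ^ n * (a * b) := by rw [pow_succ]; gcongr; exact ih.2
        _ = a ^ n * (b ^ n * a) * b := by group
        _ ≤ a ^ n * (a * b ^ n) * b := mul_le_mul' (mul_le_mul' le_rfl (h1 n).1) le_rfl
        _ = _ := by group

theorem np (S : Finset E) (h : ∀ s ∈ S, s ∈ ⁅closure (S : Set E), closure (S : Set E)⁆) :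
    ∀ s ∈ S, s = 1 := by
  intro s hs
  obtain ⟨t, ht, hm⟩ := S.exists_max_image (fun s => max s s⁻¹) ⟨s, hs⟩
  obtain ⟨y, hy⟩ : ∃ y, y = max t t⁻¹ := ⟨_, rfl⟩
  simp only [← hy, max_le_iff] at hm
  rcases le_or_gt y 1 with h1 | h1
  · exact ((hm s hs).1.trans h1).antisymm (inv_le_one'.1 ((hm s hs).2.trans h1))
  have mo : StrictMono fun n : ℤ => y ^ n := strictMono_int_of_lt_succ fun n => by
    simpa [zpow_add] using h1
  have fl : ∀ g ∈ closure (S : Set E), ∃ k : ℤ, y ^ k ≤ g ∧ g ≤ y ^ (k + 1) := fun g m => by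
    have : ∃ n : ℤ, g ≤ y ^ n ∧ g⁻¹ ≤ y ^ n := by
      induction m using closure_induction with
      | mem x m => exact ⟨1, by simpa using hm x m⟩
      | one => exact ⟨0, by simp⟩
      | mul a b _ _ h2 h3 =>
        obtain ⟨n, h2⟩ := h2
        obtain ⟨m, h3⟩ := h3
        exact ⟨n + m, zpow_add y n m ▸ mul_le_mul' h2.1 h3.1, by
          rw [mul_inv_rev, add_comm, zpow_add]; exact mul_le_mul' h3.2 h2.2⟩
      | inv a _ h2 => simpa [and_comm] using h2
    obtain ⟨n, h2, h3⟩ := this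
    obtain ⟨k, h4, h5⟩ := Int.exists_greatest_of_bdd (P := fun k => y ^ k ≤ g)
      ⟨n, fun k h => mo.le_iff_le.1 (h.trans h2)⟩ ⟨-n, by rwa [zpow_neg, inv_le']⟩
    exact ⟨k, h4, le_of_not_ge fun h => by have := h5 _ h; omega⟩
  let Z : Subgroup E :=
    { carrier := {g | ∀ n : ℕ, g ^ n < y ∧ g⁻¹ ^ n < y}
      one_mem' := by simpa
      inv_mem' := by simp +contextual
      mul_mem' := fun {a b} ha hb n => by
        have k : ∀ {a b : E}, (∀ n : ℕ, a ^ n < y) → (∀ n : ℕ, b ^ n < y) → (a * b) ^ n < y := fun {a b} ha hb => by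
          refine (pow_le_pow_left' (mul_le_mul' (le_max_left a b) (le_max_right a b)) n).trans_lt ?_
          rw [← sq, ← pow_mul]
          exact max_rec' (fun m => m ^ (2 * n) < y) (ha _) (hb _)
        exact ⟨k (fun n => (ha n).1) fun n => (hb n).1, mul_inv_rev a b ▸ k (fun n => (hb n).2) fun n => (ha n).2⟩ }
  have c : ∀ p ∈ closure (S : Set E), ∀ q ∈ closure (S : Set E), q * p ≤ p * q → ⁅p, q⁆ ∈ Z := by
    intro p hp q hq h2 n
    have h3 : 1 ≤ ⁅p, q⁆ := by simpa [commutatorElement_def, le_mul_inv_iff_mul_le]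
    refine ⟨lt_of_not_ge fun h4 => ?_, (pow_le_one' (inv_le_one'.2 h3) n).trans_lt h1⟩
    obtain ⟨a, a1, a2⟩ := fl _ (pow_mem hp (n * 3))
    obtain ⟨b, b1, b2⟩ := fl _ (pow_mem hq (n * 3))
    have h5 := ((sw h2 (n * 3)).2.trans (mul_le_mul' a2 b2))
    have h6 := ((mul_le_mul' b1 a1).trans (sw h2 (n * 3)).1)
    have h7 := pow_le_pow_left' h4 3
    rw [← pow_mul] at h7
    rw [show p * q = ⁅p, q⁆ * (q * p) by group] at h5
    rcases le_total (⁅p, q⁆ * (q * p)) (q * p * ⁅p, q⁆) with h8 | h8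
    · have := ((mul_le_mul' h7 h6).trans (sw h8 _).1).trans h5
      rw [← zpow_natCast, ← zpow_add, ← zpow_add, ← zpow_add] at this
      have := mo.le_iff_le.1 this
      omega
    · have := ((mul_le_mul' h6 h7).trans ((sw h8 _).1.trans (pow_le_pow_left' h8 _))).trans h5
      rw [← zpow_natCast y 3, ← zpow_add, ← zpow_add, ← zpow_add] at this
      have := mo.le_iff_le.1 this
      omega
  have := commutator_le.2 (fun p hp q hq => (le_total (q * p) (p * q)).elim (c p hp q hq) fun k =>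
    commutatorElement_inv q p ▸ Z.inv_mem (c q hq p hp k)) (h t ht) 1
  simp only [pow_one] at this
  exact absurd (max_lt this.1 this.2) (hy ▸ lt_irrefl _)

end

variable {E : Type} [Group E]

lemma cl (K B : Subgroup E) [K.Normal] (h : K ⊔ B = ⊤) (k : ⁅B, B⁆ ≤ K) : commutator E ≤ K := by
  have : (⊤ : Subgroup E).map (QuotientGroup.mk' K) = B.map (QuotientGroup.mk' K) := by
    rw [← h, Subgroup.map_sup, QuotientGroup.map_mk'_self, bot_sup_eq]
  rw [← QuotientGroup.ker_mk' K, ← Subgroup.map_eq_bot_iff] at k ⊢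
  rwa [commutator_def, map_commutator, this, ← map_commutator]

theorem pf {ι : Type} [Fintype ι] (A : Subgroup E) [A.Normal] (hA : ⁅A, A⁆ = ⊥) (w r : ι → E)
    (hw : ∀ i, w i ∈ commutator E) (hr : ∀ i, r i ∈ A) (h : closure (Set.range fun i => w i * r i) = ⊤) :
    ∃ S : Finset E, (∀ i, w i ∈ S) ∧ ∀ s ∈ S, s ∈ ⁅closure (S : Set E), closure (S : Set E)⁆ := by
  classical
  let S := Finset.univ.image w ∪ Finset.univ.image fun p : ι × ι => ⁅w p.1, r p.2⁆
  have c := commutator_eq_bot_iff_le_centralizer.1 hA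
  have m1 : ∀ i, w i ∈ closure (S : Set E) := fun i => subset_closure (by simp [S])
  have m2 : ∀ i j, ⁅w i, r j⁆ ∈ closure (S : Set E) := fun i j => subset_closure (by simp [S])
  have m3 : ∀ a, ∀ b ∈ A, ⁅a, b⁆ ∈ A := fun a b m => mul_mem (‹A.Normal›.conj_mem _ m a) (inv_mem m)
  have n : ∀ ρ ∈ A, (∀ i, ⁅ρ, w i⁆ ∈ closure (S : Set E)) → ∀ p ∈ closure (S : Set E),
      ρ * p * ρ⁻¹ ∈ closure (S : Set E) := fun ρ m k => by
    refine fun p hp => (closure_le (comap (MulAut.conj ρ).toMonoidHom (closure (S : Set E)))).2 ?_ hp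
    intro x hx
    change ρ * x * ρ⁻¹ ∈ closure (S : Set E)
    simp only [S, Finset.coe_union, Finset.coe_image, Finset.coe_univ, Set.image_univ] at hx
    rcases hx with ⟨i, rfl⟩ | ⟨p, rfl⟩
    · simpa [commutatorElement_def] using mul_mem (k i) (m1 i)
    · rw [c (m3 (w p.1) _ (hr p.2)) _ m, mul_inv_cancel_right]
      exact m2 p.1 p.2
  have : (closure (S : Set E)).Normal := ⟨fun p m g => by
    induction h.ge (mem_top g) using closure_induction'' generalizing p with
    | mem x k =>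
      obtain ⟨i, rfl⟩ := k
      simpa [mul_assoc] using mul_mem (mul_mem (m1 i) (n _ (hr i) (fun j =>
        commutatorElement_inv (w j) (r i) ▸ inv_mem (m2 j i)) p m)) (inv_mem (m1 i))
    | inv_mem x k =>
      obtain ⟨i, rfl⟩ := k
      simpa [mul_assoc] using n _ (inv_mem (hr i)) (fun j => by
        convert m2 j i using 1
        simpa [commutatorElement_def, mul_assoc] using
          c (‹A.Normal›.conj_mem _ (hr i) (w j)) _ (inv_mem (hr i))) _
        (mul_mem (mul_mem (inv_mem (m1 i)) m) (m1 i))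
    | one => simpa
    | mul a b _ _ h1 h2 => simpa [mul_assoc] using h1 _ (h2 p m)⟩
  have t : closure (S : Set E) ⊔ A = ⊤ := eq_top_iff.2 (h.ge.trans ((closure_le _).2
    (Set.range_subset_iff.2 fun i => mul_mem_sup (m1 i) (hr i))))
  have le : closure (S : Set E) ≤ commutator E := (closure_le _).2 (by
    simp only [S, Finset.coe_union, Finset.coe_image, Finset.coe_univ, Set.image_univ, Set.union_subset_iff,
      Set.range_subset_iff]
    exact ⟨hw, fun p => commutator_mem_commutator trivial trivial⟩)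
  have := cl (⁅closure (S : Set E), closure (S : Set E)⁆ ⊔ A) _
    (by rw [sup_assoc, sup_comm A, t, sup_top_eq]) le_sup_left
  exact ⟨S, by simp [S], fun s m => cl _ A (eq_top_iff.2 (t.ge.trans (sup_le (le.trans this) le_sup_right)))
    (hA ▸ bot_le) (le (subset_closure m))⟩

theorem ro {F : Type} [Group F] (ψ : F →* (ℚ ≃o ℚ)) :
    ∃ o : LinearOrder (F ⧸ ψ.ker), ∀ a b c : F ⧸ ψ.ker, a ≤ b → a * c ≤ b * c := by
  obtain ⟨e, he⟩ := exists_surjective_nat ℚ
  refine ⟨.lift' (fun g => toLex fun n => (QuotientGroup.kerLift ψ g)⁻¹ (e n)) fun a b h =>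
    QuotientGroup.kerLift_injective ψ (inv_injective (RelIso.ext fun x => ?_)), fun a b c h => ?_⟩
  · obtain ⟨n, rfl⟩ := he x
    exact congrFun h n
  change toLex (α := ℕ → ℚ) _ ≤ toLex _ at h ⊢
  simp only [map_mul, mul_inv_rev, RelIso.coe_mul, Function.comp]
  rcases h.eq_or_lt with h | ⟨i, h1, h2⟩
  · exact le_of_eq (funext fun n => congrArg _ (congrFun h n))
  · exact le_of_lt ⟨i, fun j k => congrArg _ (h1 j k), OrderIso.strictMono (QuotientGroup.kerLift ψ c)⁻¹ h2⟩

def lift (g : ℚ → ℚ) (x : ℚ) : ℚ := ⌊x⌋ + g (Int.fract x)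

lemma l1 (g) (n : ℤ) (x) : lift g (n + x) = n + lift g x := by simp [lift, add_assoc]

lemma l2 (g) {x} (h : -1 ≤ x) (k : x < 1) : lift g x = if x < 0 then g (x + 1) - 1 else g x := by
  have a : ∀ x, 0 ≤ x → x < 1 → lift g x = g x := fun x h k => by
    simp [lift, Int.floor_eq_zero_iff.2 ⟨h, k⟩, Int.fract_eq_self.2 ⟨h, k⟩]
  split_ifs with c
  · have := l1 g 1 x
    rw [a _ (by simp; linarith) (by simpa), Int.cast_one] at this
    rw [add_comm x, this, add_sub_cancel_left]
  · exact a x (not_lt.1 c) k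

noncomputable def iso (g h : ℚ → ℚ) (m : ∀ x y, 0 ≤ x → x < y → y < 1 → g x < g y)
    (b : ∀ x, 0 ≤ x → x < 1 → g x < g 0 + 1)
    (s : ∀ y, g 0 ≤ y → y < g 0 + 1 → 0 ≤ h y ∧ h y < 1 ∧ g (h y) = y) : ℚ ≃o ℚ :=
  StrictMono.orderIsoOfSurjective (lift g) (fun x y k => by
    have := Int.fract_nonneg x
    have := Int.fract_lt_one x
    have := Int.fract_nonneg y
    have := Int.fract_lt_one y
    rcases (Int.floor_mono k.le).eq_or_lt with e | e
    · simpa [lift, e] using m _ _ ‹_› (by unfold Int.fract; rw [e]; linarith) ‹_›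
    · have : (⌊x⌋ : ℚ) + 1 ≤ ⌊y⌋ := by exact_mod_cast e
      have := m 0 (Int.fract y)
      have := b (Int.fract x)
      grind [lift]) fun y => ⟨⌊y - g 0⌋ + h (y - ⌊y - g 0⌋), by
    obtain ⟨h1, h2, h3⟩ := s (y - ⌊y - g 0⌋) (by linarith [Int.floor_le (y - g 0)])
      (by linarith [Int.lt_floor_add_one (y - g 0)])
    rw [l1, l2 g (by linarith) h2, if_neg h1.not_gt, h3, add_sub_cancel]⟩

def a (x : ℚ) : ℚ := if x < 1 / 2 then x / 2 else if x < 3 / 4 then x - 1 / 4 else 2 * x - 1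
def a' (x : ℚ) : ℚ := if x < 1 / 4 then 2 * x else if x < 1 / 2 then x + 1 / 4 else (x + 1) / 2
def b (x : ℚ) : ℚ := if x < 1 / 2 then x else if x < 3 / 4 then x / 2 + 1 / 4 else
  if x < 7 / 8 then x - 1 / 8 else 2 * x - 1
def b' (x : ℚ) : ℚ := if x < 1 / 2 then x else if x < 5 / 8 then 2 * x - 1 / 2 else
  if x < 3 / 4 then x + 1 / 8 else (x + 1) / 2
def c (x : ℚ) : ℚ := if x < 1 / 2 then x / 2 - 1 / 4 else if x < 3 / 4 then 2 * x - 1 else x - 1 / 4
def c' (x : ℚ) : ℚ := if x < 0 then 2 * x + 1 / 2 else if x < 1 / 2 then (x + 1) / 2 else x + 1 / 4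
def d (x : ℚ) : ℚ := if x < 1 / 2 then x / 4 - 1 / 8 else if x < 7 / 8 then 2 * x - 1 else x - 1 / 8

noncomputable def ψ : FreeGroup (Fin 4) →* (ℚ ≃o ℚ) := FreeGroup.lift
  ![iso a a' (by grind [a]) (by grind [a]) (by grind [a, a']), iso a' a (by grind [a']) (by grind [a']) (by grind [a, a']),
    iso b b' (by grind [b]) (by grind [b]) (by grind [b, b']), iso c c' (by grind [c]) (by grind [c]) (by grind [c, c'])]

lemma per {u v : ℚ → ℚ} (hu : ∀ (n : ℤ) x, u (n + x) = n + u x) (hv : ∀ (n : ℤ) x, v (n + x) = n + v x)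
    (h : ∀ x, 0 ≤ x → x < 1 → u x = v x) (x) : u x = v x := by
  rw [← Int.floor_add_fract x, hu, hv, h _ (Int.fract_nonneg x) (Int.fract_lt_one x)]

lemma r0 : ∀ x, lift a (lift a' x) = x := per (by simp [l1]) (by simp) (by grind [l2, a, a'])

lemma rd : ∀ x, lift a' (lift c (lift b x)) = lift d x :=
  per (by simp [l1]) (by simp [l1]) (by grind [l2, a', b, c, d])

lemma r1 : ∀ x, lift c x = lift b (lift d x) := per (by simp [l1]) (by simp [l1]) (by grind [l2, b, c, d])

lemma r2 : ∀ x, lift d (lift a' (lift b (lift a x))) = lift b (lift a' (lift d (lift b x))) :=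
  per (by simp [l1]) (by simp [l1]) (by grind (splits := 60) [l2, a, a', b, d])

lemma r3 : ∀ x, lift c (lift a x) = lift d (lift d x) := per (by simp [l1]) (by simp [l1]) (by grind [l2, a, c, d])

lemma ab {Q : Type} [AddCommGroup Q] (a a' b c : Q) (h0 : a + a' = 0) (h1 : c = b + (a' + c + b))
    (h2 : a' + c + b + a' + b + a = b + a' + (a' + c + b) + b) (h3 : c + a = a' + c + b + (a' + c + b)) :
    a = 0 ∧ a' = 0 ∧ b = 0 ∧ c = 0 := by
  obtain rfl : b = 0 := by linear_combination (norm := abel1) h2 - h0 - h1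
  obtain rfl : a = 0 := by linear_combination (norm := abel1) h2
  obtain rfl : a' = 0 := by simpa using h0
  simpa using h3

open FreeGroup in
lemma perf (i) : of i ∈ commutator (FreeGroup (Fin 4)) ⊔ ψ.ker := by
  let N := commutator (FreeGroup (Fin 4)) ⊔ ψ.ker
  have := Normal.quotient_commutative_iff_commutator_le.2 (le_sup_left : _ ≤ N)
  have k : ∀ u v, (∀ x, ψ u x = ψ v x) → QuotientGroup.mk' N u = QuotientGroup.mk' N v := fun u v h =>
    QuotientGroup.eq.2 (mem_sup_right ((ψ.eq_iff.1 (RelIso.ext fun x => (h x).symm))))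
  have h0 := k (of 0 * of 1) 1 (by simpa [ψ, iso] using r0)
  have h1 := k (of 3) (of 2 * (of 1 * of 3 * of 2)) (by simpa [ψ, iso, rd] using r1)
  have h2 := k (of 1 * of 3 * of 2 * of 1 * of 2 * of 0) (of 2 * of 1 * (of 1 * of 3 * of 2) * of 2)
    (by simpa [ψ, iso, rd] using r2)
  have h3 := k (of 3 * of 0) (of 1 * of 3 * of 2 * (of 1 * of 3 * of 2)) (by simpa [ψ, iso, rd] using r3)
  simp only [MonoidHom.map_mul, MonoidHom.map_one] at h0 h1 h2 h3
  let _ : CommGroup (_ ⧸ N) := {(inferInstance : Group _) with mul_comm := this.1.1}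
  obtain ⟨h0, h1, h2, h3⟩ := ab (Q := Additive (_ ⧸ N)) (QuotientGroup.mk' N (of 0))
    (QuotientGroup.mk' N (of 1)) (QuotientGroup.mk' N (of 2)) (QuotientGroup.mk' N (of 3)) h0 h1 h2 h3
  refine (QuotientGroup.eq_one_iff _).1 ?_
  fin_cases i
  exacts [h0, h1, h2, h3]

end Pool.Agent.H21.BiOrd
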