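import Mathlib

namespace Pool.Agent.H21.Branch

lemma pieces {G V ι : Type} [Group G] [MulAction G V] (hf : ∀ g : G, (∀ v : V, g • v = v) → g = 1)
    (H R : Subgroup G) (D : ι → Set V)
    (h : ∀ g ∈ H, ∀ i, ∃ r ∈ H, r ∈ R ∧ (∀ v ∈ D i, r • v = g • v) ∧ ∀ v ∉ D i, r • v = v)
    (S : Finset ι) : ∀ g ∈ H, (∀ v, (∀ i ∈ S, v ∉ D i) → g • v = v) → g ∈ R := by
  classical
  induction S using Finset.induction_on with
  | empty => exact fun g _ hg => hf g (fun v => hg v (by simp)) ▸ R.one_mem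
  | insert i S _ ih =>
    intro g hg hs
    obtain ⟨r, h1, h2, h3, h4⟩ := h g hg i
    have := ih (r⁻¹ * g) (H.mul_mem (H.inv_mem h1) hg) fun v hv => by
      rw [mul_smul, inv_smul_eq_iff]
      by_cases hi : v ∈ D i
      · exact (h3 v hi).symm
      · rw [h4 v hi]
        exact hs v (by simpa [hi] using hv)
    simpa using R.mul_mem h2 this

def m : ℕ → ℕ := fun i => if i = 0 then 3 else 2

abbrev V := {l : List ℕ // ∀ i (h : i < l.length), l.get ⟨i, h⟩ < m i}

def c (v : V) (i : ℕ) : ℕ := v.1.getD i 0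

def mk (n : ℕ) (f : ℕ → ℕ) (h : ∀ i < n, f i < m i) : V :=
  ⟨(List.range n).map f, fun i hi => by simpa using h i (by simpa using hi)⟩

@[simp] lemma mk_len (n f h) : (mk n f h).1.length = n := by simp [mk]

lemma c_mk {n f h i} (hi : i < n) : c (mk n f h) i = f i := by
  simp [c, mk, hi]

lemma c_lt (v : V) {i : ℕ} (hi : i < v.1.length) : c v i < m i := by
  simpa [c, hi] using v.2 i hi

lemma pre_iff (v w : V) :
    v.1 <+: w.1 ↔ v.1.length ≤ w.1.length ∧ ∀ i < v.1.length, c v i = c w i := by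
  rw [List.prefix_iff_getElem]
  refine ⟨fun ⟨h, e⟩ => ⟨h, fun i hi => ?_⟩, fun ⟨h, e⟩ => ⟨h, fun i hi => ?_⟩⟩
  · simpa [c, hi, hi.trans_le h] using e i hi
  · simpa [c, hi, hi.trans_le h] using e i hi

lemma vext {v w : V} (h : v.1.length = w.1.length) (e : ∀ i < v.1.length, c v i = c w i) : v = w :=
  Subtype.ext (((pre_iff v w).2 ⟨h.le, e⟩).eq_of_length h)

def tk (n : ℕ) (v : V) (h : n ≤ v.1.length) : V := mk n (c v) fun _ hi => c_lt v (hi.trans_le h)

lemma tk_pre (n v h) : (tk n v h).1 <+: v.1 :=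
  (pre_iff _ _).2 ⟨by simpa [tk], fun i hi => c_mk (by simpa [tk] using hi)⟩

lemma via {u v w : List ℕ} (h : u <+: w) (l : v.length ≤ u.length) : v <+: w ↔ v <+: u :=
  ⟨fun h' => List.prefix_of_prefix_length_le h' h l, fun h' => h'.trans h⟩

def t (v : V) : V :=
  if 2 ≤ v.1.length then
    mk v.1.length (fun i => if i = 0 then (c v 0 + 2 - c v 1) % 3 else if i = 1 then 1 - c v 1
      else c v i) fun i hi => by
        have := c_lt v hi
        unfold m at *
        split_ifs at * <;> omega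
  else v

lemma t_len (v : V) : (t v).1.length = v.1.length := by
  unfold t; split_ifs <;> simp

lemma t_short {v : V} (h : v.1.length < 2) : t v = v := if_neg (by omega)

lemma c_t {v : V} (h : 2 ≤ v.1.length) {i : ℕ} (hi : i < v.1.length) : c (t v) i =
    if i = 0 then (c v 0 + 2 - c v 1) % 3 else if i = 1 then 1 - c v 1 else c v i := by
  rw [t, if_pos h, c_mk hi]

lemma t_t : Function.Involutive t := fun v => by
  by_cases h : 2 ≤ v.1.length
  · refine vext (by rw [t_len, t_len]) fun i hi => ?_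
    rw [t_len, t_len] at hi
    have h0 := c_lt v (i := 0) (by omega)
    have h1 := c_lt v (i := 1) (by omega)
    rw [c_t (by rwa [t_len]) (by rwa [t_len]), c_t h hi, c_t h (i := 0) (by omega),
      c_t h (i := 1) (by omega)]
    simp only [m] at *
    split_ifs <;> simp_all <;> omega
  · rw [t_short (v := v) (by omega), t_short (by omega)]

def τ : Equiv.Perm V := t_t.toPerm

lemma τ_apply (v : V) : τ v = t v := rfl

lemma t_pre' {v w : V} (h : 2 ≤ v.1.length) (p : v.1 <+: w.1) : (t v).1 <+: (t w).1 := by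
  rw [pre_iff] at p ⊢
  simp only [t_len]
  refine ⟨p.1, fun i hi => ?_⟩
  rw [c_t h hi, c_t (h.trans p.1) (hi.trans_le p.1), p.2 0 (by omega), p.2 1 (by omega), p.2 i hi]

lemma t_pre {v w : V} (h : 2 ≤ v.1.length) : (t v).1 <+: (t w).1 ↔ v.1 <+: w.1 :=
  ⟨fun p => by simpa [t_t v, t_t w] using t_pre' (by rwa [t_len]) p, t_pre' h⟩

def L : Subgroup (Equiv.Perm V) where
  carrier := {g | (∀ v, (g v).1.length = v.1.length) ∧
    (∀ v w : V, v.1 <+: w.1 ↔ (g v).1 <+: (g w).1) ∧ ∀ v : V, v.1.length = 2 → g (t v) = t (g v)}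
  one_mem' := ⟨fun _ => rfl, fun _ _ => Iff.rfl, fun _ _ => rfl⟩
  mul_mem' := fun {a b} ha hb => ⟨fun v => (ha.1 _).trans (hb.1 v),
    fun v w => (hb.2.1 v w).trans (ha.2.1 _ _), fun v hv => by
      simp only [Equiv.Perm.mul_apply]
      rw [hb.2.2 v hv, ha.2.2 _ ((hb.1 v).trans hv)]⟩
  inv_mem' := fun {a} ha => by
    have h1 : ∀ v, (a⁻¹ v).1.length = v.1.length := fun v => by simpa using (ha.1 (a⁻¹ v)).symm
    refine ⟨h1, fun v w => by simpa using (ha.2.1 (a⁻¹ v) (a⁻¹ w)).symm, fun v hv => ?_⟩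
    rw [Equiv.Perm.inv_eq_iff_eq, ha.2.2 _ ((h1 v).trans hv)]
    simp

lemma conj_mem {g : Equiv.Perm V} (hg : g ∈ L) : τ * g * τ ∈ L := by
  obtain ⟨h1, h2, h3⟩ := hg
  have big : ∀ v w : V, 2 ≤ v.1.length →
      (v.1 <+: w.1 ↔ (t (g (t v))).1 <+: (t (g (t w))).1) := fun v w h => by
    rw [t_pre (by rwa [h1, t_len]), ← h2, t_pre h]
  have small : ∀ v : V, v.1.length < 2 → t (g (t v)) = g v := fun v h => by
    rw [t_short h, t_short (by rwa [h1])]
  refine ⟨fun v => ?_, fun v w => ?_, fun v hv => ?_⟩ <;>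
    simp only [Equiv.Perm.mul_apply, τ_apply]
  · rw [t_len, h1, t_len]
  · by_cases hv : 2 ≤ v.1.length
    · exact big v w hv
    rw [small v (by omega)]
    by_cases hw : 2 ≤ w.1.length
    · have p := tk_pre 2 w hw
      have l : (tk 2 w hw).1.length = 2 := by simp [tk]
      have q := (big _ _ l.ge).1 p
      rw [h3 _ l, t_t] at q
      rw [via p (by omega), via q (by rw [h1, h1]; omega), h2]
    · rw [small w (by omega), h2]
  · rw [t_t, t_t, h3 v hv]

lemma ττ : τ * τ = 1 := Equiv.ext t_t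

def φ : L ≃* L where
  toFun g := ⟨τ * g * τ, conj_mem g.2⟩
  invFun g := ⟨τ * g * τ, conj_mem g.2⟩
  left_inv g := Subtype.ext (by
    simp only [← mul_assoc, ττ, one_mul]
    rw [mul_assoc, ττ, mul_one])
  right_inv g := Subtype.ext (by
    simp only [← mul_assoc, ττ, one_mul]
    rw [mul_assoc, ττ, mul_one])
  map_mul' g h := Subtype.ext (by
    simp only [Subgroup.coe_mul, ← mul_assoc]
    rw [mul_assoc _ τ τ, ττ, mul_one])

def co (a : ℕ) (e : ℕ → ℕ) (v : V) : V :=
  mk v.1.length (fun i => if i = 0 then (a + (1 + e 1 % 2) * c v 0) % 3 else (c v i + e i) % 2)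
    fun i _ => by
      unfold m
      split_ifs <;> omega

lemma co_len (a e v) : (co a e v).1.length = v.1.length := by simp [co]

lemma c_co {a e v i} (hi : i < v.1.length) : c (co a e v) i =
    if i = 0 then (a + (1 + e 1 % 2) * c v 0) % 3 else (c v i + e i) % 2 := by
  rw [co, c_mk hi]

lemma co_co (a : ℕ) (e : ℕ → ℕ) (v : V) : co (2 * (1 + e 1 % 2) * a) e (co a e v) = v := by
  refine vext (by rw [co_len, co_len]) fun i hi => ?_
  rw [co_len, co_len] at hi
  rw [c_co (by rwa [co_len]), c_co hi, c_co (i := 0) (by omega)]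
  have h := c_lt v hi
  unfold m at h
  rcases Nat.mod_two_eq_zero_or_one (e 1) with h' | h' <;> rw [h'] <;> split_ifs at * <;>
    simp_all <;> omega

lemma co_co' (a : ℕ) (e : ℕ → ℕ) (v : V) : co a e (co (2 * (1 + e 1 % 2) * a) e v) = v := by
  refine vext (by rw [co_len, co_len]) fun i hi => ?_
  rw [co_len, co_len] at hi
  rw [c_co (by rwa [co_len]), c_co hi, c_co (i := 0) (by omega)]
  have h := c_lt v hi
  unfold m at h
  rcases Nat.mod_two_eq_zero_or_one (e 1) with h' | h' <;> rw [h'] <;> split_ifs at * <;>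
    simp_all <;> omega

lemma co_pre (a e) {v w : V} (p : v.1 <+: w.1) : (co a e v).1 <+: (co a e w).1 := by
  rw [pre_iff] at p ⊢
  simp only [co_len]
  refine ⟨p.1, fun i hi => ?_⟩
  rw [c_co hi, c_co (hi.trans_le p.1), p.2 0 (by omega), p.2 i hi]

def cp (a : ℕ) (e : ℕ → ℕ) : Equiv.Perm V := ⟨co a e, co _ e, co_co a e, co_co' a e⟩

lemma cp_mem (a : ℕ) (e : ℕ → ℕ) : cp a e ∈ L := by
  refine ⟨co_len a e, fun v w => ⟨co_pre a e, fun p => ?_⟩, fun v hv => ?_⟩
  · have := co_pre (2 * (1 + e 1 % 2) * a) e p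
    simpa [cp, co_co] using this
  · show co a e (t v) = t (co a e v)
    refine vext (by simp [co_len, t_len]) fun i hi => ?_
    rw [co_len, t_len] at hi
    have h0 := c_lt v (i := 0) (by omega)
    have h1 := c_lt v (i := 1) (by omega)
    rw [c_co (by rwa [t_len]), c_t (v := co a e v) (by rw [co_len]; omega) (by rwa [co_len]),
      c_t (i := 0) hv.ge (by omega), c_t hv.ge hi, c_co (i := 0) (by omega),
      c_co (i := 1) (by omega)]
    simp only [m, if_true, one_ne_zero, if_false] at h0 h1 ⊢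
    obtain rfl | rfl : i = 0 ∨ i = 1 := by omega
    all_goals
      simp only [if_true, one_ne_zero, if_false]
      obtain h2 | h2 : c v 1 = 0 ∨ c v 1 = 1 := by omega
      all_goals
        rcases Nat.mod_two_eq_zero_or_one (e 1) with h' | h'
        · have h3 : (c v 1 + e 1) % 2 = c v 1 := by omega
          simp only [h', h3]
          omega
        · have h3 : (c v 1 + e 1) % 2 = 1 - c v 1 := by omega
          simp only [h', h3]
          omega

lemma trans (v w : V) (h : v.1.length = w.1.length) : ∃ g ∈ L, g v = w := by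
  refine ⟨cp (c w 0 + 2 * (1 + (c v 1 + c w 1) % 2) * c v 0) fun i => c v i + c w i,
    cp_mem _ _, ?_⟩
  show co _ _ v = w
  refine vext (by rwa [co_len]) fun i hi => ?_
  rw [co_len] at hi
  rw [c_co hi]
  have h := c_lt w (h ▸ hi)
  unfold m at h
  rcases Nat.mod_two_eq_zero_or_one (c v 1 + c w 1) with h' | h' <;> rw [h'] <;>
    split_ifs at * <;> simp_all <;> omega

def St (N : ℕ) : Subgroup (Equiv.Perm V) where
  carrier := {g | g ∈ L ∧ ∀ v : V, v.1.length ≤ N → g v = v}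
  one_mem' := ⟨L.one_mem, fun _ _ => rfl⟩
  mul_mem' := fun {a b} ha hb => ⟨L.mul_mem ha.1 hb.1, fun v hv => by
    rw [Equiv.Perm.mul_apply, hb.2 v hv, ha.2 v hv]⟩
  inv_mem' := fun {a} ha => ⟨L.inv_mem ha.1, fun v hv => by
    rw [Equiv.Perm.inv_eq_iff_eq, ha.2 v hv]⟩

lemma restrict {N : ℕ} (hN : 2 ≤ N) {g : Equiv.Perm V} (hg : g ∈ St N) (u : V)
    (hu : u.1.length = N) :
    ∃ r ∈ St N, (∀ v : V, u.1 <+: v.1 → r v = g v) ∧ ∀ v : V, ¬ u.1 <+: v.1 → r v = v := by
  classical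
  obtain ⟨⟨h1, h2, h3⟩, h4⟩ := hg
  have inv : ∀ v : V, u.1 <+: (g v).1 ↔ u.1 <+: v.1 := fun v => by
    rw [h2 u v, h4 u hu.le]
  let r := Equiv.Perm.ofSubtype (g.subtypePerm (p := fun v : V => u.1 <+: v.1) inv)
  have e1 : ∀ v : V, u.1 <+: v.1 → r v = g v := fun v hv =>
    Equiv.Perm.ofSubtype_subtypePerm_of_mem (p := fun v : V => u.1 <+: v.1) inv hv
  have e2 : ∀ v : V, ¬ u.1 <+: v.1 → r v = v := fun v hv =>
    Equiv.Perm.ofSubtype_subtypePerm_of_not_mem (p := fun v : V => u.1 <+: v.1) inv hv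
  have e3 : ∀ v : V, v.1.length ≤ N → r v = v := fun v hv => by
    by_cases h : u.1 <+: v.1
    · rw [e1 v h, h4 v hv]
    · exact e2 v h
  refine ⟨r, ⟨⟨fun v => ?_, fun v w => ?_, fun v hv => ?_⟩, e3⟩, e1, e2⟩
  · by_cases h : u.1 <+: v.1
    · rw [e1 v h, h1]
    · rw [e2 v h]
  · by_cases h : u.1 <+: v.1 <;> by_cases h' : u.1 <+: w.1
    · rw [e1 v h, e1 w h', h2]
    · rw [e1 v h, e2 w h']
      exact iff_of_false (fun p => h' (h.trans p)) fun p => h' (((inv v).2 h).trans p)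
    · rw [e2 v h, e1 w h']
      by_cases hl : v.1.length ≤ u.1.length
      · rw [via h' hl, via ((inv w).2 h') hl]
      · exact iff_of_false (fun p => h ((via p (by omega)).1 h'))
          fun p => h ((via p (by omega)).1 ((inv w).2 h'))
    · rw [e2 v h, e2 w h']
  · rw [e3 v (by omega), e3 _ (by rw [t_len]; omega)]

instance (N : ℕ) : Finite {v : V // v.1.length ≤ N} := by
  refine Finite.of_injective (fun v => ((⟨v.1.1.length, by have := v.2; omega⟩,
    fun i => ⟨c v.1 i % 3, by omega⟩) : Fin (N + 1) × (Fin N → Fin 3))) fun v w h => ?_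
  simp only [Prod.mk.injEq, Fin.mk.injEq] at h
  refine Subtype.ext (vext h.1 fun i hi => ?_)
  have h1 := congrFun h.2 ⟨i, hi.trans_le v.2⟩
  have h2 := c_lt v.1 hi
  have h3 := c_lt w.1 (h.1 ▸ hi)
  simp only [Fin.mk.injEq, m] at h1 h2 h3
  split_ifs at * <;> omega

lemma St_fin (N : ℕ) : ((St N).subgroupOf L).FiniteIndex := by
  have : ∀ v : {v : V // v.1.length ≤ N}, (MulAction.stabilizer L v.1).FiniteIndex := fun v => by
    constructor
    rw [MulAction.index_stabilizer]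
    refine ((Set.ncard_pos ?_).2 ⟨_, MulAction.mem_orbit_self _⟩).ne'
    refine Set.Finite.subset (s := {w : V | w.1.length ≤ N})
      (inferInstanceAs (Finite {v : V // v.1.length ≤ N})) ?_
    rintro _ ⟨g, rfl⟩
    exact (g.2.1 v.1).le.trans v.2
  have := Subgroup.finiteIndex_iInf this
  refine Subgroup.finiteIndex_of_le (H := ⨅ v : {v : V // v.1.length ≤ N},
    MulAction.stabilizer L v.1) fun g hg => ⟨g.2, fun v hv => ?_⟩
  exact Subgroup.mem_iInf.1 hg ⟨v, hv⟩

lemma rist (n : ℕ) : ((Subgroup.closure {g : Equiv.Perm V | g ∈ L ∧ ∃ u : V, u.1.length = n ∧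
    ∀ v : V, ¬ u.1 <+: v.1 → g v = v}).subgroupOf L).index ≠ 0 := by
  have := St_fin (n + 2)
  refine (Subgroup.finiteIndex_of_le (H := (St (n + 2)).subgroupOf L) fun g hg => ?_).1
  have : Finite {v : V // v.1.length = n + 2} := Finite.of_injective
    (fun v => (⟨v.1, v.2.le⟩ : {v : V // v.1.length ≤ n + 2}))
    fun _ _ h => Subtype.ext (Subtype.mk.inj h)
  have := Fintype.ofFinite {v : V // v.1.length = n + 2}
  rw [Subgroup.mem_subgroupOf]
  refine pieces (fun g h => Equiv.ext h) (St (n + 2)) _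
    (fun u : {v : V // v.1.length = n + 2} => {v : V | u.1.1 <+: v.1}) (fun g hg u => ?_)
    Finset.univ g hg fun v hv => ?_
  · obtain ⟨r, h1, h2, h3⟩ := restrict (by omega) hg u.1 u.2
    exact ⟨r, h1, Subgroup.subset_closure ⟨h1.1, tk n u.1 (by rw [u.2]; omega), by simp [tk],
      fun v hv => h3 v fun p => hv ((tk_pre _ _ _).trans p)⟩, h2, h3⟩
  · refine hg.2 v ?_
    by_contra hl
    exact hv ⟨tk (n + 2) v (by omega), by simp [tk]⟩ (Finset.mem_univ _) (tk_pre _ v (by omega))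

lemma no_sigma (σ : Equiv.Perm V) (h1 : ∀ v w : V, v.1 <+: w.1 ↔ (σ v).1 <+: (σ w).1)
    (h2 : ∀ g : L, ((φ g : L) : Equiv.Perm V) = σ * g * σ⁻¹) : False := by
  have hf : cp 0 (fun i => if i = 2 then 1 else 0) ∈ St 2 := ⟨cp_mem _ _, fun v hv => by
    show co _ _ v = v
    refine vext (co_len _ _ _) fun i hi => ?_
    rw [co_len] at hi
    rw [c_co hi]
    have h := c_lt v hi
    unfold m at h
    split_ifs at * <;> simp_all <;> omega⟩
  have key : ∀ w : V, ∀ hw : w.1.length = 3, (t (tk 2 w (by omega))).1 <+: (σ w).1 := by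
    intro w hw
    obtain ⟨r, hr, e1, e2⟩ := restrict le_rfl hf (tk 2 w (by omega)) (by simp [tk])
    have e3 := congrArg (fun g => g (σ w)) (h2 ⟨r, hr.1⟩)
    simp only [φ, MulEquiv.coe_mk, Equiv.coe_fn_mk, Equiv.Perm.mul_apply, τ_apply,
      Equiv.Perm.coe_inv, Equiv.symm_apply_apply] at e3
    rw [← t_pre (by simp [t_len, tk]), t_t]
    by_contra hc
    rw [e2 _ hc, t_t, σ.apply_eq_iff_eq, e1 w (tk_pre _ _ _)] at e3
    have e4 := congrArg (fun v => c v 2) e3
    have e5 : c (co 0 (fun i => if i = 2 then 1 else 0) w) 2 = _ := c_co (by omega)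
    simp only [cp, Equiv.coe_fn_mk, e5] at e4
    simp at e4
    omega
  let w0 : V := ⟨[0, 0, 0], by decide⟩
  let w1 : V := ⟨[0, 1, 0], by decide⟩
  let v : V := ⟨[0], by decide⟩
  have k0 := (pre_iff _ _).1 (key w0 rfl)
  have k1 := (pre_iff _ _).1 (key w1 rfl)
  have p0 := (pre_iff _ _).1 ((h1 v w0).1 (by decide))
  have p1 := (pre_iff _ _).1 ((h1 v w1).1 (by decide))
  have a0 := k0.2 0 (by decide)
  have a1 := k1.2 0 (by decide)
  have b0 : c (t (tk 2 w0 (by decide))) 0 = 2 := by decide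
  have b1 : c (t (tk 2 w1 (by decide))) 0 = 1 := by decide
  have z : (σ v).1.length = 0 := by
    by_contra hz
    have := p0.2 0 (by omega)
    have := p1.2 0 (by omega)
    omega
  have := (h1 v ⟨[], by decide⟩).2 (by rw [List.length_eq_zero_iff.1 z]; exact List.nil_prefix)
  exact absurd this (by decide)

end Pool.Agent.H21.Branch
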