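import Mathlib
import Pool.Agent.H21.Branch

namespace Pool.Agent.H21.Branch2

abbrev V := List (ZMod 2)

def G : Subgroup (Equiv.Perm V) where
  carrier := {g | (∀ v, (g v).length = v.length) ∧ ∃ (l : V → ZMod 2) (N : ℕ),
    (∀ b v, g (b :: v) = (b + l v) :: g v) ∧ ∀ v, N ≤ v.length → l v = 0}
  one_mem' := ⟨fun _ => rfl, 0, 0, fun _ _ => by simp, fun _ _ => rfl⟩
  mul_mem' := fun {a b} ⟨h1, l, N, h2, h3⟩ ⟨k1, l', N', k2, k3⟩ =>
    ⟨fun v => (h1 _).trans (k1 v), fun v => l' v + l (b v), max N N',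
      fun x v => by simp [k2, h2, add_assoc], fun v hv => by
        show l' v + l (b v) = 0
        rw [k3 v (le_of_max_le_right hv), h3 _ (by rw [k1]; exact le_of_max_le_left hv), add_zero]⟩
  inv_mem' := fun {a} ⟨h1, l, N, h2, h3⟩ => by
    have k1 : ∀ v, (a⁻¹ v).length = v.length := fun v => by simpa using (h1 (a⁻¹ v)).symm
    refine ⟨k1, fun v => -l (a⁻¹ v), N, fun x v => ?_, fun v hv =>
      neg_eq_zero.2 (h3 _ (by rwa [k1]))⟩
    rw [Equiv.Perm.inv_eq_iff_eq, h2, neg_add_cancel_right]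
    simp

def lab (g : G) (v : V) : ZMod 2 := (g.1 (0 :: v)).headD 0

lemma lab_spec (g : G) (b : ZMod 2) (v : V) : g.1 (b :: v) = (b + lab g v) :: g.1 v := by
  obtain ⟨-, l, N, h, -⟩ := g.2
  simp [lab, h]

lemma lab_fin (g : G) : ∃ N, ∀ v : V, N ≤ v.length → lab g v = 0 := by
  obtain ⟨-, l, N, h, h'⟩ := g.2
  exact ⟨N, fun v hv => by simp [lab, h, h' v hv]⟩

lemma lab_mul (g h : G) (v : V) : lab (g * h) v = lab h v + lab g (h.1 v) := by
  have := lab_spec (g * h) 0 v
  simp only [Subgroup.coe_mul, Equiv.Perm.mul_apply, lab_spec] at this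
  simpa using this.symm

def F (l : V → ZMod 2) : V → V
  | [] => []
  | b :: v => (b + l v) :: F l v

def I (l : V → ZMod 2) : V → V
  | [] => []
  | b :: v => (b - l (I l v)) :: I l v

def mkP (l : V → ZMod 2) (N : ℕ) (h : ∀ v, N ≤ v.length → l v = 0) : G :=
  ⟨⟨F l, I l, fun v => by induction v <;> simp_all [F, I],
    fun v => by induction v <;> simp_all [F, I]⟩,
    fun v => by induction v <;> simp_all [F], l, N, fun _ _ => rfl, h⟩

lemma lab_mkP (l N h v) : lab (mkP l N h) v = l v := by simp [lab, mkP, F]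

lemma fix (g : G) (v : V) (h : ∀ u : V, u.length < v.length → lab g u = 0) : g.1 v = v := by
  induction v with
  | nil => exact List.length_eq_zero_iff.1 (g.2.1 _)
  | cons b v ih => rw [lab_spec, h v (by simp), add_zero, ih fun u hu => h u (by simp; omega)]

def sw (u : V) (c : ZMod 2) : G :=
  mkP (fun v => if v = u then c else 0) (u.length + 1) fun v hv => if_neg (by rintro rfl; omega)

lemma lab_sw (u c v) : lab (sw u c) v = if v = u then c else 0 := lab_mkP _ _ _ _

lemma sw_fix (u c) (v : V) (h : v.length ≤ u.length) : (sw u c).1 v = v :=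
  fix _ _ fun w hw => by rw [lab_sw, if_neg (by rintro rfl; omega)]

lemma trans (v : V) : ∀ w : V, v.length = w.length → ∃ g : G, g • v = w := by
  induction v with
  | nil => exact fun w hw => ⟨1, (List.length_eq_zero_iff.1 hw.symm).symm⟩
  | cons b v ih =>
    rintro (_ | ⟨c, w⟩) hw
    · simp at hw
    obtain ⟨g, hg⟩ := ih w (by simpa using hw)
    refine ⟨sw w (c - (b + lab g v)) * g, ?_⟩
    show (sw _ _).1 (g.1 _) = _
    rw [lab_spec, show g.1 v = w from hg, lab_spec, lab_sw, sw_fix _ _ _ le_rfl]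
    simp

lemma supp_fin (g : G) (p : ℕ → Prop) [DecidablePred p] :
    (Function.support fun v : V => if p v.length then lab g v else 0).Finite := by
  obtain ⟨N, h⟩ := lab_fin g
  refine (List.finite_length_le (ZMod 2) N).subset fun v hv => ?_
  by_contra hc
  exact hv (by simp [h v (le_of_not_ge hc)])

noncomputable def chi (a : ℕ) : G →* Multiplicative (ZMod 2) :=
  MonoidHom.mk' (fun g => Multiplicative.ofAdd
    (∑ᶠ v : V, if (Nat.unpair v.length).1 = a then lab g v else 0)) fun g h => by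
    rw [← ofAdd_add, ← finsum_comp_equiv h.1 (f := fun v : V =>
      if (Nat.unpair v.length).1 = a then lab g v else 0), ← finsum_add_distrib]
    · congr 2
      funext v
      rw [h.2.1, lab_mul]
      split_ifs <;> simp [add_comm]
    · exact (supp_fin g fun n => (Nat.unpair n).1 = a).preimage h.1.injective.injOn
    · exact supp_fin h fun n => (Nat.unpair n).1 = a

lemma chi_sw (a : ℕ) (u : V) : chi a (sw u 1) =
    Multiplicative.ofAdd (if (Nat.unpair u.length).1 = a then 1 else 0) := by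
  simp only [chi, MonoidHom.mk'_apply, lab_sw]
  rw [finsum_eq_single _ u fun v hv => by simp [hv]]
  simp

def St (N : ℕ) : Subgroup G where
  carrier := {g | ∀ v : V, v.length ≤ N → g.1 v = v}
  one_mem' := fun _ _ => rfl
  mul_mem' := fun {a b} ha hb v hv => by
    rw [Subgroup.coe_mul, Equiv.Perm.mul_apply, hb v hv, ha v hv]
  inv_mem' := fun {a} ha v hv => by
    rw [Subgroup.coe_inv, Equiv.Perm.inv_eq_iff_eq, ha v hv]

instance (N : ℕ) : (St N).Normal := ⟨fun a ha g v hv => by
  have := ha (g⁻¹.1 v) (by rwa [g⁻¹.2.1])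
  simp only [Subgroup.coe_mul, Equiv.Perm.mul_apply, this]
  simp⟩

instance (N : ℕ) : (St N).FiniteIndex := by
  have hf := List.finite_length_le (ZMod 2) N
  have := hf.to_subtype
  have : ∀ v : {v : V | v.length ≤ N}, (MulAction.stabilizer G v.1).FiniteIndex := fun v => by
    constructor
    rw [MulAction.index_stabilizer]
    refine ((Set.ncard_pos (hf.subset ?_)).2 ⟨_, MulAction.mem_orbit_self _⟩).ne'
    rintro _ ⟨g, rfl⟩
    exact (g.2.1 v.1).le.trans v.2
  have := Subgroup.finiteIndex_iInf this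
  exact Subgroup.finiteIndex_of_le (H := ⨅ v : {v : V | v.length ≤ N},
    MulAction.stabilizer G v.1) fun g hg v hv => Subgroup.mem_iInf.1 hg ⟨v, hv⟩

lemma faithful (g : G) (h : ∀ v : V, g • v = v) : g = 1 := Subtype.ext (Equiv.ext h)

lemma restrict {N : ℕ} {g : G} (hg : g ∈ St N) (u : V) (hu : u.length = N) :
    ∃ r ∈ St N, (∀ v : V, u <:+ v → r • v = g • v) ∧ ∀ v : V, ¬ u <:+ v → r • v = v := by
  obtain ⟨M, hM⟩ := lab_fin g
  let r := mkP (fun v => if u <:+ v then lab g v else 0) M fun v hv => by simp [hM v hv]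
  have hr : ∀ v, lab r v = if u <:+ v then lab g v else 0 := lab_mkP _ _ _
  have e : ∀ v : V, r.1 v = if u <:+ v then g.1 v else v := by
    intro v
    induction v with
    | nil =>
      rw [fix r [] (by simp), fix g [] (by simp), ite_self]
    | cons b v ih =>
      rw [lab_spec, hr, ih]
      by_cases h : u <:+ v
      · rw [if_pos h, if_pos h, if_pos (h.trans (List.suffix_cons b v)), lab_spec]
      · rw [if_neg h, if_neg h, add_zero]
        split_ifs with h'
        · rw [hg]
          rw [← (List.suffix_cons_iff.1 h').resolve_right h, hu]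
        · rfl
  refine ⟨r, fun v hv => ?_, fun v hv => (e v).trans (if_pos hv),
    fun v hv => (e v).trans (if_neg hv)⟩
  rw [e, hg v hv, ite_self]

lemma tail_iter (t u : V) : List.tail^[t.length] (t ++ u) = u := by
  induction t with
  | nil => rfl
  | cons b t ih => simpa [Function.iterate_succ_apply] using ih

lemma rist (n : ℕ) : (Subgroup.closure {g : G | ∃ v : V, v.length = n ∧
    ∀ w : V, (∀ k : ℕ, List.tail^[k] w ≠ v) → g • w = w}).FiniteIndex := by
  refine Subgroup.finiteIndex_of_le (H := St n) fun g hg => ?_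
  have hf := List.finite_length_eq (ZMod 2) n
  have := hf.fintype
  refine Branch.pieces faithful (St n) _
    (fun u : {v : V | v.length = n} => {v : V | u.1 <:+ v}) (fun g hg u => ?_)
    Finset.univ g hg fun v hv => ?_
  · obtain ⟨r, h1, h2, h3⟩ := restrict hg u.1 u.2
    refine ⟨r, h1, Subgroup.subset_closure ⟨u.1, u.2, fun w hw => h3 w ?_⟩, h2, h3⟩
    rintro ⟨t, rfl⟩
    exact hw _ (tail_iter t u.1)
  · refine hg v ?_
    by_contra hl
    exact hv ⟨v.drop (v.length - n), by simp; omega⟩ (Finset.mem_univ _) (List.drop_suffix _ _)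

noncomputable def M (a i : ℕ) : Subgroup G := St i ⊓ (chi a).ker

lemma M_ok (a : ℕ) : Antitone (M a) ∧ (∀ i : ℕ, (M a i).Normal ∧ (M a i).FiniteIndex) ∧
    (⨅ i : ℕ, M a i) = ⊥ := by
  refine ⟨fun i j h => inf_le_inf_right _ fun g hg v hv => hg v (hv.trans h),
    fun i => ⟨by unfold M; infer_instance, by unfold M; infer_instance⟩, ?_⟩
  rw [eq_bot_iff]
  exact fun g hg => faithful g fun v => (Subgroup.mem_iInf.1 hg v.length).1 v le_rfl

lemma M_ne (a b : ℕ) (h : a ≠ b) (j : ℕ) : ¬ M b j ≤ M a 0 := fun hle => by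
  have h1 : sw (List.replicate (Nat.pair a j) 0) 1 ∈ M b j :=
    ⟨fun v hv => sw_fix _ _ _ (by simpa using hv.trans (Nat.right_le_pair a j)), 
      MonoidHom.mem_ker.2 (by rw [chi_sw]; simp [h])⟩
  have h2 := MonoidHom.mem_ker.1 (hle h1).2
  rw [chi_sw] at h2
  simp at h2

end Pool.Agent.H21.Branch2
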