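import Mathlib

namespace Pool.Agent.H21.Cg

variable {p : ℕ} [Fact p.Prime]

open Classical in
noncomputable def col (a b c : ZMod p) : ZMod p :=
  if b ≠ 0 then (if Even ((a / b) ^ 2 + c / b).val then a / b else a / b - 1)
  else if a ≠ 0 then 1 - c / (2 * a) else 0

open Classical in
noncomputable def sc (a b c : ZMod p) : ZMod p := if b ≠ 0 then b else if a ≠ 0 then a else c

noncomputable def colour (t a b c : ZMod p) : ZMod p := col a b c + t / sc a b c

lemma par0 (hp : Odd p) {q r : ZMod p} (hq : q ≠ 0) (h : q + r = 0) :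
    ¬(Even q.val ↔ Even r.val) := by
  have hr : r = -q := by linear_combination h
  have h1 := ZMod.neg_val q
  rw [if_neg hq, ← hr] at h1
  have h2 := ZMod.val_lt q
  obtain ⟨k, hk⟩ := hp
  simp only [Nat.even_iff]
  omega

lemma par1 (hp : Odd p) {q r : ZMod p} (hq : q ≠ 0) (hr : r ≠ 0) (h : q + r = 1) :
    (Even q.val ↔ Even r.val) := by
  have h1 := ZMod.val_add q r
  rw [h, ZMod.val_one] at h1
  have h2 := ZMod.val_lt q
  have h3 := ZMod.val_lt r
  have h4 : q.val ≠ 0 := by simpa using hq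
  have h5 : r.val ≠ 0 := by simpa using hr
  have h6 : q.val + r.val = p + 1 := by
    rcases lt_or_ge (q.val + r.val) p with h7 | h7
    · rw [Nat.mod_eq_of_lt h7] at h1; omega
    · rw [Nat.mod_eq_sub_mod h7, Nat.mod_eq_of_lt (by omega)] at h1; omega
  obtain ⟨k, hk⟩ := hp
  simp only [Nat.even_iff]
  omega

lemma two_ne (hp : Odd p) : (2 : ZMod p) ≠ 0 := by
  intro h
  have h1 : ((2 : ℕ) : ZMod p) = 0 := by exact_mod_cast h
  rw [ZMod.natCast_eq_zero_iff] at h1
  have := (Nat.prime_dvd_prime_iff_eq (Fact.out : p.Prime) Nat.prime_two).1 h1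
  subst this
  exact absurd hp (by decide)

lemma orth1 (hp : Odd p) {a b c a' c' : ZMod p} (hb : b ≠ 0) (ha' : a' ≠ 0)
    (h : 2 * a * a' + b * c' = 0) : col a b c ≠ col a' 0 c' := by
  have h2 := two_ne hp
  have h3 : c' / (2 * a') = -(a / b) := by field_simp; linear_combination h
  unfold col
  rw [if_pos hb, if_neg (by simp : ¬((0 : ZMod p) ≠ 0)), if_pos ha', h3]
  split_ifs
  · intro h4; exact one_ne_zero (α := ZMod p) (by linear_combination -h4)
  · intro h4; exact h2 (by linear_combination -h4)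

lemma orth (hp : Odd p) {a b c a' b' c' : ZMod p} (hQ : a ^ 2 + b * c ≠ 0)
    (hQ' : a' ^ 2 + b' * c' ≠ 0) (h : 2 * a * a' + b * c' + c * b' = 0) :
    col a b c ≠ col a' b' c' := by
  have h2 := two_ne hp
  by_cases hb : b = 0 <;> by_cases hb' : b' = 0
  · subst hb hb'
    have ha : a ≠ 0 := by rintro rfl; simp at hQ
    have ha' : a' ≠ 0 := by rintro rfl; simp at hQ'
    exact absurd (by linear_combination h : 2 * a * a' = 0) (by simp [h2, ha, ha'])
  · subst hb
    have ha : a ≠ 0 := by rintro rfl; simp at hQ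
    exact (orth1 hp hb' ha (by linear_combination h)).symm
  · subst hb'
    have ha' : a' ≠ 0 := by rintro rfl; simp at hQ'
    exact orth1 hp hb ha' (by linear_combination h)
  · have hq : (a / b) ^ 2 + c / b ≠ 0 := fun h0 => hQ (by
      have : a ^ 2 + b * c = b ^ 2 * ((a / b) ^ 2 + c / b) := by field_simp
      rw [this, h0, mul_zero])
    have hq' : (a' / b') ^ 2 + c' / b' ≠ 0 := fun h0 => hQ' (by
      have : a' ^ 2 + b' * c' = b' ^ 2 * ((a' / b') ^ 2 + c' / b') := by field_simp
      rw [this, h0, mul_zero])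
    have hs : ((a / b) ^ 2 + c / b) + ((a' / b') ^ 2 + c' / b') = (a / b - a' / b') ^ 2 := by
      have : 2 * (a / b) * (a' / b') + c' / b' + c / b = 0 := by
        field_simp; linear_combination h
      linear_combination this
    unfold col
    rw [if_pos hb, if_pos hb']
    generalize (a / b) ^ 2 + c / b = q at *
    generalize (a' / b') ^ 2 + c' / b' = r at *
    generalize a / b = x at *
    generalize a' / b' = y at *
    split_ifs with h3 h4 h4 <;> intro h5
    · exact par0 hp hq (by rw [hs, h5]; ring) (by simp [h3, h4])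
    · exact h4 ((par1 hp hq hq' (by rw [hs, h5]; ring)).1 h3)
    · exact h3 ((par1 hp hq hq' (by rw [hs, ← h5]; ring)).2 h4)
    · exact par0 hp hq (by rw [hs, show x = y by linear_combination h5]; ring) (by simp [h3, h4])

lemma sc_ne {a b c : ZMod p} (hN : ¬(a = 0 ∧ b = 0 ∧ c = 0)) : sc a b c ≠ 0 := by
  unfold sc
  split_ifs with h1 h2
  · exact h1
  · exact h2
  · intro h3; exact hN ⟨by simpa using h2, by simpa using h1, h3⟩

lemma col_smul {m : ZMod p} (hm : m ≠ 0) (a b c : ZMod p) :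
    col (m * a) (m * b) (m * c) = col a b c ∧ sc (m * a) (m * b) (m * c) = m * sc a b c := by
  unfold col sc
  have e1 : m * c / (2 * (m * a)) = c / (2 * a) := by
    rw [show 2 * (m * a) = m * (2 * a) by ring, mul_div_mul_left _ _ hm]
  simp only [mul_div_mul_left _ _ hm, e1, ne_eq, mul_eq_zero, hm, false_or]
  refine ⟨trivial, ?_⟩
  split_ifs <;> rfl

lemma key (hp : Odd p) {t a b c t' a' b' c' l : ZMod p} (hd : t ^ 2 - (a ^ 2 + b * c) ≠ 0)
    (hd' : t' ^ 2 - (a' ^ 2 + b' * c') ≠ 0) (hN : ¬(a = 0 ∧ b = 0 ∧ c = 0))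
    (hN' : ¬(a' = 0 ∧ b' = 0 ∧ c' = 0))
    (hm : ∀ m, m ≠ 0 → ¬(t' = m * t ∧ a' = m * a ∧ b' = m * b ∧ c' = m * c))
    (hl : l = 1 ∨ l = -1)
    (e00 : (t + a) * (t' + a') + b * c' = l * ((t' + a') * (t + a) + b' * c))
    (e01 : (t + a) * b' + b * (t' - a') = l * ((t' + a') * b + b' * (t - a)))
    (e10 : c * (t' + a') + (t - a) * c' = l * (c' * (t + a) + (t' - a') * c))
    (e11 : c * b' + (t - a) * (t' - a') = l * (c' * b + (t' - a') * (t - a))) :
    colour t a b c ≠ colour t' a' b' c' := by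
  have h2 := two_ne hp
  rcases hl with rfl | rfl
  · have f1 : b * c' = b' * c := by linear_combination e00
    have f2 : a * b' = a' * b := mul_left_cancel₀ h2 (by linear_combination e01)
    have f3 : a * c' = a' * c := mul_left_cancel₀ h2 (by linear_combination -e10)
    obtain ⟨m, rfl, rfl, rfl⟩ : ∃ m, a' = m * a ∧ b' = m * b ∧ c' = m * c := by
      by_cases ha : a = 0
      · by_cases hb : b = 0
        · have hc : c ≠ 0 := fun hc => hN ⟨ha, hb, hc⟩
          exact ⟨c' / c, by field_simp; linear_combination -f3,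
            by field_simp; linear_combination -f1, by field_simp⟩
        · exact ⟨b' / b, by field_simp; linear_combination -f2, by field_simp,
            by field_simp; linear_combination f1⟩
      · exact ⟨a' / a, by field_simp, by field_simp; linear_combination f2,
          by field_simp; linear_combination f3⟩
    have hm0 : m ≠ 0 := by rintro rfl; simp at hN'
    have hs := sc_ne hN
    intro h
    unfold colour at h
    rw [(col_smul hm0 a b c).1, (col_smul hm0 a b c).2, add_right_inj] at h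
    refine hm m hm0 ⟨?_, rfl, rfl, rfl⟩
    field_simp at h
    linear_combination -h
  · have f1 : t * a' + t' * a = 0 :=
      mul_left_cancel₀ h2 (mul_left_cancel₀ h2 (by linear_combination e00 - e11))
    have f2 : t * b' + t' * b = 0 := mul_left_cancel₀ h2 (by linear_combination e01)
    have f3 : t * c' + t' * c = 0 := mul_left_cancel₀ h2 (by linear_combination e10)
    have f4 : 2 * t * t' + 2 * a * a' + b * c' + c * b' = 0 :=
      mul_left_cancel₀ h2 (by linear_combination e00 + e11)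
    have g1 : t' = 0 := mul_left_cancel₀ (mul_ne_zero h2 hd)
      (by linear_combination t * f4 - 2 * a * f1 - b * f3 - c * f2)
    have g2 : t = 0 := mul_left_cancel₀ (mul_ne_zero h2 hd')
      (by linear_combination t' * f4 - 2 * a' * f1 - b' * f3 - c' * f2)
    subst g1 g2
    simp only [colour, zero_div, add_zero]
    exact orth hp (fun h => hd (by rw [h]; ring)) (fun h => hd' (by rw [h]; ring))
      (by linear_combination f4)

abbrev M (p : ℕ) := Matrix (Fin 2) (Fin 2) (ZMod p)

def S (p : ℕ) [Fact p.Prime] : Subgroup (M p)ˣ :=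
  (Units.map (algebraMap (ZMod p) (M p) : ZMod p →* M p)).range

instance : (S p).Normal := ⟨by
  rintro _ ⟨u, rfl⟩ g
  refine ⟨u, Units.ext ?_⟩
  simp [Algebra.algebraMap_eq_smul_one]⟩

abbrev P (p : ℕ) [Fact p.Prime] := (M p)ˣ ⧸ S p

lemma mk_eq (x y : (M p)ˣ) :
    (x : P p) = y ↔ ∃ m : ZMod p, m ≠ 0 ∧ (y : M p) = m • (x : M p) := by
  rw [QuotientGroup.eq]
  constructor
  · rintro ⟨u, hu⟩
    refine ⟨u, u.ne_zero, ?_⟩
    rw [eq_inv_mul_iff_mul_eq] at hu
    rw [← hu]
    simp [Algebra.algebraMap_eq_smul_one]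
  · rintro ⟨m, hm, h⟩
    refine ⟨Units.mk0 m hm, ?_⟩
    rw [eq_inv_mul_iff_mul_eq]
    refine Units.ext ?_
    simp [Algebra.algebraMap_eq_smul_one, h]

noncomputable def colM (x : M p) : ZMod p :=
  colour ((x 0 0 + x 1 1) / 2) ((x 0 0 - x 1 1) / 2) (x 0 1) (x 1 0)

lemma colM_ne (hp : Odd p) (x y : (M p)ˣ) (hx : (x : P p) ≠ 1) (hy : (y : P p) ≠ 1)
    (hxy : (x : P p) ≠ y) (hc : (x : P p) * y = y * x) : colM (x : M p) ≠ colM (y : M p) := by
  have h2 := two_ne hp
  have dx : (x : M p).det ≠ 0 := (Matrix.isUnits_det_units x).ne_zero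
  have dy : (y : M p).det ≠ 0 := (Matrix.isUnits_det_units y).ne_zero
  have hs : ∀ z : (M p)ˣ, (z : P p) ≠ 1 → ¬(((z : M p) 0 0 - (z : M p) 1 1) / 2 = 0 ∧
      (z : M p) 0 1 = 0 ∧ (z : M p) 1 0 = 0) := by
    rintro z hz ⟨h1, h3, h4⟩
    have dz : (z : M p).det ≠ 0 := (Matrix.isUnits_det_units z).ne_zero
    have h5 : (z : M p) 0 0 = (z : M p) 1 1 := by
      field_simp at h1; linear_combination h1
    rw [Matrix.det_fin_two, h3, h5] at dz
    refine hz (Eq.symm ((mk_eq 1 z).2 ⟨(z : M p) 1 1, fun h => dz (by simp [h]), ?_⟩))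
    ext i j
    fin_cases i <;> fin_cases j <;> simp [h3, h4, h5]
  obtain ⟨l, -, hl⟩ := (mk_eq (y * x) (x * y)).1 hc.symm
  have hl2 : l = 1 ∨ l = -1 := by
    have := congrArg Matrix.det hl
    simp only [Units.val_mul, Matrix.det_mul, Matrix.det_smul, Fintype.card_fin] at this
    refine sq_eq_one_iff.mp ?_
    exact mul_right_cancel₀ (mul_ne_zero dx dy) (by linear_combination -this)
  have e := fun i j => congrFun (congrFun hl i) j
  have e00 := e 0 0
  have e01 := e 0 1
  have e10 := e 1 0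
  have e11 := e 1 1
  simp only [Units.val_mul, Matrix.mul_apply, Fin.sum_univ_two, Matrix.smul_apply, smul_eq_mul]
    at e00 e01 e10 e11
  rw [Matrix.det_fin_two] at dx dy
  have a1 : ∀ u v : ZMod p, (u + v) / 2 + (u - v) / 2 = u := fun u v => by field_simp; ring
  have a2 : ∀ u v : ZMod p, (u + v) / 2 - (u - v) / 2 = v := fun u v => by field_simp; ring
  have a3 : ∀ u v w : ZMod p, ((u + v) / 2) ^ 2 - (((u - v) / 2) ^ 2 + w) = u * v - w :=
    fun u v w => by field_simp; ring
  refine key hp (by rwa [a3]) (by rwa [a3]) (hs x hx) (hs y hy) ?_ hl2 (by rwa [a1, a1])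
    (by rwa [a1, a1, a2, a2]) (by rwa [a1, a1, a2, a2]) (by rwa [a2, a2])
  rintro m hm ⟨h1, h3, h4, h5⟩
  refine hxy ((mk_eq x y).2 ⟨m, hm, ?_⟩)
  have h6 : (y : M p) 0 0 = m * (x : M p) 0 0 := by
    rw [← a1 ((y : M p) 0 0) ((y : M p) 1 1), h1, h3, ← mul_add, a1]
  have h7 : (y : M p) 1 1 = m * (x : M p) 1 1 := by
    rw [← a2 ((y : M p) 0 0) ((y : M p) 1 1), h1, h3, ← mul_sub, a2]
  ext i j
  fin_cases i <;> fin_cases j <;> simp [h4, h5, h6, h7]

lemma torus (hp : Odd p) : ∃ f : ZMod p → P p, Function.Injective f ∧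
    (∀ s t, f s * f t = f t * f s) ∧ ∀ t, ∃ y, f t * y ≠ y * f t := by
  have h2 := two_ne hp
  obtain ⟨e, he⟩ : ∃ e : ZMod p, ¬IsSquare e := FiniteField.exists_nonsquare (by
    rw [ZMod.ringChar_zmod_n]; rintro rfl; exact absurd hp (by decide))
  have hd : ∀ t : ZMod p, (!![t, e; 1, t] : M p).det ≠ 0 := fun t h =>
    he ⟨t, by rw [Matrix.det_fin_two_of] at h; linear_combination -h⟩
  let u : ZMod p → (M p)ˣ := fun t => Matrix.GeneralLinearGroup.mkOfDetNeZero _ (hd t)
  have hu : ∀ t, (u t : M p) = !![t, e; 1, t] := fun t => rfl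
  let v : (M p)ˣ := Matrix.GeneralLinearGroup.mkOfDetNeZero (!![1, 1; 0, 1] : M p) (by simp)
  have hv : (v : M p) = !![1, 1; 0, 1] := rfl
  refine ⟨fun t => u t, fun s t h => ?_, fun s t => ?_, fun t => ⟨v, fun h => ?_⟩⟩
  · obtain ⟨m, -, h1⟩ := (mk_eq _ _).1 h
    have h3 := congrFun (congrFun h1 1) 0
    have h4 := congrFun (congrFun h1 0) 0
    simp [hu] at h3 h4
    rw [h4, ← h3, one_mul]
  · change ((u s * u t : (M p)ˣ) : P p) = (u t * u s : (M p)ˣ)
    congr 1
    refine Units.ext ?_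
    simp only [Units.val_mul, hu]
    ext i j
    fin_cases i <;> fin_cases j <;> simp [Matrix.mul_apply, Fin.sum_univ_two] <;> ring
  · obtain ⟨m, -, h1⟩ := (mk_eq (u t * v) (v * u t)).1 h
    have h3 := congrFun (congrFun h1 1) 0
    have h4 := congrFun (congrFun h1 0) 0
    simp [hu, hv, Matrix.mul_apply, Fin.sum_univ_two] at h3 h4
    rw [← h3] at h4
    simp at h4

end Pool.Agent.H21.Cg
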