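import Mathlib

namespace Pool.Agent.H21.Cl

open Equiv

variable {A : Type*} [Ring A]

def pr {m : ℕ} (y : Fin m → A) : A := (List.ofFn y).prod

def alt {m : ℕ} (y : Fin m → A) : A := ∑ σ : Perm (Fin m), Perm.sign σ • pr fun k => y (σ k)

theorem pr_succ {m : ℕ} (y : Fin (m + 1) → A) : pr y = y 0 * pr fun k => y k.succ := by
  simp [pr, List.ofFn_succ]

theorem alt_succ {m : ℕ} (y : Fin (m + 1) → A) :
    alt y = ∑ i : Fin (m + 1), (-1) ^ i.1 * (y i * alt fun k => y (i.succAbove k)) := by
  let g : Fin (m + 1) × Perm (Fin m) → Perm (Fin (m + 1)) := fun p =>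
    p.1.cycleRange.symm * Perm.decomposeFin.symm (0, p.2)
  have g0 : ∀ p, g p 0 = p.1 := fun p => by simp [g]
  have g1 : ∀ p k, g p (Fin.succ k) = p.1.succAbove (p.2 k) := fun p k => by simp [g]
  have hg : Function.Bijective g := by
    rw [Fintype.bijective_iff_injective_and_card]
    refine ⟨fun p q h => ?_, by simp [Fintype.card_perm, Nat.factorial_succ]⟩
    have h0 : p.1 = q.1 := by rw [← g0, h, g0]
    refine Prod.ext h0 (Equiv.ext fun k => Fin.succAbove_right_injective (p := p.1) ?_)
    rw [← g1, h, g1, h0]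
  rw [alt, ← hg.sum_comp, Fintype.sum_prod_type]
  refine Finset.sum_congr rfl fun i _ => ?_
  rw [alt, Finset.mul_sum, Finset.mul_sum]
  refine Finset.sum_congr rfl fun τ _ => ?_
  have hs : Perm.sign (g (i, τ)) = (-1) ^ i.1 * Perm.sign τ := by simp [g]
  rw [hs, pr_succ]
  simp only [g0, g1, mul_smul, mul_smul_comm]
  rcases Nat.even_or_odd i.1 with h | h <;> simp [h.neg_one_pow]

def AC {m : ℕ} (y : Fin m → A) : Prop := ∀ i j, i ≠ j → y i * y j = -(y j * y i)

theorem AC.comp {m l : ℕ} {y : Fin m → A} (h : AC y) {f : Fin l → Fin m} (hf : Function.Injective f) :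
    AC fun k => y (f k) := fun _ _ hij => h _ _ (hf.ne hij)

theorem pass {m : ℕ} (z : A) (y : Fin m → A) (h : ∀ k, z * y k = -(y k * z)) :
    z * pr y = (-1) ^ m * (pr y * z) := by
  induction m with
  | zero => simp [pr]
  | succ m ih =>
    rw [pr_succ, ← mul_assoc, h, neg_mul, mul_assoc, ih _ fun k => h _, pow_succ]
    rcases Nat.even_or_odd m with h | h <;> simp [h.neg_one_pow, mul_assoc]

theorem move {m : ℕ} (y : Fin (m + 1) → A) (h : AC y) (i : Fin (m + 1)) :
    (-1) ^ i.1 * (y i * pr fun k => y (i.succAbove k)) = pr y := by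
  induction m with
  | zero => rw [Fin.fin_one_eq_zero i, pr_succ y]; simp
  | succ m ih =>
    refine Fin.cases (by rw [pr_succ y]; simp) (fun j => ?_) i
    rw [pr_succ y, ← ih _ (h.comp (Fin.succ_injective _)) j, pr_succ]
    simp only [Fin.succ_succAbove_zero, Fin.succ_succAbove_succ, Fin.val_succ, pow_succ]
    rw [← mul_assoc (y j.succ), h _ _ (Fin.succ_ne_zero j)]
    rcases Nat.even_or_odd j.1 with h | h <;> simp [h.neg_one_pow, mul_assoc]

theorem alt_ac {m : ℕ} (y : Fin m → A) (h : AC y) : alt y = (m.factorial : A) * pr y := by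
  induction m with
  | zero => simp [alt, pr]
  | succ m ih =>
    rw [alt_succ, Finset.sum_congr rfl (g := fun _ => (m.factorial : A) * pr y) fun i _ => by
      rw [ih _ (h.comp Fin.succAbove_right_injective), ← move y h i, ← mul_assoc (y i),
        ← (Nat.cast_commute _ _).eq, mul_assoc, (Nat.cast_commute _ _).symm.left_comm]]
    simp [Nat.factorial_succ, mul_assoc]

theorem alt_c {m : ℕ} (y : Fin (m + 1) → A) (h : AC fun k : Fin m => y k.castSucc)
    (hc : ∀ k, Commute (y (Fin.last m)) (y k)) :
    alt y = if Even m then (m.factorial : A) * (pr (fun k : Fin m => y k.castSucc) * y (Fin.last m))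
      else 0 := by
  have hp : Commute (y (Fin.last m)) (pr fun k : Fin m => y k.castSucc) :=
    Commute.list_prod_right _ _ (by simp only [List.mem_ofFn]; rintro _ ⟨k, rfl⟩; exact hc _)
  induction m with
  | zero => simp [alt, pr]
  | succ m ih =>
    rw [alt_succ, Fin.sum_univ_castSucc, Finset.sum_congr rfl (g := fun _ => if Even m then
      (m.factorial : A) * (pr (fun k : Fin (m + 1) => y k.castSucc) * y (Fin.last _)) else 0)
      fun i _ => ?_]
    · simp only [Fin.succAbove_last, alt_ac _ h, Fin.val_last, Nat.even_add_one, pow_succ]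
      rw [(Nat.cast_commute _ (y (Fin.last _))).symm.left_comm, hp.eq]
      rcases Nat.even_or_odd m with h | h
      · simp [h, h.neg_one_pow, Nat.factorial_succ, mul_assoc]
      · simp [h.neg_one_pow, Nat.not_even_iff_odd.2 h]
    · have e1 : i.castSucc.succAbove (Fin.last m) = Fin.last (m + 1) :=
        Fin.succAbove_ne_last_last (Fin.castSucc_ne_last i)
      have e2 : ∀ k : Fin m, i.castSucc.succAbove k.castSucc = (i.succAbove k).castSucc :=
        fun k => Fin.castSucc_succAbove_castSucc
      rw [ih (fun k => y (i.castSucc.succAbove k)) (by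
        simpa only [e2] using h.comp Fin.succAbove_right_injective) (fun k => by
        simpa only [e1] using hc _) (Commute.list_prod_right _ _ (by
          simp only [List.mem_ofFn, e1]; rintro _ ⟨k, rfl⟩; exact hc _))]
      split_ifs
      · simp only [e1, e2]
        rw [← move _ h i, (Nat.cast_commute _ (y i.castSucc)).symm.left_comm,
          (Nat.cast_commute m.factorial _).symm.left_comm]
        simp [mul_assoc]
      · simp

theorem pr_sq {F : Type*} [CommRing F] [Algebra F A] {m : ℕ} (y : Fin m → A) (h : AC y) (β : F)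
    (hy : ∀ k, y k * y k = algebraMap F A β) :
    pr y * pr y = algebraMap F A ((-1) ^ m.choose 2 * β ^ m) := by
  induction m with
  | zero => simp [pr]
  | succ m ih =>
    have h1 := pass (y 0) (fun k => y k.succ) fun k => h _ _ (Fin.succ_ne_zero k).symm
    have h2 := ih (fun k => y k.succ) (h.comp (Fin.succ_injective _)) fun k => hy _
    rw [pr_succ]
    generalize pr (fun k : Fin m => y k.succ) = P at *
    calc _ = (-1) ^ m * (P * y 0) * (y 0 * P) := by rw [← h1]
      _ = (-1) ^ m * (P * (y 0 * y 0) * P) := by simp only [mul_assoc]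
      _ = _ := by
        rw [hy, ← Algebra.commutes, mul_assoc, h2, Nat.choose_succ_succ', Nat.choose_one_right]
        rw [show (-1 : A) ^ m = algebraMap F A ((-1) ^ m) by simp, ← map_mul, ← map_mul]
        congr 1
        ring

universe u

theorem core {F : Type*} [Field F] [CharZero F] [Algebra F A] [Nontrivial A] (m : ℕ) (hm : Even m)
    (h2 : 2 ≤ m) (β : F) (hβ0 : β ≠ 0)
    (hβ : β ^ m = -((m.factorial * (m + 1).factorial * (-1) ^ (m + 1).choose 2 : F))⁻¹)
    (γ : Fin (m + 1) → A) (h1 : ∀ k, γ k * γ k = algebraMap F A β) (h3 : AC γ) :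
    ∃ x : Fin (m + 1 + 1) → A, LinearIndependent F x ∧
      ∀ i, alt (fun k => x (i.succAbove k)) = (-1) ^ (i.1 + 1) * x i := by
  have hf : ∀ k : ℕ, (k.factorial : F) ≠ 0 := fun k => Nat.cast_ne_zero.2 k.factorial_ne_zero
  have h4 := pr_sq γ h3 β h1
  have h5 : ∀ k, Commute (pr γ) (γ k) := fun k => by
    have := pass (γ k) (fun l => γ (k.succAbove l)) fun l => h3 _ _ (Fin.succAbove_ne k l).symm
    rw [hm.neg_one_pow, one_mul] at this
    rw [← move γ h3 k]
    exact ((Commute.neg_one_left _).pow_left _).mul_left ((Commute.refl _).mul_left this.symm)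
  have hA := (algebraMap F A).injective
  refine ⟨Fin.snoc γ (((m + 1).factorial : A) * pr γ), ?_, ?_⟩
  · rw [Fintype.linearIndependent_iff]
    intro c hc
    simp only [Fin.sum_univ_castSucc (n := m + 1), Fin.snoc_castSucc, Fin.snoc_last] at hc
    set v := ∑ k : Fin (m + 1), c k.castSucc • γ k with hv
    have h6 : ∀ k, Commute v (γ k) := fun k => by
      rw [eq_neg_of_add_eq_zero_left hc]
      exact (((Nat.cast_commute _ _).mul_left (h5 k)).smul_left _).neg_left
    have h7 : ∀ k, v * γ k = algebraMap F A (c k.castSucc * β) := fun k => by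
      have : v * γ k + γ k * v = algebraMap F A (2 * (c k.castSucc * β)) := by
        rw [hv, Finset.sum_mul, Finset.mul_sum, ← Finset.sum_add_distrib, Finset.sum_eq_single k]
        · simp only [smul_mul_assoc, mul_smul_comm, h1]
          simp [Algebra.smul_def, two_mul]
        · intro l _ hl
          simp [h3 l k hl]
        · simp
      rw [← (h6 k).eq, ← two_smul F, Algebra.algebraMap_eq_smul_one, mul_smul,
        ← Algebra.algebraMap_eq_smul_one] at this
      exact smul_right_injective _ two_ne_zero this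
    have h8 : ∀ k : Fin (m + 1), c k.castSucc = 0 := fun k => by
      have : Nontrivial (Fin (m + 1)) := Fin.nontrivial_iff_two_le.2 (by omega)
      obtain ⟨l, hl⟩ := exists_ne k
      have e1 : v * γ k * γ l = -(γ l * (v * γ k)) := by
        rw [mul_assoc, h3 k l hl.symm, mul_neg, ← mul_assoc, (h6 l).eq, mul_assoc]
      rw [h7, ← Algebra.commutes, eq_neg_iff_add_eq_zero] at e1
      have e2 := congrArg (· * γ l) e1
      simp only [add_mul, mul_assoc, h1, zero_mul, ← map_mul, ← map_add] at e2
      have e3 := hA (e2.trans (map_zero _).symm)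
      have : c k.castSucc * (2 * β * β) = 0 := by linear_combination e3
      simpa [hβ0] using this
    intro i
    refine Fin.lastCases ?_ h8 i
    simp only [hv, h8, zero_smul, Finset.sum_const_zero, zero_add] at hc
    have e2 := congrArg (· * pr γ) hc
    simp only [smul_mul_assoc, mul_assoc, h4, zero_mul, Algebra.smul_def,
      ← map_natCast (algebraMap F A), ← map_mul] at e2
    simpa [hf, hβ0] using hA (e2.trans (map_zero _).symm)
  · intro i
    refine Fin.lastCases ?_ (fun k => ?_) i
    · simp [alt_ac _ h3, pow_succ, hm.neg_one_pow]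
    · have e1 : k.castSucc.succAbove (Fin.last m) = Fin.last (m + 1) :=
        Fin.succAbove_ne_last_last (Fin.castSucc_ne_last k)
      have e2 : ∀ l : Fin m, k.castSucc.succAbove l.castSucc = (k.succAbove l).castSucc :=
        fun l => Fin.castSucc_succAbove_castSucc
      rw [alt_c _ (by simpa only [e2, Fin.snoc_castSucc] using h3.comp Fin.succAbove_right_injective)
        (fun l => by
          simp only [e1, Fin.snoc_last]
          refine Fin.lastCases ?_ (fun l => ?_) (k.castSucc.succAbove l)
          · simp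
          · simpa using (Nat.cast_commute _ _).mul_left (h5 l)), if_pos hm]
      simp only [e1, e2, Fin.snoc_castSucc, Fin.snoc_last, Fin.val_castSucc]
      have e3 := move γ h3 k
      generalize (pr fun l => γ (k.succAbove l)) = P at *
      have e4 : β • P = (-1 : F) ^ k.1 • (γ k * pr γ) := by
        rw [← e3, Algebra.smul_def β, ← h1 k]
        rcases Nat.even_or_odd k.1 with h | h <;> simp [h.neg_one_pow, mul_assoc]
      refine smul_right_injective _ hβ0 ?_
      simp only [← map_natCast (algebraMap F A), ← Algebra.smul_def, mul_smul_comm]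
      rw [smul_comm β, smul_comm β, ← smul_mul_assoc, e4, smul_mul_assoc, mul_assoc, h4,
        ← Algebra.commutes, ← Algebra.smul_def, pow_succ β, hβ,
        show (-1 : A) ^ (k.1 + 1) = algebraMap F A ((-1) ^ (k.1 + 1)) by simp, ← Algebra.smul_def]
      simp only [smul_smul]
      congr 1
      have := hf m
      have := hf (m + 1)
      field_simp
      ring

theorem main (F : Type u) [Field F] [IsAlgClosed F] [CharZero F] (m : ℕ) (hm : Even m) (h2 : 2 ≤ m) :
    ∃ (A : Type u) (_ : Ring A) (_ : Algebra F A) (x : Fin (m + 1 + 1) → A), LinearIndependent F x ∧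
      ∀ i, alt (fun k => x (i.succAbove k)) = (-1) ^ (i.1 + 1) * x i := by
  have hf : ∀ k : ℕ, (k.factorial : F) ≠ 0 := fun k => Nat.cast_ne_zero.2 k.factorial_ne_zero
  obtain ⟨β, hβ⟩ := IsAlgClosed.exists_pow_nat_eq
    (-((m.factorial * (m + 1).factorial * (-1) ^ (m + 1).choose 2 : F))⁻¹) (by omega : 0 < m)
  have hβ0 : β ≠ 0 := by
    rintro rfl
    rw [zero_pow (by omega), eq_comm, neg_eq_zero, inv_eq_zero] at hβ
    simp [hf] at hβ
  let Q : QuadraticForm F (Fin (m + 1) → F) := QuadraticMap.weightedSumSquares F fun _ => β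
  let A := CliffordAlgebra Q
  let γ : Fin (m + 1) → A := fun k => CliffordAlgebra.ι Q (Pi.single k 1)
  have h1 : ∀ k, γ k * γ k = algebraMap F A β := fun k => by
    rw [CliffordAlgebra.ι_sq_scalar]
    congr 1
    simp [Q, Pi.single_apply]
  have h3 : AC γ := fun i j hij => CliffordAlgebra.ι_mul_ι_comm_of_isOrtho (by
    simp only [QuadraticMap.isOrtho_def, Q, QuadraticMap.weightedSumSquares_apply,
      ← Finset.sum_add_distrib]
    refine Finset.sum_congr rfl fun k _ => ?_
    by_cases hi : k = i
    · subst hi; simp [hij]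
    · simp [hi])
  exact ⟨A, inferInstance, inferInstance, core m hm h2 β hβ0 hβ γ h1 h3⟩

end Pool.Agent.H21.Cl
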