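import Mathlib

namespace Pool.Agent.H21.Cube

open scoped commutatorElement

structure IsFilt {H : Type} [Group H] (N : ℕ → H → Prop) : Prop where
  one : ∀ k, N k 1
  mul : ∀ k a b, N k a → N k b → N k (a * b)
  inv : ∀ k a, N k a → N k a⁻¹
  anti : ∀ k l a, k ≤ l → N l a → N k a
  comm : ∀ i j a b, N i a → N j b → N (i + j) ⁅a, b⁆

lemma IsFilt.conj {H : Type} [Group H] {N : ℕ → H → Prop} (h : IsFilt N) {k : ℕ} {g m : H}
    (hg : N 0 g) (hm : N k m) : N k (g * m * g⁻¹) := by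
  have h1 := h.comm 0 k g m hg hm
  rw [zero_add] at h1
  have := h.mul k _ _ h1 hm
  convert this using 1
  simp [commutatorElement_def]

lemma IsFilt.double {H K : Type} [Group H] [Group K] {N : ℕ → H → Prop} (h : IsFilt N)
    (f g : K →* H) : IsFilt (fun k x => N k (f x) ∧ N (k + 1) ((f x)⁻¹ * g x)) where
  one := fun k => by simp [h.one]
  mul := by
    rintro k a b ⟨a1, a2⟩ ⟨b1, b2⟩
    refine ⟨by rw [map_mul]; exact h.mul _ _ _ a1 b1, ?_⟩
    have := h.mul _ _ _ (h.conj (h.inv _ _ (h.anti 0 k _ (Nat.zero_le _) b1)) a2) b2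
    convert this using 1
    simp only [map_mul]; group
  inv := by
    rintro k a ⟨a1, a2⟩
    refine ⟨by rw [map_inv]; exact h.inv _ _ a1, ?_⟩
    have := h.conj (h.anti 0 k _ (Nat.zero_le _) a1) (h.inv _ _ a2)
    convert this using 1
    simp only [map_inv]; group
  anti := by
    rintro k l a hkl ⟨a1, a2⟩
    exact ⟨h.anti _ _ _ hkl a1, h.anti _ _ _ (by omega) a2⟩
  comm := by
    rintro i j a b ⟨a1, a2⟩ ⟨b1, b2⟩
    have c1 := h.comm _ _ _ _ a1 b1
    refine ⟨by rw [map_commutatorElement]; exact c1, ?_⟩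
    have b3 := h.mul _ _ _ b1 (h.anti j _ _ (Nat.le_succ j) b2)
    have c2 := h.comm _ _ _ _ a2 b3
    have c3 := h.comm _ _ _ _ a1 b2
    rw [show i + 1 + j = i + j + 1 by ring] at c2
    have := h.mul _ _ _ (h.conj (h.mul _ _ _ (h.inv _ _ (h.anti 0 _ _ (Nat.zero_le _) c1))
      (h.anti 0 _ _ (Nat.zero_le _) a1)) c2) (h.conj (h.anti 0 _ _ (Nat.zero_le _) b1) c3)
    convert this using 1
    simp only [commutatorElement_def, map_mul, map_inv]; group

variable {G : Type} [Group G]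

def face {Z : Type} {n : ℕ} (b : Bool) (F : (Fin (n + 1) → Bool) → Z) : (Fin n → Bool) → Z :=
  fun s => F (Fin.cons b s)

def faceH (G : Type) [Group G] (n : ℕ) (b : Bool) :
    ((Fin (n + 1) → Bool) → G) →* ((Fin n → Bool) → G) where
  toFun := face b
  map_one' := rfl
  map_mul' := fun _ _ => rfl

def InP (N : ℕ → G → Prop) : (n : ℕ) → ℕ → ((Fin n → Bool) → G) → Prop
  | 0, k, F => ∀ s, N k (F s)
  | n + 1, k, F => InP N n k (face false F) ∧ InP N n (k + 1) ((face false F)⁻¹ * face true F)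

lemma IsFilt.inP {N : ℕ → G → Prop} (h : IsFilt N) : ∀ n, IsFilt (InP N n)
  | 0 => ⟨fun k _ => h.one k, fun k _ _ a b s => h.mul k _ _ (a s) (b s),
      fun k _ a s => h.inv k _ (a s), fun k l _ hkl a s => h.anti k l _ hkl (a s),
      fun i j _ _ a b s => h.comm i j _ _ (a s) (b s)⟩
  | n + 1 => (h.inP n).double (faceH G n false) (faceH G n true)

lemma InP.mapS {G' : Type} [Group G'] {N : ℕ → G → Prop} {N' : ℕ → G' → Prop} (S : Subgroup G)
    (ψ : G → G') (hψ : ∀ x ∈ S, ∀ y ∈ S, ψ (x⁻¹ * y) = (ψ x)⁻¹ * ψ y)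
    (hN : ∀ k, ∀ x ∈ S, N k x → N' k (ψ x)) :
    ∀ (n k : ℕ) (F : (Fin n → Bool) → G), (∀ s, F s ∈ S) → InP N n k F → InP N' n k (fun s => ψ (F s))
  | 0, k, F, hF, h => fun s => hN k _ (hF s) (h s)
  | n + 1, k, F, hF, h => by
    refine ⟨InP.mapS S ψ hψ hN n k _ (fun s => hF _) h.1, ?_⟩
    have := InP.mapS S ψ hψ hN n (k + 1) _ (fun s => S.mul_mem (S.inv_mem (hF _)) (hF _)) h.2
    convert this using 1
    funext s
    exact (hψ _ (hF _) _ (hF _)).symm

lemma InP.mono {N N' : ℕ → G → Prop} (hN : ∀ k x, N k x → N' k x) {n k : ℕ}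
    {F : (Fin n → Bool) → G} (h : InP N n k F) : InP N' n k F :=
  InP.mapS ⊤ id (fun _ _ _ _ => rfl) (fun k x _ => hN k x) n k F (fun _ => trivial) h

lemma InP.joint {ι : Type} {N N' : ℕ → G → Prop} (S : Subgroup G)
    (ψ : ι → G → G) (hψ : ∀ i, ∀ x ∈ S, ∀ y ∈ S, ψ i (x⁻¹ * y) = (ψ i x)⁻¹ * ψ i y)
    (hN : ∀ k, ∀ x ∈ S, (∀ i, N' k (ψ i x)) → N k x) :
    ∀ (n k : ℕ) (F : (Fin n → Bool) → G), (∀ s, F s ∈ S) →
      (∀ i, InP N' n k (fun s => ψ i (F s))) → InP N n k F
  | 0, k, F, hF, h => fun s => hN k _ (hF s) (fun i => h i s)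
  | n + 1, k, F, hF, h => by
    refine ⟨InP.joint S ψ hψ hN n k _ (fun s => hF _) (fun i => (h i).1),
      InP.joint S ψ hψ hN n (k + 1) _ (fun s => S.mul_mem (S.inv_mem (hF _)) (hF _)) (fun i => ?_)⟩
    convert (h i).2 using 1
    funext s
    exact hψ i _ (hF _) _ (hF _)

lemma InP.lift {G' : Type} [Group G'] {N : ℕ → G → Prop} {N' : ℕ → G' → Prop} (π : G →* G')
    (hN : ∀ k y, N' k y → ∃ x, N k x ∧ π x = y) :
    ∀ (n k : ℕ) (F : (Fin n → Bool) → G'), InP N' n k F → ∃ M, InP N n k M ∧ ∀ s, π (M s) = F s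
  | 0, k, F, h => by
    choose M h1 h2 using fun s => hN k _ (h s)
    exact ⟨M, h1, h2⟩
  | n + 1, k, F, h => by
    obtain ⟨M0, a1, a2⟩ := InP.lift π hN n k _ h.1
    obtain ⟨M1, b1, b2⟩ := InP.lift π hN n (k + 1) _ h.2
    let M : (Fin (n + 1) → Bool) → G := fun s =>
      if s 0 then M0 (Fin.tail s) * M1 (Fin.tail s) else M0 (Fin.tail s)
    have e0 : face false M = M0 := by funext s; simp [face, M]
    have e1 : face true M = M0 * M1 := by funext s; simp [face, M]
    refine ⟨M, ⟨by rwa [e0], by rw [e0, e1]; simpa using b1⟩, fun s => ?_⟩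
    rw [← Fin.cons_self_tail s]
    cases s 0
    · exact (congrArg π (congrFun e0 _)).trans (a2 _)
    · refine (congrArg π (congrFun e1 _)).trans ?_
      simp [a2, b2, face]

lemma InP.const {N : ℕ → G → Prop} (h1 : ∀ k, N k 1) :
    ∀ (n k : ℕ) (g : G), N k g → InP N n k (fun _ => g)
  | 0, _, _, h => fun _ => h
  | n + 1, k, g, h => by
    refine ⟨InP.const h1 n k g h, ?_⟩
    have := InP.const h1 n (k + 1) 1 (h1 _)
    convert this using 1
    funext s; simp [face]

lemma InP.junta {N : ℕ → G → Prop} (h1 : ∀ k, N k 1) (k : ℕ) (h2 : ∀ g, N k g)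
    (h3 : ∀ g, N (k + 1) g) (f : Bool → G) :
    ∀ (n : ℕ) (i : Fin n), InP N n k (fun s => f (s i))
  | 0, i => i.elim0
  | n + 1, i => by
    refine Fin.cases ?_ (fun i => ?_) i
    · exact ⟨InP.const h1 n k (f false) (h2 _), InP.const h1 n (k + 1) _ (h3 ((f false)⁻¹ * f true))⟩
    · refine ⟨InP.junta h1 k h2 h3 f n i, ?_⟩
      have := InP.const h1 n (k + 1) 1 (h1 _)
      convert this using 1
      funext s; simp [face]

lemma InP.top {N : ℕ → G → Prop} :
    ∀ (n k : ℕ) (F : (Fin n → Bool) → G), InP N n k F → (∀ s, s ≠ (fun _ => true) → F s = 1) →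
      N (k + n) (F fun _ => true)
  | 0, _, _, h, _ => h _
  | n + 1, k, F, h, h1 => by
    have e0 : face false F = 1 := by
      funext s
      exact h1 _ (fun h => by simpa using congrFun h 0)
    have := InP.top n (k + 1) _ h.2 (fun s hs => by
      rw [e0]
      simp only [inv_one, one_mul]
      refine h1 _ (fun h => hs ?_)
      funext i; simpa using congrFun h i.succ)
    rw [e0, show k + 1 + n = k + (n + 1) by ring] at this
    convert this using 1
    simp only [inv_one, one_mul, face]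
    congr 1; funext i; refine Fin.cases rfl (fun _ => rfl) i

lemma InP.val {N : ℕ → G → Prop} (h : IsFilt N) :
    ∀ (n k : ℕ) (F : (Fin n → Bool) → G), InP N n k F → ∀ s, N k (F s)
  | 0, _, _, hF => hF
  | n + 1, k, F, hF => by
    intro s
    rw [← Fin.cons_self_tail s]
    have a := InP.val h n k _ hF.1 (Fin.tail s)
    cases s 0
    · exact a
    · have := h.mul _ _ _ a (h.anti k _ _ (Nat.le_succ k) (InP.val h n (k + 1) _ hF.2 (Fin.tail s)))
      simpa [face] using this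

def Phi (G : Type) [Group G] (d k : ℕ) (x : G) : Prop :=
  ∀ t, d * 2 ^ t < k → x ∈ (⊤ : Subgroup G).lowerCentralSeries (t + 1)

def Cen (G : Type) [Group G] (d k : ℕ) (x : G) : Prop :=
  x ∈ Subgroup.center G ∧ (d < k → x = 1)

lemma phi_filt (d : ℕ) : IsFilt (Phi G d) where
  one := fun _ _ _ => Subgroup.one_mem _
  mul := fun _ _ _ a b t ht => Subgroup.mul_mem _ (a t ht) (b t ht)
  inv := fun _ _ a t ht => Subgroup.inv_mem _ (a t ht)
  anti := fun _ _ _ h a t ht => a t (ht.trans_le h)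
  comm := by
    intro i j a b ha hb t ht
    rw [Subgroup.lowerCentralSeries_succ]
    cases t with
    | zero => exact Subgroup.commutator_mem_commutator (Subgroup.mem_top _) (Subgroup.mem_top _)
    | succ t =>
      rw [pow_succ] at ht
      by_cases h : d * 2 ^ t < i
      · exact Subgroup.commutator_mem_commutator (ha t h) (Subgroup.mem_top _)
      · rw [Subgroup.commutator_comm]
        exact Subgroup.commutator_mem_commutator (Subgroup.mem_top _) (hb t (by nlinarith))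

lemma cen_filt (d : ℕ) : IsFilt (Cen G d) where
  one := fun _ => ⟨Subgroup.one_mem _, fun _ => rfl⟩
  mul := fun _ _ _ a b => ⟨Subgroup.mul_mem _ a.1 b.1, fun h => by rw [a.2 h, b.2 h, mul_one]⟩
  inv := fun _ _ a => ⟨Subgroup.inv_mem _ a.1, fun h => by rw [a.2 h, inv_one]⟩
  anti := fun _ _ _ h a => ⟨a.1, fun h' => a.2 (h'.trans_le h)⟩
  comm := by
    intro i j a b ha hb
    have : ⁅a, b⁆ = 1 := commutatorElement_eq_one_iff_mul_comm.2 (Subgroup.mem_center_iff.1 hb.1 a)
    rw [this]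
    exact ⟨Subgroup.one_mem _, fun _ => rfl⟩

lemma phi_of_triv {d k : ℕ} {x : G} (h : d < k → x = 1) : Phi G d k x := by
  intro t ht
  rw [h (lt_of_le_of_lt (Nat.le_mul_of_pos_right d (by positivity)) ht)]
  exact Subgroup.one_mem _

lemma phi_mono {d e k : ℕ} (h : d ≤ e) {x : G} (hx : Phi G d k x) : Phi G e k x :=
  fun t ht => hx t (lt_of_le_of_lt (Nat.mul_le_mul_right _ h) ht)

lemma phi_one {c d k : ℕ} (hc : (⊤ : Subgroup G).lowerCentralSeries c = ⊥) (hk : d * 2 ^ c < k)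
    {x : G} (hx : Phi G d k x) : x = 1 := by
  have := Subgroup.lowerCentralSeries_antitone _ (Nat.le_succ c) (hx c hk)
  rwa [hc] at this

lemma phi_lift {G' : Type} [Group G'] (π : G →* G') (hπ : Function.Surjective π) {d : ℕ}
    (hd : 1 ≤ d) (k : ℕ) (y : G') (hy : Phi G' d k y) : ∃ x, Phi G d k x ∧ π x = y := by
  classical
  by_cases h : ∃ t, d * 2 ^ t < k
  · have hb : ∀ t, d * 2 ^ t < k → t ≤ k := fun t ht => by
      have := Nat.lt_two_pow_self (n := t); nlinarith
    obtain ⟨t0, ht0⟩ := h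
    have h1 := Nat.findGreatest_spec (P := fun t => d * 2 ^ t < k) (hb t0 ht0) ht0
    have h2 := hy _ h1
    have h3 := Subgroup.map_lowerCentralSeries (⊤ : Subgroup G) π
      (Nat.findGreatest (fun t => d * 2 ^ t < k) k + 1)
    rw [Subgroup.map_top_of_surjective π hπ] at h3
    rw [← h3] at h2
    obtain ⟨x, hx, rfl⟩ := h2
    exact ⟨x, fun t ht => Subgroup.lowerCentralSeries_antitone _
      (Nat.succ_le_succ (Nat.le_findGreatest (hb t ht) ht)) hx, rfl⟩
  · obtain ⟨x, rfl⟩ := hπ y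
    exact ⟨x, fun t ht => absurd ⟨t, ht⟩ h, rfl⟩

end Pool.Agent.H21.Cube
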