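import Pool.Agent.H21.ER2

namespace Pool.Agent.H21.ER

open Pool.Agent.H11.PT List

abbrev DC := ℕ × ℕ × ℕ × ℕ × ℕ
def DC.ok (v : ℕ → ℝ) (c : DC) : Prop :=
  if c.1 = 0 then v c.2.1 + v c.2.2.1 = v c.2.2.2.1 + v c.2.2.2.2
  else v c.2.1 * v c.2.2.1 = v c.2.2.2.1 * v c.2.2.2.2
def DC.val (N : ℕ) (c : DC) : Prop := c.2.1 < N ∧ c.2.2.1 < N ∧ c.2.2.2.1 < N ∧ c.2.2.2.2 < N ∧
  c.2.1 ≠ c.2.2.1 ∧ c.2.1 ≠ c.2.2.2.1 ∧ c.2.1 ≠ c.2.2.2.2 ∧ c.2.2.1 ≠ c.2.2.2.1 ∧ c.2.2.1 ≠ c.2.2.2.2 ∧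
  c.2.2.2.1 ≠ c.2.2.2.2 ∧ c.2.1 ≠ 0 ∧ c.2.2.1 ≠ 0 ∧ c.2.2.2.1 ≠ 0 ∧ (c.1 ≠ 0 → c.2.2.2.2 ≠ 0)
def chn (t : ℕ) (L : List ℕ) : List DC := L.zipIdx.map fun p => (0, t + p.2, p.1, t + p.2 + 1, 0)
def sm (t : ℕ) (L R : List ℕ) : List DC :=
  (0, t + L.length, t + 10, t + 10 + R.length, t) :: (chn t L ++ chn (t + 10) R)
def LR (s : ℕ) (c : Con) : List ℕ × List ℕ :=
  if c.1 = 0 then ([2 * c.2.1 + 3, 2 * c.2.2.1 + 3, 2 * c.2.2.2 + 2, 2 * c.2.2.2 + 2],
    [2 * c.2.2.2 + 3, 2 * c.2.1 + 2, 2 * c.2.1 + 2, 2 * c.2.2.1 + 2, 2 * c.2.2.1 + 2])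
  else if c.1 = 1 then ([s + 7, s + 4, s + 4, s + 4, s + 4, s + 4, s + 4, 2 * c.2.2.2 + 2, 2 * c.2.2.2 + 2],
    [2 * c.2.2.2 + 3, s + 5, s + 5, s + 5, s + 6, s + 6])
  else ([2 * c.2.2.2 + 3], [1, 2 * c.2.2.2 + 2, 2 * c.2.2.2 + 2])
def blk (s : ℕ) (c : Con) : List DC := [(1, s, s + 2, s + 4, 1), (1, s + 2, s + 1, s + 5, 1),
  (1, s, s + 3, s + 6, 1), (1, s + 1, s + 3, s + 7, 1)] ++
  (sm (s + 8) [s + 1, 2 * c.2.1 + 2, 2 * c.2.1 + 2] [2 * c.2.1 + 3, s, s] ++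
  (sm (s + 28) [s + 3, 2 * c.2.2.1 + 2, 2 * c.2.2.1 + 2] [2 * c.2.2.1 + 3, s + 2, s + 2, s + 2] ++
  sm (s + 48) (LR s c).1 (LR s c).2))
def ds (cs : List Con) : List DC := cs.zipIdx.flatMap fun p => blk (2 * nv cs + 2 + 68 * p.2) p.1
def dN (cs : List Con) : ℕ := 2 * nv cs + 2 + 68 * cs.length

@[fun_prop] theorem ds_pt : PT ds := by unfold ds blk sm chn LR; fun_prop
@[fun_prop] theorem dN_pt : PT dN := by unfold dN; fun_prop

lemma chn_cons (t a : ℕ) (L : List ℕ) : chn t (a :: L) = (0, t, a, t + 1, 0) :: chn (t + 1) L := by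
  simp [chn, zipIdx_cons, zipIdx_succ, add_assoc, add_comm 1]

lemma val_mono {N M : ℕ} {c : DC} (h : c.val N) (h' : N ≤ M) : c.val M := by
  simp only [DC.val] at *; omega
lemma ok_congr {N : ℕ} {c : DC} (h : c.val N) {v w : ℕ → ℝ} (e : ∀ k < N, w k = v k) (a : c.ok v) :
    c.ok w := by simp only [DC.val, DC.ok] at *; grind
lemma chn_val {t : ℕ} {L : List ℕ} (h : ∀ a ∈ L, 0 < a ∧ a < t) : ∀ c ∈ chn t L, c.val (t + L.length + 1) := by
  simp only [chn, forall_mem_map]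
  intro p hp
  have := h _ (fst_mem_of_mem_zipIdx hp); have := snd_lt_of_mem_zipIdx hp
  simp only [DC.val]; omega
def Ok (t : ℕ) (L : List ℕ) : Prop := (∀ a ∈ L, 0 < a ∧ a < t) ∧ 0 < L.length ∧ L.length < 10
lemma sm_val {t : ℕ} {L R : List ℕ} (h : Ok t L) (h' : Ok t R) : ∀ c ∈ sm t L R, c.val (t + 20) := by
  obtain ⟨h1, h2, h3⟩ := h; obtain ⟨h4, h5, h6⟩ := h'
  have : 0 < t := by have := h1 _ (List.getElem_mem h2); omega
  simp only [sm, forall_mem_cons, forall_mem_append]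
  exact ⟨by simp only [DC.val]; omega, fun c hc => val_mono (chn_val h1 c hc) (by omega),
    fun c hc => val_mono (chn_val (fun a ha => by have := h4 a ha; omega) c hc) (by omega)⟩
lemma LR_ok {n s : ℕ} {c : Con} (h : c.2.1 < n ∧ c.2.2.1 < n ∧ c.2.2.2 < n) (hs : 2 * n + 2 ≤ s) :
    Ok (s + 48) (LR s c).1 ∧ Ok (s + 48) (LR s c).2 := by
  simp only [LR]; split_ifs <;> simp [Ok] <;> omega
lemma blk_val {n s : ℕ} {c : Con} (h : c.2.1 < n ∧ c.2.2.1 < n ∧ c.2.2.2 < n) (hs : 2 * n + 2 ≤ s) :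
    ∀ d ∈ blk s c, d.val (s + 68) := by
  simp only [blk, forall_mem_append]
  refine ⟨by simp [DC.val]; omega, fun d hd => val_mono (sm_val ?_ ?_ d hd) (by omega),
    fun d hd => val_mono (sm_val ?_ ?_ d hd) (by omega), sm_val (LR_ok h hs).1 (LR_ok h hs).2⟩ <;>
    simp [Ok] <;> omega
theorem ds_val (cs : List Con) : ∀ d ∈ ds cs, d.val (dN cs) := by
  simp only [ds, forall_mem_flatMap]
  intro p hp d hd
  have := snd_lt_of_mem_zipIdx hp
  exact val_mono (blk_val (lt_nv (fst_mem_of_mem_zipIdx hp)) (by omega) d hd) (by simp only [dN]; omega)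

lemma chn_sound {v : ℕ → ℝ} (h0 : v 0 = 0) (L : List ℕ) : ∀ t, (∀ c ∈ chn t L, c.ok v) →
    v (t + L.length) = v t + (L.map v).sum := by
  induction L with
  | nil => simp
  | cons a L ih =>
    intro t h
    simp only [chn_cons, forall_mem_cons, DC.ok, h0] at h
    have := ih _ h.2
    simp only [length_cons, map_cons, sum_cons, show t + (L.length + 1) = t + 1 + L.length by omega]
    grind
lemma sm_sound {v : ℕ → ℝ} (h0 : v 0 = 0) {t : ℕ} {L R : List ℕ} (h : ∀ c ∈ sm t L R, c.ok v) :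
    (L.map v).sum = (R.map v).sum := by
  simp only [sm, forall_mem_cons, forall_mem_append] at h
  have := chn_sound h0 _ _ h.2.1; have := chn_sound h0 _ _ h.2.2
  simp only [DC.ok] at h; grind

theorem ds_sound {cs : List Con} {v : ℕ → ℝ} (h0 : v 0 = 0) (h1 : v 1 ≠ 0) (h : ∀ d ∈ ds cs, d.ok v) :
    ∃ A, AM cs A := by
  refine ⟨fun i => (v (2 * i + 3) - 2 * v (2 * i + 2)) / v 1, fun c hc => ?_⟩
  obtain ⟨p, hp, rfl⟩ := getElem_of_mem hc
  simp only [ds, forall_mem_flatMap] at h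
  have := h (cs[p], p) (by simp [mem_zipIdx_iff_getElem?])
  simp only [blk, forall_mem_append] at this
  obtain ⟨a, b, d, e⟩ := this
  have b := sm_sound h0 b; have d := sm_sound h0 d; have e := sm_sound h0 e
  simp only [LR, Con.ok] at e ⊢
  split_ifs at e ⊢ <;> simp [DC.ok] at a b d e <;> field_simp <;> grind

lemma glue {v w : ℕ → ℝ} (hv : StrictMono v) (hw : StrictMono w) {s : ℕ} (h : ∀ k < s, v k < w 0) :
    ∃ u : ℕ → ℝ, StrictMono u ∧ (∀ k < s, u k = v k) ∧ ∀ j, u (s + j) = w j := by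
  refine ⟨fun k => if k < s then v k else w (k - s), fun a b hab => ?_, fun k hk => if_pos hk, by simp⟩
  simp only; split_ifs
  exacts [hv hab, (h a ‹_›).trans_le (hw.monotone (Nat.zero_le _)), by omega, hw (by omega)]

lemma chn_ext (L : List ℕ) : ∀ (t : ℕ) (v : ℕ → ℝ), StrictMono v → v 0 = 0 → (∀ a ∈ L, 0 < a ∧ a < t) →
    ∃ u : ℕ → ℝ, StrictMono u ∧ (∀ k ≤ t, u k = v k) ∧ ∀ c ∈ chn t L, c.ok u := by
  induction L with
  | nil => exact fun t v hv _ _ => ⟨v, hv, by simp [chn]⟩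
  | cons a L ih =>
    intro t v hv h0 h
    have ha := h a (by simp)
    obtain ⟨u, u1, u2, u3⟩ := glue hv (w := fun j => v t + v a + j) (fun _ _ _ => by simpa) (s := t + 1)
      fun k hk => by have := hv.monotone (Nat.le_of_lt_succ hk); have := hv ha.1; simp; linarith
    obtain ⟨w, w1, w2, w3⟩ := ih (t + 1) u u1 (by grind) fun b hb => by grind
    have := u3 0
    refine ⟨w, w1, by grind, ?_⟩
    simp only [chn_cons, forall_mem_cons]
    exact ⟨by simp only [DC.ok]; grind, w3⟩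

lemma sm_ext {t : ℕ} {L R : List ℕ} (h : Ok t L) (h' : Ok t R) {v : ℕ → ℝ} (hv : StrictMono v) (h0 : v 0 = 0)
    (e : (L.map v).sum = (R.map v).sum) :
    ∃ u : ℕ → ℝ, StrictMono u ∧ (∀ k < t, u k = v k) ∧ ∀ c ∈ sm t L R, c.ok u := by
  obtain ⟨u, u1, u2, u3⟩ := chn_ext L t v hv h0 h.1
  obtain ⟨w, w1, w2, w3⟩ := chn_ext R (t + 10) u u1 (by grind) fun a ha => by have := h'.1 a ha; omega
  have u4 := fun c hc => ok_congr (chn_val h.1 c hc) (fun k hk => w2 k (by have := h.2; omega)) (u3 c hc)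
  have a := chn_sound (by grind) _ _ u4; have b := chn_sound (by grind) _ _ w3
  rw [map_congr_left (g := v) fun a ha => by have := h.1 a ha; grind] at a
  rw [map_congr_left (g := v) fun a ha => by have := h'.1 a ha; grind] at b
  simp only [sm, forall_mem_cons, forall_mem_append]
  exact ⟨w, w1, by grind, by simp only [DC.ok]; grind, u4, w3⟩

lemma blk_ext {n s : ℕ} {c : Con} (h : c.2.1 < n ∧ c.2.2.1 < n ∧ c.2.2.2 < n) (hs : 2 * n + 2 ≤ s)
    {v x : ℕ → ℝ} (hv : StrictMono v) (h0 : v 0 = 0) (h1 : v 1 = 1)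
    (hx : ∀ i < n, x i = v (2 * i + 3) - 2 * v (2 * i + 2)) (hc : c.ok x) :
    ∃ u : ℕ → ℝ, StrictMono u ∧ (∀ k < s, u k = v k) ∧ ∀ d ∈ blk s c, d.ok u := by
  have b (i) (hi : i < n) : -2 * v s < x i ∧ x i < v s := by
    have := hv (show 0 < 2 * i + 2 by omega); have := hv (show 2 * i + 2 < 2 * i + 3 by omega)
    have := hv (show 2 * i + 3 < s by omega); grind
  have := hv (show 1 < s by omega)
  obtain ⟨i1, i2⟩ := b _ h.1; obtain ⟨j1, j2⟩ := b _ h.2.1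
  have xi := hx _ h.1; have xj := hx _ h.2.1; have xk := hx _ h.2.2
  obtain ⟨u, u1, u2, u3⟩ := glue hv (s := s) (w := fun j => [4 * v s, x c.2.1 + 8 * v s, 16 * v s,
    x c.2.2.1 + 48 * v s, 4 * v s * (16 * v s), 16 * v s * (x c.2.1 + 8 * v s),
    4 * v s * (x c.2.2.1 + 48 * v s)].getD j ((x c.2.1 + 8 * v s) * (x c.2.2.1 + 48 * v s) + (j - 7)))
    (strictMono_nat_of_lt_succ fun j => by
      obtain _ | _ | _ | _ | _ | _ | _ | j := j <;> simp <;> nlinarith)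
    fun k hk => by have := hv hk; simp; linarith
  have a0 := u3 0; have a1 := u3 1; have a2 := u3 2; have a3 := u3 3; have a4 := u3 4; have a5 := u3 5
  have a6 := u3 6; have a7 := u3 7
  simp only [List.getD_cons_zero, List.getD_cons_succ, List.getD_nil, add_zero, Nat.cast_ofNat, sub_self] at a0 a1 a2 a3 a4 a5 a6 a7
  have e0 := u2 0 (by omega); have e1 := u2 1 (by omega)
  have f1 := u2 (2 * c.2.1 + 2) (by omega); have f2 := u2 (2 * c.2.1 + 3) (by omega)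
  have f3 := u2 (2 * c.2.2.1 + 2) (by omega); have f4 := u2 (2 * c.2.2.1 + 3) (by omega)
  have f5 := u2 (2 * c.2.2.2 + 2) (by omega); have f6 := u2 (2 * c.2.2.2 + 3) (by omega)
  have o1 : Ok (s + 8) [s + 1, 2 * c.2.1 + 2, 2 * c.2.1 + 2] ∧ Ok (s + 8) [2 * c.2.1 + 3, s, s] := by
    simp [Ok]; omega
  have o2 : Ok (s + 28) [s + 3, 2 * c.2.2.1 + 2, 2 * c.2.2.1 + 2] ∧
      Ok (s + 28) [2 * c.2.2.1 + 3, s + 2, s + 2, s + 2] := by simp [Ok]; omega
  have o3 := LR_ok h hs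
  obtain ⟨w, w1, w2, w3⟩ := sm_ext o1.1 o1.2 u1 (by grind) (by simp; grind)
  have m1 (L : List ℕ) (hL : Ok (s + 28) L) (h8 : ∀ a ∈ L, a < s + 8) : L.map w = L.map u :=
    map_congr_left fun a ha => w2 a (h8 a ha)
  obtain ⟨y, y1, y2, y3⟩ := sm_ext o2.1 o2.2 w1 (by grind) (by
    rw [m1 _ o2.1 (by simp; omega), m1 _ o2.2 (by simp; omega)]; simp; grind)
  have m2 (L : List ℕ) (h8 : ∀ a ∈ L, a < s + 8) : L.map y = L.map u :=
    map_congr_left fun a ha => (y2 a (by have := h8 a ha; omega)).trans (w2 a (h8 a ha))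
  obtain ⟨z, z1, z2, z3⟩ := sm_ext o3.1 o3.2 y1 (by grind) (by
    rw [m2 _ (by simp only [LR]; split_ifs <;> simp <;> omega), m2 _ (by simp only [LR]; split_ifs <;> simp <;> omega)]
    simp only [LR, Con.ok] at hc ⊢
    split_ifs at hc ⊢ <;> simp <;> grind)
  have g (k) (hk : k < s + 8) : z k = u k := by grind
  refine ⟨z, z1, by grind, ?_⟩
  simp only [blk, forall_mem_append]
  refine ⟨?_, fun d hd => ok_congr (sm_val o1.1 o1.2 d hd) (by grind) (w3 d hd),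
    fun d hd => ok_congr (sm_val o2.1 o2.2 d hd) (by grind) (y3 d hd), z3⟩
  simp [DC.ok, g, show 1 < s + 8 by omega]
  grind

lemma var_ext (A : ℕ → ℝ) (n : ℕ) : ∃ v : ℕ → ℝ, StrictMono v ∧ v 0 = 0 ∧ v 1 = 1 ∧
    ∀ i < n, A i = v (2 * i + 3) - 2 * v (2 * i + 2) := by
  induction n with
  | zero => exact ⟨fun k => k, Nat.strictMono_cast, by simp⟩
  | succ n ih =>
    obtain ⟨v, hv, h0, h1, h⟩ := ih
    have := hv (show 0 < 2 * n + 2 by omega); have := neg_abs_le (A n); have := abs_nonneg (A n)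
    obtain ⟨u, u1, u2, u3⟩ := glue hv (s := 2 * n + 2)
      (w := fun j => [v (2 * n + 2) + |A n|].getD j (2 * (v (2 * n + 2) + |A n|) + A n + (j - 1)))
      (strictMono_nat_of_lt_succ fun j => by obtain _ | j := j <;> simp <;> linarith)
      fun k hk => by have := hv hk; simp; linarith
    have a0 := u3 0; have a1 := u3 1
    simp only [List.getD_cons_zero, List.getD_cons_succ, List.getD_nil, add_zero, Nat.cast_one, sub_self] at a0 a1
    refine ⟨u, u1, by grind, by grind, fun i hi => ?_⟩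
    rcases Nat.lt_succ_iff_lt_or_eq.1 hi with hi | rfl
    · rw [u2 _ (by omega), u2 _ (by omega)]; exact h i hi
    · grind

theorem ds_compl {cs : List Con} {A : ℕ → ℝ} (h : AM cs A) :
    ∃ v : ℕ → ℝ, StrictMono v ∧ v 0 = 0 ∧ ∀ d ∈ ds cs, d.ok v := by
  suffices H : ∀ m ≤ cs.length, ∃ v : ℕ → ℝ, StrictMono v ∧ v 0 = 0 ∧ v 1 = 1 ∧
      (∀ i < nv cs, A i = v (2 * i + 3) - 2 * v (2 * i + 2)) ∧
      ∀ j, ∀ hj : j < cs.length, j < m → ∀ d ∈ blk (2 * nv cs + 2 + 68 * j) cs[j], d.ok v by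
    obtain ⟨v, h1, h2, -, -, h3⟩ := H _ le_rfl
    refine ⟨v, h1, h2, ?_⟩
    simp only [ds, forall_mem_flatMap]
    intro p hp
    have := snd_lt_of_mem_zipIdx hp
    obtain ⟨a, b⟩ := List.getElem?_eq_some_iff.1 (mem_zipIdx_iff_getElem?.1 hp)
    exact b ▸ h3 p.2 a a
  intro m
  induction m with
  | zero => obtain ⟨v, h1, h2, h3, h4⟩ := var_ext A (nv cs); exact fun _ => ⟨v, h1, h2, h3, h4, by simp⟩
  | succ m ih =>
    intro hm
    obtain ⟨v, h1, h2, h3, h4, h5⟩ := ih (by omega)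
    obtain ⟨u, u1, u2, u3⟩ := blk_ext (s := 2 * nv cs + 2 + 68 * m) (lt_nv (getElem_mem hm)) (by omega) h1 h2 h3 h4
      (h _ (getElem_mem hm))
    refine ⟨u, u1, by grind, by grind, fun i hi => ?_, fun j hj hjm => ?_⟩
    · rw [u2 _ (by omega), u2 _ (by omega)]; exact h4 i hi
    rcases Nat.lt_succ_iff_lt_or_eq.1 hjm with hi | rfl
    · exact fun d hd => ok_congr (blk_val (lt_nv (getElem_mem hj)) (by omega) d hd)
        (fun k hk => u2 k (by omega)) (h5 j hj hi d hd)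
    · exact u3

end Pool.Agent.H21.ER
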