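import Mathlib

namespace Pool.Agent.H21.Diag

open CategoryTheory

abbrev Rels := List (List ℕ × List ℕ)

structure V (R : Rels) where
  w : List ℕ

structure Edge (R : Rels) (x y : V R) where
  a : List ℕ
  u : List ℕ
  v : List ℕ
  b : List ℕ
  mem : (u, v) ∈ R
  src : x.w = a ++ u ++ b
  tgt : y.w = a ++ v ++ b

instance (R : Rels) : Quiver (V R) := ⟨Edge R⟩

inductive Sq (R : Rels) : HomRel (Quiver.FreeGroupoid (V R))
  | mk {x y z t : V R} (e₁ : Edge R x y) (e₂ : Edge R y t) (e₃ : Edge R x z) (e₄ : Edge R z t)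
      (m : List ℕ) : e₁.a = e₄.a → e₁.u = e₄.u → e₁.v = e₄.v → e₂.u = e₃.u → e₂.v = e₃.v →
      e₂.b = e₃.b → e₃.a = e₁.a ++ e₁.u ++ m → e₂.a = e₁.a ++ e₁.v ++ m →
      e₁.b = m ++ e₃.u ++ e₃.b → e₄.b = m ++ e₃.v ++ e₃.b →
      Sq R ((Quiver.FreeGroupoid.of (V R)).map e₁ ≫ (Quiver.FreeGroupoid.of (V R)).map e₂)
        ((Quiver.FreeGroupoid.of (V R)).map e₃ ≫ (Quiver.FreeGroupoid.of (V R)).map e₄)

def D (R : Rels) (w : List ℕ) : Type :=
  End ((Quotient.functor (Sq R)).obj ((Quiver.FreeGroupoid.of (V R)).obj ⟨w⟩))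

noncomputable instance (R : Rels) (w : List ℕ) : Group (D R w) :=
  inferInstanceAs (Group (End _))

def Valid (R : Rels) (w : List ℕ) : Prop :=
  w ≠ [] ∧ ∀ u v, (u, v) ∈ R → u ≠ [] ∧ v ≠ [] ∧ (v, u) ∉ R

noncomputable def abRank (G : Type) [Group G] : Cardinal :=
  Module.rank ℚ (TensorProduct ℤ ℚ (Additive (Abelianization G)))

end Pool.Agent.H21.Diag
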