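import Mathlib

namespace Pool.Agent.H21.TM

open Turing

lemma trNat_pow (n : ℕ) : PartrecToTM2.trNat (2 ^ n) =
    List.replicate n PartrecToTM2.Γ'.bit0 ++ [PartrecToTM2.Γ'.bit1] := by
  have : ∀ n : ℕ, ∃ p : PosNum, ((2 ^ n : ℕ) : Num) = Num.pos p ∧ PartrecToTM2.trPosNum p =
      List.replicate n PartrecToTM2.Γ'.bit0 ++ [PartrecToTM2.Γ'.bit1] := fun n => by
    induction n with
    | zero => exact ⟨1, rfl, rfl⟩
    | succ n ih =>
      obtain ⟨p, h1, h2⟩ := ih
      refine ⟨p.bit0, ?_, by simp [PartrecToTM2.trPosNum, h2, List.replicate_succ]⟩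
      rw [pow_succ, mul_two, Nat.cast_add, h1]
      exact congrArg Num.pos (PosNum.bit0_of_bit0 p)
  obtain ⟨p, h1, h2⟩ := this n
  rw [PartrecToTM2.trNat, h1]
  exact h2

lemma exists_code : ∃ c : ToPartrec.Code, ¬ ComputablePred fun n : ℕ => (c.eval [2 ^ n]).Dom := by
  have hp : Computable₂ fun x n : ℕ => decide (x ≤ 2 ^ n) :=
    (Primrec.nat_le.comp Primrec.fst
      ((Primrec₂.unpaired'.1 Nat.Primrec.pow).comp (Primrec.const 2) Primrec.snd)).decide.to_comp
  have hg : Partrec fun x : ℕ => (Nat.rfind fun n => (decide (x ≤ 2 ^ n) : Part Bool)).bind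
      fun n => Nat.Partrec.Code.eval (Denumerable.ofNat _ n) 0 :=
    (Partrec.rfind hp.partrec₂).bind (Nat.Partrec.Code.eval_part.comp
      ((Computable.ofNat Nat.Partrec.Code).comp Computable.snd) (Computable.const 0))
  obtain ⟨c, hc⟩ := ToPartrec.Code.exists_code (Nat.Partrec'.part_iff₁.2 hg)
  refine ⟨c, fun h => ComputablePred.halting_problem 0 ?_⟩
  obtain ⟨f, hf, e⟩ := ComputablePred.computable_iff.1 h
  refine ComputablePred.computable_iff.2 ⟨_, hf.comp Computable.encode, funext fun d => ?_⟩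
  have h1 : (Nat.rfind fun n => (decide (2 ^ Encodable.encode d ≤ 2 ^ n) : Part Bool)) =
      Part.some (Encodable.encode d) := by
    rw [Part.eq_some_iff, Nat.mem_rfind]
    exact ⟨by simp, fun {m} hm => by simpa using Nat.pow_lt_pow_right one_lt_two hm⟩
  rw [← congrFun e, show c.eval [2 ^ Encodable.encode d] = _ from
    hc ⟨[2 ^ Encodable.encode d], rfl⟩]
  simp only [List.Vector.head]
  erw [h1]
  simp

instance : Fintype PartrecToTM2.K' := ⟨{.main, .rev, .aux, .stack}, fun x => by cases x <;> simp⟩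

theorem exists_tm : ∃ (Γ Λ : Type) (_ : Inhabited Γ) (_ : Inhabited Λ) (_ : Finite Γ)
    (_ : Finite Λ) (M : TM0.Machine Γ Λ) (A B C : Γ), ¬ ComputablePred fun n : ℕ =>
      (StateTransition.eval (TM0.step M) (TM0.init (A :: B :: List.replicate n C))).Dom := by
  classical
  obtain ⟨c, hc⟩ := exists_code
  letI : Inhabited PartrecToTM2.Λ' := ⟨PartrecToTM2.trNormal c .halt⟩
  have s2 := PartrecToTM2.tr_supports c .halt
  have s0 := TM1to0.tr_supports _ (TM2to1.tr_supports _ s2)
  set M := TM1to0.tr (TM2to1.tr PartrecToTM2.tr)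
  set S := TM1to0.trStmts (TM2to1.tr PartrecToTM2.tr)
    (TM2to1.trSupp PartrecToTM2.tr (PartrecToTM2.codeSupp c .halt))
  letI : Inhabited S := ⟨⟨default, s0.1⟩⟩
  let g : PointedMap _ S := ⟨fun q => if h : q ∈ S then ⟨q, h⟩ else default, dif_pos s0.1⟩
  have hr := TM0.Machine.map_respects M ⟨id, rfl⟩ ⟨id, rfl⟩ g Subtype.val s0 (fun _ => rfl)
    fun q hq => by simp [g, show q ∈ S from hq]
  let u : PartrecToTM2.Γ' → ∀ _ : PartrecToTM2.K', Option PartrecToTM2.Γ' := fun a =>
    Function.update (fun _ => none) .main (some a)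
  refine ⟨_, S, inferInstance, inferInstance, inferInstance, inferInstance,
    M.map ⟨id, rfl⟩ ⟨id, rfl⟩ g Subtype.val, (true, u .cons), (false, u .bit1), (false, u .bit0),
    fun h => hc (h.of_eq fun n => ?_)⟩
  rw [StateTransition.tr_eval_dom hr (a₁ := TM0.init ((true, u .cons) :: (false, u .bit1) ::
    List.replicate n (false, u .bit0))) ⟨s0.1, by rw [TM0.map_init]; simp⟩]
  have e1 : TM2to1.trInit (Γ := fun _ => PartrecToTM2.Γ') .main (PartrecToTM2.trList [2 ^ n]) =
      (true, u .cons) :: (false, u .bit1) :: List.replicate n (false, u .bit0) := by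
    simp only [TM2to1.trInit, PartrecToTM2.trList, trNat_pow, List.reverse_append,
      List.reverse_cons, List.reverse_nil, List.nil_append, List.reverse_replicate,
      List.cons_append, List.map_cons, List.map_replicate, List.headI_cons, List.tail_cons]
    rfl
  refine (Iff.of_eq (congrArg (fun l => (TM0.eval M l).Dom) e1.symm)).trans ?_
  refine (Iff.of_eq (congrArg Part.Dom (TM1to0.tr_eval _ _))).trans
    ((TM2to1.tr_eval_dom _ _ _).trans ?_)
  have e2 := PartrecToTM2.tr_eval c [2 ^ n]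
  have e3 : TM2.init (Γ := fun _ => PartrecToTM2.Γ') PartrecToTM2.K'.main
      (PartrecToTM2.trList [2 ^ n]) = PartrecToTM2.init c [2 ^ n] := by
    simp only [TM2.init, PartrecToTM2.init]
    congr 1
    funext k
    cases k <;> rfl
  rw [TM2.eval, e3, e2]
  rfl

end Pool.Agent.H21.TM
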