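import Mathlib
import Pool.Agent.H21.TM

namespace Pool.Agent.H21.OneHead

open Turing StateTransition Relation

inductive Hd (Λ : Type)
  | R (q : Λ) | L (q : Λ) | H (i : Fin 3)

instance {Λ : Type} [Finite Λ] : Finite (Hd Λ) :=
  Finite.of_surjective (fun x : Λ ⊕ Λ ⊕ Fin 3 => x.elim Hd.R (Sum.elim Hd.L Hd.H)) fun h => by
    cases h
    exacts [⟨.inl _, rfl⟩, ⟨.inr (.inl _), rfl⟩, ⟨.inr (.inr _), rfl⟩]

abbrev N (Γ : Type) := Option (Option Γ)
abbrev C (Γ Λ : Type) := List (N Γ) × Hd Λ × List (N Γ)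

variable {Γ Λ : Type} [Inhabited Γ] [Inhabited Λ] (M : TM0.Machine Γ Λ)

def lf : Hd Λ → Bool
  | .L _ => true
  | _ => false

def act : Hd Λ → N Γ → C Γ Λ
  | .R q, some (some a) => match M q a with
    | none => ([], .H 0, [some (some a)])
    | some (q', .write b) => ([some none], .R q', [some (some b)])
    | some (q', .move .right) => ([some none, some (some a)], .R q', [])
    | some (q', .move .left) => ([], .L q', [some none, some (some a)])
  | .R q, some none => ([some none], .R q, [])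
  | .R q, none => ([], .R q, [some (some default), none])
  | .L q, some (some a) => ([], .R q, [some (some a)])
  | .L q, some none => ([], .L q, [some none])
  | .L q, none => ([none], .R q, [some (some default)])
  | .H i, x => ([], .H (i + 1), [x])

def ext (l r : List (N Γ)) (c : C Γ Λ) : C Γ Λ := (c.1 ++ l, c.2.1, c.2.2 ++ r)

def nxt : C Γ Λ → Option (C Γ Λ)
  | (l, h, r) => if lf h then l.head?.map fun x => ext l.tail r (act M h x)
      else r.head?.map fun x => ext l r.tail (act M h x)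

def isH : Hd Λ → Bool
  | .H _ => true
  | _ => false

def stp (c : C Γ Λ) : Option (C Γ Λ) := (nxt M c).filter fun c' => !isH c'.2.1

def φ : C Γ Λ → ℕ ×ₗ ℕ
  | (l, h, r) => toLex (l.length + r.length, if lf h then r.length else
      l.length + r.length + 1 + l.length)

lemma φ_lt {c c' : C Γ Λ} (h : c' ∈ nxt M c) (h' : isH c'.2.1 = false) : φ c < φ c' := by
  obtain ⟨l, hd, r⟩ := c
  cases hd with
  | R q =>
    rcases r with _ | ⟨x, r⟩
    · simp [nxt, lf] at h
    obtain rfl : ext l r (act M (.R q) x) = c' := by simpa [nxt, lf] using h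
    rcases x with _ | _ | a
    · simp [φ, ext, act, lf, Prod.Lex.lt_iff]
    · simp [φ, ext, act, lf, Prod.Lex.lt_iff]; omega
    · rcases e : M q a with _ | ⟨q', ⟨_ | _⟩ | b⟩ <;>
        simp [φ, ext, act, lf, Prod.Lex.lt_iff, e, isH] at h' ⊢ <;> omega
  | L q =>
    rcases l with _ | ⟨x, l⟩
    · simp [nxt, lf] at h
    obtain rfl : ext l r (act M (.L q) x) = c' := by simpa [nxt, lf] using h
    rcases x with _ | _ | a <;> simp [φ, ext, act, lf, Prod.Lex.lt_iff] <;> omega
  | H i =>
    rcases r with _ | ⟨x, r⟩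
    · simp [nxt, lf] at h
    obtain rfl : ext l r (act M (.H i) x) = c' := by simpa [nxt, lf] using h
    simp [ext, act, isH] at h'

def w (l : List (Option Γ)) : List (N Γ) := l.map some ++ [none]

lemma skipR (q : Λ) : ∀ r l : List (Option Γ), ∃ l' r' a,
    Reaches (stp M) (w l, .R q, w r) (w l', .R q, some (some a) :: w r') ∧
      l'.reduceOption = l.reduceOption ∧
      ListBlank.mk (a :: r'.reduceOption) = ListBlank.mk r.reduceOption
  | [], l => ⟨l, [], default, .single rfl, rfl, Quotient.sound' (.inr ⟨1, rfl⟩)⟩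
  | some a :: r, l => ⟨l, r, a, .refl, rfl, rfl⟩
  | none :: r, l => by
    obtain ⟨l', r', a, h⟩ := skipR q r (none :: l)
    exact ⟨l', r', a, .head rfl h.1, h.2⟩

lemma skipL (q : Λ) : ∀ l r : List (Option Γ), ∃ l' r' a,
    Reaches (stp M) (w l, .L q, w r) (w l', .R q, some (some a) :: w r') ∧
      r'.reduceOption = r.reduceOption ∧
      ListBlank.mk (a :: l'.reduceOption) = ListBlank.mk l.reduceOption
  | [], r => ⟨[], r, default, .single rfl, rfl, Quotient.sound' (.inr ⟨1, rfl⟩)⟩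
  | some a :: l, r => ⟨l, r, a, .single rfl, rfl, rfl⟩
  | none :: l, r => by
    obtain ⟨l', r', a, h⟩ := skipL q l (none :: r)
    exact ⟨l', r', a, .head rfl h.1, h.2⟩

def Rel (a : TM0.Cfg Γ Λ) (c : C Γ Λ) : Prop :=
  ∃ l r : List (Option Γ), c = (w l, .R a.q, some (some a.Tape.head) :: w r) ∧
    a.Tape.left = ListBlank.mk l.reduceOption ∧ a.Tape.right = ListBlank.mk r.reduceOption

lemma resp : Respects (TM0.step M) (stp M) Rel := by
  rintro ⟨q, a, L, R⟩ _ ⟨l, r, rfl, h1, h2⟩
  simp only at h1 h2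
  subst h1 h2
  rcases e : M q a with _ | ⟨q', ⟨_ | _⟩ | b⟩ <;> simp only [TM0.step, e, Option.map]
  · simp [stp, nxt, lf, act, e, ext, isH]
  · obtain ⟨l', r', b, h1, h2, h3⟩ := skipL M q' l (none :: some a :: r)
    refine ⟨_, ⟨l', r', ?_, ?_, ?_⟩, TransGen.head' (by simp [stp, nxt, lf, act, e, ext, isH, w])
      h1⟩ <;> simp [Tape.move, ← h3, h2]
  · obtain ⟨l', r', b, h1, h2, h3⟩ := skipR M q' r (none :: some a :: l)
    refine ⟨_, ⟨l', r', ?_, ?_, ?_⟩, TransGen.head' (by simp [stp, nxt, lf, act, e, ext, isH, w])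
      h1⟩ <;> simp [Tape.move, ← h3, h2]
  · exact ⟨_, ⟨none :: l, r, rfl, rfl, rfl⟩, .single (by simp [stp, nxt, lf, act, e, ext, isH, w])⟩

def St (c c' : C Γ Λ) : Prop := c' ∈ nxt M c

def ini (a : Γ) (l : List Γ) : C Γ Λ := ([none], .R default, some (some a) :: w (l.map some))

lemma rel_ini (a : Γ) (l : List Γ) : Rel (TM0.init (a :: l) : TM0.Cfg Γ Λ) (ini a l) :=
  ⟨[], l.map some, rfl, rfl, by
    simp [TM0.init, Tape.mk₁, Tape.mk₂, List.reduceOption, List.filterMap_map]⟩

lemma st_of {c c' : C Γ Λ} (h : Reaches (stp M) c c') : ReflTransGen (St M) c c' := by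
  induction h with
  | refl => exact .refl
  | tail _ h ih => exact ih.tail (Option.mem_filter_iff.1 h).1

lemma halts {a : Γ} {l : List Γ} (h : (eval (TM0.step M) (TM0.init (a :: l))).Dom) :
    ∃ L x R, ReflTransGen (St M) (ini a l) (L, .H 0, x :: R) := by
  obtain ⟨b, hb⟩ := Part.dom_iff_mem.1 h
  obtain ⟨_, ⟨L, R, rfl, -⟩, h2⟩ := tr_eval (resp M) (rel_ini a l) hb
  have e : M b.q b.Tape.head = none := by simpa [TM0.step] using (mem_eval.1 hb).2
  exact ⟨w L, some (some b.Tape.head), w R, (st_of M (mem_eval.1 h2).1).tail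
    (by simp [St, nxt, lf, act, e, ext])⟩

lemma acyc {a : Γ} {l : List Γ} (h : ¬ (eval (TM0.step M) (TM0.init (a :: l))).Dom) {c}
    (hc : ReflTransGen (St M) (ini a l) c) : ¬ TransGen (St M) c c := by
  rw [← tr_eval_dom (resp M) (rel_ini a l)] at h
  have k : ∀ c c', Reaches (stp M) (ini a l) c → St M c c' → c' ∈ stp M c := fun c c' h1 h2 => by
    rcases e : stp M c with _ | c''
    · exact absurd (Part.dom_iff_mem.2 ⟨c, mem_eval.2 ⟨h1, e⟩⟩) h
    · exact congrArg some (Option.mem_unique (Option.mem_filter_iff.1 e).1 h2)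
  have k2 : ∀ c, ReflTransGen (St M) (ini a l) c → Reaches (stp M) (ini a l) c := fun c hc => by
    induction hc with
    | refl => exact .refl
    | tail _ h2 ih => exact ih.tail (k _ _ ih h2)
  have k3 : ∀ c', TransGen (St M) c c' → φ c < φ c' := fun c' h' => by
    induction h' with
    | single h1 => exact φ_lt M h1 (by simpa using (Option.mem_filter_iff.1 (k _ _ (k2 _ hc) h1)).2)
    | tail h0 h1 ih =>
      exact ih.trans (φ_lt M h1 (by
        simpa using (Option.mem_filter_iff.1 (k _ _ (k2 _ (hc.trans h0.to_reflTransGen)) h1)).2))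
  exact fun h => lt_irrefl _ (k3 _ h)

lemma st_H {c c' : C Γ Λ} (h : St M c c') {i} (hi : c.2.1 = .H i) : c'.2.1 = .H (i + 1) := by
  obtain ⟨l, hd, _ | ⟨x, r⟩⟩ := c <;> cases hi
  · simp [St, nxt, lf] at h
  · obtain rfl : ext l r (act M (.H i) x) = c' := by simpa [St, nxt, lf] using h
    rfl

lemma no2 {c c' : C Γ Λ} (h : St M c c') : ¬ St M c' c := fun h' => by
  have k : ∀ {c c' : C Γ Λ}, St M c c' → St M c' c → isH c.2.1 = false := fun {c c'} h h' => by
    rcases e : c.2.1 with _ | _ | i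
    · rfl
    · rfl
    · have := st_H M h' (st_H M h e)
      rw [e] at this
      exact absurd (Hd.H.inj this) ((by decide : ∀ i : Fin 3, i ≠ i + 1 + 1) i)
  exact lt_asymm (φ_lt M h (k h' h)) (φ_lt M h' (k h h'))

end Pool.Agent.H21.OneHead
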