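import Mathlib
import Pool.Agent.H21.DiagDefs
import Pool.Agent.H21.OneHead

namespace Pool.Agent.H21.Diag

open CategoryTheory Relation Pool.Agent.H21.OneHead

def F (R : Rels) : V R ⥤q CategoryTheory.Quotient (Sq R) :=
  Quiver.FreeGroupoid.of (V R) ⋙q (Quotient.functor (Sq R)).toPrefunctor

variable {R : Rels}

inductive Fw : (x y : V R) → ((F R).obj x ⟶ (F R).obj y) → Prop
  | nil (x : V R) : Fw x x (𝟙 _)
  | cons {x y z : V R} (e : Edge R x y) {g} : Fw y z g → Fw x z ((F R).map e ≫ g)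

def E (x y : V R) : Prop := Nonempty (Edge R x y)

lemma Fw.snoc {x y z : V R} {g} (h : Fw x y g) (e : Edge R y z) : Fw x z (g ≫ (F R).map e) := by
  induction h with
  | nil x => simpa using Fw.cons e (.nil z)
  | cons e' _ ih => simpa using Fw.cons e' (ih e)

lemma Fw.reach {x y : V R} {g} (h : Fw x y g) : ReflTransGen E x y := by
  induction h with
  | nil x => exact .refl
  | cons e _ ih => exact .head ⟨e⟩ ih

lemma fw_of {x y : V R} (h : ReflTransGen E x y) : Nonempty ((F R).obj x ⟶ (F R).obj y) := by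
  induction h with
  | refl => exact ⟨𝟙 _⟩
  | tail _ e ih => exact ⟨ih.some ≫ (F R).map e.some⟩

def P {x y : V R} (p : @Quiver.Path (Quiver.Symmetrify (V R)) _ x y) :
    (F R).obj x ⟶ (F R).obj y := Quot.mk _ (Quot.mk _ p)

lemma P_pos {x y z : V R} (p : @Quiver.Path (Quiver.Symmetrify (V R)) _ x y) (e : Edge R y z) :
    P (@Quiver.Path.cons (Quiver.Symmetrify (V R)) _ _ _ _ p (Sum.inl e)) = P p ≫ (F R).map e := rfl

lemma P_neg {x y z : V R} (p : @Quiver.Path (Quiver.Symmetrify (V R)) _ x y) (e : Edge R z y) :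
    P (@Quiver.Path.cons (Quiver.Symmetrify (V R)) _ _ _ _ p (Sum.inr e)) =
      P p ≫ Groupoid.inv ((F R).map e) := rfl

lemma triv (I : V R → Prop) (hI : ∀ x y, Edge R x y → (I x ↔ I y))
    (det : ∀ x y y' (e : Edge R x y) (e' : Edge R x y'), I x →
      (⟨y, e⟩ : Σ y, Edge R x y) = ⟨y', e'⟩) (x : V R) (h0 : I x)
    (ac : ∀ y, ReflTransGen E x y → ¬ TransGen E y y) : Subsingleton (D R x.w) := by
  have k1 : ∀ (y : V R) (p : @Quiver.Path (Quiver.Symmetrify (V R)) _ x y), I y ∧ ∃ z f g,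
      Fw x z f ∧ Fw y z g ∧ P p ≫ g = f := fun y p => by
    induction p with
    | nil => exact ⟨h0, x, 𝟙 _, 𝟙 _, .nil x, .nil x, Category.comp_id _⟩
    | @cons y y' p e ih =>
      obtain ⟨h1, z, f, g, h2, h3, h4⟩ := ih
      rcases e with e | e
      · refine ⟨(hI _ _ e).1 h1, ?_⟩
        cases h3 with
        | nil => exact ⟨y', _, _, h2.snoc e, .nil _, (Category.comp_id _).trans
            ((P_pos p e).trans (by rw [← h4, Category.comp_id]))⟩
        | cons e' h5 =>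
          cases det _ _ _ e e' h1
          exact ⟨z, f, _, h2, h5, (congrArg (· ≫ _) (P_pos p e)).trans
            ((Category.assoc _ _ _).trans h4)⟩
      · exact ⟨(hI _ _ e).2 h1, z, f, _, h2, .cons e h3, (congrArg (· ≫ _) (P_neg p e)).trans
          (by simp [h4])⟩
  have k2 : ∀ y z f, Fw y z f → ReflTransGen E x y → I y → ∀ g, Fw y z g → f = g := by
    intro y z f h
    induction h with
    | nil y =>
      intro h1 _ g hg
      cases hg with
      | nil => rfl
      | cons e h => exact absurd (TransGen.head' ⟨e⟩ h.reach) (ac _ h1)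
    | cons e h ih =>
      intro h1 h2 g hg
      cases hg with
      | nil => exact absurd (TransGen.head' ⟨e⟩ h.reach) (ac _ h1)
      | cons e' h' =>
        cases det _ _ _ e e' h2
        rw [ih (h1.tail ⟨e⟩) ((hI _ _ e).1 h2) _ h']
  refine ⟨fun a b => ?_⟩
  suffices ∀ a : D R x.w, a = 𝟙 ((F R).obj x) by rw [this a, this b]
  rintro ⟨⟨p⟩⟩
  obtain ⟨-, z, f, g, h1, h2, h3⟩ := k1 x p
  rw [k2 _ _ _ h1 .refl h0 _ h2] at h3
  exact (cancel_mono g).1 (h3.trans (Category.id_comp g).symm)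

def K (c : List ℕ → ℤ) : CategoryTheory.Quotient (Sq R) ⥤ SingleObj (Multiplicative ℤ) :=
  CategoryTheory.Quotient.lift _ (Quiver.FreeGroupoid.lift
    { obj := fun _ => SingleObj.star _
      map := fun {x y} (e : Edge R x y) => Multiplicative.ofAdd (c e.u) }) (by
    rintro _ _ _ _ ⟨e₁, e₂, e₃, e₄, m, -, h1, -, h2, -⟩
    rw [Functor.map_comp, Functor.map_comp]
    change Multiplicative.ofAdd (c e₂.u) * 1 * (Multiplicative.ofAdd (c e₁.u) * 1) =
      Multiplicative.ofAdd (c e₄.u) * 1 * (Multiplicative.ofAdd (c e₃.u) * 1)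
    rw [h1, h2, mul_comm])

lemma K_map (c : List ℕ → ℤ) {x y : V R} (e : Edge R x y) :
    (K c).map ((F R).map e) = Multiplicative.ofAdd (c e.u) := mul_one (Multiplicative.ofAdd (c e.u))

lemma nontriv (c : List ℕ → ℤ) {x y y₁ y₂ : V R} (h : ReflTransGen E x y) (e₁ : Edge R y y₁)
    (e₂ : Edge R y₁ y₂) (e₃ : Edge R y₂ y) (hc : c e₁.u + c e₂.u + c e₃.u ≠ 0) :
    ∃ (χ : D R x.w →* Multiplicative ℤ) (g : D R x.w), χ g ≠ 1 := by
  obtain ⟨g⟩ := fw_of h
  refine ⟨(K c).mapEnd _, g ≫ (F R).map e₁ ≫ (F R).map e₂ ≫ (F R).map e₃ ≫ inv g, fun h => hc ?_⟩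
  change (K c).map _ = _ at h
  simp only [Functor.map_comp, Functor.map_inv, K_map, SingleObj.comp_as_mul,
    SingleObj.inv_as_inv] at h
  have : ∀ k a b d : Multiplicative ℤ, k⁻¹ * a * b * d * k = 1 →
      d.toAdd + b.toAdd + a.toAdd = 0 := fun k a b d h => by
    have := congrArg Multiplicative.toAdd h
    simp at this
    omega
  exact this _ _ _ _ h

lemma rank_ne {G : Type} [Group G] (χ : G →* Multiplicative ℤ) (g : G) (h : χ g ≠ 1) :
    abRank G ≠ 0 := by
  let l : Additive (Abelianization G) →ₗ[ℤ] ℤ :=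
    (MonoidHom.toAdditiveLeft (Abelianization.lift χ)).toIntLinearMap
  rw [abRank, Ne, rank_zero_iff]
  intro hs
  have := congrArg (fun t => TensorProduct.rid ℤ ℚ (TensorProduct.map LinearMap.id l t))
    (hs.elim ((1 : ℚ) ⊗ₜ Additive.ofMul (Abelianization.of g)) 0)
  exact h (by simpa [l] using this)

lemma rank_zero {G : Type} [Group G] [Subsingleton G] : abRank G = 0 := by
  have : Subsingleton (Abelianization G) := (QuotientGroup.mk_surjective).subsingleton
  exact rank_zero_iff.2 inferInstance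

section
variable {Γ Λ : Type} (f : N Γ → ℕ) (g : Hd Λ → ℕ)

def word (c : C Γ Λ) : List ℕ := c.1.reverse.map f ++ g c.2.1 :: c.2.2.map f

lemma word_ext (l r : List (N Γ)) (c : C Γ Λ) :
    word f g (ext l r c) = l.reverse.map f ++ word f g c ++ r.map f := by simp [word, ext]

variable {f g} (hf : Function.Injective f) (hg : Function.Injective g) (hfg : ∀ x h, f x ≠ g h)
include hg hfg

lemma uq {h h' : Hd Λ} {r : List (N Γ)} {b : List ℕ} : ∀ (l : List (N Γ)) (a : List ℕ),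
    l.map f ++ g h :: r.map f = a ++ g h' :: b → a = l.map f ∧ h = h' ∧ b = r.map f
  | [], [], e => by simpa [hg.eq_iff, eq_comm] using e
  | [], y :: a, e => by
    have : g h' ∈ r.map f := by rw [(List.cons.inj e).2]; simp
    obtain ⟨x, -, hx⟩ := List.mem_map.1 this
    exact absurd hx (hfg _ _)
  | x :: l, [], e => absurd (List.cons.inj e).1 (hfg _ _)
  | x :: l, y :: a, e => by
    obtain ⟨h1, h2⟩ := uq l a (List.cons.inj e).2
    exact ⟨by rw [h1, ← (List.cons.inj e).1]; rfl, h2⟩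

include hf

lemma split {c c0 : C Γ Λ} {a b : List ℕ} (e : word f g c = a ++ word f g c0 ++ b) :
    ∃ l r, c = ext l r c0 ∧ a = l.reverse.map f ∧ b = r.map f := by
  obtain ⟨h1, h2, h3⟩ := uq hg hfg (h := c.2.1) (r := c.2.2) (h' := c0.2.1)
    (b := c0.2.2.map f ++ b) c.1.reverse (a ++ c0.1.reverse.map f) (by simpa [word] using e)
  obtain ⟨l, l', e1, e2, e3⟩ := List.map_eq_append_iff.1 h1.symm
  obtain ⟨r', r, e4, e5, e6⟩ := List.map_eq_append_iff.1 h3.symm
  rw [(List.map_injective_iff.2 hf).eq_iff] at e3 e5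
  refine ⟨l.reverse, r, Prod.ext ?_ (Prod.ext h2 (by rw [e4, e5]; rfl)), by simp [e2], e6.symm⟩
  simpa [ext, e3] using congrArg List.reverse e1

lemma word_inj {c c' : C Γ Λ} (e : word f g c = word f g c') : c = c' := by
  obtain ⟨l, r, h1, h2, h3⟩ := split hf hg hfg (a := []) (b := []) (by simpa using e)
  simp only [List.nil_eq, List.map_eq_nil_iff, List.reverse_eq_nil_iff] at h2 h3
  simp [h1, h2, h3, ext]

end

def src {Γ Λ : Type} (h : Hd Λ) (x : N Γ) : C Γ Λ := if lf h then ([x], h, []) else ([], h, [x])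

lemma src_inj {Γ Λ : Type} {h h' : Hd Λ} {x x' : N Γ} {l r l' r'}
    (e : ext l r (src h x) = ext l' r' (src h' x')) : h = h' ∧ x = x' ∧ l = l' ∧ r = r' := by
  have : h = h' := by
    have := congrArg (·.2.1) e
    simp only [ext, src] at this
    split_ifs at this <;> exact this
  subst this
  cases e' : lf h <;> simp [ext, src, e'] at e <;> simp [e]

variable {Γ Λ : Type} [Inhabited Γ] [Inhabited Λ] (M : Turing.TM0.Machine Γ Λ)

lemma st_iff {c c' : C Γ Λ} :
    St M c c' ↔ ∃ l r h x, c = ext l r (src h x) ∧ c' = ext l r (act M h x) := by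
  constructor
  · obtain ⟨l, h, r⟩ := c
    intro H
    cases e : lf h
    · rcases r with _ | ⟨x, r⟩
      · simp [St, nxt, e] at H
      · exact ⟨l, r, h, x, by simp [ext, src, e], by simpa [St, nxt, e, eq_comm] using H⟩
    · rcases l with _ | ⟨x, l⟩
      · simp [St, nxt, e] at H
      · exact ⟨l, r, h, x, by simp [ext, src, e], by simpa [St, nxt, e, eq_comm] using H⟩
  · rintro ⟨l, r, h, x, rfl, rfl⟩
    cases e : lf h <;> simp [St, nxt, ext, src, e]

theorem main : ∃ (R : Rels) (W : ℕ → List ℕ) (p : ℕ → Prop), Computable W ∧ ¬ ComputablePred p ∧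
    ∀ n, Valid R (W n) ∧ (¬ p n → Subsingleton (D R (W n))) ∧
      (p n → ∃ (χ : D R (W n) →* Multiplicative ℤ) (g : D R (W n)), χ g ≠ 1) := by
  classical
  obtain ⟨Γ, Λ, _, _, _, _, M, A, B, C', hp⟩ := TM.exists_tm
  obtain ⟨e, he⟩ := Countable.exists_injective_nat (N Γ ⊕ Hd Λ)
  let f : N Γ → ℕ := e ∘ Sum.inl
  let g : Hd Λ → ℕ := e ∘ Sum.inr
  have hf : Function.Injective f := he.comp Sum.inl_injective
  have hg : Function.Injective g := he.comp Sum.inr_injective
  have hfg : ∀ x h, f x ≠ g h := fun x h => he.ne Sum.inl_ne_inr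
  have := Fintype.ofFinite (Hd Λ × N Γ)
  let R : Rels := (Finset.univ : Finset (Hd Λ × N Γ)).toList.map fun p =>
    (word f g (src p.1 p.2), word f g (act M p.1 p.2))
  have hR : ∀ u v, (u, v) ∈ R ↔ ∃ h x, u = word f g (src h x) ∧ v = word f g (act M h x) := by
    simp [R, eq_comm]
  have fwd : ∀ {c : C Γ Λ} {y : V R} (e : Edge R ⟨word f g c⟩ y), ∃ l r h x,
      c = ext l r (src h x) ∧ e.a = l.reverse.map f ∧ e.b = r.map f ∧ e.u = word f g (src h x) ∧
      e.v = word f g (act M h x) ∧ y = ⟨word f g (ext l r (act M h x))⟩ := fun {c y} e => by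
    obtain ⟨h, x, h1, h2⟩ := (hR _ _).1 e.mem
    obtain ⟨l, r, h3, h4, h5⟩ := split hf hg hfg (h1 ▸ e.src)
    exact ⟨l, r, h, x, h3, h4, h5, h1, h2, congrArg V.mk (by rw [word_ext, ← h2, ← h4, ← h5, ← e.tgt])⟩
  have mk : ∀ l r h x, ∃ e : Edge R ⟨word f g (ext l r (src h x))⟩ ⟨word f g (ext l r (act M h x))⟩,
      e.u = word f g (src h x) := fun l r h x =>
    ⟨⟨_, _, _, _, (hR _ _).2 ⟨h, x, rfl, rfl⟩, word_ext _ _ _ _ _, word_ext _ _ _ _ _⟩, rfl⟩
  have step : ∀ {c : C Γ Λ} {y : V R}, E ⟨word f g c⟩ y → ∃ c', St M c c' ∧ y = ⟨word f g c'⟩ :=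
    fun ⟨e⟩ => by
      obtain ⟨l, r, h, x, h1, -, -, -, -, h2⟩ := fwd e
      exact ⟨_, (st_iff M).2 ⟨l, r, h, x, h1, rfl⟩, h2⟩
  refine ⟨R, fun n => word f g (ini A (B :: List.replicate n C')), _, ?_, hp, fun n =>
    ⟨⟨by simp [word], fun u v h => ?_⟩, fun hn => ?_, fun hn => ?_⟩⟩
  · refine (Primrec.list_append.comp (Primrec.const [f none, g (.R default), f (some (some A)),
      f (some (some B))]) (Primrec.list_append.comp (Primrec.list_map Primrec.list_range
        (Primrec.const (f (some (some C')))).to₂) (Primrec.const [f none]))).to_comp.of_eq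
      fun n => ?_
    simp [word, ini, w]
  · obtain ⟨hd, x, rfl, rfl⟩ := (hR _ _).1 h
    refine ⟨by simp [word], by simp [word], fun h' => ?_⟩
    obtain ⟨hd', x', e1, e2⟩ := (hR _ _).1 h'
    refine no2 M ((st_iff M).2 ⟨[], [], hd, x, rfl, rfl⟩) ((st_iff M).2 ⟨[], [], hd', x', ?_, ?_⟩)
    · rw [word_inj hf hg hfg e1]
    · rw [word_inj hf hg hfg e2]
  · refine triv (R := R) (fun x => ∃ c, x = ⟨word f g c⟩) (fun x y e => ⟨?_, ?_⟩) ?_ ⟨_⟩ ⟨_, rfl⟩
      fun y hy hc => ?_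
    · rintro ⟨c, rfl⟩
      obtain ⟨c', -, h⟩ := step ⟨e⟩
      exact ⟨c', h⟩
    · rintro ⟨c, rfl⟩
      obtain ⟨h, x, h1, h2⟩ := (hR _ _).1 e.mem
      obtain ⟨l, r, -, h4, h5⟩ := split hf hg hfg (h2 ▸ e.tgt)
      exact ⟨ext l r (src h x), congrArg V.mk (by rw [word_ext, ← h1, ← h4, ← h5, ← e.src])⟩
    · rintro _ y y' e e' ⟨c, rfl⟩
      obtain ⟨l, r, h, x, h1, h2, h3, h4, h5, rfl⟩ := fwd e
      obtain ⟨l', r', h', x', h1', h2', h3', h4', h5', rfl⟩ := fwd e'
      obtain ⟨rfl, rfl, rfl, rfl⟩ := src_inj (h1.symm.trans h1')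
      cases e
      cases e'
      simp only at h2 h3 h4 h5 h2' h3' h4' h5'
      subst h2 h3 h4 h5 h2' h3' h4' h5'
      rfl
    · have k : ∀ {c : C Γ Λ} {y : V R}, ReflTransGen E ⟨word f g c⟩ y →
          ∃ c', ReflTransGen (St M) c c' ∧ y = ⟨word f g c'⟩ := fun h => by
        induction h with
        | refl => exact ⟨_, .refl, rfl⟩
        | tail _ h ih =>
          obtain ⟨c', h1, rfl⟩ := ih
          obtain ⟨c'', h2, rfl⟩ := step h
          exact ⟨c'', h1.tail h2, rfl⟩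
      obtain ⟨c, h1, rfl⟩ := k hy
      obtain ⟨y, h2, h3⟩ := TransGen.head'_iff.1 hc
      obtain ⟨c', h4, rfl⟩ := step h2
      obtain ⟨c'', h5, h6⟩ := k h3
      obtain rfl := word_inj hf hg hfg (congrArg V.w h6)
      exact acyc M hn h1 (.head' h4 h5)
  · obtain ⟨l, x, r, h⟩ := halts M hn
    have k : ∀ {c c' : C Γ Λ}, ReflTransGen (St M) c c' →
        ReflTransGen (E (R := R)) ⟨word f g c⟩ ⟨word f g c'⟩ := fun h => by
      induction h with
      | refl => exact .refl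
      | tail _ h ih =>
        obtain ⟨l, r, hd, x, rfl, rfl⟩ := (st_iff M).1 h
        exact ih.tail ⟨(mk l r hd x).choose⟩
    obtain ⟨e₁, h1⟩ := mk l r (.H 0) x
    obtain ⟨e₂, h2⟩ := mk l r (.H 1) x
    obtain ⟨e₃, h3⟩ := mk l r (.H 2) x
    refine nontriv (fun u => if u = e₁.u then 1 else 0) (k h) e₁ e₂ e₃ ?_
    simp only [if_true]
    split_ifs <;> simp

end Pool.Agent.H21.Diag
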