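import Pool.Agent.H21.ERDefs
import Pool.Agent.H11.PT3

namespace Pool.Agent.H21.ER

open Pool.Agent.H11.PT List

@[fun_prop] theorem pt_post {α : Type} [Enc α] {f : α → Qf} (hf : PT f) : PT fun x => (f x).post :=
  (PT.ofId (f := Qf.post) fun _ => rfl).comp hf

open Classical in
noncomputable def op (x : ℕ → ℝ) (t : ℕ) (u v : ℝ) : ℝ :=
  if t = 0 then 0 else if t = 1 then u + u else if t = 2 then u + u + 1 else if t = 3 then -u
  else if t = 4 then v + u else if t = 5 then v * u else if t = 6 then (if v = u then 1 else 0)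
  else if t = 7 then (if v < u then 1 else 0) else if t = 8 then (if v ≤ u then 1 else 0)
  else if t = 9 then 1 - u else if t = 10 then v * u else if t = 11 then v + u - v * u else x (t - 12)
def ar (t : ℕ) : ℕ := if t = 0 ∨ 12 ≤ t then 0 else if t ≤ 3 ∨ t = 9 then 1 else 2
noncomputable def rstep (x : ℕ → ℝ) (d : ℝ) (S : List ℝ) (t : ℕ) : List ℝ :=
  op x t (S.getD 0 d) (S.getD 1 d) :: S.drop (ar t)

lemma tm_post (x : ℕ → ℝ) (d : ℝ) (a : Tm) : ∀ S, a.post.foldl (rstep x d) S = a.val x :: S := by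
  induction a with
  | num l =>
    intro S
    have : ∀ n : ℕ, (l.map fun b => 1 + b.toNat).foldl (rstep x d) (n :: S) =
        ((l.foldl (fun n b => 2 * n + b.toNat) n : ℕ) : ℝ) :: S := by
      induction l with
      | nil => simp
      | cons b l ih => intro n; cases b <;> simp [rstep, op, ar, ← ih] <;> simp [two_mul]
    simpa [Tm.post, Tm.val, bin, rstep, op, ar] using this 0
  | _ => simp_all [Tm.post, Tm.val, rstep, op, ar]

open Classical in
lemma qf_post (x : ℕ → ℝ) (d : ℝ) (a : Qf) :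
    ∀ S, a.post.foldl (rstep x d) S = (if a.Holds x then 1 else 0) :: S := by
  induction a <;> simp_all [Qf.post, Qf.Holds, rstep, op, ar, tm_post] <;> grind

abbrev St := List ℕ × List (ℕ × ℕ × ℕ)
def step (s : St) (t : ℕ) : St :=
  (s.2.length :: s.1.drop (ar t), s.2 ++ [(t, s.1.getD 0 0, s.1.getD 1 0)])
def run (ts : List ℕ) : St := ts.foldl step ([], [(0, 0, 0)])
def Gates (x w : ℕ → ℝ) (gs : List (ℕ × ℕ × ℕ)) : Prop :=
  ∀ g ∈ gs.zipIdx, w g.2 = op x g.1.1 (w g.1.2.1) (w g.1.2.2)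

lemma run_snoc (ts : List ℕ) (t : ℕ) : run (ts ++ [t]) = step (run ts) t := by simp [run]

lemma run_sound {x w : ℕ → ℝ} (ts : List ℕ) (h : Gates x w (run ts).2) :
    (run ts).1.map w = ts.foldl (rstep x (w 0)) [] := by
  induction ts using List.reverseRecOn with
  | nil => simp [run]
  | append_singleton ts t ih =>
    simp only [run_snoc, step, Gates, zipIdx_append, mem_append] at h
    rw [foldl_append, ← ih fun g hg => h g (.inl hg), run_snoc]
    simpa [step, rstep, getD_eq_getElem?_getD] using h _ (.inr (mem_cons_self ..))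

lemma run_inv (ts : List ℕ) : (run ts).2.length = ts.length + 1 ∧ (∀ i ∈ (run ts).1, i ≤ ts.length) ∧
    ∀ g ∈ (run ts).2, g.2.1 ≤ ts.length ∧ g.2.2 ≤ ts.length ∧ (g.1 = 0 ∨ g.1 ∈ ts) := by
  induction ts using List.reverseRecOn with
  | nil => simp [run]
  | append_singleton ts t ih =>
    have : ∀ k, (run ts).1.getD k 0 ≤ ts.length := fun k => by
      rw [getD_eq_getElem?_getD]; cases h : (run ts).1[k]? <;> simp; exact ih.2.1 _ (mem_of_getElem? h)
    have := fun i (h : i ∈ (run ts).1.drop (ar t)) => ih.2.1 i (mem_of_mem_drop h)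
    simp only [run_snoc, step]
    grind

lemma run_compl (x : ℕ → ℝ) (ts : List ℕ) : ∃ w, Gates x w (run ts).2 := by
  induction ts using List.reverseRecOn with
  | nil => exact ⟨0, by simp [run, Gates, op]⟩
  | append_singleton ts t ih =>
    obtain ⟨w, h⟩ := ih
    obtain ⟨h1, -, h3⟩ := run_inv ts
    have h4 := (run_inv (ts ++ [t])).2.2
    refine ⟨Function.update w (ts.length + 1) (op x t (w ((run ts).1.getD 0 0)) (w ((run ts).1.getD 1 0))),
      fun g hg => ?_⟩
    have h5 (k) : (run ts).1.getD k 0 ≤ ts.length := by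
      rw [getD_eq_getElem?_getD]; cases h : (run ts).1[k]? <;> simp
      exact (run_inv ts).2.1 _ (mem_of_getElem? h)
    simp only [run_snoc, step, zipIdx_append, mem_append] at hg
    rcases hg with hg | hg
    · have := h3 _ (fst_mem_of_mem_zipIdx hg)
      have := snd_lt_of_mem_zipIdx hg
      have := h g hg
      grind
    · have := h5 0; have := h5 1
      simp only [zipIdx_cons, zipIdx_nil, mem_singleton] at hg
      grind

lemma holds_iff (φ : Qf) (x : ℕ → ℝ) :
    φ.Holds x ↔ ∃ w, Gates x w (run φ.post).2 ∧ w φ.post.length = 1 := by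
  have key {w} (h : Gates x w (run φ.post).2) : φ.Holds x ↔ w φ.post.length = 1 := by
    have := run_sound _ h
    rw [qf_post] at this
    obtain ⟨ts, t, e⟩ : ∃ ts t, φ.post = ts ++ [t] := by cases φ <;> exact ⟨_, _, rfl⟩
    rw [e, run_snoc, step, (run_inv ts).1] at this
    simp only [map_cons, cons.injEq] at this
    simp [e, this.1]
  obtain ⟨w, h⟩ := run_compl x φ.post
  exact ⟨fun a => ⟨w, h, (key h).1 a⟩, fun ⟨_, h, a⟩ => (key h).2 a⟩

lemma sz_le {α : Type} [Enc α] {l : List α} {B : ℕ} (h : ∀ a ∈ l, sz a ≤ B) :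
    sz l ≤ l.length * (B + 1) + 1 := by
  induction l with
  | nil => simp
  | cons a l ih => have := h a (by simp); have := ih fun b hb => h b (by simp [hb]); simp; nlinarith

open Polynomial in
theorem run_pt : PT run := by
  refine PT.foldl (l := fun x : List ℕ => x) (i := fun _ => (([], [(0, 0, 0)]) : St))
    (g := fun _ => step) (by fun_prop) (by fun_prop) (by unfold step ar; fun_prop)
    ((X + 1) * (C 7 * X + C 9) + C 3) fun x n => ?_
  have a := len_le_sz x
  have b : (x.take n).length ≤ x.length := by simp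
  obtain ⟨h1, h2, h3⟩ := run_inv (x.take n)
  have h4 : ∀ ts, (run ts).1.length ≤ ts.length := fun ts => by
    induction ts using List.reverseRecOn with
    | nil => simp [run]
    | append_singleton ts t ih => simp [run_snoc, step]; omega
  have := h4 (x.take n)
  have h5 := sz_le (l := (run (x.take n)).1) (B := 2 * sz x + 1) fun i hi => by
    have := h2 i hi; simp; omega
  have h6 := sz_le (l := (run (x.take n)).2) (B := 5 * sz x + 5) fun g hg => by
    obtain ⟨t, i, j⟩ := g
    have := h3 _ hg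
    have : t ∈ x.take n → sz t ≤ sz x := fun h => sz_mem (mem_of_mem_take h)
    rcases ‹_ ∧ _ ∧ _› with ⟨c, d, e | e⟩ <;> simp only [sz_pair, sz_nat] at *
    · omega
    · have := this e; omega
  change sz ((run (x.take n)).1, (run (x.take n)).2) ≤ _
  simp only [sz_pair, eval_add, eval_mul, eval_X, eval_C, eval_one]
  nlinarith

/-- constraints `(0,i,j,k)`: `x i + x j = x k`; `(1,i,j,k)`: `x i * x j = x k`; otherwise `x k = 1` -/
abbrev Con := ℕ × ℕ × ℕ × ℕ
def Con.ok (x : ℕ → ℝ) (c : Con) : Prop :=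
  if c.1 = 0 then x c.2.1 + x c.2.2.1 = x c.2.2.2 else if c.1 = 1 then x c.2.1 * x c.2.2.1 = x c.2.2.2
  else x c.2.2.2 = 1
def AM (cs : List Con) (x : ℕ → ℝ) : Prop := ∀ c ∈ cs, c.ok x

def gad (t u v o : ℕ) : List Con := (2, 0, 0, o + 2) :: (0, o + 4, o + 4, o + 4) ::
  if t = 0 then [(0, o, o, o)] else if t = 1 then [(0, u, u, o)]
  else if t = 2 then [(0, u, u, o + 6), (0, o + 6, o + 2, o)] else if t = 3 then [(0, u, o, o + 4)]
  else if t = 4 then [(0, v, u, o)] else if t = 5 ∨ t = 10 then [(1, v, u, o)]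
  else if t = 6 then [(0, v, o + 6, u), (1, o, o + 6, o + 4), (1, o + 6, o + 8, o + 10), (0, o + 10, o, o + 2)]
  else if t = 7 ∨ t = 8 then (if t = 7 then [(0, v, o + 6, u), (0, o + 16, o + 4, o)] else
    [(0, u, o + 6, v), (0, o + 16, o, o + 2)]) ++ [(1, o + 16, o + 16, o + 16), (1, o + 8, o + 8, o + 10),
      (1, o + 6, o + 10, o + 12), (1, o + 16, o + 12, o + 16), (0, o + 6, o + 10, o + 14),
      (1, o + 16, o + 14, o + 14)]
  else if t = 9 then [(0, u, o, o + 2)]
  else if t = 11 then [(1, v, u, o + 6), (0, v, u, o + 8), (0, o + 6, o, o + 8)]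
  else [(0, 2 * (t - 12), o + 4, o)]
def am (ts : List ℕ) : List Con := (2, 0, 0, 18 * ts.length + 1) :: (run ts).2.zipIdx.flatMap fun g =>
  gad g.1.1 (18 * g.1.2.1 + 1) (18 * g.1.2.2 + 1) (18 * g.2 + 1)

@[fun_prop] theorem am_pt' : PT am := by
  have := run_pt
  unfold am gad
  fun_prop

theorem am_pt : PT fun φ : Qf => am φ.post := by fun_prop

lemma pos_iff {d r s : ℝ} (h1 : r * r = r) (h2 : r * (d * (s * s)) = r) (h3 : r * (d + s * s) = d + s * s) :
    r = if 0 < d then 1 else 0 := by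
  rcases eq_zero_or_one_of_sq_eq_self (x := r) (by rw [sq, h1]) with rfl | rfl
  · rw [if_neg]; nlinarith [mul_self_nonneg s]
  · rw [if_pos]; by_contra c; nlinarith [mul_self_nonneg s]

lemma gad_sound {A : ℕ → ℝ} {t u v o : ℕ} (h : AM (gad t u v o) A) :
    A o = op (fun n => A (2 * n)) t (A u) (A v) := by
  by_cases h7 : t = 7 ∨ t = 8
  · rcases h7 with rfl | rfl <;> simp [AM, gad, Con.ok, op] at h ⊢ <;>
    · obtain ⟨a, b, c, d, e, f, g, h, i, j⟩ := h
      have := pos_iff (d := A (o + 6)) (s := A (o + 8)) e (by grind) (by grind)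
      grind
  by_cases h12 : t < 12
  · interval_cases t <;> simp [AM, gad, op, Con.ok] at h ⊢ h7 <;> grind
  · obtain ⟨t, rfl⟩ : ∃ n, t = n + 12 := ⟨t - 12, by omega⟩
    simp [AM, gad, op, Con.ok] at h ⊢; grind

lemma pos_ex (d : ℝ) : ∃ s : ℝ, (0 < d → d * (s * s) = 1) ∧ (¬0 < d → d + s * s = 0) := by
  by_cases h : 0 < d
  · exact ⟨√d⁻¹, fun _ => by rw [Real.mul_self_sqrt (by positivity)]; field_simp, fun c => (c h).elim⟩
  · exact ⟨√(-d), fun c => (h c).elim, fun _ => by rw [Real.mul_self_sqrt (by linarith)]; ring⟩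

lemma gad_compl (x : ℕ → ℝ) (t : ℕ) (a b : ℝ) : ∃ y : ℕ → ℝ, ∀ (A : ℕ → ℝ) (u v o : ℕ),
    A u = a → A v = b → A o = op x t a b → (∀ n, A (2 * n) = x n) →
    (∀ k, 0 < k → k < 9 → A (o + 2 * k) = y k) → AM (gad t u v o) A := by
  obtain ⟨s, hs⟩ := pos_ex (if t = 7 then a - b else b - a)
  obtain ⟨d, hd⟩ : ∃ d, d = if t = 7 then a - b else b - a := ⟨_, rfl⟩
  rw [← hd] at hs
  refine ⟨fun k => [0, 1, 0, if t = 2 then a + a else if t = 6 then a - b else if t = 11 then b * a else d,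
    if t = 6 then (a - b)⁻¹ else if t = 11 then b + a else s, if t = 6 then (a - b) * (a - b)⁻¹ else s * s,
    d * (s * s), d + s * s, if 0 < d then 1 else 0].getD k 0, fun A u v o h1 h2 h3 h4 h5 => ?_⟩
  have := h5 1; have := h5 2; have := h5 3; have := h5 4; have := h5 5; have := h5 6; have := h5 7
  have := h5 8; have := h4 (t - 12)
  clear h4 h5
  by_cases h12 : t < 12
  · interval_cases t <;> simp [AM, gad, op, Con.ok] at * <;> grind
  · obtain ⟨t, rfl⟩ : ∃ n, t = n + 12 := ⟨t - 12, by omega⟩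
    simp [AM, gad, op, Con.ok] at *; grind

theorem am_iff (φ : Qf) (x : ℕ → ℝ) :
    φ.Holds x ↔ ∃ A : ℕ → ℝ, (∀ n, A (2 * n) = x n) ∧ AM (am φ.post) A := by
  rw [holds_iff]
  simp only [AM, am, forall_mem_cons, forall_mem_flatMap]
  constructor
  · rintro ⟨w, h1, h2⟩
    choose y hy using gad_compl x
    let G := fun p => (run φ.post).2.getD p (0, 0, 0)
    let A := fun n => if n % 2 = 0 then x (n / 2) else if n % 18 = 1 then w (n / 18) else
      y (G (n / 18)).1 (w (G (n / 18)).2.1) (w (G (n / 18)).2.2) (n % 18 / 2)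
    have a (p) : A (18 * p + 1) = w p := by simp only [A]; grind
    refine ⟨A, fun n => by simp [A], by simp [Con.ok, a, h2], fun g hg => ?_⟩
    refine hy _ _ _ A _ _ _ (a _) (a _) (by rw [a, h1 g hg]) (fun n => by simp [A]) fun k k1 k2 => ?_
    have : G g.2 = g.1 := by simp [G, getD_eq_getElem?_getD, mem_zipIdx_iff_getElem?.1 hg]
    simp only [A, show (18 * g.2 + 1 + 2 * k) / 18 = g.2 by omega, this,
      show (18 * g.2 + 1 + 2 * k) % 18 / 2 = k by omega]
    rw [if_neg (by omega), if_neg (by omega)]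
  · rintro ⟨A, h1, h2, h3⟩
    refine ⟨fun p => A (18 * p + 1), fun g hg => ?_, by simpa [Con.ok] using h2⟩
    simpa [h1] using gad_sound (h3 g hg)

theorem etr_iff (φ : Qf) : ETR φ ↔ ∃ A, AM (am φ.post) A :=
  ⟨fun ⟨x, h⟩ => ((am_iff φ x).1 h).imp fun _ => And.right,
    fun ⟨A, h⟩ => ⟨_, (am_iff φ _).2 ⟨A, fun _ => rfl, h⟩⟩⟩

end Pool.Agent.H21.ER
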