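import Pool.Agent.H21.ERPolyDefs
import Pool.Agent.H21.ER1

namespace Pool.Agent.H21.ER

open Pool.Agent.H11.PT List

def sq1 (c : Con) : Poly :=
  if c.1 = 0 then [(false, [true], [c.2.1, c.2.1]), (false, [true], [c.2.2.1, c.2.2.1]),
    (false, [true], [c.2.2.2, c.2.2.2]), (false, [true, false], [c.2.1, c.2.2.1]),
    (true, [true, false], [c.2.1, c.2.2.2]), (true, [true, false], [c.2.2.1, c.2.2.2])]
  else if c.1 = 1 then [(false, [true], [c.2.1, c.2.1, c.2.2.1, c.2.2.1]),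
    (true, [true, false], [c.2.1, c.2.2.1, c.2.2.2]), (false, [true], [c.2.2.2, c.2.2.2])]
  else [(false, [true], [c.2.2.2, c.2.2.2]), (true, [true, false], [c.2.2.2]), (false, [true], [])]
def sos (cs : List Con) : Poly := cs.flatMap sq1
def nv (cs : List Con) : ℕ := (cs.map fun c => c.2.1 + c.2.2.1 + c.2.2.2).sum + 1
def ext {n : ℕ} (x : Fin n → ℝ) (i : ℕ) : ℝ := if h : i < n then x ⟨i, h⟩ else 0
def Con.q (x : ℕ → ℝ) (c : Con) : ℝ :=
  if c.1 = 0 then x c.2.1 + x c.2.2.1 - x c.2.2.2 else if c.1 = 1 then x c.2.1 * x c.2.2.1 - x c.2.2.2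
  else x c.2.2.2 - 1

@[fun_prop] theorem sos_pt : PT sos := by unfold sos sq1; fun_prop
@[fun_prop] theorem nv_pt : PT nv := by unfold nv; fun_prop

lemma lt_nv {cs : List Con} {c : Con} (h : c ∈ cs) : c.2.1 < nv cs ∧ c.2.2.1 < nv cs ∧ c.2.2.2 < nv cs := by
  have : c.2.1 + c.2.2.1 + c.2.2.2 ≤ (cs.map fun c => c.2.1 + c.2.2.1 + c.2.2.2).sum :=
    single_le_sum (by simp) _ (mem_map.2 ⟨_, h, rfl⟩)
  simp only [nv]; omega

lemma sos_in {cs : List Con} {n : ℕ} (h : nv cs ≤ n) : (sos cs).In n := by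
  simp only [Poly.In, sos, forall_mem_flatMap]
  intro c hc
  have := lt_nv hc
  simp only [sq1]; split_ifs <;> simp <;> omega

lemma ok_iff {x : ℕ → ℝ} {c : Con} : c.ok x ↔ c.q x = 0 := by simp only [Con.ok, Con.q]; grind

lemma ev_eq {n : ℕ} (p : Poly) (x : Fin n → ℝ) : p.ev x =
    (p.map fun t => (bif t.1 then -1 else 1) * (bin t.2.1 : ℝ) * (t.2.2.map (ext x)).prod).sum := rfl

lemma ev_sos {n : ℕ} (cs : List Con) (x : Fin n → ℝ) :
    (sos cs).ev x = (cs.map fun c => c.q (ext x) ^ 2).sum := by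
  induction cs with
  | nil => simp [sos, Poly.ev]
  | cons c cs ih =>
    simp only [sos, ev_eq, flatMap_cons, map_append, sum_append, map_cons, sum_cons] at ih ⊢
    rw [ih]; congr 1
    simp only [sq1, Con.q]; split_ifs <;> simp [bin] <;> ring

lemma sum_sq_zero {cs : List Con} {x : ℕ → ℝ} : (cs.map fun c => c.q x ^ 2).sum = 0 ↔ AM cs x := by
  induction cs with
  | nil => simp [AM]
  | cons c cs ih =>
    have : 0 ≤ (cs.map fun c => c.q x ^ 2).sum := sum_nonneg (forall_mem_map.2 fun _ _ => sq_nonneg _)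
    simp only [AM, forall_mem_cons, ok_iff, map_cons, sum_cons] at ih ⊢
    rw [add_eq_zero_iff_of_nonneg (by positivity) this, ih]; simp

lemma am_congr {cs : List Con} {x y : ℕ → ℝ} (h : ∀ i < nv cs, x i = y i) (a : AM cs x) : AM cs y :=
  fun c hc => by have := lt_nv hc; have := a c hc; simp only [Con.ok] at *; grind

lemma am_ext {cs : List Con} {n : ℕ} (h : nv cs ≤ n) {x : ℕ → ℝ} (a : AM cs x) :
    AM cs (ext fun i : Fin n => x i) := am_congr (fun i hi => by simp [ext, hi.trans_le h]) a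

theorem aff_iff (φ : Qf) : ETR φ ↔ AffProj (nv (am φ.post)) [] (sos (am φ.post)) := by
  simp only [etr_iff, AffProj, ev_sos]
  exact ⟨fun ⟨A, h⟩ => ⟨0, fun i => A i, fun x => by
    simpa [Poly.ev] using (sum_sq_zero.2 (am_ext le_rfl h)).symm⟩,
    fun ⟨A, b, h⟩ => ⟨_, sum_sq_zero.1 (h 0).symm⟩⟩

end Pool.Agent.H21.ER
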