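import Pool.Agent.H11.PTDefs

namespace Pool.Agent.H21.ER

open Pool.Agent.H11.PT

/-- value of a binary numeral, most significant bit first -/
def bin (l : List Bool) : ℕ := l.foldl (fun n b => 2 * n + b.toNat) 0

/-- polynomial expressions with binary numerals in the variables `0, 1, 2, …` -/
inductive Tm : Type
  | var : ℕ → Tm
  | num : List Bool → Tm
  | neg : Tm → Tm
  | add : Tm → Tm → Tm
  | mul : Tm → Tm → Tm

/-- quantifier-free formulas over the ordered field of reals -/
inductive Qf : Type
  | eq : Tm → Tm → Qf
  | lt : Tm → Tm → Qf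
  | le : Tm → Tm → Qf
  | not : Qf → Qf
  | and : Qf → Qf → Qf
  | or : Qf → Qf → Qf

/-- value of an expression -/
def Tm.val (x : ℕ → ℝ) : Tm → ℝ
  | .var n => x n
  | .num l => bin l
  | .neg a => -a.val x
  | .add a b => a.val x + b.val x
  | .mul a b => a.val x * b.val x

/-- truth of a formula -/
def Qf.Holds (x : ℕ → ℝ) : Qf → Prop
  | .eq a b => a.val x = b.val x
  | .lt a b => a.val x < b.val x
  | .le a b => a.val x ≤ b.val x
  | .not a => ¬a.Holds x
  | .and a b => a.Holds x ∧ b.Holds x
  | .or a b => a.Holds x ∨ b.Holds x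

/-- reverse Polish form of an expression (a numeral is 0 followed by its bits as 1, 2) -/
def Tm.post : Tm → List ℕ
  | .var n => [n + 12]
  | .num l => 0 :: l.map fun b => 1 + b.toNat
  | .neg a => a.post ++ [3]
  | .add a b => a.post ++ b.post ++ [4]
  | .mul a b => a.post ++ b.post ++ [5]

/-- reverse Polish form of a formula -/
def Qf.post : Qf → List ℕ
  | .eq a b => a.post ++ b.post ++ [6]
  | .lt a b => a.post ++ b.post ++ [7]
  | .le a b => a.post ++ b.post ++ [8]
  | .not a => a.post ++ [9]
  | .and a b => a.post ++ b.post ++ [10]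
  | .or a b => a.post ++ b.post ++ [11]

instance encQf : Enc Qf := ⟨fun φ => Enc.tr φ.post⟩

/-- the existential theory of the reals: the existential closure of `φ` is true -/
def ETR (φ : Qf) : Prop := ∃ x, φ.Holds x

end Pool.Agent.H21.ER
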