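import Pool.Agent.H21.ERDefs

namespace Pool.Agent.H21.ER

/-- integer polynomials as lists of terms: sign (`true` = minus), binary coefficient, and the
variables of the monomial listed with multiplicity -/
abbrev Poly := List (Bool × List Bool × List ℕ)

/-- value of a polynomial at a point of `ℝ ^ n` -/
def Poly.ev {n : ℕ} (p : Poly) (x : Fin n → ℝ) : ℝ :=
  (p.map fun t => (bif t.1 then -1 else 1) * (bin t.2.1 : ℝ) *
    (t.2.2.map fun i => if h : i < n then x ⟨i, h⟩ else 0).prod).sum

/-- only the variables `0, …, n - 1` occur -/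
def Poly.In (p : Poly) (n : ℕ) : Prop := ∀ t ∈ p, ∀ i ∈ t.2.2, i < n

/-- affine polynomial projection -/
def AffProj (n : ℕ) (f g : Poly) : Prop :=
  ∃ (A : Matrix (Fin n) (Fin n) ℝ) (b : Fin n → ℝ), ∀ x, f.ev x = g.ev (A.mulVec x + b)

end Pool.Agent.H21.ER
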