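import Pool.Agent.H21.ERSurjDefs
import Pool.Agent.H21.ER2

namespace Pool.Agent.H21.ER

open Pool.Agent.H11.PT List

def mulm (p : Poly) (m : List ℕ) : Poly := p.map fun t => (t.1, t.2.1, t.2.2 ++ m)
def gz (cs : List Con) (N : ℕ) : Poly := (false, [true], [N, N]) :: sos cs
def surj (k : ℕ) (cs : List Con) (N : ℕ) : List Poly :=
  (gz cs N ++ mulm (gz cs N) [N + 1, N + 2]) ::
  (mulm (gz cs N) [N + 1] ++ (mulm (gz cs N) [N + 3] ++ mulm (gz cs N) [N + 1, N + 2, N + 3])) ::
  (range k).map fun i => [(false, [true], [2 * i])]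
def sred (p : ℕ × Qf) : ℕ × List Poly :=
  (nv (am p.2.post) + 2 * p.1 + 4, surj p.1 (am p.2.post) (nv (am p.2.post) + 2 * p.1))

theorem sred_pt : PT sred := by
  unfold sred surj gz mulm
  fun_prop

lemma ev_app {n : ℕ} (p q : Poly) (x : Fin n → ℝ) : Poly.ev (p ++ q) x = p.ev x + q.ev x := by
  simp [ev_eq]
lemma ev_mulm {n : ℕ} (p : Poly) (m : List ℕ) (x : Fin n → ℝ) :
    (mulm p m).ev x = p.ev x * (m.map (ext x)).prod := by
  simp [ev_eq, mulm, ← sum_map_mul_right, mul_assoc, Function.comp_def]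
lemma ev_gz {n : ℕ} (cs : List Con) (N : ℕ) (x : Fin n → ℝ) :
    (gz cs N).ev x = ext x N ^ 2 + (cs.map fun c => c.q (ext x) ^ 2).sum := by
  rw [← ev_sos]; simp [gz, ev_eq, bin, sq]

lemma sred_in (p : ℕ × Qf) : ∀ f ∈ (sred p).2, f.In (sred p).1 := by
  have := sos_in (cs := am p.2.post) (n := (sred p).1) (by simp only [sred]; omega)
  simp only [sred, surj, Poly.In, mulm, gz, forall_mem_cons, forall_mem_append, forall_mem_map,
    mem_range] at *
  simp only [eq_true this]
  simp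
  exact ⟨⟨fun _ _ h => this _ h, fun _ _ h => this _ h⟩, fun _ _ => by omega⟩

theorem sred_iff (p : ℕ × Qf) : AETR p.1 p.2 ↔ Surj (sred p).1 (sred p).2 := by
  obtain ⟨k, φ⟩ := p
  simp only [sred, AETR, am_iff]
  set cs := am φ.post
  set N := nv cs + 2 * k
  have key (x : Fin (N + 4) → ℝ) (s : Fin (surj k cs N).length → ℝ) :
      (fun j : Fin _ => (surj k cs N)[j].ev x) = s ↔
      (gz cs N).ev x * (1 + ext x (N + 1) * ext x (N + 2)) = s ⟨0, by simp [surj]⟩ ∧
      (gz cs N).ev x * (ext x (N + 1) + ext x (N + 3) * (1 + ext x (N + 1) * ext x (N + 2))) =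
        s ⟨1, by simp [surj]⟩ ∧ ∀ i (h : i < k), ext x (2 * i) = s ⟨i + 2, by simpa [surj]⟩ := by
    simp only [funext_iff, Fin.forall_iff]
    constructor
    · intro h
      refine ⟨?_, ?_, fun i hi => ?_⟩ <;> rw [← h] <;> simp [surj, ev_app, ev_mulm]
      · ring
      · ring
      · simp [ev_eq, bin]
    · rintro ⟨h1, h2, h3⟩ (_ | _ | i) hi
      · rw [← h1]; simp [surj, ev_app, ev_mulm]; ring
      · rw [← h2]; simp [surj, ev_app, ev_mulm]; ring
      · rw [← h3 i (by simpa [surj] using hi)]; simp [surj, ev_eq, bin]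
  simp only [Surj, Function.Surjective, key, ev_gz]
  constructor
  · intro h s
    obtain ⟨y, h1, A, h2, h3⟩ := h fun i => if h : i < k then s ⟨i + 2, by simpa [surj]⟩ else 0
    generalize s ⟨0, _⟩ = u
    generalize s ⟨1, _⟩ = v
    obtain ⟨z, a, b, c, e1, e2⟩ : ∃ z a b c : ℝ, z ^ 2 * (1 + a * b) = u ∧
        z ^ 2 * (a + c * (1 + a * b)) = v := by
      by_cases hu : u = 0
      · by_cases hv : v = 0
        · exact ⟨0, 0, 0, 0, by simp [*]⟩
        · exact ⟨1, v, -v⁻¹, 0, by simp [*]⟩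
      · exact ⟨1, 1, u - 1, (v - 1) / u, by simp, by field_simp; ring⟩
    let B := fun i => if i < N then A i else [z, a, b, c].getD (i - N) 0
    have e (i) (h : i < N + 4) : ext (fun i : Fin (N + 4) => B i) i = B i := by simp [ext, h]
    refine ⟨fun i => B i, ?_⟩
    rw [sum_sq_zero.2 (am_ext (by omega) (am_congr (fun i hi => by simp [B]; omega) h3)),
      e _ (by omega), e _ (by omega), e _ (by omega), e _ (by omega)]
    refine ⟨by simpa [B] using e1, by simpa [B] using e2, fun i hi => ?_⟩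
    rw [e _ (by omega)]
    simp [B, show 2 * i < N by omega, h2, h1 i hi, hi]
  · intro h x
    obtain ⟨y, h1, h2, h3⟩ := h fun j => if j.1 < 2 then 0 else x (j.1 - 2)
    refine ⟨fun n => ext y (2 * n), fun i hi => by simpa using h3 i hi, ext y, fun _ => rfl, ?_⟩
    have : 0 ≤ (cs.map fun c => c.q (ext y) ^ 2).sum := sum_nonneg (forall_mem_map.2 fun _ _ => sq_nonneg _)
    have : ext y N ^ 2 + (cs.map fun c => c.q (ext y) ^ 2).sum = 0 := by
      simp only [Nat.ofNat_pos, Nat.one_lt_ofNat, if_true, mul_eq_zero] at h1 h2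
      grind
    exact sum_sq_zero.1 (by nlinarith [sq_nonneg (ext y N)])

end Pool.Agent.H21.ER
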