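import Pool.Agent.H21.ERPolyDefs

namespace Pool.Agent.H21.ER

/-- the sentence `∀ x_0 … x_{k-1} ∃ x_k … φ` is true over the reals -/
def AETR (k : ℕ) (φ : Qf) : Prop := ∀ x : ℕ → ℝ, ∃ y : ℕ → ℝ, (∀ i < k, y i = x i) ∧ φ.Holds y

/-- the polynomial map `ℝ ^ n → ℝ ^ m` with the listed components is surjective -/
def Surj (n : ℕ) (fs : List Poly) : Prop :=
  Function.Surjective fun (x : Fin n → ℝ) (j : Fin fs.length) => fs[j].ev x

end Pool.Agent.H21.ER
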