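import Mathlib

namespace Pool.Agent.H21.Emb

open Multiplicative commutatorElement RegularWreathProduct

universe u

section wr
variable {D Q : Type*} [Group D] [Group Q]

def bs : (Q → D) →* RegularWreathProduct D Q where
  toFun f := ⟨f, 1⟩
  map_one' := rfl
  map_mul' f g := by ext <;> simp

@[simp] theorem bs_left (f : Q → D) : (bs f).left = f := rfl
@[simp] theorem bs_right (f : Q → D) : (bs f).right = 1 := rfl

theorem bs_inj : Function.Injective (bs : (Q → D) → RegularWreathProduct D Q) :=
  fun _ _ h => congrArg RegularWreathProduct.left h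

theorem conj_bs (q : Q) (f : Q → D) :
    inl q * bs f * (inl q)⁻¹ = bs (fun x => f (q⁻¹ * x)) := by
  ext <;> simp

theorem wr_der (hQ : ∀ a b : Q, a * b = b * a) (n : ℕ) :
    derivedSeries (RegularWreathProduct D Q) (n + 1) ≤
      (Subgroup.pi Set.univ fun _ : Q => derivedSeries D n).map bs := by
  induction n with
  | zero =>
    rw [derivedSeries_succ, Subgroup.commutator_le]
    rintro x - y -
    refine ⟨(⁅x, y⁆).left, fun _ _ => trivial, ?_⟩
    ext
    · rfl
    · simp [commutatorElement_def, hQ x.right y.right]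
  | succ n ih =>
    rw [derivedSeries_succ, Subgroup.commutator_le]
    intro x hx y hy
    obtain ⟨f, hf, rfl⟩ := ih hx
    obtain ⟨g, hg, rfl⟩ := ih hy
    refine ⟨⁅f, g⁆, fun q _ => ?_, by simp [commutatorElement_def]⟩
    exact Subgroup.commutator_mem_commutator (hf q trivial) (hg q trivial)

theorem wr_bot (hQ : ∀ a b : Q, a * b = b * a) (n : ℕ) (h : derivedSeries D n = ⊥) :
    derivedSeries (RegularWreathProduct D Q) (n + 1) = ⊥ := by
  rw [eq_bot_iff]
  intro x hx
  obtain ⟨f, hf, rfl⟩ := wr_der hQ n hx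
  have : f = 1 := funext fun q => by
    have := hf q trivial
    rw [h] at this
    exact this
  rw [this, map_one]
  exact Subgroup.one_mem _

end wr

theorem map_der {G H : Type*} [Group G] [Group H] (f : G →* H) (hf : ∀ g, f g ∈ commutator H)
    (n : ℕ) : (derivedSeries G n).map f ≤ derivedSeries H (n + 1) := by
  induction n with
  | zero =>
    rintro _ ⟨g, -, rfl⟩
    exact hf g
  | succ n ih =>
    rw [derivedSeries_succ G, derivedSeries_succ H (n + 1), Subgroup.map_commutator]
    exact Subgroup.commutator_mono ih ih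

theorem kk {G C : Type*} [Group G] [CommGroup C] (π : G →* C) :
    ∃ β : G → C → π.ker, (∀ g h a, β (g * h) a = β g a * β h ((π g)⁻¹ * a)) ∧
      ∀ g, π g = 1 → β g 1 = 1 → g = 1 := by
  classical
  let γ : C → G := Function.invFun π
  have hγ : ∀ a ∈ π.range, π (γ a) = a := fun a ha => Function.invFun_eq ha
  have hr : ∀ g a, (π g)⁻¹ * a ∈ π.range ↔ a ∈ π.range := fun g a =>
    Subgroup.mul_mem_cancel_left _ (Subgroup.inv_mem _ ⟨g, rfl⟩)
  refine ⟨fun g a => if h : a ∈ π.range then ⟨(γ a)⁻¹ * g * γ ((π g)⁻¹ * a), by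
    rw [MonoidHom.mem_ker, map_mul, map_mul, map_inv, hγ a h, hγ _ ((hr g a).2 h)]
    simp [mul_assoc]⟩ else 1, ?_, ?_⟩
  · intro g h a
    beta_reduce
    by_cases ha : a ∈ π.range
    · rw [dif_pos ha, dif_pos ha, dif_pos ((hr g a).2 ha)]
      apply Subtype.ext
      simp [mul_assoc]
    · rw [dif_neg ha, dif_neg ha, dif_neg (mt (hr g a).1 ha), one_mul]
  · intro g h1 h2
    simp only [dif_pos π.range.one_mem, h1, inv_one, one_mul] at h2
    have := congrArg Subtype.val h2
    simp only [OneMemClass.coe_one] at this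
    have h3 : g = γ 1 * ((γ 1)⁻¹ * g * γ 1) * (γ 1)⁻¹ := by group
    rw [h3, this]
    group

theorem stage {G : Type u} {C : Type} [Group G] [CommGroup C] (π : G →* C) (n : ℕ)
    (hn : derivedSeries π.ker n = ⊥) :
    ∃ (K : Type u) (_ : Group K) (α : C →* K) (κ : G →* K) (φ : G → K) (s : K),
      derivedSeries K (n + 1) = ⊥ ∧ Function.Injective κ ∧ ∀ g, κ g = ⁅φ g, s⁆ * α (π g) := by
  obtain ⟨β, hβ, hβ1⟩ := kk π
  let K := RegularWreathProduct π.ker (C × Multiplicative ℤ)
  let α : C →* K := inl.comp (MonoidHom.inl C (Multiplicative ℤ))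
  let ψ : G → K := fun g => bs fun x => if x.2.toAdd = 0 then β g x.1 else 1
  refine ⟨K, inferInstance, α, MonoidHom.mk' (fun g => ψ g * α (π g)) ?_,
    fun g => bs fun x => if 0 ≤ x.2.toAdd then β g x.1 else 1, inl (1, ofAdd 1),
    wr_bot mul_comm n hn, ?_, ?_⟩
  · intro g h
    ext x
    · by_cases hx : x.2 = 1 <;> simp [ψ, α, K, hx, hβ]
    · simp [ψ, α, K]
    · simp [ψ, α, K]
  · rw [injective_iff_map_eq_one]
    intro g hg
    have h1 := congrArg (fun z : K => z.right.1) hg
    have h2 := congrArg (fun z : K => z.left 1) hg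
    simp [ψ, α, K] at h1 h2
    exact hβ1 g h1 h2
  · intro g
    change ψ g * _ = _
    congr 1
    rw [commutatorElement_def, mul_assoc, mul_assoc, ← mul_assoc (inl _), ← map_inv, conj_bs,
      ← map_mul]
    refine congrArg bs ?_
    funext x
    rcases lt_trichotomy x.2.toAdd 0 with h | h | h
    · simp [h.ne, not_le.2 h, show ¬ (1 : ℤ) ≤ x.2.toAdd by omega]
    · simp [h]
    · simp [h.ne', h.le, show (1 : ℤ) ≤ x.2.toAdd by omega]

theorem zmod_emb (q m : ℕ) (hm : m ≠ 0) (h : q ∣ m) :
    ∃ f : ZMod q →+ ZMod m, Function.Injective f := by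
  obtain ⟨k, rfl⟩ := h
  refine ⟨ZMod.lift q ⟨zmultiplesHom _ (k : ZMod (q * k)), ?_⟩, (ZMod.lift_injective _).2 ?_⟩
  · simp only [zmultiplesHom_apply, natCast_zsmul, nsmul_eq_mul]
    rw [← Nat.cast_mul, ZMod.natCast_self]
  · intro z hz
    simp only [zmultiplesHom_apply, zsmul_eq_mul] at hz
    have : ((z * k : ℤ) : ZMod (q * k)) = 0 := by push_cast; exact hz
    rw [ZMod.intCast_zmod_eq_zero_iff_dvd] at this ⊢
    push_cast at this
    exact (mul_dvd_mul_iff_right (by exact_mod_cast right_ne_zero_of_mul hm)).1 this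

theorem ab_add (B : Type u) [AddCommGroup B] [AddGroup.FG B] :
    ∃ (A : Type) (_ : AddCommGroup A) (J : Type) (_ : Finite J) (T : J → Prop) (m : ℤ) (e : J → A)
      (f : B →+ A), Function.Injective f ∧ (∀ j, T j → m • e j = 0) ∧
      AddSubgroup.closure (Set.range e) = ⊤ ∧
      ∀ (E : Type) [AddCommGroup E] (v : J → E), (∀ j, T j → m • v j = 0) →
        ∃ U : A →+ E, ∀ j, U (e j) = v j := by
  classical
  obtain ⟨n, ι, _, p, hp, k, ⟨f⟩⟩ := AddCommGroup.equiv_free_prod_directSum_zmod B
  let m := ∏ i, p i ^ k i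
  have hm : m ≠ 0 := Finset.prod_ne_zero_iff.2 fun i _ => pow_ne_zero _ (hp i).ne_zero
  choose em hem using fun i => zmod_emb (p i ^ k i) m hm
    (Finset.dvd_prod_of_mem _ (Finset.mem_univ i))
  let g : (DirectSum ι fun i => ZMod (p i ^ k i)) →+ (ι →₀ ZMod m) :=
    Finsupp.addEquivFunOnFinite.symm.toAddMonoidHom.comp
      (AddMonoidHom.pi fun i => (em i).comp (DFinsupp.evalAddMonoidHom i))
  have hg : Function.Injective g := by
    intro x y h
    have := Finsupp.addEquivFunOnFinite.symm.injective h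
    exact DFinsupp.ext fun i => hem i (congrFun this i)
  refine ⟨(Fin n →₀ ℤ) × (ι →₀ ZMod m), inferInstance, Fin n ⊕ ι, inferInstance,
    fun j => j.isRight, m,
    Sum.elim (fun j => (Finsupp.single j 1, 0)) (fun j => (0, Finsupp.single j 1)),
    ((AddMonoidHom.id _).prodMap g).comp f.toAddMonoidHom,
    (Function.injective_id.prodMap hg).comp f.injective, ?_, ?_, ?_⟩
  · rintro (j | j) h
    · simp at h
    · simp
  · rw [eq_top_iff]
    rintro ⟨x, y⟩ -
    rw [show (x, y) = (x, 0) + (0, y) by simp]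
    refine AddSubgroup.add_mem _ ?_ ?_
    · induction x using Finsupp.induction_linear with
      | zero => exact AddSubgroup.zero_mem _
      | add a b ha hb => simpa using AddSubgroup.add_mem _ ha hb
      | single a b =>
        have := AddSubgroup.zsmul_mem _ (AddSubgroup.subset_closure (k := Set.range (Sum.elim
          (fun j => (Finsupp.single j (1 : ℤ), (0 : ι →₀ ZMod m)))
          (fun j => ((0 : Fin n →₀ ℤ), Finsupp.single j 1)))) ⟨Sum.inl a, rfl⟩) b
        simpa using this
    · induction y using Finsupp.induction_linear with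
      | zero => exact AddSubgroup.zero_mem _
      | add a b ha hb => simpa using AddSubgroup.add_mem _ ha hb
      | single a b =>
        obtain ⟨b, rfl⟩ := ZMod.intCast_surjective b
        have := AddSubgroup.zsmul_mem _ (AddSubgroup.subset_closure (k := Set.range (Sum.elim
          (fun j => (Finsupp.single j (1 : ℤ), (0 : ι →₀ ZMod m)))
          (fun j => ((0 : Fin n →₀ ℤ), Finsupp.single j 1)))) ⟨Sum.inr a, rfl⟩) b
        simpa using this
  · intro E _ v hv
    refine ⟨(Finsupp.liftAddHom fun j => zmultiplesHom E (v (.inl j))).coprod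
      (Finsupp.liftAddHom fun j => ZMod.lift m ⟨zmultiplesHom E (v (.inr j)), hv _ rfl⟩), ?_⟩
    rintro (j | j)
    · simp
    · have := ZMod.lift_coe m ⟨zmultiplesHom E (v (.inr j)), hv _ rfl⟩ 1
      simpa using this

theorem ab_mul (G : Type u) [Group G] [Group.FG G] :
    ∃ (C : Type) (_ : CommGroup C) (J : Type) (_ : Finite J) (T : J → Prop) (m : ℤ) (e : J → C)
      (π : G →* C), π.ker ≤ commutator G ∧ (∀ j, T j → e j ^ m = 1) ∧
      Subgroup.closure (Set.range e) = ⊤ ∧
      ∀ (E : Type) [CommGroup E] (v : J → E), (∀ j, T j → v j ^ m = 1) →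
        ∃ U : C →* E, ∀ j, U (e j) = v j := by
  have : Group.FG (Abelianization G) :=
    Group.fg_of_surjective (f := Abelianization.of) (QuotientGroup.mk'_surjective _)
  obtain ⟨A, _, J, _, T, m, e, f, h1, h2, h3, h4⟩ := ab_add (Additive (Abelianization G))
  refine ⟨Multiplicative A, inferInstance, J, inferInstance, T, m, fun j => ofAdd (e j),
    MonoidHom.mk' (fun g => ofAdd (f (Additive.ofMul (Abelianization.of g)))) (by simp), ?_,
    fun j h => congrArg ofAdd (h2 j h), ?_, ?_⟩
  · intro g hg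
    rw [← Abelianization.ker_of]
    have : f (Additive.ofMul (Abelianization.of g)) = f 0 := by
      rw [map_zero]; exact hg
    exact h1 this
  · rw [eq_top_iff]
    rintro a -
    have : a.toAdd ∈ AddSubgroup.closure (Set.range e) := by rw [h3]; trivial
    change ofAdd a.toAdd ∈ _
    generalize a.toAdd = b at this
    induction this using AddSubgroup.closure_induction with
    | mem x hx => obtain ⟨j, rfl⟩ := hx; exact Subgroup.subset_closure ⟨j, rfl⟩
    | zero => exact Subgroup.one_mem _
    | add x y _ _ hx hy => exact Subgroup.mul_mem _ hx hy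
    | neg x _ hx => exact Subgroup.inv_mem _ hx
  · intro E _ v hv
    obtain ⟨U, hU⟩ := h4 (Additive E) (fun j => Additive.ofMul (v j)) fun j h => hv j h
    exact ⟨MonoidHom.mk' (fun a => (U a.toAdd).toMul) (by simp), fun j => hU j⟩

end Pool.Agent.H21.Emb
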