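import Mathlib
import Pool.Agent.H21.Emb1

namespace Pool.Agent.H21.Emb

open Multiplicative commutatorElement RegularWreathProduct

universe u

theorem golomb (X : Type*) [Finite X] : ∃ (M : ℤ) (r : X → ℤ), M ≠ 0 ∧
    ∀ a b c d, M ∣ r a + r d - r b - r c → a = b ∨ a = c := by
  obtain ⟨n, ⟨e⟩⟩ := Finite.exists_equiv_fin X
  let k : X → ℤ := fun x => (e x : ℕ)
  have h0 : ∀ x, 0 ≤ k x := fun x => Int.natCast_nonneg _
  have h1 : ∀ x, k x ≤ n := fun x => by
    simp only [k]; exact_mod_cast (e x).2.le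
  have hk : ∀ x y, k x = k y → x = y := fun x y h =>
    e.injective (Fin.ext (by simp only [k] at h; exact_mod_cast h))
  have h2 : ∀ x, (2 * n + 1) * k x ^ 2 ≤ (2 * n + 1) * n ^ 2 := fun x =>
    mul_le_mul_of_nonneg_left (pow_le_pow_left₀ (h0 x) (h1 x) 2) (by positivity)
  have h3 : ∀ x, 0 ≤ (2 * n + 1) * k x ^ 2 := fun x => by positivity
  refine ⟨2 * (n + (2 * n + 1) * n ^ 2) + 1, fun x => k x + (2 * n + 1) * k x ^ 2, by positivity,
    fun a b c d h => ?_⟩
  have h4 := Int.eq_zero_of_abs_lt_dvd h (abs_lt.2 ⟨by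
    linarith [h0 a, h0 d, h1 b, h1 c, h2 b, h2 c, h3 a, h3 d], by
    linarith [h0 b, h0 c, h1 a, h1 d, h2 a, h2 d, h3 b, h3 c]⟩)
  have h5 : k a + k d - k b - k c = 0 :=
    Int.eq_zero_of_abs_lt_dvd (m := 2 * n + 1)
      ⟨-(k a ^ 2 + k d ^ 2 - k b ^ 2 - k c ^ 2), by linarith⟩
      (abs_lt.2 ⟨by linarith [h0 a, h0 d, h1 b, h1 c], by linarith [h0 b, h0 c, h1 a, h1 d]⟩)
  have h6 : (2 * n + 1 : ℤ) * (k a ^ 2 + k d ^ 2 - k b ^ 2 - k c ^ 2) = 0 := by linarith
  have h7 := (mul_eq_zero.1 h6).resolve_left (by positivity)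
  have h8 : (k a - k b) * (k a - k c) = 0 := by
    have : k d = k b + k c - k a := by linarith
    rw [this] at h7
    linarith
  rcases mul_eq_zero.1 h8 with h | h
  · exact .inl (hk _ _ (by linarith))
  · exact .inr (hk _ _ (by linarith))

theorem ext_fun {X Y : Type*} [One Y] {M : ℤ} {r : X → ℤ} (hM : M ≠ 0)
    (hr : ∀ a b c d, M ∣ r a + r d - r b - r c → a = b ∨ a = c) (val : X → ℤ → Y) :
    ∃ f : ℤ → Y, (∀ x q, f (r x + M * q) = val x q) ∧ ∀ c, (∀ x, ¬M ∣ c - r x) → f c = 1 := by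
  have hi : Function.Injective fun p : X × ℤ => r p.1 + M * p.2 := by
    rintro ⟨x, q⟩ ⟨y, q'⟩ h
    simp only at h
    have : x = y := (hr x y y y ⟨q' - q, by linarith⟩).elim id id
    subst this
    exact Prod.ext rfl (mul_left_cancel₀ hM (by linarith))
  refine ⟨Function.extend _ (fun p : X × ℤ => val p.1 p.2) 1, fun x q => hi.extend_apply _ _ (x, q),
    fun c hc => Function.extend_apply' _ _ _ ?_⟩
  rintro ⟨⟨x, q⟩, h⟩
  exact hc x ⟨q, by simp only at h; linarith⟩

def sh {K : Type*} (k : ℤ) (f : ℤ → K) : ℤ → K := fun c => f (c + k)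

theorem tri (q : ℤ) : q * (q - 1) / 2 - (q + 1) * (q + 1 - 1) / 2 = -q := by
  rw [show (q + 1) * (q + 1 - 1) = q * (q - 1) + q * 2 by ring, Int.add_mul_ediv_right _ _ two_ne_zero]
  ring

theorem core {G K C J I : Type*} [Group G] [Group K] [CommGroup C] [Finite J] [Finite I]
    (T : J → Prop) (m : ℤ) (e : J → C) (π : G →* C) (he : ∀ j, T j → e j ^ m = 1)
    (hgen : Subgroup.closure (Set.range e) = ⊤)
    (huniv : ∀ v : J → ℤ → C, (∀ j, T j → v j ^ m = 1) → ∃ U : C →* ℤ → C, ∀ j, U (e j) = v j)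
    (α : C →* K) (κ : G →* K) (hκ : Function.Injective κ) (g : I → G)
    (hg : Subgroup.closure (Set.range g) = ⊤) (φ : I → K) (s : K)
    (hφ : ∀ i, κ (g i) = ⁅φ i, s⁆ * α (π (g i))) :
    ∃ (f : ℤ → K) (ι : G →* ℤ → K), Function.Injective ι ∧ ∀ S S' : Subgroup (ℤ → K), f ∈ S →
      (∀ a ∈ S, ∀ k, sh k a ∈ S) → (∀ a ∈ S, ∀ k, a * (sh k a)⁻¹ ∈ S') →
      (∀ a ∈ S, ∀ b ∈ S, ⁅a, b⁆ ∈ S') → ∀ x, ι x ∈ S' := by
  classical
  obtain ⟨M, r, hM, hr⟩ := golomb (J ⊕ Option I)
  obtain ⟨f, hf, hf'⟩ := ext_fun hM hr (Sum.elim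
    (fun j q => α (e j ^ if T j then q * (q - 1) / 2 else -q)) fun o _ => o.elim s φ)
  obtain ⟨v, hv, hv'⟩ := ext_fun hM hr (Sum.elim
    (fun j q => e j ^ if T j then -q else 1) fun _ _ => 1)
  obtain ⟨w, hw, hw'⟩ := ext_fun hM hr (Sum.elim (fun j _ => if T j then e j else 1) fun _ _ => 1)
  have hc : ∀ c, (∃ x q, c = r x + M * q ∧ c + M = r x + M * (q + 1)) ∨
      ((∀ x, ¬M ∣ c - r x) ∧ ∀ x, ¬M ∣ c + M - r x) := by
    intro c
    by_cases h : ∃ x, M ∣ c - r x
    · obtain ⟨x, q, h⟩ := h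
      exact .inl ⟨x, q, by linarith, by linarith⟩
    · push Not at h
      refine .inr ⟨h, fun x ⟨q, hq⟩ => h x ⟨q - 1, by linarith⟩⟩
  have d1 : f * (sh M f)⁻¹ = α.compLeft ℤ v := by
    funext c
    change f c * (f (c + M))⁻¹ = α (v c)
    rcases hc c with ⟨x, q, h1, h2⟩ | ⟨h1, h2⟩
    · rw [h2, h1, hf, hf, hv]
      rcases x with j | o
      · simp only [Sum.elim_inl]
        rw [← map_inv, ← map_mul, ← zpow_sub]
        split_ifs
        · rw [tri]
        · congr 2; ring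
      · simp
    · simp [hf' _ h1, hf' _ h2, hv' _ h1]
  have d2 : α.compLeft ℤ v * (sh M (α.compLeft ℤ v))⁻¹ = α.compLeft ℤ w := by
    funext c
    change α (v c) * (α (v (c + M)))⁻¹ = α (w c)
    rw [← map_inv, ← map_mul]
    congr 1
    rcases hc c with ⟨x, q, h1, h2⟩ | ⟨h1, h2⟩
    · rw [h2, h1, hv, hv, hw]
      rcases x with j | o
      · simp only [Sum.elim_inl]
        rw [← zpow_sub]
        split_ifs <;> simp
      · simp
    · simp [hv' _ h1, hv' _ h2, hw' _ h1]
  obtain ⟨U, hU⟩ := huniv (fun j => sh (r (.inl j)) (if T j then w else v)) (by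
    intro j hj
    funext c
    simp only [if_pos hj, Pi.pow_apply, sh, Pi.one_apply]
    rcases hc (c + r (.inl j)) with ⟨x, q, h1, -⟩ | ⟨h1, -⟩
    · rw [h1, hw]
      rcases x with j | o
      · simp only [Sum.elim_inl]
        split_ifs with h
        · exact he j h
        · simp
      · simp
    · simp [hw' _ h1])
  have hU0 : ∀ q a, U a (M * q) = a := fun q a => by
    have : (Pi.evalMonoidHom (fun _ => C) (M * q)).comp U = MonoidHom.id C := by
      refine MonoidHom.eq_of_eqOn_dense hgen ?_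
      rintro _ ⟨j, rfl⟩
      change U (e j) (M * q) = e j
      rw [hU, sh, add_comm]
      split_ifs with h
      · rw [hw]; simp [h]
      · rw [hv]; simp [h]
    exact DFunLike.congr_fun this a
  refine ⟨f, MonoidHom.mk' (fun x c => if M ∣ c then κ x else α (U (π x) c)) ?_, ?_, ?_⟩
  · intro x y
    funext c
    by_cases h : M ∣ c <;> simp [h]
  · intro x y h
    apply hκ
    simpa using congrFun h 0
  intro S S' h1 h2 h3 h4
  have h5 : ∀ a ∈ S, ∀ k, sh k (a * (sh M a)⁻¹) ∈ S' := fun a ha k => by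
    convert h3 _ (h2 a ha k) M using 1
    funext c
    simp [sh, add_right_comm]
  have h6 : ∀ a, α.compLeft ℤ (U a) ∈ S' := fun a => by
    have : Subgroup.closure (Set.range e) ≤ S'.comap ((α.compLeft ℤ).comp U) := by
      rw [Subgroup.closure_le]
      rintro _ ⟨j, rfl⟩
      change α.compLeft ℤ (U (e j)) ∈ S'
      rw [hU]
      split_ifs
      · have := h5 _ (S.mul_mem h1 (S.inv_mem (h2 f h1 M))) (r (.inl j))
        rwa [d1, d2] at this
      · have := h5 _ h1 (r (.inl j))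
        rwa [d1] at this
    exact this (by rw [hgen]; trivial)
  intro x
  have : Subgroup.closure (Set.range g) ≤ S'.comap (MonoidHom.mk' (M := G) (G := ℤ → K)
      (fun x c => if M ∣ c then κ x else α (U (π x) c)) (by
        intro x y
        funext c
        by_cases h : M ∣ c <;> simp [h])) := by
    rw [Subgroup.closure_le]
    rintro _ ⟨i, rfl⟩
    convert S'.mul_mem (h4 _ (h2 f h1 (r (.inr (some i)))) _ (h2 f h1 (r (.inr none))))
      (h6 (π (g i))) using 1
    change _ ∈ S' ↔ _ ∈ S'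
    refine iff_of_eq (congrArg (· ∈ S') ?_)
    funext c
    change (if M ∣ c then κ (g i) else α (U (π (g i)) c)) =
      ⁅f (c + r (.inr (some i))), f (c + r (.inr none))⁆ * α (U (π (g i)) c)
    split_ifs with h
    · obtain ⟨q, rfl⟩ := h
      rw [hU0, add_comm, add_comm (M * q), hf, hf, hφ]
      rfl
    · rcases hc (c + r (.inr (some i))) with ⟨x, q, h7, -⟩ | ⟨h7, -⟩
      · rcases hc (c + r (.inr none)) with ⟨y, q', h8, -⟩ | ⟨h8, -⟩
        · rcases hr (.inr (some i)) (.inr none) x y ⟨q - q', by linarith⟩ with h9 | h9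
          · simp at h9
          · subst h9
            exact absurd ⟨q, by linarith⟩ h
        · simp [hf' _ h8]
      · simp [hf' _ h7]
  exact this (by rw [hg]; trivial)

theorem two_gen {G K : Type u} [Group G] [Group K] (n : ℕ) (hn : derivedSeries K n = ⊥)
    (f : ℤ → K) (ι : G →* ℤ → K) (hι : Function.Injective ι)
    (h : ∀ S S' : Subgroup (ℤ → K), f ∈ S →
      (∀ a ∈ S, ∀ k, sh k a ∈ S) → (∀ a ∈ S, ∀ k, a * (sh k a)⁻¹ ∈ S') →
      (∀ a ∈ S, ∀ b ∈ S, ⁅a, b⁆ ∈ S') → ∀ x, ι x ∈ S') :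
    ∃ (H : Type u) (_ : Group H) (x y : H) (j : G →* H), Subgroup.closure {x, y} = ⊤ ∧
      derivedSeries H (n + 1) = ⊥ ∧ Function.Injective j ∧ ∀ g, j g ∈ commutator H := by
  let P := RegularWreathProduct K (Multiplicative ℤ)
  let F : (ℤ → K) →* P := (bs (D := K) (Q := Multiplicative ℤ)).comp
    (MonoidHom.mk' (fun a c => a c.toAdd) fun _ _ => rfl)
  let t : P := inl (ofAdd 1)
  let H : Subgroup P := Subgroup.closure {F f, t}
  have ht : ∀ k : ℤ, (inl (ofAdd k) : P) ∈ H := fun k => by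
    have := H.zpow_mem (Subgroup.subset_closure (by simp) : t ∈ H) k
    rw [← map_zpow, ← ofAdd_zsmul] at this
    simpa using this
  have hs : ∀ a k, F (sh k a) = inl (ofAdd (-k)) * F a * (inl (ofAdd (-k)))⁻¹ := fun a k => by
    refine Eq.trans ?_ (conj_bs (ofAdd (-k)) fun c => a c.toAdd).symm
    refine congrArg (bs (D := K) (Q := Multiplicative ℤ)) (funext fun c : Multiplicative ℤ => ?_)
    change a (c.toAdd + k) = a (- -k + c.toAdd)
    rw [neg_neg, add_comm]
  have key := h (H.comap F) (Subgroup.comap F ⁅H, H⁆) (Subgroup.subset_closure (by simp))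
    (fun a ha k => by
      rw [Subgroup.mem_comap, hs]
      exact H.mul_mem (H.mul_mem (ht _) ha) (H.inv_mem (ht _)))
    (fun a ha k => by
      rw [Subgroup.mem_comap, map_mul, map_inv, hs]
      convert Subgroup.commutator_mem_commutator (H₁ := H) (g₁ := F a) ha (ht (-k)) using 1
      rw [commutatorElement_def]
      group)
    (fun a ha b hb => by
      rw [Subgroup.mem_comap, map_commutatorElement]
      exact Subgroup.commutator_mem_commutator ha hb)
  have hH : (commutator H).map H.subtype = ⁅H, H⁆ := by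
    rw [commutator_def, Subgroup.map_commutator, ← MonoidHom.range_eq_map, Subgroup.range_subtype]
  refine ⟨H, inferInstance, ⟨F f, Subgroup.subset_closure (by simp)⟩,
    ⟨t, Subgroup.subset_closure (by simp)⟩,
    (F.comp ι).codRestrict H fun g => (hH ▸ Subgroup.map_subtype_le _ : ⁅H, H⁆ ≤ H) (key g), ?_, ?_, ?_, ?_⟩
  · convert Subgroup.closure_closure_coe_preimage (k := {F f, t}) using 2
    ext z
    simp [Subtype.ext_iff]
  · rw [← Subgroup.map_eq_bot_iff_of_injective _ H.subtype_injective, eq_bot_iff,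
      ← wr_bot mul_comm n hn]
    exact map_derivedSeries_le_derivedSeries _ _
  · intro x y hxy
    have := bs_inj (congrArg Subtype.val hxy)
    exact hι (funext fun c => congrFun this (ofAdd c))
  · intro g
    have := key g
    rw [Subgroup.mem_comap, ← hH] at this
    obtain ⟨z, hz, h'⟩ := this
    rw [show (F.comp ι).codRestrict H _ g = z from Subtype.ext h'.symm]
    exact hz

theorem main (n : ℕ) (G : Type u) [Group G] [Group.FG G] (h : derivedSeries G (n + 1) = ⊥) :
    ∃ (H : Type u) (_ : Group H) (x y : H) (j : G →* H), Subgroup.closure {x, y} = ⊤ ∧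
      derivedSeries H (n + 1 + 1) = ⊥ ∧ Function.Injective j ∧ ∀ g, j g ∈ commutator H := by
  obtain ⟨C, _, J, _, T, m, e, π, h1, h2, h3, h4⟩ := ab_mul G
  obtain ⟨K, _, α, κ, φ, s, h5, h6, h7⟩ := stage π n (by
    rw [← Subgroup.map_eq_bot_iff_of_injective _ π.ker.subtype_injective, eq_bot_iff, ← h]
    exact map_der _ (fun g => h1 g.2) n)
  obtain ⟨S, hS⟩ := Group.fg_def.1 (inferInstance : Group.FG G)
  obtain ⟨f, ι, h8, h9⟩ := core T m e π h2 h3 (h4 _) α κ h6 (Subtype.val : S → G)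
    (by simpa using hS) (fun i => φ i) s fun i => h7 i
  exact two_gen _ h5 f ι h8 h9

end Pool.Agent.H21.Emb
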