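import Mathlib

namespace Pool.Agent.H21.Eqs

open Finset

variable {α ι : Type} [DecidableEq α] [DecidableEq ι]

lemma wt_eq {V T : Finset α} {I : Finset ι} {st : ι → Finset α} (hst : ∀ i ∈ I, st i ⊆ V)
    (hT : T ⊆ V) {l : ι → ℚ} (h1 : ∑ i ∈ I, l i = 1)
    (h2 : ∀ e ∈ V, ∑ i ∈ I with e ∈ st i, l i = if e ∈ T then 1 else 0) {w : α → ℕ} {t : ℕ}
    (h0 : ∀ i ∈ I, ∑ e ∈ st i, w e = t) : ∑ e ∈ T, w e = t := by
  have : ∑ e ∈ T, (w e : ℚ) = ∑ e ∈ V, w e * ∑ i ∈ I with e ∈ st i, l i := by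
    rw [sum_congr rfl fun e he => congrArg ((w e : ℚ) * ·) (h2 e he)]
    simp [sum_ite_mem, inter_eq_right.2 hT]
  have h3 : ∑ e ∈ V, w e * ∑ i ∈ I with e ∈ st i, l i = ∑ i ∈ I, l i * t := by
    simp only [sum_filter, mul_sum]
    rw [sum_comm]
    refine sum_congr rfl fun i hi => ?_
    rw [← h0 i hi]
    simp [sum_ite_mem, inter_eq_right.2 (hst i hi), mul_sum, mul_comm]
  rw [h3, ← sum_mul, h1, one_mul] at this
  exact_mod_cast this

def fn (T : Finset α) : ((α → ℚ) × ℚ) →ₗ[ℚ] ℚ where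
  toFun z := ∑ e ∈ T, z.1 e - z.2
  map_add' x y := by simp [sum_add_distrib]; ring
  map_smul' c x := by simp [mul_sum, mul_sub]

theorem lemB {V : Finset α} {I : Finset ι} {st : ι → Finset α} (hst : ∀ i ∈ I, st i ⊆ V)
    {i0 : ι} (hI : i0 ∈ I) {w0 : α → ℕ} {t0 : ℕ} (ht0 : 0 < t0) (hw : ∀ e ∈ V, 0 < w0 e)
    (h0 : ∀ i ∈ I, ∑ e ∈ st i, w0 e = t0)
    (H : ∀ T ⊆ V, ∀ l : ι → ℚ, ∑ i ∈ I, l i = 1 →
      (∀ e ∈ V, ∑ i ∈ I with e ∈ st i, l i = if e ∈ T then 1 else 0) → ∃ i ∈ I, T = st i) :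
    ∃ t : ℕ, 0 < t ∧ ∃ w : α → ℕ, ∀ S ⊆ V, ((∃ i ∈ I, S = st i) ↔ ∑ v ∈ S, w v = t) := by
  classical
  obtain ⟨z, hz, hn⟩ := Module.Dual.exists_forall_mem_ne_zero_of_forall_exists
    (⨅ i : I, LinearMap.ker (fn (st i)))
    (fun T : (V.powerset.filter fun T => ¬ ∃ i ∈ I, T = st i) => fn T.1) fun T => by
      by_contra! c
      obtain ⟨l, hl⟩ := (Submodule.mem_span_range_iff_exists_fun ℚ).1
        (mem_span_of_iInf_ker_le_ker (L := fun i : I => fn (st i)) (K := fn T.1) fun x hx => c x hx)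
      have hT := mem_filter.1 T.2
      refine hT.2 (H _ (mem_powerset.1 hT.1) (fun i => if h : i ∈ I then l ⟨i, h⟩ else 0) ?_ ?_)
      · have := congr($hl (0, 1))
        simp [fn] at this
        rw [← sum_attach]; simpa using this
      · intro e he
        have := congr($hl (Pi.single e 1, 0))
        simp [fn, Pi.single_apply] at this
        rw [sum_filter, ← sum_attach]; simpa using this
  simp only [Submodule.mem_iInf, LinearMap.mem_ker, Subtype.forall, mem_filter, mem_powerset,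
    fn, LinearMap.coe_mk, AddHom.coe_mk, and_imp] at hz hn
  obtain ⟨⟨b, hb⟩, hy⟩ := IsLocalization.exist_integer_multiples (nonZeroDivisors ℤ) V z.1
  have hb : (b : ℚ) ≠ 0 := by exact_mod_cast nonZeroDivisors.ne_zero hb
  choose! y hy using hy
  simp only [eq_intCast, zsmul_eq_mul] at hy
  set B := ∑ e ∈ V, |y e|
  have hB (T) (hT : T ⊆ V) : |∑ e ∈ T, y e| ≤ B :=
    (abs_sum_le_sum_abs _ _).trans (sum_le_sum_of_subset_of_nonneg hT fun _ _ _ => abs_nonneg _)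
  have hc (T) (hT : T ⊆ V) : ((∑ e ∈ T, y e : ℤ) : ℚ) = b * ∑ e ∈ T, z.1 e := by
    rw [mul_sum, Int.cast_sum]; exact sum_congr rfl fun e he => hy e (hT he)
  set s := ∑ e ∈ st i0, y e with hs
  have hs' : (s : ℚ) = b * z.2 := by rw [hc _ (hst _ hI), sub_eq_zero.1 (hz _ hI)]
  have hsB := abs_le.1 (hB _ (hst _ hI))
  have B0 : 0 ≤ B := sum_nonneg fun _ _ => abs_nonneg _
  have key (T) (hT : T ⊆ V) : ((∑ e ∈ T, ((2 * B + 1) * w0 e + y e).toNat : ℕ) : ℤ) =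
      (2 * B + 1) * (∑ e ∈ T, w0 e : ℕ) + ∑ e ∈ T, y e := by
    simp only [Nat.cast_sum, mul_sum, ← sum_add_distrib]
    refine sum_congr rfl fun e he => Int.toNat_of_nonneg ?_
    have := abs_le.1 (hB {e} (by simpa using hT he))
    have : (1 : ℤ) ≤ w0 e := by exact_mod_cast hw e (hT he)
    simp only [sum_singleton] at *
    nlinarith
  have t1 : (1 : ℤ) ≤ t0 := by exact_mod_cast ht0
  refine ⟨((2 * B + 1) * t0 + s).toNat, by simp only [Int.lt_toNat]; simp; nlinarith,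
    fun e => ((2 * B + 1) * w0 e + y e).toNat, fun S hS => ?_⟩
  rw [← Nat.cast_inj (R := ℤ), key S hS, Int.toNat_of_nonneg (by nlinarith)]
  constructor
  · rintro ⟨i, hi, rfl⟩
    have : ((∑ e ∈ st i, y e : ℤ) : ℚ) = s := by rw [hc _ hS, hs', sub_eq_zero.1 (hz _ hi)]
    rw [h0 i hi, Int.cast_injective this]
  · intro h
    by_contra c
    have h1 := abs_le.1 (hB S hS)
    have : ((∑ e ∈ S, w0 e : ℕ) : ℤ) = t0 := by
      rcases lt_trichotomy ((∑ e ∈ S, w0 e : ℕ) : ℤ) t0 with a | a | a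
      · nlinarith
      · exact a
      · nlinarith
    rw [this, add_right_inj] at h
    refine hn S hS (by simpa using c) (mul_left_cancel₀ hb ?_)
    rw [mul_sub, ← hc S hS, h, hs', sub_self, mul_zero]

end Pool.Agent.H21.Eqs
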