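import Pool.Agent.H21.EqsDefs
import Pool.Agent.H21.Eqs1

namespace Pool.Agent.H21.Eqs

open Pool.Agent.H21.EqsDefs Finset

abbrev X := ℕ × ℕ × ℕ
def sz (Q S k s : ℕ) : ℕ := if k = Q ∧ s = 1 then S - 1 else S
def Il (Q S : ℕ) : List X := (List.range (Q + 1)).flatMap fun k => (List.range 2).flatMap fun s =>
  (List.range (sz Q S k s)).map fun a => (k, s, a)
def Vl (Q S : ℕ) : List X := (List.range (Q + 3)).flatMap fun x => (List.range S).flatMap fun a =>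
  (List.range (if x < 2 then 1 else sz Q S (x - 2) 1)).map fun b => (x, a, b)
def li (Q : ℕ) (ty : ℕ → Bool) (c : ℕ → ℕ → Bool) (i : X) : ℕ :=
  if i.1 < Q then (if i.2.1 = 1 ∧ c i.2.2 i.1 then 1 else 0) else if i.2.1 = 0 then 1
  else if ty i.2.2 then 0 else 2
def inc (Q : ℕ) (ty : ℕ → Bool) (c : ℕ → ℕ → Bool) (i e : X) : Bool :=
  if e.1 < 2 then decide (i.2.2 = e.2.1 ∧ e.1 = li Q ty c i)
  else decide (i.1 + 2 = e.1 ∧ i.2.2 = if i.2.1 = 0 then e.2.1 else e.2.2)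
def El (Q S : ℕ) (ty : ℕ → Bool) (c : ℕ → ℕ → Bool) : List (X × X) := (Vl Q S).flatMap fun u =>
  ((Vl Q S).filter fun v => decide (u ≠ v) && (Il Q S).all fun i =>
    !(inc Q ty c i u && inc Q ty c i v)).map (u, ·)
def star (Q S : ℕ) (ty : ℕ → Bool) (c : ℕ → ℕ → Bool) (i : X) : Finset X :=
  (Vl Q S).toFinset.filter fun e => inc Q ty c i e

variable {Q S : ℕ} {ty : ℕ → Bool} {c : ℕ → ℕ → Bool}

lemma mem_I {i : X} : i ∈ Il Q S ↔ i.1 ≤ Q ∧ i.2.1 < 2 ∧ i.2.2 < S ∧ (i.1 = Q → i.2.1 = 1 → i.2.2 + 1 < S) := by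
  simp only [Il, sz, List.mem_flatMap, List.mem_range, List.mem_map]; grind

lemma mem_V {e : X} : e ∈ Vl Q S ↔ e.1 < Q + 3 ∧ e.2.1 < S ∧ (e.1 < 2 → e.2.2 = 0) ∧
    (2 ≤ e.1 → e.2.2 < S) ∧ (2 ≤ e.1 → e.1 = Q + 2 → e.2.2 + 1 < S) := by
  simp only [Vl, sz, List.mem_flatMap, List.mem_range, List.mem_map]; grind

lemma mem_st {i e : X} : e ∈ star Q S ty c i ↔ e ∈ Vl Q S ∧
    (e.1 < 2 → i.2.2 = e.2.1 ∧ e.1 = li Q ty c i) ∧
    (2 ≤ e.1 → i.1 + 2 = e.1 ∧ (i.2.1 = 0 → i.2.2 = e.2.1) ∧ (i.2.1 ≠ 0 → i.2.2 = e.2.2)) := by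
  simp only [star, inc, mem_filter, List.mem_toFinset]; grind

lemma simple : Simple (Vl Q S) (El Q S ty c) := by
  refine ⟨?_, fun e he => by simp only [El, List.mem_flatMap, List.mem_map, List.mem_filter] at he; grind⟩
  simp only [Vl, List.nodup_flatMap, List.pairwise_iff_getElem, Function.onFun, List.disjoint_left,
    List.nodup_map_iff_inj_on List.nodup_range, List.mem_flatMap, List.mem_map]
  grind

lemma stable_iff {T : Finset X} (hT : T ⊆ (Vl Q S).toFinset) : Stable (El Q S ty c) T ↔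
    ∀ u ∈ T, ∀ v ∈ T, u ≠ v → ∃ i ∈ Il Q S, u ∈ star Q S ty c i ∧ v ∈ star Q S ty c i := by
  refine forall₄_congr fun u hu v hv => ?_
  have := hT hu; have := hT hv
  simp_all [El, star]

lemma helly (hQ : 0 < Q) (hS : 0 < S) {T : Finset X} (hT : T ⊆ (Vl Q S).toFinset)
    (h : Stable (El Q S ty c) T) : ∃ i ∈ Il Q S, T ⊆ star Q S ty c i := by
  rw [stable_iff hT] at h
  have hV {e} (he : e ∈ T) := List.mem_toFinset.1 (hT he)
  by_cases a : ∃ e ∈ T, 2 ≤ e.1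
  · obtain ⟨e, he, a⟩ := a
    have he' := mem_V.1 (hV he)
    by_contra! n
    obtain ⟨u, hu, hu'⟩ := not_subset.1 (n (e.1 - 2, 0, e.2.1) (by rw [mem_I]; grind))
    obtain ⟨v, hv, hv'⟩ := not_subset.1 (n (e.1 - 2, 1, e.2.2) (by rw [mem_I]; grind))
    obtain ⟨⟨k1, s1, a1⟩, i1, h1, h1'⟩ := h u hu e he (by rintro rfl; simp [mem_st, hV he] at hu'; omega)
    obtain ⟨⟨k2, s2, a2⟩, i2, h2, h2'⟩ := h v hv e he (by rintro rfl; simp [mem_st, hV he] at hv'; omega)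
    rw [mem_st] at h1' h2'
    rw [mem_I] at i1 i2
    obtain rfl : k1 = e.1 - 2 := by grind
    obtain rfl : k2 = e.1 - 2 := by grind
    obtain rfl : s1 = 1 := by grind
    obtain rfl : s2 = 0 := by grind
    obtain rfl : a1 = e.2.2 := by grind
    obtain rfl : a2 = e.2.1 := by grind
    have huv : u ≠ v := by grind
    obtain ⟨⟨k, s, a⟩, i, h3, h4⟩ := h u hu v hv huv
    have := mem_V.1 (hV hu); have := mem_V.1 (hV hv)
    rw [mem_I] at i
    have : (k, s, a) ≠ (e.1 - 2, 0, e.2.1) := by grind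
    have : (k, s, a) ≠ (e.1 - 2, 1, e.2.2) := by grind
    rw [mem_st] at h1 h2 h3 h4
    grind
  · rcases T.eq_empty_or_nonempty with rfl | ⟨e, he⟩
    · exact ⟨(0, 0, 0), by rw [mem_I]; grind, by simp⟩
    have he' := mem_V.1 (hV he)
    have : ∀ v ∈ T, v = e := fun v hv => by
      by_contra n
      obtain ⟨i, -, h1, h2⟩ := h v hv e he n
      have := mem_V.1 (hV hv)
      rw [mem_st] at h1 h2
      grind
    refine ⟨(if e.1 = 0 then 0 else Q, 0, e.2.1), by rw [mem_I]; grind, fun v hv => ?_⟩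
    rw [this v hv, mem_st, li]
    grind

lemma st_sub {i : X} : star Q S ty c i ⊆ (Vl Q S).toFinset := filter_subset _ _

lemma max_iff (hQ : 0 < Q) (hS : 3 < S) {T : Finset X} : MaxStable (Vl Q S) (El Q S ty c) T ↔
    ∃ i ∈ (Il Q S).toFinset, T = star Q S ty c i := by
  have st (i) (hi : i ∈ Il Q S) : Stable (El Q S ty c) (star Q S ty c i) :=
    (stable_iff st_sub).2 fun u hu v hv _ => ⟨i, hi, hu, hv⟩
  simp only [List.mem_toFinset]
  constructor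
  · rintro ⟨h1, h2, h3⟩
    obtain ⟨i, hi, h⟩ := helly hQ (by omega) h1 h2
    exact ⟨i, hi, (h3 _ st_sub (st i hi) h).symm⟩
  · rintro ⟨i, hi, rfl⟩
    refine ⟨st_sub, st i hi, fun T h1 h2 h3 => ?_⟩
    obtain ⟨j, hj, h⟩ := helly hQ (by omega) h1 h2
    have (b) (hb : b < 2) := mem_st.1 (h (h3 (mem_st.2 (?_ : (if i.2.1 = 0 then (i.1 + 2, i.2.2, b) else (i.1 + 2, b, i.2.2)) ∈ Vl Q S ∧ _))))
    · have h0 := this 0 (by omega); have h1 := this 1 (by omega)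
      rw [mem_I] at hi hj
      obtain rfl : i = j := by grind
      exact h.antisymm h3
    · rw [mem_I] at hi; rw [mem_V]; grind

end Pool.Agent.H21.Eqs
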