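import Pool.Agent.H21.Eqs2

namespace Pool.Agent.H21.Eqs

open Pool.Agent.H21.EqsDefs Finset

variable {Q S : ℕ} {ty : ℕ → Bool} {c : ℕ → ℕ → Bool}

lemma sum_I (f : X → ℚ) : ∑ i ∈ (Il Q S).toFinset, f i = ∑ k ∈ range Q,
    (∑ a ∈ range S, f (k, 0, a) + ∑ a ∈ range S, f (k, 1, a)) +
    (∑ a ∈ range S, f (Q, 0, a) + ∑ a ∈ range (S - 1), f (Q, 1, a)) := by
  have : (Il Q S).toFinset = (range (Q + 1) ×ˢ range 2 ×ˢ range S).filter
      fun i => i.2.2 < sz Q S i.1 i.2.1 := by
    ext i; simp only [List.mem_toFinset, mem_I, mem_filter, mem_product, mem_range, sz]; grind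
  have h : (range S).filter (· < S - 1) = range (S - 1) := by ext; simp; omega
  have h' : (range S).filter (· < S) = range S := by ext; simp
  rw [this, sum_filter, sum_product, sum_range_succ]
  simp only [sum_product, sum_range_succ, range_zero, sum_empty, zero_add, sz]
  congr 1
  · exact sum_congr rfl fun k hk => by simp [(mem_range.1 hk).ne, ← sum_filter, h']
  · simp [← sum_filter, h, h']

def val (Q S : ℕ) (ty : ℕ → Bool) (c : ℕ → ℕ → Bool) (l : X → ℚ) (e : X) : ℚ :=
  ∑ i ∈ (Il Q S).toFinset with e ∈ star Q S ty c i, l i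

lemma val_hv (l : X → ℚ) {e : X} (he : e ∈ Vl Q S) (h : 2 ≤ e.1) :
    val Q S ty c l e = l (e.1 - 2, 0, e.2.1) + l (e.1 - 2, 1, e.2.2) := by
  rw [val, ← sum_pair (by simp)]
  congr 1
  ext i
  have := mem_V.1 he
  simp only [mem_filter, List.mem_toFinset, mem_I, mem_st, mem_insert, mem_singleton]
  grind

def LL (Q : ℕ) (c : ℕ → ℕ → Bool) (t : ℕ → ℚ) (j : ℕ) : ℚ := ∑ k ∈ range Q, if c j k then t k else 0

lemma struct (hS : 1 < S) (hty : ty (S - 1) = false) {l : X → ℚ}
    (h : ∀ e ∈ Vl Q S, 2 ≤ e.1 → val Q S ty c l e = 0) :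
    ∃ t : ℕ → ℚ, (∀ k ≤ Q, t k = l (k, 0, 0)) ∧ ∑ i ∈ (Il Q S).toFinset, l i = t Q ∧ ∀ j < S,
      val Q S ty c l (0, j, 0) = LL Q c t j - (if ty j then t Q else 0) ∧
      val Q S ty c l (1, j, 0) = t Q - LL Q c t j := by
  have h0 (k a b) (hk : k ≤ Q) (ha : a < S) (hb : b < S) (hb' : k = Q → b + 1 < S) :
      l (k, 0, a) + l (k, 1, b) = 0 := by
    have m : (k + 2, a, b) ∈ Vl Q S := by rw [mem_V]; grind
    simpa [val_hv l m] using h _ m (by simp)
  have h1 (k b) (hk : k ≤ Q) (hb : b < S) (hb' : k = Q → b + 1 < S) : l (k, 1, b) = -l (k, 0, 0) := by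
    linarith [h0 k 0 b hk (by omega) hb hb']
  have h2 (k a) (hk : k ≤ Q) (ha : a < S) : l (k, 0, a) = l (k, 0, 0) := by
    linarith [h0 k a 0 hk ha (by omega) (by omega), h1 k 0 hk (by omega) (by omega)]
  refine ⟨fun k => l (k, 0, 0), fun _ _ => rfl, ?_, fun j hj => ?_⟩
  · rw [sum_I, sum_eq_zero fun k hk => ?_, sum_congr rfl fun a ha => h2 Q a le_rfl (mem_range.1 ha),
      sum_congr rfl fun a ha => h1 Q a le_rfl (by grind) (by grind)]
    · simp [Nat.cast_sub hS.le]; ring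
    · rw [← sum_add_distrib]
      exact sum_eq_zero fun a ha => h0 k a a (by grind) (by grind) (by grind) (by grind)
  have m (σ) (hσ : σ < 2) (i) : (σ, j, 0) ∈ star Q S ty c i ↔ i.2.2 = j ∧ σ = li Q ty c i := by
    rw [mem_st, mem_V]; grind
  have n (p : ℕ → Prop) [DecidablePred p] (f : ℕ → ℚ) (n) : (∑ a ∈ range n, if a = j ∧ p a then f a else 0)
      = if j < n ∧ p j then f j else 0 := by simp [ite_and]
  simp only [val, sum_filter, sum_I, m 0 (by omega), m 1 (by omega), n, LL]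
  constructor
  · rw [sub_eq_add_neg]
    congr 1
    · refine sum_congr rfl fun k hk => ?_
      rw [mem_range] at hk
      rw [h1 k j hk.le hj (by omega), h2 k j hk.le hj]
      simp [li, hk, hj]; grind
    · by_cases a : ty j
      · have : j < S - 1 := by grind
        simp [li, a, this, h1 Q j le_rfl hj (by omega)]
      · simp [li, a]
  · rw [add_comm, sub_eq_add_neg, ← sum_neg_distrib]
    congr 1
    · simp [li, hj, h2 Q j le_rfl hj]; grind
    · refine sum_congr rfl fun k hk => ?_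
      rw [mem_range] at hk
      rw [h1 k j hk.le hj (by omega)]
      simp [li, hk, hj]; grind

def DD (S : ℕ) (ty : ℕ → Bool) : ℕ := #{b ∈ range (S - 1) | ty b = false}
def w0 (Q S : ℕ) (ty : ℕ → Bool) (e : X) : ℕ :=
  if e.1 < 2 then S else if e.1 = Q + 2 ∧ ty e.2.2 = false then DD S ty + 1 else DD S ty
def Hv (Q S : ℕ) (i : X) : Finset X := (range (sz Q S i.1 (1 - i.2.1))).image fun b =>
  if i.2.1 = 0 then (i.1 + 2, i.2.2, b) else (i.1 + 2, b, i.2.2)

lemma mem_Hv {i e : X} (hi : i ∈ Il Q S) : e ∈ Hv Q S i ↔ e ∈ star Q S ty c i ∧ 2 ≤ e.1 := by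
  rw [mem_I] at hi
  simp only [Hv, mem_image, mem_range, sz, mem_st, mem_V]
  constructor
  · rintro ⟨b, h, rfl⟩; split_ifs at h ⊢ <;> simp <;> omega
  · intro h; exact ⟨if i.2.1 = 0 then e.2.2 else e.2.1, by grind⟩

lemma w_Hv (hS : 1 < S) {i : X} (hi : i ∈ Il Q S) : ∑ e ∈ Hv Q S i, w0 Q S ty e =
    S * DD S ty + if li Q ty c i < 2 then 0 else S := by
  rw [Hv, sum_image (by intro a _ b _; grind)]
  obtain ⟨k, s, a⟩ := i
  simp only [mem_I] at hi
  rcases hi.1.lt_or_eq with h | rfl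
  · rw [sum_congr rfl (g := fun _ => DD S ty) fun b _ => by simp only [w0]; grind]
    simp [sz, h.ne, li, h]; grind
  · obtain rfl | rfl : s = 0 ∨ s = 1 := by omega
    · obtain ⟨S, rfl⟩ : ∃ n, S = n + 1 := ⟨S - 1, by omega⟩
      rw [sum_congr rfl (g := fun b => DD (S + 1) ty + if ty b = false then 1 else 0)
        fun b _ => by simp only [w0]; grind]
      simp [sz, li, sum_add_distrib, DD]; ring
    · simp [sz, li, w0]; grind

lemma w_st (hS : 1 < S) {i : X} (hi : i ∈ Il Q S) :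
    ∑ e ∈ star Q S ty c i, w0 Q S ty e = S * DD S ty + S := by
  have := w_Hv (ty := ty) (c := c) hS hi
  have m {e} := mem_Hv (ty := ty) (c := c) (e := e) hi
  split_ifs at this with h
  · have : star Q S ty c i = insert (li Q ty c i, i.2.2, 0) (Hv Q S i) := by
      ext e; rw [mem_I] at hi; rw [mem_insert, m, mem_st, mem_V]; grind
    rw [this, sum_insert (by grind), ‹∑ _ ∈ _, _ = _›]; simp [h, w0, add_comm]
  · rw [← this]; congr 1; ext e; rw [m, mem_st]; grind

lemma inter (ty : ℕ → Bool) (c : ℕ → ℕ → Bool) {i i' : X} (hi : i ∈ Il Q S) (hi' : i' ∈ Il Q S) (h : i ≠ i') :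
    #(Hv Q S i ∩ Hv Q S i') ≤ 1 := card_le_one.2 fun u hu v hv => by
  simp only [mem_inter, mem_Hv (ty := ty) (c := c) hi, mem_Hv (ty := ty) (c := c) hi', mem_st] at hu hv
  rw [mem_I] at hi hi'
  simp only [ne_eq, Prod.ext_iff] at *
  omega

theorem main (hQ : 0 < Q) (hS : 4 < S) (hty : ty (S - 1) = false) (hD : 2 ≤ DD S ty)
    (tw : ∀ j < S, ∃ j' < S, j' ≠ j ∧ c j' = c j) : Equistable (Vl Q S) (El Q S ty c) ↔
    ¬∃ t : ℕ → ℚ, ∀ j < S, (LL Q c t j = 0 ∨ LL Q c t j = 1) ∧ (ty j → LL Q c t j = 1) := by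
  have lV (σ j) (h : σ < 2) (hj : j < S) : (σ, j, 0) ∈ Vl Q S := by rw [mem_V]; grind
  simp only [Equistable, max_iff hQ (show 3 < S by omega)]
  constructor
  · rintro ⟨t0, -, w, hw⟩ ⟨t, ht⟩
    let l : X → ℚ := fun i => (if i.2.1 = 0 then 1 else -1) * if i.1 = Q then 1 else t i.1
    have hl (e) (he : e ∈ Vl Q S) (h : 2 ≤ e.1) : val Q S ty c l e = 0 := by
      rw [val_hv l he h]; simp [l]; grind
    obtain ⟨t', h1, h2, h3⟩ := struct (by omega) hty hl
    have q : t' Q = 1 := by simp [h1 Q le_rfl, l]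
    have L (j) : LL Q c t' j = LL Q c t j := sum_congr rfl fun k hk => by
      simp [h1 k (by grind), l, (mem_range.1 hk).ne]
    have hT := filter_subset (fun e => val Q S ty c l e = 1) (Vl Q S).toFinset
    refine ((hw _ hT).2 (wt_eq (fun _ _ => st_sub) hT (h2.trans q) (fun e he => ?_)
      fun i hi => (hw _ st_sub).1 ⟨i, hi, rfl⟩)).elim fun i ⟨hi, h⟩ => ?_
    swap
    · rw [List.mem_toFinset] at hi
      have : ∃ e, e ∈ Hv Q S i := Nonempty.image (by simp [sz]; grind) _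
      obtain ⟨e, he⟩ := this
      rw [mem_Hv (ty := ty) (c := c) hi, ← h, mem_filter, List.mem_toFinset] at he
      simp [hl e he.1.1 he.2] at he
    · change val Q S ty c l e = _
      simp only [mem_filter, he, true_and]
      rw [List.mem_toFinset] at he
      have := hl e he
      obtain ⟨σ, j, b⟩ := e
      rw [mem_V] at he
      have := h3 j he.2.1; have := ht j he.2.1; have := L j
      obtain rfl | rfl | h : σ = 0 ∨ σ = 1 ∨ 2 ≤ σ := by omega
      · obtain rfl : b = 0 := by grind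
        grind
      · obtain rfl : b = 0 := by grind
        grind
      · grind
  intro n
  refine lemB (fun _ _ => st_sub) (i0 := (0, 0, 0)) (by rw [List.mem_toFinset, mem_I]; grind)
    (w0 := w0 Q S ty) (t0 := S * DD S ty + S) (by omega) (fun e _ => by simp only [w0]; grind)
    (fun i hi => w_st (by omega) (List.mem_toFinset.1 hi)) fun T hT l h1 h2 => ?_
  have wT := wt_eq (fun _ _ => st_sub) hT h1 h2 fun i hi =>
    w_st (ty := ty) (c := c) (by omega) (List.mem_toFinset.1 hi)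
  simp only [List.mem_toFinset] at h2 ⊢
  change ∀ e ∈ _, val Q S ty c l e = _ at h2
  have row (e) (he : e ∈ T) (h : 2 ≤ e.1) : ∃ i ∈ Il Q S, e ∈ Hv Q S i ∧ Hv Q S i ⊆ T := by
    have m := List.mem_toFinset.1 (hT he)
    have m' := mem_V.1 m
    have i0 : (e.1 - 2, 0, e.2.1) ∈ Il Q S := by rw [mem_I]; grind
    have i1 : (e.1 - 2, 1, e.2.2) ∈ Il Q S := by rw [mem_I]; grind
    by_contra! a
    obtain ⟨u, hu, hu'⟩ := not_subset.1 (a _ i0 (by rw [mem_Hv (ty := ty) (c := c) i0, mem_st]; grind))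
    obtain ⟨v, hv, hv'⟩ := not_subset.1 (a _ i1 (by rw [mem_Hv (ty := ty) (c := c) i1, mem_st]; grind))
    rw [mem_Hv (ty := ty) (c := c) ‹_›, mem_st] at hu hv
    have mu := mem_V.1 hu.1.1; have mv := mem_V.1 hv.1.1
    have m2 : (e.1, v.2.1, u.2.2) ∈ Vl Q S := by rw [mem_V]; grind
    have a1 := h2 _ m; have a2 := h2 _ hu.1.1; have a3 := h2 _ hv.1.1; have a4 := h2 _ m2
    rw [val_hv l m h] at a1
    rw [val_hv l hu.1.1 hu.2, show u.1 = e.1 by grind, show u.2.1 = e.2.1 by grind] at a2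
    rw [val_hv l hv.1.1 hv.2, show v.1 = e.1 by grind, show v.2.2 = e.2.2 by grind] at a3
    rw [val_hv l m2 h] at a4
    grind
  by_cases a : ∃ e ∈ T, 2 ≤ e.1
  swap
  · obtain ⟨t, -, h3, h4⟩ := struct (ty := ty) (c := c) (l := l) (by omega) hty fun e he h => by
      rw [h2 e he]; grind
    refine (n ⟨t, fun j hj => ?_⟩).elim
    have := h4 j hj; have := h2 _ (lV 0 j (by omega) hj); have := h2 _ (lV 1 j (by omega) hj)
    grind
  obtain ⟨e, he, a⟩ := a
  obtain ⟨i, hi, -, hH⟩ := row e he a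
  have m {i} {e} (hi) := mem_Hv (Q := Q) (S := S) (ty := ty) (c := c) (i := i) (e := e) hi
  have hv (e) (he : e ∈ T) (h : 2 ≤ e.1) : e ∈ star Q S ty c i := by
    by_contra b
    obtain ⟨i', hi', h3, h4⟩ := row e he h
    have a1 := w_Hv (ty := ty) (c := c) (by omega) hi
    have a2 := w_Hv (ty := ty) (c := c) (by omega) hi'
    have a3 := sum_union_inter (s₁ := Hv Q S i) (s₂ := Hv Q S i') (f := w0 Q S ty)
    have a4 := sum_le_sum_of_subset (f := w0 Q S ty) (union_subset hH h4)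
    have a5 : ∑ x ∈ _, w0 Q S ty x ≤ _ := sum_le_card_nsmul (Hv Q S i ∩ Hv Q S i') (w0 Q S ty) (DD S ty + 1) fun x hx => by
      have := (m hi).1 (mem_inter.1 hx).1
      simp only [w0]; grind
    have a6 := inter ty c hi hi' (by rintro rfl; exact b ((m hi).1 h3).1)
    rw [smul_eq_mul] at a5
    have := Nat.mul_le_mul_right (DD S ty + 1) a6
    have : S + DD S ty + 1 < S * DD S ty := by nlinarith
    omega
  have sub (e) : val Q S ty c (l - Pi.single i 1) e = val Q S ty c l e -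
      if e ∈ star Q S ty c i then 1 else 0 := by simp [val, sum_sub_distrib, hi, Pi.single_apply]
  obtain ⟨t, -, h3, h4⟩ := struct (ty := ty) (c := c) (l := l - Pi.single i 1) (by omega) hty
    fun e he h => by
      rw [sub, h2 e he]; have := @hH e; have := m (e := e) hi; grind
  have q : t Q = 0 := by simp [← h3, sum_sub_distrib, h1, hi]
  have z (j) (hj : j < S) (h : j ≠ i.2.2) : LL Q c t j = 0 := by
    have := h4 j hj; have := h2 _ (lV 0 j (by omega) hj); have := h2 _ (lV 1 j (by omega) hj)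
    have := sub (0, j, 0); have := sub (1, j, 0)
    have : (0, j, 0) ∉ star Q S ty c i := by rw [mem_st]; grind
    have : (1, j, 0) ∉ star Q S ty c i := by rw [mem_st]; grind
    grind
  have z (j) (hj : j < S) : LL Q c t j = 0 := by
    obtain ⟨j', a, b, d⟩ := tw j hj
    by_cases h : j = i.2.2
    · rw [← z j' a (by omega), LL, LL, d]
    · exact z j hj h
  refine ⟨i, hi, ext fun e => ?_⟩
  by_cases he : e ∈ Vl Q S
  swap
  · exact iff_of_false (fun h => he (List.mem_toFinset.1 (hT h))) fun h => he (mem_st.1 h).1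
  have := @hH e; have := m (e := e) hi; have := hv e; have := sub e; have := h2 e he
  obtain ⟨σ, j, b⟩ := e
  rw [mem_V] at he
  have := h4 j he.2.1; have := z j he.2.1
  obtain rfl | rfl | h : σ = 0 ∨ σ = 1 ∨ 2 ≤ σ := by omega
  · obtain rfl : b = 0 := by grind
    grind
  · obtain rfl : b = 0 := by grind
    grind
  · grind

end Pool.Agent.H21.Eqs
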