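import Pool.Agent.H21.Eqs3
import Pool.Agent.H11.CL3

namespace Pool.Agent.H21.Eqs

open Pool.Agent.H21.EqsDefs Pool.Agent.H11.PT Finset

abbrev Fm := List (Lit × Lit × Lit)
def cl (φ : Fm) (j : ℕ) : Lit × Lit × Lit := φ.getD j ((0, true), (0, false), (0, true))
def lit (φ : Fm) (a : ℕ) : Lit :=
  if a % 3 = 0 then (cl φ (a / 3)).1 else if a % 3 = 1 then (cl φ (a / 3)).2.1 else (cl φ (a / 3)).2.2
def cp (φ : Fm) (a k : ℕ) : Bool := decide ((lit φ a).1 = (lit φ k).1 ∧ (lit φ a).2 ≠ (lit φ k).2)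
def QQ (φ : Fm) : ℕ := 3 * (φ.length + 1)
def SS (φ : Fm) : ℕ := 2 * (QQ φ * (QQ φ + 1))
def ty (φ : Fm) (j : ℕ) : Bool := decide (j / 2 < QQ φ)
def cc (φ : Fm) (j k : ℕ) : Bool := if j / 2 < QQ φ then decide (k / 3 = j / 2 / 3) else
  decide (k = j / 2 % QQ φ) || (decide (k + 1 = j / 2 / QQ φ) && cp φ (j / 2 % QQ φ) k)
def red (φ : Fm) : List X × List (X × X) :=
  (Vl (QQ φ) (SS φ), El (QQ φ) (SS φ) (ty φ) (cc φ))

theorem red_pt : PT red := by
  unfold red El inc li Vl Il sz cc ty SS QQ cp lit cl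
  fun_prop

variable {φ : Fm}

lemma L2 (t : ℕ → ℚ) {j a b : ℕ} (ha : a < QQ φ) (hb : b < QQ φ) (h : j / 2 = a + QQ φ * (b + 1)) :
    LL (QQ φ) (cc φ) t j = t a + if cp φ a b then t b else 0 := by
  have h1 : j / 2 % QQ φ = a := by rw [h, Nat.add_mul_mod_self_left, Nat.mod_eq_of_lt ha]
  have h2 : j / 2 / QQ φ = b + 1 := by
    rw [h, Nat.add_mul_div_left _ _ (by omega), Nat.div_eq_of_lt ha, zero_add]
  have h3 : ¬j / 2 < QQ φ := by rw [h]; nlinarith
  rw [LL, sum_congr rfl (g := fun k => (if k = a then t k else 0) +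
    if k = b then (if cp φ a k then t k else 0) else 0) fun k _ => by simp only [cc, h1, h2, h3, cp]; grind]
  simp [sum_add_distrib, ha, hb]

theorem correct : SAT3 φ ↔ ¬Equistable (red φ).1 (red φ).2 := by
  have q : 3 ≤ QQ φ := by simp [QQ]
  have s : 2 * QQ φ + 6 < SS φ := by simp only [SS]; nlinarith
  have s2 : SS φ % 2 = 0 := by simp [SS]
  rw [red, main (by omega) (by omega) (by simp [ty]; omega)
    (one_lt_card.2 ⟨2 * QQ φ, by simp [ty]; omega, 2 * QQ φ + 1, by simp [ty]; omega, by omega⟩)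
    fun j hj => ⟨if j % 2 = 0 then j + 1 else j - 1, by grind, by grind, funext fun k => by
      simp only [cc, show (if j % 2 = 0 then j + 1 else j - 1) / 2 = j / 2 by grind]⟩, not_not]
  constructor
  · rintro ⟨σ, hσ⟩
    have : ∀ m, ∃ k, k / 3 = m ∧ σ (lit φ k).1 = (lit φ k).2 := fun m => by
      have : σ (cl φ m).1.1 = (cl φ m).1.2 ∨ σ (cl φ m).2.1.1 = (cl φ m).2.1.2 ∨
          σ (cl φ m).2.2.1 = (cl φ m).2.2.2 := by
        by_cases h : m < φ.length
        · exact hσ _ (by simp [cl, h])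
        · simp [cl, List.getElem?_eq_none (not_lt.1 h)]
      rcases this with h | h | h
      · exact ⟨3 * m, by omega, by simpa [lit]⟩
      · exact ⟨3 * m + 1, by omega, by simpa [lit, show (3 * m + 1) / 3 = m by omega]⟩
      · exact ⟨3 * m + 2, by omega, by simpa [lit, show (3 * m + 2) / 3 = m by omega]⟩
    choose f f1 f2 using this
    refine ⟨fun k => if k = f (k / 3) then 1 else 0, fun j hj => ?_⟩
    by_cases h : j / 2 < QQ φ
    · have : f (j / 2 / 3) < QQ φ := by have := f1 (j / 2 / 3); simp only [QQ] at *; omega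
      rw [LL, sum_congr rfl (g := fun k => if k = f (j / 2 / 3) then 1 else 0) fun k _ => by
        simp only [cc, h]; grind]
      simp [this]
    · have a : j / 2 / QQ φ < QQ φ + 1 := Nat.div_lt_of_lt_mul (by simp only [SS] at hj; omega)
      have b : 0 < j / 2 / QQ φ := Nat.div_pos (by omega) (by omega)
      rw [L2 _ (Nat.mod_lt (j / 2) (by omega)) (show j / 2 / QQ φ - 1 < _ by omega)
        (by rw [Nat.sub_add_cancel b, Nat.mod_add_div])]
      have := f2 (j / 2 % QQ φ / 3); have := f2 ((j / 2 / QQ φ - 1) / 3)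
      simp only [ty, h, cp]
      grind
  · rintro ⟨t, ht⟩
    have p (a b) (ha : a < QQ φ) (hb : b < QQ φ) := L2 t ha hb (j := 2 * (a + QQ φ * (b + 1)))
      (by omega) ▸ (ht _ (by simp only [SS]; nlinarith)).1
    have p1 (a) (ha : a < QQ φ) : t a = 0 ∨ t a = 1 := by simpa [cp] using p a a ha ha
    refine ⟨fun x => decide (∃ k < QQ φ, t k = 1 ∧ lit φ k = (x, true)), fun c hc => ?_⟩
    obtain ⟨m, hm, rfl⟩ := List.getElem_of_mem hc
    have h := (ht (2 * (3 * m)) (by simp only [QQ] at s; omega)).2 (by simp [ty, QQ]; omega)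
    obtain ⟨k, hk, h⟩ := exists_ne_zero_of_sum_ne_zero (h ▸ one_ne_zero : LL _ _ t _ ≠ 0)
    rw [mem_range] at hk
    have h1 : k / 3 = m ∧ t k = 1 := by
      have := p1 k hk
      simp [cc, show 3 * m < QQ φ by simp [QQ]; omega] at h
      grind
    have : decide (∃ k' < QQ φ, t k' = 1 ∧ lit φ k' = ((lit φ k).1, true)) = (lit φ k).2 := by
      cases e : (lit φ k).2
      · simp only [decide_eq_false_iff_not, not_exists, not_and]
        intro k' h2 h3 h4
        have := p k k' hk h2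
        simp [cp, h4, e, h1.2, h3] at this
      · exact decide_eq_true ⟨k, hk, h1.2, by rw [← e]⟩
    have e : cl φ (k / 3) = φ[m] := by simp [cl, h1.1, hm]
    rw [lit, e] at this
    split_ifs at this
    exacts [.inl this, .inr (.inl this), .inr (.inr this)]

end Pool.Agent.H21.Eqs
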