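import Pool.Agent.H11.PTDefs

namespace Pool.Agent.H21.EqsDefs

variable {α : Type} [DecidableEq α]

/-- the vertex list `V` and the edge list `E` describe a simple graph -/
def Simple (V : List α) (E : List (α × α)) : Prop :=
  V.Nodup ∧ ∀ e ∈ E, e.1 ∈ V ∧ e.2 ∈ V ∧ e.1 ≠ e.2

/-- no edge joins two members of `S` -/
def Stable (E : List (α × α)) (S : Finset α) : Prop := ∀ u ∈ S, ∀ v ∈ S, (u, v) ∉ E

/-- `S` is a stable set of vertices that no other stable set properly contains -/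
def MaxStable (V : List α) (E : List (α × α)) (S : Finset α) : Prop :=
  S ⊆ V.toFinset ∧ Stable E S ∧ ∀ S' ⊆ V.toFinset, Stable E S' → S ⊆ S' → S' = S

/-- equistable graphs -/
def Equistable (V : List α) (E : List (α × α)) : Prop :=
  ∃ t : ℕ, 0 < t ∧ ∃ w : α → ℕ, ∀ S ⊆ V.toFinset, (MaxStable V E S ↔ ∑ v ∈ S, w v = t)

end Pool.Agent.H21.EqsDefs
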