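import Mathlib

namespace Pool.Agent.H21.FIG

abbrev P := Equiv.Perm (Fin 3)
abbrev B := ℕ × ℤ → P

def sh : Multiplicative ℤ →* MulAut B :=
  MonoidHom.mk' (fun m =>
    { toFun := fun f x => f (x.1, x.2 - m.toAdd)
      invFun := fun f x => f (x.1, x.2 + m.toAdd)
      left_inv := fun f => by simp
      right_inv := fun f => by simp
      map_mul' := fun _ _ => rfl })
    fun a b => by ext f x : 2; simp [sub_sub]

abbrev W := B ⋊[sh] Multiplicative ℤ

instance : Group.IsSolvable P :=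
  have : Group.IsSolvable (alternatingGroup (Fin 3)) := Group.isSolvable_of_comm (by decide)
  Group.isSolvable_of_ker_le_range (alternatingGroup (Fin 3)).subtype Equiv.Perm.sign
    (by rw [Subgroup.range_subtype]; rfl)

instance : Group.IsSolvable B := by
  obtain ⟨n, hn⟩ := (inferInstance : Group.IsSolvable P)
  refine ⟨n, eq_bot_iff.2 fun f hf => funext fun x => ?_⟩
  have := map_derivedSeries_le_derivedSeries (Pi.evalMonoidHom (fun _ => P) x) n ⟨f, hf, rfl⟩
  rwa [hn] at this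

instance : Group.IsSolvable W :=
  Group.isSolvable_of_ker_le_range SemidirectProduct.inl SemidirectProduct.rightHom
    SemidirectProduct.range_inl_eq_ker_rightHom.ge

def α0 : P := Equiv.swap 0 1
def α1 : P := Equiv.swap 1 2
def α3 : P := Equiv.swap 0 2

def pat (e : ℤ → ℤ) (L : ℕ) (k : ℤ) : P := α0 ^ e k * α1 ^ e (k - L) * α3 ^ e (k - 3 * L)

def δ : ℤ → ℤ := fun k => if k = 0 then 1 else 0

def a : W := ⟨fun x => pat δ x.1 x.2, 1⟩
def t (m : ℤ) : W := ⟨1, .ofAdd m⟩

def G : Subgroup W := Subgroup.closure {a, t 1}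

lemma a_mem : a ∈ G := Subgroup.subset_closure (by simp)

lemma t_mem (m : ℤ) : t m ∈ G := by
  have : t m = t 1 ^ m := by
    show SemidirectProduct.inr _ = (SemidirectProduct.inr _) ^ m
    rw [← map_zpow, ← ofAdd_zsmul]
    simp
  exact this ▸ G.zpow_mem (Subgroup.subset_closure (by simp)) m

def act (L : ℕ) (w : W) (x : ℤ → Fin 3) : ℤ → Fin 3 := fun k => w.left (L, k) (x (k - w.right.toAdd))

lemma act_mul (L : ℕ) (v w : W) (x : ℤ → Fin 3) : act L (v * w) x = act L v (act L w x) := by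
  funext k
  simp [act, sh, sub_sub]

lemma act_one (L : ℕ) (x : ℤ → Fin 3) : act L 1 x = x := by
  funext k
  simp [act]

def Good (w : W) : Prop := ∃ (n : ℕ) (e : ℤ → ℤ), (∀ i, (n : ℤ) < |i| → e i = 0) ∧
  ∀ L : ℕ, 2 * n < L → ∀ k, w.left (L, k) = pat e L k

lemma pat_add {n : ℕ} {e e' : ℤ → ℤ} (h : ∀ i, (n : ℤ) < |i| → e i = 0)
    (h' : ∀ i, (n : ℤ) < |i| → e' i = 0) {L : ℕ} (hL : 2 * n < L) (k : ℤ) :
    pat e L k * pat e' L k = pat (e + e') L k := by
  simp only [pat, Pi.add_apply, zpow_add]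
  simp only [lt_abs] at h h'
  by_cases h0 : -n ≤ k ∧ k ≤ n
  · simp [h (k - L) (by omega), h' (k - L) (by omega), h (k - 3 * L) (by omega),
      h' (k - 3 * L) (by omega)]
  rw [h k (by omega), h' k (by omega)]
  by_cases h1 : -n ≤ k - L ∧ k - L ≤ n
  · simp [h (k - 3 * L) (by omega), h' (k - 3 * L) (by omega)]
  · simp [h (k - L) (by omega), h' (k - L) (by omega)]

lemma good {w : W} (hw : w ∈ G) : Good w := by
  have hm : ∀ v w, Good v → Good w → Good (v * w) := by
    rintro v w ⟨n, e, h1, h2⟩ ⟨n', e', h3, h4⟩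
    have k1 : ∀ i, ((n + n' + v.right.toAdd.natAbs : ℕ) : ℤ) < |i| → e i = 0 :=
      fun i hi => h1 i (by omega)
    have k2 : ∀ i, ((n + n' + v.right.toAdd.natAbs : ℕ) : ℤ) < |i| → e' (i - v.right.toAdd) = 0 :=
      fun i hi => h3 _ (by rw [lt_abs] at *; omega)
    refine ⟨n + n' + v.right.toAdd.natAbs, e + fun i => e' (i - v.right.toAdd),
      fun i hi => by simp [k1 i hi, k2 i hi], fun L hL k => ?_⟩
    rw [← pat_add k1 k2 hL, ← h2 L (by omega)]
    simp only [SemidirectProduct.mul_left, Pi.mul_apply, sh, MonoidHom.mk'_apply, MulEquiv.coe_mk,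
      Equiv.coe_fn_mk, h4 L (by omega), pat, sub_right_comm]
  have ht : ∀ m, Good (t m) := fun m => ⟨0, 0, fun _ _ => rfl, fun L _ k => by simp [t, pat]⟩
  have hδ : ∀ i, ((0 : ℕ) : ℤ) < |i| → δ i = 0 := fun i hi => if_neg (by simpa using hi)
  have ha : Good a := ⟨0, δ, hδ, fun L _ k => rfl⟩
  have ha' : Good a⁻¹ := ⟨0, -δ, fun i hi => by simp [hδ i hi], fun L hL k => by
    have := pat_add hδ (e' := -δ) (fun i hi => by simp [hδ i hi]) hL k
    rw [add_neg_cancel, show pat 0 L k = 1 by simp [pat]] at this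
    simpa [a] using (eq_inv_of_mul_eq_one_right this).symm⟩
  refine Subgroup.closure_induction_left (p := fun w _ => Good w) (ht 0) ?_ ?_ hw
  · rintro _ (rfl | rfl) y _ hy
    exacts [hm _ _ ha hy, hm _ _ (ht 1) hy]
  · rintro _ (rfl | rfl) y _ hy
    · exact hm _ _ ha' hy
    · exact hm _ _ (by convert ht (-1) using 1; ext <;> simp [t]) hy

def R (L : ℕ) (x y : ℤ → Fin 3) : Prop := ∃ g ∈ G, act L g x = y

lemma R.trans {L x y z} (h : R L x y) (h' : R L y z) : R L x z := by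
  obtain ⟨g, h1, rfl⟩ := h
  obtain ⟨g', h2, rfl⟩ := h'
  exact ⟨g' * g, G.mul_mem h2 h1, act_mul _ _ _ _⟩

lemma R_one {L : ℕ} (hL : 0 < L) (x : ℤ → Fin 3) (k : ℤ) :
    R L x (Function.update x k (x k + 1)) := by
  let b : ℤ → W := fun m => t m * a * t (-m)
  have hb : ∀ m, b m ∈ G := fun m => G.mul_mem (G.mul_mem (t_mem _) a_mem) (t_mem _)
  have e : ∀ m y j, act L (b m) y j = pat δ L (j - m) (y j) := fun m y j => by
    simp only [b, act_mul]
    simp [act, t, a]
  refine ⟨b (k - L) * (b k * (b (k - L) * b k)),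
    G.mul_mem (hb _) (G.mul_mem (hb _) (G.mul_mem (hb _) (hb _))), funext fun j => ?_⟩
  simp only [act_mul, e, pat, δ]
  by_cases h : j = k
  · subst h
    rw [Function.update_self]
    generalize x j = u
    split_ifs <;> first | omega | (revert u; decide)
  · rw [Function.update_of_ne h]
    generalize x j = u
    split_ifs <;> first | omega | (revert u; decide)

lemma R_all {L : ℕ} (hL : 0 < L) (s : Finset ℤ) :
    ∀ x : ℤ → Fin 3, (∀ k ∉ s, x k = 0) → R L 0 x := by
  induction s using Finset.induction_on with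
  | empty => exact fun x hx => ⟨1, G.one_mem, (act_one _ _).trans (funext fun k => (hx k (by simp)).symm)⟩
  | insert k s _ ih =>
    intro x hx
    have h0 := ih (Function.update x k 0) fun j hj => by
      by_cases h : j = k
      · simp [h]
      · simpa [h] using hx j (by simp [h, hj])
    have h1 := h0.trans (R_one hL _ k)
    have h2 := h1.trans (R_one hL _ k)
    simp only [Function.update_self, Function.update_idem] at h1 h2
    rw [← Function.update_eq_self k x]
    generalize x k = u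
    fin_cases u
    exacts [h0, h1, h2]

lemma cum {n : ℕ} {e : ℤ → ℤ} (h : ∀ i, (n : ℤ) < |i| → e i = 0) {m : ℤ} (hm : 0 < m) :
    ∃ E : ℤ → ℤ, (∀ k, E k = e k + E (k - m)) ∧ ∀ k : ℤ, k < -n → E k = 0 := by
  refine ⟨fun k => ∑ i ∈ Finset.Icc (-n : ℤ) n, if i ≤ k ∧ m ∣ k - i then e i else 0, fun k => ?_,
    fun k hk => Finset.sum_eq_zero fun i hi => if_neg fun h => by
      rw [Finset.mem_Icc] at hi; omega⟩
  have : e k = ∑ i ∈ Finset.Icc (-n : ℤ) n, if i = k then e i else 0 := by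
    rw [Finset.sum_ite_eq']
    split_ifs with h1
    · rfl
    · exact h k (by rw [Finset.mem_Icc] at h1; rw [lt_abs]; omega)
  rw [this, ← Finset.sum_add_distrib]
  refine Finset.sum_congr rfl fun i _ => ?_
  by_cases h1 : i = k
  · simp [h1, hm.not_ge]
  rw [if_neg h1, zero_add, sub_right_comm]
  simp only [dvd_sub_self_right]
  refine if_congr (and_congr_left fun h2 => ⟨fun h3 => ?_, fun h3 => by omega⟩) rfl rfl
  have := Int.le_of_dvd (by omega) h2
  omega

lemma fix_zpow {α : P} {u : Fin 3} (h : α u = u) (z : ℤ) : (α ^ z) u = u :=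
  Equiv.Perm.zpow_apply_eq_self_of_apply_eq_self h z

lemma fixed {w : W} (hw : w ∈ G) (hm : 0 ≤ w.right.toAdd) : ∃ n : ℕ, ∀ L : ℕ, 2 * n < L →
    (∀ q : ℕ, 0 < q → q ≤ n → q ∣ L) → ∃ x, R L 0 x ∧ act L w x = x := by
  obtain ⟨n, e, h1, h2⟩ := good hw
  refine ⟨n + w.right.toAdd.toNat, fun L hL hq => ?_⟩
  have h1' := h1
  simp only [lt_abs] at h1'
  rcases hm.eq_or_lt with h0 | h0
  · refine ⟨fun k => if -n ≤ k ∧ k ≤ n then 2 else if -n ≤ k - 3 * L ∧ k - 3 * L ≤ n then 1 else 0,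
      R_all (by omega) (Finset.Icc (-n) (3 * L + n)) _ fun k hk => ?_, funext fun k => ?_⟩
    · rw [Finset.mem_Icc] at hk
      rw [if_neg (by omega), if_neg (by omega)]
    · simp only [act, ← h0, sub_zero, h2 L (by omega), pat]
      split_ifs
      · simp [h1' (k - L) (by omega), h1' (k - 3 * L) (by omega), fix_zpow (show α0 2 = 2 by decide)]
      · simp [h1' (k - L) (by omega), h1' k (by omega), fix_zpow (show α3 1 = 1 by decide)]
      · simp [h1' (k - 3 * L) (by omega), h1' k (by omega), fix_zpow (show α1 0 = 0 by decide)]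
  obtain ⟨E, h3, h4⟩ := cum h1 h0
  obtain ⟨c, hc⟩ := hq w.right.toAdd.toNat (by omega) (by omega)
  have h5 : ∀ (j : ℕ) (k : ℤ), n < k - j * w.right.toAdd → E k = E (k - j * w.right.toAdd) := by
    intro j
    induction j with
    | zero => simp
    | succ j ih =>
      intro k hk
      push_cast at hk ⊢
      rw [ih k (by linarith), h3, h1' _ (Or.inl (by linarith)), zero_add]
      congr 1
      ring
  have hL' : (L : ℤ) = c * w.right.toAdd := by
    rw [hc, Nat.cast_mul, Int.toNat_of_nonneg hm, mul_comm]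
  refine ⟨fun k => (α3 ^ E (k - 3 * L)) ((α1 ^ E (k - L)) ((α0 ^ E k) 0)),
    R_all (by omega) (Finset.Icc (-n) (3 * L + n)) _ fun k hk => ?_, funext fun k => ?_⟩
  · rw [Finset.mem_Icc] at hk
    by_cases h : k < -n
    · simp [h4 k h, h4 (k - L) (by omega), h4 (k - 3 * L) (by omega)]
    have k1 := h5 c k (by omega)
    have k3 := h5 (3 * c) k (by push_cast; rw [mul_assoc]; omega)
    push_cast at k3
    rw [mul_assoc, ← hL'] at k3
    rw [← hL'] at k1
    rw [← k1, ← k3]
    obtain ⟨z, hz | hz⟩ := Int.even_or_odd' (E k) <;> rw [hz] <;>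
      simp only [zpow_add, zpow_mul, zpow_one, show α0 ^ (2 : ℤ) = 1 by decide,
        show α1 ^ (2 : ℤ) = 1 by decide, show α3 ^ (2 : ℤ) = 1 by decide, one_zpow] <;> decide
  · simp only [act, h2 L (by omega), pat]
    rw [h3 k, h3 (k - L), h3 (k - 3 * L), sub_right_comm k L, sub_right_comm k (3 * L)]
    by_cases k0 : -n ≤ k ∧ k ≤ n
    · simp [h1' (k - L) (by omega), h1' (k - 3 * L) (by omega), zpow_add,
        h4 (k - w.right.toAdd - L) (by omega), h4 (k - w.right.toAdd - 3 * L) (by omega)]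
    rw [h1' k (by omega)]
    by_cases k1 : -n ≤ k - L ∧ k - L ≤ n
    · simp [h1' (k - 3 * L) (by omega), zpow_add, h4 (k - w.right.toAdd - 3 * L) (by omega)]
    · simp [h1' (k - L) (by omega), zpow_add]

lemma fixed' (w : G) : ∃ n : ℕ, ∀ L : ℕ, 2 * n < L →
    (∀ q : ℕ, 0 < q → q ≤ n → q ∣ L) → ∃ g : G, act L (g⁻¹ * w * g) 0 = 0 := by
  have : ∃ n : ℕ, ∀ L : ℕ, 2 * n < L → (∀ q : ℕ, 0 < q → q ≤ n → q ∣ L) →
      ∃ x, R L 0 x ∧ act L w x = x := by
    rcases le_total 0 w.1.right.toAdd with h | h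
    · exact fixed w.2 h
    · obtain ⟨n, hn⟩ := fixed (G.inv_mem w.2) (by simpa using h)
      refine ⟨n, fun L h1 h2 => ?_⟩
      obtain ⟨x, h3, h4⟩ := hn L h1 h2
      exact ⟨x, h3, by rw [← h4, ← act_mul, mul_inv_cancel, act_one, h4]⟩
  obtain ⟨n, hn⟩ := this
  refine ⟨n, fun L h1 h2 => ?_⟩
  obtain ⟨_, ⟨g, hg, rfl⟩, h4⟩ := hn L h1 h2
  refine ⟨⟨g, hg⟩, ?_⟩
  show act L (g⁻¹ * w * g) 0 = 0
  rw [act_mul, act_mul, h4, ← act_mul, inv_mul_cancel, act_one]

def H (L : ℕ) : Subgroup G where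
  carrier := {g | act L g 0 = 0}
  one_mem' := act_one _ _
  mul_mem' := fun {a b} (ha : _ = _) (hb : _ = _) => by
    show act L (a.1 * b.1) 0 = 0
    rw [act_mul, hb, ha]
  inv_mem' := fun {a} (ha : _ = _) => by
    show act L a.1⁻¹ 0 = 0
    conv_lhs => rw [← ha, ← act_mul, inv_mul_cancel, act_one]

theorem main (S : Finset G) : ∃ g : G → G,
    Subgroup.closure ((fun s => (g s)⁻¹ * s * g s) '' (S : Set G)) ≠ ⊤ := by
  choose n hn using fixed'
  let N := S.sup n
  have h1 : ∀ s : G, ∃ g : G, s ∈ S → g⁻¹ * s * g ∈ H (2 * N + 1).factorial := fun s => by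
    by_cases hs : s ∈ S
    · have h2 : n s ≤ N := Finset.le_sup hs
      obtain ⟨g, hg⟩ := hn s (2 * N + 1).factorial
        (by have := Nat.self_le_factorial (2 * N + 1); omega)
        fun q h3 h4 => Nat.dvd_factorial h3 (by omega)
      exact ⟨g, fun _ => hg⟩
    · exact ⟨1, fun h => absurd h hs⟩
  choose g hg using h1
  refine ⟨g, fun h => ?_⟩
  have h2 : ⊤ ≤ H (2 * N + 1).factorial := h ▸ (Subgroup.closure_le _).2 (by
    rintro _ ⟨s, hs, rfl⟩
    exact hg s hs)
  have h3 := congrFun (h2 (Subgroup.mem_top ⟨a, a_mem⟩)) 0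
  have h4 := Nat.factorial_ne_zero (2 * N + 1)
  simp [act, a, pat, δ, h4, α0] at h3

end Pool.Agent.H21.FIG
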