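import Mathlib

namespace Pool.Agent.H21.FPP

def autT (d : ℕ) : Subgroup (Equiv.Perm (List (Fin d))) where
  carrier := {g | (∀ v, (g v).length = v.length) ∧ ∀ v w, v <+: w ↔ g v <+: g w}
  one_mem' := ⟨fun _ => rfl, fun _ _ => Iff.rfl⟩
  mul_mem' := fun {a b} ha hb => ⟨fun v => (ha.1 _).trans (hb.1 v),
    fun v w => (hb.2 v w).trans (ha.2 _ _)⟩
  inv_mem' := fun {a} ha => ⟨fun v => by simpa using (ha.1 (a⁻¹ v)).symm,
    fun v w => by simpa using (ha.2 (a⁻¹ v) (a⁻¹ w)).symm⟩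

def lev (d n : ℕ) : autT d →* Equiv.Perm {v : List (Fin d) // v.length = n} :=
  MonoidHom.mk' (fun g => g.1.subtypePerm fun v => by rw [g.2.1 v]) fun _ _ => rfl

noncomputable def prop {d : ℕ} (G : Subgroup (autT d)) (n : ℕ) : ℝ :=
  (Nat.card {f : G.map (lev d n) // ∃ v, f.1 v = v} : ℝ) / Nat.card (G.map (lev d n))

def HasFPP {d : ℕ} (G : Subgroup (autT d)) (α : ℝ) : Prop :=
  Filter.Tendsto (prop G) Filter.atTop (nhds α)

def IsClosedSub {d : ℕ} (G : Subgroup (autT d)) : Prop :=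
  ∀ g : autT d, (∀ n, ∃ h ∈ G, lev d n h = lev d n g) → g ∈ G

instance (d n : ℕ) : Finite {v : List (Fin d) // v.length = n} :=
  (List.finite_length_eq (Fin d) n).to_subtype

lemma lev_apply {d n : ℕ} (g : autT d) (v : {v : List (Fin d) // v.length = n}) :
    (lev d n g v).1 = g.1 v.1 := rfl

end Pool.Agent.H21.FPP
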