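import Mathlib
import Pool.Agent.H21.FPPDefs

namespace Pool.Agent.H21.FPP

section
variable {d : ℕ} (p : ℕ) [hp : Fact p.Prime] (hd : p ∣ d) (t : ℝ)

def st (a : Fin d) (s : ℤ) : Fin d :=
  ⟨p * (a.1 / p) + (s % p).toNat, by
    have h0 := hp.out.pos
    have h1 : (s % p).toNat < p := by
      have := Int.emod_lt_of_pos s (b := p) (by omega)
      omega
    obtain ⟨c, rfl⟩ := hd
    have h2 : a.1 / p < c := Nat.div_lt_of_lt_mul a.2
    nlinarith⟩

lemma st_dg (a : Fin d) (s : ℤ) : (((st p hd a s).1 % p : ℕ) : ℤ) = s % p := by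
  have h0 := hp.out.pos
  have h1 := Int.emod_nonneg s (b := p) (by omega)
  simp only [st, Nat.mul_add_mod, Int.natCast_mod, Int.toNat_of_nonneg h1, Int.emod_emod]

lemma st_st (a : Fin d) (s s' : ℤ) : st p hd (st p hd a s) s' = st p hd a s' := by
  have h0 := hp.out.pos
  have h1 := Int.emod_lt_of_pos s (b := p) (by omega)
  refine Fin.ext ?_
  simp only [st]
  rw [Nat.mul_add_div h0, Nat.div_eq_of_lt (a := (s % p).toNat) (by omega), add_zero]

lemma st_eq (a : Fin d) (s : ℤ) : st p hd a s = a ↔ s % p = (a.1 % p : ℕ) := by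
  refine ⟨fun h => by rw [← st_dg p hd a s, h], fun h => Fin.ext ?_⟩
  simp only [st, h, Int.toNat_natCast, Nat.div_add_mod]

lemma st_congr (a : Fin d) {s s' : ℤ} (h : s % p = s' % p) : st p hd a s = st p hd a s' :=
  Fin.ext (by simp only [st, h])

open Classical in
noncomputable def nx (K M : ℕ) (x : Fin d) : ℕ :=
  if ((p * M + x.1 % p : ℕ) : ℝ) ≤ t * p ^ (K + 1) then x.1 % p else 0

lemma nx_lt (K M : ℕ) (x : Fin d) : nx p t K M x < p := by
  unfold nx
  split_ifs
  exacts [Nat.mod_lt _ hp.out.pos, hp.out.pos]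

noncomputable def F : ℕ → ℕ → ℤ → ℤ → List (Fin d) → List (Fin d)
  | K, M, u, z, x :: y :: w => x :: st p hd y ((y.1 % p : ℕ) + z - nx p t K M x * u) ::
      F (K + 1) (p * M + nx p t K M x) u (((y.1 % p : ℕ) + z - nx p t K M x * u) / p) w
  | _, _, _, _, w => w

lemma F_len : ∀ (w : List (Fin d)) (K M : ℕ) (u z : ℤ), (F p hd t K M u z w).length = w.length
  | [], _, _, _, _ => rfl
  | [_], _, _, _, _ => rfl
  | _ :: _ :: w, _, _, _, _ => by simp [F, F_len w]

lemma F_pre : ∀ (v s : List (Fin d)) (K M : ℕ) (u z : ℤ),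
    F p hd t K M u z v <+: F p hd t K M u z (v ++ s)
  | [], _, _, _, _, _ => List.nil_prefix
  | [_], [], _, _, _, _ => List.prefix_rfl
  | [_], _ :: _, _, _, _, _ => by simp [F]
  | _ :: _ :: w, s, _, _, _, _ => by simp [F, F_pre w s]

lemma F_comp : ∀ (w : List (Fin d)) (K M : ℕ) (u z u' z' : ℤ),
    F p hd t K M u z (F p hd t K M u' z' w) = F p hd t K M (u + u') (z + z') w
  | [], _, _, _, _, _, _ => rfl
  | [_], _, _, _, _, _, _ => rfl
  | x :: y :: w, K, M, u, z, u', z' => by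
    have h0 : (p : ℤ) ≠ 0 := by exact_mod_cast hp.out.ne_zero
    simp only [F, F_comp w, st_st, st_dg]
    generalize hs : ((y.1 % p : ℕ) : ℤ) + z' - nx p t K M x * u' = s
    have e : ((y.1 % p : ℕ) : ℤ) + (z + z') - nx p t K M x * (u + u') =
        s % p + z - nx p t K M x * u + p * (s / p) := by
      have := Int.emod_add_mul_ediv s p
      linarith
    rw [e, Int.add_mul_ediv_left _ _ h0, st_congr p hd y (Int.add_mul_emod_self_left _ _ _)]

noncomputable def Rw : ℕ → ℕ → List (Fin d) → ℕ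
  | K, M, x :: _ :: w => nx p t K M x + p * Rw (K + 1) (p * M + nx p t K M x) w
  | _, _, _ => 0

lemma F_fix : ∀ (w : List (Fin d)) (K M : ℕ) (u z : ℤ),
    F p hd t K M u z w = w ↔ (p : ℤ) ^ (w.length / 2) ∣ z - Rw p t K M w * u
  | [], _, _, _, _ => by simp [F]
  | [_], _, _, _, _ => by simp [F]
  | x :: y :: w, K, M, u, z => by
    have h0 : (0 : ℤ) < p := by exact_mod_cast hp.out.pos
    have hy : ((y.1 % p : ℕ) : ℤ) < p := by exact_mod_cast Nat.mod_lt _ hp.out.pos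
    have hl : (x :: y :: w).length / 2 = w.length / 2 + 1 := by simp only [List.length_cons]; omega
    simp only [F, List.cons.injEq, true_and, st_eq, F_fix w, hl, Rw, Nat.cast_add, Nat.cast_mul]
    generalize Rw p t (K + 1) (p * M + nx p t K M x) w = R
    have key : ∀ c : ℤ, z - nx p t K M x * u = p * c →
        (((y.1 % p : ℕ) + z - nx p t K M x * u) % p = (y.1 % p : ℕ) ∧
          ((p : ℤ) ^ (w.length / 2) ∣ ((y.1 % p : ℕ) + z - nx p t K M x * u) / p - R * u ↔
          (p : ℤ) ^ (w.length / 2 + 1) ∣ z - (nx p t K M x + p * R) * u)) := by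
      intro c hc
      rw [add_sub_assoc, hc, Int.add_mul_emod_self_left, Int.add_mul_ediv_left _ _ h0.ne',
        Int.emod_eq_of_lt (by positivity) hy, Int.ediv_eq_zero_of_lt (by positivity) hy, zero_add,
        show z - (nx p t K M x + p * R) * u = p * (c - R * u) by linear_combination hc, pow_succ',
        mul_dvd_mul_iff_left h0.ne']
      exact ⟨rfl, Iff.rfl⟩
    constructor
    · rintro ⟨h1, h2⟩
      refine (key (((y.1 % p : ℕ) + z - nx p t K M x * u) / p) ?_).2.1 h2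
      have := Int.emod_add_mul_ediv ((y.1 % p : ℕ) + z - nx p t K M x * u) p
      linarith
    · intro h
      obtain ⟨c, hc⟩ := (dvd_pow_self (p : ℤ) (Nat.succ_ne_zero _)).trans h
      have := key (c + R * u) (by linear_combination hc)
      exact ⟨this.1, this.2.2 h⟩

def rev : ℕ → ℕ → ℕ
  | 0, _ => 0
  | k + 1, m => m / p ^ k + p * rev k (m % p ^ k)

lemma rev_step {k ρ m : ℕ} (h : m < p ^ k) : rev p (k + 1) (m + p ^ k * ρ) = ρ + p * rev p k m := by
  rw [rev, Nat.add_mul_div_left _ _ (by have := hp.out.pos; positivity), Nat.div_eq_of_lt h,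
    zero_add, Nat.add_mul_mod_self_left, Nat.mod_eq_of_lt h]

lemma step_lt {k ρ m : ℕ} (h : m < p ^ k) (h' : ρ < p) : m + p ^ k * ρ < p ^ (k + 1) := by
  rw [pow_succ]
  nlinarith

lemma Rw_to : ∀ (w : List (Fin d)) (K M : ℕ), (M : ℝ) ≤ t * p ^ K →
    ∃ m < p ^ (w.length / 2), ((M * p ^ (w.length / 2) + m : ℕ) : ℝ) ≤ t * p ^ (K + w.length / 2) ∧
      Rw p t K M w = rev p (w.length / 2) m
  | [], _, _, h => ⟨0, by simp, by simpa using h, by simp [Rw, rev]⟩
  | [_], _, _, h => ⟨0, by simp, by simpa using h, by simp [Rw, rev]⟩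
  | x :: y :: w, K, M, h => by
    have hl : (x :: y :: w).length / 2 = w.length / 2 + 1 := by simp only [List.length_cons]; omega
    obtain ⟨m, h1, h2, h3⟩ := Rw_to w (K + 1) (p * M + nx p t K M x) (by
      unfold nx
      split_ifs with hc
      · exact hc
      · push_cast
        rw [pow_succ]
        nlinarith [(Nat.cast_nonneg p : (0 : ℝ) ≤ p)])
    rw [hl]
    refine ⟨_, step_lt p h1 (nx_lt p t K M x), ?_, by rw [rev_step p h1, Rw, h3]⟩
    convert h2 using 2
    · ring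
    · ring

lemma Rw_of (hd : p ∣ d) (h0 : 0 < d) : ∀ (k n K M m : ℕ), n / 2 = k → m < p ^ k →
    ((M * p ^ k + m : ℕ) : ℝ) ≤ t * p ^ (K + k) →
    ∃ w : List (Fin d), w.length = n ∧ Rw p t K M w = rev p k m := by
  intro k
  induction k with
  | zero =>
    intro n K M m hn _ _
    obtain rfl | rfl : n = 0 ∨ n = 1 := by omega
    · exact ⟨[], rfl, rfl⟩
    · exact ⟨[⟨0, h0⟩], rfl, rfl⟩
  | succ k ih =>
    intro n K M m hn hm hb
    have hq : 0 < p ^ k := by have := hp.out.pos; positivity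
    have h1 : m / p ^ k < p := Nat.div_lt_of_lt_mul (by rwa [pow_succ] at hm)
    have h2 := Nat.div_add_mod m (p ^ k)
    let x : Fin d := ⟨m / p ^ k, h1.trans_le (Nat.le_of_dvd h0 hd)⟩
    have h3 : (p * M + m / p ^ k) * p ^ k + m % p ^ k = M * p ^ (k + 1) + m := by
      rw [pow_succ]
      nlinarith
    have hx : nx p t K M x = m / p ^ k := by
      rw [nx, if_pos, Nat.mod_eq_of_lt h1]
      rw [Nat.mod_eq_of_lt h1]
      refine le_of_mul_le_mul_right ?_ (by exact_mod_cast hq : (0 : ℝ) < p ^ k)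
      have h4 : (((p * M + m / p ^ k) * p ^ k : ℕ) : ℝ) ≤ ((M * p ^ (k + 1) + m : ℕ) : ℝ) := by
        exact_mod_cast h3 ▸ Nat.le_add_right _ _
      calc _ = (((p * M + m / p ^ k) * p ^ k : ℕ) : ℝ) := by push_cast; rfl
        _ ≤ _ := h4.trans hb
        _ = _ := by ring
    obtain ⟨w, h5, h6⟩ := ih (n - 2) (K + 1) (p * M + m / p ^ k) (m % p ^ k) (by omega)
      (Nat.mod_lt _ hq) (by rw [h3]; convert hb using 3; ring)
    exact ⟨x :: x :: w, by simp only [List.length_cons]; omega, by rw [Rw, hx, h6, rev]⟩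

lemma rev_surj : ∀ k r, r < p ^ k → ∃ m < p ^ k, rev p k m = r
  | 0, r, h => ⟨0, by simp, by simp at h; simp [rev, h]⟩
  | k + 1, r, h => by
    obtain ⟨m, h1, h2⟩ := rev_surj k (r / p) (Nat.div_lt_of_lt_mul (by rwa [pow_succ'] at h))
    exact ⟨_, step_lt p h1 (Nat.mod_lt r hp.out.pos), by rw [rev_step p h1, h2, Nat.mod_add_div]⟩

omit hp in
lemma rev_zero : ∀ k, rev p k 0 = 0
  | 0 => rfl
  | k + 1 => by simp [rev, rev_zero k]

noncomputable def act (a : ℤ × ℤ) : List (Fin d) → List (Fin d)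
  | [] => []
  | c :: w => c :: if c.1 = 0 then F p hd t 0 0 a.1 a.2 w else F p hd t 0 0 a.2 a.1 w

lemma act_add (a b : ℤ × ℤ) (w : List (Fin d)) :
    act p hd t (a + b) w = act p hd t a (act p hd t b w) := by
  rcases w with _ | ⟨c, w⟩
  · rfl
  · by_cases h : c.1 = 0 <;> simp [act, h, F_comp]

lemma act_zero (w : List (Fin d)) : act p hd t 0 w = w := by
  rcases w with _ | ⟨c, w⟩
  · rfl
  · simp [act, F_fix]

lemma act_pre (a : ℤ × ℤ) {v w : List (Fin d)} (h : v <+: w) :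
    act p hd t a v <+: act p hd t a w := by
  obtain ⟨s, rfl⟩ := h
  rcases v with _ | ⟨c, v⟩
  · exact List.nil_prefix
  · by_cases h : c.1 = 0 <;> simp [act, h, F_pre]

noncomputable def φ : Multiplicative (ℤ × ℤ) →* autT d :=
  MonoidHom.mk' (fun g => ⟨⟨act p hd t g.toAdd, act p hd t (-g.toAdd),
    fun w => by rw [← act_add, neg_add_cancel, act_zero],
    fun w => by rw [← act_add, add_neg_cancel, act_zero]⟩,
    fun w => by
      rcases w with _ | ⟨c, w⟩
      · rfl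
      · by_cases h : c.1 = 0 <;> simp [act, h, F_len],
    fun v w => ⟨act_pre p hd t _, fun h => by
      simpa [← act_add, act_zero] using act_pre p hd t (-g.toAdd) h⟩⟩)
  fun g h => Subtype.ext (Equiv.ext (act_add p hd t _ _))

lemma lev_φ (n : ℕ) (a : ℤ × ℤ) (v : {v : List (Fin d) // v.length = n}) :
    (lev d n (φ p hd t (.ofAdd a)) v).1 = act p hd t a v.1 := rfl

def P (k : ℕ) (a : ℤ × ℤ) : Prop := ∃ m < p ^ k, (m : ℝ) ≤ t * p ^ k ∧
  ((p : ℤ) ^ k ∣ a.2 - rev p k m * a.1 ∨ (p : ℤ) ^ k ∣ a.1 - rev p k m * a.2)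

lemma fix_iff (ht : 0 ≤ t) (h2 : 2 ≤ d) (n : ℕ) (a : ℤ × ℤ) :
    (∃ v, lev d (n + 1) (φ p hd t (.ofAdd a)) v = v) ↔ P p t (n / 2) a := by
  constructor
  · rintro ⟨⟨_ | ⟨c, w⟩, hv⟩, h⟩
    · simp at hv
    obtain rfl : w.length = n := by simpa using hv
    have h' : act p hd t a (c :: w) = c :: w := congrArg Subtype.val h
    obtain ⟨m, h1, h3, h4⟩ := Rw_to p t w 0 0 (by simpa)
    refine ⟨m, h1, by simpa using h3, ?_⟩
    rw [← h4]
    by_cases hc : c.1 = 0
    · exact Or.inl (by simpa [act, hc, F_fix] using h')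
    · exact Or.inr (by simpa [act, hc, F_fix] using h')
  · rintro ⟨m, h1, h3, h4⟩
    obtain ⟨w, rfl, h5⟩ := Rw_of p t hd (by omega) _ n 0 0 m rfl h1 (by simpa using h3)
    rw [← h5] at h4
    rcases h4 with h4 | h4
    · refine ⟨⟨⟨0, by omega⟩ :: w, rfl⟩, Subtype.ext ?_⟩
      simpa [lev_φ, act, F_fix]
    · refine ⟨⟨⟨1, by omega⟩ :: w, rfl⟩, Subtype.ext ?_⟩
      simpa [lev_φ, act, F_fix]

lemma ker_iff (ht : 0 ≤ t) (h2 : 2 ≤ d) (n : ℕ) (a : ℤ × ℤ) :
    lev d (n + 1) (φ p hd t (.ofAdd a)) = 1 ↔ (p : ℤ) ^ (n / 2) ∣ a.1 ∧ (p : ℤ) ^ (n / 2) ∣ a.2 := by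
  constructor
  · intro h
    obtain ⟨w, rfl, h5⟩ := Rw_of p t hd (by omega) _ n 0 0 0 rfl
      (by have := hp.out.pos; positivity) (by simp; positivity)
    have h0 := congrArg (fun f => (f ⟨(⟨0, by omega⟩ : Fin d) :: w, rfl⟩).1) h
    have h1 := congrArg (fun f => (f ⟨(⟨1, by omega⟩ : Fin d) :: w, rfl⟩).1) h
    simp [lev_φ, act, F_fix, h5, rev_zero] at h0 h1
    exact ⟨h1, h0⟩
  · rintro ⟨h0, h1⟩
    refine Equiv.ext ?_
    rintro ⟨_ | ⟨c, w⟩, hv⟩
    · simp at hv
    obtain rfl : w.length = n := by simpa using hv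
    refine Subtype.ext ?_
    rw [lev_φ]
    show act p hd t a (c :: w) = c :: w
    by_cases hc : c.1 = 0 <;> simp only [act, hc, if_true, if_false, List.cons.injEq, true_and, F_fix]
    · exact h1.sub (h0.mul_left _)
    · exact h0.sub (h1.mul_left _)

end

end Pool.Agent.H21.FPP
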