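import Mathlib
import Pool.Agent.H21.FPPDefs

namespace Pool.Agent.H21.FT

open Pool.Agent.H21.FPP

def res (d D : ℕ) : autT d →* Equiv.Perm {v : List (Fin d) // v.length ≤ D} :=
  MonoidHom.mk' (fun g => g.1.subtypePerm fun v => by rw [g.2.1 v]) fun _ _ => rfl

def IsSec {d : ℕ} (g : autT d) (v : List (Fin d)) (h : autT d) : Prop :=
  ∀ w, g.1 (v ++ w) = g.1 v ++ h.1 w

def IsFT {d : ℕ} (G : Subgroup (autT d)) (D : ℕ) : Prop :=
  ∃ P : Subgroup (Equiv.Perm {v : List (Fin d) // v.length ≤ D}),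
    ∀ g, g ∈ G ↔ ∀ v h, IsSec g v h → res d D h ∈ P

def St {d : ℕ} (G : Subgroup (autT d)) (n : ℕ) : Subgroup (autT d) := G ⊓ (lev d n).ker

def InClosure {d : ℕ} (H : Subgroup (autT d)) (g : autT d) : Prop :=
  ∀ n, ∃ h ∈ H, lev d n h = lev d n g

end Pool.Agent.H21.FT
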