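import Pool.Agent.H11.PTDefs

namespace Pool.Agent.H21.GDDefs

/-- `u` and `v` are consecutive on the path `p` (given as its list of vertices). -/
def Adj (p : List ℕ) (u v : ℕ) : Prop := [u, v] <:+: p ∨ [v, u] <:+: p

/-- `GD k (F, M)`: `F` lists `k` pairwise edge-disjoint Hamiltonian paths on a common vertex set,
and some set of at most `M` vertices dominates each of them. -/
def GD (k : ℕ) (x : List (List ℕ) × ℕ) : Prop :=
  x.1.length = k ∧ (∀ p ∈ x.1, p.Nodup) ∧ (∀ p ∈ x.1, ∀ q ∈ x.1, ∀ v, v ∈ p ↔ v ∈ q) ∧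
    x.1.Pairwise (fun p q => ∀ u v, Adj p u v → ¬ Adj q u v) ∧
    ∃ D : Finset ℕ, D.card ≤ x.2 ∧
      ∀ p ∈ x.1, (∀ u ∈ D, u ∈ p) ∧ ∀ v ∈ p, v ∈ D ∨ ∃ u ∈ D, Adj p u v

end Pool.Agent.H21.GDDefs
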