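import Pool.Agent.H11.CL3
import Pool.Agent.H21.GDDefs

namespace Pool.Agent.H21.GD

open Pool.Agent.H11.PT Pool.Agent.H21.GDDefs List

def dom : Bool → Bool → List Bool → Bool
  | _, _, [] => true
  | p, n, x :: l => (p || x || l.headD n) && dom x n l

lemma dom_append (p n : Bool) (l l' : List Bool) :
    dom p n (l ++ l') = (dom p (l'.headD n) l && dom (l.getLastD p) n l') := by
  induction l generalizing p with
  | nil => simp [dom]
  | cons x l ih =>
    rw [cons_append, dom, ih, dom, getLastD_cons, Bool.and_assoc]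
    cases l <;> rfl

lemma dom_mono {l : List Bool} {p : Bool} (h : dom p false l) (p' n : Bool) (hp : p → p') : dom p' n l := by
  induction l generalizing p p' with
  | nil => rfl
  | cons x l ih =>
    simp only [dom, Bool.and_eq_true, Bool.or_eq_true] at h ⊢
    refine ⟨h.1.imp (·.imp_left hp) fun h => ?_, ih h.2 _ id⟩
    cases l <;> simp_all

lemma dom_flatMap {ι : Type} {l : List ι} {f : ι → List Bool} (h : ∀ i ∈ l, dom false false (f i)) :
    dom false false (l.flatMap f) := by
  induction l with
  | nil => rfl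
  | cons i l ih =>
    rw [flatMap_cons, dom_append, Bool.and_eq_true]
    exact ⟨dom_mono (h i mem_cons_self) _ _ id, dom_mono (ih fun j hj => h j (mem_cons_of_mem _ hj)) _ _ nofun⟩

lemma dom_range (f : ℕ → Bool) (k : ℕ) : ∀ s p, (∀ i, s ≤ i → i < s + k →
    (if i = s then p else f (i - 1)) || f i || (if i + 1 = s + k then true else f (i + 1))) →
    dom p true ((range' s k).map f) := by
  induction k with
  | zero => intros; rfl
  | succ k ih =>
    intro s p h
    rw [range'_succ, map_cons, dom, Bool.and_eq_true]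
    refine ⟨?_, ih _ _ fun i h1 h2 => ?_⟩
    · have := h s le_rfl (by omega)
      cases k <;> simpa [range'_succ] using this
    · have := h i (by omega) (by omega)
      rw [if_neg (by omega), show s + (k + 1) = s + 1 + k by omega] at this
      by_cases e : i = s + 1
      · subst e; simpa using this
      · rwa [if_neg e]

lemma dom_spec {α : Type} (D : α → Bool) (l : List α) : ∀ p, dom p false (l.map D) → ∀ x ∈ l,
    D x ∨ (p ∧ l.head? = some x) ∨ ∃ y, D y ∧ ([y, x] <:+: l ∨ [x, y] <:+: l) := by
  induction l with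
  | nil => simp
  | cons a l ih =>
    intro p h x hx
    simp only [map_cons, dom, Bool.and_eq_true, Bool.or_eq_true] at h
    rcases mem_cons.1 hx with rfl | hx
    · rcases h.1 with (h | h) | h
      · exact .inr (.inl ⟨h, rfl⟩)
      · exact .inl h
      · cases l with
        | nil => simp at h
        | cons b l => exact .inr (.inr ⟨b, h, .inr ⟨[], l, rfl⟩⟩)
    · rcases ih _ h.2 x hx with g | ⟨g, e⟩ | ⟨y, g, e⟩
      · exact .inl g
      · obtain ⟨l, rfl⟩ := head?_eq_some_iff.1 e
        exact .inr (.inr ⟨a, g, .inl ⟨[], l, rfl⟩⟩)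
      · exact .inr (.inr ⟨y, g, e.imp infix_cons infix_cons⟩)

lemma nb {α : Type} {l : List α} (h : l.Nodup) {a b c u : α} (h1 : [a, b, c] <:+: l) :
    ([u, b] <:+: l → u = a) ∧ ([b, u] <:+: l → u = c) := by
  obtain ⟨s, t, rfl⟩ := h1
  have key : ∀ s' t', s ++ [a, b, c] ++ t = s' ++ b :: t' → s' = s ++ [a] ∧ t' = c :: t := fun s' t' e => by
    have h' := e ▸ h
    have e' : (s ++ [a]) ++ b :: c :: t = s' ++ b :: t' := by simpa using e
    rw [← e'] at h'
    have h2 := e' ▸ h'
    have := (append_cons_inj_of_notMem (x₁ := s ++ [a]) (x₂ := s') (z₁ := c :: t) (z₂ := t') (a₁ := b)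
      (a₂ := b) (fun m => (nodup_append.1 h').2.2 b m b mem_cons_self rfl)
      (fun m => (nodup_cons.1 (nodup_append.1 h').2.1).1 m)).1 e'
    exact ⟨this.1.symm, this.2.2.symm⟩
  constructor <;> rintro ⟨s', t', e⟩
  · have := (key (s' ++ [u]) t' (by simp [← e])).1
    simpa using (append_inj' this rfl).2
  · have := (key s' (u :: t') (by simp [← e])).2
    simp_all

def Good {α : Type} (R : α → α → Prop) (S T : α → Prop) (l : List α) : Prop :=
  l.IsChain R ∧ (∀ x ∈ l.head?, S x) ∧ ∀ x ∈ l.getLast?, T x

lemma good_flatMap {α ι : Type} {R : α → α → Prop} {S T : α → Prop} (hR : ∀ x y, T x → S y → R x y)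
    {l : List ι} {f : ι → List α} (h : ∀ i ∈ l, Good R S T (f i)) : Good R S T (l.flatMap f) := by
  induction l with
  | nil => simp [Good]
  | cons i l ih =>
    obtain ⟨a1, a2, a3⟩ := h i mem_cons_self
    obtain ⟨b1, b2, b3⟩ := ih fun j hj => h j (mem_cons_of_mem _ hj)
    rw [flatMap_cons]
    refine ⟨isChain_append.2 ⟨a1, b1, fun x hx y hy => hR _ _ (a3 x hx) (b2 y hy)⟩, fun x hx => ?_,
      fun x hx => ?_⟩
    · rw [head?_append, Option.mem_def, Option.or_eq_some_iff] at hx
      exact hx.elim (a2 x) fun h => b2 x h.2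
    · rw [getLast?_append, Option.mem_def, Option.or_eq_some_iff] at hx
      exact hx.elim (b3 x) fun h => a3 x h.2

lemma chain_range {α : Type} {R : α → α → Prop} {f : ℕ → List α} (n : ℕ) (h0 : ∀ j, f j ≠ [])
    (h1 : ∀ j < n, (f j).IsChain R) (h2 : ∀ j, j + 1 < n → ∀ x ∈ (f j).getLast?, ∀ y ∈ (f (j + 1)).head?, R x y) :
    ((range n).flatMap f).IsChain R := by
  induction n with
  | zero => simp
  | succ n ih =>
    rw [range_succ, flatMap_append, flatMap_singleton]
    refine isChain_append.2 ⟨ih (fun j hj => h1 j (by omega)) fun j hj => h2 j (by omega), h1 n (by omega),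
      fun x hx y hy => ?_⟩
    cases n with
    | zero => simp at hx
    | succ n =>
      rw [range_succ, flatMap_append, flatMap_singleton, getLast?_append_of_ne_nil _ (h0 n)] at hx
      exact h2 n (by omega) x hx y hy

lemma adj_iff (p : List ℕ) (u v : ℕ) : [u, v] <:+: p ↔ (u, v) ∈ p.zip p.tail := by
  induction p with
  | nil => simp
  | cons a p ih =>
    cases p with
    | nil => simp [infix_cons_iff]
    | cons b p => rw [infix_cons_iff, ih]; simp [cons_prefix_cons]

theorem inNP {k : ℕ} (hk : k ≠ 0) : InNP (GD k) := by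
  refine PT.inNP_nats (V := fun x c => x.1.length == k && (x.1.all fun p => p.all fun v => p.count v == 1) &&
    (x.1.all fun p => x.1.all fun q => p.all fun v => q.contains v) &&
    (x.1.zipIdx.all fun p => x.1.zipIdx.all fun q => decide (q.2 ≤ p.2) || (p.1.zip p.1.tail).all fun e =>
      !(q.1.zip q.1.tail).contains e && !(q.1.zip q.1.tail).contains (e.2, e.1)) &&
    decide (c.length ≤ x.2) && x.1.all fun p => (c.all fun u => p.contains u) && p.all fun v =>
      c.contains v || c.any fun u => (p.zip p.tail).contains (u, v) || (p.zip p.tail).contains (v, u))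
    (by fun_prop) (fun x => sz x + sz x * sz x) (by fun_prop) (fun x c h => ?_) fun x h => ?_
  · simp only [Bool.and_eq_true, all_eq_true, beq_iff_eq, contains_iff_mem, Bool.or_eq_true, any_eq_true,
      decide_eq_true_eq, Bool.not_eq_true', ← Bool.not_eq_true, Prod.forall, ← adj_iff] at h
    obtain ⟨⟨⟨⟨⟨h1, h2⟩, h3⟩, h4⟩, h5⟩, h6⟩ := h
    refine ⟨h1, fun p hp => nodup_iff_count_eq_one.2 (h2 p hp), fun p hp q hq v => ⟨h3 p hp q hq v,
      h3 q hq p hp v⟩, pairwise_iff_getElem.2 fun i j hi hj ij u v a b => ?_, c.toFinset,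
      (toFinset_card_le c).trans h5, by simpa [Adj] using h6⟩
    have := (h4 x.1[i] i (by simp [mem_zipIdx_iff_getElem?]) x.1[j] j
      (by simp [mem_zipIdx_iff_getElem?])).resolve_left ij.not_ge
    rcases a with a | a <;> have := this _ _ a <;> rcases b with b | b <;> tauto
  · obtain ⟨h1, h2, h3, h4, D, h5, h6⟩ := h
    refine ⟨D.toList, ?_, ?_⟩
    · obtain ⟨F, M⟩ := x
      obtain ⟨p, hp⟩ := exists_mem_of_length_pos (l := F) (by simp only at h1; omega)
      have := sum_le_card_nsmul D.toList (sz (F, M)) fun u hu => by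
        have := sz_mem ((h6 p hp).1 u (by simpa using hu))
        have := sz_mem hp
        simp at *; omega
      have h7 : D.card ≤ sz (F, M) := by simp at *; omega
      simp only [Finset.length_toList, smul_eq_mul] at this ⊢
      nlinarith
    · simp only [Bool.and_eq_true, all_eq_true, beq_iff_eq, contains_iff_mem, Bool.or_eq_true, any_eq_true,
        decide_eq_true_eq, Bool.not_eq_true', ← Bool.not_eq_true, Prod.forall, ← adj_iff]
      refine ⟨⟨⟨⟨⟨h1, fun p hp => nodup_iff_count_eq_one.1 (h2 p hp)⟩, fun p hp q hq v => (h3 p hp q hq v).1⟩,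
        fun p i hp q j hq => or_iff_not_imp_left.2 fun ij u v a => ?_⟩, by simpa⟩, by simpa [Adj] using h6⟩
      obtain ⟨hi, rfl⟩ := List.getElem?_eq_some_iff.1 (show x.1[i]? = some p from mem_zipIdx_iff_getElem?.1 hp)
      obtain ⟨hj, rfl⟩ := List.getElem?_eq_some_iff.1 (show x.1[j]? = some q from mem_zipIdx_iff_getElem?.1 hq)
      exact not_or.1 (pairwise_iff_getElem.1 h4 i j hi hj (by omega) u v (.inl a))

end Pool.Agent.H21.GD
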