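import Pool.Agent.H21.GD1

namespace Pool.Agent.H21.GD

open Pool.Agent.H11.PT List

abbrev V := ℕ × ℕ × ℕ
abbrev Fm := List (Lit × Lit × Lit)

def rr (φ : Fm) : ℕ := 18 * φ.length + 4
def idx (φ : Fm) : List (ℕ × ℕ) := range (sz φ + 1) ×ˢ range (rr φ)
def un (A B : List ℕ) (g : ℕ × ℕ) (mid : List V) : List V :=
  A.map (fun j => (g.1, g.2, j)) ++ mid ++ B.map fun j => (g.1, g.2, j)
def seg (φ : Fm) (v : ℕ) : List V := (range (rr φ)).map fun r => (v, r, 10)
def lv (φ : Fm) (l : Lit) (s : ℕ) : V := (l.1, if l.2 = true then 9 * φ.length + 3 * s + 2 else 3 * s + 1, 10)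
def cl (φ : Fm) (c : ℕ) : List V :=
  φ[c]?.toList.flatMap fun t => [lv φ t.1 (3 * c), lv φ t.2.1 (3 * c + 1), lv φ t.2.2 (3 * c + 2)]
def m1 (φ : Fm) (g : ℕ × ℕ) : List V := if g.2 = 0 ∧ g.1 < sz φ then seg φ g.1 else []
def m2 (φ : Fm) (g : ℕ × ℕ) : List V := if g.1 < sz φ then
  (if (g.1, g.2, 10) ∈ (range (rr φ)).flatMap (cl φ) then [] else [(g.1, g.2, 10)]) else cl φ g.2
def A1 : List ℕ := [0, 1, 2, 3, 4]
def B1 : List ℕ := [9, 8, 7, 6, 5]
def A2 : List ℕ := [2, 4, 0, 3, 1]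
def B2 : List ℕ := [6, 8, 5, 9, 7]
def p1 (φ : Fm) : List V := (idx φ).flatMap fun g => un A1 B1 g (m1 φ g)
def p2 (φ : Fm) : List V := (idx φ).flatMap fun g => un A2 B2 g (m2 φ g)
def M0 (φ : Fm) : ℕ := ((idx φ).map fun g => 4 + if g.2 = 0 ∧ g.1 < sz φ then 6 * φ.length + 1 else 0).sum

variable {φ : Fm}

lemma mem_idx {g : ℕ × ℕ} : g ∈ idx φ ↔ g.1 ≤ sz φ ∧ g.2 < rr φ := by
  obtain ⟨a, b⟩ := g; simp [idx, Nat.lt_succ_iff]

lemma mem_cl {c : ℕ} {x : V} (h : x ∈ cl φ c) : c < φ.length ∧ x.1 < sz φ ∧ x.2.2 = 10 ∧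
    ∃ i < 3, x.2.1 = 9 * φ.length + 3 * (3 * c + i) + 2 ∨ x.2.1 = 3 * (3 * c + i) + 1 := by
  simp only [cl, mem_flatMap, Option.mem_toList, Option.mem_def] at h
  obtain ⟨⟨⟨a, a'⟩, ⟨b, b'⟩, d, d'⟩, ht, h⟩ := h
  have := sz_mem (mem_of_getElem? ht)
  refine ⟨(List.getElem?_eq_some_iff.1 ht).1, ?_⟩
  simp only [mem_cons, not_mem_nil, or_false, sz_pair, sz_nat] at h this
  rcases h with rfl | rfl | rfl <;> refine ⟨by simp [lv]; omega, rfl, ?_⟩
  · exact ⟨0, by omega, by cases a' <;> simp [lv]⟩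
  · exact ⟨1, by omega, by cases b' <;> simp [lv]⟩
  · exact ⟨2, by omega, by cases d' <;> simp [lv]⟩

lemma mem_un {A B : List ℕ} (h : ∀ j, j ∈ A ∨ j ∈ B ↔ j < 10) {g : ℕ × ℕ} {mid : List V} {x : V} :
    x ∈ un A B g mid ↔ (x.1, x.2.1) = g ∧ x.2.2 < 10 ∨ x ∈ mid := by
  obtain ⟨a, b, c⟩ := x
  obtain ⟨d, e⟩ := g
  simp only [un, mem_append, mem_map, Prod.mk.injEq, ← h]
  grind

lemma ab1 (j) : j ∈ A1 ∨ j ∈ B1 ↔ j < 10 := by simp [A1, B1]; omega
lemma ab2 (j) : j ∈ A2 ∨ j ∈ B2 ↔ j < 10 := by simp [A2, B2]; omega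

lemma mem_m1 {g : ℕ × ℕ} {x : V} : x ∈ m1 φ g ↔ (x.1, 0) = g ∧ x.1 < sz φ ∧ x.2.1 < rr φ ∧ x.2.2 = 10 := by
  obtain ⟨a, b, c⟩ := x
  obtain ⟨d, e⟩ := g
  simp only [m1, seg]
  split_ifs <;> simp <;> grind

lemma mem_p1 {x : V} : x ∈ p1 φ ↔ x.2.1 < rr φ ∧ (x.1 ≤ sz φ ∧ x.2.2 < 10 ∨ x.1 < sz φ ∧ x.2.2 = 10) := by
  simp only [p1, mem_flatMap, mem_un ab1, mem_m1, mem_idx]
  refine ⟨by grind, fun ⟨h, h'⟩ => h'.elim (fun h' => ⟨(x.1, x.2.1), by grind⟩) fun h' => ⟨(x.1, 0), ?_⟩⟩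
  grind

lemma m2_spec {g : ℕ × ℕ} {x : V} (h : x ∈ m2 φ g) : x.2.2 = 10 ∧ x.1 < sz φ ∧
    ((x.1, x.2.1) = g ∧ x ∉ (range (rr φ)).flatMap (cl φ) ∨ sz φ ≤ g.1 ∧ x ∈ cl φ g.2) := by
  simp only [m2] at h
  split_ifs at h with h1 h2
  · simp at h
  · rw [mem_singleton.1 h]; exact ⟨rfl, h1, .inl ⟨rfl, h2⟩⟩
  · exact ⟨(mem_cl h).2.2.1, (mem_cl h).2.1, .inr ⟨by omega, h⟩⟩

lemma mem_p2 {x : V} : x ∈ p2 φ ↔ x ∈ p1 φ := by
  simp only [p2, mem_flatMap, mem_un ab2, mem_idx, mem_p1]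
  constructor
  · rintro ⟨g, hg, h | h⟩
    · grind
    · rcases m2_spec h with ⟨h1, h2, h3 | h3⟩
      · grind
      · have := mem_cl h3.2
        simp only [rr]; omega
  rintro ⟨h, h' | h'⟩
  · exact ⟨(x.1, x.2.1), by grind⟩
  by_cases e : x ∈ (range (rr φ)).flatMap (cl φ)
  · obtain ⟨c, hc, e⟩ := mem_flatMap.1 e
    exact ⟨(sz φ, c), ⟨le_rfl, mem_range.1 hc⟩, .inr (by simpa [m2])⟩
  · obtain ⟨a, b, c⟩ := x
    obtain ⟨h1, rfl⟩ := h'
    exact ⟨(a, b), ⟨h1.le, h⟩, .inr (by simp only [m2]; rw [if_pos h1, if_neg e]; simp)⟩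

lemma nodup_un {A B : List ℕ} (h : (A ++ B).Nodup) (h' : 10 ∉ A ++ B) (g : ℕ × ℕ) {mid : List V}
    (hm : mid.Nodup) (hm' : ∀ x ∈ mid, x.2.2 = 10) : (un A B g mid).Nodup := by
  rw [un, append_assoc, (perm_append_comm_assoc _ _ _).nodup_iff, ← map_append]
  refine nodup_append.2 ⟨hm, h.map fun _ _ => by simp, fun x hx y hy e => ?_⟩
  obtain ⟨j, hj, rfl⟩ := mem_map.1 hy
  subst e
  exact h' ((hm' _ hx : j = 10) ▸ hj)

lemma nd_idx : (idx φ).Nodup := nodup_range.product nodup_range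

lemma nd1 : (p1 φ).Nodup := by
  refine nodup_flatMap.2 ⟨fun g _ => nodup_un (by decide) (by decide) g ?_ fun x hx => (mem_m1.1 hx).2.2.2,
    nd_idx.imp fun {a b} e x h1 h2 => e ?_⟩
  · simp only [m1, seg]; split_ifs
    · exact nodup_range.map fun _ _ => by simp
    · simp
  · simp only [mem_un ab1, mem_m1] at h1 h2; grind

lemma nd2 : (p2 φ).Nodup := by
  refine nodup_flatMap.2 ⟨fun g _ => nodup_un (by decide) (by decide) g ?_ fun x hx => (m2_spec hx).1,
    nd_idx.imp_of_mem fun {a b} ha hb e x h1 h2 => e ?_⟩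
  · simp only [m2, cl]; split_ifs <;> try simp
    cases h : φ[g.2]? with
    | none => simp
    | some t =>
      have := (List.getElem?_eq_some_iff.1 h).1
      simp [lv]; refine ⟨⟨?_, ?_⟩, ?_⟩ <;> intros <;> split_ifs <;> omega
  · rw [mem_idx] at ha hb
    have k : ∀ c, x ∈ cl φ c → x ∈ (range (rr φ)).flatMap (cl φ) := fun c h =>
      mem_flatMap.2 ⟨c, mem_range.2 (by have := mem_cl h; simp only [rr]; omega), h⟩
    rcases (mem_un ab2).1 h1 with h1 | h1 <;> rcases (mem_un ab2).1 h2 with h2 | h2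
    · grind
    · have := m2_spec h2; omega
    · have := m2_spec h1; omega
    · rcases (m2_spec h1).2.2 with h1 | h1 <;> rcases (m2_spec h2).2.2 with h2 | h2
      · grind
      · exact absurd (k _ h2.2) h1.2
      · exact absurd (k _ h1.2) h2.2
      · have := mem_cl h1.2
        have := mem_cl h2.2
        ext <;> omega

lemma even2 : Even (p2 φ).length := by
  rw [((perm_ext_iff_of_nodup nd2 nd1).2 fun _ => mem_p2).length_eq, p1, length_flatMap]
  refine even_iff_two_dvd.2 (dvd_sum fun n hn => ?_)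
  obtain ⟨g, -, rfl⟩ := mem_map.1 hn
  simp only [un, m1, seg, A1, B1, rr]
  split_ifs <;> simp <;> omega

def RR (E : List (ℕ × ℕ)) (F : ℕ → ℕ → Prop) (x y : V) : Prop :=
  (x.2.2, y.2.2) ∈ E ∧ (x.2.2 = 10 → y.2.2 = 10 → F x.2.1 y.2.1)
def R1 := RR [(0, 1), (1, 2), (2, 3), (3, 4), (9, 8), (8, 7), (7, 6), (6, 5), (4, 10), (10, 9), (4, 9),
  (5, 0), (10, 10)] fun a b => b = a + 1
def R2 := RR [(2, 4), (4, 0), (0, 3), (3, 1), (6, 8), (8, 5), (5, 9), (9, 7), (1, 10), (10, 6), (1, 6),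
  (7, 2), (10, 10)] fun a b => b ≠ a + 1 ∧ a ≠ b + 1

lemma R12 {x y : V} (h : R1 x y) : ¬ R2 x y ∧ ¬ R2 y x := by
  simp only [R1, R2, RR, mem_cons, Prod.mk.injEq, not_mem_nil, or_false] at h ⊢
  omega

lemma ch_mid {E F} (h : (10, 10) ∈ E) {mid : List V} (h1 : ∀ x ∈ mid, x.2.2 = 10)
    (h2 : mid.IsChain fun x y => F x.2.1 y.2.1) : mid.IsChain (RR E F) :=
  (IsChain.iff_mem.1 h2).imp fun {a b} e => ⟨by rwa [h1 a e.1, h1 b e.2.1], fun _ _ => e.2.2⟩

lemma gd1 : Good R1 (·.2.2 = 0) (·.2.2 = 5) (p1 φ) := by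
  refine good_flatMap (fun x y a b => by simp [R1, RR, a, b]) fun g _ => ?_
  have h1 : ∀ x ∈ m1 φ g, x.2.2 = 10 := fun x hx => (mem_m1.1 hx).2.2.2
  have h2 : (m1 φ g).IsChain R1 := ch_mid (by simp) h1 (by
    simp only [m1, seg]; split_ifs
    · simp [isChain_iff_getElem]
    · simp)
  refine ⟨isChain_append.2 ⟨isChain_append.2 ⟨by simp [A1, R1, RR], h2, fun x hx y hy => ?_⟩,
    by simp [B1, R1, RR], fun x hx y hy => ?_⟩, by simp [un, A1], by simp [un, B1]⟩
  · obtain rfl : (g.1, g.2, 4) = x := by simpa [A1] using hx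
    simp [R1, RR, h1 y (mem_of_mem_head? hy)]
  · obtain rfl : (g.1, g.2, 9) = y := by simpa [B1] using hy
    rw [getLast?_append, Option.mem_def, Option.or_eq_some_iff] at hx
    rcases hx with hx | hx
    · simp [R1, RR, h1 x (mem_of_mem_getLast? hx)]
    · obtain rfl : (g.1, g.2, 4) = x := by simpa [A1] using hx.2
      simp [R1, RR]

lemma gd2 : Good R2 (·.2.2 = 2) (·.2.2 = 7) (p2 φ) := by
  refine good_flatMap (fun x y a b => by simp [R2, RR, a, b]) fun g _ => ?_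
  have h1 : ∀ x ∈ m2 φ g, x.2.2 = 10 := fun x hx => (m2_spec hx).1
  have h2 : (m2 φ g).IsChain R2 := ch_mid (by simp) h1 (by
    simp only [m2, cl]; split_ifs <;> try simp
    cases φ[g.2]? <;> simp [lv]
    constructor <;> split_ifs <;> omega)
  refine ⟨isChain_append.2 ⟨isChain_append.2 ⟨by simp [A2, R2, RR], h2, fun x hx y hy => ?_⟩,
    by simp [B2, R2, RR], fun x hx y hy => ?_⟩, by simp [un, A2], by simp [un, B2]⟩
  · obtain rfl : (g.1, g.2, 1) = x := by simpa [A2] using hx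
    simp [R2, RR, h1 y (mem_of_mem_head? hy)]
  · obtain rfl : (g.1, g.2, 6) = y := by simpa [B2] using hy
    rw [getLast?_append, Option.mem_def, Option.or_eq_some_iff] at hx
    rcases hx with hx | hx
    · simp [R2, RR, h1 x (mem_of_mem_getLast? hx)]
    · obtain rfl : (g.1, g.2, 1) = x := by simpa [A2] using hx.2
      simp [R2, RR]

lemma cnt3 {c : ℕ} (h : c = 1 ∨ c = 2) (L : ℕ) : (range (3 * L + 1)).countP (· % 3 == c) = L := by
  induction L with
  | zero => rcases h with rfl | rfl <;> rfl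
  | succ L ih =>
    rw [show 3 * (L + 1) + 1 = 3 * L + 1 + 1 + 1 + 1 by ring, range_succ, range_succ, range_succ]
    simp only [countP_append, ih, countP_singleton, beq_iff_eq]
    split_ifs <;> omega

theorem complete (h : SAT3 φ) : ∃ D : V → Bool, (p1 φ).countP D ≤ M0 φ ∧
    dom false false ((p1 φ).map D) ∧ dom false false ((p2 φ).map D) := by
  obtain ⟨σ, hσ⟩ := h
  let D : V → Bool := fun x => if x.2.2 = 10 then x.2.1 % 3 == (if σ x.1 then 2 else 1) else x.2.2 % 5 % 3 == 1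
  refine ⟨D, ?_, ?_, ?_⟩
  · rw [p1, countP_flatMap]
    refine sum_le_sum fun g _ => ?_
    have := cnt3 (c := if σ g.1 then 2 else 1) (by split_ifs <;> simp) (6 * φ.length + 1)
    rw [show 3 * (6 * φ.length + 1) + 1 = rr φ by simp only [rr]; ring] at this
    simp only [Function.comp, un, countP_append, m1, seg]
    split_ifs <;> simp [A1, B1, D, countP_map, Function.comp_def, this]
    omega
  · rw [p1, map_flatMap]
    refine dom_flatMap fun g _ => ?_
    have : dom true true ((m1 φ g).map D) := by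
      simp only [m1, seg]; split_ifs
      · rw [map_map, range_eq_range']
        refine dom_range _ _ _ _ fun i _ hi => ?_
        simp only [D, Function.comp, rr] at hi ⊢
        split_ifs <;> simp <;> omega
      · rfl
    simpa [un, dom_append, A1, B1, D, dom] using this
  · rw [p2, map_flatMap]
    refine dom_flatMap fun g _ => ?_
    have : dom true true ((m2 φ g).map D) := by
      simp only [m2, cl]; split_ifs <;> try simp [dom]
      cases h : φ[g.2]? with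
      | none => simp [dom]
      | some t =>
        have k : ∀ (l : Lit) s, σ l.1 = l.2 → D (lv φ l s) := fun l s e => by
          cases h : l.2 <;> simp [D, lv, e, h] <;> omega
        have := (hσ t (mem_of_getElem? h)).imp (k _ (3 * g.2)) (Or.imp (k _ (3 * g.2 + 1)) (k _ (3 * g.2 + 2)))
        simpa [dom, or_assoc] using this
    simpa [un, dom_append, A2, B2, D, dom] using this

lemma segc {f : ℕ → Bool} {R : ℕ} (h : ∀ r, r + 2 < R → f r ∨ f (r + 1) ∨ f (r + 2)) (k : ℕ) :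
    ∀ r, r + 3 * k ≤ R → (range r).countP f + k ≤ (range (r + 3 * k)).countP f := by
  induction k with
  | zero => simp
  | succ k ih =>
    intro r hr
    have := ih r (by omega)
    have := h (r + 3 * k) (by omega)
    rw [show r + 3 * (k + 1) = r + 3 * k + 1 + 1 + 1 by ring, range_succ, range_succ, range_succ]
    simp only [countP_append, countP_singleton]
    split_ifs <;> simp_all <;> omega

theorem sound (D : V → Bool) (h : (p1 φ).countP D ≤ M0 φ)
    (h1 : ∀ a b c, [a, b, c] <:+: p1 φ → D a ∨ D b ∨ D c)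
    (h2 : ∀ a b c, [a, b, c] <:+: p2 φ → D a ∨ D b ∨ D c) : SAT3 φ := by
  have i1 : ∀ g ∈ idx φ, un A1 B1 g (m1 φ g) <:+: p1 φ := fun g hg =>
    infix_of_mem_flatten (mem_map_of_mem hg)
  have i2 : ∀ g ∈ idx φ, un A2 B2 g (m2 φ g) <:+: p2 φ := fun g hg =>
    infix_of_mem_flatten (mem_map_of_mem hg)
  have sg : ∀ v < sz φ, ∀ r, r + 2 < rr φ → D (v, r, 10) ∨ D (v, r + 1, 10) ∨ D (v, r + 2, 10) :=
    fun v hv r hr => h1 _ _ _ (IsInfix.trans (by
      obtain ⟨n, hn⟩ := Nat.exists_eq_add_of_le (show r + 3 ≤ rr φ by omega)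
      refine IsInfix.trans ?_ (infix_append _ _ _)
      simp only [m1, hv, seg, hn, true_and, if_true, range_add, range_succ, map_append, append_assoc]
      exact ⟨_, _, by rw [append_assoc]; rfl⟩) (i1 (v, 0) (mem_idx.2 ⟨hv.le, by simp [rr]⟩)))
  have lo : ∀ g ∈ idx φ, 4 + (m1 φ g).countP D ≤ (un A1 B1 g (m1 φ g)).countP D := fun g hg => by
    have t1 : ∀ s t a b c, un A1 B1 g (m1 φ g) = s ++ [a, b, c] ++ t → D a ∨ D b ∨ D c :=
      fun s t a b c e => h1 a b c (IsInfix.trans ⟨s, t, e.symm⟩ (i1 g hg))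
    have t2 : ∀ s t a b c, un A2 B2 g (m2 φ g) = s ++ [a, b, c] ++ t → D a ∨ D b ∨ D c :=
      fun s t a b c e => h2 a b c (IsInfix.trans ⟨s, t, e.symm⟩ (i2 g hg))
    have a1 := t1 [] _ _ _ _ rfl
    have a2 := t1 [_, _] _ _ _ _ rfl
    have a3 := t2 [_] _ _ _ _ rfl
    have a4 := t1 (_ ++ m1 φ g) _ _ _ _ (append_assoc _ [_, _, _] _).symm
    have a5 := t1 (_ ++ m1 φ g ++ [_, _]) [] _ _ _ (by simp [un, B1]; rfl)
    have a6 := t2 (_ ++ m2 φ g ++ [_]) [_] _ _ _ (by simp [un, B2]; rfl)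
    simp only [un, A1, B1, map_cons, map_nil, countP_append, countP_cons, countP_nil]
    grind
  have lo2 : ∀ g ∈ idx φ, (if g.2 = 0 ∧ g.1 < sz φ then 6 * φ.length + 1 else 0) ≤ (m1 φ g).countP D :=
    fun g _ => by
      simp only [m1, seg]; split_ifs with e
      · have := segc (sg _ e.2) (6 * φ.length + 1) 0 (by simp only [rr]; omega)
        have := (range_sublist.2 (show 0 + 3 * (6 * φ.length + 1) ≤ rr φ by simp only [rr]; omega)).countP_le
          (p := fun r => D (g.1, r, 10))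
        simp only [countP_map, Function.comp_def]; omega
      · rfl
  have up : ∀ v < sz φ, (range (rr φ)).countP (fun r => D (v, r, 10)) ≤ 6 * φ.length + 1 := fun v hv => by
    by_contra c
    have hg : (v, 0) ∈ idx φ := mem_idx.2 ⟨hv.le, by simp [rr]⟩
    refine h.not_gt ?_
    rw [p1, countP_flatMap]
    refine sum_lt_sum _ _ (fun g hg => ?_) ⟨_, hg, ?_⟩
    · have := lo g hg
      have := lo2 g hg
      simp only [Function.comp]; omega
    · have := lo _ hg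
      simp only [m1, seg, hv, true_and, if_true, countP_map, Function.comp_def] at this ⊢
      omega
  refine ⟨fun v => decide (∃ s < 3 * φ.length, D (v, 9 * φ.length + 3 * s + 2, 10)), fun t ht => ?_⟩
  obtain ⟨c, hc, rfl⟩ := getElem_of_mem ht
  have := sz_mem ht
  have k : ∀ (l : Lit) s, l.1 < sz φ → s < 3 * φ.length → D (lv φ l s) →
      decide (∃ s < 3 * φ.length, D (l.1, 9 * φ.length + 3 * s + 2, 10)) = l.2 := fun l s hl hs e => by
    cases h : l.2 <;> simp only [lv, h, if_true, Bool.false_eq_true, if_false] at e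
    · refine decide_eq_false fun ⟨s', hs', e'⟩ => ?_
      have b1 := segc (sg _ hl) s 0 (by simp only [rr]; omega)
      have b2 := segc (sg _ hl) (3 * φ.length + s' - s) (3 * s + 1 + 1) (by simp only [rr]; omega)
      have b3 := segc (sg _ hl) (3 * φ.length - s') (9 * φ.length + 3 * s' + 2 + 1) (by simp only [rr]; omega)
      have b4 := (range_sublist.2 (show 9 * φ.length + 3 * s' + 2 + 1 + 3 * (3 * φ.length - s') ≤ rr φ by
        simp only [rr]; omega)).countP_le (p := fun r => D (l.1, r, 10))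
      have b5 := up _ hl
      rw [show 3 * s + 1 + 1 + 3 * (3 * φ.length + s' - s) = 9 * φ.length + 3 * s' + 2 by omega] at b2
      simp only [range_succ (n := 3 * s + 1), range_succ (n := 3 * s), zero_add, countP_append, e, e',
        range_succ (n := 9 * φ.length + 3 * s' + 2), countP_singleton, if_true] at b1 b2 b3
      omega
    · exact decide_eq_true ⟨s, hs, e⟩
  have e := h2 _ _ _ (IsInfix.trans (show [lv φ φ[c].1 (3 * c), lv φ φ[c].2.1 (3 * c + 1),
    lv φ φ[c].2.2 (3 * c + 2)] <:+: _ by simp only [un, m2, cl, getElem?_eq_getElem hc]; exact ⟨_, _, by simp; rfl⟩)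
    (i2 (sz φ, c) (mem_idx.2 ⟨le_rfl, by simp only [rr]; omega⟩)))
  rcases hφ : φ[c] with ⟨⟨a, a'⟩, ⟨b, b'⟩, d, d'⟩
  simp only [hφ, sz_pair, sz_nat] at e this
  exact e.imp (k _ _ (by simp; omega) (by omega)) (Or.imp (k _ _ (by simp; omega) (by omega))
    (k _ _ (by simp; omega) (by omega)))

end Pool.Agent.H21.GD
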