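import Pool.Agent.H21.GD2

namespace Pool.Agent.H21.GD

open Pool.Agent.H11.PT Pool.Agent.H21.GDDefs List

def wrap (N x : ℕ) : ℕ := if x < N then x else x - N
def pass (N t : ℕ) (p : List V) (j : ℕ) : List (V × ℕ) :=
  p.zipIdx.map fun q => (q.1, wrap N (j + t * (q.2 % 2)))
def trk (N t : ℕ) (p : List V) : List (V × ℕ) := (range N).flatMap (pass N t p)
def code (x : V × ℕ) : ℕ := Nat.pair (Nat.pair x.1.1 x.1.2.1) (Nat.pair x.1.2.2 x.2)
def red (k : ℕ) (φ : Fm) : List (List ℕ) × ℕ :=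
  ((trk (6 * k + 1) 0 (p1 φ)).map code ::
    (range (k - 1)).map fun s => (trk (6 * k + 1) (3 * s) (p2 φ)).map code, (6 * k + 1) * M0 φ)

lemma code_inj : Function.Injective code := by
  rintro ⟨⟨a, b, c⟩, d⟩ ⟨⟨e, f, g⟩, h⟩; simp [code]; tauto

variable {N t : ℕ} {p : List V}

lemma pass_fst (j : ℕ) : (pass N t p j).map (·.1) = p := by simp [pass, Function.comp_def]

lemma mem_trk (ht : t < N) {x : V × ℕ} : x ∈ trk N t p ↔ x.1 ∈ p ∧ x.2 < N := by
  obtain ⟨x, a⟩ := x
  simp only [trk, pass, mem_flatMap, mem_range, mem_map, Prod.mk.injEq, mem_zipIdx_iff_getElem?, wrap]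
  constructor
  · rintro ⟨j, hj, ⟨y, i⟩, h, rfl, rfl⟩
    refine ⟨mem_of_getElem? h, ?_⟩
    rcases Nat.mod_two_eq_zero_or_one i with e | e <;> simp only [e] <;> split_ifs <;> omega
  · rintro ⟨h, ha⟩
    obtain ⟨i, hi⟩ := getElem?_of_mem h
    rcases Nat.mod_two_eq_zero_or_one i with e | e
    · exact ⟨a, ha, (x, i), hi, rfl, by simp [e, ha]⟩
    · refine ⟨if t ≤ a then a - t else a + N - t, ?_, (x, i), hi, rfl, ?_⟩ <;> try simp only [e]
      all_goals split_ifs <;> omega

lemma nd_trk (ht : t < N) (h : p.Nodup) : (trk N t p).Nodup := by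
  have e : (trk N t p).toFinset = p.toFinset ×ˢ Finset.range N := by ext; simp [mem_trk ht]
  refine Multiset.coe_nodup.1 (Multiset.toFinset_card_eq_card_iff_nodup.1 ?_)
  rw [toFinset_coe, e, Finset.card_product, toFinset_card_of_nodup h]
  simp [trk, pass, mul_comm]

lemma ch_pair {α : Type} {R : α → α → Prop} {l : List α} (h : l.IsChain R) {x y : α} (e : [x, y] <:+: l) :
    R x y := by
  obtain ⟨s, t, rfl⟩ := e
  exact isChain_pair.1 (isChain_append.1 (isChain_append.1 h).1).2.1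

def Df (N t a b : ℕ) : Prop := a < N ∧ b < N ∧
  (b = a + t ∨ b + N = a + t ∨ a = b + t ∨ a + N = b + t ∨ a + 1 = b + t ∨ a + 1 + N = b + t)

lemma ch_trk {R : V → V → Prop} {S T : V → Prop} (ht : t < N) (h : Good R S T p) (h0 : p ≠ [])
    (hR : ∀ x y, T x → S y → R x y) (he : t = 0 ∨ Even p.length) {x y : V × ℕ}
    (e : [x, y] <:+: trk N t p) : R x.1 y.1 ∧ Df N t x.2 y.2 := by
  refine ch_pair (R := fun x y : V × ℕ => R x.1 y.1 ∧ Df N t x.2 y.2)
    (chain_range N (fun j => by simpa [pass]) (fun j hj => ?_) fun j hj x hx y hy => ?_) e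
  · refine isChain_iff_getElem.2 fun i hi => ?_
    simp only [pass, getElem_map, getElem_zipIdx, zero_add, Df, wrap]
    refine ⟨isChain_iff_getElem.1 h.1 i _, ?_⟩
    obtain ⟨e, e'⟩ | ⟨e, e'⟩ : i % 2 = 0 ∧ (i + 1) % 2 = 1 ∨ i % 2 = 1 ∧ (i + 1) % 2 = 0 := by omega
    all_goals rw [e, e']; split_ifs <;> omega
  · refine ⟨hR _ _ (h.2.2 _ ?_) (h.2.1 _ ?_), ?_⟩
    · rw [← pass_fst (N := N) (t := t) (p := p) j, getLast?_map, Option.mem_def.1 hx]; rfl
    · rw [← pass_fst (N := N) (t := t) (p := p) (j + 1), head?_map, Option.mem_def.1 hy]; rfl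
    have l := length_pos_iff.2 h0
    simp only [pass, head?_eq_getElem?, getLast?_eq_getElem?, getElem?_map, getElem?_zipIdx, length_map,
      length_zipIdx, getElem?_eq_getElem l, getElem?_eq_getElem (Nat.sub_one_lt l.ne'), Option.map_some,
      Option.mem_def, Option.some.injEq] at hx hy
    subst hx hy
    simp only [Df, wrap]
    rcases he with rfl | ⟨n, he⟩
    · split_ifs <;> omega
    · rw [show (0 + (p.length - 1)) % 2 = 1 by omega]; split_ifs <;> omega

lemma adj_map {l : List (V × ℕ)} {u v : ℕ} (h : Adj (l.map code) u v) :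
    ∃ x y, u = code x ∧ v = code y ∧ ([x, y] <:+: l ∨ [y, x] <:+: l) := by
  have k : ∀ u v, [u, v] <:+: l.map code → ∃ x y, u = code x ∧ v = code y ∧ [x, y] <:+: l := fun u v h => by
    obtain ⟨l', g, e⟩ := infix_map_iff.1 h
    rcases l' with _ | ⟨x, _ | ⟨y, _ | _⟩⟩ <;> simp at e
    exact ⟨x, y, e.1, e.2, g⟩
  rcases h with h | h <;> obtain ⟨x, y, a, b, h⟩ := k _ _ h
  · exact ⟨x, y, a, b, .inl h⟩
  · exact ⟨y, x, b, a, .inr h⟩

lemma ne1 (φ : Fm) : (0, 0, 0) ∈ p1 φ := mem_p1.2 (by simp [rr])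

theorem main {k : ℕ} (hk : 2 ≤ k) (φ : Fm) : SAT3 φ ↔ GD k (red k φ) := by
  have mem : ∀ q ∈ (red k φ).1, ∃ t < 6 * k + 1, ∃ p, (p = p1 φ ∨ p = p2 φ) ∧
      q = (trk (6 * k + 1) t p).map code := fun q hq => by
    rcases mem_cons.1 hq with rfl | hq
    · exact ⟨0, by omega, _, .inl rfl, rfl⟩
    · obtain ⟨s, hs, rfl⟩ := mem_map.1 hq
      exact ⟨3 * s, by simp at hs; omega, _, .inr rfl, rfl⟩
  have nd : ∀ q ∈ (red k φ).1, q.Nodup := fun q hq => by
    obtain ⟨t, ht, p, rfl | rfl, rfl⟩ := mem q hq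
    · exact (nd_trk ht nd1).map code_inj
    · exact (nd_trk ht nd2).map code_inj
  have mm : ∀ q ∈ (red k φ).1, ∀ v, v ∈ q ↔ ∃ x, (x.1 ∈ p1 φ ∧ x.2 < 6 * k + 1) ∧ code x = v := fun q hq v => by
    obtain ⟨t, ht, p, rfl | rfl, rfl⟩ := mem q hq <;> simp only [mem_map, mem_trk ht, mem_p2]
  have c1 := fun x y => ch_trk (N := 6 * k + 1) (t := 0) (x := x) (y := y) (by omega) (gd1 (φ := φ))
    (ne_nil_of_mem (ne1 φ)) (fun x y a b => by simp [R1, RR, a, b]) (.inl rfl)
  have c2 := fun t ht x y => ch_trk (N := 6 * k + 1) (t := t) (x := x) (y := y) ht (gd2 (φ := φ))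
    (ne_nil_of_mem (mem_p2.2 (ne1 φ))) (fun x y a b => by simp [R2, RR, a, b]) (.inr even2)
  constructor
  · intro h
    obtain ⟨D, h0, h1, h2⟩ := complete h
    refine ⟨by simp [red]; omega, nd, fun p hp q hq v => by rw [mm p hp, mm q hq], pairwise_cons.2 ⟨?_, ?_⟩,
      (((trk (6 * k + 1) 0 (p1 φ)).filter fun x => D x.1).map code).toFinset, ?_, fun q hq => ⟨?_, ?_⟩⟩
    · intro q hq u v a b
      obtain ⟨s, hs, rfl⟩ := mem_map.1 hq
      obtain ⟨x, y, rfl, rfl, a'⟩ := adj_map a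
      obtain ⟨x', y', e, e', b'⟩ := adj_map b
      obtain rfl := code_inj e
      obtain rfl := code_inj e'
      have hs : 3 * s < 6 * k + 1 := by simp at hs; omega
      have a := a'.imp (fun a => R12 (c1 _ _ a).1) fun a => R12 (c1 _ _ a).1
      have b := b'.imp (fun b => (c2 _ hs _ _ b).1) fun b => (c2 _ hs _ _ b).1
      tauto
    · refine pairwise_map.2 ((pairwise_lt_range).imp_of_mem fun {s s'} hs hs' lt u v a b => ?_)
      obtain ⟨x, y, rfl, rfl, a'⟩ := adj_map a
      obtain ⟨x', y', e, e', b'⟩ := adj_map b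
      obtain rfl := code_inj e
      obtain rfl := code_inj e'
      rw [mem_range] at hs hs'
      have a := a'.imp (fun a => (c2 (3 * s) (by omega) _ _ a).2) fun a => (c2 (3 * s) (by omega) _ _ a).2
      have b := b'.imp (fun a => (c2 (3 * s') (by omega) _ _ a).2) fun a => (c2 (3 * s') (by omega) _ _ a).2
      simp only [Df] at a b
      omega
    · refine (toFinset_card_le _).trans ?_
      rw [length_map, ← countP_eq_length_filter, trk, countP_flatMap]
      refine (sum_le_card_nsmul _ (M0 φ) fun n hn => ?_).trans (by simp [red])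
      obtain ⟨j, -, rfl⟩ := mem_map.1 hn
      rwa [← pass_fst (N := 6 * k + 1) (t := 0) (p := p1 φ) j, countP_map] at h0
    · intro u hu
      obtain ⟨x, hx, rfl⟩ := mem_map.1 (mem_toFinset.1 hu)
      exact (mm q hq _).2 ⟨x, (mem_trk (by omega)).1 (mem_filter.1 hx).1, rfl⟩
    · obtain ⟨t, ht, p, hp, rfl⟩ := mem q hq
      intro v hv
      obtain ⟨x, hx, rfl⟩ := mem_map.1 hv
      have k0 : ∀ y ∈ trk (6 * k + 1) t p, D y.1 →
          code y ∈ (((trk (6 * k + 1) 0 (p1 φ)).filter fun x => D x.1).map code).toFinset := fun y hy h =>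
        mem_toFinset.2 (mem_map_of_mem (mem_filter.2 ⟨(mem_trk (by omega)).2 (by
          rcases hp with rfl | rfl <;> simpa [mem_trk ht, mem_p2] using hy), h⟩))
      rcases dom_spec (fun x : V × ℕ => D x.1) (trk (6 * k + 1) t p) false (by
        rw [trk, map_flatMap]
        refine dom_flatMap fun j _ => ?_
        rw [show (pass (6 * k + 1) t p j).map (fun x => D x.1) = p.map D by
          conv_rhs => rw [← pass_fst (N := 6 * k + 1) (t := t) (p := p) j, map_map]
          rfl]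
        rcases hp with rfl | rfl <;> assumption) x hx with h | h | ⟨y, h, e⟩
      · exact .inl (k0 x hx h)
      · simp at h
      · exact .inr ⟨_, k0 y (e.elim (fun e => e.subset (by simp)) fun e => e.subset (by simp)) h,
          e.imp (·.map code) (·.map code)⟩
  rintro ⟨-, -, -, -, D, h0, h1⟩
  have tri : ∀ p, (trk (6 * k + 1) 0 p).map code ∈ (red k φ).1 → ∀ j < 6 * k + 1, ∀ a b c, [a, b, c] <:+: p →
      decide (code (a, j) ∈ D) ∨ decide (code (b, j) ∈ D) ∨ decide (code (c, j) ∈ D) := by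
    intro p hp j hj a b c e
    have e1 : pass (6 * k + 1) 0 p j = p.map (·, j) := by
      conv_rhs => rw [← zipIdx_map_fst 0 p, map_map]
      simp [pass, wrap, hj]
    have e2 : [code (a, j), code (b, j), code (c, j)] <:+: (trk (6 * k + 1) 0 p).map code :=
      ((e.map (·, j)).trans (e1 ▸ infix_of_mem_flatten (mem_map_of_mem (mem_range.2 hj)))).map code
    rcases (h1 _ hp).2 _ (e2.subset (a := code (b, j)) (by simp)) with h | ⟨u, hu, h | h⟩
    · simp [h]
    · simp [← (nb (nd _ hp) e2).1 h, hu]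
    · simp [← (nb (nd _ hp) e2).2 h, hu]
  obtain ⟨j, hj, h⟩ : ∃ j < 6 * k + 1, (p1 φ).countP (fun x => decide (code (x, j) ∈ D)) ≤ M0 φ := by
    by_contra! c
    have h2 : ((trk (6 * k + 1) 0 (p1 φ)).map code).countP (· ∈ D) ≤ D.card := by
      rw [countP_eq_length_filter, ← toFinset_card_of_nodup ((nd _ mem_cons_self).filter _)]
      exact Finset.card_le_card fun u hu => by simp_all
    rw [countP_map, trk, countP_flatMap] at h2
    have := card_nsmul_le_sum (((range (6 * k + 1)).map ((countP ((fun x => decide (x ∈ D)) ∘ code)) ∘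
      pass (6 * k + 1) 0 (p1 φ)))) (M0 φ + 1) fun n hn => by
        obtain ⟨j, hj, rfl⟩ := mem_map.1 hn
        rw [mem_range] at hj
        have := c j hj
        rw [← zipIdx_map_fst 0 (p1 φ), countP_map] at this
        simpa [pass, wrap, hj, countP_map, Function.comp_def] using this
    simp only [red, length_map, length_range, smul_eq_mul] at this h0
    nlinarith
  exact sound _ h (tri _ mem_cons_self j hj) (tri _ (mem_cons_of_mem _ (mem_map.2 ⟨0, by simp; omega, rfl⟩)) j hj)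

theorem hard {k : ℕ} (hk : 2 ≤ k) : NPHard (GD k) :=
  (hard_SAT3.red (red k) (by
    unfold red trk pass code wrap p1 p2 M0 un m1 m2 seg cl lv idx rr; fun_prop) (main hk)).npHard

end Pool.Agent.H21.GD
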