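import Pool.Agent.H21.DS

namespace Pool.Agent.H21.ER

open Pool.Agent.H11.PT List

abbrev V3 := ℝ × ℝ × ℝ
def det (a b c : V3) : ℝ := a.1 * (b.2.1 * c.2.2 - b.2.2 * c.2.1) - a.2.1 * (b.1 * c.2.2 - b.2.2 * c.1)
  + a.2.2 * (b.1 * c.2.1 - b.2.1 * c.1)

lemma k4add {p q r s : V3} {a b c d : ℝ} (h1 : det p q (0,1,0) = 0) (h2 : det r s (0,1,0) = 0)
  (h3 : det p r (1,a,0) = 0) (h4 : det q s (1,b,0) = 0) (h5 : det p s (1,c,0) = 0) (h6 : det q r (1,d,0) = 0)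
  (g1 : det p q r ≠ 0) (g2 : det p q s ≠ 0) (g3 : det p r s ≠ 0) (g4 : det q r s ≠ 0) : a + b = c + d := by
  obtain ⟨p1, p2, p3⟩ := p; obtain ⟨q1, q2, q3⟩ := q; obtain ⟨r1, r2, r3⟩ := r; obtain ⟨s1, s2, s3⟩ := s
  simp only [det] at *
  by_cases p3 = 0 <;> by_cases q3 = 0 <;> by_cases r3 = 0 <;> by_cases s3 = 0 <;> grind

lemma k4mul {p q r s : V3} {a b c d : ℝ} (h1 : det p q (1,0,0) = 0) (h2 : det r s (0,1,0) = 0)
  (h3 : det p r (1,a,0) = 0) (h4 : det q s (1,b,0) = 0) (h5 : det p s (1,c,0) = 0) (h6 : det q r (1,d,0) = 0)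
  (g1 : det p q r ≠ 0) (g2 : det p q s ≠ 0) (g3 : det p r s ≠ 0) (g4 : det q r s ≠ 0) : a * b = c * d := by
  obtain ⟨p1, p2, p3⟩ := p; obtain ⟨q1, q2, q3⟩ := q; obtain ⟨r1, r2, r3⟩ := r; obtain ⟨s1, s2, s3⟩ := s
  simp only [det] at *
  by_cases p3 = 0 <;> by_cases q3 = 0 <;> by_cases r3 = 0 <;> by_cases s3 = 0 <;> grind

lemma pr0 {p q r z o i c : V3} (h1 : det (0,1,0) (0,0,1) o = 0) (h2 : det q r o = 0)
  (h3 : det (1,0,0) (0,0,1) i = 0) (h4 : det p r i = 0) (h5 : det (1,0,0) (0,1,0) c = 0) (h6 : det p q c = 0)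
  (h7 : det (1,0,0) p z = 0) (h8 : det (0,1,0) q z = 0) (h9 : det (0,0,1) r z = 0)
  (hz : z ≠ 0) (ho : o ≠ 0) (hi : i ≠ 0) (hc : c ≠ 0)
  (n2 : p.2.1 ≠ 0) (n3 : q.1 ≠ 0) (n4 : r.1 ≠ 0) (n1 : p.2.2 ≠ 0) (n5 : q.2.2 ≠ 0) (n6 : r.2.1 ≠ 0) (g1 : det (0,1,0) p q ≠ 0) (g2 : det (1,0,0) p q ≠ 0)
  (g3 : det (1,0,0) p r ≠ 0) :
  ∃ l m : ℝ, l ≠ 0 ∧ m ≠ 0 ∧ c = l • o + m • i ∧ det o i (0,0,1) ≠ 0 := by
  obtain ⟨p1, p2, p3⟩ := p; obtain ⟨q1, q2, q3⟩ := q; obtain ⟨r1, r2, r3⟩ := r; obtain ⟨z1, z2, z3⟩ := z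
  obtain ⟨o1, o2, o3⟩ := o; obtain ⟨i1, i2, i3⟩ := i; obtain ⟨c1, c2, c3⟩ := c
  simp only [det, ne_eq, Prod.mk_eq_zero] at *
  have : z1 ≠ 0 := by rintro rfl; simp_all
  have : z2 ≠ 0 := by rintro rfl; simp_all
  have : z3 ≠ 0 := by rintro rfl; simp_all
  obtain rfl : o1 = 0 := by grind
  obtain rfl : i2 = 0 := by grind
  obtain rfl : c3 = 0 := by grind
  obtain ⟨s, p, rfl, rfl, rfl⟩ : ∃ s p, p1 = s * (z1 + p) ∧ p2 = s * z2 ∧ p3 = s * z3 :=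
    ⟨p2 / z2, p1 * z2 / p2 - z1, by refine ⟨?_, ?_, ?_⟩ <;> field_simp <;> grind⟩
  obtain ⟨t, q, rfl, rfl, rfl⟩ : ∃ s p, q1 = s * z1 ∧ q2 = s * (z2 + p) ∧ q3 = s * z3 :=
    ⟨q1 / z1, q2 * z1 / q1 - z2, by refine ⟨?_, ?_, ?_⟩ <;> field_simp <;> grind⟩
  obtain ⟨u, r, rfl, rfl, rfl⟩ : ∃ s p, r1 = s * z1 ∧ r2 = s * z2 ∧ r3 = s * (z3 + p) :=
    ⟨r1 / z1, r3 * z1 / r1 - z3, by refine ⟨?_, ?_, ?_⟩ <;> field_simp <;> grind⟩
  have : s ≠ 0 := by grind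
  have : t ≠ 0 := by grind
  have : u ≠ 0 := by grind
  have : p ≠ 0 := by grind
  have : q ≠ 0 := by grind
  have : r ≠ 0 := by grind
  have b1 : r * o2 + q * o3 = 0 := mul_left_cancel₀ (a := t * u * z1) (by positivity) (by grind)
  have b2 : r * i1 + p * i3 = 0 := mul_left_cancel₀ (a := s * u * z2) (by positivity) (by grind)
  have b3 : q * c1 + p * c2 = 0 := mul_left_cancel₀ (a := s * t * z3) (by positivity) (by grind)
  clear h1 h2 h3 h4 h5 h6 h7 h8 h9 g1 g2 g3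
  have : o2 ≠ 0 := by rintro rfl; simp_all
  have : i1 ≠ 0 := by rintro rfl; simp_all
  refine ⟨c2 / o2, c1 / i1, ?_, ?_, ?_, by simp [*]⟩
  · rw [div_eq_zero_iff]; rintro (rfl | rfl) <;> simp_all
  · rw [div_eq_zero_iff]; rintro (rfl | rfl) <;> simp_all
  simp only [Prod.smul_mk, Prod.mk_add_mk, Prod.mk.injEq, smul_eq_mul]
  refine ⟨by grind, by grind, mul_left_cancel₀ (a := p * q) (by positivity) (by grind)⟩

lemma frame {a b c : V3} (h : det a b c ≠ 0) : ∃ T : V3 ≃ₗ[ℝ] V3, T a = (1,0,0) ∧ T b = (0,1,0) ∧ T c = (0,0,1) ∧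
    ∀ x y z, det (T x) (T y) (T z) = 0 ↔ det x y z = 0 := by
  refine ⟨⟨⟨⟨fun x => (det x b c / det a b c, det a x c / det a b c, det a b x / det a b c), ?_⟩, ?_⟩,
    fun x => x.1 • a + x.2.1 • b + x.2.2 • c, ?_, ?_⟩, ?_, ?_, ?_, fun x y z => ?_⟩
  · intro x y; ext <;> simp [det] <;> ring
  · intro x y; ext <;> simp [det] <;> ring
  · intro x; ext <;> simp <;> field_simp <;> simp [det] <;> ring
  · intro x; ext <;> simp <;> field_simp <;> simp [det] <;> ring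
  · ext <;> simp [h] <;> simp only [det] <;> ring
  · ext <;> simp [h] <;> simp only [det] <;> ring
  · ext <;> simp [h] <;> simp only [det] <;> ring
  · have : det (det x b c / det a b c, det a x c / det a b c, det a b x / det a b c)
      (det y b c / det a b c, det a y c / det a b c, det a b y / det a b c)
      (det z b c / det a b c, det a z c / det a b c, det a b z / det a b c) = det x y z / det a b c := by
      rw [det]; field_simp; simp only [det]; ring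
    simp [this, h]

lemma prism {a b c p q r z o i d : V3} (h1 : det b c o = 0) (h2 : det q r o = 0)
  (h3 : det a c i = 0) (h4 : det p r i = 0) (h5 : det a b d = 0) (h6 : det p q d = 0)
  (h7 : det a p z = 0) (h8 : det b q z = 0) (h9 : det c r z = 0)
  (hz : z ≠ 0) (ho : o ≠ 0) (hi : i ≠ 0) (hc : d ≠ 0) (g0 : det a b c ≠ 0)
  (n2 : det a c p ≠ 0) (n3 : det b c q ≠ 0) (n4 : det b c r ≠ 0) (n1 : det a b p ≠ 0) (n5 : det a b q ≠ 0)
  (n6 : det a c r ≠ 0) (g1 : det b p q ≠ 0) (g2 : det a p q ≠ 0) (g3 : det a p r ≠ 0) :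
  ∃ l m : ℝ, l ≠ 0 ∧ m ≠ 0 ∧ d = l • o + m • i ∧ det o i c ≠ 0 := by
  obtain ⟨T, t1, t2, t3, t⟩ := frame g0
  rw [ne_eq, ← T.map_eq_zero_iff] at hz ho hi hc
  rw [← t] at h1 h2 h3 h4 h5 h6 h7 h8 h9
  rw [ne_eq, ← t] at n1 n2 n3 n4 n5 n6 g1 g2 g3
  simp only [t1, t2, t3] at h1 h2 h3 h4 h5 h6 h7 h8 h9 n1 n2 n3 n4 n5 n6 g1 g2 g3
  obtain ⟨l, m, a1, a2, a3, a4⟩ := pr0 h1 h2 h3 h4 h5 h6 h7 h8 h9 hz ho hi hc (by simpa [det] using n2)
    (by simpa [det] using n3) (by simpa [det] using n4) (by simpa [det] using n1) (by simpa [det] using n5)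
    (by simpa [det] using n6) g1 g2 g3
  exact ⟨l, m, a1, a2, T.injective (by simp [a3]), by rwa [ne_eq, ← t, t3]⟩

abbrev Pt := ℕ × ℕ
abbrev Ed := Pt × Pt × Pt
def k4 (N g : ℕ) (c : DC) : List Ed := [((g, 0), (g, 1), (0, if c.1 = 0 then N else 0)), ((g, 2), (g, 3), (0, N)),
  ((g, 0), (g, 2), (0, c.2.1)), ((g, 1), (g, 3), (0, c.2.2.1)), ((g, 0), (g, 3), (0, c.2.2.2.1)),
  ((g, 1), (g, 2), (0, c.2.2.2.2))]
def e3 (N : ℕ) (D : List DC) (g : ℕ) : List Ed := if g = 0 then [] else if g < N then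
  [((g, 1), (g, 2), (0, 0)), ((g, 4), (g, 5), (0, 0)), ((g, 0), (g, 2), (0, N)), ((g, 3), (g, 5), (0, N)),
    ((g, 0), (g, 1), (0, g)), ((g, 3), (g, 4), (0, g)), ((g, 0), (g, 3), (g, 6)), ((g, 1), (g, 4), (g, 6)),
    ((g, 2), (g, 5), (g, 6))] else k4 N g (D.getD (g - N) (0, 0, 0, 0, 0))
def ea (N g : ℕ) : List Ed := if g = 0 then [] else if g < N then
  [((g, 0), (g, 4), (g, 7)), ((g, 1), (g, 5), (g, 8)), ((g, 2), (g, 3), (g, 9))] else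
  [((g, 0), (g, 4), (g, 7)), ((g, 1), (g, 4), (g, 8)), ((g, 2), (g, 4), (g, 9)), ((g, 3), (g, 4), (g, 10))]
def eb (N g : ℕ) : List Ed := if g = 0 then [] else if g < N then
  [((g, 0), (g, 5), (g, 10)), ((g, 1), (g, 3), (g, 11)), ((g, 2), (g, 4), (g, 12))] else []
def mv (N g : ℕ) : ℕ := if g = 0 then 0 else if g < N then 6 else 5
def np (N g : ℕ) : ℕ := if g = 0 then N + 1 else if g < N then 7 else 5

lemma det_smul (p q x : V3) (l : ℝ) : det p q (l • x) = l * det p q x := by simp [det]; ring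

theorem sound {N : ℕ} {D : List DC} (hN : 2 ≤ N) (hD : ∀ d ∈ D, d.val N) (f : Pt → V3)
    (h0 : ∀ g < N + D.length, ∀ e ∈ e3 N D g, f e.2.2 ≠ 0 ∧ det (f e.1) (f e.2.1) (f e.2.2) = 0)
    (hg : ∀ g < N + D.length, ∀ i j k, i < j → j < k → k < mv N g → det (f (g, i)) (f (g, j)) (f (g, k)) ≠ 0) :
    ∃ v : ℕ → ℝ, v 0 = 0 ∧ v 1 ≠ 0 ∧ ∀ d ∈ D, d.ok v := by
  have P (k) (h1 : k ≠ 0) (h2 : k < N) : ∃ l m : ℝ, l ≠ 0 ∧ m ≠ 0 ∧ f (0, k) = l • f (0, 0) + m • f (0, N) ∧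
      det (f (0, 0)) (f (0, N)) (f (k, 2)) ≠ 0 := by
    have a := h0 k (by omega)
    have b (i j l) (h : i < j ∧ j < l ∧ l < 6) := hg k (by omega) i j l h.1 h.2.1 (by simp [mv, *])
    simp only [e3, h1, h2, if_true, if_false, forall_mem_cons] at a
    obtain ⟨a1, a2, a3, a4, a5, a6, a7, a8, a9, -⟩ := a
    exact prism a1.2 a2.2 a3.2 a4.2 a5.2 a6.2 a7.2 a8.2 a9.2 a7.1 a1.1 a3.1 a5.1 (b _ _ _ (by omega))
      (b _ _ _ (by omega)) (b _ _ _ (by omega)) (b _ _ _ (by omega)) (b _ _ _ (by omega)) (b _ _ _ (by omega))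
      (b _ _ _ (by omega)) (b _ _ _ (by omega)) (b _ _ _ (by omega)) (b _ _ _ (by omega))
  obtain ⟨-, -, -, -, -, hw⟩ := P 1 (by omega) (by omega)
  obtain ⟨T, t1, t2, -, t⟩ := frame hw
  have Q (k) : ∃ v : ℝ, (k = 0 → v = 0) ∧ (k = 1 → v ≠ 0) ∧ (k < N → ∀ p q, det p q (f (0, k)) = 0 →
      det (T p) (T q) (1, v, 0) = 0) := by
    by_cases h1 : k = 0
    · exact ⟨0, by simp, by omega, fun _ p q h => by rw [← t1, t, ← h, h1]⟩
    by_cases h2 : k < N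
    · obtain ⟨l, m, a1, a2, a3, -⟩ := P k h1 h2
      refine ⟨m / l, by omega, fun _ => by positivity, fun _ p q h => ?_⟩
      rw [← t, a3, show T (l • f (0, 0) + m • f (0, N)) = l • (1, m / l, 0) by simp [t1, t2]; field_simp,
        det_smul] at h
      exact (mul_eq_zero.1 h).resolve_left a1
    · exact ⟨0, by simp, by omega, by omega⟩
  choose v v0 v1 v2 using Q
  refine ⟨v, v0 0 rfl, v1 1 rfl, fun d hd => ?_⟩
  have hv := hD d hd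
  obtain ⟨j, hj, rfl⟩ := getElem_of_mem hd
  have a := h0 (N + j) (by omega)
  have b (i k l) (h : i < k ∧ k < l ∧ l < 5) :=
    mt (t _ _ _).1 (hg (N + j) (by omega) i k l h.1 h.2.1 (by simp only [mv]; split_ifs <;> omega))
  simp only [e3, show N + j ≠ 0 by omega, show ¬N + j < N by omega, if_false, k4, forall_mem_cons,
    Nat.add_sub_cancel_left, getD_eq_getElem _ _ hj] at a
  obtain ⟨a1, a2, a3, a4, a5, a6, -⟩ := a
  have a3 := v2 _ hv.1 _ _ a3.2; have a4 := v2 _ hv.2.1 _ _ a4.2; have a5 := v2 _ hv.2.2.1 _ _ a5.2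
  have a6 := v2 _ hv.2.2.2.1 _ _ a6.2
  have a2 := (t _ _ _).2 a2.2
  have a1 := (t _ _ _).2 a1.2
  simp only [DC.ok]; split_ifs at a1 ⊢ <;> simp only [t1, t2] at a1 a2
  exacts [k4add a1 a2 a3 a4 a5 a6 (b _ _ _ (by omega)) (b _ _ _ (by omega)) (b _ _ _ (by omega)) (b _ _ _ (by omega)),
    k4mul a1 a2 a3 a4 a5 a6 (b _ _ _ (by omega)) (b _ _ _ (by omega)) (b _ _ _ (by omega)) (b _ _ _ (by omega))]

end Pool.Agent.H21.ER
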