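import Pool.Agent.H21.Geo1

namespace Pool.Agent.H21.ER

open Pool.Agent.H11.PT List Filter

def es (N : ℕ) (D : List DC) (g : ℕ) : List Ed := e3 N D g ++ (ea N g ++ eb N g)
def prq (w : ℝ) (i : ℕ) : V3 := [(0, w, 1), (-1, 0, 1), (0, 0, 1), (2 * w + 3, -3, 1), (2 * w + 1, -2 * w - 3, 1),
  (2 * w + 3, -2 * w - 3, 1)].getD i (-2 * w - 3, 2 * w + 3, 1)
def kq (t : ℕ) (a c d : ℝ) (i : ℕ) : V3 := (if t = 0 then [(1, a, 1), (1, d, 1), (0, 0, 1), (0, a - c, 1)] else
  [(d, 0, 1), (a, 0, 1), (0, -(a * d), 1), (0, -(c * d), 1)]).getD i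
    (2 + a + c + d + a * d + c * d, -(2 + a + c + d + a * d + c * d), 1)
def f0 (N : ℕ) (D : List DC) (v : ℕ → ℝ) (p : Pt) : V3 :=
  if p.1 = 0 then (if p.2 = N then (0, 1, 0) else (1, v p.2, 0)) else if p.1 < N then prq (v p.1) p.2 else
  let c := D.getD (p.1 - N) (0, 0, 0, 0, 0); kq c.1 (v c.2.1) (v c.2.2.2.1) (v c.2.2.2.2) p.2

lemma getD_mem {N g : ℕ} {D : List DC} (h : g < N + D.length) (h' : ¬g < N) :
    D.getD (g - N) (0, 0, 0, 0, 0) ∈ D := by
  rw [getD_eq_getElem _ _ (by omega)]; exact getElem_mem _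

lemma loc_pr {N g : ℕ} {D : List DC} {v : ℕ → ℝ} (hv : StrictMono v) (h0 : v 0 = 0) (h1 : g ≠ 0) (h2 : g < N) :
    (∀ e ∈ e3 N D g, det (f0 N D v e.1) (f0 N D v e.2.1) (f0 N D v e.2.2) = 0) ∧
    ∀ e ∈ es N D g, ∀ s : Pt, (s.1 = 0 ∨ s.1 = g) → s.2 < np N s.1 → s ≠ e.1 → s ≠ e.2.1 → s ≠ e.2.2 →
      det (f0 N D v e.1) (f0 N D v e.2.1) (f0 N D v s) ≠ 0 := by
  have hw : 0 < v g := h0 ▸ hv (by omega)
  have : 0 ≠ N := by omega
  refine ⟨by simp [e3, f0, prq, det, h1, h2, h2.ne, this, h0]; grind, fun e he ⟨k, i⟩ a b c d f => ?_⟩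
  simp only [es, e3, ea, eb, h1, h2, if_true, if_false, cons_append, nil_append, mem_cons, not_mem_nil,
    or_false] at he
  rcases a with (rfl : k = 0) | (rfl : k = g)
  · have hi : 0 ≤ v i := h0 ▸ hv.monotone (Nat.zero_le _)
    have := hv.injective.eq_iff (a := i) (b := 0); have := hv.injective.eq_iff (a := i) (b := g)
    by_cases hN : i = N <;> rcases he with rfl | rfl | rfl | rfl | rfl | rfl | rfl | rfl | rfl | rfl | rfl | rfl |
      rfl | rfl | rfl <;> simp [f0, prq, det, h1, h2, hN] at f ⊢ <;> first | grind | nlinarith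
  · simp only [np, h1, h2, if_true, if_false] at b
    interval_cases i <;> rcases he with rfl | rfl | rfl | rfl | rfl | rfl | rfl | rfl | rfl | rfl | rfl | rfl |
      rfl | rfl | rfl <;> simp [f0, prq, det, h1, h2] at c d f ⊢ <;> first | grind | nlinarith

lemma loc_k4 {N g : ℕ} {D : List DC} {v : ℕ → ℝ} (hv : StrictMono v) (h0 : v 0 = 0) (h1 : g ≠ 0) (h2 : ¬g < N)
    (hc : (D.getD (g - N) (0, 0, 0, 0, 0)).val N) (ho : (D.getD (g - N) (0, 0, 0, 0, 0)).ok v) :
    (∀ e ∈ e3 N D g, det (f0 N D v e.1) (f0 N D v e.2.1) (f0 N D v e.2.2) = 0) ∧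
    ∀ e ∈ es N D g, ∀ s : Pt, (s.1 = 0 ∨ s.1 = g) → s.2 < np N s.1 → s ≠ e.1 → s ≠ e.2.1 → s ≠ e.2.2 →
      det (f0 N D v e.1) (f0 N D v e.2.1) (f0 N D v s) ≠ 0 := by
  simp only [es, e3, ea, eb, h1, h2, if_false, k4]
  generalize hd : D.getD (g - N) (0, 0, 0, 0, 0) = c at *
  obtain ⟨t, a, b, c, d⟩ := c
  simp only [DC.val, DC.ok] at hc ho
  have n (i) : 0 ≤ v i := h0 ▸ hv.monotone (Nat.zero_le _)
  have q (i j) := hv.injective.eq_iff (a := i) (b := j)
  have := q a 0; have := q b 0; have := q c 0; have := q d 0; have := q a b; have := q a c; have := q a d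
  have := q b c; have := q b d; have := q c d; have := n a; have := n b; have := n c; have := n d
  have := mul_nonneg (n a) (n d); have := mul_nonneg (n c) (n d)
  have : 0 ≠ N := by omega
  have e (i) : f0 N D v (g, i) = kq t (v a) (v c) (v d) i := by simp only [f0, h1, h2, if_false, hd]
  have e' (i) : f0 N D v (0, i) = if i = N then (0, 1, 0) else (1, v i, 0) := by simp [f0]
  have hN : a ≠ N ∧ b ≠ N ∧ c ≠ N ∧ d ≠ N := by omega
  refine ⟨by by_cases ht : t = 0 <;> simp [e, e', kq, det, *] at ho ⊢ <;> grind, fun e he ⟨k, i⟩ a1 b1 c1 d1 f1 => ?_⟩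
  simp only [cons_append, nil_append, mem_cons, not_mem_nil, or_false, append_nil] at he
  rcases a1 with (rfl : k = 0) | (rfl : k = g)
  · have := n i; have := q i 0; have := q i a; have := q i b; have := q i c; have := q i d
    have := mul_nonneg (n i) (n a); have := mul_nonneg (n i) (n d); have := mul_nonneg (n i) (n c)
    have := mul_nonneg (n i) (mul_nonneg (n a) (n d)); have := mul_nonneg (n i) (mul_nonneg (n c) (n d))
    by_cases ht : t = 0 <;> by_cases hN : i = N <;> rcases he with rfl | rfl | rfl | rfl | rfl | rfl | rfl | rfl |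
      rfl | rfl <;> simp [e, e', kq, det, ht, hN] at f1 ho ⊢ <;> first | grind | nlinarith
  · simp only [np, h1, h2, if_false] at b1
    simp only [kq] at e
    generalize hL : 2 + v a + v c + v d + v a * v d + v c * v d = L at e
    have l0 : 0 < L := by linarith
    have l1 : 0 < L - 1 := by linarith
    have l2 : 0 < L - v a * v d := by linarith
    have l3 : 0 < L - v c * v d := by linarith
    have pa : 0 < v a := by grind
    have pc : 0 < v c := by grind
    have : (v d - v a) * (L - 1) ≠ 0 := mul_ne_zero (by grind) l1.ne'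
    have : (v d - v a) * L ≠ 0 := mul_ne_zero (by grind) l0.ne'
    have : (v c - v a) * L ≠ 0 := mul_ne_zero (by grind) l0.ne'
    have : t ≠ 0 → (v c - v a) * v d ≠ 0 ∧ (v c - v a) * v d * L ≠ 0 ∧ 0 < v d * (L - v a * v d) ∧
        0 < v d * (L - v c * v d) := fun h => by
      have : 0 < v d := by grind
      have : v c - v a ≠ 0 := by grind
      refine ⟨?_, ?_, ?_, ?_⟩ <;> positivity
    have := mul_pos pa l2; have := mul_pos pa l3; have := mul_pos pa l0; have := mul_pos pc l0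
    have := mul_nonneg (n d) l0.le; have := mul_nonneg (n b) l0.le
    have := mul_nonneg (mul_nonneg (n a) (n d)) l0.le; have := mul_nonneg (mul_nonneg (n c) (n d)) l0.le
    have : 0 < L - v c := by linarith
    have : t = 0 → 0 ≤ (v c + v d - v a) * L := fun h => mul_nonneg (by grind) l0.le
    clear hL
    by_cases ht : t = 0 <;> interval_cases i <;> rcases he with rfl | rfl | rfl | rfl | rfl | rfl | rfl | rfl |
      rfl | rfl <;> simp [e, det, ht] at c1 d1 ho ⊢ <;> grind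

lemma quad {A B : ℝ} (C : ℝ) (h : A ≠ 0 ∨ B ≠ 0) : ∀ᶠ s in cofinite, C + s * A + s ^ 2 * B ≠ 0 := by
  have : Polynomial.C C + Polynomial.X * Polynomial.C A + Polynomial.X ^ 2 * Polynomial.C B ≠ 0 := fun e => by
    have a := congrArg (Polynomial.coeff · 1) e; have b := congrArg (Polynomial.coeff · 2) e
    simp [Polynomial.coeff_X, Polynomial.coeff_C] at a b; grind
  filter_upwards [Polynomial.eventually_cofinite_not_isRoot this] with s hs
  simp only [Polynomial.IsRoot.def, Polynomial.eval_add, Polynomial.eval_mul, Polynomial.eval_C, Polynomial.eval_X,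
    Polynomial.eval_pow] at hs
  exact hs

lemma ev_list {α : Type} {L : List α} {p : α → ℝ → Prop} (h : ∀ a ∈ L, ∀ᶠ s in cofinite, p a s) :
    ∀ᶠ s in cofinite, ∀ a ∈ L, p a s := (eventually_all_finite (finite_toSet L)).2 h
lemma ev_lt {n : ℕ} {p : ℕ → ℝ → Prop} (h : ∀ a < n, ∀ᶠ s in cofinite, p a s) :
    ∀ᶠ s in cofinite, ∀ a < n, p a s := (eventually_all_finite (Set.finite_lt_nat n)).2 h

def inV (N : ℕ) (D : List DC) (s : Pt) : Prop := s.1 < N + D.length ∧ s.2 < np N s.1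

lemma es_shape {N g : ℕ} {D : List DC} (hD : ∀ d ∈ D, d.val N) (hg : g < N + D.length) : ∀ e ∈ es N D g,
    g ≠ 0 ∧ e.1.1 = g ∧ e.2.1.1 = g ∧ e.1.2 < e.2.1.2 ∧ e.2.1.2 < mv N g ∧
      (e.2.2.1 = 0 ∧ e.2.2.2 ≤ N ∨ e.2.2.1 = g ∧ 6 ≤ e.2.2.2) ∧ (e ∈ e3 N D g ↔ inV N D e.2.2) := by
  by_cases h1 : g = 0
  · simp [es, e3, ea, eb, h1]
  by_cases h2 : g < N
  · simp [es, e3, ea, eb, h1, h2, mv, inV, np, hg, h2.le]; omega
  · have := hD _ (getD_mem hg h2)
    simp only [es, e3, ea, eb, h1, h2, if_false, k4]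
    generalize D.getD (g - N) (0, 0, 0, 0, 0) = c at *
    simp only [DC.val] at this
    simp [h1, h2, mv, inV, np]; grind

lemma f0_z {N : ℕ} {D : List DC} {v : ℕ → ℝ} {p : Pt} (h : p.1 ≠ 0) : (f0 N D v p).2.2 = 1 := by
  obtain ⟨g, i⟩ := p
  simp only [f0, h, if_false, prq, kq]
  split_ifs <;> obtain _ | _ | _ | _ | _ | _ | i := i <;> simp

def hm (P : ℝ × ℝ) : V3 := (P.1, P.2, 1)

lemma deh {p q r : V3} {c : ℝ} (r1 : p.1 + p.2.1 + c * p.2.2 ≠ 0) (r2 : q.1 + q.2.1 + c * q.2.2 ≠ 0)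
    (r3 : r.1 + r.2.1 + c * r.2.2 ≠ 0) :
    det (hm (p.1 / (p.1 + p.2.1 + c * p.2.2), p.2.2 / (p.1 + p.2.1 + c * p.2.2)))
      (hm (q.1 / (q.1 + q.2.1 + c * q.2.2), q.2.2 / (q.1 + q.2.1 + c * q.2.2)))
      (hm (r.1 / (r.1 + r.2.1 + c * r.2.2), r.2.2 / (r.1 + r.2.1 + c * r.2.2))) = 0 ↔ det p q r = 0 := by
  rw [← neg_eq_zero (a := det p q r), ← mul_eq_zero_iff_left (mul_ne_zero (mul_ne_zero r1 r2) r3)]
  apply Eq.congr_left
  generalize hx : p.1 + p.2.1 + c * p.2.2 = x at *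
  generalize hy : q.1 + q.2.1 + c * q.2.2 = y at *
  generalize hz : r.1 + r.2.1 + c * r.2.2 = z at *
  simp only [det, hm]; field_simp; subst hx hy hz; ring

theorem model0 {N : ℕ} {D : List DC} (hN : 2 ≤ N) (hD : ∀ d ∈ D, d.val N) {v : ℕ → ℝ} (hv : StrictMono v)
    (h0 : v 0 = 0) (ho : ∀ d ∈ D, d.ok v) : ∃ F : Pt → ℝ × ℝ, ∀ g < N + D.length, ∀ e ∈ es N D g, ∀ s, inV N D s →
      (det (hm (F e.1)) (hm (F e.2.1)) (hm (F s)) = 0 ↔ s = e.1 ∨ s = e.2.1 ∨ s = e.2.2) := by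
  have L (g) (hg : g < N + D.length) (h1 : g ≠ 0) := if h2 : g < N then loc_pr (D := D) hv h0 h1 h2 else
    loc_k4 hv h0 h1 h2 (hD _ (getD_mem hg h2)) (ho _ (getD_mem hg h2))
  let S (x : ℝ) (g : ℕ) (y : V3) : V3 := (y.1 + y.2.2 * x * g, y.2.1 + y.2.2 * x ^ 2 * g ^ 2, y.2.2)
  have hS (x g a b c) : det (S x g a) (S x g b) (S x g c) = det a b c := by simp only [S, det]; ring
  have hc (x g) (p : Pt) (h : p.1 = 0 ∨ p.1 = g) : S x p.1 (f0 N D v p) = S x g (f0 N D v p) := by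
    rcases h with h | rfl
    · simp only [S, f0, h, if_true]; split_ifs <;> simp
    · rfl
  obtain ⟨x, hx⟩ : ∃ x, ∀ g < N + D.length, ∀ e ∈ es N D g, ∀ k < N + D.length, ∀ i < np N k, k ≠ 0 → k ≠ g →
      det (S x g (f0 N D v e.1)) (S x g (f0 N D v e.2.1)) (S x k (f0 N D v (k, i))) ≠ 0 := by
    refine Eventually.exists (f := cofinite) (ev_lt fun g hg => ev_list fun e he => ev_lt fun k hk =>
      ev_lt fun i hi => ?_)
    by_cases hk : k = 0 ∨ k = g
    · exact .of_forall (by grind)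
    obtain ⟨s1, s2, s3, -, -, s4, -⟩ := es_shape hD hg e he
    have z1 := f0_z (N := N) (D := D) (v := v) (s2 ▸ s1 : e.1.1 ≠ 0)
    have z2 := f0_z (N := N) (D := D) (v := v) (s3 ▸ s1 : e.2.1.1 ≠ 0)
    have z3 := f0_z (N := N) (D := D) (v := v) (p := (k, i)) (by grind)
    have : det (f0 N D v e.1) (f0 N D v e.2.1) (f0 N D v (0, if e.2.2 = (0, 0) then N else 0)) ≠ 0 :=
      (L g hg s1).2 e he _ (by simp) (by simp only [np]; grind) (by grind) (by grind) (by grind)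
    have kg : (k : ℝ) - g ≠ 0 := sub_ne_zero.2 (by simpa using (not_or.1 hk).2)
    have kg' : (k : ℝ) + g ≠ 0 := by have : (0 : ℝ) < g := (by simpa using Nat.pos_of_ne_zero s1); positivity
    generalize f0 N D v e.1 = p at *; generalize f0 N D v e.2.1 = q at *; generalize f0 N D v (k, i) = r at *
    filter_upwards [quad (A := (p.2.1 - q.2.1) * (k - g)) (B := (q.1 - p.1) * ((k - g) * (k + g))) (det p q r) (by
      by_contra! h; simp only [mul_eq_zero, kg, kg', or_false] at h; simp only [det] at this; grind)] with s hs _ _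
    convert hs using 1; simp only [det, S, z1, z2, z3]; ring
  let f (p : Pt) := S x p.1 (f0 N D v p)
  obtain ⟨c, hc'⟩ : ∃ c, ∀ k < N + D.length, ∀ i < np N k, (f (k, i)).1 + (f (k, i)).2.1 + c * (f (k, i)).2.2 ≠ 0 := by
    refine Eventually.exists (f := cofinite) (ev_lt fun k _ => ev_lt fun i _ => ?_)
    by_cases hk : k = 0
    · have : 0 ≤ v i := h0 ▸ hv.monotone (Nat.zero_le _)
      exact .of_forall fun c => by simp only [f, S, f0, hk, if_true]; split_ifs <;> simp; positivity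
    · filter_upwards [quad (A := (f (k, i)).2.2) (B := 0) ((f (k, i)).1 + (f (k, i)).2.1)
        (by simp [f, S, f0_z (p := (k, i)) hk])] with s hs
      simpa using hs
  refine ⟨fun p => ((f p).1 / ((f p).1 + (f p).2.1 + c * (f p).2.2), (f p).2.2 / ((f p).1 + (f p).2.1 + c * (f p).2.2)),
    fun g hg e he s hs => ?_⟩
  obtain ⟨s1, s2, s3, s5, s6, s4, s7⟩ := es_shape hD hg e he
  have m : mv N g ≤ np N g := by simp only [mv, np]; split_ifs <;> omega
  have r1 := hc' e.1.1 (by omega) e.1.2 (by rw [s2]; omega)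
  have r2 := hc' e.2.1.1 (by omega) e.2.1.2 (by rw [s3]; omega)
  have r3 := hc' _ hs.1 _ hs.2
  simp only [Prod.mk.eta] at r1 r2 r3
  trans det (f e.1) (f e.2.1) (f s) = 0
  · exact deh r1 r2 r3
  by_cases hk : s.1 = 0 ∨ s.1 = g
  · simp only [f, hc x g s hk, s2, s3, hS]
    refine ⟨fun h => by_contra fun h' => (L g hg s1).2 e he s hk hs.2 (by grind) (by grind) (by grind) h, ?_⟩
    rintro (rfl | rfl | rfl)
    exacts [by simp only [det]; ring, by simp only [det]; ring, (L g hg s1).1 e (s7.2 hs)]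
  · exact ⟨fun h => absurd h (by simpa only [f, s2, s3] using hx g hg e he _ hs.1 _ hs.2 (by grind) (by grind)),
      by grind⟩

end Pool.Agent.H21.ER
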