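import Pool.Agent.H21.ERDefs

namespace Pool.Agent.H21.ER

variable {α : Type}

/-- two members of the list `E` of sets (each given by a list) with two common elements are equal -/
def Lin (E : List (List α)) : Prop :=
  ∀ a ∈ E, ∀ b ∈ E, ∀ x y, x ≠ y → x ∈ a → y ∈ a → x ∈ b → y ∈ b → a = b

/-- instance of collinearity logic with groups of at most `k` variables: groups and negative atoms -/
def ColInst (k : ℕ) (I : List (List α) × List (α × α × α)) : Prop := Lin I.1 ∧ ∀ a ∈ I.1, a.length ≤ k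

/-- yes-instances of collinearity logic with groups -/
def ColYes (I : List (List α) × List (α × α × α)) : Prop := ∃ P : α → ℝ × ℝ,
  (∀ a ∈ I.1, ∀ x ∈ a, ∀ y ∈ a, ∀ z ∈ a, Collinear ℝ {P x, P y, P z}) ∧
    ∀ t ∈ I.2, ¬Collinear ℝ {P t.1, P t.2.1, P t.2.2}

/-- linear hypergraph (vertex list, hyperedge list) of rank at most `k` -/
def LinHyp (k : ℕ) (H : List α × List (List α)) : Prop :=
  Lin H.2 ∧ ∀ e ∈ H.2, (∀ x ∈ e, x ∈ H.1) ∧ e.Nodup ∧ 2 ≤ e.length ∧ e.length ≤ k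

/-- straight-line realizability of a hypergraph -/
def Realizable (H : List α × List (List α)) : Prop := ∃ P : α → ℝ × ℝ, Set.InjOn P {x | x ∈ H.1} ∧
  ∀ e ∈ H.2, ∃ a b, ∀ x ∈ H.1, P x ∈ segment ℝ a b ↔ x ∈ e

/-- simple graph (vertex list, edge list) -/
def IsGraph (G : List α × List (α × α)) : Prop := ∀ e ∈ G.2, e.1 ∈ G.1 ∧ e.2 ∈ G.1 ∧ e.1 ≠ e.2

/-- existence of an orthogonal representation in real 3-space -/
def Orth3 (G : List α × List (α × α)) : Prop := ∃ φ : α → Fin 3 → ℝ, (∀ u ∈ G.1, φ u ≠ 0) ∧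
  (∀ u ∈ G.1, ∀ w ∈ G.1, u ≠ w → ∀ t : ℝ, φ u ≠ t • φ w) ∧ ∀ e ∈ G.2, φ e.1 ⬝ᵥ φ e.2 = 0

/-- `d`-regular simple graph with a proper edge colouring: vertex list, list of triples (end, end, colour) -/
def RegCol (d : ℕ) (G : List α × List (α × α × α)) : Prop :=
  (∀ e ∈ G.2, e.1 ∈ G.1 ∧ e.2.1 ∈ G.1 ∧ e.1 ≠ e.2.1) ∧
  (∀ e ∈ G.2, ∀ f ∈ G.2, e ≠ f → s(e.1, e.2.1) ≠ s(f.1, f.2.1) ∧
    (e.2.2 = f.2.2 → ∀ x, x ∈ s(e.1, e.2.1) → x ∉ s(f.1, f.2.1))) ∧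
  ∀ u ∈ G.1, {w | ∃ c, (u, w, c) ∈ G.2 ∨ (w, u, c) ∈ G.2}.ncard = d

/-- existence of a faithful drawing -/
def Faithful (G : List α × List (α × α × α)) : Prop := ∃ P : α → ℝ × ℝ, Set.InjOn P {x | x ∈ G.1} ∧
  (∀ c, ∃ z, ∀ e ∈ G.2, e.2.2 = c → z ∈ affineSpan ℝ {P e.1, P e.2.1}) ∧
  ∀ e ∈ G.2, ∀ f ∈ G.2, e ≠ f → affineSpan ℝ {P e.1, P e.2.1} ≠ affineSpan ℝ {P f.1, P f.2.1}

end Pool.Agent.H21.ER
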