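import Pool.Agent.H21.Geo2
import Pool.Agent.H21.GeoDefs

namespace Pool.Agent.H21.ER

open Pool.Agent.H11.PT List

def Ed.has (e : Ed) (x : Pt) : Prop := x = e.1 ∨ x = e.2.1 ∨ x = e.2.2

lemma es_uniq {N g : ℕ} {D : List DC} (hD : ∀ d ∈ D, d.val N) (hg : g < N + D.length) : ∀ e ∈ es N D g,
    ∀ f ∈ es N D g, (e.1 = f.1 ∧ e.2.1 = f.2.1 ∨ e.2.2 = f.2.2 ∧
      (e.1 = f.1 ∨ e.1 = f.2.1 ∨ e.2.1 = f.1 ∨ e.2.1 = f.2.1)) → e = f := by
  by_cases h1 : g = 0
  · simp [es, e3, ea, eb, h1]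
  by_cases h2 : g < N
  · simp [es, e3, ea, eb, h1, h2]; omega
  · have := hD _ (getD_mem hg h2)
    simp only [es, e3, ea, eb, h1, h2, if_false, k4]
    generalize D.getD (g - N) (0, 0, 0, 0, 0) = c at *
    simp only [DC.val] at this
    by_cases h : c.1 = 0 <;> simp [h, h1, Ne.symm h1] at this ⊢ <;> omega

lemma es_lin {N g k : ℕ} {D : List DC} (hD : ∀ d ∈ D, d.val N) (hg : g < N + D.length) (hk : k < N + D.length)
    {e f : Ed} (he : e ∈ es N D g) (hf : f ∈ es N D k) {x y : Pt} (h : x ≠ y) (a : e.has x) (b : e.has y)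
    (c : f.has x) (d : f.has y) : e = f := by
  obtain ⟨s1, s2, s3, s4, s5, s6, -⟩ := es_shape hD hg e he
  obtain ⟨t1, t2, t3, t4, t5, t6, -⟩ := es_shape hD hk f hf
  have m (g) : mv N g ≤ 6 := by simp only [mv]; split_ifs <;> omega
  have := m g; have := m k
  obtain rfl : g = k := by simp only [Ed.has] at *; grind
  refine es_uniq hD hg e he f hf ?_
  simp only [Ed.has] at *; grind

lemma es_pair {N g i j : ℕ} {D : List DC} (h : i < j) (h' : j < mv N g) : ∃ r, ((g, i), (g, j), r) ∈ es N D g := by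
  simp only [mv, es, e3, ea, eb, k4] at *
  split_ifs at h' ⊢ <;> interval_cases j <;> interval_cases i <;> simp

lemma es_two {N : ℕ} {D : List DC} (hN : 2 ≤ N) {s : Pt} (h : inV N D s) : ∃ g < N + D.length, ∃ e ∈ es N D g,
    ∃ f ∈ es N D g, e ≠ f ∧ e.has s ∧ f.has s := by
  obtain ⟨g, i⟩ := s
  simp only [inV, np] at h
  split_ifs at h with h1 h2
  · subst h1
    by_cases h3 : i = 0 ∨ i = N
    · refine ⟨1, by omega, ?_⟩
      rcases h3 with rfl | rfl <;> simp [es, e3, Ed.has, show 1 < _ from hN]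
    · exact ⟨i, by omega, by simp [es, e3, Ed.has, show i ≠ 0 by omega, show i < N by omega]⟩
  all_goals
    obtain ⟨h, h'⟩ := h
    refine ⟨g, h, ?_⟩
    interval_cases i <;> simp [es, e3, ea, k4, Ed.has, h1, h2]

theorem model {N : ℕ} {D : List DC} (hN : 2 ≤ N) (hD : ∀ d ∈ D, d.val N) {v : ℕ → ℝ} (hv : StrictMono v)
    (h0 : v 0 = 0) (ho : ∀ d ∈ D, d.ok v) : ∃ F : Pt → ℝ × ℝ, Set.InjOn F {s | inV N D s} ∧
      ∀ g < N + D.length, ∀ e ∈ es N D g, ∀ s, inV N D s →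
      (det (hm (F e.1)) (hm (F e.2.1)) (hm (F s)) = 0 ↔ e.has s) := by
  obtain ⟨F, h⟩ := model0 hN hD hv h0 ho
  refine ⟨F, fun s hs t ht e => by_contra fun n => ?_, h⟩
  obtain ⟨g, hg, a, ha, b, hb, c, d, f⟩ := es_two hN hs
  exact c (es_lin hD hg hg ha hb n d ((h g hg a ha t ht).1 (e ▸ (h g hg a ha s hs).2 d)) f
    ((h g hg b hb t ht).1 (e ▸ (h g hg b hb s hs).2 f)))

lemma par {p q r : ℝ × ℝ} (h : p ≠ q) : det (hm p) (hm q) (hm r) = 0 ↔ ∃ t : ℝ, r = p + t • (q - p) := by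
  obtain ⟨a, b⟩ := p; obtain ⟨c, d⟩ := q; obtain ⟨x, y⟩ := r
  simp only [det, hm, ne_eq, Prod.mk.injEq, Prod.mk_sub_mk, Prod.smul_mk, Prod.mk_add_mk, smul_eq_mul] at *
  refine ⟨fun e => ?_, by grind⟩
  by_cases k : a = c
  · exact ⟨(y - b) / (d - b), mul_left_cancel₀ (a := d - b) (by grind) (by grind), by grind⟩
  · exact ⟨(x - a) / (c - a), by grind, by grind⟩

lemma col_iff {p q r : ℝ × ℝ} : Collinear ℝ {p, q, r} ↔ det (hm p) (hm q) (hm r) = 0 := by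
  by_cases h : p = q
  · subst h; simp only [Set.mem_singleton_iff, Set.insert_eq_of_mem, Set.mem_insert_iff, true_or, collinear_pair,
      det, true_iff]; ring
  rw [par h, collinear_iff_of_mem (p₀ := p) (by simp)]
  constructor
  · rintro ⟨v, hv⟩
    obtain ⟨a, rfl⟩ := hv q (by simp); obtain ⟨b, rfl⟩ := hv r (by simp)
    have : a ≠ 0 := by rintro rfl; simp at h
    exact ⟨b / a, by simp [smul_smul, this, add_comm]⟩
  · rintro ⟨t, rfl⟩
    refine ⟨q - p, ?_⟩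
    simp only [Set.mem_insert_iff, Set.mem_singleton_iff, forall_eq_or_imp, forall_eq]
    exact ⟨⟨0, by simp⟩, ⟨1, by simp⟩, t, by simp [add_comm]⟩

lemma line_iff {p q r : ℝ × ℝ} (h : p ≠ q) : r ∈ affineSpan ℝ {p, q} ↔ det (hm p) (hm q) (hm r) = 0 := by
  rw [par h, mem_affineSpan_pair_iff_exists_lineMap_eq]
  simp [AffineMap.lineMap_apply, add_comm, eq_comm]

def EE (f : ℕ → List Ed) (N : ℕ) (D : List DC) : List Ed := (range (N + D.length)).flatMap f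
def VV (f : ℕ → ℕ) (N : ℕ) (D : List DC) : List Pt :=
  (range (N + D.length)).flatMap fun g => (range (f g)).map fun i => (g, i)
lemma mem_EE {f N D e} : e ∈ EE f N D ↔ ∃ g < N + D.length, e ∈ f g := by simp [EE]
lemma mem_VV {f N D s} : s ∈ VV f N D ↔ s.1 < N + D.length ∧ s.2 < f s.1 := by
  simp only [VV, mem_flatMap, mem_range, mem_map]; grind

@[fun_prop] theorem e3_pt {α : Type} [Enc α] {N g : α → ℕ} {D : α → List DC} (hN : PT N) (hD : PT D) (hg : PT g) :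
    PT fun x => e3 (N x) (D x) (g x) := by unfold e3 k4; fun_prop
@[fun_prop] theorem ea_pt {α : Type} [Enc α] {N g : α → ℕ} (hN : PT N) (hg : PT g) :
    PT fun x => ea (N x) (g x) := by unfold ea; fun_prop
@[fun_prop] theorem eb_pt {α : Type} [Enc α] {N g : α → ℕ} (hN : PT N) (hg : PT g) :
    PT fun x => eb (N x) (g x) := by unfold eb; fun_prop
@[fun_prop] theorem mv_pt {α : Type} [Enc α] {N g : α → ℕ} (hN : PT N) (hg : PT g) :
    PT fun x => mv (N x) (g x) := by unfold mv; fun_prop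
@[fun_prop] theorem np_pt {α : Type} [Enc α] {N g : α → ℕ} (hN : PT N) (hg : PT g) :
    PT fun x => np (N x) (g x) := by unfold np; fun_prop

/-- reduction scheme -/
theorem scheme {β : Type} [Enc β] (r : ℕ → List DC → β) (hr : PT fun x : ℕ × List DC => r x.1 x.2) (A B : β → Prop)
    (h : ∀ N D, 2 ≤ N → (∀ d ∈ D, d.val N) → A (r N D) ∧
      ((∃ F : Pt → ℝ × ℝ, Set.InjOn F {s | inV N D s} ∧ ∀ g < N + D.length, ∀ e ∈ es N D g, ∀ s, inV N D s →
        (det (hm (F e.1)) (hm (F e.2.1)) (hm (F s)) = 0 ↔ e.has s)) → B (r N D)) ∧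
      (B (r N D) → ∃ f : Pt → V3,
        (∀ g < N + D.length, ∀ e ∈ e3 N D g, f e.2.2 ≠ 0 ∧ det (f e.1) (f e.2.1) (f e.2.2) = 0) ∧
        ∀ g < N + D.length, ∀ i j k, i < j → j < k → k < mv N g → det (f (g, i)) (f (g, j)) (f (g, k)) ≠ 0)) :
    ∃ f : Qf → β, PolyTime bits bits f ∧ ∀ φ, A (f φ) ∧ (ETR φ ↔ B (f φ)) := by
  have : PT fun φ : Qf => r (dN (am φ.post)) (ds (am φ.post)) :=
    PT.comp (g := fun φ : Qf => (dN (am φ.post), ds (am φ.post))) hr (by fun_prop)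
  refine ⟨_, this.polyTime, fun φ => ?_⟩
  have hN : 2 ≤ dN (am φ.post) := by simp only [dN]; omega
  obtain ⟨a, b, c⟩ := h _ _ hN (ds_val _)
  refine ⟨a, fun e => ?_, fun e => ?_⟩
  · obtain ⟨_, e⟩ := (etr_iff φ).1 e
    obtain ⟨v, v1, v2, v3⟩ := ds_compl e
    exact b (model hN (ds_val _) v1 v2 v3)
  · obtain ⟨f, f1, f2⟩ := c e
    obtain ⟨v, v1, v2, v3⟩ := sound hN (ds_val _) f f1 f2
    exact (etr_iff φ).2 (ds_sound v1 v2 v3)

end Pool.Agent.H21.ER
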