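import Pool.Agent.H21.Geo3

namespace Pool.Agent.H21.ER

open Pool.Agent.H11.PT List

def Ed.l3 (e : Ed) : List Pt := [e.1, e.2.1, e.2.2]
lemma mem_l3 {e : Ed} {x : Pt} : x ∈ e.l3 ↔ e.has x := by simp [Ed.l3, Ed.has]
lemma e3_es {N g D e} (h : e ∈ e3 N D g) : e ∈ es N D g := mem_append_left _ h
lemma hm_ne (P : ℝ × ℝ) : hm P ≠ 0 := by simp [hm]
lemma mv_np {N g i : ℕ} (h : i < mv N g) : i < np N g := by simp only [mv, np] at *; split_ifs at * <;> omega

def colR (N : ℕ) (D : List DC) : List (List Pt) × List (Pt × Pt × Pt) := ((EE (e3 N D) N D).map Ed.l3,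
  (range (N + D.length)).flatMap fun g => (range (mv N g)).flatMap fun k => (range k).flatMap fun j =>
    (range j).map fun i => ((g, i), (g, j), (g, k)))

theorem col_hard : ∃ f : Qf → List (List Pt) × List (Pt × Pt × Pt), PolyTime bits bits f ∧
    ∀ φ, ColInst 3 (f φ) ∧ (ETR φ ↔ ColYes (f φ)) := by
  refine scheme colR (by unfold colR EE Ed.l3; fun_prop) _ _ fun N D hN hD => ⟨⟨?_, ?_⟩, ?_, ?_⟩
  · simp only [Lin, colR, forall_mem_map, mem_EE, mem_l3]
    rintro a ⟨g, hg, ha⟩ b ⟨k, hk, hb⟩ x y h a1 a2 a3 a4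
    rw [es_lin hD hg hk (e3_es ha) (e3_es hb) h a1 a2 a3 a4]
  · simp only [colR, forall_mem_map]; simp [Ed.l3]
  · rintro ⟨F, h1, h2⟩
    refine ⟨F, ?_, ?_⟩
    · simp only [colR, forall_mem_map, mem_EE, mem_l3, col_iff]
      rintro e ⟨g, hg, he⟩ x hx y hy z hz
      have := (h2 g hg e (e3_es he) _ ((es_shape hD hg e (e3_es he)).2.2.2.2.2.2.1 he)).2 (by simp [Ed.has])
      simp only [det, Ed.has] at *
      rcases hx with rfl | rfl | rfl <;> rcases hy with rfl | rfl | rfl <;> rcases hz with rfl | rfl | rfl <;> linarith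
    · simp only [colR, forall_mem_flatMap, forall_mem_map, mem_range, col_iff]
      intro g hg k hk j hj i hi h
      obtain ⟨r, hr⟩ := es_pair (D := D) hi (hj.trans hk)
      have := es_shape hD hg _ hr
      have := (h2 g hg _ hr (g, k) ⟨hg, mv_np hk⟩).1 h
      simp only [Ed.has, mv] at *; grind
  · rintro ⟨P, h1, h2⟩
    simp only [colR, forall_mem_flatMap, forall_mem_map, mem_range, col_iff, mem_EE, mem_l3] at h1 h2
    exact ⟨fun p => hm (P p), fun g hg e he => ⟨hm_ne _, h1 e ⟨g, hg, he⟩ _ (by simp [Ed.has]) _ (by simp [Ed.has]) _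
      (by simp [Ed.has])⟩, fun g hg i j k a b c => h2 g hg k c j b i a⟩

def hypR (N : ℕ) (D : List DC) : List Pt × List (List Pt) :=
  (VV (np N) N D, (EE (es N D) N D).map fun e => e.l3.filter fun x => x ∈ VV (np N) N D)

lemma seg_det {a b p q r : ℝ × ℝ} (hp : p ∈ segment ℝ a b) (hq : q ∈ segment ℝ a b) (hr : r ∈ segment ℝ a b) :
    det (hm p) (hm q) (hm r) = 0 := by
  rw [segment_eq_image'] at *
  obtain ⟨x, -, rfl⟩ := hp; obtain ⟨y, -, rfl⟩ := hq; obtain ⟨z, -, rfl⟩ := hr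
  simp [det, hm]; ring

lemma seg_ex {p q r : ℝ × ℝ} (e : det (hm p) (hm q) (hm r) = 0) :
    ∃ a b, p ∈ segment ℝ a b ∧ q ∈ segment ℝ a b ∧ r ∈ segment ℝ a b := by
  rcases (col_iff.2 e).wbtw_or_wbtw_or_wbtw with k | k | k <;> rw [← mem_segment_iff_wbtw] at k
  exacts [⟨p, r, left_mem_segment .., k, right_mem_segment ..⟩, ⟨q, p, right_mem_segment .., left_mem_segment .., k⟩,
    ⟨r, q, k, right_mem_segment .., left_mem_segment ..⟩]

theorem hyp_hard : ∃ f : Qf → List Pt × List (List Pt), PolyTime bits bits f ∧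
    ∀ φ, LinHyp 3 (f φ) ∧ (ETR φ ↔ Realizable (f φ)) := by
  refine scheme hypR (by unfold hypR EE VV es Ed.l3; fun_prop) _ _ fun N D hN hD => ?_
  have V {g e} (hg : g < N + D.length) (he : e ∈ es N D g) : inV N D e.1 ∧ inV N D e.2.1 ∧ e.1 ≠ e.2.1 := by
    obtain ⟨s1, s2, s3, s4, s5, -⟩ := es_shape hD hg e he
    have := mv_np s5
    simp only [inV]; grind
  have M {s} : s ∈ VV (np N) N D ↔ inV N D s := mem_VV
  refine ⟨⟨?_, ?_⟩, ?_, ?_⟩
  · simp only [Lin, hypR, forall_mem_map, mem_EE, mem_l3, mem_filter]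
    rintro a ⟨g, hg, ha⟩ b ⟨k, hk, hb⟩ x y h a1 a2 a3 a4
    rw [es_lin hD hg hk ha hb h a1.1 a2.1 a3.1 a4.1]
  · simp only [hypR, forall_mem_map, mem_EE, mem_filter]
    rintro e ⟨g, hg, he⟩
    obtain ⟨a, b, c⟩ := V hg he
    have := es_shape hD hg e he
    refine ⟨by simp, Nodup.filter _ (by simp only [Ed.l3, mv] at *; simp; grind), ?_, length_filter_le ..⟩
    simp [Ed.l3, M, a, b]
  · rintro ⟨F, h1, h2⟩
    refine ⟨F, by simpa only [hypR, M] using h1, ?_⟩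
    simp only [hypR, forall_mem_map, mem_EE, mem_l3, mem_filter, M, decide_eq_true_eq]
    rintro e ⟨g, hg, he⟩
    obtain ⟨a, b, c⟩ := V hg he
    obtain ⟨r, r1, r2⟩ : ∃ r, det (hm (F e.1)) (hm (F e.2.1)) (hm r) = 0 ∧ (inV N D e.2.2 → r = F e.2.2) := by
      by_cases h : inV N D e.2.2
      exacts [⟨_, (h2 g hg e he _ h).2 (by simp [Ed.has]), by simp⟩, ⟨F e.1, by simp only [det]; ring, by simp [h]⟩]
    obtain ⟨x, y, k1, k2, k3⟩ := seg_ex r1
    refine ⟨x, y, fun s hs => ⟨fun h => ⟨(h2 g hg e he s hs).1 (seg_det k1 k2 h), hs⟩, ?_⟩⟩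
    rintro ⟨rfl | rfl | rfl, -⟩
    exacts [k1, k2, r2 hs ▸ k3]
  · rintro ⟨P, h1, h2⟩
    simp only [hypR, forall_mem_map, mem_EE, mem_l3, mem_filter, M, decide_eq_true_eq] at h1 h2
    refine ⟨fun p => hm (P p), fun g hg e he => ⟨hm_ne _, ?_⟩, fun g hg i j k a b c h => ?_⟩
    · obtain ⟨x, y, h⟩ := h2 e ⟨g, hg, e3_es he⟩
      obtain ⟨a, b, -⟩ := V hg (e3_es he)
      have c := (es_shape hD hg e (e3_es he)).2.2.2.2.2.2.1 he
      exact seg_det ((h _ a).2 ⟨by simp [Ed.has], a⟩) ((h _ b).2 ⟨by simp [Ed.has], b⟩) ((h _ c).2 ⟨by simp [Ed.has], c⟩)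
    have K (i j k) (h1 : i < j) (h3 : j < mv N g) (h4 : k < mv N g) (h5 : k ≠ i ∧ k ≠ j) :
        P (g, k) ∉ segment ℝ (P (g, i)) (P (g, j)) := fun n => by
      obtain ⟨r, hr⟩ := es_pair (D := D) h1 h3
      obtain ⟨x, y, h⟩ := h2 _ ⟨g, hg, hr⟩
      obtain ⟨a, b, -⟩ := V hg hr
      have := (h _ ⟨hg, mv_np h4⟩).1 ((convex_segment x y).segment_subset ((h _ a).2 ⟨by simp [Ed.has], a⟩)
        ((h _ b).2 ⟨by simp [Ed.has], b⟩) n)
      have := es_shape hD hg _ hr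
      simp only [Ed.has, mv] at *; grind
    rcases (col_iff.2 h).wbtw_or_wbtw_or_wbtw with n | n | n <;> rw [← mem_segment_iff_wbtw] at n
    exacts [K i k j (by omega) c (by omega) (by omega) n, K i j k a (by omega) c (by omega) (by rwa [segment_symm]),
      K j k i b c (by omega) (by omega) (by rwa [segment_symm])]

end Pool.Agent.H21.ER
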