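import Pool.Agent.H21.Geo4

namespace Pool.Agent.H21.ER

open Pool.Agent.H11.PT List Filter

def ortR (N : ℕ) (D : List DC) : List (Pt × Pt) × List ((Pt × Pt) × Pt × Pt) :=
  ((VV (np N) N D).map (fun p => (p, p)) ++ (EE (es N D) N D).map fun e => (e.1, e.2.1),
    (EE (es N D) N D).flatMap fun e => (e.l3.filter fun x => x ∈ VV (np N) N D).map fun p => ((p, p), e.1, e.2.1))

def tv (a : Fin 3 → ℝ) : V3 := (a 0, a 1, a 2)

lemma par2 {a b : Fin 3 → ℝ} (hb : b ≠ 0) (h1 : a 1 * b 2 = a 2 * b 1) (h2 : a 0 * b 2 = a 2 * b 0)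
    (h3 : a 0 * b 1 = a 1 * b 0) : ∃ t : ℝ, a = t • b := by
  obtain ⟨i, hi⟩ := Function.ne_iff.1 hb
  refine ⟨a i / b i, funext fun j => ?_⟩
  fin_cases i <;> fin_cases j <;> simp at hi ⊢ <;> grind

lemma ort_det {a b c n : Fin 3 → ℝ} (hn : n ≠ 0) (h1 : a ⬝ᵥ n = 0) (h2 : b ⬝ᵥ n = 0) (h3 : c ⬝ᵥ n = 0) :
    det (tv a) (tv b) (tv c) = 0 := by
  obtain ⟨i, hi⟩ := Function.ne_iff.1 hn
  simp only [dotProduct, Fin.sum_univ_three, det, tv] at *
  fin_cases i <;> simp at hi <;> exact mul_left_cancel₀ hi (by grind)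

lemma ort_par {a b c n m : Fin 3 → ℝ} (hb : b ≠ 0) (hc : c ≠ 0) (hm : m ≠ 0) (ab : ∀ t : ℝ, a ≠ t • b)
    (bc : ∀ t : ℝ, b ≠ t • c) (h1 : a ⬝ᵥ n = 0) (h2 : b ⬝ᵥ n = 0) (h3 : b ⬝ᵥ m = 0) (h4 : c ⬝ᵥ m = 0)
    (h : det (tv a) (tv b) (tv c) = 0) : ∃ t : ℝ, n = t • m := by
  have k1 := fun x y z => (par2 (a := a) hb x y z).elim ab
  have k2 := fun x y z => (par2 (a := b) hc x y z).elim bc
  simp only [dotProduct, Fin.sum_univ_three, det, tv] at *
  have : c 0 * n 0 + c 1 * n 1 + c 2 * n 2 = 0 := by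
    by_contra! e
    exact k1 (mul_left_cancel₀ e (by grind)) (mul_left_cancel₀ e (by grind)) (mul_left_cancel₀ e (by grind))
  refine par2 hm ?_ ?_ ?_ <;> by_contra e <;> rw [← sub_eq_zero] at e <;>
    exact k2 (mul_left_cancel₀ e (by grind)) (mul_left_cancel₀ e (by grind)) (mul_left_cancel₀ e (by grind))

theorem ort_hard : ∃ f : Qf → List (Pt × Pt) × List ((Pt × Pt) × Pt × Pt), PolyTime bits bits f ∧
    ∀ φ, IsGraph (f φ) ∧ (ETR φ ↔ Orth3 (f φ)) := by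
  refine scheme ortR (by unfold ortR EE VV es Ed.l3; fun_prop) _ _ fun N D hN hD => ?_
  have V {g e} (hg : g < N + D.length) (he : e ∈ es N D g) : inV N D e.1 ∧ inV N D e.2.1 ∧ e.1 ≠ e.2.1 := by
    obtain ⟨s1, s2, s3, s4, s5, -⟩ := es_shape hD hg e he
    have := mv_np s5
    simp only [inV]; grind
  have M {s} : s ∈ VV (np N) N D ↔ inV N D s := mem_VV
  refine ⟨?_, ?_, ?_⟩
  · simp only [IsGraph, ortR, forall_mem_flatMap, forall_mem_map, mem_filter]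
    rintro e he x hx
    obtain ⟨g, hg, he'⟩ := mem_EE.1 he
    have := V hg he'
    exact ⟨mem_append_left _ (mem_map_of_mem (by simpa using hx.2)), mem_append_right _ (mem_map_of_mem he), by grind⟩
  · rintro ⟨F, h1, h2⟩
    have W {g e} (hg : g < N + D.length) (he : e ∈ es N D g) :
        (F e.1).2 - (F e.2.1).2 ≠ 0 ∨ (F e.2.1).1 - (F e.1).1 ≠ 0 := by
      obtain ⟨a, b, c⟩ := V hg he
      have := h1.ne a b c; grind
    obtain ⟨x, x0, hx⟩ : ∃ x : ℝ, x ≠ 0 ∧ ∀ e ∈ EE (es N D) N D, ∀ s ∈ VV (np N) N D,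
        (F e.1).2 - (F e.2.1).2 ≠ x ^ 2 * (((F e.1).1 * (F e.2.1).2 - (F e.1).2 * (F e.2.1).1) * (F s).1) ∨
        (F e.2.1).1 - (F e.1).1 ≠ x ^ 2 * (((F e.1).1 * (F e.2.1).2 - (F e.1).2 * (F e.2.1).1) * (F s).2) := by
      refine Eventually.exists (f := cofinite) (.and (eventually_cofinite_ne 0) (ev_list fun e he => ev_list fun s _ => ?_))
      obtain ⟨g, hg, he⟩ := mem_EE.1 he
      have q {a : ℝ} (b : ℝ) (h : a ≠ 0) : ∀ᶠ x in cofinite, a ≠ x ^ 2 * b := by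
        by_cases hb : b = 0
        · exact .of_forall (by simp [hb, h])
        · filter_upwards [quad (A := 0) (B := b) (-a) (.inr hb)] with s hs; grind
      exact (W hg he).elim (fun h => (q _ h).mono fun _ => .inl) fun h => (q _ h).mono fun _ => .inr
    refine ⟨fun u => if u.1 = u.2 then ![x * (F u.1).1, x * (F u.1).2, 1] else ![(F u.1).2 - (F u.2).2,
      (F u.2).1 - (F u.1).1, x * ((F u.1).1 * (F u.2).2 - (F u.1).2 * (F u.2).1)], ?_, ?_, ?_⟩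
    · simp only [ortR, forall_mem_append, forall_mem_map, mem_EE]
      refine ⟨by simp, ?_⟩
      rintro e ⟨g, hg, he⟩
      have := W hg he
      simp [(V hg he).2.2]; grind
    · simp only [ortR, forall_mem_append, forall_mem_map]
      refine ⟨fun s hs => ⟨fun r hr n t h => n ?_, fun e he n t h => ?_⟩,
        fun e he => ⟨fun r hr n t h => ?_, fun f hf n t h => n ?_⟩⟩
      · simp at h
        rw [h1 (M.1 hs) (M.1 hr) (Prod.ext (mul_left_cancel₀ x0 (by grind)) (mul_left_cancel₀ x0 (by grind)))]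
      · have := hx e he s hs
        obtain ⟨g, hg, he⟩ := mem_EE.1 he
        simp [(V hg he).2.2] at h; grind
      · have := hx e he r hr
        obtain ⟨g, hg, he⟩ := mem_EE.1 he
        simp [(V hg he).2.2] at h; grind
      · obtain ⟨g, hg, he⟩ := mem_EE.1 he
        obtain ⟨k, hk, hf⟩ := mem_EE.1 hf
        obtain ⟨a, b, c⟩ := V hk hf
        simp only [(V hg he).2.2, c, if_false, Matrix.smul_cons, Matrix.vecCons_inj, smul_eq_mul] at h
        have := mul_left_cancel₀ x0 (h.2.2.1.trans (mul_left_comm ..))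
        rw [es_lin hD hg hk he hf c ((h2 g hg e he _ a).1 (by simp only [det, hm]; grind))
          ((h2 g hg e he _ b).1 (by simp only [det, hm]; grind)) (by simp [Ed.has]) (by simp [Ed.has])]
    · simp only [ortR, forall_mem_flatMap, forall_mem_map, mem_EE, mem_filter, mem_l3, M, decide_eq_true_eq]
      rintro e ⟨g, hg, he⟩ s hs
      have := (h2 g hg e he s hs.2).2 hs.1
      simp [(V hg he).2.2, det, hm] at this ⊢; grind
  · rintro ⟨φ, h1, h2, h3⟩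
    simp only [ortR, forall_mem_append, forall_mem_map, forall_mem_flatMap, mem_EE, mem_filter, mem_l3, M,
      decide_eq_true_eq] at h1 h2 h3
    refine ⟨fun p => tv (φ (p, p)), fun g hg e he => ?_, fun g hg i j k a b c h => ?_⟩
    · have he' := e3_es he
      obtain ⟨a, b, -⟩ := V hg he'
      have c := (es_shape hD hg e he').2.2.2.2.2.2.1 he
      refine ⟨fun h => h1.1 _ c (funext fun i => by fin_cases i <;> simp_all [tv]), ort_det (h1.2 e ⟨g, hg, he'⟩)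
        (h3 e ⟨g, hg, he'⟩ _ ⟨by simp [Ed.has], a⟩) (h3 e ⟨g, hg, he'⟩ _ ⟨by simp [Ed.has], b⟩)
        (h3 e ⟨g, hg, he'⟩ _ ⟨by simp [Ed.has], c⟩)⟩
    · obtain ⟨r, hr⟩ := es_pair (D := D) a (b.trans c)
      obtain ⟨s, hs⟩ := es_pair (D := D) b c
      obtain ⟨a1, a2, -⟩ := V hg hr; obtain ⟨-, a3, -⟩ := V hg hs
      obtain ⟨t, ht⟩ := ort_par (h1.1 _ a2) (h1.1 _ a3) (h1.2 _ ⟨g, hg, hs⟩) ((h2.1 _ a1).1 _ a2 (by grind))
        ((h2.1 _ a2).1 _ a3 (by grind)) (h3 _ ⟨g, hg, hr⟩ _ ⟨by simp [Ed.has], a1⟩)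
        (h3 _ ⟨g, hg, hr⟩ _ ⟨by simp [Ed.has], a2⟩) (h3 _ ⟨g, hg, hs⟩ _ ⟨by simp [Ed.has], a2⟩)
        (h3 _ ⟨g, hg, hs⟩ _ ⟨by simp [Ed.has], a3⟩) h
      exact (h2.2 _ ⟨g, hg, hr⟩).2 _ ⟨g, hg, hs⟩ (by grind) t ht

end Pool.Agent.H21.ER
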