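import Pool.Agent.H21.Geo4

namespace Pool.Agent.H21.ER

open Pool.Agent.H11.PT List

def e4 (N : ℕ) (D : List DC) (g : ℕ) : List Ed := e3 N D g ++ ea N g
def fthR (N : ℕ) (D : List DC) : List Pt × List Ed := (VV (mv N) N D, EE (e4 N D) N D)
lemma e4_es {N g D e} (h : e ∈ e4 N D g) : e ∈ es N D g := by simp only [e4, es, mem_append] at *; grind

lemma e4_path {N g i j k : ℕ} {D : List DC} (h : i < j) (h' : j < k) (h'' : k < mv N g) : ∃ e ∈ e4 N D g,
    ∃ f ∈ e4 N D g, e ≠ f ∧ ∀ x ∈ [e.1, e.2.1, f.1, f.2.1], x ∈ [(g, i), (g, j), (g, k)] := by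
  simp only [mv, e4, e3, ea, k4] at *
  split_ifs at h'' ⊢ <;> interval_cases k <;> interval_cases j <;> interval_cases i <;> simp

lemma e4_nb {N g i : ℕ} {D : List DC} (h : i < mv N g) :
    {w | ∃ c, ((g, i), w, c) ∈ e4 N D g ∨ (w, (g, i), c) ∈ e4 N D g}.ncard = 4 := by
  have : {w | ∃ c, ((g, i), w, c) ∈ e4 N D g ∨ (w, (g, i), c) ∈ e4 N D g} = (fun j => (g, j)) ''
      ((Finset.range (mv N g)).filter fun j => j ≠ i ∧ (g < N → j ≠ [5, 3, 4, 1, 2, 0].getD i 0) : Finset ℕ) := by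
    ext ⟨a, b⟩
    simp only [mv, e4, e3, ea, k4] at *
    split_ifs at h ⊢ <;> interval_cases i <;> simp [exists_or, *] <;> omega
  rw [this, Set.ncard_image_of_injective _ (Prod.mk_right_injective g), Set.ncard_coe_finset]
  simp only [mv] at *
  split_ifs at h ⊢ <;> interval_cases i <;> simp [*] <;> decide

lemma ea_fresh {N g : ℕ} : ∀ e ∈ ea N g, ∀ f ∈ ea N g, e.2.2 = f.2.2 → e = f := by
  simp only [ea]; split_ifs <;> simp

theorem fth_hard : ∃ f : Qf → List Pt × List Ed, PolyTime bits bits f ∧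
    ∀ φ, RegCol 4 (f φ) ∧ (ETR φ ↔ Faithful (f φ)) := by
  refine scheme fthR (by unfold fthR EE VV e4; fun_prop) _ _ fun N D hN hD => ?_
  have M {s} : s ∈ VV (mv N) N D ↔ s.1 < N + D.length ∧ s.2 < mv N s.1 := mem_VV
  have V {g e} (hg : g < N + D.length) (he : e ∈ e4 N D g) :
      e.1 ∈ VV (mv N) N D ∧ e.2.1 ∈ VV (mv N) N D ∧ e.1 ≠ e.2.1 ∧ e.2.2 ∉ VV (mv N) N D := by
    obtain ⟨s1, s2, s3, s4, s5, s6, -⟩ := es_shape hD hg e (e4_es he)
    simp only [M, mv] at *; grind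
  have I {s} (h : s ∈ VV (mv N) N D) : inV N D s := ⟨(M.1 h).1, mv_np (M.1 h).2⟩
  refine ⟨⟨?_, ?_, ?_⟩, ?_, ?_⟩
  · simp only [fthR, mem_EE]
    rintro e ⟨g, hg, he⟩
    have := V hg he; grind
  · simp only [fthR, mem_EE]
    rintro e ⟨g, hg, he⟩ f ⟨k, hk, hf⟩ n
    have a := V hg he; have b := V hk hf
    have := @es_lin N g k D hD hg hk e f (e4_es he) (e4_es hf)
    refine ⟨fun h => n (this a.2.2.1 ?_ ?_ ?_ ?_), fun h x h1 h2 => n (this (x := x) (y := e.2.2) ?_ ?_ ?_ ?_ ?_)⟩ <;>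
      simp only [Ed.has, Sym2.eq_iff, Sym2.mem_iff] at * <;> grind
  · rintro ⟨g, i⟩ hu
    rw [← e4_nb (D := D) (M.1 hu).2]
    congr 1; ext w
    simp only [fthR, mem_EE, Set.mem_setOf_eq]
    refine exists_congr fun c => or_congr ⟨?_, fun h => ⟨g, (M.1 hu).1, h⟩⟩ ⟨?_, fun h => ⟨g, (M.1 hu).1, h⟩⟩ <;>
      rintro ⟨k, hk, h⟩ <;> have := es_shape hD hk _ (e4_es h) <;> grind
  · rintro ⟨F, h1, h2⟩
    have W {g e} (hg : g < N + D.length) (he : e ∈ e4 N D g) := h1.ne (I (V hg he).1) (I (V hg he).2.1) (V hg he).2.2.1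
    refine ⟨F, h1.mono fun s => I, fun c => ?_, ?_⟩ <;> simp only [fthR, mem_EE]
    · by_cases hc : inV N D c
      · refine ⟨F c, ?_⟩
        rintro e ⟨g, hg, he⟩ rfl
        exact (line_iff (W hg he)).2 ((h2 g hg e (e4_es he) _ hc).2 (by simp [Ed.has]))
      by_cases h : ∃ g < N + D.length, ∃ e ∈ e4 N D g, e.2.2 = c
      · obtain ⟨g, hg, e, he, rfl⟩ := h
        refine ⟨F e.1, ?_⟩
        rintro f ⟨k, hk, hf⟩ h
        have a := es_shape hD hg _ (e4_es he); have b := es_shape hD hk _ (e4_es hf)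
        obtain rfl : g = k := by simp only [inV, np] at *; grind
        rw [ea_fresh (N := N) (g := g) e (by simp only [e4, mem_append] at he; grind) f (by simp only [e4, mem_append] at hf; grind) h.symm]
        exact left_mem_affineSpan_pair ..
      · exact ⟨0, by grind⟩
    · rintro e ⟨g, hg, he⟩ f ⟨k, hk, hf⟩ n h
      obtain ⟨a, b, c, -⟩ := V hk hf
      exact n (es_lin hD hg hk (e4_es he) (e4_es hf) c
        ((h2 g hg e (e4_es he) _ (I a)).1 ((line_iff (W hg he)).1 (h ▸ left_mem_affineSpan_pair ..)))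
        ((h2 g hg e (e4_es he) _ (I b)).1 ((line_iff (W hg he)).1 (h ▸ right_mem_affineSpan_pair ..)))
        (by simp [Ed.has]) (by simp [Ed.has]))
  · rintro ⟨P, h1, h2, h3⟩
    choose z hz using h2
    simp only [fthR, mem_EE] at h1 hz h3
    have W {g e} (hg : g < N + D.length) (he : e ∈ e4 N D g) := h1.ne (V hg he).1 (V hg he).2.1 (V hg he).2.2.1
    refine ⟨fun p => hm (if p ∈ VV (mv N) N D then P p else z p), fun g hg e he => ⟨hm_ne _, ?_⟩,
      fun g hg i j k a b c h => ?_⟩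
    · have he : e ∈ e4 N D g := mem_append_left _ he
      simp only [V hg he, if_true, if_false]
      exact (line_iff (W hg he)).1 (hz _ e ⟨g, hg, he⟩ rfl)
    · simp only [M, hg, c, b.trans c, a.trans (b.trans c), and_self, if_true] at h
      obtain ⟨e, he, f, hf, n, m⟩ := e4_path (D := D) a b c
      have K (x) (hx : x ∈ [e.1, e.2.1, f.1, f.2.1]) (y) (hy : y ∈ [e.1, e.2.1, f.1, f.2.1]) (w)
          (hw : w ∈ [e.1, e.2.1, f.1, f.2.1]) : det (hm (P x)) (hm (P y)) (hm (P w)) = 0 := by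
        have a := m x hx; have b := m y hy; have c := m w hw
        simp only [mem_cons, not_mem_nil, or_false, det] at a b c h ⊢
        rcases a with rfl | rfl | rfl <;> rcases b with rfl | rfl | rfl <;> rcases c with rfl | rfl | rfl <;> linarith
      exact h3 e ⟨g, hg, he⟩ f ⟨g, hg, hf⟩ n (le_antisymm
        (affineSpan_pair_le_of_mem_of_mem ((line_iff (W hg hf)).2 (K _ (by simp) _ (by simp) _ (by simp)))
          ((line_iff (W hg hf)).2 (K _ (by simp) _ (by simp) _ (by simp))))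
        (affineSpan_pair_le_of_mem_of_mem ((line_iff (W hg he)).2 (K _ (by simp) _ (by simp) _ (by simp)))
          ((line_iff (W hg he)).2 (K _ (by simp) _ (by simp) _ (by simp)))))

end Pool.Agent.H21.ER
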