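import Mathlib

namespace Pool.Agent.H21.Gr

abbrev P := Fin 8 × Fin 8

def lab (p : P) : P :=
  if p = (6, 4) then (1, 2) else if p = (3, 4) then (0, 2) else if p = (6, 5) then (1, 7) else p

def alt (p : P) : P :=
  if p = (1, 2) then (6, 4) else if p = (0, 2) then (3, 4) else if p = (1, 7) then (6, 5) else p

def op0 (g h : P) : P :=
  if g.2 = h.1 then (g.1, h.2) else if (alt g).2 = h.1 then ((alt g).1, h.2)
  else if g.2 = (alt h).1 then (g.1, (alt h).2) else ((alt g).1, (alt h).2)

lemma lab_lab : ∀ p, lab (lab p) = lab p := by decide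

def G : Type := {p : P // lab p = p}

instance : DecidableEq G := inferInstanceAs (DecidableEq {p : P // lab p = p})

def L (i j : Fin 8) : G := ⟨lab (i, j), lab_lab _⟩

def op (g h : G) : G := L (op0 g.1 h.1).1 (op0 g.1 h.1).2

lemma op_L : ∀ i j k, op (L i j) (L j k) = L i k := by decide +kernel

lemma L_surj (g : G) : ∃ i j, L i j = g := ⟨g.1.1, g.1.2, Subtype.ext g.2⟩

variable (K : Type*) [Field K]

def A (g : G) : Submodule K (Matrix (Fin 8) (Fin 8) K) where
  carrier := {M | ∀ i j, L i j ≠ g → M i j = 0}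
  add_mem' ha hb i j h := by simp [ha i j h, hb i j h]
  zero_mem' _ _ _ := rfl
  smul_mem' c M hM i j h := by simp [hM i j h]

def B (g : G) : Submodule K (Matrix (Fin 8) (Fin 8) K) where
  carrier := {M | ∀ i j, L i j = g → M i j = 0}
  add_mem' ha hb i j h := by simp [ha i j h, hb i j h]
  zero_mem' _ _ _ := rfl
  smul_mem' c M hM i j h := by simp [hM i j h]

lemma single_mem (i j : Fin 8) (c : K) : Matrix.single i j c ∈ A K (L i j) := fun k l h =>
  Matrix.single_apply_of_ne _ _ _ _ _ (by rintro ⟨rfl, rfl⟩; exact h rfl)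

lemma single_ne (i j : Fin 8) : Matrix.single i j (1 : K) ≠ 0 := fun h => by
  simpa using congrFun (congrFun h i) j

lemma internal : DirectSum.IsInternal (A K) := by
  rw [DirectSum.isInternal_submodule_iff_iSupIndep_and_iSup_eq_top]
  constructor
  · intro g
    have h : (⨆ h, ⨆ (_ : h ≠ g), A K h) ≤ B K g :=
      iSup₂_le fun h hh M hM i j e => hM i j (by rw [e]; exact hh.symm)
    refine Disjoint.mono_right h (Submodule.disjoint_def.2 fun M h1 h2 => ?_)
    ext i j
    by_cases e : L i j = g
    · exact h2 i j e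
    · exact h1 i j e
  · refine top_unique fun M _ => ?_
    rw [Matrix.matrix_eq_sum_single M]
    exact Submodule.sum_mem _ fun i _ => Submodule.sum_mem _ fun j _ =>
      Submodule.mem_iSup_of_mem _ (single_mem K i j _)

lemma mul_le (g h : G) : A K g * A K h ≤ A K (op g h) := by
  refine Submodule.mul_le.2 fun M hM N hN i k e => ?_
  rw [Matrix.mul_apply]
  refine Finset.sum_eq_zero fun j _ => ?_
  by_cases h1 : L i j = g
  · by_cases h2 : L j k = h
    · exact absurd (by rw [← h1, ← h2, op_L]) e
    · simp [hN j k h2]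
  · simp [hM i j h1]

lemma mul_ne (i j k : Fin 8) : A K (L i j) * A K (L j k) ≠ ⊥ := fun h => by
  have := Submodule.mul_mem_mul (single_mem K i j 1) (single_mem K j k 1)
  rw [h, Submodule.mem_bot, Matrix.single_mul_single_same, one_mul] at this
  exact single_ne K i k this

end Pool.Agent.H21.Gr
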