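import Mathlib

namespace Pool.Agent.H21.Gray

def g : ℕ → ℕ → ZMod 2
  | n, 0 => (n : ZMod 2) + (n / 2 : ℕ)
  | n, j + 1 => g (n / 2) j

def v (n : ℕ) : ℕ := if h : n % 2 = 1 then v (n / 2) + 1 else 0
decreasing_by omega

lemma v0 (m) : v (2 * m) = 0 := by rw [v]; simp
lemma v1 (m) : v (2 * m + 1) = v m + 1 := by rw [v]; simp [show (2 * m + 1) / 2 = m by omega]

lemma two : (2 : ZMod 2) = 0 := rfl

lemma g_succ (n) : ∀ j, g (n + 1) j = g n j + if j = v n then 1 else 0 := by
  induction n using Nat.evenOddRec with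
  | h0 => rintro (_ | j) <;> simp [g, show v 0 = 0 from v0 0]
  | h_even m _ =>
    rintro (_ | j) <;> simp [g, v0, show (2 * m + 1) / 2 = m by omega, two]
    ring
  | h_odd m ih =>
    rintro (_ | j) <;> simp [g, v1, show (2 * m + 1) / 2 = m by omega, ih, two,
      show (2 * m + 1 + 1) / 2 = m + 1 by omega]
    rw [one_add_one_eq_two, two, zero_add, add_comm]

lemma g_low (n) : ∀ j, j < v n → g n j = if j + 1 = v n then 1 else 0 := by
  induction n using Nat.evenOddRec with
  | h0 => simp [show v 0 = 0 from v0 0]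
  | h_even m _ => simp [v0]
  | h_odd m ih =>
    rintro (_ | j) h <;> simp only [g, v1, show (2 * m + 1) / 2 = m by omega] at h ⊢
    · obtain ⟨q, rfl | rfl⟩ := m.even_or_odd' <;> simp [v0, v1, two]
      rfl
    · simp [ih j (by omega)]

lemma g_hi : ∀ J {n m}, n / 2 ^ J = m / 2 ^ J → ∀ i, J ≤ i → g n i = g m i
  | 0, n, m, h, i, _ => by simp at h; rw [h]
  | J + 1, n, m, h, i + 1, k => g_hi J (by
      rwa [Nat.div_div_eq_div_mul, Nat.div_div_eq_div_mul, ← pow_succ']) i (by omega)

lemma g_zero : ∀ j n, n < 2 ^ j → g n j = 0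
  | 0, n, h => by simp [show n = 0 by omega, g]
  | j + 1, n, h => g_zero j _ (by omega)

lemma g_inj (N) : ∀ {n m}, n < 2 ^ N → m < 2 ^ N → g n = g m → n = m := by
  induction N with
  | zero => omega
  | succ N ih =>
    intro n m h1 h2 h
    have e := ih (n := n / 2) (m := m / 2) (by omega) (by omega) (funext fun j => congrFun h (j + 1))
    have := congrFun h 0
    simp only [g, e, add_left_inj] at this
    have := (ZMod.natCast_eq_natCast_iff' _ _ _).1 this
    omega

lemma hi_g : ∀ J {n m}, (∀ i, J ≤ i → g n i = g m i) → n / 2 ^ J = m / 2 ^ J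
  | 0, n, m, h => by
    simpa using g_inj (n + m) (by have := @Nat.lt_two_pow_self (n + m); omega)
      (by have := @Nat.lt_two_pow_self (n + m); omega) (funext fun i => h i (by simp))
  | J + 1, n, m, h => by
    rw [pow_succ', ← Nat.div_div_eq_div_mul, ← Nat.div_div_eq_div_mul]
    exact hi_g J fun i k => h (i + 1) (by omega)

lemma g_surj : ∀ N (h : ℕ → ZMod 2), (∀ j, N ≤ j → h j = 0) → ∃ n, g n = h
  | 0, h, k => ⟨0, funext fun j => (g_zero j 0 (by simp)).trans (k j (by simp)).symm⟩
  | N + 1, h, k => by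
    obtain ⟨m, e⟩ := g_surj N (fun j => h (j + 1)) fun j a => k _ (by omega)
    have := (h 0 - m).val_lt
    refine ⟨2 * m + (h 0 - m).val, funext fun j => ?_⟩
    cases j <;> simp [g, show (2 * m + (h 0 - m).val) / 2 = m by omega, e, two]

def D (n : ℕ) : ℕ := (v n + 1) / 2

def T (n : ℕ) : ℕ := ∑ m ∈ Finset.range n, (2 * D m + 1)

lemma T_succ (n) : T (n + 1) = T n + (2 * D n + 1) := Finset.sum_range_succ _ _

lemma T_le (J m) : ∀ k, m / 2 ^ J = (m + k) / 2 ^ J → T m ≤ T (m + k) ∧ T (m + k) ≤ T m + k * (J + 2)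
  | 0, _ => by simp
  | k + 1, h => by
    have e : m / 2 ^ J = (m + k) / 2 ^ J := le_antisymm (Nat.div_le_div_right (by omega))
      (h ▸ Nat.div_le_div_right (by omega))
    have := T_le J m k e
    have : v (m + k) < J := not_le.1 fun a => by
      simpa [← add_assoc, g_succ] using g_hi J (e.symm.trans h) _ a
    rw [← add_assoc, T_succ, D]
    grind

lemma T_near {J n m} (h : n / 2 ^ J = m / 2 ^ J) : T n ≤ T m + 2 ^ J * (J + 2) := by
  rcases le_total n m with a | a <;> obtain ⟨k, rfl⟩ := Nat.exists_eq_add_of_le a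
  · exact (T_le J n k h).1.trans (by omega)
  · refine (T_le J m k h.symm).2.trans (by
      have := Nat.div_add_mod m (2 ^ J)
      have := Nat.div_add_mod (m + k) (2 ^ J)
      have := Nat.mod_lt (m + k) (by positivity : 0 < 2 ^ J)
      gcongr
      grind)

def ι (x : ℤ) : ℕ := if 0 ≤ x then 2 * x.natAbs else 2 * x.natAbs - 1

def pos (n d : ℕ) : ℤ := if v n % 2 = 0 then d else -d

def cf (n b d : ℕ) (x : ℤ) : ZMod 2 := g (n + b) (ι x) +
  if x ≠ 0 ∧ x = pos n x.natAbs ∧ x.natAbs ≤ d then g n (v n + 2 * (x.natAbs - 1)) else 0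

def ix (n b d : ℕ) : ℕ := if b = 0 then T n + d else T (n + 1) - d

lemma near (M : ℕ) : ∃ N, ∀ n b d n' b' d', b ≤ 1 → b' ≤ 1 → d ≤ D n → d' ≤ D n' →
    |pos n d - pos n' d'| ≤ M → (∀ x, M < |x - pos n d| → cf n b d x = cf n' b' d' x) →
    ix n b d ≤ ix n' b' d' + N := by
  refine ⟨2 ^ (6 * M + 3) * (6 * M + 3 + 2) + 5 * M + 2, fun n b d n' b' d' hb hb' hd hd' h1 h2 => ?_⟩
  have t1 := T_succ n
  have t2 := T_succ n'
  have gb : ∀ n b i, b ≤ 1 → i ≠ v n → g (n + b) i = g n i := fun n b i h k => by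
    interval_cases b <;> simp [g_succ, k]
  have sj : ∀ i, ∃ x, ι x = i := fun i => ⟨if i % 2 = 0 then i / 2 else -(i / 2 + 1), by grind [ι]⟩
  rcases le_or_gt d (2 * M + 1) with h | h
  · have := T_near (hi_g (6 * M + 3) (n := n + b) (m := n' + b') fun i hi => by
      obtain ⟨x, rfl⟩ := sj i
      have := h2 x (by grind [ι, pos])
      rwa [cf, cf, if_neg (by grind [ι, pos]), if_neg (by grind [ι, pos]), add_zero, add_zero] at this)
    have : d' ≤ 3 * M + 1 := by grind [pos]
    interval_cases b <;> interval_cases b' <;> simp only [ix, add_zero] at * <;> grind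
  have hp : v n % 2 = v n' % 2 := by grind [pos]
  have ho : ∀ i, i % 2 ≠ v n % 2 → g n i = g n' i := fun i hi => by
    obtain ⟨x, rfl⟩ := sj i
    have := h2 x (by grind [ι, pos])
    rwa [cf, cf, if_neg (by grind [ι, pos]), if_neg (by grind [ι, pos]), add_zero, add_zero,
      gb _ _ _ hb (by omega), gb _ _ _ hb' (by omega)] at this
  have hv : v n = v n' := by
    have a := ho (min (v n) (v n') - 1) (by grind [D, pos])
    rw [g_low _ _ (by grind [D, pos]), g_low _ _ (by grind [D, pos])] at a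
    split_ifs at a <;> first | omega | exact absurd a (by decide) | grind [D, pos]
  obtain rfl : n = n' := by
    refine (Nat.div_one n).symm.trans ((hi_g 0 fun i _ => ?_).trans (Nat.div_one n'))
    by_cases h3 : i % 2 = v n % 2
    · rcases lt_or_ge i (v n) with h4 | h4
      · rw [g_low _ _ h4, g_low _ _ (hv ▸ h4), hv]
      obtain ⟨j, rfl⟩ : ∃ j, i = v n + 2 * j := ⟨(i - v n) / 2, by omega⟩
      rcases le_or_gt j M with h5 | h5
      · have := h2 (pos n (j + 1)) (by grind [pos])
        rw [cf, cf, if_pos (by grind [pos]), if_pos (by grind [pos]), gb _ _ _ hb (by grind [pos, ι, D]),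
          gb _ _ _ hb' (by grind [pos, ι, D]), g_low n (ι _) (by grind [pos, ι, D]),
          g_low n' (ι _) (by grind [pos, ι, D]), ← hv, add_right_inj] at this
        simpa [show (pos n (j + 1)).natAbs = j + 1 by grind [pos]] using this
      · have := h2 (pos n (D n + j)) (by grind [pos])
        rwa [cf, cf, if_neg (by grind [pos]), if_neg (by grind [pos]), add_zero, add_zero,
          show ι (pos n (D n + j)) = v n + 2 * j by grind [pos, ι, D], gb _ _ _ hb (by omega),
          gb _ _ _ hb' (by omega)] at this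
    · exact ho i h3
  have : b = b' ∨ D n ≤ d + M := by
    by_contra! k
    have := h2 (pos n (D n)) (by grind [pos])
    rw [cf, cf, if_neg (by grind [pos]), if_neg (by grind [pos]), add_zero, add_zero,
      show ι (pos n (D n)) = v n by grind [pos, ι, D]] at this
    interval_cases b <;> interval_cases b' <;> simp [g_succ] at this k
  grind [ix, pos]

end Pool.Agent.H21.Gray
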