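import Mathlib

namespace Pool.Agent.H21.Grig

def gen : Fin 4 → List Bool → List Bool
  | _, [] => []
  | 0, x :: w => (!x) :: w
  | 1, false :: w => false :: gen 0 w
  | 1, true :: w => true :: gen 2 w
  | 2, false :: w => false :: gen 0 w
  | 2, true :: w => true :: gen 3 w
  | 3, false :: w => false :: w
  | 3, true :: w => true :: gen 1 w

lemma gen_invol (i : Fin 4) : Function.Involutive (gen i) := by
  intro w
  induction w generalizing i with
  | nil => simp [gen]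
  | cons x w ih => fin_cases i <;> cases x <;> simp [gen, ih]

def genPerm (i : Fin 4) : Equiv.Perm (List Bool) := (gen_invol i).toPerm

def G : Subgroup (Equiv.Perm (List Bool)) := Subgroup.closure (Set.range genPerm)

noncomputable def len (g : G) : ℕ :=
  sInf {n | ∃ u : List (Fin 4), u.length = n ∧ (u.map genPerm).prod = g}

noncomputable def ball (n : ℕ) : ℕ := Nat.card {g : G // len g ≤ n}

noncomputable def sphere (n : ℕ) : ℕ := Nat.card {g : G // len g = n}

def ev (u : List (Fin 4)) : G :=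
  ⟨(u.map genPerm).prod, Subgroup.list_prod_mem _ fun x hx => by
    obtain ⟨i, -, rfl⟩ := List.mem_map.1 hx
    exact Subgroup.subset_closure ⟨i, rfl⟩⟩

lemma ev_nil : ev [] = 1 := rfl

lemma ev_append (u v : List (Fin 4)) : ev (u ++ v) = ev u * ev v := by
  apply Subtype.ext; simp [ev]

lemma gp_mul (i : Fin 4) : genPerm i * genPerm i = 1 := Equiv.ext (gen_invol i)

lemma ev_reverse (u : List (Fin 4)) : ev u.reverse = (ev u)⁻¹ := by
  induction u with
  | nil => simp [ev_nil]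
  | cons i u ih =>
    rw [List.reverse_cons, ev_append, ih, show i :: u = [i] ++ u from rfl, ev_append, mul_inv_rev]
    congr 1

lemma ev_surj (g : G) : ∃ u, ev u = g := by
  obtain ⟨g, hg⟩ := g
  induction hg using Subgroup.closure_induction with
  | mem x hx => obtain ⟨i, rfl⟩ := hx; exact ⟨[i], Subtype.ext (by simp [ev])⟩
  | one => exact ⟨[], rfl⟩
  | mul x y _ _ hx hy =>
    obtain ⟨u, hu⟩ := hx
    obtain ⟨v, hv⟩ := hy
    exact ⟨u ++ v, by rw [ev_append, hu, hv]; rfl⟩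
  | inv x _ hx =>
    obtain ⟨u, hu⟩ := hx
    exact ⟨u.reverse, by rw [ev_reverse, hu]; rfl⟩

lemma len_le (u : List (Fin 4)) : len (ev u) ≤ u.length := Nat.sInf_le ⟨u, rfl, rfl⟩

lemma exists_geo (g : G) : ∃ u, ev u = g ∧ u.length = len g := by
  obtain ⟨u, rfl⟩ := ev_surj g
  obtain ⟨v, h1, h2⟩ := Nat.sInf_mem (s := {n | ∃ v : List (Fin 4), v.length = n ∧
    (v.map genPerm).prod = ev u}) ⟨_, u, rfl, rfl⟩
  exact ⟨v, Subtype.ext h2, h1⟩

lemma len_mul (g h : G) : len (g * h) ≤ len g + len h := by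
  obtain ⟨u, rfl, hu⟩ := exists_geo g
  obtain ⟨v, rfl, hv⟩ := exists_geo h
  rw [← ev_append, ← hu, ← hv, ← List.length_append]
  exact len_le _

lemma len_inv (g : G) : len g⁻¹ ≤ len g := by
  obtain ⟨u, rfl, hu⟩ := exists_geo g
  rw [← ev_reverse, ← hu, ← List.length_reverse]
  exact len_le _

instance (n : ℕ) : Finite {g : G // len g ≤ n} := by
  have := (List.finite_length_le (Fin 4) n).to_subtype
  refine Finite.of_surjective (fun u : {u : List (Fin 4) | u.length ≤ n} =>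
    (⟨ev u.1, (len_le _).trans u.2⟩ : {g : G // len g ≤ n})) ?_
  rintro ⟨g, hg⟩
  obtain ⟨u, rfl, hu⟩ := exists_geo g
  exact ⟨⟨u, hu.le.trans hg⟩, rfl⟩

instance (n : ℕ) : Finite {g : G // len g = n} :=
  Finite.of_injective (fun g => (⟨g.1, g.2.le⟩ : {g : G // len g ≤ n}))
    fun _ _ h => Subtype.ext (Subtype.mk.inj h)

lemma ball_mono {m n : ℕ} (h : m ≤ n) : ball m ≤ ball n :=
  Nat.card_le_card_of_injective (fun g => (⟨g.1, g.2.trans h⟩ : {g : G // len g ≤ n}))
    fun _ _ h => Subtype.ext (Subtype.mk.inj h)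

def Pr (g g0 g1 : Equiv.Perm (List Bool)) : Prop :=
  (∀ w, g (false :: w) = false :: g0 w) ∧ ∀ w, g (true :: w) = true :: g1 w

lemma Pr.mul {g g0 g1 h h0 h1 : Equiv.Perm (List Bool)} (p : Pr g g0 g1) (q : Pr h h0 h1) :
    Pr (g * h) (g0 * h0) (g1 * h1) :=
  ⟨fun w => by simp [q.1, p.1], fun w => by simp [q.2, p.2]⟩

lemma Pr.uniq {g g0 g1 h0 h1 : Equiv.Perm (List Bool)} (p : Pr g g0 g1) (q : Pr g h0 h1) :
    g0 = h0 ∧ g1 = h1 :=
  ⟨Equiv.ext fun w => by simpa [p.1] using q.1 w, Equiv.ext fun w => by simpa [p.2] using q.2 w⟩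

lemma gp_apply (i : Fin 4) (w : List Bool) : genPerm i w = gen i w := rfl

lemma Pr.swap {g g0 g1 : Equiv.Perm (List Bool)} (p : Pr g g0 g1) :
    Pr (genPerm 0 * g * genPerm 0) g1 g0 :=
  ⟨fun w => by simp [gp_apply, gen, p.2], fun w => by simp [gp_apply, gen, p.1]⟩

lemma pr1 : Pr (genPerm 1) (genPerm 0) (genPerm 2) := ⟨fun _ => rfl, fun _ => rfl⟩
lemma pr2 : Pr (genPerm 2) (genPerm 0) (genPerm 3) := ⟨fun _ => rfl, fun _ => rfl⟩
lemma pr3 : Pr (genPerm 3) 1 (genPerm 1) := ⟨fun _ => rfl, fun _ => rfl⟩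

lemma adad : genPerm 3 * (genPerm 0 * (genPerm 3 * genPerm 0)) =
    genPerm 0 * (genPerm 3 * (genPerm 0 * genPerm 3)) := by
  ext1 w
  rcases w with _ | ⟨_ | _, w⟩ <;> simp [gp_apply, gen]

def dd : Fin 8 → Equiv.Perm (List Bool) :=
  ![1, genPerm 0, genPerm 3, genPerm 0 * genPerm 3, genPerm 3 * genPerm 0,
    genPerm 0 * (genPerm 3 * genPerm 0), genPerm 3 * (genPerm 0 * genPerm 3),
    genPerm 0 * (genPerm 3 * (genPerm 0 * genPerm 3))]

lemma gp_gp (i : Fin 4) (x : Equiv.Perm (List Bool)) : genPerm i * (genPerm i * x) = x := by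
  rw [← mul_assoc, gp_mul, one_mul]

lemma dd0 (j : Fin 8) : genPerm 0 * dd j = dd (![1, 0, 3, 2, 5, 4, 7, 6] j) := by
  fin_cases j <;> simp [dd, gp_gp, gp_mul]

lemma dd3 (j : Fin 8) : genPerm 3 * dd j = dd (![2, 4, 0, 6, 1, 7, 3, 5] j) := by
  fin_cases j
  all_goals simp [dd, gp_gp, gp_mul, adad]
  rw [← adad, gp_gp]

lemma lift (u : List (Fin 4)) :
    ∃ (v : List (Fin 4)) (j : Fin 8), v.length ≤ 3 * u.length ∧ Pr (ev v) (dd j) (ev u) := by
  induction u with
  | nil => exact ⟨[], 0, le_rfl, fun _ => rfl, fun _ => rfl⟩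
  | cons i u ih =>
    obtain ⟨v, j, h, p⟩ := ih
    fin_cases i
    · refine ⟨0 :: 2 :: 0 :: v, ![2, 4, 0, 6, 1, 7, 3, 5] j, by simp; omega, ?_⟩
      rw [← dd3 j]
      simpa [ev, mul_assoc] using pr2.swap.mul p
    · exact ⟨3 :: v, j, by simp; omega, by simpa [ev] using pr3.mul p⟩
    · refine ⟨1 :: v, ![1, 0, 3, 2, 5, 4, 7, 6] j, by simp; omega, ?_⟩
      rw [← dd0 j]
      simpa [ev] using pr1.mul p
    · refine ⟨2 :: v, ![1, 0, 3, 2, 5, 4, 7, 6] j, by simp; omega, ?_⟩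
      rw [← dd0 j]
      simpa [ev] using pr2.mul p

lemma lift' (g : G) : ∃ (h : G) (j : Fin 8), len h ≤ 3 * len g ∧ Pr h (dd j) g := by
  obtain ⟨u, rfl, hu⟩ := exists_geo g
  obtain ⟨v, j, h, p⟩ := lift u
  exact ⟨ev v, j, (len_le v).trans (hu ▸ h), p⟩

instance : Infinite G := by
  rw [← not_finite_iff_infinite]
  intro hf
  choose L j _ p using lift'
  have hi : Function.Injective L := fun g h e =>
    Subtype.ext ((p g).uniq (e ▸ p h)).2
  obtain ⟨g, hg⟩ := Finite.injective_iff_surjective.1 hi (ev [0])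
  have := (p g).1 []
  rw [hg] at this
  simp [ev, gp_apply, gen] at this

lemma ball_sq {n : ℕ} (hn : 1 ≤ n) : ball n ^ 2 ≤ 64 * ball (8 * n) := by
  choose L j hl p using lift'
  have h0 : len (ev [0]) ≤ 1 := len_le [0]
  let F : {g : G // len g ≤ n} × {g : G // len g ≤ n} →
      (Fin 8 × Fin 8) × {g : G // len g ≤ 8 * n} := fun x =>
    ((j x.1.1, j x.2.1), ⟨L x.1.1 * (ev [0] * L x.2.1 * ev [0]), by
      have h1 := len_mul (L x.1.1) (ev [0] * L x.2.1 * ev [0])
      have h2 := len_mul (ev [0] * L x.2.1) (ev [0])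
      have h3 := len_mul (ev [0]) (L x.2.1)
      have h4 := hl x.1.1
      have h5 := hl x.2.1
      have h6 := x.1.2
      have h7 := x.2.2
      omega⟩)
  have hp : ∀ x, Pr (F x).2.1 (dd (F x).1.1 * x.2.1) (x.1.1 * dd (F x).1.2) := fun x => by
    simpa [F, ev] using (p x.1.1).mul (p x.2.1).swap
  have hF : Function.Injective F := fun x y e => by
    have h := (hp x).uniq (e ▸ hp y)
    rw [e, mul_right_inj, mul_left_inj] at h
    exact Prod.ext (Subtype.ext (Subtype.ext h.2)) (Subtype.ext (Subtype.ext h.1))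
  have := Nat.card_le_card_of_injective F hF
  simpa [ball, sq] using this

lemma exists_ray (N : ℕ) : ∃ h : ℕ → G, h 0 = 1 ∧ (∀ k ≤ N, len (h k) = k) ∧
    ∀ k, ∃ x, len x ≤ 1 ∧ h (k + 1) = h k * x := by
  obtain ⟨x, hx⟩ : ∃ x : G, N < len x := by
    by_contra hc
    push Not at hc
    have : Finite G := Finite.of_injective (fun g => (⟨g, hc g⟩ : {g : G // len g ≤ N}))
      fun _ _ h => congrArg Subtype.val h
    exact not_finite G
  obtain ⟨u, rfl, hu⟩ := exists_geo x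
  refine ⟨fun k => ev (u.take k), rfl, fun k hk => le_antisymm ((len_le _).trans (by simp)) ?_,
    fun k => ⟨ev (u[k]?.toList), (len_le _).trans (by cases u[k]? <;> simp), by
      simp only [← ev_append, List.take_add_one]⟩⟩
  show k ≤ len (ev (u.take k))
  have h1 := len_mul (ev (u.take k)) (ev (u.drop k))
  rw [← ev_append, List.take_append_drop] at h1
  have h2 := len_le (u.drop k)
  rw [List.length_drop] at h2
  omega

lemma ball_ge (n : ℕ) : n + 1 ≤ ball n := by
  obtain ⟨h, -, hl, -⟩ := exists_ray n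
  have := Nat.card_le_card_of_injective
    (fun k : Fin (n + 1) => (⟨h k, by rw [hl k (by omega)]; omega⟩ : {g : G // len g ≤ n}))
    fun k l e => Fin.ext (by
      rw [← hl k (by omega), ← hl l (by omega)]
      exact congrArg (fun g => len g.1) e)
  simpa [ball] using this

lemma ivt (f : ℕ → ℕ) (N : ℕ) (h0 : f 0 ≤ N) (hs : ∀ k, f (k + 1) ≤ f k + 1) :
    ∀ M, N ≤ f M → ∃ k ≤ M, f k = N := by
  intro M
  induction M with
  | zero => exact fun h => ⟨0, le_rfl, by omega⟩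
  | succ M ih =>
    intro h
    by_cases hM : N ≤ f M
    · obtain ⟨k, hk, e⟩ := ih hM
      exact ⟨k, by omega, e⟩
    · exact ⟨M + 1, le_rfl, by have := hs M; omega⟩

lemma ball_le (N : ℕ) : ball N ≤ (2 * N + 1) * sphere N := by
  obtain ⟨h, h0, hl, hs⟩ := exists_ray (2 * N)
  have : ∀ g : {g : G // len g ≤ N}, ∃ k ≤ 2 * N, len (g.1 * h k) = N := fun g => by
    refine ivt (fun k => len (g.1 * h k)) N (by simpa [h0] using g.2) (fun k => ?_) _ ?_
    · obtain ⟨x, hx, e⟩ := hs k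
      have := len_mul (g.1 * h k) x
      rw [e, ← mul_assoc]
      omega
    · have h1 := len_mul g.1⁻¹ (g.1 * h (2 * N))
      rw [inv_mul_cancel_left, hl _ le_rfl] at h1
      have h2 := len_inv g.1
      have h3 := g.2
      omega
  choose k hk e using this
  have := Nat.card_le_card_of_injective
    (fun g => ((⟨k g, by have := hk g; omega⟩, ⟨_, e g⟩) : Fin (2 * N + 1) × {g : G // len g = N}))
    fun g g' ee => by
      simp only [Prod.mk.injEq, Fin.mk.injEq, Subtype.mk.injEq] at ee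
      rw [ee.1, mul_left_inj] at ee
      exact Subtype.ext ee.2
  simpa [ball, sphere] using this

lemma ball_le_sphere {n : ℕ} (hn : 1 ≤ n) : ball n ≤ sphere (64 * 8192 * n) := by
  have h1 := ball_sq (n := 8192 * n) (by omega)
  have h2 := ball_sq (n := 8 * (8192 * n)) (by omega)
  have h3 := ball_le (64 * 8192 * n)
  have h4 := ball_ge (8192 * n)
  have h5 : ball n ≤ ball (8192 * n) := ball_mono (by omega)
  rw [show 8 * (8 * (8192 * n)) = 64 * 8192 * n by ring] at h2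
  set x := ball (8192 * n)
  set y := ball (8 * (8192 * n))
  set s := sphere (64 * 8192 * n)
  have h6 : x ^ 4 ≤ 64 ^ 3 * ((2 * (64 * 8192 * n) + 1) * s) := by
    calc x ^ 4 = (x ^ 2) ^ 2 := by ring
      _ ≤ (64 * y) ^ 2 := Nat.pow_le_pow_left h1 2
      _ = 64 ^ 2 * y ^ 2 := by ring
      _ ≤ 64 ^ 2 * (64 * ((2 * (64 * 8192 * n) + 1) * s)) :=
        Nat.mul_le_mul_left _ (h2.trans (Nat.mul_le_mul_left _ h3))
      _ = _ := by ring
  have h7 : 64 ^ 3 * (2 * (64 * 8192 * n) + 1) ≤ x ^ 3 := by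
    calc 64 ^ 3 * (2 * (64 * 8192 * n) + 1) ≤ 8192 * 8192 * (8192 * n) := by omega
      _ ≤ x * x * x := Nat.mul_le_mul (Nat.mul_le_mul (by omega) (by omega)) (by omega)
      _ = _ := by ring
  refine h5.trans (Nat.le_of_mul_le_mul_left (c := x ^ 3) ?_ (pow_pos (by omega) 3))
  calc x ^ 3 * x = x ^ 4 := by ring
    _ ≤ _ := h6
    _ = 64 ^ 3 * (2 * (64 * 8192 * n) + 1) * s := by ring
    _ ≤ _ := Nat.mul_le_mul_right _ h7

lemma ball_tower (k : ℕ) : 64 * 2 ^ 2 ^ k ≤ ball (8 ^ k * 128) := by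
  induction k with
  | zero => have := ball_ge 128; simp; omega
  | succ k ih =>
    have h1 := ball_sq (n := 8 ^ k * 128) (Nat.succ_le_of_lt (by positivity))
    rw [show 8 * (8 ^ k * 128) = 8 ^ (k + 1) * 128 by ring] at h1
    refine Nat.le_of_mul_le_mul_left (c := 64) (le_trans ?_ h1) (by norm_num)
    calc 64 * (64 * 2 ^ 2 ^ (k + 1)) = (64 * 2 ^ 2 ^ k) ^ 2 := by ring
      _ ≤ _ := Nat.pow_le_pow_left ih 2

end Pool.Agent.H21.Grig
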