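import Pool.Agent.H11.PTDefs

namespace Pool.Agent.H21.HCKDefs

/-- An input graph: the number `n` of vertices (these are `0, …, n-1`) and a list of edges
(loops allowed). -/
abbrev Gr := ℕ × List (ℕ × ℕ)

/-- `χ` is an `H`-colouring of the well-formed input graph `G`. -/
def IsCol {W : Type} (H : W → W → Prop) (G : Gr) (χ : Fin G.1 → W) : Prop :=
  (∀ e ∈ G.2, e.1 < G.1 ∧ e.2 < G.1) ∧ ∀ u v : Fin G.1, (u.1, v.1) ∈ G.2 → H (χ u) (χ v)

/-- The list `F`-colouring problem; entry `u` of the second component is the list of vertex `u`. -/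
def ListCol {p : ℕ} (F : Fin p → Fin p → Prop) (x : Gr × List (List ℕ)) : Prop :=
  ∃ χ : Fin x.1.1 → Fin p, IsCol F x.1 χ ∧ ∀ u, (χ u).1 ∈ x.2.getD u.1 []

/-- The `(H, C, K)`-colouring problem. -/
def WCol {W : Type} (H : W → W → Prop) (C : Set W) (K : W → ℕ) (G : Gr) : Prop :=
  ∃ χ : Fin G.1 → W, IsCol H G χ ∧ ∀ a ∈ C, {u | χ u = a}.ncard = K a

end Pool.Agent.H21.HCKDefs
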