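import Pool.Agent.H21.Sim
import Pool.Agent.H21.HCKDefs

namespace Pool.Agent.H21.HCK

open Pool.Agent.H11.PT Pool.Agent.H21.HCKDefs

lemma cnt {n : ℕ} (f : Fin n → ℕ) (a : ℕ) : (List.ofFn f).count a = {u | f u = a}.ncard := by
  have := Fin.card_filter_univ_eq_vector_get_eq_count a (List.Vector.ofFn f)
  rw [List.Vector.toList_ofFn, ← Set.ncard_coe_finset] at this
  simpa using this.symm

theorem inNP {W : Type} [Fintype W] (H : W → W → Prop) (C : Set W) (K : W → ℕ) : InNP (WCol H C K) := by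
  classical
  let e := Fintype.equivFin W
  let tH : List (ℕ × ℕ) := ((Finset.univ.filter fun p : W × W => H p.1 p.2).toList).map
    fun p => ((e p.1).1, (e p.2).1)
  let tC : List (ℕ × ℕ) := ((Finset.univ.filter fun a => a ∈ C).toList).map fun a => ((e a).1, K a)
  have hH : ∀ a b, ((e a).1, (e b).1) ∈ tH ↔ H a b := fun a b => by simp [tH, Fin.val_inj]
  have key : ∀ (G : Gr) (χ : Fin G.1 → W), (IsCol H G χ ∧ ∀ a ∈ C, {u | χ u = a}.ncard = K a) ↔
      (G.2.all (fun d => decide (d.1 < G.1) && decide (d.2 < G.1) &&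
        tH.contains ((List.ofFn fun u => (e (χ u)).1).getD d.1 0, (List.ofFn fun u => (e (χ u)).1).getD d.2 0))
      && tC.all fun t => (List.ofFn fun u => (e (χ u)).1).count t.1 == t.2) = true := fun G χ => by
    simp only [Bool.and_eq_true, List.all_eq_true, decide_eq_true_eq, List.contains_iff_mem, beq_iff_eq,
      cnt, tC, List.forall_mem_map, Finset.mem_toList, Finset.mem_filter, Finset.mem_univ, true_and,
      Fin.val_inj, e.injective.eq_iff]
    refine and_congr_left' ⟨fun h d hd => ⟨h.1 d hd, ?_⟩, fun h => ⟨fun d hd => (h d hd).1, fun u v hd => ?_⟩⟩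
    · simpa [(h.1 d hd).1, (h.1 d hd).2, hH] using h.2 ⟨_, (h.1 d hd).1⟩ ⟨_, (h.1 d hd).2⟩ hd
    · simpa [hH] using (h _ hd).2
  refine PT.inNP_nats (V := fun G c => (c.length == G.1 && c.all fun a => decide (a < Fintype.card W)) &&
    (G.2.all (fun d => decide (d.1 < G.1) && decide (d.2 < G.1) && tH.contains (c.getD d.1 0, c.getD d.2 0))
      && tC.all fun t => c.count t.1 == t.2)) (by fun_prop) (fun G => G.1 + G.1 * Fintype.card W)
    (by fun_prop) (fun G w h => ?_) fun G ⟨χ, h⟩ => ⟨List.ofFn fun u => (e (χ u)).1, ?_, ?_⟩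
  · obtain ⟨n, E⟩ := G
    rw [Bool.and_eq_true, Bool.and_eq_true, beq_iff_eq, List.all_eq_true] at h
    obtain ⟨⟨rfl, h1⟩, h2⟩ := h
    refine ⟨fun u => e.symm ⟨w[u.1]'u.2, by simpa using h1 _ (List.getElem_mem _)⟩, (key _ _).2 ?_⟩
    simpa using h2
  · have := List.sum_le_card_nsmul (List.ofFn fun u => (e (χ u)).1) (Fintype.card W) (by simp)
    simpa using this
  · rw [Bool.and_eq_true]
    exact ⟨by simp, (key G χ).1 h⟩

variable {p : ℕ} (F : Fin p → Fin p → Prop)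

def Hx : Fin p ⊕ Fin (2 * p + 6) → Fin p ⊕ Fin (2 * p + 6) → Prop
  | .inl a, .inl b => F a b
  | .inl a, .inr t => t.1 % 2 = 1 ∧ t.1 ≠ 2 * a + 1
  | .inr t, .inl a => t.1 % 2 = 1 ∧ t.1 ≠ 2 * a + 1
  | .inr s, .inr t => s.1 + 1 = t ∨ t.1 + 1 = s ∨ s.1 = 2 * p + 5 ∧ t.1 = 2 * p + 5

def red (p : ℕ) (x : Gr × List (List ℕ)) : Gr := (2 * p + 6 + x.1.1,
  (2 * p + 5, 2 * p + 5) :: (List.range (2 * p + 5)).map (fun t => (t, t + 1)) ++
  x.1.2.map (fun d => (2 * p + 6 + d.1, 2 * p + 6 + d.2)) ++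
  (List.range x.1.1).flatMap fun u => ((List.range (p + 3)).filter fun i =>
    decide (p ≤ i) || !(x.2.getD u []).contains i).map fun i => (2 * p + 6 + u, 2 * i + 1))

lemma Hx_symm (hF : ∀ a b, F a b → F b a) : ∀ a b, Hx F a b → Hx F b a := by
  rintro (a | a) (b | b) h
  · exact hF _ _ h
  · exact h
  · exact h
  · simp only [Hx] at h ⊢; omega

theorem main (hF : ∀ a b, F a b → F b a) (x : Gr × List (List ℕ)) :
    ListCol F x ↔ WCol (Hx F) (Set.range .inr) (fun _ => 1) (red p x) := by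
  obtain ⟨⟨n, E⟩, L⟩ := x
  have mem : ∀ a b, (a, b) ∈ (red p ((n, E), L)).2 ↔ (a = 2 * p + 5 ∧ b = 2 * p + 5) ∨
      (a < 2 * p + 5 ∧ b = a + 1) ∨ (∃ c d, (c, d) ∈ E ∧ 2 * p + 6 + c = a ∧ 2 * p + 6 + d = b) ∨
      ∃ u < n, ∃ i < p + 3, (p ≤ i ∨ i ∉ L.getD u []) ∧ 2 * p + 6 + u = a ∧ 2 * i + 1 = b := fun a b => by
    simp [red, and_assoc, @eq_comm _ b (a + 1)]
  have N : (red p ((n, E), L)).1 = 2 * p + 6 + n := rfl
  constructor
  · rintro ⟨χ, ⟨h1, h2⟩, h3⟩
    refine ⟨fun u => if h : u.1 < 2 * p + 6 then .inr ⟨u, h⟩ else .inl (χ ⟨u - (2 * p + 6), by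
      have := u.2; simp only at this ⊢; omega⟩), ⟨fun ⟨a, b⟩ hd => ?_, fun ⟨a, ha⟩ ⟨b, hb⟩ hd => ?_⟩, ?_⟩
    · rcases (mem a b).1 hd with h | h | ⟨c, d, h, _⟩ | ⟨u, _, i, _⟩ <;> try have := h1 _ h
      all_goals simp only at *; omega
    · rcases (mem a b).1 hd with h | h | ⟨c, d, h, rfl, rfl⟩ | ⟨u, h4, i, h5, h6, rfl, rfl⟩
      · simp [h, Hx]
      · simp [h, Hx, show a < 2 * p + 6 by omega]
      · simpa [Hx] using h2 ⟨c, (h1 _ h).1⟩ ⟨d, (h1 _ h).2⟩ h
      · have := h3 ⟨u, h4⟩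
        have h7 := (χ ⟨u, h4⟩).2
        simp only [show 2 * i + 1 < 2 * p + 6 by omega, show ¬ 2 * p + 6 + u < 2 * p + 6 by omega,
          dite_true, dite_false, Hx, add_tsub_cancel_left]
        refine ⟨by omega, fun e => h6.elim (by omega) fun h => h ?_⟩
        rwa [show i = χ ⟨u, h4⟩ by omega]
    · rintro _ ⟨t, rfl⟩
      refine Set.ncard_eq_one.2 ⟨⟨t, by omega⟩, Set.ext fun u => ?_⟩
      by_cases h : u.1 < 2 * p + 6 <;> simp [h, Fin.ext_iff]
      omega
  rintro ⟨χ, ⟨h1, h2⟩, h3⟩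
  let ψ : ℕ → _ := fun u => if h : u < 2 * p + 6 + n then χ ⟨u, h⟩ else .inr 0
  have hom : ∀ a b, (a, b) ∈ (red p ((n, E), L)).2 → Hx F (ψ a) (ψ b) := fun a b h => by
    have := h1 _ h
    simp only [ψ, dif_pos (N ▸ this.1), dif_pos (N ▸ this.2)]
    exact h2 _ _ h
  have one : ∀ t, ∃ x < 2 * p + 6 + n, ψ x = .inr t ∧ ∀ y < 2 * p + 6 + n, ψ y = .inr t → y = x := fun t => by
    obtain ⟨x, hx⟩ := Set.ncard_eq_one.1 (h3 _ ⟨t, rfl⟩)
    refine ⟨x, x.2, ?_, fun y hy e => ?_⟩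
    · simpa [ψ, show x.1 < 2 * p + 6 + n from x.2] using (Set.ext_iff.1 hx x).2 rfl
    · exact congrArg Fin.val ((Set.ext_iff.1 hx ⟨y, hy⟩).1 (by simpa [ψ, hy] using e))
  have uq : ∀ t x y, x < 2 * p + 6 + n → y < 2 * p + 6 + n → ψ x = .inr t → ψ y = .inr t → x = y :=
    fun t x y hx hy e e' => by
      obtain ⟨z, -, -, h⟩ := one t
      rw [h x hx e, h y hy e']
  have pth : ∀ a < 2 * p + 5, Hx F (ψ a) (ψ (a + 1)) := fun a h => hom _ _ ((mem _ _).2 (by omega))
  have gd : ∀ u < n, ∀ i < p + 3, p ≤ i ∨ i ∉ L.getD u [] → Hx F (ψ (2 * p + 6 + u)) (ψ (2 * i + 1)) :=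
    fun u hu i hi h => hom _ _ ((mem _ _).2 (.inr (.inr (.inr ⟨u, hu, i, hi, h, rfl, rfl⟩))))
  have fix : ∀ i ≤ p + 2, ∀ t : Fin (2 * p + 6), t.1 < 2 * i → ψ t = .inr t := fun i => by
    induction i with
    | zero => simp
    | succ i ih =>
      intro hi
      have ih := ih (by omega)
      obtain ⟨x, hx, e, -⟩ := one ⟨2 * i, by omega⟩
      have nb : ∀ y < 2 * p + 6 + n, y + 1 ≠ 2 * i → Hx F (ψ x) (ψ y) → ψ y = .inr ⟨2 * i + 1, by omega⟩ :=
        fun y hy h4 h5 => by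
          rw [e] at h5
          rcases h6 : ψ y with b | b <;> simp only [h6, Hx] at h5
          · omega
          · rcases h5 with h5 | h5 | h5
            · exact congrArg _ (Fin.ext h5.symm)
            · have := uq b y b hy (by omega) h6 (ih b (by omega)); omega
            · omega
      have two : ∀ y z, y < 2 * p + 6 + n → z < 2 * p + 6 + n → y + 1 ≠ 2 * i → z + 1 ≠ 2 * i →
          Hx F (ψ x) (ψ y) → Hx F (ψ x) (ψ z) → y = z := fun y z a b c d f g =>
        uq _ y z a b (nb y a c f) (nb z b d g)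
      obtain rfl : x = 2 * i := by
        by_contra c
        by_cases c1 : x < 2 * i
        · have := ih ⟨x, by omega⟩ c1
          rw [e] at this; simp at this; omega
        obtain ⟨y, rfl⟩ : ∃ y, x = y + 1 := ⟨x - 1, by omega⟩
        by_cases c2 : y + 1 < 2 * p + 5
        · have := two y (y + 1 + 1) (by omega) (by omega) (by omega) (by omega)
            (Hx_symm F hF _ _ (pth y (by omega))) (pth _ c2)
          omega
        by_cases c3 : y + 1 = 2 * p + 5
        · have := two y (y + 1) (by omega) (by omega) (by omega) (by omega)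
            (Hx_symm F hF _ _ (pth y (by omega))) (hom _ _ ((mem _ _).2 (by omega)))
          omega
        obtain ⟨u, hu⟩ : ∃ u, y + 1 = 2 * p + 6 + u := ⟨y + 1 - (2 * p + 6), by omega⟩
        have := two (2 * (p + 1) + 1) (2 * (p + 2) + 1) (by omega) (by omega) (by omega) (by omega)
          (hu ▸ gd u (by omega) _ (by omega) (by omega)) (hu ▸ gd u (by omega) _ (by omega) (by omega))
        omega
      intro t ht
      by_cases c : t.1 < 2 * i
      · exact ih t c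
      by_cases c' : t.1 = 2 * i
      · rw [c', e]; exact congrArg _ (Fin.ext c'.symm)
      · rw [show t = ⟨2 * i + 1, by omega⟩ from Fin.ext (by simp; omega)]
        exact nb (2 * i + 1) (by omega) (by omega) (pth _ (by omega))
  have val : ∀ u : Fin n, ∃ b, ψ (2 * p + 6 + u) = .inl b := fun u => by
    have := gd u u.2 p (by omega) (by omega)
    rw [fix _ le_rfl ⟨2 * p + 1, by omega⟩ (by simp; omega)] at this
    rcases h : ψ (2 * p + 6 + u) with b | b
    · exact ⟨b, rfl⟩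
    · simp only [h, Hx] at this
      have := uq b _ b (by omega) (by omega) h (fix _ le_rfl b (by omega))
      omega
  choose c hc using val
  refine ⟨c, ⟨fun ⟨a, b⟩ h => ?_, fun u v h => ?_⟩, fun u => by_contra fun h => ?_⟩
  · have := h1 (_, _) ((mem _ _).2 (.inr (.inr (.inl ⟨a, b, h, rfl, rfl⟩))))
    simp only at this ⊢; omega
  · have := hom _ _ ((mem _ _).2 (.inr (.inr (.inl ⟨u, v, h, rfl, rfl⟩))))
    rwa [hc, hc] at this
  · have := gd u u.2 (c u) (by omega) (.inr h)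
    rw [hc, fix _ le_rfl ⟨2 * c u + 1, by omega⟩ (by simp; omega)] at this
    simp [Hx] at this

theorem hard (hF : ∀ a b, F a b → F b a) (h : NPHard (ListCol F)) :
    NPHard (WCol (Hx F) (Set.range .inr) fun _ => 1) :=
  ((Sim.hard h).red (red p) (by unfold red; fun_prop) (main F hF)).npHard

end Pool.Agent.H21.HCK
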