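import Mathlib

set_option autoImplicit false

namespace Pool.Agent.H21.Hayashi

@[ext] structure W where
  v : Fin 5 → ZMod 105
  s : Equiv.Perm (Fin 5)

instance : Mul W := ⟨fun a b => ⟨fun i => a.v i + b.v (a.s⁻¹ i), a.s * b.s⟩⟩
instance : One W := ⟨⟨0, 1⟩⟩
instance : Inv W := ⟨fun a => ⟨fun i => - a.v (a.s i), a.s⁻¹⟩⟩

@[simp] lemma mul_v (a b : W) (i : Fin 5) : (a * b).v i = a.v i + b.v (a.s⁻¹ i) := rfl
@[simp] lemma mul_s (a b : W) : (a * b).s = a.s * b.s := rfl
@[simp] lemma one_v (i : Fin 5) : (1 : W).v i = 0 := rfl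
@[simp] lemma one_s : (1 : W).s = 1 := rfl
@[simp] lemma inv_v (a : W) (i : Fin 5) : (a⁻¹).v i = - a.v (a.s i) := rfl
@[simp] lemma inv_s (a : W) : (a⁻¹).s = a.s⁻¹ := rfl

instance : Group W := Group.ofLeftAxioms
  (fun a b c => by
    ext i
    · simp [add_assoc]
    · simp [mul_assoc])
  (fun a => by
    ext i
    · simp
    · simp)
  (fun a => by
    ext i
    · simp
    · simp)

instance : Finite W :=
  Finite.of_injective (fun a : W => (a.v, a.s)) (fun a b h => by
    simp only [Prod.mk.injEq] at h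
    exact W.ext h.1 h.2)

def b (w : Fin 5 → ZMod 105) : W := ⟨w, 1⟩
def p (s : Equiv.Perm (Fin 5)) : W := ⟨0, s⟩

@[simp] lemma b_v (w : Fin 5 → ZMod 105) : (b w).v = w := rfl
@[simp] lemma b_s (w : Fin 5 → ZMod 105) : (b w).s = 1 := rfl
@[simp] lemma p_v (s : Equiv.Perm (Fin 5)) : (p s).v = 0 := rfl
@[simp] lemma p_s (s : Equiv.Perm (Fin 5)) : (p s).s = s := rfl

def c : W := ⟨![0, 0, 35, 21, 15], Equiv.swap 0 1⟩

lemma b_add (w u : Fin 5 → ZMod 105) : b (w + u) = b w * b u := by
  ext i <;> simp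

lemma b_pow (w : Fin 5 → ZMod 105) (n : ℕ) : b w ^ n = b (n • w) := by
  induction n with
  | zero => ext i <;> simp
  | succ n ih => rw [pow_succ, ih, succ_nsmul, b_add]

lemma c_sq : c ^ 2 = b ![0, 0, 70, 42, 30] := by
  rw [pow_two]
  ext i
  · fin_cases i <;> simp [c] <;> decide
  · simp [c]

lemma c70 : c ^ 70 = b (Pi.single 2 35) := by
  rw [show 70 = 2 * 35 from rfl, pow_mul, c_sq, b_pow]
  congr 1
  decide

lemma c42 : c ^ 42 = b (Pi.single 3 42) := by
  rw [show 42 = 2 * 21 from rfl, pow_mul, c_sq, b_pow]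
  congr 1
  decide

lemma c30 : c ^ 30 = b (Pi.single 4 30) := by
  rw [show 30 = 2 * 15 from rfl, pow_mul, c_sq, b_pow]
  congr 1
  decide

lemma commute_b (i : Fin 5) (a : ZMod 105) (z : W) (h : z.s i = i) :
    Commute (b (Pi.single i a)) z := by
  show _ * _ = _ * _
  ext j
  · simp only [mul_v, b_v, b_s, inv_one, Equiv.Perm.coe_one, id]
    rw [add_comm]
    congr 1
    by_cases hj : j = i
    · subst hj
      have : z.s⁻¹ j = j := by
        rw [Equiv.Perm.inv_eq_iff_eq]; exact h.symm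
      rw [this]
    · have : z.s⁻¹ j ≠ i := by
        intro h2
        rw [Equiv.Perm.inv_eq_iff_eq] at h2
        exact hj (h2.trans h)
      rw [Pi.single_eq_of_ne hj, Pi.single_eq_of_ne this]
  · simp

lemma not_center (i : Fin 5) (hi : i ≠ 0) (a : ZMod 105) (ha : a ≠ 0) :
    b (Pi.single i a) ∉ Subgroup.center W := by
  intro h
  rw [Subgroup.mem_center_iff] at h
  have := congrArg (fun x : W => x.v i) (h (p (Equiv.swap 0 i)))
  simp [hi.symm] at this
  exact ha this.symm

lemma bad (z : W) (hz : IsConj c z) :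
    ∃ k : ℕ, Commute (c ^ k) z ∧ c ^ k ∉ Subgroup.center W := by
  obtain ⟨g, rfl⟩ := isConj_iff.1 hz
  have hs : (g * c * g⁻¹).s = Equiv.swap (g.s 0) (g.s 1) := by
    simp only [mul_s, inv_s, c]
    exact (Equiv.swap_apply_apply g.s 0 1).symm
  have key : ∀ x y : Fin 5, Equiv.swap x y 2 = 2 ∨ Equiv.swap x y 3 = 3 ∨ Equiv.swap x y 4 = 4 := by
    decide
  rcases key (g.s 0) (g.s 1) with h | h | h
  · exact ⟨70, by rw [c70]; exact commute_b _ _ _ (by rw [hs]; exact h),
      by rw [c70]; exact not_center _ (by decide) _ (by decide)⟩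
  · exact ⟨42, by rw [c42]; exact commute_b _ _ _ (by rw [hs]; exact h),
      by rw [c42]; exact not_center _ (by decide) _ (by decide)⟩
  · exact ⟨30, by rw [c30]; exact commute_b _ _ _ (by rw [hs]; exact h),
      by rw [c30]; exact not_center _ (by decide) _ (by decide)⟩

lemma conj_single (s : Equiv.Perm (Fin 5)) (i : Fin 5) (a : ZMod 105) :
    p s * b (Pi.single i a) * (p s)⁻¹ = b (Pi.single (s i) a) := by
  ext j
  · simp only [mul_v, p_v, p_s, b_v, b_s, inv_v, Pi.zero_apply, zero_add, neg_zero, add_zero]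
    by_cases hj : j = s i
    · subst hj; simp
    · have : s⁻¹ j ≠ i := by
        intro h2
        rw [Equiv.Perm.inv_eq_iff_eq] at h2
        exact hj h2
      rw [Pi.single_eq_of_ne hj, Pi.single_eq_of_ne this]
  · simp

lemma gen : Subgroup.closure {z : W | IsConj c z} = ⊤ := by
  set H := Subgroup.closure {z : W | IsConj c z} with hH
  have hn : ∀ g x : W, x ∈ H → g * x * g⁻¹ ∈ H := by
    intro g x hx
    induction hx using Subgroup.closure_induction with
    | mem x hx => exact Subgroup.subset_closure (IsConj.trans hx (isConj_iff.2 ⟨g, rfl⟩))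
    | one => simp
    | mul x y _ _ hx hy =>
      have : g * (x * y) * g⁻¹ = (g * x * g⁻¹) * (g * y * g⁻¹) := by group
      rw [this]; exact H.mul_mem hx hy
    | inv x _ hx =>
      have : g * x⁻¹ * g⁻¹ = (g * x * g⁻¹)⁻¹ := by group
      rw [this]; exact H.inv_mem hx
  have hc : c ∈ H := Subgroup.subset_closure (IsConj.refl c)
  have h1 : ∀ (i j : Fin 5) (a : ZMod 105), b (Pi.single i a) ∈ H → b (Pi.single j a) ∈ H := by
    intro i j a h
    have := hn (p (Equiv.swap i j)) _ h
    rwa [conj_single, Equiv.swap_apply_left] at this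
  have h35 : ∀ j, b (Pi.single j 35) ∈ H := fun j => h1 2 j _ (c70 ▸ H.pow_mem hc 70)
  have h42 : ∀ j, b (Pi.single j 42) ∈ H := fun j => h1 3 j _ (c42 ▸ H.pow_mem hc 42)
  have h30 : ∀ j, b (Pi.single j 30) ∈ H := fun j => h1 4 j _ (c30 ▸ H.pow_mem hc 30)
  have he : ∀ j, b (Pi.single j 1) ∈ H := by
    intro j
    have : b (Pi.single j 1) = b (Pi.single j 42) ^ 13 * b (Pi.single j 35) ^ 2
        * b (Pi.single j 30) ^ 4 := by
      rw [b_pow, b_pow, b_pow, ← b_add, ← b_add]
      congr 1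
      ext i
      by_cases hi : i = j
      · subst hi; simp; decide +revert
      · simp [hi]
    rw [this]
    exact H.mul_mem (H.mul_mem (H.pow_mem (h42 j) _) (H.pow_mem (h35 j) _)) (H.pow_mem (h30 j) _)
  have hs : ∀ j (a : ZMod 105), b (Pi.single j a) ∈ H := by
    intro j a
    have : b (Pi.single j a) = b (Pi.single j 1) ^ a.val := by
      rw [b_pow]
      congr 1
      ext i
      by_cases hi : i = j
      · subst hi; simp
      · simp [hi]
    rw [this]; exact H.pow_mem (he j) _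
  have hb : ∀ w, b w ∈ H := by
    intro w
    have : w = Pi.single 0 (w 0) + Pi.single 1 (w 1) + Pi.single 2 (w 2) + Pi.single 3 (w 3)
        + Pi.single 4 (w 4) := by
      ext i; fin_cases i <;> simp
    rw [this, b_add, b_add, b_add, b_add]
    exact H.mul_mem (H.mul_mem (H.mul_mem (H.mul_mem (hs _ _) (hs _ _)) (hs _ _)) (hs _ _)) (hs _ _)
  have hp01 : p (Equiv.swap 0 1) ∈ H := by
    have : p (Equiv.swap 0 1) = b (- c.v) * c := by
      ext i
      · simp
      · simp [c]
    rw [this]; exact H.mul_mem (hb _) hc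
  have pmul : ∀ s t, p (s * t) = p s * p t := by
    intro s t; ext i <;> simp
  have hsw : ∀ x y : Fin 5, x ≠ y → p (Equiv.swap x y) ∈ H := by
    intro x y hxy
    have hcj : IsConj (Equiv.swap (0 : Fin 5) 1) (Equiv.swap x y) :=
      Equiv.Perm.isConj_swap (by decide) hxy
    obtain ⟨g, hg⟩ := isConj_iff.1 hcj
    have := hn (p g) _ hp01
    have e : p g * p (Equiv.swap 0 1) * (p g)⁻¹ = p (Equiv.swap x y) := by
      rw [← hg]; ext i <;> simp
    rwa [e] at this
  have hp : ∀ s, p s ∈ H := by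
    intro s
    induction s using Equiv.Perm.swap_induction_on with
    | one => exact H.one_mem
    | swap_mul f x y hxy ih => rw [pmul]; exact H.mul_mem (hsw x y hxy) ih
  rw [eq_top_iff]
  intro g _
  have : g = b g.v * p g.s := by ext i <;> simp
  rw [this]; exact H.mul_mem (hb _) (hp _)

def X : Type := {z : W // IsConj c z}

instance : Finite X := by unfold X; infer_instance

def cj (g : W) (x : X) : X := ⟨g * x.1 * g⁻¹, x.2.trans (isConj_iff.2 ⟨g, rfl⟩)⟩

instance : Quandle X where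
  act a x := cj a.1 x
  self_distrib := by
    intro x y z
    apply Subtype.ext
    simp only [cj]
    group
  invAct a x := cj a.1⁻¹ x
  left_inv a x := by
    apply Subtype.ext
    simp only [cj]
    group
  right_inv a x := by
    apply Subtype.ext
    simp only [cj]
    group
  fix := by
    intro x
    apply Subtype.ext
    simp only [cj]
    group

lemma act_def (a x : X) : Shelf.act a x = cj a.1 x := rfl

lemma iter (a x : X) (k : ℕ) : ((Shelf.act a)^[k] x).1 = a.1 ^ k * x.1 * (a.1 ^ k)⁻¹ := by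
  induction k with
  | zero => simp
  | succ k ih =>
    rw [Function.iterate_succ_apply', act_def]
    simp only [cj]
    rw [ih, pow_succ']
    group

def c0 : X := ⟨c, IsConj.refl c⟩

lemma no_regular : ¬ ∃ z : X, ∀ y : X,
    Function.minimalPeriod (Shelf.act c0) y ∣ Function.minimalPeriod (Shelf.act c0) z := by
  rintro ⟨z, hz⟩
  obtain ⟨k, hk, hk'⟩ := bad z.1 z.2
  have h1 : Function.IsPeriodicPt (Shelf.act c0) k z := by
    apply Subtype.ext
    rw [iter]
    show c ^ k * z.1 * (c ^ k)⁻¹ = z.1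
    rw [hk.eq]; group
  apply hk'
  rw [Subgroup.mem_center_iff]
  intro g
  have hg : g ∈ Subgroup.closure {z : W | IsConj c z} := gen ▸ Subgroup.mem_top g
  induction hg using Subgroup.closure_induction with
  | mem x hx =>
    have h2 : Function.IsPeriodicPt (Shelf.act c0) k (⟨x, hx⟩ : X) :=
      Function.isPeriodicPt_iff_minimalPeriod_dvd.2 ((hz _).trans h1.minimalPeriod_dvd)
    have h3 := congrArg Subtype.val h2
    rw [iter] at h3
    have h4 : c ^ k * x * (c ^ k)⁻¹ = x := h3
    calc x * c ^ k = (c ^ k * x * (c ^ k)⁻¹) * c ^ k := by rw [h4]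
      _ = c ^ k * x := by group
  | one => simp
  | mul x y _ _ hx hy => rw [mul_assoc, hy, ← mul_assoc, hx, mul_assoc]
  | inv x _ hx =>
    calc x⁻¹ * c ^ k = x⁻¹ * (c ^ k * x) * x⁻¹ := by group
      _ = x⁻¹ * (x * c ^ k) * x⁻¹ := by rw [hx]
      _ = c ^ k * x⁻¹ := by group

lemma exists_cj (a x : X) : ∃ g : W, cj g a = x := by
  obtain ⟨g, hg⟩ := isConj_iff.1 (a.2.symm.trans x.2)
  exact ⟨g, Subtype.ext hg⟩

lemma cj_mul (g h : W) (x : X) : cj (g * h) x = cj g (cj h x) := by
  apply Subtype.ext; simp only [cj]; group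

lemma cj_one (x : X) : cj 1 x = x := by
  apply Subtype.ext; simp only [cj]; group

lemma conn1 (a x : X) :
    ∃ g ∈ Subgroup.closure (Set.range (Rack.act' : X → Equiv.Perm X)), g a = x := by
  obtain ⟨g, rfl⟩ := exists_cj a x
  have hg : g ∈ Subgroup.closure {z : W | IsConj c z} := gen ▸ Subgroup.mem_top g
  suffices h : ∃ f ∈ Subgroup.closure (Set.range (Rack.act' : X → Equiv.Perm X)),
      ∀ y, f y = cj g y by
    obtain ⟨f, hf, h⟩ := h
    exact ⟨f, hf, h a⟩
  induction hg using Subgroup.closure_induction with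
  | mem x hx => exact ⟨Rack.act' (⟨x, hx⟩ : X), Subgroup.subset_closure ⟨_, rfl⟩, fun y => rfl⟩
  | one => exact ⟨1, Subgroup.one_mem _, fun y => (cj_one y).symm⟩
  | mul x y _ _ hx hy =>
    obtain ⟨f, hf, h⟩ := hx
    obtain ⟨f', hf', h'⟩ := hy
    exact ⟨f * f', Subgroup.mul_mem _ hf hf', fun y => by
      rw [cj_mul, Equiv.Perm.mul_apply, h, h']⟩
  | inv x _ hx =>
    obtain ⟨f, hf, h⟩ := hx
    refine ⟨f⁻¹, Subgroup.inv_mem _ hf, fun y => ?_⟩
    rw [Equiv.Perm.inv_eq_iff_eq, h, ← cj_mul, mul_inv_cancel, cj_one]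

lemma conn2 (y z : X) :
    Relation.EqvGen (fun a b : X => ∃ x : X, Shelf.act x a = b) y z := by
  obtain ⟨g, rfl⟩ := exists_cj y z
  have hg : g ∈ Subgroup.closure {z : W | IsConj c z} := gen ▸ Subgroup.mem_top g
  induction hg using Subgroup.closure_induction generalizing y with
  | mem x hx => exact Relation.EqvGen.rel _ _ ⟨⟨x, hx⟩, rfl⟩
  | one => rw [cj_one]; exact Relation.EqvGen.refl _
  | mul x w _ _ hx hw =>
    rw [cj_mul]
    exact Relation.EqvGen.trans _ _ _ (hw y) (hx _)
  | inv x _ hx =>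
    have := hx (cj x⁻¹ y)
    rw [← cj_mul, mul_inv_cancel, cj_one] at this
    exact Relation.EqvGen.symm _ _ this

end Pool.Agent.H21.Hayashi
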