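import Mathlib

namespace Pool.Agent.H21.Hd

open Filter Topology Polynomial

def H : Set (ℝ → ℝ) :=
  {f | ∃ P Q : ℝ[X], Q ≠ 0 ∧ ∀ᶠ t in atTop, f t = P.eval √t / Q.eval √t}

lemma ev_ne {Q : ℝ[X]} (h : Q ≠ 0) : ∀ᶠ t in atTop, Q.eval √t ≠ 0 :=
  Real.tendsto_sqrt_atTop.eventually (Q.eventually_no_roots h)

lemma H_add {f g : ℝ → ℝ} (hf : f ∈ H) (hg : g ∈ H) : f + g ∈ H := by
  obtain ⟨P, Q, h1, h2⟩ := hf
  obtain ⟨P', Q', h3, h4⟩ := hg
  refine ⟨P * Q' + Q * P', Q * Q', mul_ne_zero h1 h3, ?_⟩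
  filter_upwards [h2, h4, ev_ne h1, ev_ne h3] with t a b c d
  simp [a, b, div_add_div _ _ c d]

lemma H_mul {f g : ℝ → ℝ} (hf : f ∈ H) (hg : g ∈ H) : f * g ∈ H := by
  obtain ⟨P, Q, h1, h2⟩ := hf
  obtain ⟨P', Q', h3, h4⟩ := hg
  refine ⟨P * P', Q * Q', mul_ne_zero h1 h3, ?_⟩
  filter_upwards [h2, h4] with t a b
  simp [a, b, div_mul_div_comm]

lemma H_neg {f : ℝ → ℝ} (hf : f ∈ H) : -f ∈ H := by
  obtain ⟨P, Q, h1, h2⟩ := hf
  refine ⟨-P, Q, h1, ?_⟩
  filter_upwards [h2] with t a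
  simp [a, neg_div]

lemma H_inv {f : ℝ → ℝ} (hf : f ∈ H) :
    (∀ᶠ t in atTop, f t = 0) ∨ ∃ g ∈ H, ∀ᶠ t in atTop, f t * g t = 1 := by
  obtain ⟨P, Q, h1, h2⟩ := hf
  by_cases h : P = 0
  · exact Or.inl (h2.mono fun t a => by simp [a, h])
  · refine Or.inr ⟨_, ⟨Q, P, h, Eventually.of_forall fun _ => rfl⟩, ?_⟩
    filter_upwards [h2, ev_ne h1, ev_ne h] with t a b c
    rw [a]; field_simp

lemma H_deriv {f : ℝ → ℝ} (hf : f ∈ H) :
    (∀ᶠ t in atTop, DifferentiableAt ℝ f t) ∧ deriv f ∈ H := by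
  obtain ⟨P, Q, h1, h2⟩ := hf
  obtain ⟨a, ha⟩ := eventually_atTop.1 h2
  have key : ∀ᶠ t in atTop, HasDerivAt f ((derivative P * Q - P * derivative Q).eval √t /
      (2 * X * Q ^ 2).eval √t) t := by
    filter_upwards [eventually_gt_atTop a, eventually_gt_atTop 0, ev_ne h1] with t h3 h4 h5
    have h6 := Real.hasDerivAt_sqrt h4.ne'
    have h7 := ((P.hasDerivAt _).comp t h6).div ((Q.hasDerivAt _).comp t h6) h5
    have h8 : √t ≠ 0 := (Real.sqrt_pos.2 h4).ne'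
    refine (h7.congr_of_eventuallyEq ((eventually_gt_nhds h3).mono fun x hx =>
      ha x hx.le)).congr_deriv ?_
    simp only [Function.comp, eval_sub, eval_mul, eval_pow, eval_X, eval_ofNat]
    field_simp
  exact ⟨key.mono fun t h => h.differentiableAt, _, _,
    mul_ne_zero (mul_ne_zero two_ne_zero X_ne_zero) (pow_ne_zero 2 h1), key.mono fun t h => h.deriv⟩

lemma rp {t : ℝ} (ht : 0 < t) : t ^ (3 / 2 : ℝ) = √t ^ 3 := by
  rw [Real.sqrt_eq_rpow, ← Real.rpow_natCast, ← Real.rpow_mul ht.le]; norm_num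

lemma H_f (a b : ℝ) : (fun t : ℝ => a * t ^ (3 / 2 : ℝ) + b * t) ∈ H := by
  refine ⟨C a * X ^ 3 + C b * X ^ 2, 1, one_ne_zero, ?_⟩
  filter_upwards [eventually_gt_atTop 0] with t ht
  simp [rp ht, Real.sq_sqrt ht.le]

noncomputable def p (r : ℝ) (m : ℕ) : ℝ := ∏ i ∈ Finset.range m, (r - i)

lemma iter (a b r s : ℝ) (m : ℕ) : ∀ t : ℝ, 0 < t →
    deriv^[m] (fun t : ℝ => a * t ^ r + b * t ^ s) t =
      a * (p r m * t ^ (r - m)) + b * (p s m * t ^ (s - m)) := by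
  induction m with
  | zero => intro t _; simp [p]
  | succ m ih =>
    intro t ht
    rw [Function.iterate_succ_apply', EventuallyEq.deriv_eq ((eventually_gt_nhds ht).mono ih)]
    have h := fun r : ℝ => (Real.hasDerivAt_rpow_const (p := r - m) (Or.inl ht.ne')).const_mul (p r m)
    refine (((h r).const_mul a).add ((h s).const_mul b)).deriv.trans ?_
    simp only [p, Finset.prod_range_succ, Nat.cast_succ, sub_sub]
    ring

lemma iter' (a b : ℝ) (m : ℕ) : ∃ u : ℝ → ℝ, Tendsto u atTop (𝓝 0) ∧ ∀ t : ℝ, 0 < t →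
    deriv^[m] (fun t : ℝ => a * t ^ (3 / 2 : ℝ) + b * t) t =
      (if m = 0 then a else 0) * √t ^ 3 + (if m = 0 then b else 0) * √t ^ 2 +
        3 / 2 * (if m = 1 then a else 0) * √t + (if m = 1 then b else 0) + u t := by
  have h := iter a b (3 / 2) 1 m
  simp only [Real.rpow_one] at h
  rcases m with _ | _ | m
  · exact ⟨0, tendsto_const_nhds, fun t ht => by simp [rp ht, Real.sq_sqrt ht.le]⟩
  · refine ⟨0, tendsto_const_nhds, fun t ht => ?_⟩
    rw [h t ht, Real.sqrt_eq_rpow]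
    norm_num [p]
    ring
  · refine ⟨fun t => a * (p (3 / 2) (m + 2) * t ^ (-((m + 2 : ℕ) - 3 / 2 : ℝ))), ?_, fun t ht => ?_⟩
    · have := ((tendsto_rpow_neg_atTop (y := ((m + 2 : ℕ) - 3 / 2 : ℝ)) (by
        push_cast; linarith [Nat.cast_nonneg (α := ℝ) m])).const_mul
          (p (3 / 2) (m + 2))).const_mul a
      simpa using this
    · have : p 1 (m + 1 + 1) = 0 := Finset.prod_eq_zero (i := 1) (by simp) (by simp)
      rw [h t ht, this]
      simp [add_assoc, one_add_one_eq_two]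

lemma lim (A B C' D : ℝ) (f u : ℝ → ℝ) (hu : Tendsto u atTop (𝓝 0)) (h0 : C' = 0 → D = 0)
    (hf : ∀ t, 0 < t → f t = A * √t ^ 3 + B * √t ^ 2 + C' * √t + D + u t) :
    Tendsto (fun t => |f t|) atTop (𝓝 0) ∨ Tendsto (fun t => |f t|) atTop atTop := by
  let P : ℝ[X] := C A * X ^ 3 + C B * X ^ 2 + C C' * X + C D
  by_cases hd : 0 < P.degree
  · right
    have h1 := (Real.tendsto_sqrt_atTop |> (P.abs_tendsto_atTop hd).comp).atTop_add hu.abs.neg
    refine tendsto_atTop_mono' _ ?_ h1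
    filter_upwards [eventually_gt_atTop 0] with t ht
    have : f t = P.eval √t + u t := by simp [hf t ht, P]
    rw [this]
    have := abs_add_le (P.eval √t + u t) (-u t)
    simp only [add_neg_cancel_right, abs_neg, Function.comp] at this ⊢
    linarith
  · left
    have h := fun n : ℕ => fun hn : (0 : WithBot ℕ) < n =>
      coeff_eq_zero_of_degree_lt (lt_of_le_of_lt (not_lt.1 hd) hn)
    have h3 : A = 0 := by simpa [P, coeff_X, coeff_C] using h 3 (by norm_num)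
    have h2 : B = 0 := by simpa [P, coeff_X, coeff_C] using h 2 (by norm_num)
    have h1 : C' = 0 := by simpa [P, coeff_X, coeff_C] using h 1 (by norm_num)
    refine (by simpa using hu.abs : Tendsto (fun t => |u t|) atTop (𝓝 0)).congr' ?_
    filter_upwards [eventually_gt_atTop 0] with t ht
    simp [hf t ht, h3, h2, h1, h0 h1]

open Classical in
lemma cell {κ : Type} (T : Finset κ) (c : ℕ → κ) (hc : ∀ n, c n ∈ T) : ∃ y, 0 < limsup
    (fun N : ℕ => (((Finset.Icc 1 N).filter (· ∈ {n | 1 ≤ n ∧ c n = y})).card : ℝ) / N) atTop := by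
  have hT : T.Nonempty := ⟨_, hc 0⟩
  have hk : (0 : ℝ) < T.card := by exact_mod_cast hT.card_pos
  obtain ⟨y, -, hy⟩ : ∃ y ∈ T, ∃ᶠ N : ℕ in atTop, 1 / (T.card : ℝ) ≤
      (((Finset.Icc 1 N).filter (· ∈ {n | 1 ≤ n ∧ c n = y})).card : ℝ) / N := by
    by_contra! h
    obtain ⟨N, h1, h2⟩ := (((eventually_all_finset T).2 h).and (eventually_gt_atTop 0)).exists
    obtain ⟨y, hy, h3⟩ := Finset.exists_le_card_fiber_of_nsmul_le_card_of_maps_to
      (s := Finset.Icc 1 N) (b := (N : ℝ) / T.card) (fun n _ => hc n) hT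
      (by rw [nsmul_eq_mul, mul_div_cancel₀ _ hk.ne']; simp)
    refine (h1 y hy).not_ge ?_
    rw [le_div_iff₀ (by exact_mod_cast h2), one_div_mul_eq_div]
    refine h3.trans (le_of_eq ?_)
    congr 2
    exact Finset.filter_congr fun n hn => by simp [(Finset.mem_Icc.1 hn).1]
  refine ⟨y, lt_of_lt_of_le (by positivity) (le_limsup_of_frequently_le hy
    (isBoundedUnder_of ⟨1, fun N => div_le_one_of_le₀ ?_ (Nat.cast_nonneg N)⟩))⟩
  exact_mod_cast (Finset.card_filter_le _ _).trans (by simp)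

end Pool.Agent.H21.Hd
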