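import Mathlib

set_option autoImplicit false

namespace Pool.Agent.H21.Hopf

open Equiv Equiv.Perm

abbrev S := Equiv.Perm (Fin 3)

def GG : Subgroup (ℕ → S) where
  carrier := {x | (Function.mulSupport x).Finite}
  mul_mem' := by
    intro a b ha hb
    exact (ha.union hb).subset (Function.mulSupport_mul a b)
  one_mem' := by simp
  inv_mem' := by
    intro a ha
    simpa using ha

lemma fin_sign (x : GG) : (Function.mulSupport fun i => sign (x.1 i)).Finite := by
  refine Set.Finite.subset x.2 ?_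
  intro i hi h
  apply hi
  simp [h]

noncomputable def sg : GG →* ℤˣ where
  toFun x := ∏ᶠ i, sign (x.1 i)
  map_one' := by simp
  map_mul' x y := by
    rw [← finprod_mul_distrib (fin_sign x) (fin_sign y)]
    simp

noncomputable def H : Subgroup GG := sg.ker

instance : H.FiniteIndex := by unfold H; infer_instance

def sing (i : ℕ) (x : S) : GG :=
  ⟨Pi.mulSingle i x, (Set.finite_singleton i).subset Pi.mulSupport_mulSingle_subset⟩

lemma sg_sing (i : ℕ) (x : S) : sg (sing i x) = sign x := by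
  show ∏ᶠ j, sign ((Pi.mulSingle i x : ℕ → S) j) = sign x
  rw [finprod_eq_single _ i]
  · simp
  · intro j hj
    simp [hj]

def rho : S := finRotate 3
def tau : S := swap 0 1

noncomputable def c (i : ℕ) : H := ⟨sing i rho, by
  show sg _ = 1
  rw [sg_sing]; decide⟩

noncomputable def t2 (i l : ℕ) : H := ⟨sing i tau * sing l tau, by
  show sg _ = 1
  rw [map_mul, sg_sing, sg_sing]; decide⟩

noncomputable def ev (j : ℕ) : H →* S where
  toFun x := x.1.1 j
  map_one' := rfl
  map_mul' _ _ := rfl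

lemma ext_ev {x y : H} (h : ∀ j, ev j x = ev j y) : x = y :=
  Subtype.ext (Subtype.ext (funext h))

lemma ev_c_self (i : ℕ) : ev i (c i) = rho := by
  show (Pi.mulSingle i rho : ℕ → S) i = rho
  simp

lemma ev_c_ne {i j : ℕ} (h : j ≠ i) : ev j (c i) = 1 := by
  show (Pi.mulSingle i rho : ℕ → S) j = 1
  simp [h]

lemma ev_t2 (i l j : ℕ) : ev j (t2 i l) =
    (Pi.mulSingle i tau : ℕ → S) j * (Pi.mulSingle l tau : ℕ → S) j := rfl

lemma sep {i i' : ℕ} (h : ∀ x : H, sign (ev i x) = sign (ev i' x)) : i = i' := by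
  by_contra hne
  have := h (t2 i (i + i' + 1))
  rw [ev_t2, ev_t2] at this
  have h1 : i ≠ i + i' + 1 := by omega
  have h2 : i' ≠ i + i' + 1 := by omega
  have h3 : i' ≠ i := fun e => hne e.symm
  simp only [Pi.mulSingle_eq_same, Pi.mulSingle_eq_of_ne h1, Pi.mulSingle_eq_of_ne h2,
    Pi.mulSingle_eq_of_ne h3] at this
  revert this; decide

lemma c_cube (i : ℕ) : c i ^ 3 = 1 := by
  apply ext_ev
  intro j
  rw [map_pow, map_one]
  by_cases h : j = i
  · subst h; rw [ev_c_self]; decide
  · rw [ev_c_ne h, one_pow]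

lemma conj_c (h : H) (i : ℕ) :
    (sign (ev i h) = 1 ∧ h * c i * h⁻¹ = c i) ∨ (sign (ev i h) = -1 ∧ h * c i * h⁻¹ = (c i)⁻¹) := by
  have key : ∀ y : S, (sign y = 1 ∧ y * rho * y⁻¹ = rho) ∨ (sign y = -1 ∧ y * rho * y⁻¹ = rho⁻¹) := by
    decide
  rcases key (ev i h) with ⟨h1, h2⟩ | ⟨h1, h2⟩
  · refine Or.inl ⟨h1, ext_ev fun j => ?_⟩
    rw [map_mul, map_mul, map_inv]
    by_cases hj : j = i
    · subst hj; rw [ev_c_self, h2]
    · rw [ev_c_ne hj]; group
  · refine Or.inr ⟨h1, ext_ev fun j => ?_⟩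
    rw [map_mul, map_mul, map_inv, map_inv]
    by_cases hj : j = i
    · subst hj; rw [ev_c_self, h2]
    · rw [ev_c_ne hj]; group

lemma kill (φ : H →* S) (T : Finset ℕ) : ∀ a : H, (∀ i, i ∉ T → ev i a = 1) →
    (∀ i, ev i a = 1 ∨ ((ev i a) ^ 3 = 1 ∧ φ (c i) = 1)) → φ a = 1 := by
  induction T using Finset.induction_on with
  | empty =>
    intro a h _
    have : a = 1 := ext_ev fun j => by rw [h j (by simp), map_one]
    rw [this, map_one]
  | insert i T _ ih =>
    intro a h1 h2
    have key : ∀ y : S, y ^ 3 = 1 → ∃ k : Fin 3, rho ^ (k : ℕ) * y = 1 := by decide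
    rcases h2 i with h | ⟨h, h'⟩
    · refine ih a (fun j hj => ?_) h2
      by_cases hji : j = i
      · rw [hji, h]
      · exact h1 j (by simp [hj, hji])
    · obtain ⟨k, hk⟩ := key _ h
      have := ih (c i ^ (k : ℕ) * a) (fun j hj => ?_) (fun j => ?_)
      · rwa [map_mul, map_pow, h', one_pow, one_mul] at this
      · rw [map_mul, map_pow]
        by_cases hji : j = i
        · subst hji; rw [ev_c_self, hk]
        · rw [ev_c_ne hji, one_pow, one_mul]; exact h1 j (by simp [hj, hji])
      · rw [map_mul, map_pow]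
        by_cases hji : j = i
        · subst hji; rw [ev_c_self, hk]; exact Or.inl rfl
        · rw [ev_c_ne hji, one_pow, one_mul]; exact h2 j

lemma kill' (φ : H →* S) (a : H)
    (h : ∀ i, ev i a = 1 ∨ ((ev i a) ^ 3 = 1 ∧ φ (c i) = 1)) : φ a = 1 := by
  refine kill φ (Set.Finite.toFinset a.1.2) a (fun i hi => ?_) h
  by_contra hne
  exact hi (by rw [Set.Finite.mem_toFinset]; exact hne)

theorem hopf (f : H →* H) (hf : Function.Surjective f) : Function.Injective f := by
  have key : ∀ i j, ev j (f (c i)) ≠ 1 → ∀ h, sign (ev j (f h)) = sign (ev i h) := by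
    intro i j hne h
    have k1 : ∀ r y : S, r ^ 3 = 1 → r ≠ 1 →
        (y * r * y⁻¹ = r → sign y = 1) ∧ (y * r * y⁻¹ = r⁻¹ → sign y = -1) := by decide
    have h3 : (ev j (f (c i))) ^ 3 = 1 := by rw [← map_pow, ← map_pow, c_cube, map_one, map_one]
    obtain ⟨k2, k3⟩ := k1 _ (ev j (f h)) h3 hne
    rcases conj_c h i with ⟨h1, h2⟩ | ⟨h1, h2⟩
    · rw [h1]
      apply k2
      rw [← map_inv, ← map_inv, ← map_mul, ← map_mul, ← map_mul, ← map_mul, h2]
    · rw [h1]
      apply k3
      rw [← map_inv, ← map_inv, ← map_mul, ← map_mul, ← map_mul, ← map_mul, h2, map_inv, map_inv]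
  have ex : ∀ j, ∃ i, ev j (f (c i)) ≠ 1 := by
    intro j
    by_contra hcon
    push Not at hcon
    obtain ⟨h, hh⟩ := hf (c j)
    have k1 : ∀ y : S, (y ^ 4) ^ 3 = 1 := by decide +kernel
    have := kill' ((ev j).comp f) (h ^ 4) (fun i => Or.inr ⟨by rw [map_pow]; exact k1 _, hcon i⟩)
    rw [MonoidHom.comp_apply, map_pow, map_pow, hh, ev_c_self] at this
    revert this; decide
  choose I hI using ex
  have R : ∀ j h, sign (ev j (f h)) = sign (ev (I j) h) := fun j => key _ _ (hI j)
  have Iinj : Function.Injective I := by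
    intro j j' e
    apply sep
    intro x
    obtain ⟨h, rfl⟩ := hf x
    rw [R, R, e]
  have Isurj : Function.Surjective I := by
    intro b
    by_contra hb
    push Not at hb
    have hy : sg (f (t2 (I 0) b)).1 = 1 := (f (t2 (I 0) b)).2
    have e : sg (f (t2 (I 0) b)).1 = ∏ᶠ j, sign (ev j (f (t2 (I 0) b))) := rfl
    rw [e, finprod_eq_single _ 0] at hy
    · rw [R, ev_t2, Pi.mulSingle_eq_same, Pi.mulSingle_eq_of_ne (hb 0)] at hy
      revert hy; decide
    · intro j hj
      rw [R, ev_t2, Pi.mulSingle_eq_of_ne (hb j), Pi.mulSingle_eq_of_ne (Iinj.ne hj)]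
      simp
  rw [injective_iff_map_eq_one]
  intro h hh
  have hs : ∀ i, sign (ev i h) = 1 := by
    intro i
    obtain ⟨j, rfl⟩ := Isurj i
    rw [← R, hh]; simp
  apply ext_ev
  intro i
  obtain ⟨j, rfl⟩ := Isurj i
  rw [map_one]
  have k1 : ∀ y : S, sign y = 1 → y ^ 3 = 1 := by decide
  have k2 : ∀ y : S, y ^ 3 = 1 → y = 1 ∨ rho * y = 1 ∨ rho⁻¹ * y = 1 := by decide
  have other : ∀ i, i ≠ I j → ((ev j).comp f) (c i) = 1 := by
    intro i hi
    by_contra hne
    apply hi
    apply sep
    intro x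
    rw [← key i j hne x, R]
  rcases k2 _ (k1 _ (hs (I j))) with h1 | h1 | h1
  · exact h1
  · exfalso
    have := kill' ((ev j).comp f) (c (I j) * h) (fun i => ?_)
    · rw [MonoidHom.comp_apply, map_mul, hh, mul_one] at this
      exact hI j this
    · by_cases hi : i = I j
      · subst hi; rw [map_mul, ev_c_self]; exact Or.inl h1
      · rw [map_mul, ev_c_ne hi, one_mul]; exact Or.inr ⟨k1 _ (hs i), other i hi⟩
  · exfalso
    have := kill' ((ev j).comp f) ((c (I j))⁻¹ * h) (fun i => ?_)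
    · rw [MonoidHom.comp_apply, map_mul, hh, mul_one, map_inv, map_inv, inv_eq_one] at this
      exact hI j this
    · by_cases hi : i = I j
      · subst hi; rw [map_mul, map_inv, ev_c_self]; exact Or.inl h1
      · rw [map_mul, map_inv, ev_c_ne hi, inv_one, one_mul]; exact Or.inr ⟨k1 _ (hs i), other i hi⟩

def shift : GG →* GG where
  toFun x := ⟨fun i => x.1 (i + 1), by
    have : (Function.mulSupport fun i => x.1 (i + 1)) = Nat.succ ⁻¹' (Function.mulSupport x.1) := rfl
    show (Function.mulSupport fun i => x.1 (i + 1)).Finite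
    rw [this]
    exact Set.Finite.preimage Nat.succ_injective.injOn x.2⟩
  map_one' := rfl
  map_mul' _ _ := rfl

lemma shift_surj : Function.Surjective shift := by
  intro x
  refine ⟨⟨fun i => Nat.casesOn i 1 x.1, ?_⟩, rfl⟩
  refine (Set.Finite.image Nat.succ x.2).subset ?_
  intro i hi
  cases i with
  | zero => exact absurd rfl hi
  | succ i => exact ⟨i, hi, rfl⟩

lemma shift_not_inj : ¬ Function.Injective shift := by
  intro h
  have h1 : shift (sing 0 rho) = shift 1 := by
    apply Subtype.ext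
    funext i
    show (Pi.mulSingle 0 rho : ℕ → S) (i + 1) = 1
    simp
  have h2 := congrFun (congrArg Subtype.val (h h1)) 0
  have h3 : rho = 1 := by simpa [sing] using h2
  revert h3; decide

end Pool.Agent.H21.Hopf
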