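import Mathlib

namespace Pool.Agent.H21.IG

open Cardinal Polynomial Matrix

abbrev G := Matrix.SpecialLinearGroup (Fin 2) ℝ

lemma avoid {ι : Type} (hι : #ι < 𝔠) (S : ι → Set ℝ) (h : ∀ i, (S i).Finite) :
    ∃ t, ∀ i, t ∉ S i := by
  by_contra hc
  push Not at hc
  have h1 : (Set.univ : Set ℝ) = ⋃ i, S i := (Set.eq_univ_of_forall fun t => Set.mem_iUnion.2 (hc t)).symm
  have h2 := mk_iUnion_le S
  rw [← h1, mk_univ, mk_real] at h2
  exact absurd h2 (not_le.2 (mul_lt_of_lt aleph0_le_continuum hι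
    ((ciSup_le' fun i => (h i).lt_aleph0.le).trans_lt aleph0_lt_continuum)))

lemma card_closure {Γ : Type} [Group Γ] (s : Set Γ) (hs : s.Nonempty) (h : #s < 𝔠) :
    #(Subgroup.closure s) < 𝔠 := by
  have := hs.to_subtype
  rw [FreeGroup.closure_eq_range]
  refine (mk_range_le (f := FreeGroup.lift (Subtype.val : s → Γ))).trans_lt ?_
  rw [mk_freeGroup]
  exact max_lt h aleph0_lt_continuum

def u (t : ℝ) : G := ⟨!![1, t; 0, 1], by simp [det_fin_two]⟩

lemma u_inv (t : ℝ) : (u t)⁻¹ = u (-t) := by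
  rw [SpecialLinearGroup.SL2_inv_expl]
  ext i j
  fin_cases i <;> fin_cases j <;> simp [u]

lemma mv (a b : G) (y : Fin 2 → ℝ) : (a * b).1 *ᵥ y = a.1 *ᵥ (b.1 *ᵥ y) := by
  rw [mulVec_mulVec]; rfl

def InP (f : ℝ → Fin 2 → ℝ) : Prop := ∃ p q : ℝ[X],
  (∀ t, f t 0 = p.eval t ∧ f t 1 = q.eval t) ∧ q.degree < p.degree ∧ 0 < p.degree

def InQ (f : ℝ → Fin 2 → ℝ) : Prop := ∃ p q : ℝ[X],
  (∀ t, f t 0 = p.eval t ∧ f t 1 = q.eval t) ∧ q ≠ 0 ∧ p.degree ≤ q.degree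

lemma deg_C_mul_le (c : ℝ) (p : ℝ[X]) : (C c * p).degree ≤ p.degree := by
  rw [← smul_eq_C_mul]; exact degree_smul_le c p

lemma InP.mul {f : ℝ → Fin 2 → ℝ} (hf : InP f) (h : G) (h0 : h 1 0 ≠ 0) :
    InQ fun t => h.1 *ᵥ f t := by
  obtain ⟨p, q, e, h1, h2⟩ := hf
  have h3 : (C (h 1 0) * p + C (h 1 1) * q).degree = p.degree := by
    rw [degree_add_eq_left_of_degree_lt, degree_C_mul h0]
    rw [degree_C_mul h0]
    exact (deg_C_mul_le _ _).trans_lt h1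
  refine ⟨C (h 0 0) * p + C (h 0 1) * q, C (h 1 0) * p + C (h 1 1) * q, fun t => ?_, ?_, ?_⟩
  · simp [mulVec, dotProduct, e]
  · intro h4
    rw [h4, degree_zero] at h3
    simp [← h3] at h2
  · rw [h3]
    exact (degree_add_le _ _).trans (max_le (deg_C_mul_le _ _) ((deg_C_mul_le _ _).trans h1.le))

lemma InQ.mul {f : ℝ → Fin 2 → ℝ} (hf : InQ f) (ε : ℝ) (h0 : ε ≠ 0) :
    InP fun t => (u (ε * t)).1 *ᵥ f t := by
  obtain ⟨p, q, e, h1, h2⟩ := hf
  have h3 : q.degree < (C ε * (q * X)).degree := by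
    rw [degree_C_mul h0]; exact degree_lt_degree_mul_X h1
  have h4 : (p + C ε * (q * X)).degree = (C ε * (q * X)).degree :=
    degree_add_eq_right_of_degree_lt (h2.trans_lt h3)
  refine ⟨p + C ε * (q * X), q, fun t => ?_, h4 ▸ h3, h4 ▸ (zero_le_degree_iff.2 h1).trans_lt h3⟩
  simp [mulVec, dotProduct, e, u]
  ring

def K (h : G) : ℝ → G := fun _ => h

def Y (k : G) : ℝ → G := fun t => u t * k * (u t)⁻¹

lemma K_mul (a b : G) : K (a * b) = K a * K b := rfl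

lemma Y_mul (a b : G) : Y (a * b) = Y a * Y b := by
  funext t; simp [Y, mul_assoc]

lemma InQ.Y {f : ℝ → Fin 2 → ℝ} (hf : InQ f) (k : G) (h0 : k 1 0 ≠ 0) :
    InP fun t => (Y k t).1 *ᵥ f t := by
  have := ((hf.mul (-1) (by norm_num)).mul k h0).mul 1 one_ne_zero
  simpa only [IG.Y, u_inv, mv, one_mul, neg_mul] using this

section
variable (H D : Subgroup G)

inductive B : (ℝ → G) → Prop
  | base (k h : G) : k ∈ D → k 1 0 ≠ 0 → h ∈ H → B (Y k * K h)
  | step (k h : G) (M : ℝ → G) : k ∈ D → k 1 0 ≠ 0 → h ∈ H → h 1 0 ≠ 0 → B M → B (Y k * (K h * M))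

lemma B.inP {M : ℝ → G} (hM : B H D M) : ∃ y, InP fun t => (M t).1 *ᵥ y := by
  induction hM with
  | base k h _ h0 _ =>
    have : InQ fun _ => ![0, 1] := ⟨0, 1, fun t => by simp, one_ne_zero, by simp⟩
    refine ⟨(h⁻¹).1 *ᵥ ![0, 1], ?_⟩
    have e : ∀ t, ((Y k * K h) t).1 *ᵥ ((h⁻¹).1 *ᵥ ![0, 1]) = (Y k t).1 *ᵥ ![0, 1] := fun t => by
      rw [← mv, Pi.mul_apply, K, mul_inv_cancel_right]
    simpa only [e] using this.Y k h0
  | step k h M _ h0 _ h1 _ ih =>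
    obtain ⟨y, hy⟩ := ih
    exact ⟨y, by simpa only [Pi.mul_apply, mv, K] using (hy.mul h h1).Y k h0⟩

def S (j : ℝ → G) : Prop := ∃ h ∈ H, j = K h ∨ ∃ M, B H D M ∧ j = K h * M

variable {H D} (hn : -1 ∈ H) (hH : ∀ h ∈ H, h = 1 ∨ h = -1 ∨ h 1 0 ≠ 0)
  (hD : ∀ h ∈ D, h = 1 ∨ h = -1 ∨ h 1 0 ≠ 0)

lemma S.K {j : ℝ → G} (hj : S H D j) {h : G} (hh : h ∈ H) : S H D (K h * j) := by
  obtain ⟨h', h1, rfl | ⟨M, h2, rfl⟩⟩ := hj
  · exact ⟨h * h', H.mul_mem hh h1, Or.inl rfl⟩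
  · exact ⟨h * h', H.mul_mem hh h1, Or.inr ⟨M, h2, by rw [K_mul, mul_assoc]⟩⟩

lemma cen {h : G} (e : h = 1 ∨ h = -1) : Y h = K h ∧ ∀ M : ℝ → G, M * K h = K h * M := by
  rcases e with rfl | rfl <;> exact ⟨funext fun t => by simp [Y, K], fun M => funext fun t => by
    simp [K]⟩

include hn hD in
lemma S.Y0 {k h : G} (hk : k ∈ D) (hh : h ∈ H) :
    S H D (Y k * IG.K h) ∧ ∀ M, h 1 0 ≠ 0 → B H D M → S H D (Y k * (IG.K h * M)) := by
  rcases or_assoc.2 (hD k hk) with e | e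
  · have : k ∈ H := by rcases e with rfl | rfl; exacts [H.one_mem, hn]
    rw [(cen e).1]
    exact ⟨S.K ⟨h, hh, Or.inl rfl⟩ this, fun M _ hM => S.K ⟨h, hh, Or.inr ⟨M, hM, rfl⟩⟩ this⟩
  · exact ⟨⟨1, H.one_mem, Or.inr ⟨_, .base k h hk e hh, (one_mul _).symm⟩⟩, fun M h0 hM =>
      ⟨1, H.one_mem, Or.inr ⟨_, .step k h M hk e hh h0 hM, (one_mul _).symm⟩⟩⟩

include hn hH hD in
lemma S.Y {j : ℝ → G} (hj : S H D j) {k : G} (hk : k ∈ D) : S H D (Y k * j) := by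
  obtain ⟨h, h1, rfl | ⟨M, h2, rfl⟩⟩ := hj
  · exact (S.Y0 hn hD hk h1).1
  rcases or_assoc.2 (hH h h1) with e | e
  · rw [← mul_assoc, (cen e).2, mul_assoc]
    refine S.K ?_ h1
    cases h2 with
    | base k' h' h3 _ h4 =>
      rw [← mul_assoc, ← Y_mul]
      exact (S.Y0 hn hD (D.mul_mem hk h3) h4).1
    | step k' h' M h3 _ h4 h5 h6 =>
      rw [← mul_assoc, ← Y_mul]
      exact (S.Y0 hn hD (D.mul_mem hk h3) h4).2 M h5 h6
  · exact (S.Y0 hn hD hk h1).2 M e h2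

include hn hH hD in
lemma core (cH : #H < 𝔠) (cD : #D < 𝔠) {a : G} (ha : a ∉ H) :
    ∃ t, a ∉ Subgroup.closure (H ∪ (fun k => u t * k * (u t)⁻¹) '' D) := by
  let J := Subgroup.closure (K '' H ∪ Y '' D)
  have h1 : ∀ x ∈ K '' H ∪ Y '' D, ∀ j, S H D j → S H D (x * j) ∧ S H D (x⁻¹ * j) := by
    rintro _ (⟨h, hh, rfl⟩ | ⟨k, hk, rfl⟩) j hj
    · exact ⟨hj.K hh, hj.K (H.inv_mem hh)⟩
    · refine ⟨hj.Y hn hH hD hk, ?_⟩
      rw [show (Y k)⁻¹ = Y k⁻¹ from funext fun t => by simp [Y, mul_assoc]]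
      exact hj.Y hn hH hD (D.inv_mem hk)
  have h2 : ∀ j ∈ J, S H D j := fun j hj =>
    Subgroup.closure_induction_left (p := fun j _ => S H D j) ⟨1, H.one_mem, Or.inl rfl⟩
      (fun x hx y _ hy => (h1 x hx y hy).1) (fun x hx y _ hy => (h1 x hx y hy).2) hj
  have cJ : #J < 𝔠 := card_closure _ ⟨_, Or.inl ⟨1, H.one_mem, rfl⟩⟩
    ((mk_union_le _ _).trans_lt (add_lt_of_lt aleph0_le_continuum (mk_image_le.trans_lt cH)
      (mk_image_le.trans_lt cD)))
  obtain ⟨t, ht⟩ := avoid cJ (fun j => {t | j.1 t = a}) fun j => by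
    obtain ⟨h, h3, e | ⟨M, h4, e⟩⟩ := h2 j.1 j.2
    · refine Set.finite_empty.subset fun t ht => ha ?_
      rw [Set.mem_ofPred_eq, e] at ht
      exact ht ▸ h3
    · obtain ⟨y, p, q, h5, -, h6⟩ := h4.inP
      refine (finite_setOfPred_isRoot (p := p - C (((h⁻¹ * a).1 *ᵥ y) 0)) fun h7 => ?_).subset
        fun t ht => ?_
      · rw [sub_eq_zero.1 h7] at h6
        exact absurd degree_C_le (not_le.2 h6)
      · rw [Set.mem_ofPred_eq, e] at ht
        have h7 : M t = h⁻¹ * a := by rw [← ht]; simp [K]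
        have h8 := (h5 t).1
        simp only [h7] at h8
        simp only [Set.mem_ofPred_eq, IsRoot, eval_sub, eval_C, h8, sub_self]
  refine ⟨t, fun hc => ?_⟩
  have : Subgroup.closure (H ∪ (fun k => u t * k * (u t)⁻¹) '' D) ≤
      J.map (Pi.evalMonoidHom (fun _ => G) t) := by
    rw [Subgroup.closure_le]
    rintro _ (hh | ⟨k, hk, rfl⟩)
    · exact ⟨_, Subgroup.subset_closure (Or.inl ⟨_, hh, rfl⟩), rfl⟩
    · exact ⟨_, Subgroup.subset_closure (Or.inr ⟨_, hk, rfl⟩), rfl⟩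
  obtain ⟨j, hj, e⟩ := this hc
  exact ht ⟨j, hj⟩ e

end

def l (s : ℝ) : G := ⟨!![1, 0; s, 1], by simp [det_fin_two]⟩

lemma gen (h : G) : {s | ¬ ((l s)⁻¹ * h * l s = 1 ∨ (l s)⁻¹ * h * l s = -1 ∨
    ((l s)⁻¹ * h * l s) 1 0 ≠ 0)}.Finite := by
  by_cases e : h = 1 ∨ h = -1
  · refine Set.finite_empty.subset fun s hs => hs ?_
    rcases e with rfl | rfl <;> simp
  refine (finite_setOfPred_isRoot (p := C (-h 0 1) * X ^ 2 + C (h 1 1 - h 0 0) * X + C (h 1 0))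
    fun h0 => e ?_).subset fun s hs => ?_
  · have h1 := congrArg (coeff · 2) h0
    have h2 := congrArg (coeff · 1) h0
    have h3 := congrArg (coeff · 0) h0
    simp [coeff_X, coeff_C, sub_eq_zero] at h1 h2 h3
    have h4 := h.2
    rw [det_fin_two] at h4
    have h5 : h 0 0 * h 0 0 = 1 := by
      have : h.1 0 0 * h.1 1 1 - h.1 0 1 * h.1 1 0 = h 0 0 * h 1 1 - h 0 1 * h 1 0 := rfl
      rw [this, h1, h2] at h4
      linarith
    rcases mul_self_eq_one_iff.1 h5 with h6 | h6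
    · left
      ext i j
      fin_cases i <;> fin_cases j <;> simp [h1, h2, h3, h6]
    · right
      ext i j
      fin_cases i <;> fin_cases j <;> simp [h1, h2, h3, h6]
  · simp only [Set.mem_ofPred_eq, not_or, not_not] at hs
    have h1 := hs.2.2
    rw [SpecialLinearGroup.SL2_inv_expl] at h1
    simp [l, Matrix.mul_apply, Fin.sum_univ_two] at h1
    simp only [Set.mem_ofPred_eq, IsRoot, eval_add, eval_mul, eval_C, eval_pow, eval_X]
    linear_combination h1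

lemma step (H : Subgroup G) (hn : -1 ∈ H) (cH : #H < 𝔠) {a : G} (ha : a ∉ H) (g : G) :
    ∃ x, a ∉ Subgroup.closure (insert (x * g * x⁻¹) H) := by
  have cD : #(Subgroup.zpowers g) < 𝔠 := mk_le_aleph0.trans_lt aleph0_lt_continuum
  obtain ⟨s, hs⟩ := avoid (ι := H ⊕ Subgroup.zpowers g)
    (by simpa using add_lt_of_lt aleph0_le_continuum cH cD) _
    fun i => gen (Sum.elim Subtype.val Subtype.val i)
  let φ : G →* G := (MulAut.conj (l s)⁻¹).toMonoidHom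
  have e : ∀ h, φ h = (l s)⁻¹ * h * l s := fun h => by simp [φ]
  have hφ : Function.Injective φ := (MulAut.conj (l s)⁻¹).injective
  obtain ⟨t, ht⟩ := core (H := H.map φ) (D := (Subgroup.zpowers g).map φ) ⟨-1, hn, by simp [e]⟩
    (by rintro _ ⟨h, hh, rfl⟩; exact e h ▸ not_not.1 (hs (.inl ⟨h, hh⟩)))
    (by rintro _ ⟨h, hh, rfl⟩; exact e h ▸ not_not.1 (hs (.inr ⟨h, hh⟩)))
    (mk_image_le.trans_lt cH) (mk_image_le.trans_lt cD) (a := φ a)
    (by rwa [Subgroup.mem_map_iff_mem hφ])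
  refine ⟨l s * u t * (l s)⁻¹, fun hc => ht ?_⟩
  have := Subgroup.mem_map_of_mem φ hc
  rw [MonoidHom.map_closure] at this
  refine Subgroup.closure_mono ?_ this
  rintro _ ⟨x, rfl | hx, rfl⟩
  · exact Or.inr ⟨φ g, ⟨g, Subgroup.mem_zpowers g, rfl⟩, by simp [e, mul_assoc]⟩
  · exact Or.inl ⟨x, hx, rfl⟩

theorem main : ∃ H : Subgroup G, (∀ g : G, ∃ x : G, x * g * x⁻¹ ∈ H) ∧ H ≠ ⊤ := by
  obtain ⟨r, hr, e⟩ := exists_ord_eq G
  have cG : #G ≤ 𝔠 := (mk_subtype_le _).trans (by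
    have : (𝔠 : Cardinal.{0}) ^ (2 : Cardinal) = 𝔠 := by
      rw [← one_add_one_eq_two, power_add, power_one, continuum_mul_self]
    simp [Matrix, mk_real, this])
  let Kc : Set G → Subgroup G := fun s => Subgroup.closure (insert (-1) s)
  have h1 : ∀ (g : G) (s : Set G), ∃ y, (∃ x, y = x * g * x⁻¹) ∧
      (#s < 𝔠 → u 1 ∉ Kc s → u 1 ∉ Kc (insert y s)) := by
    intro g s
    by_cases h : #s < 𝔠 ∧ u 1 ∉ Kc s
    · obtain ⟨x, hx⟩ := step (Kc s) (Subgroup.subset_closure (Or.inl rfl))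
        (card_closure _ ⟨_, Or.inl rfl⟩ (mk_insert_le.trans_lt
          (add_lt_of_lt aleph0_le_continuum h.1 (one_lt_aleph0.trans aleph0_lt_continuum)))) h.2 g
      refine ⟨_, ⟨x, rfl⟩, fun _ _ hc => hx (Subgroup.closure_mono ?_ hc)⟩
      rintro y (rfl | rfl | hy)
      · exact Or.inr (Subgroup.subset_closure (Or.inl rfl))
      · exact Or.inl rfl
      · exact Or.inr (Subgroup.subset_closure (Or.inr hy))
    · exact ⟨g, ⟨1, by simp⟩, fun a b => absurd ⟨a, b⟩ h⟩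
  choose F hF1 hF2 using h1
  let f : G → G := (IsWellFounded.wf (r := r)).fix fun g prev =>
    F g (Set.range fun j : {j // r j g} => prev j.1 j.2)
  have hf : ∀ g, f g = F g (f '' {j | r j g}) := fun g => by
    rw [Set.image_eq_range]
    exact WellFounded.fix_eq _ _ _
  have h0 : u 1 ∉ Kc ∅ := by
    intro h
    have : Kc ∅ ≤ Subgroup.center G := by
      simp only [Kc, Subgroup.closure_le]
      rintro _ (rfl | h)
      · exact Subgroup.mem_center_iff.2 (by simp)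
      · exact h.elim
    have := congrArg (fun m : G => m 0 0) (Subgroup.mem_center_iff.1 (this h) (l 1))
    simp [l, u, Matrix.mul_apply, Fin.sum_univ_two] at this
  have mono : ∀ {s s' : Set G}, s ⊆ s' → Kc s ≤ Kc s' := fun h =>
    Subgroup.closure_mono (Set.insert_subset_insert h)
  have h2 : ∀ T : Set G, (∀ j ∈ T, u 1 ∉ Kc (insert (f j) (f '' {i | r i j}))) →
      u 1 ∉ Kc (f '' T) := by
    intro T hT hc
    have key : ∀ y ∈ Kc (f '' T), y ∈ Kc ∅ ∨ ∃ j ∈ T, y ∈ Kc (insert (f j) (f '' {i | r i j})) := by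
      intro y hy
      induction hy using Subgroup.closure_induction with
      | mem x hx =>
        rcases hx with rfl | ⟨j, hj, rfl⟩
        · exact Or.inl (Subgroup.subset_closure (Or.inl rfl))
        · exact Or.inr ⟨j, hj, Subgroup.subset_closure (Or.inr (Or.inl rfl))⟩
      | one => exact Or.inl (Subgroup.one_mem _)
      | inv x _ hx =>
        exact hx.imp (Subgroup.inv_mem _) fun ⟨j, hj, h⟩ => ⟨j, hj, Subgroup.inv_mem _ h⟩
      | mul x y _ _ hx hy =>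
        have up : ∀ i j, r i j → Kc (insert (f i) (f '' {k | r k i})) ≤
            Kc (insert (f j) (f '' {k | r k j})) := fun i j h => mono (by
          rintro _ (rfl | ⟨k, hk, rfl⟩)
          · exact Or.inr ⟨i, h, rfl⟩
          · exact Or.inr ⟨k, _root_.trans hk h, rfl⟩)
        rcases hx with hx | ⟨i, hi, hx⟩ <;> rcases hy with hy | ⟨j, hj, hy⟩
        · exact Or.inl (Subgroup.mul_mem _ hx hy)
        · exact Or.inr ⟨j, hj, Subgroup.mul_mem _ (mono (Set.empty_subset _) hx) hy⟩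
        · exact Or.inr ⟨i, hi, Subgroup.mul_mem _ hx (mono (Set.empty_subset _) hy)⟩
        · rcases trichotomous_of r i j with h | rfl | h
          · exact Or.inr ⟨j, hj, Subgroup.mul_mem _ (up i j h hx) hy⟩
          · exact Or.inr ⟨i, hi, Subgroup.mul_mem _ hx hy⟩
          · exact Or.inr ⟨i, hi, Subgroup.mul_mem _ hx (up j i h hy)⟩
    rcases key _ hc with h | ⟨j, hj, h⟩
    · exact h0 h
    · exact hT j hj h
  have h3 : ∀ j, u 1 ∉ Kc (insert (f j) (f '' {i | r i j})) := fun j =>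
    (IsWellFounded.wf (r := r)).induction (C := fun j => u 1 ∉ Kc (insert (f j) (f '' {i | r i j})))
      j fun j ih => by
        rw [hf j]
        exact hF2 j _ (mk_image_le.trans_lt ((card_typein_lt j e).trans_le cG)) (h2 _ ih)
  refine ⟨Kc (f '' Set.univ), fun g => ?_, fun h => h2 _ (fun j _ => h3 j) (h ▸ Subgroup.mem_top _)⟩
  obtain ⟨x, hx⟩ := hF1 g (f '' {j | r j g})
  exact ⟨x, Subgroup.subset_closure (Or.inr ⟨g, trivial, (hf g).trans hx⟩)⟩

end Pool.Agent.H21.IG
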