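import Mathlib

namespace Pool.Agent.H21.Idx

inductive Rule (T N I : Type)
  | plain (A : N) (α : List (Symbol T N))
  | push (A B : N) (f : I)
  | pop (A : N) (f : I) (α : List (Symbol T N))

structure Grammar (T : Type) (n m : ℕ) where
  start : Fin n
  rules : List (Rule T (Fin n) (Fin m))

def att {T N I : Type} (σ : List I) : Symbol T N → T ⊕ N × List I
  | .terminal a => .inl a
  | .nonterminal B => .inr (B, σ)

inductive Step {T : Type} {n m : ℕ} (g : Grammar T n m) :
    List (T ⊕ Fin n × List (Fin m)) → List (T ⊕ Fin n × List (Fin m)) → Prop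
  | plain (A α σ p q) : .plain A α ∈ g.rules → Step g (p ++ [.inr (A, σ)] ++ q) (p ++ α.map (att σ) ++ q)
  | push (A B f σ p q) : .push A B f ∈ g.rules →
      Step g (p ++ [.inr (A, σ)] ++ q) (p ++ [.inr (B, f :: σ)] ++ q)
  | pop (A f α σ p q) : .pop A f α ∈ g.rules →
      Step g (p ++ [.inr (A, f :: σ)] ++ q) (p ++ α.map (att σ) ++ q)

def IsIndexed {T : Type} (L : Language T) : Prop :=
  ∃ (n m : ℕ) (g : Grammar T n m), ∀ w, w ∈ L ↔
    Relation.ReflTransGen (Step g) [.inr (g.start, [])] (w.map .inl)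

abbrev Pres {T : Type} (L : Language T) : Type :=
  PresentedGroup {x | ∃ w ∈ L, x = (w.map FreeGroup.of).prod}

end Pool.Agent.H21.Idx
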