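import Mathlib
import Pool.Agent.H21.AffDefs
import Pool.Agent.H21.Gray

namespace Pool.Agent.H21.Lamp

open Aff Multiplicative Finsupp Classical Gray

abbrev G := Multiplicative (ℤ →₀ ZMod 2) ⋊[shift ℤ (ZMod 2)] Multiplicative ℤ

def mk (c : ℤ →₀ ZMod 2) (x : ℤ) : G := ⟨ofAdd c, ofAdd x⟩

lemma mk_inj {c x c' x'} : mk c x = mk c' x' ↔ c = c' ∧ x = x' := by simp [mk, SemidirectProduct.ext_iff]

noncomputable def S : Finset G := {mk 0 1, mk (single 0 1) 0}

lemma mt (c x) : mk c x * mk 0 1 = mk c (x + 1) := by ext <;> simp [mk]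

lemma ma (c x) : mk c x * mk (single 0 1) 0 = mk (c + single x 1) x := by
  ext <;> simp only [mk, SemidirectProduct.mul_left, SemidirectProduct.mul_right] <;>
    simp [shift, shift1, Finsupp.domCongr]

def Γ : SimpleGraph G := SimpleGraph.fromRel fun g h => ∃ s ∈ S, h = g * s

lemma adj_t (c x) : Γ.Adj (mk c x) (mk c (x + 1)) :=
  ⟨by simp [mk_inj], .inl ⟨_, by simp [S], (mt c x).symm⟩⟩

lemma adj_a (c x) : Γ.Adj (mk c x) (mk (c + single x 1) x) :=
  ⟨by simp [mk_inj], .inl ⟨_, by simp [S], (ma c x).symm⟩⟩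

lemma adj_c {c x c' x'} (h : Γ.Adj (mk c x) (mk c' x')) : |x - x'| ≤ 1 ∧ ∀ y ≠ x, c y = c' y := by
  rcases h.2 with h | h <;> simp only [S, Finset.mem_insert, Finset.mem_singleton, exists_eq_or_imp,
    exists_eq_left, mt, ma, mk_inj] at h <;> rcases h with ⟨rfl, rfl⟩ | ⟨rfl, rfl⟩ <;>
    simp +contextual [single_eq_of_ne]

lemma walk_c : ∀ {a b} (p : Γ.Walk a b), |a.2.toAdd - b.2.toAdd| ≤ p.length ∧
    ∀ y, p.length < |y - a.2.toAdd| → a.1.toAdd y = b.1.toAdd y
  | _, _, .nil => by simp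
  | a, _, .cons (v := v) h p => by
    obtain ⟨h1, h2⟩ := adj_c (c := a.1.toAdd) (x := a.2.toAdd) (c' := v.1.toAdd) (x' := v.2.toAdd) h
    obtain ⟨h3, h4⟩ := walk_c p
    rw [SimpleGraph.Walk.length_cons]
    exact ⟨by grind, fun y h => (h2 y (by grind)).trans (h4 y (by grind))⟩

def R (P : G → Prop) (a b : G) : Prop := ∃ p : Γ.Walk a b, ∀ v ∈ p.support, P v

lemma R.symm {P a b} : R P a b → R P b a := fun ⟨p, h⟩ => ⟨p.reverse, by simpa using h⟩

lemma R.trans {P a b c} : R P a b → R P b c → R P a c := fun ⟨p, h⟩ ⟨q, k⟩ =>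
  ⟨p.append q, fun v hv => ((SimpleGraph.Walk.mem_support_append_iff _ _).1 hv).elim (h v) (k v)⟩

lemma R.adj {P a b} (h : Γ.Adj a b) (h1 : P a) (h2 : P b) : R P a b := ⟨h.toWalk, by simp [h1, h2]⟩

lemma z1 : ∀ z : ZMod 2, z = 0 ∨ z = 1 := by decide

lemma conn {P} (q : ℤ) (z) (h : ∀ c x, c q = z → P (mk c x)) {c x c' x'} (h1 : c q = z)
    (h2 : c' q = z) : R P (mk c x) (mk c' x') := by
  have m : ∀ c x y, c q = z → R P (mk c x) (mk c y) := fun c x y k => by
    exact Int.inductionOn' y x ⟨.nil, by simpa using h c x k⟩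
      (fun y _ ih => ih.trans (.adj (adj_t _ _) (h _ _ k) (h _ _ k))) fun y _ ih =>
      ih.trans (.adj (by simpa using (adj_t c (y - 1)).symm) (h _ _ k) (h _ _ k))
  have f : ∀ d c, c q = z → R P (mk c x) (mk (c + erase q d) x) := fun d => by
    induction d using Finsupp.induction_linear with
    | zero => simpa using fun c => m c x x
    | add d e h1 h2 => exact fun c k => (h1 c k).trans (by simpa [add_assoc] using h2 (c + erase q d) (by simpa))
    | single p w =>
      intro c k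
      by_cases e : q = p
      · simpa [e] using m c x x k
      rcases z1 w with rfl | rfl
      · simpa using m c x x k
      have : (c + single p 1 : ℤ →₀ _) q = z := by simp [single_eq_of_ne e, k]
      rw [erase_single_ne e]
      exact ((m c x p k).trans (.adj (adj_a _ _) (h _ _ k) (h _ _ this))).trans (m _ _ _ this)
  have := f (c' - c) c h1
  rw [erase_of_notMem_support (by simp [h1, h2]), add_sub_cancel] at this
  exact this.trans (m _ _ _ h2)

lemma reach (a b : G) : Γ.Reachable a b := by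
  obtain ⟨q, h⟩ := (a.1.toAdd.support ∪ b.1.toAdd.support).exists_notMem
  simp only [Finset.mem_union, mem_support_iff, not_or, not_not] at h
  exact (conn (P := fun _ => True) q 0 (by simp) (x := a.2.toAdd) (x' := b.2.toAdd) h.1 h.2).elim
    fun p _ => ⟨p⟩

lemma cn : Γ.Connected := ⟨reach⟩

lemma top : Subgroup.closure (S : Set G) = ⊤ := by
  refine eq_top_iff.2 fun g _ => ?_
  obtain ⟨p⟩ := reach g 1
  generalize he : (1 : G) = e at p
  replace he : e ∈ Subgroup.closure (S : Set G) := he ▸ one_mem _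
  induction p with
  | nil => exact he
  | cons h _ ih =>
    rcases h.2 with ⟨s, hs, rfl⟩ | ⟨s, hs, rfl⟩
    · exact (Subgroup.mul_mem_cancel_right _ (Subgroup.subset_closure hs)).1 (ih trivial he)
    · exact mul_mem (ih trivial he) (Subgroup.subset_closure hs)

lemma one_end (F : Finset G) : ∃ F' : Finset G, ∀ a b : G, a ∉ F' → b ∉ F' → R (· ∉ F) a b := by
  let W := F.biUnion fun g => insert g.2.toAdd g.1.toAdd.support
  have hW : ∀ c x, mk c x ∈ F → x ∈ W ∧ ∀ q ∉ W, c q = 0 := fun c x h =>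
    ⟨Finset.mem_biUnion.2 ⟨_, h, by simp [mk]⟩, fun q k => by_contra fun e =>
      k (Finset.mem_biUnion.2 ⟨_, h, by simp [mk, e]⟩)⟩
  have hf : {g : G | g.2.toAdd ∈ W ∧ ∀ q ∉ W, g.1.toAdd q = 0}.Finite := by
    refine Set.Finite.of_finite_image (f := fun g => (g.2.toAdd, fun w : W => g.1.toAdd w))
      ((W.finite_toSet.prod Set.finite_univ).subset (by rintro _ ⟨g, h, rfl⟩; exact ⟨h.1, trivial⟩))
      fun g h g' h' e => SemidirectProduct.ext (toAdd.injective (Finsupp.ext fun q => ?_))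
        (Prod.ext_iff.1 e).1
    by_cases k : q ∈ W
    · exact congrFun (Prod.ext_iff.1 e).2 ⟨q, k⟩
    · rw [h.2 q k, h'.2 q k]
  have k : ∀ q ∉ W, ∀ c x, c q = 1 → mk c x ∉ F := fun q h c x e k => by simp [(hW c x k).2 q h] at e
  have m : ∀ a ∉ hf.toFinset, ∃ q ∉ W, ∀ c x, c q = 1 → R (· ∉ F) a (mk c x) := fun a h => by
    by_cases e : ∃ q ∉ W, a.1.toAdd q = 1
    · exact e.imp fun q e => ⟨e.1, fun c x => conn q 1 (k q e.1) (x := a.2.toAdd) e.2⟩
    have e : ∀ q ∉ W, a.1.toAdd q = 0 := fun q h => (z1 _).resolve_right fun k => e ⟨q, h, k⟩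
    have h : a.2.toAdd ∉ W := fun k => h (hf.mem_toFinset.2 ⟨k, e⟩)
    exact ⟨_, h, fun c x h' => (R.adj (adj_a a.1.toAdd a.2.toAdd) (fun k => h (hW _ _ k).1)
      fun k => h (hW _ _ k).1).trans (conn _ 1 (k _ h) (by simp [e _ h]) h')⟩
  refine ⟨hf.toFinset, fun a b ha hb => ?_⟩
  obtain ⟨q, -, h⟩ := m a ha
  obtain ⟨q', -, h'⟩ := m b hb
  exact (h ((single q 1).update q' 1) 0 (by by_cases e : q = q' <;> simp [e])).trans (h' _ _ (by simp)).symm

lemma dist_c (c x c' x') : |x - x'| ≤ Γ.dist (mk c x) (mk c' x') ∧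
    ∀ y, Γ.dist (mk c x) (mk c' x') < |y - x| → c y = c' y := by
  obtain ⟨p, h⟩ := (reach (mk c x) (mk c' x')).exists_walk_length_eq_dist
  exact h ▸ walk_c p

lemma step {c x c' x'} (h : |x - x'| ≤ 1) (k : ∀ y ≠ x', c y = c' y) :
    Γ.dist (mk c x) (mk c' x') ≤ 2 := by
  have a : ∀ {u v}, u = v ∨ Γ.Adj u v → Γ.dist u v ≤ 1 := by
    rintro u v (rfl | h)
    · simp
    · exact (SimpleGraph.dist_eq_one_iff_adj.2 h).le
  refine (cn.dist_triangle (v := mk c x')).trans (add_le_add (a ?_) (a ?_))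
  · obtain rfl | rfl | rfl : x = x' ∨ x' = x + 1 ∨ x = x' + 1 := by grind
    exacts [.inl rfl, .inr (adj_t _ _), .inr (adj_t _ _).symm]
  · rcases z1 (c' x' - c x') with e | e
    · exact .inl (by congr; ext y; grind)
    · exact .inr (by convert adj_a c x'; ext y; by_cases h : y = x' <;> simp [h, k, ← e])

noncomputable def pt (n b d : ℕ) : G := mk (onFinset (Finset.Icc (-(n + b + d) : ℤ) (n + b + d))
  (cf n b d) fun x h => by_contra fun k => h (by
    rw [cf, g_zero _ _ (Nat.lt_two_pow_self.trans_le (Nat.pow_le_pow_right two_pos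
      (by grind [ι]))), if_neg (by grind), add_zero])) (pos n d)

def nx : ℕ × ℕ × ℕ → ℕ × ℕ × ℕ
  | (n, 0, d) => if d < D n then (n, 0, d + 1) else if d = 0 then (n + 1, 0, 0) else (n, 1, d)
  | (n, _ + 1, d) => if d = 1 then (n + 1, 0, 0) else (n, 1, d - 1)

def st (k : ℕ) : ℕ × ℕ × ℕ := nx^[k] (0, 0, 0)

lemma st_succ (k) : st (k + 1) = nx (st k) := Function.iterate_succ_apply' _ _ _

lemma st_ok (k) : (st k).2.1 ≤ 1 ∧ (st k).2.2 ≤ D (st k).1 ∧ ((st k).2.1 = 1 → 0 < (st k).2.2) ∧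
    ix (st k).1 (st k).2.1 (st k).2.2 = k := by
  induction k with
  | zero => simp [st, ix, T]
  | succ k ih =>
    rw [st_succ]
    generalize st k = s at ih
    obtain ⟨n, _ | b, d⟩ := s <;> simp only [nx] <;> split_ifs <;> grind [ix, T_succ]

noncomputable def e (k : ℕ) : G := pt (st k).1 (st k).2.1 (st k).2.2

lemma cf0 (n b y) : cf n b 0 y = g (n + b) (ι y) := by
  rw [cf, if_neg (by omega), add_zero]

lemma cf1 {n b d y} (h : y ≠ pos n (d + 1)) : cf n b d y = cf n b (d + 1) y := by grind [cf]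

lemma cf2 {n d y} (h : y ≠ pos n (D n)) : cf n 0 d y = cf n 1 d y := by
  rw [cf, cf, g_succ, if_neg (c := ι y = _) (by grind [pos, ι, D]), add_zero, add_zero]

lemma p0 (n) : pos n 0 = 0 := by simp [pos]

lemma e_step (k) : Γ.dist (e k) (e (k + 1)) ≤ 2 := by
  obtain ⟨h1, h2, h3, -⟩ := st_ok k
  rw [e, e, st_succ]
  generalize st k = s at *
  obtain ⟨n, _ | b, d⟩ := s <;> simp only [nx] at * <;> split_ifs with h4 h5
  · exact step (by grind [pos]) fun y => cf1
  · subst h5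
    refine step (by simp [p0]) fun y h => (cf2 ?_).trans ((cf0 ..).trans (cf0 (n + 1) 0 y).symm)
    rwa [show D n = 0 by omega, p0, ← p0 (n + 1)]
  · obtain rfl : d = D n := by omega
    exact step (by simp) fun y => cf2
  all_goals
    rw [SimpleGraph.dist_comm]
    obtain rfl : b = 0 := by omega
  · subst h4
    exact step (by simp [pos]; split_ifs <;> simp) fun y h => (cf0 ..).trans ((cf0 n 1 y).symm.trans (cf1 h))
  · obtain ⟨d, rfl⟩ := Nat.exists_eq_add_one_of_ne_zero (h3 rfl).ne'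
    exact step (by grind [pos]) fun y => cf1

lemma e_lip (k) : ∀ j, Γ.dist (e k) (e (k + j)) ≤ 2 * j
  | 0 => by simp
  | j + 1 => cn.dist_triangle.trans (add_le_add (e_lip k j) (e_step _))

lemma e_far (M : ℕ) : ∃ N, ∀ k j, Γ.dist (e k) (e j) ≤ M → k ≤ j + N := by
  refine (near M).imp fun N h k j hd => ?_
  obtain ⟨h1, h2⟩ := dist_c _ _ _ _
  exact (st_ok k).2.2.2 ▸ (st_ok j).2.2.2 ▸ h _ _ _ _ _ _ (st_ok k).1 (st_ok j).1 (st_ok k).2.1
    (st_ok j).2.1 (h1.trans (by exact_mod_cast hd)) fun x k => h2 x (lt_of_le_of_lt (by exact_mod_cast hd) k)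

lemma e_surj (c) : ∃ k, e k = mk c 0 := by
  obtain ⟨N, hN⟩ := (c.support.image ι).bddAbove
  have hι : Function.Injective ι := fun x y => by grind [ι]
  obtain ⟨n, h⟩ := g_surj (N + 1) (Function.extend ι c 0) fun j hj => by
    by_cases e : ∃ x, ι x = j
    · obtain ⟨x, rfl⟩ := e
      rw [hι.extend_apply]
      exact by_contra fun k => hj.not_gt (Nat.lt_succ_of_le (hN (by simpa using ⟨x, k, rfl⟩)))
    · exact Function.extend_apply' _ _ _ e
  have : st (T n) = (n, 0, 0) := by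
    obtain ⟨h1, h2, h3, h4⟩ := st_ok (T n)
    generalize st (T n) = s at *
    obtain ⟨m, b, d⟩ := s
    have hm : StrictMono T := strictMono_nat_of_lt_succ fun n => by grind [T_succ]
    have := T_succ m
    obtain rfl : m = n := by
      have : T m ≤ T n ∧ T n < T (m + 1) := by grind [ix]
      grind [hm.le_iff_le, hm.lt_iff_lt]
    grind [ix]
  refine ⟨T n, ?_⟩
  rw [e, this, pt, mk_inj]
  exact ⟨Finsupp.ext fun x => by simp [cf0, h, hι.extend_apply], p0 n⟩

end Pool.Agent.H21.Lamp
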