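import Mathlib

namespace Pool.Agent.H21.Lat

def lang : FirstOrder.Language := ⟨fun n => {_b : Bool // n = 2}, fun _ => Empty⟩

@[reducible] def latStr (L : Type) [Lattice L] : lang.Structure L where
  funMap := fun {n} f v =>
    if f.1 then v ⟨0, by have := f.2; omega⟩ ⊔ v ⟨1, by have := f.2; omega⟩
    else v ⟨0, by have := f.2; omega⟩ ⊓ v ⟨1, by have := f.2; omega⟩
  RelMap := fun r _ => r.elim

def Sat (L : Type) [Lattice L] (φ : lang.Sentence) : Prop :=
  @FirstOrder.Language.Sentence.Realize lang L (latStr L) φ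

def SatId (L : Type) [Lattice L] (e : lang.Term ℕ × lang.Term ℕ) : Prop :=
  ∀ v : ℕ → L, @FirstOrder.Language.Term.realize lang L (latStr L) ℕ v e.1 =
    @FirstOrder.Language.Term.realize lang L (latStr L) ℕ v e.2

def Embeds (L : Type) [Lattice L] (D V : Type) [DivisionRing D] [AddCommGroup V] [Module D V] :
    Prop :=
  ∃ f : L → Submodule D V, Function.Injective f ∧ (∀ x y, f (x ⊔ y) = f x ⊔ f y) ∧
    ∀ x y, f (x ⊓ y) = f x ⊓ f y

def InKD (L : Type) [Lattice L] : Prop :=
  ∃ (D V : Type) (_ : DivisionRing D) (_ : AddCommGroup V) (_ : Module D V), Embeds L D V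

def InKF (L : Type) [Lattice L] : Prop :=
  ∃ (F V : Type) (_ : Field F) (_ : AddCommGroup V) (_ : Module F V), Embeds L F V

end Pool.Agent.H21.Lat
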