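import Mathlib
import Pool.Agent.H21.LatDefs

namespace Pool.Agent.H21.Lat

open Filter FirstOrder FirstOrder.Language

abbrev S (p : ℕ) := Submodule (ZMod p) (Fin 3 → ZMod p)

def Hy {p : ℕ} (a b c : ZMod p) : S p where
  carrier := {v | a * v 0 + b * v 1 + c * v 2 = 0}
  zero_mem' := by simp
  add_mem' := fun {x y} (hx : _ = _) (hy : _ = _) => by
    simp only [Set.mem_ofPred_eq, Pi.add_apply]
    linear_combination hx + hy
  smul_mem' := fun r x (hx : _ = _) => by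
    simp only [Set.mem_ofPred_eq, Pi.smul_apply, smul_eq_mul]
    linear_combination r * hx

lemma mem_Hy {p : ℕ} {a b c : ZMod p} {v : Fin 3 → ZMod p} :
    v ∈ Hy a b c ↔ a * v 0 + b * v 1 + c * v 2 = 0 := Iff.rfl

lemma char_of {p : ℕ} (hp : p.Prime) {D V : Type} [DivisionRing D] [AddCommGroup V] [Module D V]
    (h : Embeds (S p) D V) : (p : D) = 0 := by
  have : Fact p.Prime := ⟨hp⟩
  obtain ⟨f, hi, hs, hm⟩ := h
  have mono : ∀ {x y}, x ≤ y → f x ≤ f y := fun {x y} h => by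
    rw [← sup_eq_right, ← hs, sup_eq_right.2 h]
  let a1 : S p := Hy 0 1 0 ⊓ Hy 0 0 1
  let a2 : S p := Hy 1 0 0 ⊓ Hy 0 0 1
  let a3 : S p := Hy 1 0 0 ⊓ Hy 0 1 0
  let y : S p := Hy 0 1 0 ⊓ Hy (-1) 0 1
  let z : S p := Hy 1 0 0 ⊓ Hy 0 1 1
  let x : ℕ → S p := fun k => Hy (-k) 1 0 ⊓ Hy 0 0 1
  have bot : ∀ s t : S p, (∀ v ∈ s, v ∈ t → v 0 = 0 ∧ v 1 = 0 ∧ v 2 = 0) →
      ∀ w ∈ f s, w ∈ f t → w ∈ f ⊥ := fun s t h w h1 h2 =>
    mono (fun v hv => funext fun i => by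
      have := h v hv.1 hv.2
      fin_cases i <;> simp [this]) (hm s t ▸ ⟨h1, h2⟩ : w ∈ f (s ⊓ t))
  have h1 : ¬ f a1 ≤ f ⊥ := fun h => by
    have : ![1, 0, 0] ∈ a1 := by simp [a1, mem_Hy]
    rw [hi (le_antisymm h (mono bot_le))] at this
    simpa using congrFun ((Submodule.mem_bot _).1 this) 0
  obtain ⟨v1, hv1, hb⟩ := SetLike.not_le_iff_exists.1 h1
  have h2 : a1 ≤ y ⊔ a3 := fun v hv => Submodule.mem_sup.2 ⟨![v 0, 0, v 0], by simp [y, mem_Hy],
    ![0, 0, -v 0], by simp [a3, mem_Hy], funext fun i => by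
      simp [a1, mem_Hy] at hv
      fin_cases i <;> simp [hv]⟩
  have h3 : a3 ≤ z ⊔ a2 := fun v hv => Submodule.mem_sup.2 ⟨![0, -v 2, v 2], by simp [z, mem_Hy],
    ![0, v 2, 0], by simp [a2, mem_Hy], funext fun i => by
      simp [a3, mem_Hy] at hv
      fin_cases i <;> simp [hv]⟩
  obtain ⟨η, hη, v3, hv3, e1⟩ := Submodule.mem_sup.1 (hs y a3 ▸ mono h2 hv1)
  obtain ⟨ζ, hζ, v2, hv2, e2⟩ := Submodule.mem_sup.1 (hs z a2 ▸ mono h3 hv3)
  have h4 : ∀ k : ℕ, v1 - (k : D) • v2 ∈ f (x k) := by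
    intro k
    induction k with
    | zero => simpa [x, a1] using hv1
    | succ k ih =>
      have h5 : (((x k ⊔ a3) ⊓ (y ⊔ a2)) ⊔ z) ⊓ (a1 ⊔ a2) ≤ x (k + 1) := by
        have k1 : x k ⊔ a3 ≤ Hy (-(k : ZMod p)) 1 0 := sup_le inf_le_left fun v hv => by
          simp [a3, mem_Hy] at hv ⊢
          simp [hv]
        have k2 : y ⊔ a2 ≤ Hy (-1) 0 1 := sup_le inf_le_right fun v hv => by
          simp [a2, mem_Hy] at hv ⊢
          simp [hv]
        have k3 : a1 ⊔ a2 ≤ Hy 0 0 1 := sup_le inf_le_right inf_le_right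
        have k4 : ((x k ⊔ a3) ⊓ (y ⊔ a2)) ⊔ z ≤ Hy (-((k : ZMod p) + 1)) 1 1 := sup_le (fun v hv => by
          have j1 := mem_Hy.1 (k1 hv.1)
          have j2 := mem_Hy.1 (k2 hv.2)
          rw [mem_Hy]
          linear_combination j1 + j2) fun v hv => by
          have j1 := mem_Hy.1 hv.1
          have j2 := mem_Hy.1 hv.2
          rw [mem_Hy]
          linear_combination j2 - (k + 1) * j1
        intro v hv
        have j1 := mem_Hy.1 (k4 hv.1)
        have j2 := mem_Hy.1 (k3 hv.2)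
        refine ⟨mem_Hy.2 ?_, mem_Hy.2 j2⟩
        push_cast
        linear_combination j1 - j2
      refine mono h5 ?_
      simp only [hs, hm]
      refine ⟨Submodule.mem_sup.2 ⟨η - (k : D) • v2, ⟨?_, ?_⟩, ζ, hζ, ?_⟩, ?_⟩
      · refine Submodule.mem_sup.2 ⟨_, ih, -v3, neg_mem hv3, ?_⟩
        rw [← e1]
        abel
      · exact sub_mem (Submodule.mem_sup_left hη)
          (Submodule.mem_sup_right (Submodule.smul_mem _ _ hv2))
      · rw [← e1, ← e2, Nat.cast_succ, add_smul, one_smul]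
        abel
      · exact sub_mem (Submodule.mem_sup_left hv1)
          (Submodule.mem_sup_right (Submodule.smul_mem _ _ hv2))
  by_contra hp0
  have h5 := h4 p
  have h6 : v2 ∈ f a1 := by
    rw [← Submodule.smul_mem_iff _ hp0]
    simpa only [sub_sub_cancel] using sub_mem hv1 (show v1 - (p : D) • v2 ∈ f a1 by
      simpa [x, a1] using h5)
  have h7 := bot a1 a2 (by simp +contextual [a1, a2, mem_Hy]) v2 h6 hv2
  have h8 := bot z a3 (by
    intro v h1 h2
    simp [z, a3, mem_Hy] at h1 h2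
    simpa [h2] using h1) v3
    (e2 ▸ add_mem hζ (mono bot_le h7)) hv3
  exact hb (bot y a1 (by
    intro v h1 h2
    simp [y, a1, mem_Hy] at h1 h2
    simpa [h2] using h1) v1
    (e1 ▸ add_mem hη (mono bot_le h8)) hv1)

lemma not_KD {p q : ℕ} (hp : p.Prime) (hq : q.Prime) (h : p ≠ q) : ¬ InKD (S p × S q) := by
  rintro ⟨D, V, _, _, _, f, hi, hs, hm⟩
  have h1 := char_of hp ⟨fun x => f (x, ⊥), fun x y e => congrArg Prod.fst (hi e),
    fun x y => by rw [← hs]; simp, fun x y => by rw [← hm]; simp⟩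
  have h2 := char_of hq ⟨fun x => f (⊥, x), fun x y e => congrArg Prod.snd (hi e),
    fun x y => by rw [← hs]; simp, fun x y => by rw [← hm]; simp⟩
  have h3 := congrArg (Int.cast : ℤ → D) (Nat.gcd_eq_gcd_ab p q)
  rw [(Nat.coprime_primes hp hq).2 h] at h3
  simp [h1, h2] at h3

lemma KF_KD {L : Type} [Lattice L] (h : InKF L) : InKD L := by
  obtain ⟨D, V, _, _, _, h⟩ := h
  exact ⟨D, V, inferInstance, inferInstance, inferInstance, h⟩

section
variable (u : Ultrafilter ℕ) (P : ℕ → ℕ)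

def Φ (X : ∀ n, S (P n)) : Submodule ℚ (ℕ → Fin 3 → ℚ) where
  carrier := {g | ∃ a : ℕ, 0 < a ∧ ∃ x : ℕ → Fin 3 → ℤ,
    ∀ᶠ n in u, (∀ i, a * g n i = x n i) ∧ (fun i => (x n i : ZMod (P n))) ∈ X n}
  zero_mem' := ⟨1, one_pos, 0, Eventually.of_forall fun n => ⟨by simp, by
    simp only [Pi.zero_apply, Int.cast_zero]
    exact (X n).zero_mem⟩⟩
  add_mem' := by
    rintro g g' ⟨a, ha, x, hx⟩ ⟨b, hb, y, hy⟩
    refine ⟨a * b, by positivity, fun n i => b * x n i + a * y n i, (hx.and hy).mono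
      fun n ⟨h1, h2⟩ => ⟨fun i => ?_, ?_⟩⟩
    · simp only [Pi.add_apply]
      push_cast
      linear_combination b * h1.1 i + a * h2.1 i
    · convert add_mem ((X n).smul_mem b h1.2) ((X n).smul_mem a h2.2) using 1
      ext i
      simp
  smul_mem' := by
    rintro c g ⟨a, ha, x, hx⟩
    refine ⟨a * c.den, Nat.mul_pos ha c.den_pos, fun n i => c.num * x n i, hx.mono
      fun n h1 => ⟨fun i => ?_, ?_⟩⟩
    · simp only [Pi.smul_apply, smul_eq_mul]
      push_cast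
      rw [← h1.1 i, ← Rat.mul_den_eq_num]
      ring
    · convert (X n).smul_mem c.num h1.2 using 1
      ext i
      simp

variable {u P}

lemma Φ_mono {X Y : ∀ n, S (P n)} (h : ∀ᶠ n in u, X n ≤ Y n) : Φ u P X ≤ Φ u P Y :=
  fun _ ⟨a, ha, x, hx⟩ => ⟨a, ha, x, (hx.and h).mono fun _ h => ⟨h.1.1, h.2 h.1.2⟩⟩

lemma Φ_sup (X Y : ∀ n, S (P n)) : Φ u P (X ⊔ Y) = Φ u P X ⊔ Φ u P Y := by
  refine le_antisymm ?_ (sup_le (Φ_mono (.of_forall fun _ => le_sup_left))
    (Φ_mono (.of_forall fun _ => le_sup_right)))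
  rintro g ⟨a, ha, x, hx⟩
  have : ∀ n, ∃ y : Fin 3 → ℤ, (fun i => (x n i : ZMod (P n))) ∈ X n ⊔ Y n →
      (fun i => (y i : ZMod (P n))) ∈ X n ∧ (fun i => ((x n i - y i : ℤ) : ZMod (P n))) ∈ Y n := by
    intro n
    by_cases h : (fun i => (x n i : ZMod (P n))) ∈ X n ⊔ Y n
    · obtain ⟨y, h1, z, h2, e⟩ := Submodule.mem_sup.1 h
      refine ⟨fun i => (y i).cast, fun _ => ⟨by simpa using h1, ?_⟩⟩
      convert h2 using 2 with i
      simp [← congrFun e i]
    · exact ⟨0, fun h' => absurd h' h⟩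
  choose y hy using this
  have ha' : (a : ℚ) ≠ 0 := by positivity
  refine Submodule.mem_sup.2 ⟨fun n i => y n i / a, ⟨a, ha, y, hx.mono fun n h =>
    ⟨fun i => by field_simp, (hy n h.2).1⟩⟩, g - fun n i => (y n i : ℚ) / a,
    ⟨a, ha, fun n i => x n i - y n i, hx.mono fun n h => ⟨fun i => ?_, (hy n h.2).2⟩⟩, by simp⟩
  simp only [Pi.sub_apply, Int.cast_sub, ← h.1 i]
  field_simp

lemma Φ_inf (X Y : ∀ n, S (P n)) : Φ u P (X ⊓ Y) = Φ u P X ⊓ Φ u P Y := by
  refine le_antisymm (le_inf (Φ_mono (.of_forall fun _ => inf_le_left))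
    (Φ_mono (.of_forall fun _ => inf_le_right))) ?_
  rintro g ⟨⟨a, ha, x, hx⟩, b, hb, y, hy⟩
  refine ⟨a * b, by positivity, fun n i => b * x n i, (hx.and hy).mono
    fun n ⟨h1, h2⟩ => ⟨fun i => ?_, ?_, ?_⟩⟩
  · push_cast
    linear_combination b * h1.1 i
  · refine (congrArg (· ∈ X n) (funext fun i => ?_)).mpr ((X n).smul_mem b h1.2)
    simp
  · refine (congrArg (· ∈ Y n) (funext fun i => ?_)).mpr ((Y n).smul_mem a h2.2)
    have : (b * x n i : ℤ) = a * y n i := by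
      rify
      have j1 := congrArg (Rat.cast : ℚ → ℝ) (h1.1 i)
      have j2 := congrArg (Rat.cast : ℚ → ℝ) (h2.1 i)
      push_cast at j1 j2
      linear_combination a * j2 - b * j1
    simp [this]

lemma Φ_refl (hP : ∀ n, (P n).Prime) (hu : ∀ a, ∀ᶠ n in u, a < P n) {X Y : ∀ n, S (P n)}
    (h : Φ u P X ≤ Φ u P Y) : ∀ᶠ n in u, X n ≤ Y n := by
  by_contra hc
  rw [← Ultrafilter.eventually_not] at hc
  have : ∀ n, ∃ v ∈ X n, ¬ X n ≤ Y n → v ∉ Y n := fun n => by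
    by_cases h : X n ≤ Y n
    · exact ⟨0, zero_mem _, fun h' => absurd h h'⟩
    · obtain ⟨v, h1, h2⟩ := SetLike.not_le_iff_exists.1 h
      exact ⟨v, h1, fun _ => h2⟩
  choose v h1 h2 using this
  obtain ⟨a, ha, y, hy⟩ := @h (fun n i => ((v n i).cast : ℤ)) ⟨1, one_pos, fun n i => (v n i).cast,
    .of_forall fun n => ⟨by simp, by simpa using h1 n⟩⟩
  obtain ⟨n, h3, h4, h5⟩ := (hc.and (hy.and (hu a))).exists
  have : Fact (P n).Prime := ⟨hP n⟩
  refine h2 n h3 (((Y n).smul_mem_iff (s := (a : ZMod (P n))) fun e => ?_).1 ?_)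
  · exact absurd (Nat.le_of_dvd ha ((ZMod.natCast_eq_zero_iff _ _).1 e)) h5.not_ge
  · convert h4.2 using 1
    ext i
    have : (a * (v n i).cast : ℤ) = y n i := by
      have := h4.1 i
      simp only at this
      exact_mod_cast this
    simp [← this]

end

theorem main (T : Finset lang.Sentence) (K : ∀ (L : Type) [Lattice L], Prop)
    (h1 : ∀ (L : Type) [Lattice L], InKF L → K L) (h2 : ∀ (L : Type) [Lattice L], K L → InKD L) :
    ¬ ∀ (L : Type) [Lattice L] [Nonempty L], K L ↔ ∀ φ ∈ T, Sat L φ := by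
  intro h
  choose P hP1 hP2 using fun n => Nat.exists_infinite_primes (n + 1)
  let u := hyperfilter ℕ
  have hu : ∀ a : ℕ, ∀ᶠ n in (u : Filter ℕ), a < n := fun a =>
    Nat.hyperfilter_le_atTop (eventually_gt_atTop a)
  let M : ℕ → Type := fun n => S (P n) × S (P (P n))
  let : ∀ n, lang.Structure (M n) := fun n => latStr (M n)
  let Ψ : (∀ n, M n) → Submodule ℚ ((ℕ → Fin 3 → ℚ) × (ℕ → Fin 3 → ℚ)) := fun X =>
    (Φ u P fun n => (X n).1).prod (Φ u (fun n => P (P n)) fun n => (X n).2)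
  have hΨ : ∀ X Y, Ψ X = Ψ Y ↔ ∀ᶠ n in u, X n = Y n := fun X Y => ⟨fun e => by
    have e1 := congrArg (Submodule.map (LinearMap.fst ℚ _ _)) e
    have e2 := congrArg (Submodule.map (LinearMap.snd ℚ _ _)) e
    simp only [Ψ, Submodule.prod_map_fst, Submodule.prod_map_snd] at e1 e2
    have k1 : ∀ a, ∀ᶠ n in u, a < P n := fun a => (hu a).mono fun n h => by
      have := hP1 n; omega
    have k2 : ∀ a, ∀ᶠ n in u, a < P (P n) := fun a => (k1 a).mono fun n h => by
      have := hP1 (P n); omega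
    filter_upwards [Φ_refl hP2 k1 e1.le, Φ_refl hP2 k1 e1.ge, Φ_refl (fun n => hP2 _) k2 e2.le,
      Φ_refl (fun n => hP2 _) k2 e2.ge] with n j1 j2 j3 j4
    exact Prod.ext (le_antisymm j1 j2) (le_antisymm j3 j4), fun e => by
    simp only [Ψ]
    congr 1 <;> exact le_antisymm (Φ_mono (e.mono fun n h => by rw [h]))
      (Φ_mono (e.mono fun n h => by rw [h]))⟩
  let U := (u : Filter ℕ).Product M
  let F : U → Submodule ℚ _ := Quotient.lift Ψ fun X Y e => (hΨ X Y).2 e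
  have hF : Function.Injective F := fun x y => Quotient.inductionOn₂ x y fun X Y e =>
    Quotient.sound ((hΨ X Y).1 e)
  have op : ∀ (b : Bool) (X Y : ∀ n, M n), Structure.funMap (L := lang) (M := U) ⟨b, rfl⟩
      ![(X : U), (Y : U)] = ((fun n => if b then X n ⊔ Y n else X n ⊓ Y n : ∀ n, M n) : U) := by
    intro b X Y
    exact (congrArg _ (funext fun i => by fin_cases i <;> rfl)).trans
      (Ultraproduct.funMap_cast (L := lang) (M := M) (u := u) ⟨b, rfl⟩ ![X, Y])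
  let : Max U := ⟨fun x y => Structure.funMap (L := lang) ⟨true, rfl⟩ ![x, y]⟩
  let : Min U := ⟨fun x y => Structure.funMap (L := lang) ⟨false, rfl⟩ ![x, y]⟩
  let : LE U := ⟨fun x y => F x ≤ F y⟩
  let : LT U := ⟨fun x y => F x < F y⟩
  have hs : ∀ x y, F (x ⊔ y) = F x ⊔ F y := fun x y => Quotient.inductionOn₂ x y fun X Y => by
    refine (congrArg F (op true X Y)).trans ?_
    show Ψ _ = Ψ X ⊔ Ψ Y
    simp only [Ψ, Submodule.prod_sup_prod, ← Φ_sup]
    rfl
  have hm : ∀ x y, F (x ⊓ y) = F x ⊓ F y := fun x y => Quotient.inductionOn₂ x y fun X Y => by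
    refine (congrArg F (op false X Y)).trans ?_
    show Ψ _ = Ψ X ⊓ Ψ Y
    simp only [Ψ, Submodule.prod_inf_prod, ← Φ_inf]
    rfl
  let : Lattice U := hF.lattice F Iff.rfl Iff.rfl hs hm
  have : Nonempty U := ⟨((fun _ => ⊥ : ∀ n, M n) : U)⟩
  have h3 := (h U).1 (h1 U ⟨ℚ, _, inferInstance, inferInstance, inferInstance, F, hF, hs, hm⟩)
  have e : latStr U = Ultraproduct.structure := by
    refine Structure.ext ?_ (funext fun n => funext fun r => r.elim)
    funext n ⟨b, hn⟩ v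
    subst hn
    have : v = ![v 0, v 1] := funext fun i => by fin_cases i <;> rfl
    rw [this]
    cases b <;> rfl
  have h4 : ∀ φ ∈ T, ∀ᶠ n in u, Sat (M n) φ := fun φ hφ => by
    have := h3 φ hφ
    rw [Sat, e] at this
    exact (Ultraproduct.sentence_realize φ).1 this
  obtain ⟨n, hn⟩ := ((eventually_all_finset T).2 h4).exists
  exact not_KD (hP2 n) (hP2 _) (by have := hP1 (P n); omega) (h2 _ ((h (M n)).2 hn))

lemma realize_prod {A B : Type} [Lattice A] [Lattice B] (v : ℕ → A × B) (t : lang.Term ℕ) :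
    @Term.realize lang _ (latStr _) ℕ v t = (@Term.realize lang _ (latStr _) ℕ (Prod.fst ∘ v) t,
      @Term.realize lang _ (latStr _) ℕ (Prod.snd ∘ v) t) := by
  induction t with
  | var => rfl
  | func f _ ih =>
    obtain ⟨b, rfl⟩ := f
    cases b <;> simp only [Term.realize, ih] <;> rfl

theorem not_variety (T : Set (lang.Term ℕ × lang.Term ℕ)) :
    ¬ ∀ (L : Type) [Lattice L] [Nonempty L], InKF L ↔ ∀ e ∈ T, SatId L e := by
  intro h
  have : Fact (Nat.Prime 3) := ⟨by norm_num⟩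
  have k : ∀ (p : ℕ) [Fact p.Prime], ∀ e ∈ T, SatId (S p) e := fun p _ =>
    (h _).1 ⟨ZMod p, _, inferInstance, inferInstance, inferInstance, id, fun _ _ e => e,
      fun _ _ => rfl, fun _ _ => rfl⟩
  refine not_KD (p := 2) (q := 3) (by norm_num) (by norm_num) (by norm_num)
    (KF_KD ((h _).2 fun e he v => ?_))
  rw [realize_prod, realize_prod, k 2 e he, k 3 e he]

end Pool.Agent.H21.Lat
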