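import Mathlib

namespace Pool.Agent.H21.LatDet

open Matrix MvPolynomial

def L : Fin 16 → Fin 16 → Fin 16 := ![
  ![0, 9, 10, 11, 4, 13, 14, 15, 8, 1, 2, 3, 12, 5, 6, 7],
  ![1, 0, 11, 2, 5, 4, 7, 14, 9, 8, 3, 10, 13, 12, 15, 6],
  ![2, 3, 0, 9, 6, 15, 4, 5, 10, 11, 8, 1, 14, 7, 12, 13],
  ![3, 10, 1, 0, 7, 6, 13, 4, 11, 2, 9, 8, 15, 14, 5, 12],
  ![5, 12, 7, 14, 1, 8, 3, 10, 13, 4, 15, 6, 9, 0, 11, 2],
  ![4, 5, 6, 7, 0, 1, 10, 11, 12, 13, 14, 15, 8, 9, 2, 3],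
  ![15, 14, 5, 4, 11, 2, 1, 8, 7, 6, 13, 12, 3, 10, 9, 0],
  ![6, 15, 12, 5, 2, 3, 0, 1, 14, 7, 4, 13, 10, 11, 8, 9],
  ![8, 1, 2, 3, 12, 5, 6, 7, 0, 9, 10, 11, 4, 13, 14, 15],
  ![9, 8, 3, 10, 13, 12, 15, 6, 1, 0, 11, 2, 5, 4, 7, 14],
  ![10, 11, 8, 1, 14, 7, 12, 13, 2, 3, 0, 9, 6, 15, 4, 5],
  ![11, 2, 9, 8, 15, 14, 5, 12, 3, 10, 1, 0, 7, 6, 13, 4],
  ![13, 4, 15, 6, 9, 0, 11, 2, 5, 12, 7, 14, 1, 8, 3, 10],
  ![12, 13, 14, 15, 8, 9, 2, 3, 4, 5, 6, 7, 0, 1, 10, 11],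
  ![7, 6, 13, 12, 3, 10, 9, 0, 15, 14, 5, 4, 11, 2, 1, 8],
  ![14, 7, 4, 13, 10, 11, 8, 9, 6, 15, 12, 5, 2, 3, 0, 1]]

section
variable {R : Type} [CommRing R]

lemma blk {n : Type} [Fintype n] [DecidableEq n] (A B C D : Matrix n n R) (h : A * C = C * A) :
    A.det * (fromBlocks A B C D).det = A.det * (A * D - C * B).det := by
  have : fromBlocks 1 0 (-C) A * fromBlocks A B C D = fromBlocks A B 0 (A * D - C * B) := by
    simp [fromBlocks_multiply, h, sub_eq_neg_add]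
  simpa [det_fromBlocks_zero₁₂, det_fromBlocks_zero₂₁] using congrArg det this

lemma sym {n : Type} [Fintype n] [DecidableEq n] (A B : Matrix n n R) :
    (fromBlocks A B B A).det = (A + B).det * (A - B).det := by
  have : fromBlocks 1 1 0 1 * fromBlocks A B B A * fromBlocks 1 (-1) 0 1 = fromBlocks (A + B) 0 B (A - B) := by
    simp [fromBlocks_multiply, sub_eq_neg_add]
    abel
  simpa [det_fromBlocks_zero₁₂, det_fromBlocks_zero₂₁] using congrArg det this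

def V (a b c d : R) : Matrix (Fin 4) (Fin 4) R := !![a, b, c, d; b, a, d, c; c, d, a, b; d, c, b, a]

lemma dV (a b c d : R) : (V a b c d).det = (a + b + c + d) * (a - b + c - d) * (a + b - c - d) * (a - b - c + d) := by
  simp [V, det_succ_row_zero, Fin.sum_univ_succ, Fin.succAbove]
  ring

lemma dY (a b c d e f g h : R) : (fromBlocks (V a b c d) (V e f g h) (V f e h g) (V b a d c)).det =
    (V (a + e) (b + f) (c + g) (d + h)).det * (V (a - e) (b - f) (c - g) (d - h)).det := by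
  have : ∀ a b c d : R, V b a d c = V 0 1 0 0 * V a b c d := fun a b c d => by simp [V]
  have : fromBlocks (V a b c d) (V e f g h) (V f e h g) (V b a d c) =
      fromBlocks 1 0 0 (V 0 1 0 0) * fromBlocks (V a b c d) (V e f g h) (V e f g h) (V a b c d) := by
    simp [fromBlocks_multiply, ← this]
  rw [this, det_mul, sym, det_fromBlocks_zero₂₁, dV]
  simp [V]

def Z (a b c d e f g h : R) := fromBlocks !![a, -b, -c, -d; b, a, -d, c; c, d, a, -b; d, -c, b, a]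
  !![e, -f, -g, -h; f, e, h, -g; g, -h, e, f; h, g, -f, e]
  !![f, -e, h, -g; e, f, g, h; -h, -g, f, e; g, -h, -e, f]
  !![b, -a, d, -c; a, b, -c, -d; -d, c, b, -a; c, d, a, b]

def N (a b c d : R) := a ^ 2 + b ^ 2 + c ^ 2 + d ^ 2

lemma dZ [IsDomain R] (a b c d e f g h : R) (k : N a b c d ≠ 0) : (Z a b c d e f g h).det =
    (N a b c d + N e f g h) ^ 2 * (N a b c d - N e f g h) ^ 2 := by
  have h1 : !![a, -b, -c, -d; b, a, -d, c; c, d, a, -b; d, -c, b, a].det = N a b c d ^ 2 := by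
    simp [N, det_succ_row_zero, Fin.sum_univ_succ, Fin.succAbove]
    ring
  have h2 : ∀ p q : R, !![0, -p, 0, 0; p, 0, 0, 0; 0, 0, 0, -q; 0, 0, q, 0].det = q ^ 2 * p ^ 2 := by
    simp [det_succ_row_zero, Fin.sum_univ_succ, Fin.succAbove]
    intros
    ring
  refine mul_left_cancel₀ (h1 ▸ pow_ne_zero 2 k) ((blk _ _ _ _ ?_).trans ?_)
  · ext i j
    fin_cases i <;> fin_cases j <;> simp <;> ring
  rw [← h2]
  congr 2
  ext i j
  fin_cases i <;> fin_cases j <;> simp [N] <;> ring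

def val (x : Fin 16 → R) : Fin 10 → R :=
  let y := fun i : Fin 8 => x (i.castAdd 8) + x (i.natAdd 8)
  let z := fun i : Fin 8 => x (i.castAdd 8) - x (i.natAdd 8)
  ![y 0 + y 4 + (y 1 + y 5) + (y 2 + y 6) + (y 3 + y 7), y 0 + y 4 - (y 1 + y 5) + (y 2 + y 6) - (y 3 + y 7),
    y 0 + y 4 + (y 1 + y 5) - (y 2 + y 6) - (y 3 + y 7), y 0 + y 4 - (y 1 + y 5) - (y 2 + y 6) + (y 3 + y 7),
    y 0 - y 4 + (y 1 - y 5) + (y 2 - y 6) + (y 3 - y 7), y 0 - y 4 - (y 1 - y 5) + (y 2 - y 6) - (y 3 - y 7),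
    y 0 - y 4 + (y 1 - y 5) - (y 2 - y 6) - (y 3 - y 7), y 0 - y 4 - (y 1 - y 5) - (y 2 - y 6) + (y 3 - y 7),
    N (z 0) (z 1) (z 2) (z 3) + N (z 4) (z 5) (z 6) (z 7), N (z 0) (z 1) (z 2) (z 3) - N (z 4) (z 5) (z 6) (z 7)]

def dg (j : Fin 10) : ℕ := if j < 8 then 1 else 2

lemma dL [IsDomain R] (x : Fin 16 → R) (k : N (x 0 - x 8) (x 1 - x 9) (x 2 - x 10) (x 3 - x 11) ≠ 0) :
    (of fun i j => x (L i j)).det = ∏ j, val x j ^ dg j := by
  let A : Matrix (Fin 8) (Fin 8) R := of fun i j => x (L (i.castAdd 8) (j.castAdd 8))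
  let B : Matrix (Fin 8) (Fin 8) R := of fun i j => x (L (i.castAdd 8) (j.natAdd 8))
  have h : (of fun i j => x (L i j)).submatrix (finSumFinEquiv (m := 8) (n := 8)) finSumFinEquiv =
      fromBlocks A B B A := by
    have h1 : ∀ i j : Fin 8, L (i.natAdd 8) (j.castAdd 8) = L (i.castAdd 8) (j.natAdd 8) ∧
      L (i.natAdd 8) (j.natAdd 8) = L (i.castAdd 8) (j.castAdd 8) := by decide
    ext (i | i) (j | j) <;> simp only [submatrix_apply, finSumFinEquiv_apply_left, finSumFinEquiv_apply_right,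
      of_apply, h1] <;> rfl
  have h1 : (A + B).submatrix (finSumFinEquiv (m := 4) (n := 4)) finSumFinEquiv = fromBlocks
      (V (x 0 + x 8) (x 1 + x 9) (x 2 + x 10) (x 3 + x 11)) (V (x 4 + x 12) (x 5 + x 13) (x 6 + x 14) (x 7 + x 15))
      (V (x 5 + x 13) (x 4 + x 12) (x 7 + x 15) (x 6 + x 14)) (V (x 1 + x 9) (x 0 + x 8) (x 3 + x 11) (x 2 + x 10)) := by
    ext (i | i) (j | j) <;> fin_cases i <;> fin_cases j <;> first | rfl | exact add_comm _ _
  have h2 : (A - B).submatrix (finSumFinEquiv (m := 4) (n := 4)) finSumFinEquiv = Z (x 0 - x 8) (x 1 - x 9)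
      (x 2 - x 10) (x 3 - x 11) (x 4 - x 12) (x 5 - x 13) (x 6 - x 14) (x 7 - x 15) := by
    ext (i | i) (j | j) <;> fin_cases i <;> fin_cases j <;> first | rfl | exact (neg_sub _ _).symm
  rw [← det_submatrix_equiv_self (finSumFinEquiv (m := 8) (n := 8)), h, sym,
    ← det_submatrix_equiv_self (finSumFinEquiv (m := 4) (n := 4)), h1,
    ← det_submatrix_equiv_self (finSumFinEquiv (m := 4) (n := 4)) (A - B), h2, dY, dV, dV, dZ _ _ _ _ _ _ _ _ k]
  simp only [Fin.prod_univ_succ, Fin.prod_univ_zero, mul_one, mul_assoc]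
  simp only [val, dg]
  simp

lemma nat {S F : Type} [CommRing S] [FunLike F R S] [RingHomClass F R S] (φ : F) (x : Fin 16 → R) (j) :
    φ (val x j) = val (fun i => φ (x i)) j := by
  fin_cases j <;> simp [val, N]

end

def pt : Fin 10 → Fin 16 → ℤ := fun j i =>
  if j < 8 then (-1) ^ (i % 2 * (j % 2) + i / 2 % 2 * (j / 2 % 2) + i / 4 % 2 * (j / 4 % 2) : ℕ)
  else if i = 0 ∨ i = 4 ∧ j = 8 then 1 else if i = 8 ∨ i = 12 ∧ j = 8 then -1 else 0

lemma pt1 : ∀ j, val (pt j) j ≠ 0 := by decide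

lemma pt2 : ∀ i j, i ≠ j → val (pt i) j = 0 ∨ val (pt j) i = 0 := by decide

noncomputable abbrev P : Fin 10 → MvPolynomial (Fin 16) ℂ := val X

lemma ev (i j) : eval (fun k => (pt i k : ℂ)) (P j) = (val (pt i) j : ℤ) := by
  rw [nat]
  simp only [eval_X]
  exact (nat (Int.castRingHom ℂ) (pt i) j).symm

lemma nd {i j} (h : P j ∣ P i) : val (pt i) j ≠ 0 := fun k => by
  simpa [ev, k, pt1] using map_dvd (eval fun k => (pt i k : ℂ)) h

lemma deg (j) : (P j).totalDegree = dg j := by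
  refine IsHomogeneous.totalDegree ?_ fun h => nd (i := j) dvd_rfl (by simpa [h] using (ev j j).symm)
  have := isHomogeneous_X (σ := Fin 16) ℂ
  fin_cases j <;> simp only [P, val, N, dg] <;> simp <;>
    repeat first | apply this | apply IsHomogeneous.add | apply IsHomogeneous.sub | apply IsHomogeneous.pow (m := 1)

noncomputable def θ : MvPolynomial (Fin 16) ℂ →ₐ[ℂ] MvPolynomial (Fin 16) ℂ := aeval fun i =>
  if i = 0 then X 8 + X 0 + X 1 else if i = 1 then X 9 + C Complex.I * (X 0 - X 1) else X i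

noncomputable def θ' : MvPolynomial (Fin 16) ℂ →ₐ[ℂ] MvPolynomial (Fin 16) ℂ := aeval fun i =>
  if i = 0 then C (1 / 2) * (X 0 - X 8 - C Complex.I * (X 1 - X 9)) else
  if i = 1 then C (1 / 2) * (X 0 - X 8 + C Complex.I * (X 1 - X 9)) else X i

lemma cI : (C Complex.I : MvPolynomial (Fin 16) ℂ) ^ 2 = -1 := by simp [← map_pow]

lemma θθ (p) : θ' (θ p) = p := by
  have h : (C (1 / 2) * 2 : MvPolynomial (Fin 16) ℂ) = 1 := by
    rw [← map_ofNat C 2, ← map_mul]; norm_num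
  refine DFunLike.congr_fun (algHom_ext (f := θ'.comp θ) (g := .id _ _) fun i => ?_) p
  have := cI
  fin_cases i <;> simp only [θ, θ', AlgHom.comp_apply, aeval_X] <;> simp [-one_div] <;> grind

lemma irr (j) : Irreducible (P j) := by
  by_cases h : j < 8
  · refine irreducible_of_totalDegree_eq_one (by simp [deg, dg, h]) fun x k => Ne.isUnit ?_
    rintro rfl
    exact nd (i := j) dvd_rfl (by simpa [show P j = 0 from ext _ _ (by simpa using k)] using (ev j j).symm)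
  have : IsLocalHom θ := ⟨fun a h => θθ a ▸ h.map θ'⟩
  have k : ∀ g : MvPolynomial (Fin 16) ℂ, rename (fun i => if i = 0 then 2 else i) g = g →
      eval (fun i => if i = 2 then 1 else 0) g ≠ 0 → Irreducible (4 * X 1 * X 0 + g) := fun g h1 h2 => by
    have v : ∀ g : MvPolynomial (Fin 16) ℂ, rename (fun i => if i = 0 then 2 else i) g = g → 0 ∉ g.vars :=
      fun g h k => by
        obtain ⟨i, -, e⟩ := mem_vars_rename _ _ (h ▸ k)
        revert i
        decide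
    have u : IsUnit (4 : MvPolynomial (Fin 16) ℂ) := map_ofNat (C (σ := Fin 16) (R := ℂ)) 4 ▸ IsUnit.map _ (by simp)
    refine irreducible_mul_X_add _ _ _ (mul_ne_zero u.ne_zero (X_ne_zero _)) (v _ (by simp [map_ofNat])) (v _ h1)
      (u.isRelPrime_left.mul_left ((X_prime (i := 1)).irreducible.isRelPrime_iff_not_dvd.2 fun h => h2 ?_))
    simpa using map_dvd (eval fun i => if i = 2 then 1 else 0) h
  refine .of_map (f := θ) ?_
  have := cI
  obtain rfl | rfl : j = 8 ∨ j = 9 := by omega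
  · convert k ((X 2 - X 10) ^ 2 + (X 3 - X 11) ^ 2 + N (X 4 - X 12) (X 5 - X 13) (X 6 - X 14) (X 7 - X 15))
      (by simp [N]) (by simp [N])
    simp [val, θ, N]
    grind
  · convert k ((X 2 - X 10) ^ 2 + (X 3 - X 11) ^ 2 - N (X 4 - X 12) (X 5 - X 13) (X 6 - X 14) (X 7 - X 15))
      (by simp [N]) (by simp [N])
    simp [val, θ, N]
    grind

end Pool.Agent.H21.LatDet
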