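import Mathlib
import Pool.Agent.H21.BFP

namespace Pool.Agent.H21.Leb

open Metric Set MeasureTheory SimpleGraph Filter

theorem leb (d D : ℕ) (p : (Fin d → ℤ) → Fin d → ℤ) (hD : ∀ z i, |p z i - z i| ≤ D)
    (hm : ∀ z : Fin d → ℤ, (p '' {y | ∀ i, |y i - z i| ≤ 1}).encard ≤ d) : False := by
  classical
  let c : (Fin d → ℤ) → Fin d → ℝ := fun z i => z i
  let A : (Fin d → ℤ) → AffineSubspace ℝ (Fin d → ℝ) := fun z =>
    affineSpan ℝ (c '' (p '' {y | ∀ i, |y i - z i| ≤ 1}))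
  have hA : ∀ z, volume (A z : Set (Fin d → ℝ)) = 0 := fun z => Measure.addHaar_affineSubspace _ _ fun h => by
    have f := finite_of_encard_le_coe (hm z)
    obtain ⟨n, hn⟩ := Nat.exists_eq_add_one_of_ne_zero (Finset.card_ne_zero.2
      (f.toFinset_nonempty.2 ⟨_, z, by simp, rfl⟩))
    have := finrank_vectorSpan_image_finset_le ℝ c _ hn
    rw [Finset.coe_image, f.coe_toFinset, AffineSubspace.vectorSpan_eq_top_of_affineSpan_eq_top _ _ _ h] at this
    have h2 := hm z
    rw [f.encard_eq_coe_toFinset_card, hn, Nat.cast_le] at h2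
    simp at this
    omega
  obtain ⟨y, h1, h2⟩ : ∃ y ∈ closedBall (0 : Fin d → ℝ) 1, y ∉ ⋃ z, (A z : Set (Fin d → ℝ)) :=
    not_subset.1 fun h => (measure_closedBall_pos volume _ one_pos).ne'
      (measure_mono_null h (measure_iUnion_null hA))
  let Z : Finset (Fin d → ℤ) := Finset.Icc (fun _ => -(D + 3)) fun _ => D + 3
  let w : (Fin d → ℝ) → (Fin d → ℤ) → ℝ := fun x z => max 0 (1 - ‖x - c z‖)
  let φ := fun x => Z.centerMass (w x) fun z => c (p z)
  have R : (0 : ℝ) < D + 2 := by positivity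
  have hr : ∀ x : Fin d → ℝ, ∀ i, |x i - round (x i)| ≤ 1 / 2 := fun x i => abs_sub_round _
  have hw : ∀ x, ‖x‖ ≤ D + 2 → 0 < ∑ z ∈ Z, w x z := fun x h =>
    Finset.sum_pos' (fun _ _ => le_max_left _ _) ⟨fun i => round (x i), by
      have := fun i => abs_le.1 ((norm_le_pi_norm x i).trans h)
      refine Finset.mem_Icc.2 ⟨fun i => ?_, fun i => ?_⟩ <;> rw [← Int.cast_le (R := ℝ)] <;>
        push_cast <;> linarith [this i, abs_le.1 (hr x i)], lt_max_of_lt_right (by
      linarith [(pi_norm_le_iff_of_nonneg (x := x - c fun i => round (x i)) (by norm_num)).2 (hr x)])⟩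
  have hφ : ∀ x, ‖x‖ ≤ D + 2 → ∀ K, Convex ℝ K → (∀ z, (∀ i, |x i - c z i| < 1) → c (p z) ∈ K) → φ x ∈ K :=
    fun x h K k l => by
      simp only [φ]
      rw [← Finset.centerMass_filter_ne_zero]
      refine k.centerMass_mem (fun _ _ => le_max_left _ _) (by rw [Finset.sum_filter_ne_zero]; exact hw x h)
        fun z m => l z fun i => (norm_le_pi_norm (x - c z) i).trans_lt ?_
      have := (Finset.mem_filter.1 m).2
      grind
  have n : ∀ x ∈ closedBall (0 : Fin d → ℝ) 1, ‖((D : ℝ) + 2) • x‖ ≤ D + 2 := fun x h => by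
    rw [norm_smul, Real.norm_of_nonneg R.le]
    exact mul_le_of_le_one_right R.le (mem_closedBall_zero_iff.1 h)
  obtain ⟨x, h3, h4⟩ := BFP.brouwer_cube (fun x => ((D : ℝ) + 2)⁻¹ • (y + (((D : ℝ) + 2) • x -
      φ (((D : ℝ) + 2) • x)))) (by
    simp only [φ, Finset.centerMass, w]
    have := fun x h => (hw _ (n x h)).ne'
    fun_prop (disch := assumption)) fun x h => by
      have := hφ _ (n x h) _ (convex_closedBall (((D : ℝ) + 2) • x) (D + 1)) fun z k => by
        rw [mem_closedBall, dist_pi_le_iff (by positivity)]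
        intro i
        have := hD z i
        rw [← Int.cast_le (R := ℝ)] at this
        push_cast at this
        have := k i
        rw [Real.dist_eq]
        grind
      rw [mem_closedBall, _root_.dist_comm, dist_eq_norm] at this
      rw [mem_closedBall_zero_iff, norm_smul, Real.norm_of_nonneg (by positivity), inv_mul_le_one₀ R]
      linarith [norm_add_le y (((D : ℝ) + 2) • x - φ (((D : ℝ) + 2) • x)), mem_closedBall_zero_iff.1 h1]
  rw [inv_smul_eq_iff₀ R.ne', add_comm, ← eq_sub_iff_add_eq, sub_right_inj] at h4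
  refine h2 (mem_iUnion.2 ⟨fun i => round ((((D : ℝ) + 2) • x) i), h4 ▸ hφ _ (n x h3) _
    (AffineSubspace.convex _) fun z k => subset_affineSpan _ _ ⟨_, ⟨z, fun i => ?_, rfl⟩, rfl⟩⟩)
  rw [← Int.lt_add_one_iff, ← Int.cast_lt (R := ℝ)]
  push_cast
  have := k i
  have := hr (((D : ℝ) + 2) • x) i
  grind

variable {G : Type} [Group G] {S : Finset G} (hS : Subgroup.closure (S : Set G) = ⊤)

abbrev Cay (S : Finset G) : SimpleGraph G := fromRel fun g h => g⁻¹ * h ∈ S

def lm (S : Finset G) (g : G) : Cay S →g Cay S := ⟨(g * ·), fun h => by simpa [mul_assoc] using h⟩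

include hS

lemma cn : (Cay S).Connected := by
  have a : ∀ g, ∀ s ∈ S, (Cay S).Reachable g (g * s) := fun g s h => by
    by_cases e : g = g * s
    · rw [← e]
    · exact Adj.reachable ⟨e, .inl (by simpa)⟩
  have : ∀ g, (Cay S).Reachable 1 g := fun g => by
    induction hS.ge (Subgroup.mem_top g) using Subgroup.closure_induction_right with
    | one => rfl
    | mul_right x _ y h k => exact k.trans (a x y h)
    | mul_inv_cancel x _ y h k => exact k.trans (by simpa using (a (x * y⁻¹) y h).symm)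
  exact ⟨fun a b => (this a).symm.trans (this b)⟩

lemma dl (a b : G) : (Cay S).dist a b = (Cay S).dist 1 (a⁻¹ * b) := by
  have k : ∀ g x y, (Cay S).dist (g * x) (g * y) ≤ (Cay S).dist x y := fun g x y => by
    obtain ⟨p, hp⟩ := (cn hS x y).exists_walk_length_eq_dist
    simpa [hp, lm] using dist_le (p.map (lm S g))
  exact le_antisymm (by simpa using k a 1 (a⁻¹ * b)) (by simpa using k a⁻¹ a b)

lemma fb : ∀ R, {g | (Cay S).dist 1 g ≤ R}.Finite
  | 0 => (finite_singleton 1).subset fun g h => ((cn hS).dist_eq_zero_iff.1 (Nat.le_zero.1 h)).symm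
  | R + 1 => (((fb R).mul ((S.finite_toSet.union S.finite_toSet.inv).insert 1))).subset fun g h => by
    obtain ⟨p, hp⟩ := (cn hS g 1).exists_walk_length_eq_dist
    cases p with
    | nil => exact ⟨1, by simp, 1, by simp, by simp⟩
    | @cons _ v _ a q =>
      have := dist_le q
      rw [Walk.length_cons] at hp
      exact ⟨v, by grind [(Cay S).dist_comm], v⁻¹ * g, .inr (by simpa [or_comm] using a.2), by simp⟩

omit hS in
lemma bd {X : Type} {B : Set X} (h : B.Finite) (f : X → ℕ) : ∃ R, ∀ g ∈ B, f g ≤ R :=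
  (h.image f).bddAbove.imp fun _ k g m => k ⟨g, m, rfl⟩

open Multiplicative

omit hS in
lemma cube {ι : Type} [Finite ι] (n : ℤ) : {a : ι → ℤ | ∀ i, |a i| ≤ n}.Finite :=
  (Finite.pi' fun _ => finite_Icc (-n) n).subset fun _ h i => abs_le.1 (h i)

theorem asd (d : ℕ) (j : Multiplicative (Fin d → ℤ) →* G) (π : G →* Multiplicative (Fin d → ℤ))
    (h : ∀ a, π (j a) = a) : ¬ ∀ r : ℕ, ∃ (ι : Type) (U : ι → Set G) (D : ℕ),
      (∀ x : G, ∃ i, x ∈ U i) ∧ (∀ i, ∀ x ∈ U i, ∀ y ∈ U i, (Cay S).dist x y ≤ D) ∧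
      ∀ x : G, {i : ι | ∃ y ∈ U i, (Cay S).dist x y ≤ r}.encard ≤ (d : ℕ∞) := fun H => by
  obtain ⟨r, hr⟩ := bd (cube (ι := Fin d) 1) fun a => (Cay S).dist 1 (j (ofAdd a))
  obtain ⟨ι, U, D, h1, h2, h3⟩ := H r
  choose i hi using fun a => h1 (j (ofAdd a))
  obtain ⟨E, hE⟩ := bd (fb hS D) fun g => ∑ k, ((π g).toAdd k).natAbs
  refine leb d E (fun a => Function.invFun i (i a)) (fun a k => ?_) fun a =>
    le_trans (encard_le_encard ?_) ((encard_image_le (Function.invFun i) _).trans (h3 (j (ofAdd a))))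
  · have := hE _ ((dl hS _ _).symm.trans_le (h2 _ _ (hi a) _
      (Function.invFun_eq (f := i) ⟨a, rfl⟩ ▸ hi (Function.invFun i (i a)))))
    have := (Finset.single_le_sum (fun _ _ => Nat.zero_le _) (Finset.mem_univ k)).trans this
    simp only [map_mul, map_inv, h, toAdd_mul, toAdd_inv, toAdd_ofAdd, Pi.add_apply, Pi.neg_apply] at this
    grind
  · rintro _ ⟨b, k, rfl⟩
    refine ⟨i b, ⟨_, hi b, (dl hS _ _).trans_le ?_⟩, rfl⟩
    simpa [ofAdd_sub, div_eq_inv_mul] using hr (b - a) k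

theorem emb {X : Type} (f : X → G) (ν : X → X → ℕ)
    (h1 : ∀ n, ∃ B : Set G, B.Finite ∧ ∀ a b, ν a b ≤ n → (f a)⁻¹ * f b ∈ B)
    (h2 : ∀ B : Set G, B.Finite → ∃ n, ∀ a b, (f a)⁻¹ * f b ∈ B → ν a b ≤ n) :
    (∃ ρ : ℕ → ℕ, ∀ a b, (Cay S).dist (f a) (f b) ≤ ρ (ν a b)) ∧
    ∃ ρ : ℕ → ℕ, Tendsto ρ atTop atTop ∧ ∀ a b, ρ (ν a b) ≤ (Cay S).dist (f a) (f b) := by
  choose B h3 h4 using h1
  choose R hR using fun n => bd (h3 n) ((Cay S).dist 1)
  choose N hN using fun n => h2 _ (fb hS n)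
  refine ⟨⟨R, fun a b => dl hS _ _ ▸ hR _ _ (h4 _ _ _ le_rfl)⟩, fun n => Nat.findGreatest (N · < n) n,
    tendsto_atTop_atTop.2 fun r => ⟨r + N r + 1, fun n h => Nat.le_findGreatest (by omega) (by omega)⟩,
    fun a b => le_of_not_gt fun h => ?_⟩
  exact (Nat.findGreatest_of_ne_zero rfl (h.trans_le' (Nat.zero_le _)).ne').not_ge
    (hN _ a b ((dl hS _ _).symm.trans_le h.le))

end Pool.Agent.H21.Leb
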