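import Pool.Agent.H21.LeonardDefs

namespace Pool.Agent.H21.Leonard

open Polynomial Module

variable {K V : Type*} [Field K] [AddCommGroup V] [Module K V] {d : ℕ}

lemma aeval_eig (A : End K V) (v : V) (t : K) (h : A v = t • v) (p : K[X]) :
    aeval A p v = p.eval t • v := by
  induction p using Polynomial.induction_on' with
  | add p q hp hq => simp [hp, hq, add_smul]
  | monomial n a =>
    have : ∀ n : ℕ, (A ^ n) v = t ^ n • v := by
      intro n; induction n with
      | zero => simp
      | succ n ih => rw [pow_succ', End.mul_apply, ih, map_smul, h, smul_smul, pow_succ]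
    simp [aeval_monomial, this, smul_smul, eval_monomial, mul_comm]

lemma exists_basis [FiniteDimensional K V] (hd : finrank K V = d + 1) {A : End K V}
    {E : Fin (d + 1) → End K V} (h : IsPrimIdems A E) :
    ∃ (θ : Fin (d + 1) → K) (b : Basis (Fin (d + 1)) K V), Function.Injective θ ∧
      (∀ i, A (b i) = θ i • b i) ∧ ∀ i x, E i x = b.repr x i • b i := by
  obtain ⟨θ, hθ, he, hE⟩ := h
  choose v hv using fun i => (he i).exists_hasEigenvector
  have li : LinearIndependent K v := End.eigenvectors_linearIndependent' A θ hθ v hv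
  let b := basisOfLinearIndependentOfCardEqFinrank li (by simp [hd])
  have hb : ∀ i, b i = v i := fun i => by simp [b]
  have h1 : ∀ i, A (b i) = θ i • b i := fun i => by rw [hb]; exact (hv i).apply_eq_smul
  refine ⟨θ, b, hθ, h1, fun i x => ?_⟩
  have : E i = (b.coord i).smulRight (b i) := by
    refine b.ext fun j => ?_
    rw [hE, aeval_eig A _ _ (h1 j)]
    by_cases hij : i = j
    · subst hij
      rw [Lagrange.eval_basis_self hθ.injOn (Finset.mem_univ _)]; simp
    · rw [Lagrange.eval_basis_of_ne hij (Finset.mem_univ _)]; simp [Finsupp.single_apply, Ne.symm hij]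
  rw [this]; simp

def Hess (b : Basis (Fin (d + 1)) K V) (A : End K V) : Prop :=
  ∀ i j : Fin (d + 1), ((j : ℕ) + 1 < i → b.repr (A (b j)) i = 0) ∧
    ((j : ℕ) + 1 = i → b.repr (A (b j)) i ≠ 0)

lemma hess_of {E : Fin (d + 1) → End K V} {B : End K V} (b : Basis (Fin (d + 1)) K V)
    (hE : ∀ i x, E i x = b.repr x i • b i) (h : TriDiag E B) :
    Hess b B ∧ Hess (b.reindex Fin.revPerm) B := by
  have key : ∀ i j, E i * B * E j = 0 ↔ b.repr (B (b j)) i = 0 := by
    intro i j
    constructor
    · intro h0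
      have := LinearMap.congr_fun h0 (b j)
      simp only [End.mul_apply, hE, LinearMap.zero_apply] at this
      simpa [b.ne_zero] using this
    · intro h0
      ext x
      simp [End.mul_apply, hE, h0]
  refine ⟨fun i j => ⟨fun hij => (key i j).1 ((h i j).1 (Or.inr hij)),
    fun hij h0 => (h i j).2 (Or.inr hij) ((key i j).2 h0)⟩, fun i j => ⟨fun hij => ?_, fun hij h0 => ?_⟩⟩
  · simp only [Basis.reindex_apply, Basis.repr_reindex_apply, Fin.revPerm_symm, Fin.revPerm_apply]
    refine (key _ _).1 ((h _ _).1 (Or.inl ?_))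
    simp only [Fin.val_rev]; omega
  · simp only [Basis.reindex_apply, Basis.repr_reindex_apply, Fin.revPerm_symm, Fin.revPerm_apply] at h0
    refine (h _ _).2 (Or.inl ?_) ((key _ _).2 h0)
    simp only [Fin.val_rev]; omega

lemma poly_of_hess (b : Basis (Fin (d + 1)) K V) (A : End K V) (h : Hess b A) (r : ℕ) (x : V)
    (hx : ∀ i : Fin (d + 1), r < i → b.repr x i = 0) :
    ∃ p : K[X], p.degree ≤ r ∧ x = aeval A p (b 0) := by
  have step : ∀ r : ℕ, (∀ k : Fin (d + 1), (k : ℕ) ≤ r → ∃ p : K[X], p.degree ≤ r ∧ b k = aeval A p (b 0)) →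
      ∀ x : V, (∀ i : Fin (d + 1), r < i → b.repr x i = 0) →
      ∃ p : K[X], p.degree ≤ r ∧ x = aeval A p (b 0) := by
    intro r hk x hx
    choose! p hp1 hp2 using hk
    refine ⟨∑ k : Fin (d + 1), if (k : ℕ) ≤ r then b.repr x k • p k else 0, ?_, ?_⟩
    · refine (degree_sum_le _ _).trans (Finset.sup_le fun k _ => ?_)
      split_ifs with hk
      · exact (degree_smul_le _ _).trans (hp1 k hk)
      · simp
    · conv_lhs => rw [← b.sum_repr x]
      rw [map_sum, LinearMap.sum_apply]
      refine Finset.sum_congr rfl fun k _ => ?_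
      split_ifs with hk
      · rw [map_smul, LinearMap.smul_apply, ← hp2 k hk]
      · rw [hx k (by omega)]; simp
  refine step r ?_ x hx
  clear hx x
  induction r with
  | zero =>
    intro k hk
    refine ⟨1, by simp, ?_⟩
    have : k = 0 := Fin.ext (by simpa using hk)
    simp [this]
  | succ r ih =>
    intro k hk
    rcases Nat.lt_or_ge r k with hr | hr
    · have hkr : (k : ℕ) = r + 1 := by omega
      let j : Fin (d + 1) := ⟨r, by omega⟩
      have hc := (h k j).2 (by simp [j, hkr])
      obtain ⟨p, hp1, hp2⟩ := ih j le_rfl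
      obtain ⟨q, hq1, hq2⟩ := step r ih (A (b j) - b.repr (A (b j)) k • b k) (by
        intro i hi
        by_cases hik : i = k
        · subst hik; simp
        · have := (h i j).1 (by have : (i : ℕ) ≠ k := fun h => hik (Fin.ext h); simp [j]; omega)
          simp [this, Finsupp.single_apply, Ne.symm hik])
      refine ⟨(b.repr (A (b j)) k)⁻¹ • (X * p - q), ?_, ?_⟩
      · refine (degree_smul_le _ _).trans ((degree_sub_le _ _).trans (max_le ?_ ?_))
        · rw [mul_comm, degree_mul_X]; push_cast; gcongr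
        · exact hq1.trans (by exact_mod_cast Nat.le_succ r)
      · rw [map_smul, map_sub, map_mul, aeval_X, LinearMap.smul_apply, LinearMap.sub_apply,
          End.mul_apply, ← hp2, ← hq2, sub_sub_cancel, smul_smul, inv_mul_cancel₀ hc, one_smul]
    · obtain ⟨p, hp1, hp2⟩ := ih k hr
      exact ⟨p, hp1.trans (by exact_mod_cast Nat.le_succ r), hp2⟩

lemma repr_aeval (b : Basis (Fin (d + 1)) K V) (A : End K V) (θ : Fin (d + 1) → K)
    (hA : ∀ i, A (b i) = θ i • b i) (p : K[X]) (x : V) (j : Fin (d + 1)) :
    b.repr (aeval A p x) j = p.eval (θ j) * b.repr x j := by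
  have : (b.coord j) ∘ₗ (aeval A p : End K V) = p.eval (θ j) • b.coord j := by
    refine b.ext fun i => ?_
    by_cases h : i = j
    · subst h; simp [aeval_eig A _ _ (hA i)]
    · simp [aeval_eig A _ _ (hA i), Finsupp.single_apply, h]
  simpa using LinearMap.congr_fun this x

lemma zero_int (b b' : Basis (Fin (d + 1)) K V) (A : End K V) (θ : Fin (d + 1) → K)
    (hθ : Function.Injective θ) (hA : ∀ i, A (b i) = θ i • b i) (h : Hess b' A) (r : ℕ)
    (L : Finset (Fin (d + 1))) (hL : L.card + r ≤ d) (x : V)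
    (hx : ∀ i : Fin (d + 1), r < i → b'.repr x i = 0) (hx' : ∀ j, j ∉ L → b.repr x j = 0) :
    x = 0 := by
  have h0 : ∀ j, b.repr (b' 0) j ≠ 0 := by
    intro j hj
    obtain ⟨p, -, hp⟩ := poly_of_hess b' A h d (b j) (fun i hi => by omega)
    have := repr_aeval b A θ hA p (b' 0) j
    rw [← hp, hj] at this
    simp at this
  obtain ⟨p, hp1, hp2⟩ := poly_of_hess b' A h r x hx
  have hp0 : p = 0 := by
    refine eq_zero_of_degree_lt_of_eval_index_eq_zero (s := Lᶜ) (v := θ) hθ.injOn ?_ ?_
    · refine hp1.trans_lt ?_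
      rw [Finset.card_compl, Fintype.card_fin]
      exact_mod_cast (by omega : r < d + 1 - L.card)
    · intro j hj
      have := repr_aeval b A θ hA p (b' 0) j
      rw [← hp2, hx' j (by simpa using hj)] at this
      exact (mul_eq_zero.1 this.symm).resolve_right (h0 j)
  rw [hp2, hp0]; simp

end Pool.Agent.H21.Leonard
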