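import Mathlib

namespace Pool.Agent.H21.Leonard

variable {K V : Type*} [Field K] [AddCommGroup V] [Module K V] {d : ℕ}

def IsPrimIdems (A : Module.End K V) (E : Fin (d + 1) → Module.End K V) : Prop :=
  ∃ θ : Fin (d + 1) → K, Function.Injective θ ∧ (∀ i, A.HasEigenvalue (θ i)) ∧
    ∀ i, E i = Polynomial.aeval A (Lagrange.basis Finset.univ θ i)

def TriDiag (E : Fin (d + 1) → Module.End K V) (B : Module.End K V) : Prop :=
  ∀ i j : Fin (d + 1), ((i : ℕ) + 1 < j ∨ (j : ℕ) + 1 < i → E i * B * E j = 0) ∧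
    ((i : ℕ) + 1 = j ∨ (j : ℕ) + 1 = i → E i * B * E j ≠ 0)

def IsLeonardSystem (A A' : Module.End K V) (E E' : Fin (d + 1) → Module.End K V) : Prop :=
  IsPrimIdems A E ∧ IsPrimIdems A' E' ∧ TriDiag E A' ∧ TriDiag E' A

end Pool.Agent.H21.Leonard
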