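import Mathlib

namespace Pool.Agent.H21.Lim

open CategoryTheory CategoryTheory.Limits

theorem chain {R V : Type} [Ring R] [AddCommGroup V] [Module R V] (W : ℕ → Submodule R V)
    (hW : Monotone W) (U : Submodule R V) (h1 : ∀ n, W n ≤ U) (h2 : ∀ v ∈ U, ∃ n, v ∈ W n) :
    ∃ (F : ℕ ⥤ ModuleCat.{0} R) (c : Cocone F), Nonempty (IsColimit c) ∧
      c.pt = ModuleCat.of R U ∧ ∀ n, F.obj n = ModuleCat.of R (W n) := by
  let F : ℕ ⥤ ModuleCat.{0} R :=
    { obj n := ModuleCat.of R (W n)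
      map f := ModuleCat.ofHom (Submodule.inclusion (hW f.le)) }
  let c : Cocone F :=
    { pt := ModuleCat.of R U
      ι := { app n := ModuleCat.ofHom (Submodule.inclusion (h1 n)) } }
  refine ⟨F, c, ⟨isColimitOfReflects (forget (ModuleCat.{0} R))
    (Types.FilteredColimit.isColimitOf' _ _ ?_ ?_)⟩, rfl, fun _ => rfl⟩
  · rintro ⟨v, hv⟩
    obtain ⟨n, hn⟩ := h2 v hv
    exact ⟨n, ⟨v, hn⟩, rfl⟩
  · intro i x y h
    obtain rfl : x = y := Submodule.inclusion_injective (h1 i) h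
    exact ⟨i, 𝟙 i, rfl⟩

abbrev V : Type := Option (ℕ × ℕ) →₀ ZMod 2

def R : Subring (Module.End (ZMod 2) V) where
  carrier := {r | ∀ (S : Set (ℕ × ℕ)) (v : V), (∀ x ∉ S, v (some x) = 0) →
    ∀ x ∉ S, r v (some x) = 0}
  mul_mem' ha hb S v hv := ha S _ (hb S v hv)
  one_mem' _ _ hv := hv
  add_mem' ha hb S v hv x hx := by simp [ha S v hv x hx, hb S v hv x hx]
  zero_mem' _ _ _ _ _ := rfl
  neg_mem' ha S v hv x hx := by simp [ha S v hv x hx]

def W (S : Set (ℕ × ℕ)) : Submodule R V where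
  carrier := {v | ∀ x ∉ S, v (some x) = 0}
  add_mem' ha hb x hx := by simp [ha x hx, hb x hx]
  zero_mem' _ _ := rfl
  smul_mem' r v hv := r.2 S v hv

noncomputable def D (x : Option (ℕ × ℕ)) : R :=
  ⟨(Finsupp.lsingle none).comp (Finsupp.lapply x), fun _ _ _ _ _ => by simp⟩

theorem D_smul (x : Option (ℕ × ℕ)) (v : V) : D x • v = Finsupp.single none (v x) := rfl

theorem z2 (a : ZMod 2) : a = 0 ∨ a = 1 := by revert a; decide

variable {M : Type} [AddCommGroup M] [Module R M]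

theorem top (φ : M →ₗ[R] V) (hφ : Function.Injective φ) (m : M) (hm : m ≠ 0) :
    ∃ r : R, φ (r • m) = Finsupp.single none 1 := by
  have : φ m ≠ 0 := fun h => hm (hφ (by rw [h, map_zero]))
  obtain ⟨x, hx⟩ := DFunLike.ne_iff.1 this
  exact ⟨D x, by rw [map_smul, D_smul, (z2 _).resolve_left hx]⟩

theorem rigid (φ : M →ₗ[R] V) (hφ : Function.Injective φ) (ψ : M →ₗ[R] V) : ψ = 0 ∨ ψ = φ := by
  by_cases h : ψ = 0
  · exact .inl h
  obtain ⟨m, hm⟩ := DFunLike.ne_iff.1 h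
  obtain ⟨x, hx⟩ := DFunLike.ne_iff.1 hm
  have key : ∀ m m' x x', φ m x = φ m' x' → ψ m x = ψ m' x' := fun m m' x x' h => by
    have : D x • m = D x' • m' := hφ (by rw [map_smul, map_smul, D_smul, D_smul, h])
    have := congrArg ψ this
    rw [map_smul, map_smul, D_smul, D_smul] at this
    exact Finsupp.single_injective _ this
  have h0 : ∀ m x, φ m x = 0 → ψ m x = 0 := fun m x h => by
    simpa using key m 0 x x (by simpa using h)
  have h1 : φ m x = 1 := (z2 _).resolve_left fun h => hx (h0 _ _ h)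
  refine .inr (LinearMap.ext fun m' => Finsupp.ext fun x' => ?_)
  rcases z2 (φ m' x') with h | h
  · rw [h0 _ _ h, h]
  · rw [key m' m x' x (h.trans h1.symm), h]
    exact (z2 _).resolve_left hx

def A (n m : ℕ) : Set (ℕ × ℕ) := {x | x.1 = n ∨ (x.1 < n ∧ x.2 ≤ m)}

def C : Set (ModuleCat.{0} R) := {M | ∃ φ : M →ₗ[R] V, Function.Injective φ ∧
  (φ = 0 ∨ ∃ n m, LinearMap.range φ = W (A n m))}

theorem W_mono {S T : Set (ℕ × ℕ)} (h : S ⊆ T) : W S ≤ W T :=
  fun _ hv x hx => hv x fun h' => hx (h h')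

theorem single_mem {S : Set (ℕ × ℕ)} {x : ℕ × ℕ} :
    Finsupp.single (some x) (1 : ZMod 2) ∈ W S ↔ x ∈ S := by
  refine ⟨fun h => by_contra fun hx => ?_, fun h y hy => ?_⟩
  · simpa using h x hx
  · rw [Finsupp.single_eq_of_ne]
    rintro h'
    obtain rfl := Option.some.inj h'
    exact hy h

theorem bound (v : V) (f : ℕ × ℕ → ℕ) : ∃ m, ∀ x, m < f x → v (some x) = 0 := by
  refine ⟨v.support.sup fun o => o.elim 0 f, fun x hx => by_contra fun h => ?_⟩
  exact absurd (Finset.le_sup (f := fun o => o.elim 0 f) (Finsupp.mem_support_iff.2 h)) (not_le.2 hx)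

variable {ι : Type} [Preorder ι] [IsDirected ι (· ≤ ·)] [Nonempty ι] {F : ι ⥤ ModuleCat.{0} R}
  {c : Cocone F}

theorem two (hc : IsColimit c) (a b : c.pt) : ∃ i x y, c.ι.app i x = a ∧ c.ι.app i y = b := by
  obtain ⟨i, x, rfl⟩ := Concrete.isColimit_exists_rep F hc a
  obtain ⟨j, f, y, rfl⟩ := Concrete.exists_hom_ι_eq_of_isColimit F hc b i
  exact ⟨j, F.map f x, y, ConcreteCategory.congr_hom (c.w f) x, rfl⟩

theorem uniform (hc : IsColimit c) (hF : ∀ i, F.obj i ∈ C) (a b : c.pt) (ha : a ≠ 0) (hb : b ≠ 0) :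
    ∃ r s : R, r • a = s • b ∧ r • a ≠ 0 := by
  obtain ⟨i, x, y, rfl, rfl⟩ := two hc a b
  obtain ⟨φ, hφ, -⟩ := hF i
  obtain ⟨r, hr⟩ := top φ hφ x (by rintro rfl; exact ha (map_zero _))
  obtain ⟨s, hs⟩ := top φ hφ y (by rintro rfl; exact hb (map_zero _))
  have e1 : ∀ (r : R) x, c.ι.app i (r • x) = r • (c.ι.app i x : c.pt) := fun r x =>
    map_smul (c.ι.app i).hom r x
  refine ⟨r, s, by rw [← e1, ← e1, hφ (hr.trans hs.symm)], fun h => ?_⟩
  rw [← e1] at h
  obtain ⟨k, f, g, hk⟩ := Concrete.isColimit_exists_of_rep_eq F hc (r • x) (0 : F.obj i)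
    (h.trans (map_zero (c.ι.app i).hom).symm)
  obtain ⟨φ', hφ', -⟩ := hF k
  have hk' : (F.map f).hom (r • x) = 0 := hk.trans (map_zero (F.map g).hom)
  rcases rigid φ hφ (φ'.comp (F.map f).hom) with h1 | h1
  · have h2 : (F.map f).hom x = 0 := hφ' (by
      rw [map_zero]; exact LinearMap.congr_fun h1 x)
    apply ha
    rw [← ConcreteCategory.congr_hom (c.w f) x]
    change (c.ι.app k).hom ((F.map f).hom x) = 0
    rw [h2, map_zero]
  · have := LinearMap.congr_fun h1 (r • x)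
    rw [LinearMap.comp_apply, hk', map_zero, hr] at this
    exact one_ne_zero (Finsupp.single_eq_zero.1 this.symm)

theorem not_lim (hc : IsColimit c) (hF : ∀ i, F.obj i ∈ C) (θ : c.pt →ₗ[R] V)
    (hθ : Function.Surjective θ) : False := by
  have key : ∀ i x p, θ (c.ι.app i x) = Finsupp.single (some p) 1 →
      ∃ n m, LinearMap.range (θ.comp (c.ι.app i).hom) = W (A n m) := fun i x p hx => by
    obtain ⟨φ, hφ, h⟩ := hF i
    have h0 : θ.comp (c.ι.app i).hom ≠ 0 := fun h0 =>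
      one_ne_zero (Finsupp.single_eq_zero.1 (hx.symm.trans (LinearMap.congr_fun h0 x)))
    have := (rigid φ hφ _).resolve_left h0
    rw [this] at h0 ⊢
    exact h.resolve_left h0
  obtain ⟨a, ha⟩ := hθ (Finsupp.single (some (0, 0)) 1)
  obtain ⟨i, x, rfl⟩ := Concrete.isColimit_exists_rep F hc a
  obtain ⟨n, m, h1⟩ := key i x _ ha
  obtain ⟨b, hb⟩ := hθ (Finsupp.single (some (n + 1, 0)) 1)
  obtain ⟨j, f, y, rfl⟩ := Concrete.exists_hom_ι_eq_of_isColimit F hc b i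
  obtain ⟨n', m', h2⟩ := key j y _ hb
  have h3 : (n + 1, 0) ∈ A n' m' := single_mem.1 (h2 ▸ ⟨y, hb⟩)
  have h4 : (n, m' + 1) ∈ A n' m' := by
    have : Finsupp.single (some (n, m' + 1)) (1 : ZMod 2) ∈ W (A n m) := single_mem.2 (.inl rfl)
    rw [← h1] at this
    obtain ⟨z, hz⟩ := this
    rw [← single_mem, ← h2]
    exact ⟨F.map f z, (congrArg θ (ConcreteCategory.congr_hom (c.w f) z)).trans hz⟩
  simp only [A, Set.mem_setOf_eq] at h3 h4
  omega

end Pool.Agent.H21.Lim
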