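import Mathlib

namespace Pool.Agent.H21.Loop

def IsLoop (Q : Type) [MulOneClass Q] : Prop :=
  (∀ a : Q, Function.Bijective (fun x : Q => a * x)) ∧ ∀ a : Q, Function.Bijective (fun x : Q => x * a)

def Mlt (Q : Type) [MulOneClass Q] : Subgroup (Equiv.Perm Q) :=
  Subgroup.closure {σ | ∃ a : Q, ((⇑σ) = fun x : Q => a * x) ∨ ((⇑σ) = fun x : Q => x * a)}

inductive IsPoly {Q : Type} [MulOneClass Q] {ι : Type} : ((ι → Q) → Q) → Prop
  | var (i : ι) : IsPoly (fun x => x i)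
  | const (q : Q) : IsPoly (fun _ => q)
  | mul {f h : (ι → Q) → Q} : IsPoly f → IsPoly h → IsPoly (fun x => f x * h x)
  | ldiv {f h r : (ι → Q) → Q} : IsPoly f → IsPoly h → (∀ x, f x * r x = h x) → IsPoly r
  | rdiv {f h r : (ι → Q) → Q} : IsPoly f → IsPoly h → (∀ x, r x * f x = h x) → IsPoly r

def Supernilpotent (Q : Type) [MulOneClass Q] (k : ℕ) : Prop :=
  ∀ n, k < n → ∀ p : (Fin n → Q) → Q, IsPoly p → (∀ u i, u i = 1 → p u = 1) → ∀ u w, p u = p w

end Pool.Agent.H21.Loop
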