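import Pool.Agent.H21.Cube

namespace Pool.Agent.H21.Cube

structure LD (G Q : Type) [Group G] [MulAction G Q] where
  e : Q
  T : Bool → Q → G
  sw : ∀ b x y, T b x • y = T (!b) y • x
  un : ∀ b x, T b x • e = x
  ff : ∀ g h : G, (∀ x : Q, g • x = h • x) → g = h

variable {G Q : Type} [Group G] [MulAction G Q]

inductive Pol (D : LD G Q) {n : ℕ} : ((Fin n → Bool) → Q) → Prop
  | const (q : Q) : Pol D (fun _ => q)
  | jun (i : Fin n) (f : Bool → Q) : Pol D (fun s => f (s i))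
  | mul (b : Bool) {p q} : Pol D p → Pol D q → Pol D (fun s => D.T b (p s) • q s)
  | div (b : Bool) {p q} : Pol D p → Pol D q → Pol D (fun s => (D.T b (p s))⁻¹ • q s)

lemma cen_smul {a : G} (ha : a ∈ Subgroup.center G) (g : G) (x : Q) : g • a • x = a • g • x := by
  rw [smul_smul, Subgroup.mem_center_iff.1 ha g, mul_smul]

lemma LD.cen_eq (D : LD G Q) {a a' : G} (ha : a ∈ Subgroup.center G) (ha' : a' ∈ Subgroup.center G)
    (h : a • D.e = a' • D.e) : a = a' := by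
  refine D.ff _ _ fun x => ?_
  rw [← D.un true x, ← cen_smul ha, ← cen_smul ha', h]

lemma LD.T_cen (D : LD G Q) {a : G} (ha : a ∈ Subgroup.center G) (b : Bool) (x : Q) :
    D.T b (a • x) = a * D.T b x := by
  refine D.ff _ _ fun y => ?_
  rw [D.sw, cen_smul ha, mul_smul, D.sw b]

def LD.S1 (D : LD G Q) : Subgroup G where
  carrier := {g | ∃ a ∈ Subgroup.center G, g • D.e = a • D.e}
  one_mem' := ⟨1, Subgroup.one_mem _, rfl⟩
  mul_mem' := by
    rintro g h ⟨a, ha, h1⟩ ⟨b, hb, h2⟩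
    exact ⟨b * a, Subgroup.mul_mem _ hb ha, by rw [mul_smul, h2, cen_smul hb, h1, mul_smul]⟩
  inv_mem' := by
    rintro g ⟨a, ha, h1⟩
    refine ⟨a⁻¹, Subgroup.inv_mem _ ha, ?_⟩
    rw [inv_smul_eq_iff, cen_smul (Subgroup.inv_mem _ ha), h1, inv_smul_smul]

open Classical in
noncomputable def LD.psi (D : LD G Q) (g : G) : G :=
  if h : g ∈ D.S1 then Classical.choose h else 1

lemma LD.psi_spec (D : LD G Q) {g : G} (h : g ∈ D.S1) :
    D.psi g ∈ Subgroup.center G ∧ g • D.e = D.psi g • D.e := by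
  rw [LD.psi, dif_pos h]; exact Classical.choose_spec h

lemma LD.psi_eq (D : LD G Q) {g a : G} (ha : a ∈ Subgroup.center G) (h : g • D.e = a • D.e) :
    D.psi g = a :=
  D.cen_eq (D.psi_spec ⟨a, ha, h⟩).1 ha ((D.psi_spec ⟨a, ha, h⟩).2.symm.trans h)

lemma LD.psi_mul (D : LD G Q) {x y : G} (hx : x ∈ D.S1) (hy : y ∈ D.S1) :
    D.psi (x⁻¹ * y) = (D.psi x)⁻¹ * D.psi y := by
  obtain ⟨x1, x2⟩ := D.psi_spec hx
  obtain ⟨y1, y2⟩ := D.psi_spec hy
  refine D.psi_eq (Subgroup.mul_mem _ (Subgroup.inv_mem _ x1) y1) ?_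
  rw [mul_smul, inv_smul_eq_iff, y2, cen_smul (Subgroup.mul_mem _ (Subgroup.inv_mem _ x1) y1), x2,
    ← mul_smul, mul_assoc, ← Subgroup.mem_center_iff.1 y1, inv_mul_cancel_left]

lemma LD.psi_deg (D : LD G Q) {c d n : ℕ} (hc : (⊤ : Subgroup G).lowerCentralSeries c = ⊥)
    (W : (Fin n → Bool) → G) (hW : InP (Phi G d) n 0 W) (hS : ∀ s, W s ∈ D.S1) :
    InP (Cen G (d * 2 ^ c)) n 0 (fun s => D.psi (W s)) := by
  refine InP.mapS D.S1 D.psi (fun x hx y hy => D.psi_mul hx hy) ?_ n 0 W hS hW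
  intro k x hx hk
  refine ⟨(D.psi_spec hx).1, fun h => ?_⟩
  rw [phi_one hc h hk]
  exact D.psi_eq (Subgroup.one_mem _) rfl

def KK (G Q : Type) [Group G] [MulAction G Q] : Subgroup G where
  carrier := {g | ∀ x : Q, ∃ a ∈ Subgroup.center G, g • x = a • x}
  one_mem' := fun _ => ⟨1, Subgroup.one_mem _, rfl⟩
  mul_mem' := by
    intro g h hg hh x
    obtain ⟨a, ha, h1⟩ := hg x
    obtain ⟨b, hb, h2⟩ := hh x
    exact ⟨b * a, Subgroup.mul_mem _ hb ha, by rw [mul_smul, h2, cen_smul hb, h1, mul_smul]⟩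
  inv_mem' := by
    intro g hg x
    obtain ⟨a, ha, h1⟩ := hg x
    refine ⟨a⁻¹, Subgroup.inv_mem _ ha, ?_⟩
    rw [inv_smul_eq_iff, cen_smul (Subgroup.inv_mem _ ha), h1, inv_smul_smul]

lemma LD.conj_mem (D : LD G Q) {v : G} (hv : v ∈ KK G Q) (h : G) : h⁻¹ * v * h ∈ D.S1 := by
  obtain ⟨a, ha, h1⟩ := hv (h • D.e)
  exact ⟨a, ha, by rw [mul_smul, mul_smul, h1, cen_smul ha, inv_smul_smul]⟩

lemma LD.lemT (D : LD G Q) {c d n : ℕ} (hc : (⊤ : Subgroup G).lowerCentralSeries c = ⊥) (b : Bool)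
    (F M : (Fin n → Bool) → G) (hF : InP (Phi G d) n 0 F) (hM : InP (Phi G d) n 0 M)
    (hK : ∀ s, (M s)⁻¹ * D.T b (F s • D.e) ∈ KK G Q) :
    InP (Phi G (d * 2 ^ c)) n 0 (fun s => (M s)⁻¹ * D.T b (F s • D.e)) := by
  have P := (phi_filt (G := G) d).inP n
  refine InP.joint (N' := Cen G (d * 2 ^ c)) (KK G Q)
    (fun x g => D.psi ((D.T (!b) x)⁻¹ * g * D.T (!b) x)) ?_ ?_ n 0 _ hK ?_
  · intro x g hg h hh
    rw [← D.psi_mul (D.conj_mem hg _) (D.conj_mem hh _)]
    congr 1; group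
  · intro k g hg h
    refine phi_of_triv fun hk => D.ff _ _ fun x => ?_
    have h1 := (D.psi_spec (D.conj_mem hg (D.T (!b) x))).2
    rw [(h x).2 hk, mul_smul, mul_smul, D.un, inv_smul_eq_iff, one_smul, D.un] at h1
    rw [h1, one_smul]
  · intro x
    have hc1 : ∀ g : G, InP (Phi G d) n 0 (fun _ => g) := fun g =>
      InP.const (phi_filt d).one n 0 g (fun t ht => absurd ht (by omega))
    have hW := P.mul _ _ _ (P.mul _ _ _ (P.mul _ _ _ (hc1 (D.T (!b) x)⁻¹) (P.inv _ _ hM))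
      (hc1 (D.T (!b) x))) hF
    have key : ∀ s, ((D.T (!b) x)⁻¹ * (M s)⁻¹ * D.T (!b) x * F s) • D.e =
        ((D.T (!b) x)⁻¹ * ((M s)⁻¹ * D.T b (F s • D.e)) * D.T (!b) x) • D.e := by
      intro s
      simp only [mul_smul, D.un]
      rw [D.sw b]
    have hS : ∀ s, (D.T (!b) x)⁻¹ * (M s)⁻¹ * D.T (!b) x * F s ∈ D.S1 := by
      intro s
      obtain ⟨a, ha, h1⟩ := D.conj_mem (hK s) (D.T (!b) x)
      exact ⟨a, ha, (key s).trans h1⟩
    have := D.psi_deg hc _ hW hS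
    convert this using 2 with s
    have h2 := D.psi_spec (hS s)
    exact D.psi_eq h2.1 ((key s).symm.trans h2.2)

lemma LD.lemW (D : LD G Q) {c e n : ℕ} (hc : (⊤ : Subgroup G).lowerCentralSeries c = ⊥)
    (v H : (Fin n → Bool) → G) (hv : InP (Phi G e) n 0 v) (hH : InP (Phi G e) n 0 H)
    (hK : ∀ s, v s ∈ KK G Q) :
    ∃ γ, InP (Cen G (e * 2 ^ c)) n 0 γ ∧ ∀ s, v s • H s • D.e = γ s • H s • D.e := by
  have P := (phi_filt (G := G) e).inP n
  have hW := P.mul _ _ _ (P.mul _ _ _ (P.inv _ _ hH) hv) hH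
  refine ⟨_, D.psi_deg hc _ hW (fun s => D.conj_mem (hK s) _), fun s => ?_⟩
  obtain ⟨h1, h2⟩ := D.psi_spec (D.conj_mem (hK s) (H s))
  rw [mul_smul, mul_smul, inv_smul_eq_iff, cen_smul h1] at h2
  exact h2

lemma LD.step (D : LD G Q) {c d n : ℕ} (hd : 1 ≤ d) (hc : (⊤ : Subgroup G).lowerCentralSeries c = ⊥)
    (ih : ∀ p, Pol D (n := n) p → ∀ b, ∃ M, InP (Phi G d) n 0 M ∧
      ∀ s (x : Q), (∃ a ∈ Subgroup.center G, p s = a • x) → (M s)⁻¹ * D.T b x ∈ KK G Q)
    (p : (Fin n → Bool) → Q) (hp : Pol D p) (b : Bool) :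
    InP (Phi G (d * 2 ^ c * 2 ^ c)) n 0 (fun s => D.T b (p s)) := by
  have P := (phi_filt (G := G) d).inP n
  have Pe := (phi_filt (G := G) (d * 2 ^ c)).inP n
  have C := (cen_filt (G := G) (d * 2 ^ c * 2 ^ c)).inP n
  have de : d ≤ d * 2 ^ c := Nat.le_mul_of_pos_right d (by positivity)
  have eD : d * 2 ^ c ≤ d * 2 ^ c * 2 ^ c := Nat.le_mul_of_pos_right _ (by positivity)
  have up : ∀ F, InP (Phi G d) n 0 F → InP (Phi G (d * 2 ^ c)) n 0 F :=
    fun F h => h.mono fun k x => phi_mono de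
  have cv : ∀ α, InP (Cen G (d * 2 ^ c * 2 ^ c)) n 0 α → ∀ s, α s ∈ Subgroup.center G :=
    fun α h s => (InP.val (cen_filt _) n 0 α h s).1
  have main : ∀ p, Pol D (n := n) p → ∃ F α, InP (Phi G d) n 0 F ∧
      InP (Cen G (d * 2 ^ c * 2 ^ c)) n 0 α ∧ ∀ s, p s = α s • F s • D.e := by
    intro p hp
    induction hp with
    | const q =>
      exact ⟨fun _ => D.T true q, 1, InP.const (phi_filt d).one n 0 _ (fun t ht => absurd ht (by omega)),
        C.one 0, fun s => by simp [D.un]⟩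
    | jun i f =>
      refine ⟨fun s => D.T true (f (s i)), 1, InP.junta (phi_filt d).one 0
        (fun g => phi_of_triv (by omega)) (fun g => phi_of_triv (by omega))
        (fun b => D.T true (f b)) n i, C.one 0, fun s => by simp [D.un]⟩
    | @mul b p q hp hq ihp ihq =>
      obtain ⟨F, α, hF, hα, e1⟩ := ihp
      obtain ⟨H, β, hH, hβ, e2⟩ := ihq
      obtain ⟨M, hM, hK⟩ := ih p hp b
      have hK' := fun s => hK s (F s • D.e) ⟨α s, cv α hα s, e1 s⟩
      obtain ⟨γ, hγ, e3⟩ := D.lemW hc _ H (D.lemT hc b F M hF hM hK') (up _ hH) hK'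
      refine ⟨M * H, α * β * γ, P.mul _ _ _ hM hH, C.mul _ _ _ (C.mul _ _ _ hα hβ) hγ, fun s => ?_⟩
      have e4 := e3 s
      rw [mul_smul, inv_smul_eq_iff, cen_smul (cv γ hγ s)] at e4
      simp only [Pi.mul_apply, mul_smul]
      rw [e1, e2, D.T_cen (cv α hα s), mul_smul, cen_smul (cv β hβ s), e4]
    | @div b p q hp hq ihp ihq =>
      obtain ⟨F, α, hF, hα, e1⟩ := ihp
      obtain ⟨H, β, hH, hβ, e2⟩ := ihq
      obtain ⟨M, hM, hK⟩ := ih p hp b
      have hK' := fun s => hK s (F s • D.e) ⟨α s, cv α hα s, e1 s⟩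
      have hH' := P.mul _ _ _ (P.inv _ _ hM) hH
      obtain ⟨γ, hγ, e3⟩ := D.lemW hc _ _ (Pe.inv _ _ (D.lemT hc b F M hF hM hK')) (up _ hH')
        (fun s => Subgroup.inv_mem _ (hK' s))
      refine ⟨M⁻¹ * H, α⁻¹ * β * γ, hH', C.mul _ _ _ (C.mul _ _ _ (C.inv _ _ hα) hβ) hγ, fun s => ?_⟩
      have e4 := e3 s
      simp only [Pi.mul_apply, Pi.inv_apply, mul_smul, mul_inv_rev, inv_inv, smul_inv_smul] at e4 ⊢
      rw [e1, e2, D.T_cen (cv α hα s), mul_inv_rev, mul_smul,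
        cen_smul (Subgroup.inv_mem _ (cv α hα s)), cen_smul (cv β hβ s), e4]
  obtain ⟨F, α, hF, hα, e1⟩ := main p hp
  obtain ⟨M, hM, hK⟩ := ih p hp b
  have hK' := fun s => hK s (F s • D.e) ⟨α s, cv α hα s, e1 s⟩
  have h1 := Pe.mul _ _ _ (up _ hM) (D.lemT hc b F M hF hM hK')
  have h2 := ((phi_filt (G := G) (d * 2 ^ c * 2 ^ c)).inP n).mul _ _ _
    (hα.mono fun k x hx => phi_of_triv hx.2) (h1.mono fun k x => phi_mono eD)
  convert h2 using 1
  funext s
  simp [e1, D.T_cen (cv α hα s)]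

abbrev QQ (G Q : Type) [Group G] [MulAction G Q] :=
  Quotient (MulAction.orbitRel (Subgroup.center G) Q)

lemma mk_eq {x y : Q} : (Quotient.mk _ x : QQ G Q) = Quotient.mk _ y ↔
    ∃ a ∈ Subgroup.center G, x = a • y := by
  rw [Quotient.eq, MulAction.orbitRel_apply, MulAction.mem_orbit_iff]
  constructor
  · rintro ⟨a, rfl⟩; exact ⟨a, a.2, rfl⟩
  · rintro ⟨a, ha, rfl⟩; exact ⟨⟨a, ha⟩, rfl⟩

def act (g : G) : QQ G Q → QQ G Q :=
  Quotient.lift (fun x => Quotient.mk _ (g • x)) (by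
    intro x y h
    obtain ⟨a, ha, rfl⟩ := mk_eq.1 (Quotient.sound h : (Quotient.mk _ x : QQ G Q) = _)
    exact mk_eq.2 ⟨a, ha, cen_smul ha _ _⟩)

def rho (G Q : Type) [Group G] [MulAction G Q] : G →* Equiv.Perm (QQ G Q) where
  toFun g := ⟨act g, act g⁻¹, fun x => by induction x using Quotient.inductionOn; simp [act],
    fun x => by induction x using Quotient.inductionOn; simp [act]⟩
  map_one' := by ext x; induction x using Quotient.inductionOn; simp [act]
  map_mul' := fun g h => by ext x; induction x using Quotient.inductionOn; simp [act, mul_smul]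

lemma rho_mk (g : G) (x : Q) : (rho G Q).rangeRestrict g • (Quotient.mk _ x : QQ G Q) =
    Quotient.mk _ (g • x) := rfl

lemma rho_cen {a : G} (ha : a ∈ Subgroup.center G) : (rho G Q).rangeRestrict a = 1 := by
  ext x; induction x using Quotient.inductionOn
  exact mk_eq.2 ⟨a, ha, rfl⟩

def LD.quot (D : LD G Q) : LD (rho G Q).range (QQ G Q) where
  e := Quotient.mk _ D.e
  T b := Quotient.lift (fun x => (rho G Q).rangeRestrict (D.T b x)) (by
    intro x y h
    obtain ⟨a, ha, rfl⟩ := mk_eq.1 (Quotient.sound h : (Quotient.mk _ x : QQ G Q) = _)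
    rw [D.T_cen ha, map_mul, rho_cen ha, one_mul])
  sw := by
    intro b x y
    induction x using Quotient.inductionOn
    induction y using Quotient.inductionOn
    simp only [Quotient.lift_mk, rho_mk, D.sw b]
  un := by
    intro b x
    induction x using Quotient.inductionOn
    simp only [Quotient.lift_mk, rho_mk, D.un]
  ff := fun g h H => Subtype.ext (Equiv.ext H)

lemma LD.pol_quot (D : LD G Q) {n : ℕ} {p : (Fin n → Bool) → Q} (hp : Pol D p) :
    Pol D.quot (fun s => Quotient.mk _ (p s)) := by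
  induction hp with
  | const q => exact Pol.const _
  | jun i f => exact Pol.jun i (fun b => Quotient.mk _ (f b))
  | mul b _ _ h1 h2 => exact Pol.mul b h1 h2
  | div b _ _ h1 h2 =>
    have := Pol.div b h1 h2
    convert this using 2 with s
    rw [← rho_mk, map_inv]; rfl

def dd : ℕ → ℕ
  | 0 => 1
  | c + 1 => dd c * 2 ^ (c + 1) * 2 ^ (c + 1)

lemma dd_pos : ∀ c, 1 ≤ dd c
  | 0 => le_rfl
  | c + 1 => Nat.mul_pos (Nat.mul_pos (dd_pos c) (by positivity)) (by positivity)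

theorem main_cube : ∀ (c : ℕ) (G Q : Type) [Group G] [MulAction G Q] (D : LD G Q),
    (⊤ : Subgroup G).lowerCentralSeries c = ⊥ → ∀ (n : ℕ) (p : (Fin n → Bool) → Q), Pol D p →
    ∀ b, InP (Phi G (dd c)) n 0 (fun s => D.T b (p s))
  | 0, G, Q, _, _, D, hc, n, p, _, b => by
    have : (fun s => D.T b (p s)) = 1 := by
      funext s
      have : D.T b (p s) ∈ (⊥ : Subgroup G) := by rw [← hc]; trivial
      exact this
    rw [this]
    exact ((phi_filt _).inP n).one 0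
  | c + 1, G, Q, _, _, D, hc, n, p, hp, b => by
    refine D.step (dd_pos c) hc ?_ p hp b
    intro p hp b
    have hs := (rho G Q).rangeRestrict_surjective
    have hc' : (⊤ : Subgroup (rho G Q).range).lowerCentralSeries c = ⊥ := by
      rw [← Subgroup.map_top_of_surjective _ hs, ← Subgroup.map_lowerCentralSeries, eq_bot_iff]
      rintro _ ⟨x, hx, rfl⟩
      refine rho_cen (Subgroup.mem_center_iff.2 fun g => ?_)
      have h1 := Subgroup.commutator_mem_commutator hx (Subgroup.mem_top g)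
      rw [← Subgroup.lowerCentralSeries_succ, hc, Subgroup.mem_bot,
        commutatorElement_eq_one_iff_mul_comm] at h1
      exact h1.symm
    have h1 := main_cube c _ _ D.quot hc' n _ (D.pol_quot hp) b
    obtain ⟨M, hM, e⟩ := InP.lift _ (phi_lift _ hs (dd_pos c)) n 0 _ h1
    refine ⟨M, hM, fun s x hx y => ?_⟩
    have e2 : (rho G Q).rangeRestrict ((M s)⁻¹ * D.T b x) = 1 := by
      rw [map_mul, map_inv, e, mk_eq.2 hx]
      exact inv_mul_cancel _
    rw [← mk_eq, ← rho_mk, e2, one_smul]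

end Pool.Agent.H21.Cube
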