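import Pool.Agent.H21.LoopSN
import Pool.Agent.H21.LoopDefs

namespace Pool.Agent.H21.Loop

open Pool.Agent.H21.Cube

variable {Q : Type} [MulOneClass Q]

noncomputable def toLD (h : IsLoop Q) : LD (Mlt Q) Q where
  e := 1
  T b x := match b with
    | true => ⟨Equiv.ofBijective _ (h.1 x), Subgroup.subset_closure ⟨x, Or.inl rfl⟩⟩
    | false => ⟨Equiv.ofBijective _ (h.2 x), Subgroup.subset_closure ⟨x, Or.inr rfl⟩⟩
  sw := by intro b x y; cases b <;> rfl
  un := by
    intro b x; cases b
    · exact one_mul x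
    · exact mul_one x
  ff := fun g h H => Subtype.ext (Equiv.ext H)

lemma T_true (h : IsLoop Q) (x y : Q) : (toLD h).T true x • y = x * y := rfl
lemma T_false (h : IsLoop Q) (x y : Q) : (toLD h).T false x • y = y * x := rfl

lemma pol_mul (h : IsLoop Q) {n : ℕ} {f g : (Fin n → Bool) → Q} (hf : Pol (toLD h) f)
    (hg : Pol (toLD h) g) : Pol (toLD h) (fun s => f s * g s) := Pol.mul true hf hg

lemma pol_ldiv (h : IsLoop Q) {n : ℕ} {f g r : (Fin n → Bool) → Q} (hf : Pol (toLD h) f)
    (hg : Pol (toLD h) g) (e : ∀ s, f s * r s = g s) : Pol (toLD h) r := by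
  convert Pol.div true hf hg using 2 with s
  rw [eq_inv_smul_iff, T_true, e]

lemma pol_rdiv (h : IsLoop Q) {n : ℕ} {f g r : (Fin n → Bool) → Q} (hf : Pol (toLD h) f)
    (hg : Pol (toLD h) g) (e : ∀ s, r s * f s = g s) : Pol (toLD h) r := by
  convert Pol.div false hf hg using 2 with s
  rw [eq_inv_smul_iff, T_false, e]

lemma cube_tc (h : IsLoop Q) {c : ℕ} (hc : Subgroup.upperCentralSeries (Mlt Q) c = ⊤) {n : ℕ}
    (hn : dd c * 2 ^ c ≤ n) (p : (Fin (n + 1) → Bool) → Q) (hp : Pol (toLD h) p)
    (e : ∀ s : Fin n → Bool, s ≠ (fun _ => true) → p (Fin.cons false s) = p (Fin.cons true s)) :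
    p (Fin.cons false fun _ => true) = p (Fin.cons true fun _ => true) := by
  rw [← Subgroup.lowerCentralSeries_eq_bot_iff_upperCentralSeries_eq_top] at hc
  have h1 := (main_cube c _ _ (toLD h) hc _ p hp true).2
  have h2 := InP.top n _ _ h1 (fun s hs => by simp [face, e s hs])
  have h3 := phi_one hc (by omega) h2
  simp only [Pi.mul_apply, Pi.inv_apply, face, inv_mul_eq_one] at h3
  have h4 := congrArg (fun g : Mlt Q => g • (1 : Q)) h3
  simpa [T_true] using h4

lemma cube_abs (h : IsLoop Q) {c : ℕ} (hc : Subgroup.upperCentralSeries (Mlt Q) c = ⊤) {n : ℕ}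
    (hn : dd c * 2 ^ c < n) (p : (Fin n → Bool) → Q) (hp : Pol (toLD h) p)
    (e : ∀ s : Fin n → Bool, s ≠ (fun _ => true) → p s = 1) : p (fun _ => true) = 1 := by
  rw [← Subgroup.lowerCentralSeries_eq_bot_iff_upperCentralSeries_eq_top] at hc
  have h1 := main_cube c _ _ (toLD h) hc _ p hp true
  have h2 := InP.top n _ _ h1 (fun s hs => (toLD h).ff _ _ fun x => by simp [e s hs, T_true])
  have h3 := phi_one hc (by omega) h2
  have h4 := congrArg (fun g : Mlt Q => g • (1 : Q)) h3
  simpa [T_true] using h4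

lemma supernil (h : IsLoop Q) {c : ℕ} (hc : Subgroup.upperCentralSeries (Mlt Q) c = ⊤) :
    Supernilpotent Q (dd c * 2 ^ c) := by
  intro n hn p hp habs
  suffices H : ∀ u, p u = 1 by intro u w; rw [H, H]
  intro u
  have hP : Pol (toLD h) (fun s : Fin n → Bool => p (fun i => if s i then u i else 1)) := by
    clear habs
    induction hp with
    | var i => exact Pol.jun i (fun b => if b then u i else 1)
    | const q => exact Pol.const q
    | mul _ _ a b => exact pol_mul h a b
    | ldiv _ _ e a b => exact pol_ldiv h a b (fun s => e _)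
    | rdiv _ _ e a b => exact pol_rdiv h a b (fun s => e _)
  have := cube_abs h hc hn _ hP (fun s hs => by
    obtain ⟨i, hi⟩ := Function.ne_iff.1 hs
    exact habs _ i (by simp [hi]))
  simpa using this

end Pool.Agent.H21.Loop
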