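import Mathlib

namespace Pool.Agent.H21.Mb

open AddMonoidAlgebra commutatorElement

noncomputable section

def mo {M : Type} (v : M) : AddMonoidAlgebra ℤ M := single v 1

theorem mo_add {M : Type} [AddMonoid M] (v w : M) : mo (v + w) = mo v * mo w := by
  simp [mo, single_mul_single]

@[simp] theorem mo_zero {M : Type} [AddMonoid M] : mo (0 : M) = 1 := rfl

theorem single_eq {M : Type} (v : M) (n : ℤ) : single v n = n • mo v := by simp [mo]

abbrev Λ := AddMonoidAlgebra ℤ (ℤ × ℤ)

theorem mo_ne {v : ℤ × ℤ} (h : v ≠ 0) : mo v - 1 ≠ 0 := fun h' =>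
  h (single_left_injective (one_ne_zero (α := ℤ)) (sub_eq_zero.1 h'))

@[ext] structure W where
  a : Λ
  v : ℤ × ℤ

instance : Mul W := ⟨fun p q => ⟨p.a + mo p.v * q.a, p.v + q.v⟩⟩
instance : One W := ⟨⟨0, 0⟩⟩
instance : Inv W := ⟨fun p => ⟨-(mo (-p.v) * p.a), -p.v⟩⟩
@[simp] theorem mul_a (p q : W) : (p * q).a = p.a + mo p.v * q.a := rfl
@[simp] theorem mul_v (p q : W) : (p * q).v = p.v + q.v := rfl
@[simp] theorem one_a : (1 : W).a = 0 := rfl
@[simp] theorem one_v : (1 : W).v = 0 := rfl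
@[simp] theorem inv_a (p : W) : p⁻¹.a = -(mo (-p.v) * p.a) := rfl
@[simp] theorem inv_v (p : W) : p⁻¹.v = -p.v := rfl

instance : Group W := Group.ofLeftAxioms
  (fun p q r => W.ext (by simp only [mul_a, mul_v, mo_add]; ring) (add_assoc _ _ _))
  (fun p => W.ext (by simp) (by simp)) fun p => W.ext (by simp) (by simp)

def vv : W →* Multiplicative (ℤ × ℤ) := MonoidHom.mk' (fun p => .ofAdd p.v) fun _ _ => rfl

theorem zpow_v (p : W) (n : ℤ) : (p ^ n).v = n • p.v := congrArg Multiplicative.toAdd (map_zpow vv p n)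

theorem zpow_a (p : W) (h : p.a = 0) (n : ℤ) : (p ^ n).a = 0 := by
  induction n using Int.induction_on with
  | zero => rfl
  | succ n ih => rw [zpow_add_one, mul_a, ih, h]; simp
  | pred n ih => rw [zpow_sub_one, mul_a, ih, inv_a, h]; simp

theorem W_met : derivedSeries W 2 = ⊥ := by
  have h1 : derivedSeries W 1 ≤ vv.ker := Abelianization.commutator_subset_ker vv
  rw [derivedSeries_succ, eq_bot_iff, Subgroup.commutator_le]
  intro p hp q hq
  have hp : p.v = 0 := h1 hp
  have hq : q.v = 0 := h1 hq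
  rw [Subgroup.mem_bot, commutatorElement_eq_one_iff_mul_comm]
  exact W.ext (by simp [hp, hq, add_comm]) (add_comm _ _)

/-- The free metabelian group of rank two. -/
abbrev G : Type := FreeGroup (Fin 2) ⧸ derivedSeries (FreeGroup (Fin 2)) 2

def μ : G →* W := QuotientGroup.lift _ (FreeGroup.lift ![⟨0, (1, 0)⟩, ⟨1, (0, 1)⟩]) fun g hg => by
  have := map_derivedSeries_le_derivedSeries
    (FreeGroup.lift ![(⟨0, (1, 0)⟩ : W), ⟨1, (0, 1)⟩]) 2 ⟨g, hg, rfl⟩
  rwa [W_met] at this

def x : G := QuotientGroup.mk (FreeGroup.of 0)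
def y : G := QuotientGroup.mk (FreeGroup.of 1)
def c : G := ⁅x, y⁆

@[simp] theorem μx : μ x = ⟨0, (1, 0)⟩ := FreeGroup.lift_apply_of
@[simp] theorem μy : μ y = ⟨1, (0, 1)⟩ := FreeGroup.lift_apply_of

theorem μc : μ c = ⟨mo (1, 0) - 1, 0⟩ := by
  refine W.ext ?_ (by simp [c, commutatorElement_def])
  simp only [c, commutatorElement_def, map_mul, map_inv, μx, μy, mul_a, mul_v, inv_a, inv_v]
  simp [sub_eq_add_neg, ← mo_add, show ((0, 0) : ℤ × ℤ) = 0 from rfl]

theorem G_met : derivedSeries G 2 = ⊥ := by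
  rw [← map_derivedSeries_eq (QuotientGroup.mk'_surjective _), QuotientGroup.map_mk'_self]

theorem comm {a b : G} (ha : a ∈ commutator G) (hb : b ∈ commutator G) : a * b = b * a := by
  rw [← commutatorElement_eq_one_iff_mul_comm, ← Subgroup.mem_bot, ← G_met]
  exact Subgroup.commutator_mem_commutator ha hb

def xy (v : ℤ × ℤ) : G := x ^ v.1 * y ^ v.2

theorem xy_v (v : ℤ × ℤ) : (μ (xy v)).v = v := by simp [xy, zpow_v]

theorem nf (N : Subgroup G) [N.Normal] (h : c ∈ N) (g : G) : ∃ v, g * (xy v)⁻¹ ∈ N := by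
  let p := QuotientGroup.mk' N
  have hc : Commute (p x) (p y) := by
    rw [← commutatorElement_eq_one_iff_commute, ← map_commutatorElement]
    exact (QuotientGroup.eq_one_iff _).2 h
  suffices ∃ a b : ℤ, p g = p x ^ a * p y ^ b by
    obtain ⟨a, b, h⟩ := this
    refine ⟨(a, b), (QuotientGroup.eq_one_iff _).1 ?_⟩
    change p _ = 1
    simp [xy, h]
  obtain ⟨g, rfl⟩ := QuotientGroup.mk_surjective g
  induction g using FreeGroup.induction_on with
  | C1 => exact ⟨0, 0, (map_one p).trans (by simp)⟩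
  | of i =>
    fin_cases i
    · exact ⟨1, 0, by simp [x]⟩
    · exact ⟨0, 1, by simp [y]⟩
  | inv_of i ih =>
    obtain ⟨a, b, h⟩ := ih
    refine ⟨-a, -b, ?_⟩
    rw [QuotientGroup.mk_inv, map_inv, h, mul_inv_rev, ← zpow_neg, ← zpow_neg,
      (hc.zpow_zpow _ _).eq]
  | mul u w hu hw =>
    obtain ⟨a, b, h⟩ := hu
    obtain ⟨a', b', h'⟩ := hw
    refine ⟨a + a', b + b', ?_⟩
    rw [QuotientGroup.mk_mul, map_mul, h, h', zpow_add, zpow_add,
      (hc.zpow_zpow a' b).mul_mul_mul_comm]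

theorem c_mem : c ∈ commutator G := Subgroup.commutator_mem_commutator trivial trivial

theorem ker_iff {g : G} : g ∈ commutator G ↔ (μ g).v = 0 := by
  have h1 : ∀ g ∈ commutator G, (μ g).v = 0 := Abelianization.commutator_subset_ker (vv.comp μ)
  refine ⟨h1 g, fun h => ?_⟩
  obtain ⟨v, hv⟩ := nf _ c_mem g
  have := h1 _ hv
  rw [map_mul, map_inv, mul_v, inv_v, xy_v, h, zero_add, neg_eq_zero] at this
  simpa [this, xy] using hv

instance : CommGroup (commutator G) :=
  { (inferInstance : Group (commutator G)) with mul_comm := fun a b => Subtype.ext (comm a.2 b.2) }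

def cv (v : ℤ × ℤ) : commutator G :=
  ⟨xy v * c * (xy v)⁻¹, Subgroup.Normal.conj_mem inferInstance _ c_mem _⟩

theorem cv_conj (g : G) (v : ℤ × ℤ) : g * cv v * g⁻¹ = cv ((μ g).v + v) := by
  have := comm (a := (xy ((μ g).v + v))⁻¹ * g * xy v) (ker_iff.2 (by simp [xy_v])) c_mem
  change g * (xy v * c * (xy v)⁻¹) * g⁻¹ = xy _ * c * (xy _)⁻¹
  generalize xy ((μ g).v + v) = h at *
  calc _ = h * (h⁻¹ * g * xy v * c) * (xy v)⁻¹ * g⁻¹ := by group
    _ = _ := by rw [this]; group

def E₀ : Λ →+ Additive (commutator G) :=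
  (Finsupp.liftAddHom fun v => zmultiplesHom _ (Additive.ofMul (cv v))).comp
    coeffAddEquiv.toAddMonoidHom

def E : Multiplicative Λ →* G :=
  MonoidHom.mk' (fun u => (E₀ u.toAdd).toMul.1) fun a b => by simp

def e (u : Λ) : G := E (.ofAdd u)

theorem e_add (u w : Λ) : e (u + w) = e u * e w := by rw [e, ofAdd_add, map_mul, e, e]
theorem e_zero : e 0 = 1 := map_one E
theorem e_neg (u : Λ) : e (-u) = (e u)⁻¹ := by rw [e, ofAdd_neg, map_inv, e]
theorem e_zsmul (n : ℤ) (u : Λ) : e (n • u) = e u ^ n := by rw [e, ofAdd_zsmul, map_zpow, e]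
theorem e_mo (v : ℤ × ℤ) : e (mo v) = cv v := by
  change (E₀ (mo v)).toMul.1 = _
  simp [E₀, mo]
theorem e_v (u : Λ) : (μ (e u)).v = 0 := ker_iff.1 (E₀ u).toMul.2
theorem e_one : e 1 = c := (e_mo 0).trans (by simp [cv, xy])

theorem e_conj (g : G) (u : Λ) : g * e u * g⁻¹ = e (mo (μ g).v * u) := by
  induction u using induction_linear with
  | zero => simp [e_zero]
  | add a b ha hb => rw [mul_add, e_add, e_add, ← ha, ← hb]; group
  | single v n => rw [single_eq, mul_smul_comm, e_zsmul, e_zsmul, ← mo_add, e_mo, e_mo, ← cv_conj,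
      conj_zpow]

theorem e_a (u : Λ) : (μ (e u)).a = u * (mo (1, 0) - 1) := by
  let F : Λ →+ Λ := AddMonoidHom.mk' (fun u => (μ (e u)).a) fun a b => by simp [e_add, e_v]
  change F u = _
  induction u using induction_linear with
  | zero => simp
  | add a b ha hb => rw [map_add, ha, hb, add_mul]
  | single v n =>
    rw [single_eq, map_zsmul, smul_mul_assoc]
    congr 1
    change (μ (e (mo v))).a = _
    rw [e_mo]
    simp only [cv, map_mul, map_inv, μc, mul_a, mul_v, inv_a, xy_v, add_zero]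
    rw [mul_neg, ← mul_assoc, ← mo_add]
    simp

theorem inj {g : G} (h1 : (μ g).v = 0) (h2 : (μ g).a = 0) : g = 1 := by
  have : E.range.Normal := ⟨by rintro _ ⟨u, rfl⟩ g; exact ⟨_, (e_conj g u.toAdd).symm⟩⟩
  obtain ⟨v, u, hu⟩ := nf E.range ⟨_, e_one⟩ g
  have h3 := e_v u.toAdd
  change e u.toAdd = _ at hu
  rw [hu, map_mul, map_inv, mul_v, inv_v, xy_v, h1, zero_add, neg_eq_zero] at h3
  have h4 : e u.toAdd = g := by simpa [h3, xy] using hu
  have h5 := e_a u.toAdd
  rw [h4, h2] at h5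
  rw [← h4, (mul_eq_zero.1 h5.symm).resolve_right (mo_ne (by simp)), e_zero]

theorem fpf {g h : G} (hg : (μ g).v ≠ 0) (hh : (μ h).v = 0) (hc : g * h = h * g) : h = 1 := by
  have := congrArg (fun z => (μ z).a) hc
  simp only [map_mul, mul_a, hh, mo_zero, one_mul] at this
  have h1 : (mo (μ g).v - 1) * (μ h).a = 0 := by linear_combination this
  exact inj hh ((mul_eq_zero.1 h1).resolve_left (mo_ne hg))

theorem c_ne : c ≠ 1 := fun h => mo_ne (v := (1, 0)) (by simp)
  ((congrArg W.a μc).symm.trans (by rw [h, map_one]; rfl))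

theorem slender (θ : (ℕ → ℤ) →+ Λ) : ∃ k, θ (Pi.single k 1) = 0 := by
  classical
  by_contra! h
  choose p hp using fun k => DFunLike.ne_iff.1 (coeff_injective.ne (h k))
  let t : ℕ → ℤ := fun k => (θ (Pi.single k 1)).coeff (p k)
  let n : ℕ → ℤ := fun k => ∏ i ∈ Finset.range k, 2 * t i
  have ht : ∀ k, t k ≠ 0 := hp
  have hn : ∀ k, n k ≠ 0 := fun k => Finset.prod_ne_zero_iff.2 fun i _ => by simp [ht i]
  have : Countable Λ := coeff_injective.countable
  have : Uncountable (ℕ → Bool) := by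
    rw [← Cardinal.aleph0_lt_mk_iff]
    simpa using Cardinal.cantor Cardinal.aleph0
  refine not_countable (α := ℕ → Bool) (Function.Injective.countable
    (f := fun s : ℕ → Bool => θ fun k => if s k then n k else 0) fun s s' hs => ?_)
  by_contra hne
  have hex : ∃ k, s k ≠ s' k := Function.ne_iff.1 hne
  let k := Nat.find hex
  let d : ℕ → ℤ := fun j => (if s j then 1 else 0) - if s' j then 1 else 0
  have h1 : θ (fun j => d j * n j) = 0 := by
    rw [← sub_eq_zero, ← map_sub] at hs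
    rw [← hs]
    congr 1
    funext j
    simp [d, sub_mul]
  have h2 : (fun j => d j * n j) = (d k * n k) • (Pi.single k 1 : ℕ → ℤ) + n (k + 1) •
      fun j => if k < j then d j * ∏ i ∈ Finset.Ico (k + 1) j, 2 * t i else 0 := by
    funext j
    rcases lt_trichotomy j k with hj | rfl | hj
    · have : s j = s' j := not_not.1 (Nat.find_min hex hj)
      simp [d, this, hj.ne, hj.not_gt]
    · simp
    · simp only [Pi.add_apply, Pi.smul_apply, Pi.single_eq_of_ne hj.ne', hj, if_true, smul_eq_mul, n]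
      rw [← Finset.prod_range_mul_prod_Ico _ (Nat.succ_le_of_lt hj)]
      ring
  rw [h2, map_add, map_zsmul, map_zsmul] at h1
  have h3 := congrArg (fun z : Λ => z.coeff (p k)) h1
  simp only [coeff_add, coeff_smul, Finsupp.add_apply, Finsupp.smul_apply, smul_eq_mul, coeff_zero,
    Finsupp.zero_apply, n, Finset.prod_range_succ] at h3
  generalize (θ fun j => if k < j then d j * ∏ i ∈ Finset.Ico (k + 1) j, 2 * t i else 0).coeff
    (p k) = r at h3
  have h4 : n k * t k * (d k + 2 * r) = 0 := by linear_combination h3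
  have h5 := (mul_eq_zero.1 h4).resolve_left (mul_ne_zero (hn k) (ht k))
  have h6 : s k ≠ s' k := Nat.find_spec hex
  simp only [d] at h5
  cases hs1 : s k <;> cases hs2 : s' k <;> simp [hs1, hs2] at h5 h6 <;> omega

end

end Pool.Agent.H21.Mb
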