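import Mathlib
import Pool.Agent.H21.Mb1

namespace Pool.Agent.H21.Mb

open AddMonoidAlgebra commutatorElement

noncomputable section

abbrev Q := (ℤ × ℤ) × ℤ
abbrev Γ := AddMonoidAlgebra ℤ Q

def φ (n : ℤ) : Q →+ ℤ × ℤ :=
  AddMonoidHom.mk' (fun q => (q.1.1 + n * q.2, q.1.2)) fun a b => Prod.ext (by simp; ring) rfl

theorem φ_apply (n : ℤ) (q : Q) : φ n q = (q.1.1 + n * q.2, q.1.2) := rfl

def Φ (n : ℤ) : Γ →+* Λ := mapDomainRingHom ℤ (φ n)

theorem Φ_mo (n : ℤ) (q : Q) : Φ n (mo q) = mo (φ n q) := mapDomain_single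

def Bd (r : ℤ) : Submodule ℤ Γ := Submodule.span ℤ (mo '' {q | |q.1.1| ≤ r})

theorem Bd_mono {r s : ℤ} (h : r ≤ s) {u : Γ} (hu : u ∈ Bd r) : u ∈ Bd s :=
  Submodule.span_mono (Set.image_mono fun _ hq => le_trans hq h) hu

theorem Bd_mo {r : ℤ} {q : Q} (h : |q.1.1| ≤ r) : mo q ∈ Bd r := Submodule.subset_span ⟨q, h, rfl⟩

theorem Bd_one {r : ℤ} (h : 0 ≤ r) : 1 ∈ Bd r := Bd_mo (q := 0) (by simpa using h)

theorem Bd_mul {r s : ℤ} {u w : Γ} (hu : u ∈ Bd r) (hw : w ∈ Bd s) : u * w ∈ Bd (r + s) := by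
  have := Submodule.mul_mem_mul hu hw
  rw [Bd, Bd, Submodule.span_mul_span] at this
  refine Submodule.span_mono ?_ this
  rintro _ ⟨_, ⟨a, ha, rfl⟩, _, ⟨b, hb, rfl⟩, rfl⟩
  exact ⟨a + b, (abs_add_le a.1.1 b.1.1).trans (add_le_add ha hb), mo_add _ _⟩

theorem Bd_inj {r n : ℤ} {u : Γ} (hu : u ∈ Bd r) (h : 2 * r < n) (h0 : Φ n u = 0) : u = 0 := by
  let ρ := mapDomainLinearMap ℤ ℤ fun v : ℤ × ℤ => (((v.1 - n * ((v.1 + r) / n), v.2), (v.1 + r) / n) : Q)
  have : ρ (Φ n u) = u := by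
    clear h0
    induction hu using Submodule.span_induction with
    | mem _ hq =>
      obtain ⟨q, hq, rfl⟩ := hq
      have hq := abs_le.1 (show |q.1.1| ≤ r from hq)
      have h1 : (q.1.1 + n * q.2 + r) / n = q.2 := by
        rw [add_right_comm, Int.add_mul_ediv_left _ _ (by omega),
          Int.ediv_eq_zero_of_lt (by omega) (by omega), zero_add]
      rw [Φ_mo]
      refine mapDomain_single.trans (congrArg mo ?_)
      simp [φ_apply, h1]
    | zero => simp
    | add a b _ _ ha hb => rw [map_add, map_add, ha, hb]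
    | smul n a _ ha => rw [map_zsmul, map_zsmul, ha]
  rw [← this, h0, map_zero]

def N (i : ℕ × Bool) : ℤ := 8 * 8 ^ i.1 + if i.2 then 1 else 0

theorem N_bd (i : ℕ × Bool) : 8 * 8 ^ i.1 ≤ N i ∧ N i ≤ 8 * 8 ^ i.1 + 1 := by
  unfold N; split_ifs <;> simp

def T : Subgroup (ℕ × Bool → G) where
  carrier := {t | ∃ (q : Q) (R : ℕ), (∀ i, (μ (t i)).v = φ (N i) q) ∧
    ∀ b j, ∃ P ∈ Bd (R + 2 * 8 ^ j), ∀ i ≤ j, Φ (N (i, b)) P = (μ (t (i, b))).a}
  one_mem' := ⟨0, 0, by simp, fun _ _ => ⟨0, zero_mem _, by simp⟩⟩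
  mul_mem' := by
    rintro s t ⟨q, R, h1, h2⟩ ⟨q', R', h3, h4⟩
    refine ⟨q + q', R + q.1.1.natAbs + R', by simp [h1, h3], fun b j => ?_⟩
    obtain ⟨P, h5, h6⟩ := h2 b j
    obtain ⟨P', h7, h8⟩ := h4 b j
    refine ⟨P + mo q * P', add_mem (Bd_mono (by omega) h5)
      (Bd_mono (by push_cast; omega) (Bd_mul (Bd_mo le_rfl) h7)), fun i hi => ?_⟩
    simp [h6 i hi, h8 i hi, h1, Φ_mo]
  inv_mem' := by
    rintro t ⟨q, R, h1, h2⟩
    refine ⟨-q, q.1.1.natAbs + R, by simp [h1], fun b j => ?_⟩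
    obtain ⟨P, h5, h6⟩ := h2 b j
    refine ⟨-(mo (-q) * P), neg_mem (Bd_mono (by simp; omega) (Bd_mul (Bd_mo le_rfl) h5)),
      fun i hi => ?_⟩
    simp [h6 i hi, h1, Φ_mo]

def X : T := ⟨fun _ => x, ((1, 0), 0), 0, by simp [φ_apply], fun _ _ => ⟨0, zero_mem _, by simp⟩⟩
def Y : T := ⟨fun _ => y, ((0, 1), 0), 0, by simp [φ_apply],
  fun _ _ => ⟨1, Bd_one (by positivity), by simp⟩⟩
def Z : T := ⟨fun i => x ^ N i, ((0, 0), 1), 0, by simp [φ_apply, zpow_v],
  fun _ _ => ⟨0, zero_mem _, by simp [zpow_a]⟩⟩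

def pr (i : ℕ × Bool) : T →* G := (Pi.evalMonoidHom _ i).comp T.subtype

theorem pr_surj (i : ℕ × Bool) : Function.Surjective (pr i) := by
  intro g
  obtain ⟨g, rfl⟩ := QuotientGroup.mk_surjective g
  change _ ∈ (pr i).range
  induction g using FreeGroup.induction_on with
  | C1 => exact one_mem _
  | of k =>
    fin_cases k
    · exact ⟨X, rfl⟩
    · exact ⟨Y, rfl⟩
  | inv_of k ih => exact inv_mem ih
  | mul u w hu hw => exact mul_mem hu hw

theorem T_ext {s t : T} (h : ∀ i, pr i s = pr i t) : s = t := Subtype.ext (funext h)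

def Base (t : T) : Prop := ∀ i, (μ (pr i t)).v = 0

theorem base_comm {s t : T} (hs : Base s) (ht : Base t) : s * t = t * s :=
  T_ext fun i => by rw [map_mul, map_mul, comm (ker_iff.2 (hs i)) (ker_iff.2 (ht i))]

theorem base_br (s t : T) : Base ⁅s, t⁆ := fun i => by simp [commutatorElement_def]

theorem T_fpf {t b : T} (ht : ¬Base t) (hb : Base b) (h : t * b = b * t) : b = 1 := by
  obtain ⟨q, -, h1, -⟩ := t.2
  obtain ⟨-, R, -, h2⟩ := b.2
  refine T_ext fun i => inj (hb i) ?_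
  let j := i.1 + R + q.1.1.natAbs
  have hj : (j : ℤ) < 8 ^ j := by exact_mod_cast Nat.lt_pow_self (by norm_num)
  have hj' : (j : ℤ) = i.1 + R + |q.1.1| := by simp [j]
  have h0 := abs_nonneg q.1.1
  have hN := (N_bd (j, i.2)).1
  obtain ⟨P, h3, h4⟩ := h2 i.2 j
  have h5 : pr (j, i.2) b = 1 := by
    refine fpf (g := pr (j, i.2) t) (fun h6 => ht fun k => ?_) (hb _) (by rw [← map_mul, h, map_mul])
    have h7 : mo q - 1 = 0 := Bd_inj (r := |q.1.1|) (n := N (j, i.2))
      (sub_mem (Bd_mo le_rfl) (Bd_one h0)) (by simp only at hN; omega)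
      (by rw [map_sub, Φ_mo, ← h1, map_one]; exact sub_eq_zero.2 (congrArg mo h6))
    have h8 : q = 0 := single_left_injective (one_ne_zero (α := ℤ)) (sub_eq_zero.1 h7)
    exact (h1 k).trans (by rw [h8, map_zero])
  have h6 : P = 0 := Bd_inj h3 (n := N (j, i.2)) (by simp only at hN; omega)
    ((h4 j le_rfl).trans ((congrArg (fun z => (μ z).a) h5).trans (by simp)))
  have := h4 i.1 (by omega)
  rw [h6, map_zero] at this
  exact this.symm

theorem T_ct (t : T) (ht : t ≠ 1) (u v : T) (hu : u * t = t * u) (hv : v * t = t * v) :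
    u * v = v * u := by
  by_cases h : Base t
  · exact base_comm (by_contra fun h' => ht (T_fpf h' h hu)) (by_contra fun h' => ht (T_fpf h' h hv))
  · rw [← commutatorElement_eq_one_iff_mul_comm]
    have hu : Commute t u := hu.symm
    have hv : Commute t v := hv.symm
    exact T_fpf h (base_br u v) (((hu.mul_right hv).mul_right hu.inv_right).mul_right hv.inv_right)

theorem T_met : derivedSeries T 2 = ⊥ := by
  rw [eq_bot_iff]
  intro t ht
  refine T_ext fun i => ?_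
  have := map_derivedSeries_le_derivedSeries (pr i) 2 ⟨t, ht, rfl⟩
  rw [G_met] at this
  exact this

def aa (b : Bool) : ℕ → Γ
  | 0 => 1
  | k + 1 => (mo ((-N (k, b), 0), 1) - 1) * aa b k

theorem aa_bd (b : Bool) (k : ℕ) : aa b k ∈ Bd (2 * 8 ^ k) := by
  induction k with
  | zero => exact Bd_one (by norm_num)
  | succ k ih =>
    have h := N_bd (k, b)
    have h8 : (0 : ℤ) < 8 ^ k := by positivity
    simp only at h
    refine Bd_mono ?_ (Bd_mul (r := N (k, b)) (sub_mem (Bd_mo ?_) (Bd_one (by omega))) ih)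
    · rw [pow_succ]; omega
    · exact abs_le.2 ⟨le_rfl, by simp only; omega⟩

theorem aa_zero (b : Bool) {i k : ℕ} (h : i < k) : Φ (N (i, b)) (aa b k) = 0 := by
  induction k with
  | zero => omega
  | succ k ih =>
    rw [aa, map_mul]
    rcases (Nat.lt_succ_iff.1 h).eq_or_lt with rfl | h
    · simp [Φ_mo, φ_apply, show ((0, 0) : ℤ × ℤ) = 0 from rfl]
    · rw [ih h, mul_zero]

theorem sum_aa (b : Bool) (l : ℕ → ℤ) {i j : ℕ} (h : i ≤ j) :
    Φ (N (i, b)) (∑ k ∈ Finset.range (j + 1), l k • aa b k) =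
      Φ (N (i, b)) (∑ k ∈ Finset.range (i + 1), l k • aa b k) := by
  induction h with
  | refl => rfl
  | step h ih => rw [Finset.sum_range_succ, map_add, ih, map_zsmul, aa_zero b (Nat.lt_succ_of_le h),
      smul_zero, add_zero]

def S (b : Bool) (l : ℕ → ℤ) : T :=
  ⟨fun i => if i.2 = b then e (Φ (N i) (∑ k ∈ Finset.range (i.1 + 1), l k • aa b k)) else 1, 0, 1,
    fun i => by beta_reduce; split_ifs <;> simp [e_v], fun b' j => by
      by_cases h : b' = b
      · subst h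
        refine ⟨(mo ((1, 0), 0) - 1) * ∑ k ∈ Finset.range (j + 1), l k • aa b' k, Bd_mul
          (sub_mem (Bd_mo (by simp)) (Bd_one (by simp))) (Submodule.sum_mem _ fun k hk =>
            Submodule.smul_mem _ _ (Bd_mono ?_ (aa_bd b' k))), fun i hi => ?_⟩
        · have := pow_le_pow_right₀ (by norm_num : (1 : ℤ) ≤ 8) (Nat.lt_succ_iff.1 (Finset.mem_range.1 hk))
          omega
        · beta_reduce
          rw [map_mul, sum_aa b' l hi, if_pos rfl, e_a, mul_comm]
          simp [Φ_mo, φ_apply]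
      · exact ⟨0, zero_mem _, by simp [h]⟩⟩

theorem pr_S (b : Bool) (l : ℕ → ℤ) (i : ℕ × Bool) : pr i (S b l) =
    if i.2 = b then e (Φ (N i) (∑ k ∈ Finset.range (i.1 + 1), l k • aa b k)) else 1 := rfl

theorem S_base (b : Bool) (l : ℕ → ℤ) : Base (S b l) := fun i => by
  rw [pr_S]; split_ifs <;> simp [e_v]

theorem S_add (b : Bool) (l m : ℕ → ℤ) : S b (l + m) = S b l * S b m := T_ext fun i => by
  rw [map_mul, pr_S, pr_S, pr_S]
  split_ifs
  · simp only [Pi.add_apply, add_smul, Finset.sum_add_distrib, map_add, e_add]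
  · simp

theorem S_single (b : Bool) (k : ℕ) (i : ℕ × Bool) : pr i (S b (Pi.single k 1)) =
    if i.2 = b then e (Φ (N i) (aa b k)) else 1 := by
  rw [pr_S]
  split_ifs with h
  · obtain ⟨i, b'⟩ := i
    subst h
    rw [← sum_aa b' _ (le_add_right le_rfl : i ≤ i + k), Finset.sum_eq_single k] <;>
      simp +contextual [Pi.single_apply]
  · rfl

theorem S_succ (b : Bool) (k : ℕ) :
    S b (Pi.single (k + 1) 1) = ⁅Z * X ^ (-N (k, b)), S b (Pi.single k 1)⁆ := T_ext fun i => by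
  rw [map_commutatorElement, S_single, S_single]
  split_ifs
  · rw [commutatorElement_def, e_conj, ← e_neg, ← e_add, aa, map_mul, map_sub, Φ_mo, map_one, sub_mul,
      one_mul, sub_eq_add_neg]
    congr 4
    rw [map_mul, map_zpow]
    change _ = (μ (x ^ N i * x ^ (-N (k, b)))).v
    simp [φ_apply, zpow_v, add_comm]
  · simp

theorem no_disc (f : T →* G) (hf : Function.Surjective f) (h : ∀ b, f (S b (Pi.single 0 1)) ≠ 1) :
    False := by
  have h1 : ∀ t, Base t → (μ (f t)).v = 0 := fun t ht => by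
    by_contra h0
    obtain ⟨s, hs⟩ := hf c
    have h2 : f ⁅t, s⁆ = 1 := fpf h0 (by simp [commutatorElement_def])
      (by rw [← map_mul, ← map_mul, base_comm ht (base_br t s)])
    rw [map_commutatorElement, commutatorElement_eq_one_iff_mul_comm, hs] at h2
    exact c_ne (fpf h0 (by simp [μc]) h2)
  have h2 : ∀ b, ∃ k, (μ (f Z)).v = N (k, b) • (μ (f X)).v := fun b => by
    by_contra! h0
    obtain ⟨k, hk⟩ := slender (AddMonoidHom.mk' (fun l => (μ (f (S b l))).a) fun l m => by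
      simp [S_add, h1 _ (S_base b l)])
    replace hk : f (S b (Pi.single k 1)) = 1 := inj (h1 _ (S_base _ _)) hk
    induction k with
    | zero => exact h b hk
    | succ k ih =>
      rw [S_succ, map_commutatorElement, commutatorElement_eq_one_iff_mul_comm] at hk
      refine ih (fpf (fun h3 => h0 k ?_) (h1 _ (S_base _ _)) hk)
      rw [map_mul, map_mul, map_zpow, map_zpow, mul_v, zpow_v, neg_smul] at h3
      exact add_neg_eq_zero.1 h3
  obtain ⟨k, hk⟩ := h2 true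
  obtain ⟨k', hk'⟩ := h2 false
  have h3 : (μ (f X)).v = 0 := by
    rw [hk, ← sub_eq_zero, ← sub_smul] at hk'
    refine (smul_eq_zero.1 hk').resolve_left ?_
    simp only [N, if_true, Bool.false_eq_true, if_false]
    omega
  rw [h3, smul_zero] at hk
  have h4 : ∀ t, ∃ n : ℤ, (μ (f t)).v = n • (μ (f Y)).v := fun t => by
    obtain ⟨q, -, hq, -⟩ := t.2
    have := h1 (t * (X ^ q.1.1 * Y ^ q.1.2 * Z ^ q.2)⁻¹) fun i => by
      have e1 : (μ (pr i t)).v = _ := hq i
      have e2 : pr i X = x := rfl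
      have e3 : pr i Y = y := rfl
      have e4 : pr i Z = x ^ N i := rfl
      simp [e1, e2, e3, e4, zpow_v, φ_apply, mul_comm]
    refine ⟨q.1.2, ?_⟩
    simpa [zpow_v, h3, hk, add_neg_eq_zero] using this
  obtain ⟨s, hs⟩ := hf x
  obtain ⟨t, ht⟩ := hf y
  obtain ⟨n, hn⟩ := h4 s
  obtain ⟨m, hm⟩ := h4 t
  rw [hs, μx, Prod.ext_iff] at hn
  rw [ht, μy, Prod.ext_iff] at hm
  simp only [Prod.smul_fst, Prod.smul_snd, smul_eq_mul] at hn hm
  have : (1 : ℤ) * 1 = 0 * 0 := by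
    calc (1 : ℤ) * 1 = (n * (μ (f Y)).v.1) * (m * (μ (f Y)).v.2) := by rw [← hn.1, ← hm.2]
      _ = (n * (μ (f Y)).v.2) * (m * (μ (f Y)).v.1) := by ring
      _ = 0 * 0 := by rw [← hn.2, ← hm.1]
  omega

theorem S_ne (b : Bool) : S b (Pi.single 0 1) ≠ 1 := fun h => c_ne (by
  have := S_single b 0 (0, b)
  rw [h, map_one, if_pos rfl, aa, map_one, e_one] at this
  exact this.symm)

end

end Pool.Agent.H21.Mb
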