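import Mathlib

namespace Pool.Agent.H21.Mealy

structure Aut (A S : Type) where
  δ : S → A → A
  ρ : A → S → S

variable {A S : Type}

def Aut.act (M : Aut A S) : A → List S → List S
  | _, [] => []
  | x, i :: w => M.ρ x i :: M.act (M.δ i x) w

def Aut.Bireversible (M : Aut A S) : Prop :=
  (∀ x, Function.Bijective (M.ρ x)) ∧ (∀ i, Function.Bijective (M.δ i)) ∧
    ∀ (j : S) (d : A → A), (∀ x i, M.ρ x i = j → d x = M.δ i x) → Function.Bijective d

def Aut.group (M : Aut A S) : Subgroup (Equiv.Perm (List S)) :=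
  Subgroup.closure {g | ∃ x : A, ∀ w, g w = M.act x w}

end Pool.Agent.H21.Mealy
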