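import Mathlib

namespace Pool.Agent.H21.NEss

variable {R : Type*} [NonAssocRing R]

def assoc (a b c : R) : R := (a * b) * c - a * (b * c)

def nucleus (R : Type*) [NonAssocRing R] : Set R :=
  {x | ∀ a b, assoc x a b = 0 ∧ assoc a x b = 0 ∧ assoc a b x = 0}

def centre (R : Type*) [NonAssocRing R] : Set R :=
  {x | x ∈ nucleus R ∧ ∀ a, x * a = a * x}

def LeftNEss (R : Type*) [NonAssocRing R] : Prop :=
  ∀ r : R, r ≠ 0 → ∃ x ∈ nucleus R, x * r ∈ nucleus R ∧ x * r ≠ 0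

def RightNEss (R : Type*) [NonAssocRing R] : Prop :=
  ∀ r : R, r ≠ 0 → ∃ x ∈ nucleus R, r * x ∈ nucleus R ∧ r * x ≠ 0

def CentrallyEss (R : Type*) [NonAssocRing R] : Prop :=
  ∀ r : R, r ≠ 0 → ∃ x ∈ centre R, x * r ∈ centre R ∧ x * r ≠ 0

end Pool.Agent.H21.NEss
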