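import Pool.Agent.H21.PDPDefs
import Pool.Agent.H11.CL3

namespace Pool.Agent.H21.PDP

open Pool.Agent.H21.PDPDefs Pool.Agent.H11.PT List

lemma path_fun {E : List (Vx × Vx)} (hE : ∀ e ∈ E, e.2.1 = e.1.1 + 1) {s : Vx} :
    ∀ (p : List Vx) (r : Vx), p.head? = some r → p.getLast? = some s →
      p.IsChain (fun a b => (a, b) ∈ E) → ∃ h : ℕ → ℕ, h r.1 = r.2 ∧ h s.1 = s.2 ∧ r.1 ≤ s.1 ∧
      (∀ t, r.1 ≤ t → t ≤ s.1 → (t, h t) ∈ p) ∧
      ∀ t, r.1 ≤ t → t < s.1 → ((t, h t), (t + 1, h (t + 1))) ∈ E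
  | [], _, h, _, _ => by simp at h
  | [a], r, h, h', _ => by
    simp only [head?_cons, getLast?_singleton, Option.some.injEq] at h h'
    subst h h'
    exact ⟨fun _ => a.2, rfl, rfl, le_rfl, fun t h1 h2 => by simp [le_antisymm h2 h1],
      fun t h1 h2 => by omega⟩
  | a :: b :: p, r, h, h', c => by
    simp only [head?_cons, Option.some.injEq] at h
    subst h
    rw [isChain_cons_cons] at c
    obtain ⟨h, h1, h2, h3, h4, h5⟩ := path_fun hE (b :: p) b rfl (by simpa using h') c.2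
    have := hE _ c.1
    simp only at this
    refine ⟨fun t => if t = a.1 then a.2 else h t, by simp, by simp [h2]; omega, by omega,
      fun t a1 a2 => ?_, fun t a1 a2 => ?_⟩
    · by_cases e : t = a.1
      · simp [e]
      · simp only [e, if_false]; exact mem_cons_of_mem _ (h4 t (by omega) a2)
    · by_cases e : t = a.1
      · simp only [e, if_true, Nat.succ_ne_self, if_false]; rw [← this, h1]; exact c.1
      · simp only [e, if_false, show t + 1 ≠ a.1 by omega]; exact h5 t (by omega) a2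

def mk (t n : ℕ) (h : ℕ → ℕ) : List Vx := (range' t (n + 1)).map fun t => (t, h t)

lemma mem_mk {t n : ℕ} {h : ℕ → ℕ} {v : Vx} : v ∈ mk t n h ↔ t ≤ v.1 ∧ v.1 ≤ t + n ∧ v.2 = h v.1 := by
  simp only [mk, mem_map, mem_range'_1]; grind

lemma mk_path {E : List (Vx × Vx)} {t n : ℕ} {h : ℕ → ℕ} {r s : Vx} (hr : r = (t, h t))
    (hs : s = (t + n, h (t + n)))
    (a : ∀ i, t ≤ i → i < t + n → ((i, h i), (i + 1, h (i + 1))) ∈ E) : IsPath E r s (mk t n h) := by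
  subst hr hs
  refine ⟨by simp [mk, range'_succ], by simp [mk, getLast?_range'],
    (nodup_range').map fun a b e => (Prod.ext_iff.1 e).1, isChain_iff_getElem.2 fun i hi => ?_⟩
  simp only [mk, length_map, length_range'] at hi
  simpa [mk, add_assoc] using a (t + i) (by omega) (by omega)

abbrev Fm := List (Lit × Lit × Lit)

def cl (φ : Fm) (j : ℕ) : Lit × Lit × Lit := φ.getD j ((0, true), (0, true), (0, true))
def lit (φ : Fm) (a : ℕ) : Lit :=
  if a % 3 = 0 then (cl φ (a / 3)).1 else if a % 3 = 1 then (cl φ (a / 3)).2.1 else (cl φ (a / 3)).2.2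
def la (φ : Fm) (a : ℕ) : ℕ := 2 * (lit φ a).1 + if (lit φ a).2 then 1 else 0
def lb (φ : Fm) (a : ℕ) : ℕ := 2 * (lit φ a).1 + if (lit φ a).2 then 0 else 1
def LL (φ : Fm) : ℕ := 2 * (φ.map fun c => c.1.1 + c.2.1.1 + c.2.2.1).sum + 2
def WW (φ : Fm) : ℕ := 3 * φ.length

def Vl (L W : ℕ) : List Vx := (range (3 * L + 18)).flatMap fun t => (range (3 * W + L + 2)).map (t, ·)
def El (L W : ℕ) : List (Vx × Vx) := (range (3 * L + 17)).flatMap fun t =>
  (range (3 * W + L + 1)).flatMap fun u =>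
    if t % 3 = 2 ∧ 8 ≤ t ∧ t < 3 * L + 9 then
      (if u % 3 = (t / 3 + 2) % 3 then [((t, u), (t + 1, u))] else [])
    else [((t, u), (t + 1, u)), ((t, u), (t + 1, u + 1))]
def term (φ : Fm) (ρ a : ℕ) : Vx × Vx :=
  if ρ = 0 then ((0, 9 * (a / 3)), (3 * LL φ + 17, 9 * (a / 3) + 8 + LL φ))
  else if ρ = 1 then ((3 * la φ a + 9, 3 * a + la φ a), (3 * la φ a + 10, 3 * a + 1 + la φ a))
  else if ρ = 2 then ((3 * lb φ a + 9, 3 * a + 2 + lb φ a), (3 * lb φ a + 10, 3 * a + 2 + lb φ a))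
  else ((3 * (ρ / 3) + 6, 3 * a + ρ % 3 + (ρ / 3 - 1)), (3 * (ρ / 3) + 8, 3 * a + ρ % 3 + ρ / 3))
def Tl (φ : Fm) : List (Vx × Vx) :=
  (range ((3 * LL φ + 3) * WW φ)).map fun n => term φ (n / WW φ) (n % WW φ)
def Fn (φ : Fm) : List (Vx × Vx) := (range (WW φ)).flatMap fun a =>
  ((0, 3 * (a / 3)), (1, a)) :: ((0, 3 * (a / 3)), (3 * la φ a + 5, a)) ::
  ((0, 3 * (a / 3)), (2, a)) :: ((0, 3 * (a / 3)), (3 * lb φ a + 3, a)) ::
  (range (LL φ)).flatMap fun l => ((3 * l + 3, a), (3 * l + 4, a)) :: ((3 * l + 4, a), (3 * l + 5, a)) ::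
    if a + 1 < WW φ then [((3 * l + 5, a), (3 * l + 3, a + 1))] else []
def ix (W : ℕ) (v : Vx) : ℕ := W * v.1 + v.2
def red (φ : Fm) : List Vx × List (Vx × Vx) × List (Vx × Vx) × List (ℕ × ℕ) :=
  (Vl (LL φ) (WW φ), El (LL φ) (WW φ), Tl φ, (Fn φ).map fun q => (ix (WW φ) q.1, ix (WW φ) q.2))

theorem red_pt : PT red := by
  unfold red ix Fn Tl term El Vl WW LL la lb lit cl
  fun_prop

variable {φ : Fm} {L W : ℕ}

lemma mem_V {v : Vx} : v ∈ Vl L W ↔ v.1 < 3 * L + 18 ∧ v.2 < 3 * W + L + 2 := by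
  simp only [Vl, mem_flatMap, mem_range, mem_map]; grind

lemma mem_E {t u t' u' : ℕ} : ((t, u), (t', u')) ∈ El L W ↔ t < 3 * L + 17 ∧ u < 3 * W + L + 1 ∧
    t' = t + 1 ∧ (u' = u ∨ u' = u + 1) ∧
    (t % 3 = 2 → 8 ≤ t → t < 3 * L + 9 → u' = u ∧ u % 3 = (t / 3 + 2) % 3) := by
  simp only [El, mem_flatMap, mem_range]
  constructor
  · rintro ⟨a, h1, b, h2, h⟩
    split_ifs at h <;> simp at h <;> omega
  · rintro ⟨h1, h2, rfl, h4, h5⟩
    refine ⟨t, h1, u, h2, ?_⟩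
    split_ifs <;> simp <;> omega

lemma mem_F {q : Vx × Vx} : q ∈ Fn φ ↔ ∃ a < WW φ, q = ((0, 3 * (a / 3)), (1, a)) ∨
    q = ((0, 3 * (a / 3)), (3 * la φ a + 5, a)) ∨ q = ((0, 3 * (a / 3)), (2, a)) ∨
    q = ((0, 3 * (a / 3)), (3 * lb φ a + 3, a)) ∨ ∃ l < LL φ, q = ((3 * l + 3, a), (3 * l + 4, a)) ∨
    q = ((3 * l + 4, a), (3 * l + 5, a)) ∨ (a + 1 < WW φ ∧ q = ((3 * l + 5, a), (3 * l + 3, a + 1))) := by
  simp [Fn]

lemma lt_L (a : ℕ) : la φ a < LL φ ∧ lb φ a < LL φ := by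
  have : (cl φ (a / 3)).1.1 + (cl φ (a / 3)).2.1.1 + (cl φ (a / 3)).2.2.1 ≤
      (φ.map fun c => c.1.1 + c.2.1.1 + c.2.2.1).sum := by
    by_cases h : a / 3 < φ.length
    · exact single_le_sum (by simp) _ (mem_map.2 ⟨_, by simp [cl, h], rfl⟩)
    · simp [cl, getD_eq_getElem?_getD, getElem?_eq_none (not_lt.1 h)]
  simp only [la, lb, LL, lit]
  split_ifs <;> omega

lemma F_lt {q : Vx × Vx} (h : q ∈ Fn φ) : q.1.1 < 3 * LL φ + 3 ∧ q.1.2 < WW φ ∧
    q.2.1 < 3 * LL φ + 3 ∧ q.2.2 < WW φ ∧ q.1 ≠ q.2 := by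
  obtain ⟨a, ha, h⟩ := mem_F.1 h
  have := lt_L (φ := φ) a
  rcases h with rfl | rfl | rfl | rfl | ⟨l, hl, rfl | rfl | ⟨h, rfl⟩⟩ <;> simp <;> omega

lemma ix_dm {v : Vx} (h : v.2 < W) : ix W v / W = v.1 ∧ ix W v % W = v.2 := by
  rw [ix, Nat.mul_add_div (by omega), Nat.mul_add_mod, Nat.div_eq_of_lt h, Nat.mod_eq_of_lt h]; simp

lemma ix_lt {R : ℕ} {v : Vx} (h1 : v.1 < R) (h : v.2 < W) : ix W v < R * W := by
  simp only [ix]; nlinarith

lemma valid : Valid (red φ).1 (red φ).2.1 (red φ).2.2.1 (red φ).2.2.2 := by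
  refine ⟨?_, fun t ht => ?_, fun q hq => ?_⟩
  · rintro ⟨⟨t, u⟩, t', u'⟩ h
    simp only [red, mem_E, mem_V, Prod.mk.injEq] at *
    omega
  · obtain ⟨n, hn, rfl⟩ := mem_map.1 ht
    rw [mem_range] at hn
    have w : 0 < WW φ := Nat.pos_of_ne_zero fun h => by simp [h] at hn
    have := Nat.div_lt_of_lt_mul (by rwa [mul_comm] : n < WW φ * (3 * LL φ + 3))
    have := Nat.mod_lt n w
    have := lt_L (φ := φ) (n % WW φ)
    have : WW φ % 3 = 0 := by simp [WW]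
    simp only [red, mem_V, term]
    generalize n / WW φ = ρ at *
    generalize n % WW φ = a at *
    split_ifs <;> simp only <;> omega
  · obtain ⟨q, hq', rfl⟩ := mem_map.1 hq
    obtain ⟨a, b, c, d, e⟩ := F_lt hq'
    simp only [red, Tl, length_map, length_range]
    refine ⟨ix_lt a b, ix_lt c d, fun h => e ?_⟩
    have := ix_dm b; have := ix_dm d
    grind

lemma deg : DegLe (red φ).2.2.2 12 := fun i => by
  let nb := fun ρ a : ℕ => if ρ = 0 then [a, a + 1, a + 2].flatMap fun a =>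
      [(1, a), (2, a), (3 * la φ a + 5, a), (3 * lb φ a + 3, a)]
    else [(0, 3 * (a / 3)), (ρ + 1, a), (ρ - 1, a), (ρ - 2, a + 1), (ρ + 2, a - 1)]
  refine ⟨((nb (i / WW φ) (i % WW φ)).map (ix (WW φ))).toFinset, (toFinset_card_le _).trans ?_,
    fun j h => ?_⟩
  · simp only [nb]; split_ifs <;> simp
  rw [mem_toFinset]
  rcases h with h | h <;> obtain ⟨q, hq, e⟩ := mem_map.1 h <;> obtain ⟨rfl, rfl⟩ := Prod.mk.inj e <;>
    refine mem_map_of_mem ?_
  · rw [(ix_dm (F_lt hq).2.1).1, (ix_dm (F_lt hq).2.1).2]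
    obtain ⟨a, ha, h⟩ := mem_F.1 hq
    obtain f | f | f : a = 3 * (a / 3) ∨ a = 3 * (a / 3) + 1 ∨ a = 3 * (a / 3) + 2 := by omega
    all_goals rcases h with rfl | rfl | rfl | rfl | ⟨l, hl, rfl | rfl | ⟨h, rfl⟩⟩ <;> simp [nb, ← f]
  · rw [(ix_dm (F_lt hq).2.2.2.1).1, (ix_dm (F_lt hq).2.2.2.1).2]
    obtain ⟨a, ha, h⟩ := mem_F.1 hq
    rcases h with rfl | rfl | rfl | rfl | ⟨l, hl, rfl | rfl | ⟨h, rfl⟩⟩ <;> simp [nb]

lemma sol_iff : Sol (red φ).2.1 (red φ).2.2.1 (red φ).2.2.2 ↔ ∃ Q : Vx → List Vx,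
    (∀ ρ < 3 * LL φ + 3, ∀ a < WW φ, IsPath (El (LL φ) (WW φ)) (term φ ρ a).1 (term φ ρ a).2 (Q (ρ, a))) ∧
    ∀ q ∈ Fn φ, (Q q.1).Disjoint (Q q.2) := by
  constructor
  · rintro ⟨P, h1, h2⟩
    refine ⟨fun v => P (ix (WW φ) v), fun ρ hρ a ha => ?_, fun q hq => h2 _ (mem_map_of_mem hq)⟩
    have := h1 (ix (WW φ) (ρ, a)) (by simpa [red, Tl] using ix_lt (v := (ρ, a)) hρ ha)
    simpa [red, Tl, ix_dm (v := (ρ, a)) ha] using this
  · rintro ⟨Q, h1, h2⟩
    refine ⟨fun n => Q (n / WW φ, n % WW φ), fun n hn => ?_, fun q hq => ?_⟩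
    · simp only [red, Tl, length_map, length_range] at hn
      have w : 0 < WW φ := Nat.pos_of_ne_zero fun h => by simp [h] at hn
      simpa [red, Tl] using h1 _ (Nat.div_lt_of_lt_mul (by rwa [mul_comm])) _ (Nat.mod_lt n w)
    · obtain ⟨q, hq', rfl⟩ := mem_map.1 hq
      simpa [ix_dm (F_lt hq').2.1, ix_dm (F_lt hq').2.2.2.1] using h2 q hq'

def tr (L j d l : ℕ) (t : ℕ) : ℕ :=
  if t < 9 then 9 * j + min t (3 * d + 1)
  else if t < 3 * L + 9 then 9 * j + 3 * d + t / 3 - 2 +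
    (if t % 3 = 2 ∨ (t % 3 = 1 ∧ t = 3 * l + 10) then 1 else 0)
  else 9 * j + L + min (3 * d + 1 + (t - (3 * L + 9))) 8

theorem complete (h : SAT3 φ) : Sol (red φ).2.1 (red φ).2.2.1 (red φ).2.2.2 := by
  obtain ⟨σ, hσ⟩ := h
  have : ∀ j, ∃ d < 3, j < φ.length → σ (lit φ (3 * j + d)).1 = (lit φ (3 * j + d)).2 := fun j => by
    by_cases h : j < φ.length
    · rcases hσ (cl φ j) (by simp [cl, h]) with h | h | h
      · exact ⟨0, by omega, fun _ => by simpa [lit]⟩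
      · exact ⟨1, by omega, fun _ => by simpa [lit, show (3 * j + 1) / 3 = j by omega]⟩
      · exact ⟨2, by omega, fun _ => by simpa [lit, show (3 * j + 2) / 3 = j by omega]⟩
    · exact ⟨0, by omega, fun c => absurd c h⟩
  choose d d3 hd using this
  let up := fun l => if σ (l / 2) = decide (l % 2 = 1) then 1 else 0
  have u1 : ∀ l, up l ≤ 1 := fun l => by simp only [up]; split_ifs <;> simp
  have ua : ∀ a, σ (lit φ a).1 = (lit φ a).2 → up (la φ a) = 1 ∧ up (lb φ a) = 0 := fun a h => by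
    simp only [up, la, lb]
    cases e : (lit φ a).2 <;> simp [h, e, show ∀ x, (2 * x + 1) / 2 = x by omega]
  have w3 : WW φ = 3 * φ.length := rfl
  refine sol_iff.2 ⟨fun v => if v.1 = 0 then
      mk 0 (3 * LL φ + 17) (tr (LL φ) (v.2 / 3) (d (v.2 / 3)) (la φ (3 * (v.2 / 3) + d (v.2 / 3))))
    else if v.1 = 1 then mk (3 * la φ v.2 + 9) 1 fun t => 3 * v.2 + la φ v.2 + (t - (3 * la φ v.2 + 9))
    else if v.1 = 2 then mk (3 * lb φ v.2 + 9) 1 fun _ => 3 * v.2 + 2 + lb φ v.2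
    else mk (3 * (v.1 / 3) + 6) 2 fun t => 3 * v.2 + v.1 % 3 + (v.1 / 3 - 1) +
      if t % 3 = 0 then 0 else if t % 3 = 1 then up (v.1 / 3 - 1) else 1,
    fun ρ hρ a ha => ?_, fun q hq => ?_⟩
  · have := lt_L (φ := φ) a
    have := d3 (a / 3)
    have := u1 (ρ / 3 - 1)
    simp only [term]
    split_ifs <;> refine mk_path ?_ ?_ fun i h1 h2 => ?_ <;>
      simp only [mem_E, tr, Prod.mk.injEq, true_and, true_or] <;> (try split_ifs) <;> omega
  · obtain ⟨a, ha, h⟩ := mem_F.1 hq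
    have := lt_L (φ := φ) a
    have := d3 (a / 3)
    have k := ua _ (hd (a / 3) (by omega))
    have ne : la φ a ≠ lb φ a := by simp only [la, lb]; split_ifs <;> omega
    have e : 3 * (a / 3) + d (a / 3) = a → up (la φ a) = 1 ∧ up (lb φ a) = 0 ∧
      la φ (3 * (a / 3) + d (a / 3)) = la φ a := fun e => by rw [e] at k ⊢; simp [k]
    have := u1 (la φ a); have := u1 (lb φ a)
    have dv : ∀ x c, (3 * x + (c + 3)) / 3 - 1 = x + c / 3 := by omega
    rintro ⟨t, u⟩ h1 h2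
    rcases h with rfl | rfl | rfl | rfl | ⟨l, hl, rfl | rfl | ⟨h, rfl⟩⟩ <;>
      simp only [if_true, mem_mk, tr, Nat.mul_div_cancel_left _ (show 0 < 3 by omega), dv,
        Nat.succ_ne_zero, if_false, Nat.succ.injEq, Nat.reduceDiv, add_zero, Nat.reduceEqDiff] at h1 h2
    all_goals (try have := u1 l); (try split_ifs at h1 h2) <;> omega

theorem sound (h : Sol (red φ).2.1 (red φ).2.2.1 (red φ).2.2.2) : SAT3 φ := by
  obtain ⟨Q, h1, h2⟩ := sol_iff.1 h
  have w3 : WW φ = 3 * φ.length := rfl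
  have hE : ∀ e ∈ El (LL φ) (WW φ), e.2.1 = e.1.1 + 1 := by
    rintro ⟨⟨t, u⟩, t', u'⟩ h; exact (mem_E.1 h).2.2.1
  have pf := fun ρ hρ a ha => path_fun hE _ _ (h1 ρ hρ a ha).1 (h1 ρ hρ a ha).2.1 (h1 ρ hρ a ha).2.2.2
  have sq : ∀ l < LL φ, ∀ d < 3, ∀ a < WW φ, (3 * l + 10, 3 * a + d + l) ∈ Q (3 * l + 3 + d, a) ∨
      (3 * l + 10, 3 * a + d + l + 1) ∈ Q (3 * l + 3 + d, a) := fun l hl d hd a ha => by
    obtain ⟨h, e1, -, -, m, c⟩ := pf (3 * l + 3 + d) (by omega) a ha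
    simp only [term, show 3 * l + 3 + d ≠ 0 by omega, show 3 * l + 3 + d ≠ 1 by omega,
      show 3 * l + 3 + d ≠ 2 by omega, if_false, show (3 * l + 3 + d) / 3 = l + 1 by omega,
      show (3 * l + 3 + d) % 3 = d by omega, show 3 * (l + 1) + 6 = 3 * l + 9 by omega] at e1 m c
    have := m (3 * l + 10) (by omega) (by omega)
    rcases (mem_E.1 (c (3 * l + 9) le_rfl (by omega))).2.2.2.1 with e | e <;> rw [e, e1] at this
    exacts [.inl this, .inr this]
  have up : ∀ l < LL φ, ∀ a b, a + b < WW φ → (3 * l + 10, 3 * a + 2 + l + 1) ∈ Q (3 * l + 3 + 2, a) →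
      (3 * l + 10, 3 * (a + b) + 2 + l + 1) ∈ Q (3 * l + 3 + 2, a + b) ∧ (a + b + 1 < WW φ →
      (3 * l + 10, 3 * (a + b + 1) + 0 + l + 1) ∈ Q (3 * l + 3 + 0, a + b + 1)) := fun l hl a b => by
    have s3 : ∀ a, (3 * l + 10, 3 * a + 2 + l + 1) ∈ Q (3 * l + 3 + 2, a) → a + 1 < WW φ →
        (3 * l + 10, 3 * (a + 1) + 0 + l + 1) ∈ Q (3 * l + 3 + 0, a + 1) := fun a h ha =>
      (sq l hl 0 (by omega) _ ha).resolve_left fun c => h2 _ (mem_F.2 ⟨a, by omega, .inr (.inr (.inr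
        (.inr ⟨l, hl, .inr (.inr ⟨ha, rfl⟩)⟩)))⟩) h (by convert c using 2; omega)
    induction b with
    | zero => exact fun _ h => ⟨h, s3 _ h⟩
    | succ b ih =>
      intro hb h
      have c0 := (ih (by omega) h).2 hb
      have c1 := (sq l hl 1 (by omega) _ hb).resolve_left fun c => h2 _ (mem_F.2 ⟨_, hb, .inr (.inr (.inr
        (.inr ⟨l, hl, .inl rfl⟩)))⟩) c0 (by convert c using 2; omega)
      have c2 := (sq l hl 2 (by omega) _ hb).resolve_left fun c => h2 _ (mem_F.2 ⟨_, hb, .inr (.inr (.inr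
        (.inr ⟨l, hl, .inr (.inl rfl)⟩)))⟩) c1 (by convert c using 2; omega)
      exact ⟨c2, s3 _ c2⟩
  have : ∀ j, ∃ a, j < φ.length → a / 3 = j ∧
      (3 * la φ a + 10, 3 * a + 2 + la φ a + 1) ∈ Q (3 * la φ a + 3 + 2, a) ∧
      (3 * lb φ a + 10, 3 * a + 0 + lb φ a + 1) ∉ Q (3 * lb φ a + 3 + 0, a) := fun j => by
    by_cases hj : j < φ.length
    swap
    · exact ⟨0, fun c => absurd c hj⟩
    obtain ⟨h, e1, -, -, m, c⟩ := pf 0 (by omega) (3 * j) (by omega)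
    simp only [term, if_true, Nat.mul_div_cancel_left _ (show 0 < 3 by omega), mem_E] at e1 m c
    have L2 : 2 ≤ LL φ := by simp [LL]
    have i1 : ∀ t ≤ 8, 9 * j ≤ h t ∧ h t ≤ 9 * j + t := fun t => by
      induction t with
      | zero => omega
      | succ t ih => intro ht; have := c t (by omega) (by omega); omega
    have := i1 8 le_rfl
    have := (c 8 (by omega) (by omega)).2.2.2.2 rfl le_rfl (by omega)
    simp only [Nat.reduceAdd] at this
    obtain ⟨a, ea⟩ : ∃ a, h 9 = 3 * a + 1 := ⟨h 9 / 3, by omega⟩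
    have i2 : ∀ l ≤ LL φ, h (3 * l + 9) = 3 * a + 1 + l := fun l => by
      induction l with
      | zero => simp [ea]
      | succ l ih =>
        intro hl
        have := c (3 * l + 9) (by omega) (by omega)
        have := c (3 * l + 10) (by omega) (by omega)
        have := c (3 * l + 11) (by omega) (by omega)
        rw [show 3 * (l + 1) + 9 = 3 * l + 11 + 1 by omega]
        simp only [add_assoc, Nat.reduceAdd] at *
        omega
    have i3 : ∀ l < LL φ, (3 * l + 10, 3 * a + 1 + l) ∈ Q (0, 3 * j) ∨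
        (3 * l + 10, 3 * a + 2 + l) ∈ Q (0, 3 * j) := fun l hl => by
      have := m (3 * l + 10) (by omega) (by omega)
      rcases (c (3 * l + 9) (by omega) (by omega)).2.2.2.1 with e | e <;> rw [e, i2 l hl.le] at this
      exacts [.inl this, .inr (by convert this using 2; omega)]
    have ha : a < WW φ := by omega
    obtain rfl : a / 3 = j := by omega
    have lt := lt_L (φ := φ) a
    have k1 := mem_of_getLast? (h1 1 (by omega) a ha).2.1
    have k2 := mem_of_getLast? (h1 2 (by omega) a ha).2.1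
    refine ⟨a, fun _ => ⟨rfl, (sq _ lt.1 2 (by omega) a ha).resolve_left fun c => ?_, fun c => ?_⟩⟩
    · exact h2 _ (mem_F.2 ⟨a, ha, .inr (.inl rfl)⟩) ((i3 _ lt.1).resolve_left fun c =>
        h2 _ (mem_F.2 ⟨a, ha, .inl rfl⟩) c k1) c
    · exact h2 _ (mem_F.2 ⟨a, ha, .inr (.inr (.inr (.inl rfl)))⟩) ((i3 _ lt.2).resolve_right fun c =>
        h2 _ (mem_F.2 ⟨a, ha, .inr (.inr (.inl rfl))⟩) c k2) (by convert c using 2; omega)
  choose f hf using this
  have no : ∀ i < φ.length, ∀ j < φ.length, f i < f j → la φ (f i) ≠ lb φ (f j) := fun i hi j hj lt e => by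
    have := (hf j hj).1
    have := (up _ (lt_L _).1 (f i) (f j - f i - 1) (by omega) (hf i hi).2.1).2 (by omega)
    rw [show f i + (f j - f i - 1) + 1 = f j by omega, e] at this
    exact (hf j hj).2.2 this
  refine ⟨fun x => decide (∃ i < φ.length, lit φ (f i) = (x, true)), fun c hc => ?_⟩
  obtain ⟨j, hj, rfl⟩ := getElem_of_mem hc
  have t : decide (∃ i < φ.length, lit φ (f i) = ((lit φ (f j)).1, true)) = (lit φ (f j)).2 := by
    cases h : (lit φ (f j)).2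
    · refine decide_eq_false ?_
      rintro ⟨i, hi, r⟩
      rcases lt_trichotomy (f i) (f j) with l | l | l
      · exact no i hi j hj l (by simp [la, lb, r, h])
      · rw [← l, r] at h; simp at h
      · exact no j hj i hi l (by simp [la, lb, r, h])
    · exact decide_eq_true ⟨j, hj, by rw [← h]⟩
  have ec : cl φ (f j / 3) = φ[j] := by simp [cl, (hf j hj).1, hj]
  generalize hl : lit φ (f j) = l at t
  simp only [lit, ec] at hl
  split_ifs at hl <;> subst hl <;> simp only [t, true_or, or_true]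

end Pool.Agent.H21.PDP
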