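import Pool.Agent.H11.PTDefs

namespace Pool.Agent.H21.PDPDefs

/-- vertices are lattice points -/
abbrev Vx := ℕ × ℕ

/-- `p` lists the vertices of a directed path from `r` to `s` along arcs of `E` -/
def IsPath (E : List (Vx × Vx)) (r s : Vx) (p : List Vx) : Prop :=
  p.head? = some r ∧ p.getLast? = some s ∧ p.Nodup ∧ p.IsChain fun a b => (a, b) ∈ E

/-- `(V, E)` is a digraph whose arcs go from `(t, u)` to `(t + 1, u)` or `(t + 1, u + 1)` (a subgraph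
of a sheared square grid, so its straight-line drawing is plane); `T` lists the pairs `(r_i, s_i)`
of vertices and `F` lists pairs of distinct indices of `T` -/
def Valid (V : List Vx) (E T : List (Vx × Vx)) (F : List (ℕ × ℕ)) : Prop :=
  (∀ e ∈ E, e.1 ∈ V ∧ e.2 ∈ V ∧ (e.2 = (e.1.1 + 1, e.1.2) ∨ e.2 = (e.1.1 + 1, e.1.2 + 1))) ∧
    (∀ t ∈ T, t.1 ∈ V ∧ t.2 ∈ V) ∧ ∀ q ∈ F, q.1 < T.length ∧ q.2 < T.length ∧ q.1 ≠ q.2

/-- the disjointness graph has maximum degree at most `d` -/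
def DegLe (F : List (ℕ × ℕ)) (d : ℕ) : Prop :=
  ∀ i, ∃ N : Finset ℕ, N.card ≤ d ∧ ∀ j, (i, j) ∈ F ∨ (j, i) ∈ F → j ∈ N

/-- the instance has a solution -/
def Sol (E T : List (Vx × Vx)) (F : List (ℕ × ℕ)) : Prop :=
  ∃ P : ℕ → List Vx, (∀ i (h : i < T.length), IsPath E T[i].1 T[i].2 (P i)) ∧
    ∀ q ∈ F, (P q.1).Disjoint (P q.2)

end Pool.Agent.H21.PDPDefs
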