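import Mathlib

namespace Pool.Agent.H21.PL

open unitInterval

def IsPL (f : I ≃o I) : Prop :=
  ∃ S : Finset ℝ, ∀ a b : I, (∀ s ∈ S, ¬ ((a : ℝ) < s ∧ s < b)) →
    ∃ m c : ℝ, ∀ x : I, a ≤ x → x ≤ b → (f x : ℝ) = m * x + c

def IsF (f : I ≃o I) : Prop :=
  ∃ S : Finset ℝ, (∀ s ∈ S, ∃ (k : ℤ) (n : ℕ), s = k / 2 ^ n) ∧
    ∀ a b : I, (∀ s ∈ S, ¬ ((a : ℝ) < s ∧ s < b)) →
      ∃ (k : ℤ) (c : ℝ), ∀ x : I, a ≤ x → x ≤ b → (f x : ℝ) = 2 ^ k * x + c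

end Pool.Agent.H21.PL
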