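import Mathlib
import Pool.Agent.H21.PLDefs

namespace Pool.Agent.H21.PL

open unitInterval Set
open scoped commutatorElement

lemma IsF.pl {f} (h : IsF f) : IsPL f := h.imp fun _ h a b k =>
  (h.2 a b k).elim fun _ h => ⟨_, h⟩

lemma ca {a c : I ≃o I} (h : Commute a c) (x : I) : a (c x) = c (a x) := DFunLike.congr_fun h.eq x

def E (c : I ≃o I) : Set I := {p | c p = p ∧ ∃ z, p < z ∧ ∀ u, p < u → u ≤ z → c u ≠ u}

lemma E_fin {c} (hc : IsPL c) : (E c).Finite := by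
  obtain ⟨S, hS⟩ := hc
  refine Finite.of_finite_image (f := fun p : I => S.filter (· < (p : ℝ)))
    (S.powerset.finite_toSet.subset (by rintro _ ⟨p, -, rfl⟩; simp [-Finset.coe_filter])) fun p hp q hq e => ?_
  by_contra hn
  wlog h : p < q generalizing p q
  · exact this q hq p hp e.symm (Ne.symm hn) (lt_of_le_of_ne (not_lt.1 h) (Ne.symm hn))
  obtain ⟨h1, z, h2, h3⟩ := hp
  obtain ⟨m, k, h4⟩ := hS p q fun s hs h5 => by
    have : s ∈ S.filter (· < (p : ℝ)) := e.ge (by simp [hs, h5.2])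
    exact h5.1.not_gt (Finset.mem_filter.1 this).2
  have e1 := h4 p le_rfl h.le
  have e2 := h4 q h.le le_rfl
  rw [h1] at e1
  rw [hq.1] at e2
  have : m = 1 := mul_right_cancel₀ (sub_ne_zero.2 (Subtype.coe_ne_coe.2 hn)) (by linarith)
  refine h3 (min z q) (lt_min h2 h) (min_le_left _ _) (Subtype.ext ?_)
  rw [h4 _ (lt_min h2 h).le (min_le_right _ _), this]
  subst this
  linarith

lemma E_fix {a c} (hc : IsPL c) (h : Commute a c) {p} (hp : p ∈ E c) : a p = p := by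
  have m : MapsTo a (E c) (E c) := fun p ⟨h1, z, h2, h3⟩ => ⟨by rw [← ca h, h1], a z, a.lt_iff_lt.2 h2,
    fun u h4 h5 h6 => h3 (a.symm u) (by simpa [a.lt_symm_apply]) (by simpa [a.symm_apply_le])
      (a.injective (by rw [ca h]; simpa))⟩
  have := (E_fin hc).to_subtype
  have := StrictMono.apply_eq (f := m.restrict) (fun _ _ h => a.lt_iff_lt.2 h) (x := ⟨p, hp⟩)
  exact congrArg Subtype.val this

lemma ex_p {c : I ≃o I} {z} (hz : c z ≠ z) : ∃ p, c p = p ∧ p < z ∧ ∀ u, p < u → u ≤ z → c u ≠ u := by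
  have h : c (sSup {u | u ≤ z ∧ c u = u}) = sSup {u | u ≤ z ∧ c u = u} := by
    rw [c.map_sSup, sSup_eq_iSup]
    exact iSup_congr fun u => iSup_congr fun h => h.2
  exact ⟨_, h, lt_of_le_of_ne (sSup_le fun _ h => h.1) fun e => hz (e ▸ h),
    fun u h1 h2 h3 => h1.not_ge (le_sSup ⟨h2, h3⟩)⟩

lemma P1 {a c} (hc : IsPL c) (h : Commute a c) {y z} (hz : c z ≠ z) (hy : c y = y) :
    y < z ↔ y < a z := by
  have : ∀ {a z}, Commute a c → c z ≠ z → y < z → y < a z := fun {a z} h hz e => by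
    obtain ⟨p, h1, h2, h3⟩ := ex_p hz
    have := E_fix hc h ⟨h1, z, h2, h3⟩
    exact (not_lt.1 fun k => h3 y k e.le hy).trans_lt (this ▸ a.lt_iff_lt.2 h2)
  exact ⟨this h hz, fun e => by
    simpa using this h.inv_left (by rw [← ca h]; exact a.injective.ne hz) e⟩

lemma germ {a} (ha : IsPL a) {p z : I} (hp : a p = p) (h : p < z) :
    ∃ q m, p < q ∧ ∀ x : I, p ≤ x → x ≤ q → (a x : ℝ) = m * (x - p) + p := by
  obtain ⟨S, hS⟩ := ha
  obtain ⟨q, h1, h2⟩ : ∃ q : I, p < q ∧ ∀ s ∈ S, ¬ ((p : ℝ) < s ∧ s < q) := by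
    let T := insert (z : ℝ) (S.filter ((p : ℝ) < ·))
    have h3 : (p : ℝ) < T.min' (by simp [T]) := (Finset.lt_min'_iff _ _).2 (by simpa [T] using h)
    exact ⟨⟨T.min' (by simp [T]), p.2.1.trans h3.le, (T.min'_le _ (by simp [T])).trans z.2.2⟩, h3,
      fun s hs k => k.2.not_ge (T.min'_le _ (by simp [T, hs, k.1]))⟩
  obtain ⟨m, c, h3⟩ := hS p q h2
  refine ⟨q, m, h1, fun x k1 k2 => ?_⟩
  have := h3 p le_rfl h1.le
  rw [hp] at this
  rw [h3 x k1 k2]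
  linarith

lemma P2 {a b c} (ha : IsPL a) (hb : IsPL b) (hc : IsPL c) (h : Commute a c) (h' : Commute b c) {z}
    (hz : c z ≠ z) : a (b z) = b (a z) := by
  obtain ⟨p, h1, h2, h3⟩ := ex_p hz
  have e1 := E_fix hc h ⟨h1, z, h2, h3⟩
  have e2 := E_fix hc h' ⟨h1, z, h2, h3⟩
  obtain ⟨q, m, k1, k2⟩ := germ ha e1 h2
  obtain ⟨q', m', k3, k4⟩ := germ hb e2 h2
  have hi : c (⨅ n : ℤ, (c ^ n) z) = ⨅ n : ℤ, (c ^ n) z := by
    rw [c.map_iInf]
    exact (Equiv.addLeft 1).iInf_congr fun n => by simp [zpow_add]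
  have hp : ∀ n : ℤ, p ≤ (c ^ n) z := fun n => by
    have : (c ^ n) p = p := MulAction.mem_fixedBy_zpow (a := p) (g := c) h1 n
    exact this ▸ (c ^ n).le_iff_le.2 h2.le
  obtain ⟨n, hn⟩ : ∃ n : ℤ, (c ^ n) z < min (min q q') (min (a.symm q') (b.symm q)) :=
    iInf_lt_iff.1 ((not_lt.1 fun k => h3 _ k (iInf_le_of_le 0 le_rfl) hi).trans_lt
      (by simp [k1, k3, a.lt_symm_apply, b.lt_symm_apply, e1, e2]))
  simp only [lt_min_iff, a.lt_symm_apply, b.lt_symm_apply] at hn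
  refine (c ^ n).injective ?_
  rw [← ca (h.zpow_right n), ← ca (h'.zpow_right n), ← ca (h'.zpow_right n), ← ca (h.zpow_right n)]
  refine Subtype.ext ?_
  rw [k2 _ (e2 ▸ b.le_iff_le.2 (hp n)) hn.2.2.le, k4 _ (hp n) hn.1.2.le,
    k4 _ (e1 ▸ a.le_iff_le.2 (hp n)) hn.2.1.le, k2 _ (hp n) hn.1.1.le]
  ring

lemma P3 {a b c} (ha : IsPL a) (hb : IsPL b) (hc : IsPL c) (h : Commute a c) (h' : Commute b c) {z}
    (hz : ⁅a, b⁆ z ≠ z) : c z = z := by
  by_contra k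
  refine hz ?_
  have := P2 ha hb hc h h' (z := a⁻¹ (b⁻¹ z)) (by
    rw [← ca h.inv_left, ← ca h'.inv_left]; simpa using k)
  simpa [commutatorElement_def] using this

lemma nopat {K : Subgroup (I ≃o I)} {F G s : I ≃o I} (hF : IsPL F) (hG : IsPL (s * G * s⁻¹))
    (h1 : Commute s⁻¹ F) (h2 : ∀ k ∈ K, Commute k (s * G * s⁻¹)) (h3 : ∀ z, F z ≠ z → G z = z)
    (h4 : ∀ z, F z ≠ z → (s * G * s⁻¹) z = z) {x a b y : I} {k₁ k₂ : K} (ha : k₁.1 x ≤ a)
    (hb : b ≤ k₂.1 x) (e1 : F a ≠ a) (e2 : F b ≠ b) (e3 : G y ≠ y) (l1 : a < y) (l2 : y < b) :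
    False := by
  have e4 : F y = y := by_contra fun h => e3 (h3 y h)
  have e5 : (s * G * s⁻¹) (s y) ≠ s y := by simpa using e3
  have l3 : a < s y := by
    refine s.symm_apply_lt.1 ((not_lt.1 ((P1 hF h1 e1 e4).not.1 l1.not_gt)).lt_of_ne fun h => e1 ?_)
    exact s⁻¹.injective (by rw [ca h1, h, e4])
  have l4 : s y < b := s.lt_symm_apply.1 ((P1 hF h1 e2 e4).1 l2)
  have hm : ∀ k : K, k.1 (⨅ k : K, k.1 (s y)) = ⨅ k : K, k.1 (s y) := fun k => by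
    rw [k.1.map_iInf]
    exact (Equiv.mulLeft k).iInf_congr fun n => rfl
  have l5 : k₁.1 x ≤ ⨅ k : K, k.1 (s y) :=
    ha.trans (le_iInf fun k => ((P1 hG (h2 _ k.2) e5 (h4 a e1)).1 l3).le)
  have := (k₂ * k₁⁻¹).1.le_iff_le.2 l5
  rw [hm] at this
  exact (hb.trans (le_trans (by simp) (this.trans (iInf_le_of_le 1 le_rfl)))).not_gt l4

theorem mixed {P : Subgroup (I ≃o I)} {f g s t h} (pl : ∀ a ∈ P, IsPL a) (mf : f ∈ P) (mg : g ∈ P)
    (ms : s ∈ P) (mt : t ∈ P) {F G}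
    (hF : F = ⁅f, t⁆) (hG : G = ⁅g, s⁆) (c1 : Commute f G) (c2 : Commute t G)
    (c3 : Commute (s * s)⁻¹ F) (c4 : Commute (t * t)⁻¹ G)
    (c5 : ∀ a ∈ [f, t, G, h], Commute a (s * s * G * (s * s)⁻¹))
    (c6 : ∀ a ∈ [g, s, F, h], Commute a (t * t * F * (t * t)⁻¹)) :
    Commute ⁅F, h * G * h⁻¹⁆ ⁅G, h * F * h⁻¹⁆ := by
  simp only [List.forall_mem_cons] at c5 c6
  have pf := pl f mf
  have pg := pl g mg
  have ps := pl s ms
  have pt := pl t mt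
  have pF : IsPL F := pl _ (by rw [hF, commutatorElement_def]; apply_rules [P.mul_mem, P.inv_mem])
  have pG : IsPL G := pl _ (by rw [hG, commutatorElement_def]; apply_rules [P.mul_mem, P.inv_mem])
  have d : ∀ z, F z ≠ z → G z = z := fun z => hF ▸ P3 pf pt pG c1 c2
  have d' : ∀ z, G z ≠ z → F z = z := fun z h => by_contra fun k => h (d z k)
  have pG' : IsPL (s * s * G * (s * s)⁻¹) := pl _ (by rw [hG, commutatorElement_def]; apply_rules [P.mul_mem, P.inv_mem])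
  have pF' : IsPL (t * t * F * (t * t)⁻¹) := pl _ (by rw [hF, commutatorElement_def]; apply_rules [P.mul_mem, P.inv_mem])
  let K := Subgroup.closure {F, G, h}
  have cK : ∀ c, Commute F c → Commute G c → Commute h c → ∀ k ∈ K, Commute k c := fun c a b e k hk =>
    Subgroup.closure_induction (by simp [a, b, e]) (.one_left _) (fun _ _ _ _ => .mul_left)
      (fun _ _ => .inv_left) hk
  have cm : ∀ {a b c : I ≃o I}, Commute a c → Commute b c → Commute ⁅a, b⁆ c := fun a b =>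
    ((a.mul_left b).mul_left a.inv_left).mul_left b.inv_left
  refine DFunLike.ext _ _ fun x => ?_
  let Ω : SubMulAction K I := ⟨{y | ∃ k₁ k₂ : K, k₁.1 x ≤ y ∧ y ≤ k₂.1 x}, fun k y ⟨a, b, h1, h2⟩ =>
    ⟨k * a, k * b, k.1.le_iff_le.2 h1, k.1.le_iff_le.2 h2⟩⟩
  have n1 : ∀ a b y, a ∈ Ω → b ∈ Ω → F a ≠ a → F b ≠ b → G y ≠ y → a < y → y < b → False :=
    fun a b y ⟨_, _, h1, _⟩ ⟨_, _, _, h2⟩ => nopat pF pG' c3 (cK _ (hF ▸ cm c5.1 c5.2.1) c5.2.2.1 c5.2.2.2.1) d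
      (fun z => hF ▸ P3 pf pt pG' c5.1 c5.2.1) h1 h2
  have n2 : ∀ a b y, a ∈ Ω → b ∈ Ω → G a ≠ a → G b ≠ b → F y ≠ y → a < y → y < b → False :=
    fun a b y ⟨_, _, h1, _⟩ ⟨_, _, _, h2⟩ => nopat pG pF' c4 (cK _ c6.2.2.1 (hG ▸ cm c6.1 c6.2.1) c6.2.2.2.1) d'
      (fun z => hG ▸ P3 pg ps pF' c6.1 c6.2.1) h1 h2
  let F' : K := ⟨F, Subgroup.subset_closure (by simp)⟩
  let G' : K := ⟨G, Subgroup.subset_closure (by simp)⟩
  let h' : K := ⟨h, Subgroup.subset_closure (by simp)⟩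
  let ρ := MulAction.toPermHom K Ω
  have : (ρ F').Disjoint (ρ (h' * G' * h'⁻¹)) ∨ (ρ G').Disjoint (ρ (h' * F' * h'⁻¹)) := by
    by_contra! k
    simp only [Equiv.Perm.Disjoint, not_forall, not_or] at k
    obtain ⟨⟨a, k1, k2⟩, b, k3, k4⟩ := k
    have k1 : F a ≠ a := fun e => k1 (Subtype.ext e)
    have k3 : G b ≠ b := fun e => k3 (Subtype.ext e)
    have k2 : G (h⁻¹ a) ≠ h⁻¹ a := fun e => k2 (Subtype.ext (show h (G (h⁻¹ a)) = a by simp [e]))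
    have k4 : F (h⁻¹ b) ≠ h⁻¹ b := fun e => k4 (Subtype.ext (show h (F (h⁻¹ b)) = b by simp [e]))
    have ha : h⁻¹ a ∈ Ω := (h'⁻¹ • a).2
    have hb : h⁻¹ b ∈ Ω := (h'⁻¹ • b).2
    have ne : ∀ {u v}, F u ≠ u → G v ≠ v → u < v ∨ v < u := fun e e' =>
      lt_or_gt_of_ne fun k => e' (k ▸ d _ e)
    rcases ne k1 k3 with l | l <;> have l' := h⁻¹.lt_iff_lt.2 l
    · rcases ne k1 k2 with m | m
      · exact n1 _ _ _ a.2 hb k1 k4 k2 m l'
      · exact n2 _ _ _ ha b.2 k2 k3 k1 m l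
    · rcases ne k4 k3 with m | m
      · exact n1 _ _ _ hb a.2 k4 k1 k3 m l
      · exact n2 _ _ _ b.2 ha k3 k2 k4 m l'
  have : Commute (ρ ⁅F', h' * G' * h'⁻¹⁆) (ρ ⁅G', h' * F' * h'⁻¹⁆) := by
    rw [map_commutatorElement, map_commutatorElement]
    rcases this with k | k <;> rw [commutatorElement_eq_one_iff_commute.2 k.commute]
    exacts [.one_left _, .one_right _]
  have k : ∀ a b : K, Commute (ρ a) (ρ b) → (a.1 * b.1) x = (b.1 * a.1) x := fun a b k => by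
    have := congrArg Subtype.val (DFunLike.congr_fun k.eq (⟨x, 1, 1, le_rfl, le_rfl⟩ : Ω))
    simpa [ρ, Subgroup.smul_def] using this
  exact k _ _ this

end Pool.Agent.H21.PL
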