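import Mathlib

namespace Pool.Agent.H21.PLT

open Set

variable {E F G : Type} [NormedAddCommGroup E] [NormedSpace ℝ E] [NormedAddCommGroup F]
  [NormedSpace ℝ F] [NormedAddCommGroup G] [NormedSpace ℝ G]

inductive T (f : E → F) : Set E → Prop
  | aff {S} (A : E →ᵃ[ℝ] F) : (∀ x ∈ S, f x = A x) → T f S
  | cut {S} (l : E →ᵃ[ℝ] ℝ) : T f (S ∩ {x | l x ≤ 0}) → T f (S ∩ {x | (-l) x ≤ 0}) → T f S

lemma T.congr {f g : E → F} {S S'} (h : T f S) (hs : S' ⊆ S) (e : ∀ x ∈ S', g x = f x) : T g S' := by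
  induction h generalizing S' with
  | aff A h => exact .aff A fun x hx => (e x hx).trans (h x (hs hx))
  | cut l _ _ h1 h2 =>
    exact .cut l (h1 (inter_subset_inter_left _ hs) fun x hx => e x hx.1)
      (h2 (inter_subset_inter_left _ hs) fun x hx => e x hx.1)

lemma T.comp {f : E → F} {g : F → G} {S S'} (hf : T f S) (hg : T g S') (m : MapsTo f S S') :
    T (fun x => g (f x)) S := by
  induction hf with
  | cut l _ _ h1 h2 => exact .cut l (h1 (m.mono_left inter_subset_left)) (h2 (m.mono_left inter_subset_left))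
  | @aff S A h =>
    induction hg generalizing S with
    | aff B k => exact .aff (B.comp A) fun x hx => by rw [k _ (m hx), h x hx]; rfl
    | cut l _ _ h1 h2 =>
      exact .cut (l.comp A) (h1 (fun x hx => h x hx.1) fun x hx => ⟨m hx.1, by simpa [h x hx.1] using hx.2⟩)
        (h2 (fun x hx => h x hx.1) fun x hx => ⟨m hx.1, by simpa [h x hx.1] using hx.2⟩)

lemma T.pair {f : E → F} {g : E → G} {S} (hf : T f S) (hg : T g S) : T (fun x => (f x, g x)) S := by
  induction hf with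
  | cut l _ _ h1 h2 =>
    exact .cut l (h1 (hg.congr inter_subset_left fun _ _ => rfl))
      (h2 (hg.congr inter_subset_left fun _ _ => rfl))
  | @aff S A h =>
    induction hg with
    | aff B k => exact .aff (A.prod B) fun x hx => by simp [k _ hx, h x hx]
    | cut l _ _ h1 h2 => exact .cut l (h1 fun x hx => h x hx.1) (h2 fun x hx => h x hx.1)

lemma T.lin {f : E → F} {S} (hf : T f S) (A : F →ₗ[ℝ] G) : T (fun x => A (f x)) S :=
  hf.comp (.aff A.toAffineMap fun _ _ => rfl) (mapsTo_univ _ _)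

lemma T.id {S : Set E} : T (fun x => x) S := .aff (.id ℝ E) fun _ _ => rfl
lemma T.const {S : Set E} {c : F} : T (fun _ => c) S := .aff (.const ℝ E c) fun _ _ => rfl
lemma T.fst {f : E → F × G} {S} (hf : T f S) : T (fun x => (f x).1) S := hf.lin (.fst ..)
lemma T.snd {f : E → F × G} {S} (hf : T f S) : T (fun x => (f x).2) S := hf.lin (.snd ..)
lemma T.smul {f : E → F} {S} (c : ℝ) (hf : T f S) : T (fun x => c • f x) S := hf.lin (c • .id)
lemma T.neg {f : E → F} {S} (hf : T f S) : T (fun x => -f x) S := hf.lin (-.id)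
lemma T.add {f g : E → F} {S} (hf : T f S) (hg : T g S) : T (fun x => f x + g x) S :=
  (hf.pair hg).lin (.fst ℝ F F + .snd ℝ F F)
lemma T.sub {f g : E → F} {S} (hf : T f S) (hg : T g S) : T (fun x => f x - g x) S :=
  (hf.pair hg).lin (.fst ℝ F F - .snd ℝ F F)

lemma T.max {f g : E → ℝ} {S} (hf : T f S) (hg : T g S) : T (fun x => max (f x) (g x)) S :=
  (hf.pair hg).comp (g := fun p => Max.max p.1 p.2) (.cut (LinearMap.fst ℝ ℝ ℝ - .snd ℝ ℝ ℝ).toAffineMap
    (.aff (LinearMap.snd ℝ ℝ ℝ).toAffineMap fun x h => by simpa using h.2)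
    (.aff (LinearMap.fst ℝ ℝ ℝ).toAffineMap fun x h => by simpa using h.2)) (mapsTo_univ _ _)

lemma T.min {f g : E → ℝ} {S} (hf : T f S) (hg : T g S) : T (fun x => min (f x) (g x)) S :=
  (hf.neg.max hg.neg).neg.congr subset_rfl fun _ _ => by simp [max_neg_neg]

lemma T.abs {f : E → ℝ} {S} (hf : T f S) : T (fun x => |f x|) S := hf.max hf.neg

variable [FiniteDimensional ℝ E]

lemma T.cont {f : E → F} {S} (hf : T f S) (h : IsClosed S) : ContinuousOn f S := by
  induction hf with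
  | aff A k => exact A.continuous_of_finiteDimensional.continuousOn.congr k
  | @cut S l _ _ h1 h2 =>
    have : ∀ l : E →ᵃ[ℝ] ℝ, IsClosed (S ∩ {x | l x ≤ 0}) := fun l =>
      h.inter (isClosed_le l.continuous_of_finiteDimensional continuous_const)
    refine ((h1 (this _)).union_of_isClosed (h2 (this _)) (this _) (this _)).mono fun x hx => ?_
    simpa [hx] using le_total _ _

def P (L : List (E →ᵃ[ℝ] ℝ)) : Set E := {x | ∀ l ∈ L, l x ≤ 0}

lemma hull {L : List (E →ᵃ[ℝ] ℝ)} (h : IsCompact (P L)) : ∃ s : Finset E, convexHull ℝ s = P L := by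
  classical
  have hf : ((P L).extremePoints ℝ).Finite := by
    refine Finite.of_finite_image (f := fun x => L.toFinset.filter (· x = 0))
      (L.toFinset.powerset.finite_toSet.subset (by
        rintro _ ⟨p, -, rfl⟩; exact Finset.mem_coe.2 (Finset.mem_powerset.2 (Finset.filter_subset _ _))))
      fun x hx y hy e => ?_
    have : ∀ᶠ t in nhdsWithin (0 : ℝ) (Ioi 0), ∀ l ∈ L.toFinset, l (AffineMap.lineMap x y (-t)) ≤ 0 := by
      refine (Finset.eventually_all _).2 fun l hl => ?_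
      simp only [AffineMap.apply_lineMap]
      rcases (hx.1 l (List.mem_toFinset.1 hl)).eq_or_lt with k | k
      · have : l ∈ L.toFinset.filter (· y = 0) := e.le (Finset.mem_filter.2 ⟨hl, k⟩)
        simp [k, (Finset.mem_filter.1 this).2]
      · refine (((by fun_prop : Continuous fun t : ℝ => AffineMap.lineMap (l x) (l y) (-t)).tendsto'
          0 (l x) (by simp)).eventually_le_const k).filter_mono nhdsWithin_le_nhds
    obtain ⟨t, h1, h2⟩ := (this.and self_mem_nhdsWithin).exists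
    have h2 : 0 < t := h2
    refine (hx.2 hy.1 (fun l hl => h1 l (List.mem_toFinset.2 hl)) ⟨t / (1 + t), 1 / (1 + t),
      by positivity, by positivity, by field_simp; ring, ?_⟩).symm
    simp only [AffineMap.lineMap_apply, vsub_eq_sub, vadd_eq_add]
    match_scalars <;> field_simp <;> ring
  refine ⟨hf.toFinset, ?_⟩
  rw [hf.coe_toFinset, ← (hf.isClosed_convexHull ℝ).closure_eq, closure_convexHull_extremePoints h]
  rw [show P L = ⋂ l ∈ L, l ⁻¹' Iic 0 by ext; simp [P]]
  exact convex_iInter₂ fun l _ => (convex_Iic _).affine_preimage l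

lemma T.cover {f : E → F} {S} (hf : T f S) : ∀ L, IsCompact (P L) → P L ⊆ S →
    ∃ C : List (Finset E × (E →ᵃ[ℝ] F)), (∀ x ∈ P L, ∃ c ∈ C, x ∈ convexHull ℝ (c.1 : Set E)) ∧
      ∀ c ∈ C, ∀ x ∈ convexHull ℝ (c.1 : Set E), f x = c.2 x := by
  induction hf with
  | aff A k =>
    intro L h1 h2
    obtain ⟨s, hs⟩ := hull h1
    exact ⟨[(s, A)], by simp [hs], by simpa [hs] using fun x hx => k x (h2 hx)⟩
  | @cut S l _ _ k1 k2 =>
    intro L h1 h2
    have e : ∀ l, P (l :: L) = P L ∩ {x | l x ≤ 0} := fun l => by ext; simp [P, and_comm]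
    have c : ∀ l, IsCompact (P (l :: L)) := fun l => e l ▸
      h1.inter_right (isClosed_le l.continuous_of_finiteDimensional continuous_const)
    obtain ⟨C, h3, h4⟩ := k1 _ (c l) (e l ▸ inter_subset_inter_left _ h2)
    obtain ⟨D, h5, h6⟩ := k2 _ (c (-l)) (e _ ▸ inter_subset_inter_left _ h2)
    refine ⟨C ++ D, fun x hx => ?_, List.forall_mem_append.2 ⟨h4, h6⟩⟩
    rcases le_total (l x) 0 with h | h
    · exact (h3 x (e l ▸ ⟨hx, h⟩)).imp fun _ h => ⟨by simp [h.1], h.2⟩
    · exact (h5 x (e _ ▸ ⟨hx, by simpa⟩)).imp fun _ h => ⟨by simp [h.1], h.2⟩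

lemma T.box {n} {f : (Fin n → ℝ) → F} (hf : T f univ) (a b : Fin n → ℝ) :
    ∃ (k : ℕ) (s : Fin k → Finset (Fin n → ℝ)) (A : Fin k → (Fin n → ℝ) →ᵃ[ℝ] F),
      (∀ x ∈ Icc a b, ∃ i, x ∈ convexHull ℝ (s i : Set (Fin n → ℝ))) ∧
      ∀ i, ∀ x ∈ convexHull ℝ (s i : Set (Fin n → ℝ)), f x = A i x := by
  have e : P ((List.ofFn fun i => .const ℝ _ (a i) - .proj i) ++
      List.ofFn fun i => .proj i - .const ℝ _ (b i)) = Icc a b := by
    ext
    simp [P, or_imp, forall_and, Pi.le_def]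
  obtain ⟨C, h1, h2⟩ := hf.cover _ (e ▸ isCompact_Icc) (subset_univ _)
  refine ⟨C.length, fun i => C[i].1, fun i => C[i].2, fun x hx => ?_, fun i => h2 _ (by simp)⟩
  obtain ⟨c, h3, h4⟩ := h1 x (e ▸ hx)
  obtain ⟨i, rfl⟩ := List.get_of_mem h3
  exact ⟨i, h4⟩

end Pool.Agent.H21.PLT
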