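import Mathlib

set_option autoImplicit false

namespace Pool.Agent.H21.Partition

open scoped Pointwise
open Classical

variable {G : Type} [Group G] {n : ℕ}

def Big (A : Set G) : Prop :=
  ¬ ∃ F : Finset G, ∀ x : G, ∃ h ∈ F, x * h⁻¹ ∈ A * A⁻¹ * A

def Neg (A : Fin n → Set G) (E : Set G) : Prop :=
  ∃ T : Finset (Fin n × G), (∀ t ∈ T, Big (A t.1)) ∧ ∀ x ∈ E, ∃ t ∈ T, x * t.2⁻¹ ∈ A t.1

lemma neumann (A : Fin n → Set G) (s : Finset (Fin n)) (hs : ∀ i ∈ s, Big (A i)) :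
    ¬ ∃ T : Finset (Fin n × G), (∀ t ∈ T, t.1 ∈ s) ∧ ∀ x : G, ∃ t ∈ T, x * t.2⁻¹ ∈ A t.1 := by
  induction s using Finset.induction_on with
  | empty =>
    rintro ⟨T, h1, h2⟩
    obtain ⟨t, ht, -⟩ := h2 1
    simpa using h1 t ht
  | insert i s his ih =>
    rintro ⟨T, h1, h2⟩
    by_cases hc : ∃ h : G, ∀ a ∈ A i, ∀ t ∈ T, t.1 = i → a * h * t.2⁻¹ ∉ A i
    · obtain ⟨h, hh⟩ := hc
      apply ih (fun j hj => hs j (Finset.mem_insert_of_mem hj))
      let T' := T.filter (fun t => t.1 ≠ i)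
      refine ⟨T' ∪ (T' ×ˢ T).image (fun p => (p.1.1, p.1.2 * h⁻¹ * p.2.2)), ?_, ?_⟩
      · have hT' : ∀ t ∈ T', t.1 ∈ s := by
          intro t ht
          rw [Finset.mem_filter] at ht
          rcases Finset.mem_insert.1 (h1 t ht.1) with e | e
          · exact absurd e ht.2
          · exact e
        intro t ht
        rcases Finset.mem_union.1 ht with ht | ht
        · exact hT' t ht
        · obtain ⟨p, hp, rfl⟩ := Finset.mem_image.1 ht
          exact hT' p.1 (Finset.mem_product.1 hp).1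
      · intro x
        obtain ⟨t, ht, hx⟩ := h2 x
        by_cases hti : t.1 = i
        · obtain ⟨u, hu, hy⟩ := h2 (x * t.2⁻¹ * h)
          have hui : u.1 ≠ i := by
            intro e
            exact hh _ (hti ▸ hx) u hu e (e ▸ hy)
          refine ⟨(u.1, u.2 * h⁻¹ * t.2), Finset.mem_union_right _ (Finset.mem_image.2
            ⟨(u, t), Finset.mem_product.2 ⟨Finset.mem_filter.2 ⟨hu, hui⟩, ht⟩, rfl⟩), ?_⟩
          have : x * (u.2 * h⁻¹ * t.2)⁻¹ = x * t.2⁻¹ * h * u.2⁻¹ := by group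
          simp only [this]
          exact hy
        · exact ⟨t, Finset.mem_union_left _ (Finset.mem_filter.2 ⟨ht, hti⟩), hx⟩
    · push Not at hc
      apply hs i (Finset.mem_insert_self _ _)
      obtain ⟨a, ha, -⟩ := hc 1
      refine ⟨T.image Prod.snd, fun x => ?_⟩
      obtain ⟨a', ha', t, ht, -, h3⟩ := hc (a⁻¹ * x)
      refine ⟨t.2, Finset.mem_image_of_mem _ ht, ?_⟩
      have : x * t.2⁻¹ = a * a'⁻¹ * (a' * (a⁻¹ * x) * t.2⁻¹) := by group
      rw [this]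
      exact Set.mul_mem_mul (Set.mul_mem_mul ha (Set.inv_mem_inv.2 ha')) h3

lemma not_neg_univ (A : Fin n → Set G) : ¬ Neg A Set.univ := by
  rintro ⟨T, h1, h2⟩
  apply neumann A (Finset.univ.filter (fun i => Big (A i))) (fun i hi => (Finset.mem_filter.1 hi).2)
  exact ⟨T, fun t ht => Finset.mem_filter.2 ⟨Finset.mem_univ _, h1 t ht⟩,
    fun x => h2 x (Set.mem_univ x)⟩

def Cell (A : Fin n → Set G) (f : Fin n → G) : Set G :=
  {x | ∀ i, ¬ Big (A i) → x * (f i)⁻¹ ∈ A i * (A i)⁻¹ * A i}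

def Cov (A : Fin n → Set G) (E : Set G) (Φ : Finset (Fin n → G)) : Prop :=
  Neg A {x | x ∈ E ∧ ∀ f ∈ Φ, x ∉ Cell A f}

lemma exists_cov (A : Fin n → Set G) (E : Set G) : ∃ N : ℕ, ∃ Φ, Cov A E Φ ∧ Φ.card = N := by
  have : ∀ i, ∃ F : Finset G, ∀ x : G, ∃ h ∈ F, ¬ Big (A i) → x * h⁻¹ ∈ A i * (A i)⁻¹ * A i := by
    intro i
    by_cases hb : Big (A i)
    · exact ⟨{1}, fun x => ⟨1, by simp, fun h => absurd hb h⟩⟩
    · have hb' := hb
      unfold Big at hb'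
      push Not at hb'
      obtain ⟨F, hF⟩ := hb'
      exact ⟨F, fun x => let ⟨h, h1, h2⟩ := hF x; ⟨h, h1, fun _ => h2⟩⟩
  choose F hF using this
  refine ⟨_, Fintype.piFinset F, ⟨∅, by simp, ?_⟩, rfl⟩
  rintro x ⟨-, hx⟩
  exfalso
  choose f hf1 hf2 using fun i => hF i x
  exact hx f (Fintype.mem_piFinset.2 hf1) hf2

noncomputable def cov (A : Fin n → Set G) (E : Set G) : ℕ := Nat.find (exists_cov A E)

lemma cov_le {A : Fin n → Set G} {E : Set G} {Φ : Finset (Fin n → G)} (h : Cov A E Φ) :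
    cov A E ≤ Φ.card := Nat.find_min' _ ⟨Φ, h, rfl⟩

lemma cov_spec (A : Fin n → Set G) (E : Set G) : ∃ Φ, Cov A E Φ ∧ Φ.card = cov A E :=
  Nat.find_spec (exists_cov A E)

lemma cov_univ_pos (A : Fin n → Set G) : 0 < cov A Set.univ := by
  obtain ⟨Φ, h1, h2⟩ := cov_spec A Set.univ
  rw [← h2, Finset.card_pos]
  by_contra h
  rw [Finset.not_nonempty_iff_eq_empty] at h
  subst h
  apply not_neg_univ A
  simpa [Cov] using h1

lemma cov_sum (A : Fin n → Set G) (hA : ∀ x, ∃ i, x ∈ A i) :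
    cov A Set.univ ≤ ∑ i, cov A (A i) := by
  choose Φ h1 h2 using fun i => cov_spec A (A i)
  choose T hT1 hT2 using h1
  have : Cov A Set.univ (Finset.univ.biUnion Φ) := by
    refine ⟨Finset.univ.biUnion T, ?_, ?_⟩
    · intro t ht
      obtain ⟨i, -, hi⟩ := Finset.mem_biUnion.1 ht
      exact hT1 i t hi
    · rintro x ⟨-, hx⟩
      obtain ⟨i, hi⟩ := hA x
      obtain ⟨t, ht, h⟩ := hT2 i x ⟨hi, fun f hf => hx f (Finset.mem_biUnion.2 ⟨i, Finset.mem_univ _, hf⟩)⟩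
      exact ⟨t, Finset.mem_biUnion.2 ⟨i, Finset.mem_univ _, ht⟩, h⟩
  refine (cov_le this).trans (Finset.card_biUnion_le.trans ?_)
  exact Finset.sum_le_sum fun i _ => (h2 i).le

lemma cov_big (A : Fin n → Set G) (i : Fin n) (h : Big (A i)) : cov A (A i) = 0 := by
  have : Cov A (A i) ∅ := ⟨{(i, 1)}, by simpa using h, by
    rintro x ⟨hx, -⟩
    exact ⟨(i, 1), by simp, by simpa using hx⟩⟩
  simpa using cov_le this

lemma cov_empty (A : Fin n → Set G) (E : Set G) (h : ¬ E.Nonempty) : cov A E = 0 := by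
  have : Cov A E ∅ := ⟨∅, by simp, by
    rintro x ⟨hx, -⟩
    exact absurd ⟨x, hx⟩ h⟩
  simpa using cov_le this

lemma cov_pack (A : Fin n → Set G) (i : Fin n) (hi : ¬ Big (A i)) {m : ℕ} (g : Fin m → G)
    (hg : ∀ l l', l ≠ l' → g l * (g l')⁻¹ ∉ ((A i)⁻¹ * A i) ^ 4) :
    m * cov A (A i) ≤ cov A Set.univ := by
  obtain ⟨Φ, ⟨T, hT1, hT2⟩, h2⟩ := cov_spec A Set.univ
  let Ψ : Fin m → Finset (Fin n → G) := fun l => Φ.filter (fun f => ∃ a ∈ A i, a * g l ∈ Cell A f)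
  have hdisj : ∀ l ∈ (Finset.univ : Finset (Fin m)), ∀ l' ∈ (Finset.univ : Finset (Fin m)),
      l ≠ l' → Disjoint (Ψ l) (Ψ l') := by
    intro l _ l' _ hne
    rw [Finset.disjoint_left]
    intro f hf hf'
    obtain ⟨-, a, ha, h1⟩ := Finset.mem_filter.1 hf
    obtain ⟨-, a', ha', h1'⟩ := Finset.mem_filter.1 hf'
    obtain ⟨_, ⟨a1, ha1, a2, ha2, rfl⟩, a3, ha3, e⟩ := h1 i hi
    obtain ⟨_, ⟨b1, hb1, b2, hb2, rfl⟩, b3, hb3, e'⟩ := h1' i hi
    apply hg l l' hne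
    have e1 : g l = a⁻¹ * (a1 * a2 * a3) * f i := by
      simp only at e
      rw [e]; group
    have e2 : g l' = a'⁻¹ * (b1 * b2 * b3) * f i := by
      simp only at e'
      rw [e']; group
    have : g l * (g l')⁻¹ = (a⁻¹ * a1) * (a2 * a3) * (b3⁻¹ * b2⁻¹) * (b1⁻¹ * a') := by
      rw [e1, e2]; group
    rw [this, pow_succ, pow_succ, pow_two]
    refine Set.mul_mem_mul (Set.mul_mem_mul (Set.mul_mem_mul ?_ ?_) ?_) ?_
    · exact Set.mul_mem_mul (Set.inv_mem_inv.2 ha) ha1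
    · exact Set.mul_mem_mul ha2 ha3
    · exact Set.mul_mem_mul (Set.inv_mem_inv.2 hb3) (Set.mem_inv.1 hb2)
    · exact Set.mul_mem_mul (Set.inv_mem_inv.2 hb1) ha'
  have hle : ∀ l, cov A (A i) ≤ (Ψ l).card := by
    intro l
    have : Cov A (A i) ((Ψ l).image (fun f j => f j * (g l)⁻¹)) := by
      refine ⟨T.image (fun t => (t.1, t.2 * (g l)⁻¹)), ?_, ?_⟩
      · intro t ht
        obtain ⟨u, hu, rfl⟩ := Finset.mem_image.1 ht
        exact hT1 u hu
      · rintro x ⟨hx, hx2⟩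
        have hnot : ∀ f ∈ Φ, x * g l ∉ Cell A f := by
          intro f hf hc
          apply hx2 (fun j => f j * (g l)⁻¹)
            (Finset.mem_image_of_mem _ (Finset.mem_filter.2 ⟨hf, x, hx, hc⟩))
          intro j hj
          have : x * (f j * (g l)⁻¹)⁻¹ = x * g l * (f j)⁻¹ := by group
          rw [this]; exact hc j hj
        obtain ⟨t, ht, h⟩ := hT2 (x * g l) ⟨Set.mem_univ _, hnot⟩
        refine ⟨(t.1, t.2 * (g l)⁻¹), Finset.mem_image_of_mem _ ht, ?_⟩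
        have : x * (t.2 * (g l)⁻¹)⁻¹ = x * g l * t.2⁻¹ := by group
        simp only [this]; exact h
    exact (cov_le this).trans Finset.card_image_le
  calc m * cov A (A i) = ∑ _l : Fin m, cov A (A i) := by simp
    _ ≤ ∑ l, (Ψ l).card := Finset.sum_le_sum fun l _ => hle l
    _ = (Finset.univ.biUnion Ψ).card := (Finset.card_biUnion hdisj).symm
    _ ≤ Φ.card := Finset.card_le_card (by
        intro f hf
        obtain ⟨l, -, hl⟩ := Finset.mem_biUnion.1 hf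
        exact (Finset.mem_filter.1 hl).1)
    _ = _ := h2

theorem key (A : Fin n → Set G) (hA : ∀ x, ∃ i, x ∈ A i) :
    ∃ i, (A i).Nonempty ∧ ∀ g : Fin (n + 1) → G, ∃ l l', l ≠ l' ∧
      g l * (g l')⁻¹ ∈ ((A i)⁻¹ * A i) ^ 4 := by
  obtain ⟨i0, -⟩ := hA 1
  obtain ⟨i, -, hi⟩ := Finset.exists_max_image Finset.univ (fun i => cov A (A i)) ⟨i0, Finset.mem_univ _⟩
  have h1 : cov A Set.univ ≤ n * cov A (A i) := by
    refine (cov_sum A hA).trans ?_
    calc ∑ j, cov A (A j) ≤ ∑ _j : Fin n, cov A (A i) := Finset.sum_le_sum hi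
      _ = _ := by simp
  have h0 := cov_univ_pos A
  have hpos : cov A (A i) ≠ 0 := by
    intro h; rw [h] at h1; omega
  refine ⟨i, by by_contra h; exact hpos (cov_empty A _ h), fun g => ?_⟩
  by_contra hc
  push Not at hc
  have := cov_pack A i (fun h => hpos (cov_big A i h)) g hc
  have h2 : (n + 1) * cov A (A i) ≤ n * cov A (A i) := this.trans h1
  have := Nat.le_of_mul_le_mul_right h2 (Nat.pos_of_ne_zero hpos)
  omega

lemma idx (H : Subgroup G) (k : ℕ)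
    (h : ∀ x : Fin (k + 1) → G, ∃ l l', l ≠ l' ∧ (x l)⁻¹ * x l' ∈ H) :
    H.index ≠ 0 ∧ H.index ≤ k := by
  have hno : ¬ Nonempty (Fin (k + 1) ↪ G ⧸ H) := by
    rintro ⟨e⟩
    obtain ⟨l, l', hne, hm⟩ := h (fun l => (e l).out)
    apply hne
    apply e.injective
    rw [← QuotientGroup.out_eq' (e l), ← QuotientGroup.out_eq' (e l')]
    exact QuotientGroup.eq.2 hm
  have hfin : Finite (G ⧸ H) := by
    by_contra hinf
    rw [not_finite_iff_infinite] at hinf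
    exact hno ⟨(Fin.valEmbedding).trans (Infinite.natEmbedding _)⟩
  refine ⟨Subgroup.index_ne_zero_of_finite, ?_⟩
  by_contra hlt
  apply hno
  have := Fintype.ofFinite (G ⧸ H)
  apply Function.Embedding.nonempty_of_card_le
  rw [Fintype.card_fin, ← Nat.card_eq_fintype_card]
  unfold Subgroup.index at hlt
  omega

lemma pow_mono {B : Set G} (h1 : (1 : G) ∈ B) {j k : ℕ} (h : j ≤ k) : B ^ j ⊆ B ^ k :=
  Set.pow_subset_pow_right h1 h

lemma pow_stab {B : Set G} {k : ℕ} (h : B ^ (k + 1) = B ^ k) (j : ℕ) : B ^ (k + j) = B ^ k := by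
  induction j with
  | zero => rfl
  | succ j ih => rw [← add_assoc, pow_succ, ih, ← pow_succ, h]

lemma pow_inv_mem {B : Set G} (hB : B⁻¹ = B) (k : ℕ) {x : G} (hx : x ∈ B ^ k) : x⁻¹ ∈ B ^ k := by
  rw [← hB, inv_pow]
  exact Set.inv_mem_inv.2 hx

lemma sandwich (A : Set G) (j : ℕ) : (A * A⁻¹) ^ (j + 1) = A * (A⁻¹ * A) ^ j * A⁻¹ := by
  induction j with
  | zero => simp
  | succ j ih => rw [pow_succ, ih, pow_succ]; simp only [mul_assoc]

def mkSub (S : Set G) (h1 : (1 : G) ∈ S) (h2 : S * S ⊆ S) (h3 : ∀ x ∈ S, x⁻¹ ∈ S) : Subgroup G where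
  carrier := S
  one_mem' := h1
  mul_mem' := fun ha hb => h2 (Set.mul_mem_mul ha hb)
  inv_mem' := fun ha => h3 _ ha

theorem main (A : Fin n → Set G) (hA : ∀ x, ∃ i, x ∈ A i) (m : ℕ) (hm : 5 * n ≤ m) :
    ∃ i, ∃ H : Subgroup G, (A i * (A i)⁻¹) ^ m = (H : Set G) ∧ H.index ≠ 0 ∧ H.index ≤ n := by
  obtain ⟨i, ⟨a, ha⟩, hi⟩ := key A hA
  have hn : 0 < n := Fin.pos i
  set B := A i * (A i)⁻¹ with hB
  set B' := (A i)⁻¹ * A i with hB'
  have h1 : (1 : G) ∈ B := by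
    rw [← mul_inv_cancel a]; exact Set.mul_mem_mul ha (Set.inv_mem_inv.2 ha)
  have h1' : (1 : G) ∈ B' := by
    rw [← inv_mul_cancel a]; exact Set.mul_mem_mul (Set.inv_mem_inv.2 ha) ha
  have hs : B⁻¹ = B := by rw [hB, mul_inv_rev, inv_inv]
  have hs' : B'⁻¹ = B' := by rw [hB', mul_inv_rev, inv_inv]
  have hst : B' ^ (5 * n - 1 + 1) = B' ^ (5 * n - 1) := by
    by_contra hne
    have hex : ∀ l : Fin (n + 1), ∃ x ∈ B' ^ (5 * (l : ℕ)), ∀ j, j < 5 * (l : ℕ) → x ∉ B' ^ j := by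
      intro l
      by_cases hl : (l : ℕ) = 0
      · exact ⟨1, by simp [hl], by simp [hl]⟩
      · have hl2 := l.2
        have : B' ^ (5 * (l : ℕ) - 1 + 1) ≠ B' ^ (5 * (l : ℕ) - 1) := by
          intro e
          apply hne
          have e1 := pow_stab e (5 * n - 5 * (l : ℕ))
          have e2 := pow_stab e (5 * n - 5 * (l : ℕ) + 1)
          rw [show 5 * (l : ℕ) - 1 + (5 * n - 5 * (l : ℕ)) = 5 * n - 1 by omega] at e1
          rw [show 5 * (l : ℕ) - 1 + (5 * n - 5 * (l : ℕ) + 1) = 5 * n - 1 + 1 by omega] at e2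
          rw [e1, e2]
        have hns : ¬ B' ^ (5 * (l : ℕ) - 1 + 1) ⊆ B' ^ (5 * (l : ℕ) - 1) :=
          fun h => this (Set.Subset.antisymm h (pow_mono h1' (by omega)))
        obtain ⟨x, hx1, hx2⟩ := Set.not_subset.1 hns
        rw [show 5 * (l : ℕ) - 1 + 1 = 5 * (l : ℕ) by omega] at hx1
        exact ⟨x, hx1, fun j hj hx => hx2 (pow_mono h1' (by omega) hx)⟩
    choose g hg1 hg2 using hex
    have aux : ∀ l l' : Fin (n + 1), (l' : ℕ) < l → g l * (g l')⁻¹ ∉ B' ^ 4 := by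
      intro l l' hlt h
      apply hg2 l (4 + 5 * (l' : ℕ)) (by omega)
      rw [pow_add, show g l = g l * (g l')⁻¹ * g l' by group]
      exact Set.mul_mem_mul h (hg1 l')
    obtain ⟨l, l', hne', h⟩ := hi g
    rcases lt_or_gt_of_ne (Fin.val_injective.ne hne') with hlt | hlt
    · apply aux l' l hlt
      have := pow_inv_mem hs' 4 h
      rwa [mul_inv_rev, inv_inv] at this
    · exact aux l l' hlt h
  have hstB : ∀ j, 5 * n ≤ j → B ^ j = B ^ (5 * n) := by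
    intro j hj
    have e1 : B ^ j = A i * B' ^ (5 * n - 1 + (j - 5 * n)) * (A i)⁻¹ := by
      rw [← sandwich]; congr 1; omega
    have e2 : B ^ (5 * n) = A i * B' ^ (5 * n - 1) * (A i)⁻¹ := by
      rw [← sandwich]; congr 1; omega
    rw [e1, e2, pow_stab hst]
  let H := mkSub (B ^ m) (Set.one_mem_pow h1)
    (by rw [← pow_add, hstB _ (by omega), hstB m hm]) (fun x hx => pow_inv_mem hs m hx)
  refine ⟨i, H, rfl, idx H n fun x => ?_⟩
  obtain ⟨l, l', hne, h⟩ := hi (fun l => a⁻¹ * (x l)⁻¹)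
  refine ⟨l, l', hne, ?_⟩
  show (x l)⁻¹ * x l' ∈ B ^ m
  apply pow_mono h1 (show 4 + 1 ≤ m by omega)
  rw [hB, sandwich, show (x l)⁻¹ * x l' = a * (a⁻¹ * (x l)⁻¹ * (a⁻¹ * (x l')⁻¹)⁻¹) * a⁻¹ by group]
  exact Set.mul_mem_mul (Set.mul_mem_mul ha h) (Set.inv_mem_inv.2 ha)

lemma top_case (S : Set G) (k : ℕ) (hk : 0 < k) (h : ∀ x, x ∈ S) :
    ∃ H : Subgroup G, S = (H : Set G) ∧ H.index ≠ 0 ∧ H.index ≤ k :=
  ⟨⊤, by ext x; simp [h x], by simp, by simp; omega⟩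

theorem two (A : Fin 2 → Set G) (hA : ∀ x, ∃ i, x ∈ A i) :
    ∃ i, ∃ H : Subgroup G, (A i * (A i)⁻¹) ^ 4 = (H : Set G) ∧ H.index ≠ 0 ∧ H.index ≤ 2 := by
  by_cases h0 : ∀ x, x ∈ A 0 * (A 0)⁻¹
  · refine ⟨0, top_case _ 2 (by norm_num) fun x => ?_⟩
    have := pow_mono (h0 1) (show 1 ≤ 4 by norm_num)
    rw [pow_one] at this
    exact this (h0 x)
  push Not at h0
  obtain ⟨g, hg⟩ := h0
  have hcov : ∀ x, x ∈ A 1 ∨ g * x ∈ A 1 := by
    intro x
    obtain ⟨i, hi⟩ := hA x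
    fin_cases i
    · right
      obtain ⟨j, hj⟩ := hA (g * x)
      fin_cases j
      · exfalso
        apply hg
        rw [show g = g * x * x⁻¹ by group]
        exact Set.mul_mem_mul hj (Set.inv_mem_inv.2 hi)
      · exact hj
    · left; exact hi
  obtain ⟨b, hb⟩ : ∃ b, b ∈ A 1 := by
    rcases hcov 1 with h | h
    · exact ⟨_, h⟩
    · exact ⟨_, h⟩
  set S := A 1 * (A 1)⁻¹ with hS
  have h1 : (1 : G) ∈ S := by
    rw [← mul_inv_cancel b]; exact Set.mul_mem_mul hb (Set.inv_mem_inv.2 hb)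
  have hs : S⁻¹ = S := by rw [hS, mul_inv_rev, inv_inv]
  have hinv : ∀ x ∈ S, x⁻¹ ∈ S := fun x hx => by rw [← hs]; exact Set.inv_mem_inv.2 hx
  have hc : ∀ x, x ∈ S ∨ g * x ∈ S := by
    intro x
    rcases hcov (x * b) with h | h
    · left
      rw [show x = x * b * b⁻¹ by group]
      exact Set.mul_mem_mul h (Set.inv_mem_inv.2 hb)
    · right
      rw [show g * x = g * (x * b) * b⁻¹ by group]
      exact Set.mul_mem_mul h (Set.inv_mem_inv.2 hb)
  refine ⟨1, ?_⟩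
  by_cases hSS : S * S ⊆ S
  · have e : S ^ (1 + 1) = S ^ 1 := by
      apply Set.Subset.antisymm _ (pow_mono h1 (by norm_num))
      rw [pow_succ, pow_one]; exact hSS
    have e4 : S ^ 4 = S := by
      have := pow_stab e 3
      rwa [pow_one] at this
    refine ⟨mkSub S h1 hSS hinv, e4, idx _ 2 fun x => ?_⟩
    have p1 : ∀ u v : G, u ∈ S → v ∈ S → u⁻¹ * v ∈ S :=
      fun u v hu hv => hSS (Set.mul_mem_mul (hinv u hu) hv)
    have p2 : ∀ u v : G, g * u ∈ S → g * v ∈ S → u⁻¹ * v ∈ S := by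
      intro u v hu hv
      have := p1 _ _ hu hv
      rwa [show (g * u)⁻¹ * (g * v) = u⁻¹ * v by group] at this
    rcases hc (x 0) with a0 | a0 <;> rcases hc (x 1) with a1 | a1 <;> rcases hc (x 2) with a2 | a2
    · exact ⟨0, 1, by decide, p1 _ _ a0 a1⟩
    · exact ⟨0, 1, by decide, p1 _ _ a0 a1⟩
    · exact ⟨0, 2, by decide, p1 _ _ a0 a2⟩
    · exact ⟨1, 2, by decide, p2 _ _ a1 a2⟩
    · exact ⟨1, 2, by decide, p1 _ _ a1 a2⟩
    · exact ⟨0, 2, by decide, p2 _ _ a0 a2⟩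
    · exact ⟨0, 1, by decide, p2 _ _ a0 a1⟩
    · exact ⟨0, 1, by decide, p2 _ _ a0 a1⟩
  · obtain ⟨y, ⟨s1, hs1, s2, hs2, rfl⟩, hy⟩ := Set.not_subset.1 hSS
    have hy' : g * (s1 * s2) ∈ S := (hc _).resolve_left hy
    refine top_case _ 2 (by norm_num) fun x => ?_
    rcases hc x with h | h
    · have := pow_mono h1 (show 1 ≤ 4 by norm_num)
      rw [pow_one] at this
      exact this h
    · rw [show x = s1 * s2 * (g * (s1 * s2))⁻¹ * (g * x) by group, pow_succ, pow_succ, pow_two]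
      exact Set.mul_mem_mul (Set.mul_mem_mul (Set.mul_mem_mul hs1 hs2) (hinv _ hy')) h

lemma five_le (k : ℕ) : 5 * (k + 3) ≤ 4 ^ (k + 2) := by
  induction k with
  | zero => norm_num
  | succ k ih => rw [pow_succ]; omega

theorem final (A : Fin n → Set G) (hA : (⋃ i, A i) = Set.univ) :
    ∃ i, ∃ H : Subgroup G, (A i * (A i)⁻¹) ^ (4 ^ (n - 1)) = (H : Set G) ∧
      H.index ≠ 0 ∧ H.index ≤ n := by
  have hA' : ∀ x, ∃ i, x ∈ A i := fun x => Set.mem_iUnion.1 (hA ▸ Set.mem_univ x)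
  match n, A, hA' with
  | 0, A, hA' => exact (hA' 1).elim fun i _ => i.elim0
  | 1, A, hA' =>
    refine ⟨0, top_case _ 1 (by norm_num) fun x => ?_⟩
    have h : ∀ y, y ∈ A 0 := fun y => by
      obtain ⟨i, hi⟩ := hA' y
      rwa [Subsingleton.elim i 0] at hi
    simp only [Nat.sub_self, pow_zero, pow_one]
    rw [show x = x * (1 : G)⁻¹ by group]
    exact Set.mul_mem_mul (h x) (Set.inv_mem_inv.2 (h 1))
  | 2, A, hA' => exact two A hA'
  | k + 3, A, hA' => exact main A hA' _ (five_le k)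

end Pool.Agent.H21.Partition
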