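import Mathlib

namespace Pool.Agent.H21.Ps

/-- The equations: `inl i` is `x_i = 1` and `inr (i, j, k)` is `x_i + x_j = x_k`. -/
abbrev W (n : ℕ) := Fin n ⊕ (Fin n × Fin n × Fin n)

/-- The row of the matrix contributed by an equation: `e_i`, resp. `e_i + e_j - e_k`. -/
def row {n : ℕ} : W n → Fin n → ℝ
  | .inl i => Pi.single i 1
  | .inr (i, j, k) => Pi.single i 1 + Pi.single j 1 - Pi.single k 1

/-- The entry of the right-hand side contributed by an equation: `1`, resp. `0`. -/
def rhs {n : ℕ} : W n → ℝ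
  | .inl _ => 1
  | .inr _ => 0

end Pool.Agent.H21.Ps
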