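import Mathlib
import Pool.Agent.H21.PsDefs

namespace Pool.Agent.H21.Ps

open Matrix

lemma vertex {n : ℕ} {J : Type} [Fintype J] (a : J → Fin n → ℝ) (b : J → ℝ) (φ : Fin n → ℝ)
    (N : ℕ) : ∀ x : Fin n → ℝ, {j | a j ⬝ᵥ x ≠ b j}.ncard = N →
    (∀ d, (∀ j, 0 ≤ (a j ⬝ᵥ x - b j) * (a j ⬝ᵥ d)) → (∀ j, a j ⬝ᵥ x = b j → a j ⬝ᵥ d = 0) →
      d = 0) →
    ∃ v, φ ⬝ᵥ x ≤ φ ⬝ᵥ v ∧
      Submodule.span ℝ (Set.range fun j : {j // a j ⬝ᵥ v = b j} => a j.1) = ⊤ := by
  classical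
  induction N using Nat.strong_induction_on with
  | _ N ih =>
  intro x hN hx
  by_cases hs : Submodule.span ℝ (Set.range fun j : {j // a j ⬝ᵥ x = b j} => a j.1) = ⊤
  · exact ⟨x, le_rfl, hs⟩
  obtain ⟨f, hf0, hf⟩ := Submodule.exists_le_ker_of_lt_top _ (lt_top_iff_ne_top.2 hs)
  obtain ⟨d, hd0, hdt, hφ⟩ : ∃ d : Fin n → ℝ, d ≠ 0 ∧ (∀ j, a j ⬝ᵥ x = b j → a j ⬝ᵥ d = 0) ∧
      0 ≤ φ ⬝ᵥ d := by
    let d : Fin n → ℝ := fun i => f fun j => if i = j then 1 else 0
    have hd : ∀ y, y ⬝ᵥ d = f y := fun y => by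
      rw [f.pi_apply_eq_sum_univ y]; rfl
    have h0 : d ≠ 0 := fun h => hf0 (LinearMap.ext fun y => by rw [← hd, h]; simp)
    have ht : ∀ j, a j ⬝ᵥ x = b j → a j ⬝ᵥ d = 0 := fun j hj => by
      rw [hd]; exact hf (Submodule.subset_span ⟨⟨j, hj⟩, rfl⟩)
    rcases le_total 0 (φ ⬝ᵥ d) with h | h
    · exact ⟨d, h0, ht, h⟩
    · exact ⟨-d, neg_ne_zero.2 h0, fun j hj => by simp [ht j hj], by simpa using h⟩
  have hne : (Finset.univ.filter fun j => (a j ⬝ᵥ x - b j) * (a j ⬝ᵥ d) < 0).Nonempty := by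
    by_contra h
    refine hd0 (hx d (fun j => ?_) hdt)
    by_contra h1
    exact h ⟨j, by simpa using h1⟩
  obtain ⟨j0, hj0, hmin⟩ := Finset.exists_min_image _
    (fun j => -(a j ⬝ᵥ x - b j) / (a j ⬝ᵥ d)) hne
  simp only [Finset.mem_filter, Finset.mem_univ, true_and] at hj0 hmin
  set t := -(a j0 ⬝ᵥ x - b j0) / (a j0 ⬝ᵥ d) with ht
  have hg0 : a j0 ⬝ᵥ d ≠ 0 := by rintro h; simp [h] at hj0
  have hl0 : a j0 ⬝ᵥ x - b j0 ≠ 0 := by rintro h; simp [h] at hj0
  have htpos : 0 ≤ t := by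
    have : t * (a j0 ⬝ᵥ d) ^ 2 = -((a j0 ⬝ᵥ x - b j0) * (a j0 ⬝ᵥ d)) := by
      rw [ht]; field_simp
    by_contra h
    push Not at h
    nlinarith [mul_pos (neg_pos.2 h) (sq_pos_of_ne_zero hg0)]
  have hx' : ∀ j, a j ⬝ᵥ (x + t • d) - b j = (a j ⬝ᵥ x - b j) + t * (a j ⬝ᵥ d) := fun j => by
    simp only [dotProduct_add, dotProduct_smul, smul_eq_mul]; ring
  have htight : ∀ j, a j ⬝ᵥ x = b j → a j ⬝ᵥ (x + t • d) = b j := fun j hj => by
    have := hx' j
    rw [hdt j hj, hj] at this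
    linear_combination this
  have hsg : ∀ j, 0 ≤ (a j ⬝ᵥ x - b j) * (a j ⬝ᵥ (x + t • d) - b j) := fun j => by
    rw [hx']
    rcases lt_or_ge ((a j ⬝ᵥ x - b j) * (a j ⬝ᵥ d)) 0 with h | h
    · have h1 := hmin j h
      have hg : a j ⬝ᵥ d ≠ 0 := by rintro h2; simp [h2] at h
      have h2 : -(a j ⬝ᵥ x - b j) / (a j ⬝ᵥ d) * ((a j ⬝ᵥ x - b j) * (a j ⬝ᵥ d)) =
          -(a j ⬝ᵥ x - b j) ^ 2 := by field_simp
      nlinarith [mul_le_mul_of_nonpos_right h1 h.le]
    · nlinarith [mul_nonneg htpos h, sq_nonneg (a j ⬝ᵥ x - b j)]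
  obtain ⟨v, hv1, hv2⟩ := ih {j | a j ⬝ᵥ (x + t • d) ≠ b j}.ncard (by
    rw [← hN]
    refine Set.ncard_lt_ncard ⟨fun j hj h => hj (htight j h), fun h => ?_⟩ (Set.toFinite _)
    refine h (show a j0 ⬝ᵥ x ≠ b j0 from sub_ne_zero.1 hl0) ?_
    have := hx' j0
    rw [ht, div_mul_cancel₀ _ hg0] at this
    rw [ht]
    linear_combination this) (x + t • d) rfl (fun d' h1 h2 => hx d' (fun j => by
      by_cases h3 : a j ⬝ᵥ (x + t • d) = b j
      · simp [h2 j h3]
      · have h4 := sq_pos_of_ne_zero (sub_ne_zero.2 h3)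
        have h5 := mul_nonneg (hsg j) (h1 j)
        by_contra h6
        push Not at h6
        nlinarith [mul_pos h4 (neg_pos.2 h6)]) fun j hj => h2 j (htight j hj))
  refine ⟨v, le_trans ?_ hv1, hv2⟩
  simp only [dotProduct_add, dotProduct_smul, smul_eq_mul]
  nlinarith [mul_nonneg htpos hφ]

def u {n : ℕ} (a : Option (Fin n)) : Fin n → ℝ := fun i => if a = some i then 1 else 0

def Net {n : ℕ} (r : Fin n → ℝ) : Prop := ∃ a b, r = u a - u b

lemma u_succAbove {n : ℕ} (a : Option (Fin (n + 1))) (j : Fin (n + 1)) :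
    ∃ a', ∀ k, u a (j.succAbove k) = u a' k := by
  by_cases h : ∃ k, a = some (j.succAbove k)
  · obtain ⟨k, rfl⟩ := h
    exact ⟨some k, fun l => by simp [u]⟩
  · exact ⟨none, fun l => by
      have : a ≠ some (j.succAbove l) := fun h1 => h ⟨l, h1⟩
      simp [u, this]⟩

lemma det_net : ∀ (n : ℕ) (A : Matrix (Fin n) (Fin n) ℝ), (∀ i, Net (A i)) → |A.det| ≤ 1
  | 0, A, _ => by simp
  | n + 1, A, hA => by
    by_cases h : ∃ i j, |A i j| ≤ 1 ∧ ∀ k, k ≠ j → A i k = 0
    · obtain ⟨i, j, h1, h2⟩ := h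
      rw [det_succ_row A i, Finset.sum_eq_single j (fun k _ hk => by simp [h2 k hk]) (by simp)]
      have h3 := det_net n (A.submatrix i.succAbove j.succAbove) fun k => by
        obtain ⟨a, b, hab⟩ := hA (i.succAbove k)
        obtain ⟨a', ha⟩ := u_succAbove a j
        obtain ⟨b', hb⟩ := u_succAbove b j
        exact ⟨a', b', funext fun l => by simp [hab, ha, hb]⟩
      rw [abs_mul, abs_mul, abs_pow, abs_neg, abs_one, one_pow, one_mul]
      exact mul_le_one₀ h1 (abs_nonneg _) h3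
    · have : A.det = 0 := exists_mulVec_eq_zero_iff.1 ⟨1, one_ne_zero, funext fun i => by
        obtain ⟨a, b, hab⟩ := hA i
        rcases a with _ | a <;> rcases b with _ | b
        · simp [mulVec, hab]
        · exact absurd ⟨i, b, by simp [hab, u], fun k hk => by simp [hab, u, hk.symm]⟩ h
        · exact absurd ⟨i, a, by simp [hab, u], fun k hk => by simp [hab, u, hk.symm]⟩ h
        · simp [mulVec, hab, u, dotProduct]⟩
      simp [this]

lemma det_sum {n : ℕ} (m m' : Fin n → Fin n → ℝ) (h : ∀ i, Net (m i)) (h' : ∀ i, Net (m' i))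
    (t : Finset (Fin n)) : |(Matrix.of (t.piecewise (m + m') m')).det| ≤ 2 ^ t.card := by
  have h1 := (detRowAlternating (n := Fin n) (R := ℝ)).toMultilinearMap.map_piecewise_add m m' t
  change (Matrix.of (t.piecewise (m + m') m')).det =
    ∑ s ∈ t.powerset, (Matrix.of (s.piecewise m m')).det at h1
  rw [h1]
  refine (Finset.abs_sum_le_sum_abs _ _).trans ((Finset.sum_le_card_nsmul _ _ 1 fun s _ =>
    det_net n _ fun i => ?_).trans (by simp))
  change Net (s.piecewise m m' i)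
  by_cases hi : i ∈ s
  · rw [Finset.piecewise_eq_of_mem _ _ _ hi]; exact h i
  · rw [Finset.piecewise_eq_of_notMem _ _ _ hi]; exact h' i

lemma basic {n : ℕ} (e : Fin n → W n) (hli : LinearIndependent ℝ fun k => row (e k))
    (v : Fin n → ℝ) (hv : ∀ k, row (e k) ⬝ᵥ v = rhs (e k)) (i : Fin n) :
    |v i| ≤ 2 ^ (n - 1) := by
  let A : Matrix (Fin n) (Fin n) ℝ := Matrix.of fun k => row (e k)
  have hA : A.det ≠ 0 :=
    ((isUnit_iff_isUnit_det A).1 (linearIndependent_rows_iff_isUnit.1 hli)).ne_zero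
  have hAv : A *ᵥ v = fun k => rhs (e k) := funext hv
  have hZ : ∀ w : W n, ∃ z : Fin n → ℤ, ∀ l, row w l = z l := by
    rintro (a | ⟨a, b, c⟩)
    · exact ⟨Pi.single a 1, fun l => by simp [row, Pi.single_apply]⟩
    · exact ⟨Pi.single a 1 + Pi.single b 1 - Pi.single c 1, fun l => by
        simp [row, Pi.single_apply]⟩
  choose z hz using hZ
  have h1 : 1 ≤ |A.det| := by
    have : A.det = ((Matrix.of fun k => z (e k)).det : ℤ) := by
      rw [Int.cast_det]; congr 1; ext k l; simp [A, hz]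
    rw [this] at hA ⊢
    exact_mod_cast Int.one_le_abs (by exact_mod_cast hA)
  by_cases h : ∃ k l, e k = .inl l
  swap
  · have : v = 0 := eq_zero_of_mulVec_eq_zero hA (by
      rw [hAv]; funext k
      rcases hk : e k with l | l
      · exact absurd ⟨k, l, hk⟩ h
      · rfl)
    simp [this]
  obtain ⟨k0, l0, h0⟩ := h
  let u' : Fin n → Option (Fin n) := fun a => if a = i then none else some a
  let m : W n → Fin n → ℝ := fun w => match w with
    | .inl _ => u none - u none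
    | .inr (_, q, _) => u (u' q) - u none
  let m' : W n → Fin n → ℝ := fun w => match w with
    | .inl l => u (u' l) - u (some i)
    | .inr (p, _, r) => u (u' p) - u (u' r)
  have hm : ∀ w, Net (m w) := by rintro (_ | ⟨_, _, _⟩) <;> exact ⟨_, _, rfl⟩
  have hm' : ∀ w, Net (m' w) := by rintro (_ | ⟨_, _, _⟩) <;> exact ⟨_, _, rfl⟩
  have hu : ∀ a l, u (u' a) l = if l = i then 0 else (Pi.single a 1 : Fin n → ℝ) l := by
    intro a l
    by_cases h1 : a = i
    · by_cases h2 : l = i <;> simp [u, u', h1, h2]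
    · by_cases h2 : l = i
      · simp [u, u', h1, h2]
      · simp only [u, u', h1, h2, if_false, Option.some.injEq, Pi.single_apply, eq_comm (a := l)]
  have hC : ∀ w l, m w l + m' w l = if l = i then -rhs w else row w l := by
    have hn : ∀ l, u (none : Option (Fin n)) l = 0 := fun l => by simp [u]
    have hi : ∀ l, u (some i) l = if l = i then 1 else 0 := fun l => by
      simp only [u, Option.some.injEq, eq_comm (a := l)]
    rintro (a | ⟨p, q, r⟩) l <;> simp only [m, m', Pi.sub_apply, hu, hn, hi, row, rhs,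
      Pi.add_apply] <;> split_ifs <;> ring
  have h2 := det_sum (fun k => m (e k)) (fun k => m' (e k)) (fun k => hm _) (fun k => hm' _)
    (Finset.univ.erase k0)
  have h3 : Matrix.of ((Finset.univ.erase k0).piecewise ((fun k => m (e k)) + fun k => m' (e k))
      fun k => m' (e k)) = A.updateCol i (-(A *ᵥ v)) := by
    ext k l
    rw [updateCol_apply, hAv]
    change _ = if l = i then -rhs (e k) else row (e k) l
    rw [← hC]
    by_cases hk : k = k0
    · subst hk; simp [Finset.piecewise, h0, m]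
    · simp [Finset.piecewise, hk]
  rw [h3, ← cramer_apply, map_neg, cramer_eq_adjugate_mulVec, mulVec_mulVec, adjugate_mul,
    smul_mulVec, one_mulVec] at h2
  simp only [Pi.neg_apply, Pi.smul_apply, smul_eq_mul, abs_neg, abs_mul, Finset.mem_univ,
    Finset.card_erase_of_mem, Finset.card_univ, Fintype.card_fin] at h2
  nlinarith [abs_nonneg (v i)]

lemma main {n : ℕ} {m : Type} [Fintype m] (e : m → W n) (x : Fin n → ℝ)
    (h1 : ∀ d : Fin n → ℝ, ∑ j, (row (e j) ⬝ᵥ x - rhs (e j)) * (row (e j) ⬝ᵥ d) = 0)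
    (h2 : ∀ d : Fin n → ℝ, (∀ j, row (e j) ⬝ᵥ d = 0) → x ⬝ᵥ d = 0) (i : Fin n) :
    |x i| ≤ 2 ^ (n - 1) := by
  let E : m ⊕ Fin n → W n := Sum.elim e fun k => .inr (k, k, k)
  have hE : ∀ k (y : Fin n → ℝ), row (E (.inr k)) ⬝ᵥ y = y k := fun k y => by simp [E, row]
  have hE' : ∀ k, rhs (E (.inr k)) = 0 := fun k => rfl
  have key : ∀ φ : Fin n → ℝ, ∃ v : Fin n → ℝ, φ ⬝ᵥ x ≤ φ ⬝ᵥ v ∧ |v i| ≤ 2 ^ (n - 1) := by
    intro φ
    obtain ⟨v, hv1, hv2⟩ := vertex (fun j => row (E j)) (fun j => rhs (E j)) φ _ x rfl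
      fun d h3 h4 => by
        have h5 : ∀ j, row (e j) ⬝ᵥ d = 0 := fun j => by
          have := (Finset.sum_eq_zero_iff_of_nonneg fun j _ => h3 (.inl j)).1 (h1 d) j
            (Finset.mem_univ _)
          rcases mul_eq_zero.1 this with h | h
          · exact h4 (.inl j) (sub_eq_zero.1 h)
          · exact h
        simp only [Sum.forall, hE, hE', sub_zero] at h3 h4
        funext k
        have := (Finset.sum_eq_zero_iff_of_nonneg fun j _ => h3.2 j).1 (h2 d h5) k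
          (Finset.mem_univ _)
        rcases mul_eq_zero.1 this with h | h
        · exact h4.2 k h
        · exact h
    obtain ⟨κ, a, -, h3, h4⟩ := exists_linearIndependent' ℝ
      (fun j : {j // row (E j) ⬝ᵥ v = rhs (E j)} => row (E j.1))
    let B : Module.Basis κ ℝ (Fin n → ℝ) := Module.Basis.mk h4 (by rw [h3, hv2])
    let σ := B.indexEquiv (Pi.basisFun ℝ (Fin n))
    exact ⟨v, hv1, basic (fun k => E (a (σ.symm k)).1) (h4.comp _ σ.symm.injective) v
      (fun k => (a (σ.symm k)).2) i⟩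
  obtain ⟨v, hv1, hv2⟩ := key (Pi.single i 1)
  obtain ⟨w, hw1, hw2⟩ := key (-Pi.single i 1)
  simp at hv1 hw1
  rw [abs_le] at *
  constructor <;> linarith [hv2.2, hw2.1]

end Pool.Agent.H21.Ps
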