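import Mathlib

namespace Pool.Agent.H21.QI

noncomputable def wl {G : Type} [Group G] (S : Finset G) (g : G) : ℕ :=
  sInf {n | ∃ l : List G, l.length = n ∧ (∀ x ∈ l, x ∈ S ∨ x⁻¹ ∈ S) ∧ l.prod = g}

def Gen {G : Type} [Group G] (S : Finset G) : Prop := Subgroup.closure (S : Set G) = ⊤

def QuasiIso (G H : Type) [Group G] [Group H] : Prop :=
  ∃ (S : Finset G) (T : Finset H), Gen S ∧ Gen T ∧ ∃ (f : G → H) (C : ℕ),
    (∀ a b, wl T ((f a)⁻¹ * f b) ≤ C * wl S (a⁻¹ * b) + C) ∧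
    (∀ a b, wl S (a⁻¹ * b) ≤ C * wl T ((f a)⁻¹ * f b) + C) ∧
    ∀ h, ∃ a, wl T ((f a)⁻¹ * h) ≤ C

def HighlyTransitive (G : Type) [Group G] : Prop :=
  ∃ (Ω : Type) (_ : MulAction G Ω), Infinite Ω ∧ FaithfulSMul G Ω ∧
    ∀ (k : ℕ) (x y : Fin k → Ω), Function.Injective x → Function.Injective y →
      ∃ g : G, ∀ i, g • x i = y i

def Comm (G H : Type) [Group G] [Group H] : Prop :=
  ∃ (A : Subgroup G) (B : Subgroup H), A.FiniteIndex ∧ B.FiniteIndex ∧ Nonempty (A ≃* B)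

end Pool.Agent.H21.QI
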