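import Mathlib
import Pool.Agent.H21.QIDefs

namespace Pool.Agent.H21.QI

variable {G H : Type} [Group G] [Group H]

lemma wl_le {S : Finset G} {l : List G} (h : ∀ x ∈ l, x ∈ S ∨ x⁻¹ ∈ S) :
    wl S l.prod ≤ l.length := Nat.sInf_le ⟨l, rfl, h, rfl⟩

lemma wl_spec {S : Finset G} (hS : Gen S) (g : G) :
    ∃ l : List G, l.length = wl S g ∧ (∀ x ∈ l, x ∈ S ∨ x⁻¹ ∈ S) ∧ l.prod = g := by
  have : g ∈ (Subgroup.closure (S : Set G)).toSubmonoid := by rw [hS]; trivial
  rw [Subgroup.closure_toSubmonoid] at this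
  obtain ⟨l, h1, h2⟩ := Submonoid.exists_list_of_mem_closure this
  exact Nat.sInf_mem (s := {n | ∃ l : List G, l.length = n ∧ (∀ x ∈ l, x ∈ S ∨ x⁻¹ ∈ S) ∧
    l.prod = g}) ⟨_, l, rfl, fun x hx => by simpa using h1 x hx, h2⟩

lemma wl_mul {S : Finset G} (hS : Gen S) (a b : G) : wl S (a * b) ≤ wl S a + wl S b := by
  obtain ⟨l, h1, h2, rfl⟩ := wl_spec hS a
  obtain ⟨l', h1', h2', rfl⟩ := wl_spec hS b
  rw [← h1, ← h1', ← List.prod_append, ← List.length_append]
  exact wl_le fun x hx => (List.mem_append.1 hx).elim (h2 x) (h2' x)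

lemma qi_of_surj [hG : Group.FG G] (π : G →* H) (hs : Function.Surjective π)
    (hk : (π.ker : Set G).Finite) : QuasiIso G H := by
  classical
  obtain ⟨S, hS⟩ := hG.out
  obtain ⟨C, hC⟩ := (hk.image (wl S)).bddAbove
  refine ⟨S, S.image π, hS, ?_, π, C + 1, fun a b => ?_, fun a b => ?_, fun h => ?_⟩
  · rw [Gen, Finset.coe_image, ← MonoidHom.map_closure, hS, Subgroup.map_top_of_surjective _ hs]
  · obtain ⟨l, h1, h2, h3⟩ := wl_spec hS (a⁻¹ * b)
    have := wl_le (S := S.image π) (l := l.map π) fun x hx => by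
      obtain ⟨y, hy, rfl⟩ := List.mem_map.1 hx
      exact (h2 y hy).imp (Finset.mem_image_of_mem _) fun h => map_inv π y ▸
        Finset.mem_image_of_mem _ h
    rw [← map_list_prod, h3, map_mul, map_inv, List.length_map, h1] at this
    nlinarith
  · have hT : Gen (S.image π) := by
      rw [Gen, Finset.coe_image, ← MonoidHom.map_closure, hS, Subgroup.map_top_of_surjective _ hs]
    obtain ⟨l, h1, h2, h3⟩ := wl_spec hT ((π a)⁻¹ * π b)
    have : ∀ x ∈ l, ∃ y, (y ∈ S ∨ y⁻¹ ∈ S) ∧ π y = x := fun x hx => by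
      rcases h2 x hx with h | h
      · obtain ⟨y, hy, e⟩ := Finset.mem_image.1 h
        exact ⟨y, .inl hy, e⟩
      · obtain ⟨y, hy, e⟩ := Finset.mem_image.1 h
        exact ⟨y⁻¹, .inr (by simpa), by simp [e]⟩
    have : ∃ l' : List G, (∀ y ∈ l', y ∈ S ∨ y⁻¹ ∈ S) ∧ l'.map π = l := by
      clear h1 h2 h3
      induction l with
      | nil => exact ⟨[], by simp, rfl⟩
      | cons x l ih =>
        obtain ⟨l', e1, e2⟩ := ih fun x hx => this x (by simp [hx])
        obtain ⟨y, e3, e4⟩ := this x (by simp)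
        exact ⟨y :: l', by simpa using ⟨e3, e1⟩, by simp [e2, e4]⟩
    obtain ⟨l', e1, rfl⟩ := this
    rw [← map_list_prod] at h3
    have h4 : wl S (l'.prod⁻¹ * (a⁻¹ * b)) ≤ C := hC ⟨_, by simp [h3], rfl⟩
    have h5 := wl_mul hS l'.prod (l'.prod⁻¹ * (a⁻¹ * b))
    have h6 := wl_le e1
    rw [mul_inv_cancel_left] at h5
    rw [List.length_map] at h1
    nlinarith
  · obtain ⟨a, rfl⟩ := hs h
    refine ⟨a, ?_⟩
    have := wl_le (S := S.image π) (l := []) (by simp)
    simp only [List.prod_nil, List.length_nil] at this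
    rw [inv_mul_cancel]
    omega

lemma not_ht (B : Subgroup H) [B.FiniteIndex] (c : H) (hc : c ≠ 1) (hB : ∀ b ∈ B, b * c = c * b) :
    ¬ HighlyTransitive H := by
  rintro ⟨Ω, _, _, _, h⟩
  obtain ⟨a, ha⟩ : ∃ a : Ω, c • a ≠ a := by
    by_contra! h'
    exact hc (eq_of_smul_eq_smul (α := Ω) (by simpa using h'))
  refine Set.infinite_univ (((Set.finite_range fun q : H ⧸ B =>
    (q.out * c * q.out⁻¹) • a).insert a).subset fun b _ => ?_)
  by_cases hb : b = a
  · exact .inl hb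
  obtain ⟨g, hg⟩ := h 2 ![a, c • a] ![a, b]
    (fun i j => by fin_cases i <;> fin_cases j <;> simp [ha, ha.symm])
    (fun i j => by fin_cases i <;> fin_cases j <;> simp [hb, Ne.symm hb])
  obtain ⟨β, hβ⟩ := QuotientGroup.mk_out_eq_mul B g
  refine .inr ⟨(g : H ⧸ B), ?_⟩
  have h0 : g • a = a := hg 0
  have h1 : g • c • a = b := hg 1
  have : g * β * c * (g * β)⁻¹ = g * c * g⁻¹ := by
    rw [mul_assoc g, hB _ β.2]; group
  simp only [hβ, this, mul_smul]
  rw [inv_smul_eq_iff.2 h0.symm, h1]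

lemma ht_of_swap {Ω : Type} [DecidableEq Ω] [Infinite Ω] (P : Subgroup (Equiv.Perm Ω))
    (h : ∀ a b, Equiv.swap a b ∈ P) : HighlyTransitive P := by
  refine ⟨Ω, inferInstance, inferInstance, inferInstance, fun k x y hx hy => ?_⟩
  suffices ∀ s : Finset (Fin k), ∃ g : P, ∀ i ∈ s, g • x i = y i by simpa using this Finset.univ
  intro s
  induction s using Finset.induction_on with
  | empty => exact ⟨1, by simp⟩
  | insert j s hj ih =>
    obtain ⟨g, hg⟩ := ih
    refine ⟨⟨_, h (g • x j) (y j)⟩ * g, fun i hi => ?_⟩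
    rw [mul_smul]
    change Equiv.swap _ _ _ = _
    rcases Finset.mem_insert.1 hi with rfl | hi'
    · exact Equiv.swap_apply_left _ _
    · have : i ≠ j := by rintro rfl; exact hj hi'
      rw [Equiv.swap_apply_of_ne_of_ne (by simpa using hx.ne this), hg i hi']
      rw [hg i hi']
      exact hy.ne this

end Pool.Agent.H21.QI
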