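import Mathlib

namespace Pool.Agent.H21.RAAG

open Classical

variable {V : Type} (Γ : SimpleGraph V)

abbrev A := PresentedGroup {r : FreeGroup V | ∃ s t, Γ.Adj s t ∧
  r = FreeGroup.of s * FreeGroup.of t * (FreeGroup.of s)⁻¹ * (FreeGroup.of t)⁻¹}

def ev (L : List (V × ℤ)) : A Γ := (L.map fun p => PresentedGroup.of p.1 ^ p.2).prod

@[simp] lemma ev_nil : ev Γ [] = 1 := rfl
@[simp] lemma ev_cons (p L) : ev Γ (p :: L) = PresentedGroup.of p.1 ^ p.2 * ev Γ L := rfl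
@[simp] lemma ev_app (L L') : ev Γ (L ++ L') = ev Γ L * ev Γ L' := by simp [ev]

lemma ev_surj (g : A Γ) : ∃ L, ev Γ L = g := by
  obtain ⟨g, rfl⟩ := PresentedGroup.mk_surjective _ g
  induction g using FreeGroup.induction_on with
  | C1 => exact ⟨[], rfl⟩
  | of x => exact ⟨[(x, 1)], by simp; rfl⟩
  | inv_of x => exact ⟨[(x, -1)], by simp; rfl⟩
  | mul x y h h' =>
    obtain ⟨L, h⟩ := h
    obtain ⟨L', h'⟩ := h'
    exact ⟨L ++ L', by simp [h, h']⟩

def R (w w' : List V) : Prop :=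
  ∀ L : List (V × ℤ), L.map Prod.fst = w → ∃ L' : List (V × ℤ), L'.map Prod.fst = w' ∧ ev Γ L' = ev Γ L

lemma R.app {a b c d} (h : R Γ a b) (h' : R Γ c d) : R Γ (a ++ c) (b ++ d) := fun L hL => by
  obtain ⟨L₁, L₂, rfl, e1, e2⟩ := List.map_eq_append_iff.1 hL
  obtain ⟨L₃, e3, e4⟩ := h _ e1
  obtain ⟨L₄, e5, e6⟩ := h' _ e2
  exact ⟨L₃ ++ L₄, by simp [e3, e5], by simp [e4, e6]⟩

lemma R.trans {a b c} (h : R Γ a b) (h' : R Γ b c) : R Γ a c := fun L hL => by
  obtain ⟨L₃, e3, e4⟩ := h _ hL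
  obtain ⟨L₄, e5, e6⟩ := h' _ e3
  exact ⟨L₄, e5, e6.trans e4⟩

def c : Con (FreeMonoid V) where
  r w w' := w.toList.length = w'.toList.length ∧ R Γ w.toList w'.toList ∧ R Γ w'.toList w.toList
  iseqv := ⟨fun _ => ⟨rfl, fun L h => ⟨L, h, rfl⟩, fun L h => ⟨L, h, rfl⟩⟩,
    fun h => ⟨h.1.symm, h.2.2, h.2.1⟩,
    fun h h' => ⟨h.1.trans h'.1, h.2.1.trans _ h'.2.1, h'.2.2.trans _ h.2.2⟩⟩
  mul' h h' := ⟨by simp [h.1, h'.1], h.2.1.app _ h'.2.1, h.2.2.app _ h'.2.2⟩

abbrev M := (c Γ).Quotient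

def w (l : List V) : M Γ := (c Γ).mk' (FreeMonoid.ofList l)

lemma w_app (a b : List V) : w Γ (a ++ b) = w Γ a * w Γ b := rfl

def deg : M Γ → ℕ := Quotient.lift (fun w => w.toList.length) fun _ _ h => h.1

lemma deg_mul (a b : M Γ) : deg Γ (a * b) = deg Γ a + deg Γ b := by
  obtain ⟨a⟩ := a
  obtain ⟨b⟩ := b
  exact List.length_append

lemma deg_w (l) : deg Γ (w Γ l) = l.length := rfl

lemma cm {u v} (h : Γ.Adj u v) : Commute (PresentedGroup.of u : A Γ) (PresentedGroup.of v) :=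
  commutatorElement_eq_one_iff_commute.1 (PresentedGroup.one_of_mem ⟨u, v, h, rfl⟩)

lemma w_cm {u v} (h : Γ.Adj u v) : w Γ [u] * w Γ [v] = w Γ [v] * w Γ [u] := by
  have : ∀ {u v}, Γ.Adj u v → R Γ [u, v] [v, u] := fun h L hL => by
    obtain ⟨p, L, rfl, rfl, hL'⟩ := List.map_eq_cons_iff.1 hL
    obtain ⟨q, L, rfl, rfl, h3⟩ := List.map_eq_cons_iff.1 hL'
    obtain rfl := List.map_eq_nil_iff.1 h3
    exact ⟨[q, p], rfl, by simpa using ((cm Γ h).zpow_zpow _ _).symm.eq⟩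
  exact (c Γ).eq.2 ⟨rfl, this h, this h.symm⟩

def Bad (k : ℕ) (m : M Γ) : Prop := (∃ a b v, m = a * w Γ [v] * w Γ [v] * b) ∨ k < deg Γ m

lemma Bad.mul {k m} (h : Bad Γ k m) (u) : Bad Γ k (m * u) := by
  rcases h with ⟨a, b, v, rfl⟩ | h
  · exact .inl ⟨a, b * u, v, mul_assoc _ _ _⟩
  · exact .inr (by rw [deg_mul]; omega)

variable (k p : ℕ)

noncomputable def S (v : V) : Module.End (ZMod p) (M Γ → ZMod p) where
  toFun f m := if Bad Γ k (m * w Γ [v]) then 0 else f (m * w Γ [v])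
  map_add' f g := by ext m; simp only [Pi.add_apply]; split_ifs <;> simp
  map_smul' a f := by ext m; simp

lemma S_app (v f m) : S Γ k p v f m = if Bad Γ k (m * w Γ [v]) then 0 else f (m * w Γ [v]) := rfl

lemma SS (u v f m) : (S Γ k p u * S Γ k p v) f m =
    if Bad Γ k (m * (w Γ [u] * w Γ [v])) then 0 else f (m * (w Γ [u] * w Γ [v])) := by
  rw [Module.End.mul_apply, S_app, S_app, ← mul_assoc]
  split_ifs with h h' <;> first | rfl | exact absurd (h.mul _ _) h'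

lemma S2 (v) : S Γ k p v * S Γ k p v = 0 := by
  refine LinearMap.ext fun f => funext fun m => ?_
  rw [SS, if_pos (.inl ⟨m, 1, v, by simp [mul_assoc]⟩)]
  rfl

noncomputable def U (v : V) : (Module.End (ZMod p) (M Γ → ZMod p))ˣ :=
  ⟨1 + S Γ k p v, 1 - S Γ k p v, by simp [add_mul, mul_sub, S2], by simp [sub_mul, mul_add, S2]⟩

lemma U_pow (v) (e : ℤ) : (U Γ k p v ^ e).1 = 1 + e • S Γ k p v := by
  induction e with
  | zero => simp
  | succ e h => rw [zpow_add_one, Units.val_mul, h]; simp [U, mul_add, add_mul, S2, mul_assoc]; abel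
  | pred e h =>
    rw [zpow_sub_one, Units.val_mul, h]
    change _ * (1 - _) = _
    rw [mul_sub, add_mul, add_mul, smul_mul_assoc _ _ (S Γ k p v), S2, sub_smul]
    simp
    abel

noncomputable def ρ : A Γ →* (Module.End (ZMod p) (M Γ → ZMod p))ˣ :=
  PresentedGroup.toGroup (f := U Γ k p) (by
    rintro _ ⟨u, v, h, rfl⟩
    simp only [map_mul, map_inv, FreeGroup.lift_apply_of]
    refine commutatorElement_eq_one_iff_commute.2 (Commute.units_of_val ?_)
    refine (Commute.one_left _).add_left ((Commute.one_right _).add_right ?_)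
    exact LinearMap.ext fun f => funext fun m => by rw [SS, SS, w_cm Γ h])

lemma ρ_cons (q L) : (ρ Γ k p (ev Γ (q :: L))).1 = (1 + q.2 • S Γ k p q.1) * (ρ Γ k p (ev Γ L)).1 := by
  rw [ev_cons, map_mul, map_zpow, Units.val_mul, ρ, PresentedGroup.toGroup.of, U_pow]

lemma coef {m₀ : M Γ} (h0 : ¬ Bad Γ k m₀) (h1 : deg Γ m₀ = k) : ∀ (L : List (V × ℤ)) m,
    deg Γ m + L.length ≤ k → (ρ Γ k p (ev Γ L)).1 (Pi.single m₀ 1) m =
      if m * w Γ (L.map Prod.fst) = m₀ then ((L.map Prod.snd).prod : ℤ) else 0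
  | [], m, _ => by
    change _ = ((if m * 1 = m₀ then _ else _ : ℤ) : ZMod p)
    simp [Pi.single_apply]
  | q :: L, m, h => by
    have e : m * w Γ ((q :: L).map Prod.fst) = m * w Γ [q.1] * w Γ (L.map Prod.fst) :=
      by rw [mul_assoc]; rfl
    rw [List.length_cons] at h
    rw [ρ_cons, e, Module.End.mul_apply, LinearMap.add_apply, Pi.add_apply, Module.End.one_apply,
      coef h0 h1 L m (by omega), if_neg (fun h => by simp [← h, deg_mul, deg_w] at h1; omega),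
      LinearMap.smul_apply, Pi.smul_apply, S_app]
    split_ifs with h2 h3 h3
    · exact absurd (h3 ▸ h2.mul _ _) h0
    · simp
    · rw [coef h0 h1 L _ (by simp [deg_mul, deg_w]; omega), if_pos h3]; simp
    · rw [coef h0 h1 L _ (by simp [deg_mul, deg_w]; omega), if_neg h3]; simp

def Vn (j : ℕ) (f : M Γ → ZMod p) : Prop := ∀ m, j ≤ deg Γ m → j ≤ k → f m = 0

lemma low : ∀ (L : List (V × ℤ)) j f, Vn Γ k p (j + 1) f →
    Vn Γ k p j (((ρ Γ k p (ev Γ L)).1 - 1) f)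
  | [], j, f, _ => fun m _ _ => by simp
  | q :: L, j, f, h => fun m h1 h2 => by
    have h3 := low L j f h
    have e : ∀ a b : Module.End (ZMod p) (M Γ → ZMod p), (1 + a) * b - 1 =
      (b - 1) + a * (1 + (b - 1)) := fun a b => by simp [add_mul]; abel
    rw [ρ_cons, e, LinearMap.add_apply, Pi.add_apply, h3 m h1 h2, Module.End.mul_apply,
      LinearMap.smul_apply, Pi.smul_apply, S_app]
    split_ifs with h4
    · simp
    · have : deg Γ m + 1 ≤ k := not_lt.1 fun h => h4 (.inr (by rwa [deg_mul]))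
      rw [LinearMap.add_apply, Pi.add_apply, h3 _ (by rw [deg_mul]; omega) h2, Module.End.one_apply,
        h _ (by rw [deg_mul, deg_w]; simpa) (by omega)]
      simp

lemma fin_ord [Fact p.Prime] (g : A Γ) : IsOfFinOrder (ρ Γ k p g) := by
  obtain ⟨L, rfl⟩ := ev_surj Γ g
  have : ∀ j f, Vn Γ k p j f → (((ρ Γ k p (ev Γ L)).1 - 1) ^ j) f = 0 := fun j => by
    induction j with
    | zero => exact fun f h => funext fun m => h m (by simp) (by simp)
    | succ j ih => exact fun f h => by rw [pow_succ]; exact ih _ (low Γ k p L j f h)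
  have h0 : ((ρ Γ k p (ev Γ L)).1 - 1) ^ p ^ (k + 1) = 0 := LinearMap.ext fun f =>
    this _ f fun m _ h => absurd (Nat.lt_pow_self (Fact.out : p.Prime).one_lt (n := k + 1)) (by omega)
  have := charP_of_injective_algebraMap (algebraMap (ZMod p)
    (Module.End (ZMod p) (M Γ → ZMod p))).injective p
  rw [sub_pow_char_pow_of_commute _ _ (Commute.one_right _), one_pow, sub_eq_zero] at h0
  exact isOfFinOrder_iff_pow_eq_one.2 ⟨_, pow_pos (Fact.out : p.Prime).pos _, Units.ext h0⟩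

theorem sep (g : A Γ) (hg : g ≠ 1) : ∃ (H : Type) (_ : Group H) (f : A Γ →* H), f g ≠ 1 ∧
    ∀ a, IsOfFinOrder (f a) := by
  have ex : ∃ n, ∃ L : List (V × ℤ), L.length = n ∧ ev Γ L = g :=
    (ev_surj Γ g).elim fun L h => ⟨_, L, rfl, h⟩
  obtain ⟨L, hL, rfl⟩ := Nat.find_spec ex
  have mn : ∀ L', ev Γ L' = ev Γ L → L.length ≤ L'.length := fun L' h =>
    hL ▸ Nat.find_min' ex ⟨L', rfl, h⟩
  have h0 : ¬ Bad Γ L.length (w Γ (L.map Prod.fst)) := by
    rintro (⟨⟨a⟩, ⟨b⟩, v, h⟩ | h)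
    · obtain ⟨h1, h2, -⟩ := (c Γ).eq.1 h
      obtain ⟨L', e0, e'⟩ := h2 L rfl
      obtain ⟨L', L₄, rfl, e, -⟩ := List.map_eq_append_iff.1 e0
      obtain ⟨L', L₃, rfl, e, e3⟩ := List.map_eq_append_iff.1 e
      obtain ⟨L₁, L₂, rfl, e1, e2⟩ := List.map_eq_append_iff.1 e
      obtain ⟨p, rfl, rfl⟩ := List.map_eq_singleton_iff.1 e2
      obtain ⟨q, rfl, e4⟩ := List.map_eq_singleton_iff.1 e3
      have := mn (L₁ ++ (q.1, p.2 + q.2) :: L₄) (by simp [← e', zpow_add, e4, mul_assoc])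
      have e := congrArg List.length e0
      rw [← h1] at e
      simp at e this
      omega
    · simp [deg_w] at h
  have h1 : (L.map Prod.snd).prod ≠ 0 := fun h => by
    obtain ⟨q, hq, e⟩ := List.mem_map.1 (List.prod_eq_zero_iff.1 h)
    obtain ⟨a, b, rfl⟩ := List.append_of_mem hq
    have := mn (a ++ b) (by simp [e])
    simp at this
  obtain ⟨p, hp, hp'⟩ := Nat.exists_infinite_primes ((L.map Prod.snd).prod.natAbs + 1)
  have := Fact.mk hp'
  refine ⟨_, _, ρ Γ L.length p, fun h => ?_, fin_ord Γ _ p⟩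
  have := coef Γ _ p h0 (by simp [deg_w]) L 1 (by change 0 + _ ≤ _; simp)
  rw [h, one_mul, if_pos rfl, Units.val_one, Module.End.one_apply, Pi.single_eq_of_ne, eq_comm,
    ZMod.intCast_zmod_eq_zero_iff_dvd] at this
  · have := Int.natAbs_le_of_dvd_ne_zero this h1
    simp at this
    omega
  · intro h
    have := congrArg (deg Γ) h
    rw [deg_w, List.length_map, eq_comm] at this
    exact hg (by rw [List.length_eq_zero_iff.1 this]; rfl)

end Pool.Agent.H21.RAAG
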