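import Pool.Agent.H21.RCDefs

namespace Pool.Agent.H21.RC1

open Pool.Agent.H21.RCDefs Filter
open scoped commutatorElement

variable {G : Type} [Group G]

structure Cone (K : Subgroup G) (P : G → Prop) : Prop where
  mul : ∀ a b, P a → P b → P (a * b)
  conj : ∀ a g, P a → P (g * a * g⁻¹)
  tri : ∀ a, a ∈ K ∨ P a ∨ P a⁻¹
  dis : ∀ a, P a → a ∉ K

def RC (K : Subgroup G) : Prop := K.Normal ∧ ∃ P, Cone K P

lemma RC.root {K : Subgroup G} (h : RC K) {a : G} {N : ℕ} (hN : N ≠ 0) (ha : a ^ N ∈ K) : a ∈ K := by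
  obtain ⟨_, P, hP⟩ := h
  have key : ∀ b, P b → ∀ n : ℕ, P (b ^ (n + 1)) := fun b hb n => by
    induction n with
    | zero => simpa
    | succ n ih => rw [pow_succ]; exact hP.mul _ _ ih hb
  obtain ⟨n, rfl⟩ := Nat.exists_eq_succ_of_ne_zero hN
  rcases hP.tri a with h | h | h
  · exact h
  · exact absurd ha (hP.dis _ (key a h n))
  · exact absurd (by simpa using K.inv_mem ha) (hP.dis _ (key _ h n))

lemma RC.comm {K : Subgroup G} (h : RC K) {a b : G} {N : ℕ} (hN : N ≠ 0) (ha : ⁅a ^ N, b⁆ ∈ K) :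
    ⁅a, b⁆ ∈ K := by
  obtain ⟨_, P, hP⟩ := h
  obtain ⟨n, rfl⟩ := Nat.exists_eq_succ_of_ne_zero hN
  have e : ∀ n : ℕ, ⁅a ^ (n + 1 + 1), b⁆ = a * ⁅a ^ (n + 1), b⁆ * a⁻¹ * ⁅a, b⁆ := fun n => by
    simp only [commutatorElement_def]; group
  rcases hP.tri ⁅a, b⁆ with h | h | h
  · exact h
  · have : ∀ n : ℕ, P ⁅a ^ (n + 1), b⁆ := fun n => by
      induction n with
      | zero => simpa
      | succ n ih => rw [e]; exact hP.mul _ _ (hP.conj _ _ ih) h
    exact absurd ha (hP.dis _ (this n))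
  · have : ∀ n : ℕ, P ⁅a ^ (n + 1), b⁆⁻¹ := fun n => by
      induction n with
      | zero => simpa using h
      | succ n ih =>
        have := hP.mul _ _ h (hP.conj _ a ih)
        rw [e]; convert this using 1; group
    exact absurd (K.inv_mem ha) (hP.dis _ (this n))

lemma Cone.lex {K : Subgroup G} {P : G → Prop} (h : Cone K P) (π : G →* Multiplicative ℤ) :
    Cone (K ⊓ π.ker) fun a => 1 < π a ∨ (π a = 1 ∧ P a) where
  mul a b ha hb := by
    rcases ha with ha | ⟨ha, ha'⟩ <;> rcases hb with hb | ⟨hb, hb'⟩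
    · left; rw [map_mul]; exact one_lt_mul'' ha hb
    · left; rw [map_mul, hb]; simpa
    · left; rw [map_mul, ha]; simpa
    · right; exact ⟨by rw [map_mul, ha, hb, one_mul], h.mul _ _ ha' hb'⟩
  conj a g ha := by
    have : π (g * a * g⁻¹) = π a := by simp [mul_comm (π g)]
    rw [this]
    exact ha.imp_right fun ⟨x, y⟩ => ⟨x, h.conj _ _ y⟩
  tri a := by
    rcases lt_trichotomy 1 (π a) with h1 | h1 | h1
    · exact .inr (.inl (.inl h1))
    · rcases h.tri a with h2 | h2 | h2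
      · exact .inl ⟨h2, h1.symm⟩
      · exact .inr (.inl (.inr ⟨h1.symm, h2⟩))
      · exact .inr (.inr (.inr ⟨by rw [map_inv, ← h1, inv_one], h2⟩))
    · exact .inr (.inr (.inl (by rw [map_inv]; exact one_lt_inv'.2 h1)))
  dis a ha hk := by
    rcases ha with ha | ⟨_, ha⟩
    · exact ha.ne' hk.2
    · exact h.dis _ ha hk.1

lemma Cone.quot {K : Subgroup G} [K.Normal] {P : G → Prop} (h : Cone K P) :
    Cone (⊥ : Subgroup (G ⧸ K)) fun x => ∃ a : G, (a : G ⧸ K) = x ∧ P a where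
  mul := by
    rintro _ _ ⟨a, rfl, ha⟩ ⟨b, rfl, hb⟩
    exact ⟨a * b, rfl, h.mul _ _ ha hb⟩
  conj := by
    rintro _ g ⟨a, rfl, ha⟩
    obtain ⟨g, rfl⟩ := QuotientGroup.mk_surjective g
    exact ⟨g * a * g⁻¹, rfl, h.conj _ _ ha⟩
  tri x := by
    obtain ⟨a, rfl⟩ := QuotientGroup.mk_surjective x
    rcases h.tri a with h1 | h1 | h1
    · exact .inl (by simpa using h1)
    · exact .inr (.inl ⟨a, rfl, h1⟩)
    · exact .inr (.inr ⟨a⁻¹, rfl, h1⟩)
  dis := by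
    rintro _ ⟨a, rfl, ha⟩ h1
    exact h.dis _ ha (by simpa using h1)

lemma Cone.biOrd {P : G → Prop} (h : Cone ⊥ P) : BiOrd fun a b : G => a = b ∨ P (a⁻¹ * b) := by
  refine ⟨{ refl := fun a => .inl rfl, trans := ?_, antisymm := ?_, total := ?_ }, ?_⟩
  · rintro a b c (rfl | h1) (rfl | h2)
    · exact .inl rfl
    · exact .inr h2
    · exact .inr h1
    · exact .inr (by simpa [mul_assoc] using h.mul _ _ h1 h2)
  · rintro a b (rfl | h1) (h2 | h2)
    · rfl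
    · rfl
    · exact h2.symm
    · exact absurd (by simp) (h.dis _ (h.mul _ _ h1 h2))
  · intro a b
    rcases h.tri (a⁻¹ * b) with h1 | h1 | h1
    · exact .inl (.inl (inv_mul_eq_one.1 h1))
    · exact .inl (.inr h1)
    · exact .inr (.inr (by simpa using h1))
  · rintro a b c (rfl | h1)
    · exact ⟨.inl rfl, .inl rfl⟩
    · exact ⟨.inr (by simpa [mul_assoc] using h1), .inr (by simpa [mul_assoc] using h.conj _ c⁻¹ h1)⟩

lemma rc_comap {G' : Type} [Group G'] (f : G →* G') {L : Subgroup G'} (hn : L.Normal)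
    (h : RelConvex L) : RC (L.comap f) := by
  obtain ⟨r, ⟨hr, hi⟩, hc⟩ := h
  refine ⟨hn.comap f, fun a => r 1 (f a) ∧ f a ∉ L, ?_, ?_, ?_, fun a h => h.2⟩
  · rintro a b ⟨h1, h2⟩ ⟨h3, _⟩
    have h5 : r (f a) (f (a * b)) := by simpa using (hi _ _ (f a) h3).1
    exact ⟨hr.trans _ _ _ h1 h5, fun h6 => h2 (hc _ L.one_mem _ h6 _ h1 h5)⟩
  · rintro a g ⟨h1, h2⟩
    refine ⟨by simpa using (hi _ _ (f g)⁻¹ (hi _ _ (f g) h1).1).2, fun h3 => h2 ?_⟩
    simpa [mul_assoc] using hn.conj_mem _ h3 (f g)⁻¹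
  · intro a
    by_cases h : f a ∈ L
    · exact .inl h
    rcases hr.total 1 (f a) with h1 | h1
    · exact .inr (.inl ⟨h1, h⟩)
    · exact .inr (.inr ⟨by simpa using (hi _ _ (f a)⁻¹ h1).1, by simpa using h⟩)

lemma rc_sSup {c : Set (Subgroup G)} (hc : ∀ K ∈ c, RC K) (ch : IsChain (· ≤ ·) c) (ne : c.Nonempty) :
    RC (sSup c) := by
  have mem : ∀ {a}, a ∈ sSup c ↔ ∃ K ∈ c, a ∈ K := Subgroup.mem_sSup_of_directedOn ne ch.directedOn
  haveI : Nonempty c := ne.to_subtype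
  haveI : IsDirectedOrder c := ⟨fun a b => by
    obtain ⟨z, hz, h1, h2⟩ := ch.directedOn a a.2 b b.2
    exact ⟨⟨z, hz⟩, h1, h2⟩⟩
  choose P hP using fun K : c => (hc K K.2).2
  let U : Ultrafilter c := Ultrafilter.of atTop
  have ev : ∀ a ∈ sSup c, ∀ᶠ K : c in U, a ∈ K.1 := fun a ha => by
    obtain ⟨K, hK, ha⟩ := mem.1 ha
    exact (Ultrafilter.of_le atTop) ((eventually_ge_atTop (⟨K, hK⟩ : c)).mono fun L hL => hL ha)
  have nm : ∀ a, (∀ᶠ K : c in U, P K a) → a ∉ sSup c := fun a h1 h2 => by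
    obtain ⟨K, h3, h4⟩ := (h1.and (ev a h2)).exists
    exact (hP K).dis _ h3 h4
  refine ⟨⟨fun a ha g => ?_⟩, fun a => ∀ᶠ K : c in U, P K a, ?_, ?_, ?_, nm⟩
  · obtain ⟨K, hK, ha⟩ := mem.1 ha
    exact mem.2 ⟨K, hK, (hc K hK).1.conj_mem _ ha g⟩
  · exact fun a b h1 h2 => (h1.and h2).mono fun K h => (hP K).mul _ _ h.1 h.2
  · exact fun a g h1 => h1.mono fun K h => (hP K).conj _ _ h
  · intro a
    by_cases h : a ∈ sSup c
    · exact .inl h
    exact .inr (Ultrafilter.eventually_or.1 (.of_forall fun K =>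
      ((hP K).tri a).resolve_left fun h1 => h (mem.2 ⟨K, K.2, h1⟩)))

theorem main {n : ℕ} (π : G →* Multiplicative ℤ) (h0 : RC (⊥ : Subgroup G)) (g : G) (hg : π g ≠ 1)
    (c : G) (hc : π c = 1) (hc1 : c ≠ 1) (hM : ∀ K, RC K → c ∈ K → π.ker ≤ K)
    (hB : ∀ K, RC K → derivedSeries G (n - 1) ≤ K → π.ker ≤ K)
    (hC : ∀ K, RC K → ∀ k, π k ≠ 1 → (∀ h ∈ π.ker, ⁅k, h⁆ ∈ K) → π.ker ≤ K)
    (hs : derivedSeries G n = ⊥) :
    ∃ (Γ : Type) (_ : Group Γ), (∃ r : Γ → Γ → Prop, BiOrd r) ∧ derivedSeries Γ n = ⊥ ∧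
      derivedSeries Γ (n - 1) ≠ ⊥ ∧
      ∃! H : Subgroup Γ, H.Normal ∧ RelConvex H ∧ H ≠ ⊥ ∧ H ≠ ⊤ := by
  obtain ⟨K, -, hK⟩ := zorn_le_nonempty₀ {K : Subgroup G | RC K ∧ K ≤ π.ker ∧ c ∉ K}
    (fun s hs ch y hy => ⟨sSup s, ⟨rc_sSup (fun K h => (hs h).1) ch ⟨y, hy⟩,
      sSup_le fun K h => (hs h).2.1, fun h => by
        obtain ⟨K, h1, h2⟩ := (Subgroup.mem_sSup_of_directedOn ⟨y, hy⟩ ch.directedOn).1 h
        exact (hs h1).2.2 h2⟩, fun z hz => le_sSup hz⟩) ⊥ ⟨h0, bot_le, by simpa using hc1⟩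
  obtain ⟨⟨hn, P, hP⟩, kle, cK⟩ := hK.prop
  have nle : ¬ π.ker ≤ K := fun h => cK (h hc)
  let ρ : G ⧸ K →* Multiplicative ℤ := QuotientGroup.lift K π kle
  have hq := hP.quot.lex ρ
  rw [bot_inf_eq] at hq
  have ds : ∀ k, derivedSeries (G ⧸ K) k = (derivedSeries G k).map (QuotientGroup.mk' K) := fun k =>
    (map_derivedSeries_eq (QuotientGroup.mk'_surjective K) k).symm
  refine ⟨G ⧸ K, inferInstance, ⟨_, hq.biOrd⟩, by rw [ds, hs, Subgroup.map_bot], fun h => ?_, ρ.ker,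
    ⟨inferInstance, ⟨_, hq.biOrd, ?_⟩, fun h => ?_, fun h => ?_⟩, ?_⟩
  · rw [ds, Subgroup.map_eq_bot_iff, QuotientGroup.ker_mk'] at h
    exact nle (hB K hK.prop.1 h)
  · have mo : ∀ a b : G ⧸ K, (a = b ∨ (1 < ρ (a⁻¹ * b) ∨ (ρ (a⁻¹ * b) = 1 ∧
        ∃ x : G, (x : G ⧸ K) = a⁻¹ * b ∧ P x))) → ρ a ≤ ρ b := by
      rintro a b (rfl | h | ⟨h, -⟩)
      · rfl
      · rw [map_mul, map_inv, lt_inv_mul_iff_mul_lt, mul_one] at h; exact h.le
      · rw [map_mul, map_inv, inv_mul_eq_one] at h; exact h.le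
    intro a ha b hb x h1 h2
    exact le_antisymm ((mo _ _ h2).trans (le_of_eq hb)) ((ge_of_eq ha).trans (mo _ _ h1))
  · have : (c : G ⧸ K) ∈ ρ.ker := hc
    rw [h] at this
    exact cK (by simpa using this)
  · have : (g : G ⧸ K) ∈ ρ.ker := h ▸ Subgroup.mem_top _
    exact hg this
  rintro L ⟨ln, lc, l0, l1⟩
  have hL := rc_comap (QuotientGroup.mk' K) ln lc
  obtain ⟨M, hM'⟩ : ∃ M, M = L.comap (QuotientGroup.mk' K) := ⟨_, rfl⟩
  have mm : ∀ a : G, a ∈ M ↔ (a : G ⧸ K) ∈ L := fun a => by rw [hM']; rfl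
  rw [← hM'] at hL
  have KM : K ≤ M := fun a ha => (mm a).2 (by rw [(QuotientGroup.eq_one_iff a).2 ha]; exact L.one_mem)
  obtain ⟨mn, R, hR⟩ := id hL
  have hi : RC (M ⊓ π.ker) := ⟨inferInstance, _, hR.lex π⟩
  by_cases hcM : c ∈ M
  · have hle := hM M hL hcM
    refine le_antisymm (fun x hx => ?_) fun x hx => ?_
    · obtain ⟨k, rfl⟩ := QuotientGroup.mk_surjective x
      by_contra hk
      refine l1 (eq_top_iff.2 fun z _ => ?_)
      obtain ⟨z, rfl⟩ := QuotientGroup.mk_surjective z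
      have k0 : (π k).toAdd ≠ 0 := fun h => hk (show π k = 1 from h)
      have h1 : z ^ (π k).toAdd * k ^ (-(π z).toAdd) ∈ M := hle (by
        rw [MonoidHom.mem_ker, map_mul, map_zpow, map_zpow]
        apply Multiplicative.toAdd.injective
        simp [mul_comm])
      have h2 : z ^ (π k).toAdd ∈ M := (M.mul_mem_cancel_right (M.zpow_mem ((mm k).2 hx) _)).1 h1
      refine (mm z).1 (hL.root (N := (π k).toAdd.natAbs) (by simpa using k0) ?_)
      rcases Int.natAbs_eq (π k).toAdd with h | h <;> rw [h] at h2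
      · rwa [zpow_natCast] at h2
      · rwa [zpow_neg, zpow_natCast, inv_mem_iff] at h2
    · obtain ⟨k, rfl⟩ := QuotientGroup.mk_surjective x
      exact (mm k).1 (hle hx)
  · have hle : M ⊓ π.ker ≤ K := hK.le_of_ge ⟨hi, inf_le_right, fun h => hcM h.1⟩ (le_inf KM kle)
    obtain ⟨x, hx, x1⟩ := (Subgroup.bot_or_exists_ne_one L).resolve_left l0
    obtain ⟨k, rfl⟩ := QuotientGroup.mk_surjective x
    have kM := (mm k).2 hx
    refine absurd (hC K hK.prop.1 k (fun h => x1 ((QuotientGroup.eq_one_iff k).2 (hle ⟨kM, h⟩)))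
      fun h hh => hle ⟨?_, ?_⟩) nle
    · rw [commutatorElement_def, mul_assoc, mul_assoc, ← mul_assoc h]
      simpa using M.mul_mem kM (mn.conj_mem _ (M.inv_mem kM) h)
    · simp [commutatorElement_def, mul_comm (π k)]

end Pool.Agent.H21.RC1
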