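import Pool.Agent.H21.RC1

namespace Pool.Agent.H21.RC2

open scoped commutatorElement

def pos {X : Type} (f : X → ℤ) : Prop := ∃ x, 0 < f x ∧ ∀ x', WellOrderingRel x' x → f x' = 0

lemma pos_add {X : Type} {f f' : X → ℤ} (h : pos f) (h' : pos f') : pos (f + f') := by
  obtain ⟨x, a, b⟩ := h
  obtain ⟨x', a', b'⟩ := h'
  rcases trichotomous_of WellOrderingRel x x' with h | rfl | h
  · exact ⟨x, by simpa [b' x h], fun z hz => by simp [b z hz, b' z (trans_of _ hz h)]⟩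
  · exact ⟨x, add_pos a a', fun z hz => by simp [b z hz, b' z hz]⟩
  · exact ⟨x', by simpa [b x' h], fun z hz => by simp [b' z hz, b z (trans_of _ hz h)]⟩

lemma pos_tri {X : Type} {f : X → ℤ} (h : ∃ x, f x ≠ 0) : pos f ∨ pos (-f) := by
  obtain ⟨x, hx, hm⟩ := (IsWellFounded.wf (r := WellOrderingRel)).has_min {x | f x ≠ 0} h
  have : ∀ z, WellOrderingRel z x → f z = 0 := fun z hz => by_contra fun h => hm z h hz
  rcases lt_or_gt_of_ne hx with h | h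
  · exact .inr ⟨x, by simpa, fun z hz => by simp [this z hz]⟩
  · exact .inl ⟨x, h, this⟩

structure Sys (Q X : Type) [Group Q] [MulAction Q X] (d : ℕ) where
  t : Q → ℤ
  blk : X → ℤ
  lev : X → ℕ
  h : X → ℤ
  g : Q
  y : ℕ → Q
  s : ℕ
  t_mul : ∀ a b, t (a * b) = t a + t b
  blk_smul : ∀ (q : Q) (x : X), blk (q • x) = t q + blk x
  lev_smul : ∀ (q : Q) (x : X), lev (q • x) = lev x
  l2 : ∀ (q : Q) (x : X), t q = 0 →
    (∀ z, blk x < blk z ∨ blk x = blk z ∧ lev z < lev x → h (q • z) = h z) →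
    ∀ w : Q, h (w • q • x) - h (q • x) = h (w • x) - h x
  bdd : ∀ q : Q, t q = 0 → ∃ b, ∀ x, b < blk x → h (q • x) = h x
  faith : ∀ q : Q, t q = 0 → q ≠ 1 → ∃ x, h (q • x) ≠ h x
  t_g : t g = 1
  h_g : ∀ x, h (g • x) = h x
  t_y : ∀ j, t (y j) = 0
  pure : ∀ j x, ¬ (blk x = 0 ∧ lev x = j) → h (y j • x) = h x
  inv : ∀ (k : ℤ) j, 1 ≤ k → g ^ k * y s * (g ^ k)⁻¹ * y j * (g ^ k * y s * (g ^ k)⁻¹)⁻¹ = (y j)⁻¹
  low : ∀ (k : ℤ) j, k < 0 → y j * (g ^ k * y s * (g ^ k)⁻¹) * (y j)⁻¹ = g ^ k * y s * (g ^ k)⁻¹ ∨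
    y j * (g ^ k * y s * (g ^ k)⁻¹) * (y j)⁻¹ = (g ^ k * y s * (g ^ k)⁻¹)⁻¹
  ne : y s ≠ 1
  sol : derivedSeries Q (d + 3) = ⊥
  deep : ∀ D : ℕ → Subgroup Q, (∀ k, D (k + 1) ≤ D k) → (∀ k, ⁅D k, D k⁆ ≤ D (k + 1)) →
    (∀ j, y j ^ 4 ∈ D 0) → ∃ N, N ≠ 0 ∧ y s ^ N ∈ D d

variable {Q X : Type} [Group Q] [MulAction Q X] {d : ℕ} (S : Sys Q X d)

namespace Sys

@[simp] lemma t_one : S.t 1 = 0 := by simpa using S.t_mul 1 1
@[simp] lemma t_inv (a : Q) : S.t a⁻¹ = -S.t a := by have := S.t_mul a a⁻¹; simp at this; omega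
@[simp] lemma t_gz (k : ℤ) : S.t (S.g ^ k) = k := by
  induction k with
  | zero => simp
  | succ n ih => rw [zpow_add_one, S.t_mul, ih, S.t_g]
  | pred n ih => rw [zpow_sub_one, S.t_mul, ih, S.t_inv, S.t_g]; rfl
attribute [simp] t_mul blk_smul lev_smul t_y

lemma h_gz (k : ℤ) (x : X) : S.h (S.g ^ k • x) = S.h x := by
  induction k generalizing x with
  | zero => simp
  | succ n ih => rw [zpow_add_one, mul_smul, ih, S.h_g]
  | pred n ih => rw [zpow_sub_one, mul_smul, ih, ← S.h_g, smul_inv_smul]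

def N (a : ℤ) (k : ℕ) : Subgroup Q where
  carrier := {q | S.t q = 0 ∧ ∀ z, a < S.blk z ∨ a = S.blk z ∧ S.lev z < k → S.h (q • z) = S.h z}
  one_mem' := by simp
  mul_mem' {p q} hp hq := ⟨by simp [hp.1, hq.1], fun z hz => by
    rw [mul_smul, hp.2 _ (by simpa [hq.1] using hz), hq.2 z hz]⟩
  inv_mem' {q} hq := ⟨by simp [hq.1], fun z hz => by
    rw [← hq.2 (q⁻¹ • z) (by simpa [hq.1] using hz), smul_inv_smul]⟩

variable {S}

lemma N_mono {a b : ℤ} {k l : ℕ} (h : a < b ∨ a = b ∧ l ≤ k) {q : Q} (hq : q ∈ S.N a k) :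
    q ∈ S.N b l := ⟨hq.1, fun z hz => hq.2 z (by omega)⟩

lemma l2' {q : Q} {x : X} (hq : q ∈ S.N (S.blk x) (S.lev x)) (w : Q) :
    S.h (w • q • x) - S.h (q • x) = S.h (w • x) - S.h x := S.l2 q x hq.1 hq.2 w

lemma N_conj {a : ℤ} {k : ℕ} {q : Q} (hq : q ∈ S.N a k) (w : Q) : w * q * w⁻¹ ∈ S.N (S.t w + a) k :=
  ⟨by simp [hq.1], fun z hz => by
    have h1 := hq.2 (w⁻¹ • z) (by simp; omega)
    have h2 := l2' (x := w⁻¹ • z) (N_mono (by simp; omega) hq) w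
    rw [smul_inv_smul] at h2
    rw [mul_smul, mul_smul]; omega⟩

lemma y_mem (j : ℕ) : S.y j ∈ S.N 0 j := ⟨S.t_y j, fun z hz => S.pure j z (by omega)⟩

lemma top {r : Q} (hr : S.t r = 0) (h : ∃ x, S.h (r • x) ≠ S.h x) :
    ∃ x, S.h (r • x) ≠ S.h x ∧ r ∈ S.N (S.blk x) (S.lev x) := by
  classical
  obtain ⟨b, hb⟩ := S.bdd r hr
  obtain ⟨x0, h0⟩ := h
  obtain ⟨a, h1, h2⟩ := Int.exists_greatest_of_bdd (P := fun a => ∃ k x, S.blk x = a ∧ S.lev x = k ∧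
    S.h (r • x) ≠ S.h x) ⟨b, fun a ⟨_, x, e, _, h⟩ => by_contra fun c => h (hb x (by omega))⟩
    ⟨_, _, x0, rfl, rfl, h0⟩
  obtain ⟨x, e1, e2, h3⟩ := Nat.find_spec h1
  refine ⟨x, h3, hr, fun z hz => by_contra fun c => ?_⟩
  have := h2 _ ⟨_, z, rfl, rfl, c⟩
  have := fun e => Nat.find_min' h1 ⟨z, e, rfl, c⟩
  omega

variable (S) in
def c (a : ℤ) (k : ℕ) (r : Q) : X → ℤ := fun x =>
  if S.blk x = a ∧ S.lev x = k then S.h (r • x) - S.h x else 0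

lemma c_mul {a : ℤ} {k : ℕ} {q : Q} (hq : q ∈ S.N a k) (p : Q) :
    S.c a k (p * q) = S.c a k p + S.c a k q := by
  funext x
  simp only [c, Pi.add_apply]
  split_ifs with h
  · have := l2' (x := x) (by rwa [h.1, h.2]) p
    rw [mul_smul]; omega
  · rfl

lemma c_zero {a b : ℤ} {k l : ℕ} {q : Q} (hq : q ∈ S.N a k) (h : a < b ∨ a = b ∧ l < k) :
    S.c b l q = 0 := by
  funext x
  simp only [c, Pi.zero_apply]
  split_ifs with h'
  · rw [hq.2 x (by omega), sub_self]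
  · rfl

variable (S) in
def P (j : ℕ) (r : Q) : Prop := ∃ a k, (0 < a ∨ 0 = a ∧ k < j) ∧ r ∈ S.N a k ∧ pos (S.c a k r)

lemma P.t {j : ℕ} {r : Q} (h : S.P j r) : S.t r = 0 := h.choose_spec.choose_spec.2.1.1

lemma P.nm {j : ℕ} {r : Q} (h : S.P j r) : r ∉ S.N 0 j := fun h' => by
  obtain ⟨a, k, h1, -, x, h2, -⟩ := h
  simp [c_zero h' h1] at h2

lemma P.mul {j : ℕ} {r r' : Q} (h : S.P j r) (h' : S.P j r') : S.P j (r * r') := by
  obtain ⟨a, k, h1, h2, h3⟩ := h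
  obtain ⟨b, l, h4, h5, h6⟩ := h'
  by_cases e : a < b ∨ a = b ∧ l < k
  · exact ⟨b, l, h4, mul_mem (N_mono (by omega) h2) h5, by rwa [c_mul h5, c_zero h2 e, zero_add]⟩
  by_cases e' : b < a ∨ b = a ∧ k < l
  · have := N_mono (b := a) (l := k) (by omega) h5
    exact ⟨a, k, h1, mul_mem h2 this, by rwa [c_mul this, c_zero h5 e', add_zero]⟩
  obtain ⟨rfl, rfl⟩ : a = b ∧ k = l := by omega
  exact ⟨a, k, h1, mul_mem h2 h5, by rw [c_mul h5]; exact pos_add h3 h6⟩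

lemma P.left {j : ℕ} {r n : Q} (h : S.P j r) (hn : n ∈ S.N 0 j) : S.P j (n * r) := by
  obtain ⟨a, k, h1, h2, h3⟩ := h
  exact ⟨a, k, h1, mul_mem (N_mono (by omega) hn) h2, by rwa [c_mul h2, c_zero hn h1, zero_add]⟩

lemma P_tri {j : ℕ} {r : Q} (hr : S.t r = 0) (h : r ∉ S.N 0 j) : S.P j r ∨ S.P j r⁻¹ := by
  obtain ⟨z, hz, h0⟩ : ∃ z, (0 < S.blk z ∨ 0 = S.blk z ∧ S.lev z < j) ∧ S.h (r • z) ≠ S.h z := by
    by_contra! c; exact h ⟨hr, c⟩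
  obtain ⟨x, h1, h2⟩ := top hr ⟨z, h0⟩
  have h3 : 0 < S.blk x ∨ 0 = S.blk x ∧ S.lev x < j := by
    have := mt (h2.2 z) h0; omega
  have h4 := c_mul h2 r⁻¹
  rw [inv_mul_cancel, c_zero (S.N 0 j).one_mem h3, eq_comm, add_eq_zero_iff_eq_neg] at h4
  refine (pos_tri (f := S.c (S.blk x) (S.lev x) r) ⟨x, by simpa [c, sub_eq_zero]⟩).imp
    (fun h => ⟨_, _, h3, h2, h⟩) fun h => ⟨_, _, h3, inv_mem h2, by rwa [h4]⟩

variable (S) in
abbrev Om := Σ j : ℕ, Q ⧸ S.N 0 j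

variable (S) in
def pt (j : ℕ) (q : Q) : S.Om := ⟨j, (q : Q ⧸ S.N 0 j)⟩

lemma pt_surj (ω : S.Om) : ∃ j q, ω = S.pt j q := by
  obtain ⟨j, q⟩ := ω
  obtain ⟨q, rfl⟩ := QuotientGroup.mk_surjective q
  exact ⟨j, q, rfl⟩

@[simp] lemma smul_pt (w : Q) (j : ℕ) (q : Q) : w • S.pt j q = S.pt j (w * q) := rfl
@[simp] lemma pt_fst (j : ℕ) (q : Q) : (S.pt j q).1 = j := rfl
@[simp] lemma smul_fst (w : Q) (ω : S.Om) : (w • ω).1 = ω.1 := rfl

lemma pt_eq {j : ℕ} {q q' : Q} : S.pt j q = S.pt j q' ↔ q⁻¹ * q' ∈ S.N 0 j := by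
  simp [pt, QuotientGroup.eq]

noncomputable def rep (ω : S.Om) : Q := ω.2.out

lemma rep_pt (j : ℕ) (q : Q) : ∃ n ∈ S.N 0 j, rep (S.pt j q) = q * n := by
  obtain ⟨n, hn⟩ := QuotientGroup.mk_out_eq_mul (S.N 0 j) q
  exact ⟨n, n.2, hn⟩

noncomputable def bk (ω : S.Om) : ℤ := S.t (rep ω)

@[simp] lemma bk_pt (j : ℕ) (q : Q) : bk (S.pt j q) = S.t q := by
  obtain ⟨n, h, e⟩ := rep_pt (S := S) j q
  simp [bk, e, h.1]

@[simp] lemma bk_smul (w : Q) (ω : S.Om) : bk (w • ω) = S.t w + bk ω := by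
  obtain ⟨j, q, rfl⟩ := pt_surj ω; simp

lemma fix {a : ℤ} {k : ℕ} {r : Q} (hr : r ∈ S.N a k) {ω : S.Om} (h : a < bk ω ∨ a = bk ω ∧ ω.1 ≤ k) :
    r • ω = ω := by
  obtain ⟨j, q, rfl⟩ := pt_surj ω
  have := N_conj (N_mono h (inv_mem hr)) q⁻¹
  rw [smul_pt, pt_eq]
  simpa [mul_assoc] using this

def lt (ω ω' : S.Om) : Prop := bk ω < bk ω' ∨ (bk ω = bk ω' ∧ ω'.1 < ω.1) ∨
  ∃ j q q', ω = S.pt j q ∧ ω' = S.pt j q' ∧ S.P j (q⁻¹ * q')

lemma lt.lev {ω ω' : S.Om} (h : lt ω ω') : bk ω < bk ω' ∨ bk ω = bk ω' ∧ ω'.1 ≤ ω.1 := by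
  rcases h with h | h | ⟨j, q, q', rfl, rfl, h⟩
  · omega
  · omega
  · have := h.t; simp at this ⊢; omega

lemma lt.smul {ω ω' : S.Om} (h : lt ω ω') (w : Q) : lt (w • ω) (w • ω') := by
  rcases h with h | h | ⟨j, q, q', rfl, rfl, h⟩
  · exact .inl (by simpa)
  · exact .inr (.inl (by simpa))
  · exact .inr (.inr ⟨j, w * q, w * q', rfl, rfl, by simpa [mul_assoc] using h⟩)

instance : IsStrictTotalOrder S.Om lt where
  irrefl ω h := by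
    rcases h with h | h | ⟨j, q, q', rfl, e, h⟩
    · omega
    · omega
    · exact h.nm (pt_eq.1 e)
  trans a b c h1 h2 := by
    have := h1.lev
    have := h2.lev
    rcases h1 with h1 | h1 | ⟨j, p, q, rfl, rfl, h1⟩
    · exact .inl (by omega)
    · rcases this with h | h
      · exact .inl (by omega)
      · exact .inr (.inl (by omega))
    rcases h2 with h2 | h2 | ⟨j', q', r, e, rfl, h2⟩
    · exact .inl (by omega)
    · have := h1.t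
      exact .inr (.inl (by simp at this h2 ⊢; omega))
    obtain rfl : j = j' := congrArg Sigma.fst e
    exact .inr (.inr ⟨j, p, r, rfl, rfl, by simpa [mul_assoc] using h1.mul (h2.left (pt_eq.1 e))⟩)
  trichotomous a b h1 h2 := by
    obtain ⟨j, p, rfl⟩ := pt_surj a
    obtain ⟨k, q, rfl⟩ := pt_surj b
    simp only [lt, bk_pt, pt_fst, not_or] at h1 h2
    obtain rfl : j = k := by omega
    by_contra c
    rcases P_tri (r := p⁻¹ * q) (by simp; omega) (mt pt_eq.2 c) with h | h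
    · exact h1.2.2 ⟨j, p, q, rfl, rfl, h⟩
    · exact h2.2.2 ⟨j, q, p, rfl, rfl, by simpa using h⟩

end Sys

end Pool.Agent.H21.RC2
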