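import Pool.Agent.H21.RC2

namespace Pool.Agent.H21.RC2.Sys

open Pool.Agent.H21.RC1
open scoped commutatorElement

variable {Q X : Type} [Group Q] [MulAction Q X] {d : ℕ} {S : Sys Q X d}

noncomputable def act (w : Q) : (S.Om →₀ ℤ) →+ (S.Om →₀ ℤ) := Finsupp.mapDomain.addMonoidHom (w • ·)

lemma act_apply (w : Q) (m : S.Om →₀ ℤ) (ω : S.Om) : act w m ω = m (w⁻¹ • ω) := by
  conv_lhs => rw [← smul_inv_smul w ω]
  exact Finsupp.mapDomain_apply (MulAction.injective w) m _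

@[simp] lemma act_one (m : S.Om →₀ ℤ) : act 1 m = m := by ext; simp [act_apply]
@[simp] lemma act_act (a b : Q) (m : S.Om →₀ ℤ) : act a (act b m) = act (a * b) m := by
  ext; simp [act_apply, mul_smul]
@[simp] lemma act_single (w : Q) (ω : S.Om) (k : ℤ) :
    act w (Finsupp.single ω k) = Finsupp.single (w • ω) k := Finsupp.mapDomain_single

lemma act_fix {r : Q} {m : S.Om →₀ ℤ} (h : ∀ ω, m ω ≠ 0 → r • ω = ω) : act r m = m :=
  (Finsupp.mapDomain_congr fun ω hω => h ω (Finsupp.mem_support_iff.1 hω)).trans Finsupp.mapDomain_id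

def Top (m : S.Om →₀ ℤ) (ω : S.Om) : Prop := ∀ ω', m ω' ≠ 0 → ω' = ω ∨ lt ω' ω

lemma exists_top {m : S.Om →₀ ℤ} (h : m ≠ 0) : ∃ ω, m ω ≠ 0 ∧ Top m ω := by
  classical
  letI := linearOrderOfSTO (lt (S := S))
  obtain ⟨ω, h1, h2⟩ := m.support.exists_max_image id (Finsupp.support_nonempty_iff.2 h)
  exact ⟨ω, by simpa using h1, fun ω' h => h2 ω' (by simpa using h)⟩

def Pos (m : S.Om →₀ ℤ) : Prop := ∃ ω, 0 < m ω ∧ Top m ω

lemma Pos.add {m m' : S.Om →₀ ℤ} (h : Pos m) (h' : Pos m') : Pos (m + m') := by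
  have key : ∀ {m m' : S.Om →₀ ℤ} {a b}, 0 < m a → Top m a → 0 < m' b → Top m' b → (b = a ∨ lt b a) →
      Pos (m + m') := fun {m m' a b} h1 h2 h3 h4 h5 => by
    refine ⟨a, ?_, fun c hc => ?_⟩
    · have : 0 ≤ m' a := by
        rcases h5 with rfl | h5
        · exact h3.le
        · refine ge_of_eq (by_contra fun c => ?_)
          rcases h4 a c with rfl | h6
          · exact irrefl_of lt _ h5
          · exact irrefl_of lt _ (trans_of lt h5 h6)
      simp; omega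
    · by_cases e : m c = 0
      · rcases h4 c (by simpa [e] using hc) with rfl | h6
        · exact h5
        · rcases h5 with rfl | h5
          · exact .inr h6
          · exact .inr (trans_of lt h6 h5)
      · exact h2 c e
  obtain ⟨a, h1, h2⟩ := h
  obtain ⟨b, h3, h4⟩ := h'
  rcases trichotomous_of lt a b with h | h | h
  · rw [add_comm]; exact key h3 h4 h1 h2 (.inr h)
  · exact key h1 h2 h3 h4 (.inl h.symm)
  · exact key h1 h2 h3 h4 (.inr h)

lemma Top.act {m : S.Om →₀ ℤ} {ω : S.Om} (h : Top m ω) (w : Q) : Top (act w m) (w • ω) := fun a ha => by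
  rw [act_apply] at ha
  rcases h _ ha with e | e
  · exact .inl (by rw [← e, smul_inv_smul])
  · exact .inr (by simpa using e.smul w)

lemma Pos.act {m : S.Om →₀ ℤ} (h : Pos m) (w : Q) : Pos (act w m) := by
  obtain ⟨a, h1, h2⟩ := h
  exact ⟨w • a, by rwa [act_apply, inv_smul_smul], h2.act w⟩

noncomputable def E (ω : S.Om) (x : X) : ℤ :=
  S.h ((rep ω)⁻¹ • x) - S.h ((S.y ω.1)⁻¹ • (rep ω)⁻¹ • x)

lemma pure' {j : ℕ} {x : X} (h : ¬ (S.blk x = 0 ∧ S.lev x = j)) : S.h ((S.y j)⁻¹ • x) = S.h x := by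
  rw [← S.pure j ((S.y j)⁻¹ • x) (by simpa using h), smul_inv_smul]

lemma fixk {j : ℕ} {n : Q} (hn : n ∈ S.N 0 j) (x : X) :
    S.h (n • x) - S.h ((S.y j)⁻¹ • n • x) = S.h x - S.h ((S.y j)⁻¹ • x) := by
  by_cases h : S.blk x = 0 ∧ S.lev x = j
  · have := l2' (x := x) (by rwa [h.1, h.2]) (S.y j)⁻¹
    omega
  · rw [pure' h, pure' (by simpa [hn.1] using h)]; simp

lemma E_pt (j : ℕ) (q : Q) (x : X) : E (S.pt j q) x = S.h (q⁻¹ • x) - S.h ((S.y j)⁻¹ • q⁻¹ • x) := by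
  obtain ⟨n, h, e⟩ := rep_pt (S := S) j q
  rw [E, e, mul_inv_rev, mul_smul, pt_fst, fixk (inv_mem h)]

lemma E_smul (w : Q) (ω : S.Om) (x : X) : E (w • ω) x = E ω (w⁻¹ • x) := by
  obtain ⟨j, q, rfl⟩ := pt_surj ω
  simp [E_pt, mul_smul]

lemma E_zero {ω : S.Om} {x : X} (h : bk ω < S.blk x ∨ bk ω = S.blk x ∧ S.lev x < ω.1) : E ω x = 0 := by
  obtain ⟨j, q, rfl⟩ := pt_surj ω
  rw [E_pt, pure' (by simp at h ⊢; omega), sub_self]

noncomputable def δ (x : X) : (S.Om →₀ ℤ) →ₗ[ℤ] ℤ := Finsupp.linearCombination ℤ fun ω => E ω x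

@[simp] lemma δ_single (x : X) (ω : S.Om) (k : ℤ) : δ x (Finsupp.single ω k) = k * E ω x := by simp [δ]

lemma δ_act (w : Q) (m : S.Om →₀ ℤ) (x : X) : δ x (act w m) = δ (w⁻¹ • x) m := by
  induction m using Finsupp.induction_linear with
  | zero => simp
  | add a b ha hb => simp [ha, hb]
  | single a k => simp [E_smul]

variable (S) in
@[ext] structure W where
  m : S.Om →₀ ℤ
  q : Q

noncomputable instance : Mul S.W := ⟨fun a b => ⟨a.m + act a.q b.m, a.q * b.q⟩⟩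
noncomputable instance : One S.W := ⟨⟨0, 1⟩⟩
noncomputable instance : Inv S.W := ⟨fun a => ⟨-act a.q⁻¹ a.m, a.q⁻¹⟩⟩
@[simp] lemma mul_m (a b : S.W) : (a * b).m = a.m + act a.q b.m := rfl
@[simp] lemma mul_q (a b : S.W) : (a * b).q = a.q * b.q := rfl
@[simp] lemma one_m : (1 : S.W).m = 0 := rfl
@[simp] lemma one_q : (1 : S.W).q = 1 := rfl
@[simp] lemma inv_m (a : S.W) : a⁻¹.m = -act a.q⁻¹ a.m := rfl
@[simp] lemma inv_q (a : S.W) : a⁻¹.q = a.q⁻¹ := rfl

noncomputable instance : Group S.W := Group.ofLeftAxioms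
  (fun a b c => by ext1 <;> simp [add_assoc, mul_assoc]) (fun a => by ext1 <;> simp)
  (fun a => by ext1 <;> simp)

variable (S) in
def pq : S.W →* Q := ⟨⟨W.q, rfl⟩, fun _ _ => rfl⟩

@[simp] lemma pow_q (a : S.W) (n : ℕ) : (a ^ n).q = a.q ^ n := map_pow S.pq a n

variable (S) in
def Gs : Subgroup S.W where
  carrier := {z | ∀ x, δ x z.m = 2 * (S.h x - S.h (z.q⁻¹ • x))}
  one_mem' := by simp
  mul_mem' {a b} ha hb x := by
    simp only [mul_m, mul_q, map_add, δ_act, ha _, hb _, mul_inv_rev, mul_smul]; ring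
  inv_mem' {a} ha x := by
    simp only [inv_m, inv_q, map_neg, δ_act, ha _, inv_inv, inv_smul_smul]; ring

lemma Gs_N {z : S.W} (hz : z ∈ S.Gs) (ht : S.t z.q = 0) {a : ℤ} {k : ℕ}
    (h : ∀ ω, z.m ω ≠ 0 → bk ω < a ∨ bk ω = a ∧ k ≤ ω.1) : z.q ∈ S.N a k := by
  refine inv_mem_iff.1 ⟨by simpa, fun x hx => ?_⟩
  have h1 := hz x
  have : δ x z.m = 0 := Finset.sum_eq_zero fun ω hω => by
    have := h ω (Finsupp.mem_support_iff.1 hω)
    simp [E_zero (ω := ω) (x := x) (by omega)]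
  omega

lemma Gs_one {z : S.W} (hz : z ∈ S.Gs) (ht : S.t z.q = 0) (h : z.m = 0) : z = 1 := by
  refine W.ext h (by_contra fun c => ?_)
  obtain ⟨x, hx⟩ := S.faith _ ht c
  exact hx ((Gs_N hz ht (a := S.blk x - 1) (k := 0) (by simp [h])).2 x (by omega))

lemma Pos_conj {z : S.W} (hz : z ∈ S.Gs) (ht : S.t z.q = 0) (h : Pos z.m) (w : S.W) :
    Pos (w * z * w⁻¹).m := by
  obtain ⟨a, h1, h2⟩ := h
  have h3 := N_conj (Gs_N hz ht (a := bk a) (k := a.1) fun ω hω => by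
    rcases h2 ω hω with rfl | h
    · simp
    · exact h.lev) w.q
  have h4 : ∀ ω, S.t w.q + bk a < bk ω ∨ S.t w.q + bk a = bk ω ∧ ω.1 ≤ a.1 →
      (w * z * w⁻¹).m ω = act w.q z.m ω := fun ω hω => by
    simp only [mul_m, mul_q, inv_m, map_neg, act_act, Finsupp.add_apply, Finsupp.neg_apply]
    rw [act_apply (_ * _), fix (inv_mem h3) hω]; ring
  refine ⟨w.q • a, by rwa [h4 _ (by simp), act_apply, inv_smul_smul], fun ω hω => ?_⟩
  by_cases e : S.t w.q + bk a < bk ω ∨ S.t w.q + bk a = bk ω ∧ ω.1 ≤ a.1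
  · exact h2.act w.q ω (by rwa [h4 ω e] at hω)
  · exact .inr (by
      rcases lt_or_ge (bk ω) (S.t w.q + bk a) with h | h
      · exact .inl (by simpa)
      · exact .inr (.inl (by simp; omega)))

lemma rc_bot {G : Subgroup S.W} (hG : G ≤ S.Gs) : RC (⊥ : Subgroup G) := by
  refine ⟨inferInstance, fun z => 0 < S.t z.1.q ∨ S.t z.1.q = 0 ∧ Pos z.1.m, ?_, ?_, ?_, ?_⟩
  · rintro a b (ha | ⟨ha, ha'⟩) (hb | ⟨hb, hb'⟩)
    · left; simp; omega
    · left; simp; omega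
    · left; simp; omega
    · exact .inr ⟨by simp [ha, hb], ha'.add (hb'.act _)⟩
  · rintro a g (ha | ⟨ha, ha'⟩)
    · left; simpa
    · exact .inr ⟨by simpa, Pos_conj (hG a.2) ha ha' g⟩
  · intro a
    rcases lt_trichotomy 0 (S.t a.1.q) with h | h | h
    · exact .inr (.inl (.inl h))
    · by_cases e : a.1.m = 0
      · exact .inl (Subtype.ext (Gs_one (hG a.2) h.symm e))
      obtain ⟨ω, h1, h2⟩ := exists_top e
      rcases lt_or_gt_of_ne h1 with h3 | h3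
      · refine .inr (.inr (.inr ⟨by simp [← h], ?_⟩))
        have : Pos (-a.1.m) := ⟨ω, by simpa, fun b hb => h2 b (by simpa using hb)⟩
        simpa using this.act a.1.q⁻¹
      · exact .inr (.inl (.inr ⟨h.symm, ω, h3, h2⟩))
    · exact .inr (.inr (.inl (by simpa)))
  · rintro a (ha | ⟨_, ω, ha, _⟩) rfl <;> simp at ha

end Pool.Agent.H21.RC2.Sys
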