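import Pool.Agent.H21.RC3

namespace Pool.Agent.H21.RC2.Sys

open Pool.Agent.H21.RC1 Pool.Agent.H21.RCDefs
open scoped commutatorElement

variable {Q X : Type} [Group Q] [MulAction Q X] {d : ℕ} {S : Sys Q X d}

variable (S) in
def x (k : ℤ) : Q := S.g ^ k * S.y S.s * (S.g ^ k)⁻¹

@[simp] lemma t_x (k : ℤ) : S.t (S.x k) = 0 := by simp [x]
lemma x_zero : S.x 0 = S.y S.s := by simp [x]
lemma x_sh (a k : ℤ) : S.g ^ a * S.x k * (S.g ^ a)⁻¹ = S.x (a + k) := by simp only [x]; group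
lemma x_inv {k : ℤ} (h : 1 ≤ k) (j : ℕ) : S.x k * S.y j * (S.x k)⁻¹ = (S.y j)⁻¹ := S.inv k j h
lemma x_x {a b : ℤ} (h : a < b) : S.x b * S.x a * (S.x b)⁻¹ = (S.x a)⁻¹ := by
  have := congrArg (fun z => S.g ^ a * z * (S.g ^ a)⁻¹) (x_inv (S := S) (k := b - a) (by omega) S.s)
  have e := x_sh (S := S) a (b - a)
  rw [add_sub_cancel] at e
  rw [← e]
  convert this using 1 <;> simp only [x] <;> group
lemma x_mem (k : ℤ) : S.x k ∈ S.N k S.s := by simpa [x] using N_conj (y_mem (S := S) S.s) (S.g ^ k)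

variable (S) in
noncomputable def β (j : ℕ) (k : ℤ) : S.W :=
  ⟨Finsupp.single (S.pt j 1) 1 - Finsupp.single (S.pt j (S.x k)) 1, S.y j⟩

variable (S) in
noncomputable def i (q : Q) : S.W := ⟨0, q⟩

variable (S) in
noncomputable def im : Q →* S.W := MonoidHom.mk' S.i fun a b => by ext1 <;> simp [i]

variable (S) in
noncomputable def G : Subgroup S.W :=
  Subgroup.closure {z | z = S.i S.g ∨ ∃ j k, 1 ≤ k ∧ z = S.β j k}

lemma β_mem (j : ℕ) {k : ℤ} (h : 1 ≤ k) : S.β j k ∈ S.G := Subgroup.subset_closure (.inr ⟨j, k, h, rfl⟩)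
lemma g_mem (a : ℤ) : S.i (S.g ^ a) ∈ S.G := by
  rw [show S.i (S.g ^ a) = S.i S.g ^ a from map_zpow S.im _ _]
  exact zpow_mem (Subgroup.subset_closure (.inl rfl)) a

lemma G_le : S.G ≤ S.Gs := by
  refine (Subgroup.closure_le _).2 ?_
  rintro _ (rfl | ⟨j, k, hk, rfl⟩) z
  · have := S.h_g (S.g⁻¹ • z)
    simp [i] at this ⊢; omega
  have e : (S.y j)⁻¹ * (S.x k)⁻¹ = (S.x k)⁻¹ * S.y j := by
    rw [← inv_inj]; simpa [mul_inv_eq_iff_eq_mul, eq_comm] using congrArg (· * S.x k) (x_inv (S := S) hk j)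
  simp only [β, map_sub, δ_single, E_pt, inv_one, one_smul, one_mul, ← mul_smul, e]
  by_cases h : S.blk z = 0 ∧ S.lev z = j
  · have h0 := (inv_mem (x_mem (S := S) k)).2
    have h1 := l2' (q := S.y j) (x := z) (by rw [h.1, h.2]; exact y_mem j) (S.x k)⁻¹
    have h2 := l2' (q := S.y j) (x := z) (by rw [h.1, h.2]; exact y_mem j) (S.y j)⁻¹
    have h3 : ∀ w, S.blk w = 0 → S.h ((S.x k)⁻¹ • w) = S.h w := fun w hw => by
      have := S.pure S.s ((S.g ^ k)⁻¹ • (S.x k)⁻¹ • w) (by simp; omega)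
      rw [← h_gz S k, ← mul_smul, ← mul_smul, ← zpow_neg, h_gz] at this
      rw [← this, ← mul_smul]; simp [x]
    rw [inv_smul_smul] at h2
    rw [mul_smul]
    have := h3 z h.1
    have := h3 (S.y j • z) (by simp [h.1])
    omega
  · rw [pure' h, ← e, mul_smul, pure' (by simpa using h)]; simp

variable (S) in
def Up : Subgroup S.W where
  carrier := {z | S.t z.q = 0 ∧ ∀ ω, bk ω < 1 → z.m ω = 0}
  one_mem' := by simp
  mul_mem' {a b} ha hb := ⟨by simp [ha.1, hb.1], fun ω h => by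
    simp [act_apply, ha.2 ω h, hb.2 (a.q⁻¹ • ω) (by simpa [ha.1])]⟩
  inv_mem' {a} ha := ⟨by simp [ha.1], fun ω h => by simp [act_apply, ha.2 (a.q • ω) (by simpa [ha.1])]⟩

lemma conj_up {z b : S.W} (hz : z ∈ S.Up) (hb : b.q ∈ S.N 0 0) :
    z * b * z⁻¹ = ⟨act z.q b.m, z.q * b.q * z.q⁻¹⟩ := by
  ext1
  · have : act (z.q * b.q * z.q⁻¹) z.m = z.m := act_fix fun ω hω =>
      fix (N_conj hb z.q) (.inl (by have := mt (hz.2 ω) hω; rw [hz.1]; omega))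
    simp [this]
  · rfl

lemma y_N (j : ℕ) : S.y j ∈ S.N 0 0 := N_mono (by omega) (y_mem j)

variable (S) in
noncomputable def sh (a : ℤ) (z : S.W) : S.W := S.i (S.g ^ a) * z * (S.i (S.g ^ a))⁻¹

lemma sh_q (a : ℤ) (z : S.W) : (S.sh a z).q = S.g ^ a * z.q * (S.g ^ a)⁻¹ := rfl
lemma sh_up {z : S.W} (ht : S.t z.q = 0) {a b : ℤ} (h : ∀ ω, bk ω < b → z.m ω = 0) (hab : 1 ≤ a + b) :
    S.sh a z ∈ S.Up := ⟨by simpa [sh_q], fun ω hω => by
      simpa [sh, i, act_apply] using h ((S.g ^ a)⁻¹ • ω) (by simp; omega)⟩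
lemma sh_mem {z : S.W} (h : z ∈ S.G) (a : ℤ) : S.sh a z ∈ S.G :=
  mul_mem (mul_mem (g_mem a) h) (inv_mem (g_mem a))
lemma bdd_m (m : S.Om →₀ ℤ) : ∃ b, ∀ ω, bk ω < b → m ω = 0 := by
  obtain ⟨b, hb⟩ := (m.support.image bk).bddBelow
  exact ⟨b, fun ω h => by_contra fun c => absurd (hb (Finset.mem_image_of_mem _ (Finsupp.mem_support_iff.2 c))) h.not_ge⟩
lemma β_m (j : ℕ) (k : ℤ) (ω : S.Om) (h : bk ω < 0) : (S.β j k).m ω = 0 := by
  have : ∀ q, S.t q = 0 → Finsupp.single (S.pt j q) (1 : ℤ) ω = 0 := fun q hq =>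
    Finsupp.single_eq_of_ne (by rintro rfl; simp [hq] at h)
  simp [β, this]

variable (S) in
noncomputable def Xh (a : ℤ) : S.W := S.sh a (S.β S.s 1)

@[simp] lemma Xh_q (a : ℤ) : (S.Xh a).q = S.x a := rfl
lemma Xh_mem (a : ℤ) : S.Xh a ∈ S.G := sh_mem (β_mem _ le_rfl) a
lemma Xh_up {a : ℤ} (h : 1 ≤ a) : S.Xh a ∈ S.Up := sh_up (S.t_y _) (β_m _ _) (by omega)

structure Nice (K : Subgroup S.W) : Prop where
  cj : ∀ z ∈ K, ∀ a ∈ S.G, a * z * a⁻¹ ∈ K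
  cm : ∀ a ∈ S.G, ∀ b ∈ S.G, ∀ N : ℕ, N ≠ 0 → ⁅a ^ N, b⁆ ∈ K → ⁅a, b⁆ ∈ K
  rt : ∀ a ∈ S.G, a ^ 2 ∈ K → a ∈ K

lemma nice {K : Subgroup S.G} (h : RC K) : Nice (K.map S.G.subtype) where
  cj := by
    rintro _ ⟨z, hz, rfl⟩ a ha
    exact ⟨_, h.1.conj_mem z hz ⟨a, ha⟩, rfl⟩
  cm := by
    rintro a ha b hb N hN ⟨z, hz, e⟩
    exact ⟨_, h.comm (a := ⟨a, ha⟩) (b := ⟨b, hb⟩) hN ((Subtype.ext e : z = ⁅(⟨a, ha⟩ : S.G) ^ N, ⟨b, hb⟩⁆) ▸ hz), rfl⟩
  rt := by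
    rintro a ha ⟨z, hz, e⟩
    exact ⟨_, h.root (a := ⟨a, ha⟩) two_ne_zero ((Subtype.ext e : z = (⟨a, ha⟩ : S.G) ^ 2) ▸ hz), rfl⟩

variable {K : Subgroup S.W}

lemma Nice.c1 (hK : Nice K) {z b : S.W} (hz : z ∈ S.Up) {j : ℤ} (hj : 1 ≤ j) {N : ℕ} (hN : N ≠ 0)
    (e : z.q = S.x j ^ N) (hb : b ∈ S.G) (hb' : b.q ∈ S.N 0 0) (h : ⁅z, b⁆ ∈ K) : ⁅S.Xh j, b⁆ ∈ K := by
  refine hK.cm _ (Xh_mem j) _ hb N hN ?_
  rw [commutatorElement_def, conj_up (pow_mem (Xh_up hj) N) hb']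
  rw [commutatorElement_def, conj_up hz hb', e] at h
  simpa using h

lemma ident (j : ℕ) {k : ℤ} (hk : 1 ≤ k) :
    S.Xh (k + 1) * S.β j k * (S.Xh (k + 1))⁻¹ * ((S.Xh k)⁻¹ * S.β j k * (S.Xh k)⁻¹⁻¹) =
      (S.Xh k)⁻¹ * S.β j (k + 1) * (S.Xh k)⁻¹⁻¹ * (S.β j (k + 1))⁻¹ := by
  rw [conj_up (Xh_up (by omega)) (y_N j), conj_up (inv_mem (Xh_up hk)) (y_N j),
    conj_up (inv_mem (Xh_up hk)) (y_N j)]
  have e1 := x_inv (S := S) hk j
  have e2 := x_inv (S := S) (k := k + 1) (by omega) j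
  have e3 : (S.x k)⁻¹ * S.y j * S.x k = (S.y j)⁻¹ := by
    calc _ = (S.x k)⁻¹ * (S.x k * S.y j * (S.x k)⁻¹)⁻¹ * S.x k := by rw [e1, inv_inv]
      _ = _ := by group
  have e4 : S.x (k + 1) * S.x k = (S.x k)⁻¹ * S.x (k + 1) := by
    rw [← x_x (S := S) (lt_add_one k)]; group
  have e5 : ∀ q, S.t q = 0 → S.pt j ((S.y j)⁻¹ * q) = S.pt j q := fun q hq =>
    fix (ω := S.pt j q) (inv_mem (y_mem j)) (by simp [hq])
  have e6 := e5 1 (by simp)
  ext1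
  · simp only [β, mul_m, inv_m, inv_q, Xh_q, inv_inv, e2, e3, map_sub, map_neg, act_single, smul_pt,
      mul_one, e4, inv_mul_cancel] at e6 ⊢
    simp only [e6, e5, t_x, t_y, t_inv, neg_zero, t_mul, add_zero]
    abel
  · simp [β, e2, e3]

lemma Nice.step (hK : Nice K) {z : S.W} (hz : z ∈ K) {j : ℤ} {N : ℕ} (hN : N ≠ 0) (e : z.q = S.x j ^ N)
    {b : ℤ} (h : ∀ ω, bk ω < b → z.m ω = 0) (l : ℕ) {k : ℤ} (hk : 1 ≤ k) (hb : j + 1 ≤ k + b) :
    S.β l k ∈ K := by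
  have ht : S.t z.q = 0 := by rw [e]; exact (pow_mem (x_mem j) N).1
  have key : ∀ a, k ≤ a → ∀ c, 1 ≤ c → ⁅S.Xh a, S.β l c⁆ ∈ K := fun a ha c hc => by
    have h1 := hK.cj _ hz _ (g_mem (a - j))
    refine hK.c1 (sh_up (a := a - j) ht h (by omega)) (by omega) hN ?_ (β_mem l hc) (y_N l) ?_
    · rw [sh_q, e, ← conj_pow, x_sh, sub_add_cancel]
    · simpa [commutatorElement_def, mul_assoc, sh] using mul_mem h1 (hK.cj _ (inv_mem h1) _ (β_mem l hc))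
  have a1 := inv_mem (Xh_mem (S := S) k)
  refine hK.rt _ (β_mem l hk) ?_
  have := mul_mem (mul_mem (hK.cj _ (hK.cj _ (key k le_rfl k hk) _ a1) _ (β_mem l hk))
    (inv_mem (key (k + 1) (by omega) k hk))) (hK.cj _ (inv_mem (key k le_rfl (k + 1) (by omega))) _ a1)
  convert this using 1
  have e := ident (S := S) l hk
  simp only [commutatorElement_def]
  calc _ = S.β l k * ((S.Xh k)⁻¹ * ⁅S.Xh k, S.β l k⁆ * S.Xh k) * (S.β l k)⁻¹ * ⁅S.Xh (k + 1), S.β l k⁆⁻¹ *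
      (S.Xh (k + 1) * S.β l k * (S.Xh (k + 1))⁻¹ * ((S.Xh k)⁻¹ * S.β l k * (S.Xh k)⁻¹⁻¹)) := by
        simp only [commutatorElement_def, sq]; group
    _ = _ := by rw [e]; simp only [commutatorElement_def]; group

lemma Nice.all (hK : Nice K) {z : S.W} (hz : z ∈ K) {j : ℤ} {N : ℕ} (hN : N ≠ 0) (e : z.q = S.x j ^ N)
    {w : S.W} (hw : w ∈ S.G) (ht : S.t w.q = 0) : w ∈ K := by
  obtain ⟨b, hb⟩ := bdd_m z.m
  have h1 := hK.step hz hN e hb S.s (k := max 1 (j + 1 - b)) (by omega) (by omega)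
  have h2 : ∀ l k, 1 ≤ k → S.β l k ∈ K := fun l k hk =>
    hK.step h1 (j := 0) one_ne_zero (by simp [β, x_zero]) (β_m _ _) l hk (by omega)
  have : ∀ w ∈ S.G, w * S.im (S.g ^ (-S.t w.q)) ∈ K := fun w hw => by
    induction hw using Subgroup.closure_induction with
    | mem w hw =>
      rcases hw with rfl | ⟨l, k, hk, rfl⟩
      · have : S.i S.g = S.im S.g := rfl
        rw [show (S.i S.g).q = S.g from rfl, this, ← map_mul]; simp [S.t_g]
      · simpa [show (S.β l k).q = S.y l from rfl] using h2 l k hk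
    | one => simp
    | mul a b _ _ ha hb =>
      convert mul_mem ha (hK.cj _ hb _ (g_mem (S.t a.q))) using 1
      simp only [show ∀ q, S.i q = S.im q from fun _ => rfl, map_zpow, mul_q, t_mul]; group
    | inv a h ha =>
      convert hK.cj _ (inv_mem ha) _ (inv_mem h) using 1
      simp only [map_zpow, inv_q, t_inv]; group
  simpa [ht] using this w hw

variable (S) in
noncomputable def π : S.G →* Multiplicative ℤ := MonoidHom.mk' (fun z => .ofAdd (S.t z.1.q)) fun a b => by simp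

lemma fin {K : Subgroup S.G} (hK : RC K) {z : S.W} (hz : z ∈ K.map S.G.subtype) {j : ℤ} {N : ℕ}
    (hN : N ≠ 0) (e : z.q = S.x j ^ N ∨ z.q⁻¹ = S.x j ^ N) : S.π.ker ≤ K := fun w hw => by
  obtain ⟨w', h, e⟩ : w.1 ∈ K.map S.G.subtype := e.elim (fun e => (nice hK).all hz hN e w.2 hw)
    fun e => (nice hK).all (inv_mem hz) hN e w.2 hw
  exact (Subtype.ext e : w' = w) ▸ h

lemma low' {w : S.W} (hw : w ∈ S.G) : ∃ b, ∀ a ≤ b, w.q * S.x a * w.q⁻¹ = S.x (S.t w.q + a) ∨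
    w.q * S.x a * w.q⁻¹ = (S.x (S.t w.q + a))⁻¹ := by
  induction hw using Subgroup.closure_induction with
  | mem w hw =>
    rcases hw with rfl | ⟨l, k, hk, rfl⟩
    · exact ⟨0, fun a _ => .inl (by simpa [i, S.t_g] using x_sh (S := S) 1 a)⟩
    · exact ⟨-1, fun a ha => by simpa [β, x] using S.low a l (by omega)⟩
  | one => simp
  | mul a b _ _ ha hb =>
    obtain ⟨p, ha⟩ := ha
    obtain ⟨r, hb⟩ := hb
    refine ⟨min r (p - S.t b.q), fun c hc => ?_⟩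
    have e : (a * b).q * S.x c * (a * b).q⁻¹ = a.q * (b.q * S.x c * b.q⁻¹) * a.q⁻¹ := by simp [mul_assoc]
    have h := ha (S.t b.q + c) (by omega)
    rw [e, mul_q, t_mul, add_assoc]
    rcases hb c (by omega) with h' | h' <;> rw [h']
    · exact h
    · rw [conj_inv.symm]; exact h.symm.imp (fun h => by rw [h, inv_inv]) fun h => by rw [h]
  | inv a _ ha =>
    obtain ⟨p, ha⟩ := ha
    refine ⟨p + S.t a.q, fun c hc => ?_⟩
    have h := ha (-S.t a.q + c) (by omega)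
    rw [add_neg_cancel_left] at h
    rw [inv_q, t_inv]
    refine h.imp (fun h => ?_) fun h => ?_
    · rw [← h]; group
    · rw [← inv_inv (S.x c), ← h]; group

theorem result (S : Sys Q X d) :
    ∃ (Γ : Type) (_ : Group Γ), (∃ r : Γ → Γ → Prop, BiOrd r) ∧ derivedSeries Γ (d + 4) = ⊥ ∧
      derivedSeries Γ (d + 4 - 1) ≠ ⊥ ∧
      ∃! H : Subgroup Γ, H.Normal ∧ RelConvex H ∧ H ≠ ⊥ ∧ H ≠ ⊤ := by
  let φ : S.G →* Q := S.pq.comp S.G.subtype
  refine main S.π (rc_bot G_le) ⟨_, g_mem 1⟩ (by simp [π, i, S.t_g]) ⟨_, Xh_mem 0⟩ (by simp [π])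
    (fun h => S.ne (by simpa [x_zero] using congrArg (·.1.q) h))
    (fun K hK h => fin hK ⟨_, h, rfl⟩ (j := 0) one_ne_zero (.inl (by simp))) (fun K hK h => ?_)
    (fun K hK k hk h => ?_) ?_
  · let D : ℕ → Subgroup Q := fun k => (derivedSeries S.G k).map φ
    have d1 : ∀ k, D (k + 1) ≤ D k := fun k => Subgroup.map_mono (derivedSeries_antitone _ (Nat.le_succ k))
    have d2 : ∀ k a b, a ∈ D k → b ∈ D k → ⁅a, b⁆ ∈ D (k + 1) := by
      rintro k _ _ ⟨a, ha, rfl⟩ ⟨b, hb, rfl⟩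
      exact ⟨_, Subgroup.commutator_mem_commutator ha hb, map_commutatorElement _ _ _⟩
    have g0 : ∀ a : ℤ, S.g ^ a ∈ D 0 := fun a => ⟨⟨_, g_mem a⟩, trivial, rfl⟩
    have x0 : ∀ a : ℤ, S.x a ∈ D 0 := fun a => ⟨⟨_, Xh_mem a⟩, trivial, rfl⟩
    obtain ⟨N, hN, w, hw, e⟩ := S.deep (fun k => D (k + 2)) (fun k => d1 _)
      (fun k => Subgroup.commutator_le.2 fun a ha b hb => d2 _ a b ha hb) fun j => by
        have h1 := d2 0 _ _ (⟨⟨_, β_mem j le_rfl⟩, trivial, rfl⟩ : S.y j ∈ D 0) (x0 1)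
        have h2 := d2 1 _ _ h1 (d2 0 _ _ (g0 2) (x0 (-1)))
        have e1 : ⁅S.y j, S.x 1⁆ = S.y j ^ 2 := by
          rw [sq]; nth_rw 3 [← inv_inv (S.y j)]
          rw [← x_inv (S := S) le_rfl j, commutatorElement_def]; group
        have e2 : S.y j ^ 2 * S.x (-1) * (S.y j ^ 2)⁻¹ = S.x (-1) := by
          have : S.y j ^ 2 * S.x (-1) * (S.y j ^ 2)⁻¹ = S.y j * (S.y j * S.x (-1) * (S.y j)⁻¹) * (S.y j)⁻¹ := by
            rw [sq]; group
          rcases S.low (-1) j (by omega) with h | h <;> change _ * S.x (-1) * _ = _ at h <;> rw [this, h]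
          · exact h
          · rw [conj_inv.symm]; exact inv_eq_iff_eq_inv.2 h
        rw [e1, commutatorElement_def (S.g ^ 2), x_sh] at h2
        convert h2 using 1
        have e3 : (S.x (-1))⁻¹ * (S.y j ^ 2)⁻¹ * S.x (-1) = (S.y j ^ 2)⁻¹ := by
          generalize S.y j ^ 2 = u at e2 ⊢
          calc _ = (S.x (-1))⁻¹ * u⁻¹ * (u * S.x (-1) * u⁻¹) := by rw [e2]
            _ = _ := by group
        calc _ = S.y j ^ 2 * (S.x 1 * S.y j * (S.x 1)⁻¹)⁻¹ ^ 2 := by rw [x_inv le_rfl]; group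
          _ = S.y j ^ 2 * S.x 1 * ((S.x (-1))⁻¹ * (S.y j ^ 2)⁻¹ * S.x (-1)) * (S.x 1)⁻¹ := by
            rw [e3]; simp only [sq]; group
          _ = _ := by simp only [commutatorElement_def]; group
    replace e : w.1.q = S.x 0 ^ N := by rw [x_zero]; exact e
    obtain ⟨b, hb⟩ := bdd_m w.1.m
    have ht : S.t w.1.q = 0 := by rw [e]; exact (pow_mem (x_mem 0) N).1
    have wN : w.1.q ∈ S.N 0 0 := by rw [e, x_zero]; exact pow_mem (y_N _) N
    have h1 := (nice hK).c1 (sh_up (a := max 1 (1 - b)) ht hb (by omega)) (j := max 1 (1 - b)) (by omega) hN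
      (by rw [sh_q, e, ← conj_pow, x_sh, add_zero]) w.2 wN ⟨_, h (Subgroup.commutator_mem_commutator
        ((derivedSeries_normal _ _).conj_mem w hw ⟨_, g_mem _⟩) hw), rfl⟩
    refine fin hK h1 (j := 0) (N := 2 * N) (by omega) (.inr ?_)
    simp only [commutatorElement_def, mul_q, inv_q, Xh_q, e]
    rw [← conj_pow, x_x (by omega)]; group
  · wlog hp : 0 < S.t k.1.q generalizing k
    · refine this k⁻¹ (by simpa using hk) (fun z hz => ?_) ?_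
      · convert hK.1.conj_mem _ (inv_mem (h z hz)) k⁻¹ using 1
        simp only [commutatorElement_def]; group
      · have : S.t k.1.q ≠ 0 := hk
        simp; omega
    obtain ⟨b, hb⟩ := low' k.2
    have h1 : ⁅k.1, S.Xh b⁆ ∈ K.map S.G.subtype := ⟨_, h ⟨_, Xh_mem b⟩ (by simp [π]), rfl⟩
    have h2 := mul_mem ((nice hK).cj _ h1 _ (Xh_mem (S.t k.1.q + b))) (inv_mem h1)
    have e := x_x (S := S) (a := b) (b := S.t k.1.q + b) (by omega)
    refine fin hK h2 (j := b) (N := 2) two_ne_zero ?_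
    simp only [commutatorElement_def, mul_q, inv_q, Xh_q]
    have h := hb b le_rfl
    generalize S.x (S.t k.1.q + b) = p at e h ⊢
    generalize S.x b = r at e h ⊢
    right
    rcases h with h | h <;> rw [h]
    · calc _ = (p * ((p * r * p⁻¹)⁻¹ * r) * p⁻¹)⁻¹ := by group
        _ = (p * r * p⁻¹ * (p * r * p⁻¹))⁻¹ := by nth_rw 1 [e]; group
        _ = _ := by rw [e, sq]; simp
    · have e' : p⁻¹ * r * p = r⁻¹ :=
        calc _ = p⁻¹ * (p * r * p⁻¹)⁻¹ * p := by rw [e, inv_inv]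
          _ = _ := by group
      calc _ = (r⁻¹ * (p⁻¹ * r * p))⁻¹ := by group
        _ = _ := by rw [e', sq]; simp
  · have : ∀ z ∈ derivedSeries S.G (d + 3), z.1.q = 1 := fun z hz =>
      Subgroup.mem_bot.1 (S.sol ▸ map_derivedSeries_le_derivedSeries φ (d + 3) ⟨z, hz, rfl⟩)
    refine eq_bot_iff.2 (Subgroup.commutator_le.2 fun a ha b hb => ?_)
    rw [Subgroup.mem_bot, commutatorElement_eq_one_iff_mul_comm]
    refine Subtype.ext (W.ext ?_ ?_) <;> simp [this a ha, this b hb, add_comm]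

end Pool.Agent.H21.RC2.Sys
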