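import Pool.Agent.H21.RC4

namespace Pool.Agent.H21.RC5

open scoped commutatorElement

structure Blk (U : Type) [Group U] (d : ℕ) where
  σ : U →* U
  ε : U →* ℤˣ
  y : ℕ → U
  h : ℕ → U → ℤ
  σσ : ∀ u, σ (σ u) = u
  εσ : ∀ u, ε (σ u) = ε u
  σy : ∀ k, σ (y k) = (y k)⁻¹
  εy : ε (y d) = -1
  l2 : ∀ k n, (∀ l < k, ∀ v, h l (n * v) = h l v) → ∀ w v,
    h k (w * (n * v)) - h k (n * v) = h k (w * v) - h k v
  faith : ∀ u, (∀ k ≤ d, ∀ v, h k (u * v) = h k v) → u = 1
  pure : ∀ k l, l ≠ k → ∀ v, h l (y k * v) = h l v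
  unit : ∀ v, ∃ η : ℤˣ, ∀ a : ℕ, h d (y d ^ a * v) = h d v + η * a
  sol : derivedSeries U (d + 1) = ⊥
  deep : ∀ D : ℕ → Subgroup U, (∀ k, D (k + 1) ≤ D k) → (∀ k, ⁅D k, D k⁆ ≤ D (k + 1)) →
    (∀ k ≤ d, y k ^ 4 ∈ D 0) → y d ^ 2 ^ (d + 2) ∈ D d

def base : Blk (Multiplicative ℤ) 0 where
  σ := invMonoidHom
  ε := MonoidHom.mk' (fun a => Int.negOnePow a.toAdd) fun a b => by simp [Int.negOnePow_add]
  y k := if k = 0 then .ofAdd 1 else 1
  h k v := if k = 0 then v.toAdd else 0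
  σσ := by simp
  εσ := by simp
  σy := by simp
  εy := by simp
  l2 k n _ w v := by split_ifs <;> simp
  faith u h := by simpa using h 0 le_rfl 1
  pure k l h v := by split_ifs <;> simp_all
  unit v := ⟨1, by simp [add_comm]⟩
  sol := by simp [commutator_eq_bot_iff_center_eq_top, CommGroup.center_eq_top]
  deep D _ _ h := h 0 le_rfl

@[ext] structure R (U : Type) where
  f : U → ℤ
  par : ∀ v w, Even (f v - f w)
  u : U

variable {U : Type} [Group U] {d : ℕ}

instance : Mul (R U) := ⟨fun a b => ⟨fun v => a.f v + b.f (a.u⁻¹ * v), fun v w => by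
  rw [add_sub_add_comm]; exact (a.par v w).add (b.par _ _), a.u * b.u⟩⟩
instance : One (R U) := ⟨⟨0, by simp, 1⟩⟩
instance : Inv (R U) := ⟨fun a => ⟨fun v => -a.f (a.u * v), fun v w => by
  convert a.par (a.u * w) (a.u * v) using 1; ring, a.u⁻¹⟩⟩
@[simp] lemma mul_f (a b : R U) (v) : (a * b).f v = a.f v + b.f (a.u⁻¹ * v) := rfl
@[simp] lemma mul_u (a b : R U) : (a * b).u = a.u * b.u := rfl
@[simp] lemma one_f (v) : (1 : R U).f v = 0 := rfl
@[simp] lemma one_u : (1 : R U).u = 1 := rfl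
@[simp] lemma inv_f (a : R U) (v) : a⁻¹.f v = -a.f (a.u * v) := rfl
@[simp] lemma inv_u (a : R U) : a⁻¹.u = a.u⁻¹ := rfl
instance : Group (R U) := Group.ofLeftAxioms
  (fun a b c => by ext <;> simp [add_assoc, mul_assoc]) (fun a => by ext <;> simp)
  (fun a => by ext <;> simp)

def inr : U →* R U := MonoidHom.mk' (fun u => ⟨0, by simp, u⟩) fun a b => by ext <;> simp
def pu : R U →* U := MonoidHom.mk' R.u fun _ _ => rfl
@[simp] lemma inr_f (u v : U) : (inr u).f v = 0 := rfl
@[simp] lemma inr_u (u : U) : (inr u).u = u := rfl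

lemma pow_f {a : R U} (h : a.u = 1) (n : ℕ) : (a ^ n).u = 1 ∧ ∀ v, (a ^ n).f v = a.f v * n := by
  induction n with
  | zero => simp
  | succ n ih => simp [pow_succ, ih, h, mul_add]

namespace Blk

variable (B : Blk U d)

def τ (v : U) : U := B.σ v * B.y d
lemma ττ (v : U) : B.τ (B.τ v) = v := by simp [τ, B.σσ, B.σy]
def φ (v : U) : ℤˣ := Int.negOnePow (B.h d v / 2 ^ (d + 2))
lemma φ_mul (v : U) : B.φ (B.y d ^ 2 ^ (d + 2) * v) = -B.φ v := by
  obtain ⟨η, h⟩ := B.unit v
  rw [φ, h, Nat.cast_pow, Nat.cast_ofNat, Int.add_mul_ediv_right _ _ (by positivity), Int.negOnePow_add]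
  rcases Int.units_eq_one_or η with rfl | rfl <;> simp [φ]
def ψ (v : U) : ℤˣ := B.φ (if B.ε v = 1 then v else B.τ v)
lemma ψ_τ (v : U) : B.ψ (B.τ v) = B.ψ v := by
  have : B.ε (B.τ v) = -B.ε v := by simp [τ, B.εσ, B.εy]
  rcases Int.units_eq_one_or (B.ε v) with h | h <;> simp [ψ, this, h, ττ]
lemma ψ_mul (v : U) : B.ψ (B.y d ^ 2 ^ (d + 2) * v) = -B.ψ v := by
  have : B.ε (B.y d ^ 2 ^ (d + 2) * v) = B.ε v := by
    rw [map_mul, map_pow, pow_succ' 2, pow_mul]; simp
  simp only [ψ, this]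
  split_ifs
  · exact B.φ_mul v
  · rw [← neg_eq_iff_eq_neg, ← φ_mul]; simp [τ, B.σy, mul_assoc]
def X : R U := ⟨fun v => B.ψ v, fun v w => by
  rcases Int.units_eq_one_or (B.ψ v) with h | h <;> rcases Int.units_eq_one_or (B.ψ w) with h' | h' <;>
    simp [h, h'], 1⟩

def step : Blk (R U) (d + 1) where
  σ := MonoidHom.mk' (fun a => ⟨fun v => -a.f (B.τ v), fun v w => by
    convert a.par (B.τ w) (B.τ v) using 1; ring, B.σ a.u⟩) fun a b => by
      ext <;> simp [τ, B.σσ, mul_assoc, add_comm]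
  ε := MonoidHom.mk' (fun a => Int.negOnePow (a.f 1)) fun a b => by
    simp only [mul_f, Int.negOnePow_add]
    rw [(Int.negOnePow_eq_iff _ _).2 (b.par _ 1)]
  y k := if k = d + 1 then B.X else inr (B.y k)
  h k a := if k = d + 1 then a.f a.u else B.h k a.u
  σσ a := by ext <;> simp [ττ, B.σσ]
  εσ a := by simpa using (Int.negOnePow_eq_iff _ _).2 (a.par _ 1)
  σy k := by split_ifs <;> ext <;> simp [X, ψ_τ, B.σy]
  εy := by rcases Int.units_eq_one_or (B.ψ 1) with h | h <;> simp [X, h]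
  l2 k n H w v := by
    by_cases e : k ≤ d
    · simpa [show k ≠ d + 1 by omega] using B.l2 k n.u (fun l hl v => by
        simpa [show l ≠ d + 1 by omega] using H l hl (inr v)) w.u v.u
    · have : n.u = 1 := B.faith _ fun l hl v => by
        simpa [show l ≠ d + 1 by omega] using H l (by omega) (inr v)
      split_ifs <;> simp [this]
  faith a H := by
    have : a.u = 1 := B.faith _ fun l hl v => by
      simpa [show l ≠ d + 1 by omega] using H l (by omega) (inr v)
    ext v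
    · simpa [this] using H _ le_rfl (inr v)
    · exact this
  pure k l h v := by
    split_ifs with h1 h2 h2
    · omega
    · simp
    · simp [X]
    · simpa using B.pure k l h v.u
  unit v := ⟨B.ψ v.u, fun a => by simp [pow_f (a := B.X) rfl a, add_comm]; exact add_comm _ _⟩
  sol := by
    have : ∀ z ∈ derivedSeries (R U) (d + 1), z.u = 1 := fun z hz =>
      Subgroup.mem_bot.1 (B.sol ▸ map_derivedSeries_le_derivedSeries pu (d + 1) ⟨z, hz, rfl⟩)
    refine eq_bot_iff.2 (Subgroup.commutator_le.2 fun a ha b hb => ?_)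
    rw [Subgroup.mem_bot, commutatorElement_eq_one_iff_mul_comm]
    ext <;> simp [this a ha, this b hb, add_comm]
  deep D d1 d2 H := by
    have h1 := B.deep (fun k => (D k).comap inr) (fun k => Subgroup.comap_mono (d1 k))
      (fun k => Subgroup.commutator_le.2 fun a ha b hb => by
        simpa using d2 k (Subgroup.commutator_mem_commutator ha hb)) fun k hk => by
          simpa [show k ≠ d + 1 by omega] using H k (by omega)
    have e : inr (B.y d ^ 2 ^ (d + 2)) * B.X⁻¹ * (inr (B.y d ^ 2 ^ (d + 2)))⁻¹ = B.X := by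
      ext v
      · have := B.ψ_mul ((B.y d ^ 2 ^ (d + 2))⁻¹ * v)
        rw [mul_inv_cancel_left] at this
        simp [X, this, -map_pow]
      · simp [X, -map_pow]
    have : ∀ a ≤ d + 1, B.X ^ 2 ^ (a + 2) ∈ D a := fun a ha => by
      induction a with
      | zero => simpa using H _ le_rfl
      | succ a ih =>
        have := d2 a (Subgroup.commutator_mem_commutator (ih (by omega))
          (antitone_nat_of_succ_le d1 (show a ≤ d by omega) h1))
        rwa [commutatorElement_def, mul_assoc, mul_assoc, ← mul_assoc (inr _), ← inv_pow, ← conj_pow, e,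
          ← pow_add, ← two_mul, ← pow_succ'] at this
    simpa using this _ le_rfl

end Blk

lemma ex (d : ℕ) : ∃ (U : Type) (_ : Group U), Nonempty (Blk U d) := by
  induction d with
  | zero => exact ⟨_, _, ⟨base⟩⟩
  | succ d ih => obtain ⟨U, _, ⟨B⟩⟩ := ih; exact ⟨_, _, ⟨B.step⟩⟩

end Pool.Agent.H21.RC5
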