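import Pool.Agent.H21.RC5

namespace Pool.Agent.H21.RC5.Blk

open Pool.Agent.H21.RC2
open scoped commutatorElement

variable {U : Type} [Group U] {d : ℕ} (B : Blk U d)

def sg (e : ℤˣ) : U →* U := if e = 1 then .id U else B.σ

@[simp] lemma sg_one (u : U) : B.sg 1 u = u := by simp [sg]
@[simp] lemma sg_neg (u : U) : B.sg (-1) u = B.σ u := by simp [sg]
@[simp] lemma sg_sg (e e' : ℤˣ) (u : U) : B.sg e (B.sg e' u) = B.sg (e * e') u := by
  rcases Int.units_eq_one_or e with rfl | rfl <;> rcases Int.units_eq_one_or e' with rfl | rfl <;>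
    simp [B.σσ]
@[simp] lemma ε_sg (e : ℤˣ) (u : U) : B.ε (B.sg e u) = B.ε u := by
  rcases Int.units_eq_one_or e with rfl | rfl <;> simp [B.εσ]
lemma sg_y (e : ℤˣ) (k : ℕ) : B.sg e (B.y k) = B.y k ∨ B.sg e (B.y k) = (B.y k)⁻¹ := by
  rcases Int.units_eq_one_or e with rfl | rfl <;> simp [B.σy]

@[ext] structure T where
  f : ℤ → U
  e : ℤ → ℤˣ
  a : ℤ
  rel : ∀ j, e j = e (j + 1) * B.ε (f (j + 1))
  bd : ∃ b, ∀ j, b < j → f j = 1 ∧ e j = 1

variable {B}

instance : Mul B.T := ⟨fun p q => ⟨fun j => p.f j * B.sg (p.e j) (q.f (j - p.a)),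
  fun j => p.e j * q.e (j - p.a), p.a + q.a, fun j => by
    rw [p.rel j, q.rel (j - p.a), sub_add_eq_add_sub]; simp [mul_mul_mul_comm], by
    obtain ⟨b, h⟩ := p.bd
    obtain ⟨c, k⟩ := q.bd
    exact ⟨max b (c + p.a), fun j hj => by simp [h j (by omega), k (j - p.a) (by omega)]⟩⟩⟩
instance : One B.T := ⟨⟨1, 1, 0, by simp, by simp⟩⟩
instance : Inv B.T := ⟨fun p => ⟨fun j => B.sg (p.e (j + p.a)) (p.f (j + p.a))⁻¹,
  fun j => p.e (j + p.a), -p.a, fun j => by
    rw [p.rel, add_right_comm]; simp, by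
    obtain ⟨b, h⟩ := p.bd
    exact ⟨b - p.a, fun j hj => by simp [h (j + p.a) (by omega)]⟩⟩⟩
@[simp] lemma tmul_f (p q : B.T) (j) : (p * q).f j = p.f j * B.sg (p.e j) (q.f (j - p.a)) := rfl
@[simp] lemma tmul_e (p q : B.T) (j) : (p * q).e j = p.e j * q.e (j - p.a) := rfl
@[simp] lemma tmul_a (p q : B.T) : (p * q).a = p.a + q.a := rfl
@[simp] lemma tone_f (j) : (1 : B.T).f j = 1 := rfl
@[simp] lemma tone_e (j) : (1 : B.T).e j = 1 := rfl
@[simp] lemma tone_a : (1 : B.T).a = 0 := rfl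
@[simp] lemma tinv_f (p : B.T) (j) : p⁻¹.f j = B.sg (p.e (j + p.a)) (p.f (j + p.a))⁻¹ := rfl
@[simp] lemma tinv_e (p : B.T) (j) : p⁻¹.e j = p.e (j + p.a) := rfl
@[simp] lemma tinv_a (p : B.T) : p⁻¹.a = -p.a := rfl
instance : Group B.T := Group.ofLeftAxioms
  (fun a b c => by ext1 <;> (try ext1) <;> simp [add_assoc, mul_assoc, sub_sub])
  (fun a => by ext1 <;> (try ext1) <;> simp) (fun a => by ext1 <;> (try ext1) <;> simp)

variable (B) in
def gz : Multiplicative ℤ →* B.T := MonoidHom.mk' (fun k => ⟨1, 1, k.toAdd, by simp, by simp⟩)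
  fun a b => by ext1 <;> (try ext1) <;> simp

variable (B) in
def g : B.T := B.gz (.ofAdd 1)
lemma g_pow (k : ℤ) : B.g ^ k = ⟨1, 1, k, by simp, by simp⟩ := by
  rw [g, ← map_zpow, ← ofAdd_zsmul]; simp [gz]

variable (B) in
def bl (k : ℤ) : U →* B.T := MonoidHom.mk' (fun u => ⟨fun j => if j = k then u else 1,
  fun j => if j < k then B.ε u else 1, 0, fun j => by split_ifs <;> first | omega | simp,
  k, fun j h => by simp [h.ne', h.le]⟩) fun a b => by
    ext1 <;> try ext1 j
    · simp; split_ifs <;> simp_all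
    · simp; split_ifs <;> simp
    · simp
@[simp] lemma bl_f (k u j) : (B.bl k u).f j = if j = k then u else 1 := rfl
@[simp] lemma bl_e (k u j) : (B.bl k u).e j = if j < k then B.ε u else 1 := rfl
@[simp] lemma bl_a (k u) : (B.bl k u).a = 0 := rfl

lemma g_bl (k : ℤ) (u : U) : B.g ^ k * B.bl 0 u * (B.g ^ k)⁻¹ = B.bl k u := by
  rw [g_pow]; ext1 <;> try ext1
  all_goals simp [sub_eq_zero]

lemma bl_bl {k l : ℤ} (h : k < l) (u w : U) :
    B.bl l w * B.bl k u * (B.bl l w)⁻¹ = B.bl k (B.sg (B.ε w) u) := by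
  rw [mul_inv_eq_iff_eq_mul]; ext1 <;> try ext1 j
  · simp; split_ifs <;> first | omega | simp
  · simp [mul_comm]
  · simp

lemma e_one {q : B.T} {a : ℤ} (h : ∀ j, a < j → q.f j = 1) (j : ℤ) (hj : a ≤ j) : q.e j = 1 := by
  have : ∀ n : ℕ, q.e j = q.e (j + n) := fun n => by
    induction n with
    | zero => simp
    | succ n ih => rw [ih, q.rel, h _ (by omega)]; simp [add_assoc]
  obtain ⟨b, hb⟩ := q.bd
  rw [this (b - j + 1).toNat, (hb _ (by omega)).2]

def π (v : B.T) : U := B.sg (v.e v.a) (v.f v.a)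
lemma π_mul (w v : B.T) :
    π (w * v) = B.sg (w.e (w.a + v.a) * v.e v.a) (w.f (w.a + v.a)) * π v := by
  simp [π, mul_comm (w.e _), mul_assoc]
lemma π_bl (v : B.T) (u : U) : π (v * B.bl 0 u) = π v * u := by simp [π]

variable (B) in
structure Pt where
  v : B.T
  k : ℕ
instance : MulAction B.T B.Pt where
  smul w p := ⟨w * p.v, p.k⟩
  one_smul p := congrArg (Pt.mk · p.k) (one_mul _)
  mul_smul a b p := congrArg (Pt.mk · p.k) (mul_assoc _ _ _)
@[simp] lemma smul_v (w : B.T) (p : B.Pt) : (w • p).v = w * p.v := rfl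
@[simp] lemma smul_k (w : B.T) (p : B.Pt) : (w • p).k = p.k := rfl

lemma mv {q : B.T} (hq : q.a = 0) (v : B.T) (l : ℕ)
    (H : ∀ z : B.T, z.a = v.a → B.h l (π (q * z)) = B.h l (π z)) (u : U) :
    B.h l (B.sg (q.e v.a * v.e v.a) (q.f v.a) * u) = B.h l u := by
  have := H (v * B.bl 0 ((π v)⁻¹ * u)) (by simp)
  rw [π_mul, π_bl] at this
  simpa [hq] using this

lemma f_one {q : B.T} (hq : q.a = 0) (j : ℤ)
    (H : ∀ l (z : B.T), z.a = j → B.h l (π (q * z)) = B.h l (π z)) : q.f j = 1 := by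
  have e : (B.g ^ j).a = j := by rw [g_pow]
  have := congrArg (B.sg (q.e j * (B.g ^ j).e j))
    (B.faith _ fun l _ u => mv hq (B.g ^ j) l (fun z hz => H l z (hz.trans e)) u)
  simpa [e] using this

variable (B) in
def sys : Sys B.T B.Pt (d) where
  t := T.a
  blk p := p.v.a
  lev := Pt.k
  h p := B.h p.k (π p.v)
  g := B.g
  y j := B.bl 0 (B.y j)
  s := d
  t_mul _ _ := rfl
  blk_smul _ _ := rfl
  lev_smul _ _ := rfl
  l2 q x hq H w := by
    have h1 : ∀ j, x.v.a < j → q.f j = 1 := fun j hj =>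
      f_one hq j fun l z hz => H ⟨z, l⟩ (.inl (hz ▸ hj))
    have h2 := e_one h1 _ le_rfl
    have := B.l2 x.k _ (fun l hl => mv hq x.v l fun z hz => H ⟨z, l⟩ (.inr ⟨hz.symm, hl⟩))
      (B.sg (w.e (w.a + x.v.a) * x.v.e x.v.a) (w.f (w.a + x.v.a))) (π x.v)
    simpa [π_mul w, π_mul q, hq, h2] using this
  bdd q hq := by
    obtain ⟨b, h⟩ := q.bd
    exact ⟨b, fun x hx => by simp [π_mul q, hq, h _ hx]⟩
  faith q hq h := by
    by_contra! H
    have h1 : ∀ j, q.f j = 1 := fun j => f_one hq j fun l z _ => H ⟨z, l⟩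
    exact h (T.ext (funext h1) (funext fun j => e_one (fun j _ => h1 j) j le_rfl) hq)
  t_g := rfl
  h_g x := by simp only [smul_v, smul_k, π_mul B.g]; simp [g, gz]
  t_y _ := rfl
  pure j x hx := by
    simp only [smul_v, smul_k, π_mul (B.bl 0 _), bl_f, bl_a, zero_add]
    split_ifs with h
    · have : x.k ≠ j := fun e => hx ⟨h, e⟩
      rcases B.sg_y _ j with e | e <;> rw [e]
      · exact B.pure _ _ this _
      · rw [← B.pure _ _ this, mul_inv_cancel_left]
    · simp
  inv k j hk := by rw [g_bl, bl_bl (by omega), B.εy, sg_neg, B.σy, map_inv]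
  low k j hk := by
    rw [g_bl, bl_bl hk, ← map_inv]
    exact (B.sg_y _ d).imp (congrArg _) (congrArg _)
  ne h := by simpa [B.εy] using congrArg (·.e (-1)) h
  sol := by
    have h1 : ∀ q ∈ derivedSeries B.T 1, q.a = 0 := fun q hq => by
      have := map_derivedSeries_le_derivedSeries (MonoidHom.mk' (fun q : B.T => Multiplicative.ofAdd q.a)
        fun _ _ => rfl) 1 ⟨q, hq, rfl⟩
      simpa [(commutator_eq_bot_iff_center_eq_top _).2 CommGroup.center_eq_top] using this
    let K : Subgroup U → Subgroup B.T := fun L =>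
      { carrier := {q | q.a = 0 ∧ (∀ j, q.e j = 1) ∧ ∀ j, q.f j ∈ L}
        one_mem' := by simp
        mul_mem' := fun {p q} hp hq => by simp [hp.1, hq.1, hp.2.1, hq.2.1, L.mul_mem, hp.2.2, hq.2.2]
        inv_mem' := fun {p} hp => by simp [hp.1, hp.2.1, hp.2.2] }
    have h2 : ∀ k, derivedSeries B.T (k + 2) ≤ K (derivedSeries U k) := fun k => by
      induction k with
      | zero =>
        refine Subgroup.commutator_le.2 fun a ha b hb => ⟨?_, fun j => ?_, fun _ => trivial⟩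
        · simp [commutatorElement_def]
        · simp [commutatorElement_def, h1 a ha, h1 b hb, mul_right_comm _ _ (a.e j)]
      | succ k ih =>
        refine Subgroup.commutator_le.2 fun a ha b hb => ?_
        obtain ⟨a1, a2, a3⟩ := ih ha
        obtain ⟨b1, b2, b3⟩ := ih hb
        refine ⟨by simp [commutatorElement_def], fun j => by simp [commutatorElement_def, a2, b2], fun j => ?_⟩
        simpa [commutatorElement_def, a1, a2, b1, b2] using
          Subgroup.commutator_mem_commutator (a3 j) (b3 j)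
    refine eq_bot_iff.2 fun q hq => ?_
    obtain ⟨a1, a2, a3⟩ := h2 (d + 1) hq
    rw [B.sol] at a3
    exact T.ext (funext a3) (funext a2) a1
  deep D d1 d2 H := ⟨2 ^ (d + 2), by positivity, by
    simpa using B.deep (fun k => (D k).comap (B.bl 0)) (fun k => Subgroup.comap_mono (d1 k))
      (fun k => Subgroup.commutator_le.2 fun a ha b hb => by
        simpa using d2 k (Subgroup.commutator_mem_commutator ha hb)) fun k _ => by simpa using H k⟩

end Pool.Agent.H21.RC5.Blk
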