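import Mathlib

namespace Pool.Agent.H21.RCDefs

/-- `r` is a total order on the group invariant under multiplication on both sides. -/
def BiOrd {G : Type} [Group G] (r : G → G → Prop) : Prop :=
  IsLinearOrder G r ∧ ∀ a b c, r a b → r (c * a) (c * b) ∧ r (a * c) (b * c)

/-- `H` is convex for at least one two-sided invariant total order. -/
def RelConvex {G : Type} [Group G] (H : Subgroup G) : Prop :=
  ∃ r : G → G → Prop, BiOrd r ∧ ∀ a ∈ H, ∀ b ∈ H, ∀ g, r a g → r g b → g ∈ H

end Pool.Agent.H21.RCDefs
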