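import Pool.Agent.H21.RCutDefs

namespace Pool.Agent.H21.RCut

open Pool.Agent.H21.RCutDefs Finset

lemma mem_vs {F : Finset (ℕ × ℕ)} {v : ℕ} : v ∈ vs F ↔ ∃ e ∈ F, e.1 = v ∨ e.2 = v := by
  simp only [vs, mem_union, mem_image]
  constructor
  · rintro (⟨e, h, r⟩ | ⟨e, h, r⟩) <;> exact ⟨e, h, by simp [r]⟩
  · rintro ⟨e, h, r | r⟩
    · exact .inl ⟨e, h, r⟩
    · exact .inr ⟨e, h, r⟩

lemma v1 {F : Finset (ℕ × ℕ)} {e : ℕ × ℕ} (h : e ∈ F) : e.1 ∈ vs F := mem_vs.2 ⟨e, h, .inl rfl⟩
lemma v2 {F : Finset (ℕ × ℕ)} {e : ℕ × ℕ} (h : e ∈ F) : e.2 ∈ vs F := mem_vs.2 ⟨e, h, .inr rfl⟩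

lemma vs_mono {F G : Finset (ℕ × ℕ)} (h : F ⊆ G) : vs F ⊆ vs G := fun _ hv => by
  obtain ⟨e, a, b⟩ := mem_vs.1 hv
  exact mem_vs.2 ⟨e, h a, b⟩

lemma Ind.le {F F' : Finset (ℕ × ℕ)} (h : Ind F) (s : F' ⊆ F) {X : Finset ℕ} (hX : 2 ≤ X.card)
    (m : ∀ e ∈ F', e.1 ∈ X ∧ e.2 ∈ X) : F'.card + 3 ≤ 2 * X.card := by
  rcases F'.eq_empty_or_nonempty with rfl | n
  · simp; omega
  · have := h F' s n
    have : (vs F').card ≤ X.card := card_le_card fun v hv => by
      obtain ⟨e, a, rfl | rfl⟩ := mem_vs.1 hv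
      exacts [(m e a).1, (m e a).2]
    omega

lemma degen {F : Finset (ℕ × ℕ)} (hs : ∀ e ∈ F, e.1 ≠ e.2 ∧ e.swap ∉ F)
    (h : ∀ F' ⊆ F, F'.Nonempty → ∃ v ∈ vs F', ∃ a b, ∀ e ∈ F', (e.1 = v ∨ e.2 = v) → e = a ∨ e = b) :
    Ind F := by
  intro F'
  induction F' using Finset.strongInduction with
  | H F' ih =>
  intro s n
  obtain ⟨v, hv, a, b, hab⟩ := h F' s n
  have c1 := card_filter_add_card_filter_not (s := F') (fun e => e.1 = v ∨ e.2 = v)
  have c2 : (F'.filter fun e => e.1 = v ∨ e.2 = v).card ≤ 2 :=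
    (card_le_card (t := {a, b}) fun e he => by
      simpa using hab e (mem_filter.1 he).1 (mem_filter.1 he).2).trans card_le_two
  obtain ⟨e0, h0, h1⟩ := mem_vs.1 hv
  rcases (F'.filter fun e => ¬ (e.1 = v ∨ e.2 = v)).eq_empty_or_nonempty with em | ne
  · rw [em, card_empty] at c1
    have al : ∀ e ∈ F', e.1 = v ∨ e.2 = v := fun e he => by
      by_contra c
      exact absurd (mem_filter.2 ⟨he, c⟩) (em ▸ notMem_empty e)
    have : F'.card ≤ ((vs F').erase v).card := by
      refine card_le_card_of_injOn (fun e => if e.1 = v then e.2 else e.1) (fun e he => ?_) ?_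
      · have := (hs e (s he)).1
        have := al e he
        have := v1 he
        have := v2 he
        simp only [coe_erase, Set.mem_diff, mem_coe, Set.mem_singleton_iff]
        split_ifs <;> grind
      · rintro ⟨p, q⟩ he ⟨p', q'⟩ he' r
        have h1 := hs _ (s he)
        have h2 := al _ he
        have h3 := al _ he'
        have h4 := s he'
        simp only [Prod.swap_prod_mk] at *
        split_ifs at r <;> grind
    rw [card_erase_of_mem hv] at this
    have := card_pos.2 n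
    omega
  · have := ih _ (filter_ssubset.2 ⟨e0, h0, not_not.2 h1⟩) ((filter_subset _ _).trans s) ne
    have : (vs (F'.filter fun e => ¬ (e.1 = v ∨ e.2 = v))).card ≤ ((vs F').erase v).card :=
      card_le_card fun u hu => by
        obtain ⟨e, a, b⟩ := mem_vs.1 hu
        rw [mem_filter] at a
        exact mem_erase.2 ⟨by grind, mem_vs.2 ⟨e, a.1, b⟩⟩
    rw [card_erase_of_mem hv] at this
    have := card_pos.2 ⟨v, hv⟩
    omega

def w (e : ℕ × ℕ) (i : ℕ) : ℕ := Nat.pair (i + 1) (Nat.pair e.1 e.2)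
def o (a b : ℕ) : ℕ := Nat.pair 0 (Nat.pair a b)

@[simp, grind =] lemma w_inj {e f : ℕ × ℕ} {i j : ℕ} : w e i = w f j ↔ e = f ∧ i = j := by
  simp [w, Prod.ext_iff, and_comm]
@[simp, grind =] lemma o_inj {a b c d : ℕ} : o a b = o c d ↔ a = c ∧ b = d := by simp [o]
@[simp, grind .] lemma w_o {e : ℕ × ℕ} {i a b : ℕ} : w e i ≠ o a b := by simp [w, o]
@[simp] lemma o_w {e : ℕ × ℕ} {i a b : ℕ} : o a b ≠ w e i := w_o.symm

/-- the blown-up graph -/
structure BU (O : Finset ℕ) (H L : Finset (ℕ × ℕ)) (s : ℕ) (V : Finset ℕ) (G : Finset (ℕ × ℕ)) :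
    Prop where
  old : ∀ e i, w e i ∉ O
  hH : ∀ e ∈ H, e.1 ∈ O ∧ e.2 ∈ O ∧ e.1 ≠ e.2
  hL : ∀ e ∈ L, e.1 ∈ O ∧ e.2 ∈ O ∧ e.1 ≠ e.2 ∧ e.swap ∉ L
  hV : ∀ v, v ∈ V ↔ v ∈ O ∨ ∃ e ∈ H, ∃ i < s, v = w e i
  hG : ∀ a, a ∈ G ↔ a ∈ L ∨ ∃ e ∈ H, ∃ i < s,
    a = (w e i, e.1) ∨ a = (w e i, e.2) ∨ ∃ j < i, a = (w e j, w e i)

variable {O V : Finset ℕ} {H L G : Finset (ℕ × ℕ)} {s : ℕ}

lemma cardW (K : Finset (ℕ × ℕ)) (s : ℕ) :
    ((K ×ˢ range s).image fun q => w q.1 q.2).card = K.card * s := by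
  rw [card_image_of_injective, card_product, card_range]
  rintro ⟨e, i⟩ ⟨f, j⟩; simp

lemma BU.cardV (b : BU O H L s V G) : V.card = O.card + H.card * s := by
  rw [← cardW, ← card_union_of_disjoint]
  · congr 1; ext v; simp only [b.hV, mem_union, mem_image, mem_product, mem_range, Prod.exists]; grind
  · refine disjoint_left.2 fun v h h' => ?_
    obtain ⟨q, -, rfl⟩ := mem_image.1 h'
    exact b.old _ _ h

lemma BU.simple (b : BU O H L s V G) : ∀ e ∈ G, e.1 ∈ V ∧ e.2 ∈ V ∧ e.1 ≠ e.2 ∧ e.swap ∉ G := by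
  rintro ⟨p, q⟩ he
  have h1 := b.old
  have h2 := b.hH
  have h3 := b.hL
  simp only [b.hV, b.hG, Prod.swap_prod_mk, Prod.mk.injEq] at he ⊢
  rcases he with he | ⟨e, he, i, hi, ⟨rfl, rfl⟩ | ⟨rfl, rfl⟩ | ⟨j, hj, rfl, rfl⟩⟩
  · have := h3 _ he
    simp only [Prod.swap_prod_mk] at this
    grind
  all_goals
    have := h2 _ he
    refine ⟨by grind, by grind, by grind, ?_⟩
    rintro (c | ⟨f, hf, l, hl, c⟩)
    · have := h3 _ c; grind
    · have := h2 _ hf; grind

theorem BU.flex (b : BU O H L s V G) {D : Finset (ℕ × ℕ)} {Y : Finset ℕ} (hY : Y ⊆ O)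
    (h2 : Y.card + 2 ≤ O.card) (hD : ∀ e ∈ L, e.1 ∈ Y ∨ e.2 ∈ Y → e ∈ D)
    (hh : (H.filter fun e => e.1 ∈ Y ∨ e.2 ∈ Y).card < 2 * Y.card) : ¬ Rigid V (G \ D) := by
  rintro ⟨I, hI, ind, cI⟩
  set K := H.filter fun e => e.1 ∈ Y ∨ e.2 ∈ Y with hK
  set K' := H.filter fun e => ¬ (e.1 ∈ Y ∨ e.2 ∈ Y) with hK'
  have cK : K.card + K'.card = H.card := card_filter_add_card_filter_not _
  let Z := (O \ Y) ∪ (K' ×ˢ range s).image fun q => w q.1 q.2
  have cZ : Z.card ≤ (O \ Y).card + K'.card * s := (card_union_le _ _).trans (by rw [cardW])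
  have cZ' : (O \ Y).card ≤ Z.card := card_le_card subset_union_left
  have cO := card_sdiff_add_card_eq_card hY
  let T := fun e : ℕ × ℕ => insert e.1 (insert e.2 ((range s).image (w e)))
  have cT : ∀ e ∈ K, 2 ≤ (T e).card ∧ (T e).card ≤ s + 2 := fun e he => ⟨
    (card_pair (b.hH e (mem_filter.1 he).1).2.2).ge.trans (card_le_card (by simp [T, subset_iff])),
    (card_insert_le _ _).trans (Nat.succ_le_succ ((card_insert_le _ _).trans
      (Nat.succ_le_succ (card_image_le.trans (card_range s).le))))⟩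
  have sub : I ⊆ (I.filter fun a => a.1 ∈ Z ∧ a.2 ∈ Z) ∪
      K.biUnion fun e => I.filter fun a => a.1 ∈ T e ∧ a.2 ∈ T e := fun a ha => by
    obtain ⟨g, d⟩ := mem_sdiff.1 (hI ha)
    simp only [mem_union, mem_filter, mem_biUnion, ha, true_and]
    rcases (b.hG a).1 g with l | ⟨e, he, i, hi, r⟩
    · have := b.hL a l
      have := hD a l
      left; simp only [Z, mem_union, mem_sdiff]; grind
    · have := b.hH e he
      have t : ∀ j < s, w e j ∈ T e := fun j hj => by simp [T, hj]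
      have t1 : e.1 ∈ T e := by simp [T]
      have t2 : e.2 ∈ T e := by simp [T]
      by_cases c : e.1 ∈ Y ∨ e.2 ∈ Y
      · right; refine ⟨e, mem_filter.2 ⟨he, c⟩, ?_⟩; grind
      · have t : ∀ j < s, w e j ∈ Z := fun j hj => mem_union_right _
          (mem_image.2 ⟨(e, j), by simp only [mem_product, mem_range, hK', mem_filter]; grind, rfl⟩)
        have t1 : e.1 ∈ Z := mem_union_left _ (by grind)
        have t2 : e.2 ∈ Z := mem_union_left _ (by grind)
        left; grind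
  have c1 := Ind.le ind (filter_subset (fun a => a.1 ∈ Z ∧ a.2 ∈ Z) I) (X := Z) (by omega)
    fun e he => (mem_filter.1 he).2
  have c2 : (K.biUnion fun e => I.filter fun a => a.1 ∈ T e ∧ a.2 ∈ T e).card ≤ K.card * (2 * s + 1) :=
    card_biUnion_le_card_mul _ _ _ fun e he => by
      have := Ind.le ind (filter_subset (fun a => a.1 ∈ T e ∧ a.2 ∈ T e) I) (cT e he).1
        fun e he => (mem_filter.1 he).2
      have := (cT e he).2
      omega
  have c3 := (card_le_card sub).trans (card_union_le _ _)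
  rw [b.cardV, ← cK] at cI
  nlinarith

def gs (x y : ℕ × ℕ → ℕ) (c : ℕ × ℕ → Prop) [DecidablePred c] (q : ((ℕ × ℕ) × ℕ) × Bool) : ℕ × ℕ :=
  if q.1.2 = x q.1.1 then
    (if q.2 then (w q.1.1 (x q.1.1), w q.1.1 (y q.1.1))
     else if c q.1.1 then (w q.1.1 q.1.2, q.1.1.1) else (w q.1.1 q.1.2, q.1.1.2))
  else if q.1.2 = y q.1.1 then (w q.1.1 q.1.2, if q.2 then q.1.1.1 else q.1.1.2)
  else if q.2 then (w q.1.1 (min q.1.2 (x q.1.1)), w q.1.1 (max q.1.2 (x q.1.1)))
  else (w q.1.1 (min q.1.2 (y q.1.1)), w q.1.1 (max q.1.2 (y q.1.1)))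

theorem BU.rigid (b : BU O H L s V G) {D I : Finset (ℕ × ℕ)} (hs : 2 * D.card + 2 ≤ s)
    (hI : ∀ e ∈ I, e ∈ H ∨ (e ∈ L ∧ e ∉ D)) (ind : Ind I) (cI : I.card + 3 = 2 * O.card) :
    Rigid V (G \ D) := by
  have ex : ∀ e, ∃ x y, x < y ∧ y < s ∧ w e x ∉ vs D ∧ w e y ∉ vs D := fun e => by
    have c1 := card_filter_add_card_filter_not (s := range s) (fun i => w e i ∈ vs D)
    have c2 : ((range s).filter fun i => w e i ∈ vs D).card ≤ (vs D).card :=
      card_le_card_of_injOn (w e) (fun i hi => (mem_filter.1 hi).2) fun i _ j _ r => (w_inj.1 r).2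
    have c3 : (vs D).card ≤ D.card + D.card :=
      (card_union_le _ _).trans (add_le_add card_image_le card_image_le)
    rw [card_range] at c1
    obtain ⟨x, hx, y, hy, ne⟩ := (one_lt_card (s := (range s).filter fun i => ¬ w e i ∈ vs D)).1 (by omega)
    simp only [mem_filter, mem_range] at hx hy
    rcases lt_or_gt_of_ne ne with l | l
    exacts [⟨x, y, l, hy.1, hx.2, hy.2⟩, ⟨y, x, l, hx.1, hy.2, hx.2⟩]
  choose x y lt ys xD yD using ex
  have h1 := b.old
  have h2 := b.hH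
  have IO : ∀ e ∈ I, e.1 ∈ O ∧ e.2 ∈ O ∧ e.1 ≠ e.2 := fun e he => by
    have := hI e he; have := b.hL e; grind
  let r := fun e : ℕ × ℕ => if e ∈ H then (w e (x e), e.2) else e
  let S := (H ×ˢ range s) ×ˢ (univ : Finset Bool)
  let g := gs x y fun _ => True
  have gc : ∀ q ∈ S, g q = (w q.1.1 (x q.1.1), w q.1.1 (y q.1.1)) ∨ g q = (w q.1.1 (x q.1.1), q.1.1.1) ∨
      g q = (w q.1.1 (y q.1.1), q.1.1.1) ∨ g q = (w q.1.1 (y q.1.1), q.1.1.2) ∨
      (q.1.2 ≠ x q.1.1 ∧ q.1.2 ≠ y q.1.1 ∧ ∃ z, (z = x q.1.1 ∨ z = y q.1.1) ∧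
        g q = (w q.1.1 (min q.1.2 z), w q.1.1 (max q.1.2 z))) := by
    intro q _; simp only [g, gs]; split_ifs <;> grind
  have sub : I.image r ∪ S.image g ⊆ G \ D := by
    intro a ha
    have d1 := @v1 D a
    have d2 := @v2 D a
    rw [mem_sdiff, b.hG]
    rcases mem_union.1 ha with ha | ha <;> obtain ⟨q, hq, rfl⟩ := mem_image.1 ha
    · have := hI q hq
      have := lt q; have := ys q; have := xD q
      simp only [r] at *
      split_ifs at * with c
      · exact ⟨.inr ⟨q, c, x q, by omega, by simp⟩, by grind⟩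
      · grind
    · have := gc q hq
      obtain ⟨⟨e, i⟩, t⟩ := q
      simp only [S, mem_product, mem_range] at hq this
      have := lt e; have := ys e; have := xD e; have := yD e
      refine ⟨.inr ⟨e, hq.1.1, ?_⟩, fun hd => ?_⟩
      swap
      · have d1 := d1 hd
        have d2 := d2 hd
        rcases gc ((e, i), t) (by simpa [S] using hq) with h | h | h | h | ⟨n1, n2, z, hz, h⟩ <;>
          simp only [h] at d1 d2 <;> try contradiction
        rcases le_total i z with l | l <;> simp only [l, min_eq_left, min_eq_right, max_eq_left,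
          max_eq_right] at d1 d2 <;> rcases hz with rfl | rfl <;> contradiction
      rcases gc ((e, i), t) (by simpa [S] using hq) with h | h | h | h | ⟨n1, n2, z, hz, h⟩ <;> simp only [h]
      · exact ⟨y e, by omega, .inr (.inr ⟨x e, by omega, rfl⟩)⟩
      · exact ⟨x e, by omega, .inl rfl⟩
      · exact ⟨y e, by omega, .inl rfl⟩
      · exact ⟨y e, by omega, .inr (.inl rfl)⟩
      · exact ⟨max i z, by simp only at *; omega, .inr (.inr ⟨min i z, by simp only at *; omega, rfl⟩)⟩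
  refine ⟨_, sub, fun F' hF' ne => ?_, ?_⟩
  · let A := I.filter fun e => e.1 ∈ vs F' ∧ e.2 ∈ vs F'
    let N := (H ×ˢ range s).filter fun q => w q.1 q.2 ∈ vs F'
    have cN : N.card ≤ (vs F' \ O).card := card_le_card_of_injOn (fun q => w q.1 q.2)
      (fun q hq => by simpa [h1] using (mem_filter.1 hq).2) (by rintro ⟨e, i⟩ _ ⟨f, j⟩ _; simp)
    have cX := card_sdiff_add_card_inter (vs F') O
    have cF : F'.card ≤ A.card + N.card * 2 := by
      refine (card_le_card (t := A.image r ∪ (N ×ˢ univ).image (gs x y fun e => e.1 ∈ vs F'))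
        fun a ha => ?_).trans ((card_union_le _ _).trans (add_le_add card_image_le
          (card_image_le.trans (by simp))))
      have d1 := v1 ha
      have d2 := v2 ha
      simp only [mem_union, mem_image, A, N, mem_filter, mem_product, mem_range, mem_univ, and_true]
      rcases mem_union.1 (hF' ha) with h | h <;> obtain ⟨q, hq, rfl⟩ := mem_image.1 h
      · by_cases c : q.1 ∈ vs F'
        · exact .inl ⟨q, by grind, rfl⟩
        · have := lt q; have := ys q
          exact .inr ⟨((q, x q), false), by grind, by simp only [gs]; grind⟩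
      · simp only [S, mem_product, mem_range] at hq
        refine .inr ⟨q, ?_, ?_⟩ <;> simp only [g, gs] at * <;> grind
    by_cases c : 2 ≤ (vs F' ∩ O).card
    · have := Ind.le ind (filter_subset (fun e => e.1 ∈ vs F' ∧ e.2 ∈ vs F') I) c fun e he => by
        have := IO e (mem_filter.1 he).1
        have := (mem_filter.1 he).2
        grind
      simp only [A] at cF
      omega
    · have one : ∀ u ∈ vs F', u ∈ O → ∀ v ∈ vs F', v ∈ O → u = v := fun u a a' v c' c'' =>
        card_le_one.1 (by omega : (vs F' ∩ O).card ≤ 1) u (mem_inter.2 ⟨a, a'⟩) v (mem_inter.2 ⟨c', c''⟩)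
      have G' : ∀ e ∈ F', e ∈ G := fun e he => (mem_sdiff.1 (sub (hF' he))).1
      refine degen (F := F') (fun e he => ?_) (fun F hF ⟨a, ha⟩ => ?_) F' Subset.rfl ne
      · have := b.simple e (G' e he)
        have := G' e.swap
        grind
      have key : ∀ a ∈ F, ∃ e ∈ H, a = (w e (x e), w e (y e)) ∨
          (∃ z u, (z = x e ∨ z = y e) ∧ u ∈ O ∧ u ∈ vs F' ∧ a = (w e z, u)) ∨
          ∃ i z, i ≠ x e ∧ i ≠ y e ∧ (z = x e ∨ z = y e) ∧ a = (w e (min i z), w e (max i z)) := by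
        intro a ha
        have d1 := v1 (hF ha)
        have d2 := v2 (hF ha)
        rcases mem_union.1 (hF' (hF ha)) with h | h <;> obtain ⟨q, hq, rfl⟩ := mem_image.1 h
        · have := IO q hq
          simp only [r] at *
          split_ifs at * with c
          · exact ⟨q, c, .inr (.inl ⟨_, _, .inl rfl, this.2.1, d2, rfl⟩)⟩
          · exact absurd (one _ d1 this.1 _ d2 this.2.1) this.2.2
        · have t := gc q hq
          simp only [S, mem_product, mem_range] at hq
          have := h2 _ hq.1.1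
          refine ⟨_, hq.1.1, ?_⟩
          rcases t with h | h | h | h | ⟨n1, n2, z, hz, h⟩ <;> rw [h] at d2 ⊢
          · exact .inl rfl
          · exact .inr (.inl ⟨_, _, .inl rfl, this.1, d2, rfl⟩)
          · exact .inr (.inl ⟨_, _, .inr rfl, this.1, d2, rfl⟩)
          · exact .inr (.inl ⟨_, _, .inr rfl, this.2.1, d2, rfl⟩)
          · exact .inr (.inr ⟨_, z, n1, n2, hz, rfl⟩)
      by_cases c : ∃ e i, i ≠ x e ∧ i ≠ y e ∧ w e i ∈ vs F
      · obtain ⟨e, i, n1, n2, m⟩ := c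
        refine ⟨_, m, (w e (min i (x e)), w e (max i (x e))), (w e (min i (y e)), w e (max i (y e))),
          fun a ha t => ?_⟩
        obtain ⟨f, -, h | ⟨z, u, hz, hu, -, h⟩ | ⟨j, z, m1, m2, hz, h⟩⟩ := key a ha <;> subst h <;>
          have := h1 e i <;> simp only [w_inj, Prod.mk.injEq] at t ⊢
        · grind
        · grind
        · clear * - t n1 n2 m1 m2 hz
          obtain rfl : f = e := by grind
          obtain rfl : j = i := by omega
          grind
      · have nz : ∀ a ∈ F, ∀ e i z, i ≠ x e → i ≠ y e → a ≠ (w e (min i z), w e (max i z)) := by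
          rintro _ ha e i z n1 n2 rfl
          have d1 := v1 ha
          have d2 := v2 ha
          exact c ⟨e, i, n1, n2, by grind⟩
        obtain ⟨e, z, hz, m⟩ : ∃ e z, (z = x e ∨ z = y e) ∧ w e z ∈ vs F := by
          have d1 := v1 ha
          obtain ⟨f, -, h | ⟨z, u, hz, hu, -, h⟩ | ⟨j, z, m1, m2, hz, h⟩⟩ := key a ha
          · exact ⟨f, _, .inl rfl, by simpa [h] using d1⟩
          · exact ⟨f, _, hz, by simpa [h] using d1⟩
          · exact absurd h (nz a ha _ _ _ m1 m2)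
        obtain ⟨u, hu⟩ : ∃ u, ∀ v ∈ vs F', v ∈ O → v = u := by
          by_cases c : ∃ u ∈ vs F', u ∈ O
          · obtain ⟨u, a, a'⟩ := c
            exact ⟨u, fun v p q => one v p q u a a'⟩
          · exact ⟨0, fun v p q => absurd ⟨v, p, q⟩ c⟩
        refine ⟨_, m, (w e (x e), w e (y e)), (w e z, u), fun a ha t => ?_⟩
        obtain ⟨f, -, h | ⟨z', u', hz', hu', hv, h⟩ | ⟨j, z, m1, m2, hz, h⟩⟩ := key a ha
        · subst h; grind
        · subst h; grind
        · exact absurd h (nz a ha _ _ _ m1 m2)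
  · rw [card_union_of_disjoint, card_image_of_injOn, card_image_of_injOn, b.cardV]
    · simp only [S, card_product, card_range, card_univ, Fintype.card_bool]; omega
    · rintro ⟨⟨e, i⟩, t⟩ hq ⟨⟨f, j⟩, t'⟩ hq' h
      simp only [S, coe_product, Set.mem_prod, mem_coe] at hq hq'
      have := h2 e hq.1.1; have := h2 f hq'.1.1
      have := lt e; have := lt f
      simp only [g, gs] at h
      cases t <;> cases t' <;> split_ifs at h <;> grind
    · intro e he f hf h
      have := IO e he; have := IO f hf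
      simp only [r] at h
      split_ifs at h <;> grind
    · refine disjoint_left.2 fun a ha hb => ?_
      obtain ⟨e, he, rfl⟩ := mem_image.1 ha
      obtain ⟨q, hq, h⟩ := mem_image.1 hb
      have := gc q hq
      simp only [S, mem_product] at hq
      have := h2 _ hq.1.1; have := IO e he; have := lt e; have := lt q.1.1
      simp only [r] at h
      split_ifs at h <;> grind

end Pool.Agent.H21.RCut
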