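import Pool.Agent.H21.RCut1

namespace Pool.Agent.H21.RCut

open Pool.Agent.H21.RCutDefs Finset

def P (M a i : ℕ) : ℕ := if i = 0 then o 0 0 else if i = M + 1 then o 0 1 else o a i
def pa (M a i : ℕ) : ℕ × ℕ := (P M a i, P M a (i + 1))
def sp (inc : ℕ → ℕ → Bool) (a i : ℕ) : ℕ × ℕ := (o a i, o 1 (if inc a i then i else 0))

structure CH (inc : ℕ → ℕ → Bool) (M R : ℕ) (O : Finset ℕ) (H L : Finset (ℕ × ℕ)) : Prop where
  hM : 1 ≤ M
  hR : 2 ≤ R
  hO : ∀ v, v ∈ O ↔ ∃ a < R, ∃ i ≤ M, v = o a i ∧ (a = 0 → i ≤ 1) ∧ (2 ≤ a → 1 ≤ i)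
  hH : ∀ e, e ∈ H ↔ e = (o 0 0, o 0 1) ∨ e = (o 1 0, o 0 1) ∨ ∃ i ≤ M, e = (o 1 i, o 0 0) ∨
    ∃ a < R, 2 ≤ a ∧ (e = pa M a i ∨ (1 ≤ i ∧ e = sp inc a i))
  hL : ∀ e, e ∈ L ↔ ∃ i ≤ M, 1 ≤ i ∧ e = (o 1 i, o 0 1)

def nb (inc : ℕ → ℕ → Bool) (R : ℕ) (X : Finset ℕ) : Finset ℕ :=
  X.biUnion fun i => (Ico 2 R).filter fun a => inc a i

variable {inc : ℕ → ℕ → Bool} {M R : ℕ} {O : Finset ℕ} {H L : Finset (ℕ × ℕ)}

lemma CH.mem (c : CH inc M R O H L) {a i : ℕ} :
    o a i ∈ O ↔ a < R ∧ i ≤ M ∧ (a = 0 → i ≤ 1) ∧ (2 ≤ a → 1 ≤ i) := by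
  rw [c.hO]; simp only [o_inj]; grind

lemma CH.ends (c : CH inc M R O H L) : ∀ e, e ∈ H ∨ e ∈ L →
    e.1 ∈ O ∧ e.2 ∈ O ∧ e.1 ≠ e.2 ∧ ¬ (e.swap ∈ H ∨ e.swap ∈ L) := by
  have := c.hM; have := c.hR
  intro e he
  rw [c.hH, c.hL] at he ⊢
  rcases he with (rfl | rfl | ⟨i, hi, rfl | ⟨a, ha, h2, rfl | ⟨h1, rfl⟩⟩⟩) | ⟨i, hi, h1, rfl⟩ <;>
    simp only [pa, sp, P, Prod.swap_prod_mk, Prod.mk.injEq] <;>
    refine ⟨?_, ?_, ?_, ?_⟩ <;> try split_ifs
  all_goals first | (simp only [c.mem]; omega) | grind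

theorem CH.flex (c : CH inc M R O H L) {s : ℕ} {V : Finset ℕ} {G : Finset (ℕ × ℕ)}
    (b : BU O H L s V G) {X : Finset ℕ} (hX : ∀ i ∈ X, 1 ≤ i ∧ i ≤ M)
    (h : (nb inc R X).card < X.card) : Cut V G X.card := by
  have := c.hM; have := c.hR
  have mn : ∀ a, a ∈ nb inc R X ↔ ∃ i ∈ X, (2 ≤ a ∧ a < R) ∧ inc a i := by simp [nb]
  let Y := X.image (o 1) ∪ (nb inc R X ×ˢ Icc 1 M).image fun q => o q.1 q.2
  have mY : ∀ v, v ∈ Y ↔ (∃ i ∈ X, v = o 1 i) ∨ ∃ a ∈ nb inc R X, ∃ i, 1 ≤ i ∧ i ≤ M ∧ v = o a i := by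
    intro v; simp only [Y, mem_union, mem_image, mem_product, mem_Icc, Prod.exists]; grind
  have cY : Y.card = X.card + (nb inc R X).card * M := by
    rw [card_union_of_disjoint, card_image_of_injective, card_image_of_injective]
    · simp
    · rintro ⟨a, i⟩ ⟨b, j⟩; simp
    · intro i j; simp
    · refine disjoint_left.2 fun v h h' => ?_
      obtain ⟨i, -, rfl⟩ := mem_image.1 h
      obtain ⟨q, hq, e⟩ := mem_image.1 h'
      have := (mn _).1 (mem_product.1 hq).1
      grind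
  have YO : Y ⊆ O \ {o 0 0, o 0 1} := fun v hv => by
    rcases (mY v).1 hv with ⟨i, hi, rfl⟩ | ⟨a, ha, i, h1, h2, rfl⟩
    · have := hX i hi; simp [c.mem]; omega
    · have := (mn _).1 ha; simp [c.mem]; omega
  refine ⟨X.image fun i => (o 1 i, o 0 1), fun e he => ?_, card_image_le,
    b.flex (Y := Y) (YO.trans sdiff_subset) ?_ (fun e he t => ?_) ?_⟩
  · obtain ⟨i, hi, rfl⟩ := mem_image.1 he
    exact (b.hG _).2 (.inl ((c.hL _).2 ⟨i, (hX i hi).2, (hX i hi).1, rfl⟩))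
  · have := card_le_card YO
    have := card_sdiff_add_card_eq_card (s := {o 0 0, o 0 1}) (t := O) (by simp [subset_iff, c.mem]; omega)
    rw [card_pair (by simp)] at this
    omega
  · obtain ⟨i, h1, h2, rfl⟩ := (c.hL e).1 he
    simp only [mY, mn] at t
    exact mem_image.2 ⟨i, by grind, rfl⟩
  · refine lt_of_le_of_lt (card_le_card (t := X.image (fun i => (o 1 i, o 0 0)) ∪
      ((nb inc R X ×ˢ range (M + 1)).image (fun q => pa M q.1 q.2) ∪
        (nb inc R X ×ˢ Icc 1 M).image fun q => sp inc q.1 q.2)) fun e he => ?_) ?_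
    · obtain ⟨he, t⟩ := mem_filter.1 he
      simp only [mem_union, mem_image, mem_product, mem_Icc, mem_range, Prod.exists]
      simp only [mY] at t
      rcases (c.hH e).1 he with rfl | rfl | ⟨i, hi, rfl | ⟨a, ha, h2, rfl | ⟨h1, rfl⟩⟩⟩
      · grind
      · grind
      · left; grind
      · right; left; refine ⟨a, i, ⟨?_, by omega⟩, rfl⟩
        simp only [pa, P] at t
        split_ifs at t <;> grind
      · right; right; refine ⟨a, i, ⟨?_, by omega⟩, rfl⟩
        simp only [sp] at t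
        split_ifs at t <;> grind
    · refine lt_of_le_of_lt ((card_union_le _ _).trans (add_le_add card_image_le ((card_union_le _ _).trans
        (add_le_add card_image_le card_image_le)))) ?_
      simp only [cY, card_product, card_range, Nat.card_Icc, add_tsub_cancel_right]
      nlinarith

open Classical in
noncomputable def ga (inc : ℕ → ℕ → Bool) (M : ℕ) (X : Finset ℕ) (μ : ℕ → ℕ) (q : (ℕ × ℕ) × Bool) : ℕ × ℕ :=
  if q.1.1 = 1 then
    (if q.2 then (o 1 q.1.2, o 0 0) else if q.1.2 ∈ X then sp inc (μ q.1.2) q.1.2 else (o 1 q.1.2, o 0 1))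
  else if q.2 then (if q.1.2 ∈ X ∧ μ q.1.2 = q.1.1 then pa M q.1.1 q.1.2 else sp inc q.1.1 q.1.2)
  else if ∃ e ∈ X, μ e = q.1.1 ∧ e < q.1.2 then pa M q.1.1 q.1.2 else pa M q.1.1 (q.1.2 - 1)

lemma pa_inj (hM : 1 ≤ M) {a b i j : ℕ} (ha : 2 ≤ a) (hb : 2 ≤ b) (hi : i ≤ M) (hj : j ≤ M) :
    pa M a i = pa M b j ↔ a = b ∧ i = j := by
  simp only [pa, P]; split_ifs <;> grind
lemma pa_ne {a i b j v : ℕ} (ha : 2 ≤ a) : pa M a i ≠ sp inc b j ∧ pa M a i ≠ (o 1 j, v) := by
  simp only [pa, P, sp]; split_ifs <;> grind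
lemma sp_inj {a b i j : ℕ} : sp inc a i = sp inc b j ↔ a = b ∧ i = j := by
  simp only [sp]; grind
lemma sp_ne {a i j v : ℕ} : sp inc a i ≠ (v, o 0 j) := by
  simp only [sp]; grind

theorem CH.rigid (c : CH inc M R O H L) {s k : ℕ} {V : Finset ℕ} {G : Finset (ℕ × ℕ)}
    (b : BU O H L s V G) (hs : 2 * k + 2 ≤ s)
    (h : ∀ X : Finset ℕ, (∀ i ∈ X, 1 ≤ i ∧ i ≤ M) → X.card ≤ k → X.card ≤ (nb inc R X).card)
    {D : Finset (ℕ × ℕ)} (hD : D.card ≤ k) : Rigid V (G \ D) := by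
  have hM := c.hM; have hR := c.hR
  let X := (Icc 1 M).filter fun i => (o 1 i, o 0 1) ∈ D
  have mX : ∀ i, i ∈ X ↔ (1 ≤ i ∧ i ≤ M) ∧ (o 1 i, o 0 1) ∈ D := by simp [X]
  have cX : X.card ≤ k := le_trans (card_le_card_of_injOn (fun i => (o 1 i, o 0 1))
    (fun i hi => (mem_filter.1 hi).2) fun i _ j _ => by simp) hD
  obtain ⟨μ, m1, m2⟩ : ∃ μ : ℕ → ℕ, (∀ i ∈ X, ∀ j ∈ X, μ i = μ j → i = j) ∧
      ∀ i ∈ X, (2 ≤ μ i ∧ μ i < R) ∧ inc (μ i) i := by
    obtain ⟨f, f1, f2⟩ := (all_card_le_biUnion_card_iff_exists_injective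
      (fun i : X => (Ico 2 R).filter fun a => inc a i)).1 fun S => by
        have s : S.image Subtype.val ⊆ X := fun i hi => by
          obtain ⟨j, -, rfl⟩ := mem_image.1 hi; exact j.2
        have := h _ (fun i hi => ((mX i).1 (s hi)).1) ((card_le_card s).trans cX)
        rwa [card_image_of_injective _ Subtype.val_injective, nb, image_biUnion] at this
    refine ⟨fun i => if h : i ∈ X then f ⟨i, h⟩ else 0, fun i hi j hj e => ?_, fun i hi => ?_⟩
    · simp only [hi, hj, dite_true] at e; simpa using f1 e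
    · simpa [hi] using f2 ⟨i, hi⟩
  let N := (range R ×ˢ range (M + 1)).filter fun q => 1 ≤ q.1 ∧ (2 ≤ q.1 → 1 ≤ q.2)
  have mN : ∀ q, q ∈ N ↔ (q.1 < R ∧ q.2 < M + 1) ∧ 1 ≤ q.1 ∧ (2 ≤ q.1 → 1 ≤ q.2) := by simp [N]
  let g := ga inc M X μ
  have sub : ∀ e ∈ insert (o 0 0, o 0 1) ((N ×ˢ univ).image g), e ∈ H ∨ (e ∈ L ∧ e ∉ D) := by
    intro e he
    rw [c.hH, c.hL]
    rcases mem_insert.1 he with rfl | he
    · simp
    obtain ⟨⟨⟨a, i⟩, t⟩, hq, rfl⟩ := mem_image.1 he
    have := (mN _).1 (mem_product.1 hq).1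
    have := m2 i
    have := mX i
    simp only [g, ga] at *
    split_ifs
    · exact .inl (.inr (.inr ⟨i, by omega, .inl rfl⟩))
    · exact .inl (.inr (.inr ⟨i, by omega, .inr ⟨μ i, by grind, by grind, .inr ⟨by grind, rfl⟩⟩⟩))
    · by_cases z : i = 0
      · simp [z]
      · exact .inr ⟨⟨i, by omega, by omega, rfl⟩, by grind⟩
    · exact .inl (.inr (.inr ⟨i, by omega, .inr ⟨a, by omega, by omega, .inl rfl⟩⟩))
    · exact .inl (.inr (.inr ⟨i, by omega, .inr ⟨a, by omega, by omega, .inr ⟨by omega, rfl⟩⟩⟩))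
    · exact .inl (.inr (.inr ⟨i, by omega, .inr ⟨a, by omega, by omega, .inl rfl⟩⟩))
    · exact .inl (.inr (.inr ⟨i - 1, by omega, .inr ⟨a, by omega, by omega, .inl rfl⟩⟩))
  refine b.rigid (by omega) sub (fun F' hF' ne => ?_) ?_
  · have HL : ∀ e ∈ F', e ∈ H ∨ e ∈ L := fun e he => (sub e (hF' he)).imp_right (·.1)
    by_cases c1 : o 0 0 ∈ vs F' ∧ o 0 1 ∈ vs F'
    · let N' := N.filter fun q => o q.1 q.2 ∈ vs F'
      have cN : N'.card ≤ (vs F' \ {o 0 0, o 0 1}).card :=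
        card_le_card_of_injOn (fun q => o q.1 q.2) (fun q hq => by
          have := (mN _).1 (mem_filter.1 hq).1
          have := (mem_filter.1 hq).2
          simp [this]; omega) (by rintro ⟨a, i⟩ _ ⟨b, j⟩ _; simp)
      have := card_sdiff_add_card_eq_card (s := {o 0 0, o 0 1}) (t := vs F') (by simp [subset_iff, c1])
      rw [card_pair (by simp)] at this
      have : F'.card ≤ N'.card * 2 + 1 := by
        refine (card_le_card (t := insert (o 0 0, o 0 1) ((N' ×ˢ univ).image g)) fun e he => ?_).trans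
          ((card_insert_le _ _).trans (Nat.succ_le_succ (card_image_le.trans (by simp))))
        have d1 := v1 he
        have d2 := v2 he
        refine mem_insert.2 ((mem_insert.1 (hF' he)).imp_right fun he => ?_)
        obtain ⟨⟨⟨a, i⟩, t⟩, hq, rfl⟩ := mem_image.1 he
        have hq := (mem_product.1 hq).1
        refine mem_image_of_mem _ (mem_product.2 ⟨mem_filter.2 ⟨hq, ?_⟩, mem_univ _⟩)
        have := (mN _).1 hq
        have := m2 i
        simp only [g, ga, pa, sp, P] at *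
        split_ifs at d1 d2 <;> grind
      omega
    refine degen (F := F') (fun e he => ?_) (fun F hF ⟨a, ha⟩ => ?_) F' Subset.rfl ne
    · have := c.ends e (HL e he)
      have := HL e.swap
      grind
    have c1 : o 0 0 ∉ vs F ∨ o 0 1 ∉ vs F := by have := @vs_mono _ _ hF; grind
    have key : ∀ e ∈ F, (∃ i j, j ≤ 1 ∧ e = (o 1 i, o 0 j)) ∨ ∃ i ≤ M, ∃ a, 2 ≤ a ∧
        (e = pa M a i ∨ (1 ≤ i ∧ e = sp inc a i)) := fun e he => by
      have := HL e (hF he)
      have := v1 he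
      have := v2 he
      rw [c.hH, c.hL] at *
      grind
    by_cases c2 : ∃ a i, 2 ≤ a ∧ o a i ∈ vs F
    · obtain ⟨a, i, h2, m⟩ := c2
      have out : ∀ i, o a i ∈ vs F → 1 ≤ i ∧ i ≤ M := fun i m => by
        obtain ⟨e, he, r⟩ := mem_vs.1 m
        have := c.ends e (HL e (hF he))
        have := @CH.mem _ _ _ _ _ _ c a i
        grind
      rcases c1 with c1 | c1
      · obtain ⟨j, n1, n2⟩ := Nat.exists_not_and_succ_of_not_zero_of_exists (p := fun i => o a i ∈ vs F)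
          (fun h => by have := out 0 h; omega) ⟨i, m⟩
        refine ⟨_, n2, pa M a (j + 1), sp inc a (j + 1), fun e he t => ?_⟩
        have d1 := v1 he
        rcases key e he with ⟨i, j, -, rfl⟩ | ⟨i, hi, a', h2', rfl | ⟨h1, rfl⟩⟩
        · grind
        · simp only [pa, P] at t d1; split_ifs at t d1 <;> grind
        · simp only [sp] at t; grind
      · obtain ⟨j, n1, n2⟩ := Nat.exists_not_and_succ_of_not_zero_of_exists
          (p := fun n => o a (i + n) ∉ vs F) (by simpa) ⟨M + 1, fun h => by have := out _ h; omega⟩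
        refine ⟨_, not_not.1 n1, pa M a (i + j - 1), sp inc a (i + j), fun e he t => ?_⟩
        have d1 := v2 he
        have := out _ (not_not.1 n1)
        rcases key e he with ⟨i, j, -, rfl⟩ | ⟨i', hi, a', h2', rfl | ⟨h1, rfl⟩⟩
        · grind
        · have : a' = a ∧ i' = i + j - 1 := by
            clear * - t d1 n2 c1 h2 this
            simp only [pa, P] at t d1; split_ifs at t d1 <;> grind
          simp [this]
        · simp only [sp] at t; grind
    · have key' : ∀ e ∈ F, ∃ i j, j ≤ 1 ∧ e = (o 1 i, o 0 j) := fun e he => by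
        have d1 := v1 he
        have d2 := v2 he
        rcases key e he with h | ⟨i, hi, a', h2', rfl | ⟨h1, rfl⟩⟩
        · exact h
        · simp only [pa, P] at d1 d2; split_ifs at d1 d2 <;> grind
        · exact absurd ⟨_, _, h2', d1⟩ c2
      obtain ⟨i, j, -, rfl⟩ := key' a ha
      refine ⟨_, v1 ha, (o 1 i, o 0 0), (o 1 i, o 0 1), fun e he t => ?_⟩
      obtain ⟨i, j, hj, rfl⟩ := key' e he
      grind
  · have cO : O = insert (o 0 0) (insert (o 0 1) (N.image fun q => o q.1 q.2)) := by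
      ext v
      simp only [c.hO, mem_insert, mem_image, mN, Prod.exists]
      constructor
      · rintro ⟨a, h1, i, h2, rfl, h3, h4⟩
        by_cases z : a = 0
        · grind
        · exact .inr (.inr ⟨a, i, by omega, rfl⟩)
      · rintro (rfl | rfl | ⟨a, i, h, rfl⟩)
        exacts [⟨0, by omega, 0, by omega, rfl, by omega⟩, ⟨0, by omega, 1, by omega, rfl, by omega⟩,
          ⟨a, by omega, i, by omega, rfl, by omega⟩]
    rw [cO, card_insert_of_notMem, card_insert_of_notMem, card_insert_of_notMem, card_image_of_injOn,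
      card_image_of_injective]
    · simp; omega
    · rintro ⟨a, i⟩ ⟨b, j⟩; simp
    · rintro ⟨⟨a, i⟩, t⟩ hq ⟨⟨a', i'⟩, t'⟩ hq' e
      have := (mN _).1 (mem_product.1 hq).1
      have := (mN _).1 (mem_product.1 hq').1
      have := m2 i; have := m2 i'
      simp only [g, ga] at *
      clear sub cO mN hq hq' b c h mX cX
      clear_value X
      split_ifs at e
      all_goals first
        | exact absurd e (pa_ne (inc := inc) (b := 0) (by omega)).2
        | exact absurd e.symm (pa_ne (inc := inc) (b := 0) (by omega)).2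
        | exact absurd e (pa_ne (v := 0) (by omega)).1
        | exact absurd e.symm (pa_ne (v := 0) (by omega)).1
        | exact absurd e sp_ne
        | exact absurd e.symm sp_ne
        | (rw [pa_inj hM (by omega) (by omega) (by omega) (by omega)] at e; grind)
        | (rw [sp_inj] at e; grind)
        | grind
    · simp [mN]
    · simp [mN]
    · intro he
      obtain ⟨⟨⟨a, i⟩, t⟩, hq, e⟩ := mem_image.1 he
      have := (mN _).1 (mem_product.1 hq).1
      simp only [g, ga, pa, sp, P] at *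
      split_ifs at e <;> grind

end Pool.Agent.H21.RCut
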