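import Pool.Agent.H21.RCut2
import Pool.Agent.H11.CL3

namespace Pool.Agent.H21.RCut

open Pool.Agent.H21.RCutDefs Pool.Agent.H11.PT Finset

abbrev Fm := List (Lit × Lit × Lit)

def cl (φ : Fm) (j : ℕ) : Lit × Lit × Lit := φ.getD j ((0, true), (0, false), (0, true))
def lit (φ : Fm) (a : ℕ) : Lit :=
  if a % 3 = 0 then (cl φ (a / 3)).1 else if a % 3 = 1 then (cl φ (a / 3)).2.1 else (cl φ (a / 3)).2.2
def ok (φ : Fm) (u v : ℕ) : Bool :=
  (u == v || u / 3 != v / 3) && ((lit φ u).1 != (lit φ v).1 || (lit φ u).2 == (lit φ v).2)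
def mm (φ : Fm) : ℕ := φ.length + 2
def inc (φ : Fm) (a i : ℕ) : Bool :=
  a == (i - 1) / (3 * mm φ) + 2 || a == (i - 1) % (3 * mm φ) + 2 || decide (3 * mm φ + 2 ≤ a) ||
    !ok φ ((i - 1) / (3 * mm φ)) ((i - 1) % (3 * mm φ))
def MM (φ : Fm) : ℕ := 3 * mm φ * (3 * mm φ)
def RR (φ : Fm) : ℕ := mm φ * mm φ + 2 * mm φ + 1

theorem hv (φ : Fm) : SAT3 φ ↔ ∃ X : Finset ℕ, (∀ i ∈ X, 1 ≤ i ∧ i ≤ MM φ) ∧
    X.card ≤ mm φ * mm φ ∧ (nb (inc φ) (RR φ) X).card < X.card := by
  have m2 : 2 ≤ mm φ := by simp [mm]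
  have m3 : 2 * mm φ ≤ mm φ * mm φ := by nlinarith
  have mn : ∀ X a, a ∈ nb (inc φ) (RR φ) X ↔ ∃ i ∈ X, (2 ≤ a ∧ a < RR φ) ∧ inc φ a i := by simp [nb]
  constructor
  · rintro ⟨σ, hσ⟩
    have : ∀ j, ∃ u, u / 3 = j ∧ σ (lit φ u).1 = (lit φ u).2 := fun j => by
      have : σ (cl φ j).1.1 = (cl φ j).1.2 ∨ σ (cl φ j).2.1.1 = (cl φ j).2.1.2 ∨
          σ (cl φ j).2.2.1 = (cl φ j).2.2.2 := by
        by_cases h : j < φ.length
        · exact hσ _ (by simp [cl, h])
        · simp [cl, List.getD_eq_getElem?_getD, List.getElem?_eq_none (not_lt.1 h)]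
      rcases this with h | h | h
      · exact ⟨3 * j, by omega, by simpa [lit]⟩
      · exact ⟨3 * j + 1, by omega, by simpa [lit, show (3 * j + 1) / 3 = j by omega]⟩
      · exact ⟨3 * j + 2, by omega, by simpa [lit, show (3 * j + 2) / 3 = j by omega]⟩
    choose f f1 f2 using this
    have fl : ∀ j < mm φ, f j < 3 * mm φ := fun j h => by have := f1 j; omega
    have dv : ∀ a, ∀ j < mm φ, (3 * mm φ * a + f j + 1 - 1) / (3 * mm φ) = a ∧
        (3 * mm φ * a + f j + 1 - 1) % (3 * mm φ) = f j := fun a j h => by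
      rw [add_tsub_cancel_right, Nat.mul_add_div (by omega), Nat.mul_add_mod,
        Nat.div_eq_of_lt (fl j h), Nat.mod_eq_of_lt (fl j h)]
      simp
    have cX : ((range (mm φ) ×ˢ range (mm φ)).image fun q => 3 * mm φ * f q.1 + f q.2 + 1).card =
        mm φ * mm φ := by
      rw [card_image_of_injOn]
      · simp
      · rintro ⟨a, b⟩ h ⟨c, d⟩ h' e
        simp only [coe_product, Set.mem_prod, mem_coe, mem_range] at h h' e
        have := dv (f a) b h.2; have := dv (f c) d h'.2
        have := f1 a; have := f1 b; have := f1 c; have := f1 d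
        grind
    refine ⟨_, fun i hi => ?_, cX.le, ?_⟩
    · obtain ⟨q, hq, rfl⟩ := mem_image.1 hi
      simp only [mem_product, mem_range] at hq
      have := fl _ hq.1; have := fl _ hq.2
      simp only [MM]
      exact ⟨by omega, by nlinarith⟩
    · rw [cX]
      refine lt_of_le_of_lt (card_le_card (t := (range (mm φ)).image (f · + 2) ∪
        Ico (3 * mm φ + 2) (RR φ)) fun a ha => ?_) (lt_of_le_of_lt ((card_union_le _ _).trans
          (add_le_add_left card_image_le _)) (by simp [RR]; omega))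
      obtain ⟨i, hi, h1, h2⟩ := (mn _ _).1 ha
      obtain ⟨q, hq, rfl⟩ := mem_image.1 hi
      simp only [mem_product, mem_range] at hq
      have k : ok φ (f q.1) (f q.2) := by
        simp only [ok, f1, ← f2, Bool.and_eq_true, Bool.or_eq_true, beq_iff_eq, bne_iff_ne]
        exact ⟨(em _).imp_left fun h => by rw [h], (em' _).imp_right fun h => by rw [h]⟩
      simp only [inc, dv _ _ hq.2, k, Bool.or_eq_true, beq_iff_eq, decide_eq_true_eq] at h2
      simp only [mem_union, mem_image, mem_range, mem_Ico]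
      rcases h2 with ((h | h) | h) | h
      exacts [.inl ⟨_, hq.1, h.symm⟩, .inl ⟨_, hq.2, h.symm⟩, .inr ⟨h, h1.2⟩, by simp at h]
  rintro ⟨X, hX, cX, h⟩
  have oks : ∀ i ∈ X, ok φ ((i - 1) / (3 * mm φ)) ((i - 1) % (3 * mm φ)) := fun i hi => by
    by_contra c
    have : (Ico 2 (RR φ)).card ≤ (nb (inc φ) (RR φ) X).card := card_le_card fun a ha =>
      (mn _ _).2 ⟨i, hi, mem_Ico.1 ha, by simp [inc, c]⟩
    simp [RR] at this h; omega
  let S := X.image (fun i => (i - 1) / (3 * mm φ)) ∪ X.image (fun i => (i - 1) % (3 * mm φ))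
  have Sl : ∀ u ∈ S, u < 3 * mm φ := fun u hu => by
    rcases mem_union.1 hu with hu | hu <;> obtain ⟨i, hi, rfl⟩ := mem_image.1 hu
    · have := hX i hi
      exact Nat.div_lt_of_lt_mul (by simp only [MM] at this; omega)
    · exact Nat.mod_lt _ (by omega)
  have ne : X.Nonempty := card_pos.1 (by omega)
  have c1 : S.card + (Ico (3 * mm φ + 2) (RR φ)).card ≤ (nb (inc φ) (RR φ) X).card := by
    rw [← card_image_of_injective S (add_left_injective 2), ← card_union_of_disjoint]
    · refine card_le_card fun a ha => (mn _ _).2 ?_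
      rcases mem_union.1 ha with ha | ha
      · obtain ⟨u, hu, rfl⟩ := mem_image.1 ha
        have := Sl u hu
        rcases mem_union.1 hu with hu | hu <;> obtain ⟨i, hi, rfl⟩ := mem_image.1 hu <;>
          exact ⟨i, hi, ⟨Nat.le_add_left _ _, by simp only [RR]; omega⟩, by simp [inc]⟩
      · obtain ⟨i, hi⟩ := ne
        rw [mem_Ico] at ha
        exact ⟨i, hi, by omega, by simp [inc, ha.1]⟩
    · refine disjoint_left.2 fun a ha hb => ?_
      obtain ⟨u, hu, rfl⟩ := mem_image.1 ha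
      have := Sl u hu
      rw [mem_Ico] at hb; omega
  let g := fun i => ((i - 1) / (3 * mm φ), (i - 1) % (3 * mm φ))
  have gi : (X.image g).card = X.card := card_image_of_injOn fun i hi j hj e => by
    have := hX i hi; have := hX j hj
    have := Nat.div_add_mod (i - 1) (3 * mm φ)
    have := Nat.div_add_mod (j - 1) (3 * mm φ)
    simp only [g, Prod.mk.injEq] at e
    grind
  have gs : X.image g ⊆ S ×ˢ S := fun q hq => by
    obtain ⟨i, hi, rfl⟩ := mem_image.1 hq
    exact mem_product.2 ⟨mem_union_left _ (mem_image_of_mem _ hi), mem_union_right _ (mem_image_of_mem _ hi)⟩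
  have c2 := card_le_card gs
  simp only [Nat.card_Ico, RR, card_product] at c1 c2 h
  have c3 : S.card = mm φ := by
    by_contra c
    have : S.card + 1 ≤ mm φ := by omega
    have : S.card * S.card + mm φ < mm φ * mm φ + S.card := by nlinarith
    omega
  have all : ∀ u ∈ S, ∀ v ∈ S, ok φ u v := fun u hu v hv => by
    have : (u, v) ∈ X.image g := by
      rw [eq_of_subset_of_card_le gs (by rw [card_product, c3]; omega)]; exact mem_product.2 ⟨hu, hv⟩
    obtain ⟨i, hi, e⟩ := mem_image.1 this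
    have := oks i hi
    simp only [g, Prod.mk.injEq] at e
    rwa [e.1, e.2] at this
  refine ⟨fun x => decide (∃ u ∈ S, lit φ u = (x, true)), fun c hc => ?_⟩
  obtain ⟨j, hj, rfl⟩ := List.getElem_of_mem hc
  obtain ⟨u, hu, e⟩ := surj_on_of_inj_on_of_card_le (s := S) (t := range (mm φ)) (fun u _ => u / 3)
    (fun u hu => by have := Sl u hu; rw [mem_range]; omega)
    (fun u v hu hv e => by have := all u hu v hv; simp only [ok] at this; grind)
    (by simp [c3]) j (by simp [mm]; omega)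
  have t : decide (∃ v ∈ S, lit φ v = ((lit φ u).1, true)) = (lit φ u).2 := by
    cases h : (lit φ u).2
    · refine decide_eq_false ?_
      rintro ⟨v, hv, r⟩
      have := all u hu v hv
      simp [ok, r, h] at this
    · exact decide_eq_true ⟨u, hu, by rw [← h]⟩
  have ec : cl φ (u / 3) = φ[j] := by simp [cl, ← e, hj]
  generalize hl : lit φ u = l at t
  simp only [lit, ec] at hl
  split_ifs at hl <;> subst hl <;> simp only [t, true_or, or_true]

def dd {α : Type} [BEq α] (l : List α) : List α :=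
  (l.zipIdx.filter fun q => !(l.take q.2).contains q.1).map (·.1)

lemma mem_dd {α : Type} [BEq α] [LawfulBEq α] {l : List α} {x : α} : x ∈ dd l ↔ x ∈ l := by
  simp only [dd, List.mem_map, List.mem_filter, List.mem_zipIdx_iff_getElem?]
  refine ⟨fun ⟨q, h, e⟩ => e ▸ List.mem_of_getElem? h.1, fun h => ?_⟩
  classical
  have ex := List.getElem?_of_mem h
  refine ⟨(x, Nat.find ex), ⟨Nat.find_spec ex, ?_⟩, rfl⟩
  simp only [Bool.not_eq_true', List.contains_eq_mem, decide_eq_false_iff_not]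
  intro c
  obtain ⟨i, hi⟩ := List.getElem?_of_mem c
  rw [List.getElem?_take] at hi
  split_ifs at hi with l
  exact Nat.find_min ex l hi

lemma nd_dd {α : Type} [BEq α] [LawfulBEq α] {l : List α} : (dd l).Nodup := by
  have : l.zipIdx.Pairwise fun a b => a.2 < b.2 := by
    rw [← List.pairwise_map (f := Prod.snd) (R := (· < ·)), List.zipIdx_map_snd]
    exact List.pairwise_lt_range'
  refine List.pairwise_map.2 ((this.filter _).imp_of_mem fun {a b} ha hb lt e => ?_)
  simp only [List.mem_filter, List.mem_zipIdx_iff_getElem?, Bool.not_eq_true', List.contains_eq_mem,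
    decide_eq_false_iff_not] at ha hb
  exact hb.2 (List.mem_of_getElem? (i := a.2) (by rw [List.getElem?_take, if_pos lt, ha.1, e]))

def Ol (M R : ℕ) : List ℕ := (List.range R).flatMap fun a => ((List.range (M + 1)).filter fun i =>
  (a != 0 || decide (i ≤ 1)) && (decide (a < 2) || decide (1 ≤ i))).map (o a)
def Hl (φ : Fm) : List (ℕ × ℕ) := (o 0 0, o 0 1) :: (o 1 0, o 0 1) ::
  (List.range (MM φ + 1)).flatMap fun i => (o 1 i, o 0 0) ::
    ((List.range (RR φ)).filter fun a => decide (2 ≤ a)).flatMap fun a =>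
      pa (MM φ) a i :: if 1 ≤ i then [sp (inc φ) a i] else []
def Ll (M : ℕ) : List (ℕ × ℕ) := (List.range M).map fun i => (o 1 (i + 1), o 0 1)
def ss (φ : Fm) : ℕ := 2 * (mm φ * mm φ) + 2
def Vl (φ : Fm) : List ℕ := Ol (MM φ) (RR φ) ++ (Hl φ).flatMap fun e => (List.range (ss φ)).map (w e)
def Gl (φ : Fm) : List (ℕ × ℕ) := Ll (MM φ) ++ (Hl φ).flatMap fun e => (List.range (ss φ)).flatMap fun i =>
  (w e i, e.1) :: (w e i, e.2) :: (List.range i).map fun j => (w e j, w e i)
def red (φ : Fm) : List ℕ × List (ℕ × ℕ) × ℕ := (dd (Vl φ), dd (Gl φ), mm φ * mm φ)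

lemma ch (φ : Fm) : CH (inc φ) (MM φ) (RR φ) (Ol (MM φ) (RR φ)).toFinset (Hl φ).toFinset
    (Ll (MM φ)).toFinset := by
  have m2 : 2 ≤ mm φ := by simp [mm]
  refine ⟨by simp only [MM]; nlinarith, by simp only [RR]; omega, fun v => ?_, fun e => ?_, fun e => ?_⟩
  · simp [Ol]; grind
  · simp [Hl]; grind
  · simp only [Ll, List.mem_toFinset, List.mem_map, List.mem_range]
    exact ⟨fun ⟨i, h, e⟩ => ⟨i + 1, h, by omega, e.symm⟩,
      fun ⟨i, h, h1, e⟩ => ⟨i - 1, by omega, by rw [e, Nat.sub_add_cancel h1]⟩⟩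

lemma bu (φ : Fm) : BU (Ol (MM φ) (RR φ)).toFinset (Hl φ).toFinset (Ll (MM φ)).toFinset (ss φ)
    (red φ).1.toFinset (red φ).2.1.toFinset := by
  have := (ch φ).ends
  refine ⟨fun e i h => ?_, by grind, by grind, fun v => ?_, fun a => ?_⟩
  · obtain ⟨a, -, i, -, h, -⟩ := ((ch φ).hO _).1 h
    exact w_o h
  · simp only [red, Vl, List.mem_toFinset, mem_dd, List.mem_append, List.mem_flatMap, List.mem_map,
      List.mem_range, eq_comm]
  · simp only [red, Gl, List.mem_toFinset, mem_dd, List.mem_append, List.mem_flatMap, List.mem_map,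
      List.mem_range, List.mem_cons, eq_comm]

theorem main (φ : Fm) : Simple (red φ).1 (red φ).2.1 ∧ Rigid (red φ).1.toFinset (red φ).2.1.toFinset ∧
    (SAT3 φ ↔ Cut (red φ).1.toFinset (red φ).2.1.toFinset (red φ).2.2) := by
  have c := ch φ
  have b := bu φ
  refine ⟨⟨?_, nd_dd, nd_dd, fun e he => ?_⟩, ?_, (hv φ).trans ⟨fun ⟨X, h1, h2, h3⟩ => ?_, fun h => ?_⟩⟩
  · refine le_trans ?_ (List.toFinset_card_le _)
    have := c.hM; have := c.hR
    refine (card_pair (show o 0 0 ≠ o 0 1 by simp)).ge.trans (card_le_card ?_)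
    simp only [subset_iff, mem_insert, mem_singleton, b.hV]
    rintro _ (rfl | rfl) <;> exact .inl (c.mem.2 (by omega))
  · simpa using b.simple e (List.mem_toFinset.2 he)
  · simpa using c.rigid (k := 0) (D := ∅) b (by simp [ss]) (fun X _ h => by omega) (by simp)
  · obtain ⟨D, d1, d2, d3⟩ := c.flex b h1 h3
    exact ⟨D, d1, d2.trans h2, d3⟩
  · obtain ⟨D, -, d2, d3⟩ := h
    by_contra! n
    exact d3 (c.rigid b le_rfl n d2)

theorem red_pt : PT red := by
  unfold red dd Vl Gl Ol Hl Ll ss w pa sp P o inc ok lit cl MM RR mm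
  fun_prop

end Pool.Agent.H21.RCut
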