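import Pool.Agent.H11.PTDefs

namespace Pool.Agent.H21.RCutDefs

/-- the set `V(F)` of endpoints of the edges in `F` -/
def vs (F : Finset (ℕ × ℕ)) : Finset ℕ := F.image Prod.fst ∪ F.image Prod.snd

/-- independence in the 2-dimensional rigidity matroid: `|F'| ≤ 2 |V(F')| - 3` for every
nonempty `F' ⊆ F` -/
def Ind (F : Finset (ℕ × ℕ)) : Prop :=
  ∀ F' ⊆ F, F'.Nonempty → F'.card + 3 ≤ 2 * (vs F').card

/-- the graph `(V, E)` is rigid in the plane: its rigidity matroid has rank `2 |V| - 3` -/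
def Rigid (V : Finset ℕ) (E : Finset (ℕ × ℕ)) : Prop :=
  ∃ F ⊆ E, Ind F ∧ F.card + 3 = 2 * V.card

/-- `(V, E)` lists the vertices and edges of a simple graph on at least two vertices, each vertex
once and each edge once, in one of its two directions -/
def Simple (V : List ℕ) (E : List (ℕ × ℕ)) : Prop :=
  2 ≤ V.length ∧ V.Nodup ∧ E.Nodup ∧ ∀ e ∈ E, e.1 ∈ V ∧ e.2 ∈ V ∧ e.1 ≠ e.2 ∧ e.swap ∉ E

/-- `c(G) ≤ k`: deleting some set of at most `k` edges leaves a graph that is not rigid -/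
def Cut (V : Finset ℕ) (E : Finset (ℕ × ℕ)) (k : ℕ) : Prop :=
  ∃ D ⊆ E, D.card ≤ k ∧ ¬ Rigid V (E \ D)

end Pool.Agent.H21.RCutDefs
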