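import Mathlib

namespace Pool.Agent.H21.RFS

open Matrix MvPolynomial commutatorElement

variable {R : Type} [CommRing R] {I : Ideal R}

abbrev S (R : Type) [CommRing R] := SpecialLinearGroup (Fin 3) R
def G (I : Ideal R) : Subgroup (S R) := Subgroup.closure
  {g | ∃ (i j : Fin 3) (h : i ≠ j) (f : R), (j < i → f ∈ I) ∧ g = SpecialLinearGroup.transvection h f}

def P (I : Ideal R) (k : ℕ) (M : Matrix (Fin 3) (Fin 3) R) : Prop := ∀ i j : Fin 3, M i j ∈ I ^ ((k + i + 2 - j) / 3)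
lemma P.mul {a b : ℕ} {M N} (h : P I a M) (h' : P I b N) : P I (a + b) (M * N) := fun i j => by
  rw [mul_apply]
  exact Ideal.sum_mem _ fun l _ => Ideal.pow_le_pow_right (by omega)
    (pow_add I _ _ ▸ Ideal.mul_mem_mul (h i l) (h' l j))
lemma P.add {a : ℕ} {M N} (h : P I a M) (h' : P I a N) : P I a (M + N) := fun i j => add_mem (h i j) (h' i j)
lemma P.sub {a : ℕ} {M N} (h : P I a M) (h' : P I a N) : P I a (M - N) := fun i j => sub_mem (h i j) (h' i j)
lemma P.mono {a b : ℕ} {M} (h : P I a M) (e : b ≤ a) : P I b M := fun i j => Ideal.pow_le_pow_right (by omega) (h i j)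
lemma P_one : P I 0 1 := fun i j => by
  by_cases h : i = j
  · simp [h]
  · simp [one_apply_ne h]
lemma P.zero {a : ℕ} {M} (h : P I a (M - 1)) : P I 0 M := by simpa using (h.mono a.zero_le).add P_one

def H (I : Ideal R) (k : ℕ) : Subgroup (S R) where
  carrier := {g | P I (k + 1) (g.1 - 1) ∧ P I (k + 1) (g⁻¹.1 - 1)}
  one_mem' := by simp [P]
  mul_mem' {a b} ha hb := by
    have k (a b : S R) (ha : P I (k + 1) (a.1 - 1)) (hb : P I (k + 1) (b.1 - 1)) : P I (k + 1) ((a * b).1 - 1) := by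
      convert (ha.mul hb.zero).add hb using 1; simp [sub_mul]
    exact ⟨k a b ha.1 hb.1, by rw [_root_.mul_inv_rev]; exact k _ _ hb.2 ha.2⟩
  inv_mem' h := ⟨h.2, by simpa using h.1⟩
lemma comm {k : ℕ} {a b : S R} (ha : a ∈ H I k) (hb : b ∈ H I k) : ⁅a, b⁆ ∈ H I (k + 1) := by
  have key {a b : S R} (ha : a ∈ H I k) (hb : b ∈ H I k) : P I (k + 1 + 1) (⁅a, b⁆.1 - 1) := by
    have e : ⁅a, b⁆.1 - 1 = ((a.1 - 1) * (b.1 - 1) - (b.1 - 1) * (a.1 - 1)) * (a⁻¹.1 * b⁻¹.1) := by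
      have h1 : b.1 * a.1 * (a⁻¹.1 * b⁻¹.1) = 1 := congrArg Subtype.val (show b * a * (a⁻¹ * b⁻¹) = 1 by group)
      have h2 : ⁅a, b⁆.1 = a.1 * b.1 * a⁻¹.1 * b⁻¹.1 := rfl
      rw [h2]; nth_rw 1 [← h1]
      generalize a⁻¹.1 = x; generalize b⁻¹.1 = y
      noncomm_ring
    rw [e]
    exact (((ha.1.mul hb.1).sub (hb.1.mul ha.1)).mul (ha.2.zero.mul hb.2.zero)).mono (by omega)
  exact ⟨key ha hb, by rw [commutatorElement_inv]; exact key hb ha⟩
lemma GH : (G I) ≤ H I 0 := (Subgroup.closure_le _).2 (by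
  rintro _ ⟨i, j, h, f, hf, rfl⟩
  have k (f : R) (hf : j < i → f ∈ I) : P I 1 ((SpecialLinearGroup.transvection h f).1 - 1) := fun a b => by
    rw [SpecialLinearGroup.transvection_coe, add_sub_cancel_left, single_apply]
    split_ifs with e
    · obtain ⟨rfl, rfl⟩ := e
      by_cases l : j < i
      · rw [show (1 + i.1 + 2 - j) / 3 = 1 by omega, pow_one]; exact hf l
      · rw [show (1 + i.1 + 2 - j) / 3 = 0 by omega]; simp
    · exact zero_mem _
  exact ⟨k f hf, by rw [SpecialLinearGroup.transvection_inv]; exact k _ fun l => neg_mem (hf l)⟩)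
lemma der (n : ℕ) : derivedSeries (G I) n ≤ (H I n).comap (G I).subtype := by
  induction n with
  | zero => exact fun g _ => GH g.2
  | succ n ih => exact Subgroup.commutator_le.2 fun a ha b hb => comm (ih ha) (ih hb)

lemma ne {g : (G I)} (h : g ≠ 1) : ∃ i j, (g.1.1 - 1) i j ≠ 0 := by
  by_contra! e
  exact h (Subtype.ext (Subtype.ext (sub_eq_zero.1 (Matrix.ext e))))

theorem rf (hR : ∀ f : R, f ≠ 0 → ∃ m : ℕ, ∃ ψ : R →+* ZMod (m + 1), ψ f ≠ 0) (g : G I) (h : g ≠ 1) :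
    ∃ N : Subgroup (G I), ∃ _ : N.Normal, g ∉ N ∧ Finite (G I ⧸ N) := by
  obtain ⟨i, j, h⟩ := ne h
  obtain ⟨m, ψ, hc⟩ := hR _ h
  let φ := (SpecialLinearGroup.map ψ).comp (G I).subtype
  refine ⟨φ.ker, inferInstance, fun e => hc ?_, Finite.of_injective _ (QuotientGroup.kerLift_injective φ)⟩
  have := congr(($e).1 i j)
  simp [φ] at this
  simp [this, one_apply]

theorem rs (sep : ∀ {f : R}, (∀ k, f ∈ I ^ k) → f = 0) (g : (G I)) (h : g ≠ 1) : ∃ N : Subgroup (G I), ∃ _ : N.Normal, g ∉ N ∧ Group.IsSolvable ((G I) ⧸ N) := by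
  obtain ⟨i, j, h⟩ := ne h
  obtain ⟨k, hk⟩ := not_forall.1 (mt sep h)
  refine ⟨derivedSeries (G I) (3 * k), inferInstance, fun e => hk (Ideal.pow_le_pow_right (by omega) ((der _ e).1 i j)),
    3 * k, ?_⟩
  rw [← map_derivedSeries_eq (QuotientGroup.mk'_surjective _), Subgroup.map_eq_bot_iff, QuotientGroup.ker_mk']

theorem nfs (hI : ∀ m : ℕ, m ≠ 0 → ∃ x : R, 1 - m * x ∈ I) (N : Subgroup (G I)) [N.Normal] [Finite ((G I) ⧸ N)] (h : Group.IsSolvable ((G I) ⧸ N)) : N = ⊤ := by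
  let φ := (Abelianization.of (G := G I ⧸ N)).comp (QuotientGroup.mk' N)
  let e {i j : Fin 3} (h : i ≠ j) (f : R) (hf : j < i → f ∈ I) : (G I) := ⟨_, Subgroup.subset_closure ⟨i, j, h, f, hf, rfl⟩⟩
  have c {i j k : Fin 3} (h : i ≠ j) (h1 : i ≠ k) (h2 : k ≠ j) (u v) (hu : k < i → u ∈ I) (hv : j < k → v ∈ I) (hw) :
      φ (e h (u * v) hw) = 1 := by
    have : e h (u * v) hw * e h2 v hv * e h1 u hu = e h1 u hu * e h2 v hv := Subtype.ext (Subtype.ext (by
      simp [e, SpecialLinearGroup.transvection_coe, mul_add, add_mul, single_mul_single_of_ne, single_mul_single_same,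
        h.symm, h1.symm, h2.symm]; abel))
    have := congr(φ $this)
    rw [map_mul, map_mul, map_mul, mul_comm (φ (e h1 u hu)), mul_assoc] at this
    exact mul_right_cancel (this.trans (one_mul _).symm)
  have p {i j : Fin 3} (h : i ≠ j) (f hf) (m : ℕ) :
      e h (m * f) (fun l => Ideal.mul_mem_left _ _ (hf l)) = e h f hf ^ m := by
    induction m with
    | zero => exact Subtype.ext (by simp [e])
    | succ m ih => rw [pow_succ, ← ih]; exact Subtype.ext (by simp [e, add_mul, SpecialLinearGroup.transvection_add])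
  have k (g : (G I)) : φ g = 1 := by
    have : (⊤ : Subgroup (G I)) ≤ φ.ker := by
      refine Subgroup.closure_closure_coe_preimage.symm.trans_le ((Subgroup.closure_le _).2 ?_)
      rintro ⟨_, _⟩ ⟨i, j, h, f, hf, rfl⟩
      let m := Nat.card (Abelianization ((G I) ⧸ N))
      obtain ⟨x, hm⟩ := hI m Nat.card_pos.ne'
      have : e h f hf = e h (m * (x * f)) (fun l => Ideal.mul_mem_left _ _ (Ideal.mul_mem_left _ _ (hf l))) *
          e h ((1 - m * x) * f) (fun _ => Ideal.mul_mem_right _ _ hm) :=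
        Subtype.ext (by simp [e, ← SpecialLinearGroup.transvection_add]; congr 1; ring)
      change φ (e h f hf) = 1
      rw [this, map_mul, p h _ fun l => Ideal.mul_mem_left _ _ (hf l), map_pow, pow_card_eq_one', one_mul]
      obtain ⟨k, h1, h2⟩ : ∃ k, i ≠ k ∧ k ≠ j := (by decide : ∀ i j : Fin 3, ∃ k, i ≠ k ∧ k ≠ j) i j
      by_cases l : j < k ∧ i < j
      · simp only [mul_comm _ f]; exact c h h1 h2 _ _ (by omega) (fun _ => hm) fun _ => Ideal.mul_mem_left _ _ hm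
      · exact c h h1 h2 _ _ (fun _ => hm) (fun l' => hf (by omega)) fun _ => Ideal.mul_mem_right _ _ hm
    exact this (Subgroup.mem_top g)
  have t : commutator ((G I) ⧸ N) = ⊤ := eq_top_iff.2 fun x _ => by
    obtain ⟨g, rfl⟩ := QuotientGroup.mk'_surjective N x
    rw [← Abelianization.ker_of]; exact k g
  obtain ⟨n, hn⟩ := h
  have (n : ℕ) : derivedSeries ((G I) ⧸ N) n = ⊤ := by
    induction n with
    | zero => rfl
    | succ n ih => rw [derivedSeries_succ, ih]; exact t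
  exact eq_top_iff.2 fun g _ => (QuotientGroup.eq_one_iff g).1 (Subgroup.mem_bot.1 (hn ▸ this n ▸ Subgroup.mem_top _))

noncomputable def I0 : Ideal (MvPolynomial ℕ ℤ) := RingHom.ker (eval₂Hom (Int.castRingHom ℚ) fun m : ℕ => (m : ℚ)⁻¹)
lemma sep {f : MvPolynomial ℕ ℤ} (h : ∀ k, f ∈ I0 ^ k) : f = 0 := by
  refine MvPolynomial.funext fun c => ?_
  let ψ : MvPolynomial ℕ ℤ →+* Polynomial ℚ := eval₂Hom (Int.castRingHom _)
    fun m => Polynomial.C (m : ℚ)⁻¹ + Polynomial.C ((c m : ℚ) - (m : ℚ)⁻¹) * Polynomial.X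
  have h0 : (Polynomial.evalRingHom 0).comp ψ = eval₂Hom (Int.castRingHom ℚ) fun m : ℕ => (m : ℚ)⁻¹ := by
    ext <;> simp [ψ]
  have h1 : (Polynomial.evalRingHom 1).comp ψ = (Int.castRingHom ℚ).comp (eval c) := by ext <;> simp [ψ]
  have hI : I0.map ψ ≤ Ideal.span {Polynomial.X} := Ideal.map_le_iff_le_comap.2 fun g hg =>
    Ideal.mem_span_singleton.2 (Polynomial.X_dvd_iff.2 (by
      rw [Polynomial.coeff_zero_eq_eval_zero]; exact (congr($h0 g)).trans hg))
  have : ψ f = 0 := Polynomial.ext fun k => (Polynomial.X_pow_dvd_iff.1 (Ideal.mem_span_singleton.1 (by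
    rw [← Ideal.span_singleton_pow]
    exact Ideal.pow_right_mono hI _ (Ideal.map_pow ψ I0 _ ▸ Ideal.mem_map_of_mem ψ (h (k + 1))))) k k.lt_succ_self)
  have e := congr($h1 f)
  simp [this] at e
  simpa using e.symm

lemma res (f : MvPolynomial ℕ ℤ) (h : f ≠ 0) : ∃ m : ℕ, ∃ ψ : MvPolynomial ℕ ℤ →+* ZMod (m + 1), ψ f ≠ 0 := by
  obtain ⟨c, hc⟩ := not_forall.1 (mt MvPolynomial.funext h)
  refine ⟨(eval c f).natAbs, (Int.castRingHom _).comp (eval c), fun e => hc ?_⟩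
  simpa using Int.eq_zero_of_dvd_of_natAbs_lt_natAbs ((ZMod.intCast_zmod_eq_zero_iff_dvd _ _).1 e)
    (by rw [Int.natAbs_natCast]; exact Nat.lt_succ_self _)
lemma dv (m : ℕ) (h : m ≠ 0) : ∃ x : MvPolynomial ℕ ℤ, 1 - m * x ∈ I0 := ⟨X m, by simp [I0, h]⟩
lemma ntr [Nontrivial R] : ∃ g : G I, g ≠ 1 :=
  ⟨⟨_, Subgroup.subset_closure ⟨0, 1, by simp, 1, by simp, rfl⟩⟩, fun e => by
    simpa [SpecialLinearGroup.transvection_coe] using congr(($e).1.1 0 1)⟩

end Pool.Agent.H21.RFS
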