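import Mathlib

namespace Pool.Agent.H21.Rev

open Module.End

lemma exists_chi : ∃ χ : ℂ → ℂ, (∀ a b, χ (a * b) = χ a * χ b) ∧ χ 1 = 1 ∧ χ (-1) = -1 ∧
    ∀ a, a ≠ 0 → ∃ N, 0 < N ∧ χ a ^ N = 1 := by
  classical
  obtain ⟨c, hc⟩ := CharacterModule.exists_character_apply_ne_zero_of_ne_zero
    (show Additive.ofMul (-1 : ℂˣ) ≠ 0 from fun e => by
      have : ((-1 : ℂˣ) : ℂ) = (1 : ℂˣ) := congrArg (fun x => ((Additive.toMul x : ℂˣ) : ℂ)) e
      norm_num at this)
  let E (t : AddCircle (1 : ℚ)) : ℂ := Complex.exp ((t.out : ℚ) * (2 * Real.pi * Complex.I))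
  have hE (q : ℚ) : E q = Complex.exp (q * (2 * Real.pi * Complex.I)) := by
    obtain ⟨⟨_, z, rfl⟩, hz⟩ := QuotientAddGroup.mk_out_eq_mul (AddSubgroup.zmultiples (1 : ℚ)) q
    exact Complex.exp_eq_exp_iff_exists_int.2 ⟨z, by rw [hz]; simp; ring⟩
  have hm (s t) : E (s + t) = E s * E t := by
    induction s using QuotientAddGroup.induction_on; induction t using QuotientAddGroup.induction_on
    rw [← QuotientAddGroup.mk_add, hE, hE, hE, ← Complex.exp_add]; congr 1; push_cast; ring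
  have h0 : E 0 = 1 := by simpa using hE 0
  have h1 (t) (h : E t = 1) : t = 0 := by
    induction t using QuotientAddGroup.induction_on with | H q =>
    obtain ⟨z, hz⟩ := Complex.exp_eq_one_iff.1 (hE q ▸ h)
    have := mul_right_cancel₀ Complex.two_pi_I_ne_zero hz
    exact (QuotientAddGroup.eq_zero_iff _).2 ⟨z, by simp; exact_mod_cast this.symm⟩
  let χ (a : ℂ) : ℂ := if h : a = 0 then 0 else E (c (Additive.ofMul (Units.mk0 a h)))
  have mul (a b) : χ (a * b) = χ a * χ b := by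
    by_cases ha : a = 0; · simp [χ, ha]
    by_cases hb : b = 0; · simp [χ, hb]
    simp only [χ, ha, hb, mul_ne_zero ha hb, dif_neg, not_false_eq_true, ← hm, ← map_add, ← ofMul_mul, Units.mk0_mul]
  have one : χ 1 = 1 := by simp [χ, h0]
  refine ⟨χ, mul, one, ?_, fun a ha => ?_⟩
  · refine (mul_self_eq_one_iff.1 (by rw [← mul]; simpa)).resolve_left fun e => hc (h1 _ ?_)
    simp only [χ, neg_eq_zero, one_ne_zero, dif_neg, not_false_eq_true] at e
    convert e; ext; simp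
  · simp only [χ, ha, dif_neg, not_false_eq_true]
    induction c _ using QuotientAddGroup.induction_on with | H q =>
    refine ⟨q.den, q.den_pos, ?_⟩
    rw [hE, ← Complex.exp_nat_mul]
    exact Complex.exp_eq_one_iff.2 ⟨q.num, by
      rw [← mul_assoc]; congr 1; exact_mod_cast (mul_comm _ _).trans (Rat.mul_den_eq_num q)⟩

variable {V W : Type*} [AddCommGroup V] [Module ℂ V] [AddCommGroup W] [Module ℂ W]

lemma ext' [Module.Finite ℂ V] (B : Module.End ℂ V) {f g : V →ₗ[ℂ] W}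
    (h : ∀ a, ∀ v ∈ B.maxGenEigenspace a, f v = g v) : f = g :=
  LinearMap.eqLocus_eq_top.1 (top_le_iff.1 (B.iSup_maxGenEigenspace_eq_top ▸ iSup_le h))

lemma exists_kap [Module.Finite ℂ V] (B : Module.End ℂ V) (χ : ℂ → ℂ) :
    ∃ κ : Module.End ℂ V, ∀ a, ∀ v ∈ B.maxGenEigenspace a, κ v = χ a • v := by
  classical
  have h := DirectSum.isInternal_submodule_of_iSupIndep_of_iSup_eq_top B.independent_maxGenEigenspace
    B.iSup_maxGenEigenspace_eq_top
  refine ⟨DirectSum.toModule ℂ ℂ V (fun a => χ a • (B.maxGenEigenspace a).subtype) ∘ₗ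
    (LinearEquiv.ofBijective (DirectSum.coeLinearMap _) h).symm.toLinearMap, fun a v hv => ?_⟩
  have : (LinearEquiv.ofBijective (DirectSum.coeLinearMap _) h).symm v = DirectSum.lof ℂ ℂ _ a ⟨v, hv⟩ := by
    rw [LinearEquiv.symm_apply_eq]; simp [DirectSum.lof_eq_of]
  simp [this]

lemma nat {B : Module.End ℂ V} {B' : Module.End ℂ W} {f : V →ₗ[ℂ] W} {e : ℂ} (h : ∀ v, B' (f v) = e • f (B v))
    {a : ℂ} {v : V} (hv : v ∈ B.maxGenEigenspace a) : f v ∈ B'.maxGenEigenspace (e * a) := by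
  obtain ⟨k, hk⟩ := (mem_maxGenEigenspace _ _ _).1 hv
  have (k : ℕ) (v) : ((B' - (e * a) • 1) ^ k) (f v) = e ^ k • f (((B - a • 1) ^ k) v) := by
    induction k with
    | zero => simp
    | succ k ih => simp [pow_succ', ih, h, smul_sub, smul_smul, mul_comm, mul_left_comm, mul_assoc]
  exact (mem_maxGenEigenspace _ _ _).2 ⟨k, by rw [this, hk]; simp⟩

lemma mul_mem {R : Type*} [CommRing R] [Algebra ℂ R] (B : R →ₐ[ℂ] R) {a b : ℂ} {u v : R}
    (hu : u ∈ Module.End.maxGenEigenspace B.toLinearMap a) (hv : v ∈ Module.End.maxGenEigenspace B.toLinearMap b) :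
    u * v ∈ Module.End.maxGenEigenspace B.toLinearMap (a * b) := by
  obtain ⟨i, hi⟩ := (mem_maxGenEigenspace _ _ _).1 hu
  obtain ⟨j, hj⟩ := (mem_maxGenEigenspace _ _ _).1 hv
  clear hu hv
  induction i generalizing u v j with
  | zero => simp at hi; simp [hi]
  | succ i ih =>
    induction j generalizing v with
    | zero => simp at hj; simp [hj]
    | succ j ih2 =>
      rw [pow_succ, Module.End.mul_apply] at hi hj
      have hj' : ((B.toLinearMap - b • 1 : Module.End ℂ R) ^ (j + 1)) v = 0 := by rwa [pow_succ, Module.End.mul_apply]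
      have hj2 : ((B.toLinearMap - b • 1 : Module.End ℂ R) ^ (j + 1)) ((B.toLinearMap - b • 1 : Module.End ℂ R) v) = 0 := by
        rw [pow_succ', Module.End.mul_apply, hj, map_zero]
      obtain ⟨k, hk⟩ := (mem_maxGenEigenspace _ _ _).1 (Submodule.add_mem _ (Submodule.add_mem _ (ih hi _ hj2)
        (Submodule.smul_mem _ b (ih hi _ hj'))) (Submodule.smul_mem _ a (ih2 hj)))
      refine (mem_maxGenEigenspace _ _ _).2 ⟨k + 1, ?_⟩
      rw [pow_succ, Module.End.mul_apply, ← hk]; congr 1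
      simp [Algebra.smul_def]; ring

lemma exists_alg {R : Type*} [CommRing R] [Algebra ℂ R] [Module.Finite ℂ R] (B : R →ₐ[ℂ] R) {χ : ℂ → ℂ}
    (hm : ∀ a b, χ (a * b) = χ a * χ b) (h1 : χ 1 = 1) :
    ∃ κ : R →ₐ[ℂ] R, ∀ a, ∀ v ∈ Module.End.maxGenEigenspace B.toLinearMap a, κ v = χ a • v := by
  obtain ⟨κ, h⟩ := exists_kap B.toLinearMap χ
  refine ⟨AlgHom.ofLinearMap κ ?_ fun u v => ?_, h⟩
  · rw [h 1 1 ((mem_maxGenEigenspace _ _ _).2 ⟨1, by simp⟩), h1, one_smul]
  · have : (LinearMap.mul ℂ R).compr₂ κ = (LinearMap.mul ℂ R).compl₁₂ κ κ :=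
      ext' B.toLinearMap fun a u hu => ext' B.toLinearMap fun b v hv => by
        simp [h _ _ hu, h _ _ hv, h _ _ (mul_mem B hu hv), hm, smul_smul, mul_comm]
    exact congr($this u v)

end Pool.Agent.H21.Rev
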