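import Pool.Agent.H21.Rev1

namespace Pool.Agent.H21.Rev

open Module.End

variable {O : Type*} [CommRing O] [Algebra ℂ O] {n : ℕ} {x : Fin n → O} {m : Ideal O}

lemma gen (hm : m = .span (.range x)) (hC : ∀ g, ∃ c, g - algebraMap ℂ O c ∈ m) (k : ℕ) (g : O) :
    ∃ p ∈ Algebra.adjoin ℂ (Set.range x), g - p ∈ m ^ k := by
  induction k generalizing g with
  | zero => exact ⟨0, zero_mem _, by simp⟩
  | succ k ih =>
    obtain ⟨c, hc⟩ := hC g
    obtain ⟨a, ha⟩ := Ideal.mem_span_range_iff_exists_fun.1 (hm ▸ hc)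
    choose p h1 h2 using fun i => ih (a i)
    refine ⟨algebraMap ℂ O c + ∑ i, p i * x i, add_mem (Subalgebra.algebraMap_mem _ _) (sum_mem fun i _ =>
      Subalgebra.mul_mem _ (h1 i) (Algebra.subset_adjoin ⟨i, rfl⟩)), ?_⟩
    rw [← sub_sub, ← ha, ← Finset.sum_sub_distrib, pow_succ]
    exact Ideal.sum_mem _ fun i _ => sub_mul (a i) _ _ ▸ Ideal.mul_mem_mul (h2 i) (hm ▸ Ideal.subset_span ⟨i, rfl⟩)

lemma pres (hm : m = .span (.range x)) {φ : O →ₐ[ℂ] O} (h : ∀ i, φ (x i) ∈ m) (k : ℕ) : m ^ k ≤ (m ^ k).comap φ := by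
  rw [← Ideal.map_le_iff_le_comap, Ideal.map_pow]
  refine Ideal.pow_right_mono ?_ k
  rw [Ideal.map_le_iff_le_comap]; nth_rw 1 [hm]
  exact Ideal.span_le.2 (Set.range_subset_iff.2 h)

lemma fin (hm : m = .span (.range x)) (hC : ∀ g, ∃ c, g - algebraMap ℂ O c ∈ m) (k : ℕ) :
    Module.Finite ℂ (O ⧸ m ^ k) := by
  have := Algebra.finite_adjoin_of_finite_of_isIntegral (R := ℂ)
    (Set.finite_range (Ideal.Quotient.mkₐ ℂ (m ^ k) ∘ x)) (by
      rintro _ ⟨i, rfl⟩
      have : (Ideal.Quotient.mkₐ ℂ (m ^ k) ∘ x) i ^ k = 0 := by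
        simpa [← map_pow, Ideal.Quotient.eq_zero_iff_mem] using Ideal.pow_mem_pow (hm ▸ Ideal.subset_span ⟨i, rfl⟩) k
      exact .of_pow k.succ_pos (by rw [pow_succ, this, zero_mul]; exact isIntegral_zero))
  refine .of_surjective (Algebra.adjoin ℂ (Set.range (Ideal.Quotient.mkₐ ℂ (m ^ k) ∘ x))).val.toLinearMap fun v => ?_
  obtain ⟨g, rfl⟩ := Ideal.Quotient.mk_surjective v
  obtain ⟨p, h1, h2⟩ := gen hm hC k g
  exact ⟨⟨Ideal.Quotient.mkₐ ℂ _ p, by rw [Set.range_comp, ← AlgHom.map_adjoin]; exact ⟨p, h1, rfl⟩⟩,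
    (Ideal.Quotient.eq.2 h2).symm⟩

lemma unip (hm : m = .span (.range x)) (hC : ∀ g, ∃ c, g - algebraMap ℂ O c ∈ m) {φ : O →ₐ[ℂ] O}
    (h : ∀ i, φ (x i) - x i ∈ m ^ 2) (j : ℕ) : ∀ g ∈ m ^ j, φ g - g ∈ m ^ (j + 1) := by
  have hx (i) : x i ∈ m := hm ▸ Ideal.subset_span ⟨i, rfl⟩
  have hp := pres hm (φ := φ) fun i => by simpa using add_mem (Ideal.pow_le_self two_ne_zero (h i)) (hx i)
  have h0 (g) : φ g - g ∈ m := by
    obtain ⟨c, hc⟩ := hC g
    have := Ideal.mem_comap.1 (hp 1 (pow_one m ▸ hc : _ ∈ m ^ 1))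
    rw [pow_one] at this
    simpa using sub_mem this hc
  have h1 : ∀ g ∈ m, φ g - g ∈ m ^ 2 := fun g hg => by
    obtain ⟨a, rfl⟩ := Ideal.mem_span_range_iff_exists_fun.1 (hm ▸ hg)
    rw [map_sum, ← Finset.sum_sub_distrib]
    refine Ideal.sum_mem _ fun i _ => ?_
    rw [show φ (a i * x i) - a i * x i = φ (a i) * (φ (x i) - x i) + (φ (a i) - a i) * x i by rw [map_mul]; ring]
    exact add_mem (Ideal.mul_mem_left _ _ (h i)) (sq m ▸ Ideal.mul_mem_mul (h0 _) (hx i))
  induction j with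
  | zero => simpa using fun g => h0 g
  | succ j ih =>
    intro g hg
    rw [pow_succ] at hg
    refine Submodule.mul_induction_on hg (fun u hu v hv => ?_) fun u v hu hv => ?_
    · rw [show φ (u * v) - u * v = φ u * (φ v - v) + (φ u - u) * v by rw [map_mul]; ring]
      exact add_mem (pow_add m j 2 ▸ Ideal.mul_mem_mul (hp j hu) (h1 v hv)) (pow_succ m _ ▸ Ideal.mul_mem_mul (ih u hu) hv)
    · rw [map_add, add_sub_add_comm]; exact add_mem hu hv

theorem main (hm : m = .span (.range x)) [IsAdicComplete m O] (hC : ∀ g, ∃ c, g - algebraMap ℂ O c ∈ m)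
    {A A' B B' : O →ₐ[ℂ] O} (hA : ∀ i, A (x i) ∈ m) (hA' : ∀ i, A' (x i) ∈ m) (hB : ∀ i, B (x i) ∈ m)
    (hB' : ∀ i, B' (x i) ∈ m) (e1 : ∀ g, A (A' g) = g) (e2 : ∀ g, A' (A g) = g) (e3 : ∀ g, B' (B g) = g)
    (e4 : ∀ g, A (B (A g)) = B g) : ∃ K : Fin n → O, (∀ i, K i ∈ m) ∧ ∀ Φ : O →ₐ[ℂ] O, (∀ i, Φ (x i) = K i) →
      (∃ N, 1 ≤ N ∧ ∀ g, Φ^[N] g = g) ∧ ∀ g, A (Φ (A g)) = Φ g := by
  classical
  obtain ⟨χ, c1, c2, c3, c4⟩ := exists_chi
  have := fin hm hC
  have hx (i) : x i ∈ m := hm ▸ Ideal.subset_span ⟨i, rfl⟩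
  let q (k) := Ideal.Quotient.mk (m ^ k)
  let Q (k) {φ : O →ₐ[ℂ] O} (h : ∀ i, φ (x i) ∈ m) := Ideal.quotientMapₐ (m ^ k) φ (pres hm h k)
  have hQ (k φ h g) : Q k (φ := φ) h (q k g) = q k (φ g) := rfl
  have sm {k} {g g' : O} : g ≡ g' [SMOD (m ^ k • ⊤ : Submodule O O)] ↔ q k g = q k g' := by
    rw [SModEq.sub_mem, Ideal.Quotient.eq, smul_eq_mul, Ideal.mul_top]
  have haus {g g' : O} (h : ∀ k, q k g = q k g') : g = g' := (IsHausdorff.eq_iff_smodEq (I := m)).2 fun k => sm.2 (h k)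
  choose κ hκ using fun k => exists_alg (Q k hB) c1 c2
  have ind {k} {P : O ⧸ m ^ k → Prop} (h : ∀ g, P (q k g)) (v) : P v := by
    obtain ⟨g, rfl⟩ := Ideal.Quotient.mk_surjective v; exact h g
  have cmp {k l} (h : k ≤ l) (v) : κ k (Ideal.Quotient.factorₐ ℂ (Ideal.pow_le_pow_right h) v) =
      Ideal.Quotient.factorₐ ℂ (Ideal.pow_le_pow_right h) (κ l v) := by
    have : (κ k).toLinearMap ∘ₗ (Ideal.Quotient.factorₐ ℂ (Ideal.pow_le_pow_right h)).toLinearMap =
        (Ideal.Quotient.factorₐ ℂ (Ideal.pow_le_pow_right h)).toLinearMap ∘ₗ (κ l).toLinearMap :=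
      ext' (Q l hB).toLinearMap fun a v hv => by
        have := hκ k _ _ (nat (B' := (Q k hB).toLinearMap) (e := 1)
          (f := (Ideal.Quotient.factorₐ ℂ (Ideal.pow_le_pow_right h)).toLinearMap) (ind fun g => by simp; rfl) hv)
        simpa [hκ l a v hv] using this
    exact congr($this v)
  choose r hr using fun k i => Ideal.Quotient.mk_surjective (κ k (q k (x i)))
  choose K hK using fun i => IsPrecomplete.prec (I := m) inferInstance (f := fun k => r k i) fun {k l} h => sm.2 (by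
    have := cmp h (q l (x i)); rw [← hr l i] at this; exact (hr k i).trans this)
  have hK' (k i) : q k (K i) = κ k (q k (x i)) := (sm.1 (hK i k)).symm.trans (hr k i)
  have Km (i) : K i ∈ m := by
    have := hK' 1 i
    rw [show q 1 (x i) = 0 from Ideal.Quotient.eq_zero_iff_mem.2 (by simpa using hx i), map_zero] at this
    simpa using Ideal.Quotient.eq_zero_iff_mem.1 this
  refine ⟨K, Km, fun Φ hΦ => ?_⟩
  have hq (k g) : q k (Φ g) = κ k (q k g) := by
    obtain ⟨p, h1, h2⟩ := gen hm hC k g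
    have a : q k (Φ g) = q k (Φ p) := Ideal.Quotient.eq.2 (map_sub Φ g p ▸ pres hm (fun i => hΦ i ▸ Km i) k h2)
    rw [a, Ideal.Quotient.eq.2 h2]
    exact (AlgHom.eqOn_adjoin_iff (φ := (Ideal.Quotient.mkₐ ℂ _).comp Φ) (ψ := (κ k).comp (Ideal.Quotient.mkₐ ℂ _))).2
      (by rintro _ ⟨i, rfl⟩; simpa [hΦ] using hK' k i) h1
  have hi (k N g) : q k (Φ^[N] g) = (κ k)^[N] (q k g) := by
    induction N generalizing g with
    | zero => rfl
    | succ N ih => rw [Function.iterate_succ_apply, ih, hq]; rfl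
  have he (k N a v) (hv : v ∈ maxGenEigenspace (Q k hB).toLinearMap a) : (κ k)^[N] v = χ a ^ N • v := by
    induction N with
    | zero => simp
    | succ N ih => rw [Function.iterate_succ_apply', ih, map_smul, hκ k a v hv, smul_smul, pow_succ]
  refine ⟨?_, fun g => haus fun k => ?_⟩
  · have hf : {a | maxGenEigenspace (Q 2 hB).toLinearMap a ≠ ⊥}.Finite :=
      WellFoundedGT.finite_ne_bot_of_iSupIndep (independent_maxGenEigenspace _)
    have h0 : maxGenEigenspace (Q 2 hB).toLinearMap 0 = ⊥ := eq_bot_iff.2 fun v hv => by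
      obtain ⟨j, hj⟩ := (mem_maxGenEigenspace _ _ _).1 hv
      have inj : Function.Injective (Q 2 hB).toLinearMap :=
        Function.LeftInverse.injective (g := Q 2 hB') (ind fun g => congrArg (q 2) (e3 g))
      rw [zero_smul, sub_zero, Module.End.pow_apply] at hj
      exact inj.iterate j (hj.trans (iterate_map_zero _ j).symm)
    choose! N N0 hN using c4
    have key (k N) (h : ∀ a v, v ∈ maxGenEigenspace (Q k hB).toLinearMap a → χ a ^ N • v = v) (v) : (κ k)^[N] v = v := by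
      have : (κ k ^ N).toLinearMap = LinearMap.id := ext' (Q k hB).toLinearMap fun a v hv => by
        simpa [AlgHom.coe_pow, he k N a v hv] using h a v hv
      simpa [AlgHom.coe_pow] using congr($this v)
    have ne (a) (ha : a ∈ hf.toFinset) : a ≠ 0 := fun e => by simp [e, h0] at ha
    refine ⟨∏ a ∈ hf.toFinset, N a, Finset.prod_pos fun a ha => N0 a (ne a ha), fun g => haus fun k => ?_⟩
    generalize hM : ∏ a ∈ hf.toFinset, N a = M
    have h2 := key 2 M fun a v hv => by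
      by_cases ha : a ∈ hf.toFinset
      · obtain ⟨c, hc⟩ := hM ▸ Finset.dvd_prod_of_mem N ha
        rw [hc, pow_mul, hN a (ne a ha), one_pow, one_smul]
      · simp at ha; simp [ha] at hv; simp [hv]
    have h3 := unip hm hC (φ := Φ ^ M) fun i => Ideal.Quotient.eq.1 (by rw [AlgHom.coe_pow]; exact (hi 2 M _).trans (h2 _))
    have h4 (j g) : (fun g => Φ^[M] g - g)^[j] g ∈ m ^ j := by
      induction j with
      | zero => simp
      | succ j ih => rw [Function.iterate_succ_apply']; simpa [AlgHom.coe_pow] using h3 j _ ih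
    rw [hi, key k M fun a => ind fun g hv => ?_]
    have h5 (j) : q k ((fun g => Φ^[M] g - g)^[j] g) = (χ a ^ M - 1) ^ j • q k g := by
      induction j with
      | zero => simp
      | succ j ih =>
        rw [Function.iterate_succ_apply', map_sub, hi, ih, he k M a _ (Submodule.smul_mem _ _ hv), smul_smul, ← sub_smul]
        congr 1; ring
    rcases smul_eq_zero.1 ((h5 k).symm.trans (Ideal.Quotient.eq_zero_iff_mem.2 (h4 k g))) with h | h
    · rw [sub_eq_zero.1 (eq_zero_of_pow_eq_zero h), one_smul]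
    · simp [h]
  · have b1 (g) : B (A g) = A' (B g) := by rw [← e4 g, e2]
    have b2 (g) : B (A' g) = A (B g) := by rw [← e4 (A' g), e1]
    have : (κ k).toLinearMap ∘ₗ (Q k hA).toLinearMap = (Q k hA').toLinearMap ∘ₗ (κ k).toLinearMap :=
      ext' (Q k hB).toLinearMap fun a v hv => by
        have p := hκ k _ _ (nat (B' := (Q k hB).toLinearMap) (e := 1) (f := (Q k hA).toLinearMap + (Q k hA').toLinearMap)
          (ind fun g => by simp [hQ, b1, b2, add_comm]) hv)
        have p' := hκ k _ _ (nat (B' := (Q k hB).toLinearMap) (e := -1) (f := (Q k hA).toLinearMap - (Q k hA').toLinearMap)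
          (ind fun g => by simp [hQ, b1, b2]) hv)
        rw [c1, c3] at p'
        simp [hκ k a v hv] at p p' ⊢
        refine smul_right_injective _ (two_ne_zero' ℂ) ?_
        simp only [two_smul, smul_sub] at p' ⊢
        linear_combination p + p'
    have := congr($this (q k g))
    simp only [LinearMap.comp_apply, AlgHom.toLinearMap_apply, hQ, ← hq] at this
    exact (hQ k A hA _).symm.trans (by rw [this, hQ k A hA, e1])

end Pool.Agent.H21.Rev
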