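import Mathlib
import Pool.Agent.H21.AffDefs

namespace Pool.Agent.H21.Wa

open Aff SemidirectProduct Multiplicative

abbrev W (A : Type) [AddCommGroup A] := Multiplicative (A →₀ ℤ) ⋊[shift A ℤ] Multiplicative A

variable {A P Q C : Type} [AddCommGroup A] [AddCommGroup C] [AddAction A P] [AddAction C Q]

def ac (τ : P → Q → C) (g : W A) (x : P × Q) : P × Q := (g.right.toAdd +ᵥ x.1,
  (g.left.toAdd.sum fun v m => m • τ (-v +ᵥ (g.right.toAdd +ᵥ x.1)) x.2) +ᵥ x.2)

noncomputable def ρ (τ : P → Q → C) (h : ∀ p q (c : C), τ p (c +ᵥ q) = τ p q) :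
    W A →* Equiv.Perm (P × Q) :=
  MonoidHom.toHomPerm (MonoidHom.mk (OneHom.mk (ac τ : W A → Function.End (P × Q))
    (funext fun x => by simp [ac]; rfl)) fun g k => funext fun x => by
      change ac τ _ _ = ac τ _ (ac τ _ _)
      simp [ac, h, Finsupp.sum_add_index', add_smul, shift, shift1, Finsupp.domCongr,
        Finsupp.sum_equivMapDomain, vadd_vadd, add_assoc, -toAdd_vadd])

lemma ρ_app (τ : P → Q → C) (h) (g : W A) (x) : ρ τ h g x = ac τ g x := rfl

noncomputable def a (A : Type) [AddCommGroup A] : W A := inl (ofAdd (Finsupp.single 0 1))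

lemma conj_a (v : A) : inr (ofAdd v) * a A * (inr (ofAdd v))⁻¹ = inl (ofAdd (Finsupp.single v 1)) := by
  rw [a, ← map_inv, ← inl_aut]
  simp [shift, shift1, Finsupp.domCongr]

noncomputable def t {n} (i : Fin n) : W (Fin n → ℤ) := inr (ofAdd (Pi.single i 1))

lemma prod_t {n} (v : Fin n → ℤ) : (List.ofFn fun i => t i ^ v i).prod = inr (ofAdd v) := by
  simp only [t, ← map_zpow]
  rw [← Function.comp_def inr, ← List.map_ofFn, ← map_list_prod, List.prod_ofFn]
  congr 1
  ext j
  simp [Pi.single_apply]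

lemma top {n} : Subgroup.closure (insert (a _) (Set.range t)) = (⊤ : Subgroup (W (Fin n → ℤ))) := by
  refine eq_top_iff.2 fun g _ => ?_
  generalize hK : Subgroup.closure (insert (a (Fin n → ℤ)) (Set.range t)) = K
  have h1 : ∀ v : Fin n → ℤ, (inr (ofAdd v) : W _) ∈ K := fun v => prod_t v ▸ K.list_prod_mem fun x hx => by
    obtain ⟨i, rfl⟩ := List.mem_ofFn.1 hx
    exact K.zpow_mem (hK ▸ Subgroup.subset_closure (by simp)) _
  have h2 : ∀ f, (inl (ofAdd f) : W (Fin n → ℤ)) ∈ K := fun f => by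
    induction f using Finsupp.induction_linear with
    | zero => simpa using K.one_mem
    | add f g h h' => simpa using K.mul_mem h h'
    | single v m =>
      have := K.zpow_mem (conj_a v ▸ K.mul_mem (K.mul_mem (h1 v)
        (hK ▸ Subgroup.subset_closure (by simp))) (K.inv_mem (h1 v))) m
      rwa [← map_zpow, ← ofAdd_zsmul, Finsupp.smul_single, smul_eq_mul, mul_one] at this
  exact inl_left_mul_inr_right g ▸ K.mul_mem (h2 _) (h1 _)

end Pool.Agent.H21.Wa
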