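import Mathlib
import Pool.Agent.H21.PLT
import Pool.Agent.H21.WrAct

namespace Pool.Agent.H21.Rot

open PLT Wa Set

instance : Fact ((0 : ℝ) < 4) := ⟨by norm_num⟩

abbrev C := AddCircle (4 : ℝ)
abbrev E := ℝ × ℝ

noncomputable def Γ (c : C) : E := (1 - ‖c‖, 1 - ‖c - (1 : ℝ)‖)

def N (p : E) : ℝ := |p.1| + |p.2|

lemma nf {z : ℝ} (h : |z| ≤ 4) : ‖(z : C)‖ = min |z| (4 - |z|) := by
  have k : ∀ z : ℝ, |z| ≤ 2 → ‖(z : C)‖ = |z| := fun z h =>
    (AddCircle.norm_coe_eq_abs_iff _ (by norm_num)).2 (by norm_num [h])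
  rcases le_total |z| 2 with h1 | h1
  · rw [k z h1]; grind
  · rcases le_total z 0 with h2 | h2
    · rw [← AddCircle.coe_add_period, k] <;> grind
    · rw [← sub_add_cancel z 4, AddCircle.coe_add_period, k] <;> grind

lemma hom {r s : ℝ} (h : 0 ≤ r) (h1 : |s| ≤ 4 * r) (h2 : |s - r| ≤ 4 * r) : r • Γ ↑(s / r) =
    (r - min |s| (4 * r - |s|), r - min |s - r| (4 * r - |s - r|)) := by
  rcases h.eq_or_lt with rfl | h
  · obtain rfl : s = 0 := by simpa using h1
    simp [Prod.ext_iff]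
  · have k : ∀ s, |s| ≤ 4 * r → r * (1 - ‖((s / r : ℝ) : C)‖) = r - min |s| (4 * r - |s|) := fun s h1 => by
      rw [nf (by rwa [abs_div, abs_of_pos h, div_le_iff₀ h]), abs_div, abs_of_pos h, mul_sub,
        mul_min_of_nonneg _ _ h.le]
      field_simp
    rw [Γ, ← AddCircle.coe_sub, show s / r - 1 = (s - r) / r by field_simp]
    exact Prod.ext (k _ h1) (k _ h2)

lemma Γ_eq (c : C) : ∃ z : ℝ, 0 ≤ z ∧ z < 4 ∧ c = z ∧
    Γ c = (1 - min |z| (4 - |z|), 1 - min |z - 1| (4 - |z - 1|)) := by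
  obtain ⟨z, ⟨h1, h2⟩, rfl⟩ := AddCircle.eq_coe_Ico c
  exact ⟨z, h1, h2, rfl, by simpa using hom (s := z) zero_le_one (by grind) (by grind)⟩

lemma N_Γ (c : C) : N (Γ c) = 1 := by
  obtain ⟨z, h1, h2, -, h⟩ := Γ_eq c
  rw [h, N]
  grind

lemma Γ_inj {c d : C} (h : Γ c = Γ d) : c = d := by
  obtain ⟨z, h1, h2, rfl, h3⟩ := Γ_eq c
  obtain ⟨w, h4, h5, rfl, h6⟩ := Γ_eq d
  rw [h3, h6, Prod.mk.injEq] at h
  congr 1
  grind

lemma N_smul {r : ℝ} (h : 0 ≤ r) (c) : N (r • Γ c) = r := by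
  simp [N, abs_of_nonneg h, ← mul_add, show |_| + |_| = _ from N_Γ c]

lemma N_nn (p) : 0 ≤ N p := by unfold N; positivity

lemma par1 {p : E} (h : 0 ≤ p.2) : p = N p • Γ ↑((N p - p.1) / N p) := by
  rw [hom (N_nn p)] <;> simp only [N, Prod.ext_iff] <;> grind

lemma par2 {p : E} (h : p.2 ≤ 0) : p = N p • Γ ↑((p.1 - N p) / N p) := by
  rw [hom (N_nn p)] <;> simp only [N, Prod.ext_iff] <;> grind

lemma par (p : E) : ∃ c, p = N p • Γ c := (le_total 0 p.2).elim (⟨_, par1 ·⟩) (⟨_, par2 ·⟩)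

noncomputable def rot (φ : ℝ) (p : E) : E := N p • Γ ((par p).choose + φ)

lemma rot_eq {r : ℝ} (h : 0 ≤ r) (c φ) : rot φ (r • Γ c) = r • Γ (c + φ) := by
  have := (par (r • Γ c)).choose_spec
  rw [rot]
  generalize (par (r • Γ c)).choose = d at this
  rw [N_smul h] at this ⊢
  rcases h.eq_or_lt with rfl | h
  · simp
  · rw [Γ_inj (smul_right_injective _ h.ne' this)]

lemma rot_Γ (c φ) : rot φ (Γ c) = Γ (c + φ) := by simpa using rot_eq zero_le_one c φ

lemma N_rot (φ p) : N (rot φ p) = N p := N_smul (N_nn p) _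

noncomputable def act : AddAction ℝ E where
  vadd := rot
  zero_vadd p := (by simpa [rot] using (par p).choose_spec.symm : rot 0 p = p)
  add_vadd a b p := (by rw [rot.eq_1 b, rot_eq (N_nn p), add_assoc, add_comm a]; rfl :
    rot (a + b) p = rot a (rot b p))

variable {X : Type} [NormedAddCommGroup X] [NormedSpace ℝ X]

lemma TN {f : X → E} {S} (h : T f S) : T (fun x => N (f x)) S := h.fst.abs.add h.snd.abs

lemma Trot {f : X → E} {g : X → ℝ} {S} (hf : T f S) (hg : T g S) (h : ∀ x, |g x| ≤ N (f x)) :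
    T (fun x => rot (g x / N (f x)) (f x)) S := by
  have k : ∀ (s : E → ℝ) (U : Set (E × ℝ)), T (fun x => s x.1) U →
      (∀ x ∈ U, x.1 = N x.1 • Γ ↑(s x.1 / N x.1) ∧ |s x.1| ≤ 2 * N x.1 ∧ |x.2| ≤ N x.1) →
      T (fun x => rot (x.2 / N x.1) x.1) U := fun s U h1 h2 => by
    have a := h1.add T.id.snd
    have b := TN (T.id (S := U)).fst
    refine ((b.sub (a.abs.min ((b.smul 4).sub a.abs))).pair (b.sub ((a.sub b).abs.min
      ((b.smul 4).sub (a.sub b).abs)))).congr subset_rfl fun x hx => ?_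
    obtain ⟨h3, h4, h5⟩ := h2 x hx
    nth_rw 2 [h3]
    rw [rot_eq (N_nn _), ← AddCircle.coe_add, ← add_div, hom (N_nn _)] <;> grind [smul_eq_mul]
  refine (hf.pair hg).comp (S' := {x | |x.2| ≤ N x.1}) (g := fun x => rot (x.2 / N x.1) x.1)
    (.cut ((LinearMap.snd ℝ ℝ ℝ).comp (.fst ℝ E ℝ)).toAffineMap
      (k (fun p => p.1 - N p) _ (T.id.fst.fst.sub (TN T.id.fst)) fun x hx => ⟨par2 hx.2, ?_, hx.1⟩)
      (k (fun p => N p - p.1) _ ((TN T.id.fst).sub T.id.fst.fst) fun x hx =>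
        ⟨par1 (by simpa using hx.2), ?_, hx.1⟩)) fun x _ => h x <;> clear hx k <;> simp only [N] <;> grind

lemma Trot' (a : ℝ) : T (rot a) univ := by
  obtain ⟨n, hn⟩ := exists_nat_ge |a|
  induction n generalizing a with
  | zero =>
    exact T.id.congr subset_rfl fun x _ => by
      rw [show a = 0 by simpa using hn]; exact act.zero_vadd x
  | succ n ih =>
    let b := max (-1) (min 1 a)
    have := Trot (T.id (S := univ)) ((TN T.id).smul b) fun x => by
      rw [smul_eq_mul, abs_mul, abs_of_nonneg (N_nn _)]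
      exact mul_le_of_le_one_left (N_nn _) (by grind)
    refine (this.comp (ih (a - b) (by push_cast at hn; grind)) (mapsTo_univ _ _)).congr subset_rfl
      fun x _ => ?_
    rcases (N_nn x).eq_or_lt with h | h
    · simp only [rot.eq_1 _ x, ← h, zero_smul]
      simp [rot, N]
    · rw [smul_eq_mul, mul_div_cancel_right₀ _ h.ne']
      exact (congrArg (rot · x) (sub_add_cancel a b).symm).trans (act.add_vadd _ _ _)

noncomputable def τ (p q : E) : ℝ := max (-N q) (min (N q) p.1) / N q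

variable {A : Type} [AddCommGroup A] (θ : A →+ ℝ)

noncomputable def R : W A →* Equiv.Perm (E × E) :=
  @ρ A E E ℝ _ _ (@AddAction.compHom _ _ _ _ act _ θ) act τ fun p q c => by
    change τ p (rot c q) = _
    simp [τ, N_rot]

lemma R_app (g : W A) (x) : R θ g x = (rot (θ g.right.toAdd) x.1, rot (g.left.toAdd.sum fun v m =>
    m • τ (rot (θ (-v)) (rot (θ g.right.toAdd) x.1)) x.2) x.2) := rfl

lemma R_inj (hθ : ∀ v (k : ℤ), θ v = k → v = 0) {g} (h : ∀ c d, R θ g (Γ c, Γ d) = (Γ c, Γ d)) :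
    g = 1 := by
  classical
  obtain ⟨f, u⟩ := g
  simp only [R_app, Prod.mk.injEq, rot_Γ, τ, N_Γ] at h
  have z : ∀ x : ℝ, (x : C) = 0 → ∃ k : ℤ, x = (k * 4 : ℤ) := fun x h =>
    ((AddCircle.coe_eq_zero_iff _).1 h).imp fun k h => by simp [← h]
  obtain rfl : u = 1 := by
    obtain ⟨k, e⟩ := z _ (add_eq_left.1 (Γ_inj (h 0 0).1))
    exact hθ _ _ e
  have h1 : ∀ c : C, ∃ k : ℤ, ∑ v ∈ f.toAdd.support, f.toAdd v * (1 - ‖c - θ v‖) = (k * 4 : ℤ) := fun c => by
    refine (z _ (add_eq_left.1 (Γ_inj (h c 0).2))).imp fun k e =>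
      Eq.trans (Finset.sum_congr rfl fun v _ => ?_) e
    have := N_Γ (c - θ v)
    simp only [N, Γ] at this
    simp [Γ, ← sub_eq_add_neg]
    grind
  congr
  ext w
  by_contra hw
  replace hw : ¬ f.toAdd w = 0 := hw
  have : ∀ᶠ δ : ℝ in nhdsWithin 0 (Ioi 0), ∀ v ∈ f.toAdd.support, ‖(θ w + δ : C) - θ v‖ +
      ‖(θ w - δ : C) - θ v‖ - 2 * ‖(θ w : C) - θ v‖ = if v = w then 2 * δ else 0 := by
    refine (Finset.eventually_all _).2 fun v _ => ?_
    obtain ⟨y, h0, h2, h3, -⟩ := Γ_eq (θ w - θ v)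
    have e : v = w ↔ y = 0 ∨ y = 2 := ⟨fun e => .inl ((AddCircle.coe_eq_zero_iff_of_mem_Ico
      ⟨h0, h2⟩).1 (by simp [← h3, e])), fun e => by
        obtain ⟨k, e'⟩ := z (θ w - θ v - y) (by simp [h3])
        rcases e with rfl | rfl
        · exact (sub_eq_zero.1 (hθ _ (k * 4) (by simpa using e'))).symm
        · exact (sub_eq_zero.1 (hθ _ (k * 4 + 2) (by simp at e' ⊢; linarith))).symm⟩
    have e0 : v = w → y = 0 := fun e => (AddCircle.coe_eq_zero_iff_of_mem_Ico ⟨h0, h2⟩).1 (by simp [← h3, e])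
    clear h h1 z hθ hw
    have e2 : y ≠ 2 := by grind
    filter_upwards [Ioo_mem_nhdsGT (show 0 < min (if y = 0 then 1 else y) (min (4 - y) |y - 2|) by
      grind)] with δ ⟨d1, d2⟩
    simp only [lt_min_iff] at d2
    rw [add_sub_right_comm _ (δ : C), sub_right_comm _ (δ : C), h3, ← AddCircle.coe_add, ← AddCircle.coe_sub, nf, nf, nf]
    · by_cases h : v = w
      · grind
      · rcases le_total y 2 with k | k <;> grind
    all_goals grind
  obtain ⟨δ, h2, h3, h4⟩ := (this.and (Ioo_mem_nhdsGT (show 0 < 1 / |(f.toAdd w : ℝ)| by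
    simpa using hw))).exists
  obtain ⟨k1, e1⟩ := h1 (θ w + δ)
  obtain ⟨k2, e2⟩ := h1 (θ w - δ)
  obtain ⟨k3, e3⟩ := h1 (θ w)
  have e4 : (f.toAdd w : ℝ) * (2 * δ) = ((2 * k3 - k1 - k2) * 4 : ℤ) := by
    have := Finset.sum_congr rfl fun v hv => congrArg ((f.toAdd v : ℝ) * ·) (h2 v hv)
    simp only [mul_ite, mul_zero, Finset.sum_ite_eq', Finsupp.mem_support_iff, ne_eq, mul_sub, mul_add,
      Finset.sum_sub_distrib, Finset.sum_add_distrib, mul_one, mul_left_comm _ (2 : ℝ),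
      ← Finset.mul_sum] at this e1 e2 e3
    rw [if_pos hw] at this
    push_cast at e1 e2 e3 ⊢
    linarith
  have hw' : 0 < |(f.toAdd w : ℝ)| := by simpa using hw
  rw [lt_div_iff₀ hw'] at h4
  have e5 : |((2 * k3 - k1 - k2) * 4 : ℤ)| < 2 := by
    rw [← @Int.cast_lt ℝ, Int.cast_abs, ← e4, abs_mul, abs_of_pos (by linarith : 0 < 2 * δ)]
    push_cast
    linarith
  rw [show (2 * k3 - k1 - k2) * 4 = 0 by grind] at e4
  simp [h3.ne', abs_pos.1 hw'] at e4

lemma ex_θ (n : ℕ) : ∃ θ : (Fin n → ℤ) →+ ℝ, ∀ v (k : ℤ), θ v = k → v = 0 := by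
  refine ⟨⟨⟨fun v => ∑ i, v i * liouvilleNumber 2 ^ (i.1 + 1), by simp⟩, by
    simp [add_mul, Finset.sum_add_distrib]⟩, fun v k h => funext fun i => ?_⟩
  have := transcendental_iff.1 (transcendental_liouvilleNumber le_rfl)
    (∑ i : Fin n, Polynomial.monomial (i.1 + 1) (v i) - Polynomial.C k) (by
      simpa [Polynomial.aeval_monomial, sub_eq_zero] using h)
  simpa [Polynomial.coeff_monomial, Fin.val_inj, -eq_intCast] using congrArg (·.coeff (i.1 + 1)) this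

lemma TR {n} (θ : (Fin n → ℤ) →+ ℝ) (g) : T (R θ g) univ := by
  suffices T (R θ g) univ ∧ T (R θ g⁻¹) univ from this.1
  have c : ∀ {a b}, T (R θ a) univ → T (R θ b) univ → T (R θ (a * b)) univ := fun h k => by
    rw [map_mul]; exact k.comp h (mapsTo_univ _ _)
  have hr : ∀ u, T (R θ (.inr u)) univ := fun u =>
    ((T.id.fst.comp (Trot' (θ u.toAdd)) (mapsTo_univ _ _)).pair T.id.snd).congr subset_rfl fun x _ =>
      Prod.ext rfl (by simp [R_app, show ∀ p, rot 0 p = p from act.zero_vadd])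
  have hl : ∀ m : ℤ, |m| ≤ 1 → T (R θ (.inl (.ofAdd (Finsupp.single 0 m)))) univ := fun m hm => by
    refine (T.id.fst.pair (Trot T.id.snd (((TN T.id.snd).neg.max ((TN T.id.snd).min
      T.id.fst.fst)).smul m) fun x => ?_)).congr subset_rfl fun x _ => ?_
    · rw [smul_eq_mul, abs_mul]
      exact (mul_le_of_le_one_left (abs_nonneg _) (by exact_mod_cast hm)).trans (by grind [N_nn x.2])
    · simp [R_app, show ∀ p, rot 0 p = p from act.zero_vadd, τ, mul_div_assoc]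
  induction (top ▸ Subgroup.mem_top g :) using Subgroup.closure_induction with
  | mem x hx =>
    rcases hx with rfl | ⟨i, rfl⟩
    · exact ⟨hl 1 le_rfl, by simpa [a] using hl (-1) le_rfl⟩
    · exact ⟨hr _, by simpa [t] using hr (.ofAdd (-Pi.single i 1))⟩
  | one => rw [inv_one, map_one]; exact ⟨T.id, T.id⟩
  | mul x y _ _ h k => exact ⟨c h.1 k.1, mul_inv_rev x y ▸ c k.2 h.2⟩
  | inv x _ h => simpa using h.symm

abbrev V := Fin 4 → ℝ

noncomputable def J : V ≃ E × E where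
  toFun x := (((x 0 + x 1) / 2, (x 0 - x 1) / 2), ((x 2 + x 3) / 2, (x 2 - x 3) / 2))
  invFun z := ![z.1.1 + z.1.2, z.1.1 - z.1.2, z.2.1 + z.2.2, z.2.1 - z.2.2]
  left_inv x := by ext i; fin_cases i <;> simp <;> ring
  right_inv z := by simp

lemma J_lin : IsLinearMap ℝ J :=
  ⟨fun x y => by simp [J]; (refine ⟨⟨?_, ?_⟩, ?_, ?_⟩ <;> ring),
    fun c x => by simp [J]; (refine ⟨⟨?_, ?_⟩, ?_, ?_⟩ <;> ring)⟩

lemma J_norm (x : V) : max (N (J x).1) (N (J x).2) = ‖x‖ := by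
  refine eq_of_forall_ge_iff fun r => ?_
  rcases lt_or_ge r 0 with h | h
  · grind [N_nn (J x).1, norm_nonneg x]
  · simp only [pi_norm_le_iff_of_nonneg h, Fin.forall_fin_succ, J, N, Real.norm_eq_abs]
    simp
    grind

theorem main (n : ℕ) (e : V ≃ V) (h1 : T e univ) (h2 : T e.symm univ) (U : Set V) (p : ℝ → Prop)
    (hp : p 1) (hU : ∀ x, x ∈ U ↔ p ‖e x‖) : ∃ ψ : W (Fin n → ℤ) →* Equiv.Perm U,
      Function.Injective ψ ∧ ∀ g, Continuous (ψ g) ∧ ∃ f : V → V, T f univ ∧ ∀ x, (ψ g x).1 = f x := by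
  obtain ⟨θ, hθ⟩ := ex_θ n
  let j := e.trans J
  have k : ∀ g x, (j.symm.permCongr (R θ g)) x ∈ U ↔ x ∈ U := fun g x => by
    simp [hU, ← J_norm, j, R_app, N_rot]
  let L := LinearEquiv.ofBijective (J_lin.mk' J) J.bijective
  have hT : ∀ g, T (j.symm.permCongr (R θ g)) univ := fun g =>
    ((((h1.lin L.toLinearMap).comp (TR θ g) (mapsTo_univ _ _)).lin L.symm.toLinearMap).comp h2
      (mapsTo_univ _ _)).congr subset_rfl fun x _ => congrArg e.symm (J.injective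
        ((J.apply_symm_apply _).trans (L.apply_symm_apply _).symm))
  refine ⟨MonoidHom.mk' (fun g => (j.symm.permCongr (R θ g)).subtypePerm (k g)) fun a b => by
    ext; simp, (injective_iff_map_eq_one _).2 fun g h => R_inj θ hθ fun c d => ?_, fun g =>
    ⟨((continuousOn_univ.1 ((hT g).cont isClosed_univ)).comp continuous_subtype_val).subtype_mk _,
      _, hT g, fun _ => rfl⟩⟩
  have : j.symm.permCongr (R θ g) (j.symm (Γ c, Γ d)) = j.symm (Γ c, Γ d) :=
    congrArg (fun a : Equiv.Perm U => (a ⟨j.symm (Γ c, Γ d), by simpa [hU, ← J_norm, j, N_Γ]⟩).1) h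
  simpa using this

end Pool.Agent.H21.Rot
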