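import Mathlib

namespace Pool.Agent.H21.SMP

open Submonoid

variable {P Q : Type} [Monoid P] [Monoid Q]

inductive Val (B : Set P) : List P → Prop
  | nil : Val B []
  | base {x L} : (x = 1 ∨ x ∈ B) → Val B L → Val B (x :: L)
  | mul {y z L} : y ∈ L → z ∈ L → Val B L → Val B (y * z :: L)

def Ch (B : Set P) (m : ℕ) (Y : List P) : Prop := ∃ L, Val B L ∧ L.length ≤ m ∧ Y ⊆ L

variable {B B' : Set P} {m m' K : ℕ} {Y Y' : List P}

lemma Val.append {L L' : List P} (h : Val B L) (h' : Val B L') : Val B (L ++ L') := by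
  induction h with
  | nil => exact h'
  | base h _ ih => exact .base h ih
  | mul a b _ ih => exact .mul (List.mem_append_left _ a) (List.mem_append_left _ b) ih

lemma Val.mono {L : List P} (h : Val B L) (s : B ⊆ B') : Val B' L := by
  induction h with
  | nil => exact .nil
  | base h _ ih => exact .base (h.imp_right (s ·)) ih
  | mul a b _ ih => exact .mul a b ih

lemma Val.mem {L : List P} (h : Val B L) : ∀ x ∈ L, x ∈ closure B := by
  induction h with
  | nil => simp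
  | base h _ ih =>
    refine List.forall_mem_cons.2 ⟨?_, ih⟩
    rcases h with rfl | h
    exacts [one_mem _, subset_closure h]
  | mul a b _ ih => exact List.forall_mem_cons.2 ⟨mul_mem (ih _ a) (ih _ b), ih⟩

lemma Val.lift (π : P → Q) (h1 : π 1 = 1) (hm : ∀ x y, π x * π y = π (x * y) ∨ π x * π y = π (y * x))
    {L' : List Q} (h : Val (π '' B) L') : ∃ L, Val B L ∧ L.map π = L' := by
  induction h with
  | nil => exact ⟨[], .nil, rfl⟩
  | base h _ ih =>
    obtain ⟨L, v, rfl⟩ := ih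
    rcases h with rfl | ⟨x, h, rfl⟩
    exacts [⟨1 :: L, .base (.inl rfl) v, by simp [h1]⟩, ⟨x :: L, .base (.inr h) v, rfl⟩]
  | mul a b _ ih =>
    obtain ⟨L, v, rfl⟩ := ih
    obtain ⟨y, a', rfl⟩ := List.mem_map.1 a
    obtain ⟨z, b', rfl⟩ := List.mem_map.1 b
    rcases hm y z with h | h
    exacts [⟨_, .mul a' b' v, by simp [h]⟩, ⟨_, .mul b' a' v, by simp [h]⟩]

lemma Ch.lift (π : P → Q) (h1 : π 1 = 1) (hm : ∀ x y, π x * π y = π (x * y) ∨ π x * π y = π (y * x))
    {y : Q} (h : Ch (π '' B) m [y]) : ∃ x, Ch B m [x] ∧ π x = y := by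
  obtain ⟨L', v, l, s⟩ := h
  obtain ⟨L, v', rfl⟩ := v.lift π h1 hm
  obtain ⟨x, h, e⟩ := List.mem_map.1 (s List.mem_cons_self)
  exact ⟨x, ⟨L, v', by simpa using l, by simpa⟩, e⟩

lemma Ch.app (h : Ch B m Y) (h' : Ch B m' Y') : Ch B (m + m') (Y ++ Y') := by
  obtain ⟨L, a, b, c⟩ := h
  obtain ⟨L', a', b', c'⟩ := h'
  exact ⟨_, a.append a', by simp; omega, List.append_subset.2
    ⟨List.subset_append_of_subset_left _ c, List.subset_append_of_subset_right _ c'⟩⟩

lemma Ch.mono (h : Ch B m Y) (l : m ≤ m') (s : Y' ⊆ Y) : Ch B m' Y' := by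
  obtain ⟨L, a, b, c⟩ := h
  exact ⟨L, a, b.trans l, List.Subset.trans s c⟩

lemma Ch.base {x : P} (h : x = 1 ∨ x ∈ B) : Ch B 1 [x] := ⟨[x], .base h .nil, le_rfl, by simp⟩

lemma Ch.mem {x : P} (h : Ch B m [x]) : x ∈ closure B := by
  obtain ⟨L, a, -, c⟩ := h
  exact a.mem x (c List.mem_cons_self)

lemma Ch.prod (h : Ch B m Y) {l : List P} (s : l ⊆ Y) : Ch B (m + l.length + 1) (l.prod :: Y) := by
  induction l with
  | nil => exact ((Ch.base (.inl rfl)).app h).mono (by simp; omega) (by simp)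
  | cons a l ih =>
    obtain ⟨L, v, b, c⟩ := ih (List.cons_subset.1 s).2
    rw [List.cons_subset] at c s
    exact ⟨_, .mul (c.2 s.1) c.1 v, by simp; omega, List.cons_subset_cons _ c.2⟩

def cube {G : Type} [Group G] [DecidableEq G] : List G → Finset G
  | [] => {1}
  | g :: l => cube l ∪ (cube l).image (· * g)

lemma cube_spec {G : Type} [Group G] [DecidableEq G] (l : List G) : 1 ∈ cube l ∧
    ∀ g ∈ cube l, ∃ w ⊆ l, w.length ≤ l.length ∧ w.prod = g := by
  induction l with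
  | nil => simp [cube]
  | cons a l ih =>
    refine ⟨Finset.mem_union_left _ ih.1, fun g hg => ?_⟩
    rcases Finset.mem_union.1 hg with h | h
    · obtain ⟨w, a, b, c⟩ := ih.2 g h
      exact ⟨w, List.Subset.trans a (by simp), by simp; omega, c⟩
    · obtain ⟨g, h', rfl⟩ := Finset.mem_image.1 h
      obtain ⟨w, a', b, c⟩ := ih.2 g h'
      exact ⟨w ++ [a], by simpa using List.Subset.trans a' (by simp), by simpa, by simp [c]⟩

theorem BS {G : Type} [Group G] [Finite G] (ι : G → P) (hι : ∀ g h, ι (g * h) = ι g * ι h)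
    (hK : ∀ g : G, g⁻¹ = g ^ K) {c lg : ℕ} (hl : Nat.card G < 2 ^ lg) (h1 : Ch B c [ι 1]) :
    ∃ Z : Set G, 1 ∈ Z ∧ (∀ z ∈ Z, ∀ g, Ch B c [ι g] → z * g ∈ Z) ∧
      ∀ z ∈ Z, Ch B ((lg + 1) * (c + (K + 1) * lg + 3)) [ι z] := by
  classical
  have ip : ∀ w : List G, ι w.prod = (ι 1 :: w.map ι).prod := fun w => by
    induction w with
    | nil => simp
    | cons a w ih => simp only [List.prod_cons, List.map_cons] at *; rw [← mul_assoc, ← hι, one_mul, hι, ih,
        ← mul_assoc, ← hι, mul_one]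
  have st : ∀ (l l' : List G) m, l.length ≤ lg → l ⊆ l' → Ch B m (ι 1 :: l'.map ι) →
      ∀ u ∈ cube l, ∀ v ∈ cube l, ∀ g, g = 1 ∨ g ∈ l' →
      Ch B (m + (K + 1) * lg + 3) (ι (u⁻¹ * v * g) :: ι 1 :: l'.map ι) := by
    intro l l' m hl s h u hu v hv g hg
    obtain ⟨a, a1, a2, rfl⟩ := (cube_spec l).2 u hu
    obtain ⟨b, b1, b2, rfl⟩ := (cube_spec l).2 v hv
    have e : a.prod⁻¹ * b.prod * g = ((List.replicate K a).flatten ++ b ++ [g]).prod := by
      simp [hK, List.prod_flatten, mul_assoc]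
    rw [e, ip]
    refine (h.prod fun x hx => ?_).mono ?_ (List.Subset.refl _)
    · simp only [List.mem_cons, List.mem_map, List.mem_append, List.mem_flatten, List.mem_replicate] at hx ⊢
      grind
    · simp; nlinarith
  have : ∀ t ≤ lg, ∃ l : List G, l.length ≤ t ∧ Ch B (c + t * (c + (K + 1) * lg + 3)) (ι 1 :: l.map ι) ∧
      ((cube l).card = 2 ^ t ∨ ∀ u ∈ cube l, ∀ v ∈ cube l, ∀ g, Ch B c [ι g] →
        ∃ u' ∈ cube l, ∃ v' ∈ cube l, u⁻¹ * v * g = u'⁻¹ * v') := fun t => by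
    induction t with
    | zero => exact fun _ => ⟨[], le_rfl, by simpa, .inl rfl⟩
    | succ t ih =>
      intro ht
      obtain ⟨l, l1, l2, l3⟩ := ih (by omega)
      by_cases d : ∀ u ∈ cube l, ∀ v ∈ cube l, ∀ g, Ch B c [ι g] →
        ∃ u' ∈ cube l, ∃ v' ∈ cube l, u⁻¹ * v * g = u'⁻¹ * v'
      · exact ⟨l, by omega, l2.mono (by nlinarith) (List.Subset.refl _), .inr d⟩
      have l3 := l3.resolve_right d
      push Not at d
      obtain ⟨u, hu, v, hv, g, hg, d⟩ := d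
      refine ⟨(u⁻¹ * v * g) :: l, by simpa, (st l (g :: l) _ (by omega) (by simp)
        ((hg.app l2).mono le_rfl (by intro; simp; tauto)) u hu v hv g (by simp)).mono (by nlinarith)
          (by intro; simp; tauto), .inl ?_⟩
      rw [cube, Finset.card_union_of_disjoint, Finset.card_image_of_injective _ (mul_left_injective _),
        l3, pow_succ, mul_two]
      refine Finset.disjoint_left.2 fun x hx h => ?_
      obtain ⟨y, hy, rfl⟩ := Finset.mem_image.1 h
      exact d y hy _ hx (by simp)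
  obtain ⟨l, l1, l2, l3 | l3⟩ := this lg le_rfl
  · have := Fintype.ofFinite G
    have := Finset.card_le_univ (cube l)
    rw [← Nat.card_eq_fintype_card] at this
    omega
  refine ⟨{z | ∃ u ∈ cube l, ∃ v ∈ cube l, z = u⁻¹ * v}, ⟨1, (cube_spec l).1, 1, (cube_spec l).1, by simp⟩,
    ?_, ?_⟩
  · rintro _ ⟨u, hu, v, hv, rfl⟩ g hg
    exact l3 u hu v hv g hg
  · rintro _ ⟨u, hu, v, hv, rfl⟩
    exact (st l l _ l1 (by simp) l2 u hu v hv 1 (.inl rfl)).mono (by nlinarith) (by simp)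

def J (s t : P) : Prop := ∃ x y, s = x * t * y
def Lq (s t : P) : Prop := (∃ u, s = u * t) ∧ ∃ v, t = v * s

lemma J.refl (s : P) : J s s := ⟨1, 1, by simp⟩
lemma J.trans {s t u : P} : J s t → J t u → J s u := by
  rintro ⟨x, y, rfl⟩ ⟨a, b, rfl⟩; exact ⟨x * a, b * y, by simp [mul_assoc]⟩
lemma Jl (a s : P) : J (a * s) s := ⟨a, 1, by simp⟩
lemma Jr (s a : P) : J (s * a) s := ⟨1, a, by simp⟩
lemma Lq.refl (s : P) : Lq s s := ⟨⟨1, by simp⟩, 1, by simp⟩
lemma Lq.trans {s t u : P} : Lq s t → Lq t u → Lq s u := by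
  rintro ⟨⟨a, h⟩, b, h'⟩ ⟨⟨c, k⟩, d, k'⟩
  exact ⟨⟨a * c, by rw [mul_assoc, ← k, ← h]⟩, d * b, by rw [mul_assoc, ← h', ← k']⟩
lemma Lq.symm {s t : P} : Lq s t → Lq t s := And.symm

section
variable (hN : ∀ x : P, x ^ (K + 2) = x)
include hN

lemma idem (x : P) : x ^ (K + 1) * x ^ (K + 1) = x ^ (K + 1) := by
  rw [← pow_add, show K + 1 + (K + 1) = K + 2 + K by ring, pow_add, hN, ← pow_succ']

lemma Jc (u v : P) : J (u * v) (v * u) :=
  ⟨u, (v * u) ^ K * v, by
    conv_lhs => rw [← hN (u * v), pow_succ', mul_assoc, ← mul_pow_mul, pow_succ']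
    simp [mul_assoc]⟩

lemma J.mul {t u v : P} : J t u → J t v → J t (u * v) := by
  rintro ⟨x, y, h⟩ ⟨a, b, h'⟩
  have : J t (u * (y * a * v)) := ⟨x, b * t ^ K, by
    calc t = t * t * t ^ K := by rw [← sq, ← pow_add, add_comm, hN]
      _ = (x * u * y) * (a * v * b) * t ^ K := by rw [← h, ← h']
      _ = _ := by simp [mul_assoc]⟩
  refine (this.trans (Jc hN _ _)).trans (J.trans ?_ (Jc hN v u))
  rw [mul_assoc]; exact Jl _ _

lemma stab {s x z : P} (h : s = x * s * z) : s = s * z ^ (K + 1) ∧ s = x ^ (K + 1) * s := by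
  have : ∀ n, s = x ^ n * s * z ^ n := fun n => by
    induction n with
    | zero => simp
    | succ n ih => rw [pow_succ, pow_succ', mul_assoc _ x, ← mul_assoc, mul_assoc (x ^ n), ← h, ← ih]
  have := this (K + 1)
  constructor
  · conv_rhs => rw [this, mul_assoc, idem hN, ← this]
  · conv_rhs => rw [this, ← mul_assoc, ← mul_assoc, idem hN, ← this]

lemma stabR {s a : P} : J s (s * a) → ∃ y, s = s * a * y := by
  rintro ⟨x, y, h⟩
  exact ⟨y * (a * y) ^ K, by
    conv_lhs => rw [(stab hN (s := s) (x := x) (z := a * y) (by simpa [mul_assoc] using h)).1, pow_succ']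
    simp [mul_assoc]⟩

lemma stabL {s a : P} : J s (a * s) → Lq (a * s) s := by
  rintro ⟨x, y, h⟩
  exact ⟨⟨a, rfl⟩, (x * a) ^ K * x, by
    conv_lhs => rw [(stab hN (s := s) (x := x * a) (z := y) (by simpa [mul_assoc] using h)).2, pow_succ]
    simp [mul_assoc]⟩

lemma allJ {x : P} (hB : ∀ a ∈ B, J x a) : ∀ q ∈ closure B, J x q := fun _ hq =>
  closure_induction hB ⟨x, 1, by simp⟩ (fun _ _ _ _ => J.mul hN) hq

lemma unit {e g y : P} (h : g * e = g) (h' : e = g * y) : g ^ (K + 1) = e := by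
  have : g ^ (K + 1) * e = e := by rw [h', ← mul_assoc, ← pow_succ, hN]
  rw [← this, pow_succ, mul_assoc, h]

lemma ge {e g : P} (h : g ^ (K + 1) = e) : g * e = g ∧ e * g = g ∧ g * g ^ (2 * K + 1) = e := by
  rw [← h, ← pow_succ', ← pow_succ, hN, ← pow_succ', ← idem hN, ← pow_add]
  exact ⟨rfl, rfl, by congr 1; ring⟩

@[reducible] def mkG {e : P} (he : e ^ (K + 1) = e) : Group {g : P // g ^ (K + 1) = e} where
  mul g h := ⟨g.1 * h.1, unit hN (y := h.1 ^ (2 * K + 1) * g.1 ^ (2 * K + 1))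
    (by rw [mul_assoc, (ge hN h.2).1])
    (by rw [mul_assoc, ← mul_assoc h.1, (ge hN h.2).2.2, ← mul_assoc, (ge hN g.2).1, (ge hN g.2).2.2])⟩
  mul_assoc _ _ _ := Subtype.ext (mul_assoc _ _ _)
  one := ⟨e, he⟩
  one_mul g := Subtype.ext (ge hN g.2).2.1
  mul_one g := Subtype.ext (ge hN g.2).1
  inv g := ⟨g.1 ^ (2 * K + 1), unit hN (y := g.1) (by rw [pow_succ, mul_assoc, (ge hN g.2).1])
    (by rw [← pow_succ, pow_succ', (ge hN g.2).2.2])⟩
  inv_mul_cancel g := Subtype.ext (show g.1 ^ _ * g.1 = e by rw [← pow_succ, pow_succ', (ge hN g.2).2.2])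

end

end Pool.Agent.H21.SMP
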