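import Pool.Agent.H21.SMP1

namespace Pool.Agent.H21.SMP

open Submonoid MulOpposite

noncomputable def ht {M : Type} [Monoid M] (s : M) : ℕ := {t | J s t}.ncard

variable {M : Type} [Monoid M] [Finite M] {K h n f : ℕ}

lemma ht_le {s t : M} (a : J s t) : ht t ≤ ht s :=
  Set.ncard_le_ncard (fun _ b => a.trans b) (Set.toFinite _)

lemma ht_lt {s t : M} (a : J s t) (b : ¬ J t s) : ht t < ht s :=
  Set.ncard_lt_ncard ⟨fun _ b => a.trans b, fun c => b (c (J.refl s))⟩ (Set.toFinite _)

def IH (M : Type) [Monoid M] (h n f : ℕ) : Prop := ∀ (ι : Type) [Fintype ι], Fintype.card ι ≤ n →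
  ∀ (B : Set (ι → M)), ∀ b ∈ closure B, (∀ c, ht (b c) ≤ h) → Ch B f [b]

omit [Finite M] in
lemma J.at {ι : Type} {s t : ι → M} : J s t → ∀ c, J (s c) (t c) := by
  rintro ⟨x, y, rfl⟩ c; exact ⟨x c, y c, rfl⟩

theorem Lpart (hN : ∀ x : M, x ^ (K + 2) = x) (ih : IH M h n f) {ι : Type} [Fintype ι]
    (hι : Fintype.card ι ≤ n) {B : Set (ι → M)} {x : ι → M} (hB : ∀ a ∈ B, J x a) (hx : x ∈ closure B)
    (hh : ∀ c, ht (x c) ≤ h + 1) : ∃ r, Ch B (n * (f + 5) + 1) [r] ∧ Lq r x := by
  classical
  have hP : ∀ x : ι → M, x ^ (K + 2) = x := fun x => funext fun c => hN _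
  have aJ := allJ hP hB
  have : ∀ q ∈ closure B, ∃ z ∈ closure B, ∃ r,
      Ch B ((Finset.univ.filter fun c => J (q c) (x c)).card * (f + 5) + 1) [r] ∧
      (∀ c, ¬ J (q c) (x c) → (z * r) c = q c) ∧ ∀ c, J (q c) (x c) → Lq (r c) (q c) := fun q hq => by
    induction hq using closure_induction_left with
    | one => exact ⟨1, one_mem _, 1, (Ch.base (.inl rfl)).mono (by omega) (by simp), by simp,
        fun c _ => Lq.refl _⟩
    | mul_left a ha q hq IH =>
      obtain ⟨z, hz, r, c1, c2, c3⟩ := IH
      have haq := mul_mem (subset_closure ha) hq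
      have m : ∀ c, J (q c) (x c) → J ((a * q) c) (x c) := fun c => (Jl _ _).trans
      have st : ∀ c, J (q c) (x c) → Lq ((a * q) c) (q c) := fun c j =>
        stabL hN (j.trans ((aJ _ haq).at c))
      by_cases e : ∀ c, J ((a * q) c) (x c) → J (q c) (x c)
      · refine ⟨a * z, mul_mem (subset_closure ha) hz, r, c1.mono ?_ (by simp), fun c j => ?_,
          fun c j => (c3 c (e c j)).trans (st c (e c j)).symm⟩
        · gcongr with c _; exact m c
        · rw [mul_assoc, Pi.mul_apply, c2 c fun k => j (m c k)]; rfl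
      · let π := fun (v : ι → M) (c : {c // ¬ J (q c) (x c)}) => v c.1
        obtain ⟨y, y1, y2⟩ := Ch.lift π rfl (fun _ _ => .inl rfl) (ih _ ((Fintype.card_subtype_le _).trans hι)
          (π '' B) (π z) (closure_induction (fun b hb => subset_closure ⟨b, hb, rfl⟩) (one_mem _)
            (fun _ _ _ _ => mul_mem) hz) fun c => by
          have := ht_lt ((aJ q hq).at c) c.2
          have := ht_le (show J (q c) (z c) from c2 c c.2 ▸ Jr _ _)
          have := hh c
          simp only [π]; omega)
        have k : ∀ c, ¬ J (q c) (x c) → (a * (y * r)) c = (a * q) c := fun c j => by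
          simp only [Pi.mul_apply, ← c2 c j, show y c = z c from congrFun y2 ⟨c, j⟩]
        have ch := (((Ch.base (.inr ha)).app (y1.app c1)).prod (l := [a, y, r]) (by simp)).mono le_rfl
          (Y' := [a * (y * r)]) (by simp)
        refine ⟨1, one_mem _, a * (y * r), ch.mono ?_ (by simp), fun c j => ?_, fun c j => ?_⟩
        · have : (Finset.univ.filter fun c => J (q c) (x c)).card <
              (Finset.univ.filter fun c => J ((a * q) c) (x c)).card := by
            push Not at e
            obtain ⟨c, e1, e2⟩ := e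
            exact Finset.card_lt_card ⟨fun c => by simpa using m c, fun s => by simpa [e2] using @s c (by simpa)⟩
          simp only [List.length_cons, List.length_nil]
          nlinarith
        · rw [one_mul, k c fun t => j (m c t)]
        · by_cases t : J (q c) (x c)
          · refine Lq.trans ?_ ((c3 c t).trans (st c t).symm)
            obtain ⟨u, hu⟩ := (c3 c t).1
            rw [← mul_assoc]
            exact stabL hN (((hu ▸ Jl _ _ : J (r c) (q c)).trans t).trans
              ((aJ _ (mul_assoc a y r ▸ ch.mem)).at c))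
          · rw [k c t]; exact Lq.refl _
  obtain ⟨z, -, r, c1, -, c3⟩ := this x hx
  choose u hu using fun c => (c3 c (J.refl _)).1
  choose v hv using fun c => (c3 c (J.refl _)).2
  refine ⟨r, c1.mono ?_ (by simp), ⟨u, funext hu⟩, v, funext hv⟩
  gcongr
  exact (Finset.card_le_univ _).trans hι

def F (K m n : ℕ) : ℕ → ℕ
  | 0 => 1
  | h + 1 => (m * n + 2) * (3 * (n * (F K m n h + 5) + 1) + 2 * K + 10 + (2 * K + 1 + 1) * (m * n + 1) + 3)

omit [Finite M] in
lemma J_op {s t : M} : J (op s) (op t) ↔ J s t :=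
  ⟨fun ⟨x, y, e⟩ => ⟨unop y, unop x, by simpa [mul_assoc] using congrArg unop e⟩,
    fun ⟨x, y, e⟩ => ⟨op y, op x, by simp [e, mul_assoc]⟩⟩

omit [Finite M] in
lemma ht_op (s : M) : ht (op s) = ht s := by
  unfold ht
  rw [← Set.ncard_image_of_injective {t | J s t} op_injective]
  congr 1; ext t
  exact ⟨fun a => ⟨unop t, J_op.1 a, rfl⟩, by rintro ⟨t, a, rfl⟩; exact J_op.2 a⟩

theorem main (m : ℕ) : ∀ h (M : Type) [Monoid M] [Finite M], (∀ x : M, x ^ (K + 2) = x) →
    Nat.card M ≤ m → IH M h n (F K m n h)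
  | 0, M, _, _, _, _ => fun ι _ _ B b _ hb => by
    have : b = 1 := funext fun c => absurd (hb c)
      (not_le.2 ((Set.ncard_pos (Set.toFinite _)).2 ⟨_, J.refl _⟩))
    exact Ch.base (.inl this)
  | h + 1, M, _, _, hN, hm => fun ι _ hι B0 b hb0 hb => by
    have hP : ∀ x : ι → M, x ^ (K + 2) = x := fun x => funext fun c => hN _
    have L := fun B x => Lpart (B := B) (x := x) hN (main m h M hN hm) hι
    let B := {a ∈ B0 | J b a}
    have hB : ∀ a ∈ B, J b a := fun a ha => ha.2
    have hbB : b ∈ closure B := by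
      have : ∀ q ∈ closure B0, J b q → q ∈ closure B := fun q hq => by
        induction hq using closure_induction_left with
        | one => exact fun _ => one_mem _
        | mul_left a ha q hq IH =>
          exact fun j => mul_mem (subset_closure ⟨ha, j.trans (Jr _ _)⟩) (IH (j.trans (Jl _ _)))
      exact this b hb0 (J.refl b)
    suffices Ch B (F K m n (h + 1)) [b] by
      obtain ⟨L, a, c⟩ := this
      exact ⟨L, a.mono fun _ h => h.1, c⟩
    have aJ := allJ hP hB
    obtain ⟨x, x1, x2⟩ := L B b hB hbB hb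
    obtain ⟨y, y1, ⟨u', y3⟩, u, y2⟩ : ∃ y, Ch B (n * (F K m n h + 5) + 1) [y] ∧ (∃ u, y = b * u) ∧
        ∃ u, b = y * u := by
      have : Finite Mᵐᵒᵖ := Finite.of_equiv _ opEquiv
      let π := fun (v : ι → M) c => op (v c)
      have hN' : ∀ x : Mᵐᵒᵖ, x ^ (K + 2) = x := fun x => by rw [← op_unop x, ← op_pow, hN]
      obtain ⟨r, r1, ⟨v', r3⟩, v, r2⟩ := Lpart (B := π '' B) (x := π b) hN'
        (main m h Mᵐᵒᵖ hN' ((Nat.card_congr opEquiv).ge.trans hm)) hι
        (by rintro _ ⟨a, ha, rfl⟩
            obtain ⟨p, q, e⟩ := hB a ha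
            exact ⟨π q, π p, funext fun c => by simp [π, congrFun e c, mul_assoc]⟩)
        (closure_induction (fun b hb => subset_closure ⟨b, hb, rfl⟩) (one_mem _)
          (fun _ _ _ _ a b => mul_mem b a) hbB) fun c => (ht_op _).trans_le (hb c)
      obtain ⟨y, y1, rfl⟩ := Ch.lift π rfl (fun _ _ => .inr rfl) r1
      exact ⟨y, y1, ⟨fun c => unop (v' c), funext fun c => congrArg unop (congrFun r3 c)⟩,
        fun c => unop (v c), funext fun c => congrArg unop (congrFun r2 c)⟩
    set cL := n * (F K m n h + 5) + 1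
    have jz := aJ _ (mul_mem y1.mem x1.mem)
    set e := (y * x) ^ (K + 1) with he
    have ee : e * e = e := idem hP _
    have e1 : e ^ (K + 1) = e := unit hP ee ee.symm
    have ce : Ch B (2 * cL + 2 * K + 3) [e] := by
      have := (y1.app x1).prod (l := (List.replicate (K + 1) [y, x]).flatten) (by
        intro a; simp only [List.mem_flatten, List.mem_replicate]; grind)
      refine this.mono (by simp; omega) ?_
      simp [List.prod_flatten, he]
    have be : b * e = b := by
      obtain ⟨v, hv⟩ := x2.2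
      obtain ⟨w, hw⟩ := (stabL hP ((x2.1.choose_spec ▸ Jl _ _ : J x b).trans jz)).2
      conv_lhs => rw [hv, hw]
      rw [mul_assoc, mul_assoc, (ge hP he.symm).1, ← hw, ← hv]
    have eb : e * b = b := by
      obtain ⟨w, hw⟩ := stabR hP ((y3 ▸ Jr _ _ : J y b).trans jz)
      conv_lhs => rw [y2, hw]
      rw [← mul_assoc, ← mul_assoc, (ge hP he.symm).2.1, ← hw, ← y2]
    have e2 : e = b * (u' * x * (y * x) ^ K) := by rw [he, pow_succ', ← mul_assoc, ← mul_assoc, ← y3]
    have je : J e b := e2 ▸ Jr _ _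
    have mem : ∀ q ∈ closure B, (e * q * e) ^ (K + 1) = e := fun q hq => by
      obtain ⟨w, hw⟩ := stabR hP (je.trans (aJ _ (mul_mem ce.mem (mul_mem hq ce.mem))))
      exact unit hP (y := w) (by rw [mul_assoc, ee]) (by rwa [mul_assoc e q])
    letI := mkG hP e1
    have pw : ∀ (g : {g : ι → M // g ^ (K + 1) = e}) k, (g ^ (k + 1)).1 = g.1 ^ (k + 1) := fun g k => by
      induction k with
      | zero => rw [zero_add, pow_one, pow_one]
      | succ k ih => rw [pow_succ, pow_succ g.1, ← ih]; rfl
    obtain ⟨Z, z1, z2, z3⟩ := BS (B := B) (K := 2 * K + 1) (c := 3 * cL + 2 * K + 10) (lg := m * n + 1)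
      (Subtype.val : {g : ι → M // g ^ (K + 1) = e} → _) (fun _ _ => rfl)
      (fun g => Subtype.ext (pw g _).symm) (by
        refine (Finite.card_subtype_le _).trans_lt ?_
        rw [Nat.card_fun, Nat.card_eq_fintype_card (α := ι), pow_succ, pow_mul]
        have : Nat.card M ^ Fintype.card ι ≤ (2 ^ m) ^ n :=
          (Nat.pow_le_pow_left (hm.trans Nat.lt_two_pow_self.le) _).trans
            (Nat.pow_le_pow_right (by positivity) hι)
        have : 0 < (2 ^ m) ^ n := by positivity
        omega) (ce.mono (by omega) (List.Subset.refl _))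
    have key : ∀ q ∈ closure B, ∃ z ∈ Z, z.1 = e * q * e := fun q hq => by
      induction hq using closure_induction_right with
      | one => exact ⟨1, z1, by rw [mul_one, ee]; rfl⟩
      | mul_right q hq a ha IH =>
        obtain ⟨z, hz, ez⟩ := IH
        have jq : J (e * q) b := (Jr _ _).trans je
        obtain ⟨r, r1, ⟨w', r3⟩, v, r2⟩ := L B (e * q) (fun a ha => jq.trans (hB a ha)) (mul_mem ce.mem hq)
          fun c => (ht_le ((aJ _ (mul_mem ce.mem hq)).at c)).trans (hb c)
        obtain ⟨w, hw⟩ := (stabL hP (((r3 ▸ Jl _ _ : J r (e * q)).trans jq).trans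
          (aJ _ (mul_mem ce.mem r1.mem)))).2
        have c := (Ch.base (.inr ha)).app (ce.app r1)
        have m1 := mem r r1.mem
        have : ∀ k, z * ⟨_, m1⟩ ^ k ∈ Z := fun k => by
          induction k with
          | zero => simpa
          | succ k ih =>
            rw [pow_succ, ← mul_assoc]
            exact z2 _ ih _ ((c.prod (l := [e, r, e]) (by simp)).mono (by simp; omega) (by simp [mul_assoc]))
        refine ⟨_, z2 _ (this (2 * K + 1)) ⟨_, mem _ (mul_mem r1.mem (subset_closure ha))⟩
          ((c.prod (l := [e, r, a, e]) (by simp)).mono (by simp; omega) (by simp [mul_assoc])), ?_⟩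
        show z.1 * _ * (e * (r * a) * e) = _
        have e3 : e * q = v * w * (e * r) := by rw [mul_assoc, ← hw, ← r2]
        rw [pw, ez, ← mul_assoc e q, e3, mul_assoc (v * w), mul_assoc (v * w), (ge hP m1).2.2]
        simp only [← mul_assoc]
        rw [mul_assoc _ e e, ee]
    obtain ⟨z, hz, ez⟩ := key b hbB
    rw [eb, be] at ez
    exact ez ▸ z3 z hz

end Pool.Agent.H21.SMP
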