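import Pool.Agent.H11.PTDefs

namespace Pool.Agent.H21.SMPDefs

/-- completely regular semigroups -/
def CR (S : Type) [Semigroup S] : Prop := ∀ a : S, ∃ x, a = a * x * a ∧ a * x = x * a

/-- The subpower membership problem of `S`, the elements of `S` being named by `enc`:
`(n, as, b')` lists tuples `a_1, …, a_k, b ∈ S ^ n`, and `b` lies in the subsemigroup of `S ^ n`
generated by the `a_i`. -/
def SMP {S : Type} [Semigroup S] (enc : S → ℕ) (x : ℕ × List (List ℕ) × List ℕ) : Prop :=
  ∃ (a : List (Fin x.1 → S)) (b : Fin x.1 → S),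
    x.2.1 = a.map (fun v => List.ofFn (enc ∘ v)) ∧ x.2.2 = List.ofFn (enc ∘ b) ∧
      b ∈ Subsemigroup.closure {v | v ∈ a}

end Pool.Agent.H21.SMPDefs
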