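import Pool.Agent.H21.SMP2
import Pool.Agent.H21.SMPDefs
import Pool.Agent.Lead.NPc

namespace Pool.Agent.H21.SMP

open Pool.Agent.H11.PT Pool.Agent.H21.SMPDefs Pool.Agent.Lead.NPc List

variable {S : Type} [Semigroup S]

lemma expo [Finite S] (h : CR S) : ∃ K, ∀ x : WithOne S, x ^ (K + 2) = x := by
  have : Finite (WithOne S) := inferInstanceAs (Finite (Option S))
  have : ∀ a : WithOne S, ∃ p, 0 < p ∧ ∀ t, a ^ (p * t + 1) = a := fun a => by
    obtain ⟨x, h1, h2⟩ : ∃ x, a = a * x * a ∧ a * x = x * a := by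
      induction a using WithOne.recOneCoe with
      | one => exact ⟨1, by simp⟩
      | coe a => obtain ⟨x, h1, h2⟩ := h a; exact ⟨x, by exact_mod_cast h1, by exact_mod_cast h2⟩
    have k : ∀ i, a ^ (i + 1) * x ^ i = a := fun i => by
      induction i with
      | zero => simp
      | succ i ih =>
        rw [pow_succ a, pow_succ' x, mul_assoc, ← mul_assoc a, pow_succ a i, mul_assoc, ← mul_assoc a,
          h2, ← mul_assoc a, ← h1, ← mul_assoc, ← pow_succ, ih]
    obtain ⟨i, j, ne, e⟩ := Finite.exists_ne_map_eq_of_infinite fun i : ℕ => a ^ (i + 1)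
    wlog lt : i < j generalizing i j
    · exact this j i ne.symm e.symm (by omega)
    obtain ⟨p, rfl⟩ := Nat.exists_eq_add_of_lt lt
    have e1 : a ^ (p + 1) * a = a := by
      conv_lhs => rw [← k i, ← mul_assoc, k i, ← pow_add]
      rw [show p + 1 + (i + 1) = i + p + 1 + 1 by ring, ← e, k]
    refine ⟨p + 1, by omega, fun t => ?_⟩
    induction t with
    | zero => simp
    | succ t ih => rw [show (p + 1) * (t + 1) + 1 = p + 1 + ((p + 1) * t + 1) by ring, pow_add, ih, e1]
  choose p p0 hp using this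
  have := Fintype.ofFinite (WithOne S)
  obtain ⟨K, hK⟩ := Nat.exists_eq_add_one.2 (Finset.prod_pos fun a (_ : a ∈ Finset.univ) => p0 a)
  refine ⟨K, fun x => ?_⟩
  obtain ⟨t, ht⟩ := Finset.dvd_prod_of_mem p (Finset.mem_univ x)
  rw [show K + 2 = p x * t + 1 by omega, hp]

def chk (p : List ℕ → List (List ℕ) → Bool) (c : List (List ℕ)) : Bool :=
  c.zipIdx.all fun q => p q.1 (c.drop (q.2 + 1))

lemma chk_cons (p : List ℕ → List (List ℕ) → Bool) (r : List ℕ) (c : List (List ℕ)) :
    chk p (r :: c) = (p r c && chk p c) := by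
  simp [chk, zipIdx_cons, zipIdx_succ, Function.comp_def]

def step (tb : List (List ℕ)) (n : ℕ) (gs : List (List ℕ)) (r : List ℕ) (c : List (List ℕ)) : Bool :=
  r == replicate n 0 || (gs.map fun g => g.map (· + 1)).contains r ||
    c.any fun y => c.any fun z => r == (y.zip z).map fun q => (tb.getD q.1 []).getD q.2 0

def Ver (tb : List (List ℕ)) (E : List ℕ) (x : ℕ × List (List ℕ) × List ℕ) (c : List (List ℕ)) : Bool :=
  (x.2.2 :: x.2.1).all (fun g => g.length == x.1 && g.all E.contains) && !x.2.1.isEmpty &&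
    c.contains (x.2.2.map (· + 1)) && chk (step tb x.1 x.2.1) c

lemma F_pt (K m h : ℕ) : PT fun x : ℕ × List (List ℕ) × List ℕ => F K m x.1 h := by
  induction h with
  | zero => exact PT.const 1
  | succ h ih => simp only [F]; fun_prop

theorem inNP [Finite S] (h : CR S) (enc : S → ℕ) (henc : Function.Injective enc) : InNP (SMP enc) := by
  classical
  have : Finite (WithOne S) := inferInstanceAs (Finite (Option S))
  obtain ⟨K, hK⟩ := expo h
  have := Fintype.ofFinite S
  let cd : WithOne S → ℕ := WithOne.recOneCoe 0 fun s => enc s + 1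
  have cd1 : cd 1 = 0 := rfl
  have cds : ∀ s : S, cd s = enc s + 1 := fun _ => rfl
  have inj : Function.Injective cd := fun x y => by
    induction x using WithOne.recOneCoe <;> induction y using WithOne.recOneCoe <;>
      simp [cd1, cds, henc.eq_iff]
  obtain ⟨D, hD⟩ : ∃ D, ∀ x, cd x < D := by
    obtain ⟨D, hD⟩ := (Set.finite_range cd).bddAbove
    exact ⟨D + 1, fun x => Nat.lt_succ_of_le (hD ⟨x, rfl⟩)⟩
  let tb := (range D).map fun i => (range D).map fun j =>
    cd (Function.invFun cd i * Function.invFun cd j)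
  let E := (Finset.univ : Finset S).toList.map enc
  have hE : ∀ i, i ∈ E ↔ ∃ s, enc s = i := by simp [E]
  let co := fun {n : ℕ} (v : Fin n → WithOne S) => ofFn (cd ∘ v)
  let up := fun {n : ℕ} (v : Fin n → S) (i : Fin n) => (v i : WithOne S)
  have c1 : ∀ n, co (1 : Fin n → WithOne S) = replicate n 0 := fun n => ofFn_const n 0
  have c2 : ∀ n (v : Fin n → S), (ofFn (enc ∘ v)).map (· + 1) = co (up v) := fun n v => map_ofFn
  have c3 : ∀ n (y z : Fin n → WithOne S),
      ((co y).zip (co z)).map (fun q => (tb.getD q.1 []).getD q.2 0) = co (y * z) := fun n y z => by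
    refine ext_getElem (by simp [co]) fun i h1 h2 => ?_
    simp [co, tb, getD_eq_getElem?_getD, hD, Function.leftInverse_invFun inj _]
  have ci : ∀ n, Function.Injective (co (n := n)) := fun n y z e =>
    funext fun i => inj (congrFun (ofFn_injective e) i)
  refine inNP_lists (V := Ver tb E) (by unfold Ver chk step; fun_prop)
    (fun x => F K (Nat.card (WithOne S)) x.1 (Nat.card (WithOne S))) (fun x => x.1 + D) (F_pt _ _ _)
    (by fun_prop) ?_ ?_
  · rintro ⟨n, gs, b⟩ c hc
    simp only [Ver, Bool.and_eq_true, all_eq_true, beq_iff_eq, contains_eq_mem, decide_eq_true_eq,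
      Bool.not_eq_true', isEmpty_eq_false_iff, hE] at hc
    obtain ⟨⟨⟨h1, h2⟩, h3⟩, h4⟩ := hc
    have dec : ∀ g ∈ b :: gs, ∃ v : Fin n → S, g = ofFn (enc ∘ v) := fun g hg => by
      obtain ⟨rfl, k⟩ := h1 g hg
      choose v hv using fun i : Fin g.length => k g[i] (getElem_mem _)
      exact ⟨v, ext_getElem (by simp) fun i a b => by simp [hv]⟩
    obtain ⟨b, rfl⟩ := dec b mem_cons_self
    obtain ⟨a, rfl⟩ : ∃ a : List (Fin n → S), gs = a.map fun v => ofFn (enc ∘ v) := by
      have : Nonempty (Fin n → S) := ⟨b⟩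
      choose! f hf using dec
      exact ⟨gs.map f, by
        rw [map_map]; conv_lhs => rw [← map_id gs]
        exact map_congr_left fun g hg => hf g (mem_cons_of_mem _ hg)⟩
    refine ⟨a, b, rfl, rfl, ?_⟩
    have : ∀ r ∈ c, ∃ v, r = co v ∧ (v = 1 ∨ ∃ s ∈ Subsemigroup.closure {v | v ∈ a}, v = up s) := by
      clear h3
      induction c with
      | nil => simp
      | cons r c ih =>
        rw [chk_cons, Bool.and_eq_true] at h4
        have ih := ih h4.2
        refine forall_mem_cons.2 ⟨?_, ih⟩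
        simp only [step, Bool.or_eq_true, beq_iff_eq, contains_eq_mem, decide_eq_true_eq, any_eq_true,
          map_map, mem_map, Function.comp_apply, c2] at h4
        rcases h4.1 with (rfl | ⟨v, hv, rfl⟩) | ⟨y, hy, z, hz, rfl⟩
        · exact ⟨1, (c1 n).symm, .inl rfl⟩
        · exact ⟨_, rfl, .inr ⟨v, Subsemigroup.subset_closure hv, rfl⟩⟩
        · obtain ⟨y, rfl, rfl | ⟨s, hs, rfl⟩⟩ := ih y hy <;> obtain ⟨z, rfl, rfl | ⟨t, ht, rfl⟩⟩ := ih z hz <;>
            refine ⟨_, c3 _ _ _, ?_⟩
          · simp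
          · exact .inr ⟨t, ht, one_mul _⟩
          · exact .inr ⟨s, hs, mul_one _⟩
          · exact .inr ⟨_, mul_mem hs ht, rfl⟩
    obtain ⟨v, e, hv⟩ := this _ h3
    obtain rfl := ci _ ((c2 _ b).symm.trans e)
    rcases hv with hv | ⟨s, hs, hv⟩
    · obtain ⟨s, hs⟩ := exists_mem_of_ne_nil a (by simpa using h2)
      rw [show b = s from funext fun i => absurd (congrFun hv i) WithOne.coe_ne_one]
      exact Subsemigroup.subset_closure hs
    · rwa [show b = s from funext fun i => WithOne.coe_injective (congrFun hv i)]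
  · rintro ⟨n, gs, b'⟩ ⟨a, b, e1, e2, hb⟩
    simp only at e1 e2 a b
    subst e1 e2
    obtain ⟨L, v, l, s⟩ := main (K := K) (n := n) _ (Nat.card (WithOne S)) _ hK le_rfl (Fin n) (by simp)
      (up '' {v | v ∈ a}) (up b) (Subsemigroup.closure_induction
        (fun x hx => Submonoid.subset_closure ⟨x, hx, rfl⟩) (fun _ _ _ _ => mul_mem) hb)
      fun c => Set.ncard_le_card _
    refine ⟨L.map co, by simpa using l, fun r hr => ?_, ?_⟩
    · obtain ⟨y, -, rfl⟩ := mem_map.1 hr
      refine ⟨by simp [co], fun i hi => ?_⟩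
      obtain ⟨j, rfl⟩ := mem_ofFn.1 hi
      have := hD (y j)
      simp; omega
    simp only [Ver, Bool.and_eq_true, all_eq_true, beq_iff_eq, contains_eq_mem, decide_eq_true_eq,
      Bool.not_eq_true', isEmpty_eq_false_iff, hE]
    refine ⟨⟨⟨fun g hg => ?_, ?_⟩, c2 _ b ▸ mem_map_of_mem (s mem_cons_self)⟩, ?_⟩
    · obtain ⟨v, rfl⟩ : ∃ v : Fin n → S, g = ofFn (enc ∘ v) := by
        rcases mem_cons.1 hg with rfl | hg
        · exact ⟨b, rfl⟩
        · obtain ⟨v, -, rfl⟩ := mem_map.1 hg; exact ⟨v, rfl⟩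
      simp
    · rintro e
      rw [map_eq_nil_iff.1 e] at hb
      exact Subsemigroup.closure_induction (p := fun _ _ => False) (by simp) (fun _ _ _ _ h _ => h) hb
    clear l s
    induction v with
    | nil => rfl
    | base h _ ih =>
      rw [map_cons, chk_cons, ih]
      rcases h with rfl | ⟨v, hv, rfl⟩
      · simp [step, c1]
      · simp only [step, Bool.and_true, Bool.or_eq_true, contains_eq_mem, decide_eq_true_eq, map_map]
        exact .inl (.inr (mem_map.2 ⟨v, hv, c2 _ _⟩))
    | mul hy hz _ ih =>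
      rw [map_cons, chk_cons, ih]
      simp only [step, Bool.and_true, Bool.or_eq_true, any_eq_true, beq_iff_eq]
      exact .inr ⟨_, mem_map_of_mem hy, _, mem_map_of_mem hz, (c3 _ _ _).symm⟩

end Pool.Agent.H21.SMP
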