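import Mathlib

namespace Pool.Agent.H21.SP

/-- The rationals whose denominator is prime to `p`. -/
def Zp (p : ℕ) : Subring ℚ where
  carrier := {q | q.den.Coprime p}
  mul_mem' ha hb := Nat.Coprime.coprime_dvd_left (Rat.mul_den_dvd _ _) (Nat.Coprime.mul_left ha hb)
  one_mem' := Nat.coprime_one_left p
  add_mem' ha hb := Nat.Coprime.coprime_dvd_left (Rat.add_den_dvd _ _) (Nat.Coprime.mul_left ha hb)
  zero_mem' := Nat.coprime_one_left p
  neg_mem' ha := ha

/-- `A / J(A)` is semisimple and idempotents lift modulo `J(A)`. -/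
def Semiperfect (A : Type) [Ring A] : Prop :=
  IsSemisimpleRing (A ⧸ Ring.jacobson A) ∧ ∀ e : A ⧸ Ring.jacobson A, IsIdempotentElem e →
    ∃ f : A, IsIdempotentElem f ∧ Ideal.Quotient.mk _ f = e

/-- Finitely generated left `A`-modules. -/
def FG (A : Type) [Ring A] := {M : ModuleCat.{0} A // Module.Finite A M}

/-- `0 → X → Y → Z → 0` is a short exact sequence for some maps. -/
def SES (A X Y Z : Type) [Ring A] [AddCommGroup X] [AddCommGroup Y] [AddCommGroup Z] [Module A X]
    [Module A Y] [Module A Z] : Prop :=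
  ∃ (f : X →ₗ[A] Y) (g : Y →ₗ[A] Z),
    Function.Injective f ∧ Function.Exact f g ∧ Function.Surjective g

/-- The relations `[Y] - [X] - [Z]` for short exact sequences `0 → X → Y → Z → 0`. -/
def rel (A : Type) [Ring A] : AddSubgroup (FreeAbelianGroup (FG A)) :=
  AddSubgroup.closure {x | ∃ X Y Z : FG A, SES A X.1 Y.1 Z.1 ∧
    x = FreeAbelianGroup.of Y - FreeAbelianGroup.of X - FreeAbelianGroup.of Z}

/-- The class of `M` in the Grothendieck group `G_0(A)`. -/
def cls {A : Type} [Ring A] (M : FG A) : FreeAbelianGroup (FG A) ⧸ rel A :=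
  QuotientAddGroup.mk (FreeAbelianGroup.of M)

section
variable (p : ℕ) {G V : Type} [Group G] [AddCommGroup V] [Module ℚ V] (ρ : Representation ℚ G V)
  (L : AddSubgroup V)

/-- `L` is the `Zp p`-submodule generated by a finite set. -/
def FinGen : Prop :=
  ∃ (n : ℕ) (s : Fin n → V), ∀ v, v ∈ L ↔ ∃ c : Fin n → ℚ, (∀ i, c i ∈ Zp p) ∧ v = ∑ i, c i • s i

/-- `L` is a `G`-stable finitely generated `Zp p`-submodule spanning `V`. -/
def IsLat : Prop :=
  (∀ g, ∀ v ∈ L, ρ g v ∈ L) ∧ FinGen p L ∧ Submodule.span ℚ (L : Set V) = ⊤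

/-- `π` is onto with kernel `pL`. -/
def ModP {L M : Type} [AddCommGroup L] [AddCommGroup M] (π : L →+ M) : Prop :=
  Function.Surjective π ∧ ∀ v, π v = 0 ↔ ∃ w : L, v = p • w

/-- `π` is `G`-equivariant, `g` acting on `M` as `o g`. -/
def Eqv {A M : Type} [Ring A] [AddCommGroup M] [Module A M] (o : G → A) (π : L → M) : Prop :=
  ∀ (g : G) (v w : L), (w : V) = ρ g v → π w = o g • π v

end

/-- `M` is isomorphic to `L / pL` for a lattice `L` in an irreducible rational representation. -/
def IsRed (p : ℕ) {G A : Type} [Group G] [Ring A] (o : G → A) (M : Type) [AddCommGroup M]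
    [Module A M] : Prop :=
  ∃ (V : Type) (_ : AddCommGroup V) (_ : Module ℚ V) (ρ : Representation ℚ G V)
    (L : AddSubgroup V) (π : L →+ M),
    ρ.IsIrreducible ∧ IsLat p ρ L ∧ ModP p π ∧ Eqv ρ L o π

/-- Projective indecomposable modules. -/
def IsPIM (A P : Type) [Ring A] [AddCommGroup P] [Module A P] : Prop :=
  Module.Projective A P ∧ Nontrivial P ∧ ∀ U W : Submodule A P, IsCompl U W → U = ⊥ ∨ W = ⊥

/-- Condition (N) for a ring `A` with `G` acting on modules through `o`. -/
def CondN' (p : ℕ) {G A : Type} [Group G] [Ring A] (o : G → A) : Prop :=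
  ∀ P : FG A, IsPIM A P.1 → ∃ l : List (FG A), (∀ M ∈ l, IsRed p o M.1) ∧ cls P = (l.map cls).sum

/-- Condition (N). -/
def CondN (p : ℕ) (G : Type) [Group G] : Prop :=
  CondN' p fun g : G => (MonoidAlgebra.single g 1 : MonoidAlgebra (ZMod p) G)

end Pool.Agent.H21.SP
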