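import Mathlib
import Pool.Agent.H21.SPDefs

namespace Pool.Agent.H21.SP

open QuaternionGroup

theorem den_ne (q : Zp 2) : ((q.1.den : ℕ) : ZMod 2) ≠ 0 := by
  rw [Ne, ZMod.natCast_eq_zero_iff]
  exact (Nat.Prime.coprime_iff_not_dvd Nat.prime_two).1 (Nat.Coprime.symm q.2)

def red : Zp 2 →+* ZMod 2 where
  toFun q := (q.1 : ZMod 2)
  map_one' := Rat.cast_one
  map_mul' a b := Rat.cast_mul_of_ne_zero (den_ne a) (den_ne b)
  map_zero' := Rat.cast_zero
  map_add' a b := Rat.cast_add_of_ne_zero (den_ne a) (den_ne b)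

theorem red_num (q : Zp 2) : red q = 0 ↔ 2 ∣ q.1.num := by
  change (q.1 : ZMod 2) = 0 ↔ _
  rw [Rat.cast_def, div_eq_zero_iff, or_iff_left (den_ne q), ZMod.intCast_zmod_eq_zero_iff_dvd]
  rfl

theorem div_mem (a b : ℤ) (hb : ¬2 ∣ b) : (a / b : ℚ) ∈ Zp 2 := by
  have h1 : (((a / b : ℚ).den : ℕ) : ℤ) ∣ b := by
    rw [← Rat.divInt_eq_div]; exact Rat.den_dvd a b
  refine ((Nat.Prime.coprime_iff_not_dvd Nat.prime_two).2 fun h => hb ?_).symm
  exact (Int.natCast_dvd_natCast.2 h).trans h1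

theorem red_zero (q : Zp 2) : red q = 0 ↔ ∃ w, q = 2 * w := by
  refine ⟨fun h => ?_, by rintro ⟨w, rfl⟩; rw [map_mul, map_ofNat]; exact zero_mul _⟩
  obtain ⟨k, hk⟩ := (red_num q).1 h
  refine ⟨⟨k / (q.1.den : ℤ), div_mem _ _ fun h => ?_⟩, Subtype.ext ?_⟩
  · exact den_ne q ((ZMod.natCast_eq_zero_iff _ _).2 (Int.natCast_dvd_natCast.1 h))
  · change q.1 = 2 * ((k : ℚ) / ((q.1.den : ℤ) : ℚ))
    have := Rat.num_div_den q.1
    rw [hk] at this
    push_cast at this ⊢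
    rw [← mul_div_assoc, this]

theorem unit_of (q : Zp 2) (h : red q ≠ 0) : IsUnit q := by
  rw [Ne, red_num] at h
  have h0 : (q.1.num : ℚ) ≠ 0 := by
    intro h0
    exact h (by rw [Int.cast_eq_zero.1 h0]; simp)
  refine IsUnit.of_mul_eq_one ⟨(q.1.den : ℤ) / q.1.num, div_mem _ _ h⟩ (Subtype.ext ?_)
  change q.1 * _ = 1
  have := Rat.num_div_den q.1
  have h1 : (q.1.den : ℚ) ≠ 0 := by exact_mod_cast q.1.den_nz
  rw [div_eq_iff h1] at this
  push_cast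
  field_simp
  exact this.symm

theorem two_mem {A : Type} [Ring A] [Algebra (Zp 2) A] [Module.Finite (Zp 2) A] (c : A) :
    2 * c ∈ Ring.jacobson A := by
  rw [← Ideal.jacobson_bot, Ideal.mem_jacobson_iff]
  intro y
  have : (⊤ : Submodule (Zp 2) A) ≤ LinearMap.range (LinearMap.mulRight (Zp 2) (y * (2 * c) + 1)) := by
    refine Submodule.le_of_le_smul_of_le_jacobson_bot (I := Ideal.span {2}) Module.Finite.fg_top ?_ ?_
    · rw [Ideal.span_le, Set.singleton_subset_iff, SetLike.mem_coe, Ideal.mem_jacobson_bot]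
      intro z
      refine unit_of _ ?_
      rw [map_add, map_mul, map_ofNat, map_one]
      change 0 * _ + 1 ≠ (0 : ZMod 2)
      simp
    · rintro z -
      rw [show z = z * (y * (2 * c) + 1) + (2 : Zp 2) • (-(z * y * c)) by
        rw [two_smul]; noncomm_ring]
      exact Submodule.add_mem_sup ⟨z, rfl⟩
        (Submodule.smul_mem_smul (Ideal.mem_span_singleton_self _) trivial)
  obtain ⟨z, hz⟩ := this (Submodule.mem_top (x := 1))
  refine ⟨z, ?_⟩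
  rw [Ideal.mem_bot, ← hz]
  simp [mul_add, mul_assoc]

abbrev Gd := QuaternionGroup 3

def zc : ℕ → ℤ × ℤ
  | 0 => (1, 0) | 1 => (1, 1) | 2 => (0, 1) | 3 => (-1, 0) | 4 => (-1, -1) | _ => (0, -1)

def tz : Gd → QuaternionAlgebra ℤ (-1) (-1) (-1)
  | a i => ⟨(zc i.val).1, (zc i.val).2, 0, 0⟩
  | xa i => ⟨0, 0, (zc i.val).1 - (zc i.val).2, -(zc i.val).2⟩

theorem tz_mul (g h : Gd) : tz (g * h) = tz g * tz h := by
  ext <;> simp only [QuaternionAlgebra.re_mul, QuaternionAlgebra.imI_mul, QuaternionAlgebra.imJ_mul,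
    QuaternionAlgebra.imK_mul] <;> revert g h <;> decide +kernel

abbrev Λ := QuaternionAlgebra (Zp 2) (-1) (-1) (-1)

def tq : Gd →* Λ where
  toFun g := ⟨(tz g).re, (tz g).imI, (tz g).imJ, (tz g).imK⟩
  map_one' := by
    rw [show tz 1 = ⟨1, 0, 0, 0⟩ from rfl]
    refine QuaternionAlgebra.ext ?_ ?_ ?_ ?_ <;> simp
  map_mul' g h := by
    rw [tz_mul]
    refine QuaternionAlgebra.ext ?_ ?_ ?_ ?_ <;> simp

def nm (q : Λ) : Zp 2 := q.re ^ 2 - q.re * q.imI + q.imI ^ 2 + q.imJ ^ 2 - q.imJ * q.imK + q.imK ^ 2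

theorem nm_mul (p q : Λ) : nm (p * q) = nm p * nm q := by
  simp only [nm, QuaternionAlgebra.re_mul, QuaternionAlgebra.imI_mul, QuaternionAlgebra.imJ_mul,
    QuaternionAlgebra.imK_mul]
  ring

theorem nm_zero (q : Λ) (h : nm q = 0) : q = 0 := by
  have := congrArg Subtype.val h
  simp only [nm] at this
  push_cast at this
  obtain ⟨⟨a, _⟩, ⟨b, _⟩, ⟨c, _⟩, ⟨d, _⟩⟩ := q
  simp only at this
  have h1 : a = 0 := by nlinarith [sq_nonneg (a - 2 * b), sq_nonneg (c - d), sq_nonneg c, sq_nonneg d, sq_nonneg a]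
  have h2 : b = 0 := by nlinarith [sq_nonneg (c - d), sq_nonneg c, sq_nonneg d, sq_nonneg b]
  have h3 : c = 0 := by nlinarith [sq_nonneg (c - 2 * d), sq_nonneg c]
  have h4 : d = 0 := by nlinarith [sq_nonneg d]
  subst h1 h2 h3 h4
  rfl

theorem not_semi : ¬Semiperfect (MonoidAlgebra (Zp 2) Gd) := by
  rintro ⟨-, h⟩
  let o := MonoidAlgebra.of (Zp 2) Gd
  let e := o (a 1) + o (a 2) + o (a 5) + o (xa 0) + o (xa 2)
  have he : e * e - e = 2 * (2 * o (a 3) + o (a 0) + o (xa 5) + 2 * o (xa 1) + o (a 4) + o (a 1) +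
      o (xa 4) + o (xa 3)) := by
    simp only [e, add_mul, mul_add, ← map_mul, a_mul_a, a_mul_xa, xa_mul_a, xa_mul_xa, two_mul]
    have : ∀ x y : Gd, x = y → o x = o y := fun _ _ h => congrArg _ h
    rw [this (a (1 + 1)) (a 2) rfl, this (a (2 + 1)) (a 3) rfl, this (a (5 + 1)) (a 0) rfl,
      this (xa (0 + 1)) (xa 1) rfl, this (xa (2 + 1)) (xa 3) rfl, this (a (1 + 2)) (a 3) rfl,
      this (a (2 + 2)) (a 4) rfl, this (a (5 + 2)) (a 1) rfl, this (xa (0 + 2)) (xa 2) rfl,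
      this (xa (2 + 2)) (xa 4) rfl, this (a (1 + 5)) (a 0) rfl, this (a (2 + 5)) (a 1) rfl,
      this (a (5 + 5)) (a 4) rfl, this (xa (0 + 5)) (xa 5) rfl, this (xa (2 + 5)) (xa 1) rfl,
      this (xa (0 - 1)) (xa 5) rfl, this (xa (0 - 2)) (xa 4) rfl, this (xa (0 - 5)) (xa 1) rfl,
      this (a ((3 : ℕ) + 0 - 0)) (a 3) rfl, this (a ((3 : ℕ) + 0 - 2)) (a 1) rfl,
      this (xa (2 - 1)) (xa 1) rfl, this (xa (2 - 2)) (xa 0) rfl, this (xa (2 - 5)) (xa 3) rfl,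
      this (a ((3 : ℕ) + 2 - 0)) (a 5) rfl, this (a ((3 : ℕ) + 2 - 2)) (a 3) rfl]
    abel
  obtain ⟨f, hf, hfe⟩ := h (Ideal.Quotient.mk _ e) (by
    rw [IsIdempotentElem, ← map_mul, Ideal.Quotient.eq, he]
    exact two_mem _)
  rw [Ideal.Quotient.eq, ← Ideal.jacobson_bot, Ideal.mem_jacobson_iff] at hfe
  let θ := MonoidAlgebra.lift (Zp 2) Λ Gd tq
  have hθ : θ e = ⟨1, 1, 0, -1⟩ := by
    simp only [e, o, θ, map_add, MonoidAlgebra.lift_of]
    have e1 : tz (a 1) = ⟨1, 1, 0, 0⟩ := rfl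
    have e2 : tz (a 2) = ⟨0, 1, 0, 0⟩ := rfl
    have e3 : tz (a 5) = ⟨0, -1, 0, 0⟩ := rfl
    have e4 : tz (xa 0) = ⟨0, 0, 1, 0⟩ := rfl
    have e5 : tz (xa 2) = ⟨0, 0, -1, -1⟩ := rfl
    refine QuaternionAlgebra.ext ?_ ?_ ?_ ?_ <;> simp [tq, e1, e2, e3, e4, e5]
  have key : ∀ z q : Λ, z * q = 1 → nm q ≠ 2 := fun z q h1 h2 => by
    have := congrArg red (nm_mul z q)
    rw [h1, h2, map_mul, map_ofNat] at this
    have h3 : nm 1 = 1 := by simp [nm]
    rw [h3, map_one] at this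
    exact one_ne_zero (this.trans (mul_zero _))
  have h0 : nm (θ f) * nm (θ f - 1) = 0 := by
    rw [← nm_mul, mul_sub, ← map_mul, hf.eq, mul_one, sub_self]
    simp [nm]
  rcases mul_eq_zero.1 h0 with h1 | h1
  · obtain ⟨z, hz⟩ := hfe 1
    have := congrArg θ (Ideal.mem_bot.1 hz)
    simp only [map_sub, map_add, map_mul, map_one, map_zero, nm_zero _ h1] at this
    refine key (θ z) (1 - θ e) (by rw [← sub_eq_zero, ← this]; noncomm_ring) ?_
    rw [hθ]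
    simp [nm]
    norm_num
  · obtain ⟨z, hz⟩ := hfe (-1)
    have := congrArg θ (Ideal.mem_bot.1 hz)
    simp only [map_sub, map_add, map_mul, map_one, map_zero, map_neg,
      sub_eq_zero.1 (nm_zero _ h1)] at this
    refine key (θ z) (θ e) (by rw [← sub_eq_zero, ← this]; noncomm_ring) ?_
    rw [hθ]
    simp [nm]
    norm_num

end Pool.Agent.H21.SP
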