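import Mathlib
import Pool.Agent.H21.SP1

namespace Pool.Agent.H21.SP

open QuaternionGroup Matrix

abbrev A2 := MonoidAlgebra (ZMod 2) Gd

noncomputable abbrev o2 : Gd →* A2 := MonoidAlgebra.of (ZMod 2) Gd

def rep {n : ℕ} (ρ₀ : Gd →* Matrix (Fin n) (Fin n) ℤ) : Representation ℚ Gd (Fin n → ℚ) where
  toFun g := Matrix.toLin' ((ρ₀ g).map (Int.castRingHom ℚ))
  map_one' := by simp [Module.End.one_eq_id]
  map_mul' g h := by rw [map_mul, Matrix.map_mul, Matrix.toLin'_mul]; rfl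

theorem z2 (a : ZMod 2) : a = 0 ∨ a = 1 := by revert a; decide

theorem words : ∀ g : Gd, ∃ i : Fin 3, ∃ j : Fin 4, g = a 2 ^ i.1 * xa 0 ^ j.1 := by
  decide +kernel

theorem red_of {n : ℕ} (ρ₀ : Gd →* Matrix (Fin n) (Fin n) ℤ) (hρ : (rep ρ₀).IsIrreducible)
    (M : Type) [AddCommGroup M] [Module A2 M] [Finite M] (w : Fin n → M)
    (h1 : ∀ j, o2 (a 2) • w j = ∑ i, ρ₀ (a 2) i j • w i)
    (h2 : ∀ j, o2 (xa 0) • w j = ∑ i, ρ₀ (xa 0) i j • w i)
    (h3 : ∀ c : Fin n → ZMod 2, ∑ i, algebraMap (ZMod 2) A2 (c i) • w i = 0 → c = 0) :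
    ∃ N : Submodule A2 M, (∀ i, w i ∈ N) ∧
      IsRed 2 o2 N := by
  have hm : ∀ g h : Gd, (∀ j, o2 g • w j = ∑ i, ρ₀ g i j • w i) →
      (∀ j, o2 h • w j = ∑ i, ρ₀ h i j • w i) → ∀ j, o2 (g * h) • w j = ∑ i, ρ₀ (g * h) i j • w i := by
    intro g h hg hh j
    rw [map_mul, mul_smul, hh, Finset.smul_sum]
    simp only [smul_comm (o2 g), hg, Finset.smul_sum, map_mul, Matrix.mul_apply, Finset.sum_smul,
      smul_smul]
    rw [Finset.sum_comm]
    simp only [mul_comm]
  have hp : ∀ g : Gd, (∀ j, o2 g • w j = ∑ i, ρ₀ g i j • w i) → ∀ (k : ℕ) j,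
      o2 (g ^ k) • w j = ∑ i, ρ₀ (g ^ k) i j • w i := fun g hg k => by
    induction k with
    | zero => intro j; simp [Matrix.one_apply, -MonoidAlgebra.of_apply]
    | succ k ih => rw [pow_succ]; exact hm _ _ ih hg
  have hall : ∀ g j, o2 g • w j = ∑ i, ρ₀ g i j • w i := fun g => by
    obtain ⟨i, j, rfl⟩ := words g
    exact hm _ _ (hp _ h1 _) (hp _ h2 _)
  let r : Zp 2 →+* A2 := (algebraMap (ZMod 2) A2).comp red
  let π₀ : (Fin n → Zp 2) →+ M := AddMonoidHom.mk' (fun u => ∑ i, r (u i) • w i) fun u v => by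
    simp [add_smul, Finset.sum_add_distrib]
  have heq : ∀ g u, π₀ ((ρ₀ g).map (Int.castRingHom (Zp 2)) *ᵥ u) = o2 g • π₀ u := fun g u => by
    change ∑ i, r _ • w i = o2 g • ∑ i, r (u i) • w i
    have hc : ∀ j, o2 g • r (u j) • w j = r (u j) • o2 g • w j := fun j => by
      rw [smul_smul, smul_smul]
      exact congrArg (· • w j) (Algebra.commutes (red (u j)) (o2 g)).symm
    simp only [Finset.smul_sum, hc, hall, Matrix.mulVec, dotProduct, map_sum, map_mul,
      Finset.sum_smul, Matrix.map_apply, eq_intCast, map_intCast]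
    rw [Finset.sum_comm]
    refine Finset.sum_congr rfl fun i _ => Finset.sum_congr rfl fun j _ => ?_
    rw [mul_smul, Int.cast_smul_eq_zsmul, smul_comm]
  let N : Submodule A2 M :=
    { π₀.range with
      smul_mem' := fun c => by
        rintro _ ⟨u, rfl⟩
        induction c using MonoidAlgebra.induction_on with
        | of g => exact ⟨_, heq g u⟩
        | add x y hx hy => rw [add_smul]; exact π₀.range.add_mem hx hy
        | smul c x hx =>
          rcases z2 c with rfl | rfl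
          · rw [zero_smul, zero_smul]; exact π₀.range.zero_mem
          · rwa [one_smul] }
  let ι : (Fin n → Zp 2) →ₗ[Zp 2] Fin n → ℚ := (Algebra.linearMap (Zp 2) ℚ).compLeft (Fin n)
  have hι : Function.Injective ι := fun u v h => funext fun i => Subtype.ext (congrFun h i)
  have hι2 : ∀ g u, rep ρ₀ g (ι u) = ι ((ρ₀ g).map (Int.castRingHom (Zp 2)) *ᵥ u) := fun g u => by
    funext i
    change ∑ j, ((ρ₀ g i j : ℤ) : ℚ) * (u j).1 = (∑ j, ((ρ₀ g i j : ℤ) : Zp 2) * u j).1
    push_cast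
    rfl
  let e := LinearEquiv.ofInjective ι hι
  refine ⟨N, fun i => ⟨Pi.single i 1, ?_⟩, Fin n → ℚ, inferInstance, inferInstance, rep ρ₀,
    (LinearMap.range ι).toAddSubgroup,
    (π₀.codRestrict N.toAddSubgroup fun u => (⟨u, rfl⟩ : π₀ u ∈ π₀.range)).comp e.symm.toAddMonoidHom, hρ,
    ⟨by rintro g _ ⟨u, rfl⟩; exact ⟨_, (hι2 g u).symm⟩, ?_, ?_⟩, ⟨?_, ?_⟩, ?_⟩
  · change ∑ j, r _ • w j = w i
    rw [Finset.sum_eq_single i] <;> simp +contextual [Pi.single_apply]
  · refine ⟨n, fun i => Pi.single i 1, fun v => ⟨?_, ?_⟩⟩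
    · rintro ⟨u, rfl⟩
      refine ⟨fun i => (u i).1, fun i => (u i).2, funext fun j => ?_⟩
      change (u j).1 = _
      simp [Finset.sum_apply, Pi.single_apply]
    · rintro ⟨c, hc, rfl⟩
      refine ⟨fun i => ⟨c i, hc i⟩, funext fun j => ?_⟩
      change c j = _
      simp [Finset.sum_apply, Pi.single_apply]
  · rw [eq_top_iff, ← (Pi.basisFun ℚ (Fin n)).span_eq]
    refine Submodule.span_mono ?_
    rintro _ ⟨i, rfl⟩
    refine ⟨Pi.single i 1, funext fun j => ?_⟩
    change ((Pi.single i (1 : Zp 2) : Fin n → Zp 2) j).1 = _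
    by_cases h : j = i <;> simp [Pi.single_apply, h]
  · rintro ⟨_, u, rfl⟩
    exact ⟨e u, Subtype.ext (congrArg π₀ (e.symm_apply_apply u))⟩
  · intro v
    obtain ⟨u, rfl⟩ := e.surjective v
    have : π₀ (e.symm (e u)) = 0 ↔ ∃ u', u = 2 • u' := by
      rw [e.symm_apply_apply]
      constructor
      · intro h
        choose u' hu' using fun i => (red_zero (u i)).1 (congrFun (h3 (fun i => red (u i)) h) i)
        exact ⟨u', funext fun i => by rw [hu']; simp⟩
      · rintro ⟨u', rfl⟩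
        change ∑ i, r ((2 • u') i) • w i = 0
        refine Finset.sum_eq_zero fun i _ => ?_
        have : red ((2 • u') i) = 0 := (red_zero _).2 ⟨u' i, by simp⟩
        change algebraMap (ZMod 2) A2 (red _) • _ = _
        rw [this, map_zero, zero_smul]
    refine Subtype.ext_iff.trans (this.trans ⟨?_, ?_⟩)
    · rintro ⟨u', rfl⟩
      exact ⟨e u', map_nsmul _ _ _⟩
    · rintro ⟨v', h⟩
      obtain ⟨u', rfl⟩ := e.surjective v'
      exact ⟨u', e.injective (h.trans (map_nsmul _ _ _).symm)⟩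
  · intro g v v' hv'
    obtain ⟨u, rfl⟩ := e.surjective v
    refine Subtype.ext ?_
    change π₀ (e.symm _) = o2 g • π₀ (e.symm (e u))
    rw [e.symm_apply_apply, ← heq]
    congr 1
    rw [LinearEquiv.symm_apply_eq]
    exact Subtype.ext (hv'.trans (hι2 g u))

def mA : ℕ → Matrix (Fin 2) (Fin 2) ℤ
  | 0 => !![1, 0; 0, 1] | 1 => !![-1, 1; -1, 0] | _ => !![0, -1; 1, -1]

def ρ2 : Gd →* Matrix (Fin 2) (Fin 2) ℤ where
  toFun
    | a i => mA (i.val % 3)
    | xa i => !![1, -1; 0, -1] * mA (i.val % 3)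
  map_one' := by decide +kernel
  map_mul' := by decide +kernel

theorem irr_of {n : ℕ} (ρ : Representation ℚ Gd (Fin (n + 1) → ℚ))
    (h : ∀ U : Submodule ℚ (Fin (n + 1) → ℚ), (∀ v ∈ U, ρ (a 2) v ∈ U) → ∀ v ∈ U, v ≠ 0 → ∀ u, u ∈ U) :
    ρ.IsIrreducible := by
  have : Nontrivial (Subrepresentation ρ) := ⟨⊥, ⊤, fun h =>
    bot_ne_top (congrArg Subrepresentation.toSubmodule h)⟩
  refine ⟨fun U => ?_⟩
  by_cases hU : U.toSubmodule = ⊥
  · exact .inl (Subrepresentation.toSubmodule_injective hU)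
  · obtain ⟨v, hv, h0⟩ := (Submodule.ne_bot_iff _).1 hU
    exact .inr (Subrepresentation.toSubmodule_injective (eq_top_iff.2 fun u _ =>
      h _ (U.apply_mem_toSubmodule _) v hv h0 u))

theorem irr1 : (rep (1 : Gd →* Matrix (Fin 1) (Fin 1) ℤ)).IsIrreducible :=
  irr_of _ fun U _ v hv h0 u => by
    have : v 0 ≠ 0 := fun h => h0 (funext fun i => by rw [Fin.fin_one_eq_zero i, h]; rfl)
    convert U.smul_mem (u 0 / v 0) hv using 1
    funext i
    rw [Fin.fin_one_eq_zero i]
    simp [this]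

theorem irr2 : (rep ρ2).IsIrreducible :=
  irr_of _ fun U hU v hv h0 u => by
    have h1 : rep ρ2 (a 2) v = ![-v 1, v 0 - v 1] := by
      change ((!![0, -1; 1, -1] : Matrix (Fin 2) (Fin 2) ℤ).map (Int.castRingHom ℚ)) *ᵥ v = _
      funext i
      fin_cases i <;> simp [Matrix.mulVec, dotProduct, sub_eq_add_neg]
    have h2 := hU v hv
    rw [h1] at h2
    have hd : v 0 ^ 2 - v 0 * v 1 + v 1 ^ 2 ≠ 0 := fun h => h0 (by
      have a0 : v 0 = 0 := by nlinarith [sq_nonneg (v 0 - 2 * v 1), sq_nonneg (v 0)]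
      have a1 : v 1 = 0 := by nlinarith [sq_nonneg (v 1)]
      funext i
      fin_cases i <;> assumption)
    convert U.add_mem
      (U.smul_mem ((u 0 * (v 0 - v 1) + u 1 * v 1) / (v 0 ^ 2 - v 0 * v 1 + v 1 ^ 2)) hv)
      (U.smul_mem ((u 1 * v 0 - u 0 * v 1) / (v 0 ^ 2 - v 0 * v 1 + v 1 ^ 2)) h2) using 1
    generalize hD : v 0 ^ 2 - v 0 * v 1 + v 1 ^ 2 = D at hd ⊢
    funext i
    fin_cases i <;> simp <;> field_simp <;> rw [← hD] <;> ring

theorem sub_red (M : Type) [AddCommGroup M] [Module A2 M] [Finite M] [Nontrivial M] :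
    ∃ N : Submodule A2 M, N ≠ ⊥ ∧ IsRed 2 o2 N := by
  have t2 : ∀ m : M, m + m = 0 := fun m => by
    have : (1 : A2) + 1 = 0 := by
      rw [← map_one (algebraMap (ZMod 2) A2), ← map_add]
      exact (congrArg _ rfl).trans (map_zero _)
    rw [← one_smul A2 m, ← add_smul, this, zero_smul]
  have ng : ∀ m : M, -m = m := fun m => neg_eq_of_add_eq_zero_right (t2 m)
  have mu : ∀ g h : Gd, ∀ m : M, o2 g • o2 h • m = o2 (g * h) • m := fun g h m => by
    rw [map_mul, mul_smul]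
  have on : ∀ m : M, o2 (a 0) • m = m := fun m => by rw [a_zero, map_one, one_smul]
  have fx : ∀ (g : Gd) (m : M), m ≠ 0 → o2 (g * g) • m = m →
      ∃ m' ≠ (0 : M), o2 g • m' = m' := fun g m hm h => by
    by_cases h' : o2 g • m = m
    · exact ⟨m, hm, h'⟩
    · refine ⟨o2 g • m + m, fun h0 => h' ?_, by rw [smul_add, mu, h, add_comm]⟩
      rw [← ng m]
      exact eq_neg_of_add_eq_zero_left (by rwa [ng])
  obtain ⟨m, hm⟩ := exists_ne (0 : M)
  obtain ⟨v, hv, hv'⟩ := fx (a 3) m hm (on m)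
  obtain ⟨w, hw, hx⟩ := fx (xa 0) v hv hv'
  have hz : o2 (a 3) • w = w := by
    rw [show a 3 = (xa 0 * xa 0 : Gd) from rfl, ← mu, hx, hx]
  have x2 : o2 (xa 0) • o2 (a 2) • w = o2 (a 4) • w := by
    rw [mu, show xa 0 * a 2 = (a 4 * xa 0 : Gd) from rfl, ← mu, hx]
  have x4 : o2 (xa 0) • o2 (a 4) • w = o2 (a 2) • w := by
    rw [mu, show xa 0 * a 4 = (a 2 * xa 0 : Gd) from rfl, ← mu, hx]
  have a2 : o2 (a 2) • o2 (a 2) • w = o2 (a 4) • w := mu _ _ _
  have a4 : o2 (a 2) • o2 (a 4) • w = w := (mu _ _ _).trans (on w)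
  by_cases hu : w + o2 (a 2) • w + o2 (a 4) • w = 0
  · have h4 : o2 (a 4) • w = -w - o2 (a 2) • w := by rw [← sub_eq_zero, ← hu]; abel
    have hne : o2 (a 2) • w ≠ 0 := fun h => hw (by rw [← a4, ← a2, h, smul_zero, smul_zero])
    have hne2 : w + o2 (a 2) • w ≠ 0 := fun h => hw (by
      rw [h, zero_add] at hu
      rw [← a4, hu, smul_zero])
    obtain ⟨N, h1, h2⟩ := red_of ρ2 irr2 M ![w, o2 (a 2) • w] (by
        rw [show ρ2 (a 2) = !![0, -1; 1, -1] from rfl]
        intro j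
        fin_cases j <;> simp [-MonoidAlgebra.of_apply, a2, h4, sub_eq_add_neg]) (by
        rw [show ρ2 (xa 0) = !![1, -1; 0, -1] by decide +kernel]
        intro j
        fin_cases j <;> simp [-MonoidAlgebra.of_apply, x2, hx, h4, sub_eq_add_neg]) (by
        intro c hc
        rw [Fin.sum_univ_two] at hc
        funext i
        rcases z2 (c 0) with h0 | h0 <;> rcases z2 (c 1) with h1 | h1 <;> rw [h0, h1] at hc <;>
          simp only [map_zero, map_one, zero_smul, one_smul, add_zero, zero_add,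
            Matrix.cons_val_zero, Matrix.cons_val_one] at hc
        · fin_cases i <;> assumption
        · exact absurd hc hne
        · exact absurd hc hw
        · exact absurd hc hne2)
    exact ⟨N, (Submodule.ne_bot_iff _).2 ⟨w, h1 0, hw⟩, h2⟩
  · obtain ⟨N, h1, h2⟩ := red_of 1 irr1 M ![w + o2 (a 2) • w + o2 (a 4) • w] (by
        intro j
        fin_cases j
        simp [-MonoidAlgebra.of_apply, a2, a4]
        abel) (by
        intro j
        fin_cases j
        simp [-MonoidAlgebra.of_apply, x2, x4, hx]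
        abel) (by
        intro c hc
        rw [Fin.sum_univ_one] at hc
        funext i
        rw [Subsingleton.elim i 0]
        refine (z2 (c 0)).resolve_right fun h => hu ?_
        rwa [h, map_one, one_smul] at hc)
    exact ⟨N, (Submodule.ne_bot_iff _).2 ⟨_, h1 0, hu⟩, h2⟩

theorem ses {A : Type} [Ring A] (X Y Z : FG A) (f : X.1 →ₗ[A] Y.1) (g : Y.1 →ₗ[A] Z.1)
    (h1 : Function.Injective f) (h2 : Function.Exact f g) (h3 : Function.Surjective g) :
    cls Y = cls X + cls Z := by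
  have : (QuotientAddGroup.mk (FreeAbelianGroup.of Y - FreeAbelianGroup.of X -
      FreeAbelianGroup.of Z) : _ ⧸ rel A) = 0 :=
    (QuotientAddGroup.eq_zero_iff _).2 (AddSubgroup.subset_closure ⟨X, Y, Z, ⟨f, g, h1, h2, h3⟩, rfl⟩)
  rw [QuotientAddGroup.mk_sub, QuotientAddGroup.mk_sub, sub_sub, sub_eq_zero] at this
  exact this

theorem all_red (k : ℕ) : ∀ P : FG A2, Nat.card P.1 = k →
    ∃ l : List (FG A2), (∀ M ∈ l, IsRed 2 o2 M.1) ∧ cls P = (l.map cls).sum := by
  induction k using Nat.strong_induction_on with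
  | _ k ih =>
    intro P hk
    have : Finite A2 := Module.finite_of_finite (ZMod 2)
    have := P.2
    have : Finite P.1 := Module.finite_of_finite A2
    rcases subsingleton_or_nontrivial P.1 with h | h
    · refine ⟨[], by simp, ?_⟩
      have := ses P P P LinearMap.id LinearMap.id Function.injective_id
        (fun y => ⟨fun _ => ⟨y, rfl⟩, fun _ => Subsingleton.elim _ _⟩) Function.surjective_id
      simpa using this
    · obtain ⟨N, h1, h2⟩ := sub_red P.1
      have : Nontrivial N := Submodule.nontrivial_iff_ne_bot.2 h1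
      have : Finite (P.1 ⧸ N) := Finite.of_surjective _ N.mkQ_surjective
      obtain ⟨l, h3, h4⟩ := ih (Nat.card (P.1 ⧸ N)) (by
        rw [← hk, Submodule.card_eq_card_quotient_mul_card N]
        exact lt_mul_of_one_lt_left Nat.card_pos Finite.one_lt_card)
        ⟨ModuleCat.of A2 (P.1 ⧸ N), inferInstance⟩ rfl
      refine ⟨⟨ModuleCat.of A2 N, Module.Finite.of_finite⟩ :: l, List.forall_mem_cons.2 ⟨h2, h3⟩, ?_⟩
      rw [List.map_cons, List.sum_cons, ← h4]
      exact ses _ _ _ N.subtype N.mkQ N.subtype_injective (LinearMap.exact_subtype_mkQ N)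
        N.mkQ_surjective

end Pool.Agent.H21.SP
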