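import Pool.Agent.H21.SdData

open MvPolynomial

namespace Pool.Agent.H21.Sd

variable {K : Type} [Field K]

abbrev SS (K : Type) [Field K] := MvPolynomial (Fin 25) K
abbrev PP (K : Type) [Field K] := MvPolynomial (Fin 3) K
noncomputable abbrev II (K : Type) [Field K] : Ideal (SS K) := sdIdeal K cc

lemma cmp_symm {a b : Fin 25} (h : cmp a b) : cmp b a := by
  rw [cmp_iff] at h ⊢; exact h.symm

lemma cmp_refl (a : Fin 25) : cmp a a := (cmp_iff a a).2 (Or.inl le_rfl)

lemma XX_mem {a b : Fin 25} (h : ¬ cmp a b) : (X a * X b : SS K) ∈ II K := by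
  have hab : a ≠ b := fun e => h (e ▸ cmp_refl a)
  refine Ideal.subset_span ⟨{a, b}, fun hc => h ((cmp_iff a b).2 ?_), by rw [Finset.prod_pair hab]⟩
  exact hc (by simp) (by simp) hab

lemma II_le (J : Ideal (SS K)) (h : ∀ a b, ¬ cmp a b → (X a * X b : SS K) ∈ J) : II K ≤ J := by
  refine Ideal.span_le.2 ?_
  rintro _ ⟨F, hF, rfl⟩
  simp only [IsChain, Set.Pairwise, not_forall] at hF
  obtain ⟨a, ha, b, hb, hab, hc⟩ := hF
  have hs : ({a, b} : Finset (Fin 25)) ⊆ F := by
    intro x hx
    rcases Finset.mem_insert.1 hx with rfl | hx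
    · exact ha
    · rw [Finset.mem_singleton.1 hx]; exact hb
  rw [← Finset.prod_sdiff hs, Finset.prod_pair hab]
  exact J.mul_mem_left _ (h a b fun e => hc ((cmp_iff a b).1 e))

noncomputable def th (K : Type) [Field K] (c : Fin 3) : SS K :=
  ∑ u ∈ Finset.univ.filter (fun u => colr u = c), X u

noncomputable def tau : PP K →ₐ[K] SS K := aeval (th K)

noncomputable def rho (k : Fin 48) : SS K →ₐ[K] PP K :=
  aeval fun u => if u = FF k (colr u) then X (colr u) else 0

noncomputable def xx (K : Type) [Field K] (k : Fin 48) (T : Finset (Fin 3)) : SS K :=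
  ∏ c ∈ T, X (FF k c)

lemma rho_th (k : Fin 48) (c : Fin 3) : rho k (th K c) = X c := by
  rw [th, map_sum, Finset.sum_eq_single (FF k c)]
  · simp [rho, colr_FF]
  · intro u hu hne
    have : colr u = c := (Finset.mem_filter.1 hu).2
    simp [rho, this, hne]
  · simp [colr_FF]

lemma rho_tau (k : Fin 48) (p : PP K) : rho k (tau p) = p := by
  have : (rho k).comp (tau (K := K)) = AlgHom.id K _ := by
    ext1 c; simp [tau, rho_th]
  exact AlgHom.congr_fun this p

lemma rho_II (k : Fin 48) {f : SS K} (h : f ∈ II K) : rho k f = 0 := by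
  refine II_le (RingHom.ker (rho (K := K) k)) (fun a b hab => ?_) h
  rw [RingHom.mem_ker, map_mul]
  simp only [rho, aeval_X]
  split_ifs with h1 h2
  · exact absurd (h1 ▸ h2 ▸ cmp_FF k _ _) hab
  · simp
  · simp
  · simp

lemma indep (c : Fin 48 → PP K) (h : ∑ k, tau (c k) * xx K k (RR k) ∈ II K) : ∀ k, c k = 0 := by
  intro k
  induction k using WellFoundedLT.induction with
  | _ k ih =>
    have := rho_II k h
    rw [map_sum, Finset.sum_eq_single k, map_mul, rho_tau] at this
    · refine (mul_eq_zero.1 this).resolve_right ?_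
      rw [xx, map_prod]
      exact Finset.prod_ne_zero_iff.2 fun c _ => by simp [rho, colr_FF]
    · intro j _ hj
      rcases lt_or_gt_of_ne hj with h' | h'
      · simp [ih j h']
      · obtain ⟨c, hc, hne⟩ := tri j k h'
        rw [map_mul, xx, map_prod, Finset.prod_eq_zero hc, mul_zero]
        simp [rho, colr_FF, hne]
    · simp

def NN (f : SS K) : Prop := ∃ c : Fin 48 → PP K, f - ∑ k, tau (c k) * xx K k (RR k) ∈ II K

lemma NN_I {f : SS K} (h : f ∈ II K) : NN f := ⟨0, by simpa using h⟩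

lemma NN_add {f g : SS K} : NN f → NN g → NN (f + g) := by
  rintro ⟨c, hc⟩ ⟨d, hd⟩
  refine ⟨c + d, ?_⟩
  convert (II K).add_mem hc hd using 1
  simp only [Pi.add_apply, map_add, add_mul, Finset.sum_add_distrib]; ring

lemma NN_tau (p : PP K) {f : SS K} : NN f → NN (tau p * f) := by
  rintro ⟨c, hc⟩
  refine ⟨fun k => p * c k, ?_⟩
  convert (II K).mul_mem_left (tau p) hc using 1
  simp only [map_mul, mul_sub, Finset.mul_sum, mul_assoc]

lemma NN_sub {f g : SS K} (h1 : NN f) (h2 : NN g) : NN (f - g) := by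
  have := NN_add h1 (NN_tau (-1) h2)
  simpa [sub_eq_add_neg] using this

lemma NN_sum {ι : Type} (s : Finset ι) (f : ι → SS K) (h : ∀ i ∈ s, NN (f i)) : NN (∑ i ∈ s, f i) :=
  Finset.sum_induction f NN (fun _ _ => NN_add) (NN_I (zero_mem _)) h

lemma NN_th (c : Fin 3) {f : SS K} (h : NN f) : NN (th K c * f) := by
  simpa [tau] using NN_tau (X c) h

lemma NN_other (k : Fin 48) (ih : ∀ k', k < k' → ∀ T, RR k' ⊆ T → NN (xx K k' T))
    (T : Finset (Fin 3)) (hT : RR k ⊆ T) (u : Fin 25) (h1 : colr u ∉ T) (h2 : u ≠ FF k (colr u)) :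
    NN (X u * xx K k T) := by
  rcases step k T hT u h1 h2 with ⟨c, hc, hn⟩ | ⟨k', hk, e1, e2, e3⟩
  · rw [xx, ← Finset.mul_prod_erase _ _ hc, ← mul_assoc]
    exact NN_I ((II K).mul_mem_right _ (XX_mem hn))
  · have := ih k' hk _ e3
    rwa [xx, Finset.prod_insert h1, e1, Finset.prod_congr rfl fun c hc => by rw [e2 c hc]] at this

lemma th_split (k : Fin 48) (c : Fin 3) (f : SS K) : X (FF k c) * f = th K c * f -
    ∑ u ∈ (Finset.univ.filter (fun u => colr u = c)).erase (FF k c), X u * f := by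
  rw [th, ← Finset.add_sum_erase _ _ (a := FF k c) (by simp [colr_FF]), add_mul, Finset.sum_mul]
  ring

lemma NN_xx (k : Fin 48) : ∀ T, RR k ⊆ T → NN (xx K k T) := by
  induction k using WellFoundedGT.induction with
  | _ k ih =>
    intro T hT
    induction T using Finset.strongInduction with
    | H T ihT =>
      by_cases h : T = RR k
      · subst h
        exact ⟨Pi.single k 1, by
          rw [Finset.sum_eq_single k] <;> simp +contextual [Pi.single_apply]⟩
      · obtain ⟨c, hc, hc'⟩ := Finset.exists_of_ssubset (lt_of_le_of_ne hT (Ne.symm h))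
        have hs : RR k ⊆ T.erase c := fun x hx =>
          Finset.mem_erase.2 ⟨fun e => hc' (e ▸ hx), hT hx⟩
        rw [xx, ← Finset.mul_prod_erase _ _ hc, th_split]
        refine NN_sub (NN_th c (ihT _ (Finset.erase_ssubset hc) hs)) (NN_sum _ _ fun u hu => ?_)
        obtain ⟨hu1, hu2⟩ := Finset.mem_erase.1 hu
        have hu3 : colr u = c := (Finset.mem_filter.1 hu2).2
        exact NN_other k ih _ hs u (by simp [hu3]) (hu3 ▸ hu1)

lemma bad (k : Fin 48) (T : Finset (Fin 3)) (u : Fin 25) (h1 : colr u ∈ T)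
    (h2 : u ≠ FF k (colr u)) : NN (X u * xx K k T) := by
  rw [xx, ← Finset.mul_prod_erase _ _ h1, ← mul_assoc]
  exact NN_I ((II K).mul_mem_right _ (XX_mem fun h => h2 (cmp_col _ _ h (colr_FF _ _).symm)))

lemma NN_X (k : Fin 48) (u : Fin 25) : NN (X u * xx K k (RR k)) := by
  by_cases h2 : u = FF k (colr u)
  · by_cases h1 : colr u ∈ RR k
    · rw [h2, th_split]
      refine NN_sub (NN_th _ (NN_xx k _ le_rfl)) (NN_sum _ _ fun v hv => ?_)
      obtain ⟨hu1, hu2⟩ := Finset.mem_erase.1 hv
      have hu3 : colr v = colr u := (Finset.mem_filter.1 hu2).2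
      exact bad k _ v (hu3 ▸ h1) (hu3 ▸ hu1)
    · have := NN_xx (K := K) k _ (Finset.subset_insert (colr u) _)
      rwa [xx, Finset.prod_insert h1, ← h2] at this
  · by_cases h1 : colr u ∈ RR k
    · exact bad k _ u h1 h2
    · exact NN_other k (fun k' _ => NN_xx k') _ le_rfl u h1 h2

lemma NN_all (f : SS K) : NN f := by
  induction f using MvPolynomial.induction_on with
  | C a =>
    have := NN_tau (C a) (NN_xx (K := K) 0 _ le_rfl)
    simpa [xx, show RR 0 = ∅ from rfl, tau] using this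
  | add f g hf hg => exact NN_add hf hg
  | mul_X f a hf =>
    obtain ⟨c, hc⟩ := hf
    have := NN_add (NN_I ((II K).mul_mem_right (X a) hc))
      (NN_sum Finset.univ _ fun k _ => NN_tau (c k) (NN_X k a))
    convert this using 1
    simp only [sub_mul, Finset.sum_mul]
    rw [Finset.sum_congr rfl fun k _ => show tau (c k) * xx K k (RR k) * X a =
      tau (c k) * (X a * xx K k (RR k)) by ring]
    ring

lemma tau_mem (s : Set (Fin 3)) {p : PP K} (h : p ∈ Ideal.span (X '' s)) :
    tau p ∈ Ideal.span (th K '' s) := by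
  have := Ideal.mem_map_of_mem (tau (K := K)) h
  rwa [Ideal.map_span, Set.image_image, show (fun x => tau (K := K) (X x)) = th K from
    funext fun x => by simp [tau]] at this

lemma coef_mem (s : Set (Fin 3)) {f : SS K} (h : f ∈ II K ⊔ Ideal.span (th K '' s)) :
    ∃ c : Fin 48 → PP K, (∀ k, c k ∈ Ideal.span (X '' s)) ∧
      f - ∑ k, tau (c k) * xx K k (RR k) ∈ II K := by
  obtain ⟨i, hi, j, hj, rfl⟩ := Submodule.mem_sup.1 h
  suffices H : ∀ g : SS K, ∃ c : Fin 48 → PP K, (∀ k, c k ∈ Ideal.span (X '' s)) ∧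
      g * j - ∑ k, tau (c k) * xx K k (RR k) ∈ II K by
    obtain ⟨c, h1, h2⟩ := H 1
    exact ⟨c, h1, by rw [add_sub_assoc]; exact (II K).add_mem hi (by simpa using h2)⟩
  clear h
  induction hj using Submodule.span_induction with
  | mem x hx =>
    obtain ⟨a, ha, rfl⟩ := hx
    intro g
    obtain ⟨c, hc⟩ := NN_all g
    refine ⟨fun k => X a * c k, fun k => Ideal.mul_mem_right _ _ (Ideal.subset_span ⟨a, ha, rfl⟩), ?_⟩
    convert (II K).mul_mem_left (th K a) hc using 1
    simp only [map_mul, mul_sub, Finset.mul_sum, mul_assoc, tau, aeval_X, mul_comm g]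
  | zero => exact fun g => ⟨0, by simp, by simp⟩
  | add x y _ _ hx hy =>
    intro g
    obtain ⟨c, h1, h2⟩ := hx g
    obtain ⟨d, h3, h4⟩ := hy g
    refine ⟨c + d, fun k => Ideal.add_mem _ (h1 k) (h3 k), ?_⟩
    convert (II K).add_mem h2 h4 using 1
    simp only [Pi.add_apply, map_add, add_mul, Finset.sum_add_distrib]; ring
  | smul r x _ hx => intro g; rw [smul_eq_mul, ← mul_assoc]; exact hx _

lemma X_reg (s : Set (Fin 3)) (i : Fin 3) (hi : i ∉ s) {p : PP K}
    (h : X i * p ∈ Ideal.span (X '' s)) : p ∈ Ideal.span (X '' s) := by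
  rw [mem_ideal_span_X_image] at h ⊢
  intro m hm
  obtain ⟨j, hj, h'⟩ := h (Finsupp.single i 1 + m) (by
    rw [mem_support_iff, coeff_X_mul]; exact mem_support_iff.1 hm)
  refine ⟨j, hj, ?_⟩
  have hne : j ≠ i := fun e => hi (e ▸ hj)
  simpa [hne] using h'

lemma regseq : IsRegSeq (II K) (th K) := by
  intro i f h
  obtain ⟨c, h1, h2⟩ := coef_mem _ h
  obtain ⟨d, hd⟩ := NN_all f
  have h3 := indep (fun k => X i * d k - c k) (by
    convert (II K).sub_mem h2 ((II K).mul_mem_left (th K i) hd) using 1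
    simp only [map_sub, map_mul, tau, aeval_X, sub_mul, Finset.sum_sub_distrib, mul_sub,
      Finset.mul_sum, mul_assoc]
    ring)
  rw [← sub_add_cancel f (∑ k, tau (d k) * xx K k (RR k))]
  refine Submodule.add_mem_sup hd (Ideal.sum_mem _ fun k _ => Ideal.mul_mem_right _ _
    (tau_mem _ (X_reg _ i (by simp) ?_)))
  rw [sub_eq_zero.1 (h3 k)]; exact h1 k

lemma lsop : IsLsop (II K) (th K) := by
  refine ⟨fun c => IsHomogeneous.sum _ _ _ fun u _ => isHomogeneous_X K u, ?_⟩
  refine Module.Finite.of_surjective (Fintype.linearCombination K fun k =>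
    Ideal.Quotient.mkₐ K (II K ⊔ Ideal.span (Set.range (th K))) (xx K k (RR k))) fun q => ?_
  obtain ⟨f, rfl⟩ := Ideal.Quotient.mkₐ_surjective K _ q
  obtain ⟨c, hc⟩ := NN_all f
  refine ⟨fun k => constantCoeff (c k), ?_⟩
  simp only [Fintype.linearCombination_apply, ← map_smul, ← map_sum]
  rw [Ideal.Quotient.mkₐ_eq_mk, eq_comm, Ideal.Quotient.eq]
  have : f - ∑ k, constantCoeff (c k) • xx K k (RR k) = (f - ∑ k, tau (c k) * xx K k (RR k)) +
      ∑ k, tau (c k - C (constantCoeff (c k))) * xx K k (RR k) := by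
    simp only [map_sub, sub_mul, Finset.sum_sub_distrib, tau, aeval_C, algebraMap_eq, smul_eq_C_mul]
    ring
  rw [this]
  refine Submodule.add_mem_sup hc (Ideal.sum_mem _ fun k _ => Ideal.mul_mem_right _ _ ?_)
  rw [← Set.image_univ]
  refine tau_mem _ ?_
  rw [mem_ideal_span_X_image]
  intro m hm
  by_contra! h
  have : m = 0 := Finsupp.ext fun i => h i trivial
  subst this
  simp [mem_support_iff, constantCoeff_eq] at hm

end Pool.Agent.H21.Sd
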