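import Pool.Agent.H21.SdDefs

namespace Pool.Agent.H21.Sd

def cc : Fin 25 → Finset (Fin 6) := ![{0}, {1}, {2}, {3}, {4}, {0, 1}, {0, 2}, {0, 3}, {0, 4}, {1, 2}, {1, 3}, {1, 4}, {2, 3}, {2, 4}, {0, 1, 2}, {0, 1, 3}, {0, 1, 4}, {0, 2, 3}, {0, 2, 4}, {1, 2, 3}, {1, 2, 4}, {0, 1, 5}, {0, 5}, {1, 5}, {5}]

def colr : Fin 25 → Fin 3 := ![0, 0, 0, 0, 0, 1, 1, 1, 1, 1, 1, 1, 1, 1, 2, 2, 2, 2, 2, 2, 2, 2, 1, 1, 0]

def tab : List (List Bool) := [
  [true, false, false, false, false, true, true, true, true, false, false, false, false, false, true, true, true, true, true, false, false, true, true, false, false],
  [false, true, false, false, false, true, false, false, false, true, true, true, false, false, true, true, true, false, false, true, true, true, false, true, false],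
  [false, false, true, false, false, false, true, false, false, true, false, false, true, true, true, false, false, true, true, true, true, false, false, false, false],
  [false, false, false, true, false, false, false, true, false, false, true, false, true, false, false, true, false, true, false, true, false, false, false, false, false],
  [false, false, false, false, true, false, false, false, true, false, false, true, false, true, false, false, true, false, true, false, true, false, false, false, false],
  [true, true, false, false, false, true, false, false, false, false, false, false, false, false, true, true, true, false, false, false, false, true, false, false, false],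
  [true, false, true, false, false, false, true, false, false, false, false, false, false, false, true, false, false, true, true, false, false, false, false, false, false],
  [true, false, false, true, false, false, false, true, false, false, false, false, false, false, false, true, false, true, false, false, false, false, false, false, false],
  [true, false, false, false, true, false, false, false, true, false, false, false, false, false, false, false, true, false, true, false, false, false, false, false, false],
  [false, true, true, false, false, false, false, false, false, true, false, false, false, false, true, false, false, false, false, true, true, false, false, false, false],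
  [false, true, false, true, false, false, false, false, false, false, true, false, false, false, false, true, false, false, false, true, false, false, false, false, false],
  [false, true, false, false, true, false, false, false, false, false, false, true, false, false, false, false, true, false, false, false, true, false, false, false, false],
  [false, false, true, true, false, false, false, false, false, false, false, false, true, false, false, false, false, true, false, true, false, false, false, false, false],
  [false, false, true, false, true, false, false, false, false, false, false, false, false, true, false, false, false, false, true, false, true, false, false, false, false],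
  [true, true, true, false, false, true, true, false, false, true, false, false, false, false, true, false, false, false, false, false, false, false, false, false, false],
  [true, true, false, true, false, true, false, true, false, false, true, false, false, false, false, true, false, false, false, false, false, false, false, false, false],
  [true, true, false, false, true, true, false, false, true, false, false, true, false, false, false, false, true, false, false, false, false, false, false, false, false],
  [true, false, true, true, false, false, true, true, false, false, false, false, true, false, false, false, false, true, false, false, false, false, false, false, false],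
  [true, false, true, false, true, false, true, false, true, false, false, false, false, true, false, false, false, false, true, false, false, false, false, false, false],
  [false, true, true, true, false, false, false, false, false, true, true, false, true, false, false, false, false, false, false, true, false, false, false, false, false],
  [false, true, true, false, true, false, false, false, false, true, false, true, false, true, false, false, false, false, false, false, true, false, false, false, false],
  [true, true, false, false, false, true, false, false, false, false, false, false, false, false, false, false, false, false, false, false, false, true, true, true, true],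
  [true, false, false, false, false, false, false, false, false, false, false, false, false, false, false, false, false, false, false, false, false, true, true, false, true],
  [false, true, false, false, false, false, false, false, false, false, false, false, false, false, false, false, false, false, false, false, false, true, false, true, true],
  [false, false, false, false, false, false, false, false, false, false, false, false, false, false, false, false, false, false, false, false, false, true, true, true, true]]

def cmp (a b : Fin 25) : Prop := (tab.getD a []).getD b false = true

instance (a b : Fin 25) : Decidable (cmp a b) := inferInstanceAs (Decidable (_ = true))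

def FF : Fin 48 → Fin 3 → Fin 25 := ![
  ![0, 5, 14],
  ![1, 5, 14],
  ![0, 6, 14],
  ![0, 5, 15],
  ![1, 5, 15],
  ![2, 6, 14],
  ![1, 9, 14],
  ![2, 9, 14],
  ![0, 6, 17],
  ![2, 6, 17],
  ![2, 6, 18],
  ![0, 6, 18],
  ![1, 9, 19],
  ![2, 9, 19],
  ![1, 5, 16],
  ![0, 5, 16],
  ![0, 8, 16],
  ![0, 8, 18],
  ![2, 9, 20],
  ![1, 9, 20],
  ![1, 11, 20],
  ![1, 11, 16],
  ![2, 12, 17],
  ![2, 12, 19],
  ![0, 5, 21],
  ![1, 5, 21],
  ![3, 12, 17],
  ![3, 12, 19],
  ![0, 22, 21],
  ![4, 11, 20],
  ![4, 11, 16],
  ![4, 8, 16],
  ![4, 8, 18],
  ![2, 13, 18],
  ![2, 13, 20],
  ![4, 13, 20],
  ![4, 13, 18],
  ![0, 7, 17],
  ![0, 7, 15],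
  ![3, 7, 17],
  ![3, 7, 15],
  ![1, 23, 21],
  ![1, 10, 19],
  ![3, 10, 19],
  ![1, 10, 15],
  ![3, 10, 15],
  ![24, 22, 21],
  ![24, 23, 21]]

def RR : Fin 48 → Finset (Fin 3) := ![∅, {0}, {1}, {2}, {0, 2}, {0}, {1}, {0, 1}, {2}, {0, 2}, {2}, {0, 2}, {2}, {0, 2}, {2}, {0, 2}, {1}, {1, 2}, {2}, {0, 2}, {1}, {1, 2}, {1}, {1, 2}, {2}, {0, 2}, {0}, {0, 2}, {1}, {0}, {0, 2}, {0, 1}, {0, 2}, {1}, {1, 2}, {0, 1}, {0, 1, 2}, {1}, {1, 2}, {0, 1}, {0, 2}, {1}, {1}, {0, 1}, {1, 2}, {0, 1, 2}, {0}, {0, 1}]

theorem cmp_iff : ∀ a b, cmp a b ↔ (cc a ⊆ cc b ∨ cc b ⊆ cc a) := by decide +kernel

theorem colr_FF : ∀ k c, colr (FF k c) = c := by decide +kernel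

theorem cmp_FF : ∀ k c c', cmp (FF k c) (FF k c') := by decide +kernel

theorem cmp_col : ∀ a b, cmp a b → colr a = colr b → a = b := by decide +kernel

theorem tri : ∀ k j, j < k → ∃ c ∈ RR k, FF k c ≠ FF j c := by decide +kernel

theorem step : ∀ k T, RR k ⊆ T → ∀ u, colr u ∉ T → u ≠ FF k (colr u) →
    (∃ c ∈ T, ¬ cmp u (FF k c)) ∨ ∃ k', k < k' ∧ FF k' (colr u) = u ∧
      (∀ c ∈ T, FF k' c = FF k c) ∧ RR k' ⊆ insert (colr u) T := by decide +kernel

theorem card_pairs : Fintype.card {p : Fin 25 × Fin 25 // p.1 ≤ p.2 ∧ cmp p.1 p.2} = 95 := by
  decide +kernel

theorem card_new : Fintype.card {p : Fin 25 × Fin 25 // p.1 ≤ p.2 ∧ 21 ≤ p.2 ∧ cmp p.1 p.2} = 14 := by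
  decide +kernel

def GG : Finset (Finset (Fin 6)) := insert ∅ (Finset.univ.image cc)

theorem GG_down : ∀ s ∈ GG, ∀ t : Finset (Fin 6), t ⊆ s → t ∈ GG := by decide +kernel

theorem cc_inj : ∀ a b, cc a = cc b → a = b := by decide +kernel

theorem cc_card : ∀ a, (cc a).Nonempty ∧ (cc a).card ≤ 3 := by decide +kernel

end Pool.Agent.H21.Sd
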