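import Mathlib

open MvPolynomial

namespace Pool.Agent.H21.Sd

noncomputable def sdIdeal (K : Type) [Field K] {n m : ℕ} (c : Fin m → Finset (Fin n)) :
    Ideal (MvPolynomial (Fin m) K) :=
  Ideal.span {p | ∃ F : Finset (Fin m), ¬ IsChain (fun a b => c a ⊆ c b) (F : Set (Fin m)) ∧
    p = ∏ v ∈ F, X v}

def IsLsop {K : Type} [Field K] {m d : ℕ} (I : Ideal (MvPolynomial (Fin m) K))
    (θ : Fin d → MvPolynomial (Fin m) K) : Prop :=
  (∀ i, (θ i).IsHomogeneous 1) ∧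
    Module.Finite K (MvPolynomial (Fin m) K ⧸ (I ⊔ Ideal.span (Set.range θ)))

def IsRegSeq {K : Type} [Field K] {m d : ℕ} (I : Ideal (MvPolynomial (Fin m) K))
    (θ : Fin d → MvPolynomial (Fin m) K) : Prop :=
  ∀ i f, θ i * f ∈ I ⊔ Ideal.span (θ '' {j | j < i}) → f ∈ I ⊔ Ideal.span (θ '' {j | j < i})

def WLP {K : Type} [Field K] {m : ℕ} (J : Ideal (MvPolynomial (Fin m) K)) : Prop :=
  ∃ l : MvPolynomial (Fin m) K, l.IsHomogeneous 1 ∧ ∀ i : ℕ,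
    (∀ f : MvPolynomial (Fin m) K, f.IsHomogeneous i → l * f ∈ J → f ∈ J) ∨
    ∀ g : MvPolynomial (Fin m) K, g.IsHomogeneous (i + 1) →
      ∃ f : MvPolynomial (Fin m) K, f.IsHomogeneous i ∧ g - l * f ∈ J

end Pool.Agent.H21.Sd
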