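import Pool.Agent.H21.SdCM

open MvPolynomial

namespace Pool.Agent.H21.Sd

variable {K : Type} [Field K]

noncomputable def lf (a : Fin 25 → K) : SS K := ∑ v, C (a v) * X v

lemma exists_lf {l : SS K} (hl : l.IsHomogeneous 1) : ∃ a, l = lf a := by
  have h : l ∈ homogeneousSubmodule (Fin 25) K 1 := hl
  rw [homogeneousSubmodule_one_eq_span_X] at h
  obtain ⟨a, ha⟩ := (Submodule.mem_span_range_iff_exists_fun K).1 h
  exact ⟨a, by rw [← ha, lf]; simp only [smul_eq_C_mul]⟩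

lemma lf_hom (a : Fin 25 → K) : (lf a).IsHomogeneous 1 :=
  IsHomogeneous.sum _ _ _ fun i _ => isHomogeneous_C_mul_X (a i) i

lemma pd_lf (a : Fin 25 → K) (u : Fin 25) : pderiv u (lf a) = C (a u) := by
  rw [lf, map_sum, Finset.sum_eq_single u]
  · simp
  · intro b _ hb; simp [pderiv_X, Pi.single_eq_of_ne hb]
  · simp

lemma cc_lf (a : Fin 25 → K) : constantCoeff (lf a) = 0 := by simp [lf]

noncomputable abbrev JJ (θ : Fin 3 → Fin 25 → K) : Ideal (SS K) :=
  II K ⊔ Ideal.span (Set.range fun i => lf (θ i))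

lemma JJ_ind (θ : Fin 3 → Fin 25 → K) (φ : SS K →ₗ[K] K)
    (h1 : ∀ a b, ¬ cmp a b → ∀ g, φ (g * (X a * X b)) = 0) (h2 : ∀ i g, φ (g * lf (θ i)) = 0)
    {f : SS K} (h : f ∈ JJ θ) : φ f = 0 := by
  let J : Ideal (SS K) :=
    { carrier := {f | ∀ g, φ (g * f) = 0}
      add_mem' := fun h1 h2 g => by rw [mul_add, map_add, h1 g, h2 g, add_zero]
      zero_mem' := fun g => by simp
      smul_mem' := fun c x h g => by rw [smul_eq_mul, ← mul_assoc]; exact h _ }
  have : JJ θ ≤ J := sup_le (II_le J h1) (Ideal.span_le.2 (by rintro _ ⟨i, rfl⟩; exact h2 i))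
  simpa using this h 1

lemma facet_inj (θ : Fin 3 → Fin 25 → K) (h : Module.Finite K (SS K ⧸ JJ θ)) (k : Fin 48)
    (z : Fin 3 → K) (hz : ∀ i, ∑ c, θ i (FF k c) * z c = 0) : z = 0 := by
  by_contra hne
  obtain ⟨c0, hc0⟩ := Function.ne_iff.1 hne
  let p : Fin 25 → K := fun u => if u = FF k (colr u) then z (colr u) else 0
  let ψ : SS K →ₐ[K] Polynomial K := aeval fun u => Polynomial.C (p u) * Polynomial.X
  have hp : ∀ a : Fin 25 → K, ∑ u, a u * p u = ∑ c, a (FF k c) * z c := by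
    intro a
    symm
    refine Finset.sum_of_injOn (FF k) (fun c _ c' _ e => by rw [← colr_FF k c, e, colr_FF])
      (by simp) (fun u _ hu => ?_) (fun c _ => by simp [p, colr_FF])
    have : u ≠ FF k (colr u) := fun e => hu ⟨colr u, by simp, e.symm⟩
    simp [p, this]
  have hk : ∀ f ∈ JJ θ, ψ f = 0 := by
    refine fun f hf => (sup_le (II_le (RingHom.ker ψ) fun a b hab => ?_) (Ideal.span_le.2 ?_)) hf
    · rw [RingHom.mem_ker, map_mul]
      simp only [ψ, aeval_X, p]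
      split_ifs with h1 h2
      · exact absurd (h1 ▸ h2 ▸ cmp_FF k _ _) hab
      · simp
      · simp
      · simp
    · rintro _ ⟨i, rfl⟩
      simp only [SetLike.mem_coe, RingHom.mem_ker, lf, map_sum, map_mul, ψ, aeval_X, aeval_C,
        Polynomial.algebraMap_eq, ← mul_assoc, ← Finset.sum_mul]
      simp only [← Polynomial.C_mul]
      rw [← map_sum Polynomial.C, hp, hz]
      simp
  have hs : Function.Surjective (Ideal.Quotient.liftₐ (JJ θ) ψ hk) := by
    intro q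
    have hX : ψ (C (z c0)⁻¹ * X (FF k c0)) = Polynomial.X := by
      simp only [ψ, map_mul, aeval_X, aeval_C, Polynomial.algebraMap_eq, p, colr_FF, if_true,
        ← mul_assoc]
      rw [← Polynomial.C_mul, inv_mul_cancel₀ hc0]; simp
    refine ⟨Ideal.Quotient.mk _ (Polynomial.aeval (C (z c0)⁻¹ * X (FF k c0) : SS K) q), ?_⟩
    rw [Ideal.Quotient.liftₐ_apply, Ideal.Quotient.lift_mk]
    simp only [RingHom.coe_coe, ← Polynomial.aeval_algHom_apply, hX, Polynomial.aeval_X_left_apply]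
  exact Polynomial.not_finite (Module.Finite.of_surjective
    (Ideal.Quotient.liftₐ (JJ θ) ψ hk).toLinearMap hs)

def Good (θ : Fin 3 → Fin 25 → K) : Prop :=
  ∀ (k : Fin 48) (z : Fin 3 → K), (∀ i, ∑ c, θ i (FF k c) * z c = 0) → z = 0

lemma Good.unit {θ : Fin 3 → Fin 25 → K} (h : Good θ) (k : Fin 48) :
    IsUnit (Matrix.of fun i c => θ i (FF k c)) := by
  rw [← Matrix.mulVec_injective_iff_isUnit]
  refine (injective_iff_map_eq_zero (Matrix.mulVecLin _)).2 fun z hz => h k z fun i => ?_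
  exact congrFun hz i

lemma Good.tr {θ : Fin 3 → Fin 25 → K} (h : Good θ) (k : Fin 48) (z : Fin 3 → K)
    (hz : ∀ c, ∑ i, θ i (FF k c) * z i = 0) : z = 0 := by
  refine Matrix.vecMul_injective_iff_isUnit.2 (h.unit k) ?_
  funext c
  simpa [Matrix.vecMul, dotProduct, mul_comm] using hz c

lemma Good.surj {θ : Fin 3 → Fin 25 → K} (h : Good θ) (t : Fin 3 → K) :
    ∃ y : Fin 25 → K, (∀ v, 21 ≤ v → y v = 0) ∧ ∀ i, θ i ⬝ᵥ y = t i := by
  obtain ⟨z, hz⟩ := Matrix.mulVec_surjective_iff_isUnit.2 (h.unit 0) t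
  refine ⟨∑ c, Pi.single (FF 0 c) (z c), fun v hv => ?_, fun i => ?_⟩
  · rw [Finset.sum_apply]
    refine Finset.sum_eq_zero fun c _ => Pi.single_eq_of_ne ?_ _
    rintro rfl
    revert c; decide
  · rw [← hz, dotProduct_sum]
    simp only [dotProduct_single]
    simp [Matrix.mulVec, dotProduct]

noncomputable def d1 (y : Fin 25 → K) : SS K →ₗ[K] K where
  toFun f := ∑ u, y u * constantCoeff (pderiv u f)
  map_add' f g := by simp [mul_add, Finset.sum_add_distrib]
  map_smul' r f := by simp [Finset.mul_sum, mul_left_comm]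

lemma d1_mul (y : Fin 25 → K) (f g : SS K) :
    d1 y (f * g) = constantCoeff f * d1 y g + constantCoeff g * d1 y f := by
  simp [d1, Finset.mul_sum, mul_add, Finset.sum_add_distrib, mul_left_comm]

lemma d1_lf (y a : Fin 25 → K) : d1 y (lf a) = a ⬝ᵥ y := by
  simp [d1, pd_lf, dotProduct, mul_comm]

noncomputable def d2 (T : Fin 25 → Fin 25 → K) : SS K →ₗ[K] K where
  toFun f := ∑ v, d1 (T v) (pderiv v f)
  map_add' f g := by simp [Finset.sum_add_distrib]
  map_smul' r f := by simp [Finset.mul_sum]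

lemma d1_C (y : Fin 25 → K) (r : K) : d1 y (C r) = 0 := by simp [d1]

lemma d2_lf (T : Fin 25 → Fin 25 → K) (hT : ∀ u v, T u v = T v u) (a : Fin 25 → K) (g : SS K) :
    d2 T (g * lf a) = 2 * ∑ v, constantCoeff (pderiv v g) * (a ⬝ᵥ T v) := by
  have e : ∑ v, a v * d1 (T v) g = ∑ v, constantCoeff (pderiv v g) * (a ⬝ᵥ T v) := by
    simp only [d1, LinearMap.coe_mk, AddHom.coe_mk, Finset.mul_sum, dotProduct]
    rw [Finset.sum_comm]
    exact Finset.sum_congr rfl fun u _ => Finset.sum_congr rfl fun v _ => by rw [hT]; ring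
  simp only [d2, LinearMap.coe_mk, AddHom.coe_mk, Derivation.leibniz, smul_eq_mul, map_add, d1_mul,
    pd_lf, d1_C, cc_lf, d1_lf, constantCoeff_C, mul_zero, zero_add, zero_mul,
    Finset.sum_add_distrib, e]
  ring

lemma lf_single (a : Fin 25) : lf (Pi.single a (1 : K)) = X a := by
  rw [lf, Finset.sum_eq_single a]
  · simp
  · intro b _ hb; simp [hb]
  · simp

lemma d2_XX (T : Fin 25 → Fin 25 → K) (hT : ∀ u v, T u v = T v u) (a b : Fin 25) (g : SS K) :
    d2 T (g * (X a * X b)) = 2 * (constantCoeff g * T a b) := by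
  rw [← mul_assoc, ← lf_single b, d2_lf T hT, Finset.sum_eq_single a]
  · simp
  · intro v _ hv; simp [pderiv_X, Pi.single_eq_of_ne hv.symm]
  · simp

abbrev Pr := {p : Fin 25 × Fin 25 // p.1 ≤ p.2 ∧ cmp p.1 p.2}

def io (ω : Pr → K) (a b : Fin 25) : K :=
  if h : a ≤ b ∧ cmp a b then ω ⟨(a, b), h⟩ else if h : b ≤ a ∧ cmp b a then ω ⟨(b, a), h⟩ else 0

lemma io_symm (ω : Pr → K) (a b : Fin 25) : io ω a b = io ω b a := by
  unfold io
  by_cases h1 : a ≤ b ∧ cmp a b <;> by_cases h2 : b ≤ a ∧ cmp b a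
  · obtain rfl := le_antisymm h1.1 h2.1; rfl
  all_goals simp only [h1, h2, dif_pos, dif_neg, not_false_eq_true, and_self]

def Phi (θ : Fin 4 → Fin 25 → K) : (Pr → K) →ₗ[K] (Fin 4 → Fin 25 → K) where
  toFun ω i v := θ i ⬝ᵥ io ω v
  map_add' x y := by
    funext i v
    rw [Pi.add_apply, Pi.add_apply, ← dotProduct_add]
    congr 1; funext b; simp only [io, Pi.add_apply]; split_ifs <;> simp
  map_smul' r x := by
    funext i v
    rw [Pi.smul_apply, Pi.smul_apply, ← dotProduct_smul]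
    congr 1; funext b; simp only [io, Pi.smul_apply]; split_ifs <;> simp

def Psi (θ : Fin 4 → Fin 25 → K) : (Fin 4 → Fin 25 → K) →ₗ[K] (Fin 6 → K) where
  toFun y := ![θ 0 ⬝ᵥ y 1 - θ 1 ⬝ᵥ y 0, θ 0 ⬝ᵥ y 2 - θ 2 ⬝ᵥ y 0, θ 1 ⬝ᵥ y 2 - θ 2 ⬝ᵥ y 1,
    θ 0 ⬝ᵥ y 3 - θ 3 ⬝ᵥ y 0, θ 1 ⬝ᵥ y 3 - θ 3 ⬝ᵥ y 1, θ 2 ⬝ᵥ y 3 - θ 3 ⬝ᵥ y 2]
  map_add' x y := by funext j; fin_cases j <;> simp <;> ring
  map_smul' r x := by funext j; fin_cases j <;> simp <;> ring

lemma stress {θ : Fin 3 → Fin 25 → K} (h : Good θ) (w : Fin 25 → K) : ∃ ω : Pr → K, ω ≠ 0 ∧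
    (∀ i v, θ i ⬝ᵥ io ω v = 0) ∧ ∀ v, w ⬝ᵥ io ω v = 0 := by
  let η : Fin 4 → Fin 25 → K := ![θ 0, θ 1, θ 2, w]
  have hs : Function.Surjective (Psi η) := by
    intro t
    obtain ⟨y1, -, h1⟩ := h.surj ![t 0, 0, 0]
    obtain ⟨y2, -, h2⟩ := h.surj ![t 1, t 2, 0]
    obtain ⟨y3, -, h3⟩ := h.surj ![t 3, t 4 + w ⬝ᵥ y1, t 5 + w ⬝ᵥ y2]
    refine ⟨![0, y1, y2, y3], ?_⟩
    funext j; fin_cases j <;> simp [Psi, η, h1, h2, h3]
  have hc : LinearMap.range (Phi η) ≤ LinearMap.ker (Psi η) := by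
    rintro _ ⟨ω, rfl⟩
    have e : ∀ i j, η i ⬝ᵥ Phi η ω j = η j ⬝ᵥ Phi η ω i := by
      intro i j
      simp only [Phi, LinearMap.coe_mk, AddHom.coe_mk, dotProduct, Finset.mul_sum]
      rw [Finset.sum_comm]
      exact Finset.sum_congr rfl fun u _ => Finset.sum_congr rfl fun v _ => by rw [io_symm]; ring
    rw [LinearMap.mem_ker]
    funext j
    fin_cases j <;> exact sub_eq_zero.2 (e _ _)
  have h1 := LinearMap.finrank_range_add_finrank_ker (Psi η)
  rw [LinearMap.range_eq_top.2 hs, finrank_top] at h1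
  have h2 := LinearMap.finrank_range_add_finrank_ker (Phi η)
  have h3 := Submodule.finrank_mono hc
  simp only [Module.finrank_pi_fintype, Module.finrank_self, Finset.sum_const, Finset.card_univ,
    Fintype.card_fin, smul_eq_mul, card_pairs] at h1 h2
  have h4 : LinearMap.ker (Phi η) ≠ ⊥ := fun e => by rw [e, finrank_bot] at h2; omega
  obtain ⟨ω, hω, h0⟩ := Submodule.exists_mem_ne_zero_of_ne_bot h4
  have h5 : ∀ i v, η i ⬝ᵥ io ω v = 0 := fun i v => congrFun (congrFun hω i) v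
  refine ⟨ω, h0, fun i => ?_, h5 3⟩
  fin_cases i
  exacts [h5 0, h5 1, h5 2]

lemma not_surj [CharZero K] {θ : Fin 3 → Fin 25 → K} (h : Good θ) (w : Fin 25 → K) :
    ¬ ∀ g : SS K, g.IsHomogeneous (1 + 1) → ∃ f : SS K, f.IsHomogeneous 1 ∧ g - lf w * f ∈ JJ θ := by
  intro H
  obtain ⟨ω, h0, h1, h2⟩ := stress h w
  obtain ⟨⟨⟨a, b⟩, hp⟩, hne⟩ := Function.ne_iff.1 h0
  obtain ⟨f, -, hf⟩ := H (X a * X b) ((isHomogeneous_X K a).mul (isHomogeneous_X K b))
  have := JJ_ind θ (d2 (io ω)) (fun a b hab g => by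
    rw [d2_XX _ (io_symm ω), io, dif_neg fun e => hab e.2, dif_neg fun e => hab (cmp_symm e.2)]
    simp) (fun i g => by simp [d2_lf _ (io_symm ω), h1]) hf
  rw [map_sub, mul_comm (lf w), d2_lf _ (io_symm ω), ← one_mul (X a * X b), d2_XX _ (io_symm ω),
    io, dif_pos hp] at this
  simp only [h2, mul_zero, Finset.sum_const_zero, map_one, one_mul, sub_zero, mul_eq_zero,
    OfNat.ofNat_ne_zero, false_or] at this
  exact hne this

def ex (g : Fin 4 → K) (v : Fin 25) : K := if h : 21 ≤ v then g ⟨v.val - 21, by omega⟩ else 0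

abbrev Nw := {p : Fin 25 × Fin 25 // p.1 ≤ p.2 ∧ 21 ≤ p.2 ∧ cmp p.1 p.2}

def QQ (η : Fin 4 → Fin 25 → K) (g : Fin 4 → Fin 4 → K) (a b : Fin 25) : K :=
  ∑ i, (η i a * ex (g i) b + η i b * ex (g i) a)

def Xi (η : Fin 4 → Fin 25 → K) : (Fin 4 → Fin 4 → K) →ₗ[K] (Nw → K) where
  toFun g p := QQ η g p.1.1 p.1.2
  map_add' x y := by
    funext p
    simp only [QQ, Pi.add_apply, ← Finset.sum_add_distrib, ex]
    exact Finset.sum_congr rfl fun i _ => by split_ifs <;> ring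
  map_smul' r x := by
    funext p
    simp only [QQ, Pi.smul_apply, smul_eq_mul, Finset.mul_sum, ex, RingHom.id_apply]
    exact Finset.sum_congr rfl fun i _ => by split_ifs <;> ring

lemma flex (η : Fin 4 → Fin 25 → K) : ∃ g, g ≠ 0 ∧ ∀ a b, cmp a b → QQ η g a b = 0 := by
  have h := LinearMap.ker_ne_bot_of_finrank_lt (f := Xi η) (by
    simp only [Module.finrank_pi_fintype, Module.finrank_self, Finset.sum_const, Finset.card_univ,
      Fintype.card_fin, smul_eq_mul, card_new]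
    norm_num)
  obtain ⟨g, hg, h0⟩ := Submodule.exists_mem_ne_zero_of_ne_bot h
  have key : ∀ a b, a ≤ b → cmp a b → QQ η g a b = 0 := by
    intro a b hab hc
    by_cases hb : 21 ≤ b
    · exact congrFun hg ⟨(a, b), hab, hb, hc⟩
    · have ha : ¬ 21 ≤ a := fun e => hb (e.trans hab)
      simp [QQ, ex, ha, hb]
  refine ⟨g, h0, fun a b hc => ?_⟩
  rcases le_total a b with h | h
  · exact key a b h hc
  · rw [← key b a h (cmp_symm hc)]
    exact Finset.sum_congr rfl fun i _ => add_comm _ _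

lemma flex_mem [CharZero K] (η : Fin 4 → Fin 25 → K) (g : Fin 4 → Fin 4 → K)
    (h : ∀ a b, cmp a b → QQ η g a b = 0) : ∑ i, lf (η i) * lf (ex (g i)) ∈ II K := by
  have e1 : ∑ i, lf (η i) * lf (ex (g i)) =
      ∑ a, ∑ b, C (∑ i, η i a * ex (g i) b) * (X a * X b) := by
    simp only [lf, map_sum, Finset.sum_mul, map_mul]
    rw [Finset.sum_comm]
    refine Finset.sum_congr rfl fun a _ => ?_
    rw [Finset.sum_comm]
    refine Finset.sum_congr rfl fun b _ => ?_
    rw [Finset.mul_sum]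
    exact Finset.sum_congr rfl fun i _ => by ring
  have e2 : ∑ i, lf (η i) * lf (ex (g i)) =
      ∑ a, ∑ b, C (∑ i, η i b * ex (g i) a) * (X a * X b) := by
    rw [e1, Finset.sum_comm]
    exact Finset.sum_congr rfl fun a _ => Finset.sum_congr rfl fun b _ => by rw [mul_comm (X b)]
  have e3 : ∑ a, ∑ b, C (QQ η g a b) * (X a * X b : SS K) ∈ II K := by
    refine Ideal.sum_mem _ fun a _ => Ideal.sum_mem _ fun b _ => ?_
    by_cases hc : cmp a b
    · simp [h a b hc]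
    · exact Ideal.mul_mem_left _ _ (XX_mem hc)
  have e4 : ∑ a, ∑ b, C (QQ η g a b) * (X a * X b : SS K) =
      C 2 * ∑ i, lf (η i) * lf (ex (g i)) := by
    rw [map_ofNat, two_mul]
    nth_rewrite 1 [e1]
    rw [e2]
    simp only [QQ, Finset.sum_add_distrib, map_add, add_mul]
  have := Ideal.mul_mem_left _ (C (2 : K)⁻¹) (e4 ▸ e3)
  rwa [← mul_assoc, ← map_mul, inv_mul_cancel₀ two_ne_zero, map_one, one_mul] at this

lemma not_inj [CharZero K] {θ : Fin 3 → Fin 25 → K} (h : Good θ) (w : Fin 25 → K) :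
    ¬ ∀ f : SS K, f.IsHomogeneous 1 → lf w * f ∈ JJ θ → f ∈ JJ θ := by
  intro H
  let η : Fin 4 → Fin 25 → K := ![θ 0, θ 1, θ 2, w]
  obtain ⟨g, h0, hg⟩ := flex η
  have h1 := flex_mem η g hg
  have hθ : ∀ i f, lf (θ i) * f ∈ JJ θ := fun i f =>
    Ideal.mem_sup_right (Ideal.mul_mem_right _ _ (Ideal.subset_span ⟨i, rfl⟩))
  have h2 : lf (ex (g 3)) ∈ JJ θ := by
    refine H _ (lf_hom _) ?_
    rw [Fin.sum_univ_four] at h1
    have := sub_mem (Ideal.mem_sup_left h1 : _ ∈ JJ θ) (add_mem (add_mem (hθ 0 (lf (ex (g 0))))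
      (hθ 1 (lf (ex (g 1))))) (hθ 2 (lf (ex (g 2)))))
    simpa [η] using this
  have h3 : ∀ b, ex (g 3) b = 0 := by
    intro b
    obtain ⟨y, hy, hy'⟩ := h.surj fun i => θ i b
    have := JJ_ind θ (d1 (Pi.single b 1 - y)) (fun a b _ g => by
      rw [← mul_assoc, d1_mul, d1_mul]; simp) (fun i g => by
      rw [d1_mul, cc_lf, d1_lf, dotProduct_sub, hy']; simp) h2
    rw [d1_lf, dotProduct_sub, dotProduct_single, mul_one, dotProduct, Finset.sum_eq_zero,
      sub_zero] at this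
    · exact this
    · intro v _
      by_cases hv : 21 ≤ v
      · rw [hy v hv, mul_zero]
      · simp [ex, hv]
  let z : Fin 25 → Fin 3 → K := fun b i => ex (g i.castSucc) b
  have hq : ∀ a b, cmp a b → ∑ i, θ i a * z b i + ∑ i, θ i b * z a i = 0 := by
    intro a b hc
    have := hg a b hc
    simp only [QQ, Fin.sum_univ_four, h3, η] at this
    simp only [Fin.sum_univ_three, z]
    simp at this ⊢
    linear_combination this
  have prop : ∀ k c, (∀ c', c' ≠ c → z (FF k c') = 0) → z (FF k c) = 0 := by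
    intro k c hc
    refine h.tr k _ fun c' => ?_
    have := hq _ _ (cmp_FF k c' c)
    by_cases e : c' = c
    · subst e; exact add_self_eq_zero.1 this
    · simpa [hc c' e] using this
  have old : ∀ b, ¬ 21 ≤ b → z b = 0 := fun b hb => funext fun i => by simp [z, ex, hb]
  have z21 : z 21 = 0 := prop 24 2 fun c' hc => old _ (by revert c'; decide)
  have z22 : z 22 = 0 := prop 28 1 fun c' hc => by
    fin_cases c'
    exacts [old _ (by decide), absurd rfl hc, z21]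
  have z23 : z 23 = 0 := prop 41 1 fun c' hc => by
    fin_cases c'
    exacts [old _ (by decide), absurd rfl hc, z21]
  have z24 : z 24 = 0 := prop 46 0 fun c' hc => by
    fin_cases c'
    exacts [absurd rfl hc, z22, z21]
  apply h0
  funext i j
  have hz : ∀ j : Fin 4, z ⟨21 + j, by omega⟩ = 0 := by
    intro j; fin_cases j
    exacts [z21, z22, z23, z24]
  have ee : ∀ i, ex (g i) ⟨21 + j, by omega⟩ = g i j := fun i => by
    rw [ex, dif_pos (by rw [Fin.le_def]; simp)]; congr 1; ext; simp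
  rw [← ee]
  refine Fin.lastCases ?_ (fun i => ?_) i
  · exact h3 _
  · exact congrFun (hz j) i

lemma no_wlp [CharZero K] (θ : Fin 3 → SS K) (h : IsLsop (II K) θ) :
    ¬ WLP (II K ⊔ Ideal.span (Set.range θ)) := by
  choose a ha using fun i => exists_lf (h.1 i)
  obtain rfl : θ = fun i => lf (a i) := funext ha
  rintro ⟨l, hl, H⟩
  obtain ⟨w, rfl⟩ := exists_lf hl
  have hg : Good a := facet_inj a h.2
  exact (H 1).elim (not_inj hg w) (not_surj hg w)

end Pool.Agent.H21.Sd
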