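import Mathlib
import Pool.Agent.H21.FPPDefs

namespace Pool.Agent.H21.Sec

open Pool.Agent.H21.FPP

variable {d : ℕ}

lemma nil (g : autT d) : g.1 [] = [] := List.eq_nil_of_length_eq_zero (g.2.1 [])

def rt0 (g : autT d) (x : Fin d) : Fin d := (g.1 [x]).headD x

lemma rt0_one (g : autT d) (x : Fin d) : g.1 [x] = [rt0 g x] := by
  obtain ⟨y, hy⟩ := List.length_eq_one_iff.1 (g.2.1 [x])
  simp [rt0, hy]

lemma cons_tail (g : autT d) (x : Fin d) (w : List (Fin d)) :
    g.1 (x :: w) = rt0 g x :: (g.1 (x :: w)).tail := by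
  obtain ⟨t, ht⟩ := (g.2.2 [x] (x :: w)).1 ⟨w, rfl⟩
  rw [← ht, rt0_one]
  rfl

def rt : autT d →* Equiv.Perm (Fin d) :=
  MonoidHom.toHomPerm
    { toFun := rt0
      map_one' := rfl
      map_mul' := fun g h => funext fun x => by
        have := rt0_one (g * h) x
        change g.1 (h.1 [x]) = _ at this
        rw [rt0_one, rt0_one] at this
        exact (List.singleton_inj.1 this).symm }

def sec (g : autT d) (x : Fin d) : autT d :=
  ⟨{ toFun := fun w => (g.1 (x :: w)).tail
     invFun := fun w => (g⁻¹.1 (rt0 g x :: w)).tail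
     left_inv := fun w => by
      simp only []
      rw [← cons_tail]
      simp
     right_inv := fun w => by
      have h : rt0 g⁻¹ (rt0 g x) = x := by
        change (rt g⁻¹ * rt g) x = x
        simp
      have := cons_tail g⁻¹ (rt0 g x) w
      rw [h] at this
      simp only []
      rw [← this]
      simp },
    fun v => by simp [g.2.1], fun v w => by
      have := g.2.2 (x :: v) (x :: w)
      rw [cons_tail g x v, cons_tail g x w] at this
      simpa [List.cons_prefix_cons] using this⟩

lemma ap (g : autT d) (x : Fin d) (w : List (Fin d)) :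
    g.1 (x :: w) = rt g x :: (sec g x).1 w := cons_tail g x w

lemma aext {g h : autT d} (h1 : ∀ x, rt g x = rt h x) (h2 : ∀ x, sec g x = sec h x) : g = h :=
  Subtype.ext (Equiv.ext fun w => by
    cases w with
    | nil => rw [nil, nil]
    | cons x w => rw [ap, ap, h1, h2])

lemma sec_mul (g h : autT d) (x : Fin d) : sec (g * h) x = sec g (rt h x) * sec h x :=
  Subtype.ext (Equiv.ext fun w => by
    have := ap (g * h) x w
    change g.1 (h.1 _) = _ at this
    rw [ap, ap] at this
    exact (List.cons.inj this).2.symm)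

lemma sec_one (x : Fin d) : sec 1 x = 1 := rfl

lemma sec_inv (g : autT d) (x : Fin d) : sec g⁻¹ (rt g x) = (sec g x)⁻¹ := by
  rw [eq_inv_iff_mul_eq_one, ← sec_mul, inv_mul_cancel, sec_one]

lemma sec_pow {g : autT d} {x : Fin d} (h : rt g x = x) (n : ℕ) : sec (g ^ n) x = sec g x ^ n := by
  induction n with
  | zero => rfl
  | succ n ih => rw [pow_succ, sec_mul, h, ih, pow_succ]

def io0 (x : Fin d) (k : autT d) : List (Fin d) → List (Fin d)
  | [] => []
  | y :: w => y :: if y = x then k.1 w else w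

lemma io0_mul (x : Fin d) (k k' : autT d) : ∀ w, io0 x (k * k') w = io0 x k (io0 x k' w)
  | [] => rfl
  | y :: w => by by_cases h : y = x <;> simp [io0, h]

lemma io0_one (x : Fin d) : ∀ w, io0 x 1 w = w
  | [] => rfl
  | y :: w => by simp [io0]

def io1 (x : Fin d) : autT d →* Equiv.Perm (List (Fin d)) :=
  MonoidHom.toHomPerm
    { toFun := io0 x
      map_one' := funext (io0_one x)
      map_mul' := fun g h => funext (io0_mul x g h) }

def io (x : Fin d) : autT d →* autT d :=
  (io1 x).codRestrict _ fun k => ⟨fun v => by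
    change (io0 x k v).length = _
    cases v with
    | nil => rfl
    | cons y w => by_cases h : y = x <;> simp [io0, h, k.2.1], fun v w => by
    change _ ↔ io0 x k v <+: io0 x k w
    cases v with
    | nil => simp [io0]
    | cons y v =>
      cases w with
      | nil => simp [io0]
      | cons z w =>
        simp only [io0, List.cons_prefix_cons]
        refine and_congr_right fun h => ?_
        subst h
        by_cases h : y = x <;> simp [h, ← k.2.2]⟩

lemma rt_io (x : Fin d) (k : autT d) (y : Fin d) : rt (io x k) y = y := rfl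

lemma sec_io (x : Fin d) (k : autT d) (y : Fin d) : sec (io x k) y = if y = x then k else 1 :=
  Subtype.ext (Equiv.ext fun w => by
    change (if y = x then k.1 w else w) = _
    split_ifs <;> rfl)

lemma conj_io (g : autT d) (x : Fin d) (k : autT d) :
    g * io x k * g⁻¹ = io (rt g x) (sec g x * k * (sec g x)⁻¹) := by
  rw [mul_inv_eq_iff_eq_mul]
  refine aext (fun y => by simp [rt_io]) fun y => ?_
  rw [sec_mul, sec_mul, rt_io, sec_io, sec_io]
  by_cases h : y = x <;> simp [h]

lemma ker_iff {n : ℕ} {g : autT d} : g ∈ (lev d n).ker ↔ ∀ v, v.length = n → g.1 v = v :=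
  ⟨fun h v hv => congrArg (fun f : Equiv.Perm _ => (f ⟨v, hv⟩).1) (MonoidHom.mem_ker.1 h),
    fun h => Equiv.ext fun v => Subtype.ext (h v.1 v.2)⟩

lemma ker_zero (g : autT d) : g ∈ (lev d 0).ker :=
  ker_iff.2 fun v hv => by rw [List.eq_nil_of_length_eq_zero hv, nil]

lemma ker_succ {n : ℕ} {g : autT d} :
    g ∈ (lev d (n + 1)).ker ↔ ∀ x, rt g x = x ∧ sec g x ∈ (lev d n).ker := by
  simp only [ker_iff]
  refine ⟨fun h x => ⟨?_, fun v hv => ?_⟩, fun h v hv => ?_⟩
  · have := h (x :: List.replicate n x) (by simp)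
    rw [ap] at this
    exact (List.cons.inj this).1
  · have := h (x :: v) (by simp [hv])
    rw [ap] at this
    exact (List.cons.inj this).2
  · obtain ⟨x, w, rfl⟩ := List.exists_cons_of_length_eq_add_one hv
    rw [ap, (h x).1, (h x).2 w (by simpa using hv)]

lemma ker_mono : ∀ (n : ℕ) {g : autT d}, g ∈ (lev d (n + 1)).ker → g ∈ (lev d n).ker
  | 0, g, _ => ker_zero g
  | n + 1, _, h => ker_succ.2 fun x => ⟨(ker_succ.1 h x).1, ker_mono n (ker_succ.1 h x).2⟩

lemma ker_le {n m : ℕ} (h : n ≤ m) {g : autT d} (hg : g ∈ (lev d m).ker) : g ∈ (lev d n).ker := by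
  induction h with
  | refl => exact hg
  | step _ ih => exact ih (ker_mono _ hg)

lemma io_ker {n : ℕ} (x : Fin d) {k : autT d} (h : k ∈ (lev d n).ker) :
    io x k ∈ (lev d (n + 1)).ker :=
  ker_succ.2 fun y => ⟨rfl, by rw [sec_io]; split_ifs; exacts [h, one_mem _]⟩

lemma prod_orb {X A : Type} [Fintype X] [CommGroup A] (σ : Equiv.Perm X) (φ : X → A)
    (h1 : ∀ x, φ (σ x) = φ x) (h2 : ∀ x (l : ℕ), (σ ^ l) x = x → φ x ^ l = 1) : ∏ x, φ x = 1 := by
  classical
  have h3 : ∀ (n : ℕ) x, φ ((σ ^ n) x) = φ x := fun n x => by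
    induction n with
    | zero => rfl
    | succ n ih => rw [pow_succ', Equiv.Perm.mul_apply, h1, ih]
  refine Finset.prod_cancels_of_partition_cancels
    (MulAction.orbitRel (Subgroup.zpowers σ) X) fun x _ => ?_
  rw [Finset.prod_congr rfl (g := fun _ => φ x) fun a ha => ?_, Finset.prod_const]
  · refine h2 x _ ?_
    have := MulAction.minimalPeriod_eq_card σ x
    rw [Fintype.card_subtype] at this
    refine (MulAction.pow_smul_eq_iff_minimalPeriod_dvd (a := σ)).2 ?_
    rw [this]
    exact dvd_of_eq (by congr)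
  · obtain ⟨⟨τ, hτ⟩, rfl⟩ := (Finset.mem_filter.1 ha).2
    obtain ⟨n, rfl⟩ := (mem_powers_iff_mem_zpowers).2 hτ
    exact h3 n x

end Pool.Agent.H21.Sec
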