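import Mathlib

namespace Pool.Agent.H21.TreeAct

open SimpleGraph Filter Multiplicative

variable {T : Type} {Γ : SimpleGraph T} (hT : Γ.IsTree)
include hT

lemma t3 {x w : T} (h : x ≠ w) : ∃ y, Γ.Adj x y ∧ Γ.dist w y + 1 = Γ.dist w x := by
  obtain ⟨p, hp⟩ := (hT.1 x w).exists_walk_length_eq_dist
  cases p with
  | nil => exact absurd rfl h
  | cons a q =>
    refine ⟨_, a, ?_⟩
    have := dist_le q
    have := hT.dist_eq_dist_add_one_of_adj w a
    rw [Walk.length_cons] at hp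
    grind [Γ.dist_comm]

lemma t2 {x y y' w : T} (a : Γ.Adj x y) (a' : Γ.Adj x y') (h : Γ.dist w y < Γ.dist w x)
    (h' : Γ.dist w y' < Γ.dist w x) : y = y' := by
  have k : ∀ {y}, Γ.Adj x y → Γ.dist w y < Γ.dist w x → ∃ p : Γ.Walk x w, p.IsPath ∧ p.snd = y := by
    intro y a h
    obtain ⟨p, hp⟩ := (hT.1 y w).exists_walk_length_eq_dist
    refine ⟨.cons a p, Walk.isPath_of_length_eq_dist _ ?_, by simp⟩
    have := hT.dist_eq_dist_add_one_of_adj w a
    rw [Walk.length_cons]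
    grind [Γ.dist_comm]
  obtain ⟨p, h1, rfl⟩ := k a h
  obtain ⟨q, h2, rfl⟩ := k a' h'
  rw [(hT.existsUnique_path x w).unique h1 h2]

lemma t5 (w x' : T) : ∀ n x y, Γ.dist x' x = n → Γ.Adj x y → Γ.dist x' y < Γ.dist x' x →
    Γ.dist w x < Γ.dist w y → Γ.dist w x' = Γ.dist w x + Γ.dist x' x
  | 0, x, y, h, _, k, _ => by omega
  | n + 1, x, y, h, a, k, l => by
    have := hT.dist_eq_dist_add_one_of_adj w a
    have := hT.dist_eq_dist_add_one_of_adj x' a
    by_cases e : y = x'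
    · subst e
      have := @dist_self _ Γ y
      omega
    obtain ⟨u, b, hu⟩ := t3 hT e
    have := hT.dist_eq_dist_add_one_of_adj w b
    have := t5 w x' n y u (by omega) b (by omega) (lt_of_not_ge fun c => by
      obtain rfl := t2 hT b a.symm (w := w) (by omega) l
      omega)
    omega

variable {G : Type} [Group G] (ρ : G →* Equiv.Perm T) (hρ : ∀ g u v, Γ.Adj u v → Γ.Adj (ρ g u) (ρ g v))
include hρ

lemma t4 (g : G) (x y : T) : Γ.dist (ρ g x) (ρ g y) = Γ.dist x y := by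
  have k : ∀ g x y, Γ.dist (ρ g x) (ρ g y) ≤ Γ.dist x y := fun g x y => by
    obtain ⟨p, hp⟩ := (hT.1 x y).exists_walk_length_eq_dist
    simpa [hp] using dist_le (p.map ⟨ρ g, hρ g _ _⟩)
  exact (k g x y).antisymm (by simpa using k g⁻¹ (ρ g x) (ρ g y))

lemma fix_step {g : G} {x w y : T} (hx : ρ g x = x) (hw : ρ g w = w) (a : Γ.Adj x y)
    (h : Γ.dist w y < Γ.dist w x) : ρ g y = y :=
  t2 hT (hx ▸ hρ g _ _ a) a (by rw [← hw, t4 hT ρ hρ, hw]; exact h) h

lemma fix_edge (S : Set G) {x w : T} (h : x ≠ w) (hx : ∀ g ∈ S, ρ g x = x) (hw : ∀ g ∈ S, ρ g w = w) :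
    ∃ u v, Γ.Adj u v ∧ ∀ g ∈ S, ρ g u = u ∧ ρ g v = v := by
  obtain ⟨y, a, k⟩ := t3 hT h
  exact ⟨x, y, a, fun g m => ⟨hx g m, fix_step hT ρ hρ (hx g m) (hw g m) a (by omega)⟩⟩

lemma fix_fin {B : Type} [CommGroup B] (z : B →* G) (h : ∀ b, ∃ x, ρ (z b) x = x) (F : Finset B) :
    ∃ x, ∀ b ∈ F, ρ (z b) x = x := by
  classical
  induction F using Finset.induction_on with
  | empty => exact (h 1).imp (by simp)
  | insert c F _ ih =>
    obtain ⟨w, hw⟩ := h c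
    obtain ⟨x, hx, hm⟩ := (measure (Γ.dist w)).wf.has_min {x | ∀ b ∈ F, ρ (z b) x = x} ih
    change ∀ y ∈ _, ¬ Γ.dist w y < Γ.dist w x at hm
    refine ⟨x, Finset.forall_mem_insert _ _ _ |>.2 ⟨by_contra fun e => ?_, hx⟩⟩
    obtain ⟨y, a, k⟩ := t3 hT (Ne.symm e)
    have := hm y fun b m => fix_step hT ρ hρ (hx b m) (w := ρ (z c) x) (by
      rw [← Equiv.Perm.mul_apply, ← map_mul, ← map_mul, mul_comm, map_mul, map_mul,
        Equiv.Perm.mul_apply, hx b m]) a (by omega)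
    have h1 := hT.dist_eq_dist_add_one_of_adj w a
    have h2 := t5 hT w (ρ (z c) x) _ x y rfl a (by omega) (by omega)
    have h3 := t4 hT ρ hρ (z c) w x
    rw [hw] at h3
    omega

lemma hyp {g : G} (hg : ∀ x, ρ g x ≠ x) : ∃ (s : T → T) (x : T), (∀ y, Γ.Adj y (s y)) ∧
    ∀ h, Commute h g → (∀ y, s (ρ h y) = ρ h (s y)) ∧ ∃ n m, s^[n] x = s^[m] (ρ h x) := by
  choose s a k using fun x => t3 hT (hg x).symm
  obtain ⟨x, -, hx⟩ := (measure fun x => Γ.dist (ρ g x) x).wf.has_min Set.univ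
    ⟨hT.1.nonempty.some, trivial⟩
  replace hx : ∀ y, ¬ Γ.dist (ρ g y) y < Γ.dist (ρ g x) x := fun y => hx y trivial
  have c : ∀ h, Commute h g → ∀ y, ρ g (ρ h y) = ρ h (ρ g y) := fun h c y => by
    rw [← Equiv.Perm.mul_apply, ← map_mul, ← c.eq, map_mul, Equiv.Perm.mul_apply]
  have mn : ∀ y, Γ.dist (ρ g y) y = Γ.dist (ρ g x) x → Γ.dist (ρ g (s y)) (s y) = Γ.dist (ρ g x) x :=
    fun y h => by
      have := hT.dist_eq_dist_add_one_of_adj (s y) (hρ g _ _ (a y))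
      have := hx (s y)
      have := k y
      grind [Γ.dist_comm]
  have r : ∀ N y y', Γ.dist y y' = N → Γ.dist (ρ g y) y = Γ.dist (ρ g x) x →
      Γ.dist (ρ g y') y' = Γ.dist (ρ g x) x → ∃ n m, s^[n] y = s^[m] y' := by
    intro N
    induction N with
    | zero => exact fun y y' h _ _ => ⟨0, 0, hT.1.dist_eq_zero_iff.1 h⟩
    | succ N ih =>
      intro y y' h h1 h2
      have b1 := hT.dist_eq_dist_add_one_of_adj y' (a y)
      have b2 := hT.dist_eq_dist_add_one_of_adj y (a y')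
      by_cases e : Γ.dist y' (s y) < Γ.dist y' y
      · obtain ⟨n, m, h⟩ := ih (s y) y' (by grind [Γ.dist_comm]) (mn y h1) h2
        exact ⟨n + 1, m, h⟩
      by_cases e' : Γ.dist y (s y') < Γ.dist y y'
      · obtain ⟨n, m, h⟩ := ih y (s y') (by omega) h1 (mn y' h2)
        exact ⟨n, m + 1, h⟩
      have k1 := k y
      have k2 := k y'
      have h3 := t5 hT y' (ρ g y) _ y _ rfl (a y) (by omega) (by omega)
      have h4 := hT.dist_eq_dist_add_one_of_adj (ρ g y) (a y')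
      have h5 := t4 hT ρ hρ g y y'
      have h6 : Γ.dist (ρ g y) y' < Γ.dist (ρ g y) (s y') := lt_of_not_ge fun c => by
        have := t5 hT y (ρ g y) _ y' _ rfl (a y') (by omega) (by omega)
        grind [Γ.dist_comm]
      have := t5 hT (ρ g y) (ρ g y') _ y' _ rfl (a y') (by omega) h6
      grind [Γ.dist_comm]
  refine ⟨s, x, a, fun h hc => ⟨fun y => t2 hT (w := ρ g (ρ h y)) (a _) (hρ h _ _ (a y))
    (by have := k (ρ h y); omega) ?_, r _ _ _ rfl rfl (by rw [c h hc, t4 hT ρ hρ])⟩⟩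
  rw [c h hc, t4 hT ρ hρ, t4 hT ρ hρ]
  have := k y
  omega

theorem fixed {ι : Type} [Finite ι] (z : Multiplicative (ι → ℤ) →* G)
    (E : ∀ u v, Γ.Adj u v → ∀ χ : (ι → ℤ) →ₗ[ℤ] ℤ,
      ¬ ∀ a, χ a = 0 → ρ (z (ofAdd a)) u = u ∧ ρ (z (ofAdd a)) v = v) :
    ∃ x, ∀ a, ρ (z a) x = x := by
  classical
  have sp : ∀ (J : Submodule ℤ (ι → ℤ)), ∃ F : Finset (ι → ℤ), (∀ a ∈ F, a ∈ J) ∧ ∀ y,
      (∀ a ∈ F, ρ (z (ofAdd a)) y = y) → ∀ a ∈ J, ρ (z (ofAdd a)) y = y := fun J => by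
    obtain ⟨F, rfl⟩ := IsNoetherian.noetherian J
    refine ⟨F, fun a h => Submodule.subset_span h, fun y h a m => ?_⟩
    rw [← Submodule.mem_toAddSubgroup, Submodule.span_int_eq_addSubgroupClosure] at m
    induction m using AddSubgroup.closure_induction with
    | mem => exact h _ ‹_›
    | zero => simp
    | add a b _ _ h1 h2 => simp [ofAdd_add, h1, h2]
    | neg a _ h1 => simpa [ofAdd_neg, Equiv.symm_apply_eq] using h1.symm
  by_cases h : ∀ b, ∃ x, ρ (z b) x = x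
  · obtain ⟨F, -, k⟩ := sp ⊤
    exact (fix_fin hT ρ hρ z h (F.image ofAdd)).imp fun x e a =>
      k x (fun a m => e _ (Finset.mem_image_of_mem _ m)) _ trivial
  push Not at h
  obtain ⟨b, h⟩ := h
  obtain ⟨s, x, a, k⟩ := hyp hT ρ hρ h
  replace k := fun c => k (z (ofAdd c)) ((Commute.all _ b).map z)
  have it : ∀ c n y, s^[n] (ρ (z (ofAdd c)) y) = ρ (z (ofAdd c)) (s^[n] y) := fun c n =>
    (Function.Commute.iterate_left (k c).1 n :)
  let R : AddSubgroup ((ι → ℤ) × ℤ) :=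
    { carrier := {p | ∃ N : ℕ, ∀ n m : ℕ, N ≤ n → N ≤ m → n = m + p.2 →
        ρ (z (ofAdd p.1)) (s^[m] x) = s^[n] x}
      zero_mem' := ⟨0, fun n m _ _ h => by simp [show n = m by simpa using h]⟩
      add_mem' := by
        rintro p q ⟨N, h1⟩ ⟨M, h2⟩
        refine ⟨N + M + q.2.natAbs, fun n m h3 h4 h5 => ?_⟩
        rw [Prod.snd_add] at h5
        rw [Prod.fst_add, ofAdd_add, map_mul, map_mul, Equiv.Perm.mul_apply,
          h2 (m + q.2).toNat m (by omega) (by omega) (by omega), h1 n _ (by omega) (by omega) (by omega)]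
      neg_mem' := by
        rintro p ⟨N, h1⟩
        refine ⟨N, fun n m h3 h4 h5 => ?_⟩
        rw [Prod.snd_neg] at h5
        simp [← h1 m n h4 h3 (by omega), ofAdd_neg] }
  have : ∀ c, ∃ δ, (c, δ) ∈ R := fun c => by
    obtain ⟨n, m, e⟩ := (k c).2
    refine ⟨n - m, m, fun n' m' _ h4 h5 => ?_⟩
    obtain ⟨j, rfl⟩ := Nat.exists_eq_add_of_le' h4
    obtain rfl : n' = j + n := by simp only at h5; omega
    rw [← it, Function.iterate_add_apply, Function.iterate_add_apply, e]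
  choose δ hδ using this
  have := Fintype.ofFinite ι
  let χ : (ι → ℤ) →ₗ[ℤ] ℤ := Fintype.linearCombination ℤ fun i => δ (Pi.single i 1)
  obtain ⟨F, h1, h2⟩ := sp (LinearMap.ker χ)
  have : ∀ c, (c, χ c) ∈ R := fun c => by
    convert R.sum_mem (t := Finset.univ) fun i _ => R.zsmul_mem (hδ (Pi.single i 1)) (c i) using 1
    ext j <;> simp [Prod.fst_sum, Prod.snd_sum, χ, Fintype.linearCombination_apply, Pi.single_apply]
  choose N hN using this
  have e : ∀ n, F.sup N ≤ n → ∀ c ∈ LinearMap.ker χ, ρ (z (ofAdd c)) (s^[n] x) = s^[n] x := fun n l =>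
    h2 _ fun c m => hN c n n ((Finset.le_sup m).trans l) ((Finset.le_sup m).trans l)
      (by simpa using h1 c m)
  exact (E _ _ (a (s^[F.sup N] x)) χ fun c m => ⟨e _ le_rfl c m, by
    simpa [Function.iterate_succ_apply'] using e (_ + 1) (Nat.le_succ _) c m⟩).elim

theorem nosplit (z : Multiplicative (Fin 4 → ℤ) →* G) (hz : Function.Injective z) (M : Subgroup G)
    [hn : M.Normal] [Infinite M] (hM : ∀ m ∈ M, m ^ 2 = 1)
    (hc : ∀ m ∈ M, ∀ a, a 0 = 0 → Commute m (z (ofAdd a)))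
    (hE : ∀ u v, Γ.Adj u v → ∀ H : Subgroup G, (∀ g, g ∈ H ↔ (ρ g u = u ∧ ρ g v = v)) →
      ∃ K : Subgroup G, K ≤ H ∧ (K.subgroupOf H).index ≠ 0 ∧
        Nonempty (K ≃* Multiplicative (Fin 2 → ℤ))) : ∃ v, ∀ g, ρ g v = v := by
  replace hE := fun u v a => hE u v a ((MulAction.stabilizer _ u ⊓ MulAction.stabilizer _ v).comap ρ)
    fun _ => Iff.rfl
  have E : ∀ u v, Γ.Adj u v → ∀ χ : (Fin 4 → ℤ) →ₗ[ℤ] ℤ,
      ¬ ∀ a, χ a = 0 → ρ (z (ofAdd a)) u = u ∧ ρ (z (ofAdd a)) v = v := fun u v a χ h => by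
    obtain ⟨K, -, i, ⟨e⟩⟩ := hE u v a
    have m : ∀ a : LinearMap.ker χ, z (ofAdd a.1) ^ (K.subgroupOf _).index.factorial ∈ K := fun a =>
      Subgroup.pow_mem_of_index_ne_zero_of_dvd i ⟨_, h a a.2⟩ fun _ => Nat.dvd_factorial
    let θ : LinearMap.ker χ →+ (Fin 2 → ℤ) := AddMonoidHom.mk' (fun a => (e ⟨_, m a⟩).toAdd) fun a b => by
      rw [← toAdd_mul, ← map_mul]
      congr 3
      simp only [← map_pow, ← map_mul, ← mul_pow]
      rfl
    have := LinearMap.finrank_le_finrank_of_injective (f := θ.toIntLinearMap)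
      ((injective_iff_map_eq_zero θ).2 fun a h => by
        have := congrArg Subtype.val (e.map_eq_one_iff.1 (toAdd_eq_zero.1 h))
        simpa [← map_pow, map_eq_one_iff z hz, Nat.factorial_ne_zero] using this)
    have h1 := (LinearMap.ker χ).finrank_quotient_add_finrank
    have h2 := (LinearMap.range χ).finrank_le
    rw [χ.quotKerEquivRange.finrank_eq] at h1
    simp at *
    omega
  obtain ⟨v, hv⟩ := fixed hT ρ hρ z E
  have h1 : ∀ m ∈ M, ρ m v = v := fun m k => by_contra fun e => by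
    obtain ⟨u, w, a, h⟩ := fix_edge hT ρ hρ {g | ∃ a, a 0 = 0 ∧ z (ofAdd a) = g} e (by
      rintro _ ⟨a, h, rfl⟩
      rw [← Equiv.Perm.mul_apply, ← map_mul, ← (hc m k a h).eq, map_mul, Equiv.Perm.mul_apply, hv])
      (by rintro _ ⟨a, h, rfl⟩; exact hv _)
    exact E u w a (.proj 0) fun a k => h _ ⟨a, k, rfl⟩
  refine ⟨v, fun g => by_contra fun e => ?_⟩
  obtain ⟨u, w, a, h⟩ := fix_edge hT ρ hρ M e (fun m k => by
    simpa [Equiv.symm_apply_eq] using h1 _ (hn.conj_mem' m k g)) h1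
  obtain ⟨K, -, i, ⟨e⟩⟩ := hE u w a
  have := Subgroup.finiteIndex_iff.2 i
  obtain ⟨m, m', h2, h3⟩ := Finite.exists_ne_map_eq_of_infinite fun m : M =>
    (QuotientGroup.mk ⟨m, h m m.2⟩ : _ ⧸ K.subgroupOf
      ((MulAction.stabilizer _ u ⊓ MulAction.stabilizer _ w).comap ρ))
  replace h3 : m.1⁻¹ * m' ∈ K := Subgroup.mem_subgroupOf.1 (QuotientGroup.eq.1 h3)
  have h4 : (⟨_, h3⟩ : K) ^ 2 = 1 := Subtype.ext (hM _ (m⁻¹ * m').2)
  have := congrArg Subtype.val (e.map_eq_one_iff.1 ((pow_eq_one_iff_left two_ne_zero).1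
    ((map_pow e _ 2).symm.trans (by rw [h4, map_one]))))
  exact h2 (Subtype.ext (inv_mul_eq_one.1 this))

end Pool.Agent.H21.TreeAct
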