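import Mathlib
import Pool.Agent.H21.Lamp
import Pool.Agent.H21.Leb
import Pool.Agent.H21.TreeAct

namespace Pool.Agent.H21.Sep

open Aff Multiplicative Monoid Monoid.Coprod Classical Leb

abbrev A := Fin 4 → ℤ

abbrev P := Multiplicative A ∗ ℤˣ

abbrev X := A × List {a : A // a ≠ 0} × Bool

noncomputable def κ : X → X
  | (h, l, f) => if k : h = 0 then match l with
      | [] => (0, [], !f)
      | s :: l => (s, l, f)
    else (0, ⟨h, k⟩ :: l, f)

lemma κκ : Function.Involutive κ := by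
  rintro ⟨h, _ | ⟨s, l⟩, f⟩ <;> by_cases k : h = 0 <;> simp [κ, k]
  simp [s.2]

def u {H : Type} [Group H] (c : H) (h : c * c = 1) : ℤˣ →* H :=
  MonoidHom.mk' (fun x => if x = 1 then 1 else c) fun a b => by
    rcases Int.units_eq_one_or a with rfl | rfl <;> rcases Int.units_eq_one_or b with rfl | rfl <;> simp [h]

noncomputable def α : P →* Equiv.Perm X := lift
  (MonoidHom.mk' (fun a => (Equiv.addLeft a.toAdd).prodCongr (.refl _)) fun a b => by
    ext <;> simp [add_assoc]) (u κκ.toPerm (Equiv.ext κκ))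

def ev (x : X) : P := inl (ofAdd x.1) * ((x.2.1.map fun s => inr (-1) * inl (ofAdd s.1)).prod *
  if x.2.2 then inr (-1) else 1)

lemma cc : (inr (-1) * inr (-1) : P) = 1 := by simp [← map_mul]

lemma ev_α (p : P) : ∀ x, ev (α p x) = p * ev x := by
  induction p using induction_on with
  | inl a => simp [α, ev, ofAdd_add, mul_assoc]
  | inr a =>
    rcases Int.units_eq_one_or a with rfl | rfl
    · simp
    rintro ⟨h, _ | ⟨s, l⟩, f⟩ <;> by_cases k : h = 0 <;> cases f <;>
      simp [α, u, ev, κ, k, cc, ← mul_assoc]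
  | mul p q h k => simp [h, k, mul_assoc]

def x0 : X := (0, [], false)

lemma free {p : P} (h : α p x0 = x0) : p = 1 := by
  have := ev_α p x0
  rw [h] at this
  simpa [ev, x0] using this.symm

lemma flag {q : P} (h : q ∈ (inl : _ →* P).range ∨ q ∈ (inr : _ →* P).range) (x : X) :
    (α q x).2.2 = x.2.2 ∨ x = x0 ∨ α q x = x0 := by
  rcases h with ⟨a, rfl⟩ | ⟨a, rfl⟩
  · simp [α]
  rcases Int.units_eq_one_or a with rfl | rfl
  · simp
  obtain ⟨h, _ | ⟨s, l⟩, f⟩ := x <;> by_cases k : h = 0 <;> cases f <;> simp [α, u, κ, k, x0]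

def e0 : Multiplicative A →* Multiplicative ℤ := (Pi.evalAddMonoidHom (fun _ => ℤ) 0).toMultiplicative

def i0 : Multiplicative ℤ →* Multiplicative A := (AddMonoidHom.single (fun _ => ℤ) 0).toMultiplicative

noncomputable def φ : P →* MulAut (Multiplicative (ℤ →₀ ZMod 2)) :=
  (shift ℤ (ZMod 2)).comp (e0.comp fst)

abbrev G := Multiplicative (ℤ →₀ ZMod 2) ⋊[φ] P

noncomputable def j : Lamp.G →* G := SemidirectProduct.map (.id _) (inl.comp i0) fun g => by
  ext1; simp [φ, e0, i0]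

noncomputable def r : G →* Lamp.G := SemidirectProduct.map (.id _) (e0.comp fst) fun _ => rfl

noncomputable def z : Multiplicative A →* G := SemidirectProduct.inr.comp inl

noncomputable def π : G →* Multiplicative A := fst.comp SemidirectProduct.rightHom

lemma πz (a) : π (z a) = a := by simp [π, z]

lemma rj (g) : r (j g) = g := by ext <;> simp [r, j, e0, i0]

lemma πj (g) : π (j g) = i0 g.2 := by simp [π, j]

lemma rz {a : A} (h : a 0 = 0) : r (z (ofAdd a)) = 1 := by ext <;> simp [r, z, e0, h]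

lemma cz {a : A} (h : a 0 = 0) (g) : Commute (j g) (z (ofAdd a)) := by
  refine SemidirectProduct.ext (?_ : g.1 * φ _ 1 = 1 * φ (inl (ofAdd a)) g.1)
    ((Commute.all (i0 g.2) (ofAdd a)).map inl)
  simp [φ, e0, h]

noncomputable def S : Finset G := Lamp.S.image j ∪ Finset.univ.image (fun i => z (ofAdd (Pi.single i 1))) ∪
  {.inr (inr (-1))}

lemma top : Subgroup.closure (S : Set G) = ⊤ := by
  refine eq_top_iff.2 fun g _ => g.inl_left_mul_inr_right ▸ mul_mem ?_ ?_
  · have : (Subgroup.closure (Lamp.S : Set Lamp.G)).map j ≤ Subgroup.closure (S : Set G) := by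
      rw [MonoidHom.map_closure]
      exact Subgroup.closure_mono fun x h => by simpa [S] using .inr (.inl h)
    exact this ⟨.inl g.1, by simp [Lamp.top], by ext <;> simp [j]⟩
  induction g.2 using induction_on with
  | inl a =>
    have : a = ∏ i, ofAdd (Pi.single i 1) ^ a.toAdd i := by
      ext i; simp [toAdd_prod, Pi.single_apply]
    change z a ∈ _
    refine Subgroup.mem_comap.1 (this ▸ prod_mem fun i _ => zpow_mem ?_ _)
    exact Subgroup.subset_closure (by simp [S])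
  | inr a =>
    rcases Int.units_eq_one_or a with rfl | rfl
    · simp
    · exact Subgroup.subset_closure (by simp [S])
  | mul p q h k => exact map_mul (SemidirectProduct.inr (φ := φ)) p q ▸ mul_mem h k

noncomputable def w (g : G) : Bool := (α g.2⁻¹ x0).2.2

lemma side {a b : G} (p : (Cay S).Walk a b) (h : ∀ v ∈ p.support, v.2 ≠ 1) : w a = w b := by
  induction p with
  | nil => rfl
  | @cons a b _ k p ih =>
    refine Eq.trans ?_ (ih fun v m => h v (by simp [m]))
    have t : ∀ s ∈ S, s.2 ∈ (inl : _ →* P).range ∨ s.2 ∈ (inr : _ →* P).range := by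
      simp +contextual [S, or_imp, forall_and, j, z]
      exact fun _ _ => .inl ⟨_, rfl⟩
    rcases flag (q := (b⁻¹ * a).2) (k.2.elim (fun k => by simpa using (t _ k).imp inv_mem inv_mem) (t _))
      (α a.2⁻¹ x0) with e | e | e
    · simpa [w] using e.symm
    · exact absurd (by simpa using free e) (h a (by simp))
    · exact absurd (by simpa using free (p := b.2⁻¹) (by simpa using e)) (h b (by simp))

noncomputable def f (a : Fin 2 → ℤ) : G := j (Lamp.e (a 0).toNat) * z (ofAdd ![0, min (a 0) 0, a 1, 0])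

lemma ff (a b) : (f a)⁻¹ * f b = j ((Lamp.e (a 0).toNat)⁻¹ * Lamp.e (b 0).toNat) *
    z (ofAdd ![0, min (b 0) 0 - min (a 0) 0, b 1 - a 1, 0]) := by
  rw [f, f, mul_inv_rev, mul_assoc, ← mul_assoc (j _)⁻¹, ← map_inv j, ← map_mul, ← mul_assoc,
    ← (cz rfl _).inv_right.eq, mul_assoc, ← map_inv, ← map_mul]
  congr 2
  ext i
  fin_cases i <;> simp [add_comm, sub_eq_add_neg]

lemma eq : Lamp.Γ = Cay Lamp.S := by
  unfold Lamp.Γ Cay
  congr
  ext
  simp [← inv_mul_eq_iff_eq_mul]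

lemma f1 (n : ℕ) : ∃ B : Set G, B.Finite ∧ ∀ a b : Fin 2 → ℤ, (∑ i, |a i - b i|).toNat ≤ n →
    (f a)⁻¹ * f b ∈ B := by
  refine ⟨_, (fb Lamp.top (2 * n)).image2 (fun g a => j g * z (ofAdd a)) (cube n), fun a b h =>
    ⟨_, ?_, _, fun i => ?_, (ff a b).symm⟩⟩ <;> rw [Fin.sum_univ_two] at h
  · rw [Set.mem_ofPred, ← dl Lamp.top, ← eq]
    rcases le_total (a 0).toNat (b 0).toNat with k | k <;> obtain ⟨c, k⟩ := Nat.exists_eq_add_of_le k
    · exact k ▸ (Lamp.e_lip _ c).trans (by grind)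
    · exact k ▸ SimpleGraph.dist_comm.trans_le ((Lamp.e_lip _ c).trans (by grind))
  · fin_cases i <;> simp <;> grind

lemma f2 (B : Set G) (h : B.Finite) : ∃ n, ∀ a b : Fin 2 → ℤ, (f a)⁻¹ * f b ∈ B →
    (∑ i, |a i - b i|).toNat ≤ n := by
  obtain ⟨R, h1⟩ := bd h fun g => (Cay Lamp.S).dist 1 (r g) + ((π g).toAdd 1).natAbs + ((π g).toAdd 2).natAbs
  obtain ⟨N, h2⟩ := Lamp.e_far R
  refine ⟨N + R, fun a b k => ?_⟩
  have := h1 _ k
  rw [ff, map_mul r, rj, rz rfl, mul_one, ← dl Lamp.top, ← eq] at this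
  have h3 := h2 (a 0).toNat (b 0).toNat (by omega)
  have h4 := h2 (b 0).toNat (a 0).toNat (SimpleGraph.dist_comm.trans_le (by omega))
  simp [πj, πz, i0] at this
  rw [Fin.sum_univ_two]
  grind

lemma sep (D : ℕ) : ∃ x y : G, (∀ a, 0 + D < (Cay S).dist x (f a)) ∧ (∀ a, 0 + D < (Cay S).dist y (f a)) ∧
    ¬ ∃ p : (Cay S).Walk x y, ∀ v ∈ p.support, ∀ a, 0 < (Cay S).dist v (f a) := by
  obtain ⟨R, h⟩ := bd (fb top D) fun g => ((π g).toAdd 3).natAbs
  have k : ∀ x, (π x).toAdd 3 = R + 1 → ∀ a, 0 + D < (Cay S).dist x (f a) := fun x k a =>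
    lt_of_not_ge fun e => by
      have := h _ ((dl top _ _).symm.trans_le (e.trans (by simp)))
      simp [f, πj, πz, i0, k, Matrix.vecHead, Matrix.vecTail] at this
      omega
  refine ⟨.inr (inr (-1)) * z (ofAdd ![0, 0, 0, R + 1]), z (ofAdd ![0, 0, 0, R + 1]), k _ (by simp [π, z]),
    k _ (by simp [πz]), fun ⟨p, h⟩ => absurd (side p fun v m e => ?_) (by simp [w, z, α, u, κ, x0])⟩
  obtain ⟨n, k⟩ := Lamp.e_surj v.1.toAdd
  refine (h v m ![n, 0]).ne' ((cn top).dist_eq_zero_iff.2 ?_)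
  ext1 <;> simp [f, k, e, j, z, Lamp.mk, show (![0, 0, 0, 0] : A) = 0 by decide]

end Pool.Agent.H21.Sep
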