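import Pool.Agent.H21.Ten4
import Pool.Agent.H21.DS

namespace Pool.Agent.H21.ER

open Pool.Agent.H11.PT List

set_option maxRecDepth 100000

abbrev Gt := ℕ × ℕ × ℕ
def Gt.ev (v : ℕ → ℝ) (g : Gt) : ℝ := if g.1 = 1 then v g.2.1 + v g.2.2 else v g.2.1 * v g.2.2
def Gt.ok (v : ℕ → ℝ) (k : ℕ) (g : Gt) : Prop := g.1 ≠ 0 → v k = g.ev v
def Gt.val (k : ℕ) (g : Gt) : Prop := g.1 ≠ 0 → 1 ≤ g.2.1 ∧ g.2.1 < k ∧ 1 ≤ g.2.2 ∧ g.2.2 < k ∧
  (g.1 ≠ 1 → 2 ≤ g.2.1 ∧ 2 ≤ g.2.2)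
def kb (s p q : ℕ) : List Gt := [(0, 0, 0), (1, s, p), (2, s, q), (2, s + 1, q)]
def mb (s : ℕ) (m : ℕ × ℕ) : List Gt := kb s (2 * m.1 + 3) (2 * m.2 + 3) ++ (kb (s + 4) (2 * m.1 + 3) (2 * m.2 + 2) ++
  (kb (s + 8) (2 * m.1 + 2) (2 * m.2 + 3) ++ kb (s + 12) (2 * m.1 + 2) (2 * m.2 + 2)))
def pi (s : ℕ) : List ℕ := [s + 3, s + 6, s + 6, s + 10, s + 10, s + 15, s + 15, s + 15, s + 15]
def ni (s : ℕ) : List ℕ := [s + 2, s + 7, s + 7, s + 11, s + 11, s + 14, s + 14, s + 14, s + 14]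
def ch (t : ℕ) (L : List ℕ) : List Gt := (0, 0, 0) :: L.zipIdx.map fun p => (1, t + p.2, p.1)
def gb (M s : ℕ) (h : H3) : List Gt := mb s h.1 ++ (mb (s + 16) h.2.1 ++ (mb (s + 32) h.2.2 ++
  (ch (s + 48) (ni s ++ (ni (s + 16) ++ pi (s + 32))) ++ (ch (s + 76) (1 :: pi s ++ (pi (s + 16) ++ ni (s + 32))) ++
  [(1, s + 75, s + 76), (1, s + 104, s + 48), (2, s + 105, M), (2, s + 106, M), (1, s + 107, M + 1),
    (1, s + 108, 2)]))))
def GG (D k : ℕ) (H : List H3) (n : ℕ) : Gt :=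
  if n = 2 then (1, 1, 1) else if n = 3 then (1, 2, 1) else if n ≤ 2 * D + 2 then (0, 0, 0)
  else if n ≤ 2 * D + 2 + k then (2, n - 1, n - 1) else if n = 2 * D + 3 + k then (1, n - 1, 1)
  else (gb (2 * D + 2 + k) (n - (n - (2 * D + 4 + k)) % 111)
    (H.getD ((n - (2 * D + 4 + k)) / 111) ((0, 0), (0, 0), 0, 0))).getD ((n - (2 * D + 4 + k)) % 111) (0, 0, 0)
def ss (φ : Qf) : List Gt := (range (2 * DD φ + 4 + (kk φ + (HH φ).length) + 111 * (HH φ).length)).map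
  (GG (DD φ) (kk φ + (HH φ).length) (HH φ))

@[fun_prop] theorem ss_pt : PT ss := by
  have h1 : PT kk := by unfold kk; fun_prop
  unfold ss GG gb ch mb kb pi ni; fun_prop

lemma GG_blk {D k j r : ℕ} {H : List H3} (hD : 0 < D) (hj : j < H.length) (hr : r < 111) :
    GG D k H (2 * D + 4 + k + 111 * j + r) = (gb (2 * D + 2 + k) (2 * D + 4 + k + 111 * j) H[j]).getD r (0, 0, 0) := by
  have a : (2 * D + 4 + k + 111 * j + r - (2 * D + 4 + k)) % 111 = r := by omega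
  have b : (2 * D + 4 + k + 111 * j + r - (2 * D + 4 + k)) / 111 = j := by omega
  rw [GG, if_neg (by omega), if_neg (by omega), if_neg (by omega), if_neg (by omega), if_neg (by omega), a, b,
    getD_eq_getElem _ _ hj, Nat.add_sub_cancel]

def xx (v : ℕ → ℝ) (i : ℕ) : ℝ := 2 * v (2 * i + 2) - v (2 * i + 3)

def AllAt (P : ℕ → Gt → Prop) : ℕ → List Gt → Prop
  | _, [] => True
  | s, g :: L => P s g ∧ AllAt P (s + 1) L
lemma allAt_iff {P : ℕ → Gt → Prop} (L : List Gt) : ∀ s, AllAt P s L ↔ ∀ r < L.length, P (s + r) (L.getD r (0, 0, 0)) := by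
  induction L with
  | nil => simp [AllAt]
  | cons g L ih => intro s; simp only [AllAt, ih, length_cons, Nat.forall_lt_succ_left]; simp [add_assoc, add_comm 1]
lemma gb_len (M s h) : (gb M s h).length = 111 := by simp [gb, mb, kb, ch, pi, ni]

lemma gb_ok {M s : ℕ} {h : H3} {v : ℕ → ℝ} {n : ℕ} (hn : n ≤ 111)
    (H : ∀ r < n, ((gb M s h).getD r (0, 0, 0)).ok v (s + r)) :
    AllAt (fun k g => g.ok v k) s ((gb M s h).take n) := (allAt_iff _ _).2 fun r hr => by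
  rw [length_take, gb_len] at hr
  simpa [getElem?_take, show r < n by omega] using H r (by omega)

lemma gb_sum {M s : ℕ} {h : H3} {v : ℕ → ℝ} (h1 : v 1 = 1)
    (H : ∀ r < 105, ((gb M s h).getD r (0, 0, 0)).ok v (s + r)) :
    v (s + 104) - v (s + 76) - (v (s + 75) - v (s + 48)) = 1 + h.q (xx v) := by
  have := gb_ok (by omega) H
  simp [AllAt, gb, mb, kb, ch, pi, ni, Gt.ok, Gt.ev, add_assoc] at this
  simp only [H3.q, mv, xx]
  grind

lemma gb_val {M s D : ℕ} {h : H3} (hM : 2 * D + 2 ≤ M) (hs : M + 2 ≤ s) (hb : Bd D [h]) (r : ℕ) (hr : r < 111) :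
    ((gb M s h).getD r (0, 0, 0)).val (s + r) := by
  simp only [Bd, forall_mem_cons] at hb
  refine (allAt_iff (P := fun k g => g.val k) _ _).1 ?_ r (by rwa [gb_len])
  simp [AllAt, gb, mb, kb, ch, pi, ni, Gt.val]; omega

def IncAt (u : ℕ → ℝ) : ℕ → List Gt → Prop
  | _, [] => True
  | s, g :: L => (g.1 ≠ 0 → u (s - 1) < g.ev u) ∧ (g.ok u s → IncAt u (s + 1) L)
lemma incAt_get {u : ℕ → ℝ} (L : List Gt) : ∀ s r, IncAt u s L → (∀ r' < r, (L.getD r' (0, 0, 0)).ok u (s + r')) →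
    (L.getD r (0, 0, 0)).1 ≠ 0 → u (s + r - 1) < (L.getD r (0, 0, 0)).ev u := by
  induction L with
  | nil => simp
  | cons g L ih =>
    rintro s (_ | r) h a c
    · exact h.1 c
    · rw [← add_assoc, add_right_comm]
      exact ih _ r (h.2 (a 0 (by omega))) (fun r' hr => by rw [add_right_comm]; exact a (r' + 1) (by omega)) c
lemma incAt_app {u : ℕ → ℝ} (L R : List Gt) : ∀ s, IncAt u s L →
    (AllAt (fun k g => g.ok u k) s L → IncAt u (s + L.length) R) → IncAt u s (L ++ R) := by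
  induction L with
  | nil => simp [AllAt]
  | cons g L ih => exact fun s h a => ⟨h.1, fun b => ih _ (h.2 b) fun c => by
      rw [add_right_comm]; exact a ⟨b, c⟩⟩

lemma gb_inc {M s D r : ℕ} {h : H3} {u : ℕ → ℝ} (u1 : StrictMono u) (e1 : u 1 = 1) (p : ∀ j, 2 ≤ j → 2 ≤ u j)
    (hM : u (M + 1) = u M + 1) (q0 : h.q (xx u) = 0) (hs : M + 2 ≤ s) (hs' : 2 * D + 2 ≤ M) (hb : Bd D [h])
    (a : ∀ r' < r, ((gb M s h).getD r' (0, 0, 0)).ok u (s + r'))
    (c : ((gb M s h).getD r (0, 0, 0)).1 ≠ 0) : u (s + r - 1) < ((gb M s h).getD r (0, 0, 0)).ev u := by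
  simp only [Bd, forall_mem_cons] at hb
  have p1 (j) (hj : 1 ≤ j) : 0 < u j := by have := u1.monotone hj; linarith
  have K (t a b) (ha : 2 ≤ a ∧ a < t) (hb : 2 ≤ b) : IncAt u t (kb t a b) := by
    have := p a ha.1; have := p b hb; have := u1 ha.2
    simp [IncAt, kb, Gt.ok, Gt.ev]
    refine ⟨by linarith, fun h => ⟨by nlinarith, fun h' => by rw [h, h']; nlinarith⟩⟩
  have B (t) (m : ℕ × ℕ) (h : 2 * m.1 + 3 < t) : IncAt u t (mb t m) :=
    incAt_app _ _ _ (K _ _ _ (by omega) (by omega)) fun _ => incAt_app _ _ _ (K _ _ _ (by omega) (by omega)) fun _ =>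
      incAt_app _ _ _ (K _ _ _ (by omega) (by omega)) fun _ => K _ _ _ (by omega) (by omega)
  by_cases hr : r < 105
  · have : IncAt u s ((gb M s h).take 105) := by
      rw [show (gb M s h).take 105 = mb s h.1 ++ (mb (s + 16) h.2.1 ++ (mb (s + 32) h.2.2 ++
        (ch (s + 48) (ni s ++ (ni (s + 16) ++ pi (s + 32))) ++
          ch (s + 76) (1 :: pi s ++ (pi (s + 16) ++ ni (s + 32)))))) by simp [gb, mb, kb, ch, pi, ni]]
      refine incAt_app _ _ _ (B _ _ (by omega)) fun _ => incAt_app _ _ _ (B _ _ (by omega)) fun _ =>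
        incAt_app _ _ _ (B _ _ (by omega)) fun _ => ?_
      simp [IncAt, mb, kb, ch, pi, ni, Gt.ev, add_assoc, p1]
    have := incAt_get _ s r this
    simp only [getD_eq_getElem?_getD, getElem?_take, hr, if_true] at this a c ⊢
    exact this (fun r' h => by rw [if_pos (by omega)]; exact a r' h) c
  have b := gb_sum e1 fun r' hr' => a r' (by omega)
  have a1 := a 105; have a2 := a 106; have a3 := a 107; have a4 := a 108; have a5 := a 109
  have := p (s + 48) (by omega); have := p (s + 75) (by omega); have := p (s + 76) (by omega)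
  have := p M (by omega); have := p 2 le_rfl
  have hr' : r < 111 := by
    by_contra k; rw [getD_eq_default _ _ (by rw [gb_len]; omega)] at c; exact c rfl
  simp [gb, mb, kb, ch, pi, ni, Gt.ev, Gt.ok] at a1 a2 a3 a4 a5
  clear a c
  interval_cases r <;> simp [gb, mb, kb, ch, pi, ni, Gt.ev, add_assoc] at a1 a2 a3 a4 a5 ⊢ <;> nlinarith

end Pool.Agent.H21.ER
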