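import Pool.Agent.H21.Sg8

namespace Pool.Agent.H21.LV

open Pool.Agent.H11.PT Pool.Agent.H21.ER Filter Topology Metric

lemma sn_t : sn true = 1 := rfl
lemma sn_f : sn false = -1 := rfl
lemma sn_le (b : Bool) : -1 ≤ sn b := by cases b <;> simp [sn]

lemma inS {j : ℕ} (x y w : ℝ) (f : Fin j → ℝ) (c : Fin j) : inner ℝ (V3 x y f) (V3 0 0 (Pi.single c w)) = f c * w := by
  simp [inV, Pi.single_apply]

theorem bl_compl {j : ℕ} {I : SI} (h : Strong I) : BallGraph (j + 3) (blG (j + 2) I) := by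
  obtain ⟨X, Y, a, b, h⟩ := h
  let q (l : Pt) := √(1 + a l ^ 2)
  have q0 (l) : 0 < q l := Real.sqrt_pos.2 (by positivity)
  have q2 (l) : q l ^ 2 = 1 + a l ^ 2 := Real.sq_sqrt (by positivity)
  let s (m : List Bool) (i : ℕ) := sn (m.getD i false)
  let θ (m : List Bool) := (s m 0 + s m 1) / 2
  let V := blV (j + 2) I
  obtain ⟨ε, hε, (ε0 : 0 < ε)⟩ := ((ev_list fun p hp => ev_list fun l hl => ev_list (L := V) fun u _ => ev_pos
    (f := fun e => sn ((p, l) ∈ I.2.2) * ((Y p + a l * X p + b l) / q l + e * θ u.2.2)) (by fun_prop) (by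
      simpa [mul_div_assoc'] using div_pos (h p hp l hl) (q0 l))).and self_mem_nhdsWithin).exists
  let x (D : ℝ) (u : Nm) : EuclideanSpace ℝ (Fin (j + 3)) := V3 (if u.1 = 0 then X u.2.1 else 0)
    (if u.1 = 0 then Y u.2.1 else D) fun i : Fin (j + 1) => ε * (s u.2.2 (i + 1) - θ u.2.2)
  obtain ⟨ρ, ρ0, ρ1, ρ2⟩ := ((eventually_gt_atTop 0).and ((ev_list (L := V) fun u _ => eventually_gt_atTop
    (-(ε * θ u.2.2))).and (ev_list (L := V) fun u _ => ev_list (L := V) fun v _ => eventually_ge_atTop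
    ((dist (x 0 u) (x 0 v) - ε * θ u.2.2 - ε * θ v.2.2) / 2)))).exists
  let r (u : Nm) := ρ + ε * θ u.2.2
  let N (v : Nm) : EuclideanSpace ℝ (Fin (j + 3)) := if v.1 = 3 then V3 0 0 (Pi.single (Fin.ofNat (j + 1) (v.2.1.1 - 1))
    (if v.2.1.1 = 0 then -1 else 1)) else V3 (a v.2.1 / q v.2.1) (1 / q v.2.1) 0
  let γ (v : Nm) := if v.1 = 3 then ρ else ρ - b v.2.1 / q v.2.1
  have hN (v) : ‖N v‖ = 1 := nV (by
    have := (q0 v.2.1).ne'; have := q2 v.2.1
    simp only [N]; split_ifs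
    · rw [inS]; simp
    · rw [inS]; simp
    · rw [inV]; simp; field_simp; linarith)
  obtain ⟨τ, hτ⟩ := (ev_list (L := V) fun v _ => eventually_gt_atTop (γ v * q v.2.1)).exists
  let z (σ : Bool) : EuclideanSpace ℝ (Fin (j + 3)) :=
    V3 0 τ fun i : Fin (j + 1) => if i = 0 then sn σ * (2 * ρ) else 2 * ρ
  have hG := fun D => (ev_list (L := V) fun v _ => (eventually_gt_atTop (γ v)).and ((ev_list (L := V) fun u _ =>
    huge_gt (hN v) (x D u) (γ v - r u)).and (eventually_all.2 fun σ => huge_gt (hN v) (z σ) (γ v)))).exists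
  obtain ⟨R1, h1⟩ := hG 0
  obtain ⟨D, hD⟩ := (ev_list (L := V) fun u _ => ev_list (L := V) fun v _ =>
    (eventually_gt_atTop (r u + (R1 - γ v) + (R1 • N v) 1)).and ((eventually_gt_atTop (r v + r u + x 0 v 1)).and
      (eventually_gt_atTop ((γ v - r u) * q v.2.1)))).exists
  obtain ⟨R2, h2⟩ := hG D
  let R (v : Nm) := if v.2.2 = [false] then R1 else R2
  have hR (v) (hv : v ∈ V) : γ v < R v ∧ ∀ σ, γ v < inner ℝ (z σ) (N v) → dist (z σ) (R v • N v) ≤ R v - γ v := by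
    simp only [R]; split_ifs; exacts [⟨(h1 v hv).1, (h1 v hv).2.2⟩, ⟨(h2 v hv).1, (h2 v hv).2.2⟩]
  have hz (v) (hv : v ∈ V) (h3 : ¬v.1 ≤ 1) (σ) (hσ : v.1 = 3 → v.2.1.1 ≤ 1 → σ = decide (v.2.1.1 = 1)) :
      γ v < inner ℝ (z σ) (N v) := by
    have := hτ v hv
    rcases mem_blV.1 hv with ⟨p, -, m, -, rfl⟩ | ⟨m, -, rfl⟩ | ⟨l, -, t, rfl⟩ | ⟨i, hi, rfl⟩
    · simp at h3
    · simp at h3
    · simp [γ, N, z, inV] at this ⊢; rwa [← div_eq_mul_inv τ, lt_div_iff₀ (q0 l)]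
    · rcases i with _ | _ | i
      · simp [γ, N, z, inS, hσ, sn, ρ0]
      · simp [γ, N, z, inS, hσ, sn, ρ0]
      · have : Fin.ofNat (j + 1) (i + 1) ≠ 0 := by
          rw [Ne, Fin.ext_iff, Fin.val_ofNat, Nat.mod_eq_of_lt (by omega)]; exact i.succ_ne_zero
        simp only [γ, N, z, inS, if_true, Nat.add_sub_cancel, this, if_false]; simp; linarith
  have hw (u) (hu : u ∈ V) (v) (hv : v ∈ V) (h3 : u.1 ≤ 1) (h4 : ¬v.1 ≤ 1) (h5 : ¬(u.1 = 1 ∧ v.2.2 = [false])) :
      0 < sn (blA I u v) * (inner ℝ (x D u) (N v) - (γ v - r u)) := by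
    rcases mem_blV.1 hv with ⟨p, -, m, -, rfl⟩ | ⟨m, -, rfl⟩ | ⟨l, hl, t, rfl⟩ | ⟨i, hi, rfl⟩
    · simp at h4
    · simp at h4
    · rcases mem_blV.1 hu with ⟨p, hp, m, -, rfl⟩ | ⟨m, -, rfl⟩ | ⟨l, -, t, rfl⟩ | ⟨i, hi, rfl⟩
      · refine (hε p hp l hl _ hu).trans_eq ?_
        simp [blA, x, N, γ, r, inV]; left; ring
      · have := (hD _ hu _ hv).2.2
        obtain rfl : t = true := by simpa using h5
        rw [← lt_div_iff₀ (q0 _)] at this
        simpa [blA, x, N, inV, sn, div_eq_mul_inv] using this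
      · simp at h3
      · simp at h3
    · have k (i) : 0 < s u.2.2 i * (ε * s u.2.2 i) := by rw [mul_left_comm, sn_sq]; simpa
      rcases i with _ | i
      · refine (k 0).trans_eq ?_
        simp [blA, x, N, γ, r, inS, h3, θ, s]; left; ring
      · refine (k (i + 1)).trans_eq ?_
        simp [blA, x, N, γ, r, inS, h3, Nat.mod_eq_of_lt (show i < j + 1 by omega), s]; left; ring
  let c (u : Nm) := if u.1 ≤ 1 then x D u else R u • N u
  let rr (u : Nm) := if u.1 ≤ 1 then r u else R u - γ u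
  have r0 (u) (hu : u ∈ V) : 0 < rr u := by
    have := ρ1 u hu; have := (hR u hu).1; simp only [rr, r]; split_ifs <;> linarith
  refine ⟨c, rr, r0, fun u hu v hv n => (mkG_of (R := fun u v => dist (c u) (c v) ≤ rr u + rr v)
    (fun u v => by rw [dist_comm, add_comm (rr u)]) ?_ u hu v hv n).trans (ball_iff (r0 u hu) (r0 v hv)).symm⟩
  clear hu hv n u v
  intro u hu v hv n hl
  simp only [c, rr]
  by_cases h4 : v.1 ≤ 1
  · have h3 := hl.trans h4
    simp only [blA, h3, h4, if_true, decide_eq_true_eq]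
    by_cases e : u.1 = v.1
    · refine iff_of_true e ?_
      have := ρ2 u hu v hv
      have k : dist (x D u) (x D v) = dist (x 0 u) (x 0 v) := by
        simp only [x, e]; split_ifs; exacts [rfl, dV _ _ _ _]
      simp only [r, k]; linarith
    · refine iff_of_false e (not_le.2 ?_)
      have := (hD v hv u hu).2.1
      have k := farV 0 D (fun i : Fin (j + 1) => ε * (s v.2.2 (i + 1) - θ v.2.2)) (x 0 u)
      rw [dist_comm]
      simp only [x, show u.1 = 0 by omega, show v.1 ≠ 0 by omega, if_true, if_false] at this k ⊢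
      linarith
  by_cases h3 : u.1 ≤ 1
  · simp only [h3, h4, if_true, if_false]
    by_cases h5 : u.1 = 1 ∧ v.2.2 = [false]
    · have := (hD u hu v hv).1
      have k := farV 0 D (fun i : Fin (j + 1) => ε * (s u.2.2 (i + 1) - θ u.2.2)) (R1 • N v)
      refine iff_of_false ?_ (not_le.2 ?_)
      · have := mem_blV.1 hv; simp [blA, h5, h4]; grind
      · simp only [x, R, h5, if_true, if_false, one_ne_zero]; linarith
    · have := hw u hu v hv h3 h4 h5
      cases e : blA I u v <;> simp only [e, sn_t, sn_f, Bool.false_eq_true, false_iff, true_iff, not_le] at this ⊢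
      · linarith [huge_lt (hN v) (show inner ℝ (x D u) (N v) < γ v - r u by linarith) (R v)]
      · simp only [R]; split_ifs with h6
        · have k : x D u = x 0 u := by simp only [x, show u.1 = 0 by grind, if_true]
          rw [k] at this ⊢; linarith [(h1 v hv).2.1 u hu (by linarith)]
        · linarith [(h2 v hv).2.1 u hu (by linarith)]
  simp only [blA, h3, h4, if_false, decide_eq_true_eq]
  by_cases e : u.1 = 3 ∧ v.1 = 3 ∧ u.2.1.1 + v.2.1.1 = 1
  · refine iff_of_false (not_not.2 e) (not_le.2 ?_)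
    have k : N u = -N v := by
      obtain e1 | e1 : u.2.1.1 = 0 ∧ v.2.1.1 = 1 ∨ u.2.1.1 = 1 ∧ v.2.1.1 = 0 := by omega
      all_goals ext i; induction i using Fin.cases; simp [N, e, e1, V3]; rename_i i; induction i using Fin.cases <;>
        simp [N, e, e1, V3, Pi.single_apply]; split_ifs <;> simp
    have k2 (v) (hv : v ∈ V) (h : v.1 = 3) : R v = R2 := by have := mem_blV.1 hv; grind
    rw [k, k2 u hu e.1, k2 v hv e.2.1, dist_eq_norm, ← smul_sub, ← neg_add', ← two_smul ℝ, norm_smul, norm_neg, norm_smul, hN]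
    simp only [γ, e, if_true, Real.norm_eq_abs, abs_two]; linarith [le_abs_self R2]
  · refine iff_of_true e ?_
    obtain ⟨σ, a1, a2⟩ : ∃ σ, (u.1 = 3 → u.2.1.1 ≤ 1 → σ = decide (u.2.1.1 = 1)) ∧
        (v.1 = 3 → v.2.1.1 ≤ 1 → σ = decide (v.2.1.1 = 1)) := by
      by_cases e : u.1 = 3 ∧ u.2.1.1 ≤ 1
      · exact ⟨decide (u.2.1.1 = 1), fun _ _ => rfl, by grind⟩
      · exact ⟨decide (v.2.1.1 = 1), by grind, fun _ _ => rfl⟩
    linarith [dist_triangle_left (R u • N u) (R v • N v) (z σ), (hR u hu).2 σ (hz u hu h3 σ a1),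
      (hR v hv).2 σ (hz v hv h4 σ a2)]

theorem bl_hard (d : ℕ) (hd : 3 ≤ d) : ∃ f : Qf → List Nm × List (Nm × Nm), PolyTime bits bits f ∧
    ∀ φ, IsGraph (f φ) ∧ (ETR φ ↔ BallGraph d (f φ)) := by
  obtain ⟨j, rfl⟩ : ∃ j, d = j + 3 := ⟨d - 3, by omega⟩
  obtain ⟨f, hf, h⟩ := kit
  exact ⟨blG (j + 2) ∘ f, ((blG_pt _).comp hf).polyTime, fun φ =>
    ⟨mkG_graph _ _, fun e => bl_compl ((h φ).1 e), fun e => (h φ).2 (bl_sound e)⟩⟩

end Pool.Agent.H21.LV
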