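import Pool.Agent.H21.Sg8

namespace Pool.Agent.H21.LV

open Pool.Agent.H11.PT Pool.Agent.H21.ER Filter Topology

section
variable {α : Type} [Enc α]
instance encTm : Enc Tm := ⟨fun t => Enc.tr t.post⟩
lemma ptT {f : α → Tm} (h : PT fun x => (f x).post) : PT f := h.cast id (fun _ => rfl) fun _ => rfl
lemma ptQ {f : α → Qf} (h : PT fun x => (f x).post) : PT f := h.cast id (fun _ => rfl) fun _ => rfl
@[fun_prop] theorem pt_postT {f : α → Tm} (hf : PT f) : PT fun x => (f x).post :=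
  (PT.ofId (f := Tm.post) fun _ => rfl).comp hf
@[fun_prop] theorem ptVar {f : α → ℕ} (hf : PT f) : PT fun x => Tm.var (f x) := ptT (by unfold Tm.post; fun_prop)
@[fun_prop] theorem ptNeg {f : α → Tm} (hf : PT f) : PT fun x => Tm.neg (f x) := ptT (by unfold Tm.post; fun_prop)
@[fun_prop] theorem ptAdd {f g : α → Tm} (hf : PT f) (hg : PT g) : PT fun x => Tm.add (f x) (g x) :=
  ptT (by unfold Tm.post; fun_prop)
@[fun_prop] theorem ptMul {f g : α → Tm} (hf : PT f) (hg : PT g) : PT fun x => Tm.mul (f x) (g x) :=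
  ptT (by unfold Tm.post; fun_prop)
@[fun_prop] theorem ptEq {f g : α → Tm} (hf : PT f) (hg : PT g) : PT fun x => Qf.eq (f x) (g x) :=
  ptQ (by unfold Qf.post; fun_prop)
@[fun_prop] theorem ptLt {f g : α → Tm} (hf : PT f) (hg : PT g) : PT fun x => Qf.lt (f x) (g x) :=
  ptQ (by unfold Qf.post; fun_prop)
@[fun_prop] theorem ptLe {f g : α → Tm} (hf : PT f) (hg : PT g) : PT fun x => Qf.le (f x) (g x) :=
  ptQ (by unfold Qf.post; fun_prop)
def conj (L : List Qf) : Qf := L.foldl .and (.eq (.num []) (.num []))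
lemma conj_iff (L : List Qf) (x : ℕ → ℝ) : (conj L).Holds x ↔ ∀ q ∈ L, q.Holds x := by
  induction L using List.reverseRecOn with
  | nil => simp [conj, Qf.Holds]
  | append_singleton L q ih => simp only [conj, List.foldl_append, List.foldl_cons, List.foldl_nil, Qf.Holds,
      List.forall_mem_append, List.forall_mem_singleton] at ih ⊢; rw [ih]
@[fun_prop] theorem ptConj {f : α → List Qf} (hf : PT f) : PT fun x => conj (f x) := by
  have e (L : List Qf) : [0, 0, 6] ++ (L.flatMap fun q => q.post ++ [10]) = (conj L).post := by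
    induction L using List.reverseRecOn with
    | nil => rfl
    | append_singleton L q ih => simp only [conj, List.foldl_append, List.foldl_cons, List.foldl_nil, Qf.post,
        List.flatMap_append] at ih ⊢; simp [← ih]
  exact ptQ (PT.of_eq (by fun_prop) fun x => e (f x))
def vr (v i : ℕ) : Tm := .var (Nat.pair v i + 1)
def dt (u v : ℕ) : ℕ → Tm
  | 0 => .num []
  | n + 1 => .add (dt u v n) (.mul (vr u n) (vr v n))
@[fun_prop] theorem ptVr {f g : α → ℕ} (hf : PT f) (hg : PT g) : PT fun x => vr (f x) (g x) := by unfold vr; fun_prop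
@[fun_prop] theorem ptDt (n : ℕ) {f g : α → ℕ} (hf : PT f) (hg : PT g) : PT fun x => dt (f x) (g x) n := by
  induction n with
  | zero => exact PT.const _
  | succ n ih => unfold dt; fun_prop
end

noncomputable def vec (d : ℕ) (x : ℕ → ℝ) (v : ℕ) : EuclideanSpace ℝ (Fin d) :=
  WithLp.toLp 2 fun i => x (Nat.pair v i + 1)
lemma dt_val (d : ℕ) (x : ℕ → ℝ) (u v : ℕ) : (dt u v d).val x = inner ℝ (vec d x u) (vec d x v) := by
  have : (dt u v d).val x = ∑ i ∈ Finset.range d, x (Nat.pair u i + 1) * x (Nat.pair v i + 1) := by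
    induction d with
    | zero => simp [dt, Tm.val, bin]
    | succ n ih => simp [dt, Tm.val, vr, ih, Finset.sum_range_succ]
  simp [this, vec, PiLp.inner_apply, Finset.sum_range, mul_comm]
lemma ex_vec {d : ℕ} (C : ℝ) (c : ℕ → EuclideanSpace ℝ (Fin d)) (t : ℕ → ℝ) :
    ∃ x : ℕ → ℝ, x 0 = C ∧ vec d x = c ∧ ∀ v, x (Nat.pair v d + 1) = t v :=
  ⟨fun n => if n = 0 then C else if h : (n - 1).unpair.2 < d then c (n - 1).unpair.1 ⟨_, h⟩ else t (n - 1).unpair.1,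
    rfl, by ext v i; simp [vec], by simp⟩

noncomputable def hB {d : ℕ} (x y : EuclideanSpace ℝ (Fin d)) : ℝ := √(1 + ‖x‖ ^ 2) * √(1 + ‖y‖ ^ 2) - inner ℝ x y
lemma hB_pos {d : ℕ} (x y : EuclideanSpace ℝ (Fin d)) : 0 < hB x y := by
  have k (x : EuclideanSpace ℝ (Fin d)) : ‖x‖ < √(1 + ‖x‖ ^ 2) := Real.lt_sqrt_of_sq_lt (by linarith)
  linarith [real_inner_le_norm x y, mul_lt_mul'' (k x) (k y) (norm_nonneg _) (norm_nonneg _), hB.eq_1 x y]
lemma hyp_iff {α : Type} {d : ℕ} {G : List α × List (α × α)} : HypUBG d G ↔ ∃ C : ℝ, 1 < C ∧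
    ∃ c : α → EuclideanSpace ℝ (Fin d), ∀ u ∈ G.1, ∀ v ∈ G.1, u ≠ v → (Adj G u v ↔ hB (c u) (c v) ≤ C) := by
  constructor
  · rintro ⟨r, hr, c, h⟩
    refine ⟨Real.cosh (2 * r), Real.one_lt_cosh.2 (by positivity), c, fun u hu v hv n => ?_⟩
    rw [h u hu v hv n, ← Real.arcosh_le_arcosh (hB_pos _ _) (Real.cosh_pos _), Real.arcosh_cosh (by positivity)]; rfl
  · rintro ⟨C, hC, c, h⟩
    refine ⟨Real.arcosh C / 2, half_pos (Real.arcosh_pos hC), c, fun u hu v hv n => ?_⟩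
    rw [h u hu v hv n, ← Real.arcosh_le_arcosh (hB_pos _ _) (by linarith), mul_div_cancel₀ _ two_ne_zero]; rfl

def hyQ (d : ℕ) (G : List ℕ × List (ℕ × ℕ)) : Qf := conj (.lt (.num [true]) (.var 0) ::
  ((G.1.flatMap fun v => [.eq (.mul (vr v d) (vr v d)) (.add (.num [true]) (dt v v d)), .lt (.num []) (vr v d)]) ++
  ((G.1 ×ˢ G.1).filter fun e => e.1 ≠ e.2).map fun e => if e ∈ G.2 ∨ (e.2, e.1) ∈ G.2 then
    .le (.add (.mul (vr e.1 d) (vr e.2 d)) (.neg (dt e.1 e.2 d))) (.var 0)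
    else .lt (.var 0) (.add (.mul (vr e.1 d) (vr e.2 d)) (.neg (dt e.1 e.2 d)))))
theorem hyQ_pt (d : ℕ) : PT (hyQ d) := by unfold hyQ; fun_prop
theorem hyQ_iff (d : ℕ) (G : List ℕ × List (ℕ × ℕ)) : HypUBG d G ↔ ETR (hyQ d G) := by
  have e (x : ℕ → ℝ) : (hyQ d G).Holds x ↔ 1 < x 0 ∧ (∀ v ∈ G.1, x (Nat.pair v d + 1) = √(1 + ‖vec d x v‖ ^ 2)) ∧
      ∀ u ∈ G.1, ∀ v ∈ G.1, u ≠ v → (Adj G u v ↔ x (Nat.pair u d + 1) * x (Nat.pair v d + 1) -
        inner ℝ (vec d x u) (vec d x v) ≤ x 0) := by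
    simp only [hyQ, conj_iff, List.forall_mem_cons, List.forall_mem_append, List.forall_mem_flatMap,
      List.forall_mem_map, List.mem_filter, Prod.forall, List.mem_product]
    refine and_congr (by simp [Qf.Holds, Tm.val, bin]) (and_congr (forall₂_congr fun v _ => ?_) ⟨fun h u hu v hv n => ?_,
      fun h u v ⟨⟨hu, hv⟩, n⟩ => ?_⟩)
    · simp only [Qf.Holds, Tm.val, vr, dt_val, real_inner_self_eq_norm_sq, bin]
      simp
      exact ⟨fun h => ((Real.sqrt_eq_iff_mul_self_eq_of_pos h.2).2 h.1).symm, fun h =>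
        ⟨by rw [h, Real.mul_self_sqrt (by positivity)], by rw [h]; positivity⟩⟩
    · have := h u v ⟨⟨hu, hv⟩, by simpa⟩
      unfold Adj
      split_ifs at this with a <;> simp [Qf.Holds, Tm.val, vr, dt_val, a, ← sub_eq_add_neg] at this ⊢ <;> linarith
    · have := h u hu v hv (by simpa using n)
      unfold Adj at this
      split_ifs with a <;> simp [Qf.Holds, Tm.val, vr, dt_val, a, ← sub_eq_add_neg] at this ⊢ <;> linarith
  rw [hyp_iff]
  constructor
  · rintro ⟨C, hC, c, h⟩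
    obtain ⟨x, rfl, rfl, h3⟩ := ex_vec C c fun v => √(1 + ‖c v‖ ^ 2)
    exact ⟨x, (e x).2 ⟨hC, fun v _ => h3 v, fun u hu v hv n => by rw [h u hu v hv n, h3, h3]; rfl⟩⟩
  · rintro ⟨x, h⟩
    obtain ⟨h1, h2, h3⟩ := (e x).1 h
    exact ⟨_, h1, vec d x, fun u hu v hv n => by rw [h3 u hu v hv n, h2 u hu, h2 v hv]; rfl⟩

def ix (V : List Nm) (v : Nm) : ℕ := ((V.zipIdx.find? fun x => x.1 = v).getD (v, 0)).2
lemma ix_spec {V : List Nm} {v : Nm} (hv : v ∈ V) : V[ix V v]? = some v := by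
  unfold ix
  cases h : V.zipIdx.find? fun x => x.1 = v with
  | none =>
    obtain ⟨i, hi⟩ := List.getElem?_of_mem hv
    simpa using List.find?_eq_none.1 h (v, i) (List.mem_zipIdx_iff_getElem?.2 hi)
  | some x =>
    have := List.find?_some h
    simpa [← show x.1 = v by simpa using this] using List.mem_zipIdx_iff_getElem?.1 (List.mem_of_find?_eq_some h)
lemma ix_inj {V : List Nm} {u v : Nm} (hu : u ∈ V) (hv : v ∈ V) : ix V u = ix V v ↔ u = v :=
  ⟨fun e => by have := ix_spec hu; rw [e, ix_spec hv] at this; exact (Option.some.inj this).symm, fun e => e ▸ rfl⟩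
def rn (G : List Nm × List (Nm × Nm)) : List ℕ × List (ℕ × ℕ) :=
  (G.1.map (ix G.1), G.2.map fun e => (ix G.1 e.1, ix G.1 e.2))
theorem rn_pt : PT rn := by unfold rn ix; fun_prop
lemma rn_graph {G} (h : IsGraph G) : IsGraph (rn G) := by
  simp only [IsGraph, rn, List.forall_mem_map]
  exact fun e he => ⟨List.mem_map_of_mem (h e he).1, List.mem_map_of_mem (h e he).2.1,
    mt (ix_inj (h e he).1 (h e he).2.1).1 (h e he).2.2⟩
lemma rn_adj {G} (h : IsGraph G) {u v} (hu : u ∈ G.1) (hv : v ∈ G.1) : Adj (rn G) (ix G.1 u) (ix G.1 v) ↔ Adj G u v := by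
  have k {u v} (hu : u ∈ G.1) (hv : v ∈ G.1) : (ix G.1 u, ix G.1 v) ∈ (rn G).2 ↔ (u, v) ∈ G.2 := by
    simp only [rn, List.mem_map, Prod.mk.injEq]
    exact ⟨fun ⟨e, he, a, b⟩ => (ix_inj (h e he).1 hu).1 a ▸ (ix_inj (h e he).2.1 hv).1 b ▸ he, fun e => ⟨_, e, rfl, rfl⟩⟩
  exact or_congr (k hu hv) (k hv hu)
lemma rn_iff {G} (h : IsGraph G) {β : Type} (P : β → Prop) (R : β → β → Prop) :
    (∃ c : ℕ → β, (∀ v ∈ (rn G).1, P (c v)) ∧ ∀ u ∈ (rn G).1, ∀ v ∈ (rn G).1, u ≠ v → (Adj (rn G) u v ↔ R (c u) (c v))) ↔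
    ∃ c : Nm → β, (∀ v ∈ G.1, P (c v)) ∧ ∀ u ∈ G.1, ∀ v ∈ G.1, u ≠ v → (Adj G u v ↔ R (c u) (c v)) := by
  have e : (rn G).1 = G.1.map (ix G.1) := rfl
  simp only [e, List.forall_mem_map]
  constructor
  · rintro ⟨c, h0, h1⟩
    exact ⟨c ∘ ix G.1, h0, fun u hu v hv n => (rn_adj h hu hv).symm.trans (h1 u hu v hv (mt (ix_inj hu hv).1 n))⟩
  · rintro ⟨c, h0, h1⟩
    refine ⟨fun n => c (G.1[n]?.getD default), fun v hv => by simpa [ix_spec hv] using h0 v hv, fun u hu v hv n => ?_⟩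
    simpa [ix_spec hu, ix_spec hv, rn_adj h hu hv] using h1 u hu v hv (mt (ix_inj hu hv).2 n)

end Pool.Agent.H21.LV
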