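import Pool.Agent.H21.Sg11

namespace Pool.Agent.H21.LV

open Pool.Agent.H11.PT Pool.Agent.H21.ER Filter Topology

def hyV (k : ℕ) (I : SI) : List Nm := (I.1.flatMap fun p => (msk k).map fun m => (0, p, m)) ++
  ((I.2.1.flatMap fun l => [(1, l, [false]), (1, l, [true])]) ++
  (List.range k).flatMap fun i => [(2, (i, 0), [false]), (2, (i, 0), [true])])
def hyS (I : SI) (x y : Nm) : Bool := if y.1 = 2 then x.2.2.getD y.2.1.1 false else (x.2.1, y.2.1) ∈ I.2.2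
def hyA (I : SI) (x y : Nm) : Bool := if y.1 = 0 then true else if x.1 = 0 then hyS I x y = y.2.2.headD false
  else x.2.2.headD false = y.2.2.headD false
def hyG (k : ℕ) (I : SI) := mkG (hyV k I) (hyA I)
theorem hyG_pt (k : ℕ) : PT (hyG k) := by unfold hyG mkG hyV hyA hyS; fun_prop
lemma mem_hyV {k : ℕ} {I : SI} {x : Nm} : x ∈ hyV k I ↔ (∃ p ∈ I.1, ∃ m, m.length = k ∧ x = (0, p, m)) ∨
    (∃ l ∈ I.2.1, ∃ t, x = (1, l, [t])) ∨ ∃ i < k, ∃ t, x = (2, (i, 0), [t]) := by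
  simp [hyV, mem_msk, eq_comm]

theorem hy_sound {k : ℕ} {I : SI} (h : HypUBG (k + 2) (hyG k I)) : Weak I := by
  obtain ⟨C, -, c, h⟩ := hyp_iff.1 h
  let f (x : {p // p ∈ I.1} × (Fin k → Bool)) : Nm := (0, x.1.1, List.ofFn x.2)
  let g (y : {l // l ∈ I.2.1} ⊕ Fin k) (t : Bool) : Nm := y.elim (fun l => (1, l.1, [t])) fun i : Fin k => (2, (i.1, 0), [t])
  have hf (x) : f x ∈ hyV k I := by rcases x with ⟨⟨p, hp⟩, m⟩; simp [f, mem_hyV, *]
  have hg (y t) : g y t ∈ hyV k I ∧ 0 < (g y t).1 ∧ (g y t).2.2 = [t] ∧ ∀ x, hyS I x (g y t) = hyS I x (g y true) := by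
    rcases y with ⟨l, hl⟩ | i <;> cases t <;> simp [g, mem_hyV, hyS, *]
  have : Wk (k + 2 + 1) fun x y => hyS I (f x) (g y true) := by
    refine ⟨fun x => Fin.cons √(1 + ‖c (f x)‖ ^ 2) (c (f x)), fun y => Fin.cons
      (√(1 + ‖c (g y false)‖ ^ 2) - √(1 + ‖c (g y true)‖ ^ 2)) fun i => c (g y true) i - c (g y false) i, fun x y => ?_⟩
    have kk (t) : hyS I (f x) (g y true) = t ↔ hB (c (f x)) (c (g y t)) ≤ C := by
      have := hg y t
      rw [← h _ (hf x) _ this.1 (fun e => by simp [← e, f] at this), hyG, mkG_lt (hf x) this.1 this.2.1]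
      simp [hyA, this.2.1.ne', this.2.2.1, this.2.2.2, f]
    have e (a b : EuclideanSpace ℝ (Fin (k + 2))) : ∑ i, a i * b i = inner ℝ a b := by simp [PiLp.inner_apply, mul_comm]
    have a := kk true; have b := kk false
    rw [dotProduct, Fin.sum_univ_succ]
    simp only [Fin.cons_zero, Fin.cons_succ, mul_sub, Finset.sum_sub_distrib, e, hB] at a b ⊢
    cases hS : hyS I (f x) (g y true) <;> simp [hS, sn] at a b ⊢ <;> linarith
  rw [show k + 2 + 1 = 3 + k by omega] at this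
  refine weak_of (redk k (this.comp id id ?_))
  rintro ⟨p, m⟩ (l | i) <;> simp [f, g, hyS]

lemma euc2hyp {d : ℕ} {V : List Nm} {ad : Nm → Nm → Bool} (c : Nm → EuclideanSpace ℝ (Fin d))
    (h : ∀ u ∈ V, ∀ v ∈ V, u ≠ v → u.1 ≤ v.1 → 0 < sn (ad u v) * (1 - ‖c u - c v‖ ^ 2)) : HypUBG d (mkG V ad) := by
  obtain ⟨ε, h1, (ε0 : 0 < ε)⟩ := ((ev_list fun u hu => ev_list fun v hv => eventually_imp_distrib_left.2 fun n : u ≠ v =>
    eventually_imp_distrib_left.2 fun l : u.1 ≤ v.1 => ev_pos (f := fun e => sn (ad u v) * (1 / 2 - ((‖c u‖ ^ 2 + ‖c v‖ ^ 2 +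
      e ^ 2 * ‖c u‖ ^ 2 * ‖c v‖ ^ 2) / (√(1 + e ^ 2 * ‖c u‖ ^ 2) * √(1 + e ^ 2 * ‖c v‖ ^ 2) + 1) - inner ℝ (c u) (c v))))
      (by fun_prop (disch := intro; positivity)) (by
        refine (half_pos (h u hu v hv n l)).trans_eq ?_
        rw [norm_sub_sq_real]; simp; ring)).and self_mem_nhdsWithin).exists
  refine hyp_iff.2 ⟨1 + ε ^ 2 / 2, by linarith [pow_pos ε0 2], fun v => ε • c v, mkG_of
    (R := fun u v => hB (ε • c u) (ε • c v) ≤ 1 + ε ^ 2 / 2) (fun u v => by rw [hB, hB, mul_comm, real_inner_comm]) ?_⟩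
  intro u hu v hv n l
  have := mul_pos (pow_pos ε0 2) (h1 u hu v hv n l)
  have e : ε ^ 2 * (sn (ad u v) * (1 / 2 - ((‖c u‖ ^ 2 + ‖c v‖ ^ 2 + ε ^ 2 * ‖c u‖ ^ 2 * ‖c v‖ ^ 2) /
      (√(1 + ε ^ 2 * ‖c u‖ ^ 2) * √(1 + ε ^ 2 * ‖c v‖ ^ 2) + 1) - inner ℝ (c u) (c v)))) =
      sn (ad u v) * (1 + ε ^ 2 / 2 - hB (ε • c u) (ε • c v)) := by
    simp only [hB, norm_smul, mul_pow, Real.norm_eq_abs, sq_abs, real_inner_smul_left, real_inner_smul_right]
    have a := Real.sq_sqrt (show 0 ≤ 1 + ε ^ 2 * ‖c u‖ ^ 2 by positivity)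
    have b := Real.sq_sqrt (show 0 ≤ 1 + ε ^ 2 * ‖c v‖ ^ 2 by positivity)
    have : √(1 + ε ^ 2 * ‖c u‖ ^ 2) * √(1 + ε ^ 2 * ‖c v‖ ^ 2) + 1 ≠ 0 := by positivity
    generalize √(1 + ε ^ 2 * ‖c u‖ ^ 2) = A at *
    generalize √(1 + ε ^ 2 * ‖c v‖ ^ 2) = B at *
    field_simp
    linear_combination (2 * sn (ad u v) * B ^ 2) * a + (2 * sn (ad u v) * (1 + ε ^ 2 * ‖c u‖ ^ 2)) * b
  rw [e] at this
  cases e : ad u v <;> simp [e, sn] at this ⊢ <;> linarith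

lemma sn_eq (a b : Bool) : sn (decide (a = b)) = sn a * sn b := by cases a <;> cases b <;> simp [sn]

theorem hy_compl {j : ℕ} {I : SI} (h : Strong I) : HypUBG (j + 3) (hyG (j + 1) I) := by
  obtain ⟨X, Y, a, b, h⟩ := h
  let V := hyV (j + 1) I
  let ν (v : Nm) : EuclideanSpace ℝ (Fin (j + 3)) :=
    if v.1 = 2 then V3 0 0 (Pi.single (Fin.ofNat (j + 1) v.2.1.1) 1) else V3 (a v.2.1) 0 0
  let e1 : EuclideanSpace ℝ (Fin (j + 3)) := V3 0 1 0
  have he : ‖e1‖ = 1 := nV (by rw [inV]; simp)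
  obtain ⟨η, ⟨h1, h2⟩, (η0 : 0 < η)⟩ := (((ev_list (L := V) fun v _ => ev_pos (f := fun e => ‖e1 + e • ν v‖)
    (by fun_prop) (by simp [he])).and (ev_list (L := V) fun u _ => ev_list (L := V) fun v _ => ev_pos
    (f := fun e => inner ℝ (e1 + e • ν u) (e1 + e • ν v) - ‖e1 + e • ν u‖ * ‖e1 + e • ν v‖ / 2)
    (by fun_prop) (by simp [he]; norm_num))).and self_mem_nhdsWithin).exists
  obtain ⟨M, hM⟩ := (ev_list (L := I.1) fun p _ => eventually_gt_atTop |Y p|).exists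
  let n (v : Nm) := ‖e1 + η • ν v‖⁻¹ • (e1 + η • ν v)
  have hn (v) (hv : v ∈ V) : ‖n v‖ = 1 := norm_smul_inv_norm (𝕜 := ℝ) (norm_pos_iff.1 (h1 v hv))
  have hnn (u) (hu : u ∈ V) (v) (hv : v ∈ V) : 1 / 2 < inner ℝ (n u) (n v) := by
    have := h1 u hu; have := h1 v hv; have := h2 u hu v hv
    simp only [n, real_inner_smul_left, real_inner_smul_right]
    field_simp; linarith
  let q (u : Nm) : EuclideanSpace ℝ (Fin (j + 3)) :=
    V3 (X u.2.1 / η) (Y u.2.1) fun i : Fin (j + 1) => M * sn (u.2.2.getD i false) / η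
  let β (v : Nm) := (if v.1 = 2 then 0 else b v.2.1) / ‖e1 + η • ν v‖
  have hs (u) (hu : u ∈ V) (v) (hv : v ∈ V) (h3 : u.1 = 0) (h4 : v.1 ≠ 0) :
      0 < sn (hyS I u v) * (inner ℝ (q u) (n v) + β v) := by
    have k : inner ℝ (q u) (n v) + β v = (Y u.2.1 + η * inner ℝ (q u) (ν v) + if v.1 = 2 then 0 else b v.2.1) /
        ‖e1 + η • ν v‖ := by
      simp only [n, β, real_inner_smul_right, inner_add_right, show inner ℝ (q u) e1 = Y u.2.1 by simp [q, e1, inV]]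
      ring
    rw [k, ← mul_div_assoc]
    refine div_pos ?_ (h1 v hv)
    obtain ⟨p, hp, m, -, rfl⟩ : ∃ p ∈ I.1, ∃ m, m.length = j + 1 ∧ u = (0, p, m) := by have := mem_hyV.1 hu; grind
    rcases mem_hyV.1 hv with ⟨p, -, m, -, rfl⟩ | ⟨l, hl, t, rfl⟩ | ⟨i, hi, t, rfl⟩
    · simp at h4
    · refine (h p hp l hl).trans_eq ?_
      simp [hyS, q, ν, inV]; left; field_simp
    · have := abs_lt.1 (hM p hp)
      simp [hyS, q, ν, inV, Pi.single_apply, Nat.mod_eq_of_lt hi, mul_div_cancel₀ _ η0.ne']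
      cases m[i]?.getD false <;> simp [sn] <;> linarith
  let t (v : Nm) := sn (v.2.2.headD false)
  have ht (v) : t v * t v = 1 := sn_sq _
  obtain ⟨ε, h3, (ε0 : 0 < ε)⟩ := ((ev_list fun u hu => ev_list fun v hv => (ev_pos
    (f := fun e => 1 - ‖e • q u - e • q v‖ ^ 2) (by fun_prop) (by simp)).and ((eventually_imp_distrib_left.2
    fun h3 : u.1 = 0 => eventually_imp_distrib_left.2 fun h4 : v.1 ≠ 0 => ev_pos (f := fun e => sn (hyS I u v) * t v *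
      (2 * (t v - e * β v) * inner ℝ (q u) (n v) - e * ‖q u‖ ^ 2 + 2 * t v * β v - e * β v ^ 2)) (by fun_prop) (by
        refine (mul_pos two_pos (hs u hu v hv h3 h4)).trans_eq ?_
        linear_combination (-2 * sn (hyS I u v) * (inner ℝ (q u) (n v) + β v)) * ht v)).and (ev_pos
      (f := fun e => t u * t v * (1 - ‖(t u - e * β u) • n u - (t v - e * β v) • n v‖ ^ 2)) (by fun_prop) (by
        have := hnn u hu v hv
        simp only [zero_mul, sub_zero, norm_sub_sq_real, norm_smul, hn u hu, hn v hv, real_inner_smul_left,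
          real_inner_smul_right, t]
        cases u.2.2.headD false <;> cases v.2.2.headD false <;> simp [sn] <;> linarith)))).and
    self_mem_nhdsWithin).exists
  refine euc2hyp (fun v => if v.1 = 0 then ε • q v else (t v - ε * β v) • n v) fun u hu v hv _ hl => ?_
  obtain ⟨k1, k2, k3⟩ := h3 u hu v hv
  by_cases h4 : v.1 = 0
  · simpa [hyA, h4, show u.1 = 0 by omega, sn] using k1
  by_cases h3 : u.1 = 0
  · refine (mul_pos ε0 (k2 h3 h4)).trans_eq ?_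
    simp only [hyA, h3, h4, if_true, if_false, sn_eq, norm_sub_sq_real, norm_smul, hn v hv, real_inner_smul_left,
      real_inner_smul_right, mul_pow, Real.norm_eq_abs, sq_abs]
    linear_combination (sn (hyS I u v) * t v) * ht v
  · simpa only [hyA, h3, h4, if_false, sn_eq] using k3

theorem hy_main (d : ℕ) (hd : 3 ≤ d) : (∃ f : Qf → List ℕ × List (ℕ × ℕ), PolyTime bits bits f ∧
    ∀ φ, IsGraph (f φ) ∧ (ETR φ ↔ HypUBG d (f φ))) ∧
    ∃ g : List ℕ × List (ℕ × ℕ) → Qf, PolyTime bits bits g ∧ ∀ G, HypUBG d G ↔ ETR (g G) := by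
  refine ⟨?_, hyQ d, (hyQ_pt d).polyTime, hyQ_iff d⟩
  obtain ⟨j, rfl⟩ : ∃ j, d = j + 3 := ⟨d - 3, by omega⟩
  obtain ⟨f, hf, h⟩ := kit
  have k {G} (h : IsGraph G) : HypUBG (j + 3) (rn G) ↔ HypUBG (j + 3) G :=
    exists_congr fun r => and_congr_right fun _ => by
      simpa using rn_iff h (fun _ => True) fun x y : EuclideanSpace ℝ (Fin (j + 3)) => hdist x y ≤ 2 * r
  exact ⟨rn ∘ hyG (j + 1) ∘ f, (rn_pt.comp ((hyG_pt _).comp hf)).polyTime, fun φ => ⟨rn_graph (mkG_graph _ _),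
    fun e => (k (mkG_graph _ _)).2 (hy_compl ((h φ).1 e)), fun e => (h φ).2 (hy_sound ((k (mkG_graph _ _)).1 e))⟩⟩

end Pool.Agent.H21.LV
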