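import Pool.Agent.H21.Sg10
import Pool.Agent.H21.Sg11

namespace Pool.Agent.H21.LV

open Pool.Agent.H11.PT Pool.Agent.H21.ER Filter Topology

def blL (d u v : ℕ) : Tm := .add (.add (dt u u d) (.neg (.add (dt u v d) (dt u v d)))) (dt v v d)
def blR (d u v : ℕ) : Tm := .mul (.add (vr u d) (vr v d)) (.add (vr u d) (vr v d))
def blQ (d : ℕ) (G : List ℕ × List (ℕ × ℕ)) : Qf := conj ((G.1.map fun v => .lt (.num []) (vr v d)) ++
  ((G.1 ×ˢ G.1).filter fun e => e.1 ≠ e.2).map fun e => if e ∈ G.2 ∨ (e.2, e.1) ∈ G.2 then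
    .le (blL d e.1 e.2) (blR d e.1 e.2) else .lt (blR d e.1 e.2) (blL d e.1 e.2))
theorem blQ_pt (d : ℕ) : PT (blQ d) := by unfold blQ blL blR; fun_prop
theorem blQ_iff (d : ℕ) (G : List ℕ × List (ℕ × ℕ)) : BallGraph d G ↔ ETR (blQ d G) := by
  have e (x : ℕ → ℝ) : (blQ d G).Holds x ↔ (∀ v ∈ G.1, 0 < x (Nat.pair v d + 1)) ∧
      ∀ u ∈ G.1, ∀ v ∈ G.1, u ≠ v → (Adj G u v ↔ (Metric.closedBall (vec d x u) (x (Nat.pair u d + 1)) ∩
        Metric.closedBall (vec d x v) (x (Nat.pair v d + 1))).Nonempty) := by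
    simp only [blQ, conj_iff, List.forall_mem_append, List.forall_mem_map, List.mem_filter, Prod.forall,
      List.mem_product]
    have e0 : (∀ v ∈ G.1, (Qf.lt (.num []) (vr v d)).Holds x) ↔ ∀ v ∈ G.1, 0 < x (Nat.pair v d + 1) := by
      simp [Qf.Holds, Tm.val, bin, vr]
    rw [e0]
    refine and_congr_right fun h0 => ?_
    have k (u) (hu : u ∈ G.1) (v) (hv : v ∈ G.1) : (Metric.closedBall (vec d x u) (x (Nat.pair u d + 1)) ∩
        Metric.closedBall (vec d x v) (x (Nat.pair v d + 1))).Nonempty ↔ (blL d u v).val x ≤ (blR d u v).val x := by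
      rw [ball_iff (h0 u hu) (h0 v hv), ← sq_le_sq₀ dist_nonneg (add_pos (h0 u hu) (h0 v hv)).le, dist_eq_norm,
        norm_sub_sq_real]
      simp only [blL, blR, Tm.val, vr, dt_val, real_inner_self_eq_norm_sq]
      constructor <;> intro <;> linarith
    refine ⟨fun h u hu v hv n => ?_, fun h u v ⟨⟨hu, hv⟩, n⟩ => ?_⟩
    · have := h u v ⟨⟨hu, hv⟩, by simpa⟩
      rw [k u hu v hv, Adj]
      split_ifs at this with a <;> simpa [Qf.Holds, a] using this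
    · have := h u hu v hv (by simpa using n)
      rw [k u hu v hv, Adj] at this
      split_ifs with a <;> simpa [Qf.Holds, a] using this
  constructor
  · rintro ⟨c, r, h⟩
    obtain ⟨x, -, rfl, h3⟩ := ex_vec 0 c r
    exact ⟨x, (e x).2 (by simpa only [h3] using h)⟩
  · rintro ⟨x, h⟩
    exact ⟨_, _, (e x).1 h⟩

theorem bl_main (d : ℕ) (hd : 3 ≤ d) : (∃ f : Qf → List ℕ × List (ℕ × ℕ), PolyTime bits bits f ∧
    ∀ φ, IsGraph (f φ) ∧ (ETR φ ↔ BallGraph d (f φ))) ∧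
    ∃ g : List ℕ × List (ℕ × ℕ) → Qf, PolyTime bits bits g ∧ ∀ G, BallGraph d G ↔ ETR (g G) := by
  refine ⟨?_, blQ d, (blQ_pt d).polyTime, blQ_iff d⟩
  obtain ⟨j, rfl⟩ : ∃ j, d = j + 3 := ⟨d - 3, by omega⟩
  obtain ⟨f, hf, h⟩ := kit
  have k {G} (h : IsGraph G) : BallGraph (j + 3) (rn G) ↔ BallGraph (j + 3) G := by
    have := rn_iff h (fun x : EuclideanSpace ℝ (Fin (j + 3)) × ℝ => 0 < x.2)
      fun x y => (Metric.closedBall x.1 x.2 ∩ Metric.closedBall y.1 y.2).Nonempty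
    exact ⟨fun ⟨c, r, e⟩ => let ⟨x, e⟩ := this.1 ⟨fun v => (c v, r v), e⟩; ⟨_, _, e⟩,
      fun ⟨c, r, e⟩ => let ⟨x, e⟩ := this.2 ⟨fun v => (c v, r v), e⟩; ⟨_, _, e⟩⟩
  exact ⟨rn ∘ blG (j + 2) ∘ f, (rn_pt.comp ((blG_pt _).comp hf)).polyTime, fun φ => ⟨rn_graph (mkG_graph _ _),
    fun e => (k (mkG_graph _ _)).2 (bl_compl ((h φ).1 e)), fun e => (h φ).2 (bl_sound ((k (mkG_graph _ _)).1 e))⟩⟩

end Pool.Agent.H21.LV
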