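import Pool.Agent.H21.Sg1

namespace Pool.Agent.H21.ER

open Pool.Agent.H11.PT List

lemma blk_of {a n L : ℕ} (h : a ≤ n) (h' : n < a + 111 * L) : ∃ j < L, ∃ r < 111, n = a + 111 * j + r :=
  ⟨(n - a) / 111, by omega, (n - a) % 111, by omega, by omega⟩

lemma GG_val {D k n : ℕ} {H : List H3} (hD : 0 < D) (hb : Bd D H) (hn : n < 2 * D + 4 + k + 111 * H.length) :
    (GG D k H n).val n := by
  by_cases h : 2 * D + 4 + k ≤ n
  · obtain ⟨j, hj, r, hr, rfl⟩ := blk_of h hn
    rw [GG_blk hD hj hr]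
    exact gb_val (D := D) (by omega) (by omega) (by simpa [Bd] using hb _ (getElem_mem hj)) r hr
  · simp only [GG, Gt.val]; split_ifs <;> simp <;> omega

def gt (g : List Gt) (k : ℕ) : Gt := g.getD k (0, 0, 0)
lemma gt_ss {φ : Qf} {n : ℕ} (h : n < (ss φ).length) : gt (ss φ) n = GG (DD φ) (kk φ + (HH φ).length) (HH φ) n := by
  rw [gt, getD_eq_getElem _ _ h]; simp [ss]
lemma DD_pos (φ : Qf) : 0 < DD φ := by simp [DD]
theorem ss_val (φ : Qf) (n : ℕ) : (gt (ss φ) n).val n := by
  by_cases h : n < (ss φ).length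
  · rw [gt_ss h]; exact GG_val (DD_pos φ) (HH_bd φ) (by simpa [ss] using h)
  · rw [gt, getD_eq_default _ _ (by omega)]; simp [Gt.val]

lemma GG_sound {D k : ℕ} {H : List H3} (hD : 0 < D) {v : ℕ → ℝ} (h1 : v 1 = 1)
    (hv : ∀ j n, j < n → n < 2 * D + 4 + k + 111 * H.length → v j < v n)
    (h' : ∀ n < 2 * D + 4 + k + 111 * H.length, (GG D k H n).ok v n) :
    xx v 0 = 1 ∧ ∀ c ∈ H, c.q (xx v) ^ 2 ≤ ((2 ^ 2 ^ k) ^ 2)⁻¹ := by
  have v2 : v 2 = 2 := by have := h' 2 (by omega); simp [GG, Gt.ok, Gt.ev] at this; grind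
  have v3 : v 3 = 3 := by have := h' 3 (by omega); simp [GG, Gt.ok, Gt.ev] at this; grind
  have hM (j) (hj : j ≤ k) : 2 ^ 2 ^ j ≤ v (2 * D + 2 + j) := by
    induction j with
    | zero => have := hv 2 (2 * D + 2) (by omega) (by omega); simp; linarith
    | succ j ih =>
      have := h' (2 * D + 2 + (j + 1)) (by omega)
      rw [GG, if_neg (by omega), if_neg (by omega), if_neg (by omega), if_pos (by omega)] at this
      rw [this (by simp), pow_succ 2 j, pow_mul, sq]
      exact mul_self_le_mul_self (by positivity) (ih (by omega))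
  have hM' : v (2 * D + 2 + k + 1) = v (2 * D + 2 + k) + 1 := by
    have := h' (2 * D + 2 + k + 1) (by omega)
    rw [GG, if_neg (by omega), if_neg (by omega), if_neg (by omega), if_neg (by omega), if_pos (by omega)] at this
    simpa [Gt.ok, Gt.ev, h1] using this
  have p : (0 : ℝ) < 2 ^ 2 ^ k := by positivity
  refine ⟨by simp [xx, v2, v3]; norm_num, fun c hc => ?_⟩
  · skip
    obtain ⟨j, hj, rfl⟩ := getElem_of_mem hc
    have a (r) (hr : r < 111) := GG_blk hD hj hr ▸ h' (2 * D + 4 + k + 111 * j + r) (by omega)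
    have b := gb_sum h1 fun r hr => a r (by omega)
    have a1 := a 105 (by omega); have a2 := a 106 (by omega); have a3 := a 107 (by omega)
    have a4 := a 108 (by omega); have a5 := a 109 (by omega); have a6 := a 110 (by omega)
    simp [gb, mb, kb, ch, pi, ni, Gt.ok, Gt.ev] at a1 a2 a3 a4 a5 a6
    have c1 := hv (2 * D + 4 + k + 111 * j + 108) (2 * D + 4 + k + 111 * j + 109) (by omega) (by omega)
    have c2 := hv (2 * D + 4 + k + 111 * j + 109) (2 * D + 4 + k + 111 * j + 110) (by omega) (by omega)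
    have m := hM k le_rfl
    have e : v (2 * D + 4 + k + 111 * j + 108) - v (2 * D + 4 + k + 111 * j + 107) = v (2 * D + 2 + k) +
      v (2 * D + 2 + k) * H3.q (xx v) H[j] := by rw [a3, a4, a1, a2]; linear_combination v (2 * D + 2 + k) * b
    have : (v (2 * D + 2 + k) * H3.q (xx v) H[j]) ^ 2 ≤ 1 :=
      (sq_le_one_iff_abs_le_one _).2 (abs_le.2 ⟨by linarith, by linarith⟩)
    generalize (2 : ℝ) ^ 2 ^ k = z at *
    rw [← one_div, le_div_iff₀ (by positivity)]
    nlinarith [mul_self_le_mul_self p.le m, sq_nonneg (H3.q (xx v) H[j])]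

lemma FF_lt {H : List H3} {x : ℕ → ℝ} {a : ℕ} (hq : ∀ c ∈ H, c.q x ^ 2 ≤ ((2 ^ 2 ^ (a + H.length)) ^ 2)⁻¹) :
    FF H x < (2 ^ 2 ^ a)⁻¹ := by
  refine (sum_le_card_nsmul _ _ (forall_mem_map.2 hq)).trans_lt ?_
  rw [length_map, nsmul_eq_mul, ← div_eq_mul_inv, div_lt_iff₀ (by positivity), inv_mul_eq_div, lt_div_iff₀ (by positivity)]
  norm_cast
  calc _ < 2 ^ H.length * 2 ^ 2 ^ a := by gcongr; exact Nat.lt_two_pow_self
    _ ≤ _ := by
      rw [← pow_add, ← pow_mul]
      have := Nat.pow_le_pow_right two_pos (show a ≤ a + H.length by omega)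
      have := Nat.pow_le_pow_right two_pos (show H.length ≤ a + H.length by omega)
      have := H.length.lt_two_pow_self
      exact Nat.pow_le_pow_right two_pos (by omega)

theorem ss_sound {φ : Qf} {v : ℕ → ℝ} (h1 : v 1 = 1)
    (hv : ∀ j k, j < k → k < (ss φ).length → v j < v k) (h : ∀ k < (ss φ).length, (gt (ss φ) k).ok v k) : ETR φ := by
  have e : (ss φ).length = _ := (length_map _).trans length_range
  obtain ⟨x0, hq⟩ := GG_sound (DD_pos φ) h1 (fun j n a b => hv j n a (e ▸ b)) fun n hn => by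
    rw [← gt_ss (e ▸ hn)]; exact h n (e ▸ hn)
  exact gap φ x0 (FF_lt hq)

lemma var_ext2 {A : ℕ → ℝ} (hA : A 0 = 1) (n : ℕ) : ∃ v : ℕ → ℝ, StrictMono v ∧ (∀ k ≤ 3, v k = k) ∧
    ∀ i ≤ n, A i = xx v i := by
  induction n with
  | zero => exact ⟨fun k => k, Nat.strictMono_cast, by simp, by simp [xx, hA]; norm_num⟩
  | succ n ih =>
    obtain ⟨v, hv, h0, h⟩ := ih
    have := hv (show 0 < 2 * n + 4 by omega); have := le_abs_self (A (n + 1)); have := abs_nonneg (A (n + 1))
    have := h0 0 (by omega)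
    obtain ⟨u, u1, u2, u3⟩ := glue hv (s := 2 * n + 4)
      (w := fun j => [v (2 * n + 4) + |A (n + 1)|].getD j (2 * (v (2 * n + 4) + |A (n + 1)|) - A (n + 1) + (j - 1)))
      (strictMono_nat_of_lt_succ fun j => by obtain _ | j := j <;> simp at * <;> linarith)
      fun k hk => by have := hv hk; simp; linarith
    have a0 := u3 0; have a1 := u3 1
    simp only [List.getD_cons_zero, List.getD_cons_succ, List.getD_nil, add_zero, Nat.cast_one, sub_self] at a0 a1
    refine ⟨u, u1, by grind, fun i hi => ?_⟩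
    rcases Nat.le_succ_iff.1 hi with hi | rfl
    · rw [xx, u2 _ (by omega), u2 _ (by omega)]; exact h i hi
    · simp only [xx]; grind

lemma extend {G : ℕ → Gt} {s : ℕ} {v : ℕ → ℝ} (hv : StrictMono v) (N : ℕ) (hG : ∀ k < s + N, (G k).val k)
    (H : ∀ k, s ≤ k → k < s + N → (G k).1 ≠ 0 → ∀ u, StrictMono u → (∀ j < s, u j = v j) →
      (∀ j, s ≤ j → j < k → (G j).ok u j) → u (k - 1) < (G k).ev u) :
    ∃ u, StrictMono u ∧ (∀ j < s, u j = v j) ∧ ∀ j, s ≤ j → j < s + N → (G j).ok u j := by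
  induction N with
  | zero => exact ⟨v, hv, by simp, by omega⟩
  | succ N ih =>
    obtain ⟨u, u1, u2, u3⟩ := ih (fun k hk => hG k (by omega)) fun k a b => H k a (by omega)
    obtain ⟨w, w1, w2, w3⟩ := glue u1 (s := s + N)
      (w := fun j => (if (G (s + N)).1 = 0 then u (s + N) else (G (s + N)).ev u) + j) (fun _ _ _ => by simpa)
      fun k hk => by
        split_ifs with h
        · simpa using u1 hk
        · simpa using (u1.monotone (by omega)).trans_lt (H _ (by omega) (by omega) h u u1 u2 u3)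
    have := w3 0
    refine ⟨w, w1, by grind, fun j a b c => ?_⟩
    have := hG j b c; have := u3 j a
    simp only [Gt.ev, Gt.ok] at *; grind

theorem ss_compl {φ : Qf} (h : ETR φ) : ∃ v : ℕ → ℝ, StrictMono v ∧ v 0 = 0 ∧ v 1 = 1 ∧
    ∀ k < (ss φ).length, (gt (ss φ) k).ok v k := by
  obtain ⟨y, y0, hy⟩ := (HH_iff φ).1 h
  have hx : FF (HH φ) ((y 0)⁻¹ • y) = 0 := by rw [FF_smul, hy, mul_zero]
  obtain ⟨v, v1, v2, v3⟩ := var_ext2 (A := (y 0)⁻¹ • y) (by simp [y0]) (DD φ)
  have hD := DD_pos φ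
  have hb := HH_bd φ
  generalize hk : kk φ + (HH φ).length = k at *
  obtain ⟨u, u1, u2, u3⟩ := extend (G := GG (DD φ) k (HH φ)) (s := 2 * DD φ + 2) v1 (2 + k + 111 * (HH φ).length)
    (fun n hn => GG_val hD hb (by omega)) fun n a b c u u1 u2 u3 => by
      have e1 : u 1 = 1 := by rw [u2 _ (by omega), v2 _ (by omega)]; simp
      have p (j) (hj : 2 ≤ j) : 2 ≤ u j := by
        have := u1.monotone hj; rwa [u2 2 (by omega), v2 _ (by omega)] at this
      by_cases h : 2 * DD φ + 4 + k ≤ n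
      · obtain ⟨j, hj, r, hr, rfl⟩ := blk_of h (L := (HH φ).length) (by omega)
        have a (r') (h : r' < r) := GG_blk hD hj (h.trans hr) ▸ u3 (2 * DD φ + 4 + k + 111 * j + r') (by omega) (by omega)
        have hM' := u3 (2 * DD φ + 2 + k + 1) (by omega) (by omega)
        rw [GG, if_neg (by omega), if_neg (by omega), if_neg (by omega), if_neg (by omega), if_pos (by omega)] at hM'
        simp [Gt.ok, Gt.ev, e1] at hM'
        have q0 : H3.q (xx u) (HH φ)[j] = 0 := by
          have := FF_zero.1 hx _ (getElem_mem hj); have := hb _ (getElem_mem hj)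
          have e (i) (hi : i < DD φ) : xx u i = ((y 0)⁻¹ • y) i := by
            rw [v3 i hi.le, xx, xx, u2 _ (by omega), u2 _ (by omega)]
          simp only [H3.q, mv] at *; grind
        have hb' := hb _ (getElem_mem hj)
        rw [GG_blk hD hj hr] at c ⊢
        have hs : 2 * DD φ + 2 + k + 2 ≤ 2 * DD φ + 4 + k + 111 * j := by omega
        have hs' : 2 * DD φ + 2 ≤ 2 * DD φ + 2 + k := by omega
        generalize 2 * DD φ + 4 + k + 111 * j = s at *
        generalize 2 * DD φ + 2 + k = M at *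
        generalize (HH φ)[j] = h at *
        exact gb_inc u1 e1 p hM' q0 hs hs' (by simpa [Bd] using hb') a c
      · have := p (n - 1) (by omega)
        simp only [GG, Gt.ev] at c ⊢; split_ifs at c ⊢ <;> first | omega | nlinarith | simp at *
  refine ⟨u, u1, by rw [u2 _ (by omega), v2 _ (by omega)]; simp, by rw [u2 _ (by omega), v2 _ (by omega)]; simp,
    fun n hn => ?_⟩
  rw [gt_ss hn, hk]
  by_cases h : 2 * DD φ + 2 ≤ n
  · exact u3 n h (by simp [ss] at hn; omega)
  · have e (j) (hj : j ≤ 3) : u j = j := by rw [u2 _ (by omega), v2 _ hj]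
    have := e 1; have := e 2; have := e 3
    simp only [GG, Gt.ok, Gt.ev]; split_ifs <;> grind

end Pool.Agent.H21.ER
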