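import Mathlib

namespace Pool.Agent.H21.LV

open Filter Topology

abbrev Vc := Fin 3 → ℝ
def sn (b : Bool) : ℝ := bif b then 1 else -1
def TT (d1 d2 : ℕ → ℕ) (τ : ℕ → ℕ → Bool) (x y : ℕ × ℕ) : Bool :=
  if d1 x.1 = y.1 then x.2 % 2 = 1 else if d2 x.1 = y.1 then x.2 / 2 = 1 else
  if d1 y.1 = x.1 then y.2 % 2 = 1 else if d2 y.1 = x.1 then y.2 / 2 = 1 else τ x.1 y.1
def Cf (ex : ℕ → Prop) (d1 d2 : ℕ → ℕ) : Prop := ∀ n, ex n →
  (d1 n = n ∨ d1 n < n ∧ ex (d1 n) ∧ d1 n % 2 ≠ n % 2) ∧ (d2 n = n ∨ d2 n < n ∧ ex (d2 n) ∧ d2 n % 2 ≠ n % 2 ∧ d1 n ≠ d2 n)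
def inc (d1 d2 : ℕ → ℕ) (n m : ℕ) : Prop := d1 n = m ∨ d2 n = m ∨ d1 m = n ∨ d2 m = n

variable {k : ℕ}
lemma cv (s : ℝ) (y : Fin k → ℝ) : Convex ℝ {x : Fin k → ℝ | 0 < s * (x ⬝ᵥ y)} :=
  convex_halfSpace_gt (f := fun x => s * (x ⬝ᵥ y)) ⟨fun _ _ => by simp [mul_add], fun _ _ => by simp; ring⟩ 0
lemma cv' (s : ℝ) (y : Fin k → ℝ) : Convex ℝ {x : Fin k → ℝ | y = 0 ∨ 0 < s * (x ⬝ᵥ y)} := by
  by_cases h : y = 0
  · simpa [h] using convex_univ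
  · simpa [h] using cv s y
lemma two {K : Set (Fin k → ℝ)} (hK : Convex ℝ K) {a b y : Fin k → ℝ} (ha : a ∈ K) (hb : b ∈ K)
    (h1 : y = 0 ∨ 0 < -1 * (a ⬝ᵥ y)) (h2 : y = 0 ∨ 0 < 1 * (b ⬝ᵥ y)) : ∃ x ∈ K, x ⬝ᵥ y = 0 := by
  by_cases h : y = 0
  · exact ⟨a, ha, by simp [h]⟩
  simp only [h, false_or] at h1 h2
  have : 0 < b ⬝ᵥ y - a ⬝ᵥ y := by linarith
  refine ⟨_, hK ha hb (a := b ⬝ᵥ y / (b ⬝ᵥ y - a ⬝ᵥ y)) (b := -(a ⬝ᵥ y) / (b ⬝ᵥ y - a ⬝ᵥ y))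
    (div_nonneg (by linarith) this.le) (div_nonneg (by linarith) this.le) (by field_simp; ring), ?_⟩
  simp; field_simp; ring
lemma four {K : Set Vc} (hK : Convex ℝ K) {u : ℕ → Vc} (hu : ∀ c < 4, u c ∈ K) {y z : Vc}
    (h1 : ∀ c < 4, y = 0 ∨ 0 < sn (c % 2 = 1) * (u c ⬝ᵥ y)) (h2 : ∀ c < 4, z = 0 ∨ 0 < sn (c / 2 = 1) * (u c ⬝ᵥ z)) :
    ∃ x ∈ K, x ⬝ᵥ y = 0 ∧ x ⬝ᵥ z = 0 := by
  obtain ⟨a, a1, a2⟩ := two (hK.inter (cv' (-1) z)) ⟨hu 0 (by omega), h2 0 (by omega)⟩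
    ⟨hu 1 (by omega), h2 1 (by omega)⟩ (h1 0 (by omega)) (h1 1 (by omega))
  obtain ⟨b, b1, b2⟩ := two (hK.inter (cv' 1 z)) ⟨hu 2 (by omega), h2 2 (by omega)⟩
    ⟨hu 3 (by omega), h2 3 (by omega)⟩ (h1 2 (by omega)) (h1 3 (by omega))
  obtain ⟨x, x1, x2⟩ := two (hK.inter (convex_hyperplane (f := fun x => x ⬝ᵥ y)
    ⟨fun _ _ => by simp, fun _ _ => by simp⟩ 0)) ⟨a1.1, a2⟩ ⟨b1.1, b2⟩ a1.2 b1.2
  exact ⟨x, x1.1, x1.2, x2⟩

variable {ex : ℕ → Prop} {d1 d2 : ℕ → ℕ} {τ : ℕ → ℕ → Bool}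

theorem lv_sound (hc : Cf ex d1 d2) {u : ℕ × ℕ → Vc} (hu : ∀ n m, ex n → ex m → n % 2 ≠ m % 2 → ∀ c < 4, ∀ e < 4,
      0 < sn (TT d1 d2 τ (n, c) (m, e)) * (u (n, c) ⬝ᵥ u (m, e))) (K : ℕ) :
    ∃ w : ℕ → Vc, ∀ n < K, ∀ m < K, ex n → ex m → n % 2 ≠ m % 2 →
      (inc d1 d2 n m → w n ⬝ᵥ w m = 0) ∧ (¬inc d1 d2 n m → 0 < sn (τ n m) * (w n ⬝ᵥ w m)) := by
  let H (n) := convexHull ℝ {x | ∃ c < 4, x = u (n, c)}
  have hH {n s y x} (h : ∀ c < 4, 0 < s * (u (n, c) ⬝ᵥ y)) (hx : x ∈ H n) : 0 < s * (x ⬝ᵥ y) :=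
    convexHull_min (by rintro _ ⟨c, hc, rfl⟩; exact h c hc) (cv s y) hx
  obtain ⟨w, hw⟩ : ∃ w : ℕ → Vc, ∀ n < K, ex n → w n ∈ H n ∧ (d1 n ≠ n → w n ⬝ᵥ w (d1 n) = 0) ∧
      (d2 n ≠ n → w n ⬝ᵥ w (d2 n) = 0) := by
    induction K with
    | zero => simp
    | succ K ih =>
      obtain ⟨w, hw⟩ := ih
      by_cases hK : ex K
      swap
      · exact ⟨w, fun n hn h => hw n (lt_of_le_of_ne (by omega) fun e => hK (e ▸ h)) h⟩
      obtain ⟨c1, c2⟩ := hc K hK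
      obtain ⟨x, x1, x2, x3⟩ := four (convex_convexHull ℝ _) (u := fun c => u (K, c))
        (fun c hc => subset_convexHull ℝ {x | ∃ c < 4, x = u (K, c)} ⟨c, hc, rfl⟩)
        (y := if d1 K = K then 0 else w (d1 K)) (z := if d2 K = K then 0 else w (d2 K))
        (fun c hc => by
          split_ifs with h; · simp
          rw [dotProduct_comm]
          exact .inr (hH (fun e he => by
            simpa [TT, dotProduct_comm] using hu K (d1 K) hK (c1.resolve_left h).2.1 (by omega) c hc e he)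
            (hw _ (by omega) (c1.resolve_left h).2.1).1))
        (fun c hc => by
          split_ifs with h; · simp
          rw [dotProduct_comm]
          exact .inr (hH (fun e he => by
            simpa [TT, dotProduct_comm, show d1 K ≠ d2 K by omega] using
              hu K (d2 K) hK (c2.resolve_left h).2.1 (by omega) c hc e he)
            (hw _ (by omega) (c2.resolve_left h).2.1).1))
      refine ⟨Function.update w K x, fun n hn h => ?_⟩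
      by_cases e : n = K
      · subst e
        exact ⟨by simpa using x1, fun h => by simpa [h] using x2, fun h => by simpa [h] using x3⟩
      · have := hc n h
        rw [Function.update_of_ne e, Function.update_of_ne (by omega), Function.update_of_ne (by omega)]
        exact hw n (by omega) h
  refine ⟨w, fun n hn m hm a b c => ⟨fun h => ?_, fun h => hH (fun c' hc' => ?_) (hw n hn a).1⟩⟩
  · rcases h with rfl | rfl | rfl | rfl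
    exacts [(hw n hn a).2.1 (by omega), (hw n hn a).2.2 (by omega),
      (dotProduct_comm ..).trans ((hw m hm b).2.1 (by omega)), (dotProduct_comm ..).trans ((hw m hm b).2.2 (by omega))]
  · rw [dotProduct_comm]
    refine hH (fun e he => ?_) (hw m hm b).1
    simp only [inc, not_or] at h
    simpa [TT, h, dotProduct_comm] using hu n m a b c c' hc' e he

lemma ev_pos {f : ℝ → ℝ} (hf : Continuous f) (h : 0 < f 0) : ∀ᶠ t in 𝓝[>] (0 : ℝ), 0 < f t :=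
  nhdsWithin_le_nhds (hf.continuousAt.eventually (lt_mem_nhds h))
lemma ev_lt {α : Type} {l : Filter α} {n : ℕ} {p : ℕ → α → Prop} (h : ∀ a < n, ∀ᶠ s in l, p a s) :
    ∀ᶠ s in l, ∀ a < n, p a s := (eventually_all_finite (Set.finite_lt_nat n)).2 h
lemma sn_sq (b : Bool) : sn b * sn b = 1 := by cases b <;> simp [sn]

theorem lv_compl (hc : Cf ex d1 d2) {w st : ℕ → Vc} (K : ℕ) (hw : ∀ n < K, ∀ m < K, ex n → ex m → n % 2 ≠ m % 2 →
      (inc d1 d2 n m → w n ⬝ᵥ w m = 0) ∧ (¬inc d1 d2 n m → 0 < sn (τ n m) * (w n ⬝ᵥ w m)))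
    (hs : ∀ n < K, ex n → 0 < w n ⬝ᵥ st n) (hδ : ∀ n < K, ex n → ∀ s t : ℝ, ∃ δ : Vc,
      (d1 n ≠ n → δ ⬝ᵥ w (d1 n) = s) ∧ (d2 n ≠ n → δ ⬝ᵥ w (d2 n) = t)) :
    ∃ u : ℕ × ℕ → Vc, ∀ n < K, ∀ c < 4, ex n → 0 < u (n, c) ⬝ᵥ st n ∧ ∀ m < K, ∀ e < 4, ex m → n % 2 ≠ m % 2 →
      0 < sn (TT d1 d2 τ (n, c) (m, e)) * (u (n, c) ⬝ᵥ u (m, e)) := by
  choose! δ δ1 δ2 using hδ
  let D (x : ℕ × ℕ) := δ x.1 (sn (x.2 % 2 = 1)) (sn (x.2 / 2 = 1))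
  have key {n m c e s} (hn : n < K) (h : m < n) (h0 : w n ⬝ᵥ w m = 0) (h1 : D (n, c) ⬝ᵥ w m = sn s) : ∀ᶠ t in 𝓝[>] (0 : ℝ),
      0 < sn s * ((w n + t ^ (K - n) • D (n, c)) ⬝ᵥ (w m + t ^ (K - m) • D (m, e))) := by
    filter_upwards [self_mem_nhdsWithin, ev_pos (f := fun t => sn s * (sn s + t ^ (n - m) * (w n ⬝ᵥ D (m, e)) +
      t ^ (K - m) * (D (n, c) ⬝ᵥ D (m, e)))) (by fun_prop) (by
        simp [sn_sq, show n - m ≠ 0 by omega, show K - m ≠ 0 by omega])] with t (h2 : 0 < t) h3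
    refine (mul_pos (pow_pos h2 (K - n)) h3).trans_eq ?_
    rw [show K - m = K - n + (n - m) by omega]
    simp only [add_dotProduct, dotProduct_add, smul_dotProduct, dotProduct_smul, h0, h1, smul_eq_mul]; ring
  obtain ⟨t, ht⟩ : ∃ t : ℝ, ∀ n < K, ∀ c < 4, ex n → 0 < (w n + t ^ (K - n) • D (n, c)) ⬝ᵥ st n ∧ ∀ m < K, ∀ e < 4,
      ex m → n % 2 ≠ m % 2 → 0 < sn (TT d1 d2 τ (n, c) (m, e)) *
        ((w n + t ^ (K - n) • D (n, c)) ⬝ᵥ (w m + t ^ (K - m) • D (m, e))) := by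
    refine Eventually.exists (f := 𝓝[>] 0) (ev_lt fun n hn => ev_lt fun c _ => eventually_imp_distrib_left.2 fun a =>
      .and (ev_pos (by fun_prop) (by simpa [show K - n ≠ 0 by omega] using hs n hn a))
      (ev_lt fun m hm => ev_lt fun e _ => eventually_imp_distrib_left.2 fun b => eventually_imp_distrib_left.2 fun p => ?_))
    have h1 : (d1 n = n ∨ d1 n < n) ∧ (d2 n = n ∨ d2 n < n) := by have := hc n a; omega
    have h2 : (d1 m = m ∨ d1 m < m) ∧ (d2 m = m ∨ d2 m < m) := by have := hc m b; omega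
    have h3 := hw n hn m hm a b p
    simp only [TT, inc] at h3 ⊢
    split_ifs with i1 i2 i3 i4
    · exact key hn (by omega) (h3.1 (by omega)) (i1 ▸ δ1 n hn a _ _ (by omega))
    · exact key hn (by omega) (h3.1 (by omega)) (i2 ▸ δ2 n hn a _ _ (by omega))
    · simp only [dotProduct_comm (w n + _)]
      exact key hm (by omega) ((dotProduct_comm ..).trans (h3.1 (by omega))) (i3 ▸ δ1 m hm b _ _ (by omega))
    · simp only [dotProduct_comm (w n + _)]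
      exact key hm (by omega) ((dotProduct_comm ..).trans (h3.1 (by omega))) (i4 ▸ δ2 m hm b _ _ (by omega))
    · exact ev_pos (by fun_prop) (by simpa [show K - n ≠ 0 by omega, show K - m ≠ 0 by omega] using h3.2 (by omega))
  exact ⟨fun x => w x.1 + t ^ (K - x.1) • D x, ht⟩

end Pool.Agent.H21.LV
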