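import Pool.Agent.H21.Sg2
import Pool.Agent.H21.Sg3

namespace Pool.Agent.H21.LV

open Pool.Agent.H11.PT Pool.Agent.H21.ER

def ex (g : List Gt) (n : ℕ) : Prop :=
  n / 10 < g.length ∧ ((gt g (n / 10)).1 ≠ 0 ∨ 8 ≤ n % 10 ∨ n = 0 ∨ n = 2 ∨ n = 3)
instance (g n) : Decidable (ex g n) := by unfold ex; infer_instance
def d1 (g : List Gt) (n : ℕ) : ℕ := [if n = 0 then n else if (gt g (n / 10)).1 = 1 then 3 else 9, 0,
  if n = 2 then n else if (gt g (n / 10)).1 = 1 then 9 else 19, n - 3, n - 1, n - 1, 10 * (gt g (n / 10)).2.2 + 9, n - 7,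
  if (gt g (n / 10)).1 = 0 then n else n - 1].getD (n % 10) (n - 1)
def d2 (g : List Gt) (n : ℕ) : ℕ := [n, n, if n = 2 then n else n - 1, n - 1, 10 * (gt g (n / 10)).2.1 + 9, 0, n - 5, n - 1,
  if (gt g (n / 10)).1 = 0 then n else n - 3].getD (n % 10) 2
def off (g : List Gt) (m : ℕ) : ℕ := [0, 0, if (gt g (m / 10)).1 = 1 then 0 else 1, 0, (gt g (m / 10)).2.1, 0,
  (gt g (m / 10)).2.2].getD (m % 10) (m / 10)
def sig (g : List Gt) (n m : ℕ) : Bool :=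
  if m = 0 ∨ m = 2 then false else
  if m % 10 = 0 ∧ (gt g (m / 10)).1 = 1 then n % 10 ≠ 9 ∧ (n % 10 = 1 ∨ n % 10 = 5 ∨ m / 10 < n / 10) else
  if n % 10 = 9 then off g m < n / 10 else if n = 3 then true else
  if n / 10 ≠ m / 10 then m / 10 < n / 10 else n % 10 = 1 ∧ m % 10 ≠ 0 ∨ n % 10 = 7
def tau (g : List Gt) (n m : ℕ) : Bool := if n % 2 = 1 then sig g n m else sig g m n

variable {g : List Gt}

lemma dec (n : ℕ) : ∃ k, ∃ j < 10, n = 10 * k + j := ⟨n / 10, n % 10, by omega, by omega⟩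
lemma dv (k : ℕ) {j : ℕ} (h : j < 10) : (10 * k + j) / 10 = k := by omega
lemma md (k : ℕ) {j : ℕ} (h : j < 10) : (10 * k + j) % 10 = j := by omega

lemma cf (hv : ∀ k, (gt g k).val k) : Cf (ex g) (d1 g) (d2 g) := fun n hn => by
  obtain ⟨k, j, hj, rfl⟩ := dec n
  have := hv k
  simp only [ex, d1, d2, dv k hj, md k hj, Gt.val] at *
  have e (a j) (h : j < 10) (h' : a ≤ j) : 10 * k + j - a = 10 * k + (j - a) := by omega
  by_cases k0 : k = 0 <;> by_cases t0 : (gt g k).1 = 0 <;> by_cases t1 : (gt g k).1 = 1 <;> interval_cases j <;>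
    simp [e, dv, md, k0, t0, t1] at hn this ⊢ <;> grind

lemma addg {h2 h3 a1 a2 p1 q1 P1 P2 P3 p2 q2 r2 c1 c2 p3 q3 r3 Q1 Q2 Q3 p4 q4 r4 x x' y y' z z' : ℝ}
  (n1 : h2 ≠ 0) (n2 : a2 ≠ 0) (n3 : p1 ≠ 0) (n4 : P3 ≠ 0) (n5 : p2 ≠ 0) (n6 : c2 ≠ 0) (n7 : p3 ≠ 0) (n8 : Q3 ≠ 0)
  (n9 : p4 ≠ 0) (m1 : x' ≠ 0) (m2 : y' ≠ 0) (m3 : z' ≠ 0)
  (e1 : a1 * p1 + a2 * q1 = 0) (e2 : P2 * h2 + P3 * h3 = 0) (e3 : P1 * p1 + P2 * q1 = 0)
  (e4 : P1 * p2 + P2 * q2 + P3 * r2 = 0) (e5 : x * p2 + x' * r2 = 0) (e6 : c1 * p2 + c2 * q2 = 0)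
  (e7 : y * p3 + y' * r3 = 0) (e8 : a1 * p3 + a2 * q3 = 0) (e9 : Q2 * h2 + Q3 * h3 = 0)
  (f1 : Q1 * p3 + Q2 * q3 + Q3 * r3 = 0) (f2 : Q1 * p4 + Q2 * q4 + Q3 * r4 = 0) (f3 : c1 * p4 + c2 * q4 = 0)
  (f4 : z * p4 + z' * r4 = 0) : z / z' = x / x' + y / y' := by
  grind

lemma mulg {h1 h2 a1 a2 p1 q1 r1 P1 P2 P3 p2 q2 r2 c1 c2 p3 q3 r3 Q1 Q2 Q3 p4 q4 r4 x x' y y' z z' e e' : ℝ}
  (n1 : h1 ≠ 0) (n2 : a2 ≠ 0) (n3 : p1 ≠ 0) (n4 : P3 ≠ 0) (n5 : p2 ≠ 0) (n6 : c2 ≠ 0) (n7 : p3 ≠ 0) (n8 : Q3 ≠ 0)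
  (n9 : p4 ≠ 0) (m1 : x' ≠ 0) (m2 : y' ≠ 0) (m3 : z' ≠ 0) (m4 : e' ≠ 0)
  (e0 : e * p1 + e' * r1 = 0)
  (e1 : a1 * p1 + a2 * q1 = 0) (e2 : P1 * h1 + P2 * h2 = 0) (e3 : P1 * p1 + P2 * q1 + P3 * r1 = 0)
  (e4 : P1 * p2 + P2 * q2 + P3 * r2 = 0) (e5 : x * p2 + x' * r2 = 0) (e6 : c1 * p2 + c2 * q2 = 0)
  (e7 : y * p3 + y' * r3 = 0) (e8 : a1 * p3 + a2 * q3 = 0) (e9 : Q1 * h1 + Q2 * h2 = 0)
  (f1 : Q1 * p3 + Q2 * q3 + Q3 * r3 = 0) (f2 : Q1 * p4 + Q2 * q4 + Q3 * r4 = 0) (f3 : c1 * p4 + c2 * q4 = 0)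
  (f4 : z * p4 + z' * r4 = 0) : z / z' * (e / e') = x / x' * (y / y') := by
  grind

def Exact (g : List Gt) (w : ℕ → Vc) : Prop := ∀ n < 10 * g.length, ∀ m < 10 * g.length, ex g n → ex g m →
  n % 2 ≠ m % 2 → (inc (d1 g) (d2 g) n m → w n ⬝ᵥ w m = 0) ∧
    (¬inc (d1 g) (d2 g) n m → 0 < sn (tau g n m) * (w n ⬝ᵥ w m))

lemma coords {a b c x y z : Vc} (h1 : a ⬝ᵥ x ≠ 0) (h2 : a ⬝ᵥ y = 0) (h3 : a ⬝ᵥ z = 0) (h4 : b ⬝ᵥ y ≠ 0)
    (h5 : b ⬝ᵥ z = 0) (h6 : c ⬝ᵥ z ≠ 0) (p : Vc) : ∃ q : Vc, ∀ l, p ⬝ᵥ l = q ⬝ᵥ ![a ⬝ᵥ l, b ⬝ᵥ l, c ⬝ᵥ l] := by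
  have : (Matrix.of ![a, b, c]).det ≠ 0 := fun h => by
    simp only [Matrix.det_fin_three, dotProduct, Fin.sum_univ_three] at *
    simp at h
    exact mul_ne_zero (mul_ne_zero h1 h4) h6 (by grind)
  refine ⟨![(Matrix.of ![p, b, c]).det / (Matrix.of ![a, b, c]).det, (Matrix.of ![a, p, c]).det / (Matrix.of ![a, b, c]).det,
    (Matrix.of ![a, b, p]).det / (Matrix.of ![a, b, c]).det], fun l => ?_⟩
  simp only [dotProduct, Fin.sum_univ_three]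
  simp; field_simp; simp [Matrix.det_fin_three]; ring

theorem ex_sound (hv : ∀ k, (gt g k).val k) (h2 : 2 < g.length ∧ (gt g 2).1 = 1) {w : ℕ → Vc} (hw : Exact g w) :
    ∃ v : ℕ → ℝ, v 1 = 1 ∧ (∀ j k, j < k → k < g.length → v j < v k) ∧ ∀ k < g.length, (gt g k).ok v k := by
  have t0 : (gt g 0).1 = 0 := by have := hv 0; simp only [Gt.val] at this; omega
  have t1 : (gt g 1).1 = 0 := by have := hv 1; simp only [Gt.val] at this; omega
  have Z (n m) (a : ex g n) (b : ex g m) (c : n % 2 = 1 ∧ m % 2 = 0) (d : inc (d1 g) (d2 g) n m) : w n ⬝ᵥ w m = 0 :=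
    (hw n (by have := a.1; omega) m (by have := b.1; omega) a b (by omega)).1 d
  have S (n m) (a : ex g n) (b : ex g m) (c : n % 2 = 1 ∧ m % 2 = 0) (d : ¬inc (d1 g) (d2 g) n m) :
      0 < sn (sig g n m) * (w n ⬝ᵥ w m) := by
    simpa [tau, c.1] using (hw n (by have := a.1; omega) m (by have := b.1; omega) a b (by omega)).2 d
  have x0 : ex g 0 ∧ ex g 2 ∧ ex g 3 ∧ ex g 8 ∧ ex g 9 ∧ ex g 19 ∧ ex g 21 := by simp [ex, h2]; omega
  have a1 := S 3 8 (by simp [x0]) (by simp [x0]) (by omega) (by simp [inc, d1, d2, t0])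
  have a2 := Z 3 2 (by simp [x0]) (by simp [x0]) (by omega) (by simp [inc, d1, d2])
  have a3 := Z 3 0 (by simp [x0]) (by simp [x0]) (by omega) (by simp [inc, d1, d2])
  have a4 := S 21 2 (by simp [x0]) (by simp [x0]) (by omega) (by simp [inc, d1, d2])
  have a5 := Z 21 0 (by simp [x0]) (by simp [x0]) (by omega) (by simp [inc, d1, d2])
  have a6 := S 9 0 (by simp [x0]) (by simp [x0]) (by omega) (by simp [inc, d1, d2])
  have a7 := Z 9 2 (by simp [x0]) (by simp [x0]) (by omega) (by simp [inc, d1, d2])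
  have a8 := Z 9 8 (by simp [x0]) (by simp [x0]) (by omega) (by simp [inc, d1, d2])
  simp [sig, sn] at a1 a4 a6
  choose q hq using fun n => coords a1.ne' a2 a3 a4.ne a5 a6.ne (w n)
  have L (m) : ∃ l : Vc, l = ![w 3 ⬝ᵥ w m, w 21 ⬝ᵥ w m, w 9 ⬝ᵥ w m] := ⟨_, rfl⟩
  choose l hl using L
  have hq' (n m) : w n ⬝ᵥ w m = q n 0 * l m 0 + q n 1 * l m 1 + q n 2 * l m 2 := by
    rw [hq, ← hl, dotProduct, Fin.sum_univ_three]
  simp only [hq'] at Z S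
  have l0 : l 0 0 = 0 ∧ l 0 1 = 0 ∧ l 0 2 < 0 := by simp [hl, a2, a3, a4, a5, a6, a7, a8, a1]
  have l2 : l 2 0 = 0 ∧ l 2 1 < 0 ∧ l 2 2 = 0 := by simp [hl, a2, a3, a4, a5, a6, a7, a8, a1]
  have l8 : 0 < l 8 0 ∧ l 8 2 = 0 := by simp [hl, a2, a3, a4, a5, a6, a7, a8, a1]
  clear hq hq' hl a1 a2 a3 a4 a5 a6 a7 a8 hw
  have P1 (n) (a : ex g n) (c : n % 2 = 1) (d : ¬inc (d1 g) (d2 g) n 0) : 0 < q n 2 := by
    have := S n 0 a x0.1 (by omega) d; simp [sig, sn, l0] at this; nlinarith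
  have P2 (n) (a : ex g n) (c : n % 2 = 1) (d : inc (d1 g) (d2 g) n 0) : q n 2 = 0 := by
    simpa [l0, l0.2.2.ne] using Z n 0 a x0.1 (by omega) d
  have P3 (n) (a : ex g n) (c : n % 2 = 1) (d : ¬inc (d1 g) (d2 g) n 2) : 0 < q n 1 := by
    have := S n 2 a x0.2.1 (by omega) d; simp [sig, sn, l2] at this; nlinarith
  have P4 (n) (a : ex g n) (c : n % 2 = 1) (d : inc (d1 g) (d2 g) n 2) : q n 1 = 0 := by
    simpa [l2, l2.2.1.ne] using Z n 2 a x0.2.1 (by omega) d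
  have i1 := P2 3 x0.2.2.1 rfl (by simp [inc, d1]); have i2 := P4 3 x0.2.2.1 rfl (by simp [inc, d2])
  have i3 : 0 < q 3 0 := by
    have := S 3 8 (by simp [x0]) (by simp [x0]) (by omega) (by simp [inc, d1, d2, t0])
    simp [sig, sn, i1, i2] at this; nlinarith
  have P5 (m) (a : ex g m) (c : m % 2 = 0) (d : ¬inc (d1 g) (d2 g) 3 m) (e : sig g 3 m = true) : 0 < l m 0 := by
    have := S 3 m x0.2.2.1 a (by omega) d; simp [e, sn, i1, i2] at this; nlinarith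
  have N (k) (hk : k < g.length) : ex g (10 * k + 9) ∧ 0 < q (10 * k + 9) 2 ∧ q (10 * k + 9) 1 = 0 := by
    have : ex g (10 * k + 9) := by simp [ex, dv, md, hk]
    exact ⟨this, P1 _ this (by omega) (by simp [inc, d1, d2, md]), P4 _ this (by omega) (by simp [inc, d2, md])⟩
  have c0 : q 9 0 = 0 := by
    simpa [l8, l8.1.ne', (N 0 (by omega)).2.2] using Z 9 8 (by simp [x0]) (by simp [x0]) (by omega) (by simp [inc, d1])
  have M (j k) (h : j < k) (hk : k < g.length) :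
      q (10 * j + 9) 0 / q (10 * j + 9) 2 < q (10 * k + 9) 0 / q (10 * k + 9) 2 := by
    have b : ex g (10 * k + 8) := by simp [ex, dv, md, hk]
    have a := N j (by omega); have a' := N k hk
    have b1 := P5 _ b (by omega) (by simp [inc, d1, d2, md]; grind) (by simp [sig, md])
    have b2 := Z _ _ a'.1 b (by omega) (by simp [inc, d1, md])
    have b3 := S _ _ a.1 b (by omega) (by simp [inc, d1, d2, md]; grind)
    simp [sig, md, dv, off, h.not_gt, sn, a, a'] at b2 b3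
    rw [div_lt_div_iff₀ a.2.1 a'.2.1]
    nlinarith [mul_pos a.2.1 a'.2.1]
  have c1 := M 0 1 one_pos (by omega)
  simp only [mul_zero, zero_add, c0, zero_div] at c1
  refine ⟨fun k => q (10 * k + 9) 0 / q (10 * k + 9) 2 / (q (10 * 1 + 9) 0 / q (10 * 1 + 9) 2), div_self c1.ne',
    fun j k h hk => div_lt_div_of_pos_right (M j k h hk) c1, fun k hk ht => ?_⟩
  obtain ⟨v1, v2, v3, v4, v5⟩ := hv k ht
  have X (j) (hj : j < 10) : ex g (10 * k + j) := by simp [ex, dv, hj, hk, ht]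
  have e (a j) (h' : a ≤ j) : 10 * k + j - a = 10 * k + (j - a) := by omega
  have na := N _ (v2.trans hk); have nb := N _ (v4.trans hk); have nk := N k hk; have n1 := N 1 (by omega)
  have n0 := N 0 (by omega)
  have k0 : k ≠ 0 := by omega
  have A1 := P2 _ (X 1 (by omega)) (by omega) (by simp [inc, d1, md])
  have A2 := P3 _ (X 1 (by omega)) (by omega) (by simp [inc, d1, d2, md, k0])
  have C1 := P2 _ (X 5 (by omega)) (by omega) (by simp [inc, d2, md])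
  have C2 := P3 _ (X 5 (by omega)) (by omega) (by simp [inc, d1, d2, md, k0])
  have B1 := P1 _ (X 3 (by omega)) (by omega) (by simp [inc, d1, d2, md, k0, e])
  have B2 := P1 _ (X 7 (by omega)) (by omega) (by simp [inc, d1, d2, md, k0, e])
  have F (j) (hj : j = 2 ∨ j = 4 ∨ j = 6 ∨ j = 8) := P5 _ (X j (by omega)) (by omega)
    (by rcases hj with rfl | rfl | rfl | rfl <;> simp [inc, d1, d2, md, dv] <;> grind)
    (by rcases hj with rfl | rfl | rfl | rfl <;> simp [sig, md, dv, k0])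
  have G (i j) (h : i < 10 ∧ j < 10 ∧ i % 2 = 1 ∧ j % 2 = 0) := Z _ _ (X i h.1) (X j h.2.1) (by omega)
  have e1 := G 1 2 (by omega) (by simp [inc, d2, md, k0])
  have e2 := G 3 0 (by omega) (by simp [inc, d1, md])
  have e3 := G 3 2 (by omega) (by simp [inc, d2, md])
  have e4 := G 3 4 (by omega) (by simp [inc, d1, md])
  have e5 := Z _ _ na.1 (X 4 (by omega)) (by omega) (by simp [inc, d2, md, dv])
  have e6 := G 5 4 (by omega) (by simp [inc, d1, md])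
  have e7 := Z _ _ nb.1 (X 6 (by omega)) (by omega) (by simp [inc, d1, md, dv])
  have e8 := G 1 6 (by omega) (by simp [inc, d2, md, e])
  have e9 := G 7 0 (by omega) (by simp [inc, d1, md])
  have f1 := G 7 6 (by omega) (by simp [inc, d2, md])
  have f2 := G 7 8 (by omega) (by simp [inc, d1, md, dv, ht])
  have f3 := G 5 8 (by omega) (by simp [inc, d2, md, dv, ht, e])
  have f4 := G 9 8 (by omega) (by simp [inc, d1, md])
  simp only [A1, C1, na, nb, nk, zero_mul, add_zero] at e1 e5 e6 e7 e8 f3 f4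
  simp only [Gt.ev]; split_ifs with t
  · have h1 := Z 3 _ x0.2.2.1 (X 0 (by omega)) (by omega) (by simp [inc, d1, k0, t])
    have h2 := S _ _ (X 1 (by omega)) (X 0 (by omega)) (by omega) (by simp [inc, d1, d2, md, k0, t]; omega)
    have h3 := Z 9 _ n0.1 (X 2 (by omega)) (by omega) (by simp [inc, d1, md, dv, k0, t])
    simp [i1, i2, i3.ne', c0, n0.2.1.ne', n0.2.2] at h1 h3
    simp [h1, A1, sig, k0, t, md, sn] at h2
    simp only [h1, h3, mul_zero, add_zero, zero_add] at e2 e3 e9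
    rw [addg (by rintro h; simp [h] at h2) A2.ne' (F 2 (by omega)).ne' B1.ne' (F 4 (by omega)).ne' C2.ne'
      (F 6 (by omega)).ne' B2.ne' (F 8 (by omega)).ne' na.2.1.ne' nb.2.1.ne' nk.2.1.ne' e1 e2 e3 e4 e5 e6 e7 e8 e9 f1 f2
      f3 f4, add_div]
  · have h1 := P5 _ (X 0 (by omega)) (by omega) (by simp [inc, d1, d2, k0, t]; omega) (by simp [sig, k0, t]; omega)
    have h2 := Z 9 _ n0.1 (X 0 (by omega)) (by omega) (by simp [inc, d1, k0, t])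
    have h3 := Z _ _ n1.1 (X 2 (by omega)) (by omega) (by simp [inc, d1, md, dv, k0, t])
    simp [c0, n0.2.1.ne', n0.2.2] at h2
    simp only [n1, zero_mul, add_zero] at h3
    simp only [add_zero, h2, mul_zero] at e2 e9
    have := mulg h1.ne' A2.ne' (F 2 (by omega)).ne' B1.ne' (F 4 (by omega)).ne' C2.ne'
      (F 6 (by omega)).ne' B2.ne' (F 8 (by omega)).ne' na.2.1.ne' nb.2.1.ne' nk.2.1.ne' n1.2.1.ne' h3 e1 e2 e3 e4 e5 e6 e7
      e8 e9 f1 f2 f3 f4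
    generalize q (10 * 1 + 9) 0 / q (10 * 1 + 9) 2 = E at *
    rw [div_mul_div_comm, ← this]; field_simp

end Pool.Agent.H21.LV
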