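import Pool.Agent.H21.Sg4

namespace Pool.Agent.H21.LV

open Pool.Agent.H11.PT Pool.Agent.H21.ER

noncomputable section
def ee (c : Gt) : ℝ := if c.1 = 1 then 0 else 1
def rho (c : Gt) (v : ℕ → ℝ) (s H : ℝ) : ℝ := if c.1 = 0 then s else s - (v c.2.1 - ee c) / H
def ff (c : Gt) (v : ℕ → ℝ) : ℝ := if c.1 = 1 then 1 else v c.2.2
def wk (c : Gt) (v : ℕ → ℝ) (k : ℕ) (s H : ℝ) (j : ℕ) : Vc :=
  [if k = 0 then ![0, 0, -1] else if c.1 = 1 then ![0, 1, -H] else ![1, -(s + 1 / H), 0], ![s, 1, 0],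
    if k = 0 then ![0, -1, 0] else ![1, -s, -ee c], if k = 0 then ![1, 0, 0] else ![ee c + s * H, H, 1],
    ![1, -rho c v s H, -v c.2.1], ![rho c v s H, 1, 0], ![1, -s, -v c.2.2], ![v c.2.2 + s * (H * ff c v), H * ff c v, 1],
    ![1, -rho c v s H, -v k]].getD j ![v k, 0, 1]
def ww (g : List Gt) (v : ℕ → ℝ) (n : ℕ) : Vc :=
  wk (gt g (n / 10)) v (n / 10) ((n / 10 : ℕ) + 1) ((4 * v g.length + 4) ^ (n / 10 + 1)) (n % 10)
end

variable {g : List Gt} {v : ℕ → ℝ}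

lemma rho_bd (hv : StrictMono v) (h0 : v 0 = 0) (h1 : v 1 = 1) {c : Gt} {k N : ℕ} (hc : c.val k) (hk : k < N) (s : ℝ) :
    |rho c v s ((4 * v N + 4) ^ (k + 1)) - s| ≤ 1 / 4 ∧ 4 * v N + 4 ≤ (4 * v N + 4) ^ (k + 1) := by
  have hN : 0 ≤ v N := h0 ▸ hv.monotone N.zero_le
  have h : 4 * v N + 4 ≤ (4 * v N + 4) ^ (k + 1) := le_self_pow₀ (by linarith) (by omega)
  refine ⟨?_, h⟩
  simp only [rho]; split_ifs with t
  · simp
  · have := hc t
    have a := hv.monotone this.1; have b := hv (this.2.1.trans hk)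
    have : 0 ≤ ee c ∧ ee c ≤ 1 := by simp only [ee]; split_ifs <;> simp
    rw [sub_sub_cancel_left, abs_neg, abs_of_nonneg (div_nonneg (by linarith) (by linarith)), div_le_iff₀ (by linarith)]
    linarith

lemma pt_cls (hg : ∀ k, (gt g k).val k) (hv : StrictMono v) (h0 : v 0 = 0) (h1 : v 1 = 1) {n : ℕ} (a : ex g n)
    (b : n % 2 = 1) (c : n % 10 ≠ 9) (d : n ≠ 3) : ∃ w r Y z : ℝ, ww g v n = ![w + r * Y, Y, z] ∧
      |r - ((n / 10 : ℕ) + 1)| ≤ 1 / 4 ∧ (z = 0 ∧ w = 0 ∧ Y = 1 ∧ (n % 10 = 1 ∨ n % 10 = 5) ∨ z = 1 ∧ 0 ≤ w ∧ w ≤ v g.length ∧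
        (4 * v g.length + 4) ^ (n / 10 + 1) ≤ Y ∧ Y < (4 * v g.length + 4) ^ (n / 10 + 2) ∧ (n % 10 = 3 ∨ n % 10 = 7)) := by
  obtain ⟨k, j, hj, rfl⟩ := dec n
  simp only [ex, ww, dv k hj, md k hj] at *
  have t : (gt g k).1 ≠ 0 := by omega
  have r := rho_bd hv h0 h1 (hg k) a.1 (k + 1)
  obtain ⟨v1, v2, v3, v4, -⟩ := hg k t
  have := hv.monotone v3; have := hv (v4.trans a.1)
  have e : 0 ≤ ee (gt g k) ∧ ee (gt g k) ≤ 1 := by simp only [ee]; split_ifs <;> simp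
  have f : 1 ≤ ff (gt g k) v ∧ ff (gt g k) v ≤ v g.length := by simp only [ff]; split_ifs <;> constructor <;> linarith
  rw [pow_succ _ (k + 1)]
  generalize (4 * v g.length + 4) ^ (k + 1) = H at *
  have : k ≠ 0 := by omega
  obtain rfl | rfl | rfl | rfl : j = 1 ∨ j = 3 ∨ j = 5 ∨ j = 7 := by omega
  · exact ⟨0, k + 1, 1, 0, by simp [wk], by simp⟩
  · exact ⟨ee (gt g k), k + 1, H, 1, by simp [wk, this], by simp, .inr ⟨rfl, e.1, by linarith, le_rfl, by nlinarith, by simp⟩⟩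
  · exact ⟨0, _, 1, 0, by simp [wk], r.1, by simp⟩
  · exact ⟨v (gt g k).2.2, k + 1, H * ff (gt g k) v, 1, by simp [wk], by simp,
      .inr ⟨rfl, by linarith, by linarith, by nlinarith, by nlinarith, by simp⟩⟩

lemma ln_cls (hg : ∀ k, (gt g k).val k) (hv : StrictMono v) (h0 : v 0 = 0) (h1 : v 1 = 1) {m : ℕ} (a : ex g m)
    (b : m % 2 = 0) (c : ¬(m = 0 ∨ m = 2)) (d : ¬(m % 10 = 0 ∧ (gt g (m / 10)).1 = 1)) :
    ∃ r : ℝ, ww g v m = ![1, -r, -v (off g m)] ∧ |r - ((m / 10 : ℕ) + 1)| ≤ 1 / 4 ∧ off g m < g.length := by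
  obtain ⟨k, j, hj, rfl⟩ := dec m
  have := hg k
  simp only [ex, ww, off, dv k hj, md k hj, Gt.val] at *
  have r := rho_bd hv h0 h1 (hg k) a.1 (k + 1)
  have hN : 0 ≤ v g.length := h0 ▸ hv.monotone (Nat.zero_le _)
  generalize (4 * v g.length + 4) ^ (k + 1) = H at *
  obtain rfl | rfl | rfl | rfl | rfl : j = 0 ∨ j = 2 ∨ j = 4 ∨ j = 6 ∨ j = 8 := by omega
  · refine ⟨k + 1 + 1 / H, by simp [wk, show k ≠ 0 by omega, show (gt g k).1 ≠ 1 by omega, h0], ?_, by simp; omega⟩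
    rw [add_sub_cancel_left, abs_of_pos (one_div_pos.2 (by linarith))]
    exact one_div_le_one_div_of_le (by norm_num) (by linarith)
  · exact ⟨k + 1, by simp [wk, show k ≠ 0 by omega, ee]; split_ifs <;> simp [*], by simp, by simp; split_ifs <;> omega⟩
  · exact ⟨_, by simp [wk], r.1, by simp; omega⟩
  · exact ⟨k + 1, by simp [wk], by simp, by simp; omega⟩
  · exact ⟨_, by simp [wk], r.1, by simp; omega⟩

lemma own (hg : ∀ k, (gt g k).val k) (hv : StrictMono v) (h0 : v 0 = 0) (h1 : v 1 = 1) {k : ℕ} (hk : k < g.length)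
    (ho : (gt g k).ok v k) (t : (gt g k).1 ≠ 0) {i j : ℕ} (hi : i = 1 ∨ i = 3 ∨ i = 5 ∨ i = 7)
    (hj : j = 0 ∨ j = 2 ∨ j = 4 ∨ j = 6 ∨ j = 8) :
    (inc (d1 g) (d2 g) (10 * k + i) (10 * k + j) → ww g v (10 * k + i) ⬝ᵥ ww g v (10 * k + j) = 0) ∧
    (¬inc (d1 g) (d2 g) (10 * k + i) (10 * k + j) →
      0 < sn (sig g (10 * k + i) (10 * k + j)) * (ww g v (10 * k + i) ⬝ᵥ ww g v (10 * k + j))) := by
  obtain ⟨v1, v2, v3, v4, v5⟩ := hg k t
  have r := (rho_bd hv h0 h1 (hg k) hk 0).2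
  have hN : 0 ≤ v g.length := h0 ▸ hv.monotone (Nat.zero_le _)
  have e (a j) (h' : a ≤ j) : 10 * k + j - a = 10 * k + (j - a) := by omega
  have k0 : k ≠ 0 := by omega
  have ho := ho t
  have a1 := hv.monotone v1; have a2 := hv.monotone v3
  have a3 : (gt g k).1 ≠ 1 → 1 < v (gt g k).2.1 ∧ 1 < v (gt g k).2.2 := fun h => ⟨h1 ▸ hv (v5 h).1, h1 ▸ hv (v5 h).2⟩
  simp only [ww, dv k (show i < 10 by omega), dv k (show j < 10 by omega), md k (show i < 10 by omega),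
    md k (show j < 10 by omega)]
  generalize (4 * v g.length + 4) ^ (k + 1) = H at *
  have : 0 < H := by linarith
  have := inv_pos.2 this
  have k2 : 10 * k ≠ 2 := by omega
  refine ⟨fun h => ?_, fun h => ?_⟩ <;> by_cases t1 : (gt g k).1 = 1 <;> rcases hi with rfl | rfl | rfl | rfl <;>
    rcases hj with rfl | rfl | rfl | rfl | rfl <;> simp [inc, d1, d2, md, dv, e, k0, t, t1] at h <;>
    first | omega | (simp [sig, wk, rho, ee, ff, md, dv, k0, k2, t, t1, sn, Gt.ev] at a3 ho ⊢ <;>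
      first | positivity | (field_simp; nlinarith) | nlinarith)

lemma inc9 (hg : ∀ k, (gt g k).val k) {k m : ℕ} (a : ex g m) (b : m % 2 = 0) : inc (d1 g) (d2 g) (10 * k + 9) m ↔
    m = 2 ∨ m ≠ 0 ∧ ¬(m % 10 = 0 ∧ (gt g (m / 10)).1 = 1) ∧ off g m = k := by
  obtain ⟨l, j, hj, rfl⟩ := dec m
  have := hg l
  simp only [ex, inc, d1, d2, off, dv l hj, md l hj, Gt.val] at *
  obtain rfl | rfl | rfl | rfl | rfl : j = 0 ∨ j = 2 ∨ j = 4 ∨ j = 6 ∨ j = 8 := by omega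
  all_goals simp [md]; grind
lemma inc3 (hg : ∀ k, (gt g k).val k) {m : ℕ} (a : ex g m) (b : m % 2 = 0) : inc (d1 g) (d2 g) 3 m ↔
    m = 0 ∨ m = 2 ∨ m % 10 = 0 ∧ (gt g (m / 10)).1 = 1 := by
  obtain ⟨l, j, hj, rfl⟩ := dec m
  have := hg l
  simp only [ex, inc, d1, d2, dv l hj, md l hj, Gt.val] at *
  obtain rfl | rfl | rfl | rfl | rfl : j = 0 ∨ j = 2 ∨ j = 4 ∨ j = 6 ∨ j = 8 := by omega
  all_goals simp; grind
lemma incx (hg : ∀ k, (gt g k).val k) {n m : ℕ} (a : ex g m) (b : m % 2 = 0) (c : n % 10 ≠ 9) (d : n ≠ 3)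
    (e : n % 2 = 1) (f : n / 10 ≠ m / 10) : inc (d1 g) (d2 g) n m ↔ m = 0 ∧ (n % 10 = 1 ∨ n % 10 = 5) := by
  obtain ⟨l, j, hj, rfl⟩ := dec m
  obtain ⟨k, i, hi, rfl⟩ := dec n
  have := hg l
  simp only [ex, inc, d1, d2, dv l hj, md l hj, dv k hi, md k hi, Gt.val] at *
  obtain rfl | rfl | rfl | rfl : i = 1 ∨ i = 3 ∨ i = 5 ∨ i = 7 := by omega
  all_goals
    obtain rfl | rfl | rfl | rfl | rfl : j = 0 ∨ j = 2 ∨ j = 4 ∨ j = 6 ∨ j = 8 := by omega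
    all_goals simp; grind

lemma ex_main (hg : ∀ k, (gt g k).val k) (hv : StrictMono v) (h0 : v 0 = 0) (h1 : v 1 = 1)
    (ho : ∀ k < g.length, (gt g k).ok v k) {n m : ℕ} (a : ex g n) (b : ex g m) (c : n % 2 = 1) (d : m % 2 = 0) :
    (inc (d1 g) (d2 g) n m → ww g v n ⬝ᵥ ww g v m = 0) ∧
    (¬inc (d1 g) (d2 g) n m → 0 < sn (sig g n m) * (ww g v n ⬝ᵥ ww g v m)) := by
  have hN : 0 ≤ v g.length := h0 ▸ hv.monotone (Nat.zero_le _)
  have w0 : ww g v 0 = ![0, 0, -1] := by simp [ww, wk]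
  have w2 : ww g v 2 = ![0, -1, 0] := by simp [ww, wk]
  have t0 : (gt g 0).1 = 0 := by have := hg 0; simp only [Gt.val] at this; omega
  have wh (h : m % 10 = 0 ∧ (gt g (m / 10)).1 = 1) : ww g v m = ![0, 1, -(4 * v g.length + 4) ^ (m / 10 + 1)] := by
    simp [ww, wk, h, show m / 10 ≠ 0 by grind]
  have pw (k) : 0 < (4 * v g.length + 4) ^ k := by positivity
  by_cases h9 : n % 10 = 9
  · obtain ⟨k, rfl⟩ : ∃ k, n = 10 * k + 9 := ⟨n / 10, by omega⟩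
    rw [inc9 hg b d, show ww g v (10 * k + 9) = ![v k, 0, 1] by simp [ww, wk, md, dv]]
    by_cases m0 : m = 0; · simp [m0, w0, sig, sn]
    by_cases m2 : m = 2; · simp [m2, w2]
    by_cases mh : m % 10 = 0 ∧ (gt g (m / 10)).1 = 1; · simp [wh mh, sig, m0, m2, mh, md, sn, pw]
    obtain ⟨r, e, -, -⟩ := ln_cls hg hv h0 h1 b d (by omega) mh
    simp only [e, sig, m0, m2, mh, md, dv, Nat.reduceLT]
    rcases lt_trichotomy (off g m) k with h | h | h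
    exacts [by simp [h, h.ne, sn, hv h], by simp [h, m0], by simp [h.not_gt, h.ne', sn, hv h]]
  by_cases h3 : n = 3
  · subst h3
    rw [inc3 hg b d, show ww g v 3 = ![1, 0, 0] by simp [ww, wk]]
    by_cases m0 : m = 0; · simp [m0, w0]
    by_cases m2 : m = 2; · simp [m2, w2]
    by_cases mh : m % 10 = 0 ∧ (gt g (m / 10)).1 = 1; · simp [wh mh, mh]
    obtain ⟨r, e, -, -⟩ := ln_cls hg hv h0 h1 b d (by omega) mh
    simp [e, sig, m0, m2, mh, sn]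
  by_cases hk : n / 10 = m / 10
  · obtain ⟨k, i, hi, rfl⟩ := dec n
    obtain ⟨l, j, hj, rfl⟩ := dec m
    obtain rfl : k = l := by omega
    simp only [ex, dv k hi, md k hi] at a
    exact own hg hv h0 h1 a.1 (ho k a.1) (by omega) (by omega) (by omega)
  obtain ⟨w, r, Y, z, e1, e2, e3⟩ := pt_cls hg hv h0 h1 a c h9 h3
  have := pw (n / 10 + 1)
  rw [incx hg b d h9 h3 c hk, e1]
  by_cases m0 : m = 0; · simp [m0, w0, sig, sn]; grind
  by_cases m2 : m = 2; · simp [m2, w2, sig, sn]; grind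
  simp only [m0, false_and, false_imp_iff, true_and, not_false_eq_true, true_imp_iff]
  have mono {i j : ℕ} (h : i ≤ j) : (4 * v g.length + 4) ^ i ≤ (4 * v g.length + 4) ^ j := pow_le_pow_right₀ (by linarith) h
  by_cases mh : m % 10 = 0 ∧ (gt g (m / 10)).1 = 1
  · simp only [wh mh, sig, m0, m2, mh, h9]
    rcases e3 with ⟨rfl, rfl, rfl, e⟩ | ⟨rfl, -, -, e4, e5, e⟩
    · rcases e with e | e <;> simp [e, sn]
    · rcases lt_or_gt_of_ne hk with h | h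
      · have := mono (show n / 10 + 2 ≤ m / 10 + 1 by omega)
        simp [show n % 10 ≠ 1 by omega, show n % 10 ≠ 5 by omega, h.not_gt, sn]; linarith
      · have := pow_lt_pow_right₀ (show 1 < 4 * v g.length + 4 by linarith) (show m / 10 + 1 < n / 10 + 1 by omega)
        simp [h, h9, sn]; linarith
  obtain ⟨r', e, e4, e5⟩ := ln_cls hg hv h0 h1 b d (by omega) mh
  have := hv e5; have : 0 ≤ v (off g m) := h0 ▸ hv.monotone (Nat.zero_le _)
  have := mono (show 1 ≤ n / 10 + 1 by omega)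
  have hb : 0 < Y ∧ -Y / 2 < w - z * v (off g m) ∧ w - z * v (off g m) < Y / 2 := by
    rw [pow_one] at this
    rcases e3 with ⟨rfl, rfl, rfl, -⟩ | ⟨rfl, _, _, _, -⟩ <;> refine ⟨?_, ?_, ?_⟩ <;> linarith
  rw [e, show ![w + r * Y, Y, z] ⬝ᵥ ![1, -r', -v (off g m)] = (r - r') * Y + (w - z * v (off g m)) by simp; ring]
  rw [abs_le] at e2 e4
  rcases lt_or_gt_of_ne hk with h | h <;> have : ((_ : ℕ) : ℝ) + 1 ≤ (_ : ℕ) := (by exact_mod_cast h)
  · rw [show sig g n m = false by simp [sig, m0, m2, mh, h9, h3, hk, h.not_gt]]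
    simp only [sn, cond_false]; nlinarith
  · rw [show sig g n m = true by simp [sig, m0, m2, mh, h9, h3, hk, h]]
    simp only [sn, cond_true]; nlinarith

lemma dual2 {a b : Vc} (h : a 0 * b 1 ≠ a 1 * b 0 ∨ a 0 * b 2 ≠ a 2 * b 0 ∨ a 1 * b 2 ≠ a 2 * b 1) (s t : ℝ) :
    ∃ δ : Vc, δ ⬝ᵥ a = s ∧ δ ⬝ᵥ b = t := by
  simp only [dotProduct, Fin.sum_univ_three]
  rcases h with h | h | h <;> rw [← sub_ne_zero] at h
  · exact ⟨![(s * b 1 - t * a 1) / (a 0 * b 1 - a 1 * b 0), (t * a 0 - s * b 0) / (a 0 * b 1 - a 1 * b 0), 0],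
      by simp; grind, by simp; grind⟩
  · exact ⟨![(s * b 2 - t * a 2) / (a 0 * b 2 - a 2 * b 0), 0, (t * a 0 - s * b 0) / (a 0 * b 2 - a 2 * b 0)],
      by simp; grind, by simp; grind⟩
  · exact ⟨![0, (s * b 2 - t * a 2) / (a 1 * b 2 - a 2 * b 1), (t * a 1 - s * b 1) / (a 1 * b 2 - a 2 * b 1)],
      by simp; grind, by simp; grind⟩

lemma ex_dual (hg : ∀ k, (gt g k).val k) (hv : StrictMono v) (h0 : v 0 = 0) (h1 : v 1 = 1) {n : ℕ} (a : ex g n)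
    (s t : ℝ) : ∃ δ : Vc, (d1 g n ≠ n → δ ⬝ᵥ ww g v (d1 g n) = s) ∧ (d2 g n ≠ n → δ ⬝ᵥ ww g v (d2 g n) = t) := by
  obtain ⟨k, j, hj, rfl⟩ := dec n
  have hN : 0 ≤ v g.length := h0 ▸ hv.monotone (Nat.zero_le _)
  have hH : (4 * v g.length + 4) ^ (k + 1) ≠ 0 := by positivity
  have e (a j) (h' : a ≤ j) : 10 * k + j - a = 10 * k + (j - a) := by omega
  have hk := hg k
  have p1 : (gt g k).1 ≠ 0 → v (gt g k).2.1 - ee (gt g k) ≠ 0 ∧ v (gt g k).2.2 ≠ 0 := fun h => by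
    have kk := hk h; have := hv.monotone kk.1; have := hv.monotone kk.2.2.1
    have := hv.lt_iff_lt (a := 1) (b := (gt g k).2.1)
    simp only [ee]; grind
  by_cases h : d1 g (10 * k + j) = 10 * k + j ∧ d2 g (10 * k + j) = 10 * k + j
  · exact ⟨0, by simp [h]⟩
  simp only [ex, dv k hj, md k hj, Gt.val] at a hk
  by_cases h' : j = 0 ∨ j = 1
  · refine ⟨if j = 1 then ![0, 0, -s] else ![s, 0, s], ?_⟩
    by_cases k0 : k = 0 <;> by_cases t1 : (gt g k).1 = 1 <;> rcases h' with rfl | rfl <;>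
      simp [d1, d2, ww, wk, dv, md, k0, t1, h0] at h ⊢
  refine (dual2 ?_ s t).imp fun δ h => ⟨fun _ => h.1, fun _ => h.2⟩
  by_cases k0 : k = 0 <;> by_cases t0 : (gt g k).1 = 0 <;> by_cases t1 : (gt g k).1 = 1 <;> interval_cases j <;>
    simp [d1, d2, ww, wk, e, dv, md, k0, t0, t1, hH, rho, ff, ee] at a h h' hk p1 ⊢ <;> grind

theorem ex_compl (hg : ∀ k, (gt g k).val k) (hv : StrictMono v) (h0 : v 0 = 0) (h1 : v 1 = 1)
    (ho : ∀ k < g.length, (gt g k).ok v k) : ∃ u : ℕ × ℕ → Vc, ∀ n < 10 * g.length, ∀ c < 4, ex g n →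
      0 < u (n, c) ⬝ᵥ (if n % 2 = 1 then ![1, 1, 1] else ![2, -1, -1]) ∧ ∀ m < 10 * g.length, ∀ e < 4, ex g m →
        n % 2 ≠ m % 2 → 0 < sn (TT (d1 g) (d2 g) (tau g) (n, c) (m, e)) * (u (n, c) ⬝ᵥ u (m, e)) := by
  refine lv_compl (cf hg) (w := ww g v) _ (fun n _ m _ a b c => ?_) (fun n _ a => ?_) fun n _ a => ex_dual hg hv h0 h1 a
  · by_cases h : n % 2 = 1
    · simpa [tau, h] using ex_main hg hv h0 h1 ho a b h (by omega)
    · have := ex_main hg hv h0 h1 ho b a (by omega) (by omega)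
      rw [dotProduct_comm, show inc (d1 g) (d2 g) n m ↔ inc (d1 g) (d2 g) m n by simp only [inc]; omega]
      simpa [tau, h] using this
  have nn (i) : 0 ≤ v i := h0 ▸ hv.monotone (Nat.zero_le _)
  have := nn g.length
  have pw : 4 * v g.length + 4 ≤ (4 * v g.length + 4) ^ (n / 10 + 1) := le_self_pow₀ (by linarith) (by omega)
  have : (0 : ℝ) ≤ (n / 10 : ℕ) := by positivity
  split_ifs with h
  · by_cases h9 : n % 10 = 9
    · have := nn (n / 10); simp [ww, wk, h9]; linarith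
    by_cases h3 : n = 3
    · simp [h3, ww, wk]
    obtain ⟨w, r, Y, z, e1, e2, e3⟩ := pt_cls hg hv h0 h1 a h h9 h3
    rw [abs_le] at e2
    simp only [e1, dotProduct, Fin.sum_univ_three]
    rcases e3 with ⟨rfl, rfl, rfl, -⟩ | ⟨rfl, _, _, _, -⟩ <;> simp <;> nlinarith
  · by_cases m0 : n = 0 ∨ n = 2
    · rcases m0 with rfl | rfl <;> simp [ww, wk]
    by_cases mh : n % 10 = 0 ∧ (gt g (n / 10)).1 = 1
    · simp [ww, wk, mh, show n / 10 ≠ 0 by omega]; linarith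
    obtain ⟨r, e, e4, -⟩ := ln_cls hg hv h0 h1 a (by omega) m0 mh
    have := nn (off g n)
    rw [abs_le] at e4
    simp [e]; linarith

end Pool.Agent.H21.LV
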