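import Pool.Agent.H21.Sg5

namespace Pool.Agent.H21.LV

open Pool.Agent.H11.PT Pool.Agent.H21.ER

variable {g : List Gt}

abbrev Pt := ℕ × ℕ
abbrev SI := List Pt × List Pt × List (Pt × Pt)
def Strong (I : SI) : Prop := ∃ X Y a b : Pt → ℝ, ∀ p ∈ I.1, ∀ l ∈ I.2.1,
  0 < sn ((p, l) ∈ I.2.2) * (Y p + a l * X p + b l)
def Weak (I : SI) : Prop := ∃ u w : Pt → Vc, ∀ p ∈ I.1, ∀ l ∈ I.2.1, 0 < sn ((p, l) ∈ I.2.2) * (u p ⬝ᵥ w l)
def obj (g : List Gt) (r : ℕ) : List Pt :=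
  ((List.range (10 * g.length)).filter fun n => ex g n ∧ n % 2 = r) ×ˢ List.range 4
def si (g : List Gt) : SI := (obj g 1, obj g 0, (obj g 1 ×ˢ obj g 0).filter fun x => TT (d1 g) (d2 g) (tau g) x.1 x.2)
lemma mem_obj {r : ℕ} {x : Pt} : x ∈ obj g r ↔ x.1 < 10 * g.length ∧ ex g x.1 ∧ x.1 % 2 = r ∧ x.2 < 4 := by
  obtain ⟨a, b⟩ := x; simp [obj, and_assoc]

@[fun_prop] theorem gt_pt {α : Type} [Enc α] {g : α → List Gt} {n : α → ℕ} (hg : PT g) (hn : PT n) :
    PT fun x => gt (g x) (n x) := by unfold gt; fun_prop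
@[fun_prop] theorem d1_pt {α : Type} [Enc α] {g : α → List Gt} {n : α → ℕ} (hg : PT g) (hn : PT n) :
    PT fun x => d1 (g x) (n x) := by unfold d1; fun_prop
@[fun_prop] theorem d2_pt {α : Type} [Enc α] {g : α → List Gt} {n : α → ℕ} (hg : PT g) (hn : PT n) :
    PT fun x => d2 (g x) (n x) := by unfold d2; fun_prop
@[fun_prop] theorem sig_pt {α : Type} [Enc α] {g : α → List Gt} {n m : α → ℕ} (hg : PT g) (hn : PT n) (hm : PT m) :
    PT fun x => sig (g x) (n x) (m x) := by unfold sig off; fun_prop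
@[fun_prop] theorem obj_pt (r : ℕ) : PT fun g => obj g r := by unfold obj ex; fun_prop
theorem si_pt : PT si := by unfold si TT tau; fun_prop

lemma si_mem {p l : Pt} (hp : p ∈ obj g 1) (hl : l ∈ obj g 0) :
    decide ((p, l) ∈ (si g).2.2) = TT (d1 g) (d2 g) (tau g) p l := by
  simp [si, hp, hl]

lemma si_strong {v : ℕ → ℝ} (hg : ∀ k, (gt g k).val k) (hv : StrictMono v) (h0 : v 0 = 0) (h1 : v 1 = 1)
    (ho : ∀ k < g.length, (gt g k).ok v k) : Strong (si g) := by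
  obtain ⟨u, hu⟩ := ex_compl hg hv h0 h1 ho
  refine ⟨fun p => u p 1 / (u p 0 + u p 1 + u p 2) + u p 0 / (2 * (u p 0 + u p 1 + u p 2)),
    fun p => u p 0 / (2 * (u p 0 + u p 1 + u p 2)), fun l => (u l 1 - u l 2) / (2 * u l 0 - u l 1 - u l 2),
    fun l => u l 2 / (2 * u l 0 - u l 1 - u l 2), fun p hp l hl => ?_⟩
  have a := mem_obj.1 hp; have b := mem_obj.1 hl
  obtain ⟨c, d⟩ := hu _ a.1 _ a.2.2.2 a.2.1
  have d := d _ b.1 _ b.2.2.2 b.2.1 (by omega)
  have e := (hu _ b.1 _ b.2.2.2 b.2.1).1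
  simp only [a, b, if_true, dotProduct, Fin.sum_univ_three, Prod.mk.eta] at c d e
  simp at c e
  have e' : 0 < 2 * u l 0 - u l 1 - u l 2 := by linarith
  rw [si_mem hp hl]
  refine (div_pos d (mul_pos c e')).trans_eq ?_
  have := c.ne'; have := e'.ne'
  grind

lemma si_weak (hg : ∀ k, (gt g k).val k) (h2 : 2 < g.length ∧ (gt g 2).1 = 1) (h : Weak (si g)) :
    ∃ v : ℕ → ℝ, v 1 = 1 ∧ (∀ j k, j < k → k < g.length → v j < v k) ∧ ∀ k < g.length, (gt g k).ok v k := by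
  obtain ⟨u, w, h⟩ := h
  obtain ⟨W, hW⟩ := lv_sound (cf hg) (τ := tau g) (u := fun x => if x.1 % 2 = 1 then u x else w x)
    (fun n m a b c i hi j hj => by
      have k (n m i j) (a : ex g n) (b : ex g m) (c : n % 2 = 1) (d : m % 2 = 0) (hi : i < 4) (hj : j < 4) :
          0 < sn (TT (d1 g) (d2 g) (tau g) (n, i) (m, j)) * (u (n, i) ⬝ᵥ w (m, j)) := by
        have hp : (n, i) ∈ obj g 1 := mem_obj.2 ⟨by have := a.1; omega, a, c, hi⟩
        have hl : (m, j) ∈ obj g 0 := mem_obj.2 ⟨by have := b.1; omega, b, d, hj⟩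
        exact si_mem hp hl ▸ h _ hp _ hl
      by_cases p : n % 2 = 1
      · simpa [p, show m % 2 ≠ 1 by omega] using k n m i j a b p (by omega) hi hj
      · have h1 : (d1 g n = n ∨ d1 g n < n) ∧ (d2 g n = n ∨ d2 g n < n) := by have := cf hg n a; omega
        have h2 : (d1 g m = m ∨ d1 g m < m) ∧ (d2 g m = m ∨ d2 g m < m) := by have := cf hg m b; omega
        rw [show TT _ _ _ (n, i) (m, j) = TT (d1 g) (d2 g) (tau g) (m, j) (n, i) by
          simp only [TT, tau, p, show m % 2 = 1 by omega]; split_ifs <;> first | rfl | omega | contradiction, dotProduct_comm]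
        simpa [p, show m % 2 = 1 by omega] using k m n j i b a (by omega) (by omega) hj hi) (10 * g.length)
  exact ex_sound hg h2 hW

theorem kit : ∃ f : Qf → SI, PT f ∧ ∀ φ, (ETR φ → Strong (f φ)) ∧ (Weak (f φ) → ETR φ) := by
  refine ⟨fun φ => si (ss φ), si_pt.comp ss_pt, fun φ => ⟨fun h => ?_, fun h => ?_⟩⟩
  · obtain ⟨v, v1, v2, v3, v4⟩ := ss_compl h
    exact si_strong (ss_val φ) v1 v2 v3 v4
  · have l : 2 < (ss φ).length := by rw [ss, List.length_map, List.length_range]; omega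
    obtain ⟨v, v1, v2, v3⟩ := si_weak (ss_val φ) ⟨l, by rw [gt_ss l]; rfl⟩ h
    exact ss_sound v1 v2 v3

end Pool.Agent.H21.LV
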