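import Pool.Agent.H21.GeoDefs

namespace Pool.Agent.H21.ER

variable {α : Type}

/-- adjacency in a graph given by a vertex list and an edge list -/
def Adj (G : List α × List (α × α)) (u v : α) : Prop := (u, v) ∈ G.2 ∨ (v, u) ∈ G.2

/-- intersection graphs of closed Euclidean balls of positive radii in dimension `d` -/
def BallGraph (d : ℕ) (G : List α × List (α × α)) : Prop :=
  ∃ (c : α → EuclideanSpace ℝ (Fin d)) (r : α → ℝ), (∀ v ∈ G.1, 0 < r v) ∧ ∀ u ∈ G.1, ∀ v ∈ G.1, u ≠ v →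
    (Adj G u v ↔ (Metric.closedBall (c u) (r u) ∩ Metric.closedBall (c v) (r v)).Nonempty)

/-- distance in the hyperboloid model of hyperbolic `d`-space, points given by their space coordinates -/
noncomputable def hdist {d : ℕ} (x y : EuclideanSpace ℝ (Fin d)) : ℝ :=
  Real.arcosh (√(1 + ‖x‖ ^ 2) * √(1 + ‖y‖ ^ 2) - inner ℝ x y)

/-- unit ball graphs in hyperbolic `d`-space -/
def HypUBG (d : ℕ) (G : List α × List (α × α)) : Prop :=
  ∃ r : ℝ, 0 < r ∧ ∃ c : α → EuclideanSpace ℝ (Fin d), ∀ u ∈ G.1, ∀ v ∈ G.1, u ≠ v →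
    (Adj G u v ↔ hdist (c u) (c v) ≤ 2 * r)

/-- complete bipartite graph with a set of short edges: two disjoint vertex lists and the list of short edges -/
def IsBip (I : List α × List α × List (α × α)) : Prop :=
  (∀ u ∈ I.1, u ∉ I.2.1) ∧ ∀ e ∈ I.2.2, e.1 ∈ I.1 ∧ e.2 ∈ I.2.1

/-- realizability of long and short edges on the complete bipartite graph -/
def LongShort (I : List α × List α × List (α × α)) : Prop :=
  ∃ P : α → EuclideanSpace ℝ (Fin 2), Set.InjOn P {x | x ∈ I.1 ∨ x ∈ I.2.1} ∧ ∀ u ∈ I.1, ∀ w ∈ I.2.1,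
    (∀ x, x ∈ I.1 ∨ x ∈ I.2.1 → P x ∉ openSegment ℝ (P u) (P w)) ∧ (dist (P u) (P w) ≤ 1 ↔ (u, w) ∈ I.2.2)

end Pool.Agent.H21.ER
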