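import Pool.Agent.H21.Sg6
import Pool.Agent.H21.SgDefs

namespace Pool.Agent.H21.LV

open Pool.Agent.H11.PT Pool.Agent.H21.ER Filter Topology

variable {α β : Type}

def Wk (n : ℕ) (S : α → β → Bool) : Prop :=
  ∃ (u : α → Fin n → ℝ) (w : β → Fin n → ℝ), ∀ a b, 0 < sn (S a b) * (u a ⬝ᵥ w b)
lemma Wk.symm {n : ℕ} {S : α → β → Bool} (h : Wk n S) : Wk n fun b a => S a b := by
  obtain ⟨u, w, h⟩ := h; exact ⟨w, u, fun b a => dotProduct_comm (u a) _ ▸ h a b⟩
lemma Wk.comp {γ δ : Type} {n : ℕ} {S : α → β → Bool} (h : Wk n S) (f : γ → α) (g : δ → β) {T : γ → δ → Bool}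
    (e : ∀ a b, T a b = S (f a) (g b)) : Wk n T := by
  obtain ⟨u, w, h⟩ := h; exact ⟨u ∘ f, w ∘ g, fun a b => e a b ▸ h _ _⟩
lemma red1 {n : ℕ} {S : α → β → Bool} (h : Wk (n + 1) fun (x : α × Bool) (y : Option β) => y.elim x.2 (S x.1)) :
    Wk n S := by
  obtain ⟨u, w, h⟩ := h
  rcases isEmpty_or_nonempty α with _ | ⟨⟨a⟩⟩
  · exact ⟨0, 0, isEmptyElim⟩
  obtain ⟨i, hi⟩ := Function.ne_iff.1 (show w none ≠ 0 from fun e => by simpa [e] using h (a, true) none)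
  have := fun a => two (K := ⋂ b, {x | 0 < sn (S a b) * (x ⬝ᵥ w (some b))}) (convex_iInter fun b => cv _ _)
    (Set.mem_iInter.2 fun b => h (a, false) (some b)) (Set.mem_iInter.2 fun b => h (a, true) (some b))
    (.inr (h (a, false) none)) (.inr (h (a, true) none))
  choose x h1 h2 using this
  refine ⟨fun a j => x a (i.succAbove j), fun b j => w (some b) (i.succAbove j) -
    w (some b) i / w none i * w none (i.succAbove j), fun a b => (Set.mem_iInter.1 (h1 a) b).trans_eq ?_⟩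
  have := h2 a
  simp only [dotProduct, Fin.sum_univ_succAbove _ i, mul_sub, Finset.sum_sub_distrib, mul_left_comm _ (_ / _),
    ← Finset.mul_sum] at this ⊢
  simp at hi
  rw [eq_neg_of_add_eq_zero_right this]
  field_simp; ring
lemma redk {n : ℕ} (k : ℕ) {S : α → β → Bool}
    (h : Wk (n + k) fun (x : α × (Fin k → Bool)) (y : β ⊕ Fin k) => y.elim (S x.1) x.2) : Wk n S := by
  induction k with
  | zero => exact h.comp (fun a => (a, default)) .inl fun _ _ => rfl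
  | succ k ih => exact ih (red1 (h.comp (fun x => (x.1.1, Fin.cons x.2 x.1.2))
      (fun y => y.elim (.inr 0) (Sum.map id Fin.succ)) (by rintro _ (_ | _ | _) <;> rfl)))
lemma weak_of {I : SI} (h : Wk 3 fun (p : {p // p ∈ I.1}) (l : {l // l ∈ I.2.1}) => decide ((p.1, l.1) ∈ I.2.2)) :
    Weak I := by
  obtain ⟨u, w, h⟩ := h
  exact ⟨fun p => if h : p ∈ I.1 then u ⟨p, h⟩ else 0, fun l => if h : l ∈ I.2.1 then w ⟨l, h⟩ else 0,
    fun p hp l hl => by simpa [hp, hl] using h ⟨p, hp⟩ ⟨l, hl⟩⟩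

lemma ev_list {l : Filter β} {L : List α} {p : α → β → Prop} (h : ∀ a ∈ L, ∀ᶠ s in l, p a s) :
    ∀ᶠ s in l, ∀ a ∈ L, p a s := (eventually_all_finite L.finite_toSet).2 h

def msk : ℕ → List (List Bool)
  | 0 => [[]]
  | k + 1 => (msk k).flatMap fun m => [false :: m, true :: m]
lemma mem_msk {k : ℕ} {m : List Bool} : m ∈ msk k ↔ m.length = k := by
  induction k generalizing m with
  | zero => simp [msk]
  | succ k ih => obtain _ | ⟨_ | _, m⟩ := m <;> simp [msk, ih]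

abbrev Nm := ℕ × Pt × List Bool
def mkG (V : List Nm) (ad : Nm → Nm → Bool) : List Nm × List (Nm × Nm) :=
  (V, (V ×ˢ V).filter fun e => e.1 ≠ e.2 ∧ e.1.1 ≤ e.2.1 ∧ ad e.1 e.2)
lemma mkG_graph (V ad) : IsGraph (mkG V ad) := by
  rintro ⟨a, b⟩ h; simp [mkG] at h ⊢; grind
lemma mkG_of {V ad} {R : Nm → Nm → Prop} (hR : ∀ u v, R u v ↔ R v u)
    (h : ∀ u ∈ V, ∀ v ∈ V, u ≠ v → u.1 ≤ v.1 → (ad u v = true ↔ R u v)) :
    ∀ u ∈ (mkG V ad).1, ∀ v ∈ (mkG V ad).1, u ≠ v → (Adj (mkG V ad) u v ↔ R u v) := fun u hu v hv n => by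
  have := h u hu v hv n; have := h v hv u hu n.symm; have := hR u v
  simp [mkG, Adj] at *; grind
lemma mkG_lt {V ad u v} (hu : u ∈ V) (hv : v ∈ V) (h : u.1 < v.1) : Adj (mkG V ad) u v ↔ ad u v = true := by
  simp [mkG, Adj]; grind

end Pool.Agent.H21.LV
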