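import Pool.Agent.H21.Sg7

namespace Pool.Agent.H21.LV

open Pool.Agent.H11.PT Pool.Agent.H21.ER Filter Topology Metric

def blV (k : ℕ) (I : SI) : List Nm := (I.1.flatMap fun p => (msk k).map fun m => (0, p, m)) ++
  ((msk k).map (fun m => (1, (0, 0), m)) ++ ((I.2.1.flatMap fun l => [(2, l, [false]), (2, l, [true])]) ++
  (List.range k).map fun i => (3, (i, 0), [])))
def blA (I : SI) (x y : Nm) : Bool := if y.1 ≤ 1 then x.1 = y.1 else if x.1 ≤ 1 then
  (if y.1 = 3 then x.2.2.getD y.2.1.1 false else if x.1 = 0 then (x.2.1, y.2.1) ∈ I.2.2 else y.2.2.headD false)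
  else ¬(x.1 = 3 ∧ y.1 = 3 ∧ x.2.1.1 + y.2.1.1 = 1)
def blG (k : ℕ) (I : SI) := mkG (blV k I) (blA I)
theorem blG_pt (k : ℕ) : PT (blG k) := by unfold blG mkG blV blA; fun_prop
lemma mem_blV {k : ℕ} {I : SI} {x : Nm} : x ∈ blV k I ↔ (∃ p ∈ I.1, ∃ m, m.length = k ∧ x = (0, p, m)) ∨
    (∃ m, m.length = k ∧ x = (1, (0, 0), m)) ∨ (∃ l ∈ I.2.1, ∃ t, x = (2, l, [t])) ∨ ∃ i < k, x = (3, (i, 0), []) := by
  simp [blV, mem_msk, eq_comm]

lemma ball_iff {E : Type} [NormedAddCommGroup E] [NormedSpace ℝ E] {x y : E} {r s : ℝ} (hr : 0 < r) (hs : 0 < s) :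
    (closedBall x r ∩ closedBall y s).Nonempty ↔ dist x y ≤ r + s := by
  rw [← Set.not_disjoint_iff_nonempty_inter, disjoint_closedBall_closedBall_iff hr.le hs.le, not_lt]

lemma strictify {α β : Type} [Finite α] [Finite β] (g : α → β → ℝ) : ∃ t, 0 < t ∧ ∀ a b, g a b < 0 → g a b + t < 0 := by
  refine Eventually.exists (f := 𝓝[>] 0) (.and self_mem_nhdsWithin (eventually_all.2 fun a => eventually_all.2 fun b =>
    eventually_imp_distrib_left.2 fun h => ?_))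
  filter_upwards [ev_pos (f := fun t => -(g a b + t)) (by fun_prop) (by simpa)] with t ht; linarith

lemma lie {α β : Type} [Finite α] [Finite β] {d : ℕ} {c : α → EuclideanSpace ℝ (Fin d)} {c' : β → EuclideanSpace ℝ (Fin d)}
    {r : α → ℝ} {r' : β → ℝ} {S : α → β → Bool} (hr : ∀ a b, 0 < r a + r' b)
    (h : ∀ a b, S a b = true ↔ dist (c a) (c' b) ≤ r a + r' b) : Wk (d + 3) S := by
  obtain ⟨t, t0, ht⟩ := strictify fun a b => (r a + r' b) ^ 2 - dist (c a) (c' b) ^ 2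
  refine ⟨fun a => Fin.cons (r a) (Fin.cons 1 (Fin.cons (‖c a‖ ^ 2 - r a ^ 2) (c a))),
    fun b => Fin.cons (2 * r' b) (Fin.cons (r' b ^ 2 - ‖c' b‖ ^ 2 + t) (Fin.cons (-1) fun i => 2 * c' b i)), fun a b => ?_⟩
  have e : inner ℝ (c a) (c' b) = ∑ i, c a i * c' b i := by simp [PiLp.inner_apply, mul_comm]
  have h' := h a b
  have k := sq_le_sq₀ (dist_nonneg (x := c a) (y := c' b)) (hr a b).le
  simp only [dotProduct, Fin.sum_univ_succ, Fin.cons_zero, Fin.cons_succ, mul_left_comm _ (2 : ℝ), ← Finset.mul_sum, ← e]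
  rw [dist_eq_norm, norm_sub_sq_real] at k; rw [dist_eq_norm] at h'
  cases hS : S a b <;> simp only [sn, cond_true, cond_false, hS, Bool.false_eq_true, false_iff, true_iff] at h' ⊢
  · have := ht a b (by rw [dist_eq_norm, norm_sub_sq_real]; linarith [not_le.1 (mt k.1 h')])
    rw [dist_eq_norm, norm_sub_sq_real] at this; linarith
  · linarith [k.2 h']

theorem bl_sound {k : ℕ} {I : SI} (h : BallGraph (k + 1) (blG k I)) : Weak I := by
  obtain ⟨c, r, h1, h2⟩ := h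
  let f (x : Option {p // p ∈ I.1} × (Fin k → Bool)) : Nm :=
    x.1.elim (1, (0, 0), List.ofFn x.2) fun p => (0, p.1, List.ofFn x.2)
  let g (y : ({l // l ∈ I.2.1} × Bool) ⊕ Fin k) : Nm := y.elim (fun l => (2, l.1.1, [l.2])) fun i : Fin k => (3, (i.1, 0), [])
  have hf (x) : f x ∈ blV k I ∧ (f x).1 ≤ 1 := by rcases x with ⟨_ | ⟨p, hp⟩, m⟩ <;> simp [f, mem_blV, *]
  have hg (y) : g y ∈ blV k I ∧ 2 ≤ (g y).1 := by rcases y with ⟨⟨l, hl⟩, t⟩ | i <;> simp [g, mem_blV, *]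
  have := lie (c := c ∘ f) (c' := c ∘ g) (r := r ∘ f) (r' := r ∘ g) (S := fun x y => blA I (f x) (g y))
    (fun x y => add_pos (h1 _ (hf x).1) (h1 _ (hg y).1)) fun x y => by
      have := hf x; have := hg y
      rw [← mkG_lt (hf x).1 (hg y).1 (by omega)]
      exact (h2 _ (hf x).1 _ (hg y).1 (by grind)).trans (ball_iff (h1 _ (hf x).1) (h1 _ (hg y).1))
  rw [show k + 1 + 3 = 4 + k by omega] at this
  refine weak_of (Wk.symm (red1 (Wk.symm (redk k (this.comp id id ?_)))))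
  rintro ⟨_ | p, m⟩ (l | i) <;> simp [f, g, blA]

lemma huge_lt {E : Type} [NormedAddCommGroup E] [InnerProductSpace ℝ E] {n x : E} (hn : ‖n‖ = 1) {γ : ℝ}
    (h : inner ℝ x n < γ) (R : ℝ) : R - γ < dist x (R • n) := by
  have := real_inner_le_norm (R • n - x) n
  rw [inner_sub_left, real_inner_smul_left, real_inner_self_eq_norm_sq, hn, ← dist_eq_norm, dist_comm] at this
  linarith
lemma huge_gt {E : Type} [NormedAddCommGroup E] [InnerProductSpace ℝ E] {n : E} (hn : ‖n‖ = 1) (x : E) (γ : ℝ) :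
    ∀ᶠ R : ℝ in atTop, γ < inner ℝ x n → dist x (R • n) ≤ R - γ := by
  filter_upwards [eventually_ge_atTop γ, eventually_ge_atTop ((‖x‖ ^ 2 - γ ^ 2) / (2 * (inner ℝ x n - γ)))] with R a b h
  refine le_of_sq_le_sq ?_ (by linarith)
  rw [div_le_iff₀ (by linarith)] at b
  rw [dist_eq_norm, norm_sub_sq_real, real_inner_smul_right, norm_smul, hn, mul_one, Real.norm_eq_abs, sq_abs]
  linarith

noncomputable def V3 {j : ℕ} (x y : ℝ) (f : Fin j → ℝ) : EuclideanSpace ℝ (Fin (j + 2)) :=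
  WithLp.toLp 2 (Fin.cons x (Fin.cons y f))
lemma inV {j : ℕ} (x y x' y' : ℝ) (f g : Fin j → ℝ) :
    inner ℝ (V3 x y f) (V3 x' y' g) = x * x' + y * y' + ∑ i, f i * g i := by
  simp [V3, PiLp.inner_apply, Fin.sum_univ_succ, mul_comm, add_assoc]
lemma farV {j : ℕ} (x y : ℝ) (f : Fin j → ℝ) (z : EuclideanSpace ℝ (Fin (j + 2))) : y - z 1 ≤ dist (V3 x y f) z :=
  (le_abs_self _).trans (PiLp.dist_apply_le (V3 x y f) z 1)
lemma dV {j : ℕ} (x y : ℝ) (f g : Fin j → ℝ) : dist (V3 x y f) (V3 x y g) = dist (V3 0 0 f) (V3 0 0 g) := by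
  simp [V3, EuclideanSpace.dist_eq, Fin.sum_univ_succ]
lemma nV {E : Type} [NormedAddCommGroup E] [InnerProductSpace ℝ E] {n : E} (h : inner ℝ n n = 1) : ‖n‖ = 1 := by
  rw [real_inner_self_eq_norm_sq] at h; exact (pow_eq_one_iff_of_nonneg (norm_nonneg _) two_ne_zero).1 h

end Pool.Agent.H21.LV
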