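import Mathlib

namespace Pool.Agent.H21.Sq

open CategoryTheory

variable {A : Type}

abbrev Edge (A : Type) := List A × (List A × List A) × List A × Bool

def src (e : Edge A) : List A := e.1 ++ (if e.2.2.2 then e.2.1.1 else e.2.1.2) ++ e.2.2.1

def tgt (e : Edge A) : List A := e.1 ++ (if e.2.2.2 then e.2.1.2 else e.2.1.1) ++ e.2.2.1

def flip (e : Edge A) : Edge A := (e.1, e.2.1, e.2.2.1, !e.2.2.2)

def Pth (R : Set (List A × List A)) : List A → List (Edge A) → List A → Prop
  | u, [], v => u = v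
  | u, e :: l, v => e.2.1 ∈ R ∧ src e = u ∧ Pth R (tgt e) l v

inductive Move : List (Edge A) → List (Edge A) → Prop
  | cancel (p q : List (Edge A)) (e : Edge A) : Move (p ++ q) (p ++ [e, flip e] ++ q)
  | square (p q : List (Edge A)) (x u₁ v₁ y u₂ v₂ z : List A) :
      Move (p ++ [(x, (u₁, v₁), y ++ u₂ ++ z, true), (x ++ v₁ ++ y, (u₂, v₂), z, true)] ++ q)
        (p ++ [(x ++ u₁ ++ y, (u₂, v₂), z, true), (x, (u₁, v₁), y ++ v₂ ++ z, true)] ++ q)

variable {R : Set (List A × List A)}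

lemma Pth.app : ∀ {p q : List (Edge A)} {u v w}, Pth R u p v → Pth R v q w → Pth R u (p ++ q) w
  | [], _, _, _, _, h, h' => by cases h; exact h'
  | _ :: _, _, _, _, _, h, h' => ⟨h.1, h.2.1, h.2.2.app h'⟩

def rev (l : List (Edge A)) : List (Edge A) := (l.map flip).reverse

lemma src_flip (e : Edge A) : src (flip e) = tgt e := by
  obtain ⟨_, _, _, _ | _⟩ := e <;> rfl

lemma tgt_flip (e : Edge A) : tgt (flip e) = src e := by
  obtain ⟨_, _, _, _ | _⟩ := e <;> rfl

lemma flip_flip (e : Edge A) : flip (flip e) = e := by simp [flip]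

lemma rev_cons (e : Edge A) (l) : rev (e :: l) = rev l ++ [flip e] := by simp [rev]

lemma rev_rev (l : List (Edge A)) : rev (rev l) = l := by
  simp [rev, Function.comp_def, flip_flip]

lemma Pth.rev : ∀ {p : List (Edge A)} {u v}, Pth R u p v → Pth R v (rev p) u
  | [], _, _, h => h.symm
  | _ :: _, _, _, h => rev_cons _ _ ▸ h.2.2.rev.app ⟨h.1, src_flip _, (tgt_flip _).trans h.2.1⟩

lemma Move.left {a b : List (Edge A)} (h : Move a b) (c) : Move (c ++ a) (c ++ b) := by
  cases h with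
  | cancel p q e => simpa using Move.cancel (c ++ p) q e
  | square p q x u₁ v₁ y u₂ v₂ z => simpa using Move.square (c ++ p) q x u₁ v₁ y u₂ v₂ z

lemma Move.right {a b : List (Edge A)} (h : Move a b) (c) : Move (a ++ c) (b ++ c) := by
  cases h with
  | cancel p q e => simpa using Move.cancel p (q ++ c) e
  | square p q x u₁ v₁ y u₂ v₂ z => simpa using Move.square p (q ++ c) x u₁ v₁ y u₂ v₂ z

def Cls (R : Set (List A × List A)) (u v : List A) : Type :=
  Quot fun p q : {l // Pth R u l v} => Move p.1 q.1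

def mk {u v} (l) (h : Pth R u l v) : Cls R u v := Quot.mk _ ⟨l, h⟩

def cat {u v w} : Cls R u v → Cls R v w → Cls R u w :=
  Quot.map₂ (fun p q => ⟨p.1 ++ q.1, p.2.app q.2⟩) (fun _ _ _ h => h.left _) fun _ _ _ h => h.right _

lemma cancel_rev : ∀ (l : List (Edge A)) {u v} (h : Pth R u l v),
    mk (l ++ rev l) (h.app h.rev) = mk [] rfl
  | [], _, _, _ => rfl
  | e :: l, _, _, ⟨h1, rfl, h⟩ => by
    have := congrArg (fun c => cat (mk [e] ⟨h1, rfl, rfl⟩) (cat c (mk [flip e]
      ⟨h1, src_flip e, tgt_flip e⟩))) (cancel_rev l h)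
    refine Eq.trans (congrArg (Quot.mk _) (Subtype.ext (by simp [rev]))) (this.trans ?_)
    exact Eq.symm (Quot.sound (Move.cancel [] [] e))

lemma Move.rev {u v} {p q : {l // Pth R u l v}} (h : Move p.1 q.1) :
    mk (rev p.1) p.2.rev = mk (rev q.1) q.2.rev := by
  have h1 := congrArg (cat (mk _ p.2.rev)) (cancel_rev _ q.2)
  have h2 := congrArg (cat · (mk _ q.2.rev)) (cancel_rev _ p.2.rev)
  have h3 := congrArg (fun c => cat (mk _ p.2.rev) (cat c (mk _ q.2.rev))) (Quot.sound h)
  refine Eq.trans (congrArg (Quot.mk _) (Subtype.ext (by simp))) (h1.symm.trans (h3.symm.trans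
    (Eq.trans (congrArg (Quot.mk _) (Subtype.ext (by simp [rev_rev]))) h2)))

def D (R : Set (List A × List A)) (w : List A) : Type := Cls R w w

def one (R : Set (List A × List A)) (w : List A) : Cls R w w := mk [] rfl

def inv {u v} : Cls R u v → Cls R v u :=
  Quot.lift (fun p => mk (rev p.1) p.2.rev) fun _ _ h => h.rev

lemma cat_assoc {u v w x} (a : Cls R u v) (b : Cls R v w) (c : Cls R w x) :
    cat (cat a b) c = cat a (cat b c) := by
  obtain ⟨a⟩ := a
  obtain ⟨b⟩ := b
  obtain ⟨c⟩ := c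
  exact congrArg (Quot.mk _) (Subtype.ext (List.append_assoc _ _ _))

lemma one_cat {u v} (a : Cls R u v) : cat (one R u) a = a := by
  obtain ⟨a⟩ := a
  rfl

lemma inv_cat {u v} (a : Cls R u v) : cat (inv a) a = one R v := by
  obtain ⟨a⟩ := a
  exact (congrArg (Quot.mk _) (Subtype.ext (by simp [rev_rev]))).trans (cancel_rev _ a.2.rev)

instance (w : List A) : Mul (D R w) := ⟨cat⟩
instance (w : List A) : One (D R w) := ⟨one R w⟩
instance (w : List A) : Inv (D R w) := ⟨inv⟩
instance (w : List A) : Group (D R w) := Group.ofLeftAxioms cat_assoc one_cat inv_cat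

def Valid (R : Set (List A × List A)) (w : List A) : Prop :=
  w ≠ [] ∧ ∀ u v, (u, v) ∈ R → u ≠ [] ∧ v ≠ [] ∧ (v, u) ∉ R

end Pool.Agent.H21.Sq
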