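import Mathlib

namespace Pool.Agent.H21.ZZ

open SemidirectProduct

abbrev F := FreeGroup Bool

def cj {H : Type*} [Group H] (T Z : H) (n : ℕ) : H := (T ^ n)⁻¹ * Z * T ^ n

lemma cj_succ {H : Type*} [Group H] (T Z : H) (n : ℕ) : cj T Z (n + 1) = T⁻¹ * cj T Z n * T := by
  simp [cj, pow_succ, mul_assoc]

lemma map_cj {H K : Type*} [Group H] [Group K] (f : H →* K) (T Z : H) (n : ℕ) :
    f (cj T Z n) = cj (f T) (f Z) n := by simp [cj]

def C : Subgroup F := Subgroup.closure (Set.range (cj (FreeGroup.of false) (FreeGroup.of true)))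

def φ : F →* MulAut (FreeGroup (F ⧸ C)) where
  toFun g := FreeGroup.freeGroupCongr (MulAction.toPerm g)
  map_one' := MulEquiv.toMonoidHom_injective (by ext; simp)
  map_mul' a b := MulEquiv.toMonoidHom_injective (by ext; simp [mul_smul])

abbrev G := FreeGroup (F ⧸ C) ⋊[φ] F

def t : G := inr (FreeGroup.of false)
def z : G := inr (FreeGroup.of true)
def x : G := inl (FreeGroup.of ((1 : F) : F ⧸ C))

lemma conj_x (g : F) : (inr g : G) * x * (inr g)⁻¹ = inl (FreeGroup.of (g : F ⧸ C)) := by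
  rw [x, ← map_inv, ← inl_aut]
  simp [φ]

lemma comm_iff (g : F) : Commute x (inr g) ↔ g ∈ C := by
  rw [Commute.symm_iff, Commute, SemiconjBy, ← mul_inv_eq_iff_eq_mul, conj_x, x, inl_inj,
    FreeGroup.of_injective.eq_iff, eq_comm, QuotientGroup.eq]
  simp

lemma rel (n : ℕ) : Commute x (cj t z n) := by
  rw [t, z, ← map_cj, comm_iff]
  exact Subgroup.subset_closure ⟨n, rfl⟩

lemma not_rel : ¬ Commute x (t * z * t⁻¹) := by
  rw [t, z, ← map_inv, ← map_mul, ← map_mul, comm_iff]
  intro h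
  let f : F →* Equiv.Perm ℤ := FreeGroup.lift fun b => if b then Equiv.swap 0 1 else Equiv.addRight (-1)
  have : C ≤ (MulAction.stabilizer (Equiv.Perm ℤ) (-1 : ℤ)).comap f := by
    rw [C, Subgroup.closure_le]
    rintro _ ⟨n, rfl⟩
    simp only [SetLike.mem_coe, Subgroup.mem_comap, map_cj, f, FreeGroup.lift_apply_of]
    simp [cj, Equiv.swap_apply_def]
    split_ifs <;> omega
  have := this h
  simp [f] at this

section
variable {H : Type*} [Group H] {T X Z : H} (h : ∀ n, Commute X (cj T Z n))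
include h

def io (T Z : H) : F →* H := FreeGroup.lift fun b => if b then Z else T

lemma io_comm {c : F} (hc : c ∈ C) : Commute X (io T Z c) := by
  have : C ≤ (Subgroup.centralizer {X}).comap (io T Z) := by
    rw [C, Subgroup.closure_le]
    rintro _ ⟨n, rfl⟩
    simpa [map_cj, io, Subgroup.mem_centralizer_iff] using (h n).eq
  simpa [Subgroup.mem_centralizer_iff, commute_iff_eq] using this hc

lemma ex_psi : ∃ ψ : G →* H, ψ t = T ∧ ψ x = X ∧ ψ z = Z := by
  let f : F ⧸ C → H := Quotient.lift (fun g => io T Z g * X * (io T Z g)⁻¹) fun a b hab => by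
    have := (io_comm h (QuotientGroup.leftRel_apply.1 hab)).eq
    rw [map_mul, map_inv] at this
    calc _ = io T Z a * (X * ((io T Z a)⁻¹ * io T Z b)) * (io T Z b)⁻¹ := by group
      _ = _ := by rw [this]; group
  have hf : ∀ g : F, f (g : F ⧸ C) = io T Z g * X * (io T Z g)⁻¹ := fun _ => rfl
  refine ⟨lift (FreeGroup.lift f) (io T Z) fun g => ?_, by simp [t, io], by simp [x, hf],
    by simp [z, io]⟩
  ext ⟨a⟩
  change FreeGroup.lift f (φ g (FreeGroup.of (a : F ⧸ C))) = io T Z g *
    FreeGroup.lift f (FreeGroup.of (a : F ⧸ C)) * (io T Z g)⁻¹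
  simp [φ, hf, mul_assoc]

lemma kill_ord (hT : IsOfFinOrder T) : Commute X (T * Z * T⁻¹) := by
  obtain ⟨n, hn, e⟩ := hT.exists_pow_eq_one
  obtain ⟨n, rfl⟩ := Nat.exists_eq_add_one_of_ne_zero hn.ne'
  have := h n
  rwa [cj, eq_inv_of_mul_eq_one_left (pow_succ T n ▸ e : T ^ n * T = 1), inv_inv] at this

lemma kill_map {K : Type*} [Group K] (f : H →* K) (n : ℕ) : Commute (f X) (cj (f T) (f Z) n) :=
  map_cj f T Z n ▸ (h n).map f

end

lemma kill_lin {A K : Type*} [Field K] [Ring A] [Algebra K A] [FiniteDimensional K A] {T X Z : Aˣ}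
    (h : ∀ n, Commute X (cj T Z n)) : Commute X (T * Z * T⁻¹) := by
  let L : A →ₗ[K] A := LinearMap.mulLeftRight K (((T⁻¹ : Aˣ) : A), (T : A))
  let W : Submodule K A :=
    { carrier := {Y | ∀ n, Commute (X : A) ((L ^ n) Y)}
      add_mem' := fun ha hb n => by rw [map_add]; exact (ha n).add_right (hb n)
      zero_mem' := fun n => by simp
      smul_mem' := fun c y hy n => by rw [map_smul]; exact (hy n).smul_right c }
  have hL : ∀ y, (T : A) * L y * ((T⁻¹ : Aˣ) : A) = y := fun y => by simp [L, mul_assoc]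
  have hW : ∀ y ∈ W, L y ∈ W := fun y hy n => by simpa [pow_succ] using hy (n + 1)
  have hZ : (Z : A) ∈ W := fun n => by
    have : (L ^ n) (Z : A) = (cj T Z n : Aˣ) := by
      induction n with
      | zero => simp [cj]
      | succ n ih => simp [pow_succ', ih, cj_succ, L]
    exact this ▸ Commute.units_val_iff.2 (h n)
  obtain ⟨y, hy⟩ := LinearMap.surjective_of_injective (f := L.restrict hW) (fun a b e =>
    Subtype.ext (by rw [← hL a, ← hL b]; congr 2; exact congrArg Subtype.val e)) ⟨_, hZ⟩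
  rw [← Commute.units_val_iff]
  have e : L y = Z := congrArg Subtype.val hy
  simpa [← e, hL] using y.2 0

lemma free_ab {A H : Type} [CommGroup A] [Group H] [IsFreeGroup H] (f : A →* H) :
    ∃ a : A →* Multiplicative ℤ, ∀ g, a g = 1 → f g = 1 := by
  classical
  obtain ⟨S, ⟨e⟩⟩ : ∃ S : Type, Nonempty (f.range ≃* FreeGroup S) :=
    ⟨_, ⟨IsFreeGroup.toFreeGroup f.range⟩⟩
  have hc : ∀ a b : FreeGroup S, a * b = b * a := fun a b => by
    obtain ⟨⟨_, a, rfl⟩, rfl⟩ := e.surjective a
    obtain ⟨⟨_, b, rfl⟩, rfl⟩ := e.surjective b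
    rw [← map_mul, ← map_mul]
    congr 1
    exact Subtype.ext (by simp [← map_mul, mul_comm])
  have : Subsingleton S := ⟨fun a b => by
    by_contra hn
    have := congrArg (FreeGroup.lift fun s => if s = a then Equiv.swap (0 : Fin 3) 1 else
      Equiv.swap 1 2) (hc (.of a) (.of b))
    simp only [map_mul, FreeGroup.lift_apply_of, if_true, if_neg (Ne.symm hn)] at this
    revert this
    decide⟩
  have : ∃ a : FreeGroup S →* Multiplicative ℤ, Function.Injective a := by
    rcases isEmpty_or_nonempty S with h | ⟨⟨s⟩⟩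
    · exact ⟨1, fun _ _ _ => Subsingleton.elim _ _⟩
    · have := uniqueOfSubsingleton s
      exact ⟨FreeGroup.mulEquivIntOfUnique.toMonoidHom, FreeGroup.mulEquivIntOfUnique.injective⟩
  obtain ⟨a, ha⟩ := this
  exact ⟨a.comp (e.toMonoidHom.comp f.rangeRestrict), fun g hg => congrArg Subtype.val
    (e.injective (ha (hg.trans (by simp)) : e (f.rangeRestrict g) = e 1))⟩

lemma noZ3 (j : Multiplicative (Fin 3 → ℤ) →* G) : ¬ Function.Injective j := fun hj => by
  obtain ⟨a, ha⟩ := free_ab (rightHom.comp j)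
  let a' : (Fin 3 → ℤ) →ₗ[ℤ] ℤ := (AddMonoidHom.toMultiplicative.symm a).toIntLinearMap
  let k : Multiplicative (LinearMap.ker a') →* G :=
    j.comp (AddMonoidHom.toMultiplicative (LinearMap.ker a').subtype.toAddMonoidHom)
  have hk : ∀ g, (k g).right = 1 := fun g => ha _ g.toAdd.2
  obtain ⟨b, hb⟩ := free_ab (A := Multiplicative (LinearMap.ker a')) (H := FreeGroup (F ⧸ C))
    (MonoidHom.mk' (fun g => (k g).left) fun g g' => by simp [hk])
  let b' : LinearMap.ker a' →ₗ[ℤ] ℤ := (AddMonoidHom.toMultiplicative.symm b).toIntLinearMap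
  have h1 := LinearMap.finrank_le_finrank_of_injective (f := b')
    ((injective_iff_map_eq_zero _).2 fun g hg => Subtype.ext (hj (a₂ := 1) (by
      rw [map_one]
      exact SemidirectProduct.ext (hb (.ofAdd g) hg) (hk (.ofAdd g)))))
  have h2 := (LinearMap.ker a').finrank_quotient_add_finrank
  have h3 := (LinearMap.range a').finrank_le
  rw [← a'.quotKerEquivRange.finrank_eq] at h3
  simp at h1 h2 h3
  omega

lemma tf {g : G} {n : ℤ} (h : g ^ n = 1) (hn : n ≠ 0) : g = 1 := by
  have h1 : g.right = 1 := by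
    have := congrArg (rightHom : G →* F) h
    rw [map_zpow, map_one, IsMulTorsionFree.zpow_eq_one_iff_left hn] at this
    exact this
  rw [← inl_left_mul_inr_right g, h1, map_one, mul_one] at h ⊢
  rw [← map_zpow, ← map_one inl, inl_inj, IsMulTorsionFree.zpow_eq_one_iff_left hn] at h
  rw [h, map_one]

lemma three {a b c : G} (h1 : Commute a b) (h2 : Commute a c) (h3 : Commute b c) :
    ∃ i j k : ℤ, ¬ (i = 0 ∧ j = 0 ∧ k = 0) ∧ a ^ i * b ^ j * c ^ k = 1 := by
  by_contra! hn
  refine noZ3 (MonoidHom.mk' (fun v => a ^ v.toAdd 0 * b ^ v.toAdd 1 * c ^ v.toAdd 2)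
    fun v w => ?_) ((injective_iff_map_eq_one _).2 fun v hv => ?_)
  · simp only [toAdd_mul, Pi.add_apply, zpow_add]
    rw [((h2.zpow_zpow _ _).mul_left (h3.zpow_zpow _ _)).symm.mul_mul_mul_comm,
      (h1.zpow_zpow _ _).symm.mul_mul_mul_comm]
  · by_contra h
    refine hn _ _ _ (fun h0 h1 h2 => h ?_) hv
    funext i
    fin_cases i <;> assumption

end Pool.Agent.H21.ZZ
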