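import Mathlib
import Pool.Agent.H21.SqDefs
import Pool.Agent.H21.ZZ

namespace Pool.Agent.H21.Sq

open ZZ List

def R0 : Set (List (Fin 3) × List (Fin 3)) :=
  {([0], [0, 1]), ([0], [0, 1, 1]), ([2], [1, 2]), ([2], [1, 1, 2])}

def pv (a u v : List (Fin 3)) : G :=
  if u = [0] then (if a = [] then (if v = [0, 1] then t else x * t ^ 2) else 1)
  else if v = [1, 1, 2] ∧ 0 ∉ a.tail ∧ 2 ∉ a then cj t z (a.length - 1) else 1

def ev (e : Edge (Fin 3)) : G := if e.2.2.2 then pv e.1 e.2.1.1 e.2.1.2 else (pv e.1 e.2.1.1 e.2.1.2)⁻¹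

def val (l : List (Edge (Fin 3))) : G := (l.map ev).prod

lemma val_app (p q) : val (p ++ q) = val p * val q := by simp [val]

lemma ev_flip (e) : ev (flip e) = (ev e)⁻¹ := by
  obtain ⟨_, _, _, _ | _⟩ := e <;> simp [ev, flip]

lemma pv_sq {u₁ v₁ u₂ v₂} (h1 : (u₁, v₁) ∈ R0) (h2 : (u₂, v₂) ∈ R0) (a y) :
    pv a u₁ v₁ * pv (a ++ v₁ ++ y) u₂ v₂ = pv (a ++ u₁ ++ y) u₂ v₂ * pv a u₁ v₁ := by
  simp only [R0, Set.mem_insert_iff, Set.mem_singleton_iff, Prod.mk.injEq] at h1 h2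
  rcases h2 with ⟨rfl, rfl⟩ | ⟨rfl, rfl⟩ | ⟨rfl, rfl⟩ | ⟨rfl, rfl⟩ <;>
    rcases h1 with ⟨rfl, rfl⟩ | ⟨rfl, rfl⟩ | ⟨rfl, rfl⟩ | ⟨rfl, rfl⟩ <;>
    cases a <;> simp [pv]
  · split_ifs <;> simp [cj_succ, mul_assoc]
  · split_ifs
    · simp [cj_succ, mul_assoc, pow_two, ← (rel _).eq, (rel _).left_comm]
    · simp

lemma Move.val {p q} (h : Move p q) (hq : ∀ e ∈ q, e.2.1 ∈ R0) : val p = val q := by
  cases h with
  | cancel p q e => simp [Sq.val, ev_flip]
  | square p q a u₁ v₁ y u₂ v₂ z =>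
    simp only [val_app]
    congr 2
    simpa [Sq.val, ev] using pv_sq (hq (a, (u₁, v₁), y ++ v₂ ++ z, true) (by simp))
      (hq (a ++ u₁ ++ y, (u₂, v₂), z, true) (by simp)) a y

lemma Pth.mem {A : Type} {R : Set (List A × List A)} : ∀ {p : List (Edge A)} {u v}, Pth R u p v →
    ∀ e ∈ p, e.2.1 ∈ R
  | [], _, _, _ => by simp
  | _ :: _, _, _, h => forall_mem_cons.2 ⟨h.1, h.2.2.mem⟩

def vc {u v} : Cls R0 u v → G := Quot.lift (fun p => val p.1) fun _ q h => h.val q.2.mem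

lemma vc_cat {u v w} (a : Cls R0 u v) (b : Cls R0 v w) : vc (cat a b) = vc a * vc b := by
  obtain ⟨a⟩ := a
  obtain ⟨b⟩ := b
  exact val_app _ _

lemma vc_inv {u v} (a : Cls R0 u v) : vc (inv a) = (vc a)⁻¹ :=
  eq_inv_of_mul_eq_one_left (by rw [← vc_cat, inv_cat]; rfl)

def o (n : ℕ) : List (Fin 3) := 0 :: (replicate n 1 ++ [2])

def cE (i n : ℕ) : Edge (Fin 3) := ([], ([0], 0 :: replicate i 1), replicate n 1 ++ [2], true)

def bE (i n : ℕ) : Edge (Fin 3) := (0 :: replicate n 1, ([2], replicate i 1 ++ [2]), [], true)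

lemma pc {i} (hi : i = 1 ∨ i = 2) (n) : Pth R0 (o n) [cE i n] (o (n + i)) :=
  ⟨by rcases hi with rfl | rfl <;> simp [cE, R0], rfl, by simp [Pth, tgt, cE, o, add_comm n, replicate_add, -replicate_append_replicate]⟩

lemma pb {i} (hi : i = 1 ∨ i = 2) (n) : Pth R0 (o n) [bE i n] (o (n + i)) :=
  ⟨by rcases hi with rfl | rfl <;> simp [bE, R0], by simp [src, bE, o],
    by simp [Pth, tgt, bE, o, ← append_assoc]⟩

def τ : (n : ℕ) → Cls R0 (o 0) (o n)
  | 0 => one _ _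
  | n + 1 => cat (τ n) (mk _ (pb (.inl rfl) n))

lemma vc_τ : ∀ n, vc (τ n) = 1
  | 0 => rfl
  | n + 1 => by
    rw [τ, vc_cat, vc_τ n, one_mul]
    exact (mul_one _).trans (by simp [ev, bE, pv])

open Classical in
noncomputable def W (l : List (Edge (Fin 3))) (n k : ℕ) : D R0 (o 0) :=
  if h : Pth R0 (o n) l (o k) then cat (τ n) (cat (mk l h) (inv (τ k))) else 1

lemma W_app {p q n m k} (h : Pth R0 (o n) p (o m)) (h' : Pth R0 (o m) q (o k)) :
    W p n m * W q m k = W (p ++ q) n k := by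
  rw [W, W, W, dif_pos h, dif_pos h', dif_pos (h.app h')]
  change cat _ _ = _
  rw [cat_assoc, cat_assoc, ← cat_assoc (inv _), inv_cat, one_cat, ← cat_assoc (mk _ _)]
  rfl

lemma pn (n) : Pth R0 (o n) [] (o n) := rfl

lemma W_nil (n) : W [] n n = 1 := mul_eq_left.1 (W_app (pn n) (pn n))

lemma W_mv {p q n k} (h : Pth R0 (o n) p (o k)) (h' : Pth R0 (o n) q (o k)) (e : Move p q) :
    W p n k = W q n k := by
  rw [W, W, dif_pos h, dif_pos h', show mk p h = mk q h' from Quot.sound e]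

lemma W_b (n) : W [bE 1 n] n (n + 1) = 1 := by
  rw [← W_nil (n + 1), W, W, dif_pos (pb (.inl rfl) n), dif_pos (pn _), ← cat_assoc]
  exact congrArg _ (one_cat _).symm

lemma vc_W {l n k} (h : Pth R0 (o n) l (o k)) : vc (W l n k) = val l := by
  rw [W, dif_pos h, vc_cat, vc_cat, vc_inv, vc_τ, vc_τ]
  exact (one_mul _).trans (by rw [inv_one, mul_one]; rfl)

lemma W_sq {i j} (hi : i = 1 ∨ i = 2) (hj : j = 1 ∨ j = 2) (n) :
    W [cE i n] n (n + i) * W [bE j (n + i)] (n + i) (n + i + j) =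
      W [bE j n] n (n + j) * W [cE i (n + j)] (n + j) (n + j + i) := by
  rw [W_app (pc hi _) (pb hj _), W_app (pb hj _) (pc hi _), add_right_comm n j]
  refine W_mv ((pc hi _).app (pb hj _)) (add_right_comm n j i ▸ (pb hj _).app (pc hi _)) ?_
  simpa [cE, bE, add_comm n i, replicate_add, -replicate_append_replicate] using
    Move.square [] [] [] [0] (0 :: replicate i (1 : Fin 3)) (replicate n 1) [2] (replicate j 1 ++ [2]) []

lemma p0 {a y n} (h : a ++ 0 :: y = o n) : a = [] ∧ y = replicate n 1 ++ [2] := by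
  cases a with
  | nil => exact ⟨rfl, (cons.inj h).2⟩
  | cons b a =>
    have : (0 : Fin 3) ∈ replicate n 1 ++ [2] := by rw [← (cons.inj h).2]; simp
    simp at this

lemma p2 {a y n} (h : a ++ 2 :: y = o n) : a = 0 :: replicate n 1 ∧ y = [] := by
  induction y using List.reverseRecOn with
  | nil => exact ⟨append_cancel_right (bs := [2]) h, rfl⟩
  | append_singleton y b =>
    have := append_inj_left' (s₂ := 0 :: replicate n 1) (t₂ := [2])
      ((append_assoc a (2 :: y) [b]).trans h) rfl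
    have : (2 : Fin 3) ∈ 0 :: replicate n 1 := by rw [← this]; simp
    simp at this

lemma q0 {y n} (h : 0 :: 1 :: y = o n) : ∃ m, 0 :: y = o m := by
  cases n with
  | zero => simp [o] at h
  | succ n => exact ⟨n, by simpa [o, replicate_succ] using h⟩

lemma q2 {a n} (h : a ++ [1, 2] = o n) : ∃ m, a ++ [2] = o m := by
  have := (p2 ((append_assoc a [1] [2]).trans h)).1
  cases n with
  | zero => cases a <;> simp at this
  | succ n =>
    rw [replicate_succ', ← cons_append] at this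
    exact ⟨n, by rw [append_cancel_right this]; rfl⟩

lemma parse {a u v y n} (h : (u, v) ∈ R0) (e : a ++ u ++ y = o n) :
    ∃ i, (i = 1 ∨ i = 2) ∧ ((a, (u, v), y, true) = cE i n ∨ (a, (u, v), y, true) = bE i n) := by
  simp only [R0, Set.mem_insert_iff, Set.mem_singleton_iff, Prod.mk.injEq] at h
  rw [append_assoc] at e
  rcases h with ⟨rfl, rfl⟩ | ⟨rfl, rfl⟩ | ⟨rfl, rfl⟩ | ⟨rfl, rfl⟩
  · obtain ⟨rfl, rfl⟩ := p0 e; exact ⟨1, .inl rfl, .inl rfl⟩
  · obtain ⟨rfl, rfl⟩ := p0 e; exact ⟨2, .inr rfl, .inl rfl⟩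
  · obtain ⟨rfl, rfl⟩ := p2 e; exact ⟨1, .inl rfl, .inr rfl⟩
  · obtain ⟨rfl, rfl⟩ := p2 e; exact ⟨2, .inr rfl, .inr rfl⟩

lemma back {a u v y n} (h : (u, v) ∈ R0) (e : a ++ v ++ y = o n) : ∃ m, a ++ u ++ y = o m := by
  simp only [R0, Set.mem_insert_iff, Set.mem_singleton_iff, Prod.mk.injEq] at h
  rcases h with ⟨rfl, rfl⟩ | ⟨rfl, rfl⟩ | ⟨rfl, rfl⟩ | ⟨rfl, rfl⟩
  · obtain rfl := (p0 ((append_assoc _ _ _).symm.trans e)).1; exact q0 e
  · obtain rfl := (p0 ((append_assoc _ _ _).symm.trans e)).1; exact (q0 e).elim fun _ => q0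
  · obtain rfl := (p2 (a := a ++ [1]) (by simpa using e)).2
    simpa using q2 (by simpa using e)
  · obtain rfl := (p2 (a := a ++ [1, 1]) (by simpa using e)).2
    obtain ⟨m, h⟩ := q2 (a := a ++ [1]) (by simpa using e)
    simpa using q2 (a := a) (by simpa using h)

lemma o_inj {n m} (h : o n = o m) : n = m := by simpa [o] using congrArg length h

theorem main : ∃ (f : D R0 (o 0) →* G) (T X Z : D R0 (o 0)), Function.Injective f ∧
    (∀ l h, f (mk l h) = val l) ∧ (∀ n, Commute X (cj T Z n)) ∧ ¬ Commute X (T * Z * T⁻¹) := by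
  have hC : ∀ i, i = 1 ∨ i = 2 → ∀ n, W [cE i n] n (n + i) = W [cE i 0] 0 (0 + i) := fun i hi n => by
    induction n with
    | zero => rfl
    | succ n ih => simpa only [W_b, mul_one, one_mul, ih, eq_comm] using W_sq hi (.inl rfl) n
  set T := W [cE 1 0] 0 (0 + 1)
  set S := W [cE 2 0] 0 (0 + 2)
  set Z := W [bE 2 0] 0 (0 + 2) with hZ
  have hB : ∀ n, W [bE 2 n] n (n + 2) = cj T Z n := fun n => by
    induction n with
    | zero => simp [cj, hZ]
    | succ n ih =>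
      have := W_sq (.inl rfl) (.inr rfl) n
      rw [hC 1 (.inl rfl) n, hC 1 (.inl rfl) (n + 2), ih] at this
      rw [cj_succ, mul_assoc, ← this, inv_mul_cancel_left]
  have hX : ∀ n, Commute (S * (T ^ 2)⁻¹) (cj T Z n) := fun n => by
    have := W_sq (.inr rfl) (.inr rfl) n
    rw [hC 2 (.inr rfl) n, hC 2 (.inr rfl) (n + 2), hB, hB, cj_succ, cj_succ] at this
    rw [Commute, SemiconjBy, ← mul_assoc, ← this, pow_two]
    simp [mul_assoc, S]
  obtain ⟨ψ, h1, h2, h3⟩ := ex_psi hX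
  have k1 : ∀ a u v y n, (u, v) ∈ R0 → a ++ u ++ y = o n → ∃ m, a ++ v ++ y = o m ∧
      ψ (pv a u v) = W [(a, (u, v), y, true)] n m := fun a u v y n h e => by
    obtain ⟨i, hi, h | h⟩ := parse h e
    · refine ⟨n + i, (congrArg tgt h).trans (pc hi n).2.2, ?_⟩
      rw [h, hC i hi]
      cases h
      rcases hi with rfl | rfl <;> simp [pv, h1, h2, T, S]
    · refine ⟨n + i, (congrArg tgt h).trans (pb hi n).2.2, ?_⟩
      rw [h]
      cases h
      rcases hi with rfl | rfl <;> simp [pv, W_b, hB, map_cj, h1, h3]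
  have k2 : ∀ e n, e.2.1 ∈ R0 → src e = o n → ∃ m, tgt e = o m ∧ ψ (ev e) = W [e] n m := by
    rintro ⟨a, ⟨u, v⟩, y, _ | _⟩ n h e
    · obtain ⟨m, hm⟩ := back h e
      obtain ⟨n', h4, h5⟩ := k1 a u v y m h hm
      obtain rfl := o_inj (h4.symm.trans e)
      refine ⟨m, hm, (map_inv ψ _).trans (inv_eq_of_mul_eq_one_right ?_)⟩
      have e1 : Pth R0 (o m) [(a, (u, v), y, true)] (o n') := ⟨h, hm, h4⟩
      have e2 : Pth R0 (o n') [(a, (u, v), y, false)] (o m) := ⟨h, h4, hm⟩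
      rw [h5, W_app e1 e2, ← W_nil m]
      exact (W_mv (pn _) (e1.app e2) (Move.cancel [] [] _)).symm
    · exact k1 a u v y n h e
  have k3 : ∀ l n k, Pth R0 (o n) l (o k) → ψ (val l) = W l n k := fun l => by
    induction l with
    | nil => exact fun n k h => by rw [o_inj h, W_nil]; exact map_one ψ
    | cons e l ih =>
      intro n k h
      obtain ⟨m, h4, h5⟩ := k2 e n h.1 h.2.1
      have := h4 ▸ h.2.2
      refine (map_mul ψ _ (val l)).trans ?_
      rw [h5, ih m k this]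
      exact W_app ⟨h.1, h.2.1, h4⟩ this
  let f : D R0 (o 0) →* G := MonoidHom.mk' vc vc_cat
  have ht : f T = t := (vc_W (pc (.inl rfl) 0)).trans (by simp [val, ev, cE, pv])
  have hs : f S = x * t ^ 2 := (vc_W (pc (.inr rfl) 0)).trans (by simp [val, ev, cE, pv])
  have hz : f Z = z := (vc_W (pb (.inr rfl) 0)).trans (by simp [val, ev, bE, pv, cj])
  refine ⟨f, T, _, Z, Function.LeftInverse.injective (g := ψ) ?_, fun _ _ => rfl, hX,
    fun h => not_rel (by simpa [ht, hs, hz] using h.map f)⟩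
  rintro ⟨l, h⟩
  refine (k3 l 0 0 h).trans ?_
  rw [W, dif_pos h]
  have : ∀ a : D R0 (o 0), 1 * (a * 1⁻¹) = a := by simp
  exact this _

end Pool.Agent.H21.Sq
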