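import Mathlib
import Pool.Agent.H21.SqZ
import Pool.Agent.H21.RAAG

namespace Pool.Agent.H21.Sq

open ZZ

variable {A : Type} {R : Set (List A × List A)}

def Pa (R : Set (List A × List A)) (l : List (Edge A)) : Prop :=
  (∀ s ∈ l, s.2.1 ∈ R) ∧ ∀ (i : ℕ) (s t : Edge A), l[i]? = some s → l[i+1]? = some t → tgt s = src t

lemma pth_iff : ∀ (l : List (Edge A)) (u v), Pth R u l v ↔ Pa R l ∧ (∀ s ∈ l.head?, src s = u) ∧
    (∀ s ∈ l.getLast?, tgt s = v) ∧ (l = [] → u = v)
  | [], u, v => by simp [Pth, Pa]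
  | [e], u, v => by simp [Pth, Pa]
  | e :: e' :: l, u, v => by
    rw [Pth, pth_iff (e' :: l)]
    simp only [Pa, List.getLast?_cons_cons, List.forall_mem_cons (a := e)]
    constructor
    · rintro ⟨h1, h2, ⟨h3, h4⟩, h5, h6, -⟩
      refine ⟨⟨⟨h1, h3⟩, ?_⟩, by simpa using h2, h6, by simp⟩
      rintro (_ | i) s t h h'
      · cases h
        exact (h5 t h').symm
      · exact h4 i s t h h'
    · rintro ⟨⟨⟨h1, h3⟩, h4⟩, h5, h6, -⟩
      exact ⟨h1, h5 e rfl, ⟨h3, fun i => h4 (i + 1)⟩, fun s h => (h4 0 e s rfl h).symm, h6, by simp⟩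

lemma raag {V : Type} {Γ : SimpleGraph V} {T X Z : RAAG.A Γ} (h : ∀ n, Commute X (cj T Z n)) :
    Commute X (T * Z * T⁻¹) := by
  by_contra hn
  obtain ⟨H, _, f, h1, h2⟩ := RAAG.sep Γ _ (mt commutatorElement_eq_one_iff_commute.1 hn)
  rw [map_commutatorElement, Ne, commutatorElement_eq_one_iff_commute] at h1
  exact h1 (by simpa using kill_ord (kill_map h f) (h2 T))

lemma no_wr {H : Type} [Group H] {φ : H →* MulAut (Multiplicative (ℤ →₀ ℤ))}
    (g : Multiplicative (ℤ →₀ ℤ) ⋊[φ] H →* G) : ¬ Function.Injective g := fun hg => by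
  let f := g.comp SemidirectProduct.inl
  have hf : Function.Injective f := hg.comp SemidirectProduct.inl_injective
  obtain ⟨i, j, k, h, e⟩ := three (a := f (.ofAdd (Finsupp.single 0 1)))
    (b := f (.ofAdd (Finsupp.single 1 1))) (c := f (.ofAdd (Finsupp.single 2 1)))
    ((Commute.all _ _).map f) ((Commute.all _ _).map f) ((Commute.all _ _).map f)
  simp only [← map_zpow, ← map_mul, map_eq_one_iff f hf] at e
  have := fun n => congrArg (fun v => v.toAdd n) e
  exact h ⟨by simpa using this 0, by simpa using this 1, by simpa using this 2⟩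

lemma valid : Valid R0 (o 0) := by
  refine ⟨by simp [o], fun u v h => ?_⟩
  simp only [R0, Set.mem_insert_iff, Set.mem_singleton_iff, Prod.mk.injEq] at h ⊢
  rcases h with ⟨rfl, rfl⟩ | ⟨rfl, rfl⟩ | ⟨rfl, rfl⟩ | ⟨rfl, rfl⟩ <;> simp

end Pool.Agent.H21.Sq
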