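import Mathlib
import Pool.Agent.H21.SqDefs

namespace Pool.Agent.H21.Sq

variable {A : Type} {R : Set (List A × List A)}

def su (r : List A × List A) (d : Bool) : List A := if d then r.1 else r.2

lemma Pth.split : ∀ {p q : List (Edge A)} {u w}, Pth R u (p ++ q) w → ∃ v, Pth R u p v ∧ Pth R v q w
  | [], _, _, _, h => ⟨_, rfl, h⟩
  | _ :: _, _, _, _, h => h.2.2.split.imp fun _ k => ⟨⟨h.1, h.2.1, k.1⟩, k.2⟩

lemma Pth.mem' : ∀ {p : List (Edge A)} {u v}, Pth R u p v → ∀ e ∈ p, e.2.1 ∈ R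
  | [], _, _, _ => by simp
  | _ :: _, _, _, h => List.forall_mem_cons.2 ⟨h.1, h.2.2.mem'⟩

def Hm (R : Set (List A × List A)) (p q : List (Edge A)) : Prop :=
  ∀ u v (h : Pth R u p v), ∃ h' : Pth R u q v, mk p h = mk q h'

lemma Hm.trans {p q r} (h : Hm R p q) (h' : Hm R q r) : Hm R p r := fun u v k =>
  (h u v k).elim fun k e => (h' u v k).imp fun _ e' => e.trans e'

lemma Hm.left {p q} (h : Hm R p q) (c) : Hm R (c ++ p) (c ++ q) := fun _ v k => by
  obtain ⟨w, k1, k2⟩ := k.split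
  obtain ⟨k3, e⟩ := h w v k2
  exact ⟨k1.app k3, congrArg (cat (mk c k1)) e⟩

lemma Hm.right {p q} (h : Hm R p q) (c) : Hm R (p ++ c) (q ++ c) := fun u _ k => by
  obtain ⟨w, k1, k2⟩ := k.split
  obtain ⟨k3, e⟩ := h u w k1
  exact ⟨k3.app k2, congrArg (cat · (mk c k2)) e⟩

lemma hm_can (e : Edge A) : Hm R [e, flip e] [] := fun _ _ h =>
  ⟨h.2.1.symm.trans ((tgt_flip e).symm.trans h.2.2.2.2), Eq.symm (Quot.sound (Move.cancel [] [] e))⟩

lemma cat_one {u v} (a : Cls R u v) : cat a (one R v) = a := by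
  obtain ⟨a⟩ := a
  exact congrArg (Quot.mk _) (Subtype.ext (List.append_nil _))

lemma cat_inv {u v} (a : Cls R u v) : cat a (inv a) = one R u := by
  obtain ⟨a⟩ := a
  exact cancel_rev _ a.2

lemma sq_eq (x y z : List A) (r s : List A × List A) (d c : Bool) {u v} (h h') :
    mk (R := R) (u := u) (v := v) [(x, r, y ++ su s c ++ z, d), (x ++ su r (!d) ++ y, s, z, c)] h =
      mk [(x ++ su r d ++ y, s, z, c), (x, r, y ++ su s (!c) ++ z, d)] h' := by
  obtain ⟨hr, rfl, hs, -, rfl⟩ := id h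
  let e1 : Cls R (x ++ r.1 ++ y ++ s.1 ++ z) (x ++ r.2 ++ y ++ s.1 ++ z) :=
    mk [(x, r, y ++ s.1 ++ z, true)] ⟨hr, by simp [src], by simp [Pth, tgt]⟩
  let e2 : Cls R (x ++ r.2 ++ y ++ s.1 ++ z) (x ++ r.2 ++ y ++ s.2 ++ z) :=
    mk [(x ++ r.2 ++ y, s, z, true)] ⟨hs, rfl, rfl⟩
  let e3 : Cls R (x ++ r.1 ++ y ++ s.1 ++ z) (x ++ r.1 ++ y ++ s.2 ++ z) :=
    mk [(x ++ r.1 ++ y, s, z, true)] ⟨hs, rfl, rfl⟩
  let e4 : Cls R (x ++ r.1 ++ y ++ s.2 ++ z) (x ++ r.2 ++ y ++ s.2 ++ z) :=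
    mk [(x, r, y ++ s.2 ++ z, true)] ⟨hr, by simp [src], by simp [Pth, tgt]⟩
  have e : cat e1 e2 = cat e3 e4 := Quot.sound (Move.square [] [] x r.1 r.2 y s.1 s.2 z)
  have k : ∀ {p q u v u'} (h : Pth R u p v) (h' : Pth R u q v) (k : Pth R u' p v) (k' : Pth R u' q v),
      u = u' → mk p k = mk q k' → mk p h = mk q h' := by
    rintro p q u v _ h h' k k' rfl e
    exact e
  have e5 : cat (inv e1) e3 = cat e2 (inv e4) := by
    rw [← one_cat (cat e2 _), ← inv_cat e1, cat_assoc, ← cat_assoc e1, e, cat_assoc, cat_inv, cat_one]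
  cases d <;> cases c
  · exact k _ _ _ _ (by simp [src, su]) (congrArg inv e).symm
  · exact k _ _ _ _ (by simp [src, su]) e5
  · exact k _ _ _ _ (by simp [src, su]) (congrArg inv e5).symm
  · exact k _ _ _ _ (by simp [src, su]) e

lemma hm_sq (x y z : List A) (r s : List A × List A) (d c : Bool) :
    Hm R [(x, r, y ++ su s c ++ z, d), (x ++ su r (!d) ++ y, s, z, c)]
      [(x ++ su r d ++ y, s, z, c), (x, r, y ++ su s (!c) ++ z, d)] ∧
    Hm R [(x ++ su r d ++ y, s, z, c), (x, r, y ++ su s (!c) ++ z, d)]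
      [(x, r, y ++ su s c ++ z, d), (x ++ su r (!d) ++ y, s, z, c)] := by
  refine ⟨fun u v h => ⟨?_, sq_eq _ _ _ _ _ _ _ _ _⟩, fun u v h => ⟨?_, (sq_eq _ _ _ _ _ _ _ _ _).symm⟩⟩ <;>
    obtain ⟨hr, rfl, hs, -, rfl⟩ := h <;> cases c <;> cases d <;> simp [Pth, src, tgt, su] <;>
    exact ⟨hs, hr⟩

variable [DecidableEq A]

def swp (e f : Edge A) : Option (Edge A × Edge A) :=
  let y := f.1.drop (e.1.length + (su e.2.1 (!e.2.2.2)).length)
  let y' := e.1.drop (f.1.length + (su f.2.1 f.2.2.2).length)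
  if f.1 = e.1 ++ su e.2.1 (!e.2.2.2) ++ y ∧ e.2.2.1 = y ++ su f.2.1 f.2.2.2 ++ f.2.2.1 then
    some ((e.1 ++ su e.2.1 e.2.2.2 ++ y, f.2),
      (e.1, e.2.1, y ++ su f.2.1 (!f.2.2.2) ++ f.2.2.1, e.2.2.2))
  else if e.1 = f.1 ++ su f.2.1 f.2.2.2 ++ y' ∧ f.2.2.1 = y' ++ su e.2.1 (!e.2.2.2) ++ e.2.2.1 then
    some ((f.1, f.2.1, y' ++ su e.2.1 e.2.2.2 ++ e.2.2.1, f.2.2.2),
      (f.1 ++ su f.2.1 (!f.2.2.2) ++ y', e.2))
  else none

lemma swp_ok {e f : Edge A} {p} (h : swp e f = some p) : Hm R [e, f] [p.1, p.2] := by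
  obtain ⟨a, r, b, d⟩ := e
  obtain ⟨a', s, b', c⟩ := f
  simp only [swp] at h
  split_ifs at h with h1 h2 <;> cases h
  · generalize List.drop _ _ = y at h1 ⊢
    obtain ⟨rfl, rfl⟩ := h1
    exact (hm_sq ..).1
  · generalize List.drop _ _ = y at h2 ⊢
    obtain ⟨rfl, rfl⟩ := h2
    exact (hm_sq ..).2

def psh : List (Edge A) → Edge A → Option (List (Edge A))
  | [], _ => none
  | s :: st, e => if e = flip s then some st else
    (swp s e).bind fun p => (psh st p.1).map (p.2 :: ·)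

lemma psh_ok : ∀ {st : List (Edge A)} {e l}, psh st e = some l → Hm R (st.reverse ++ [e]) l.reverse
  | s :: st, e, l, h => by
    simp only [psh] at h
    split_ifs at h with h1
    · cases h
      simpa [h1] using (hm_can s).left st.reverse
    · obtain ⟨p, h2, h3⟩ := Option.bind_eq_some_iff.1 h
      obtain ⟨l, h4, rfl⟩ := Option.map_eq_some_iff.1 h3
      have := ((swp_ok (R := R) h2).left st.reverse).trans (by simpa using (psh_ok h4).right [p.2])
      simpa using this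

def red (l : List (Edge A)) : List (Edge A) := l.foldl (fun st e => (psh st e).getD (e :: st)) []

lemma red_ok (l : List (Edge A)) : Hm R l (red l).reverse := by
  induction l using List.reverseRecOn with
  | nil => exact fun _ _ h => ⟨h, rfl⟩
  | append_singleton l e ih =>
    refine (ih.right _).trans ?_
    rw [red, red, List.foldl_append, List.foldl_cons, List.foldl_nil]
    cases h : psh _ e with
    | none => exact fun _ _ h => ⟨by simpa using h, by simp⟩
    | some l => exact psh_ok h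

section
variable {ι : Type} {w : List A} (g : ι → List (Edge A)) (hg : ∀ i, Pth R w (g i) w)

def wd (L : List (ι × Bool)) : List (Edge A) := L.flatMap fun p => if p.2 then g p.1 else rev (g p.1)

def gen : FreeGroup ι →* D R w := FreeGroup.lift fun i => mk (g i) (hg i)

omit [DecidableEq A] in
lemma gen_mk : ∀ L, ∃ h, gen g hg (FreeGroup.mk L) = mk (wd g L) h
  | [] => ⟨rfl, map_one _⟩
  | (i, b) :: L => by
    obtain ⟨h, e⟩ := gen_mk L
    have e' := map_mul (gen g hg) (FreeGroup.mk [(i, b)]) (FreeGroup.mk L)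
    rw [e] at e'
    have e1 : gen g hg (.of i) = mk _ (hg i) := FreeGroup.lift_apply_of
    cases b
    · exact ⟨(hg i).rev.app h, e'.trans (congrArg (cat · _)
        ((map_inv (gen g hg) (.of i)).trans (congrArg inv e1)))⟩
    · exact ⟨(hg i).app h, e'.trans (congrArg (cat · _) e1)⟩

lemma chk [DecidableEq ι] (a b : FreeGroup ι) (h : red (wd g (a * b * a⁻¹ * b⁻¹).toWord) = []) :
    Commute (gen g hg a) (gen g hg b) := by
  rw [← commutatorElement_eq_one_iff_commute, ← map_commutatorElement, commutatorElement_def,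
    ← FreeGroup.mk_toWord (x := _ * _)]
  obtain ⟨k, e⟩ := gen_mk g hg (a * b * a⁻¹ * b⁻¹).toWord
  obtain ⟨k', e'⟩ := red_ok (R := R) _ _ _ k
  simp only [h] at e'
  exact e.trans e'

end

section
variable {G : Type} [Group G] (sh : G →* G) (γ : List A × List A → G)

def evs (e : Edge A) : G := sh^[e.1.length] (if e.2.2.2 then γ e.2.1 else (γ e.2.1)⁻¹)

omit [DecidableEq A] in
lemma rep (hγ : ∀ r ∈ R, ∀ π, γ r * sh^[r.2.length] π = sh^[r.1.length] π * γ r) (w) :
    ∃ χ : D R w →* G, ∀ l h, χ (mk l h) = (l.map (evs sh γ)).prod := by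
  refine ⟨MonoidHom.mk' (Quot.lift (fun p => (p.1.map (evs sh γ)).prod) ?_) ?_, fun _ _ => rfl⟩
  · rintro ⟨p, hp⟩ ⟨q, hq⟩ h
    have hq := hq.mem'
    dsimp only at h ⊢
    cases h with
    | cancel p q e =>
      obtain ⟨_, _, _, _ | _⟩ := e <;> simp [evs, flip, ← mul_assoc, iterate_map_inv]
    | square p q x u₁ v₁ y u₂ v₂ z =>
      simp only [List.map_append, List.prod_append]
      congr 2
      have := congrArg sh^[x.length] (hγ _ (hq (x, (u₁, v₁), y ++ v₂ ++ z, true) (by simp))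
        (sh^[y.length] (γ (u₂, v₂))))
      simpa [evs, Function.iterate_add_apply, iterate_map_mul] using this
  · rintro ⟨a⟩ ⟨b⟩
    exact (congrArg _ List.map_append).trans List.prod_append

end

end Pool.Agent.H21.Sq
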