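import Pool.Agent.H21.TPDefs

namespace Pool.Agent.H21.TP

def br (x y : Fin 8 → ℂ) : Fin 8 → ℂ := ![x 1 * y 2 - y 1 * x 2, x 0 * y 1 + x 1 * y 3 - y 0 * x 1 - y 1 * x 3,
  x 2 * y 0 + x 3 * y 2 - y 2 * x 0 - y 3 * x 2, x 2 * y 1 - y 2 * x 1, x 0 * y 4 + x 1 * y 5 - y 0 * x 4 - y 1 * x 5,
  x 2 * y 4 + x 3 * y 5 - y 2 * x 4 - y 3 * x 5, x 6 * y 0 + x 7 * y 2 - y 6 * x 0 - y 7 * x 2,
  x 6 * y 1 + x 7 * y 3 - y 6 * x 1 - y 7 * x 3]

lemma half {φ : (Fin 8 → ℂ) →ₗ[ℂ] (Fin 8 → ℂ)} (h : IsHalf br φ) : ∃ c : ℂ, φ = c • LinearMap.id := by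
  obtain ⟨a, ha⟩ : ∃ a : Fin 8 → Fin 8 → ℂ, ∀ x, φ x = fun i => ∑ l, x l * a l i :=
    ⟨_, fun x => by rw [LinearMap.pi_apply_eq_sum_univ]; ext i; simp only [Finset.sum_apply]; rfl⟩
  have E (x y i) : 2 * ∑ l, br x y l * a l i =
      br (fun i => ∑ l, x l * a l i) y i + br x (fun i => ∑ l, y l * a l i) i := by
    have := congr($(h x y) i)
    simp only [ha, Pi.smul_apply, Pi.add_apply, smul_eq_mul] at this
    rw [this]; ring
  have h010 := E ![1, 0, 0, 0, 0, 0, 0, 0] ![0, 1, 0, 0, 0, 0, 0, 0] 0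
  have h011 := E ![1, 0, 0, 0, 0, 0, 0, 0] ![0, 1, 0, 0, 0, 0, 0, 0] 1
  have h012 := E ![1, 0, 0, 0, 0, 0, 0, 0] ![0, 1, 0, 0, 0, 0, 0, 0] 2
  have h013 := E ![1, 0, 0, 0, 0, 0, 0, 0] ![0, 1, 0, 0, 0, 0, 0, 0] 3
  have h014 := E ![1, 0, 0, 0, 0, 0, 0, 0] ![0, 1, 0, 0, 0, 0, 0, 0] 4
  have h015 := E ![1, 0, 0, 0, 0, 0, 0, 0] ![0, 1, 0, 0, 0, 0, 0, 0] 5
  have h016 := E ![1, 0, 0, 0, 0, 0, 0, 0] ![0, 1, 0, 0, 0, 0, 0, 0] 6
  have h017 := E ![1, 0, 0, 0, 0, 0, 0, 0] ![0, 1, 0, 0, 0, 0, 0, 0] 7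
  have h020 := E ![1, 0, 0, 0, 0, 0, 0, 0] ![0, 0, 1, 0, 0, 0, 0, 0] 0
  have h021 := E ![1, 0, 0, 0, 0, 0, 0, 0] ![0, 0, 1, 0, 0, 0, 0, 0] 1
  have h022 := E ![1, 0, 0, 0, 0, 0, 0, 0] ![0, 0, 1, 0, 0, 0, 0, 0] 2
  have h023 := E ![1, 0, 0, 0, 0, 0, 0, 0] ![0, 0, 1, 0, 0, 0, 0, 0] 3
  have h024 := E ![1, 0, 0, 0, 0, 0, 0, 0] ![0, 0, 1, 0, 0, 0, 0, 0] 4
  have h025 := E ![1, 0, 0, 0, 0, 0, 0, 0] ![0, 0, 1, 0, 0, 0, 0, 0] 5
  have h026 := E ![1, 0, 0, 0, 0, 0, 0, 0] ![0, 0, 1, 0, 0, 0, 0, 0] 6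
  have h027 := E ![1, 0, 0, 0, 0, 0, 0, 0] ![0, 0, 1, 0, 0, 0, 0, 0] 7
  have h031 := E ![1, 0, 0, 0, 0, 0, 0, 0] ![0, 0, 0, 1, 0, 0, 0, 0] 1
  have h032 := E ![1, 0, 0, 0, 0, 0, 0, 0] ![0, 0, 0, 1, 0, 0, 0, 0] 2
  have h034 := E ![1, 0, 0, 0, 0, 0, 0, 0] ![0, 0, 0, 1, 0, 0, 0, 0] 4
  have h035 := E ![1, 0, 0, 0, 0, 0, 0, 0] ![0, 0, 0, 1, 0, 0, 0, 0] 5
  have h036 := E ![1, 0, 0, 0, 0, 0, 0, 0] ![0, 0, 0, 1, 0, 0, 0, 0] 6
  have h037 := E ![1, 0, 0, 0, 0, 0, 0, 0] ![0, 0, 0, 1, 0, 0, 0, 0] 7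
  have h040 := E ![1, 0, 0, 0, 0, 0, 0, 0] ![0, 0, 0, 0, 1, 0, 0, 0] 0
  have h041 := E ![1, 0, 0, 0, 0, 0, 0, 0] ![0, 0, 0, 0, 1, 0, 0, 0] 1
  have h042 := E ![1, 0, 0, 0, 0, 0, 0, 0] ![0, 0, 0, 0, 1, 0, 0, 0] 2
  have h043 := E ![1, 0, 0, 0, 0, 0, 0, 0] ![0, 0, 0, 0, 1, 0, 0, 0] 3
  have h044 := E ![1, 0, 0, 0, 0, 0, 0, 0] ![0, 0, 0, 0, 1, 0, 0, 0] 4
  have h045 := E ![1, 0, 0, 0, 0, 0, 0, 0] ![0, 0, 0, 0, 1, 0, 0, 0] 5
  have h046 := E ![1, 0, 0, 0, 0, 0, 0, 0] ![0, 0, 0, 0, 1, 0, 0, 0] 6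
  have h047 := E ![1, 0, 0, 0, 0, 0, 0, 0] ![0, 0, 0, 0, 1, 0, 0, 0] 7
  have h051 := E ![1, 0, 0, 0, 0, 0, 0, 0] ![0, 0, 0, 0, 0, 1, 0, 0] 1
  have h052 := E ![1, 0, 0, 0, 0, 0, 0, 0] ![0, 0, 0, 0, 0, 1, 0, 0] 2
  have h054 := E ![1, 0, 0, 0, 0, 0, 0, 0] ![0, 0, 0, 0, 0, 1, 0, 0] 4
  have h055 := E ![1, 0, 0, 0, 0, 0, 0, 0] ![0, 0, 0, 0, 0, 1, 0, 0] 5
  have h056 := E ![1, 0, 0, 0, 0, 0, 0, 0] ![0, 0, 0, 0, 0, 1, 0, 0] 6
  have h060 := E ![1, 0, 0, 0, 0, 0, 0, 0] ![0, 0, 0, 0, 0, 0, 1, 0] 0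
  have h061 := E ![1, 0, 0, 0, 0, 0, 0, 0] ![0, 0, 0, 0, 0, 0, 1, 0] 1
  have h062 := E ![1, 0, 0, 0, 0, 0, 0, 0] ![0, 0, 0, 0, 0, 0, 1, 0] 2
  have h063 := E ![1, 0, 0, 0, 0, 0, 0, 0] ![0, 0, 0, 0, 0, 0, 1, 0] 3
  have h064 := E ![1, 0, 0, 0, 0, 0, 0, 0] ![0, 0, 0, 0, 0, 0, 1, 0] 4
  have h065 := E ![1, 0, 0, 0, 0, 0, 0, 0] ![0, 0, 0, 0, 0, 0, 1, 0] 5
  have h066 := E ![1, 0, 0, 0, 0, 0, 0, 0] ![0, 0, 0, 0, 0, 0, 1, 0] 6
  have h067 := E ![1, 0, 0, 0, 0, 0, 0, 0] ![0, 0, 0, 0, 0, 0, 1, 0] 7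
  have h071 := E ![1, 0, 0, 0, 0, 0, 0, 0] ![0, 0, 0, 0, 0, 0, 0, 1] 1
  have h072 := E ![1, 0, 0, 0, 0, 0, 0, 0] ![0, 0, 0, 0, 0, 0, 0, 1] 2
  have h074 := E ![1, 0, 0, 0, 0, 0, 0, 0] ![0, 0, 0, 0, 0, 0, 0, 1] 4
  have h076 := E ![1, 0, 0, 0, 0, 0, 0, 0] ![0, 0, 0, 0, 0, 0, 0, 1] 6
  have h131 := E ![0, 1, 0, 0, 0, 0, 0, 0] ![0, 0, 0, 1, 0, 0, 0, 0] 1
  have h134 := E ![0, 1, 0, 0, 0, 0, 0, 0] ![0, 0, 0, 1, 0, 0, 0, 0] 4
  have h137 := E ![0, 1, 0, 0, 0, 0, 0, 0] ![0, 0, 0, 1, 0, 0, 0, 0] 7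
  have h155 := E ![0, 1, 0, 0, 0, 0, 0, 0] ![0, 0, 0, 0, 0, 1, 0, 0] 5
  have h165 := E ![0, 1, 0, 0, 0, 0, 0, 0] ![0, 0, 0, 0, 0, 0, 1, 0] 5
  have h235 := E ![0, 0, 1, 0, 0, 0, 0, 0] ![0, 0, 0, 1, 0, 0, 0, 0] 5
  have h236 := E ![0, 0, 1, 0, 0, 0, 0, 0] ![0, 0, 0, 1, 0, 0, 0, 0] 6
  have h244 := E ![0, 0, 1, 0, 0, 0, 0, 0] ![0, 0, 0, 0, 1, 0, 0, 0] 4
  have h247 := E ![0, 0, 1, 0, 0, 0, 0, 0] ![0, 0, 0, 0, 1, 0, 0, 0] 7
  have h344 := E ![0, 0, 0, 1, 0, 0, 0, 0] ![0, 0, 0, 0, 1, 0, 0, 0] 4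
  have h350 := E ![0, 0, 0, 1, 0, 0, 0, 0] ![0, 0, 0, 0, 0, 1, 0, 0] 0
  have h353 := E ![0, 0, 0, 1, 0, 0, 0, 0] ![0, 0, 0, 0, 0, 1, 0, 0] 3
  have h355 := E ![0, 0, 0, 1, 0, 0, 0, 0] ![0, 0, 0, 0, 0, 1, 0, 0] 5
  have h370 := E ![0, 0, 0, 1, 0, 0, 0, 0] ![0, 0, 0, 0, 0, 0, 0, 1] 0
  have h373 := E ![0, 0, 0, 1, 0, 0, 0, 0] ![0, 0, 0, 0, 0, 0, 0, 1] 3
  have h377 := E ![0, 0, 0, 1, 0, 0, 0, 0] ![0, 0, 0, 0, 0, 0, 0, 1] 7
  simp only [br, Fin.sum_univ_eight, Matrix.cons_val, Matrix.cons_val_zero, Matrix.cons_val_one] at h010 h011 h012 h013 h014 h015 h016 h017 h020 h021 h022 h023 h024 h025 h026 h027 h031 h032 h034 h035 h036 h037 h040 h041 h042 h043 h044 h045 h046 h047 h051 h052 h054 h055 h056 h060 h061 h062 h063 h064 h065 h066 h067 h071 h072 h074 h076 h131 h134 h137 h155 h165 h235 h236 h244 h247 h344 h350 h353 h355 h370 h373 h377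
  have r12 : a 1 2 = 0 := by linear_combination (1/3) * h012
  have r15 : a 1 5 = 0 := by linear_combination (1/2) * h015
  have r16 : a 1 6 = 0 := by linear_combination (1/3) * h016
  have r21 : a 2 1 = 0 := by linear_combination (-1/3) * h021
  have r24 : a 2 4 = 0 := by linear_combination (-1/3) * h024
  have r27 : a 2 7 = 0 := by linear_combination (-1/2) * h027
  have r34 : a 3 4 = 0 := by linear_combination (-1) * h034
  have r05 : a 0 5 = 0 := by linear_combination (1) * h035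
  have r36 : a 3 6 = 0 := by linear_combination (1) * h036
  have r07 : a 0 7 = 0 := by linear_combination (-1) * h037
  have r40 : a 4 0 = 0 := by linear_combination (1/2) * h040
  have r41 : a 4 1 = 0 := by linear_combination (1) * h041
  have r42 : a 4 2 = 0 := by linear_combination (1/3) * h042
  have r43 : a 4 3 = 0 := by linear_combination (1/2) * h043
  have r46 : a 4 6 = 0 := by linear_combination (1/3) * h046
  have r47 : a 4 7 = 0 := by linear_combination (1/2) * h047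
  have r51 : a 5 1 = 0 := by linear_combination (-1) * h051
  have r52 : a 5 2 = 0 := by linear_combination (1) * h052
  have r03 : a 0 3 = 0 := by linear_combination (-1) * h055
  have r56 : a 5 6 = 0 := by linear_combination (1) * h056
  have r60 : a 6 0 = 0 := by linear_combination (-1/2) * h060
  have r61 : a 6 1 = 0 := by linear_combination (-1/3) * h061
  have r62 : a 6 2 = 0 := by linear_combination (-1) * h062
  have r63 : a 6 3 = 0 := by linear_combination (-1/2) * h063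
  have r64 : a 6 4 = 0 := by linear_combination (-1/3) * h064
  have r65 : a 6 5 = 0 := by linear_combination (-1/2) * h065
  have r71 : a 7 1 = 0 := by linear_combination (-1) * h071
  have r72 : a 7 2 = 0 := by linear_combination (1) * h072
  have r74 : a 7 4 = 0 := by linear_combination (-1) * h074
  have r75 : a 7 5 = 0 := by linear_combination (-1/2) * h165
  have r57 : a 5 7 = 0 := by linear_combination (1/2) * h247
  have r30 : a 3 0 = 0 := by linear_combination (-1) * h344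
  have r50 : a 5 0 = 0 := by linear_combination (1/2) * h350
  have r53 : a 5 3 = 0 := by linear_combination (1/2) * h353
  have r70 : a 7 0 = 0 := by linear_combination (-1/2) * h370
  have r73 : a 7 3 = 0 := by linear_combination (-1/2) * h373
  have r10 : a 1 0 = 0 := by linear_combination (1/2) * h010 + (-1) * h155 + (-1/2) * h013 + (1) * h045
  have r13 : a 1 3 = 0 := by linear_combination (1) * h013 + (1) * h155 + (-1) * h045
  have r14 : a 1 4 = 0 := by linear_combination (1) * h014 + (-1) * h035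
  have r17 : a 1 7 = 0 := by linear_combination (1) * h137 + (-1) * h036
  have r20 : a 2 0 = 0 := by linear_combination (-2/3) * h020 + (1/3) * h244 + (2/3) * h054
  have r23 : a 2 3 = 0 := by linear_combination (-1/2) * h023 + (-1/3) * h244 + (1/6) * h020 + (-2/3) * h054
  have r25 : a 2 5 = 0 := by linear_combination (-1) * h235 + (1) * h034
  have r26 : a 2 6 = 0 := by linear_combination (-1) * h026 + (1) * h037
  have r31 : a 3 1 = 0 := by linear_combination (-1) * h031 + (2/3) * h244 + (-1/3) * h020 + (4/3) * h054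
  have r32 : a 3 2 = 0 := by linear_combination (1) * h032 + (-2) * h155 + (-1) * h013 + (2) * h045
  have r44 : a 4 4 = a 0 0 := by linear_combination (1) * h044
  have r45 : a 4 5 = 0 := by linear_combination (-1/2) * h045 + (1) * h155 + (1/2) * h013
  have r54 : a 5 4 = 0 := by linear_combination (1/3) * h054 + (2/3) * h244 + (-1/3) * h020
  have r66 : a 6 6 = a 0 0 := by linear_combination (-1) * h066
  have r67 : a 6 7 = 0 := by linear_combination (-1/2) * h067 + (-1/3) * h244 + (1/6) * h020 + (-2/3) * h054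
  have r76 : a 7 6 = 0 := by linear_combination (1) * h076 + (-2) * h155 + (-1) * h013 + (2) * h045
  have r35 : a 3 5 = 0 := by linear_combination (-1) * h134 + (2) * h014 + (-2) * h035
  have r06 : a 0 6 = 0 := by linear_combination (2) * h137 + (-2) * h036 + (-1) * h017
  have r02 : a 0 2 = 0 := by linear_combination (2) * h155 + (1) * h013 + (-2) * h045
  have r04 : a 0 4 = 0 := by linear_combination (-2) * h235 + (2) * h034 + (1) * h025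
  have r37 : a 3 7 = 0 := by linear_combination (1) * h236 + (-2) * h026 + (2) * h037
  have r01 : a 0 1 = 0 := by linear_combination (-2/3) * h244 + (1/3) * h020 + (-4/3) * h054
  have r55 : a 5 5 = a 0 0 := by linear_combination (1) * h355 + (-1) * h131 + (-1) * h344 + (1) * h011 + (1) * h055
  have r77 : a 7 7 = a 0 0 := by linear_combination (-1) * h377 + (-1) * h131 + (-1) * h344 + (1) * h011 + (1) * h055
  have r11 : a 1 1 = a 0 0 := by linear_combination (1) * h011 + (1) * h055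
  have r22 : a 2 2 = a 0 0 := by linear_combination (-1) * h022 + (1) * h055
  have r33 : a 3 3 = a 0 0 := by linear_combination (-1) * h131 + (-1) * h344 + (1) * h011 + (1) * h055
  refine ⟨a 0 0, LinearMap.ext fun x => funext fun i => ?_⟩
  rw [ha]
  clear * - r12  r15  r16  r21  r24  r27  r34  r05  r36  r07  r40  r41  r42  r43  r46  r47  r51  r52  r03  r56  r60  r61  r62  r63  r64  r65  r71  r72  r74  r75  r57  r30  r50  r53  r70  r73  r10  r13  r14  r17  r20  r23  r25  r26  r31  r32  r44  r45  r54  r66  r67  r76  r35  r06  r02  r04  r37  r01  r55  r77  r11  r22  r33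
  fin_cases i <;> simp [Fin.sum_univ_eight, mul_comm (a 0 0), r12, r15, r16, r21, r24, r27, r34, r05, r36, r07, r40, r41, r42, r43, r46, r47, r51, r52, r03, r56, r60, r61, r62, r63, r64, r65, r71, r72, r74, r75, r57, r30, r50, r53, r70, r73, r10, r13, r14, r17, r20, r23, r25, r26, r31, r32, r44, r45, r54, r66, r67, r76, r35, r06, r02, r04, r37, r01, r55, r77, r11, r22, r33]

def L := Fin 8 → ℂ
noncomputable instance : AddCommGroup L := inferInstanceAs (AddCommGroup (Fin 8 → ℂ))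
noncomputable instance : Module ℂ L := inferInstanceAs (Module ℂ (Fin 8 → ℂ))
noncomputable instance : LieRing L where
  bracket := br
  add_lie x y z := show br (fun i => x i + y i) z = fun i => br x z i + br y z i from
    funext fun i => by fin_cases i <;> simp [br] <;> ring
  lie_add x y z := show br x (fun i => y i + z i) = fun i => br x y i + br x z i from
    funext fun i => by fin_cases i <;> simp [br] <;> ring
  lie_self x := show br x x = fun _ => 0 from funext fun i => by fin_cases i <;> simp [br]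
  leibniz_lie x y z := show br x (br y z) = fun i => br (br x y) z i + br y (br x z) i from
    funext fun i => by fin_cases i <;> simp [br] <;> ring
noncomputable instance : LieAlgebra ℂ L where
  lie_smul t x y := show br x (fun i => t * y i) = fun i => t * br x y i from
    funext fun i => by fin_cases i <;> simp [br] <;> ring

noncomputable def ω0 : (Fin 8 → ℂ) →ₗ[ℂ] (Fin 8 → ℂ) →ₗ[ℂ] ℂ :=
  LinearMap.mk₂ ℂ (fun x y => x 6 * y 4 + x 7 * y 5 - y 6 * x 4 - y 7 * x 5) (by intros; simp; ring) (by intros; simp; ring)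
    (by intros; simp; ring) (by intros; simp; ring)
lemma coc : NontrivCocycle (L := L) ω0 := by
  refine ⟨fun x : Fin 8 → ℂ => show ω0 x x = 0 by simp [ω0], fun x y z : Fin 8 → ℂ =>
    show ω0 (br x y) z + ω0 (br y z) x + ω0 (br z x) y = 0 by simp [ω0, br]; ring, fun ⟨l, hl⟩ => ?_⟩
  have := hl (![0, 0, 0, 0, 0, 0, 1, 0] : Fin 8 → ℂ) (![0, 0, 0, 0, 1, 0, 0, 0] : Fin 8 → ℂ)
  rw [show (⁅_, _⁆ : L) = 0 from funext fun i => show br _ _ i = 0 by fin_cases i <;> simp [br], map_zero] at this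
  exact one_ne_zero ((show (1 : ℂ) = ω0 _ _ by simp [ω0]).trans this)

noncomputable def tr : (L × ℂ) →ₗ[ℂ] ℂ := (LinearMap.proj (R := ℂ) (φ := fun _ : Fin 8 => ℂ) 0 + LinearMap.proj 3) ∘ₗ LinearMap.fst ℂ _ _
lemma tr_ext (p q : L × ℂ) : tr (ext ω0 p q) = 0 := show br p.1 q.1 0 + br p.1 q.1 3 = 0 by simp [br]; ring
lemma tr_c (t : ℂ) : tr (0, t) = 0 := show (0 : ℂ) + 0 = 0 by simp
lemma ext_c (t : ℂ) (q : L × ℂ) : ext ω0 (0, t) q = 0 ∧ ext ω0 q (0, t) = 0 := by simp [ext]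
def e0 : L × ℂ := ((![1, 0, 0, 0, 0, 0, 0, 0] : Fin 8 → ℂ), 0)
lemma tr_e : tr e0 = 1 := show (1 : ℂ) + 0 = 1 by simp

end Pool.Agent.H21.TP
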