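import Mathlib

namespace Pool.Agent.H21.TP

variable {V : Type*} [AddCommGroup V] [Module ℂ V]

/-- transposed Poisson structure for the bracket `b` -/
def IsTP (b : V → V → V) (m : V →ₗ[ℂ] V →ₗ[ℂ] V) : Prop :=
  (∀ x y, m x y = m y x) ∧ (∀ x y z, m (m x y) z = m x (m y z)) ∧
    ∀ x y z, (2 : ℂ) • m z (b x y) = b (m z x) y + b x (m z y)

/-- one-half derivation for the bracket `b` -/
def IsHalf (b : V → V → V) (φ : V →ₗ[ℂ] V) : Prop :=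
  ∀ x y, φ (b x y) = (1 / 2 : ℂ) • (b (φ x) y + b x (φ y))

variable {L : Type*} [LieRing L] [LieAlgebra ℂ L]

/-- Lie algebra 2-cocycle with values in the complex numbers that is not a coboundary -/
def NontrivCocycle (ω : L →ₗ[ℂ] L →ₗ[ℂ] ℂ) : Prop :=
  (∀ x, ω x x = 0) ∧ (∀ x y z : L, ω ⁅x, y⁆ z + ω ⁅y, z⁆ x + ω ⁅z, x⁆ y = 0) ∧
    ¬∃ l : L →ₗ[ℂ] ℂ, ∀ x y : L, ω x y = l ⁅x, y⁆

/-- bracket of the one-dimensional central extension given by `ω` -/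
def ext (ω : L →ₗ[ℂ] L →ₗ[ℂ] ℂ) (p q : L × ℂ) : L × ℂ := (⁅p.1, q.1⁆, ω p.1 q.1)

end Pool.Agent.H21.TP
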