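import Pool.Agent.H21.TenDefs
import Pool.Agent.H21.ER2

namespace Pool.Agent.H21.ER

open Pool.Agent.H11.PT Finset

section abs
variable {d : ℕ} {t : Fin d → Fin d → Fin d → ℝ} {σ : ℝ}

def NN (x : Fin d → ℝ) : ℝ := ∑ i, x i ^ 2
def Tr (t : Fin d → Fin d → Fin d → ℝ) (x y z : Fin d → ℝ) : ℝ := ∑ i, ∑ j, ∑ k, t i j k * x i * y j * z k
def qq (t : Fin d → Fin d → Fin d → ℝ) (u : Fin d → ℝ) (k : Fin d) : ℝ := ∑ i, ∑ j, t i j k * u i * u j

lemma NN_nonneg (x : Fin d → ℝ) : 0 ≤ NN x := sum_nonneg fun _ _ => sq_nonneg _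
lemma NN_zero {x : Fin d → ℝ} (h : NN x = 0) : x = 0 := funext fun i => by
  simpa using (sum_eq_zero_iff_of_nonneg fun _ _ => sq_nonneg _).1 h i (mem_univ i)
lemma Tr_z (x y z : Fin d → ℝ) : Tr t x y z = ∑ k, (∑ i, ∑ j, t i j k * x i * y j) * z k := by
  simp only [Tr, sum_mul]
  rw [sum_congr rfl fun i _ => sum_comm, sum_comm]
lemma Tr_sq (u z : Fin d → ℝ) (hz : NN z = 1) : Tr t u u z ^ 2 ≤ NN (qq t u) := by
  rw [Tr_z, ← mul_one (NN _), ← hz]; exact sum_mul_sq_le_sq_mul_sq univ (qq t u) z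
lemma Tr_symm (h : ∀ i j k, t i j k = t j i k) (x y z : Fin d → ℝ) : Tr t x y z = Tr t y x z := by
  rw [Tr, sum_comm]
  exact sum_congr rfl fun i _ => sum_congr rfl fun j _ => sum_congr rfl fun k _ => by rw [h]; ring
lemma polar (h : ∀ i j k, t i j k = t j i k) (x y z : Fin d → ℝ) :
    4 * Tr t x y z = Tr t (x + y) (x + y) z - Tr t (x - y) (x - y) z ∧
    NN (x + y) + NN (x - y) = 2 * NN x + 2 * NN y := by
  constructor
  · rw [show 4 * Tr t x y z = 2 * Tr t x y z + 2 * Tr t y x z by rw [Tr_symm h y]; ring]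
    simp only [Tr, mul_sum, ← sum_add_distrib, ← sum_sub_distrib, Pi.add_apply, Pi.sub_apply]
    exact sum_congr rfl fun i _ => sum_congr rfl fun j _ => sum_congr rfl fun k _ => by ring
  · simp only [NN, mul_sum, ← sum_add_distrib, Pi.add_apply, Pi.sub_apply]
    exact sum_congr rfl fun i _ => by ring

lemma Tr_le (h : ∀ i j k, t i j k = t j i k) (hσ : 0 < σ) (H : ∀ u, NN (qq t u) ≤ (σ * NN u) ^ 2)
    (x y z : Fin d → ℝ) (hz : NN z = 1) : 2 * |Tr t x y z| ≤ σ * (NN x + NN y) := by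
  have a (u) := abs_le.1 (abs_le_of_sq_le_sq ((Tr_sq u z hz).trans (H u)) (mul_nonneg hσ.le (NN_nonneg u)))
  obtain ⟨p, q⟩ := polar h x y z
  have := a (x + y); have := a (x - y)
  rcases abs_cases (Tr t x y z) with e | e <;> nlinarith

lemma Tr_ge (h : ∀ i j k, t i j k = t j i k) (hσ : 0 < σ) {x y z : Fin d → ℝ} (hx : NN x = 1)
    (hy : NN y = 1) (hz : NN z = 1) (e : Tr t x y z = σ) : ∃ u, NN u ≠ 0 ∧ (σ * NN u) ^ 2 ≤ NN (qq t u) := by
  by_contra! H
  have a (u) (hu : NN u ≠ 0) := abs_lt.1 (abs_lt_of_sq_lt_sq ((Tr_sq u z hz).trans_lt (H u hu))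
    (mul_nonneg hσ.le (NN_nonneg u)))
  have b (u : Fin d → ℝ) (hu : NN u = 0) : Tr t u u z = 0 := by simp [NN_zero hu, Tr]
  obtain ⟨p, q⟩ := polar h x y z
  have := a (x + y); have := a (x - y); have := b (x + y); have := b (x - y)
  rw [hx, hy] at q
  have := congr(σ * $q)
  grind

lemma unit_ex {u : Fin d → ℝ} (hu : NN u ≠ 0) :
    ∃ x, NN x = 1 ∧ NN (qq t x) * NN u ^ 2 = NN (qq t u) := by
  have := (NN_nonneg u).lt_of_ne' hu
  have e : (√(NN u))⁻¹ ^ 2 = (NN u)⁻¹ := by rw [inv_pow, Real.sq_sqrt this.le]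
  refine ⟨(√(NN u))⁻¹ • u, ?_, ?_⟩
  · simp only [NN.eq_1 (_ • _), Pi.smul_apply, smul_eq_mul, mul_pow, e, ← mul_sum]
    exact inv_mul_cancel₀ hu
  · simp only [NN.eq_1 (qq _ _), sum_mul]
    refine sum_congr rfl fun k _ => ?_
    have : qq t ((√(NN u))⁻¹ • u) k = (NN u)⁻¹ * qq t u k := by
      simp only [qq, mul_sum, ← e, Pi.smul_apply, smul_eq_mul]
      exact sum_congr rfl fun i _ => sum_congr rfl fun j _ => by ring
    rw [this]; field_simp

lemma sing_of (h : ∀ i j k, t i j k = t j i k) (hσ : 0 < σ) (H : ∀ u, NN (qq t u) ≤ (σ * NN u) ^ 2)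
    {u : Fin d → ℝ} (hu : NN u ≠ 0) (e : NN (qq t u) = (σ * NN u) ^ 2) : ∃ x z, NN x = 1 ∧ NN z = 1 ∧
      (∀ i, ∑ j, ∑ k, t i j k * x j * z k = σ * x i) ∧ ∀ k, qq t x k = σ * z k := by
  obtain ⟨x, hx, h1⟩ := unit_ex (t := t) hu
  have h2 : NN (qq t x) = σ ^ 2 := mul_right_cancel₀ (pow_ne_zero 2 hu) (by rw [h1, e]; ring)
  have hz : NN (σ⁻¹ • qq t x) = 1 := by
    simp only [NN.eq_1 (_ • _), Pi.smul_apply, smul_eq_mul, mul_pow, ← mul_sum, ← NN.eq_1, h2]; field_simp
  refine ⟨x, _, hx, hz, ?_, fun k => by simp [hσ.ne']⟩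
  have h3 : Tr t x x (σ⁻¹ • qq t x) = σ := by
    have : ∑ k, qq t x k * (σ⁻¹ * qq t x k) = σ⁻¹ * NN (qq t x) := by
      rw [NN, mul_sum]; exact sum_congr rfl fun _ _ => by ring
    rw [Tr_z]; exact this.trans (by rw [h2]; field_simp)
  generalize σ⁻¹ • qq t x = z at *
  let a := fun i => ∑ j, ∑ k, t i j k * x j * z k
  have ha (w : Fin d → ℝ) : Tr t w x z = ∑ i, a i * w i := by
    simp only [Tr, a, sum_mul]
    exact sum_congr rfl fun i _ => sum_congr rfl fun j _ => sum_congr rfl fun k _ => by ring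
  have h4 := (mul_le_mul_of_nonneg_left (le_abs_self _) zero_le_two).trans (Tr_le h hσ H (σ⁻¹ • a) x z hz)
  have h5 : NN (a - σ • x) = NN a - 2 * σ * (∑ i, a i * x i) + σ ^ 2 * NN x := by
    simp only [NN, mul_sum, ← sum_add_distrib, ← sum_sub_distrib, Pi.sub_apply, Pi.smul_apply, smul_eq_mul]
    exact sum_congr rfl fun i _ => by ring
  have h6 : ∑ i, a i * (σ⁻¹ • a) i = σ⁻¹ * NN a := by
    rw [NN, mul_sum]; exact sum_congr rfl fun _ _ => by simp; ring
  have h7 : NN (σ⁻¹ • a) = σ⁻¹ ^ 2 * NN a := by simp only [NN, Pi.smul_apply, smul_eq_mul, mul_pow, mul_sum]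
  rw [ha, h6, h7, hx] at h4
  rw [← ha, h3, hx] at h5
  have h8 : NN a ≤ σ ^ 2 := by field_simp at h4; linarith
  exact fun i => sub_eq_zero.1 (congrFun (NN_zero (le_antisymm (by linarith) (NN_nonneg (a - σ • x)))) i)

lemma exceed_of {u : Fin d → ℝ} (e : (σ * NN u) ^ 2 < NN (qq t u)) :
    ∃ x z, NN x = 1 ∧ NN z = 1 ∧ σ < Tr t x x z := by
  have hu : NN u ≠ 0 := fun h => by simp [NN_zero h, NN, qq] at e
  obtain ⟨x, hx, h1⟩ := unit_ex (t := t) hu
  have h2 : σ ^ 2 < NN (qq t x) := lt_of_mul_lt_mul_right (by rw [h1, ← mul_pow]; exact e) (sq_nonneg (NN u))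
  have h3 : 0 < NN (qq t x) := by nlinarith
  refine ⟨x, (√(NN (qq t x)))⁻¹ • qq t x, hx, ?_, ?_⟩
  · simp only [NN.eq_1 (_ • _), Pi.smul_apply, smul_eq_mul, mul_pow, ← mul_sum, ← NN.eq_1, inv_pow,
      Real.sq_sqrt h3.le]; field_simp
  · have : ∑ k, qq t x k * ((√(NN (qq t x)))⁻¹ * qq t x k) = (√(NN (qq t x)))⁻¹ * NN (qq t x) := by
      rw [NN.eq_1 (qq t x), mul_sum]; exact sum_congr rfl fun _ _ => by ring
    rw [Tr_z]; refine lt_of_lt_of_eq ?_ this.symm
    rw [inv_mul_eq_div, Real.div_sqrt]; exact Real.lt_sqrt_of_sq_lt h2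
end abs

def toB (n : ℕ) : List Bool := ((List.range n).map fun i => (fun m => m / 2)^[i] n % 2 == 1).reverse

@[fun_prop] theorem toB_pt : PT toB := by
  refine PT.reverse (PT.map (by fun_prop) (PT.beq (PT.mod ?_ (by fun_prop)) (by fun_prop)))
  exact PT.iterate_add (g := fun _ m => m / 2) (by fun_prop) (by fun_prop) (by fun_prop)
    (fun _ => ()) 0 (by fun_prop) (fun _ c => by simp; omega)

@[simp] theorem bin_toB (n : ℕ) : bin (toB n) = n := by
  have : ∀ k m, m < 2 ^ k →
      bin ((List.range k).map fun i => (fun m => m / 2)^[i] m % 2 == 1).reverse = m := by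
    intro k
    induction k with
    | zero => intro m h; simp [bin] at h ⊢; omega
    | succ k ih =>
      intro m h
      have := ih (m / 2) (by omega)
      simp only [List.range_succ_eq_map, List.map_cons, List.map_map, Function.comp_def,
        Function.iterate_succ_apply, bin, List.reverse_cons, List.foldl_append] at this ⊢
      rw [this]
      rcases Nat.mod_two_eq_zero_or_one m with h | h <;> simp [h] <;> omega
  exact this n n Nat.lt_two_pow_self

abbrev Row := List (Bool × ℕ × ℕ)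
def ind (m : ℕ × ℕ) (i j : ℕ) : ℕ := (if (i, j) = m then 1 else 0) + if (j, i) = m then 1 else 0
def cnt (b : Bool) (r : Row) (i j : ℕ) : ℕ := (r.map fun m => if m.1 = b then ind m.2 i j else 0).sum
def code (p q : ℕ) : QC := if q ≤ p then (false, toB (p - q), [true]) else (true, toB (q - p), [true])
def tab (d : ℕ) (R : List Row) : List (List (List QC)) := (List.range d).map fun i => (List.range d).map
  fun j => (List.range d).map fun k => code (cnt false (R.getD k []) i j) (cnt true (R.getD k []) i j)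
def Row.Q (x : ℕ → ℝ) (r : Row) : ℝ := (r.map fun m => (bif m.1 then -1 else 1) * (x m.2.1 * x m.2.2)).sum

theorem tab_pt : PT fun p : ℕ × List Row => tab p.1 p.2 := by unfold tab code cnt ind; fun_prop

lemma qv_code (p q : ℕ) : qv (code p q) = p - q := by
  simp only [code]; split_ifs with h <;> simp [qv, bin.eq_1 [true], Nat.cast_sub, (not_le.1 _).le, *]

lemma tab_shape (d : ℕ) (R : List Row) : Shape d (tab d R) := by
  simp only [Shape, tab, List.forall_mem_map, code]
  simp only [List.length_map, List.length_range, true_and]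
  intros; split_ifs <;> simp [bin]

lemma ent_tab {d : ℕ} (R : List Row) (i j k : Fin d) :
    ent (tab d R) i j k = cnt false (R.getD k []) i j - cnt true (R.getD k []) i j := by
  simp [ent, tab, qv_code]

lemma tab_symm {d : ℕ} (R : List Row) (i j k : Fin d) : ent (tab d R) i j k = ent (tab d R) j i k := by
  simp only [ent_tab, cnt, ind, add_comm]

lemma sum_getD {α : Type} {f : α → ℝ} {a : α} (h : f a = 0) (R : List α) {d : ℕ} (hd : R.length ≤ d) :
    ∑ k : Fin d, f (R.getD k a) = (R.map f).sum := by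
  induction d generalizing R with
  | zero => simp_all
  | succ d ih => cases R <;> simp_all [Fin.sum_univ_succ, ← ih]

lemma qq_tab {d : ℕ} (R : List Row) (hd : R.length ≤ d) (u : Fin d → ℝ) :
    NN (qq (fun i j k : Fin d => ent (tab d R) i j k) u) = 4 * (R.map fun r => r.Q (ext u) ^ 2).sum := by
  have one (a b : ℕ) : ∑ i : Fin d, ∑ j : Fin d, (if (i.1, j.1) = (a, b) then u i * u j else 0) =
      ext u a * ext u b := by
    have (a : ℕ) : ext u a = ∑ i : Fin d, if i.1 = a then u i else 0 := by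
      simp only [ext]; split_ifs with h
      · rw [sum_eq_single ⟨a, h⟩] <;> simp; grind
      · exact (sum_eq_zero fun i _ => if_neg (by omega)).symm
    simp only [this, sum_mul_sum]
    exact sum_congr rfl fun i _ => sum_congr rfl fun j _ => by grind
  have two (m : ℕ × ℕ) : ∑ i : Fin d, ∑ j : Fin d, (ind m i j : ℝ) * u i * u j = 2 * (ext u m.1 * ext u m.2) := by
    rw [two_mul, ← one, sum_comm (f := fun i j : Fin d => if (i.1, j.1) = _ then _ else _)]
    nth_rewrite 2 [sum_comm]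
    simp only [← sum_add_distrib, ind]
    exact sum_congr rfl fun i _ => sum_congr rfl fun j _ => by split_ifs <;> simp <;> ring
  have (r : Row) : ∑ i : Fin d, ∑ j : Fin d, ((cnt false r i j : ℝ) - cnt true r i j) * u i * u j =
      2 * r.Q (ext u) := by
    induction r with
    | nil => simp [cnt, Row.Q]
    | cons m r ih =>
      simp only [Row.Q, List.map_cons, List.sum_cons] at ih ⊢
      rw [mul_add, mul_left_comm]
      simp only [← ih, ← two, mul_sum, ← sum_add_distrib, cnt, List.map_cons, List.sum_cons]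
      exact sum_congr rfl fun i _ => sum_congr rfl fun j _ => by cases m.1 <;> simp <;> ring
  rw [← sum_getD (a := []) (by simp [Row.Q]) R hd, NN, mul_sum]
  exact sum_congr rfl fun k _ => by simp only [qq, ent_tab, this]; ring

end Pool.Agent.H21.ER
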