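import Pool.Agent.H21.Ten1

namespace Pool.Agent.H21.ER

open Pool.Agent.H11.PT Finset

abbrev H3 := (ℕ × ℕ) × (ℕ × ℕ) × ℕ × ℕ
def mv (x : ℕ → ℝ) (m : ℕ × ℕ) : ℝ := x m.1 * x m.2
def H3.q (x : ℕ → ℝ) (h : H3) : ℝ := mv x h.1 + mv x h.2.1 - mv x h.2.2
def FF (H : List H3) (x : ℕ → ℝ) : ℝ := (H.map fun h => h.q x ^ 2).sum
def Bd (D : ℕ) (H : List H3) : Prop := ∀ h ∈ H, h.1.1 < D ∧ h.1.2 < D ∧ h.2.1.1 < D ∧ h.2.1.2 < D ∧
  h.2.2.1 < D ∧ h.2.2.2 < D
def SS (D : ℕ) (x : ℕ → ℝ) : ℝ := ∑ i ∈ range D, x i ^ 2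
def off (D : ℕ) (m : ℕ × ℕ) : List Row := (List.range D).flatMap fun i => (List.range D).map fun j =>
  if (i, j) = m then [] else [(false, i, j)]
def rows (D : ℕ) (H : List H3) : List Row := (H.flatMap fun h => [(false, h.1), (true, h.2.1)] ::
  [(false, h.1), (false, h.2.2)] :: [(false, h.2.1), (false, h.2.2)] ::
  (List.replicate 3 (off D h.1 ++ (off D h.2.1 ++ off D h.2.2))).flatten) ++
  (List.replicate (9 * H.length * (H.length - 1)) (off D (D, D))).flatten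
def sqs (R : List Row) (x : ℕ → ℝ) : ℝ := (R.map fun r => r.Q x ^ 2).sum

theorem rows_pt : PT fun p : ℕ × List H3 => rows p.1 p.2 := by unfold rows off; fun_prop

variable {D : ℕ} {H : List H3} {x : ℕ → ℝ}

lemma sum_rng (f : ℕ → ℝ) (n : ℕ) : ((List.range n).map f).sum = ∑ i ∈ range n, f i := by
  induction n <;> simp_all [List.range_succ, sum_range_succ]
lemma sqs_app (R R' : List Row) : sqs (R ++ R') x = sqs R x + sqs R' x := by simp [sqs]
lemma sqs_rep (n : ℕ) (R : List Row) : sqs (List.replicate n R).flatten x = n * sqs R x := by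
  induction n <;> simp_all [List.replicate_succ, sqs_app, add_mul, add_comm, sqs.eq_1 []]
lemma sqs_flat {α : Type} (l : List α) (f : α → List Row) :
    sqs (l.flatMap f) x = (l.map fun a => sqs (f a) x).sum := by
  induction l <;> simp_all [sqs_app, sqs.eq_1 []]
lemma sqs_off (m : ℕ × ℕ) : sqs (off D m) x = SS D x ^ 2 - if m.1 < D ∧ m.2 < D then mv x m ^ 2 else 0 := by
  have : (if m.1 < D ∧ m.2 < D then mv x m ^ 2 else 0) =
      ∑ i ∈ range D, ∑ j ∈ range D, if (i, j) = m then mv x m ^ 2 else 0 := by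
    rw [← sum_product', sum_ite_eq']; simp
  rw [off, sqs_flat, sum_rng, this, SS, sq (∑ _ ∈ _, _), sum_mul_sum, ← sum_sub_distrib]
  refine sum_congr rfl fun i _ => ?_
  rw [sqs, List.map_map, sum_rng, ← sum_sub_distrib]
  refine sum_congr rfl fun j _ => ?_
  by_cases h : (i, j) = m
  · simp [← h, Row.Q, mv, mul_pow]
  · simp [h, Row.Q, mul_pow]

lemma sqs_rows (hb : Bd D H) : sqs (rows D H) x = (3 * H.length * SS D x) ^ 2 - FF H x := by
  rw [rows, sqs_app, sqs_rep, sqs_off, sqs_flat,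
    List.map_congr_left (g := fun h => 9 * SS D x ^ 2 + -1 * h.q x ^ 2) fun h hh => ?_]
  · rw [List.sum_map_add, List.sum_map_mul_left (r := -1), ← FF]
    cases H <;> simp; ring
  · have := hb h hh
    have e := sqs_rep (x := x) 3 (off D h.1 ++ (off D h.2.1 ++ off D h.2.2))
    simp only [sqs_app, sqs_off, this, and_self, if_true] at e
    simp only [sqs, List.map_cons, List.sum_cons] at e ⊢
    rw [e]; simp [Row.Q, H3.q, mv]; ring

lemma FF_nonneg : 0 ≤ FF H x := List.sum_nonneg (List.forall_mem_map.2 fun _ _ => sq_nonneg _)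
lemma FF_mem {h : H3} (hh : h ∈ H) : h.q x ^ 2 ≤ FF H x :=
  List.single_le_sum (List.forall_mem_map.2 fun _ _ => sq_nonneg _) _ (List.mem_map.2 ⟨h, hh, rfl⟩)
lemma FF_zero : FF H x = 0 ↔ ∀ h ∈ H, h.q x = 0 :=
  ⟨fun e h hh => pow_eq_zero_iff two_ne_zero |>.1 (le_antisymm (e ▸ FF_mem hh) (sq_nonneg _)),
    fun e => List.sum_eq_zero (List.forall_mem_map.2 fun h hh => by simp [e h hh])⟩
lemma FF_congr (hb : Bd D H) {y : ℕ → ℝ} (h : ∀ i < D, x i = y i) : FF H x = FF H y :=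
  congrArg List.sum (List.map_congr_left fun a ha => by have := hb a ha; simp [H3.q, mv, h, this])

lemma SS_ext {d : ℕ} (u : Fin d → ℝ) : SS d (ext u) = NN u := by simp [SS, NN, sum_range, ext]
lemma SS_le {d : ℕ} (h : D ≤ d) (u : Fin d → ℝ) : 0 ≤ SS D (ext u) ∧ SS D (ext u) ≤ NN u :=
  ⟨sum_nonneg fun _ _ => sq_nonneg _, SS_ext u ▸ sum_le_sum_of_subset_of_nonneg (range_mono h)
    fun _ _ _ => sq_nonneg _⟩
lemma cut {d : ℕ} (h : D ≤ d) (x : ℕ → ℝ) : ∃ u : Fin d → ℝ, (∀ i < D, ext u i = x i) ∧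
    NN u = SS D x ∧ SS D (ext u) = SS D x := by
  have a : ∀ i < D, ext (fun i : Fin d => if i.1 < D then x i else 0) i = x i := fun i hi => by
    simp [ext, hi, hi.trans_le h]
  have b := sum_congr rfl (g := fun i => x i ^ 2) fun i hi => congrArg (· ^ 2) (a i (mem_range.1 hi))
  refine ⟨_, a, ?_, b⟩
  rw [← SS_ext, SS, SS, ← b]
  exact (sum_subset (range_mono h) fun i _ hi => by simp_all [ext]).symm

theorem tsv_iff (hb : Bd D H) (hH : H ≠ []) {d : ℕ} (h1 : D ≤ d) (h2 : (rows D H).length ≤ d) :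
    SingVal d (tab d (rows D H)) (6 * H.length) ↔ ∃ x, SS D x ≠ 0 ∧ FF H x = 0 := by
  have hσ : (0 : ℝ) < 6 * H.length := by have := List.length_pos_iff.2 hH; positivity
  have e (u) := qq_tab _ h2 u
  simp only [← sqs.eq_1, sqs_rows hb] at e
  have m (u : Fin d → ℝ) := mul_le_mul_of_nonneg_left (SS_le h1 u).2 hσ.le
  have m' (u : Fin d → ℝ) := pow_le_pow_left₀ (mul_nonneg hσ.le (SS_le h1 u).1) (m u) 2
  constructor
  · rintro ⟨x, y, z, hx, hy, hz, -, -, h⟩
    obtain ⟨u, hu, h3⟩ := Tr_ge (tab_symm (rows D H)) hσ hx hy hz (by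
      simp only [Tr_z, h]; simp only [mul_assoc, ← mul_sum, ← sq, hz, mul_one])
    have := FF_nonneg (H := H) (x := ext u)
    have := m' u
    refine ⟨ext u, fun c => ?_, by rw [e] at h3; nlinarith⟩
    rw [e, c] at h3
    nlinarith [pow_pos (mul_pos hσ ((NN_nonneg u).lt_of_ne' hu)) 2]
  · rintro ⟨x, h3, h4⟩
    obtain ⟨u, a, b, c⟩ := cut h1 x
    obtain ⟨x, z, hx, hz, h5, h6⟩ := sing_of (tab_symm (rows D H)) hσ
      (fun u => by rw [e]; nlinarith [m' u, FF_nonneg (H := H) (x := ext u)]) (b ▸ h3)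
      (by rw [e, FF_congr hb a, h4, b, c]; ring)
    exact ⟨x, x, z, hx, hx, hz, h5, fun j => by simpa only [tab_symm _ _ j] using h5 j, h6⟩

theorem spec_iff (hb : Bd D H) (hH : H ≠ []) {m : ℕ × ℕ} (hm : m.1 < D ∧ m.2 < D) {d : ℕ} (h1 : D ≤ d)
    (h2 : (rows D H).length + 1 ≤ d) :
    ¬SpecLe d (tab d ([(false, m)] :: rows D H)) (6 * H.length) ↔ ∃ x, FF H x < mv x m ^ 2 := by
  have hσ : (0 : ℝ) < 6 * H.length := by have := List.length_pos_iff.2 hH; positivity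
  have e (u) := qq_tab ([(false, m)] :: rows D H) h2 u
  simp only [List.map_cons, List.sum_cons, ← sqs.eq_1, sqs_rows hb] at e
  simp only [Row.Q, List.map_cons, List.map_nil, List.sum_cons, List.sum_nil, cond_false, one_mul,
    add_zero, ← mv.eq_1] at e
  have m1 (u : Fin d → ℝ) := mul_le_mul_of_nonneg_left (SS_le h1 u).2 hσ.le
  have m' (u : Fin d → ℝ) := pow_le_pow_left₀ (mul_nonneg hσ.le (SS_le h1 u).1) (m1 u) 2
  constructor
  · intro h
    by_contra! c
    refine h fun x y z hx hy hz => ?_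
    have := Tr_le (tab_symm ([(false, m)] :: rows D H)) hσ
      (fun u => by rw [e]; nlinarith [m' u, c (ext u)]) x y z hz
    rw [show NN x = 1 from hx, show NN y = 1 from hy, Tr] at this
    linarith
  · rintro ⟨x, h3⟩ h
    obtain ⟨u, a, b, c⟩ := cut h1 x
    obtain ⟨x, z, hx, hz, h5⟩ := exceed_of (σ := 6 * H.length) (u := u)
      (by rw [e, FF_congr hb a, b, c, mv, a _ hm.1, a _ hm.2, ← mv]; linarith)
    exact (h5.trans_le (le_abs_self _)).not_ge (h x x z hx hx hz)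

end Pool.Agent.H21.ER
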