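import Pool.Agent.H21.Ten2
import Pool.Agent.H21.Ball2

namespace Pool.Agent.H21.ER

open Pool.Agent.H11.PT Pool.Agent.H21.Ball Finset

lemma P_ext {n : ℕ} (i : ℕ) : P 1 1 fun x : Fin n → ℝ => ext x i := by
  unfold ext; split_ifs
  exacts [P.var _, P.zero]

def mm (cs : List Con) : ℕ := 3 * nv cs + cs.length * 9 + 7

/-- a solvable system has a solution of doubly exponential size -/
theorem am_ball {cs : List Con} {A : ℕ → ℝ} (h : AM cs A) :
    ∃ B, AM cs B ∧ ∀ i, |B i| ≤ 2 ^ 2 ^ mm cs := by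
  have hP : P 4 (cs.length * 9) fun x : Fin (nv cs) → ℝ => (cs.map fun c => c.q (ext x) ^ 2).sum :=
    P.sum _ fun c _ => P.pow (d := 2) (N := 3) (by
      simp only [Con.q, sub_eq_add_neg]; split_ifs
      · exact (((P_ext _).add (P_ext _)).add (P_ext _).neg).le (by omega) le_rfl
      · exact (((P_ext _).mul (P_ext _)).add ((P_ext _).neg.le (by omega) le_rfl)).le le_rfl (by omega)
      · exact ((P_ext _).add (P.one.neg.le (by omega) le_rfl)).le (by omega) (by omega)) 2
  have h0 := sum_sq_zero.2 (am_ext le_rfl h)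
  obtain ⟨x, h1, h2⟩ := min_small hP (z := fun i => A i) fun x => by
    rw [h0]; exact List.sum_nonneg (List.forall_mem_map.2 fun _ _ => sq_nonneg _)
  exact ⟨ext x, sum_sq_zero.1 (h1.trans h0), fun i => (h2 _ ((P_ext i).le (by omega) (by omega))).1⟩

def slack (J : ℕ) : List H3 := (List.range J).map fun j => ((2 * j, 2 * j), (2 * j + 1, 2 * j + 1), (0, 0))
def h3 (m : ℕ) (cs : List Con) : List H3 := ((2, 0), (2, 0), (0, 0)) :: slack (m + 2 + nv cs) ++
  ((List.range m).map (fun i => ((2 * (i + 1), 2 * (i + 1)), (1, 1), (2 * (i + 2), 0))) ++ cs.map fun c =>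
    if c.1 = 0 then ((2 * (m + 2 + c.2.1), 0), (2 * (m + 2 + c.2.2.1), 0), (2 * (m + 2 + c.2.2.2), 0))
    else if c.1 = 1 then
      ((2 * (m + 2 + c.2.1), 2 * (m + 2 + c.2.2.1)), (1, 1), (2 * (m + 2 + c.2.2.2), 2 * (m + 1)))
    else ((2 * (m + 2 + c.2.2.2), 0), (1, 1), (2 * (m + 1), 0)))
def HH (φ : Qf) : List H3 := h3 (mm (am φ.post)) (am φ.post)
def DD (φ : Qf) : ℕ := 2 * (mm (am φ.post) + 2 + nv (am φ.post))

@[fun_prop] theorem HH_pt : PT HH := by unfold HH h3 slack mm; fun_prop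
@[fun_prop] theorem DD_pt : PT DD := by unfold DD mm; fun_prop

lemma HH_bd (φ : Qf) : Bd (DD φ) (HH φ) := by
  simp only [Bd, HH, DD, h3, slack, List.forall_mem_cons, List.forall_mem_append, List.forall_mem_map,
    List.mem_range]
  refine ⟨⟨by omega, fun _ _ => by omega⟩, fun _ _ => by omega, fun c hc => ?_⟩
  have := lt_nv hc
  split_ifs <;> simp only <;> omega

lemma HH_slack (φ : Qf) {i : ℕ} (hi : i < DD φ) (x : ℕ → ℝ) : x i ^ 2 ≤ x 0 ^ 2 + √(FF (HH φ) x) := by
  have : ((2 * (i / 2), 2 * (i / 2)), (2 * (i / 2) + 1, 2 * (i / 2) + 1), (0, 0)) ∈ HH φ := by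
    simp only [HH, h3, slack, DD, List.mem_append, List.mem_cons, List.mem_map, List.mem_range] at *
    exact .inl (.inr ⟨i / 2, by omega, rfl⟩)
  have := Real.le_sqrt_of_sq_le (FF_mem (x := x) this)
  simp only [H3.q, mv] at this
  obtain h | h : 2 * (i / 2) = i ∨ 2 * (i / 2) + 1 = i := by omega
  · rw [h] at this; nlinarith [mul_self_nonneg (x (i + 1))]
  · rw [h] at this; nlinarith [mul_self_nonneg (x (2 * (i / 2)))]

theorem HH_iff (φ : Qf) : ETR φ ↔ ∃ x, x 0 ≠ 0 ∧ FF (HH φ) x = 0 := by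
  simp only [etr_iff, FF_zero, HH, h3, slack, List.forall_mem_cons, List.forall_mem_append,
    List.forall_mem_map, List.mem_range]
  generalize am φ.post = cs
  constructor
  · rintro ⟨A, h⟩
    obtain ⟨B, h, hB⟩ := am_ball h
    generalize mm cs = m at *
    let v : ℕ → ℝ := fun j => if j = 0 then 1 else if j < m + 2 then (2 ^ 2 ^ (j - 1))⁻¹ else
      (2 ^ 2 ^ m)⁻¹ * B (j - (m + 2))
    have hv (j) : v j * v j ≤ 1 := by
      rw [← abs_le_one_iff_mul_self_le_one]
      simp only [v]; split_ifs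
      · simp
      · rw [abs_of_pos (by positivity)]; exact inv_le_one_of_one_le₀ (one_le_pow₀ one_le_two)
      · rw [abs_mul, abs_of_pos (by positivity), inv_mul_le_one₀ (by positivity)]; exact hB _
    let x : ℕ → ℝ := fun i => if i % 2 = 0 then v (i / 2) else √(1 - v (i / 2) * v (i / 2))
    have e (j) : x (2 * j) = v j := by simp [x]
    have e0 : x 0 = 1 := e 0
    have e1 : x 1 = 0 := by simp [x, v]
    have e2 (j) : x (2 * (m + 2 + j)) = (2 ^ 2 ^ m)⁻¹ * B j := by rw [e]; simp [v]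
    have e3 (j) (h : j ≤ m) : x (2 * (j + 1)) = (2 ^ 2 ^ j)⁻¹ := by rw [e]; simp [v]; omega
    refine ⟨x, by simp [e0], ⟨?_, fun j _ => ?_⟩, fun j hj => ?_, fun c hc => ?_⟩
    · simp [H3.q, mv, e0, show x 2 = _ from e3 0 m.zero_le]; norm_num
    · simp only [H3.q, mv, e0, e]
      simp [x, show (2 * j + 1) / 2 = j by omega, Real.mul_self_sqrt (sub_nonneg.2 (hv j))]
    · simp only [H3.q, mv, e0, e1, e3 j hj.le, e3 (j + 1) hj, pow_succ 2 j, pow_mul]; ring
    · have := h c hc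
      simp only [Con.ok] at this
      split_ifs at this ⊢ <;> simp only [H3.q, mv, e0, e1, e2, e3 m le_rfl] <;> grind
  · rintro ⟨x, h0, ⟨h1, h2⟩, h3, h4⟩
    generalize mm cs = m at *
    have e1 : x 1 = 0 := by simpa [H3.q, mv] using h2 0 (by omega)
    have e3 (j) (h : j ≤ m) : x (2 * (j + 1)) ≠ 0 := by
      induction j with
      | zero => intro c; simp_all [H3.q, mv]
      | succ j ih => intro c; have := h3 j h; simp_all [H3.q, mv]; omega
    have := e3 m le_rfl
    refine ⟨fun i => x (2 * (m + 2 + i)) / x (2 * (m + 1)), fun c hc => ?_⟩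
    have := h4 c hc
    simp only [Con.ok]
    split_ifs at this ⊢ <;> simp only [H3.q, mv, e1] at this <;> field_simp <;> grind

def tred (φ : Qf) : ℕ × List (List (List QC)) × QC :=
  (DD φ + (rows (DD φ) (HH φ)).length, tab (DD φ + (rows (DD φ) (HH φ)).length) (rows (DD φ) (HH φ)),
    (false, toB (6 * (HH φ).length), [true]))

theorem tred_pt : PT tred := by
  have h : PT fun φ => rows (DD φ) (HH φ) := rows_pt.comp (g := fun φ => (DD φ, HH φ)) (by fun_prop)
  exact PT.pair (by fun_prop) (PT.pair (tab_pt.comp (g := fun φ => (DD φ + (rows (DD φ) (HH φ)).length,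
    rows (DD φ) (HH φ))) (by fun_prop)) (by fun_prop))

lemma qv_nat (n : ℕ) : qv (false, toB n, [true]) = n := by simp [qv, bin.eq_1 [true]]
lemma HH_ne (φ : Qf) : HH φ ≠ [] := by simp [HH, h3]

theorem tred_iff (φ : Qf) : ETR φ ↔ SingVal (tred φ).1 (tred φ).2.1 (qv (tred φ).2.2) := by
  simp only [tred, qv_nat, Nat.cast_mul, Nat.cast_ofNat]
  rw [tsv_iff (HH_bd φ) (HH_ne φ) (by omega) (by omega), HH_iff]
  refine exists_congr fun x => and_congr_left fun h => not_congr ⟨fun e => ?_, fun e => ?_⟩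
  · exact sum_eq_zero fun i hi => le_antisymm (by simpa [e, h] using HH_slack φ (mem_range.1 hi) x) (sq_nonneg _)
  · simpa using (sum_eq_zero_iff_of_nonneg fun _ _ => sq_nonneg _).1 e 0 (by simp [DD])

end Pool.Agent.H21.ER
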