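import Pool.Agent.H21.Ten3

namespace Pool.Agent.H21.ER

open Pool.Agent.H11.PT Pool.Agent.H21.Ball Finset

def kk (φ : Qf) : ℕ := 3 * DD φ + ((HH φ).length * 9 + 4) + 7

theorem gap (φ : Qf) {x : ℕ → ℝ} (h0 : x 0 = 1) (h : FF (HH φ) x < (2 ^ 2 ^ kk φ)⁻¹) : ETR φ := by
  have D0 : 0 < DD φ := by simp [DD]
  let f := fun y : Fin (DD φ) → ℝ => FF (HH φ) (ext y) + (ext y 0 + -1) ^ 2
  have hP : P 4 ((HH φ).length * 9 + 4) f := (P.sum _ fun c _ => P.pow (d := 2) (N := 3) (by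
    simp only [H3.q, mv, sub_eq_add_neg]
    exact (((P_ext _).mul (P_ext _)).add ((P_ext _).mul (P_ext _))).add ((P_ext _).mul (P_ext _)).neg) 2).add
    ((((P_ext 0).add (P.one.neg.le (by omega) le_rfl)).pow 2).le (by omega) le_rfl)
  have hx : f (fun i => x i) = FF (HH φ) x := by
    simp only [f]; rw [FF_congr (HH_bd φ) (y := x) fun i hi => by simp [ext, hi]]; simp [ext, D0, h0]
  have h1 : ((2 : ℝ) ^ 2 ^ kk φ)⁻¹ ≤ 1 := inv_le_one_of_one_le₀ (one_le_pow₀ one_le_two)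
  have hb (y) (hy : f y ≤ 1) : y ∈ Metric.closedBall 0 3 := by
    rw [mem_closedBall_zero_iff, pi_norm_le_iff_of_nonneg (by norm_num)]
    intro i
    have a := HH_slack φ i.2 (ext y)
    have b := FF_nonneg (H := HH φ) (x := ext y)
    have c : √(FF (HH φ) (ext y)) ≤ 1 := Real.sqrt_le_one.2 (by
      simp only [f] at hy; linarith [sq_nonneg (ext y 0 + -1)])
    have d : (ext y 0 + -1) ^ 2 ≤ 1 := by simp only [f] at hy; linarith
    have e : ext y i = y i := by simp [ext]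
    have := abs_le.1 ((sq_le_one_iff_abs_le_one _).1 d)
    rw [e] at a
    exact abs_le_of_sq_le_sq (by nlinarith) (by norm_num)
  obtain ⟨z, -, hz⟩ := (isCompact_closedBall (0 : Fin (DD φ) → ℝ) 3).exists_isMinOn
    ⟨_, hb (fun i => x i) (by linarith)⟩ hP.cont.continuousOn
  have h2 : f z ≤ FF (HH φ) x := hx ▸ hz (hb (fun i => x i) (by linarith))
  obtain ⟨y, h3, h4⟩ := min_small hP (z := z) fun y => by
    by_cases c : f y ≤ 1
    · exact hz (hb y c)
    · linarith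
  have b := FF_nonneg (H := HH φ) (x := ext y)
  have h5 : f y = 0 := by
    by_contra c
    have p : 0 < f y := (add_nonneg b (sq_nonneg _)).lt_of_ne' c
    have := (h4 f (hP.le le_rfl (by omega))).2 c
    rw [abs_of_pos (inv_pos.2 p), inv_le_comm₀ p (pow_pos two_pos _)] at this
    exact (this.trans (h3.le.trans h2)).not_gt h
  rw [add_eq_zero_iff_of_nonneg b (sq_nonneg _)] at h5
  exact (HH_iff φ).2 ⟨_, fun c => by simp [c] at h5, h5.1⟩

def chain (D k : ℕ) : List H3 := ((D, 0), (D, 0), (0, 0)) :: ((D + k, D + k), (1, 1), (1, 1)) ::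
  (List.range k).map fun i => ((D + i, D + i), (1, 1), (D + (i + 1), 0))
def H2 (φ : Qf) : List H3 := (List.replicate 64 (HH φ ++ chain (DD φ) (kk φ))).flatten

lemma FF_H2 (φ : Qf) (x : ℕ → ℝ) : FF (H2 φ) x = 64 * (FF (HH φ) x + FF (chain (DD φ) (kk φ)) x) := by
  simp only [FF, H2, List.map_flatten, List.sum_flatten, List.map_replicate, List.sum_replicate]; simp [mul_add]
lemma FF_smul (H : List H3) (c : ℝ) (x : ℕ → ℝ) : FF H (c • x) = c ^ 4 * FF H x := by
  simp only [FF, ← List.sum_map_mul_left]; congr 2; ext h; simp [H3.q, mv]; ring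
lemma zeta (φ : Qf) (x : ℕ → ℝ) : (x 1 * x 1) ^ 2 ≤ FF (HH φ) x := by
  simpa [H3.q, mv] using FF_mem (x := x) (show ((0, 0), (1, 1), (0, 0)) ∈ HH φ by
    simp only [HH, h3, slack, List.mem_append, List.mem_cons, List.mem_map, List.mem_range]
    exact .inl (.inr ⟨0, by omega, rfl⟩))

theorem H2_iff (φ : Qf) : ETR φ ↔ ∃ x, FF (H2 φ) x < mv x (0, DD φ + kk φ) ^ 2 := by
  have D0 : 1 < DD φ := by simp only [DD]; omega
  have k2 : 2 ≤ kk φ := by simp only [kk]; omega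
  constructor
  · intro h
    obtain ⟨x, h0, h⟩ := (HH_iff φ).1 h
    let y : ℕ → ℝ := fun i => if i < DD φ then x i else x 0 * (2 ^ 2 ^ (i - DD φ))⁻¹
    have e (i) : y (DD φ + i) = x 0 * (2 ^ 2 ^ i)⁻¹ := by simp [y]
    have e0 : y 0 = x 0 := if_pos (by omega)
    have e1 : y 1 = 0 := by simpa [h, y, D0] using zeta φ x
    have : FF (chain (DD φ) (kk φ)) y = (x 0 * (2 ^ 2 ^ kk φ)⁻¹) ^ 4 := by
      simp only [FF, chain, List.map_cons, List.sum_cons]
      rw [List.sum_eq_zero (List.forall_mem_map.2 (List.forall_mem_map.2 fun i _ => by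
        simp only [H3.q, mv, e, e0, e1, pow_succ 2 i, pow_mul]; ring))]
      simp only [H3.q, mv, e, e0, e1, show y (DD φ) = _ from e 0]; ring
    refine ⟨y, ?_⟩
    rw [FF_H2, this, FF_congr (HH_bd φ) (y := x) fun i hi => if_pos hi, h, mv, e, e0]
    have : ((2 : ℝ) ^ 2 ^ kk φ)⁻¹ ≤ (2 ^ 2 ^ 2)⁻¹ := by gcongr <;> norm_num
    have p : (0 : ℝ) < (2 ^ 2 ^ kk φ)⁻¹ := by positivity
    generalize ((2 : ℝ) ^ 2 ^ kk φ)⁻¹ = g at *
    have : 0 < (x 0 * (x 0 * g)) ^ 2 := by positivity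
    nlinarith [mul_lt_mul_of_pos_left (show 64 * g ^ 2 < 1 by nlinarith) this]
  · rintro ⟨x, h⟩
    have h0 : x 0 ≠ 0 := fun c => by simpa [mv, c] using FF_nonneg.trans_lt h
    obtain ⟨y, e0, h⟩ : ∃ y : ℕ → ℝ, y 0 = 1 ∧ FF (H2 φ) y < y (DD φ + kk φ) ^ 2 := by
      refine ⟨(x 0)⁻¹ • x, by simp [h0], ?_⟩
      rw [FF_smul]
      refine (mul_lt_mul_of_pos_left h (by positivity)).trans_eq ?_
      simp [mv]; field_simp
    rw [FF_H2, ← sq_abs] at h
    have a := FF_nonneg (H := HH φ) (x := y)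
    have b := FF_nonneg (H := chain (DD φ) (kk φ)) (x := y)
    obtain ⟨e, he⟩ : ∃ e, |y (DD φ + kk φ)| = 8 * e := ⟨_, (mul_div_cancel₀ _ (by norm_num)).symm⟩
    have e0' : 0 ≤ e := by linarith [abs_nonneg (y (DD φ + kk φ))]
    rw [he] at h
    have c (q) (hq : q ∈ chain (DD φ) (kk φ)) : |q.q y| < e :=
      abs_lt_of_sq_lt_sq (by linarith [FF_mem (x := y) hq]) e0'
    have z := abs_lt.1 (abs_lt_of_sq_lt_sq (show (y 1 * y 1) ^ 2 < e ^ 2 by linarith [zeta φ y]) e0')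
    have c0 := abs_lt.1 (c _ (List.mem_cons_self ..))
    have c1 := abs_lt.1 (c _ (List.mem_cons_of_mem _ (List.mem_cons_self ..)))
    have c2 (i) (hi : i < kk φ) := abs_lt.1 (c _ (List.mem_cons_of_mem _ (List.mem_cons_of_mem _
      (List.mem_map.2 ⟨i, List.mem_range.2 hi, rfl⟩))))
    simp only [H3.q, mv, e0] at c0 c1 c2
    have e1 : e < 1 / 64 := by nlinarith [abs_mul_abs_self (y (DD φ + kk φ))]
    have st (i) (hi : i < kk φ) (B : ℝ) (hB : |y (DD φ + i)| ≤ B) : |y (DD φ + (i + 1))| ≤ B ^ 2 + 2 * e := by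
      have := c2 i hi
      have := sq_le_sq' (abs_le.1 hB).1 (abs_le.1 hB).2
      exact abs_le.2 ⟨by nlinarith [mul_self_nonneg (y (DD φ + i)), mul_self_nonneg (y 1)], by nlinarith⟩
    have d (i) (hi : i + 1 ≤ kk φ) : |y (DD φ + (i + 1))| ≤ (2 ^ 2 ^ (i + 1))⁻¹ + 6 * e := by
      induction i with
      | zero =>
        refine (st 0 hi (1 / 2 + e) (abs_le.2 ⟨by simp; linarith, by simp; linarith⟩)).trans ?_
        norm_num; nlinarith
      | succ i ih =>
        refine (st _ hi _ (ih (by omega))).trans ?_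
        have : ((2 : ℝ) ^ 2 ^ (i + 1))⁻¹ ≤ (2 ^ 2 ^ 1)⁻¹ := by gcongr <;> norm_num
        rw [pow_succ 2 (i + 1), pow_mul, ← inv_pow _ 2]
        nlinarith
    have := d (kk φ - 1) (by omega)
    rw [Nat.sub_add_cancel (by omega), he] at this
    exact gap φ e0 (by nlinarith)

def D2 (φ : Qf) : ℕ := DD φ + kk φ + 1
def R2 (φ : Qf) : List Row := [(false, 0, DD φ + kk φ)] :: rows (D2 φ) (H2 φ)
def pred (φ : Qf) : ℕ × List (List (List QC)) × QC :=
  (D2 φ + (R2 φ).length, tab (D2 φ + (R2 φ).length) (R2 φ), (false, toB (6 * (H2 φ).length), [true]))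

theorem pred_pt : PT pred := by
  have h1 : PT kk := by unfold kk; fun_prop
  have h2 : PT H2 := by unfold H2 chain; fun_prop
  have h3 : PT D2 := by unfold D2; fun_prop
  have h : PT fun φ => rows (D2 φ) (H2 φ) := rows_pt.comp (g := fun φ => (D2 φ, H2 φ)) (by fun_prop)
  have h4 : PT R2 := by unfold R2; fun_prop
  exact PT.pair (by fun_prop) (PT.pair (tab_pt.comp (g := fun φ => (D2 φ + (R2 φ).length, R2 φ))
    (by fun_prop)) (by fun_prop))

lemma H2_ne (φ : Qf) : H2 φ ≠ [] := by simp [H2, chain]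

theorem pred_iff (φ : Qf) : ETR φ ↔ ¬SpecLe (pred φ).1 (pred φ).2.1 (qv (pred φ).2.2) := by
  simp only [pred, qv_nat, Nat.cast_mul, Nat.cast_ofNat, R2]
  have : 1 < DD φ := by simp only [DD]; omega
  rw [spec_iff _ (H2_ne φ) (by simp only [D2]; omega) (by omega) (by simp), H2_iff]
  intro h hh
  simp only [H2, List.mem_flatten, List.mem_replicate] at hh
  obtain ⟨l, ⟨-, rfl⟩, hh⟩ := hh
  rcases List.mem_append.1 hh with hh | hh
  · have := HH_bd φ h hh; simp only [D2]; omega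
  · simp only [chain, List.mem_cons, List.mem_map, List.mem_range] at hh
    rcases hh with rfl | rfl | ⟨i, hi, rfl⟩ <;> simp only [D2] <;> omega

end Pool.Agent.H21.ER
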