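import Pool.Agent.H21.ERDefs

namespace Pool.Agent.H21.ER

/-- rationals: sign (`true` = minus), binary numerator, binary denominator -/
abbrev QC := Bool × List Bool × List Bool

/-- value of a coded rational -/
noncomputable def qv (q : QC) : ℝ := (bif q.1 then -1 else 1) * (bin q.2.1 / bin q.2.2)

/-- `T` is a `d × d × d` table of rationals -/
def Shape (d : ℕ) (T : List (List (List QC))) : Prop :=
  T.length = d ∧ ∀ M ∈ T, M.length = d ∧ ∀ r ∈ M, r.length = d ∧ ∀ q ∈ r, bin q.2.2 ≠ 0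

/-- the entry `t i j k` of a table -/
noncomputable def ent (T : List (List (List QC))) (i j k : ℕ) : ℝ :=
  qv (((T.getD i []).getD j []).getD k (false, [], [true]))

/-- `σ` is a singular value of the tensor `T` -/
def SingVal (d : ℕ) (T : List (List (List QC))) (σ : ℝ) : Prop :=
  ∃ x y z : Fin d → ℝ, ∑ i, x i ^ 2 = 1 ∧ ∑ i, y i ^ 2 = 1 ∧ ∑ i, z i ^ 2 = 1 ∧
    (∀ i : Fin d, ∑ j : Fin d, ∑ k : Fin d, ent T i j k * y j * z k = σ * x i) ∧
    (∀ j : Fin d, ∑ i : Fin d, ∑ k : Fin d, ent T i j k * x i * z k = σ * y j) ∧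
    (∀ k : Fin d, ∑ i : Fin d, ∑ j : Fin d, ent T i j k * x i * y j = σ * z k)

/-- the spectral norm of `T` is at most `σ` -/
def SpecLe (d : ℕ) (T : List (List (List QC))) (σ : ℝ) : Prop :=
  ∀ x y z : Fin d → ℝ, ∑ i, x i ^ 2 = 1 → ∑ i, y i ^ 2 = 1 → ∑ i, z i ^ 2 = 1 →
    |∑ i : Fin d, ∑ j : Fin d, ∑ k : Fin d, ent T i j k * x i * y j * z k| ≤ σ

end Pool.Agent.H21.ER
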