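import Mathlib

namespace Pool.Agent.H21.Tr

open Function MulAction Nat

lemma sum_compat {X Y D R : Type*} [Fintype X] [Fintype Y] [Fintype D] [DecidableEq X]
    [DecidableEq Y] [DecidableEq D] [CommSemiring R] (a : X → D) (b : Y → D) (w : X → R)
    (τ : X ≃ Y) (hτ : ∀ c, a c = b (τ c)) :
    ∑ σ : X ≃ Y, ∏ c, (if a c = b (σ c) then w c else 0) =
      ((∏ d, (Fintype.card {c // a c = d})! : ℕ) : R) * ∏ c, w c := by
  simp only [Fintype.prod_ite_zero]
  rw [← Finset.sum_filter, Finset.sum_const, nsmul_eq_mul, ← DomMulAct.stabilizer_card,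
    ← Fintype.card_subtype]
  congr 2
  refine Fintype.card_congr (Equiv.subtypeEquiv (Equiv.equivCongr (Equiv.refl X) τ.symm) fun σ => ?_)
  rw [funext_iff]
  refine forall_congr' fun c => ?_
  simp [hτ (τ.symm (σ c)), eq_comm]

lemma count {G X Y D : Type*} [Fintype G] [Fintype X] [Fintype Y] [Fintype D] [DecidableEq D]
    (p : G → X) (q : G → Y) (a : X → D) (b : Y → D) (w : X → ℕ)
    (hN : ∀ c y, Nat.card {g // p g = c ∧ q g = y} = if a c = b y then w c else 0) :
    Nat.card {T : Set G // Bijective (T.domRestrict p) ∧ Bijective (T.domRestrict q)} = 0 ∨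
    Nat.card {T : Set G // Bijective (T.domRestrict p) ∧ Bijective (T.domRestrict q)} =
      (∏ d, (Fintype.card {c // a c = d})!) * ∏ c, w c := by
  classical
  let S := {s : X → G // (∀ c, p (s c) = c) ∧ Bijective (q ∘ s)}
  have h1 : Nat.card S =
      Nat.card {T : Set G // Bijective (T.domRestrict p) ∧ Bijective (T.domRestrict q)} := by
    refine Nat.card_eq_of_bijective (fun s => ⟨Set.range s.1, ⟨?_, fun c => ⟨⟨_, c, rfl⟩, s.2.1 c⟩⟩,
      ?_, fun y => ?_⟩) ⟨fun s s' h => ?_, fun T => ?_⟩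
    · rintro ⟨_, c, rfl⟩ ⟨_, c', rfl⟩ h
      exact Subtype.ext (congrArg s.1 ((s.2.1 c).symm.trans (h.trans (s.2.1 c'))))
    · rintro ⟨_, c, rfl⟩ ⟨_, c', rfl⟩ h
      exact Subtype.ext (congrArg s.1 (s.2.2.1 h))
    · obtain ⟨c, hc⟩ := s.2.2.2 y
      exact ⟨⟨_, c, rfl⟩, hc⟩
    · have h' : Set.range s.1 = Set.range s'.1 := congrArg Subtype.val h
      refine Subtype.ext (funext fun c => ?_)
      obtain ⟨c', hc⟩ : s.1 c ∈ Set.range s'.1 := h' ▸ ⟨c, rfl⟩
      have : c' = c := by rw [← s'.2.1 c', hc, s.2.1]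
      rw [← hc, this]
    · let e := (Equiv.ofBijective _ T.2.1).symm
      refine ⟨⟨fun c => (e c).1, fun c => (Equiv.ofBijective _ T.2.1).apply_symm_apply c,
        T.2.2.comp e.bijective⟩, Subtype.ext ?_⟩
      change Set.range (Subtype.val ∘ e) = T.1
      rw [e.surjective.range_comp, Subtype.range_coe]
  let f : S → X ≃ Y := fun s => Equiv.ofBijective _ s.2.2
  have h2 : Nat.card S = ∑ σ : X ≃ Y, ∏ c, (if a c = b (σ c) then w c else 0) := by
    rw [← Nat.card_congr (Equiv.sigmaFiberEquiv f), Nat.card_sigma]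
    refine Finset.sum_congr rfl fun σ _ => ?_
    simp only [← hN]
    rw [← Nat.card_pi]
    exact Nat.card_congr
      { toFun := fun s c => ⟨s.1.1 c, s.1.2.1 c, congrArg (fun e : X ≃ Y => e c) s.2⟩
        invFun := fun t => ⟨⟨fun c => (t c).1, fun c => (t c).2.1, by
          rw [show (q ∘ fun c => (t c).1) = σ from funext fun c => (t c).2.2]
          exact σ.bijective⟩, Equiv.ext fun c => (t c).2.2⟩
        left_inv := fun _ => rfl
        right_inv := fun _ => rfl }
  rw [← h1, h2]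
  by_cases h : ∃ τ : X ≃ Y, ∀ c, a c = b (τ c)
  · obtain ⟨τ, hτ⟩ := h
    exact Or.inr (by simpa using sum_compat a b w τ hτ)
  · refine Or.inl (Finset.sum_eq_zero fun σ _ => ?_)
    rw [Fintype.prod_ite_zero, if_neg fun h1 => h ⟨σ, h1⟩]

def f (t : ℕ) : ℚ := (t ! : ℚ) / (t : ℚ) ^ t

lemma f_succ (t : ℕ) (ht : 1 ≤ t) : f (t + 1) ≤ f t := by
  have h : (0 : ℚ) < t := by exact_mod_cast ht
  unfold f
  rw [Nat.factorial_succ, _root_.pow_succ', Nat.cast_mul, mul_div_mul_left _ _ (by positivity)]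
  gcongr
  exact Nat.le_succ t

lemma f_anti {s t : ℕ} (hs : 1 ≤ s) (h : s ≤ t) : f t ≤ f s := by
  induction h with
  | refl => exact le_rfl
  | step h ih => exact (f_succ _ (hs.trans h)).trans ih

lemma f_nonneg (t : ℕ) : 0 ≤ f t := by unfold f; positivity

lemma prod_le {D : Type*} [DecidableEq D] (t : D → ℕ) (ht : ∀ d, 1 ≤ t d) (s : Finset D) (d : D)
    (hd : d ∈ s) (m : ℕ) (hm : 1 ≤ m) (h : f m < ∏ d ∈ s, f (t d)) : t d < m := by
  by_contra h1
  rw [← Finset.mul_prod_erase s _ hd] at h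
  have h2 : ∏ x ∈ s.erase d, f (t x) ≤ 1 := Finset.prod_le_one (fun _ _ => f_nonneg _)
    fun x _ => (f_anti le_rfl (ht x)).trans (by norm_num [f])
  nlinarith [f_anti hm (not_lt.1 h1), mul_le_mul_of_nonneg_left h2 (f_nonneg (t d))]

lemma arith {D : Type*} [Fintype D] (t : D → ℕ) (ht : ∀ d, 1 ≤ t d)
    (h : ∏ d, f (t d) = 12 / 625) :
    ∃ d e, t d = 2 ∧ t e = 5 ∧ ∀ x, x ≠ d → x ≠ e → t x = 1 := by
  classical
  have h6 := fun d => prod_le t ht _ d (Finset.mem_univ d) 6 (by omega)
    (by rw [h]; norm_num [f, Nat.factorial])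
  obtain ⟨e, he⟩ : ∃ e, t e = 5 := by
    have h1 : (∏ d, (t d)!) * 625 = 12 * ∏ d, t d ^ t d := by
      simp only [f, Finset.prod_div_distrib] at h
      rw [div_eq_div_iff (Finset.prod_ne_zero_iff.2 fun d _ => by
        have := ht d; positivity) (by norm_num)] at h
      exact_mod_cast h
    have h2 : 5 ∣ ∏ d, t d ^ t d := by omega
    obtain ⟨e, -, he⟩ := (Nat.prime_five.prime.dvd_finsetProd_iff _).1 h2
    have := Nat.prime_five.dvd_of_dvd_pow he
    have := h6 e
    have := ht e
    exact ⟨e, by omega⟩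
  have h2 : ∏ d ∈ Finset.univ.erase e, f (t d) = 1 / 2 := by
    rw [← Finset.mul_prod_erase _ _ (Finset.mem_univ e), he] at h
    norm_num [f, Nat.factorial] at h ⊢
    linarith
  obtain ⟨d, hd, hd2⟩ : ∃ d ∈ Finset.univ.erase e, t d = 2 := by
    by_contra! h3
    rw [Finset.prod_eq_one fun d hd => by
      have := prod_le t ht _ d hd 3 (by omega) (by rw [h2]; norm_num [f, Nat.factorial])
      have := h3 d hd
      have := ht d
      rw [show t d = 1 by omega]; norm_num [f]] at h2
    norm_num at h2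
  refine ⟨d, e, hd2, he, fun x h3 h4 => ?_⟩
  rw [← Finset.mul_prod_erase _ _ hd, hd2] at h2
  have := prod_le t ht ((Finset.univ.erase e).erase d) x (by simp [h3, h4]) 2 (by omega) (by
    have : f 2 = 1 / 2 := by norm_num [f]
    rw [this] at h2 ⊢
    linarith)
  have := ht x
  omega

lemma orb_stab {G X : Type*} [Group G] [Finite G] [MulAction G X] (K : Subgroup G) (x : X) :
    (orbit K x).ncard * Nat.card (K ⊓ stabilizer G x : Subgroup G) = Nat.card K := by
  rw [← index_stabilizer, ← (stabilizer K x).index_mul_card]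
  congr 1
  exact Nat.card_congr
    { toFun := fun g => ⟨⟨g.1, g.2.1⟩, g.2.2⟩
      invFun := fun g => ⟨g.1.1, g.1.2, g.2⟩
      left_inv := fun _ => rfl
      right_inv := fun _ => rfl }

open Pointwise in
lemma grp {G X : Type*} [Group G] [Finite G] [Finite X] [MulAction G X] [IsPretransitive G X]
    (K : Subgroup G) (hK : ∀ x : X, Nat.card (stabilizer G x) = Nat.card K) (c e : X)
    (hc : (orbit K c).ncard = 2) (he : (orbit K e).ncard = 5)
    (hx : ∀ x, x ∉ orbit K c → x ∉ orbit K e → (orbit K x).ncard = 1) : False := by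
  classical
  have hpos : 0 < Nat.card K := Nat.card_pos
  let L : Subgroup G := K ⊓ stabilizer G c
  have hL : 2 * Nat.card L = Nat.card K := hc ▸ orb_stab K c
  have hnorm : ∀ S : Subgroup G, L ≤ S → Nat.card S = Nat.card K →
      S ≤ Subgroup.normalizer (L : Set G) := by
    intro S h1 h2
    rw [← Subgroup.normal_subgroupOf_iff_le_normalizer h1]
    refine Subgroup.normal_of_index_eq_two ?_
    have h3 := (L.subgroupOf S).index_mul_card
    rw [Nat.card_congr (Subgroup.subgroupOfEquivOfLe h1).toEquiv] at h3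
    exact Nat.eq_of_mul_eq_mul_right (Nat.card_pos (α := L)) (by omega)
  let M := Subgroup.normalizer (L : Set G)
  have hKM : K ≤ M := hnorm K inf_le_left rfl
  have hM : ∀ m ∈ M, ∀ x : X, L ≤ stabilizer G x → L ≤ stabilizer G (m • x) := by
    intro m hm x h g hg
    have h1 : m⁻¹ * g * m ∈ L := by
      rw [Subgroup.mem_normalizer_iff''] at hm
      exact (hm g).1 hg
    have h2 : (m⁻¹ * g * m) • x = x := h h1
    rw [mem_stabilizer_iff, smul_smul, show g * m = m * (m⁻¹ * g * m) by group, mul_smul, h2]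
  have hfix : ∀ x : X, (orbit K x).ncard = 1 ↔ stabilizer G x = K := fun x => by
    have h1 := orb_stab K x
    constructor
    · intro h
      rw [h, one_mul] at h1
      have h2 := Subgroup.eq_of_le_of_card_ge (inf_le_left (a := K) (b := stabilizer G x)) h1.ge
      exact (Subgroup.eq_of_le_of_card_ge (h2 ▸ inf_le_right) (hK x).le).symm
    · intro h
      rw [h, inf_idem] at h1
      exact Nat.eq_of_mul_eq_mul_right hpos (by omega)
  have hU : ∀ x, L ≤ stabilizer G x ↔ x ∉ orbit K e := fun x => by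
    constructor
    · intro h hxe
      have h1 := orb_stab K x
      rw [orbit_eq_iff.2 hxe, he] at h1
      have := Subgroup.card_le_of_le (le_inf inf_le_left h : L ≤ K ⊓ stabilizer G x)
      omega
    · intro h
      by_cases h1 : x ∈ orbit K c
      · obtain ⟨k, rfl⟩ := h1
        exact hM k (hKM k.2) c inf_le_right
      · rw [(hfix x).1 (hx x h1 h)]; exact inf_le_left
  have hce : c ∉ orbit K e := (hU c).1 inf_le_right
  have hr : ∀ x, x ∉ orbit K e → (orbit M x).ncard = (orbit M c).ncard := fun x h => by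
    have h1 := orb_stab M x
    have h2 := orb_stab M c
    rw [inf_eq_right.2 (hnorm _ ((hU x).2 h) (hK x)), hK] at h1
    rw [inf_eq_right.2 (hnorm _ ((hU c).2 hce) (hK c)), hK] at h2
    exact Nat.eq_of_mul_eq_mul_right hpos (h1.trans h2.symm)
  have h1 : (orbit M c).ncard ∣ Nat.card X :=
    (IsBlock.of_orbit (hnorm _ ((hU c).2 hce) (hK c))).ncard_dvd_card ⟨c, mem_orbit_self c⟩
  have h2 : (orbit M c).ncard ∣ (orbit K e)ᶜ.ncard := by
    haveI := Fintype.ofFinite X
    rw [Set.ncard_eq_toFinset_card' (orbit K e)ᶜ]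
    rw [Finset.card_eq_sum_card_image fun x : X => orbit M x]
    apply Finset.dvd_sum
    intro a ha
    refine dvd_of_eq (Eq.symm ?_)
    obtain ⟨x, h3, rfl⟩ := Finset.mem_image.1 ha
    have h4 : x ∉ orbit K e := by simpa using h3
    rw [← hr x h4, ← Set.ncard_coe_finset]
    congr 1
    ext y
    simp only [Finset.coe_filter, Set.mem_toFinset, Set.mem_compl_iff, Set.mem_setOf_eq,
      orbit_eq_iff, and_iff_right_iff_imp]
    rintro ⟨m, rfl⟩
    exact (hU _).1 (hM m m.2 x ((hU x).2 h4))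
  have h3 : 2 ≤ (orbit M c).ncard := hc ▸ Set.ncard_le_ncard
    (by rintro _ ⟨k, rfl⟩; exact ⟨⟨k, hKM k.2⟩, rfl⟩) (Set.toFinite _)
  have h4 := Set.ncard_add_ncard_compl (orbit K e)
  let Φ : Set X := {x | stabilizer G x = K}
  have h5 : (orbit K e)ᶜ.ncard = 2 + Φ.ncard := by
    rw [← hc, ← Set.ncard_union_eq (Set.disjoint_left.2 fun x h h' => by
      have := (hfix x).2 h'
      rw [orbit_eq_iff.2 h] at this; omega)]
    congr 1
    ext x
    constructor
    · intro h
      by_cases h6 : x ∈ orbit K c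
      · exact Or.inl h6
      · exact Or.inr ((hfix x).1 (hx x h6 h))
    · rintro (h | h) h'
      · have := (orbit_eq_iff.2 h).symm.trans (orbit_eq_iff.2 h')
        rw [this] at hc; omega
      · have := (hfix x).2 h
        rw [orbit_eq_iff.2 h'] at this; omega
  have h6 : (orbit M c).ncard = 5 := by
    rw [← h4, he] at h1
    rcases (Nat.dvd_prime Nat.prime_five).1 ((Nat.dvd_add_left h2).1 h1) with h | h <;> omega
  have h7 : IsBlock G Φ := isBlock_iff_smul_eq_of_mem.2 fun {g a} ha hg => by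
    refine Set.eq_of_subset_of_ncard_le ?_ (Set.ncard_smul_set g Φ).ge
    rintro _ ⟨x, h, rfl⟩
    change stabilizer G (g • x) = K
    rw [stabilizer_smul_eq_stabilizer_map_conj, h.trans ha.symm,
      ← stabilizer_smul_eq_stabilizer_map_conj, hg]
  rw [h6, h5] at h2
  have h8 := h7.ncard_dvd_card (Set.nonempty_of_ncard_ne_zero (by omega))
  rw [← h4, he, h5, ← add_assoc] at h8
  rcases (Nat.dvd_prime Nat.prime_seven).1 ((Nat.dvd_add_left dvd_rfl).1 h8) with h | h <;> omega

end Pool.Agent.H21.Tr
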