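import Pool.Agent.H21.TripleDefs

namespace Pool.Agent.H21.Triple

variable {K : Type*} [Field K] {n : ℕ}

lemma exists_basis (P Q : Matrix (Fin n) (Fin n) K) (h : Q * P = 1) :
    ∃ b : Module.Basis (Fin n) K (Fin n → K),
      ∀ M, LinearMap.toMatrix b b (Matrix.toLin' M) = Q * M * P := by
  have h' : P * Q = 1 := mul_eq_one_comm.1 h
  let e : (Fin n → K) ≃ₗ[K] (Fin n → K) := Matrix.toLin'OfInv h h'
  refine ⟨(Pi.basisFun K (Fin n)).map e, fun M => ?_⟩
  ext i j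
  rw [LinearMap.toMatrix_apply]
  simp [e, Matrix.toLin'OfInv, Matrix.mul_apply, Matrix.mulVec, dotProduct, Finset.mul_sum,
    Finset.sum_mul, mul_assoc]

lemma diagTriTri_of (P Q A B C : Matrix (Fin n) (Fin n) K) (h : Q * P = 1)
    (hA : (Q * A * P).IsDiag) (hB : IrrTri (Q * B * P)) (hC : IrrTri (Q * C * P)) :
    DiagTriTri (Matrix.toLin' A) (Matrix.toLin' B) (Matrix.toLin' C) := by
  obtain ⟨b, hb⟩ := exists_basis P Q h
  exact ⟨n, b, by rwa [hb], by rwa [hb], by rwa [hb]⟩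

lemma diagTri_of (P Q A B : Matrix (Fin n) (Fin n) K) (h : Q * P = 1)
    (hA : (Q * A * P).IsDiag) (hB : IrrTri (Q * B * P)) :
    DiagTri (Matrix.toLin' A) (Matrix.toLin' B) := by
  obtain ⟨b, hb⟩ := exists_basis P Q h
  exact ⟨n, b, by rwa [hb], by rwa [hb]⟩

lemma irrTri3 (a b c d e f g : K) (hb : b ≠ 0) (hc : c ≠ 0) (he : e ≠ 0) (hf : f ≠ 0) :
    IrrTri !![a, b, 0; c, d, e; 0, f, g] := by
  intro i j; fin_cases i <;> fin_cases j <;> simp [*]

lemma isDiag3 (a b c : K) : (!![a, 0, 0; 0, b, 0; 0, 0, c]).IsDiag := by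
  intro i j h; fin_cases i <;> fin_cases j <;> simp at h ⊢

lemma irrTri2 (a b c d : K) (hb : b ≠ 0) (hc : c ≠ 0) : IrrTri !![a, b; c, d] := by
  intro i j; fin_cases i <;> fin_cases j <;> simp [*]

lemma isDiag2 (a b : K) : (!![a, 0; 0, b]).IsDiag := by
  intro i j h; fin_cases i <;> fin_cases j <;> simp at h ⊢

end Pool.Agent.H21.Triple
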