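import Mathlib

namespace Pool.Agent.H21.Triple

variable {K V : Type*} [Field K] [AddCommGroup V] [Module K V]

def IrrTri {n : ℕ} (M : Matrix (Fin n) (Fin n) K) : Prop :=
  ∀ i j : Fin n, ((i : ℕ) + 1 < j ∨ (j : ℕ) + 1 < i → M i j = 0) ∧
    ((i : ℕ) + 1 = j ∨ (j : ℕ) + 1 = i → M i j ≠ 0)

def DiagTri (A B : Module.End K V) : Prop :=
  ∃ (n : ℕ) (b : Module.Basis (Fin n) K V),
    (LinearMap.toMatrix b b A).IsDiag ∧ IrrTri (LinearMap.toMatrix b b B)

def DiagTriTri (A B C : Module.End K V) : Prop :=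
  ∃ (n : ℕ) (b : Module.Basis (Fin n) K V), (LinearMap.toMatrix b b A).IsDiag ∧
    IrrTri (LinearMap.toMatrix b b B) ∧ IrrTri (LinearMap.toMatrix b b C)

def IsLeonardPair (A B : Module.End K V) : Prop := DiagTri A B ∧ DiagTri B A

def IsLeonardTriple (A B C : Module.End K V) : Prop :=
  DiagTriTri A B C ∧ DiagTriTri B A C ∧ DiagTriTri C A B

end Pool.Agent.H21.Triple
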